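import Pool.Agent.OB.StGB
import Pool.Agent.MUX.XLib
import Pool.Agent.MUX.E_RNG
import Pool.Agent.MUX.E_TRA
import Pool.Agent.MUX.Y_MLR
import Pool.Agent.MUX.Y_NZL
import Pool.Agent.MUX.Y_NLE

/-!
# OB, block GR, part (B), module CTX (helper85): from the hypotheses to `CtxG`
-/

set_option autoImplicit false

namespace Pool.Agent.OBB

open _root_.MU3 _root_.Pool.Agent.MU3A _root_.Pool.Agent.MU3B _root_.Pool.Agent.MUX _root_.Pool.Agent.MUXU _root_.Pool.Agent.MUXE
open _root_.Pool.Agent.RI _root_.Pool.Agent.NS _root_.Pool.Agent.OB _root_.Pool.Agent.OBE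
open _root_.Pool.Agent.MUXV (GR InK tX)
open NumberField IsDedekindDomain

noncomputable section

namespace CTX

lemma wC_int {A B : ℤ} (hc : CQ A B) : IsIntegral ℤ (wC A B) := by
  refine ⟨Polynomial.X ^ 2 - Polynomial.C B * Polynomial.X - Polynomial.C A, ?_, ?_⟩
  · monicity!
  · have := wC_sq hc
    simp only [Polynomial.eval₂_sub, Polynomial.eval₂_mul, Polynomial.eval₂_pow,
      Polynomial.eval₂_X, Polynomial.eval₂_C]
    simp only [algebraMap_int_eq, eq_intCast]
    linear_combination this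

lemma emb_mem_V {A B : ℤ} (hc : CQ A B) (V : ValuationSubring ℂ) (x : OO A B) : emb x ∈ V := by
  have h1 : wC A B ∈ V := by
    have h2 : IsIntegral V (wC A B) := (wC_int hc).tower_top
    obtain ⟨y, hy⟩ := IsIntegrallyClosed.isIntegral_iff.1 h2
    rw [← hy]
    exact y.2
  have h3 : ∀ n : ℤ, (n : ℂ) ∈ V := fun n => intCast_mem V.toSubring n
  exact V.add_mem _ _ (h3 _) (V.mul_mem _ _ (h3 _) h1)

end CTX

theorem tg_CTX (h : Sb_UNT) : Sg_CTX := by
  intro p er A B P V hC hT hG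
  have hc : CQ A B := hC.cq
  have hR : RingE A B := te_RNG A B hc
  have vp : V.valuation (p : ℂ) < 1 := by
    have h1 : emb ((p : ℕ) : OO A B) ∈ V.nonunits := (hC.hV _).2 hC.mem
    rw [emb_natCast hc] at h1
    exact V.mem_nonunits_iff.1 h1
  have hcp : Cp p V := ⟨hC.pp, by have := hC.p5; omega, vp⟩
  have hunit : ∀ c : OO A B, c ∉ P → V.valuation (emb c) = 1 := by
    intro c hcP
    refine le_antisymm ((V.valuation_le_one_iff _).2 (CTX.emb_mem_V hc V c)) (not_lt.1 fun h1 => ?_)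
    exact hcP ((hC.hV c).1 (V.mem_nonunits_iff.2 h1))
  refine { hC, hcp with tor := hT, ex := ?_, two := ?_, good := ?_, ker := ?_ }
  · obtain ⟨L, om, hL⟩ := (MUXY.ty_NLE (MUXY.ty_NZL MUXY.ty_MLR)) A B hc hC.ex3 hC.ex4 ⊤ (by
      intro h0
      have h1 : (1 : OO A B) ∈ (⊤ : Ideal (OO A B)) := trivial
      rw [h0, Ideal.mem_bot] at h1
      have h2 := natCast_ne_zero' hc (n := 1) one_ne_zero
      rw [Nat.cast_one] at h2
      exact h2 h1)
    exact ⟨L, ⊤, om, hL⟩
  · intro h2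
    have hodd : p % 2 = 1 := by
      rcases hC.pp.eq_two_or_odd with h3 | h3
      · have := hC.p5
        omega
      · exact h3
    have h3 : ((p : ℕ) : OO A B) = ((2 : ℕ) : OO A B) * ((p / 2 : ℕ) : OO A B) + 1 := by
      have h4 : p = 2 * (p / 2) + 1 := by omega
      have h5 : ((p : ℕ) : OO A B) = ((2 * (p / 2) + 1 : ℕ) : OO A B) := congrArg _ h4
      rw [h5, Nat.cast_add, Nat.cast_mul, Nat.cast_one]
    have h6 : (1 : OO A B) = ((p : ℕ) : OO A B) - ((2 : ℕ) : OO A B) * ((p / 2 : ℕ) : OO A B) := by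
      rw [h3]
      ring
    apply hC.prime.ne_top
    rw [Ideal.eq_top_iff_one, h6]
    exact Ideal.sub_mem _ hC.mem (Ideal.mul_mem_right _ _ h2)
  · rintro L ⟨b, om, hL⟩
    exact hG b L om hL
  · intro L u e lam hL hgood m hm z hz hin
    obtain ⟨c, hcm, hcP⟩ := SetLike.not_le_iff_exists.1 hm
    have hv := hunit c hcP
    have hne : emb c ≠ 0 := by
      intro h0
      rw [h0, map_zero] at hv
      exact zero_ne_one hv
    have hisg : Isg L L (emb c) := (te_TRA A B hR L hL).1 c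
    have hk := (h p V L L u e lam u e lam (emb c) hcp hgood hgood hne hisg).1.2 (by
      rw [mul_div_assoc, div_self hgood.u0, mul_one, hv])
    exact hk z (hz c hcm) hin

end

end Pool.Agent.OBB
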