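import Pool.Agent.OB.StGB
import Pool.Agent.NS.RN_LGF

/-!
# OB, block GR, part (B), module E2T: the points of order two

`tg_E2T (h : Sb_LEG) : Sg_E2T`.
-/

set_option autoImplicit false

namespace Pool.Agent.OBB

open _root_.MU3 _root_.Pool.Agent.MU3A _root_.Pool.Agent.MU3B _root_.Pool.Agent.MUX _root_.Pool.Agent.MUXU _root_.Pool.Agent.MUXE
open _root_.Pool.Agent.RI _root_.Pool.Agent.NS _root_.Pool.Agent.OB _root_.Pool.Agent.OBE
open NumberField IsDedekindDomain

noncomputable section

namespace E2T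

theorem xn_wp (L : PeriodPair) (w : ℂ) : xn L w + 1 / 12 = L.weierstrassP w := by
  unfold xn
  ring

theorem vals {V : ValuationSubring ℂ} {u lam : ℂ} (vl : V.valuation lam = 1)
    (vl1 : V.valuation (1 - lam) = 1) {c d : ℂ} (hc : c = 0 ∨ c = 1 ∨ c = lam)
    (hd : d = 0 ∨ d = 1 ∨ d = lam) :
    c * u ^ 2 = d * u ^ 2 ∨ V.valuation (c * u ^ 2 - d * u ^ 2) = V.valuation (u ^ 2) := by
  have e0 : c * u ^ 2 - d * u ^ 2 = (c - d) * u ^ 2 := by ring
  rw [e0, map_mul]
  have key : c = d ∨ V.valuation (c - d) = 1 := by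
    rcases hc with rfl | rfl | rfl <;> rcases hd with rfl | rfl | rfl
    · exact Or.inl rfl
    · right
      rw [zero_sub, Valuation.map_neg, map_one]
    · right
      rw [zero_sub, Valuation.map_neg, vl]
    · right
      rw [sub_zero, map_one]
    · exact Or.inl rfl
    · exact Or.inr vl1
    · right
      rw [sub_zero, vl]
    · right
      rw [Valuation.map_sub_swap, vl1]
    · exact Or.inl rfl
  rcases key with h | h
  · exact Or.inl (by rw [h])
  · right
    rw [h, one_mul]

end E2T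

/-- (E2T) the points of order two -/
theorem tg_E2T (h0 : Sb_LEG) : Sg_E2T := by
  intro p V L u e lam hp h
  have hu : u ≠ 0 := h.u0
  have hu2 : u ^ 2 ≠ 0 := pow_ne_zero 2 hu
  obtain ⟨-, -, -, -, -, -, hx⟩ := _root_.Pool.Agent.NSR.tr_LGF L u e lam ⟨h.u0, h.eq⟩
  have hP : ∀ w, L.weierstrassP w = e + xu L u e w * u ^ 2 := by
    intro w
    unfold xu
    rw [div_mul_cancel₀ _ hu2]
    ring
  refine ⟨?_, ?_, ?_⟩
  · obtain ⟨w₁, w₂, a1, a2, b1, b2, c1, c2, -⟩ := h0 p V L u e lam hp h
    refine ⟨w₁, w₂, a2, a1, b2, b1, ?_, ?_⟩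
    · rw [E2T.xn_wp, c1]
    · rw [E2T.xn_wp, ← c2, c1]
      ring
  · intro w hw h2
    rw [E2T.xn_wp, hP w]
    rcases hx w hw h2 with h3 | h3 | h3
    · left
      rw [h3]
      ring
    · right; left
      rw [h3]
      ring
    · right; right
      rw [h3]
  · intro w w' hw h2 hw' h2'
    have e1 : xn L w = e - 1 / 12 + xu L u e w * u ^ 2 := by
      have := E2T.xn_wp L w
      rw [hP w] at this
      linear_combination this
    have e2 : xn L w' = e - 1 / 12 + xu L u e w' * u ^ 2 := by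
      have := E2T.xn_wp L w'
      rw [hP w'] at this
      linear_combination this
    rcases E2T.vals (u := u) h.vl h.vl1 (hx w hw h2) (hx w' hw' h2') with h3 | h3
    · left
      rw [e1, e2, h3]
    · right
      rw [e1, e2, add_sub_add_left_eq_sub, h3]

end

end Pool.Agent.OBB
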