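import Pool.Agent.OB.StGB
import Pool.Agent.MUX.E_GAL
import Pool.Agent.MUX.XLib

/-!
# OB, block GR part (B), module END: the last step
-/

set_option autoImplicit false

namespace Pool.Agent.OBB

open _root_.MU3 _root_.Pool.Agent.MU3A _root_.Pool.Agent.MU3B _root_.Pool.Agent.MUX _root_.Pool.Agent.MUXU _root_.Pool.Agent.MUXE
open _root_.Pool.Agent.RI _root_.Pool.Agent.NS _root_.Pool.Agent.OB _root_.Pool.Agent.OBE

noncomputable section

/-- END. -/
theorem tg_END (h : Sg_ENL) : Sg_END := by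
  intro p er A B P V hC m Λ hm hm2 hmΛ hmP hΛ h2 h3 s c hs hc hcc y hy
  have hE := h p er A B P V hC m Λ hm hm2 hmΛ hmP hΛ h2 h3 s c hs hc hcc
  have hfix := _root_.Pool.Agent.MUXE.GalX.fix hs.1
  induction hy using IntermediateField.adjoin_induction with
  | mem x hx =>
    obtain ⟨b, L, om, hL, hx | ⟨z, hz, hzL, hx⟩⟩ := hx
    · rw [hx]
      exact (hc L ⟨b, om, hL⟩).1
    · rw [hx]
      refine hE L ⟨b, om, hL⟩ z hzL ?_
      have h4 := hz ((2 : ℕ) : OO A B) (Ideal.mem_span_singleton_self _)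
      rwa [_root_.Pool.Agent.MUX.emb_natCast hC.cq, Nat.cast_ofNat] at h4
  | algebraMap x => exact hfix x x.2
  | add x y _ _ hx hy => rw [map_add, hx, hy]
  | inv x _ hx => rw [map_inv₀, hx]
  | mul x y _ _ hx hy => rw [map_mul, hx, hy]

end

end Pool.Agent.OBB
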