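import Pool.Agent.OB.StGB
import Pool.Agent.MUX.E_TRB

/-!
# OB, block GR, part (B), module ENL (helper92): the last step for one lattice
-/

set_option autoImplicit false

namespace Pool.Agent.OBB

open _root_.MU3 _root_.Pool.Agent.MU3A _root_.Pool.Agent.MU3B _root_.Pool.Agent.MUX _root_.Pool.Agent.MUXU _root_.Pool.Agent.MUXE
open _root_.Pool.Agent.RI _root_.Pool.Agent.NS _root_.Pool.Agent.OB _root_.Pool.Agent.OBE
open _root_.Pool.Agent.MUXV (GR InK tX)

noncomputable section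

namespace ENL

/-- a maximal ideal is coprime to an element outside -/
theorem coprime_sp {A B : ℤ} (hR : RingE A B) {Λ : Ideal (OO A B)} (hΛ : Λ.IsPrime)
    (hΛ0 : Λ ≠ ⊥) {x : OO A B} (hx : x ∉ Λ) : IsCoprime (sp x) Λ := by
  have := hR.ded
  have hmax : Λ.IsMaximal := hΛ.isMaximal hΛ0
  rw [Ideal.isCoprime_iff_sup_eq, sup_comm]
  refine hmax.out.2 _ (lt_of_le_of_ne le_sup_left fun h => hx ?_)
  rw [h]
  exact Ideal.mem_sup_right (Ideal.mem_span_singleton_self x)

end ENL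

open ENL in
theorem tg_ENL (h1 : Sb_COE) (h2 : Sb_GRN) (h3 : Sg_E2T) : Sg_ENL := by
  intro p er A B P V h m Λ hm hm2 hmΛ hmP hΛ h2Λ h3Λ s c hI hM hc L hL w hw h2w
  have hR : RingE A B := te_RNG A B h.cq
  obtain ⟨φ, hφ⟩ := hR.hom
  have heN : ∀ k : ℕ, emb ((k : ℕ) : OO A B) = (k : ℂ) := fun k => by rw [← hφ, map_natCast]
  have hem : ∀ x y : OO A B, emb (x * y) = emb x * emb y := fun x y => by
    rw [← hφ, ← hφ, ← hφ, map_mul]
  have hes : ∀ x : OO A B, emb (x - 1) = emb x - 1 := fun x => by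
    rw [← hφ, ← hφ, map_sub, map_one]
  have hea : ∀ x : OO A B, emb (x + 1) = emb x + 1 := fun x => by
    rw [← hφ, ← hφ, map_add, map_one]
  obtain ⟨t1, t2, -, t4, t5, -, -, -, t9⟩ := te_TRA A B hR L hL
  obtain ⟨u, e, lam, hG, hu2, he, -⟩ := h.good L hL
  obtain ⟨ξ, G⟩ := h2 p V L u e lam h.toCp hG
  obtain ⟨c1, -, -, -, -, -, -, -⟩ := h1 p V L u e lam h.toCp hG
  obtain ⟨⟨w₁, w₂, hw1, h2w1, hw2, h2w2, he1, he2⟩, hall, hdiff⟩ := h3 p V L u e lam h.toCp hG
  have hu0 : u ≠ 0 := hG.u0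
  have hu20 : u ^ 2 ≠ 0 := pow_ne_zero 2 hu0
  have hvu : 0 < V.valuation (u ^ 2) :=
    lt_of_le_of_ne zero_le ((Valuation.ne_zero_iff _).2 hu20).symm
  have hX : ∀ z, xu L u e z = (xn L z + 1 / 12 - e) / u ^ 2 := fun z => by
    unfold xu xn
    congr 1
    ring
  have hΛ0 : Λ ≠ ⊥ := fun h0 => hm (le_bot_iff.1 (h0 ▸ hmΛ))
  have hΛP : ¬ Λ ≤ P := fun h0 => hmP (hmΛ.trans h0)
  -- a point
  obtain ⟨z, hz, hz'⟩ := (te_TRB A B hR L hL).1 ⊤ Λ hΛ0 hΛ.ne_top.lt_top
  have hzL : z ∉ L.lattice := fun h0 => hz' fun x _ => t1 x z h0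
  have hz2 : Tor Λ L (2 * z) := by
    rw [two_mul]
    exact t2 Λ z z hz hz
  have hz3 : Tor Λ L (z + 2 * z) := t2 Λ _ _ hz hz2
  have hzn : Tor Λ L (z - 2 * z) := fun x hx => by
    have h0 : emb x * (z - 2 * z) = -(emb x * z) := by ring
    rw [h0]
    exact neg_mem (hz x hx)
  have hn : ∀ k : ℕ, ((k : ℕ) : OO A B) ∉ Λ → (k : ℂ) * z ∉ L.lattice := by
    intro k hk h0
    refine hzL (t4 (sp ((k : ℕ) : OO A B)) Λ z (coprime_sp hR hΛ hΛ0 hk) ?_ hz)
    rw [t5, heN]
    exact h0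
  have hz2L : 2 * z ∉ L.lattice := by
    have := hn 2 h2Λ
    rwa [Nat.cast_ofNat] at this
  have hz3L : z + 2 * z ∉ L.lattice := by
    have := hn 3 h3Λ
    rw [Nat.cast_ofNat] at this
    have h0 : z + 2 * z = 3 * z := by ring
    rwa [h0]
  have hznL : z - 2 * z ∉ L.lattice := by
    intro h0
    have h4 : z - 2 * z = -z := by ring
    rw [h4] at h0
    exact hzL ((neg_mem_iff).1 h0)
  have hker : ∀ z', Tor Λ L z' → z' ∉ L.lattice → ¬ InK V L (xu L u e) z' :=
    fun z' h4 h5 h6 => h5 (h.ker L u e lam hL hG Λ hΛP z' h4 h6)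
  have k1 := hker z hz hzL
  have k2 := hker (2 * z) hz2 hz2L
  have hv1 : V.valuation (xu L u e z - xu L u e (2 * z)) = 1 :=
    _root_.Pool.Agent.MUXV.v_X_sub G k1 k2 (hker _ hz3 hz3L) (hker _ hzn hznL)
  -- the automorphism
  obtain ⟨-, hMz⟩ := hM L hL
  have hs12 : s (1 / 12) = 1 / 12 := by
    rw [map_div₀, map_one, map_ofNat]
  have hmono : RF (idl (A := A) (B := B) 2) ≤ RF m := h.tor.mono _ _ hm2
  have hxnm : ∀ z', Tor m L z' → z' ∉ L.lattice → xn L z' ∈ RF m := by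
    intro z' h4 h5
    obtain ⟨b, om, hb⟩ := hL
    exact IntermediateField.subset_adjoin _ _ ⟨b, L, om, hb, Or.inr ⟨z', h4, h5, rfl⟩⟩
  have hfix : ∀ z', Tor Λ L z' → z' ∉ L.lattice → s (xn L z') = xn L z' := by
    intro z' h4 h5
    obtain ⟨h6, h7⟩ := hMz z' (fun x hx => h4 x (hmΛ hx)) h5
    rw [h7]
    rcases hc with h8 | h8
    · have h9 := h4 _ h8
      rw [hes] at h9
      have h10 : emb c * z' - z' ∈ L.lattice := by
        have : (emb c - 1) * z' = emb c * z' - z' := by ring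
        rwa [this] at h9
      exact ((t9 _ _ h10).2 h6).1
    · have h9 := h4 _ h8
      rw [hea] at h9
      have h10 : emb c * z' - (-z') ∈ L.lattice := by
        have : (emb c + 1) * z' = emb c * z' - (-z') := by ring
        rwa [this] at h9
      have h11 := ((t9 _ _ h10).2 h6).1
      have h12 : z' - z' ∈ L.lattice := by
        rw [sub_self]
        exact zero_mem _
      rw [h11, ((t9 _ _ h12).2 h5).2.2]
  -- the relation (*)
  have hstar : ∀ z', Tor Λ L z' → z' ∉ L.lattice → ∃ δ : ℂ, V.valuation δ < 1 ∧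
      xu L u e z' * (s (u ^ 2) - u ^ 2) + δ * s (u ^ 2) = e - s e := by
    intro z' h4 h5
    refine ⟨s (xu L u e z') - xu L u e z', ?_, ?_⟩
    · refine hI.2 _ ?_ ?_
      · rw [hX]
        refine div_mem (sub_mem (add_mem (hxnm z' (fun x hx => h4 x (hmΛ hx)) h5) ?_)
          (hmono he)) (hmono hu2)
        exact div_mem (one_mem _) (ofNat_mem _ 12)
      · exact (V.valuation_le_one_iff _).1 (_root_.Pool.Agent.MUXV.int_X (hker z' h4 h5)).2
    · have h6 : s (xu L u e z') * s (u ^ 2) = xn L z' + 1 / 12 - s e := by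
        rw [hX, map_div₀, map_sub, map_add, hs12, hfix z' h4 h5]
        exact div_mul_cancel₀ _ ((map_ne_zero s).2 hu20)
      have h7 : xu L u e z' * u ^ 2 = xn L z' + 1 / 12 - e := by
        rw [hX]
        exact div_mul_cancel₀ _ hu20
      linear_combination h6 - h7
  -- the points of order two
  have htwo : ∀ w', w' ∉ L.lattice → 2 * w' ∈ L.lattice →
      emb c * w' ∉ L.lattice ∧ 2 * (emb c * w') ∈ L.lattice ∧ s (xn L w') = xn L (emb c * w') := by
    intro w' h4 h5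
    have h6 : Tor m L w' := by
      intro x hx
      obtain ⟨y, hy⟩ := Ideal.mem_span_singleton'.1 (hm2 hx)
      rw [← hy, hem, heN]
      have h7 : emb y * ((2 : ℕ) : ℂ) * w' = emb y * (2 * w') := by push_cast; ring
      rw [h7]
      exact t1 _ _ h5
    obtain ⟨h7, h8⟩ := hMz w' h6 h4
    refine ⟨h7, ?_, h8⟩
    have h9 : 2 * (emb c * w') = emb c * (2 * w') := by ring
    rw [h9]
    exact t1 _ _ h5
  have hd : ∀ w', w' ∉ L.lattice → 2 * w' ∈ L.lattice →
      s (xn L w') = xn L w' ∨ V.valuation (s (xn L w') - xn L w') = V.valuation (u ^ 2) := by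
    intro w' h4 h5
    obtain ⟨h6, h7, h8⟩ := htwo w' h4 h5
    rw [h8]
    exact hdiff _ _ h6 h7 h4 h5
  have hsu : V.valuation (s (u ^ 2)) = V.valuation (u ^ 2) := by
    obtain ⟨a1, a2, a3⟩ := htwo w₁ hw1 h2w1
    obtain ⟨b1, b2, b3⟩ := htwo w₂ hw2 h2w2
    have h4 : s (u ^ 2) = xn L (emb c * w₂) - xn L (emb c * w₁) := by
      rw [← a3, ← b3, ← map_sub]
      congr 1
      linear_combination he1 - he2
    rcases hdiff _ _ b1 b2 a1 a2 with h5 | h5
    · exfalso
      rw [h5, sub_self] at h4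
      exact (map_ne_zero s).2 hu20 h4
    · rw [h4, h5]
  -- the differences are small
  obtain ⟨δ, hδ, e1⟩ := hstar z hz hzL
  obtain ⟨δ', hδ', e2⟩ := hstar (2 * z) hz2 hz2L
  have hD : V.valuation (s (u ^ 2) - u ^ 2) < V.valuation (u ^ 2) := by
    have h4 : (xu L u e z - xu L u e (2 * z)) * (s (u ^ 2) - u ^ 2) = (δ' - δ) * s (u ^ 2) := by
      linear_combination e1 - e2
    have h5 := congrArg V.valuation h4
    rw [map_mul, map_mul, hv1, one_mul, hsu] at h5
    rw [h5]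
    have h6 : V.valuation (δ' - δ) < 1 :=
      lt_of_le_of_lt (Valuation.map_sub _ _ _) (max_lt hδ' hδ)
    exact mul_lt_of_lt_one_left hvu h6
  have hE : V.valuation (s e - e) < V.valuation (u ^ 2) := by
    have h4 : s e - e = -(xu L u e z * (s (u ^ 2) - u ^ 2) + δ * s (u ^ 2)) := by
      rw [e1]
      ring
    rw [h4, Valuation.map_neg]
    refine Valuation.map_add_lt _ ?_ ?_
    · rw [map_mul]
      exact lt_of_le_of_lt
        (mul_le_of_le_one_left' (_root_.Pool.Agent.MUXV.int_X k1).2) hD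
    · rw [map_mul, hsu]
      exact mul_lt_of_lt_one_left hvu hδ
  have hse : s e = e := by
    have h4 : s (xn L w₁) - xn L w₁ = s e - e := by
      rw [← he1, map_add, hs12]
      ring
    rcases hd w₁ hw1 h2w1 with h5 | h5
    · rw [h5, sub_self] at h4
      exact (sub_eq_zero.1 h4.symm)
    · rw [h4] at h5
      exact absurd h5 hE.ne
  have hsu2 : s (u ^ 2) = u ^ 2 := by
    have h4 : s (xn L w₂) - xn L w₂ = s (u ^ 2) - u ^ 2 := by
      have h5 : xn L w₂ = e + u ^ 2 - 1 / 12 := by linear_combination he2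
      rw [h5, map_sub, map_add, hs12, hse]
      ring
    rcases hd w₂ hw2 h2w2 with h5 | h5
    · rw [h5, sub_self] at h4
      exact (sub_eq_zero.1 h4.symm)
    · rw [h4] at h5
      exact absurd h5 hD.ne
  have hsl : s (lam * u ^ 2) = lam * u ^ 2 := by
    have h4 : lam * u ^ 2 = -(3 * e) - u ^ 2 := by linear_combination c1
    rw [h4, map_sub, map_neg, map_mul, hse, hsu2, map_ofNat]
  rcases hall w hw h2w with h4 | h4 | h4
  · have h5 : xn L w = e - 1 / 12 := by linear_combination h4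
    rw [h5, map_sub, hse, hs12]
  · have h5 : xn L w = e + u ^ 2 - 1 / 12 := by linear_combination h4
    rw [h5, map_sub, map_add, hse, hsu2, hs12]
  · have h5 : xn L w = e + lam * u ^ 2 - 1 / 12 := by linear_combination h4
    rw [h5, map_sub, map_add, hse, hsl, hs12]

end

end Pool.Agent.OBB
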