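import Pool.Agent.OB.StGB
import Pool.Agent.MUX.XLib

/-!
# OB, block GR, part (B), module FIN: inertia groups are trivial (helper62)
-/

set_option autoImplicit false

namespace Pool.Agent.OBB

open _root_.MU3 _root_.Pool.Agent.MU3A _root_.Pool.Agent.MU3B _root_.Pool.Agent.MUX _root_.Pool.Agent.MUXU _root_.Pool.Agent.MUXE
open _root_.Pool.Agent.RI _root_.Pool.Agent.NS _root_.Pool.Agent.OB _root_.Pool.Agent.OBE

noncomputable section

/-- the module FIN -/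
theorem tg_FIN (h1 : Sg_LFT) (h2 : Sg_GRP) (h3 : Sg_ORD) (h4 : Sg_CTX) (h5 : Sg_TWO)
    (h6 : Sg_NOI) : Sg_FIN := by
  intro p er A B P V hC T hA m hm hmP σ hσ hI y hy
  have hG := h4 p er A B P V hC T hA
  have hI' : Ine V m σ := ⟨hσ, hI⟩
  have h2ne : (idl 2 : Ideal (OO A B)) ≠ ⊥ := by
    rw [Ne, Ideal.span_singleton_eq_bot]
    exact natCast_ne_zero' hC.cq two_ne_zero
  have hm2 : m * idl 2 ≠ ⊥ := mul_ne_bot hC.cq hm h2ne
  have hm2P : ¬ m * idl 2 ≤ P := fun h => (hC.prime.mul_le.1 h).elim hmP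
    (fun h' => hG.two (h' (Ideal.mem_span_singleton_self _)))
  obtain ⟨σ', hI2, heq⟩ := h1 p er A B P V hC T m (m * idl 2) hm hm2 σ hI'
  obtain ⟨-, g, -, -⟩ := h2 A B T (m * idl 2) hm2
  have hle2 : m * idl 2 ≤ idl 2 := Ideal.mul_le_right
  have hlem : m * idl 2 ≤ m := Ideal.mul_le_left
  have hIi : Ine V (idl (A := A) (B := B) 2) σ' := (g _ hle2 σ').2 V hI2
  have htri : Tri (idl (A := A) (B := B) 2) σ' := by
    by_contra hn
    obtain ⟨l, s, hl, hs1, hs2, hs3⟩ := h3 A B V T _ h2ne σ' hIi hn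
    exact hs2 (h6 p er A B P V hG l s hl hs1 hs3)
  have ht2 : Tri (m * idl 2) σ' := h5 p er A B P V hG _ hm2 hle2 hm2P σ' hI2 htri
  have h7 := (g m hlem σ').1 ht2 y hy
  rwa [heq y hy] at h7

end

end Pool.Agent.OBB
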