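import Pool.Agent.OB.StGB
import Pool.Agent.MUX.XLib

/-!
# OB, block GR part (B), module IDA: formal properties of the ideals of automorphisms
-/

set_option autoImplicit false

namespace Pool.Agent.OBB

open _root_.MU3 _root_.Pool.Agent.MU3A _root_.Pool.Agent.MU3B _root_.Pool.Agent.MUX _root_.Pool.Agent.MUXU _root_.Pool.Agent.MUXE
open _root_.Pool.Agent.RI _root_.Pool.Agent.NS _root_.Pool.Agent.OB _root_.Pool.Agent.OBE

noncomputable section

namespace IDA

variable {A B : ℤ} {m m' a b : Ideal (OO A B)} {s t : ℂ ≃+* ℂ}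

theorem ne_bot (hC : CQ A B) (hex : ∃ L, NL A B L) (h : IdA m a s) : a ≠ ⊥ := by
  rintro rfl
  obtain ⟨L, b, om, hL⟩ := hex
  obtain ⟨b', L', om', mu, hL', hA⟩ := h.2.2 b L om hL
  have h1 : mu * (mu⁻¹ * (L'.ω₁ / 2)) ∈ L'.lattice := by
    refine (hA.isq.2 _).2 fun x hx => ?_
    rw [Ideal.mem_bot] at hx
    rw [hx, _root_.Pool.Agent.MUX.emb_zero hC, zero_mul]
    exact zero_mem _
  rw [mul_inv_cancel_left₀ hA.isq.1] at h1
  exact L'.ω₁_div_two_notMem_lattice h1

theorem mono (hm : m ≤ m') (h : IdA m a s) : IdA m' a s := by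
  have hcop : IsCoprime a m' := by
    have h1 := Ideal.isCoprime_iff_sup_eq.1 h.2.1
    rw [Ideal.isCoprime_iff_sup_eq, eq_top_iff, ← h1]
    exact sup_le_sup_left hm a
  refine ⟨h.1, hcop, fun b L om hL => ?_⟩
  obtain ⟨b', L', om', mu, hL', hA⟩ := h.2.2 b L om hL
  exact ⟨b', L', om', mu, hL', ⟨hA.kap, hcop, hA.isq, fun z hz => hA.act z fun x hx => hz x (hm hx)⟩⟩

theorem comp (hT : TorX A B) (h : IdA m a s) (h' : IdA m b t) : IdA m (a * b) (s.trans t) := by
  refine ⟨?_, h.2.1.mul_left h'.2.1, fun c L om hL => ?_⟩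
  · have h1 : s (wC A B) = wC A B := h.1
    have h2 : t (wC A B) = wC A B := h'.1
    change t (s (wC A B)) = wC A B
    rw [h1, h2]
  · obtain ⟨b', L', om', mu, hL', hA⟩ := h.2.2 c L om hL
    obtain ⟨b'', L'', om'', nu, hL'', hA'⟩ := h'.2.2 b' L' om' hL'
    exact ⟨b'', L'', om'', nu * mu, hL'', hT.comp m a b s t L L' L'' mu nu hA hA'⟩

theorem pow (hT : TorX A B) (h : IdA m a s) (n : ℕ) (hn : n ≠ 0) : IdA m (a ^ n) (s ^ n) := by
  induction n with
  | zero => exact absurd rfl hn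
  | succ n ih =>
    rcases Nat.eq_zero_or_pos n with rfl | hn'
    · rw [zero_add, pow_one, pow_one]
      exact h
    · have h1 := comp hT h (ih hn'.ne')
      have e1 : s ^ (n + 1) = s.trans (s ^ n) := by
        rw [pow_succ]
        rfl
      rw [e1, pow_succ' a]
      exact h1

end IDA

open IDA in
/-- Module IDA. -/
theorem tg_IDA : Sg_IDA := by
  intro A B hC hT hex m hm
  refine ⟨fun s hs => ?_, fun a s h => IDA.ne_bot hC hex h, fun a s h m' hm' => IDA.mono hm' h,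
    fun a b s t h h' => IDA.comp hT h h', fun a s h n hn => IDA.pow hT h n hn, fun a s h => ?_⟩
  · obtain ⟨a, ha, h⟩ := hT.act m hm s hs
    exact ⟨a, hs, ha, h⟩
  · obtain ⟨L, b, om, hL⟩ := hex
    obtain ⟨b', L', om', mu, hL', hA⟩ := h.2.2 b L om hL
    exact hT.triv m a s b L L' om mu hm h.1 hL hA hL'.nrm

end

end Pool.Agent.OBB
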