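import Pool.Agent.OB.StGB
import Pool.Agent.MUX.E_RNG

/-!
# OB, block GR, part (B), module KMO: numbers of `O` which are not an `l`-th power up to sign (helper11)
-/

set_option autoImplicit false

namespace Pool.Agent.OBB

open _root_.MU3 _root_.Pool.Agent.MU3A _root_.Pool.Agent.MU3B _root_.Pool.Agent.MUX _root_.Pool.Agent.MUXU _root_.Pool.Agent.MUXE
open _root_.Pool.Agent.RI _root_.Pool.Agent.NS _root_.Pool.Agent.OB _root_.Pool.Agent.OBE

noncomputable section

namespace KMO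

open Polynomial

variable {A B : ℤ}

lemma fin (h : CQ A B) : FiniteDimensional ℚ (kk A B) := by
  have h1 : IsIntegral ℤ (wC A B) :=
    ((te_RNG A B h).int _ (IntermediateField.mem_adjoin_simple_self ℚ _)).2
      ⟨⟨0, 1⟩, by simp [emb]⟩
  exact IntermediateField.adjoin.finiteDimensional h1.tower_top

lemma embs (h : CQ A B) : (∀ x y : OO A B, emb x = emb y → x = y) ∧
    (∀ (x : OO A B) (n : ℕ), emb (x ^ n) = emb x ^ n) ∧ (∀ x : OO A B, emb (-x) = -emb x) ∧
    emb (1 : OO A B) = 1 := by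
  obtain ⟨φ, hφ⟩ := (te_RNG A B h).hom
  refine ⟨fun x y hxy => ?_, fun x n => ?_, fun x => ?_, ?_⟩
  · have h1 := (te_RNG A B h).inj0 (x - y) (by rw [← hφ, map_sub, hφ, hφ, hxy, sub_self])
    exact sub_eq_zero.1 h1
  · rw [← hφ, map_pow, hφ]
  · rw [← hφ, map_neg, hφ]
  · rw [← hφ, map_one]

/-- a root in `k` comes from `O` -/
lemma root_int (h : CQ A B) {l : ℕ} (hl : l ≠ 0) {α : OO A B} {y : ℂ} (hy : y ∈ kk A B)
    (hyl : y ^ l = emb α ∨ -y ^ l = emb α) : ∃ γ : OO A B, y = emb γ := by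
  have hint := (te_RNG A B h).int
  refine (hint y hy).1 ?_
  have h1 : IsIntegral ℤ (emb α) := (hint _ (emb_mem α)).2 ⟨α, rfl⟩
  have h2 : IsIntegral ℤ (y ^ l) := by
    rcases hyl with h3 | h3
    · rw [h3]
      exact h1
    · have h4 : y ^ l = -emb α := by rw [← h3, neg_neg]
      rw [h4]
      exact h1.neg
  exact IsIntegral.of_pow (Nat.pos_of_ne_zero hl) h2

/-- elements of `K(i)` -/
lemma rep (K : IntermediateField ℚ ℂ) (y : ℂ)
    (hy : y ∈ IntermediateField.adjoin K {Complex.I}) :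
    ∃ u ∈ K, ∃ v ∈ K, y = u + v * Complex.I := by
  have hI : IsIntegral K Complex.I := by
    refine ⟨X ^ 2 + 1, ?_, ?_⟩
    · monicity!
    · simp
  have h1 : y ∈ (IntermediateField.adjoin K {Complex.I}).toSubalgebra := hy
  rw [IntermediateField.adjoin_simple_toSubalgebra_of_isAlgebraic hI.isAlgebraic] at h1
  induction h1 using Algebra.adjoin_induction with
  | mem x hx =>
    rw [Set.mem_singleton_iff.1 hx]
    exact ⟨0, K.zero_mem, 1, K.one_mem, by ring⟩
  | algebraMap r => exact ⟨r, r.2, 0, K.zero_mem, by rw [zero_mul, add_zero]; rfl⟩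
  | add x z hx hz ihx ihz =>
    obtain ⟨u, hu, v, hv, e⟩ := ihx (by
      rw [← IntermediateField.adjoin_simple_toSubalgebra_of_isAlgebraic hI.isAlgebraic] at hx
      exact hx)
    obtain ⟨u', hu', v', hv', e'⟩ := ihz (by
      rw [← IntermediateField.adjoin_simple_toSubalgebra_of_isAlgebraic hI.isAlgebraic] at hz
      exact hz)
    exact ⟨u + u', K.add_mem hu hu', v + v', K.add_mem hv hv', by rw [e, e']; ring⟩
  | mul x z hx hz ihx ihz =>
    obtain ⟨u, hu, v, hv, e⟩ := ihx (by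
      rw [← IntermediateField.adjoin_simple_toSubalgebra_of_isAlgebraic hI.isAlgebraic] at hx
      exact hx)
    obtain ⟨u', hu', v', hv', e'⟩ := ihz (by
      rw [← IntermediateField.adjoin_simple_toSubalgebra_of_isAlgebraic hI.isAlgebraic] at hz
      exact hz)
    refine ⟨u * u' - v * v', K.sub_mem (K.mul_mem hu hu') (K.mul_mem hv hv'), u * v' + v * u',
      K.add_mem (K.mul_mem hu hv') (K.mul_mem hv hu'), ?_⟩
    rw [e, e']
    have h3 : Complex.I * Complex.I = -1 := Complex.I_mul_I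
    linear_combination (v * v') * h3

lemma two (K : IntermediateField ℚ ℂ) (a : ℂ) (ha : a ∈ K) (h1 : ∀ b ∈ K, b ^ 2 ≠ a)
    (h2 : ∀ b ∈ K, -b ^ 2 ≠ a) (y : ℂ) (hy : y ∈ IntermediateField.adjoin K {Complex.I}) :
    y ^ 2 ≠ a := by
  intro hya
  obtain ⟨u, hu, v, hv, rfl⟩ := rep K y hy
  have h3 : Complex.I * Complex.I = -1 := Complex.I_mul_I
  have h4 : 2 * u * v * Complex.I = a - u ^ 2 + v ^ 2 := by
    rw [← hya]
    linear_combination (-v ^ 2) * h3
  by_cases huv : u * v = 0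
  · rcases mul_eq_zero.1 huv with h5 | h5
    · apply h2 v hv
      rw [← hya, h5]
      linear_combination (-v ^ 2) * h3
    · apply h1 u hu
      rw [← hya, h5]
      ring
  · have h2' : (2 : ℂ) ∈ K := by
      have h5 : (2 : ℂ) = 1 + 1 := by norm_num
      rw [h5]
      exact K.add_mem K.one_mem K.one_mem
    have h6 : Complex.I ∈ K := by
      have h7 : Complex.I = (a - u ^ 2 + v ^ 2) * (2 * (u * v))⁻¹ := by
        rw [← h4]
        have h8 : 2 * (u * v) ≠ 0 := mul_ne_zero two_ne_zero huv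
        rw [show 2 * u * v * Complex.I = Complex.I * (2 * (u * v)) by ring,
          mul_inv_cancel_right₀ h8]
      rw [h7]
      exact K.mul_mem (K.add_mem (K.sub_mem ha (K.pow_mem hu 2)) (K.pow_mem hv 2))
        (K.inv_mem (K.mul_mem h2' (K.mul_mem hu hv)))
    exact h1 _ (K.add_mem hu (K.mul_mem hv h6)) hya

/-- `l` odd -/
lemma odd (K : IntermediateField ℚ ℂ) {l : ℕ} (hl : l.Prime) (ζ : ℂ) (hζ : IsPrimitiveRoot ζ l)
    (a : ℂ) (ha : a ∈ K) (h1 : ∀ b ∈ K, b ^ l ≠ a) (y : ℂ)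
    (hy : y ∈ IntermediateField.adjoin K {ζ}) : y ^ l ≠ a := by
  intro hya
  have hint : IsIntegral K ζ := (hζ.isIntegral hl.pos).tower_top
  have hfd : FiniteDimensional K (IntermediateField.adjoin K {ζ}) :=
    IntermediateField.adjoin.finiteDimensional hint
  have h2 : Module.finrank K (IntermediateField.adjoin K {ζ}) ≤ l - 1 := by
    rw [IntermediateField.adjoin.finrank hint]
    have h3 : minpoly K ζ ∣ cyclotomic l K := by
      refine minpoly.dvd K ζ ?_
      have h4 : IsRoot (cyclotomic l ℂ) ζ := hζ.isRoot_cyclotomic hl.pos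
      rw [← map_cyclotomic l (algebraMap K ℂ), IsRoot.def, eval_map_algebraMap] at h4
      exact h4
    have h4 := natDegree_le_of_dvd h3 (cyclotomic_ne_zero l K)
    rwa [natDegree_cyclotomic, Nat.totient_prime hl] at h4
  have hirr : Irreducible (X ^ l - C (⟨a, ha⟩ : K)) :=
    X_pow_sub_C_irreducible_of_prime hl fun b hb => h1 b b.2 (by
      have h3 := congrArg (Subtype.val : K → ℂ) hb
      exact h3)
  let y' : IntermediateField.adjoin K {ζ} := ⟨y, hy⟩
  have h4 : minpoly K y' = X ^ l - C (⟨a, ha⟩ : K) := by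
    symm
    refine minpoly.eq_of_irreducible_of_monic hirr ?_ (monic_X_pow_sub_C _ hl.ne_zero)
    rw [map_sub, map_pow, aeval_X, aeval_C, sub_eq_zero]
    exact Subtype.ext hya
  have h5 := minpoly.natDegree_le (A := K) y'
  rw [h4, natDegree_X_pow_sub_C] at h5
  have h6 := hl.pos
  omega

end KMO

open KMO Polynomial in
/-- (KMO) numbers of `O` which are not an `l`-th power up to sign -/
theorem tg_KMO (hKMC : Sg_KMC) : Sg_KMO := by
  intro l A B hl hC α hα S
  have hk := KMO.fin hC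
  obtain ⟨emb_inj', emb_pow', emb_neg', emb_one'⟩ := embs hC
  -- the field
  have key : ∃ E' : IntermediateField (kk A B) ℂ, FiniteDimensional (kk A B) E' ∧
      (∃ ζ ∈ E', IsPrimitiveRoot ζ l) ∧ (∀ y ∈ E', y ^ l ≠ emb α) ∧
      ∃ η ∈ E', η ^ l = -1 := by
    have hroot : ∀ b ∈ kk A B, b ^ l ≠ emb α := by
      intro b hb hbl
      obtain ⟨γ, rfl⟩ := root_int hC hl.ne_zero hb (Or.inl hbl)
      exact (hα γ).1 (emb_inj' _ _ (by rw [emb_pow']; exact hbl.symm))
    have hroot' : ∀ b ∈ kk A B, -b ^ l ≠ emb α := by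
      intro b hb hbl
      obtain ⟨γ, rfl⟩ := root_int hC hl.ne_zero hb (Or.inr hbl)
      exact (hα γ).2 (emb_inj' _ _ (by rw [emb_neg', emb_pow']; exact hbl.symm))
    rcases hl.eq_two_or_odd' with rfl | hodd
    · refine ⟨IntermediateField.adjoin (kk A B) {Complex.I}, ?_, ?_, ?_, ?_⟩
      · refine IntermediateField.adjoin.finiteDimensional ⟨X ^ 2 + 1, ?_, ?_⟩
        · monicity!
        · simp
      · exact ⟨-1, neg_mem (one_mem _), IsPrimitiveRoot.neg_one 0 (by norm_num)⟩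
      · exact two _ _ (emb_mem α) hroot hroot'
      · exact ⟨Complex.I, IntermediateField.mem_adjoin_simple_self _ _, Complex.I_sq⟩
    · have hζ := Complex.isPrimitiveRoot_exp l hl.ne_zero
      refine ⟨IntermediateField.adjoin (kk A B) {_}, ?_, ⟨_, ?_, hζ⟩,
        odd _ hl _ hζ _ (emb_mem α) hroot, -1, neg_mem (one_mem _), hodd.neg_one_pow⟩
      · exact IntermediateField.adjoin.finiteDimensional (hζ.isIntegral hl.pos).tower_top
      · exact IntermediateField.mem_adjoin_simple_self _ _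
  obtain ⟨E', hfin, ⟨ζ, hζE, hζ⟩, hno, η, hηE, hη⟩ := key
  have h3 : FiniteDimensional ℚ E' := FiniteDimensional.trans ℚ (kk A B) E'
  have h4 : FiniteDimensional ℚ (E'.restrictScalars ℚ) := h3
  obtain ⟨Λ, q, hq, hqS, hPN, hαΛ, hcon⟩ := hKMC l A B hl hC (E'.restrictScalars ℚ) h4
    (fun x hx => E'.algebraMap_mem ⟨x, hx⟩) ⟨ζ, hζE, hζ⟩ α hno S
  refine ⟨Λ, q, hq, hqS, hPN, hαΛ, fun t t' ht => ⟨?_, ?_⟩⟩
  · have h5 := hcon 1 t t' (Or.inl rfl) ⟨1, one_mem _, by rw [one_pow, emb_one']⟩ ht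
    rwa [one_mul] at h5
  · have h5 := hcon (-1) t t' (Or.inr rfl) ⟨η, hηE, by rw [hη, emb_neg', emb_one']⟩ ht
    rwa [neg_one_mul, sub_neg_eq_add] at h5

end

end Pool.Agent.OBB
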