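import Pool.Agent.OB.StGB

/-!
# OB, block GR part (B), module LPC (helper99): the lift of an element of order `l` and its ideal
-/

set_option autoImplicit false

namespace Pool.Agent.OBB

open _root_.MU3 _root_.Pool.Agent.MU3A _root_.Pool.Agent.MU3B _root_.Pool.Agent.MUX _root_.Pool.Agent.MUXU _root_.Pool.Agent.MUXE
open _root_.Pool.Agent.RI _root_.Pool.Agent.NS _root_.Pool.Agent.OB _root_.Pool.Agent.OBE

noncomputable section

/-- LPC. -/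
theorem tg_LPC (h1 : Sg_LFT) (h2 : Sg_GRP) (h3 : Sg_TWO) (h4 : Sg_IDA) (h5 : Sg_CMP) :
    Sg_LPC := by
  intro p er A B P V hX l s a hl hs hsl ha m hm hm2 hmP
  have h20 : idl (A := A) (B := B) 2 ≠ ⊥ := fun h0 => hm (le_bot_iff.1 (h0 ▸ hm2))
  obtain ⟨s', hs', hag⟩ := h1 p er A B P V hX.toCaseO hX.tor (idl 2) m h20 hm s hs
  have hl0 : l ≠ 0 := hl.ne_zero
  have hp1 : Ine V m (s' ^ l) := (h2 A B hX.tor m hm).2.2.1 V s' hs' l
  have hT2 : Tri (idl (A := A) (B := B) 2) (s' ^ l) := by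
    intro y hy
    rw [(h2 A B hX.tor (idl 2) h20).2.2.2 s' s hs'.1 hs.1 hag l y hy]
    exact hsl y hy
  have hTm : Tri m (s' ^ l) := h3 p er A B P V hX m hm hm2 hmP (s' ^ l) hp1 hT2
  have hI := h4 A B hX.cq hX.tor hX.ex m hm
  obtain ⟨b, hb⟩ := hI.1 s' hs'.1
  have hbl : IdA m (b ^ l) (s' ^ l) := hI.2.2.2.2.1 b s' hb l hl0
  obtain ⟨β, hβ1, hβ2⟩ := (hI.2.2.2.2.2 (b ^ l) (s' ^ l) hbl).1 hTm
  have hb2 : IdA (idl (A := A) (B := B) 2) b s' := hI.2.2.1 b s' hb _ hm2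
  obtain ⟨x, y, hx, hy, -, -, hxy⟩ := h5 A B hX.cq hX.tor hX.ex (idl 2) h20 a b s s' ha hb2
    (fun y hy => (hag y hy).symm)
  exact ⟨s', b, β, x, y, hs', hag, hb, hβ2, hβ1, hx, hy, hxy⟩

end

end Pool.Agent.OBB
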