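import Pool.Agent.OB.StGB
import Pool.Agent.MUX.XLib

/-!
# OB, block GR (B), module PCL (helper20): the ideal of an inertia element of order `l` is principal
-/

set_option autoImplicit false

namespace Pool.Agent.OBB

open _root_.MU3 _root_.Pool.Agent.MU3A _root_.Pool.Agent.MU3B _root_.Pool.Agent.MUX _root_.Pool.Agent.MUXU _root_.Pool.Agent.MUXE
open _root_.Pool.Agent.RI _root_.Pool.Agent.NS _root_.Pool.Agent.OB _root_.Pool.Agent.OBE
open _root_.Pool.Agent.MUXV (GR InK tX)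
open NumberField IsDedekindDomain

noncomputable section

namespace PCL

theorem pw {R : Type*} [CommRing R] (x α : R) (a : Ideal R) (l : ℕ)
    (hα : a ^ l = Ideal.span {α}) : (Ideal.span {x} * a) ^ l = Ideal.span {x ^ l * α} := by
  rw [mul_pow, hα, Ideal.span_singleton_pow, Ideal.span_singleton_mul_span_singleton]

theorem pos {R : Type*} [CommRing R] [IsDomain R] (Λ : Ideal R) (x y t t' α β : R) (l : ℕ)
    (hy : y ≠ 0) (ht : t' * y = x * t) (hβ : β - 1 ∈ Λ) (h9 : x ^ l * α = y ^ l * β) :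
    α * t' ^ l - t ^ l ∈ Λ := by
  have hyl : y ^ l ≠ 0 := pow_ne_zero _ hy
  have e3 : (t' * y) ^ l = (x * t) ^ l := by rw [ht]
  rw [mul_pow, mul_pow] at e3
  have e4 : α * t' ^ l = β * t ^ l := by
    apply mul_left_cancel₀ hyl
    linear_combination α * e3 + t ^ l * h9
  have e5 : α * t' ^ l - t ^ l = t ^ l * (β - 1) := by
    rw [e4]
    ring
  rw [e5]
  exact Ideal.mul_mem_left _ _ hβ

theorem neg {R : Type*} [CommRing R] [IsDomain R] (Λ : Ideal R) (x y t t' α β : R) (l : ℕ)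
    (hy : y ≠ 0) (ht : t' * y = x * t) (hβ : β - 1 ∈ Λ) (h9 : x ^ l * α = -(y ^ l * β)) :
    α * t' ^ l + t ^ l ∈ Λ := by
  have hyl : y ^ l ≠ 0 := pow_ne_zero _ hy
  have e3 : (t' * y) ^ l = (x * t) ^ l := by rw [ht]
  rw [mul_pow, mul_pow] at e3
  have e4 : α * t' ^ l = -(β * t ^ l) := by
    apply mul_left_cancel₀ hyl
    linear_combination α * e3 + t ^ l * h9
  have e5 : α * t' ^ l + t ^ l = -(t ^ l * (β - 1)) := by
    rw [e4]
    ring
  rw [e5]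
  exact neg_mem (Ideal.mul_mem_left _ _ hβ)

theorem fin {R : Type*} [CommRing R] (I : Ideal R) (γ α : R) (l : ℕ) (h2 : (2 : R) ∈ I)
    (h1 : α - 1 ∈ I) (h : α = γ ^ l ∨ α = -γ ^ l) :
    Ideal.span {α} = Ideal.span {γ} ^ l ∧ γ ^ l - 1 ∈ I := by
  rw [Ideal.span_singleton_pow]
  rcases h with h | h
  · rw [← h]
    exact ⟨rfl, h1⟩
  · refine ⟨?_, ?_⟩
    · rw [h, Ideal.span_singleton_neg]
    · have e6 : γ ^ l - 1 = -(α - 1) - 2 := by
        rw [h]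
        ring
      rw [e6]
      exact sub_mem (neg_mem h1) h2

theorem ele {R : Type*} [CommRing R] (Λ a b : Ideal R) (α x y : R) (l : ℕ) (hl : l ≠ 0)
    (hα : a ^ l = Ideal.span {α}) (hΛ : α ∉ Λ)
    (hxy : Ideal.span {x} * a = Ideal.span {y} * b) :
    ∃ t t' : R, t ∉ Λ ∧ t' * y = x * t := by
  have haΛ : ¬ a ≤ Λ := fun h => hΛ (by
    have h6 : α ∈ a ^ l := by
      rw [hα]
      exact Ideal.mem_span_singleton_self _
    exact h (Ideal.pow_le_self hl h6))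
  obtain ⟨t, hta, htΛ⟩ := SetLike.not_le_iff_exists.1 haΛ
  have h7 : x * t ∈ Ideal.span {y} * b := by
    rw [← hxy]
    exact Ideal.mul_mem_mul (Ideal.mem_span_singleton_self x) hta
  have h8 : Ideal.span {y} * b ≤ Ideal.span {y} := Ideal.mul_le_left
  obtain ⟨t', ht'⟩ := Ideal.mem_span_singleton'.1 (h8 h7)
  exact ⟨t, t', htΛ, ht'⟩

theorem two_mem {A B : ℤ} : (2 : OO A B) ∈ idl (A := A) (B := B) 2 := by
  have h6 : ((2 : ℕ) : OO A B) ∈ idl (A := A) (B := B) 2 := Ideal.mem_span_singleton_self _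
  rwa [Nat.cast_ofNat] at h6

theorem two_ne {A B : ℤ} (h : CQ A B) : idl (A := A) (B := B) 2 ≠ ⊥ := by
  intro h0
  have h6 : ((2 : ℕ) : OO A B) ∈ idl (A := A) (B := B) 2 := Ideal.mem_span_singleton_self _
  rw [h0, Ideal.mem_bot] at h6
  exact natCast_ne_zero' h two_ne_zero h6

end PCL

open PCL in
theorem tg_PCL (h1 : Sg_IDA) (h2 : Sg_LPC) (h3 : Sg_LEV) (h4 : Sg_UNI) (h5 : Sg_KMO) :
    Sg_PCL := by
  intro p er A B P V hC l s a hl hs hsl ha
  have hcq := hC.cq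
  have hdom := isDomain hcq
  have hl0 := hl.ne_zero
  obtain ⟨-, -, -, -, i5, i6⟩ := h1 A B hcq hC.tor hC.ex (idl 2) (two_ne hcq)
  obtain ⟨u1, u2, -⟩ := h4 A B hcq hC.ex3 hC.ex4
  obtain ⟨α, hα1, hα⟩ := (i6 _ _ (i5 a s ha l hl0)).1 hsl
  have claim : ∃ γ : OO A B, α = γ ^ l ∨ α = -γ ^ l := by
    by_contra hno
    have hno' : ∀ γ : OO A B, α ≠ γ ^ l ∧ α ≠ -γ ^ l := fun γ =>
      ⟨fun h => hno ⟨γ, Or.inl h⟩, fun h => hno ⟨γ, Or.inr h⟩⟩
    obtain ⟨Λ, q, hq, hqS, hΛ, hαΛ, hn⟩ := h5 l A B hl hcq α hno' {2, 3, p}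
    simp only [Finset.mem_insert, Finset.mem_singleton, not_or] at hqS
    obtain ⟨m0, m2, mΛ, mP, -, -⟩ := h3 p er A B P V hC.toCaseO Λ q hq hqS.1 hqS.2.1 hqS.2.2 hΛ
    obtain ⟨s', b, β, x, y, -, -, -, hbl, hβ, hx, hy, hxy⟩ :=
      h2 p er A B P V hC l s a hl hs hsl ha (idl 2 * Λ) m0 m2 mP
    obtain ⟨t, t', htΛ, ht'⟩ := ele Λ a b α x y l hl0 hα hαΛ hxy
    have h8 : sp (x ^ l * α) = sp (y ^ l * β) := by
      have e1 := pw x α a l hα
      have e2 := pw y β b l hbl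
      rw [hxy] at e1
      exact e1.symm.trans e2
    rcases u1 _ _ h8 with h9 | h9
    · exact (hn t t' htΛ).1 (pos Λ x y t t' α β l hy ht' (mΛ hβ) h9)
    · exact (hn t t' htΛ).2 (neg Λ x y t t' α β l hy ht' (mΛ hβ) h9)
  obtain ⟨γ, hγ⟩ := claim
  obtain ⟨f1, f2⟩ := fin (idl 2) γ α l two_mem hα1 hγ
  exact ⟨γ, u2 _ _ l hl0 (hα.trans f1), f2⟩

end

end Pool.Agent.OBB
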