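import Pool.Agent.OB.StGB
import Pool.Agent.MUX.E_GAL
import Pool.Agent.MUX.E_RNG

/-!
# OB, block GR part (B), module PRN: a principal ideal acts as multiplication (helper47)

The argument is that of `GalX.mk` (`MUX/E_GAL.lean`, helper44).
-/

set_option autoImplicit false

namespace Pool.Agent.OBB

open _root_.MU3 _root_.Pool.Agent.MU3A _root_.Pool.Agent.MU3B _root_.Pool.Agent.MUX _root_.Pool.Agent.MUXU _root_.Pool.Agent.MUXE
open _root_.Pool.Agent.RI _root_.Pool.Agent.NS _root_.Pool.Agent.OB

noncomputable section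

open GalX in
theorem tg_PRN : Sg_PRN := by
  intro A B hCQ m c s hI L hN
  have hR : RingE A B := te_RNG A B hCQ
  obtain ⟨-, -, h⟩ := hI
  obtain ⟨b, om, hL⟩ := hN
  obtain ⟨b', L', om', mu, hL', hA⟩ := h b L om hL
  obtain ⟨h1, h2, h3, h4⟩ := core hR hL hL' hA.isq
  refine ⟨?_, fun z hz hz' => ?_⟩
  · rw [← hA.kap, h1]
  · rcases hA.act z hz with ⟨h5, -⟩ | ⟨-, h6, h7, -⟩
    · exact absurd h5 hz'
    · rw [← h3] at h6
      have h8 : emb c * z ∉ L.lattice := by
        rcases h2 with h | h
        · rw [← h]; exact h6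
        · intro h9
          apply h6
          rw [h, neg_mul]
          exact neg_mem h9
      refine ⟨h8, ?_⟩
      rw [h7]
      unfold xn
      rw [h4]
      rcases h2 with h | h
      · rw [h]
      · rw [h, neg_mul, L.weierstrassP_neg]

end

end Pool.Agent.OBB
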