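import Pool.Agent.OB.StGB
import Pool.Agent.MUX.XLib

/-!
# OB, block GR, part (B), module TWO: inertia elements which are trivial on `RF (idl 2)` (helper65)
-/

set_option autoImplicit false

namespace Pool.Agent.OBB

open _root_.MU3 _root_.Pool.Agent.MU3A _root_.Pool.Agent.MU3B _root_.Pool.Agent.MUX _root_.Pool.Agent.MUXU _root_.Pool.Agent.MUXE
open _root_.Pool.Agent.RI _root_.Pool.Agent.NS _root_.Pool.Agent.OB _root_.Pool.Agent.OBE
open _root_.Pool.Agent.MUXV (GR InK tX int_X v_X_sub)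
open NumberField IsDedekindDomain

noncomputable section

theorem tg_TWO (h1 : Sb_GRN) (h3 : Sg_IDA) (h4 : Sg_PRN) (h5 : Sg_ANN) : Sg_TWO := by
  intro p er A B P V H m hm hm2 hmP s hs ht
  have hcq := H.cq
  have hid : idl (A := A) (B := B) 2 ≠ ⊥ := fun h0 => hm (le_bot_iff.1 (h0 ▸ hm2))
  obtain ⟨i1, -, i3, -, -, i6⟩ := h3 A B hcq H.tor H.ex m hm
  obtain ⟨-, -, -, -, -, j6⟩ := h3 A B hcq H.tor H.ex (idl (A := A) (B := B) 2) hid
  obtain ⟨a, ha⟩ := i1 s hs.1
  obtain ⟨c, -, hac⟩ := (j6 a s (i3 a s ha _ hm2)).1 ht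
  have hM : MulC m c s := h4 A B hcq m c s (hac ▸ ha)
  obtain ⟨L, hNL⟩ := H.ex
  obtain ⟨b, om, hL⟩ := id hNL
  have hcm : HasCM A B L := IsLI.hasCM hcq hL.toIsLI
  obtain ⟨u, e, lam, hg, hu, he, -⟩ := H.good L hNL
  obtain ⟨ξ, G⟩ := h1 p V L u e lam H.toCp hg
  have hker := H.ker L u e lam hNL hg m hmP
  have hmono := H.tor.mono (idl (A := A) (B := B) 2) m hm2
  have key : ∀ z, Tor m L z → emb (c - 1) * z ∈ L.lattice ∨ emb (c + 1) * z ∈ L.lattice := by
    intro z hz
    by_cases hzL : z ∈ L.lattice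
    · exact Or.inl (hcm _ z hzL)
    obtain ⟨hczL, hsx⟩ := (hM L hNL).2 z hz hzL
    have hcz : Tor m L (emb c * z) := hz.mul_emb hcq c
    have e1 : emb (c - 1) * z = emb c * z - z := by
      rw [emb_sub hcq, emb_one hcq]
      ring
    have e2 : emb (c + 1) * z = emb c * z + z := by
      rw [emb_add hcq, emb_one hcq]
      ring
    have k1 : ¬ InK V L (xu L u e) z := fun h => hzL (hker z hz h)
    have k2 : ¬ InK V L (xu L u e) (emb c * z) := fun h => hczL (hker _ hcz h)
    have hxm : xn L z ∈ RF m :=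
      IntermediateField.subset_adjoin _ _ ⟨b, L, om, hL, Or.inr ⟨z, hz, hzL, rfl⟩⟩
    have h12 : (1 / 12 : ℂ) ∈ RF m := by simp
    have eX : ∀ w, xu L u e w = (xn L w + 1 / 12 - e) / u ^ 2 := by
      intro w
      unfold xu xn
      ring
    have hXm : xu L u e z ∈ RF m := by
      rw [eX]
      exact div_mem (sub_mem (add_mem hxm h12) (hmono he)) (hmono hu)
    have hsX : s (xu L u e z) = xu L u e (emb c * z) := by
      rw [eX, eX, map_div₀, map_sub, map_add, hsx, ht _ he, ht _ hu]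
      congr 3
      rw [map_div₀, map_one, map_ofNat]
    have hXV : xu L u e z ∈ V := (ValuationSubring.valuation_le_one_iff _ _).1 (int_X k1).2
    have hlt := hs.2 _ hXm hXV
    rw [hsX, ValuationSubring.mem_nonunits_iff] at hlt
    by_contra hno
    push Not at hno
    rw [e1, e2] at hno
    have k3 : ¬ InK V L (xu L u e) (emb c * z + z) := fun h => hno.2 (hker _ (hcz.add hz) h)
    have k4 : ¬ InK V L (xu L u e) (emb c * z - z) := fun h => hno.1 (hker _ (by
      rw [sub_eq_add_neg]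
      exact hcz.add hz.neg) h)
    rw [v_X_sub G k2 k1 k3 k4] at hlt
    exact lt_irrefl _ hlt
  rw [i6 a s ha]
  rcases (h5 A B hcq L hNL m hm).2 (c - 1) (c + 1) key with h | h
  · exact ⟨c, h, hac⟩
  · refine ⟨-c, ?_, ?_⟩
    · have := neg_mem h
      have e3 : -(c + 1) = -c - 1 := by ring
      rwa [e3] at this
    · rw [hac]
      exact (Ideal.span_singleton_neg c).symm

end

end Pool.Agent.OBB
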