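import Pool.Agent.OB.StGB
import Pool.Agent.MUX.E_RNG
import Pool.Agent.MUX.XLib

/-!
# OB, block GR, module UNI: units, powers of ideals, the ring `O/2` (helper39)
-/

set_option autoImplicit false

namespace Pool.Agent.OBB

open _root_.MU3 _root_.Pool.Agent.MU3A _root_.Pool.Agent.MU3B _root_.Pool.Agent.MUX _root_.Pool.Agent.MUXU _root_.Pool.Agent.MUXE
open _root_.Pool.Agent.RI _root_.Pool.Agent.NS _root_.Pool.Agent.OB _root_.Pool.Agent.OBE
open _root_.Pool.Agent.MUXV (GR InK tX)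
open NumberField IsDedekindDomain

namespace UNI

/-- norm one -/
lemma nm_one {A B : ℤ} (h : CQ A B) (h3 : absD A B ≠ 3) (h4 : absD A B ≠ 4) (t : OO A B)
    (ht : nm t = 1) : t = 1 ∨ t = -1 := by
  have hD : 7 ≤ absD A B := by
    have hn := h.neg
    unfold absD at h3 h4 ⊢
    rcases h.hB with hB | hB <;> subst hB <;> omega
  have e : 4 * nm t = (2 * t.re + B * t.im) ^ 2 + absD A B * t.im ^ 2 := by
    unfold nm absD
    ring
  rw [ht] at e
  have him : t.im = 0 := by
    by_contra h0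
    have h1 : 1 ≤ t.im ^ 2 := by
      have := sq_pos_of_ne_zero (a := t.im) h0
      omega
    nlinarith [sq_nonneg (2 * t.re + B * t.im), mul_le_mul hD h1 (by norm_num) (by omega : (0 : ℤ) ≤ absD A B)]
  rw [him] at e
  have hre : (t.re - 1) * (t.re + 1) = 0 := by nlinarith
  rcases mul_eq_zero.1 hre with h1 | h1
  · left
    ext
    · rw [QuadraticAlgebra.re_one]; omega
    · rw [QuadraticAlgebra.im_one]; exact him
  · right
    ext
    · rw [QuadraticAlgebra.re_neg, QuadraticAlgebra.re_one]; omega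
    · rw [QuadraticAlgebra.im_neg, QuadraticAlgebra.im_one, neg_zero]; exact him

lemma sp_eq {A B : ℤ} (h : CQ A B) (h3 : absD A B ≠ 3) (h4 : absD A B ≠ 4) (x y : OO A B)
    (hxy : sp x = sp y) : x = y ∨ x = -y := by
  have := _root_.Pool.Agent.MUX.isDomain h
  obtain ⟨u, hu⟩ := Ideal.span_singleton_eq_span_singleton.1 hxy
  have h1 : nm (u : OO A B) * nm ((u⁻¹ : (OO A B)ˣ) : OO A B) = 1 := by
    rw [← _root_.Pool.Agent.MUX.nm_mul h, Units.mul_inv]
    simp [nm, QuadraticAlgebra.re_one, QuadraticAlgebra.im_one]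
  have h2 : nm (u : OO A B) = 1 := by
    have h5 := _root_.Pool.Agent.MUX.nm_nonneg h (u : OO A B)
    have h6 := _root_.Pool.Agent.MUX.nm_nonneg h ((u⁻¹ : (OO A B)ˣ) : OO A B)
    exact Int.eq_one_or_neg_one_of_mul_eq_one h1 |>.resolve_right (by omega)
  rcases nm_one h h3 h4 _ h2 with h7 | h7
  · left
    rw [← hu, h7, mul_one]
  · right
    rw [← hu, h7]
    ring

lemma two {A B : ℤ} (h : CQ A B) (g : OO A B) (l : ℕ) (hl : l.Prime)
    (h1 : g - 1 ∉ idl (A := A) (B := B) 2) (h2 : g ^ l - 1 ∈ idl (A := A) (B := B) 2) :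
    l = 2 ∨ l = 3 := by
  have h20 : ((2 : ℕ) : OO A B) ≠ 0 := _root_.Pool.Agent.MUX.natCast_ne_zero' h (by norm_num)
  have hb : idl (A := A) (B := B) 2 ≠ ⊥ := by
    rw [Ne, Ideal.span_singleton_eq_bot]
    exact h20
  have hc : Nat.card (OO A B ⧸ idl (A := A) (B := B) 2) = 4 := by
    have e := _root_.Pool.Agent.MUX.nI_sp h h20
    unfold nI at e
    rw [e]
    have : nm (((2 : ℕ) : OO A B)) = 2 ^ 2 := by
      have := _root_.Pool.Agent.MUX.nm_intCast (A := A) (B := B) 2
      simpa using this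
    rw [this]
    rfl
  have hf : Finite (OO A B ⧸ idl (A := A) (B := B) 2) := _root_.Pool.Agent.MUX.finite_quot h hb
  have : Fintype (OO A B ⧸ idl (A := A) (B := B) 2) := Fintype.ofFinite _
  have : Nontrivial (OO A B ⧸ idl (A := A) (B := B) 2) := by
    rw [← Finite.one_lt_card_iff_nontrivial, hc]
    norm_num
  set q := Ideal.Quotient.mk (idl (A := A) (B := B) 2) with hq
  have e1 : q g ^ l = 1 := by
    rw [← map_pow, ← map_one q]
    exact Ideal.Quotient.eq.2 h2
  have e2 : q g ≠ 1 := by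
    intro h3
    rw [← map_one q] at h3
    exact h1 (Ideal.Quotient.eq.1 h3)
  obtain ⟨u, hu⟩ : IsUnit (q g) := IsUnit.of_pow_eq_one e1 hl.ne_zero
  classical
  have hu1 : u ^ l = 1 := by
    ext
    rw [Units.val_pow_eq_pow_val, hu, e1, Units.val_one]
  have hu2 : u ≠ 1 := by
    rintro rfl
    exact e2 (by rw [← hu, Units.val_one])
  have : Fact l.Prime := ⟨hl⟩
  have e3 : orderOf u = l := orderOf_eq_prime hu1 hu2
  have e4 : l ≤ Fintype.card (OO A B ⧸ idl (A := A) (B := B) 2)ˣ := by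
    rw [← e3]
    exact orderOf_le_card_univ
  have e5 := card_units_lt (M₀ := OO A B ⧸ idl (A := A) (B := B) 2)
  rw [← Nat.card_eq_fintype_card (α := OO A B ⧸ idl (A := A) (B := B) 2), hc] at e5
  have := hl.two_le
  omega

end UNI

theorem tg_UNI : Sg_UNI := by
  intro A B h h3 h4
  refine ⟨UNI.sp_eq h h3 h4, ?_, UNI.two h⟩
  intro a b n hn hab
  have := (te_RNG A B h).ded
  apply dvd_antisymm
  · exact (UniqueFactorizationMonoid.pow_dvd_pow_iff_dvd hn).1 (dvd_of_eq hab)
  · exact (UniqueFactorizationMonoid.pow_dvd_pow_iff_dvd hn).1 (dvd_of_eq hab.symm)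

end Pool.Agent.OBB
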