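import Pool.Agent.NS.DefsN
import Pool.Agent.NS.DefsR

/-!
# OB (one branch, every prime `p ≥ 5`): common definitions and final statements of the blocks (helper96, frame of helper59)

`p ≥ 5` prime, `k` imaginary quadratic, not `ℚ(i)`, `ℚ(√-3)`, `P` the prime of `O` below the valuation ring `V` of `ℂ`. ONE frame for the three cases:
`er = 1`, `p ∉ P²` (split and inert), and `er = 2`, `p ∈ P²` (ramified). `v = V.valuation` (multiplicative; `v x ≤ v p` is the additive `v(x) ≥ 1`).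
Levels `m = lvX p f n = f p^(n+1)`, `a = aX p f = 1 + 2 p f`, `R : Reps A B (p * f) ι`. `RF m`, `Reps`, `pt`, `XX`, `cX`, `muX`, `dlX`, `SnX`, `STX`, `PhiI`, `PhiK`, `IsEI`, `TorX` as in
`MUX/DefsX.lean`, `MUX/DefsX2.lean`; `xu`, `yu`, `TTN` as in `NS/DefsN.lean`; `lvR P f n = f P^(2n+1)` as in `NS/DefsR.lean` (the fields `K B_n` are in it if `p` is ramified and `p ∤ [K : k]`).

* `Pc P`, `gO P f` : the prime-to-`P` parts of `idl p` and of `idl (p f)` (in the split case `Pc P = cjI P`).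
* `GoodL V L u e lam` : the lattice `u L` has the Legendre equation `y² = x (x - 1) (x - lam)`, `x(u z) = (℘(z; L) - e)/u²`, `y(u z) = ℘'(z; L)/(2 u³)`, with good reduction.
* `IsTeiP p er P V w` : the Teichmueller character of `(O/P)^*`, `w x ≡ emb x` modulo `P`.

RULE: files in `Pool/Agent/OB` import the original files (`Pool.Agent.MU3`, `MUX`, `NS`, `RI`, ..), never `Pool.Agent.MVF`.
-/

set_option autoImplicit false

namespace Pool.Agent.OB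

open _root_.MU3 _root_.Pool.Agent.MU3A _root_.Pool.Agent.MU3B _root_.Pool.Agent.RI _root_.Pool.Agent.MUX _root_.Pool.Agent.NS OnePoint

noncomputable section

open scoped Classical in
/-- the conjugate of `P` if `p` splits, otherwise `O`: `idl p = P ^ er * Pc P` -/
def Pc {A B : ℤ} (P : Ideal (OO A B)) : Ideal (OO A B) := if cjI P = P then ⊤ else cjI P

/-- the part of `idl (p * f)` which is prime to `P` -/
def gO {A B : ℤ} (P : Ideal (OO A B)) (f : ℕ) : Ideal (OO A B) := idl f * Pc P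

/-- the hypotheses on `p`, `k`, `P`, `V`; `er` is the ramification index -/
structure CaseO (p er : ℕ) (A B : ℤ) (P : Ideal (OO A B)) (V : ValuationSubring ℂ) : Prop where
  cq : CQ A B
  ex3 : absD A B ≠ 3
  ex4 : absD A B ≠ 4
  pp : p.Prime
  p5 : 5 ≤ p
  prime : P.IsPrime
  mem : ((p : ℕ) : OO A B) ∈ P
  ram : (er = 1 ∧ ((p : ℕ) : OO A B) ∉ P ^ 2) ∨ (er = 2 ∧ ((p : ℕ) : OO A B) ∈ P ^ 2)
  hV : OverI V P

/-- the standing hypotheses -/
structure SetO (p er : ℕ) (A B : ℤ) (P : Ideal (OO A B)) (V : ValuationSubring ℂ) (f : ℕ) : Prop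
    extends CaseO p er A B P V where
  f0 : f ≠ 0
  fp : ¬ p ∣ f
  f12 : 12 ∣ f
  fD : 2 * absD A B ∣ ((p * f : ℕ) : ℤ)

lemma SetO.f6 {p er : ℕ} {A B : ℤ} {P : Ideal (OO A B)} {V : ValuationSubring ℂ} {f : ℕ}
    (h : SetO p er A B P V f) : 6 ∣ f ∧ 12 ≤ f :=
  ⟨(by norm_num : 6 ∣ 12).trans h.f12, Nat.le_of_dvd (Nat.pos_of_ne_zero h.f0) h.f12⟩

lemma CaseO.not_le {p er : ℕ} {A B : ℤ} {P : Ideal (OO A B)} {V : ValuationSubring ℂ}
    (h : CaseO p er A B P V) {m : Ideal (OO A B)} (hm : IsCoprime m P) : ¬ m ≤ P := by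
  intro h1
  have h2 := Ideal.isCoprime_iff_sup_eq.1 hm
  rw [sup_eq_right.2 h1] at h2
  exact h.prime.ne_top h2

/-- the lattice `u L` is in Legendre form, with good reduction at `V` -/
structure GoodL (V : ValuationSubring ℂ) (L : PeriodPair) (u e lam : ℂ) : Prop where
  u0 : u ≠ 0
  eq : ∀ z ∉ L.lattice, (L.derivWeierstrassP z / (2 * u ^ 3)) ^ 2 =
    ((L.weierstrassP z - e) / u ^ 2) * ((L.weierstrassP z - e) / u ^ 2 - 1) *
      ((L.weierstrassP z - e) / u ^ 2 - lam)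
  vl : V.valuation lam = 1
  vl1 : V.valuation (1 - lam) = 1

/-- Teichmueller character of `(O/P)^*`, extended by `0` -/
structure IsTeiP {A B : ℤ} (p er : ℕ) (P : Ideal (OO A B)) (V : ValuationSubring ℂ)
    (w : OO A B → ℂ) : Prop where
  one : w 1 = 1
  mul : ∀ x y, w (x * y) = w x * w y
  per : ∀ x y, x - y ∈ P → w x = w y
  zero : ∀ x ∈ P, w x = 0
  pow : ∀ x ∉ P, w x ^ (nI P - 1) = 1
  cong : ∀ x, V.valuation (w x - emb x) ^ er ≤ V.valuation (p : ℂ)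

/-- the field `D` is in the ray class field of its level: `idl (f p^(n+1))` if `er = 1`, `f P^(2n+1)` if `er = 2` -/
def InRF (er : ℕ) {A B : ℤ} (P : Ideal (OO A B)) (p f n : ℕ) (D : IntermediateField ℚ ℂ) : Prop :=
  (∀ y ∈ D, y ∈ RF (idl (A := A) (B := B) (lvX p f n))) ∧
    (er = 2 → ∀ y ∈ D, y ∈ RF (_root_.Pool.Agent.NSRD.lvR P f n))

/-- the input from block E for one field `D` -/
structure EInpO {A B : ℤ} (p er : ℕ) (P : Ideal (OO A B)) (V : ValuationSubring ℂ) (f : ℕ)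
    {ι : Type} (R : Reps A B (p * f) ι) (u : ℂ) (n : ℕ) {D : IntermediateField ℚ ℂ}
    (h : kk A B ≤ D) (C : (letI := algC h; D ≃ₐ[kk A B] D) → ℂ) : Prop where
  ne : C (letI := algC h; 1) ≠ 0
  conj : letI := algC h
    ∀ τ : D ≃ₐ[kk A B] D, ∃ y : D, (y : ℂ) = C 1 ∧ ((τ y : D) : ℂ) = C τ
  ew : letI := algC h
    ∀ w : OO A B → ℂ, IsTeiP p er P V w → ∀ g : (D ≃ₐ[kk A B] D) → ℤ,
      (∃ y ∈ D, y ^ p = ∏ᶠ τ : D ≃ₐ[kk A B] D, C τ ^ g τ) → ∀ τ' : D ≃ₐ[kk A B] D,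
        V.valuation ((∑ᶠ τ : D ≃ₐ[kk A B] D, (g τ : ℂ) *
          TTN R w (lvX p f n) (aX p f) h (τ * τ')) / u) ≤ V.valuation (p : ℂ)

/-! ## Final statements of the blocks -/

/-- (RFIN, block GR, helper60; proofs of helper19) good models of the normalised lattices, with `u², e, lam` in `RF (2)`, and: an automorphism which is
in the inertia group of `RF m` at `V`, `m` an ideal not contained in `P`, is trivial on `RF m`. -/
def O_RFIN : Prop :=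
  ∀ (p er : ℕ) (A B : ℤ) (P : Ideal (OO A B)) (V : ValuationSubring ℂ), CaseO p er A B P V →
    TorX A B →
    (∀ (b : Ideal (OO A B)) (L : PeriodPair) (om : ℂ), IsNL b L om →
      ∃ u e lam : ℂ, GoodL V L u e lam ∧ u ^ 2 ∈ RF (idl (A := A) (B := B) 2) ∧
        e ∈ RF (idl (A := A) (B := B) 2) ∧ lam ∈ RF (idl (A := A) (B := B) 2)) ∧
    ∀ m : Ideal (OO A B), m ≠ ⊥ → ¬ m ≤ P → ∀ σ : ℂ ≃+* ℂ, FixK A B σ →
      (∀ y ∈ RF m, y ∈ V → σ y - y ∈ V.nonunits) → ∀ y ∈ RF m, σ y = y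

/-- (EFIN, block E, helper96) `p`-th powers have a logarithmic derivative divisible by `p`. -/
def O_EFIN : Prop :=
  ∀ (p er : ℕ) (A B : ℤ) (P : Ideal (OO A B)) (V : ValuationSubring ℂ) (f : ℕ),
    SetO p er A B P V f → TorX A B →
    ∀ (ι : Type) [Fintype ι] (R : Reps A B (p * f) ι) (u e lam : ℂ),
    GoodL V (R.L R.i0) u e lam → ∀ w : OO A B → ℂ, IsTeiP p er P V w →
    ∀ n : ℕ, 1 ≤ n →
    ∀ (H : ι → Finset ℂ), (∀ i, IsHalf (R.L i) (aX p f : ℂ) (H i)) →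
    ∀ (D : IntermediateField ℚ ℂ) (h : kk A B ≤ D), InRF er P p f n D →
    letI := algC h
    (∀ τ : D ≃ₐ[kk A B] D, ∃ y : D, (y : ℂ) = cX R (lvX p f n) H h 1 ∧
      ((τ y : D) : ℂ) = cX R (lvX p f n) H h τ) →
    ∀ g : (D ≃ₐ[kk A B] D) → ℤ,
      (∃ y ∈ D, y ^ p = ∏ᶠ τ : D ≃ₐ[kk A B] D, cX R (lvX p f n) H h τ ^ g τ) →
      ∀ τ' : D ≃ₐ[kk A B] D,
        V.valuation ((∑ᶠ τ : D ≃ₐ[kk A B] D, (g τ : ℂ) *
          TTN R w (lvX p f n) (aX p f) h (τ * τ')) / u) ≤ V.valuation (p : ℂ)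

/-- (TYF, helper59) TYPE. -/
def O_TYF : Prop :=
  ∀ (p er : ℕ) (A B : ℤ) (P : Ideal (OO A B)) (V : ValuationSubring ℂ) (f : ℕ),
    SetO p er A B P V f → TorX A B →
    ∀ (ι : Type) [Fintype ι] (R : Reps A B (p * f) ι) (u el lam : ℂ),
    GoodL V (R.L R.i0) u el lam → ∀ w : OO A B → ℂ, IsTeiP p er P V w →
    ∀ e : OO A B → ℂ, IsEI (idl (A := A) (B := B) (p * f)) e → ∀ r : ℕ, ¬ p ∣ r →
    (∀ x, e x ≠ 0 → e x ^ r = 1) → ∀ i : ℕ,
    (∀ x, x - 1 ∈ gO P f → x ∉ P → e x = w x ^ i) →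
    ∀ kk : ι → ℂ, (∀ i, kk i = 0 ∨ kk i ^ r = 1) →
    ∀ kk' : ι → ℂ, (∀ i, kk' i = 0 ∨ kk' i ^ r = 1) →
    ∃ (pi : ℂ) (KI : Subfield ℂ),
      (∀ x y : OnePoint ℚ, ∃ w' ∈ KI, PhiK R e kk x y / (u * R.om R.i0) = pi * w') ∧
      (∀ x y : OnePoint ℚ, ∃ w' ∈ KI, PhiK R e kk' x y / (u * R.om R.i0) = pi * w') ∧
      (∀ w' ∈ KI, V.valuation w' < 1 → V.valuation w' ^ er ≤ V.valuation (p : ℂ)) ∧
      V.valuation pi ^ (er * (nI P - 1)) * V.valuation (p : ℂ) ^ i = 1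

/-- (HFIN, block H, helper51) the character sums, for the types `i` with `er (NP - 1) ≤ i (p - 1)`, `i ≤ NP - 2`. -/
def O_HFIN : Prop :=
  ∀ (p er : ℕ) (A B : ℤ) (P : Ideal (OO A B)) (V : ValuationSubring ℂ) (f : ℕ),
    SetO p er A B P V f → TorX A B →
    ∀ (ι : Type) [Fintype ι] (R : Reps A B (p * f) ι) (u el lam : ℂ),
    GoodL V (R.L R.i0) u el lam → ∀ w : OO A B → ℂ, IsTeiP p er P V w →
    ∀ e : OO A B → ℂ, IsEI (idl (A := A) (B := B) (p * f)) e → ∀ r : ℕ, ¬ p ∣ r →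
    (∀ x, e x ≠ 0 → e x ^ r = 1) → ∀ i : ℕ, er * (nI P - 1) ≤ i * (p - 1) → i ≤ nI P - 2 →
    (∀ x, x - 1 ∈ gO P f → x ∉ P → e x = w x ^ i) →
    ∀ s : ℤ, s = 1 ∨ s = -1 → ∀ kk : ι → ℂ, (∀ i, kk i ^ r = 1) →
    ∀ n₀ : ℕ, ∃ n, n₀ ≤ n ∧
      V.valuation (p : ℂ) < V.valuation ((∑ j ∈ Finset.range 2, (-1) ^ (1 - j) *
        (STX R (lvX p f n) (p ^ (n + 1)) (aX p f) e kk ((1 + p) ^ j) +
          s * STX R (lvX p f n) (p ^ (n + 1)) (aX p f) e kk (-((1 + p) ^ j)))) / u)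

end

end Pool.Agent.OB
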