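import Pool.Agent.OB.StE
import Pool.Agent.MUX.E_RNG
import Pool.Agent.MUX.XLib

/-!
# OB, block E, module CAL: a uniformiser of `P` which is prime to the other primes above `p`
-/

set_option autoImplicit false

open Polynomial

namespace Pool.Agent.OBE

open _root_.MU3 _root_.Pool.Agent.MU3A _root_.Pool.Agent.MU3B _root_.Pool.Agent.MUX _root_.Pool.Agent.MUXU _root_.Pool.Agent.MUXE
open _root_.Pool.Agent.RI _root_.Pool.Agent.NS _root_.Pool.Agent.OB
open _root_.Pool.Agent.MUXV (GR InK tX)
open _root_.Pool.Agent.NSE (su ru WL IntP)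

noncomputable section

/-- (CAL) a uniformiser `al` of `P` which is prime to the other primes above `p`. -/
theorem tb_CAL (hcfa : Sb_CFA) : Sb_CAL := by
  intro p er A B P V hC
  obtain ⟨hne, hmax, -, -, hcnl, -, -, hQ⟩ := hcfa p er A B P V hC
  have hcq := hC.cq
  have hded : IsDedekindDomain (OO A B) := (te_RNG A B hcq).ded
  have hdom : IsDomain (OO A B) := Pool.Agent.MUX.isDomain hcq
  -- a uniformiser
  have hnle : ¬ P ≤ P ^ 2 := by
    intro h
    have h1 : P * P = P * ⊤ := by
      rw [← pow_two, Ideal.mul_top]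
      exact le_antisymm (Ideal.pow_le_self two_ne_zero) h
    exact hmax.ne_top (Pool.Agent.MUX.mul_cancel hcq hne h1)
  obtain ⟨π, hπ, hπ2⟩ := Set.not_subset.1 hnle
  -- `P ^ 2` and `Pc P` are coprime
  have hco : IsCoprime (P ^ 2) (Pc P) := by
    apply IsCoprime.pow_left
    rw [Ideal.isCoprime_iff_sup_eq]
    by_contra h
    have h1 : P ⊔ Pc P = P := (hmax.eq_of_le h le_sup_left).symm
    exact hcnl (le_sup_right.trans h1.le)
  obtain ⟨a, ha, b, hb, hab⟩ := Ideal.isCoprime_iff_exists.1 hco
  have hP2 : P ^ 2 ≤ P := Ideal.pow_le_self two_ne_zero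
  set al : OO A B := π * b + a with hal
  have hal1 : al - π ∈ P ^ 2 := by
    have e : al - π = (1 - π) * a := by
      rw [hal]
      linear_combination π * hab
    rw [e]
    exact Ideal.mul_mem_left _ _ ha
  have hal2 : al - 1 ∈ Pc P := by
    have e : al - 1 = (π - 1) * b := by
      rw [hal]
      linear_combination hab
    rw [e]
    exact Ideal.mul_mem_left _ _ hb
  have halP : al ∈ P := by
    have e : al = (al - π) + π := by ring
    rw [e]
    exact P.add_mem (hP2 hal1) hπ
  have halP2 : al ∉ P ^ 2 := by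
    intro h
    apply hπ2
    have e : π = al - (al - π) := by ring
    rw [e]
    exact Ideal.sub_mem _ h hal1
  refine ⟨al, halP, halP2, ?_⟩
  -- the cofactor
  obtain ⟨c, hc⟩ := Ideal.dvd_iff_le.2 ((Ideal.span_singleton_le_iff_mem P).2 halP)
  have halc : al ∈ P * c := by
    rw [← hc]
    exact Ideal.mem_span_singleton_self _
  have htop : c ⊔ idl (A := A) (B := B) p = ⊤ := by
    by_contra h
    obtain ⟨M, hM, hle⟩ := Ideal.exists_le_maximal _ h
    have hpM : ((p : ℕ) : OO A B) ∈ M :=
      hle (Ideal.mem_sup_right (Ideal.mem_span_singleton_self _))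
    have hcM : c ≤ M := le_sup_left.trans hle
    rcases hQ M hM.isPrime hpM with h1 | h1
    · rw [h1] at hcM
      apply halP2
      rw [pow_two]
      exact Ideal.mul_mono_right hcM halc
    · apply hM.ne_top
      rw [Ideal.eq_top_iff_one]
      have h2 : al ∈ M := hcM (Ideal.mul_le_right halc)
      have h3 : al - 1 ∈ M := by
        rw [h1]
        exact hal2
      have e : (1 : OO A B) = al - (al - 1) := by ring
      rw [e]
      exact M.sub_mem h2 h3
  obtain ⟨c0, hc0, w, hw, hcw⟩ := Submodule.mem_sup.1 ((Ideal.eq_top_iff_one _).1 htop)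
  obtain ⟨t, ht⟩ := Ideal.mem_span_singleton'.1 hw
  have hst : star c0 = 1 - star t * ((p : ℕ) : OO A B) := by
    have h1 : c0 = 1 - t * ((p : ℕ) : OO A B) := by
      rw [ht]
      exact eq_sub_of_add_eq hcw
    rw [h1, star_sub, star_one, star_mul, star_natCast]
    ring
  have hnm := Pool.Agent.MUX.mul_star c0
  refine ⟨(nm c0).natAbs, ?_, ?_⟩
  · intro hdvd
    obtain ⟨s, hs⟩ := Int.natCast_dvd.2 hdvd
    rw [hs] at hnm
    have h1 : c0 = 1 - t * ((p : ℕ) : OO A B) := by
      rw [ht]
      exact eq_sub_of_add_eq hcw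
    have h2 : (1 : OO A B) = ((p : ℕ) : OO A B) *
        ((s : OO A B) + t + star t - t * star t * ((p : ℕ) : OO A B)) := by
      rw [hst, h1] at hnm
      push_cast at hnm
      linear_combination hnm
    apply hmax.ne_top
    rw [Ideal.eq_top_iff_one, h2]
    exact Ideal.mul_mem_right _ _ hC.mem
  · intro x hx
    have hN : (((nm c0).natAbs : ℕ) : OO A B) ∈ c := by
      have h1 : ((nm c0 : ℤ) : OO A B) ∈ c := by
        rw [← hnm]
        exact Ideal.mul_mem_right _ _ hc0
      rcases Int.natAbs_eq (nm c0) with h2 | h2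
      · rw [h2, Int.cast_natCast] at h1
        exact h1
      · rw [h2, Int.cast_neg, Int.cast_natCast] at h1
        exact neg_mem_iff.1 h1
    have h1 : (((nm c0).natAbs : ℕ) : OO A B) * x ∈ P * c := by
      rw [mul_comm _ x]
      exact Ideal.mul_mem_mul hx hN
    rw [← hc] at h1
    obtain ⟨y, hy⟩ := Ideal.mem_span_singleton'.1 h1
    exact ⟨y, by rw [← hy]; ring⟩

end

end Pool.Agent.OBE
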