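import Pool.Agent.OB.StT
import Pool.Agent.MUX.XLib
import Pool.Agent.MUX.E_RNG

/-!
# OBT_BAS: elementary facts on `P` and `V` (helper16)
-/

set_option autoImplicit false

namespace Pool.Agent.OBT

open _root_.MU3 Pool.Agent.MU3A Pool.Agent.MU3B Pool.Agent.RI Pool.Agent.MUX Pool.Agent.MUXU
open Pool.Agent.NS Pool.Agent.OB

namespace BAS

theorem integral_mem (V : ValuationSubring ℂ) {x : ℂ} (hx : IsIntegral ℤ x) : x ∈ V := by
  have h1 : IsIntegral V x := hx.tower_top
  obtain ⟨y, hy⟩ := (IsIntegrallyClosed.isIntegral_iff (R := V) (K := ℂ)).1 h1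
  rw [← hy]
  exact y.2

theorem nat_unit {V : ValuationSubring ℂ} {p : ℕ} (hp : p.Prime) (hv : V.valuation (p : ℂ) < 1)
    {n : ℕ} (hn : ¬ p ∣ n) : V.valuation (n : ℂ) = 1 := by
  have h1 : V.valuation (n : ℂ) ≤ 1 := (V.valuation_le_one_iff _).2 (natCast_mem V n)
  refine le_antisymm h1 (not_lt.1 fun h2 => ?_)
  have hc : IsCoprime (n : ℤ) (p : ℤ) :=
    Nat.isCoprime_iff_coprime.2 ((hp.coprime_iff_not_dvd.2 hn).symm)
  obtain ⟨a, b, hab⟩ := hc
  have e : (a : ℂ) * n + b * p = 1 := by exact_mod_cast hab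
  have ha : V.valuation (a : ℂ) ≤ 1 := (V.valuation_le_one_iff _).2 (intCast_mem V a)
  have hb : V.valuation (b : ℂ) ≤ 1 := (V.valuation_le_one_iff _).2 (intCast_mem V b)
  have h3 : V.valuation ((a : ℂ) * n + b * p) < 1 := by
    refine V.valuation.map_add_lt ?_ ?_
    · rw [map_mul]
      exact mul_lt_one_of_nonneg_of_lt_one_right ha zero_le h2
    · rw [map_mul]
      exact mul_lt_one_of_nonneg_of_lt_one_right hb zero_le hv
  rw [e, map_one] at h3
  exact lt_irrefl _ h3

variable {A B : ℤ}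

theorem eq_top_of_nI {P : Ideal (OO A B)} (h : nI P = 1) : P = ⊤ := by
  unfold nI at h
  have h1 := (Nat.card_eq_one_iff_unique.1 h).1
  exact Ideal.Quotient.subsingleton_iff.1 h1

theorem mem_idl (p : ℕ) : ((p : ℕ) : OO A B) ∈ idl (A := A) (B := B) p :=
  Ideal.mem_span_singleton_self _

theorem not_mem_sq {p : ℕ} {P : Ideal (OO A B)} (h : P * P = idl (A := A) (B := B) p) :
    ((p : ℕ) : OO A B) ∈ P ^ 2 := by
  rw [pow_two, h]
  exact mem_idl p

theorem top_coprime (P : Ideal (OO A B)) : IsCoprime (⊤ : Ideal (OO A B)) P := by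
  rw [Ideal.isCoprime_iff_sup_eq, top_sup_eq]

theorem idl_dvd {p : ℕ} {P : Ideal (OO A B)} (h : ((p : ℕ) : OO A B) ∈ P) :
    idl (A := A) (B := B) p ≤ P := (Ideal.span_singleton_le_iff_mem P).2 h

end BAS

open BAS

theorem o_BAS : So_BAS := by
  intro p er A B P V h
  have hq := h.cq
  have hded : IsDedekindDomain (OO A B) := (Pool.Agent.MUXE.te_RNG A B hq).ded
  have hP := h.prime
  have hp0 : ((p : ℕ) : OO A B) ≠ 0 := natCast_ne_zero' hq h.pp.ne_zero
  have hPb : P ≠ ⊥ := fun e => hp0 (by simpa [e] using h.mem)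
  have hmax : P.IsMaximal := hP.isMaximal hPb
  have hv : V.valuation (p : ℂ) < 1 := by
    have h1 := (h.hV ((p : ℕ) : OO A B)).2 h.mem
    rw [emb_natCast hq] at h1
    exact (V.mem_nonunits_iff).1 h1
  have hib : idl (A := A) (B := B) p ≠ ⊥ := fun e =>
    hp0 (Ideal.span_singleton_eq_bot.1 e)
  obtain ⟨Q, hQ⟩ : P ∣ idl (A := A) (B := B) p := Ideal.dvd_iff_le.2 (idl_dvd h.mem)
  have hQb : Q ≠ ⊥ := fun e => hib (by rw [hQ, e, Ideal.mul_bot])
  have hnp : nI (idl (A := A) (B := B) p) = p ^ 2 := by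
    have h1 := nI_sp hq hp0
    rw [show idl (A := A) (B := B) p = sp ((p : ℕ) : OO A B) from rfl, h1]
    have h2 : nm ((p : ℕ) : OO A B) = (p : ℤ) ^ 2 := by
      have := nm_intCast (A := A) (B := B) (p : ℤ)
      simpa using this
    rw [h2, Int.natAbs_pow, Int.natAbs_natCast]
  have hmul : nI P * nI Q = p ^ 2 := by rw [← nI_mul hq hPb hQb, ← hQ, hnp]
  have hn1 : nI P ≠ 1 := fun e => hP.ne_top (eq_top_of_nI e)
  have hcase : nI P = p ∨ nI P = p ^ 2 := by
    obtain ⟨i, hi, hi2⟩ := (Nat.dvd_prime_pow h.pp).1 (Dvd.intro _ hmul)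
    interval_cases i
    · exact absurd hi2 (by simpa using hn1)
    · exact Or.inl (by simpa using hi2)
    · exact Or.inr hi2
  have hp5 := h.p5
  have hd : ¬ p ∣ nI P - 1 := by
    intro hd
    have h1 : p ∣ nI P := by
      rcases hcase with e | e
      · rw [e]
      · rw [e]
        exact dvd_pow_self p two_ne_zero
    have h2 : 1 ≤ nI P := by
      rcases hcase with e | e <;> rw [e]
      · omega
      · exact Nat.one_le_pow _ _ (by omega)
    have h3 : p ∣ 1 := by
      have := (Nat.dvd_sub h1 hd)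
      rwa [Nat.sub_sub_self h2] at this
    have := Nat.le_of_dvd one_pos h3
    omega
  have h4 : 4 ≤ nI P - 1 := by
    rcases hcase with e | e <;> rw [e]
    · omega
    · have : 5 * 5 ≤ p ^ 2 := by
        rw [pow_two]
        exact Nat.mul_le_mul hp5 hp5
      omega
  have hy : ∃ y : OO A B, (∀ x ∈ P, ∃ z, x * y = (p : OO A B) * z) ∧
      ∀ z, y ≠ (p : OO A B) * z := by
    have h1 : ¬ Q ≤ idl (A := A) (B := B) p := by
      intro h1
      have h2 : ⊤ * Q ≤ P * Q := by
        rw [← hQ, Ideal.top_mul]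
        exact h1
      rw [mul_comm ⊤ Q, mul_comm P Q] at h2
      exact hP.ne_top (top_le_iff.1 ((mul_le_mul_iff hq hQb).1 h2))
    obtain ⟨y, hyQ, hyp⟩ := SetLike.not_le_iff_exists.1 h1
    refine ⟨y, fun x hx => ?_, fun z hz => hyp ?_⟩
    · have h2 : x * y ∈ idl (A := A) (B := B) p := by
        rw [hQ]
        exact Ideal.mul_mem_mul hx hyQ
      obtain ⟨z, hz⟩ := Ideal.mem_span_singleton.1 h2
      exact ⟨z, hz⟩
    · rw [hz]
      exact Ideal.mem_span_singleton.2 ⟨z, rfl⟩
  have hlast : IsCoprime (Pc P) P ∧ idl (A := A) (B := B) p = Pc P * P ^ er := by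
    have hPP := mul_cjI hq hPb
    rcases hcase with e | e
    · have e1 : P * cjI P = idl (A := A) (B := B) p := by rw [hPP, e]
      by_cases hc : cjI P = P
      · have hPc : Pc P = ⊤ := by
          unfold Pc
          rw [if_pos hc]
        have e2 : P * P = idl (A := A) (B := B) p := by
          have e3 := e1
          rwa [hc] at e3
        have her : er = 2 := by
          rcases h.ram with ⟨-, h1⟩ | ⟨h1, -⟩
          · exact absurd (not_mem_sq e2) h1
          · exact h1
        rw [hPc, her, Ideal.top_mul, pow_two]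
        exact ⟨top_coprime P, e2.symm⟩
      · have hPc : Pc P = cjI P := by
          unfold Pc
          rw [if_neg hc]
        have hpr : (cjI P).IsPrime := by
          unfold cjI
          exact Ideal.IsPrime.comap _
        have hmx : (cjI P).IsMaximal := hpr.isMaximal (cjI_ne_bot hq hPb)
        have her : er = 1 := by
          rcases h.ram with ⟨h1, -⟩ | ⟨-, h1⟩
          · exact h1
          · exfalso
            have h2 : P * cjI P ≤ P * P := by
              rw [e1, ← pow_two]
              exact idl_dvd h1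
            exact hc (hmx.eq_of_le hP.ne_top ((mul_le_mul_iff hq hPb).1 h2))
        rw [hPc]
        refine ⟨Ideal.isCoprime_iff_sup_eq.2 (hmx.coprime_of_ne hmax hc), ?_⟩
        rw [her, pow_one, mul_comm, e1]
    · have hQ1 : nI Q = 1 := by
        have h1 : p ^ 2 * nI Q = p ^ 2 * 1 := by rw [← e, hmul, mul_one, e]
        exact Nat.eq_of_mul_eq_mul_left (pow_pos h.pp.pos 2) h1
      have hPi : idl (A := A) (B := B) p = P := by rw [hQ, eq_top_of_nI hQ1, Ideal.mul_top]
      have hc : cjI P = P := by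
        apply mul_cancel hq hPb
        rw [hPP, e]
        conv_rhs => rw [← hPi]
        rw [show sp ((p ^ 2 : ℕ) : OO A B) = idl (A := A) (B := B) (p ^ 2) from rfl, idl, idl,
          Ideal.span_singleton_mul_span_singleton]
        congr 2
        push_cast
        ring
      have hPc : Pc P = ⊤ := by
        unfold Pc
        rw [if_pos hc]
      have her : er = 1 := by
        rcases h.ram with ⟨h1, -⟩ | ⟨-, h1⟩
        · exact h1
        · exfalso
          have h2 : P * ⊤ ≤ P * P := by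
            rw [Ideal.mul_top, ← pow_two]
            conv_lhs => rw [← hPi]
            exact idl_dvd h1
          exact hP.ne_top (top_le_iff.1 ((mul_le_mul_iff hq hPb).1 h2))
      rw [hPc]
      refine ⟨top_coprime P, ?_⟩
      rw [Ideal.top_mul, her, pow_one, hPi]
  refine ⟨hv, ?_, hmax, fun x => ?_, fun x => ?_, fun n hn => nat_unit h.pp hv hn, hcase, hd, h4,
    hy, hlast.1, hlast.2⟩
  · have h1 : ¬ p ∣ 2 := fun h1 => by
      have := Nat.le_of_dvd two_pos h1
      omega
    exact_mod_cast nat_unit h.pp hv h1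
  · exact (V.valuation_le_one_iff _).2 (integral_mem V (Pool.Agent.MUXE.RNGaux.emb_int hq x))
  · rw [← h.hV x, V.mem_nonunits_iff]

end Pool.Agent.OBT
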