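import Pool.Agent.OB.StE
import Pool.Agent.MUX.XLib

/-!
# OB, block E (helper53): (DEG) the degree of `RF (P^(j+1) m')` over `RF m'`. Models: `MUX/E_DEG.lean`, `NS/F_DEG.lean`
-/

set_option autoImplicit false

open Polynomial

namespace Pool.Agent.OBE

open _root_.MU3 _root_.Pool.Agent.MU3A _root_.Pool.Agent.MU3B _root_.Pool.Agent.MUX _root_.Pool.Agent.MUXU _root_.Pool.Agent.MUXE
open _root_.Pool.Agent.RI _root_.Pool.Agent.NS _root_.Pool.Agent.OB

noncomputable section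

namespace DEG

lemma nI_top' {A B : ℤ} : nI (⊤ : Ideal (OO A B)) = 1 := by
  unfold nI
  have : Subsingleton (OO A B ⧸ (⊤ : Ideal (OO A B))) := Ideal.Quotient.subsingleton_iff.2 rfl
  exact Nat.card_of_subsingleton 0

lemma nI_pow' {A B : ℤ} (hc : CQ A B) {c : Ideal (OO A B)} (hc0 : c ≠ ⊥) (j : ℕ) :
    c ^ j ≠ ⊥ ∧ nI (c ^ j) = nI c ^ j := by
  induction j with
  | zero =>
    rw [pow_zero, pow_zero, Ideal.one_eq_top]
    refine ⟨?_, nI_top'⟩
    intro h
    have h1 : (1 : OO A B) ∈ (⊤ : Ideal (OO A B)) := trivial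
    rw [h, Ideal.mem_bot] at h1
    have := natCast_ne_zero' hc (n := 1) one_ne_zero
    rw [Nat.cast_one] at this
    exact this h1
  | succ j ih =>
    rw [pow_succ, pow_succ]
    exact ⟨mul_ne_bot hc ih.1 hc0, by rw [nI_mul hc ih.1 hc0, ih.2]⟩

/-- the number of the classes modulo `P^(j+1)` of the elements outside `P` -/
lemma card_out {A B : ℤ} (hc : CQ A B) {P : Ideal (OO A B)} (hP : P ≠ ⊥) (j : ℕ) :
    Nat.card {y : OO A B ⧸ P ^ (j + 1) // ∀ x : OO A B, Ideal.Quotient.mk _ x = y → x ∉ P} ≤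
      (nI P - 1) * nI P ^ j := by
  classical
  obtain ⟨h0, h1⟩ := nI_pow' hc hP (j + 1)
  haveI hfin : Finite (OO A B ⧸ P ^ (j + 1)) := finite_quot hc h0
  haveI hfinP : Finite (OO A B ⧸ P) := finite_quot hc hP
  have hle : P ^ (j + 1) ≤ P := Ideal.pow_le_self (by omega)
  let φ : OO A B ⧸ P ^ (j + 1) →+* OO A B ⧸ P := Ideal.Quotient.factor hle
  have hφ : Function.Surjective φ := Ideal.Quotient.factor_surjective hle
  have hφm : ∀ x : OO A B, φ (Ideal.Quotient.mk _ x) = Ideal.Quotient.mk _ x := fun x => rfl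
  let K : AddSubgroup (OO A B ⧸ P ^ (j + 1)) := φ.toAddMonoidHom.ker
  have hq : 0 < nI P := Nat.pos_of_ne_zero (nI_ne_zero hc hP)
  have e1 : Nat.card (OO A B ⧸ P ^ (j + 1)) = nI P ^ (j + 1) := h1
  have e2 : Nat.card ((OO A B ⧸ P ^ (j + 1)) ⧸ K) = nI P :=
    Nat.card_congr (QuotientAddGroup.quotientKerEquivOfSurjective φ.toAddMonoidHom hφ).toEquiv
  have e3 : Nat.card (OO A B ⧸ P ^ (j + 1)) =
      Nat.card ((OO A B ⧸ P ^ (j + 1)) ⧸ K) * Nat.card K :=
    AddSubgroup.card_eq_card_quotient_mul_card_addSubgroup K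
  have e4 : Nat.card K = nI P ^ j := by
    rw [e1, e2, pow_succ, mul_comm] at e3
    exact (Nat.eq_of_mul_eq_mul_left hq e3).symm
  have e5 : Nat.card (OO A B ⧸ P ^ (j + 1)) = Nat.card K +
      Nat.card {y : OO A B ⧸ P ^ (j + 1) // y ∉ K} := by
    have h2 := Nat.card_congr (Equiv.sumCompl (fun y : OO A B ⧸ P ^ (j + 1) => y ∈ K))
    rw [Nat.card_sum] at h2
    exact h2.symm
  have e6 : Nat.card {y : OO A B ⧸ P ^ (j + 1) // y ∉ K} = (nI P - 1) * nI P ^ j := by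
    rw [e1, e4] at e5
    rw [Nat.sub_mul, one_mul]
    have : nI P * nI P ^ j = nI P ^ (j + 1) := by rw [pow_succ, mul_comm]
    omega
  rw [← e6]
  refine Nat.card_le_card_of_injective (fun y => ⟨y.1, ?_⟩) ?_
  · intro hy
    obtain ⟨x, hx⟩ := Ideal.Quotient.mk_surjective y.1
    apply y.2 x hx
    have h2 : φ y.1 = 0 := hy
    rw [← hx, hφm] at h2
    exact Ideal.Quotient.eq_zero_iff_mem.1 h2
  · intro y z h
    exact Subtype.ext (congrArg (fun w => w.1) h)

end DEG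

open DEG in
theorem tb_DEG : Sb_DEG := by
  classical
  intro p er A B P V al hC hG j m' hm' hmP
  have hR := hC.ring
  have hcq := hC.cq
  haveI := hR.ded
  obtain ⟨f1, -, f3, -, f5⟩ := te_FAC te_TRA A B hR
  -- ideals
  set m : Ideal (OO A B) := P ^ (j + 1) * m' with hm
  have hmm' : m ≤ m' := Ideal.mul_le_right
  have hmPj : m ≤ P ^ (j + 1) := Ideal.mul_le_left
  have hPjP : P ^ (j + 1) ≤ P := Ideal.pow_le_self (by omega)
  have hP0 : P ≠ ⊥ := hC.ne
  have hm0 : m ≠ ⊥ := mul_ne_bot hcq (nI_pow' hcq hP0 (j + 1)).1 hm'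
  have hcop0 : P ⊔ m' = ⊤ := by
    by_contra h
    have h1 : P = P ⊔ m' := hC.max.eq_of_le h le_sup_left
    exact hmP (le_sup_right.trans (le_of_eq h1.symm))
  have hcop : IsCoprime (P ^ (j + 1)) m' := (Ideal.isCoprime_iff_sup_eq.2 hcop0).pow_left
  have hinf : P ^ (j + 1) ⊓ m' = m := Ideal.inf_eq_mul_of_isCoprime hcop
  -- fields
  have hF : RF m' ≤ RF m := f1 m m' hmm'
  haveI := hG.fin m hm0
  haveI := hG.gal m hm0
  set E : IntermediateField (kk A B) (RF m) := IntermediateField.restrict hF with hE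
  have e1 : Module.finrank (kk A B) (RF m') = Module.finrank (kk A B) E :=
    (IntermediateField.restrictAlgEquiv hF).toLinearEquiv.finrank_eq
  have e2 : Module.finrank (kk A B) E * Module.finrank E (RF m) =
      Module.finrank (kk A B) (RF m) := Module.finrank_mul_finrank _ _ _
  have e3 : Nat.card E.fixingSubgroup = Module.finrank E (RF m) :=
    IsGalois.card_fixingSubgroup_eq_finrank E
  rw [← e2, ← e3, e1, mul_comm]
  refine Nat.mul_le_mul_right _ ?_
  -- the kernel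
  have hker : ∀ σ : E.fixingSubgroup, ∃ α : OO A B, α - 1 ∈ m' ∧ ActE (em (σ : RF m ≃ₐ[kk A B] RF m)) m α := by
    intro σ
    refine hG.ker m m' hm0 hmm' (em (σ : RF m ≃ₐ[kk A B] RF m)) ?_
    intro y hy hy'
    have h4 : (⟨y, hy⟩ : RF m) ∈ E := (IntermediateField.mem_restrict hF _).2 hy'
    have h5 := (IntermediateField.mem_fixingSubgroup_iff E _).1 σ.2 ⟨y, hy⟩ h4
    exact congrArg Subtype.val h5
  choose α hα1 hα2 using hker
  have hαP : ∀ σ, α σ ∉ P := by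
    intro σ hσ
    have h4 := (hα2 σ).1
    have h5 : sp (α σ) ≤ P := (Ideal.span_singleton_le_iff_mem P).2 hσ
    have h6 : m ≤ P := hmPj.trans hPjP
    have h7 : sp (α σ) ⊔ m = ⊤ := Ideal.isCoprime_iff_sup_eq.1 h4
    have h8 : (⊤ : Ideal (OO A B)) ≤ P := h7 ▸ sup_le h5 h6
    exact hC.prime.ne_top (top_le_iff.1 h8)
  have hinj : ∀ σ τ, α σ - α τ ∈ P ^ (j + 1) → σ = τ := by
    intro σ τ h
    have h4 : α σ - α τ ∈ m' := by
      have := sub_mem (hα1 σ) (hα1 τ)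
      rwa [sub_sub_sub_cancel_right] at this
    have h5 : α σ - α τ ∈ m := hinf ▸ Ideal.mem_inf.2 ⟨h, h4⟩
    have h6 := f5 m (RF m) (em (σ : RF m ≃ₐ[kk A B] RF m)) (α σ) (α τ) (Or.inl h5) (hα2 σ)
    have h7 := f3 m _ _ _ h6 (hα2 τ)
    apply Subtype.ext
    apply AlgEquiv.ext
    intro x
    apply Subtype.ext
    exact DFunLike.congr_fun h7 x
  haveI hfin : Finite (OO A B ⧸ P ^ (j + 1)) := finite_quot hcq (nI_pow' hcq hP0 (j + 1)).1
  refine le_trans ?_ (card_out hcq hP0 j)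
  refine Nat.card_le_card_of_injective
    (fun σ => ⟨Ideal.Quotient.mk _ (α σ), ?_⟩) ?_
  · intro x hx hxP
    apply hαP σ
    have h4 : x - α σ ∈ P := hPjP ((Ideal.Quotient.mk_eq_mk_iff_sub_mem _ _).1 hx)
    have h5 := sub_mem hxP h4
    rwa [sub_sub_cancel] at h5
  · intro σ τ h
    have h4 : Ideal.Quotient.mk (P ^ (j + 1)) (α σ) = Ideal.Quotient.mk (P ^ (j + 1)) (α τ) :=
      congrArg Subtype.val h
    exact hinj _ _ ((Ideal.Quotient.mk_eq_mk_iff_sub_mem _ _).1 h4)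

end

end Pool.Agent.OBE
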