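import Pool.Agent.OB.StE

/-!
# OB, block E, module EXO: exact orders of the points of level `m = p^(n+1) f` (helper12)

Port of `Pool/Agent/NS/F_EXO.lean`.
-/

set_option autoImplicit false

namespace Pool.Agent.OBE

open _root_.MU3 _root_.Pool.Agent.MU3A _root_.Pool.Agent.MU3B _root_.Pool.Agent.MUX
open _root_.Pool.Agent.MUXU _root_.Pool.Agent.MUXE
open _root_.Pool.Agent.RI _root_.Pool.Agent.NS _root_.Pool.Agent.OB
open _root_.Pool.Agent.NSE (su ru WL IntP)
open _root_.Pool.Agent.MUXV (GR InK tX)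

noncomputable section

namespace EXO

lemma inj {A B : ℤ} (hR : RingE A B) (x y : OO A B) (h : emb x = emb y) : x = y := by
  obtain ⟨φ, hφ⟩ := hR.hom
  have h1 : emb (x - y) = 0 := by
    rw [← hφ, map_sub, hφ, hφ, h, sub_self]
  exact sub_eq_zero.1 (hR.inj0 _ h1)

lemma nI_ne {A B : ℤ} (hR : RingE A B) (b : Ideal (OO A B)) (hb : b ≠ ⊥) :
    nI b ≠ 0 ∧ ((nI b : ℕ) : OO A B) ∈ b := by
  have := hR.ded
  refine ⟨?_, ?_⟩
  · change Ideal.absNorm b ≠ 0
    rw [Ne, Ideal.absNorm_eq_zero_iff]
    exact hb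
  · change ((Ideal.absNorm b : ℕ) : OO A B) ∈ b
    exact Ideal.absNorm_mem b

lemma nat {A B : ℤ} (m k : ℕ) (h : ((m : ℕ) : OO A B) ∣ ((k : ℕ) : OO A B)) :
    m ∣ k := by
  obtain ⟨z, hz⟩ := h
  have h5 : (k : ℤ) = (m : ℤ) * z.re := by
    have := congrArg QuadraticAlgebra.re hz
    simpa using this
  exact Int.natCast_dvd_natCast.1 ⟨z.re, h5⟩

lemma bez {A B : ℤ} {p a : ℕ} (hp : p.Prime) (ha : ¬ p ∣ a) :
    ∃ s t : ℤ, (s : ℂ) * a + t * p = 1 ∧ (s : OO A B) * (a : ℕ) + (t : OO A B) * (p : ℕ) = 1 := by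
  have h1 : a.Coprime p := ((Nat.Prime.coprime_iff_not_dvd hp).2 ha).symm
  obtain ⟨s, t, hst⟩ := Nat.isCoprime_iff_coprime.2 h1
  refine ⟨s, t, by exact_mod_cast hst, ?_⟩
  have := congrArg (fun k : ℤ => (k : OO A B)) hst
  push_cast at this
  exact this

end EXO

/-- (EXO) exact orders of the points of level `m = p^(n+1) f` -/
theorem tb_EXO : Sb_EXO := by
  intro p er A B P V al hC n f ι R hf hpf
  have hR := hC.ring
  have hded := hR.ded
  have hp : p.Prime := hC.toCaseO.pp
  have hp0 : p ≠ 0 := hp.ne_zero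
  have hpC : (p : ℂ) ≠ 0 := by exact_mod_cast hp0
  obtain ⟨φ, hφ⟩ := hR.hom
  set m : ℕ := p ^ (n + 1) * f with hm
  have hm0 : m ≠ 0 := by
    rw [hm]
    exact mul_ne_zero (pow_ne_zero _ hp0) hf
  have hmC : (m : ℂ) ≠ 0 := by exact_mod_cast hm0
  have hnl0 := R.nl R.i0
  have hom0 : R.om R.i0 ≠ 0 := hnl0.om_ne
  have heN : ∀ k : ℕ, emb ((k : ℕ) : OO A B) = (k : ℂ) := fun k => by rw [← hφ, map_natCast]
  have heZ : ∀ k : ℤ, emb ((k : ℤ) : OO A B) = (k : ℂ) := fun k => by rw [← hφ, map_intCast]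
  have hem : ∀ x y : OO A B, emb (x * y) = emb x * emb y := fun x y => by
    rw [← hφ, ← hφ, ← hφ, map_mul]
  have hL0 : ∀ z, z ∈ (R.L R.i0).lattice ↔ ∃ x : OO A B, z = R.om R.i0 * emb x := by
    intro z
    rw [hnl0.mem, R.b0]
    simp
  have hidl : ∀ (k : ℕ) (c : OO A B), c ∈ idl (A := A) (B := B) k ↔
      ((k : ℕ) : OO A B) ∣ c := fun k c => Ideal.mem_span_singleton
  refine ⟨?_, ?_, ?_⟩
  · intro i x hx
    have hnl := R.nl i
    obtain ⟨hN0, hNb⟩ := EXO.nI_ne hR (R.b i) hnl.b_ne
    have hNC : ((nI (R.b i) : ℕ) : ℂ) ≠ 0 := by exact_mod_cast hN0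
    have hom : R.om i ≠ 0 := hnl.om_ne
    have hLi := hnl.mem
    have hcop : (nI (R.b i)).Coprime m := by
      have h1 := R.cop i
      rw [hm]
      exact Nat.Coprime.mul_right
        (Nat.Coprime.pow_right _ (Nat.Coprime.coprime_mul_right_right h1))
        (Nat.Coprime.coprime_mul_left_right h1)
    obtain ⟨s, t, hst⟩ := Nat.isCoprime_iff_coprime.2 hcop
    have h2 : (s : OO A B) * ((nI (R.b i) : ℕ) : OO A B) + (t : OO A B) * (m : ℕ) = 1 := by
      have := congrArg (fun k : ℤ => (k : OO A B)) hst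
      push_cast at this
      exact this
    have hEx : Ann (idl (A := A) (B := B) m) (R.L i) (pt R m i x) := by
      intro c
      rw [hLi, hidl]
      constructor
      · rintro ⟨y, -, hy⟩
        have h1 : ((nI (R.b i) : ℕ) : OO A B) * (c * x) = (m : ℕ) * y := by
          apply EXO.inj hR
          rw [hem, hem, hem, heN, heN]
          unfold pt at hy
          field_simp at hy
          linear_combination hy
        have h3 : ((m : ℕ) : OO A B) ∣ x * c := by
          refine ⟨(s : OO A B) * y + (t : OO A B) * c * x, ?_⟩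
          linear_combination (-(x * c)) * h2 + (s : OO A B) * h1
        exact hx.symm.dvd_of_dvd_mul_left h3
      · rintro ⟨y, rfl⟩
        refine ⟨(nI (R.b i) : ℕ) * (y * x), (R.b i).mul_mem_right _ hNb, ?_⟩
        rw [hem, hem, hem, heN, heN]
        unfold pt
        field_simp
    refine ⟨hEx, ?_, ?_⟩
    · unfold pt muX
      field_simp
    · intro q hq
      have hnat : ∀ (k : ℕ) (u : ℂ), u ∈ (R.L i).lattice → (k : ℂ) * u ∈ (R.L i).lattice := by
        intro k u hu
        have := (R.L i).lattice.smul_mem (k : ℤ) hu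
        simpa using this
      constructor
      · have h1 : ((m : ℕ) : ℂ) * pt R m i x ∈ (R.L i).lattice := by
          rw [← heN]
          exact (hEx _).2 (Ideal.mem_span_singleton_self _)
        have h4 := hnat (p ^ n * f) _ hq
        have h5 : ((m : ℕ) : ℂ) * (pt R m i x + q) =
            ((m : ℕ) : ℂ) * pt R m i x + ((p ^ n * f : ℕ) : ℂ) * (p * q) := by
          rw [hm]
          push_cast
          ring
        rw [h5]
        exact add_mem h1 h4
      · intro c hc
        have h1 : emb (((p * c : ℕ)) : OO A B) * pt R m i x ∈ (R.L i).lattice := by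
          rw [heN]
          have h4 := hnat p _ hc
          have h5 := hnat c _ hq
          have h6 : ((p * c : ℕ) : ℂ) * pt R m i x =
              ((p : ℕ) : ℂ) * ((c : ℂ) * (pt R m i x + q)) - ((c : ℕ) : ℂ) * (p * q) := by
            push_cast
            ring
          rw [h6]
          exact sub_mem h4 h5
        have h4 := EXO.nat _ _ ((hidl _ _).1 ((hEx _).1 h1))
        have h5 : p * (p ^ n * f) ∣ p * c := by
          have h6 : m = p * (p ^ n * f) := by rw [hm, pow_succ]; ring
          rwa [← h6]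
        exact (Dvd.intro_left _ rfl).trans (Nat.dvd_of_mul_dvd_mul_left hp.pos h5)
  · intro c
    rw [hL0, hidl]
    constructor
    · rintro ⟨y, hy⟩
      refine ⟨y, EXO.inj hR _ _ ?_⟩
      rw [hem, heN]
      field_simp at hy
      linear_combination hy
    · rintro ⟨y, rfl⟩
      refine ⟨y, ?_⟩
      rw [hem, heN]
      field_simp
  · intro a ha
    obtain ⟨s, t, h1, h2⟩ := EXO.bez (A := A) (B := B) hp ha
    have hfac := hC.fac
    refine ⟨fun y hy hyp => ⟨fun x hx => ?_, fun hmem => ?_⟩, fun Y hY => ?_⟩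
    · have h3 : x * y ∈ idl (A := A) (B := B) p := by
        rw [hfac]
        exact Ideal.mul_mem_mul hx hy
      obtain ⟨z, hz⟩ := (hidl _ _).1 h3
      rw [hL0]
      refine ⟨(a : ℕ) * z, ?_⟩
      have h4 : emb x * emb y = p * emb z := by rw [← hem, hz, hem, heN]
      rw [hem, heN]
      field_simp
      linear_combination (a : ℂ) * h4
    · obtain ⟨z, hz⟩ := (hL0 _).1 hmem
      apply hyp
      rw [hidl]
      have h4 : y * (a : ℕ) = (p : ℕ) * z := by
        apply EXO.inj hR
        rw [hem, hem, heN, heN]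
        field_simp at hz
        linear_combination hz
      refine ⟨(s : OO A B) * z + (t : OO A B) * y, ?_⟩
      linear_combination (-y) * h2 + (s : OO A B) * h4
    · obtain ⟨hT, hYL⟩ := hY
      have hpP : ((p : ℕ) : OO A B) ∈ P ^ er := by
        have h3 : P ^ er * Pc P ≤ P ^ er := Ideal.mul_le_left
        rw [← hfac] at h3
        exact h3 ((hidl _ _).2 dvd_rfl)
      obtain ⟨b, hb⟩ := (hL0 _).1 (hT _ hpP)
      rw [heN] at hb
      have hPb : Ideal.span {b} ≤ Pc P := by
        have h3 : P ^ er * Ideal.span {b} ≤ P ^ er * Pc P := by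
          rw [← hfac, Ideal.mul_le]
          intro x hx c hc
          obtain ⟨d, rfl⟩ := Ideal.mem_span_singleton.1 hc
          obtain ⟨z, hz⟩ := (hL0 _).1 (hT x hx)
          rw [hidl]
          refine ⟨z * d, ?_⟩
          have h4 : x * b = (p : ℕ) * z := by
            apply EXO.inj hR
            rw [hem, hem, heN]
            apply mul_left_cancel₀ hom0
            linear_combination (-(emb x)) * hb + (p : ℂ) * hz
          linear_combination d * h4
        rw [← Ideal.dvd_iff_le] at h3 ⊢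
        exact (mul_dvd_mul_iff_left (pow_ne_zero _ hC.ne)).1 h3
      have hbP : b ∈ Pc P := hPb (Ideal.mem_span_singleton_self _)
      refine ⟨(s : OO A B) * b, (Pc P).mul_mem_left _ hbP, fun h3 => ?_, ?_⟩
      · obtain ⟨z, hz⟩ := (hidl _ _).1 h3
        apply hYL
        rw [hL0]
        refine ⟨(a : ℕ) * z + (t : OO A B) * b, ?_⟩
        have h4 : (s : ℂ) * emb b = p * emb z := by
          rw [← heZ, ← hem, hz, hem, heN]
        have h5 : emb (((a : ℕ) : OO A B) * z + (t : OO A B) * b) = a * emb z + t * emb b := by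
          rw [← hφ, map_add, map_mul, map_mul, map_natCast, map_intCast, hφ, hφ]
        rw [h5]
        apply mul_left_cancel₀ hpC
        linear_combination hb - R.om R.i0 * emb b * h1 + R.om R.i0 * (a : ℂ) * h4
      · rw [hL0]
        refine ⟨-((t : OO A B) * b), ?_⟩
        have h5 : emb (-((t : OO A B) * b)) = -(t * emb b) := by
          rw [← hφ, map_neg, map_mul, map_intCast, hφ]
        rw [h5, hem, heZ]
        apply mul_left_cancel₀ hpC
        field_simp
        linear_combination R.om R.i0 * emb b * h1 - hb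

end

end Pool.Agent.OBE
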