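import Pool.Agent.OB.StE
import Pool.Agent.MUX.E_GAL

/-!
# OB, block E, module FIN: the final form (helper23)

Model: `Pool/Agent/NS/F_FIN.lean` (helper86).
-/

set_option autoImplicit false

namespace Pool.Agent.OBE

open _root_.MU3 Pool.Agent.MU3A Pool.Agent.MU3B Pool.Agent.MUX Pool.Agent.MUXU Pool.Agent.MUXE
open Pool.Agent.RI Pool.Agent.NS Pool.Agent.OB

theorem tb_FIN (h1 : Sb_CTX) (h2 : Sb_FN1) (h3 : Sb_FN2) : Sb_FIN := by
  intro hR p er A B P V f hS hT ι _ R u e lam hG w hw n hn H hH D h hD hb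
  obtain ⟨al, hC⟩ := h1 p er A B P V hS.toCaseO hT hR
  have hE := Pool.Agent.MUXE.te_GAL A B hC.ring hT
  obtain ⟨hf6, hf12⟩ := hS.f6
  have hf2 : 2 ∣ f := (by norm_num : 2 ∣ 12).trans hS.f12
  have hf3 : 3 ≤ f := by omega
  rcases hS.ram with ⟨he, -⟩ | ⟨he, -⟩
  · subst he
    exact h2 p A B P V al hC hT hE n f hn hf3 hf2 hS.fp ι R u e lam hG w hw H hH D h hD hb
  · subst he
    exact h3 p A B P V al hC hT hE n f hn hf3 hf2 hS.fp ι R u e lam hG w hw H hH D h hD hb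

end Pool.Agent.OBE
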