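import Pool.Agent.OB.StE

/-!
# OB, block E, module FN1: the final form for `er = 1` (helper96; model helper86)
-/

set_option autoImplicit false

namespace Pool.Agent.OBE

open _root_.MU3 _root_.Pool.Agent.MU3A _root_.Pool.Agent.MU3B _root_.Pool.Agent.MUX _root_.Pool.Agent.MUXU _root_.Pool.Agent.MUXE
open _root_.Pool.Agent.RI _root_.Pool.Agent.NS _root_.Pool.Agent.OB

noncomputable section

namespace FN1

/-- `O/m` is finite -/
lemma fin_quot (A B : ℤ) (hr : RingE A B) {m : ℕ} (hm : m ≠ 0) :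
    Finite (OO A B ⧸ idl (A := A) (B := B) m) ∧ idl (A := A) (B := B) m ≠ ⊥ := by
  haveI := hr.ded
  have h0 : idl (A := A) (B := B) m ≠ ⊥ := by
    intro h
    rw [Ideal.span_singleton_eq_bot] at h
    obtain ⟨φ, hφ⟩ := hr.hom
    have h1 : φ ((m : ℕ) : OO A B) = 0 := by rw [h, map_zero]
    rw [map_natCast] at h1
    exact hm (by exact_mod_cast h1)
  exact ⟨Ideal.finiteQuotientOfFreeOfNeBot _ h0, h0⟩

/-- `Gal(D/k)` is finite -/
lemma fin_gal {A B : ℤ} (hT : TorX A B) {m : Ideal (OO A B)} (hm : m ≠ ⊥)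
    (D : IntermediateField ℚ ℂ) (h : kk A B ≤ D) (hD : ∀ y ∈ D, y ∈ RF m) :
    letI := algC h
    Finite (D ≃ₐ[kk A B] D) := by
  letI := algC h
  have := hT.fin _ hm
  let φ : D →ₗ[kk A B] RF m :=
    { toFun := fun y => ⟨y, hD y y.2⟩
      map_add' := fun x y => rfl
      map_smul' := fun c x => by
        apply Subtype.ext
        show ((c • x : D) : ℂ) = ((c • (⟨x, hD x x.2⟩ : RF m) : RF m) : ℂ)
        rw [Algebra.smul_def, Algebra.smul_def]
        rfl }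
  have hφ : Function.Injective φ := by
    intro x y hxy
    apply Subtype.ext
    exact congrArg (fun z : RF m => (z : ℂ)) hxy
  have : FiniteDimensional (kk A B) D := FiniteDimensional.of_injective φ hφ
  exact inferInstance

lemma lv_eq {p : ℕ} (hp : p ≠ 2) (f n : ℕ) : lvX p f n = p ^ (n + 1) * f := by
  simp [lvX, q0, hp]
  ring

lemma aX_eq {p : ℕ} (hp : p ≠ 2) (f : ℕ) : aX p f = 1 + 2 * p * f := by
  simp [aX, q0, hp]

lemma aX_facts {p : ℕ} (hp : p.Prime) (hp2 : p ≠ 2) {f : ℕ} (hf : f ≠ 0) :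
    3 ≤ aX p f ∧ Odd (aX p f) ∧ ¬ p ∣ aX p f ∧ (aX p f).Coprime f := by
  rw [aX_eq hp2]
  have h1 : 1 ≤ p * f := Nat.mul_pos hp.pos (Nat.pos_of_ne_zero hf)
  refine ⟨by nlinarith, ⟨p * f, by ring⟩, fun h => ?_, ?_⟩
  · have h2 : p ∣ 1 := (Nat.dvd_add_right (⟨2 * f, by ring⟩ : p ∣ 2 * p * f)).1 (by
      rwa [add_comm] at h)
    exact hp.one_lt.ne' (Nat.dvd_one.1 h2)
  · have h2 : 1 + 2 * p * f = 1 + f * (2 * p) := by ring
    rw [h2, Nat.coprime_add_mul_left_left]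
    exact Nat.coprime_one_left f

end FN1

open FN1 in
theorem tb_FN1 (hMAIN : Sb_MAIN) (hINN : Sb_INN) : Sb_FN1 := by
  classical
  intro p A B P V al hC hT hG n f hn hf3 hf2 hf ι _ R u e lam hgood w hw H hH D h hD
  letI := algC h
  intro hconj g hroot τ'
  have hf0 : f ≠ 0 := by omega
  have hlv := lv_eq hC.p2 f n
  obtain ⟨ha3, hao, hap, haf⟩ := aX_facts hC.pp hC.p2 hf0
  have hm0 : lvX p f n ≠ 0 := by
    rw [hlv]
    exact mul_ne_zero (pow_ne_zero _ hC.pp.ne_zero) hf0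
  obtain ⟨hq, hmb⟩ := fin_quot A B hC.ring hm0
  haveI := hq
  have hfin : ∀ τ : D ≃ₐ[kk A B] D, (XX R (lvX p f n) h τ).Finite := fun τ => Set.toFinite _
  let S : (D ≃ₐ[kk A B] D) → Finset (ι × (OO A B ⧸ idl (A := A) (B := B) (lvX p f n))) :=
    fun τ => (hfin τ).toFinset
  have key := hMAIN p 1 A B P V al hC hT hG n f hn hf3 hf2 hf ι R u e lam hgood H hH D h hD.1
    (fun τ => cX R (lvX p f n) H h τ) S hconj
    (fun τ q hq => ((hfin τ).mem_toFinset.1 hq).1)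
    (fun τ => by
      show cX R (lvX p f n) H h τ = _
      rw [cX, finprod_mem_eq_finite_toFinset_prod _ (hfin τ)])
    g hroot τ'
  haveI : Finite (D ≃ₐ[kk A B] D) := fin_gal hT hmb D h hD.1
  letI : Fintype (D ≃ₐ[kk A B] D) := Fintype.ofFinite _
  rw [finsum_eq_sum_of_fintype] at key ⊢
  have e1 : ∀ τ : D ≃ₐ[kk A B] D, TTN R w (lvX p f n) (aX p f) h (τ * τ') =
      ∑ q ∈ S (τ * τ'), emb (Quotient.out q.2) * muX R q.1 *
        dlX (R.L q.1) (aX p f) (pt R (lvX p f n) q.1 (Quotient.out q.2)) +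
      ∑ q ∈ S (τ * τ'), (w (Quotient.out q.2) - emb (Quotient.out q.2)) * (muX R q.1 *
        dlX (R.L q.1) (aX p f) (pt R (lvX p f n) q.1 (Quotient.out q.2))) := by
    intro τ
    rw [TTN, finsum_mem_eq_finite_toFinset_sum _ (hfin (τ * τ')), ← Finset.sum_add_distrib]
    refine Finset.sum_congr rfl fun q _ => ?_
    ring
  have e2 : (∑ τ : D ≃ₐ[kk A B] D, (g τ : ℂ) * TTN R w (lvX p f n) (aX p f) h (τ * τ')) / u =
      (∑ τ : D ≃ₐ[kk A B] D, (g τ : ℂ) * ∑ q ∈ S (τ * τ'), emb (Quotient.out q.2) * muX R q.1 *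
        dlX (R.L q.1) (aX p f) (pt R (lvX p f n) q.1 (Quotient.out q.2))) / u +
      ∑ τ : D ≃ₐ[kk A B] D, (g τ : ℂ) * ∑ q ∈ S (τ * τ'),
        (w (Quotient.out q.2) - emb (Quotient.out q.2)) * (muX R q.1 *
        dlX (R.L q.1) (aX p f) (pt R (lvX p f n) q.1 (Quotient.out q.2)) / u) := by
    rw [Finset.sum_div, Finset.sum_div, ← Finset.sum_add_distrib]
    refine Finset.sum_congr rfl fun τ _ => ?_
    rw [e1, mul_add, add_div, mul_div_assoc (g τ : ℂ) (∑ q ∈ S (τ * τ'), (w (Quotient.out q.2) -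
      emb (Quotient.out q.2)) * _), Finset.sum_div]
    congr 2
    refine Finset.sum_congr rfl fun q _ => ?_
    ring
  rw [e2]
  refine (V.valuation.map_add _ _).trans (max_le key ?_)
  refine V.valuation.map_sum_le fun τ _ => ?_
  rw [map_mul]
  have vg : V.valuation ((g τ : ℤ) : ℂ) ≤ 1 := (V.valuation_le_one_iff _).2 (intCast_mem V (g τ))
  refine (mul_le_mul' vg (V.valuation.map_sum_le (g := V.valuation (p : ℂ)) fun q hq => ?_)).trans
    (one_mul _).le
  rw [map_mul]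
  have hcp := ((hfin (τ * τ')).mem_toFinset.1 hq).1
  have h1 := (hINN p 1 A B P V al hC n f (aX p f) (by omega) hf ha3 hao hap haf ι R u e lam hgood
    q.1 (Quotient.out q.2) (by rw [← hlv]; exact hcp)).2.1
  rw [← hlv] at h1
  have h2 := hw.cong (Quotient.out q.2)
  rw [pow_one] at h2
  exact (mul_le_mul' h2 h1).trans (mul_one _).le

end

end Pool.Agent.OBE
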