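import Pool.Agent.OB.StE
import Pool.Agent.MUX.E_MAIN0
import Pool.Agent.NS.F_ORB

/-!
# OB, block E, module FN2 (helper41): the final form for `er = 2`
-/

set_option autoImplicit false

namespace Pool.Agent.OBE

open _root_.MU3 _root_.Pool.Agent.MU3A _root_.Pool.Agent.MU3B _root_.Pool.Agent.MUX _root_.Pool.Agent.MUXU _root_.Pool.Agent.MUXE
open _root_.Pool.Agent.RI _root_.Pool.Agent.NS _root_.Pool.Agent.OB

noncomputable section

namespace FN2

variable {A B : ℤ} {P : Ideal (OO A B)}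

/-! ### Valuations -/

/-- the bound -/
def Bd (V : ValuationSubring ℂ) (p : ℕ) (z : ℂ) : Prop := V.valuation z ≤ V.valuation (p : ℂ)

lemma Bd.add {V : ValuationSubring ℂ} {p : ℕ} {z w : ℂ} (hz : Bd V p z) (hw : Bd V p w) :
    Bd V p (z + w) := (V.valuation.map_add z w).trans (max_le hz hw)

lemma Bd.mul {V : ValuationSubring ℂ} {p : ℕ} {c z : ℂ} (hz : Bd V p z)
    (hc : V.valuation c ≤ 1) : Bd V p (c * z) := by
  unfold Bd at *
  rw [map_mul]
  exact (mul_le_of_le_one_left' hc).trans hz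

lemma Bd.sum {V : ValuationSubring ℂ} {p : ℕ} {α : Type} (s : Finset α) (F : α → ℂ)
    (h : ∀ x ∈ s, Bd V p (F x)) : Bd V p (∑ x ∈ s, F x) := by
  classical
  induction s using Finset.induction_on with
  | empty =>
    unfold Bd
    rw [Finset.sum_empty, map_zero]
    exact zero_le
  | insert a s ha ih =>
    rw [Finset.sum_insert ha]
    exact (h a (Finset.mem_insert_self _ _)).add
      (ih fun x hx => h x (Finset.mem_insert_of_mem hx))

/-- squares of `P` -/
lemma v_sq {V : ValuationSubring ℂ} {al : OO A B} (φ : OO A B →+* ℂ) (hφ : ∀ x, φ x = emb x)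
    (hvP : ∀ x ∈ P, V.valuation (emb x) ≤ V.valuation (emb al)) {y : OO A B} (hy : y ∈ P ^ 2) :
    V.valuation (emb y) ≤ V.valuation (emb al) ^ 2 := by
  rw [pow_two] at hy
  induction hy using Submodule.mul_induction_on' with
  | mem_mul_mem x hx z hz =>
    rw [← hφ, map_mul, map_mul, hφ, hφ, pow_two]
    exact mul_le_mul' (hvP x hx) (hvP z hz)
  | add x hx z hz h1 h2 =>
    rw [← hφ, map_add]
    refine (V.valuation.map_add _ _).trans (max_le ?_ ?_)
    · rw [hφ]; exact h1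
    · rw [hφ]; exact h2

/-! ### Finiteness -/

lemma fin_quot (hr : RingE A B) {m : ℕ} (hm : m ≠ 0) :
    Finite (OO A B ⧸ idl (A := A) (B := B) m) := by
  have := hr.ded
  apply Ideal.finiteQuotientOfFreeOfNeBot
  exact m0_ne A B hr hm

/-- `D` is finite over `k` -/
lemma finD (hT : TorX A B) {m : Ideal (OO A B)} (hm : m ≠ ⊥) (D : IntermediateField ℚ ℂ)
    (h : kk A B ≤ D) (hD : ∀ y ∈ D, y ∈ RF m) :
    letI := algC h
    Finite (D ≃ₐ[kk A B] D) := by
  letI := algC h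
  have := hT.fin m hm
  let φ : D →ₗ[kk A B] RF m :=
    { toFun := fun y => ⟨y, hD y y.2⟩
      map_add' := fun x y => rfl
      map_smul' := fun c x => by
        apply Subtype.ext
        show ((c • x : D) : ℂ) = ((c • (⟨x, hD x x.2⟩ : RF m) : RF m) : ℂ)
        rw [Algebra.smul_def, Algebra.smul_def]
        rfl }
  have hφ : Function.Injective φ := by
    intro x y hxy
    apply Subtype.ext
    exact congrArg (fun z : RF m => (z : ℂ)) hxy
  have : FiniteDimensional (kk A B) D := FiniteDimensional.of_injective φ hφ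
  exact inferInstance

/-! ### The translation -/

/-- the iterates of the translation by `β` -/
lemma iter {ι Q : Type} [AddCommMonoid Q] (β : Q) (q : ι × Q) (l : ℕ) :
    (fun q : ι × Q => (q.1, q.2 + β))^[l] q = (q.1, q.2 + l • β) := by
  induction l with
  | zero => simp
  | succ l ih =>
    rw [Function.iterate_succ_apply', ih, succ_nsmul, add_assoc]

/-- an element of `m''` which is not in `m = m'' P` -/
lemma exb (hd : IsDedekindDomain (OO A B)) (hPt : P ≠ ⊤) {m' m : Ideal (OO A B)} (hm' : m' ≠ ⊥)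
    (hm : m = m' * P) : ∃ β ∈ m', β ∉ m := by
  by_contra hcon
  push Not at hcon
  have h1 : m' ≤ m := fun x hx => hcon x hx
  have h2 : m ≤ m' := by
    rw [hm]
    exact Ideal.mul_le_left (I := m') (J := P)
  have h3 : m' * P = m' * ⊤ := by
    rw [← hm, Ideal.mul_top]
    exact le_antisymm h2 h1
  exact hPt (mul_left_cancel₀ hm' h3)

/-- `t β ∉ m` for `0 < t < p` -/
lemma not_mul {p : ℕ} (pp : p.Prime) {m : Ideal (OO A B)} {β : OO A B} (hβ : β ∉ m)
    (hp : ((p : ℕ) : OO A B) * β ∈ m) {t : ℕ} (ht0 : 0 < t) (ht : t < p) :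
    ((t : ℕ) : OO A B) * β ∉ m := by
  intro h
  have h1 : Nat.Coprime t p := ((Nat.Prime.coprime_iff_not_dvd pp).2
    (Nat.not_dvd_of_pos_of_lt ht0 ht)).symm
  have h2 : IsCoprime ((t : ℕ) : OO A B) ((p : ℕ) : OO A B) := h1.cast
  obtain ⟨a, b, hab⟩ := h2
  apply hβ
  have h3 : β = a * (((t : ℕ) : OO A B) * β) + b * (((p : ℕ) : OO A B) * β) := by
    linear_combination (-β) * hab
  rw [h3]
  exact add_mem (m.mul_mem_left _ h) (m.mul_mem_left _ hp)

end FN2

open FN2 in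
theorem tb_FN2 (hMAIN : Sb_MAIN) (hINN : Sb_INN) (hSTB : Sb_STB) (hEXO : Sb_EXO)
    (hIDL : Sb_IDL) : Sb_FN2 := by
  classical
  intro p A B P V al hC hT hE n f hn hf3 hf2 hf ι _ R u e lam hG w hw H hH D h hD
  letI := algC h
  intro hCC g hpow τ'
  have hf0 : f ≠ 0 := by omega
  have hp0 : 0 < p := hC.pp.pos
  obtain ⟨φ, hφ⟩ := hC.ring.hom
  have hded := hC.ring.ded
  obtain ⟨hl1, hl2, hl3, hl4, -, -, -, hlv⟩ := hIDL p 2 A B P V al hC f n hf0 hf
  obtain ⟨hnP, hPc⟩ := hC.nP rfl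
  obtain ⟨m, hm⟩ : ∃ m, m = lvX p f n := ⟨_, rfl⟩
  rw [← hm] at hlv
  -- the ideals
  obtain ⟨m', hm'⟩ : ∃ m' : Ideal (OO A B), m' = _root_.Pool.Agent.NSRD.lvR P f n := ⟨_, rfl⟩
  have hmm : idl (A := A) (B := B) m = m' * P := by
    rw [hlv, hl1, hm']
    unfold lv0 _root_.Pool.Agent.NSRD.lvR
    rw [hPc, ← Ideal.one_eq_top, one_pow, mul_one]
    rw [show 2 * (n + 1) = (2 * n + 1) + 1 by ring, pow_succ]
    ring
  have hm0 : m ≠ 0 := by
    rw [hlv]
    exact mul_ne_zero (pow_ne_zero _ hp0.ne') hf0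
  have hidl0 : idl (A := A) (B := B) m ≠ ⊥ := m0_ne A B hC.ring hm0
  have hm'0 : m' ≠ ⊥ := by
    intro h0
    apply hidl0
    rw [hmm, h0, Ideal.bot_mul]
  obtain ⟨β, hβ1, hβ2⟩ := exb hded hC.max.ne_top hm'0 hmm
  have hPβ : ∀ x ∈ P, x * β ∈ idl (A := A) (B := B) m := by
    intro x hx
    rw [hmm, mul_comm x β]
    exact Ideal.mul_mem_mul hβ1 hx
  have hpβ : ((p : ℕ) : OO A B) * β ∈ idl (A := A) (B := B) m := hPβ _ hC.mem
  have hmP2 : m' ≤ P ^ 2 := by
    rw [hm']
    unfold _root_.Pool.Agent.NSRD.lvR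
    have h1 : 2 ≤ 2 * n + 1 := by omega
    exact (Ideal.mul_le_right (I := idl (A := A) (B := B) f) (J := P ^ (2 * n + 1))).trans
      (Ideal.pow_le_pow_right h1)
  have hidlP2 : idl (A := A) (B := B) m ≤ P ^ 2 := by
    rw [hmm]
    exact (Ideal.mul_le_left (I := m') (J := P)).trans hmP2
  have hP2P : P ^ 2 ≤ P := Ideal.pow_le_self (by norm_num)
  -- the number `a`
  have hq0 : q0 p = p := by
    unfold q0
    rw [if_neg hC.p2]
  obtain ⟨a, ha⟩ : ∃ a, a = aX p f := ⟨_, rfl⟩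
  have hav : a = 1 + 2 * p * f := by
    rw [ha, aX, hq0]
  have ha3 : 3 ≤ a := by
    have : 0 < p * f := Nat.mul_pos hp0 (Nat.pos_of_ne_zero hf0)
    rw [hav, mul_assoc]
    omega
  have hao : Odd a := ⟨p * f, by rw [hav]; ring⟩
  have hap : ¬ p ∣ a := by
    rw [hav]
    intro h1
    have h2 : p ∣ 1 := by
      have h3 : p ∣ 2 * p * f := ⟨2 * f, by ring⟩
      exact (Nat.dvd_add_left h3).1 h1
    exact hC.pp.one_lt.ne' (Nat.dvd_one.1 h2)
  have haf : a.Coprime f := by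
    rw [hav, show 1 + 2 * p * f = 1 + (2 * p) * f by ring]
    exact (Nat.coprime_add_mul_right_left 1 f (2 * p)).2 (Nat.coprime_one_left f)
  rw [← hm] at hCC hpow ⊢
  rw [← ha] at hH ⊢
  have : Finite (D ≃ₐ[kk A B] D) := finD hT hidl0 D h (by rw [hm]; exact hD.1)
  letI : Fintype (D ≃ₐ[kk A B] D) := Fintype.ofFinite _
  have := fin_quot hC.ring hm0
  -- the sets
  have hfin : ∀ τ : D ≃ₐ[kk A B] D, (XX R m h τ).Finite := fun τ => Set.toFinite _
  let S : (D ≃ₐ[kk A B] D) → Finset (ι × (OO A B ⧸ idl (A := A) (B := B) m)) :=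
    fun τ => (hfin τ).toFinset
  have hScop : ∀ τ, ∀ q ∈ S τ, IsCoprime (Quotient.out q.2 : OO A B) ((m : ℕ) : OO A B) :=
    fun τ q hq => ((hfin τ).mem_toFinset.1 hq).1
  obtain ⟨b, hb⟩ : ∃ b : OO A B ⧸ idl (A := A) (B := B) m, b = Ideal.Quotient.mk _ β := ⟨_, rfl⟩
  let ψ : ι × (OO A B ⧸ idl (A := A) (B := B) m) → ι × (OO A B ⧸ idl (A := A) (B := B) m) :=
    fun q => (q.1, q.2 + b)
  have hit : ∀ (q : ι × (OO A B ⧸ idl (A := A) (B := B) m)) (l : ℕ),
      ψ^[l] q = (q.1, q.2 + l • b) := fun q l => iter b q l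
  have hlb : ∀ l : ℕ, l • b = Ideal.Quotient.mk (idl (A := A) (B := B) m)
      (((l : ℕ) : OO A B) * β) := by
    intro l
    rw [hb, map_mul, map_natCast, nsmul_eq_mul]
  have hmain : ∀ τ : D ≃ₐ[kk A B] D, ∃ T : Finset (ι × (OO A B ⧸ idl (A := A) (B := B) m)),
      T ⊆ S τ ∧
      ∀ F : ι × (OO A B ⧸ idl (A := A) (B := B) m) → ℂ, ∑ x ∈ S τ, F x =
        ∑ x ∈ T, ∑ l ∈ Finset.range p, F (ψ^[l] x) := by
    intro τ
    obtain ⟨T, h1, -, h2⟩ := _root_.Pool.Agent.NSER.tf_ORB _ (S τ) ψ p hp0 (fun q hq => by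
      rw [(hfin τ).mem_toFinset] at hq ⊢
      have h6 := hSTB p A B P V al hC hT n f hn hf0 hf ι R D h (hD.2 rfl) τ β (hm' ▸ hβ1)
      subst hm
      subst hb
      exact h6 q hq) (fun q hq => by
      rw [hit, hlb, Ideal.Quotient.eq_zero_iff_mem.2 hpβ, add_zero]) (fun q hq l hl0 hl => by
      rw [hit]
      intro h6
      have h7 : q.2 + l • b = q.2 := congrArg Prod.snd h6
      have h8 : l • b = 0 := by simpa using h7
      rw [hlb, Ideal.Quotient.eq_zero_iff_mem] at h8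
      exact not_mul hC.pp hβ2 hpβ hl0 hl h8)
    exact ⟨T, h1, h2⟩
  choose T hTS hTs using hmain
  have hST : ∀ τ, ∀ q ∈ S τ, ∀ l : ℕ, ψ^[l] q ∈ S τ := by
    intro τ q hq l
    induction l with
    | zero => exact hq
    | succ l ih =>
      rw [Function.iterate_succ_apply']
      rw [(hfin τ).mem_toFinset] at ih ⊢
      have h6 := hSTB p A B P V al hC hT n f hn hf0 hf ι R D h (hD.2 rfl) τ β (hm' ▸ hβ1)
      subst hm
      subst hb
      exact h6 _ ih
  -- points
  obtain ⟨z0, hz0⟩ : ∃ z0 : ι → ℂ, ∀ i x, pt R m i x = φ x * z0 i :=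
    ⟨fun i => R.om i * nI (R.b i) / m, fun i x => by unfold pt; rw [hφ]; ring⟩
  have hex : ∀ (i : ι) (c : OO A B), φ c * z0 i ∈ (R.L i).lattice ↔
      c ∈ idl (A := A) (B := B) m := by
    intro i c
    have h1 := (((hEXO p 2 A B P V al hC n f ι R hf0 hf).1 i 1 isCoprime_one_left).1 c)
    rw [← hlv, hz0, map_one, one_mul, ← hφ] at h1
    exact h1
  have hout : ∀ (q : ι × (OO A B ⧸ idl (A := A) (B := B) m)) (l : ℕ),
      (Quotient.out (ψ^[l] q).2 : OO A B) - ((Quotient.out q.2 : OO A B) + l * β) ∈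
        idl (A := A) (B := B) m := by
    intro q l
    rw [← Ideal.Quotient.eq, Ideal.Quotient.mk_out, map_add, Ideal.Quotient.mk_out, hit, hlb]
  have hfst : ∀ (q : ι × (OO A B ⧸ idl (A := A) (B := B) m)) (l : ℕ), (ψ^[l] q).1 = q.1 := by
    intro q l
    rw [hit]
  have hdl : ∀ i, ∀ z, ∀ w ∈ (R.L i).lattice, dlX (R.L i) a (z + w) = dlX (R.L i) a z := by
    intro i z w hw
    have h6 := (b_PER (R.L i)).1
    unfold dlX
    rw [h6 z w hw, mul_add, h6 (a * z) (a * w) (by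
      have := nsmul_mem hw a
      rwa [nsmul_eq_mul] at this)]
  have hdq : ∀ (q : ι × (OO A B ⧸ idl (A := A) (B := B) m)) (l : ℕ),
      dlX (R.L q.1) a (pt R m q.1 (Quotient.out (ψ^[l] q).2)) =
        dlX (R.L q.1) a (pt R m q.1 (Quotient.out q.2) + l * pt R m q.1 β) := by
    intro q l
    have h1 := (hex q.1 _).2 (hout q l)
    rw [← hdl q.1 (pt R m q.1 (Quotient.out q.2) + l * pt R m q.1 β) _ h1]
    congr 1
    rw [hz0, hz0, hz0, map_sub, map_add, map_mul, map_natCast]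
    ring
  have hmP : ∀ (q : ι × (OO A B ⧸ idl (A := A) (B := B) m)) (l : ℕ),
      (Quotient.out (ψ^[l] q).2 : OO A B) - (Quotient.out q.2 : OO A B) ∈ P ^ 2 := by
    intro q l
    have h1 := add_mem (hidlP2 (hout q l)) ((P ^ 2).mul_mem_left ((l : ℕ) : OO A B) (hmP2 hβ1))
    rwa [show (Quotient.out (ψ^[l] q).2 : OO A B) - ((Quotient.out q.2 : OO A B) + l * β) +
      l * β = (Quotient.out (ψ^[l] q).2 : OO A B) - (Quotient.out q.2 : OO A B) by ring] at h1
  -- `MAIN`
  have hM : V.valuation ((∑ᶠ τ : D ≃ₐ[kk A B] D, (g τ : ℂ) * ∑ q ∈ S (τ * τ'),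
      emb (Quotient.out q.2) * muX R q.1 *
        dlX (R.L q.1) a (pt R m q.1 (Quotient.out q.2))) / u) ≤ V.valuation (p : ℂ) := by
    subst hm
    subst ha
    exact hMAIN p 2 A B P V al hC hT hE n f hn hf3 hf2 hf ι R u e lam hG H hH D h hD.1
      (cX R (lvX p f n) H h) S hCC hScop
      (fun τ => finprod_mem_eq_finite_toFinset_prod _ (hfin τ)) g hpow τ'
  -- the difference
  have halv : V.valuation (emb al) ^ 2 = V.valuation (p : ℂ) := hC.alv
  have hΔ : ∀ τ : D ≃ₐ[kk A B] D, Bd V p ((TTN R w m a h τ - ∑ q ∈ S τ,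
      emb (Quotient.out q.2) * muX R q.1 *
        dlX (R.L q.1) a (pt R m q.1 (Quotient.out q.2))) / u) := by
    intro τ
    rw [TTN, finsum_mem_eq_finite_toFinset_sum _ (hfin τ), ← Finset.sum_sub_distrib, hTs τ,
      Finset.sum_div]
    refine Bd.sum _ _ fun q hq => ?_
    have hqS := hTS τ hq
    have hqc := hScop τ q hqS
    obtain ⟨x, hx⟩ : ∃ x : OO A B, x = Quotient.out q.2 := ⟨_, rfl⟩
    let y : ℕ → OO A B := fun l => Quotient.out (ψ^[l] q).2
    let d : ℕ → ℂ := fun l => dlX (R.L q.1) a (pt R m q.1 (y l))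
    have hwy : ∀ l, w (y l) = w x := by
      intro l
      rw [hx]
      exact hw.per _ _ (hP2P (hmP q l))
    have e1 : ∀ l, w (Quotient.out (ψ^[l] q).2) * muX R (ψ^[l] q).1 *
        dlX (R.L (ψ^[l] q).1) a (pt R m (ψ^[l] q).1 (Quotient.out (ψ^[l] q).2)) -
        emb (Quotient.out (ψ^[l] q).2) * muX R (ψ^[l] q).1 *
        dlX (R.L (ψ^[l] q).1) a (pt R m (ψ^[l] q).1 (Quotient.out (ψ^[l] q).2)) =
        (w x - emb (y l)) * muX R q.1 * d l := by
      intro l
      have h1 := hwy l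
      simp only [hfst]
      show w (y l) * muX R q.1 * d l - emb (y l) * muX R q.1 * d l = _
      rw [h1]
      ring
    have e2 : (∑ l ∈ Finset.range p, (w x - emb (y l)) * muX R q.1 * d l) / u =
        (w x - emb x) * (muX R q.1 * (∑ l ∈ Finset.range p, d l) / u) +
          ∑ l ∈ Finset.range p, (emb x - emb (y l)) * (muX R q.1 * d l / u) := by
      rw [Finset.mul_sum, Finset.sum_div, Finset.sum_div, Finset.mul_sum,
        ← Finset.sum_add_distrib]
      refine Finset.sum_congr rfl fun l _ => ?_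
      ring
    rw [Finset.sum_congr rfl fun l _ => e1 l, e2]
    refine Bd.add ?_ (Bd.sum _ _ fun l _ => ?_)
    · -- the sum over `E[P]`
      have h1 := (hINN p 2 A B P V al hC n f a (by omega) hf ha3 hao hap haf ι R u e lam hG q.1 x
        (by rw [← hlv, hx]; exact hqc)).2.2 rfl (pt R m q.1 β) (fun c hc => by
          rw [hz0, ← hφ, ← mul_assoc, ← map_mul, hex]
          exact hPβ c hc) (by
          rw [hz0, hex]
          exact hβ2)
      rw [← hlv] at h1
      have h2 : ∑ t ∈ Finset.range p, dlX (R.L q.1) a (pt R m q.1 x + t * pt R m q.1 β) =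
          ∑ l ∈ Finset.range p, d l := by
        refine Finset.sum_congr rfl fun l _ => ?_
        rw [hx]
        exact (hdq q l).symm
      rw [h2] at h1
      have h3 : V.valuation (w x - emb x) ≤ V.valuation (emb al) := by
        have h4 := hw.cong x
        rw [← halv] at h4
        exact le_of_pow_le_pow_left₀ (by norm_num) zero_le h4
      unfold Bd
      rw [map_mul, ← halv, pow_two]
      exact mul_le_mul' h3 h1
    · -- the other terms
      have hyc : IsCoprime (y l) ((m : ℕ) : OO A B) := hScop τ _ (hST τ q hqS l)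
      have h1 := (hINN p 2 A B P V al hC n f a (by omega) hf ha3 hao hap haf ι R u e lam hG q.1
        (y l) (by rw [← hlv]; exact hyc)).2.1
      rw [← hlv] at h1
      have h2 : V.valuation (emb x - emb (y l)) ≤ V.valuation (p : ℂ) := by
        have h3 := v_sq φ hφ hC.vP (hmP q l)
        rw [← hφ, map_sub, hφ, hφ, halv, Valuation.map_sub_swap] at h3
        rw [hx]
        exact h3
      rw [mul_comm]
      exact Bd.mul h2 h1
  rw [finsum_eq_sum_of_fintype] at hM ⊢
  have e4 : (∑ τ : D ≃ₐ[kk A B] D, (g τ : ℂ) * TTN R w m a h (τ * τ')) / u =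
      (∑ τ : D ≃ₐ[kk A B] D, (g τ : ℂ) * ∑ q ∈ S (τ * τ'),
        emb (Quotient.out q.2) * muX R q.1 *
          dlX (R.L q.1) a (pt R m q.1 (Quotient.out q.2))) / u +
      ∑ τ : D ≃ₐ[kk A B] D, (g τ : ℂ) * ((TTN R w m a h (τ * τ') - ∑ q ∈ S (τ * τ'),
        emb (Quotient.out q.2) * muX R q.1 *
          dlX (R.L q.1) a (pt R m q.1 (Quotient.out q.2))) / u) := by
    rw [Finset.sum_div, Finset.sum_div, ← Finset.sum_add_distrib]
    exact Finset.sum_congr rfl fun τ _ => by ring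
  rw [e4]
  refine Bd.add hM (Bd.sum _ _ fun τ _ => (hΔ _).mul ?_)
  rw [V.valuation_le_one_iff]
  exact intCast_mem V _

end

end Pool.Agent.OBE
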