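import Pool.Agent.OB.StE

/-!
# OB, block E, module GEN (helper10): the multiplier of any isogeny and the points of its kernel in the kernel of reduction

Port of helper48's `NS/F_UNT.lean`.
-/

set_option autoImplicit false

open Polynomial

namespace Pool.Agent.OBE

open _root_.MU3 _root_.Pool.Agent.MU3A _root_.Pool.Agent.MU3B _root_.Pool.Agent.MUX _root_.Pool.Agent.MUXU _root_.Pool.Agent.MUXE
open _root_.Pool.Agent.RI _root_.Pool.Agent.NS _root_.Pool.Agent.OB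
open _root_.Pool.Agent.MUXV (GR InK tX)
open _root_.Pool.Agent.NSE (su ru WL IntP)

noncomputable section

namespace GEN

theorem frac (L : PeriodPair) (a : ℤ) (b : ℕ) (hb : b ≠ 0)
    (hm : (a : ℂ) * (L.ω₁ / b) ∈ L.lattice) : (b : ℤ) ∣ a := by
  have e : (a : ℂ) * (L.ω₁ / b) = ((a / b : ℚ) : ℂ) * L.ω₁ + ((0 : ℚ) : ℂ) * L.ω₂ := by
    push_cast
    ring
  rw [e, PeriodPair.mul_ω₁_add_mul_ω₂_mem_lattice] at hm
  have h1 : ((((a / b : ℚ)).num : ℤ) : ℚ) = (a / b : ℚ) := (Rat.den_eq_one_iff _).1 hm.1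
  have hb' : (b : ℚ) ≠ 0 := by exact_mod_cast hb
  refine ⟨((a / b : ℚ)).num, ?_⟩
  have h2 : (a : ℚ) = b * ((((a / b : ℚ)).num : ℤ) : ℚ) := by
    rw [h1]
    field_simp
  exact_mod_cast h2

/-- multiples by integers -/
theorem zmul (L : PeriodPair) (n : ℤ) {z : ℂ} (hz : z ∈ L.lattice) : (n : ℂ) * z ∈ L.lattice := by
  rw [← zsmul_eq_mul]
  exact zsmul_mem hz n

end GEN

open GEN in
theorem tb_GEN (h2 : Sb_GRN) (h3 : Sb_TNC) : Sb_GEN := by
  intro p V L M u e lam u' e' lam' μ hC hL hM hμ hI R hR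
  obtain ⟨ξ, grL⟩ := h2 p V L u e lam hC hL
  obtain ⟨ξ', grM⟩ := h2 p V M u' e' lam' hC hM
  have tL := h3 p V L u e lam hC hL
  have tM := h3 p V M u' e' lam' hC hM
  obtain ⟨-, n, hn0, hn⟩ := u_BAC.2 L M μ hμ hI
  have hnpos : 0 < n := Nat.pos_of_ne_zero hn0
  have hp2 := hC.pp.two_le
  -- the two primes
  obtain ⟨l, hl1, hl⟩ := Nat.exists_infinite_primes (p * n + 1)
  obtain ⟨l', hl1', hl'⟩ := Nat.exists_infinite_primes (l + 1)
  have hll : l ≠ l' := by omega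
  have hpn1 : p ≤ p * n := Nat.le_mul_of_pos_right p hnpos
  have hpn2 : n ≤ p * n := Nat.le_mul_of_pos_left n (by omega)
  have hpl : ¬ p ∣ l := by
    intro h
    have := (Nat.prime_dvd_prime_iff_eq hC.pp hl).1 h
    omega
  have hpl' : ¬ p ∣ l' := by
    intro h
    have := (Nat.prime_dvd_prime_iff_eq hC.pp hl').1 h
    omega
  have hln : ¬ l ∣ n := fun h => by
    have := Nat.le_of_dvd hnpos h
    omega
  have hln' : ¬ l' ∣ n := fun h => by
    have := Nat.le_of_dvd hnpos h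
    omega
  have hpm : ¬ p ∣ l * l' := by
    intro h
    rcases hC.pp.dvd_mul.1 h with h | h
    · exact hpl h
    · exact hpl' h
  have hl0 : (l : ℂ) ≠ 0 := by exact_mod_cast hl.ne_zero
  have hl0' : (l' : ℂ) ≠ 0 := by exact_mod_cast hl'.ne_zero
  set w : ℂ := L.ω₁ / l with hw
  set z : ℂ := L.ω₁ / l' with hz
  have o1 := L.ω₁_mem_lattice
  have lw : (l : ℂ) * w ∈ L.lattice := by
    rw [hw, mul_div_cancel₀ _ hl0]
    exact o1
  have lz : (l' : ℂ) * z ∈ L.lattice := by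
    rw [hz, mul_div_cancel₀ _ hl0']
    exact o1
  -- the combinations of `z` and `w` are not in the lattice, even after multiplication by `n`
  have comb : ∀ a b : ℤ, ¬ ((l' : ℤ) ∣ a ∧ (l : ℤ) ∣ b) →
      (n : ℂ) * ((a : ℂ) * z + (b : ℂ) * w) ∉ L.lattice := by
    intro a b hab hm
    apply hab
    have e1 : (n : ℂ) * ((a : ℂ) * z + (b : ℂ) * w) =
        ((n * (a * l + b * l') : ℤ) : ℂ) * (L.ω₁ / ((l * l' : ℕ) : ℂ)) := by
      rw [hz, hw]
      push_cast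
      field_simp
    rw [e1] at hm
    have h5 := frac L _ _ (Nat.mul_ne_zero hl.ne_zero hl'.ne_zero) hm
    have hlz : Prime (l : ℤ) := Nat.prime_iff_prime_int.1 hl
    have hlz' : Prime (l' : ℤ) := Nat.prime_iff_prime_int.1 hl'
    have hNl : ¬ (l : ℤ) ∣ (n : ℤ) := fun h => hln (by exact_mod_cast h)
    have hNl' : ¬ (l' : ℤ) ∣ (n : ℤ) := fun h => hln' (by exact_mod_cast h)
    have hd1 : (l : ℤ) ∣ a * l + b * l' := by
      have : (l : ℤ) ∣ (n : ℤ) * (a * l + b * l') := Dvd.dvd.trans ⟨(l' : ℤ), by push_cast; ring⟩ h5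
      exact (hlz.dvd_or_dvd this).resolve_left hNl
    have hd2 : (l' : ℤ) ∣ a * l + b * l' := by
      have : (l' : ℤ) ∣ (n : ℤ) * (a * l + b * l') := Dvd.dvd.trans ⟨(l : ℤ), by push_cast; ring⟩ h5
      exact (hlz'.dvd_or_dvd this).resolve_left hNl'
    have hne1 : ¬ (l : ℤ) ∣ (l' : ℤ) := fun h =>
      hll ((Nat.prime_dvd_prime_iff_eq hl hl').1 (by exact_mod_cast h))
    have hne2 : ¬ (l' : ℤ) ∣ (l : ℤ) := fun h =>
      hll ((Nat.prime_dvd_prime_iff_eq hl' hl).1 (by exact_mod_cast h)).symm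
    constructor
    · have : (l' : ℤ) ∣ a * l := (dvd_add_left (Dvd.intro_left b rfl)).1 hd2
      exact (hlz'.dvd_or_dvd this).resolve_right hne2
    · have : (l : ℤ) ∣ b * l' := (dvd_add_right (Dvd.intro_left a rfl)).1 hd1
      exact (hlz.dvd_or_dvd this).resolve_right hne1
  have one_not : ∀ k : ℕ, k.Prime → ∀ s : ℤ, s = 1 ∨ s = -1 → ¬ (k : ℤ) ∣ s := by
    intro k hk s hs h
    have h6 : (k : ℤ) ∣ 1 := by
      rcases hs with rfl | rfl
      · exact h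
      · exact (dvd_neg.1 h)
    have h7 : k ∣ 1 := by exact_mod_cast h6
    exact hk.one_lt.ne' (Nat.dvd_one.1 h7)
  -- points of `L`
  have ptL : ∀ (a b c : ℤ) (q : ℂ), (n : ℂ) * q ∈ L.lattice →
      ¬ ((l' : ℤ) ∣ a ∧ (l : ℤ) ∣ b) →
      ¬ InK V L (xu L u e) ((a : ℂ) * z + (b : ℂ) * w + (c : ℂ) * q) := by
    intro a b c q hq hab hin
    apply comb a b hab
    have h4 : InK V L (xu L u e) ((n : ℂ) * ((a : ℂ) * z + (b : ℂ) * w)) := by
      have e2 : (n : ℂ) * ((a : ℂ) * z + (b : ℂ) * w) =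
          (n : ℂ) * ((a : ℂ) * z + (b : ℂ) * w + (c : ℂ) * q) -
            ((c : ℤ) : ℂ) * ((n : ℂ) * q) := by
        ring
      rw [e2]
      exact Pool.Agent.MUXV.inK_sub grL (Pool.Agent.MUXV.inK_nat grL hin n)
        (Pool.Agent.MUXV.inK_of_mem (zmul L _ hq))
    refine (tL (l * l') hpm).2 _ ?_ h4
    have e1 : ((l * l' : ℕ) : ℂ) * ((n : ℂ) * ((a : ℂ) * z + (b : ℂ) * w)) =
        ((n * l * a : ℤ) : ℂ) * ((l' : ℂ) * z) + ((n * l' * b : ℤ) : ℂ) * ((l : ℂ) * w) := by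
      push_cast
      ring
    rw [e1]
    exact add_mem (zmul L _ lz) (zmul L _ lw)
  -- points of `M`
  have ptM : ∀ (a b : ℤ), ¬ ((l' : ℤ) ∣ a ∧ (l : ℤ) ∣ b) →
      μ * ((a : ℂ) * z + (b : ℂ) * w) ∉ M.lattice ∧
      ¬ InK V M (xu M u' e') (μ * ((a : ℂ) * z + (b : ℂ) * w)) := by
    intro a b hab
    have h4 : μ * ((a : ℂ) * z + (b : ℂ) * w) ∉ M.lattice := fun h => comb a b hab (hn _ h)
    refine ⟨h4, fun hin => h4 ((tM (l * l') hpm).2 _ ?_ hin)⟩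
    have e1 : ((l * l' : ℕ) : ℂ) * (μ * ((a : ℂ) * z + (b : ℂ) * w)) =
        μ * (((l * a : ℤ) : ℂ) * ((l' : ℂ) * z) + ((l' * b : ℤ) : ℂ) * ((l : ℂ) * w)) := by
      push_cast
      ring
    rw [e1]
    exact hI _ (add_mem (zmul L _ lz) (zmul L _ lw))
  have hz1 : ∀ b : ℤ, ∀ s : ℤ, s = 1 ∨ s = -1 → ¬ ((l' : ℤ) ∣ s ∧ (l : ℤ) ∣ b) := fun b s hs h =>
    one_not l' hl' s hs h.1
  have hw1 : ∀ a : ℤ, ∀ s : ℤ, s = 1 ∨ s = -1 → ¬ ((l' : ℤ) ∣ a ∧ (l : ℤ) ∣ s) := fun a s hs h =>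
    one_not l hl s hs h.2
  have hn00 : (n : ℂ) * 0 ∈ L.lattice := by rw [mul_zero]; exact L.lattice.zero_mem
  obtain ⟨mz, iz⟩ := ptM 1 0 (hz1 0 1 (Or.inl rfl))
  obtain ⟨mw, iw⟩ := ptM 0 1 (hw1 0 1 (Or.inl rfl))
  obtain ⟨-, ip⟩ := ptM 1 1 (hz1 1 1 (Or.inl rfl))
  obtain ⟨-, im⟩ := ptM 1 (-1) (hz1 (-1) 1 (Or.inl rfl))
  have ez : ((1 : ℤ) : ℂ) * z + ((0 : ℤ) : ℂ) * w = z := by push_cast; ring
  have ew : ((0 : ℤ) : ℂ) * z + ((1 : ℤ) : ℂ) * w = w := by push_cast; ring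
  have ep : μ * (((1 : ℤ) : ℂ) * z + ((1 : ℤ) : ℂ) * w) = μ * z + μ * w := by push_cast; ring
  have em' : μ * (((1 : ℤ) : ℂ) * z + ((-1 : ℤ) : ℂ) * w) = μ * z - μ * w := by push_cast; ring
  rw [ez] at mz iz
  rw [ew] at mw iw
  rw [ep] at ip
  rw [em'] at im
  -- the product formula
  have pf := u_PFI L M μ R hμ hI hR w mw z mz
  have hu0 : u ^ 2 ≠ 0 := pow_ne_zero _ hL.u0
  have hu0' : u' ^ 2 ≠ 0 := pow_ne_zero _ hM.u0
  have dL : ∀ a b : ℂ, L.weierstrassP a - L.weierstrassP b =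
      u ^ 2 * (xu L u e a - xu L u e b) := by
    intro a b
    unfold xu
    rw [← sub_div, mul_div_cancel₀ _ hu0]
    ring
  have dM : ∀ a b : ℂ, M.weierstrassP a - M.weierstrassP b =
      u' ^ 2 * (xu M u' e' a - xu M u' e' b) := by
    intro a b
    unfold xu
    rw [← sub_div, mul_div_cancel₀ _ hu0']
    ring
  have vM : V.valuation (M.weierstrassP (μ * z) - M.weierstrassP (μ * w)) =
      V.valuation (u' ^ 2) := by
    rw [dM, map_mul, Pool.Agent.MUXV.v_X_sub grM iz iw ip im, mul_one]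
  have ptL' : ∀ (a b c : ℤ) (q y : ℂ), (n : ℂ) * q ∈ L.lattice →
      ¬ ((l' : ℤ) ∣ a ∧ (l : ℤ) ∣ b) → y = (a : ℂ) * z + (b : ℂ) * w + (c : ℂ) * q →
      ¬ InK V L (xu L u e) y := by
    intro a b c q y hq hab hy
    rw [hy]
    exact ptL a b c q hq hab
  have jz : ¬ InK V L (xu L u e) z :=
    ptL' 1 0 0 0 z hn00 (hz1 0 1 (Or.inl rfl)) (by push_cast; ring)
  have vL : V.valuation (L.weierstrassP z - L.weierstrassP w) = V.valuation (u ^ 2) := by
    rw [dL, map_mul, Pool.Agent.MUXV.v_X_sub grL jz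
      (ptL' 0 1 0 0 w hn00 (hw1 0 1 (Or.inl rfl)) (by push_cast; ring))
      (ptL' 1 1 0 0 _ hn00 (hz1 1 1 (Or.inl rfl)) (by push_cast; ring))
      (ptL' 1 (-1) 0 0 _ hn00 (hz1 (-1) 1 (Or.inl rfl)) (by push_cast; ring)), mul_one]
  have vq : ∀ q ∈ R, V.valuation (L.weierstrassP z - L.weierstrassP q) =
      V.valuation (u ^ 2) * max 1 (V.valuation (xu L u e q)) := by
    intro q hq
    have hnq := hn q (hR.mem q hq)
    rw [dL, map_mul]
    congr 1
    by_cases jq : InK V L (xu L u e) q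
    · have h8 : 1 < V.valuation (xu L u e q) := by
        rcases jq with h | h
        · exact absurd h (hR.ne q hq)
        · rw [← not_le, ValuationSubring.valuation_le_one_iff]
          exact h
      have h9 := (Pool.Agent.MUXV.int_X jz).2
      rw [max_eq_right h8.le]
      exact Valuation.map_sub_eq_of_lt_right _ (h9.trans_lt h8)
    · rw [max_eq_left (Pool.Agent.MUXV.int_X jq).2]
      exact Pool.Agent.MUXV.v_X_sub grL jz jq
        (ptL' 1 0 1 q _ hnq (hz1 0 1 (Or.inl rfl)) (by push_cast; ring))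
        (ptL' 1 0 (-1) q _ hnq (hz1 0 1 (Or.inl rfl)) (by push_cast; ring))
  have vwq : ∀ q ∈ R, V.valuation (L.weierstrassP z - L.weierstrassP (w + q)) =
      V.valuation (u ^ 2) := by
    intro q hq
    have hnq := hn q (hR.mem q hq)
    rw [dL, map_mul, Pool.Agent.MUXV.v_X_sub grL jz
      (ptL' 0 1 1 q _ hnq (hw1 0 1 (Or.inl rfl)) (by push_cast; ring))
      (ptL' 1 1 1 q _ hnq (hz1 1 1 (Or.inl rfl)) (by push_cast; ring))
      (ptL' 1 (-1) (-1) q _ hnq (hz1 (-1) 1 (Or.inl rfl)) (by push_cast; ring)), mul_one]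
  have pv := congrArg V.valuation pf
  rw [map_mul, map_mul, map_mul, map_prod, map_prod, vM, vL, Finset.prod_congr rfl vq,
    Finset.prod_congr rfl vwq, Finset.prod_mul_distrib, Finset.prod_const] at pv
  have hT0 : V.valuation (u ^ 2) ^ R.card ≠ 0 := pow_ne_zero _ ((_root_.map_ne_zero _).2 hu0)
  have h6 : V.valuation (μ ^ 2) * V.valuation (u' ^ 2) *
      ∏ q ∈ R, max 1 (V.valuation (xu L u e q)) = V.valuation (u ^ 2) := by
    apply mul_right_cancel₀ hT0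
    rw [← pv]
    ac_rfl
  rw [← map_pow, div_pow, mul_pow, map_div₀, map_mul, div_mul_eq_mul_div, h6]
  exact div_self ((_root_.map_ne_zero _).2 hu0)

end

end Pool.Agent.OBE
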