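import Pool.Agent.OB.StE
import Pool.Agent.NS.F_GRN

/-!
# OB, block E, module GRN: the Legendre model has good reduction (helper12)

Port of `Pool/Agent/NS/F_GRN.lean`; the group law is `Pool.Agent.NSER.GRN.xi` of that file.
-/

set_option autoImplicit false

open Polynomial

namespace Pool.Agent.OBE

open _root_.MU3 _root_.Pool.Agent.MU3A _root_.Pool.Agent.MU3B _root_.Pool.Agent.MUX
open _root_.Pool.Agent.MUXU _root_.Pool.Agent.MUXE
open _root_.Pool.Agent.RI _root_.Pool.Agent.NS _root_.Pool.Agent.OB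
open _root_.Pool.Agent.NSE (su ru WL IntP)
open _root_.Pool.Agent.MUXV (GR InK tX)

noncomputable section

/-- (GRN) the Legendre model has good reduction -/
theorem tb_GRN (h : Sb_COE) : Sb_GRN := by
  intro p V L u e lam hC hG
  obtain ⟨e1, e2, e3, v2, vs, -, -, -⟩ := h p V L u e lam hC hG
  have hu := hG.u0
  have c1 : (WL lam).a₁ = 0 := rfl
  have c2 : (WL lam).a₂ = -(1 + lam) := rfl
  have c3 : (WL lam).a₃ = 0 := rfl
  have c4 : (WL lam).a₄ = lam := rfl
  have c6 : (WL lam).a₆ = 0 := rfl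
  have hui : u⁻¹ ≠ 0 := inv_ne_zero hu
  obtain ⟨ξ, h0, h1⟩ := _root_.Pool.Agent.NSER.GRN.xi L e u⁻¹ hui (WL lam) c1
    (by
      rw [c2]
      field_simp
      linear_combination -e1)
    c3
    (by
      rw [c4, e2]
      field_simp
      ring)
    (by
      rw [c6, e3]
      ring)
  refine ⟨ξ, ⟨rfl, rfl, ?_, ?_, ?_⟩, v2, ?_, fun z hz => ?_, h0⟩
  · rw [c2, Valuation.map_neg]
    exact vs
  · rw [c4, hG.vl]
  · rw [c6, map_zero]; exact zero_le_one
  · have hD : (WL lam).Δ = 2 * 2 * 2 * 2 * (lam * lam) * ((1 - lam) * (1 - lam)) := by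
      unfold WeierstrassCurve.Δ WeierstrassCurve.b₂ WeierstrassCurve.b₄ WeierstrassCurve.b₆
        WeierstrassCurve.b₈
      rw [c1, c2, c3, c4, c6]
      ring
    rw [hD]
    simp only [map_mul, v2, hG.vl, hG.vl1, mul_one]
  · obtain ⟨hn, hx⟩ := h1 z hz
    have g1 : (L.weierstrassP z - e) * u⁻¹ ^ 2 = xu L u e z := by
      unfold xu
      field_simp
    have g2 : L.derivWeierstrassP z / 2 * u⁻¹ ^ 3 = yu L u z := by
      unfold yu
      field_simp
    have hn' : (WL lam).Nonsingular (xu L u e z) (yu L u z) := by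
      rw [← g1, ← g2]; exact hn
    exact ⟨hn', hx.trans (_root_.Pool.Agent.NSER.GRN.some_eq _ _ g1 g2)⟩

end

end Pool.Agent.OBE
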