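import Pool.Agent.OB.StE

/-!
# OB, block E, module IDL: the level `(f p^(n+1)) = P^(er (n+1)) lv0` (helper11)
-/

set_option autoImplicit false

open Polynomial

namespace Pool.Agent.OBE

open _root_.MU3 _root_.Pool.Agent.MU3A _root_.Pool.Agent.MU3B _root_.Pool.Agent.MUX _root_.Pool.Agent.MUXU _root_.Pool.Agent.MUXE
open _root_.Pool.Agent.RI _root_.Pool.Agent.NS _root_.Pool.Agent.OB

noncomputable section

namespace IDL

variable {A B : ℤ}

lemma nat_ne (k : ℕ) (hk : k ≠ 0) : ((k : ℕ) : OO A B) ≠ 0 := by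
  intro h
  have h1 := congrArg QuadraticAlgebra.re h
  rw [QuadraticAlgebra.re_zero] at h1
  have h2 : ((k : ℕ) : OO A B).re = (k : ℤ) := by simp
  rw [h2] at h1
  exact hk (by exact_mod_cast h1)

lemma idl_mul (a b : ℕ) : idl (A := A) (B := B) (a * b) = idl a * idl b := by
  unfold idl
  rw [Ideal.span_singleton_mul_span_singleton, Nat.cast_mul]

lemma idl_pow (a n : ℕ) : idl (A := A) (B := B) (a ^ n) = idl a ^ n := by
  unfold idl
  rw [Ideal.span_singleton_pow, Nat.cast_pow]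

end IDL

open IDL in
/-- (IDL) the level `(f p^(n+1)) = P^(er (n+1)) · lv0` -/
theorem tb_IDL : Sb_IDL := by
  intro p er A B P V al hc f n hf hpf
  have := hc.ring.ded
  have hPr := hc.prime
  have hfO : ((f : ℕ) : OO A B) ≠ 0 := nat_ne f hf
  have hif : idl (A := A) (B := B) f ≠ ⊥ := by
    unfold idl
    rw [Ne, Ideal.span_singleton_eq_bot]
    exact hfO
  have hnle : ¬ lv0 P f n ≤ P := by
    intro h
    rcases hPr.mul_le.1 h with h1 | h1
    · exact (hc.nat f hpf).2 (h1 (Ideal.mem_span_singleton_self _))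
    · exact hc.cnl (hPr.le_of_pow_le h1)
  have hcop : IsCoprime P (lv0 P f n) := by
    rw [Ideal.isCoprime_iff_sup_eq]
    exact hc.max.1.2 _ (left_lt_sup.2 hnle)
  refine ⟨?_, ?_, hnle, hcop.pow_left, ?_, Ideal.mul_le_left, ?_, ?_⟩
  · unfold lv0
    rw [idl_mul, idl_pow, hc.fac, mul_pow, ← pow_mul]
    ring
  · unfold lv0
    have h1 : idl (A := A) (B := B) f * Pc P ^ (n + 1) ≠ 0 :=
      mul_ne_zero hif (pow_ne_zero _ hc.cne)
    exact h1
  · intro y hy
    have h1 : ((p ^ n : ℕ) : OO A B) ∈ Pc P ^ n := by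
      have h2 : ((p ^ n : ℕ) : OO A B) ∈ idl (A := A) (B := B) (p ^ n) :=
        Ideal.mem_span_singleton_self _
      rw [idl_pow, hc.fac, mul_pow] at h2
      exact Ideal.mul_le_right h2
    have h3 : ((p ^ n * f : ℕ) : OO A B) * y = ((f : ℕ) : OO A B) * (((p ^ n : ℕ) : OO A B) * y) := by
      push_cast
      ring
    rw [h3]
    unfold lv0
    rw [pow_succ]
    exact Ideal.mul_mem_mul (Ideal.mem_span_singleton_self _) (Ideal.mul_mem_mul h1 hy)
  · intro a y _ hn
    have h1 : IsCoprime (1 + ((p ^ n * f * a : ℕ) : OO A B) * y) ((p ^ n * f * a : ℕ) : OO A B) :=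
      ⟨1, -y, by ring⟩
    have h2 : IsCoprime (1 + ((p ^ n * f * a : ℕ) : OO A B) * y) ((p : ℕ) : OO A B) := by
      refine IsCoprime.of_isCoprime_of_dvd_right h1 ?_
      obtain ⟨m, rfl⟩ : ∃ m, n = m + 1 := ⟨n - 1, by omega⟩
      refine ⟨((p ^ m * f * a : ℕ) : OO A B), ?_⟩
      push_cast
      ring
    have h3 : ((p ^ (n + 1) * f * a : ℕ) : OO A B) =
        ((p : ℕ) : OO A B) * ((p ^ n * f * a : ℕ) : OO A B) := by
      push_cast
      ring
    rw [h3]
    exact h2.mul_right h1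
  · unfold lvX q0
    rw [if_neg hc.p2, pow_succ]
    ring

end

end Pool.Agent.OBE
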