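import Pool.Agent.OB.StE

/-!
# OB, block E, module KIS (helper20): isogenies preserve the kernel of reduction
-/

set_option autoImplicit false

open Polynomial

namespace Pool.Agent.OBE

open _root_.MU3 _root_.Pool.Agent.MU3A _root_.Pool.Agent.MU3B _root_.Pool.Agent.MUX _root_.Pool.Agent.MUXU _root_.Pool.Agent.MUXE
open _root_.Pool.Agent.RI _root_.Pool.Agent.NS _root_.Pool.Agent.OB
open _root_.Pool.Agent.MUXV (GR InK tX)
open _root_.Pool.Agent.NSE (su ru WL IntP)

noncomputable section

namespace KIS

variable {V : ValuationSubring ℂ}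

theorem lead {P : ℂ[X]} (hP : IntP V P) (hl : V.valuation P.leadingCoeff = 1) {t : ℂ}
    (ht : 1 < V.valuation t) : V.valuation (P.eval t) = V.valuation t ^ P.natDegree := by
  have h0 : V.valuation t ≠ 0 := fun h => by
    rw [h] at ht
    exact absurd ht (not_lt.2 zero_le_one)
  have h1 : V.valuation (P.leadingCoeff * t ^ P.natDegree) = V.valuation t ^ P.natDegree := by
    rw [map_mul, hl, one_mul, map_pow]
  have h2 : V.valuation (∑ i ∈ Finset.range P.natDegree, P.coeff i * t ^ i) <
      V.valuation t ^ P.natDegree := by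
    apply Valuation.map_sum_lt _ (pow_ne_zero _ h0)
    intro i hi
    rw [map_mul, map_pow]
    calc V.valuation (P.coeff i) * V.valuation t ^ i ≤ 1 * V.valuation t ^ i :=
          mul_le_mul_left (hP i) _
      _ = V.valuation t ^ i := one_mul _
      _ < V.valuation t ^ P.natDegree := pow_lt_pow_right₀ ht (Finset.mem_range.1 hi)
  rw [eval_eq_sum_range, Finset.sum_range_succ, add_comm]
  rw [← h1] at h2
  have h3 := Valuation.map_add_eq_of_lt_left V.valuation h2
  rw [← h1]
  exact h3

end KIS

open KIS in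
theorem tb_KIS (h1 : Sb_RAT) (h2 : Sb_UNT) : Sb_KIS := by
  intro p V L M u e lam u' e' lam' μ hp hL hM hμ hI hK z hz hzL
  have hμz : μ * z ∉ M.lattice := fun h => hzL (hK z h hz)
  obtain ⟨P, Q, iP, iQ, mP, dP, lQ, hid⟩ := h1 p V L M u e lam u' e' lam' μ hp hL hM hμ hI hK
  have hu := (h2 p V L M u e lam u' e' lam' μ hp hL hM hμ hI).1.1 hK
  have hX : 1 < V.valuation (xu L u e z) := by
    rcases hz with h | h
    · exact absurd h hzL
    · rw [← V.valuation_le_one_iff, not_le] at h
      exact h
  have h0 : V.valuation (xu L u e z) ≠ 0 := fun h => by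
    rw [h] at hX
    exact absurd hX (not_lt.2 zero_le_one)
  have eP := lead iP (by rw [mP.leadingCoeff, map_one]) hX
  have eQ := lead iQ (by rw [lQ, map_pow, hu, one_pow]) hX
  have e1 := congrArg V.valuation (hid z hμz).1
  rw [map_mul, eP, eQ, dP, pow_succ, mul_comm (V.valuation (xu L u e z) ^ Q.natDegree)] at e1
  have e2 : V.valuation (xu M u' e' (μ * z)) = V.valuation (xu L u e z) :=
    mul_right_cancel₀ (pow_ne_zero _ h0) e1
  refine ⟨hμz, Or.inr ?_, e2⟩
  rw [← V.valuation_le_one_iff, not_le, e2]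
  exact hX

end

end Pool.Agent.OBE
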