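import Pool.Agent.OB.StE

/-!
# OB, block E, module MUL (helper92): the isogenies `μ_i x : L_(i0) → L_i` have degree prime to `p`
-/

set_option autoImplicit false

open Polynomial

namespace Pool.Agent.OBE

open _root_.MU3 _root_.Pool.Agent.MU3A _root_.Pool.Agent.MU3B _root_.Pool.Agent.MUX _root_.Pool.Agent.MUXU _root_.Pool.Agent.MUXE
open _root_.Pool.Agent.RI _root_.Pool.Agent.NS _root_.Pool.Agent.OB

noncomputable section

namespace MUL

theorem nI_mem' {A B : ℤ} (b : Ideal (OO A B)) : ((nI b : ℕ) : OO A B) ∈ b := by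
  rw [← Ideal.Quotient.eq_zero_iff_mem, map_natCast, ← nsmul_one]
  exact card_nsmul_eq_zero'

theorem nm_mul' {A B : ℤ} (x y : OO A B) : nm (x * y) = nm x * nm y := by
  simp only [nm, QuadraticAlgebra.re_mul, QuadraticAlgebra.im_mul]
  ring

theorem mul_star' {A B : ℤ} (x : OO A B) : x * star x = ((nm x : ℤ) : OO A B) := by
  apply QuadraticAlgebra.ext
  · simp only [QuadraticAlgebra.re_mul, QuadraticAlgebra.re_star, QuadraticAlgebra.im_star,
      QuadraticAlgebra.re_intCast, nm, Int.cast_id]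
    ring
  · simp only [QuadraticAlgebra.im_mul, QuadraticAlgebra.re_star, QuadraticAlgebra.im_star,
      QuadraticAlgebra.im_intCast]
    ring

/-- the norm of an element prime to `n` is prime to `p`, `p ∣ n` -/
theorem not_dvd_nm {A B : ℤ} (p n : ℕ) (hp : p.Prime) (hpn : p ∣ n) (x : OO A B)
    (hx : IsCoprime x ((n : ℕ) : OO A B)) : ¬ (p : ℤ) ∣ nm x := by
  intro hd
  obtain ⟨y, t, hyt⟩ := hx
  have h1 : nm (y * x) = nm y * nm x := nm_mul' y x
  have h2 : y * x = 1 - t * ((n : ℕ) : OO A B) := by rw [← hyt]; ring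
  have hre : (y * x).re = 1 - (n : ℤ) * t.re := by
    rw [h2]
    simp only [QuadraticAlgebra.re_sub, QuadraticAlgebra.re_one, QuadraticAlgebra.re_mul,
      QuadraticAlgebra.re_natCast, QuadraticAlgebra.im_natCast]
    ring
  have him : (y * x).im = -((n : ℤ) * t.im) := by
    rw [h2]
    simp only [QuadraticAlgebra.im_sub, QuadraticAlgebra.im_one, QuadraticAlgebra.im_mul,
      QuadraticAlgebra.re_natCast, QuadraticAlgebra.im_natCast]
    ring
  have h3 : nm (y * x) - 1 = (n : ℤ) * ((n : ℤ) * t.re ^ 2 - 2 * t.re +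
      B * (-t.im + (n : ℤ) * t.re * t.im) - A * (n : ℤ) * t.im ^ 2) := by
    unfold nm
    rw [hre, him]
    ring
  have h4 : (p : ℤ) ∣ nm (y * x) := by
    rw [h1]
    exact Dvd.dvd.mul_left hd _
  have h5 : (p : ℤ) ∣ nm (y * x) - 1 := by
    rw [h3]
    exact Dvd.dvd.mul_right (by exact_mod_cast hpn) _
  have h6 : (p : ℤ) ∣ 1 := (Int.dvd_iff_dvd_of_dvd_sub h5).1 h4
  exact hp.one_lt.ne' (by exact_mod_cast Int.eq_one_of_dvd_one (by positivity) h6)

end MUL

open MUL in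
theorem tb_MUL : Sb_MUL := by
  intro p A B hp hR n ι R _ hpn i x hx
  obtain ⟨φ, hφ⟩ := hR.hom
  have hnl := R.nl i
  have hnl0 := R.nl R.i0
  have hom : R.om i ≠ 0 := hnl.om_ne
  have hom0 : R.om R.i0 ≠ 0 := hnl0.om_ne
  have hN0 : nI (R.b i) ≠ 0 := by
    intro h0
    have h1 := R.cop i
    rw [h0, Nat.coprime_zero_left] at h1
    rw [h1] at hpn
    exact hp.one_lt.ne' (Nat.dvd_one.1 hpn)
  have hNC : ((nI (R.b i) : ℕ) : ℂ) ≠ 0 := by exact_mod_cast hN0
  have hNb : ((nI (R.b i) : ℕ) : OO A B) ∈ R.b i := nI_mem' (R.b i)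
  have heN : ∀ k : ℕ, emb ((k : ℕ) : OO A B) = (k : ℂ) := fun k => by rw [← hφ, map_natCast]
  have heZ : ∀ k : ℤ, emb ((k : ℤ) : OO A B) = (k : ℂ) := fun k => by rw [← hφ, map_intCast]
  have hem : ∀ x y : OO A B, emb (x * y) = emb x * emb y := fun x y => by
    rw [← hφ, ← hφ, ← hφ, map_mul]
  have hnmx := not_dvd_nm p n hp hpn x hx
  have hx0 : x ≠ 0 := by
    rintro rfl
    apply hnmx
    simp [nm]
  have hex : emb x ≠ 0 := fun h => hx0 (hR.inj0 x h)
  have hmu : muX R i ≠ 0 := by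
    unfold muX
    exact div_ne_zero (mul_ne_zero hom hNC) hom0
  have hL0 : ∀ z, z ∈ (R.L R.i0).lattice ↔ ∃ x : OO A B, z = R.om R.i0 * emb x := by
    intro z
    rw [hnl0.mem, R.b0]
    simp
  refine ⟨mul_ne_zero hmu hex, ?_, (nm x).natAbs * nI (R.b i), ?_, ?_⟩
  · intro u hu
    obtain ⟨y, rfl⟩ := (hL0 u).1 hu
    rw [hnl.mem]
    refine ⟨(nI (R.b i) : ℕ) * (x * y), (R.b i).mul_mem_right _ hNb, ?_⟩
    rw [hem, hem, heN]
    unfold muX
    field_simp
  · intro hd
    rcases hp.dvd_mul.1 hd with h4 | h4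
    · exact hnmx (Int.natCast_dvd.2 h4)
    · have h5 : p ∣ Nat.gcd (nI (R.b i)) n := Nat.dvd_gcd h4 hpn
      rw [Nat.Coprime.gcd_eq_one (R.cop i)] at h5
      exact hp.one_lt.ne' (Nat.dvd_one.1 h5)
  · intro z hz
    obtain ⟨y, -, hy⟩ := (hnl.mem _).1 hz
    have h1 : (nI (R.b i) : ℂ) * emb x * z = R.om R.i0 * emb y := by
      unfold muX at hy
      field_simp at hy
      linear_combination hy
    have h2 : ((nm x : ℤ) : ℂ) = emb x * emb (star x) := by
      rw [← hem, MUL.mul_star', heZ]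
    have h7 : ((nm x : ℤ) : ℂ) * (nI (R.b i) : ℂ) * z ∈ (R.L R.i0).lattice := by
      rw [hL0]
      refine ⟨star x * y, ?_⟩
      rw [hem, h2]
      linear_combination (emb (star x)) * h1
    rcases Int.natAbs_eq (nm x) with h8 | h8
    · have h9 : (((nm x).natAbs * nI (R.b i) : ℕ) : ℂ) * z =
          ((nm x : ℤ) : ℂ) * (nI (R.b i) : ℂ) * z := by
        have : ((nm x : ℤ) : ℂ) = (((nm x).natAbs : ℕ) : ℂ) := by
          rw [← Int.cast_natCast, ← h8]
        rw [this, Nat.cast_mul]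
      rw [h9]
      exact h7
    · have h9 : (((nm x).natAbs * nI (R.b i) : ℕ) : ℂ) * z =
          -(((nm x : ℤ) : ℂ) * (nI (R.b i) : ℂ) * z) := by
        have : ((nm x : ℤ) : ℂ) = -(((nm x).natAbs : ℕ) : ℂ) := by
          rw [← Int.cast_natCast, ← Int.cast_neg, ← h8]
        rw [this, Nat.cast_mul]
        ring
      rw [h9]
      exact neg_mem h7

end

end Pool.Agent.OBE
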