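import Pool.Agent.OB.StE
import Pool.Agent.MUX.E_TRA
import Pool.Agent.MUX.E_TRB

/-!
# OB, block E, module PIS: the isogeny `L → ν P⁻¹ L` and the points of `E[P]` (helper78)
-/

set_option autoImplicit false

open Polynomial

namespace Pool.Agent.OBE

open _root_.MU3 _root_.Pool.Agent.MU3A _root_.Pool.Agent.MU3B _root_.Pool.Agent.MUX _root_.Pool.Agent.MUXU _root_.Pool.Agent.MUXE
open _root_.Pool.Agent.RI _root_.Pool.Agent.NS _root_.Pool.Agent.OB
open _root_.Pool.Agent.MUXV (GR InK tX)
open _root_.Pool.Agent.NSE (su ru WL IntP)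

noncomputable section

namespace PIS

theorem xu_per (L : PeriodPair) (u e z w : ℂ) (h : z - w ∈ L.lattice) :
    xu L u e z = xu L u e w := by
  have h1 : L.weierstrassP z = L.weierstrassP w := by
    have h2 := L.weierstrassP_add_coe w ⟨z - w, h⟩
    rw [← h2]
    congr 1
    simp
  unfold xu
  rw [h1]

theorem card_of {A B : ℤ} (P : Ideal (OO A B)) (L : PeriodPair) (R : Finset ℂ) (q0 : ℂ)
    (hne : ∀ q ∈ R, q ∉ L.lattice) (hinj : ∀ q ∈ R, ∀ q' ∈ R, q - q' ∈ L.lattice → q = q')
    (φ : OO A B →+* ℂ) (hφ : ∀ x, φ x = emb x)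
    (hker : ∀ x : OO A B, emb x * q0 ∈ L.lattice ↔ x ∈ P)
    (hcov : ∀ q ∈ R, ∃ x : OO A B, q - emb x * q0 ∈ L.lattice)
    (hsur : ∀ x : OO A B, x ∉ P → ∃ q ∈ R, emb x * q0 - q ∈ L.lattice) :
    R.card + 1 = nI P := by
  classical
  have hsub : ∀ x y : OO A B, emb (x - y) = emb x - emb y := by
    intro x y
    rw [← hφ, ← hφ, ← hφ, map_sub]
  have h0R : (0 : ℂ) ∉ R := fun h => hne 0 h (zero_mem _)
  have hcov' : ∀ q : ℂ, ∃ x : OO A B, q ∈ insert 0 R → q - emb x * q0 ∈ L.lattice := by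
    intro q
    by_cases hq : q ∈ R
    · obtain ⟨x, hx⟩ := hcov q hq
      exact ⟨x, fun _ => hx⟩
    · refine ⟨0, fun h => ?_⟩
      rcases Finset.mem_insert.1 h with rfl | h
      · rw [(hφ 0).symm.trans (map_zero φ)]
        simp
      · exact absurd h hq
  choose g hg using hcov'
  have hinj' : ∀ q ∈ insert 0 R, ∀ q' ∈ insert 0 R, q - q' ∈ L.lattice → q = q' := by
    intro q hq q' hq' h
    rcases Finset.mem_insert.1 hq with rfl | hq
    · rcases Finset.mem_insert.1 hq' with rfl | hq'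
      · rfl
      · exact absurd (by simpa using h) (hne q' hq')
    · rcases Finset.mem_insert.1 hq' with rfl | hq'
      · exact absurd (by simpa using h) (hne q hq)
      · exact hinj q hq q' hq' h
  let f : {q : ℂ // q ∈ insert 0 R} → OO A B ⧸ P := fun q => Ideal.Quotient.mk P (g q.1)
  have hf : Function.Bijective f := by
    constructor
    · rintro ⟨q, hq⟩ ⟨q', hq'⟩ h
      have h1 : g q - g q' ∈ P := (Ideal.Quotient.eq).1 h
      have h2 := (hker _).2 h1
      rw [hsub] at h2
      have h3 := add_mem (sub_mem (hg q hq) (hg q' hq')) h2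
      have h4 : q - q' ∈ L.lattice := by
        convert h3 using 1
        ring
      exact Subtype.ext (hinj' q hq q' hq' h4)
    · intro c
      obtain ⟨x, rfl⟩ := Ideal.Quotient.mk_surjective c
      have key : ∃ q ∈ insert 0 R, emb x * q0 - q ∈ L.lattice := by
        by_cases hx : x ∈ P
        · exact ⟨0, Finset.mem_insert_self _ _, by simpa using (hker x).2 hx⟩
        · obtain ⟨q, hq, h⟩ := hsur x hx
          exact ⟨q, Finset.mem_insert_of_mem hq, h⟩
      obtain ⟨q, hq, h⟩ := key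
      refine ⟨⟨q, hq⟩, ?_⟩
      refine (Ideal.Quotient.eq).2 ((hker _).1 ?_)
      rw [hsub]
      have h3 := neg_mem (add_mem h (hg q hq))
      convert h3 using 1
      ring
  have h1 := Nat.card_congr (Equiv.ofBijective f hf)
  rw [Nat.card_eq_fintype_card, Fintype.card_coe, Finset.card_insert_of_notMem h0R] at h1
  exact h1

end PIS

open PIS in
theorem tb_PIS (h1 : Sb_GEN) (h2 : Sb_UNT) (h3 : Sb_PVL) (h4 : Su_BAC) : Sb_PIS := by
  intro p er A B P V al C L N nu u e lam u' e' lam' hL hN hQ hg hg'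
  obtain ⟨φ, hφ⟩ := C.ring.hom
  have hmul : ∀ x y : OO A B, emb (x * y) = emb x * emb y := by
    intro x y
    rw [← hφ, ← hφ, ← hφ, map_mul]
  have hnat : ∀ n : ℕ, emb ((n : ℕ) : OO A B) = n := fun n => by rw [← hφ, map_natCast]
  obtain ⟨tra1, tra2, tra3, tra4, tra5, tra6, tra7, tra8, tra9⟩ := te_TRA A B C.ring L hL
  have hCp : Cp p V := C.toCp
  have hν : nu ≠ 0 := hQ.1
  have hTor : ∀ z, nu * z ∈ N.lattice ↔ Tor P L z := hQ.2
  have hIsg : Isg L N nu := fun w hw => (hTor w).2 (fun x _ => tra1 x w hw)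
  have hu := hg.u0
  have hu' := hg'.u0
  have hal0 : emb al ≠ 0 := by
    intro h0
    have := C.ring.inj0 al h0
    exact C.al2 (this ▸ zero_mem _)
  have hva : V.valuation (emb al) ≠ 0 := (Valuation.ne_zero_iff _).2 hal0
  have hva1 : V.valuation (emb al) < 1 := by
    by_contra hc
    have h5 : 1 ≤ V.valuation (emb al) := not_lt.1 hc
    have h6 : (1 : V.ValueGroup) ≤ V.valuation (emb al) ^ er := one_le_pow_of_one_le' h5 er
    rw [C.alv] at h6
    exact absurd C.vp (not_lt.2 h6)
  -- the multiplier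
  have hκ : emb al / nu ≠ 0 := div_ne_zero hal0 hν
  have hIκ : Isg N L (emb al / nu) := by
    intro w hw
    have h5 : nu * (w / nu) ∈ N.lattice := by rwa [mul_div_cancel₀ _ hν]
    have h6 := (hTor _).1 h5 al C.alP
    convert h6 using 1
    field_simp
  obtain ⟨N0, hN0, hN1⟩ := C.alN
  have hker : Ker0 V N L u' e' (emb al / nu) := by
    refine (h2 p V N L u' e' lam' u e lam (emb al / nu) hCp hg' hg hκ hIκ).2 N0 hN0 ?_
    intro z hz
    have h5 : emb al * (z / nu) ∈ L.lattice := by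
      convert hz using 1
      field_simp
    have h6 : Tor P L ((N0 : ℂ) * (z / nu)) := by
      intro x hx
      obtain ⟨y, hy⟩ := hN1 x hx
      have h7 := tra1 y _ h5
      rw [← mul_assoc, ← hmul, mul_comm y al, ← hy, hmul, hnat] at h7
      convert h7 using 1
      ring
    have h8 := (hTor _).2 h6
    convert h8 using 1
    field_simp
  have hm : V.valuation (emb al / nu * u / u') = 1 :=
    (h2 p V N L u' e' lam' u e lam (emb al / nu) hCp hg' hg hκ hIκ).1.1 hker
  have hmult : V.valuation (nu * u' / u) = V.valuation (emb al) := by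
    have h5 : emb al = (nu * u' / u) * (emb al / nu * u / u') := by
      field_simp
    rw [h5, map_mul, hm, mul_one]
  obtain ⟨⟨R, hR⟩, -⟩ := h4.2 L N nu hν hIsg
  have hgen := h1 p V L N u e lam u' e' lam' nu hCp hg hg' hν hIsg R hR
  rw [hmult] at hgen
  have torR : ∀ q ∈ R, Tor P L q := fun q hq => (hTor q).1 (hR.mem q hq)
  -- a point with a pole
  obtain ⟨q0, hq0R, hq0v⟩ : ∃ q ∈ R, 1 < V.valuation (xu L u e q) := by
    by_contra hc
    push Not at hc
    have h5 : ∏ q ∈ R, max 1 (V.valuation (xu L u e q)) = 1 :=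
      Finset.prod_eq_one fun q hq => max_eq_left (hc q hq)
    rw [h5, mul_one] at hgen
    have h6 : V.valuation (emb al) ^ 2 < 1 := pow_lt_one' hva1 two_ne_zero
    rw [hgen] at h6
    exact lt_irrefl _ h6
  have hq0L := hR.ne q0 hq0R
  have hq0T := torR q0 hq0R
  have hq0K : InK V L (xu L u e) q0 := by
    right
    rw [← ValuationSubring.valuation_le_one_iff]
    exact not_le.2 hq0v
  have hpvl := h3 p er A B P V al C L u e lam hL hg
  have hkerP : ∀ x : OO A B, emb x * q0 ∈ L.lattice ↔ x ∈ P := by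
    intro x
    constructor
    · intro h
      by_contra hx
      exact ((hpvl.1 x hx).2 q0 hq0K hq0L).1 h
    · exact fun hx => hq0T x hx
  have hcov : ∀ z, Tor P L z → ∃ x : OO A B, z - emb x * q0 ∈ L.lattice := fun z hz =>
    (te_TRB A B C.ring L hL).2 P C.ne C.max q0 z hq0T hz hq0L
  have hall : ∀ z, Tor P L z → z ∉ L.lattice → InK V L (xu L u e) z ∧
      V.valuation (xu L u e z) = V.valuation (xu L u e q0) := by
    intro z hz hzL
    obtain ⟨x, hx⟩ := hcov z hz
    have hxP : x ∉ P := by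
      intro h
      apply hzL
      have h5 := add_mem hx ((hkerP x).2 h)
      rwa [sub_add_cancel] at h5
    obtain ⟨k1, k2, k3⟩ := (hpvl.1 x hxP).2 q0 hq0K hq0L
    have h5 := xu_per L u e _ _ hx
    rw [h5]
    refine ⟨Or.inr ?_, k3⟩
    rw [h5]
    rcases k2 with k2 | k2
    · exact absurd k2 k1
    · exact k2
  have hcard : R.card + 1 = nI P := by
    refine card_of P L R q0 hR.ne hR.inj φ hφ hkerP (fun q hq => hcov q (torR q hq)) ?_
    intro x hx
    have h5 : Tor P L (emb x * q0) := tra3 P x q0 hq0T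
    exact hR.surj _ ((hTor _).2 h5) (fun h => hx ((hkerP x).1 h))
  have hprod : ∏ q ∈ R, max 1 (V.valuation (xu L u e q)) =
      V.valuation (xu L u e q0) ^ (nI P - 1) := by
    have h5 : nI P - 1 = R.card := by omega
    rw [h5, ← Finset.prod_const]
    refine Finset.prod_congr rfl fun q hq => ?_
    rw [(hall q (torR q hq) (hR.ne q hq)).2]
    exact max_eq_right hq0v.le
  rw [hprod] at hgen
  refine ⟨hmult, ⟨R, hR, hcard⟩, fun z hz hzL => ?_⟩
  obtain ⟨k1, k2⟩ := hall z hz hzL
  have hT0 : V.valuation (xu L u e q0) ≠ 0 := fun h => by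
    rw [h] at hq0v
    exact absurd hq0v (not_lt.2 zero_le)
  have hz0 : xu L u e z ≠ 0 := by
    intro h
    rw [h, map_zero] at k2
    exact hT0 k2.symm
  refine ⟨k1, hz0, ?_⟩
  unfold su
  rw [map_inv₀, k2, inv_pow]
  exact inv_eq_of_mul_eq_one_left hgen

end

end Pool.Agent.OBE
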