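import Pool.Agent.OB.StE

/-!
# OB, block E: pullback of representable functions

`F = A(s') + r' B(s')` on `S'`, `ρ : S → S'` with `s' ∘ ρ` represented by `(0, 0)` and `r' ∘ ρ` by
`(0, c)`: then `F ∘ ρ` is represented by `(α, β c)`.
-/

set_option autoImplicit false

open Polynomial

namespace Pool.Agent.OBE

theorem tb_PUL (hA : Sb_ALG) (hP : Sb_PRO) : Sb_PUL := by
  intro p V S S' s r s' r' a2 a4 ρ c hpts hρ hs hr F α β hF
  obtain ⟨-, -, -, hch, hadd, hmul, -, hval, -⟩ := hA p V S s r a2 a4 hpts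
  obtain ⟨hpol, -, -⟩ := hP p V S s r a2 a4 hpts
  obtain ⟨P, Q, iP, iQ, hFe, hPα, hQβ⟩ := hF
  have hc : V.valuation c ≤ 1 := (hval _ _ _ hr).2.1
  have h1 := hpol _ _ _ P hs iP
  have h2 := hpol _ _ _ Q hs iQ
  have h3 := hmul _ _ _ _ _ _ hr h2
  have h4 := hadd _ _ _ _ _ _ h1 h3
  refine hch _ _ _ _ _ _ h4 (fun Y hY => hFe (ρ Y) (hρ Y hY)) ?_ ?_
  · have e1 : α - (P.eval 0 + 0 * Q.eval 0) = -(P.coeff 0 - α) := by
      rw [coeff_zero_eq_eval_zero P]
      ring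
    rw [e1, Valuation.map_neg]
    exact hPα
  · have e2 : β * c - (0 * (derivative P).eval 0 +
        (0 * (0 * (derivative Q).eval 0) + Q.eval 0 * c)) = -(Q.coeff 0 - β) * c := by
      rw [coeff_zero_eq_eval_zero Q]
      ring
    rw [e2, map_mul, Valuation.map_neg]
    calc V.valuation (Q.coeff 0 - β) * V.valuation c
        ≤ V.valuation (p : ℂ) * 1 := mul_le_mul' hQβ hc
      _ = V.valuation (p : ℂ) := mul_one _

end Pool.Agent.OBE
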