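import Pool.Agent.OB.StE
import Pool.Agent.MUX.E_TRA

/-!
# OB, block E, module PVL (helper95): the kernel of reduction as a module over the integers
-/

set_option autoImplicit false

open Polynomial

namespace Pool.Agent.OBE

open _root_.MU3 _root_.Pool.Agent.MU3A _root_.Pool.Agent.MU3B _root_.Pool.Agent.MUX _root_.Pool.Agent.MUXU _root_.Pool.Agent.MUXE
open _root_.Pool.Agent.RI _root_.Pool.Agent.NS _root_.Pool.Agent.OB
open _root_.Pool.Agent.MUXV (GR InK tX)
open _root_.Pool.Agent.NSE (su ru WL IntP)

noncomputable section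

theorem tb_PVL (hUNT : Sb_UNT) (hKIS : Sb_KIS) (hGRN : Sb_GRN) : Sb_PVL := by
  intro p er A B P V al c L u e lam hL hG
  have hCp : Cp p V := c.toCp
  obtain ⟨φ, hφ⟩ := c.ring.hom
  have tra := te_TRA A B c.ring L hL
  obtain ⟨ξ, G⟩ := hGRN p V L u e lam hCp hG
  have hu := hG.u0
  have key : ∀ x : OO A B, x ∉ P → Ker0 V L L u e (emb x) ∧
      ∀ z, InK V L (xu L u e) z → z ∉ L.lattice →
        emb x * z ∉ L.lattice ∧ InK V L (xu L u e) (emb x * z) ∧
        V.valuation (xu L u e (emb x * z)) = V.valuation (xu L u e z) := by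
    intro x hx
    have hx0 : x ≠ 0 := fun h => hx (h ▸ P.zero_mem)
    have he0 : emb x ≠ 0 := fun h => hx0 (c.ring.inj0 x h)
    have hI : Isg L L (emb x) := fun w hw => tra.1 x w hw
    have hv : V.valuation (emb x * u / u) = 1 := by
      rw [mul_div_assoc, div_self hu, mul_one]
      exact c.unit x hx
    have hK : Ker0 V L L u e (emb x) :=
      ((hUNT p V L L u e lam u e lam (emb x) hCp hG hG he0 hI).1).2 hv
    exact ⟨hK, fun z hz hzL =>
      hKIS p V L L u e lam u e lam (emb x) hCp hG hG he0 hI hK z hz hzL⟩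
  have k2 : ∀ (x : OO A B) (z : ℂ), InK V L (xu L u e) z →
      InK V L (xu L u e) (emb x * z) := by
    intro x z hz
    have main : ∀ x : OO A B, x ∉ P → InK V L (xu L u e) (emb x * z) := by
      intro x hx
      by_cases hzL : z ∈ L.lattice
      · exact Or.inl (tra.1 x z hzL)
      · exact ((key x hx).2 z hz hzL).2.1
    by_cases hx : x ∈ P
    · have h1 : x + 1 ∉ P := by
        intro h
        have h4 : (1 : OO A B) ∈ P := by
          have h5 := P.sub_mem h hx
          rwa [add_sub_cancel_left] at h5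
        exact c.max.ne_top ((Ideal.eq_top_iff_one P).2 h4)
      have h2 := main (x + 1) h1
      have h3 := Pool.Agent.MUXV.inK_sub G h2 hz
      have h6 : emb (x + 1) * z - z = emb x * z := by
        rw [← hφ, map_add, map_one, hφ]
        ring
      rwa [h6] at h3
    · exact main x hx
  refine ⟨key, k2, ?_⟩
  intro m hm z hT hz
  obtain ⟨x, hxm, hxP⟩ := SetLike.not_le_iff_exists.1 hm
  by_contra hzL
  exact ((key x hxP).2 z hz hzL).1 (hT x hxm)

end

end Pool.Agent.OBE
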