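import Pool.Agent.OB.StE
import Pool.Agent.MUX.E_FAC
import Pool.Agent.MUX.E_TRA

/-!
# OB, block E, module SIG: `Y ↦ σ_Y(w)` for `w` in the ray class field (helper1; model: `NS/F_SIG.lean`)
-/

set_option autoImplicit false

open Polynomial

namespace Pool.Agent.OBE

open _root_.MU3 _root_.Pool.Agent.MU3A _root_.Pool.Agent.MU3B _root_.Pool.Agent.MUX _root_.Pool.Agent.MUXU _root_.Pool.Agent.MUXE
open _root_.Pool.Agent.RI _root_.Pool.Agent.NS _root_.Pool.Agent.OB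
open _root_.Pool.Agent.MUXV (GR InK tX)
open _root_.Pool.Agent.NSE (su ru WL IntP)

noncomputable section

namespace SIG

variable {A B : ℤ}

/-- polynomials over `V` -/
theorem intP_iff {V : ValuationSubring ℂ} {P : ℂ[X]} :
    IntP V P ↔ P ∈ Polynomial.liftsRing (algebraMap V ℂ) := by
  rw [← Polynomial.lifts_iff_liftsRing, Polynomial.lifts_iff_coeff_lifts]
  refine forall_congr' fun i => ?_
  rw [ValuationSubring.valuation_le_one_iff]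
  constructor
  · intro h
    exact ⟨⟨_, h⟩, rfl⟩
  · rintro ⟨c, hc⟩
    rw [← hc]
    exact c.2

theorem intP_sum {V : ValuationSubring ℂ} {N : ℕ} (a : Fin N → ℂ) (c : ℂ)
    (ha : ∀ i, V.valuation (a i) ≤ 1) (hc : V.valuation c ≤ 1) :
    IntP V (∑ i, C (a i) * (X - C c) ^ (i : ℕ)) := by
  have hC : ∀ b : ℂ, V.valuation b ≤ 1 → C b ∈ Polynomial.liftsRing (algebraMap V ℂ) := by
    intro b hb
    rw [← intP_iff]
    intro i
    rw [coeff_C]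
    split_ifs
    · exact hb
    · rw [map_zero]; exact zero_le
  rw [intP_iff]
  refine sum_mem fun i _ => mul_mem (hC _ (ha i)) (pow_mem (sub_mem ?_ (hC _ hc)) _)
  rw [← intP_iff]
  intro i
  rw [coeff_X]
  split_ifs
  · rw [map_one]
  · rw [map_zero]; exact zero_le

end SIG

open SIG in
theorem tb_SIG (h1 : Sb_ALG) (h2 : Sb_PRO) (h5 : Sb_PTS) (h7 : Sb_ADD) (h8 : Sb_UNI) :
    Sb_SIG := by
  intro p er A B P V al hC hT hG N u e lam hN hgood J f m₁ m' hf h2f hm₁ hmf hm0 hmP z₁ hz₁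
    w hw hvw
  have hR := hC.ring
  obtain ⟨φ, hφ⟩ := hR.hom
  have hsub : ∀ x y : OO A B, emb (x - y) = emb x - emb y := fun x y => by
    rw [← hφ, map_sub, hφ, hφ]
  have hone : emb (1 : OO A B) = 1 := by rw [← hφ, map_one]
  obtain ⟨P₀, -, -, hP₀E, hz₁E, huM, heM, hx0M, hπM', hexp⟩ :=
    h8 p er A B P V al hC hT hG N u e lam hN hgood J f m₁ m' hf h2f hm₁ hmf hm0 hmP z₁ hz₁
  -- the fields
  have hmm : P ^ (J + 1) * m' ≤ m' := Ideal.mul_le_right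
  obtain ⟨c1, c2, c3, c4, c5⟩ := Pool.Agent.MUXE.te_FAC Pool.Agent.MUXE.te_TRA A B hR
  have hle := c1 _ _ hmm
  obtain ⟨hP, -⟩ := h5 p er A B P V al hC N u e lam hN hgood
  -- torsion
  have hTor : Tor (P ^ (J + 1) * m') N z₁ := by
    intro x hx
    exact (hz₁ x).2 (Ideal.mul_mono_right hm₁ hx)
  have hz₁L : z₁ ∉ N.lattice := fun h => hz₁E (Or.inl h)
  have hPM : xn N z₁ ∈ RF (P ^ (J + 1) * m') := (c2 _ N hN).2 _ hTor hz₁L
  have hxx : ∀ z : ℂ, xu N u e z = (xn N z + ((1 / 12 : ℚ) : ℂ) - e) / u ^ 2 := by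
    intro z; unfold xu xn; push_cast; ring
  obtain ⟨π, hπ⟩ : ∃ z, z = xu N u e z₁ - xu N u e P₀ := ⟨_, rfl⟩
  have hπM : π ∈ RF (P ^ (J + 1) * m') := by
    rw [hπ]; exact hπM'
  obtain ⟨c, hc1, hc2⟩ := hexp w hw hvw
  rw [← hπ] at hc2
  -- the function
  have hvx0 : V.valuation (xu N u e P₀) ≤ 1 := (Pool.Agent.MUXV.int_X hP₀E).2
  obtain ⟨Pol, hPol⟩ : ∃ Q : ℂ[X], Q = ∑ i : Fin ((nI P - 1) * nI P ^ J),
    C ((c i : ℂ)) * (X - C (xu N u e P₀)) ^ (i : ℕ) := ⟨_, rfl⟩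
  have hPolI : IntP V Pol := by
    rw [hPol]; exact intP_sum _ _ hc1 hvx0
  have hPolE : ∀ t : ℂ, Pol.eval t =
      ∑ i : Fin ((nI P - 1) * nI P ^ J), (c i : ℂ) * (t - xu N u e P₀) ^ (i : ℕ) := by
    intro t
    rw [hPol, eval_finsetSum]
    refine Finset.sum_congr rfl fun i _ => ?_
    simp
  have hPolw : Pol.eval (xu N u e z₁) = w := by rw [hPolE, ← hπ, ← hc2]
  have hRep := (h2 p V (SP P er N) (su N u e) (ru N u e) _ _ hP).1 _ _ _ Pol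
    (h7 p er A B P V al hC N u e lam hN hgood z₁ hz₁E) hPolI
  have hβ := ((h1 p V (SP P er N) (su N u e) (ru N u e) _ _ hP).2.2.2.2.2.2.2.1 _ _ _ hRep).2.1
  rw [hPolw] at hRep
  refine ⟨_, _, hβ, hRep, ?_⟩
  intro y hy σ hσ hw'
  have hc4 : ∀ (t : ℂ) (ht : t ∈ RF (P ^ (J + 1) * m')),
      t ∈ RF m' → (σ ⟨t, ht⟩ : ℂ) = t := by
    intro t ht ht'
    exact c4 _ _ hmm (em σ) _ hσ hy t ht ht'
  have hemb3 : emb y * z₁ = z₁ + emb (y - 1) * z₁ := by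
    rw [hsub, hone]
    ring
  have hσx : (σ ⟨xn N z₁, hPM⟩ : ℂ) = xn N (z₁ + emb (y - 1) * z₁) := by
    rw [← hemb3]
    exact ((hσ.2 N hN).2 z₁ hTor hz₁L).2 hPM
  have hσπ : (σ ⟨π, hπM⟩ : ℂ) = xu N u e (z₁ + emb (y - 1) * z₁) - xu N u e P₀ := by
    have h11 : (⟨π, hπM⟩ : RF (P ^ (J + 1) * m')) =
        (⟨xn N z₁, hPM⟩ + (((1 / 12 : ℚ)) : RF (P ^ (J + 1) * m')) -
          ⟨e, hle heM⟩) / ⟨u ^ 2, hle huM⟩ - ⟨xu N u e P₀, hle hx0M⟩ := by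
      apply Subtype.ext
      show π = _
      rw [hπ, hxx z₁]
      rfl
    rw [h11, map_sub, map_div₀, map_sub, map_add, map_ratCast]
    show ((σ ⟨xn N z₁, hPM⟩ : ℂ) + ((1 / 12 : ℚ) : ℂ) - (σ ⟨e, hle heM⟩ : ℂ)) /
      (σ ⟨u ^ 2, hle huM⟩ : ℂ) - (σ ⟨xu N u e P₀, hle hx0M⟩ : ℂ) = _
    rw [hσx, hc4 _ _ heM, hc4 _ _ huM, hc4 _ _ hx0M, ← hxx]
  have hww : (⟨w, hw'⟩ : RF (P ^ (J + 1) * m')) =
      ∑ i : Fin ((nI P - 1) * nI P ^ J), ⟨(c i : ℂ), hle (c i).2⟩ * ⟨π, hπM⟩ ^ (i : ℕ) := by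
    apply Subtype.ext
    rw [IntermediateField.coe_sum]
    show w = _
    rw [hc2]
    rfl
  rw [hww, map_sum]
  show _ = Pol.eval (xu N u e (z₁ + emb (y - 1) * z₁))
  rw [hPolE, IntermediateField.coe_sum]
  refine Finset.sum_congr rfl fun i _ => ?_
  rw [map_mul, map_pow]
  show (σ ⟨(c i : ℂ), hle (c i).2⟩ : ℂ) * (σ ⟨π, hπM⟩ : ℂ) ^ (i : ℕ) = _
  rw [hc4 _ _ (c i).2, hσπ]

end

end Pool.Agent.OBE
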