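import Pool.Agent.OB.StE
import Pool.Agent.NS.StER
import Pool.Agent.MUX.I_XXF
import Pool.Agent.MUX.XLib

/-!
# OB, block E: STB, the sets `XX` are stable under translation (helper64, for helper96)

Model: `NS/F_STB.lean`.
-/

set_option autoImplicit false

open Polynomial

namespace Pool.Agent.OBE

open _root_.MU3 _root_.Pool.Agent.MU3A _root_.Pool.Agent.MU3B _root_.Pool.Agent.MUX _root_.Pool.Agent.MUXU _root_.Pool.Agent.MUXE
open _root_.Pool.Agent.RI _root_.Pool.Agent.NS _root_.Pool.Agent.OB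
open _root_.Pool.Agent.MUXV (GR InK tX)
open _root_.Pool.Agent.NSE (su ru WL IntP)

noncomputable section

open _root_.Pool.Agent.NSRD in
open _root_.Pool.Agent.MUXI in
theorem tb_STB (hHIT : Si_HIT) (hIAF : Si_IAF) : Sb_STB := by
  intro p A B P V al hR T n f hn hf hfp ι R D h hD
  let := algC h
  intro τ β hβ q hq
  have hC : MUX.CQ A B := hR.cq
  have hp2 : p ≠ 2 := by have := hR.p5; omega
  have hp0 : p ≠ 0 := hR.pp.ne_zero
  have hml : lvX p f n = p ^ (n + 1) * f := by
    unfold lvX q0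
    rw [if_neg hp2]
    ring
  have h3n : 5 ≤ p ^ (n + 1) := by
    calc 5 ≤ p ^ 1 := by rw [pow_one]; exact hR.p5
      _ ≤ p ^ (n + 1) := Nat.pow_le_pow_right (by have := hR.p5; omega) (by omega)
  have hm2 : 2 ≤ lvX p f n := by
    rw [hml]
    have := Nat.mul_le_mul h3n (Nat.one_le_iff_ne_zero.2 hf)
    omega
  have hcop : ∀ i, (nI (R.b i)).Coprime (lvX p f n) := by
    intro i
    rw [hml]
    have h1 := R.cop i
    exact Nat.Coprime.mul_right ((h1.coprime_mul_right_right).pow_right _)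
      h1.coprime_mul_left_right
  have hex : ∃ (b : Ideal (OO A B)) (L : PeriodPair) (om : ℂ), IsNL b L om := ⟨_, _, _, R.nl R.i0⟩
  have hm0 := XXF.idl_ne (A := A) (B := B) hm2
  obtain ⟨-, hsur, hcmp, -, hch, -, hlow, -⟩ := hIAF A B hC T hex _ hm0
  -- `P² = (p)`
  have hfac : P ^ 2 = idl (A := A) (B := B) p := by
    have h1 := hR.fac
    rw [(hR.nP rfl).2, Ideal.mul_top] at h1
    exact h1.symm
  -- `lvR P f n = (f) P^(2n+1)`
  have hlvf : lvR P f n ≤ idl (A := A) (B := B) (p * f) := by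
    unfold lvR
    have h3 : P ^ (2 * n + 1) ≤ idl (A := A) (B := B) p := by
      rw [← hfac]
      exact Ideal.pow_le_pow_right (by omega)
    have h4 : idl (A := A) (B := B) (p * f) = idl f * idl p := by
      change Ideal.span {((p * f : ℕ) : OO A B)} =
        Ideal.span {((f : ℕ) : OO A B)} * Ideal.span {((p : ℕ) : OO A B)}
      rw [Ideal.span_singleton_mul_span_singleton, Nat.cast_mul, mul_comm]
    rw [h4]
    exact Ideal.mul_mono_right h3
  have hlv0 : lvR P f n ≠ ⊥ := by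
    have h1 : idl (A := A) (B := B) (lvX p f n) ≤ lvR P f n := by
      unfold lvR
      have h2 : idl (A := A) (B := B) (lvX p f n) = idl f * idl (p ^ (n + 1)) := by
        change Ideal.span {((lvX p f n : ℕ) : OO A B)} =
          Ideal.span {((f : ℕ) : OO A B)} * Ideal.span {((p ^ (n + 1) : ℕ) : OO A B)}
        rw [Ideal.span_singleton_mul_span_singleton, hml, Nat.cast_mul, mul_comm]
      rw [h2]
      refine Ideal.mul_mono_right ?_
      have h5 : idl (A := A) (B := B) (p ^ (n + 1)) = P ^ (2 * (n + 1)) := by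
        rw [pow_mul, hfac]
        change Ideal.span {((p ^ (n + 1) : ℕ) : OO A B)} = Ideal.span {((p : ℕ) : OO A B)} ^ (n + 1)
        rw [Ideal.span_singleton_pow, Nat.cast_pow]
      rw [h5]
      exact Ideal.pow_le_pow_right (by omega)
    intro h0
    rw [h0, le_bot_iff] at h1
    exact hm0 h1
  have hle : idl (A := A) (B := B) (lvX p f n) ≤ lvR P f n := by
    unfold lvR
    have h2 : idl (A := A) (B := B) (lvX p f n) = idl f * idl (p ^ (n + 1)) := by
      change Ideal.span {((lvX p f n : ℕ) : OO A B)} =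
        Ideal.span {((f : ℕ) : OO A B)} * Ideal.span {((p ^ (n + 1) : ℕ) : OO A B)}
      rw [Ideal.span_singleton_mul_span_singleton, hml, Nat.cast_mul, mul_comm]
    rw [h2]
    refine Ideal.mul_mono_right ?_
    have h5 : idl (A := A) (B := B) (p ^ (n + 1)) = P ^ (2 * (n + 1)) := by
      rw [pow_mul, hfac]
      change Ideal.span {((p ^ (n + 1) : ℕ) : OO A B)} = Ideal.span {((p : ℕ) : OO A B)} ^ (n + 1)
      rw [Ideal.span_singleton_pow, Nat.cast_pow]
    rw [h5]
    exact Ideal.pow_le_pow_right (by omega)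
  obtain ⟨-, -, -, -, -, htriv, -, -⟩ := hIAF A B hC T hex _ hlv0
  have hit := hHIT A B hC T _ ι R _ hm2 hcop
  obtain ⟨hq1, σ, hσ, hτ, hh⟩ := hq
  -- the element `b = 1 + x' β`
  obtain ⟨x₁, y₁, hxy⟩ := hq1
  set b : OO A B := 1 + x₁ * β with hb
  have hb1 : b - 1 ∈ lvR P f n := by
    have : b - 1 = x₁ * β := by rw [hb]; ring
    rw [this]
    exact Ideal.mul_mem_left _ _ hβ
  have hbpf : IsCoprime b ((p * f : ℕ) : OO A B) := by
    obtain ⟨c, hc⟩ := Ideal.mem_span_singleton'.1 (hlvf hb1)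
    refine ⟨1, -c, ?_⟩
    rw [neg_mul, hc]
    ring
  have hbc : IsCoprime b ((lvX p f n : ℕ) : OO A B) := by
    rw [hml]
    push_cast at hbpf ⊢
    exact IsCoprime.mul_right (hbpf.of_mul_right_left.pow_right) hbpf.of_mul_right_right
  have hb0 : b ≠ 0 := XXF.not_coprime_zero hm2 hbc
  have hq1 : IsCoprime (Quotient.out q.2 : OO A B) ((lvX p f n : ℕ) : OO A B) := ⟨x₁, y₁, hxy⟩
  have hIA := (hit σ hσ q.1 _ hq1).1 hh
  obtain ⟨ρ, hρ⟩ := hsur (sp b) (by rw [Ne, Ideal.span_singleton_eq_bot]; exact hb0)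
    ((Ideal.isCoprime_span_singleton_iff _ _).2 hbc)
  -- `ρ` is trivial on `D`
  have hρD : ∀ y ∈ D, ρ y = y := fun y hy =>
    (htriv ρ (sp b) (hlow ρ _ _ hle hρ)).2 ⟨b, hb1, rfl⟩ y (hD y hy)
  -- the composition
  have hIA2 := hcmp ρ σ _ _ hρ hIA
  have hτ2 : ExtC h τ (ρ.trans σ) := by
    intro y
    rw [RingEquiv.trans_apply, hρD y y.2]
    exact hτ y
  set x' : OO A B := Quotient.out (q.2 + Ideal.Quotient.mk (idl (A := A) (B := B) (lvX p f n)) β)
    with hx'
  have e1 : Ideal.Quotient.mk (idl (A := A) (B := B) (lvX p f n)) x' =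
      q.2 + Ideal.Quotient.mk (idl (A := A) (B := B) (lvX p f n)) β := Quotient.out_eq _
  have e2 : q.2 = Ideal.Quotient.mk (idl (A := A) (B := B) (lvX p f n)) (Quotient.out q.2) :=
    (Quotient.out_eq _).symm
  have e3 : x' - Quotient.out q.2 * b ∈ idl (A := A) (B := B) (lvX p f n) := by
    have h1 : Quotient.out q.2 * b - (Quotient.out q.2 + β) ∈
        idl (A := A) (B := B) (lvX p f n) := by
      refine Ideal.mem_span_singleton'.2 ⟨-(y₁ * β), ?_⟩
      rw [hb]
      linear_combination (-β) * hxy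
    have h2 : x' - (Quotient.out q.2 + β) ∈ idl (A := A) (B := B) (lvX p f n) := by
      apply Ideal.Quotient.eq.1
      rw [e1, map_add, ← e2]
    have h3 := Ideal.sub_mem _ h2 h1
    have h4 : x' - (Quotient.out q.2 + β) - (Quotient.out q.2 * b - (Quotient.out q.2 + β)) =
        x' - Quotient.out q.2 * b := by ring
    rwa [h4] at h3
  have e4 : IsCoprime (Quotient.out q.2 * b : OO A B) ((lvX p f n : ℕ) : OO A B) :=
    IsCoprime.mul_left hq1 hbc
  have e5 : IsCoprime x' ((lvX p f n : ℕ) : OO A B) := by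
    obtain ⟨y, hy⟩ := Ideal.mem_span_singleton'.1 e3
    have e6 : x' = Quotient.out q.2 * b + y * ((lvX p f n : ℕ) : OO A B) := by rw [hy]; ring
    rw [e6]
    exact e4.add_mul_right_left y
  have e7 : IsCoprime (sp x' * cjI (R.b q.1)) (idl (A := A) (B := B) (lvX p f n)) :=
    IsCoprime.mul_left ((Ideal.isCoprime_span_singleton_iff _ _).2 e5) hIA.cop.of_mul_left_right
  have e8 : RE (idl (lvX p f n)) (sp b * (sp (Quotient.out q.2 : OO A B) * cjI (R.b q.1)))
      (sp x' * cjI (R.b q.1)) := by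
    have e9 := XXF.re_swap hm2 (cjI (R.b q.1)) e4 e5 e3
    have e10 : sp (Quotient.out q.2 * b : OO A B) * cjI (R.b q.1) =
        sp b * (sp (Quotient.out q.2 : OO A B) * cjI (R.b q.1)) := by
      rw [← mul_assoc, Ideal.span_singleton_mul_span_singleton, mul_comm b]
    rwa [e10] at e9
  have hIA3 := hch _ _ _ hIA2 e7 e8
  exact ⟨e5, ρ.trans σ, hIA3.fix, hτ2, (hit _ hIA3.fix q.1 x' e5).2 hIA3⟩

end

end Pool.Agent.OBE
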