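import Pool.Agent.OB.StE

/-!
# OB, block E: points of order prime to `p` (TNC)
-/

set_option autoImplicit false

open Polynomial

namespace Pool.Agent.OBE

open _root_.MU3 _root_.Pool.Agent.MU3A _root_.Pool.Agent.MU3B _root_.Pool.Agent.MUX _root_.Pool.Agent.MUXU _root_.Pool.Agent.MUXE
open _root_.Pool.Agent.RI _root_.Pool.Agent.NS _root_.Pool.Agent.OB
open _root_.Pool.Agent.MUXV (GR InK tX)
open _root_.Pool.Agent.NSE (su ru WL IntP)

namespace TNC

private theorem v_int (V : ValuationSubring ℂ) (a : ℤ) : V.valuation (a : ℂ) ≤ 1 :=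
  (V.valuation_le_one_iff _).2 (intCast_mem V a)

/-- integers prime to `p` are units at `V` -/
theorem v_nat (V : ValuationSubring ℂ) {p : ℕ} (hp : p.Prime) (h3 : V.valuation (p : ℂ) < 1)
    (N : ℕ) (hN : ¬ p ∣ N) :
    V.valuation (N : ℂ) = 1 := by
  have hc : Nat.Coprime N p := ((Nat.Prime.coprime_iff_not_dvd hp).2 hN).symm
  obtain ⟨a, b, hab⟩ := Nat.isCoprime_iff_coprime.2 hc
  refine le_antisymm ?_ ?_
  · have := v_int V (N : ℤ)
    rwa [Int.cast_natCast] at this
  · by_contra hlt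
    have hlt' : V.valuation (N : ℂ) < 1 := not_le.1 hlt
    have e : (a : ℂ) * (N : ℂ) + (b : ℂ) * (p : ℂ) = 1 := by
      have := congrArg (fun t : ℤ => (t : ℂ)) hab
      push_cast at this
      exact this
    have h1 : V.valuation ((a : ℂ) * (N : ℂ)) < 1 := by
      rw [map_mul]
      exact lt_of_le_of_lt (mul_le_of_le_one_left' (v_int V a)) hlt'
    have h2 : V.valuation ((b : ℂ) * (p : ℂ)) < 1 := by
      rw [map_mul]
      exact lt_of_le_of_lt (mul_le_of_le_one_left' (v_int V b)) h3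
    have h4 := Valuation.map_add_lt V.valuation h1 h2
    rw [e, map_one] at h4
    exact lt_irrefl _ h4

end TNC

open TNC in
theorem tb_TNC (h : Sb_GRN) : Sb_TNC := by
  intro p V L u e lam hC hG
  obtain ⟨ξ, G⟩ := h p V L u e lam hC hG
  exact fun N hN => ⟨v_nat V hC.pp hC.vp N hN, fun z hz hK =>
    _root_.Pool.Agent.MUXV.mem_of_nat_mul G hK (v_nat V hC.pp hC.vp N hN) hz⟩

end Pool.Agent.OBE
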