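import Pool.Agent.OB.StE
import Pool.Agent.MUX.E_TRA
import Pool.Agent.MUX.E_TRB
import Pool.Agent.MUX.E_TP

/-!
# OB, block E: the points of exact order `P^(j+1)` (TPR) (helper94; model `NS/F_TPR.lean`)
-/

set_option autoImplicit false

open Polynomial

namespace Pool.Agent.OBE

open _root_.MU3 _root_.Pool.Agent.MU3A _root_.Pool.Agent.MU3B _root_.Pool.Agent.MUX _root_.Pool.Agent.MUXU _root_.Pool.Agent.MUXE
open _root_.Pool.Agent.RI _root_.Pool.Agent.NS _root_.Pool.Agent.OB
open _root_.Pool.Agent.MUXV (GR InK tX)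
open _root_.Pool.Agent.NSE (su ru WL IntP)

noncomputable section

namespace TPR

theorem one_lt_of {Γ : Type*} [LinearOrderedCommGroupWithZero Γ] {T π : Γ} {m : ℕ}
    (h : T ^ m * π = 1) (hπ : π < 1) : 1 < T := by
  by_contra hc
  have hc' : T ≤ 1 := not_lt.1 hc
  have h1 : T ^ m ≤ 1 := pow_le_one' hc' m
  have h2 : T ^ m * π ≤ 1 * π := mul_le_mul_left h1 π
  rw [h, one_mul] at h2
  exact absurd hπ (not_lt.2 h2)

theorem inv_pow_eq {Γ : Type*} [LinearOrderedCommGroupWithZero Γ] {T π : Γ} {m : ℕ}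
    (hT : T ≠ 0) (h : T⁻¹ ^ m = π) : T ^ m * π = 1 := by
  rw [← h, inv_pow]
  exact mul_inv_cancel₀ (pow_ne_zero _ hT)

theorem lt_one_of_pow {Γ : Type*} [LinearOrderedCommGroupWithZero Γ] {a b : Γ} {n : ℕ}
    (h : a ^ n = b) (hb : b < 1) : a < 1 := by
  by_contra hc
  have hc' : 1 ≤ a := not_lt.1 hc
  have h1 : 1 ≤ a ^ n := one_le_pow₀ hc'
  rw [h] at h1
  exact absurd hb (not_lt.2 h1)

end TPR

open TPR in
theorem tb_TPR (h2 : Sb_GRN) (h3 : Sb_TNC) (h5 : Sb_PIS) (h7 : Su_PFI) : Sb_TPR := by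
  intro p er A B P V al h j
  obtain ⟨φ, hφ⟩ := h.ring.hom
  have embn : ∀ n : ℕ, emb ((n : ℕ) : OO A B) = n := fun n => by rw [← hφ, map_natCast]
  have hcp : Cp p V := ⟨h.pp, h.p2, h.vp⟩
  have hp5 := h.p5
  have hq3 := h.n3
  have hp0 : (p : ℂ) ≠ 0 := by
    have := h.pp.ne_zero
    exact_mod_cast this
  have hπ1 : V.valuation (emb al) < 1 := lt_one_of_pow h.alv h.vp
  have hπ0 : V.valuation (emb al) ≠ 0 := by
    intro h0
    have h9 := h.alv
    rw [h0, zero_pow (by have := h.er1; omega)] at h9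
    exact (Valuation.ne_zero_iff _).2 hp0 h9.symm
  have hπ2 : V.valuation (emb al) ^ 2 < 1 := pow_lt_one₀ zero_le hπ1 two_ne_zero
  induction j with
  | zero =>
    intro L u e lam hL hg z hz hz0
    obtain ⟨tra1, -⟩ := te_TRA A B h.ring L hL
    have hzL : z ∉ L.lattice := fun h8 => hz0 fun x _ => tra1 x z h8
    obtain ⟨N, ν, hN, hQ⟩ := h.exq L hL
    obtain ⟨u', e', lam', hg'⟩ := h.good N hN
    rw [zero_add, pow_one] at hz
    obtain ⟨-, -, k3⟩ := h5 p er A B P V al h L N ν u e lam u' e' lam' hL hN hQ hg hg'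
    obtain ⟨k4, k5, k6⟩ := k3 z hz hzL
    exact ⟨k4, k5, by rw [pow_zero, mul_one]; exact k6⟩
  | succ j ih =>
    intro L u e lam hL hg z hz hz0
    obtain ⟨tra1, tra2, tra3, tra4, tra5, tra6, tra7, tra8, tra9⟩ := te_TRA A B h.ring L hL
    obtain ⟨N, ν, hN, hQ⟩ := h.exq L hL
    obtain ⟨u', e', lam', hg'⟩ := h.good N hN
    have hν : ν ≠ 0 := hQ.1
    have hTor : ∀ z, ν * z ∈ N.lattice ↔ Tor P L z := hQ.2
    have hIsg : Isg L N ν := fun w hw => (hTor w).2 (fun x _ => tra1 x w hw)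
    obtain ⟨ξ, G⟩ := h2 p V L u e lam hcp hg
    obtain ⟨hmu, ⟨R, hR, hcard⟩, hE⟩ :=
      h5 p er A B P V al h L N ν u e lam u' e' lam' hL hN hQ hg hg'
    have hu := hg.u0
    have hu' := hg'.u0
    have hp2 : ¬ p ∣ 2 := fun h8 => by
      have := Nat.le_of_dvd (by norm_num) h8
      omega
    -- the point of order 2
    have hw2 : ((2 : ℕ) : ℂ) * (L.ω₁ / 2) ∈ L.lattice := by
      convert L.ω₁_mem_lattice using 1; push_cast; ring
    have n1 := L.ω₁_div_two_notMem_lattice
    set w : ℂ := L.ω₁ / 2 with hw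
    have i1 : ¬ InK V L (xu L u e) w := fun hin =>
      n1 ((h3 p V L u e lam hcp hg 2 hp2).2 w hw2 hin)
    have m1 : ν * w ∉ N.lattice := by
      intro h8
      have h9 := (hTor w).1 h8 _ h.mem
      rw [embn] at h9
      apply n1
      obtain ⟨k, hk⟩ : ∃ k, p = 2 * k + 1 :=
        (h.pp.odd_of_ne_two h.p2)
      have h10 : ((k : ℕ) : ℂ) * (((2 : ℕ) : ℂ) * w) ∈ L.lattice := by
        have := nsmul_mem hw2 k
        rwa [nsmul_eq_mul] at this
      have h11 := sub_mem h9 h10
      convert h11 using 1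
      rw [hk]
      push_cast
      ring
    have i1' : ¬ InK V N (xu N u' e') (ν * w) := by
      intro hin
      refine m1 ((h3 p V N u' e' lam' hcp hg' 2 hp2).2 _ ?_ hin)
      have h8 := hIsg _ hw2
      rwa [show ν * (((2 : ℕ) : ℂ) * w) = ((2 : ℕ) : ℂ) * (ν * w) by ring] at h8
    -- the point `z' = ν z`
    have hz1 : Tor (P ^ (j + 1)) N (ν * z) := by
      intro x hx
      have h8 : Tor P L (emb x * z) := by
        apply tra6 (P ^ (j + 1)) P x z hx
        rw [← pow_succ]
        exact hz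
      have h9 := (hTor _).2 h8
      rwa [show ν * (emb x * z) = emb x * (ν * z) by ring] at h9
    have hz2 : ¬ Tor (P ^ j) N (ν * z) := by
      intro h8
      apply hz0
      rw [pow_succ]
      apply tra7
      intro x hx
      have h9 := h8 x hx
      rw [show emb x * (ν * z) = ν * (emb x * z) by ring] at h9
      exact (hTor _).1 h9
    obtain ⟨y1, y2, y3⟩ := ih N u' e' lam' hN hg' (ν * z) hz1 hz2
    have hzN : ν * z ∉ N.lattice := by
      intro h8
      apply hz2
      obtain ⟨trb1, -⟩ := te_TRA A B h.ring N hN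
      exact fun x _ => trb1 x _ h8
    -- the representatives
    have torR : ∀ q ∈ R, Tor P L q := fun q hq => (hTor q).1 (hR.mem q hq)
    have hRk : ∀ q ∈ R, InK V L (xu L u e) q ∧ xu L u e q ≠ 0 ∧
        V.valuation (xu L u e q) ^ (nI P - 1) * V.valuation (emb al) ^ 2 = 1 := by
      intro q hq
      obtain ⟨k1, k2, k3⟩ := hE q (torR q hq) (hR.ne q hq)
      refine ⟨k1, k2, ?_⟩
      unfold su at k3
      rw [map_inv₀] at k3
      exact inv_pow_eq ((Valuation.ne_zero_iff _).2 k2) k3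
    have hRc : R.card = nI P - 1 := by omega
    obtain ⟨q0, hq0R⟩ : ∃ q, q ∈ R := by
      have : 0 < R.card := by omega
      exact Finset.card_pos.1 this
    have hRT : ∀ q ∈ R, V.valuation (xu L u e q) = V.valuation (xu L u e q0) := by
      intro q hq
      have h8 : V.valuation (xu L u e q) ^ (nI P - 1) * V.valuation (emb al) ^ 2 =
          V.valuation (xu L u e q0) ^ (nI P - 1) * V.valuation (emb al) ^ 2 := by
        rw [(hRk q hq).2.2, (hRk q0 hq0R).2.2]
      exact (pow_left_inj₀ zero_le zero_le (by omega)).1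
        (mul_right_cancel₀ (pow_ne_zero 2 hπ0) h8)
    -- the product formula
    have pf := h7 L N ν R hν hIsg hR w m1 z hzN
    have xd : ∀ a b : ℂ, L.weierstrassP a - L.weierstrassP b =
        u ^ 2 * (xu L u e a - xu L u e b) := by
      intro a b
      unfold xu
      field_simp
      ring
    have xd' : ∀ a b : ℂ, N.weierstrassP a - N.weierstrassP b =
        u' ^ 2 * (xu N u' e' a - xu N u' e' b) := by
      intro a b
      unfold xu
      field_simp
      ring
    have pf' : (ν * u' / u) ^ 2 * (xu N u' e' (ν * z) - xu N u' e' (ν * w)) *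
        ∏ q ∈ R, (xu L u e z - xu L u e q) =
        (xu L u e z - xu L u e w) * ∏ q ∈ R, (xu L u e z - xu L u e (w + q)) := by
      simp only [xd, xd', Finset.prod_mul_distrib, Finset.prod_const] at pf
      have hu2 : u ^ 2 * (u ^ 2) ^ R.card ≠ 0 := by positivity
      apply mul_left_cancel₀ hu2
      have e1 : u ^ 2 * (ν * u' / u) ^ 2 = ν ^ 2 * u' ^ 2 := by
        field_simp
      linear_combination pf + ((u ^ 2) ^ R.card *
        (xu N u' e' (ν * z) - xu N u' e' (ν * w)) * ∏ q ∈ R, (xu L u e z - xu L u e q)) * e1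
    have hy0 : V.valuation (xu N u' e' (ν * z)) ≠ 0 := (Valuation.ne_zero_iff _).2 y2
    have hyk : V.valuation (xu N u' e' (ν * z)) ^ ((nI P - 1) * nI P ^ j) *
        V.valuation (emb al) ^ 2 = 1 := by
      unfold su at y3
      rw [map_inv₀] at y3
      exact inv_pow_eq hy0 y3
    obtain ⟨X1, X2⟩ := TP.num V.valuation (nI P) (nI P ^ j) (by omega)
      (pow_ne_zero _ (by omega)) R hRc
      (ν * u' / u) (xu N u' e' (ν * z)) (xu N u' e' (ν * w)) (xu L u e z) (xu L u e w)
      (fun q => xu L u e q) (fun q => xu L u e (w + q)) (V.valuation (xu L u e q0))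
      (V.valuation (emb al)) hπ0 hπ1 hmu
      (by rw [mul_comm]; exact (hRk q0 hq0R).2.2)
      (one_lt_of (hRk q0 hq0R).2.2 hπ2) hRT
      (fun q hqR => (Pool.Agent.MUXV.int_X (fun hin => i1 (by
        have := Pool.Agent.MUXV.inK_sub G hin (hRk q hqR).1
        rwa [add_sub_cancel_right] at this))).2)
      (Pool.Agent.MUXV.int_X i1).2 (Pool.Agent.MUXV.int_X i1').2
      (one_lt_of hyk hπ2) (by rw [mul_comm]; exact hyk) pf'
    have hx0 : xu L u e z ≠ 0 := by
      intro h0
      rw [h0, map_zero] at X1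
      exact absurd X1 (not_lt.2 zero_le)
    refine ⟨Or.inr fun hin => ?_, hx0, ?_⟩
    · exact absurd X1 (not_lt.2 ((V.valuation_le_one_iff _).2 hin))
    · calc V.valuation (su L u e z) ^ ((nI P - 1) * nI P ^ (j + 1))
          = (V.valuation (su L u e z) ^ nI P) ^ ((nI P - 1) * nI P ^ j) := by
            rw [← pow_mul]
            congr 1
            ring
        _ = V.valuation (su N u' e' (ν * z)) ^ ((nI P - 1) * nI P ^ j) := by
            unfold su
            rw [map_inv₀, map_inv₀, inv_pow, X2]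
        _ = V.valuation (emb al) ^ 2 := y3

end

end Pool.Agent.OBE
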