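import Pool.Agent.OB.StE
import Pool.Agent.NS.RN_RAM
import Pool.Agent.NS.E_UNR

/-!
# OB, block E, module UNR: `RF m'` is unramified at `V` if `m'` is not contained in `P`
-/

set_option autoImplicit false

open Polynomial

namespace Pool.Agent.OBE

open _root_.MU3 _root_.Pool.Agent.MU3A _root_.Pool.Agent.MU3B _root_.Pool.Agent.MUX _root_.Pool.Agent.MUXU _root_.Pool.Agent.MUXE
open _root_.Pool.Agent.RI _root_.Pool.Agent.NS _root_.Pool.Agent.OB

noncomputable section

/-- UNR. -/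
theorem tb_UNR : Sb_UNR := by
  intro p er A B P V al hC hT m' hm hmP
  have := hT.fin _ hm
  have := hT.gal _ hm
  refine Pool.Agent.NSR.tr_RAM A B V P al hC.cq hC.max.isPrime hC.ne hC.hV hC.alP hC.al2
    (RF m') ?_
  intro σ hσ
  obtain ⟨s, hs, hsv⟩ := Pool.Agent.NSE.UNR.extn hT hm σ
  have h1 : ∀ y ∈ (RF m' : IntermediateField (kk A B) ℂ), y ∈ V →
      s y - y ∈ V.nonunits := by
    intro y hy hyV
    have h2 := hσ ⟨y, hy⟩ ((V.valuation_le_one_iff y).2 hyV)
    rw [ValuationSubring.mem_nonunits_iff, hsv ⟨y, hy⟩]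
    exact h2
  have h2 := hC.iner m' hm hmP s hs h1
  apply AlgEquiv.ext
  intro y
  apply Subtype.ext
  rw [← hsv]
  exact h2 y y.2

end

end Pool.Agent.OBE
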