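import Pool.Agent.OB.StE

/-!
# OB, block E, module UNT (helper69): the multiplier is a unit if and only if no point of the kernel is in the kernel of reduction
-/

set_option autoImplicit false

open Polynomial

namespace Pool.Agent.OBE

open _root_.MU3 _root_.Pool.Agent.MU3A _root_.Pool.Agent.MU3B _root_.Pool.Agent.MUX _root_.Pool.Agent.MUXU _root_.Pool.Agent.MUXE
open _root_.Pool.Agent.RI _root_.Pool.Agent.NS _root_.Pool.Agent.OB
open _root_.Pool.Agent.MUXV (GR InK tX)
open _root_.Pool.Agent.NSE (su ru WL IntP)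

noncomputable section

theorem tb_UNT (h1 : Sb_GEN) (h2 : Sb_TNC) : Sb_UNT := by
  intro p V L M u e lam u' e' lam' μ hp hL hM hμ hI
  obtain ⟨⟨R, hR⟩, -⟩ := u_BAC.2 L M μ hμ hI
  have hG := h1 p V L M u e lam u' e' lam' μ hp hL hM hμ hI R hR
  have tL := h2 p V L u e lam hp hL
  refine ⟨⟨fun hK => ?_, fun hv => ?_⟩, fun N hN hz z hz1 hin => (tL N hN).2 z (hz z hz1) hin⟩
  · have h3 : ∏ q ∈ R, max 1 (V.valuation (xu L u e q)) = 1 := by
      refine Finset.prod_eq_one fun q hq => ?_
      have h4 : ¬ InK V L (xu L u e) q := fun h => hR.ne q hq (hK q (hR.mem q hq) h)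
      exact max_eq_left (Pool.Agent.MUXV.int_X h4).2
    rw [h3, mul_one] at hG
    rcases lt_trichotomy (V.valuation (μ * u' / u)) 1 with h | h | h
    · exact absurd hG (pow_lt_one₀ zero_le h two_ne_zero).ne
    · exact h
    · exact absurd hG (one_lt_pow₀ h two_ne_zero).ne'
  · rw [hv, one_pow, one_mul] at hG
    have h3 : ∀ q ∈ R, max 1 (V.valuation (xu L u e q)) = 1 :=
      (Finset.prod_eq_one_iff_of_one_le' fun q _ => le_max_left _ _).1 hG
    intro z hz hin
    by_contra hzL
    obtain ⟨q, hq, hzq⟩ := hR.surj z hz hzL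
    have h4 : V.valuation (xu L u e q) ≤ 1 := (le_max_right _ _).trans (h3 q hq).le
    have h5 : xu L u e z = xu L u e q := by
      unfold xu
      have h6 := L.weierstrassP_add_coe q ⟨z - q, hzq⟩
      simp only [add_sub_cancel] at h6
      rw [h6]
    rcases hin with h | h
    · exact hzL h
    · rw [h5] at h
      exact h ((ValuationSubring.valuation_le_one_iff _ _).1 h4)

end

end Pool.Agent.OBE
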