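import Pool.Agent.OB.E_ADD
import Pool.Agent.OB.E_ALG
import Pool.Agent.OB.E_CAL
import Pool.Agent.OB.E_CFA
import Pool.Agent.OB.E_COE
import Pool.Agent.OB.E_CTX
import Pool.Agent.OB.E_DEG
import Pool.Agent.OB.E_DSM
import Pool.Agent.OB.E_EXO
import Pool.Agent.OB.E_FIN
import Pool.Agent.OB.E_FN1
import Pool.Agent.OB.E_FN2
import Pool.Agent.OB.E_GEN
import Pool.Agent.OB.E_GRN
import Pool.Agent.OB.E_IDL
import Pool.Agent.OB.E_INN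
import Pool.Agent.OB.E_ISO
import Pool.Agent.OB.E_KIS
import Pool.Agent.OB.E_LEG
import Pool.Agent.OB.E_MAIN
import Pool.Agent.OB.E_MUL
import Pool.Agent.OB.E_NE1
import Pool.Agent.OB.E_ONE
import Pool.Agent.OB.E_PIS
import Pool.Agent.OB.E_PRO
import Pool.Agent.OB.E_PTS
import Pool.Agent.OB.E_PUL
import Pool.Agent.OB.E_PVL
import Pool.Agent.OB.E_RAT
import Pool.Agent.OB.E_SIG
import Pool.Agent.OB.E_STB
import Pool.Agent.OB.E_THN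
import Pool.Agent.OB.E_TNC
import Pool.Agent.OB.E_TPR
import Pool.Agent.OB.E_UNI
import Pool.Agent.OB.E_UNR
import Pool.Agent.OB.E_UNT
import Pool.Agent.MUX.UAll
import Pool.Agent.MUX.I_IAF
import Pool.Agent.MUX.I_IAG
import Pool.Agent.MUX.I_RPR
import Pool.Agent.MUX.I_HIT
import Pool.Agent.MUX.ZY

/-!
# OB, block E: assembly (helper96)
-/

set_option autoImplicit false

namespace Pool.Agent.OBE

open Pool.Agent.OB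

theorem e_ALG : Sb_ALG := tb_ALG
theorem e_COE : Sb_COE := tb_COE
theorem e_LEG : Sb_LEG := tb_LEG
theorem e_DEG : Sb_DEG := tb_DEG
theorem e_DSM : Sb_DSM := tb_DSM
theorem e_EXO : Sb_EXO := tb_EXO
theorem e_IDL : Sb_IDL := tb_IDL
theorem e_MUL : Sb_MUL := tb_MUL
theorem e_UNR : Sb_UNR := tb_UNR
theorem e_PRO : Sb_PRO := tb_PRO e_ALG
theorem e_PUL : Sb_PUL := tb_PUL e_ALG e_PRO
theorem e_GRN : Sb_GRN := tb_GRN e_COE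
theorem e_TNC : Sb_TNC := tb_TNC e_GRN
theorem e_GEN : Sb_GEN := tb_GEN e_GRN e_TNC
theorem e_UNT : Sb_UNT := tb_UNT e_GEN e_TNC
theorem e_NE1 : Sb_NE1 := tb_NE1 e_TNC e_GRN
theorem e_RAT : Sb_RAT := tb_RAT e_COE e_GRN e_TNC e_UNT
theorem e_KIS : Sb_KIS := tb_KIS e_RAT e_UNT
theorem e_PVL : Sb_PVL := tb_PVL e_UNT e_KIS e_GRN
theorem e_PIS : Sb_PIS := tb_PIS e_GEN e_UNT e_PVL Pool.Agent.MUXU.u_BAC
theorem e_TPR : Sb_TPR := tb_TPR e_GRN e_TNC e_PIS Pool.Agent.MUXU.u_PFI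
theorem e_PTS : Sb_PTS := tb_PTS e_COE e_GEN e_PVL e_TPR
theorem e_ADD : Sb_ADD := tb_ADD e_ALG e_COE e_GRN e_PTS
theorem e_ISO : Sb_ISO := tb_ISO e_ALG e_PRO e_PTS e_UNT e_RAT
theorem e_THN : Sb_THN := tb_THN e_ALG e_PRO e_PUL e_GRN e_ISO e_ADD e_PTS
theorem e_UNI : Sb_UNI := tb_UNI e_GRN e_LEG e_PVL e_TPR e_UNR e_DEG
theorem e_SIG : Sb_SIG := tb_SIG e_ALG e_PRO e_PTS e_ADD e_UNI
theorem e_ONE : Sb_ONE :=
  tb_ONE e_ALG e_PRO e_LEG e_PTS e_THN e_IDL e_UNR e_SIG e_NE1 e_EXO e_MUL e_UNT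
theorem e_MAIN : Sb_MAIN := tb_MAIN e_ONE
theorem e_INN : Sb_INN := tb_INN e_THN e_NE1 e_EXO e_MUL e_UNT e_PIS e_DSM
theorem e_FN1 : Sb_FN1 := tb_FN1 e_MAIN e_INN
theorem e_IAF : Pool.Agent.MUXI.Si_IAF := Pool.Agent.MUXI.ti_IAF Pool.Agent.MUXU.u_DET
theorem e_HIT : Pool.Agent.MUXI.Si_HIT :=
  Pool.Agent.MUXI.ti_HIT e_IAF (Pool.Agent.MUXI.ti_IAG e_IAF)
    (Pool.Agent.MUXI.ti_RPR Pool.Agent.MUXF.xf_ALG Pool.Agent.MUXF.xf_IDL Pool.Agent.MUXF.xf_NIM)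
    Pool.Agent.MUXY.z_MUI Pool.Agent.MUXY.z_UNJ Pool.Agent.MUXF.xf_ALG
theorem e_STB : Sb_STB := tb_STB e_HIT e_IAF
theorem e_FN2 : Sb_FN2 := tb_FN2 e_MAIN e_INN e_STB e_EXO e_IDL
theorem e_CFA : Sb_CFA := tb_CFA
theorem e_CAL : Sb_CAL := tb_CAL e_CFA
theorem e_CTX : Sb_CTX := tb_CTX e_CFA e_CAL

/-- block E -/
theorem o_EFIN : O_RFIN → O_EFIN := tb_FIN e_CTX e_FN1 e_FN2

end Pool.Agent.OBE
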