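import Pool.Agent.OB.StE

/-!
# OB, block E, module ADD: addition of a point of `SP` (helper54; model: helper42's `NS/F_ADD.lean`)
-/

set_option autoImplicit false

open Polynomial

namespace Pool.Agent.OBE

open _root_.MU3 _root_.Pool.Agent.MU3A _root_.Pool.Agent.MU3B _root_.Pool.Agent.MUX _root_.Pool.Agent.MUXU _root_.Pool.Agent.MUXE
open _root_.Pool.Agent.RI _root_.Pool.Agent.NS _root_.Pool.Agent.OB
open _root_.Pool.Agent.MUXV (GR InK tX)
open _root_.Pool.Agent.NSE (su ru WL IntP)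

noncomputable section

namespace ADD

lemma intP_quad {V : ValuationSubring ℂ} {a b c : ℂ} (ha : V.valuation a ≤ 1)
    (hb : V.valuation b ≤ 1) (hc : V.valuation c ≤ 1) : IntP V (C a + C b * X + C c * X ^ 2) := by
  intro i
  rcases i with _ | _ | _ | i
  · simpa using ha
  · simpa [coeff_X, coeff_C] using hb
  · simpa [coeff_X, coeff_C] using hc
  · simp

/-- a function `A(s) + r c` with `A` of degree at most two -/
lemma rep_quad {p : ℕ} {V : ValuationSubring ℂ} {S : Set ℂ} {s r F : ℂ → ℂ} {a b c d : ℂ}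
    (ha : V.valuation a ≤ 1) (hb : V.valuation b ≤ 1) (hc : V.valuation c ≤ 1)
    (hd : V.valuation d ≤ 1)
    (hF : ∀ Y ∈ S, F Y = a + b * s Y + c * s Y ^ 2 + r Y * d) : RepO p V S s r F a d := by
  refine ⟨C a + C b * X + C c * X ^ 2, C d, intP_quad ha hb hc, ?_, ?_, ?_, ?_⟩
  · intro i
    rw [coeff_C]
    split_ifs
    · exact hd
    · simp
  · intro Y hY
    rw [hF Y hY]
    simp
  · simp
  · simp

end ADD

open ADD

/-- the module ADD -/
theorem tb_ADD (h1 : Sb_ALG) (h2 : Sb_COE) (h3 : Sb_GRN) (h5 : Sb_PTS) : Sb_ADD := by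
  intro p er A B P V al hC L u e lam hNL hG z hz
  obtain ⟨ξ, G⟩ := h3 p V L u e lam hC.toCp hG
  obtain ⟨c1, -, -, c2, c3, c4, -, -⟩ := h2 p V L u e lam hC.toCp hG
  obtain ⟨hP, hInK, -⟩ := h5 p er A B P V al hC L u e lam hNL hG
  obtain ⟨-, -, -, a4, -, a6, a7, -, -⟩ := h1 p V (SP P er L) (su L u e) (ru L u e) _ _ hP
  obtain ⟨hzL, hx⟩ := Pool.Agent.MUXV.int_X hz
  have hy := Pool.Agent.MUXV.int_Y G hz
  have hu := hG.u0
  have hl : V.valuation lam ≤ 1 := hG.vl.le
  have ha2 : V.valuation (-(1 + lam)) ≤ 1 := by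
    rw [Valuation.map_neg]
    exact c3
  set x := xu L u e z with hxdef
  set y := yu L u z with hydef
  have h2x : V.valuation (2 * (-(1 + lam)) * x) ≤ 1 := by
    rw [map_mul, map_mul, c2, one_mul]
    exact mul_le_one' ha2 hx
  have hxx : V.valuation (x ^ 2) ≤ 1 := by
    rw [map_pow]
    exact pow_le_one₀ zero_le hx
  -- numerator and denominator
  have hN : RepO p V (SP P er L) (su L u e) (ru L u e)
      (fun Y => x + (x ^ 2 + lam + 2 * (-(1 + lam)) * x) * su L u e Y + (lam * x) * su L u e Y ^ 2 +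
        ru L u e Y * (2 * y)) x (2 * y) := by
    refine rep_quad hx ?_ ?_ ?_ fun Y _ => rfl
    · exact V.valuation.map_add_le (V.valuation.map_add_le hxx hl) h2x
    · rw [map_mul]
      exact mul_le_one' hl hx
    · rw [map_mul, c2, one_mul]
      exact hy
  have hD : RepO p V (SP P er L) (su L u e) (ru L u e) (fun Y => (1 - su L u e Y * x) ^ 2) 1 0 := by
    refine rep_quad (b := -(2 * x)) (c := x ^ 2) (by simp) ?_ hxx (by simp) fun Y _ => ?_
    · rw [Valuation.map_neg, map_mul, c2, one_mul]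
      exact hx
    · ring
  obtain ⟨d1, d2⟩ := a7 _ _ _ hD (by simp)
  have hM := a6 _ _ _ _ _ _ hN d2
  refine a4 _ _ _ _ _ _ hM ?_ (by simp) (by simp)
  intro Y hY
  obtain ⟨t1, t2⟩ := hInK Y hY
  have hYL : Y ∉ L.lattice := hY.2
  have hzp : z + Y ∉ L.lattice := fun h => hz (by
    have := Pool.Agent.MUXV.inK_sub G (Pool.Agent.MUXV.inK_of_mem h) t1
    rwa [add_sub_cancel_right] at this)
  have hzm : z - Y ∉ L.lattice := fun h => hz (by
    have := Pool.Agent.MUXV.inK_add G (Pool.Agent.MUXV.inK_of_mem h) t1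
    rwa [sub_add_cancel] at this)
  have hadd := (b_ADD L Y z hYL hzL hzp hzm).1
  have hxY : xu L u e Y ∉ V := t1.resolve_left hYL
  have hne : x - xu L u e Y ≠ 0 := by
    intro h
    apply hxY
    rw [← sub_eq_zero.1 h]
    exact (ValuationSubring.valuation_le_one_iff _ _).1 hx
  have e1 : ∀ w, L.weierstrassP w = u ^ 2 * xu L u e w + e := by
    intro w
    unfold xu
    field_simp
    ring
  have e2 : ∀ w, L.derivWeierstrassP w = 2 * u ^ 3 * yu L u w := by
    intro w
    unfold yu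
    field_simp
  rw [e1 (z + Y), e1 z, e1 Y, e2 z, e2 Y, ← hxdef, ← hydef] at hadd
  have k1 := c4 z hzL
  have k2 := c4 Y hYL
  rw [← hxdef, ← hydef] at k1
  have hD1 : (1 - su L u e Y * x) ^ 2 ≠ 0 := by
    intro h
    have := d1 Y hY
    simp only [h, map_zero] at this
    exact zero_ne_one this
  show xu L u e (z + Y) = _ * ((1 - su L u e Y * x) ^ 2)⁻¹
  rw [eq_mul_inv_iff_mul_eq₀ hD1]
  unfold su ru
  set X' := xu L u e Y with hX'
  set Y' := yu L u Y with hY'
  set W := xu L u e (z + Y) with hW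
  have hm : (2 * u ^ 3 * y - 2 * u ^ 3 * Y') / (2 * (u ^ 2 * x + e - (u ^ 2 * X' + e))) =
      u * ((y - Y') / (x - X')) := by
    have : u ^ 2 * x + e - (u ^ 2 * X' + e) = u ^ 2 * (x - X') := by ring
    rw [this]
    field_simp
  rw [hm] at hadd
  have k3 : (W + x + X' - (1 + lam)) * (x - X') ^ 2 = (y - Y') ^ 2 := by
    have h6 : u ^ 2 * ((W + x + X' - (1 + lam)) * (x - X') ^ 2) = u ^ 2 * (y - Y') ^ 2 := by
      have h7 : u ^ 2 * (W + x + X' - (1 + lam)) = (u * ((y - Y') / (x - X'))) ^ 2 := by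
        linear_combination hadd - c1
      calc u ^ 2 * ((W + x + X' - (1 + lam)) * (x - X') ^ 2)
          = (u ^ 2 * (W + x + X' - (1 + lam))) * (x - X') ^ 2 := by ring
        _ = (u * ((y - Y') / (x - X'))) ^ 2 * (x - X') ^ 2 := by rw [h7]
        _ = u ^ 2 * (y - Y') ^ 2 := by field_simp
    exact mul_left_cancel₀ (pow_ne_zero 2 hu) h6
  field_simp
  linear_combination k3 + k1 + k2

end

end Pool.Agent.OBE
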