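import Pool.Agent.OB.FDefs

/-!
# Definitions for the One Branch theorem, part 2

All fields are subfields of `ℂ`.
-/

set_option autoImplicit false

open NumberField

namespace Pool.Agent.MuCyc

/-- `k` is an imaginary quadratic field, not `ℚ(i)`, `ℚ(√-3)`. -/
structure ImQuad (k : IntermediateField ℚ ℂ) : Prop where
  deg : Module.finrank ℚ k = 2
  imag : ∃ z ∈ k, (starRingEnd ℂ) z ≠ z
  no_i : ∀ z ∈ k, z ^ 2 ≠ -1
  no_w : ∀ z ∈ k, z ^ 2 ≠ -3

/-- `K / k` is a finite abelian extension of degree prime to `p`. -/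
structure Abelian (p : ℕ) {k K : IntermediateField ℚ ℂ} (h : k ≤ K) : Prop where
  fin : FiniteDimensional ℚ K
  gal : IsGalois k (IntermediateField.extendScalars h)
  comm : ∀ σ τ : Gal h, σ * τ = τ * σ
  prime_to : ¬ p ∣ Module.finrank k (IntermediateField.extendScalars h)

/-- `K` is stable under the complex conjugation `c`, and `c` inverts `Gal(K/k)`: `c⁻¹ s c = s⁻¹` for all `s`. -/
def ConjInverts {k K : IntermediateField ℚ ℂ} (h : k ≤ K) : Prop :=
  (∀ z ∈ K, (starRingEnd ℂ) z ∈ K) ∧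
  ∀ s s' : Gal h, (∀ x y : IntermediateField.extendScalars h, (y : ℂ) = (starRingEnd ℂ) x →
    ((s y : IntermediateField.extendScalars h) : ℂ) =
      (starRingEnd ℂ) (s' x : IntermediateField.extendScalars h)) → s' = s⁻¹

/-- `v_p (h (K ℚ_n)) ≤ v_p (h (K' ℚ_n)) + C (n + 1) ^ 2` for all `n`, with a constant `C`; `h` is the
class number, `ℚ_n` the `n`-th layer of the cyclotomic `ℤ_p`-extension of `ℚ`. (So `μ = 0` for `K` if
`μ = 0` for `K'`.) -/
def MuLE (p : ℕ) (K K' : IntermediateField ℚ ℂ) : Prop :=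
  ∃ C : ℕ, ∀ (n : ℕ) (Q : IntermediateField ℚ ℂ), IsLayer p n Q →
    padicValNat p (classNo (K ⊔ Q)) ≤ padicValNat p (classNo (K' ⊔ Q)) + C * (n + 1) ^ 2

/-- `μ = 0` for the cyclotomic `ℤ_p`-extension of `K`, in three forms: a polynomial bound for the
`p`-parts of the class numbers of the layers; `μ = 0` in Iwasawa's growth formula; the cyclotomic
`ℤ_p`-extension of `K` has only finitely many Galois extensions of degree `p` which are unramified at all
finite primes. -/
def MuZeroF (p : ℕ) (K : IntermediateField ℚ ℂ) : Prop :=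
  (∃ C : ℕ, ∀ (n : ℕ) (Q : IntermediateField ℚ ℂ), IsLayer p n Q →
      padicValNat p (classNo (K ⊔ Q)) ≤ C * (n + 1) ^ C) ∧
  (∀ μ lam nu : ℝ, (∃ n₀ : ℕ, ∀ n ≥ n₀, ∀ Q : IntermediateField ℚ ℂ, IsLayer p n Q →
      (padicValNat p (classNo (K ⊔ Q)) : ℝ) = μ * (p : ℝ) ^ n + lam * n + nu) → μ = 0) ∧
  (unramifiedExt p (cycExt p K)).Finite

end Pool.Agent.MuCyc
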