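import Pool.Agent.OB.F_TWO

/-!
# OB, FINAL (helper60): complex conjugation; `p = 5`
-/

set_option autoImplicit false

open NumberField IsDedekindDomain Finset
open scoped nonZeroDivisors Pointwise

namespace Pool.Agent.OBF

open _root_.Pool.Agent.RI _root_.Pool.Agent.RID _root_.Pool.Agent.MU3 _root_.Pool.Agent.MUXK
  _root_.Pool.Agent.MUXZ _root_.Pool.Agent.NSI _root_.Pool.Agent.OB

open CHIx OB.CNJ

namespace CNJx

lemma mulEquiv_comp {L : Type} [Field L] [NumberField L] (τ₁ τ₂ : L ≃+* L)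
    (a : ClassGroup (𝓞 L)) :
    ClassGroup.mulEquiv (RingOfIntegers.mapRingEquiv τ₁)
      (ClassGroup.mulEquiv (RingOfIntegers.mapRingEquiv τ₂) a) =
      ClassGroup.mulEquiv (RingOfIntegers.mapRingEquiv (τ₂.trans τ₁)) a := by
  refine ClassGroup.induction (R := 𝓞 L) L (P := fun a =>
    ClassGroup.mulEquiv (RingOfIntegers.mapRingEquiv τ₁)
      (ClassGroup.mulEquiv (RingOfIntegers.mapRingEquiv τ₂) a) =
      ClassGroup.mulEquiv (RingOfIntegers.mapRingEquiv (τ₂.trans τ₁)) a) (fun x => ?_) a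
  rw [mulEquiv_mk, mulEquiv_mk, mulEquiv_mk, actU_comp]

/-- complex conjugation -/
noncomputable def cc : ℂ ≃+* ℂ := (Complex.conjAe : ℂ ≃ₐ[ℝ] ℂ).toRingEquiv

lemma cc_apply (z : ℂ) : cc z = (starRingEnd ℂ) z := rfl

lemma cc_cc (z : ℂ) : cc (cc z) = z := Complex.conj_conj z

lemma quad_stable (k : IntermediateField ℚ ℂ) (h2 : Module.finrank ℚ k = 2) :
    ∀ x, x ∈ k ↔ cc x ∈ k := by
  have : FiniteDimensional ℚ k := Module.finite_of_finrank_pos (by rw [h2]; norm_num)
  have : Algebra.IsQuadraticExtension ℚ k := ⟨h2⟩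
  have hn : @Normal ℚ k _ _ (IntermediateField.algebra' k) := by
    have h3 : Normal ℚ k := Algebra.IsQuadraticExtension.normal ℚ k
    convert h3
    exact Subsingleton.elim _ _
  let c : ℂ →ₐ[ℚ] ℂ := (Complex.conjAe.toAlgHom).restrictScalars ℚ
  have h1 : ∀ x ∈ k, cc x ∈ k := by
    intro x hx
    have h3 : (c.comp k.val).fieldRange = k := @AlgHom.fieldRange_of_normal ℚ ℂ _ _ _ k hn _
    rw [← h3]
    exact ⟨⟨x, hx⟩, rfl⟩
  intro x
  exact ⟨h1 x, fun hx => by simpa [cc_cc] using h1 _ hx⟩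

end CNJx

open CNJx

/-- The complex conjugate of a good character is good. -/
theorem conj_mu (p : ℕ) [Fact p.Prime] {k K : IntermediateField ℚ ℂ} [FiniteDimensional ℚ K]
    (h : k ≤ K) (h2 : Module.finrank ℚ k = 2) (hK : ∀ z ∈ K, (starRingEnd ℂ) z ∈ K)
    (χ χ' : MuCyc.Chr p h) (hχ : MuCyc.IsConj p h χ χ') (hm : MuCyc.MuZeroC p h χ) :
    MuCyc.MuZeroC p h χ' := by
  obtain ⟨C, hC⟩ := hm
  refine ⟨C, fun n Q hQ => le_trans ?_ (hC n Q hQ)⟩
  have hpp : p.Prime := Fact.out
  have hfQ : FiniteDimensional ℚ Q :=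
    Module.finite_of_finrank_pos (by rw [hQ.1]; exact pow_pos hpp.pos n)
  have hfL : FiniteDimensional ℚ ↥(K ⊔ Q) := IntermediateField.finiteDimensional_sup K Q
  have hKc : ∀ x, x ∈ K ↔ cc x ∈ K := fun x =>
    ⟨hK x, fun hx => by simpa [← cc_apply, cc_cc] using hK _ hx⟩
  have hQc : ∀ x, x ∈ Q ↔ cc x ∈ Q := by
    intro x
    constructor
    · intro hx
      rw [cc_apply, hQ.2.1 x hx]
      exact hx
    · intro hx
      have h5 := hQ.2.1 _ hx
      rw [← cc_apply, cc_cc] at h5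
      rw [h5]
      exact hx
  obtain ⟨κ, hκ⟩ := restr_ring cc (K ⊔ Q) (sup_iff cc K Q hKc hQc)
  have hκκ : ∀ x, κ (κ x) = x := by
    intro x
    apply Subtype.ext
    rw [hκ, hκ, cc_cc]
  let φ : (ClassGroup (𝓞 ↥(K ⊔ Q)) → AlgebraicClosure (ZMod p)) →ₗ[AlgebraicClosure (ZMod p)]
      (ClassGroup (𝓞 ↥(K ⊔ Q)) → AlgebraicClosure (ZMod p)) :=
    LinearMap.funLeft _ _ (fun a => ClassGroup.mulEquiv (RingOfIntegers.mapRingEquiv κ) a)
  have hinj : Function.Injective φ := by
    apply LinearMap.funLeft_injective_of_surjective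
    exact (ClassGroup.mulEquiv (RingOfIntegers.mapRingEquiv κ)).surjective
  have hmap : (MuCyc.chiPart p h χ' Q).map φ ≤ MuCyc.chiPart p h χ Q := by
    rintro _ ⟨f, ⟨h3, h4⟩, rfl⟩
    refine ⟨fun a b => ?_, fun τ s hτ hs a => ?_⟩
    · show f (ClassGroup.mulEquiv _ (a * b)) = f (ClassGroup.mulEquiv _ a) +
        f (ClassGroup.mulEquiv _ b)
      rw [map_mul, h3]
    · show f (ClassGroup.mulEquiv (RingOfIntegers.mapRingEquiv κ)
        (ClassGroup.mulEquiv (RingOfIntegers.mapRingEquiv τ) a)) =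
        (χ s : AlgebraicClosure (ZMod p)) *
          f (ClassGroup.mulEquiv (RingOfIntegers.mapRingEquiv κ) a)
      -- the conjugate of `s`
      obtain ⟨κK, hκK⟩ := restr_ring cc K hKc
      let eS : IntermediateField.extendScalars h ≃+* IntermediateField.extendScalars h :=
        { toFun := fun x => ⟨cc x, (hKc _).1 x.2⟩
          invFun := fun x => ⟨cc x, (hKc _).1 x.2⟩
          left_inv := fun x => Subtype.ext (cc_cc _)
          right_inv := fun x => Subtype.ext (cc_cc _)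
          map_mul' := fun x y => Subtype.ext (map_mul cc _ _)
          map_add' := fun x y => Subtype.ext (map_add cc _ _) }
      have heS : ∀ x : IntermediateField.extendScalars h,
          ((eS x : IntermediateField.extendScalars h) : ℂ) = cc x := fun _ => rfl
      have heS2 : ∀ x : IntermediateField.extendScalars h, eS (eS x) = x := fun x =>
        Subtype.ext (cc_cc _)
      let s' : MuCyc.Gal h := AlgEquiv.ofRingEquiv (f := (eS.trans
        (s : IntermediateField.extendScalars h ≃+* IntermediateField.extendScalars h)).trans eS)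
        (by
          intro a
          have ha : cc (a : ℂ) ∈ k := (quad_stable k h2 _).1 a.2
          have e1 : eS (algebraMap k (IntermediateField.extendScalars h) a) =
              algebraMap k (IntermediateField.extendScalars h) ⟨cc a, ha⟩ := Subtype.ext rfl
          show eS (s (eS (algebraMap k (IntermediateField.extendScalars h) a))) = _
          rw [e1, s.commutes, ← e1, heS2])
      have hs' : ∀ x, s' x = eS (s (eS x)) := fun _ => rfl
      have e1 : χ' s' = χ s := by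
        apply hχ s s'
        intro x y hxy
        have hy : y = eS x := Subtype.ext hxy
        rw [hs', heS, hy, ← cc_apply, cc_cc]
      rw [mulEquiv_comp, ← e1]
      have e2 := h4 ((κ.trans τ).trans κ) s' (by
          intro x hx
          show κ (τ (κ x)) = x
          have h5 : ((κ x : ↥(K ⊔ Q)) : ℂ) ∈ Q := by
            rw [hκ]
            exact (hQc _).1 hx
          rw [hτ _ h5, hκκ]) (by
          intro x y hxy
          show ((κ (τ (κ x)) : ↥(K ⊔ Q)) : ℂ) = (s' y : IntermediateField.extendScalars h)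
          rw [hκ, hs', heS]
          congr 1
          apply hs (κ x) (eS y)
          rw [hκ, heS, hxy]) (ClassGroup.mulEquiv (RingOfIntegers.mapRingEquiv κ) a)
      rw [mulEquiv_comp] at e2
      rw [← e2]
      have e3 : τ.trans κ = κ.trans ((κ.trans τ).trans κ) := by
        apply RingEquiv.ext
        intro x
        show κ (τ x) = κ (τ (κ (κ x)))
        rw [hκκ]
      rw [← e3]
  have hfin : Finite (ClassGroup (𝓞 ↥(K ⊔ Q))) := inferInstance
  calc Module.finrank (AlgebraicClosure (ZMod p)) (MuCyc.chiPart p h χ' Q)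
      = Module.finrank (AlgebraicClosure (ZMod p)) ((MuCyc.chiPart p h χ' Q).map φ) :=
        (Submodule.equivMapOfInjective φ hinj _).finrank_eq
    _ ≤ _ := Submodule.finrank_mono hmap

/-- `p = 5`: if the complex conjugate of `χ` is `χ ω²` then all twists of `χ` are good. -/
theorem five (hLAY : Sf_LAY) (hBAX : Sq_BAX) (hNIL : O_NIL) (p : ℕ) [Fact p.Prime] (hp5 : p = 5)
    (k K : IntermediateField ℚ ℂ) [FiniteDimensional ℚ K] (h : k ≤ K)
    (hG : IsGalois k (IntermediateField.extendScalars h))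
    (hc : ∀ σ τ : (IntermediateField.extendScalars h) ≃ₐ[k] (IntermediateField.extendScalars h),
      σ * τ = τ * σ)
    (h2 : Module.finrank ℚ k = 2) (hi : ∃ z ∈ k, (starRingEnd ℂ) z ≠ z)
    (h4 : ∀ z ∈ k, z ^ 2 ≠ -1) (h3 : ∀ z ∈ k, z ^ 2 ≠ -3)
    (hd : ¬ p ∣ Module.finrank k (IntermediateField.extendScalars h))
    (hz : ∃ ζ ∈ K, IsPrimitiveRoot ζ p) (hK : ∀ z ∈ K, (starRingEnd ℂ) z ∈ K)
    (χ χ₁ : MuCyc.Chr p h) (h1 : MuCyc.IsTwist p h χ χ₁ 2) (h1c : MuCyc.IsConj p h χ χ₁)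
    (j : ℕ) (χ' : MuCyc.Chr p h) (hj : MuCyc.IsTwist p h χ χ' j) : MuCyc.MuZeroC p h χ' := by
  obtain ⟨ω, hω, hω1, hω4⟩ := exists_omega p h hz
  rw [hω] at h1 hj
  subst h1 hj
  -- `ω (s') = ω (s)` for conjugate `s`, `s'`
  have hωc : ∀ s s' : MuCyc.Gal h, (∀ x y : IntermediateField.extendScalars h,
      (y : ℂ) = (starRingEnd ℂ) x → ((s y : IntermediateField.extendScalars h) : ℂ) =
        (starRingEnd ℂ) (s' x : IntermediateField.extendScalars h)) → ω s' = ω s := by
    intro s s' hss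
    obtain ⟨c, hc1, hc2⟩ := hω1 s
    have h5 : MuCyc.IsTwist p h 1 ω 1 := (hω 1 ω 1).2 (by
      apply MonoidHom.ext
      intro s
      show ω s = 1 * (ω s) ^ 1
      rw [one_mul, pow_one])
    apply Units.ext
    rw [hc2]
    have h6 := h5 s' c (by
      intro z hz
      -- the conjugate of `z`
      have hy : (starRingEnd ℂ) (z : ℂ) ∈ IntermediateField.extendScalars h := hK _ z.2
      have h7 := hss z ⟨_, hy⟩ rfl
      have h8 : (⟨_, hy⟩ : IntermediateField.extendScalars h) ^ p = 1 := by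
        apply Subtype.ext
        show ((starRingEnd ℂ) (z : ℂ)) ^ p = 1
        rw [← map_pow]
        have h9 : (z : ℂ) ^ p = 1 := congrArg Subtype.val hz
        rw [h9, map_one]
      rw [hc1 _ h8] at h7
      apply Subtype.ext
      have h9 : ((starRingEnd ℂ) (z : ℂ)) ^ c = (starRingEnd ℂ) ((s' z : _) : ℂ) := h7
      rw [← map_pow] at h9
      exact ((starRingEnd ℂ).injective h9).symm)
    rw [h6]
    simp
  have hcj : ∀ i : ℕ, MuCyc.IsConj p h (χ * ω ^ i) (χ * ω ^ 2 * ω ^ i) := by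
    intro i s s' hss
    have h5 := h1c s s' hss
    have h6 := hωc s s' hss
    show χ s' * (ω s') ^ 2 * (ω s') ^ i = χ s * (ω s) ^ i
    have h7 : χ s' * (ω s') ^ 2 = χ s := h5
    rw [h7, h6]
  have hper : ∀ i : ℕ, χ * ω ^ (i + 4) = χ * ω ^ i := by
    intro i
    apply MonoidHom.ext
    intro s
    show χ s * (ω s) ^ (i + 4) = χ s * (ω s) ^ i
    have h5 : (ω s) ^ 4 = 1 := by
      have h6 : (ω s) ^ (p - 1) = 1 := congrArg (fun f : MuCyc.Chr p h => f s) hω4
      have h7 : p - 1 = 4 := by omega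
      rwa [h7] at h6
    rw [pow_add, h5, mul_one]
  have hadd : ∀ i : ℕ, χ * ω ^ 2 * ω ^ i = χ * ω ^ (i + 2) := by
    intro i
    apply MonoidHom.ext
    intro s
    show χ s * (ω s) ^ 2 * (ω s) ^ i = χ s * (ω s) ^ (i + 2)
    rw [pow_add, mul_assoc, mul_comm ((ω s) ^ 2)]
  -- one of `χ ω ^ i`, `χ ω ^ (i + 2)` is good, hence both
  have hstep : ∀ i : ℕ, MuCyc.MuZeroC p h (χ * ω ^ i) → MuCyc.MuZeroC p h (χ * ω ^ (i + 2)) := by
    intro i hi'
    rw [← hadd]
    exact conj_mu p h h2 hK _ _ (hcj i) hi'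
  have hstep' : ∀ i : ℕ, MuCyc.MuZeroC p h (χ * ω ^ (i + 2)) →
      MuCyc.MuZeroC p h (χ * ω ^ i) := by
    intro i hi'
    have := hstep (i + 2) hi'
    rwa [show i + 2 + 2 = i + 4 from rfl, hper] at this
  have hgood : ∀ i : ℕ, MuCyc.MuZeroC p h (χ * ω ^ i) := by
    intro i
    obtain ⟨e, χ₂, he, hev, htw, hmu⟩ := one_even hLAY hBAX hNIL p (by omega) k K h hG hc h2 hi
      h4 h3 hd hz (χ * ω ^ i)
    rw [hω] at htw
    subst htw
    have e1 : χ * ω ^ i * ω ^ e = χ * ω ^ (i + e) := by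
      apply MonoidHom.ext
      intro s
      show χ s * (ω s) ^ i * (ω s) ^ e = χ s * (ω s) ^ (i + e)
      rw [pow_add, mul_assoc]
    rw [e1] at hmu
    have : e = 0 ∨ e = 2 := by
      obtain ⟨a, ha⟩ := hev
      omega
    rcases this with rfl | rfl
    · exact hmu
    · exact hstep' i hmu
  exact hgood j

end Pool.Agent.OBF
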