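import Pool.Agent.OB.F_ONE

/-!
# OB, FINAL (helper60): the character `ω`, both branches, counting, complex conjugation
-/

set_option autoImplicit false

open NumberField IsDedekindDomain Finset
open scoped nonZeroDivisors Pointwise

namespace Pool.Agent.OBF

open _root_.Pool.Agent.RI _root_.Pool.Agent.RID _root_.Pool.Agent.MU3 _root_.Pool.Agent.MUXK
  _root_.Pool.Agent.MUXZ _root_.Pool.Agent.NSI _root_.Pool.Agent.OB

open CHIx

/-- The character `ω`. -/
theorem exists_omega (p : ℕ) [Fact p.Prime] {k K : IntermediateField ℚ ℂ} (h : k ≤ K)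
    (hz : ∃ ζ ∈ K, IsPrimitiveRoot ζ p) :
    ∃ ω : MuCyc.Chr p h, (∀ (χ χ' : MuCyc.Chr p h) (j : ℕ),
      MuCyc.IsTwist p h χ χ' j ↔ χ' = χ * ω ^ j) ∧
      (∀ s : MuCyc.Gal h, ∃ c : ℕ, (∀ z : IntermediateField.extendScalars h, z ^ p = 1 →
        s z = z ^ c) ∧ ((ω s : (AlgebraicClosure (ZMod p))ˣ) : AlgebraicClosure (ZMod p)) = c) ∧
      ω ^ (p - 1) = 1 := by
  have hpp : p.Prime := Fact.out
  have : NeZero p := ⟨hpp.ne_zero⟩
  obtain ⟨ζ, hζ, hp⟩ := hz
  let μ : IntermediateField.extendScalars h := ⟨ζ, hζ⟩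
  have hμ : IsPrimitiveRoot μ p := by
    apply IsPrimitiveRoot.of_map_of_injective (f := algebraMap
      (IntermediateField.extendScalars h) ℂ) (by exact hp)
    exact (algebraMap (IntermediateField.extendScalars h) ℂ).injective
  let ω : MuCyc.Chr p h :=
    (Units.map (algebraMap (ZMod p) (AlgebraicClosure (ZMod p)) :
      ZMod p →* AlgebraicClosure (ZMod p))).comp (hμ.autToPow k)
  have hω : ∀ s : MuCyc.Gal h, ((ω s : (AlgebraicClosure (ZMod p))ˣ) :
      AlgebraicClosure (ZMod p)) =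
      (((hμ.autToPow k s : (ZMod p)ˣ) : ZMod p).val : AlgebraicClosure (ZMod p)) := by
    intro s
    show algebraMap (ZMod p) (AlgebraicClosure (ZMod p)) ((hμ.autToPow k s : (ZMod p)ˣ) : ZMod p) =
      _
    conv_lhs => rw [← ZMod.natCast_zmod_val ((hμ.autToPow k s : (ZMod p)ˣ) : ZMod p)]
    rw [map_natCast]
  have hspec : ∀ s : MuCyc.Gal h, ∀ z : IntermediateField.extendScalars h, z ^ p = 1 →
      s z = z ^ ((hμ.autToPow k s : (ZMod p)ˣ) : ZMod p).val := by
    intro s z hz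
    obtain ⟨i, -, rfl⟩ := hμ.eq_pow_of_pow_eq_one hz
    rw [map_pow, ← hμ.autToPow_spec k s, ← pow_mul, ← pow_mul, mul_comm]
  have hcast : ∀ (s : MuCyc.Gal h) (c : ℕ),
      (∀ z : IntermediateField.extendScalars h, z ^ p = 1 → s z = z ^ c) →
      (c : AlgebraicClosure (ZMod p)) = ω s := by
    intro s c hs
    rw [hω]
    have h1 := hs μ hμ.pow_eq_one
    rw [hspec s μ hμ.pow_eq_one] at h1
    have h2 : μ ^ (c % p) = μ ^ c := by
      conv_rhs => rw [← Nat.div_add_mod c p, pow_add, pow_mul, hμ.pow_eq_one, one_pow, one_mul]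
    rw [← h2] at h1
    have h3 := hμ.pow_inj (ZMod.val_lt _) (Nat.mod_lt c hpp.pos) h1
    have h4 : ((c % p : ℕ) : AlgebraicClosure (ZMod p)) = (c : AlgebraicClosure (ZMod p)) := by
      conv_rhs => rw [← Nat.div_add_mod c p]
      rw [Nat.cast_add, Nat.cast_mul, CharP.cast_eq_zero (AlgebraicClosure (ZMod p)) p, zero_mul,
        zero_add]
    rw [← h4, h3]
  refine ⟨ω, fun χ χ' j => ⟨fun ht => ?_, ?_⟩, fun s => ⟨_, hspec s, hω s⟩, ?_⟩
  · apply MonoidHom.ext
    intro s
    apply Units.ext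
    have h1 := ht s _ (hspec s)
    rw [h1, ← hω]
    simp
  · rintro rfl s c hs
    rw [hcast s c hs]
    simp
  · apply MonoidHom.ext
    intro s
    have h1 : (hμ.autToPow k s) ^ (p - 1) = 1 := ZMod.units_pow_card_sub_one_eq_one p _
    show (ω s) ^ (p - 1) = 1
    show ((Units.map (algebraMap (ZMod p) (AlgebraicClosure (ZMod p)) :
      ZMod p →* AlgebraicClosure (ZMod p))) (hμ.autToPow k s)) ^ (p - 1) = 1
    rw [← map_pow, h1, map_one]

instance finChr (p : ℕ) [Fact p.Prime] {k K : IntermediateField ℚ ℂ} [FiniteDimensional ℚ K]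
    (h : k ≤ K) : Finite (MuCyc.Chr p h) := by
  have : FiniteDimensional k (IntermediateField.extendScalars h) := by
    letI := algC h
    have : FiniteDimensional k K := by
      have : IsScalarTower ℚ k K := IsScalarTower.of_algebraMap_eq fun _ => rfl
      exact FiniteDimensional.right ℚ k K
    exact Module.Finite.equiv (extEquiv h).symm.toLinearEquiv
  have : Finite (MuCyc.Gal h) := inferInstance
  infer_instance

/-- The number of the characters. -/
theorem card_chr (p : ℕ) [Fact p.Prime] {k K : IntermediateField ℚ ℂ} [FiniteDimensional ℚ K]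
    (h : k ≤ K) (hG : IsGalois k (IntermediateField.extendScalars h))
    (hc : ∀ σ τ : (IntermediateField.extendScalars h) ≃ₐ[k] (IntermediateField.extendScalars h),
      σ * τ = τ * σ)
    (hd : ¬ p ∣ Module.finrank k (IntermediateField.extendScalars h)) :
    Nat.card (MuCyc.Chr p h) = Module.finrank k (IntermediateField.extendScalars h) := by
  have : FiniteDimensional k (IntermediateField.extendScalars h) := by
    letI := algC h
    have : FiniteDimensional k K := by
      have : IsScalarTower ℚ k K := IsScalarTower.of_algebraMap_eq fun _ => rfl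
      exact FiniteDimensional.right ℚ k K
    exact Module.Finite.equiv (extEquiv h).symm.toLinearEquiv
  let G : CommGroup (MuCyc.Gal h) := { (inferInstance : Group (MuCyc.Gal h)) with mul_comm := hc }
  have hcard : Nat.card (MuCyc.Gal h) =
      Module.finrank k (IntermediateField.extendScalars h) := IsGalois.card_aut_eq_finrank _ _
  have hexp : ¬ p ∣ Monoid.exponent (MuCyc.Gal h) := by
    intro h0
    apply hd
    rw [← hcard]
    exact h0.trans (Group.exponent_dvd_nat_card)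
  have : NeZero ((Monoid.exponent (MuCyc.Gal h) : ℕ) : AlgebraicClosure (ZMod p)) := by
    refine ⟨fun h0 => hexp ?_⟩
    exact (CharP.cast_eq_zero_iff (AlgebraicClosure (ZMod p)) p _).1 h0
  rw [← hcard]
  exact CommGroup.card_monoidHom_of_hasEnoughRootsOfUnity (MuCyc.Gal h)
    (AlgebraicClosure (ZMod p))

/-- Double counting. -/
theorem count {X : Type} [CommGroup X] [Finite X] (ω : X) (S : Set X) (N : ℕ)
    (hS : ∀ χ : X, ∃ i j : ℕ, i < N ∧ j < N ∧ i ≠ j ∧ χ * ω ^ i ∈ S ∧ χ * ω ^ j ∈ S) :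
    2 * Nat.card X ≤ N * Nat.card {χ : X // χ ∈ S} := by
  classical
  have := Fintype.ofFinite X
  let T : Finset (X × ℕ) := ((Finset.univ : Finset X) ×ˢ Finset.range N).filter
    (fun q => q.1 * ω ^ q.2 ∈ S)
  have h1 : T.card = N * Nat.card {χ : X // χ ∈ S} := by
    have e1 : T.card = ∑ i ∈ Finset.range N, Nat.card {χ : X // χ ∈ S} := by
      rw [Finset.card_eq_sum_card_fiberwise (f := fun q => q.2) (t := Finset.range N)
        (fun q hq => (Finset.mem_product.1 (Finset.mem_filter.1 hq).1).2)]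
      refine Finset.sum_congr rfl fun i hi => ?_
      rw [Nat.card_eq_fintype_card, Fintype.card_subtype]
      refine Finset.card_bij (fun q _ => q.1 * ω ^ q.2) ?_ ?_ ?_
      · intro q hq
        rw [Finset.mem_filter] at hq ⊢
        exact ⟨Finset.mem_univ _, (Finset.mem_filter.1 hq.1).2⟩
      · intro q hq q' hq' he
        rw [Finset.mem_filter] at hq hq'
        have e2 : q.2 = q'.2 := hq.2.trans hq'.2.symm
        rw [e2] at he
        exact Prod.ext (mul_right_cancel he) e2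
      · intro χ hχ
        refine ⟨(χ * (ω ^ i)⁻¹, i), ?_, inv_mul_cancel_right _ _⟩
        rw [Finset.mem_filter, Finset.mem_filter]
        refine ⟨⟨Finset.mem_product.2 ⟨Finset.mem_univ _, hi⟩, ?_⟩, rfl⟩
        show χ * (ω ^ i)⁻¹ * ω ^ i ∈ S
        rw [inv_mul_cancel_right]
        exact (Finset.mem_filter.1 hχ).2
    rw [e1, Finset.sum_const, Finset.card_range, smul_eq_mul]
  have h2 : 2 * Nat.card X ≤ T.card := by
    rw [Finset.card_eq_sum_card_fiberwise (f := fun q => q.1) (t := (Finset.univ : Finset X))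
        (fun q _ => Finset.mem_univ _)]
    have e1 : ∀ χ ∈ (Finset.univ : Finset X), 2 ≤ (T.filter (fun q => q.1 = χ)).card := by
      intro χ _
      obtain ⟨i, j, hi, hj, hne, h3, h4⟩ := hS χ
      have : ({(χ, i), (χ, j)} : Finset (X × ℕ)) ⊆ T.filter (fun q => q.1 = χ) := by
        intro q hq
        rw [Finset.mem_insert, Finset.mem_singleton] at hq
        rcases hq with rfl | rfl
        · exact Finset.mem_filter.2 ⟨Finset.mem_filter.2 ⟨Finset.mem_product.2
            ⟨Finset.mem_univ _, Finset.mem_range.2 hi⟩, h3⟩, rfl⟩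
        · exact Finset.mem_filter.2 ⟨Finset.mem_filter.2 ⟨Finset.mem_product.2
            ⟨Finset.mem_univ _, Finset.mem_range.2 hj⟩, h4⟩, rfl⟩
      refine le_trans ?_ (Finset.card_le_card this)
      rw [Finset.card_pair]
      intro h0
      exact hne (congrArg Prod.snd h0)
    calc 2 * Nat.card X = ∑ _χ ∈ (Finset.univ : Finset X), 2 := by
          rw [Finset.sum_const, Finset.card_univ, smul_eq_mul, Nat.card_eq_fintype_card, mul_comm]
      _ ≤ _ := Finset.sum_le_sum e1
  exact h2.trans h1.le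

/-- Both branches and the number of the good characters. -/
theorem one_both (hLAY : Sf_LAY) (hBAX : Sq_BAX) (hNIL : O_NIL) (p : ℕ) [Fact p.Prime]
    (hp : 5 ≤ p) (k K : IntermediateField ℚ ℂ) [FiniteDimensional ℚ K] (h : k ≤ K)
    (hG : IsGalois k (IntermediateField.extendScalars h))
    (hc : ∀ σ τ : (IntermediateField.extendScalars h) ≃ₐ[k] (IntermediateField.extendScalars h),
      σ * τ = τ * σ)
    (h2 : Module.finrank ℚ k = 2) (hi : ∃ z ∈ k, (starRingEnd ℂ) z ≠ z)
    (h4 : ∀ z ∈ k, z ^ 2 ≠ -1) (h3 : ∀ z ∈ k, z ^ 2 ≠ -3)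
    (hd : ¬ p ∣ Module.finrank k (IntermediateField.extendScalars h))
    (hz : ∃ ζ ∈ K, IsPrimitiveRoot ζ p) :
    (∀ χ : MuCyc.Chr p h, ∃ i j : ℕ, i < p - 1 ∧ j < p - 1 ∧ Even i ∧ Odd j ∧
      (∃ χ' : MuCyc.Chr p h, MuCyc.IsTwist p h χ χ' i ∧ MuCyc.MuZeroC p h χ') ∧
      ∃ χ' : MuCyc.Chr p h, MuCyc.IsTwist p h χ χ' j ∧ MuCyc.MuZeroC p h χ') ∧
    2 * Module.finrank k (IntermediateField.extendScalars h) ≤
      (p - 1) * Nat.card {χ : MuCyc.Chr p h // MuCyc.MuZeroC p h χ} := by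
  obtain ⟨ω, hω, -, -⟩ := exists_omega p h hz
  have hpp : p.Prime := Fact.out
  have hodd : Odd p := hpp.odd_of_ne_two (by omega)
  have key : ∀ χ : MuCyc.Chr p h, ∃ i j : ℕ, i < p - 1 ∧ j < p - 1 ∧ Even i ∧ Odd j ∧
      MuCyc.MuZeroC p h (χ * ω ^ i) ∧ MuCyc.MuZeroC p h (χ * ω ^ j) := by
    intro χ
    obtain ⟨i, χ₁, hi1, hi2, hi3, hi4⟩ :=
      one_even hLAY hBAX hNIL p hp k K h hG hc h2 hi h4 h3 hd hz χ
    obtain ⟨j, χ₂, hj1, hj2, hj3, hj4⟩ :=
      one_even hLAY hBAX hNIL p hp k K h hG hc h2 hi h4 h3 hd hz (χ * ω)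
    rw [hω] at hi3 hj3
    subst hi3 hj3
    refine ⟨i, j + 1, hi1, ?_, hi2, hj2.add_one, hi4, ?_⟩
    · obtain ⟨a, ha⟩ := hj2
      obtain ⟨b, hb⟩ := hodd
      omega
    · have e1 : χ * ω ^ (j + 1) = χ * ω * ω ^ j :=
        (congrArg (χ * ·) (pow_succ' ω j)).trans (mul_assoc χ ω (ω ^ j)).symm
      rw [e1]
      exact hj4
  refine ⟨fun χ => ?_, ?_⟩
  · obtain ⟨i, j, h5, h6, h7, h8, h9, h10⟩ := key χ
    exact ⟨i, j, h5, h6, h7, h8, ⟨_, (hω _ _ _).2 rfl, h9⟩, ⟨_, (hω _ _ _).2 rfl, h10⟩⟩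
  · rw [← card_chr p h hG hc hd]
    refine count ω {χ | MuCyc.MuZeroC p h χ} (p - 1) fun χ => ?_
    obtain ⟨i, j, h5, h6, h7, h8, h9, h10⟩ := key χ
    refine ⟨i, j, h5, h6, ?_, h9, h10⟩
    rintro rfl
    exact (Nat.not_even_iff_odd.2 h8) h7

end Pool.Agent.OBF
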