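import Pool.Agent.OB.StK
import Pool.Agent.MUX.K_MAINKX
import Pool.Agent.MUX.K_I3X

/-!
# OB, block K for one character: MAINO
-/

set_option autoImplicit false

open NumberField IsDedekindDomain Finset Filter Topology
open scoped nonZeroDivisors Pointwise

namespace Pool.Agent.OB

open _root_.Pool.Agent.MU3 _root_.Pool.Agent.RI _root_.Pool.Agent.RID _root_.Pool.Agent.MUXK
  _root_.Pool.Agent.MUXZ _root_.Pool.Agent.NSI _root_.Pool.Agent.Lib_helper28.FROB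

/-- Additive functionals vanish on `p`-th powers. -/
theorem f_pow {A F : Type} [CommGroup A] [Field F] (p : ℕ) [CharP F p] (f : A → F)
    (hf : ∀ x y, f (x * y) = f x + f y) (y : A) : f (y ^ p) = 0 := by
  have hf1 : f 1 = 0 := by
    have := hf 1 1
    rw [mul_one] at this
    simpa using this
  have hfpow : ∀ (j : ℕ), f (y ^ j) = (j : F) * f y := by
    intro j
    induction j with
    | zero => rw [pow_zero, hf1, Nat.cast_zero, zero_mul]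
    | succ j ih => rw [pow_succ, hf, ih, Nat.cast_succ]; ring
  rw [hfpow, CharP.cast_eq_zero, zero_mul]

open _root_.Pool.Agent.MUXK.K_MAINKX in
theorem t_MAINO (h1 : S_GALX) (h2 : S_TWX) (h3 : S_LFX) (h4 : S_M0X) (h5 : S_RAMX)
    (h6 : S_KOLO) (h7 : S_SU0O) (h8 : S_I3O) (h9 : S_NILO) (h10 : S_RSX) : S_MAINO := by
  intro F _ p hp _ k K₀ K B _ _ _ _ hX hk hk₀ hkK S c c₀ n₁ hI χ₀ hI3
  have hh : ∀ n, K₀ ⊔ B n ≤ K ⊔ B n := fun n => sup_le_sup_right hX.le _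
  have hfd : ∀ {E E' : IntermediateField ℚ ℂ}, E ≤ E' → FiniteDimensional ℚ E' →
      FiniteDimensional ℚ E := by
    intro E E' hle hE'
    exact FiniteDimensional.of_injective (IntermediateField.inclusion hle).toLinearMap
      (IntermediateField.inclusion hle).injective
  haveI hfd₀ : FiniteDimensional ℚ K₀ := hfd hX.le inferInstance
  obtain ⟨S', h2S', hpS', hS'p, kol⟩ := h6 p k K₀ K B hX
  obtain ⟨Sa, h2Sa, hpSa, hSap, rama⟩ := h5 p k K₀ B hX.b0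
  set S₁ : Finset ℕ := (S ∪ S') ∪ Sa with hS₁
  have hS₁p : ∀ ℓ ∈ S₁, ℓ.Prime := by
    intro ℓ hℓ
    rcases Finset.mem_union.1 hℓ with h | h
    · rcases Finset.mem_union.1 h with h | h
      · exact hI.prime ℓ h
      · exact hS'p ℓ h
    · exact hSap ℓ h
  have h2S₁ : 2 ∈ S₁ := Finset.mem_union_right _ h2Sa
  have hpS₁ : p ∈ S₁ := Finset.mem_union_right _ hpSa
  obtain ⟨ma, hma⟩ := h4 p k K B hX.b S₁ hS₁p
  obtain ⟨mb, hmb⟩ := h4 p k K₀ B hX.b0 S₁ hS₁p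
  set m₀ : ℕ := max ma mb with hm₀
  obtain ⟨m, hmn₁, hm⟩ := h8 F p k K₀ K B hX hk hk₀ hh hkK S c c₀ n₁ hI χ₀ hI3 m₀
  set d : ℕ := Module.finrank ℚ K / Module.finrank ℚ K₀ with hd
  refine ⟨p ^ (max m m₀ + 1) + 1 + d, ?_⟩
  intro n
  letI : Algebra k ↥(K₀ ⊔ B n) := algC (hk₀ n)
  intro g hg f hfE b
  letI : Algebra k ↥K₀ := algC hkK
  obtain ⟨hf, hfp, hfχ⟩ := hfE
  have h := hk₀ n
  have tw := h2 p k K₀ B hX.b0 hX.cop n h g hg
  rcases lt_or_ge n m with hnm | hmn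
  · have hle : n ≤ max m m₀ + 1 := (hnm.le.trans (le_max_left _ _)).trans (Nat.le_succ _)
    have h11 : g ^ (p ^ (max m m₀ + 1)) = 1 := by
      rw [← orderOf_dvd_iff_pow_eq_one, tw.ord]
      exact pow_dvd_pow p hle
    obtain ⟨y, hy⟩ := iter_mem p (max m m₀ + 1) g h11 ((dg g)^[1] ((dg g)^[d] b))
    rw [Function.iterate_add_apply, Function.iterate_add_apply, hy]
    exact f_pow p f hf y
  · letI : Algebra k ↥(K ⊔ B n) := algC (hk n)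
    letI : Algebra ↥(K₀ ⊔ B n) ↥(K ⊔ B n) := algC (hh n)
    haveI : IsScalarTower k ↥(K₀ ⊔ B n) ↥(K ⊔ B n) := IsScalarTower.of_algebraMap_eq (fun _ => rfl)
    obtain ⟨gal₀, -⟩ := h1 p k K₀ B hX.b0 n h
    obtain ⟨gal, -⟩ := h1 p k K B hX.b n (hk n)
    have hn₁ : n₁ ≤ n := hmn₁.trans hmn
    obtain ⟨hc0, hsu0⟩ := h7 p k K₀ K B hX hk hk₀ S c c₀ n₁ hI n hn₁
    have hcn : (⟨c₀ n, hI.mem₀ n⟩ : ↥(K₀ ⊔ B n)) ≠ 0 := by
      intro h0
      exact hc0 (congrArg Subtype.val h0)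
    have hSS₁ : S ⊆ S₁ := fun x hx => Finset.mem_union_left _ (Finset.mem_union_left _ hx)
    have su1 := (t_MONO k ↥(K₀ ⊔ B n) S S₁ hSS₁ ⟨c₀ n, hI.mem₀ n⟩).1 hsu0
    obtain ⟨γ', hγ1, hγ2⟩ := h3 p k K₀ K B hX.b0 hX.b hX.le n (hk n) h (hh n) g
      (fun x hx => (hg x).2 hx)
    have hpow1 := triv_pow (fun x : ↥(K ⊔ B n) => (x : ℂ) ∈ K) γ' hγ1
    have hpow2 := lift_pow h (hk n) (hh n) g γ' hγ2
    have hfix : ∀ v : HeightOneSpectrum (𝓞 ↥(K₀ ⊔ B n)), Above S₁ v →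
        g ^ (p ^ m₀) • v.asIdeal = v.asIdeal := by
      intro v hv
      exact fix_pow p mb m₀ (le_max_right _ _) g v.asIdeal
        (hmb n h g (fun x hx => (hg x).2 hx) v hv)
    have hfix' : ∀ v : HeightOneSpectrum (𝓞 ↥(K ⊔ B n)), Above S₁ v →
        γ' ^ (p ^ m₀) • v.asIdeal = v.asIdeal := by
      intro v hv
      exact fix_pow p ma m₀ (le_max_left _ _) γ' v.asIdeal (hma n (hk n) γ' hγ1 v hv)
    obtain ⟨u, hu⟩ := t_UNI k ↥(K₀ ⊔ B n) S₁ ⟨c₀ n, hI.mem₀ n⟩ hcn su1 (g ^ (p ^ m₀)) hfix p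
    have hrel := kol hk hk₀ hh S c c₀ n₁ hI S₁ Finset.subset_union_left hS₁p n hn₁ (g ^ (p ^ m₀))
      (γ' ^ (p ^ m₀)) (hpow1 _) (hpow2 _) hfix' u hu
    have hfinNC : Finite (NC h (B n)) := inferInstance
    letI : Fintype (NC h (B n)) := Fintype.ofFinite _
    obtain ⟨ζ, hζK, hζ⟩ := hX.ze
    obtain ⟨z, hz⟩ := root (E := K ⊔ B n) (q := 2 * p) (by have := hp.out.pos; omega)
      ((le_sup_left : K ≤ K ⊔ B n) hζK) hζ
    have hfin : Module.finrank ↥(K₀ ⊔ B n) ↥(K ⊔ B n) = d :=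
      finrank_quot (hh n) _ _ (p ^ n) Module.finrank_pos (pow_pos hp.out.pos n) (hX.b0.deg n)
        (hX.b.deg n)
    obtain ⟨ρ, hρ⟩ := _root_.Pool.Agent.MUXK.I3X19.restr h10 p k K₀ B hX.b0 hX.cop hkK n h
    set χ : NC h (B n) →* Fˣ := χ₀.comp ρ.toMonoidHom with hχ
    have hχδ : ∀ δ, χ δ = χ₀ (ρ δ) := fun δ => rfl
    obtain ⟨θ, hθ⟩ := hm n hmn g hg u hu χ (by
      intro δ s hs
      rw [hχδ]
      congr 1
      refine AlgEquiv.ext fun x => Subtype.ext ?_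
      have hx1 : (x : ℂ) ∈ K₀ ⊔ B n := le_sup_left (a := K₀) x.2
      rw [← hρ δ x ⟨x, hx1⟩ rfl, ← hs x ⟨x, hx1⟩ rfl])
    have hmain := h9 p F k ↥(K₀ ⊔ B n) ↥(K ⊔ B n) n m m₀ g (NC h (B n)) tw hmn S₁
      z hz h2S₁ hpS₁ hS₁p (rama S₁ Finset.subset_union_right n h) hfix u hrel
      χ θ hθ f hf hfp (fun δ x => by rw [hχδ]; exact hfχ δ (ρ δ) (hρ δ) x) b
    rw [hfin] at hmain
    exact hmain

end Pool.Agent.OB
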