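import Pool.Agent.OB.StQ
import Pool.Agent.RI.CL
import Pool.Agent.RI.EXTACT
import Pool.Agent.MUX.K_MAINKX
import Pool.Agent.MUX.K_I3X
import Pool.Agent.MUX.K_NR1
import Pool.Agent.OB.K_MAINO

/-!
# OB, corollary for `p = 5`: OCC, the characters which occur
-/

set_option autoImplicit false

open NumberField IsDedekindDomain Finset
open scoped nonZeroDivisors Pointwise

namespace Pool.Agent.OB

open _root_.Pool.Agent.RI _root_.Pool.Agent.RID _root_.Pool.Agent.MU3 _root_.Pool.Agent.MUXK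
  _root_.Pool.Agent.MUXZ _root_.Pool.Agent.NSI

namespace OCC

/-- `BasX` for `K = k`. -/
lemma basSelf (h : Sq_BAX) (p : ℕ) [Fact p.Prime] (E : IntermediateField ℚ ℂ)
    [FiniteDimensional ℚ E] (B : ℕ → IntermediateField ℚ ℂ) (hp : ¬ p ∣ Module.finrank ℚ E)
    (hB : ∀ n, IsLayer p n (B n)) (hm : Monotone B) : BasX p E E B := by
  refine h p E E B le_rfl ?_ ?_ hp hB hm
  · rw [← isGalois_algC le_rfl]
    exact IsGalois.self E
  · intro s t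
    have key : ∀ s : (IntermediateField.extendScalars (le_refl E)) ≃ₐ[E]
        (IntermediateField.extendScalars (le_refl E)), s = 1 := by
      intro s
      apply AlgEquiv.ext
      intro x
      have h1 : x = algebraMap E (IntermediateField.extendScalars (le_refl E)) ⟨x.1, x.2⟩ := rfl
      rw [h1, s.commutes]
      rfl
    rw [key s, key t]

/-- A quadratic extension given by an automorphism of order two with fixed field `C`. -/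
lemma quad (C E : IntermediateField ℚ ℂ) [FiniteDimensional ℚ E] (hCE : C ≤ E) (ρ : E ≃ₐ[ℚ] E)
    (hr : ∀ x : E, ρ (ρ x) = x) (hn : ∃ x : E, ρ x ≠ x) (hf : ∀ x : E, ρ x = x ↔ (x : ℂ) ∈ C) :
    letI := algC hCE
    IsGalois C E ∧ (∀ s t : E ≃ₐ[C] E, s * t = t * s) ∧ Module.finrank C E = 2 := by
  let aCE : Algebra C E := algC hCE
  have tow : IsScalarTower ℚ C E := IsScalarTower.of_algebraMap_eq (fun _ => rfl)
  have hfd : FiniteDimensional C E := Module.Finite.of_restrictScalars_finite ℚ C E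
  let τ : E ≃ₐ[C] E := AlgEquiv.ofRingEquiv (f := (ρ : E ≃+* E)) (fun a => (hf _).2 a.2)
  have hτ : ∀ x, τ x = ρ x := fun _ => rfl
  have hbot : ∀ x : E, x ∈ (⊥ : IntermediateField C E) ↔ (x : ℂ) ∈ C := by
    intro x
    rw [IntermediateField.mem_bot]
    constructor
    · rintro ⟨y, rfl⟩
      exact y.2
    · intro hx
      exact ⟨⟨x, hx⟩, rfl⟩
  have hzp := P_TWK.zp τ (⊥ : IntermediateField C E) (fun x => by
    rw [hτ, hf, hbot])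
  rw [IntermediateField.fixingSubgroup_bot] at hzp
  have hord : orderOf τ = 2 := by
    apply orderOf_eq_prime
    · apply AlgEquiv.ext
      intro x
      show τ (τ x) = x
      rw [hτ, hτ, hr]
    · intro h1
      obtain ⟨x, hx⟩ := hn
      apply hx
      rw [← hτ, h1]
      rfl
  have hgal : IsGalois C E := by
    apply IsGalois.of_fixedField_eq_bot
    rw [eq_bot_iff]
    intro x hx
    rw [hbot, ← hf, ← hτ]
    exact hx ⟨τ, trivial⟩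
  refine ⟨hgal, ?_, ?_⟩
  · intro s t
    have hs : s ∈ Subgroup.zpowers τ := hzp ▸ Subgroup.mem_top s
    have ht : t ∈ Subgroup.zpowers τ := hzp ▸ Subgroup.mem_top t
    obtain ⟨i, rfl⟩ := hs
    obtain ⟨j, rfl⟩ := ht
    show τ ^ i * τ ^ j = τ ^ j * τ ^ i
    rw [← zpow_add, ← zpow_add, add_comm]
  · rw [← IsGalois.card_aut_eq_finrank, ← Subgroup.card_top, hzp, Nat.card_zpowers, hord]

/-- Two homomorphisms which agree on `A` and on `B` agree on `A ⊔ B`. -/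
lemma agree {L A B : IntermediateField ℚ ℂ} (f g : L →+* ℂ) (hAL : A ≤ L) (hBL : B ≤ L)
    (hA : ∀ x : L, (x : ℂ) ∈ A → f x = g x) (hB : ∀ x : L, (x : ℂ) ∈ B → f x = g x) :
    ∀ x : L, (x : ℂ) ∈ A ⊔ B → f x = g x := by
  let S : IntermediateField ℚ ℂ :=
    { carrier := {x | ∃ h : x ∈ L, f ⟨x, h⟩ = g ⟨x, h⟩}
      mul_mem' := by
        rintro a b ⟨ha, ha'⟩ ⟨hb, hb'⟩
        refine ⟨mul_mem ha hb, ?_⟩
        have e : (⟨a * b, mul_mem ha hb⟩ : L) = ⟨a, ha⟩ * ⟨b, hb⟩ := rfl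
        rw [e, map_mul, map_mul, ha', hb']
      one_mem' := ⟨one_mem L, by
        have e : (⟨1, one_mem L⟩ : L) = 1 := rfl
        rw [e, map_one, map_one]⟩
      add_mem' := by
        rintro a b ⟨ha, ha'⟩ ⟨hb, hb'⟩
        refine ⟨add_mem ha hb, ?_⟩
        have e : (⟨a + b, add_mem ha hb⟩ : L) = ⟨a, ha⟩ + ⟨b, hb⟩ := rfl
        rw [e, map_add, map_add, ha', hb']
      zero_mem' := ⟨zero_mem L, by
        have e : (⟨0, zero_mem L⟩ : L) = 0 := rfl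
        rw [e, map_zero, map_zero]⟩
      algebraMap_mem' := fun r => ⟨L.algebraMap_mem r, by
        have e : (⟨algebraMap ℚ ℂ r, L.algebraMap_mem r⟩ : L) = algebraMap ℚ L r := rfl
        rw [e, eq_ratCast, map_ratCast, map_ratCast]⟩
      inv_mem' := by
        rintro a ⟨ha, ha'⟩
        refine ⟨inv_mem ha, ?_⟩
        have e : (⟨a⁻¹, inv_mem ha⟩ : L) = (⟨a, ha⟩)⁻¹ := rfl
        rw [e, map_inv₀, map_inv₀, ha'] }
  have h1 : A ≤ S := fun x hx => ⟨hAL hx, hA ⟨x, hAL hx⟩ hx⟩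
  have h2 : B ≤ S := fun x hx => ⟨hBL hx, hB ⟨x, hBL hx⟩ hx⟩
  intro x hx
  obtain ⟨h3, h4⟩ := (sup_le h1 h2) hx
  exact h4

/-- The image of `A ⊔ B` under a homomorphism. -/
lemma stable {L A B M : IntermediateField ℚ ℂ} (f : L →+* ℂ) (hAL : A ≤ L) (hBL : B ≤ L)
    (hA : ∀ x : L, (x : ℂ) ∈ A → f x ∈ M) (hB : ∀ x : L, (x : ℂ) ∈ B → f x ∈ M) :
    ∀ x : L, (x : ℂ) ∈ A ⊔ B → f x ∈ M := by
  let S : IntermediateField ℚ ℂ :=
    { carrier := {x | ∃ h : x ∈ L, f ⟨x, h⟩ ∈ M}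
      mul_mem' := by
        rintro a b ⟨ha, ha'⟩ ⟨hb, hb'⟩
        refine ⟨mul_mem ha hb, ?_⟩
        have e : (⟨a * b, mul_mem ha hb⟩ : L) = ⟨a, ha⟩ * ⟨b, hb⟩ := rfl
        rw [e, map_mul]
        exact mul_mem ha' hb'
      one_mem' := ⟨one_mem L, by
        have e : (⟨1, one_mem L⟩ : L) = 1 := rfl
        rw [e, map_one]
        exact one_mem M⟩
      add_mem' := by
        rintro a b ⟨ha, ha'⟩ ⟨hb, hb'⟩
        refine ⟨add_mem ha hb, ?_⟩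
        have e : (⟨a + b, add_mem ha hb⟩ : L) = ⟨a, ha⟩ + ⟨b, hb⟩ := rfl
        rw [e, map_add]
        exact add_mem ha' hb'
      zero_mem' := ⟨zero_mem L, by
        have e : (⟨0, zero_mem L⟩ : L) = 0 := rfl
        rw [e, map_zero]
        exact zero_mem M⟩
      algebraMap_mem' := fun r => ⟨L.algebraMap_mem r, by
        have e : (⟨algebraMap ℚ ℂ r, L.algebraMap_mem r⟩ : L) = algebraMap ℚ L r := rfl
        rw [e, eq_ratCast, map_ratCast, ← eq_ratCast (algebraMap ℚ ℂ)]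
        exact M.algebraMap_mem r⟩
      inv_mem' := by
        rintro a ⟨ha, ha'⟩
        refine ⟨inv_mem ha, ?_⟩
        have e : (⟨a⁻¹, inv_mem ha⟩ : L) = (⟨a, ha⟩)⁻¹ := rfl
        rw [e, map_inv₀]
        exact inv_mem ha' }
  have h1 : A ≤ S := fun x hx => ⟨hAL hx, hA ⟨x, hAL hx⟩ hx⟩
  have h2 : B ≤ S := fun x hx => ⟨hBL hx, hB ⟨x, hBL hx⟩ hx⟩
  intro x hx
  obtain ⟨h3, h4⟩ := (sup_le h1 h2) hx
  exact h4

end OCC

open OCC in
theorem tq_OCC (h1 : Sq_RAT) (h2 : Sq_BAX) (h3 : S_RSX) (h4 : S_GALX) : Sq_OCC := by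
  classical
  intro E k K₀ w ρ σ hQ B _ _ F _ _ hlay hmono n hk₀ hkK hEB χ f hf b hb
  have : Fact (Nat.Prime 5) := ⟨by norm_num⟩
  have hfd : FiniteDimensional ℚ K₀ := hQ.fin
  have hfdle : ∀ {A A' : IntermediateField ℚ ℂ}, A ≤ A' → FiniteDimensional ℚ A' →
      FiniteDimensional ℚ A := by
    intro A A' hle hA'
    exact FiniteDimensional.of_injective (IntermediateField.inclusion hle).toLinearMap
      (IntermediateField.inclusion hle).injective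
  have hfdE : FiniteDimensional ℚ E := hfdle hQ.EK hfd
  have hfdk : FiniteDimensional ℚ k := hfdle hQ.kK hfd
  have hBk : BasX 5 k K₀ B := h2 5 k K₀ B hQ.kK hQ.galk hQ.abk hQ.deg hlay hmono
  have hcop : ¬ 5 ∣ Module.finrank k (IntermediateField.extendScalars hBk.hk) := by
    intro h5
    apply hQ.deg
    have h6 : Module.finrank ℚ k * Module.finrank k (IntermediateField.extendScalars hBk.hk) =
        Module.finrank ℚ K₀ := Module.finrank_mul_finrank ℚ k (IntermediateField.extendScalars hBk.hk)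
    rw [← h6]
    exact h5.mul_left _
  let akK : Algebra k ↥K₀ := algC hkK
  let akL : Algebra k ↥(K₀ ⊔ B n) := algC hk₀
  let aLL : Algebra ↥(E ⊔ B n) ↥(K₀ ⊔ B n) := algC hEB
  obtain ⟨τ, hτ⟩ := I3X19.restr h3 5 k K₀ B hBk hcop hkK n hk₀
  obtain ⟨hf1, hf2, hf3⟩ := hf
  have hfb : ∀ x, ∀ a : ↥K₀ ≃ₐ[k] ↥K₀,
      f (((τ.symm a : NC hk₀ (B n)) : ↥(K₀ ⊔ B n) ≃ₐ[k] ↥(K₀ ⊔ B n)) • x) = (χ a : F) * f x := by
    intro x a
    refine hf3 (τ.symm a) a (fun y y' hy => ?_) x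
    rw [hτ (τ.symm a) y y' hy, τ.apply_symm_apply]
  -- `δ` on `E` and `B n`
  have hδE : ∀ (a : ↥K₀ ≃ₐ[k] ↥K₀) (x : ↥K₀) (x' : ↥(K₀ ⊔ B n)), (x' : ℂ) = x →
      ((((τ.symm a : NC hk₀ (B n)) : ↥(K₀ ⊔ B n) ≃ₐ[k] ↥(K₀ ⊔ B n)) x' : ↥(K₀ ⊔ B n)) : ℂ) =
        (a x : ↥K₀) := by
    intro a x x' hx
    rw [hτ (τ.symm a) x x' hx, τ.apply_symm_apply]
  have hδB : ∀ (a : ↥K₀ ≃ₐ[k] ↥K₀) (x : ↥(K₀ ⊔ B n)), (x : ℂ) ∈ B n →
      ((τ.symm a : NC hk₀ (B n)) : ↥(K₀ ⊔ B n) ≃ₐ[k] ↥(K₀ ⊔ B n)) x = x := fun a x hx =>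
    (τ.symm a : NC hk₀ (B n)).2 x hx
  have hEL : E ≤ K₀ ⊔ B n := hQ.EK.trans le_sup_left
  have hBL : B n ≤ K₀ ⊔ B n := le_sup_right
  let ι : ↥(K₀ ⊔ B n) →+* ℂ := algebraMap ↥(K₀ ⊔ B n) ℂ
  have hι : ∀ x, ι x = (x : ℂ) := fun _ => rfl
  refine ⟨?_, ?_⟩
  · intro a ha
    let aEL' : Algebra E ↥(E ⊔ B n) := algC (le_sup_left : E ≤ E ⊔ B n)
    have hfixL : ∀ x : ↥(K₀ ⊔ B n), (x : ℂ) ∈ E ⊔ B n →
        ι (((τ.symm a : NC hk₀ (B n)) : ↥(K₀ ⊔ B n) ≃ₐ[k] ↥(K₀ ⊔ B n)) x) = ι x := by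
      refine agree (ι.comp (((τ.symm a : NC hk₀ (B n)) : ↥(K₀ ⊔ B n) ≃ₐ[k] ↥(K₀ ⊔ B n)) :
        ↥(K₀ ⊔ B n) →+* ↥(K₀ ⊔ B n))) ι hEL hBL ?_ ?_
      · intro x hx
        show ι (((τ.symm a : NC hk₀ (B n)) : ↥(K₀ ⊔ B n) ≃ₐ[k] ↥(K₀ ⊔ B n)) x) = ι x
        rw [hι, hδE a ⟨x, hQ.EK hx⟩ x rfl, ha _ hx]
        rfl
      · intro x hx
        show ι (((τ.symm a : NC hk₀ (B n)) : ↥(K₀ ⊔ B n) ≃ₐ[k] ↥(K₀ ⊔ B n)) x) = ι x
        rw [hδB a x hx]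
    have h5 := EXTACT_thm E ↥(E ⊔ B n) k ↥(K₀ ⊔ B n)
      ((τ.symm a : NC hk₀ (B n)) : ↥(K₀ ⊔ B n) ≃ₐ[k] ↥(K₀ ⊔ B n)) 1
      (fun x => Subtype.ext (hfixL ⟨x, hEB x.2⟩ x.2).symm) b
    rw [one_smul] at h5
    have h6 := hfb (ext ↥(E ⊔ B n) ↥(K₀ ⊔ B n) b) a
    rw [← h5] at h6
    apply Units.ext
    have h7 : ((χ a : Fˣ) : F) * f (ext ↥(E ⊔ B n) ↥(K₀ ⊔ B n) b) =
        1 * f (ext ↥(E ⊔ B n) ↥(K₀ ⊔ B n) b) := by rw [one_mul]; exact h6.symm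
    exact mul_right_cancel₀ hb h7
  · intro a ha
    set δ : ↥(K₀ ⊔ B n) ≃ₐ[k] ↥(K₀ ⊔ B n) :=
      ((τ.symm a : NC hk₀ (B n)) : ↥(K₀ ⊔ B n) ≃ₐ[k] ↥(K₀ ⊔ B n)) with hδ
    have hδ1 : ∀ (x : ↥(K₀ ⊔ B n)) (hx : (x : ℂ) ∈ E), ((δ x : ↥(K₀ ⊔ B n)) : ℂ) = ρ ⟨x, hx⟩ := by
      intro x hx
      rw [hδE a ⟨x, hQ.EK hx⟩ x rfl]
      exact ha ⟨x, hQ.EK hx⟩ ⟨x, hx⟩ rfl
    have hst : ∀ x : ↥(K₀ ⊔ B n), (x : ℂ) ∈ E ⊔ B n → ι (δ x) ∈ E ⊔ B n := by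
      refine stable (ι.comp (δ : ↥(K₀ ⊔ B n) →+* ↥(K₀ ⊔ B n))) hEL hBL ?_ ?_
      · intro x hx
        show ι (δ x) ∈ E ⊔ B n
        rw [hι, hδ1 x hx]
        exact (le_sup_left : E ≤ E ⊔ B n) (ρ ⟨x, hx⟩).2
      · intro x hx
        show ι (δ x) ∈ E ⊔ B n
        rw [hδB a x hx]
        exact (le_sup_right : B n ≤ E ⊔ B n) hx
    have hinv : ∀ x : ↥(K₀ ⊔ B n), (x : ℂ) ∈ E ⊔ B n → ι (δ (δ x)) = ι x := by
      refine agree ((ι.comp (δ : ↥(K₀ ⊔ B n) →+* ↥(K₀ ⊔ B n))).comp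
        (δ : ↥(K₀ ⊔ B n) →+* ↥(K₀ ⊔ B n))) ι hEL hBL ?_ ?_
      · intro x hx
        show ι (δ (δ x)) = ι x
        have h5 : ((δ x : ↥(K₀ ⊔ B n)) : ℂ) ∈ E := by
          rw [hδ1 x hx]
          exact (ρ ⟨x, hx⟩).2
        rw [hι, hδ1 (δ x) h5]
        have h6 : (⟨((δ x : ↥(K₀ ⊔ B n)) : ℂ), h5⟩ : E) = ρ ⟨x, hx⟩ := Subtype.ext (hδ1 x hx)
        rw [h6, hQ.rhr]
        rfl
      · intro x hx
        show ι (δ (δ x)) = ι x
        rw [hδB a x hx, hδB a x hx]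
    -- the fields `C` and `C B_n`
    set C : IntermediateField ℚ ℂ := IntermediateField.adjoin ℚ {z : ℂ | z ^ 5 = 1} with hC
    have hCE : C ≤ E := hQ.mu
    have hCB : C ⊔ B n ≤ E ⊔ B n := sup_le_sup_right hCE _
    have hfdC : FiniteDimensional ℚ C := hfdle hCE hfdE
    have hfdCn : ∀ m, FiniteDimensional ℚ ↥(C ⊔ B m) := fun m =>
      hfdle (A' := E ⊔ B m) (sup_le_sup_right hCE _) inferInstance
    let aCE : Algebra C E := algC hCE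
    obtain ⟨q1, q2, q3⟩ := quad C E hCE ρ hQ.rhr hQ.rhn hQ.rhf
    have hdE : ¬ 5 ∣ Module.finrank ℚ E := by
      intro h5
      apply hQ.deg
      have h6 : Module.finrank ℚ E *
          Module.finrank E (IntermediateField.extendScalars hQ.EK) =
          Module.finrank ℚ K₀ := Module.finrank_mul_finrank ℚ E (IntermediateField.extendScalars hQ.EK)
      rw [← h6]
      exact h5.mul_right _
    have hEC : Module.finrank ℚ C * 2 = Module.finrank ℚ E := by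
      rw [← q3]
      have tow : IsScalarTower ℚ C E := IsScalarTower.of_algebraMap_eq (fun _ => rfl)
      exact Module.finrank_mul_finrank ℚ C E
    have hdC : ¬ 5 ∣ Module.finrank ℚ C := fun h5 => hdE (hEC ▸ h5.mul_right 2)
    have hBC : BasX 5 C C B := basSelf h2 5 C B hdC hlay hmono
    have hBE : BasX 5 C E B := by
      refine h2 5 C E B hCE ((isGalois_algC hCE).1 q1) ?_ hdE hlay hmono
      intro s t
      have h5 := q2 (((extEquiv hCE).symm.trans s).trans (extEquiv hCE))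
        (((extEquiv hCE).symm.trans t).trans (extEquiv hCE))
      apply AlgEquiv.ext
      intro x
      apply (extEquiv hCE).injective
      have h6 := congrArg (fun g : E ≃ₐ[C] E => g (extEquiv hCE x)) h5
      exact h6
    have hCL : C ≤ E ⊔ B n := hCE.trans le_sup_left
    let aCL : Algebra C ↥(E ⊔ B n) := algC hCL
    let aCCn : Algebra C ↥(C ⊔ B n) := algC (le_sup_left : C ≤ C ⊔ B n)
    let aCnL : Algebra ↥(C ⊔ B n) ↥(E ⊔ B n) := algC hCB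
    have towC : IsScalarTower C ↥(C ⊔ B n) ↥(E ⊔ B n) := IsScalarTower.of_algebraMap_eq (fun _ => rfl)
    have hgal : IsGalois ↥(C ⊔ B n) ↥(E ⊔ B n) := by
      have h5 : IsGalois C ↥(E ⊔ B n) := (h4 5 C E B hBE n hCL).1
      exact IsGalois.tower_top_of_isGalois C ↥(C ⊔ B n) ↥(E ⊔ B n)
    have hfr : Module.finrank ↥(C ⊔ B n) ↥(E ⊔ B n) = 2 := by
      have h5 : Module.finrank ↥(C ⊔ B n) ↥(E ⊔ B n) = Module.finrank ℚ E / Module.finrank ℚ C :=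
        K_MAINKX.finrank_quot hCB _ _ (5 ^ n) Module.finrank_pos (by positivity)
          (hBC.deg n) (hBE.deg n)
      rw [h5, ← hEC, Nat.mul_div_cancel_left _ Module.finrank_pos]
    -- the automorphism `ρ'` of `E B_n` over `C B_n`
    let ρ₀ : ↥(E ⊔ B n) ≃+* ↥(E ⊔ B n) :=
      { toFun := fun x => ⟨ι (δ ⟨x, hEB x.2⟩), hst _ x.2⟩
        invFun := fun x => ⟨ι (δ ⟨x, hEB x.2⟩), hst _ x.2⟩
        left_inv := fun x => Subtype.ext (hinv ⟨x, hEB x.2⟩ x.2)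
        right_inv := fun x => Subtype.ext (hinv ⟨x, hEB x.2⟩ x.2)
        map_mul' := fun x y => Subtype.ext (by
          show ι (δ ⟨((x * y : ↥(E ⊔ B n)) : ℂ), _⟩) = ι (δ ⟨x, hEB x.2⟩) * ι (δ ⟨y, hEB y.2⟩)
          rw [← map_mul, ← map_mul]
          rfl)
        map_add' := fun x y => Subtype.ext (by
          show ι (δ ⟨((x + y : ↥(E ⊔ B n)) : ℂ), _⟩) = ι (δ ⟨x, hEB x.2⟩) + ι (δ ⟨y, hEB y.2⟩)
          rw [← map_add, ← map_add]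
          rfl) }
    have hρ₀ : ∀ x, ((ρ₀ x : ↥(E ⊔ B n)) : ℂ) = (δ ⟨x, hEB x.2⟩ : ↥(K₀ ⊔ B n)) := fun _ => rfl
    have hfixC : ∀ x : ↥(K₀ ⊔ B n), (x : ℂ) ∈ C ⊔ B n → ι (δ x) = ι x := by
      refine agree (ι.comp (δ : ↥(K₀ ⊔ B n) →+* ↥(K₀ ⊔ B n))) ι (hCE.trans hEL) hBL ?_ ?_
      · intro x hx
        show ι (δ x) = ι x
        rw [hι, hδ1 x (hCE hx), (hQ.rhf ⟨x, hCE hx⟩).2 hx]
        rfl
      · intro x hx
        show ι (δ x) = ι x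
        rw [hδB a x hx]
    let ρ' : ↥(E ⊔ B n) ≃ₐ[↥(C ⊔ B n)] ↥(E ⊔ B n) := AlgEquiv.ofRingEquiv (f := ρ₀) (by
      intro x
      apply Subtype.ext
      rw [hρ₀]
      exact hfixC ⟨x, hEB (hCB x.2)⟩ x.2)
    have hρ' : ∀ x, ((ρ' x : ↥(E ⊔ B n)) : ℂ) = (δ ⟨x, hEB x.2⟩ : ↥(K₀ ⊔ B n)) := fun _ => rfl
    have hρ1 : ρ' ≠ 1 := by
      intro h5
      obtain ⟨x, hx⟩ := hQ.rhn
      apply hx
      apply Subtype.ext
      have hxL : (x : ℂ) ∈ E ⊔ B n := (le_sup_left : E ≤ E ⊔ B n) x.2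
      have h6 := hρ' ⟨x, hxL⟩
      rw [h5] at h6
      have h7 := hδ1 ⟨x, hEB hxL⟩ x.2
      exact (h6.trans h7).symm
    have huniv : (Finset.univ : Finset (↥(E ⊔ B n) ≃ₐ[↥(C ⊔ B n)] ↥(E ⊔ B n))) = {1, ρ'} := by
      symm
      apply Finset.eq_univ_of_card
      rw [Finset.card_pair hρ1.symm, ← Nat.card_eq_fintype_card, IsGalois.card_aut_eq_finrank, hfr]
    obtain ⟨c, hc⟩ := CL.nm_mem (F := ↥(C ⊔ B n)) b
    have hnm : CL.nm ↥(C ⊔ B n) ↥(E ⊔ B n) b = b * ρ' • b := by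
      rw [CL.nm_apply, huniv, Finset.prod_pair hρ1.symm, one_smul]
    obtain ⟨y, x, hyx⟩ := h1 B hlay hmono n c
    have hzero : f (ext ↥(E ⊔ B n) ↥(K₀ ⊔ B n) (b * ρ' • b)) = 0 := by
      rw [← hnm, ← hc, hyx, map_mul, map_mul, map_pow, map_pow, hf1, ext_prin, ext_prin,
        hf2 _ ⟨_, rfl⟩, add_zero]
      exact f_pow 5 f hf1 _
    have h5 := EXTACT_thm ↥(C ⊔ B n) ↥(E ⊔ B n) k ↥(K₀ ⊔ B n) δ ρ'
      (fun x => Subtype.ext (hρ' x)) b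
    rw [map_mul, hf1, h5, hfb] at hzero
    have h6 : ((χ a : Fˣ) : F) * f (ext ↥(E ⊔ B n) ↥(K₀ ⊔ B n) b) =
        (-1) * f (ext ↥(E ⊔ B n) ↥(K₀ ⊔ B n) b) := by linear_combination hzero
    exact mul_right_cancel₀ hb h6

end Pool.Agent.OB
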