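import Pool.Agent.OB.StQ
import Pool.Agent.OB.Q_OCC
import Pool.Agent.MUX.StU
import Pool.Agent.RI.LAY

/-!
# OB, corollary for `p = 5`: QRT, the class numbers of `E B_n`
-/

set_option autoImplicit false

open NumberField IsDedekindDomain Finset
open scoped nonZeroDivisors Pointwise

namespace Pool.Agent.OB

open _root_.Pool.Agent.RI _root_.Pool.Agent.RID _root_.Pool.Agent.MU3 _root_.Pool.Agent.MUXK
  _root_.Pool.Agent.MUXZ _root_.Pool.Agent.NSI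

namespace QRT

/-- `NilC` is monotone in the exponent. -/
lemma nilMono {F : Type} [Field F] {k K₀ : IntermediateField ℚ ℂ}
    {B : ℕ → IntermediateField ℚ ℂ} [∀ n, FiniteDimensional ℚ ↥(K₀ ⊔ B n)]
    {hk₀ : ∀ n, k ≤ K₀ ⊔ B n} {hkK : k ≤ K₀}
    {χ : letI := algC hkK; (↥K₀ ≃ₐ[k] ↥K₀) →* Fˣ} {l l' : ℕ} (h : l ≤ l')
    (hN : NilC F k K₀ B hk₀ hkK χ l) : NilC F k K₀ B hk₀ hkK χ l' := by
  intro n g hg f hf b
  obtain ⟨r, rfl⟩ := Nat.exists_eq_add_of_le h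
  rw [Function.iterate_add_apply]
  exact hN n g hg f hf _

/-- The characters of a finite group. -/
lemma finChar (G F : Type) [Group G] [Finite G] [Field F] : Finite (G →* Fˣ) := by
  have h1 : LinearIndependent F (fun f : G →* F => (f : G → F)) :=
    linearIndependent_monoidHom G F
  have h2 : Finite (G →* F) := _root_.LinearIndependent.finite_of_isNoetherian h1
  refine Finite.of_injective (fun χ : G →* Fˣ => (Units.coeHom F).comp χ) ?_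
  intro χ χ' h
  ext g
  exact DFunLike.congr_fun h g

/-- The layers are stable under automorphisms. -/
lemma layStable (p n : ℕ) [Fact p.Prime] (B : IntermediateField ℚ ℂ) (h : IsLayer p n B)
    (σ : ℂ ≃+* ℂ) : ∀ x, x ∈ B ↔ σ x ∈ B := by
  obtain ⟨-, hG, -⟩ := LAY_thm p n B h
  have hn : @Normal ℚ B _ _ (IntermediateField.algebra' B) := by
    have h1 := hG.to_normal
    have e : ∀ a b : Algebra ℚ B, @Normal ℚ B _ _ a → @Normal ℚ B _ _ b := by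
      intro a b h
      rw [Subsingleton.elim b a]
      exact h
    exact e _ _ h1
  have key : ∀ ρ : ℂ ≃+* ℂ, ∀ x ∈ B, ρ x ∈ B := by
    intro ρ x hx
    exact @LAY.mem_of_normal ℚ ℂ _ _ _ B hn
      (@RingHom.toRatAlgHom _ _ _ _ _ _ ((ρ : ℂ →+* ℂ).comp (algebraMap B ℂ))) ⟨x, hx⟩
  intro x
  constructor
  · exact key σ x
  · intro hx
    have h1 := key σ.symm _ hx
    rwa [σ.symm_apply_apply] at h1

/-- `√5` and the fifth roots of unity. -/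
lemma five {K : Type} [Field K] [CharZero K] (ζ : K) (hζ : IsPrimitiveRoot ζ 5) :
    (ζ + ζ ^ 4 - ζ ^ 2 - ζ ^ 3) ^ 2 = 5 := by
  have h := hζ.geom_sum_eq_zero (by norm_num)
  simp only [Finset.sum_range_succ, Finset.sum_range_zero] at h
  linear_combination (ζ ^ 4 - 3 * ζ ^ 3 + ζ ^ 2 + 5 * (ζ - 1)) * h

lemma wsq {F : Type} [Field F] [CharP F 5] {K : Type} [Field K] [CharZero K] (s : K →+* K)
    (ζ : K) (hζ : IsPrimitiveRoot ζ 5) (w : K) (hw : w ^ 2 = 5) (c : ℕ) (hc : s ζ = ζ ^ c) :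
    (s w = w ∧ (c : F) ^ 2 = 1) ∨ (s w = -w ∧ (c : F) ^ 2 = -1) := by
  have h5 : ζ ^ 5 = 1 := hζ.pow_eq_one
  have hF : (5 : F) = 0 := by
    have := CharP.cast_eq_zero F 5
    exact_mod_cast this
  obtain ⟨q, r, hr, rfl⟩ : ∃ q r, r < 5 ∧ c = 5 * q + r :=
    ⟨c / 5, c % 5, Nat.mod_lt _ (by norm_num), (Nat.div_add_mod c 5).symm⟩
  have hc' : s ζ = ζ ^ r := by
    rw [hc, pow_add, pow_mul, h5, one_pow, one_mul]
  have hcF : ((5 * q + r : ℕ) : F) = (r : F) := by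
    push_cast
    rw [hF, zero_mul, zero_add]
  rw [hcF]
  have hw' : w = ζ + ζ ^ 4 - ζ ^ 2 - ζ ^ 3 ∨ w = -(ζ + ζ ^ 4 - ζ ^ 2 - ζ ^ 3) := by
    rw [← sq_eq_sq_iff_eq_or_eq_neg, hw, five ζ hζ]
  have hg : (s (ζ + ζ ^ 4 - ζ ^ 2 - ζ ^ 3) = ζ + ζ ^ 4 - ζ ^ 2 - ζ ^ 3 ∧ (r : F) ^ 2 = 1) ∨
      (s (ζ + ζ ^ 4 - ζ ^ 2 - ζ ^ 3) = -(ζ + ζ ^ 4 - ζ ^ 2 - ζ ^ 3) ∧ (r : F) ^ 2 = -1) := by
    have e1 : s (ζ + ζ ^ 4 - ζ ^ 2 - ζ ^ 3) = s ζ + s ζ ^ 4 - s ζ ^ 2 - s ζ ^ 3 := by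
      simp only [map_add, map_sub, map_pow]
    rw [e1, hc']
    have h0 : r ≠ 0 := by
      rintro rfl
      rw [pow_zero, ← map_one s] at hc'
      exact hζ.ne_one (by norm_num) (s.injective hc')
    interval_cases r
    · exact absurd rfl h0
    · left
      refine ⟨by ring, by push_cast; ring⟩
    · right
      refine ⟨?_, ?_⟩
      · linear_combination (ζ ^ 3 - ζ) * h5
      · push_cast
        linear_combination hF
    · right
      refine ⟨?_, ?_⟩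
      · linear_combination (ζ ^ 7 + ζ ^ 2 - ζ - ζ ^ 4) * h5
      · push_cast
        linear_combination 2 * hF
    · left
      refine ⟨?_, ?_⟩
      · linear_combination (ζ ^ 11 + ζ ^ 6 + ζ - ζ ^ 3 - ζ ^ 7 - ζ ^ 2) * h5
      · push_cast
        linear_combination 3 * hF
  rcases hg with ⟨g1, g2⟩ | ⟨g1, g2⟩
  · left
    refine ⟨?_, g2⟩
    rcases hw' with h | h
    · rw [h, g1]
    · rw [h, map_neg, g1]
  · right
    refine ⟨?_, g2⟩
    rcases hw' with h | h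
    · rw [h, g1]
    · rw [h, map_neg, g1]

end QRT

open QRT in
theorem tq_QRT (h0 : O_NIL) (h1 : Sq_BAX) (h2 : Sq_DSC) (h3 : Sq_OCC) (h4 : S_CNJ)
    (h5 : _root_.Pool.Agent.MUXU.Su_AUE) : Sq_QRT := by
  classical
  intro E k K₀ w ρ σ hQ B hlay hmono
  have : Fact (Nat.Prime 5) := ⟨by norm_num⟩
  have hfd : FiniteDimensional ℚ K₀ := hQ.fin
  have hfdle : ∀ {A A' : IntermediateField ℚ ℂ}, A ≤ A' → FiniteDimensional ℚ A' →
      FiniteDimensional ℚ A := by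
    intro A A' hle hA'
    exact FiniteDimensional.of_injective (IntermediateField.inclusion hle).toLinearMap
      (IntermediateField.inclusion hle).injective
  have hfdE : FiniteDimensional ℚ E := hfdle hQ.EK hfd
  have hfdk : FiniteDimensional ℚ k := hfdle hQ.kK hfd
  have hfB : ∀ n, FiniteDimensional ℚ (B n) := fun n => (LAY_thm 5 n (B n) (hlay n)).1
  have hfKB : ∀ n, FiniteDimensional ℚ ↥(K₀ ⊔ B n) := fun n =>
    IntermediateField.finiteDimensional_sup K₀ (B n)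
  have hfEB : ∀ n, FiniteDimensional ℚ ↥(E ⊔ B n) := fun n =>
    IntermediateField.finiteDimensional_sup E (B n)
  have hBk : BasX 5 k K₀ B := h1 5 k K₀ B hQ.kK hQ.galk hQ.abk hQ.deg hlay hmono
  have hBE : BasX 5 E K₀ B := h1 5 E K₀ B hQ.EK hQ.galE hQ.abE hQ.deg hlay hmono
  have hmulE : Module.finrank ℚ E * Module.finrank E (IntermediateField.extendScalars hBE.hk) =
      Module.finrank ℚ K₀ := Module.finrank_mul_finrank ℚ E (IntermediateField.extendScalars hBE.hk)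
  have hmulk : Module.finrank ℚ k * Module.finrank k (IntermediateField.extendScalars hBk.hk) =
      Module.finrank ℚ K₀ := Module.finrank_mul_finrank ℚ k (IntermediateField.extendScalars hBk.hk)
  have hdE : ¬ 5 ∣ Module.finrank ℚ E := fun h => hQ.deg (hmulE ▸ h.mul_right _)
  have hdKE : ¬ 5 ∣ Module.finrank E (IntermediateField.extendScalars hBE.hk) := fun h =>
    hQ.deg (hmulE ▸ h.mul_left _)
  have hdKk : ¬ 5 ∣ Module.finrank k (IntermediateField.extendScalars hBk.hk) := fun h =>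
    hQ.deg (hmulk ▸ h.mul_left _)
  have hBS : BasX 5 E E B := OCC.basSelf h1 5 E B hdE hlay hmono
  have hkK : k ≤ K₀ := hQ.kK
  have hk₀ : ∀ n, k ≤ K₀ ⊔ B n := fun n => hkK.trans le_sup_left
  have hEB : ∀ n, E ⊔ B n ≤ K₀ ⊔ B n := fun n => sup_le_sup_right hQ.EK _
  -- the root of unity
  obtain ⟨ζ₀, hζ₀⟩ : ∃ ζ : ℂ, IsPrimitiveRoot ζ 5 := ⟨_, Complex.isPrimitiveRoot_exp 5 (by norm_num)⟩
  have hζE : ζ₀ ∈ E := hQ.mu (IntermediateField.subset_adjoin ℚ _ hζ₀.pow_eq_one)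
  have hζK : ζ₀ ∈ K₀ := hQ.EK hζE
  have hζK' : IsPrimitiveRoot (⟨ζ₀, hζK⟩ : K₀) 5 := by
    refine IsPrimitiveRoot.of_map_of_injective (f := algebraMap K₀ ℂ) ?_
      (algebraMap K₀ ℂ).injective
    exact hζ₀
  have hwE : w ∈ E := by
    have h6 : w = ζ₀ + ζ₀ ^ 4 - ζ₀ ^ 2 - ζ₀ ^ 3 ∨ w = -(ζ₀ + ζ₀ ^ 4 - ζ₀ ^ 2 - ζ₀ ^ 3) := by
      rw [← sq_eq_sq_iff_eq_or_eq_neg, hQ.w5, five ζ₀ hζ₀]
    have h7 : ζ₀ + ζ₀ ^ 4 - ζ₀ ^ 2 - ζ₀ ^ 3 ∈ E :=
      sub_mem (sub_mem (add_mem hζE (pow_mem hζE 4)) (pow_mem hζE 2)) (pow_mem hζE 3)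
    rcases h6 with h6 | h6
    · rw [h6]; exact h7
    · rw [h6]; exact neg_mem h7
  let akK : Algebra k ↥K₀ := algC hkK
  have tow : IsScalarTower ℚ k K₀ := IsScalarTower.of_algebraMap_eq (fun _ => rfl)
  have hfdkK : FiniteDimensional k K₀ := Module.Finite.of_restrictScalars_finite ℚ k K₀
  let F := AlgebraicClosure (ZMod 5)
  have hchF : CharP F 5 := by
    have := charP_of_injective_algebraMap (algebraMap (ZMod 5) F).injective 5
    exact this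
  -- the characters which occur
  let X : Set ((↥K₀ ≃ₐ[k] ↥K₀) →* Fˣ) := {χ |
    (∀ a : ↥K₀ ≃ₐ[k] ↥K₀, (∀ x : ↥K₀, (x : ℂ) ∈ E → a x = x) → χ a = 1) ∧
    (∀ a : ↥K₀ ≃ₐ[k] ↥K₀, (∀ (x : ↥K₀) (y : E), (x : ℂ) = y → ((a x : ↥K₀) : ℂ) = ρ y) →
      ((χ a : Fˣ) : F) = -1)}
  have hXnil : ∀ χ ∈ X, ∃ l, NilC F k K₀ B hk₀ hkK χ l := by
    intro χ hχ
    obtain ⟨j, χ', hj1, hj2, hj3, l, hl⟩ := h0 5 le_rfl k K₀ B hBk hk₀ hkK hQ.k2 hQ.im hQ.n4 hQ.n3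
      hdKk ⟨ζ₀, hζK, hζ₀⟩ χ
    -- `s ζ = ζ ^ c`
    have hc : ∀ s : ↥K₀ ≃ₐ[k] ↥K₀, ∃ c : ℕ, s ⟨ζ₀, hζK⟩ = ⟨ζ₀, hζK⟩ ^ c ∧
        ∀ z : ↥K₀, z ^ 5 = 1 → s z = z ^ c := by
      intro s
      have h6 : (s ⟨ζ₀, hζK⟩) ^ 5 = 1 := by rw [← map_pow, hζK'.pow_eq_one, map_one]
      obtain ⟨c, -, hc⟩ := hζK'.eq_pow_of_pow_eq_one h6
      refine ⟨c, hc.symm, fun z hz => ?_⟩
      obtain ⟨i, -, hi⟩ := hζK'.eq_pow_of_pow_eq_one hz
      rw [← hi, map_pow, ← hc, ← pow_mul, ← pow_mul, mul_comm]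
    have hj : j = 0 ∨ j = 2 := by
      obtain ⟨i, hi⟩ := hj2
      omega
    rcases hj with rfl | rfl
    · have h6 : χ' = χ := by
        ext s
        obtain ⟨c, -, hc⟩ := hc s
        rw [hj3 s c hc, pow_zero, mul_one]
      exact ⟨l, h6 ▸ hl⟩
    · refine ⟨l, h4 F k K₀ B hk₀ hkK χ' χ σ hQ.sK hQ.sk (fun n => layStable 5 n (B n) (hlay n) σ)
        ?_ l hl⟩
      intro s s' hss
      obtain ⟨c, hc1, hc2⟩ := hc s
      apply Units.ext
      rw [hj3 s c hc2]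
      -- `s` extends to `ℂ`
      have hsx : ∃ S : ℂ ≃+* ℂ, ∀ x : ↥K₀, S x = (s x : ↥K₀) :=
        h5 K₀ (Algebra.IsAlgebraic.of_finite ℚ K₀) ((algebraMap ↥K₀ ℂ).comp (s : ↥K₀ →+* ↥K₀))
      obtain ⟨S, hS⟩ := hsx
      have hSk : ∀ x ∈ k, S x = x := by
        intro x hx
        rw [hS ⟨x, hkK hx⟩]
        exact congrArg Subtype.val (s.commutes ⟨x, hx⟩)
      have hSi : ∀ x : ↥K₀, S.symm x = (s.symm x : ↥K₀) := by
        intro x
        rw [RingEquiv.symm_apply_eq, hS, s.apply_symm_apply]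
      -- `a = s' * s⁻¹`
      have ha : ∀ x : ↥K₀, (((s' * s⁻¹) x : ↥K₀) : ℂ) = σ.symm (S (σ (S.symm x))) := by
        intro x
        rw [RingEquiv.eq_symm_apply, hSi]
        have h6 : σ ((s.symm x : ↥K₀) : ℂ) ∈ K₀ := (hQ.sK _).1 (s.symm x).2
        rw [hS ⟨_, h6⟩]
        exact (hss (s.symm x) ⟨_, h6⟩ rfl).symm
      have h7 : χ s' = χ (s' * s⁻¹) * χ s := by
        rw [← map_mul, inv_mul_cancel_right]
      have hwK : (⟨w, hQ.EK hwE⟩ : ↥K₀) ^ 2 = 5 := Subtype.ext hQ.w5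
      rcases wsq (F := F) (s : ↥K₀ →+* ↥K₀) ⟨ζ₀, hζK⟩ hζK' ⟨w, hQ.EK hwE⟩ hwK c hc1 with
        ⟨e1, e2⟩ | ⟨e1, e2⟩
      · have h8 : χ (s' * s⁻¹) = 1 := by
          apply hχ.1
          intro x hx
          apply Subtype.ext
          rw [ha]
          refine hQ.cm1 S hSk ?_ _ hx
          rw [hS ⟨w, hQ.EK hwE⟩]
          exact congrArg Subtype.val e1
        rw [h7, h8, one_mul, e2, mul_one]
      · have h8 : ((χ (s' * s⁻¹) : Fˣ) : F) = -1 := by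
          apply hχ.2
          intro x y hxy
          rw [ha, hxy]
          refine hQ.cm2 S hSk ?_ y
          rw [hS ⟨w, hQ.EK hwE⟩]
          exact congrArg Subtype.val e1
        rw [h7, Units.val_mul, h8, e2]
        ring
  -- a uniform exponent
  have hfin : Finite ((↥K₀ ≃ₐ[k] ↥K₀) →* Fˣ) := finChar _ _
  have hunif : ∃ l, ∀ χ ∈ X, NilC F k K₀ B hk₀ hkK χ l := by
    have h6 : ∀ χ : (↥K₀ ≃ₐ[k] ↥K₀) →* Fˣ, ∃ l, χ ∈ X → NilC F k K₀ B hk₀ hkK χ l := by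
      intro χ
      by_cases h7 : χ ∈ X
      · obtain ⟨l, hl⟩ := hXnil χ h7
        exact ⟨l, fun _ => hl⟩
      · exact ⟨0, fun h8 => absurd h8 h7⟩
    choose l hl using h6
    obtain ⟨M, hM⟩ := (Set.finite_range l).bddAbove
    exact ⟨M, fun χ hχ => nilMono (hM ⟨χ, rfl⟩) (hl χ hχ)⟩
  obtain ⟨l, hl⟩ := hunif
  refine h2 F 5 k K₀ E B hBk hBE hBS hdKk hdKE hk₀ hkK hEB l X hl ?_
  intro n χ hχ f hf b
  by_contra hne
  exact hχ (h3 E k K₀ w ρ σ hQ B F hlay hmono n (hk₀ n) hkK (hEB n) χ f hf b hne)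

end Pool.Agent.OB
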