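import Pool.Agent.OB.StF2
import Pool.Agent.OB.F_TWO
import Pool.Agent.OB.F_CNJ
import Pool.Agent.OB.Q_QRT
import Pool.Agent.VB.VFinal

/-!
# OB, `p = 5`: central extensions of imaginary biquadratic fields which contain `√5` (helper84)
-/

set_option autoImplicit false

open NumberField

namespace Pool.Agent.OBF

open _root_.Pool.Agent.RI _root_.Pool.Agent.RID _root_.Pool.Agent.MU3 _root_.Pool.Agent.MUXK
  _root_.Pool.Agent.MUXZ _root_.Pool.Agent.NSI _root_.Pool.Agent.OB

/-- `s' = c⁻¹ s c` on `K`, `c` the complex conjugation. -/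
def Cj {k K : IntermediateField ℚ ℂ} {h : k ≤ K} (s s' : MuCyc.Gal h) : Prop :=
  ∀ x y : IntermediateField.extendScalars h, (y : ℂ) = (starRingEnd ℂ) x →
    ((s y : IntermediateField.extendScalars h) : ℂ) =
      (starRingEnd ℂ) (s' x : IntermediateField.extendScalars h)

/-- (CEN) `K/k` abelian, stable under complex conjugation, `√5 ∈ K`; the automorphisms which fix `√5` commute with complex
conjugation. -/
def Sf_CEN : Prop := ∀ (k K' K : IntermediateField ℚ ℂ) (_ : k ≤ K') (_ : K' ≤ K) (h : k ≤ K),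
  Bs 5 h → (∀ z ∈ K, (starRingEnd ℂ) z ∈ K) → (∃ w ∈ K, w ^ 2 = 5) →
  (∀ s s' : MuCyc.Gal h, Cj s s' →
    (∀ x : IntermediateField.extendScalars h, x ^ 2 = 5 → s x = x) → s' = s) →
  (∀ x : IntermediateField.extendScalars h, (∀ s s' : MuCyc.Gal h, Cj s s' → s' x = s x) →
    (x : ℂ) ∈ K') →
  ∃ C : ℕ, ∀ (n : ℕ) (Q : IntermediateField ℚ ℂ), MuCyc.IsLayer 5 n Q →
    padicValNat 5 (MuCyc.classNo (K ⊔ Q)) ≤
      padicValNat 5 (MuCyc.classNo (K' ⊔ Q)) + C * (n + 1) ^ 2

namespace Cen

/-- Adjoining the fifth roots of unity. -/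
lemma fld (hNRM : _root_.Pool.Agent.VB.Sb_NRM) (k K : IntermediateField ℚ ℂ) (h : k ≤ K)
    (hb : Bs 5 h) : ¬ 5 ∣ Module.finrank ℚ K ∧
    ∃ (K₁ : IntermediateField ℚ ℂ) (hK₁ : k ≤ K₁), K ≤ K₁ ∧ Bs 5 hK₁ ∧
    (∃ ζ ∈ K₁, IsPrimitiveRoot ζ 5) ∧ ¬ 5 ∣ Module.finrank ℚ K₁ ∧
    ((∀ z ∈ K, (starRingEnd ℂ) z ∈ K) → ∀ z ∈ K₁, (starRingEnd ℂ) z ∈ K₁) := by
  have := hb.fin
  have hfk : FiniteDimensional ℚ k :=
    Module.finite_of_finrank_pos (by rw [hb.k2]; norm_num)
  have hm : ∀ (M : IntermediateField ℚ ℂ) (hM : k ≤ M),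
      2 * Module.finrank k (IntermediateField.extendScalars hM) = Module.finrank ℚ M := by
    intro M hM
    have h1 : Module.finrank ℚ k * Module.finrank k (IntermediateField.extendScalars hM) =
        Module.finrank ℚ M :=
      Module.finrank_mul_finrank ℚ k (IntermediateField.extendScalars hM)
    rw [← h1, hb.k2]
  have hp5 : Nat.Prime 5 := by norm_num
  have hd : ¬ 5 ∣ Module.finrank ℚ K := by
    rw [← hm K h, hp5.dvd_mul]
    rintro (h1 | h1)
    · omega
    · exact hb.cop h1
  refine ⟨hd, ?_⟩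
  obtain ⟨ζ, hζ⟩ : ∃ ζ : ℂ, IsPrimitiveRoot ζ 5 :=
    ⟨_, Complex.isPrimitiveRoot_exp 5 (by norm_num)⟩
  obtain ⟨hfd, hk₁, hgal, hab⟩ := _root_.Pool.Agent.VB.abE_zeta hNRM 5 (by norm_num)
    (⟨h, hb.gal, hb.ab⟩ : _root_.Pool.Agent.VB.AbE k K) ζ hζ
  set K₁ := K ⊔ IntermediateField.adjoin ℚ {ζ} with hK₁
  have hint : IsIntegral ℚ ζ := by
    have : IsIntegral ℤ ζ := hζ.isIntegral (by norm_num)
    exact this.tower_top
  have h4 : Module.finrank ℚ (IntermediateField.adjoin ℚ {ζ}) = 4 := by
    rw [IntermediateField.adjoin.finrank hint,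
      ← Polynomial.cyclotomic_eq_minpoly_rat hζ (by norm_num),
      Polynomial.natDegree_cyclotomic, Nat.totient_prime hp5]
  have hle : K ≤ K₁ := le_sup_left
  have hmm : Module.finrank ℚ K * Module.finrank K (IntermediateField.extendScalars hle) =
      Module.finrank ℚ K₁ :=
    Module.finrank_mul_finrank ℚ K (IntermediateField.extendScalars hle)
  have h5 : Module.finrank ℚ K₁ ≤ Module.finrank ℚ K * 4 := by
    rw [← h4]
    exact IntermediateField.finrank_sup_le K _
  have hpos : 0 < Module.finrank ℚ K := Module.finrank_pos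
  have hpos₁ : 0 < Module.finrank ℚ K₁ := Module.finrank_pos
  have h6 : Module.finrank K (IntermediateField.extendScalars hle) ≤ 4 := by
    rw [← hmm] at h5
    exact Nat.le_of_mul_le_mul_left h5 hpos
  have h7 : 0 < Module.finrank K (IntermediateField.extendScalars hle) := by
    rw [← hmm] at hpos₁
    exact Nat.pos_of_ne_zero (fun h8 => by rw [h8, mul_zero] at hpos₁; exact absurd hpos₁ (lt_irrefl 0))
  have hd₁ : ¬ 5 ∣ Module.finrank ℚ K₁ := by
    rw [← hmm, hp5.dvd_mul]
    rintro (h1 | h1)
    · exact hd h1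
    · exact absurd (Nat.le_of_dvd h7 h1) (by omega)
  have hζK : ζ ∈ K₁ := (le_sup_right : IntermediateField.adjoin ℚ {ζ} ≤ K₁)
    (IntermediateField.mem_adjoin_simple_self ℚ ζ)
  refine ⟨K₁, hk₁, hle, ⟨hfd, hb.k2, hb.im, hb.n4, hb.n3, hgal, hab, ?_⟩, ⟨ζ, hζK, hζ⟩, hd₁, ?_⟩
  · intro h1
    apply hd₁
    rw [← hm K₁ hk₁]
    exact h1.mul_left 2
  · intro hst
    let c : ℂ →ₐ[ℚ] ℂ := (Complex.conjAe.toAlgHom).restrictScalars ℚ
    have h8 : K₁ ≤ K₁.comap c := by
      rw [hK₁]
      refine sup_le ?_ ?_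
      · intro x hx
        exact (le_sup_left : K ≤ K ⊔ IntermediateField.adjoin ℚ {ζ}) (hst x hx)
      · rw [IntermediateField.adjoin_simple_le_iff]
        show (starRingEnd ℂ) ζ ∈ K ⊔ IntermediateField.adjoin ℚ {ζ}
        have h9 : (starRingEnd ℂ) ζ = ζ⁻¹ := by
          rw [← Complex.inv_eq_conj]
          exact Complex.norm_eq_one_of_pow_eq_one hζ.pow_eq_one (by norm_num)
        rw [h9]
        exact inv_mem hζK
    intro z hz
    exact h8 hz

end Cen

open Cen in
theorem tf_CEN (hP5 : Sf_P5) (hIFM : Sf_IFM) (hREL : Sf_REL)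
    (hNRM : _root_.Pool.Agent.VB.Sb_NRM) : Sf_CEN := by
  have : Fact (Nat.Prime 5) := ⟨by norm_num⟩
  intro k K' K h1 h2 h hb hst hw hcen hK'
  have hfd := hb.fin
  have hfdk : FiniteDimensional k (IntermediateField.extendScalars h) := by
    have h1 : FiniteDimensional ℚ (IntermediateField.extendScalars h) := hfd
    exact Module.Finite.of_restrictScalars_finite ℚ k _
  obtain ⟨hd, K₁, hK₁, hle, hb₁, hz, hd₁, hst₁⟩ := fld hNRM k K h hb
  have hfd₁ := hb₁.fin
  refine hREL 5 (by norm_num) k K' K h1 h2 h hb.fin hb.gal hb.ab hd ?_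
  rintro χ ⟨s₀, hs₀, hχ⟩
  -- restriction from `K₁` to `K`
  have hE : IntermediateField.extendScalars h ≤ IntermediateField.extendScalars hK₁ :=
    fun x hx => hle hx
  let aE : Algebra (IntermediateField.extendScalars h) (IntermediateField.extendScalars hK₁) :=
    (IntermediateField.inclusion hE).toRingHom.toAlgebra
  have tow : IsScalarTower k (IntermediateField.extendScalars h)
    (IntermediateField.extendScalars hK₁) := IsScalarTower.of_algebraMap_eq fun x => rfl
  have hgal := hb.gal
  have hnorm : Normal k (IntermediateField.extendScalars h) := hgal.to_normal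
  let r : MuCyc.Gal hK₁ →* MuCyc.Gal h :=
    AlgEquiv.restrictNormalHom (IntermediateField.extendScalars h)
  have hr : ∀ (s : MuCyc.Gal hK₁) (x : IntermediateField.extendScalars h)
      (x' : IntermediateField.extendScalars hK₁), (x' : ℂ) = x →
      ((s x' : IntermediateField.extendScalars hK₁) : ℂ) =
        (r s x : IntermediateField.extendScalars h) := by
    intro s x x' hx
    have e1 := AlgEquiv.restrictNormal_commutes s (IntermediateField.extendScalars h) x
    have e2 : algebraMap (IntermediateField.extendScalars h)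
        (IntermediateField.extendScalars hK₁) x = x' := Subtype.ext hx.symm
    rw [e2] at e1
    rw [← e1]
    rfl
  let χ' : MuCyc.Chr 5 hK₁ := χ.comp r
  have hχ' : ∀ s, χ' s = χ (r s) := fun _ => rfl
  refine hIFM 5 (by norm_num) k K K₁ h hK₁ hle hb₁.fin hb₁.gal hb₁.ab hd₁ χ χ' ?_ ?_
  · intro s s' hss
    rw [hχ']
    congr 1
    apply AlgEquiv.ext
    intro x
    apply Subtype.ext
    rw [← hss x ⟨x, hle x.2⟩ rfl]
    exact (hr s' x ⟨x, hle x.2⟩ rfl).symm
  · obtain ⟨ω, hω, hω1, -⟩ := exists_omega 5 hK₁ hz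
    refine hP5 5 rfl k K₁ hK₁ hb₁ hz χ' (χ' * ω ^ 2) ((hω _ _ _).2 rfl)
      ⟨0, Or.inr ⟨hst₁ hst, χ' * ω ^ 2, ?_, ?_⟩⟩ 0 χ' ?_
    · -- conjugate characters
      intro s s' hss
      obtain ⟨w, hwK, hw5⟩ := hw
      obtain ⟨ζ₀, hζ₀, hpr⟩ := id hz
      let ζ : IntermediateField.extendScalars hK₁ := ⟨ζ₀, hζ₀⟩
      have hζ : IsPrimitiveRoot ζ 5 := by
        refine IsPrimitiveRoot.of_map_of_injective
          (f := algebraMap (IntermediateField.extendScalars hK₁) ℂ) ?_
          (algebraMap (IntermediateField.extendScalars hK₁) ℂ).injective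
        exact hpr
      obtain ⟨c, hc1, hc2⟩ := hω1 s'
      let W : IntermediateField.extendScalars hK₁ := ⟨w, hle hwK⟩
      let V : IntermediateField.extendScalars h := ⟨w, hwK⟩
      have hW : W ^ 2 = 5 := Subtype.ext hw5
      have hV : V ^ 2 = 5 := Subtype.ext hw5
      have hwr : (starRingEnd ℂ) w = w := by
        have e1 : ((starRingEnd ℂ) w) ^ 2 = w ^ 2 := by
          rw [← map_pow, hw5]
          exact Complex.conj_ofNat 5
        rcases sq_eq_sq_iff_eq_or_eq_neg.1 e1 with e2 | e2
        · exact e2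
        · exfalso
          have e3 := Complex.mul_conj w
          rw [e2, mul_neg, ← pow_two, hw5] at e3
          have e4 : (-5 : ℝ) = Complex.normSq w := by
            have := congrArg Complex.re e3
            simpa using this
          have e5 := Complex.normSq_nonneg w
          linarith
      -- conjugate pairs
      have hcj : Cj (r s) (r s') := by
        intro x y hxy
        have e1 := hss ⟨x, hle x.2⟩ ⟨y, hle y.2⟩ hxy
        rw [hr s y ⟨y, hle y.2⟩ rfl, hr s' x ⟨x, hle x.2⟩ rfl] at e1
        exact e1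
      have hcj' : Cj (r s') (r s) := by
        intro x y hxy
        have e1 : (x : ℂ) = (starRingEnd ℂ) y := by rw [hxy, Complex.conj_conj]
        rw [hcj y x e1, Complex.conj_conj]
      have hmul : ∀ {a a' b b' : MuCyc.Gal h}, Cj a a' → Cj b b' → Cj (a * b) (a' * b') := by
        intro a a' b b' ha hb' x y hxy
        exact ha (b' x) (b y) (hb' x y hxy)
      have hinv : ∀ {a a' : MuCyc.Gal h}, Cj a a' → Cj a⁻¹ a'⁻¹ := by
        intro a a' ha x y hxy
        have hy : (starRingEnd ℂ) ((a'⁻¹ x : IntermediateField.extendScalars h) : ℂ) ∈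
            IntermediateField.extendScalars h := hst _ (a'⁻¹ x).2
        have e1 := ha (a'⁻¹ x) ⟨_, hy⟩ rfl
        have e2 : a' (a'⁻¹ x) = x := a'.apply_symm_apply x
        rw [e2, ← hxy] at e1
        have e3 : a ⟨_, hy⟩ = y := Subtype.ext e1
        have e4 : a⁻¹ y = ⟨_, hy⟩ := by
          rw [← e3]
          exact a.symm_apply_apply _
        rw [e4]
      have hval : ((χ' * ω ^ 2) s' : (AlgebraicClosure (ZMod 5))ˣ) = χ' s' * (ω s') ^ 2 := rfl
      have hfix : ∀ a : MuCyc.Gal h, a V = V →
          ∀ x : IntermediateField.extendScalars h, x ^ 2 = 5 → a x = x := by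
        intro a ha x hx
        rw [← hV] at hx
        rcases sq_eq_sq_iff_eq_or_eq_neg.1 hx with e | e
        · rw [e, ha]
        · rw [e, map_neg, ha]
      show ((χ' * ω ^ 2) s' : (AlgebraicClosure (ZMod 5))ˣ) = χ' s
      rw [hval]
      apply Units.ext
      rw [Units.val_mul, Units.val_pow_eq_pow_val, hc2]
      have hrs' : ((r s' V : IntermediateField.extendScalars h) : ℂ) =
          (s' W : IntermediateField.extendScalars hK₁) := (hr s' V W rfl).symm
      have hrs : ((r s V : IntermediateField.extendScalars h) : ℂ) =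
          (starRingEnd ℂ) (s' W : IntermediateField.extendScalars hK₁) := by
        rw [← hrs']
        exact hcj V V hwr.symm
      rcases _root_.Pool.Agent.OB.QRT.wsq (F := AlgebraicClosure (ZMod 5))
        (s' : IntermediateField.extendScalars hK₁ →+* IntermediateField.extendScalars hK₁)
        ζ hζ W hW c (hc1 ζ hζ.pow_eq_one) with ⟨e1, e2⟩ | ⟨e1, e2⟩
      · -- `w` is fixed
        have e3 : s' W = W := e1
        rw [e3] at hrs
        have e4 : r s V = V := Subtype.ext (hrs.trans hwr)
        have e5 := hcen (r s) (r s') hcj (hfix _ e4)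
        rw [e2, mul_one, hχ', hχ', e5]
      · have e3 : s' W = -W := e1
        rw [e3] at hrs hrs'
        have e4 : r s V = -V := by
          apply Subtype.ext
          rw [hrs]
          show (starRingEnd ℂ) (-w) = -w
          rw [map_neg, hwr]
        have e4' : r s' V = -V := Subtype.ext hrs'
        -- the element `z`
        set z : MuCyc.Gal h := (r s)⁻¹ * r s' with hzdef
        have e5 : ∀ a : MuCyc.Gal h, a V = -V → a⁻¹ V = -V := by
          intro a ha
          have e6 : a (-V) = V := by rw [map_neg, ha, neg_neg]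
          rw [← e6]
          have e7 : a⁻¹ (a (-V)) = -V := a.symm_apply_apply _
          rw [e7, e6]
        have hzV : z V = V := by
          show (r s)⁻¹ (r s' V) = V
          rw [e4', map_neg, e5 _ e4, neg_neg]
        have hzc : Cj z z⁻¹ := by
          have e6 := hmul (hinv hcj) hcj'
          have e7 : z⁻¹ = (r s')⁻¹ * r s := by rw [hzdef, mul_inv_rev, inv_inv]
          rw [e7]
          exact e6
        have hz1 : z⁻¹ = z := hcen z z⁻¹ hzc (hfix z hzV)
        have hz2 : z ^ 2 = 1 := by
          rw [pow_two]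
          nth_rewrite 1 [← hz1]
          exact inv_mul_cancel z
        -- `χ z ≠ 1`
        have hχz : χ z ≠ 1 := by
          intro e6
          apply hχ
          -- conjugates differ by `z`
          have e7 : ∀ t t' : MuCyc.Gal h, Cj t t' → t' = t ∨ t' = t * z := by
            intro t t' ht
            have e8 : (t V) ^ 2 = V ^ 2 := by rw [← map_pow, hV, map_ofNat]
            rcases sq_eq_sq_iff_eq_or_eq_neg.1 e8 with e9 | e9
            · exact Or.inl (hcen t t' ht (hfix t e9))
            · right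
              have e10 : ((r s)⁻¹ * t) V = V := by
                show (r s)⁻¹ (t V) = V
                rw [e9, map_neg, e5 _ e4, neg_neg]
              have e11 := hcen _ _ (hmul (hinv hcj) ht) (hfix _ e10)
              have e12 : t' = r s' * ((r s)⁻¹ * t) := by rw [← e11, mul_inv_cancel_left]
              rw [e12, hzdef, hb.ab t ((r s)⁻¹ * r s'), hb.ab (r s)⁻¹ (r s'), mul_assoc]
          -- the fixed field of `z`
          have e8 : s₀ ∈ Subgroup.zpowers z := by
            have e9 : s₀ ∈ (IntermediateField.fixedField (Subgroup.zpowers z)).fixingSubgroup := by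
              rw [IntermediateField.mem_fixingSubgroup_iff]
              intro x hx
              apply hs₀
              apply hK'
              intro t t' ht
              have e10 : z x = x := hx ⟨z, Subgroup.mem_zpowers z⟩
              rcases e7 t t' ht with e11 | e11
              · rw [e11]
              · rw [e11, AlgEquiv.mul_apply, e10]
            rwa [IntermediateField.fixingSubgroup_fixedField] at e9
          obtain ⟨i, rfl⟩ := e8
          show χ (z ^ i) = 1
          rw [map_zpow, e6, one_zpow]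
        have e6 : ((χ z : (AlgebraicClosure (ZMod 5))ˣ) : AlgebraicClosure (ZMod 5)) = -1 := by
          have e7 : ((χ z : (AlgebraicClosure (ZMod 5))ˣ) : AlgebraicClosure (ZMod 5)) ^ 2 =
              1 ^ 2 := by
            rw [← Units.val_pow_eq_pow_val, ← map_pow, hz2, map_one, one_pow]
            rfl
          rcases sq_eq_sq_iff_eq_or_eq_neg.1 e7 with e8 | e8
          · exact absurd (Units.ext e8) hχz
          · exact e8
        have e7 : r s' = r s * z := by rw [hzdef, mul_inv_cancel_left]
        rw [e2, hχ', hχ', e7, map_mul, Units.val_mul, e6]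
        ring
    · rw [pow_zero]
      exact (pow_one (χ' * ω ^ 2)).symm
    · intro s c _
      rw [pow_zero, mul_one]

end Pool.Agent.OBF
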