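import Pool.Agent.OB.StQ
import Pool.Agent.MUX.UAll

/-!
# OB, the corollary for `p = 5`: QFT, the field theory (helper28)
-/

set_option autoImplicit false

namespace Pool.Agent.OB.QFTx

section quad
open Module

theorem int_of_sq {F K : Type*} [Field F] [Field K] [Algebra F K] {m : K} {c : F}
    (hm : m ^ 2 = algebraMap F K c) : IsIntegral F m := by
  refine ⟨Polynomial.X ^ 2 - Polynomial.C c, Polynomial.monic_X_pow_sub_C c two_ne_zero, ?_⟩
  simp [hm]

/-- the elements of `F(m)`, `m² = c` -/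
theorem mem_Q {F K : Type*} [Field F] [Field K] [Algebra F K] {m : K} {c : F}
    (hm : m ^ 2 = algebraMap F K c) {x : K} (hx : x ∈ IntermediateField.adjoin F {m}) :
    ∃ p q : F, x = algebraMap F K p + algebraMap F K q * m := by
  have hx' : x ∈ (IntermediateField.adjoin F {m}).toSubalgebra := hx
  rw [IntermediateField.adjoin_simple_toSubalgebra_of_isAlgebraic (int_of_sq hm).isAlgebraic] at hx'
  induction hx' using Algebra.adjoin_induction with
  | mem y hy => exact ⟨0, 1, by rw [Set.mem_singleton_iff.1 hy]; simp⟩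
  | algebraMap r => exact ⟨r, 0, by simp⟩
  | add y z hy hz ihy ihz =>
    obtain ⟨p, q, rfl⟩ := ihy (by
      rw [← IntermediateField.mem_toSubalgebra,
        IntermediateField.adjoin_simple_toSubalgebra_of_isAlgebraic (int_of_sq hm).isAlgebraic]
      exact hy)
    obtain ⟨p', q', rfl⟩ := ihz (by
      rw [← IntermediateField.mem_toSubalgebra,
        IntermediateField.adjoin_simple_toSubalgebra_of_isAlgebraic (int_of_sq hm).isAlgebraic]
      exact hz)
    exact ⟨p + p', q + q', by rw [map_add, map_add]; ring⟩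
  | mul y z hy hz ihy ihz =>
    obtain ⟨p, q, rfl⟩ := ihy (by
      rw [← IntermediateField.mem_toSubalgebra,
        IntermediateField.adjoin_simple_toSubalgebra_of_isAlgebraic (int_of_sq hm).isAlgebraic]
      exact hy)
    obtain ⟨p', q', rfl⟩ := ihz (by
      rw [← IntermediateField.mem_toSubalgebra,
        IntermediateField.adjoin_simple_toSubalgebra_of_isAlgebraic (int_of_sq hm).isAlgebraic]
      exact hz)
    refine ⟨p * p' + q * q' * c, p * q' + q * p', ?_⟩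
    simp only [map_add, map_mul]
    rw [← hm]
    ring

theorem finrank_Q {K : Type*} [Field K] [Algebra ℚ K] {m : K} {c : ℚ}
    (hm : m ^ 2 = algebraMap ℚ K c) (hn : ∀ q : ℚ, algebraMap ℚ K q ≠ m) :
    finrank ℚ (IntermediateField.adjoin ℚ {m}) = 2 := by
  rw [IntermediateField.adjoin.finrank (int_of_sq hm)]
  have h1 : (minpoly ℚ m).natDegree ≤ 2 := by
    have h2 : minpoly ℚ m ∣ Polynomial.X ^ 2 - Polynomial.C c := minpoly.dvd _ _ (by simp [hm])
    have h3 := Polynomial.natDegree_le_of_dvd h2 (Polynomial.monic_X_pow_sub_C c two_ne_zero).ne_zero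
    rwa [Polynomial.natDegree_X_pow_sub_C] at h3
  have h2 : (minpoly ℚ m).natDegree ≠ 1 := by
    rw [ne_eq, minpoly.natDegree_eq_one_iff]
    rintro ⟨q, hq⟩
    exact hn q hq
  have h3 : 0 < (minpoly ℚ m).natDegree := minpoly.natDegree_pos (int_of_sq hm)
  omega

theorem no5 (q : ℚ) : q ^ 2 ≠ 5 := by
  intro h
  have h1 : IsSquare ((5 : ℕ) : ℚ) := ⟨q, by rw [← pow_two, h]; norm_num⟩
  rw [Rat.isSquare_natCast_iff] at h1
  obtain ⟨r, hr⟩ := h1
  have : r ≤ 2 := by nlinarith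
  interval_cases r <;> omega

theorem no15 (q : ℚ) : q ^ 2 ≠ 15 := by
  intro h
  have h1 : IsSquare ((15 : ℕ) : ℚ) := ⟨q, by rw [← pow_two, h]; norm_num⟩
  rw [Rat.isSquare_natCast_iff] at h1
  obtain ⟨r, hr⟩ := h1
  have : r ≤ 3 := by nlinarith
  interval_cases r <;> omega

/-- the involution of a quartic field over `ℚ(w)` -/
theorem exists_rho {E : Type*} [Field E] [Algebra ℚ E] (h4 : finrank ℚ E = 4) (w : E)
    (w5 : w ^ 2 = 5) :
    ∃ ρ : E ≃ₐ[ℚ] E, ρ w = w ∧ (∀ x, ρ (ρ x) = x) ∧ (∃ x, ρ x ≠ x) ∧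
      ∀ x, ρ x = x → x ∈ IntermediateField.adjoin ℚ {w} := by
  have : FiniteDimensional ℚ E := FiniteDimensional.of_finrank_pos (by omega)
  have w5' : w ^ 2 = algebraMap ℚ E 5 := by rw [w5]; simp
  have hF : finrank ℚ (IntermediateField.adjoin ℚ {w}) = 2 := by
    refine finrank_Q w5' fun q hq => no5 q ?_
    have : algebraMap ℚ E (q ^ 2) = algebraMap ℚ E 5 := by rw [map_pow, hq, w5']
    exact (algebraMap ℚ E).injective this
  have h2 : finrank (IntermediateField.adjoin ℚ {w}) E = 2 := by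
    have h3 := finrank_mul_finrank ℚ (IntermediateField.adjoin ℚ {w}) E
    rw [hF, h4] at h3
    omega
  have hq : Algebra.IsQuadraticExtension (IntermediateField.adjoin ℚ {w}) E := ⟨h2⟩
  have hcard : Nat.card (E ≃ₐ[IntermediateField.adjoin ℚ {w}] E) = 2 := by
    rw [IsGalois.card_aut_eq_finrank, h2]
  have : Finite (E ≃ₐ[IntermediateField.adjoin ℚ {w}] E) := Nat.finite_of_card_ne_zero (by omega)
  have hnt : Nontrivial (E ≃ₐ[IntermediateField.adjoin ℚ {w}] E) :=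
    Finite.one_lt_card_iff_nontrivial.1 (by omega)
  obtain ⟨g, hg⟩ := exists_ne (1 : E ≃ₐ[IntermediateField.adjoin ℚ {w}] E)
  have hg2 : g * g = 1 := by
    have h3 : g ^ Nat.card (E ≃ₐ[IntermediateField.adjoin ℚ {w}] E) = 1 := pow_card_eq_one'
    rwa [hcard, pow_two] at h3
  refine ⟨g.restrictScalars ℚ, ?_, fun x => ?_, ?_, fun x hx => ?_⟩
  · exact g.commutes ⟨w, IntermediateField.mem_adjoin_simple_self ℚ w⟩
  · exact DFunLike.congr_fun hg2 x
  · by_contra hc
    push Not at hc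
    exact hg (AlgEquiv.ext hc)
  · have hx' : g x = x := hx
    have h3 : ∀ h : E ≃ₐ[IntermediateField.adjoin ℚ {w}] E, h = 1 ∨ h = g := by
      intro h
      by_contra hc
      push Not at hc
      have h4 : Nat.card ({1, g, h} : Set (E ≃ₐ[IntermediateField.adjoin ℚ {w}] E)) ≤ 2 := by
        rw [← hcard]
        exact Finite.card_subtype_le _
      have h5 : ({1, g, h} : Set (E ≃ₐ[IntermediateField.adjoin ℚ {w}] E)).ncard = 3 :=
        Set.ncard_eq_three.2 ⟨1, g, h, hg.symm, hc.1.symm, hc.2.symm, rfl⟩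
      rw [Nat.card_coe_set_eq, h5] at h4
      omega
    have h4 : x ∈ (⊥ : IntermediateField (IntermediateField.adjoin ℚ {w}) E) := by
      rw [IsGalois.mem_bot_iff_fixed]
      intro h
      rcases h3 h with rfl | rfl
      · rfl
      · exact hx'
    obtain ⟨y, rfl⟩ := IntermediateField.mem_bot.1 h4
    exact y.2


/-- generator of `E` over `ℚ(w)` -/
theorem exists_beta {E : Type*} [Field E] [Algebra ℚ E] (w : E)
    (w5 : w ^ 2 = 5) (ρ : E ≃ₐ[ℚ] E) (hr : ∀ x, ρ (ρ x) = x) (hn : ∃ x, ρ x ≠ x)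
    (hf : ∀ x, ρ x = x → x ∈ IntermediateField.adjoin ℚ {w}) :
    ∃ (β : E) (a b : ℚ), ρ β = -β ∧ β ≠ 0 ∧ β ^ 2 = algebraMap ℚ E a + algebraMap ℚ E b * w ∧
      ∀ x, ∃ p q r s : ℚ, x = algebraMap ℚ E p + algebraMap ℚ E q * w +
        (algebraMap ℚ E r + algebraMap ℚ E s * w) * β := by
  have : CharZero E := algebraRat.charZero E
  have w5' : w ^ 2 = algebraMap ℚ E 5 := by rw [w5]; simp
  obtain ⟨x₀, hx₀⟩ := hn
  have hβ : ρ (x₀ - ρ x₀) = -(x₀ - ρ x₀) := by rw [map_sub, hr]; ring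
  have h0 : x₀ - ρ x₀ ≠ 0 := fun h => hx₀ (sub_eq_zero.1 h).symm
  obtain ⟨a, b, hab⟩ := mem_Q w5' (hf ((x₀ - ρ x₀) ^ 2) (by rw [map_pow, hβ]; ring))
  refine ⟨x₀ - ρ x₀, a, b, hβ, h0, hab, fun x => ?_⟩
  obtain ⟨p, q, h1⟩ := mem_Q w5' (hf ((x + ρ x) / 2) (by
    rw [map_div₀, map_add, hr, map_ofNat, add_comm]))
  obtain ⟨r, s, h2⟩ := mem_Q w5' (hf ((x - ρ x) / (2 * (x₀ - ρ x₀))) (by
    rw [map_div₀, map_sub, hr, map_mul, hβ, map_ofNat, mul_neg, div_neg, ← neg_div, neg_sub]))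
  refine ⟨p, q, r, s, ?_⟩
  rw [← h1, ← h2]
  field_simp
  ring

theorem real_sq {z : ℂ} {c : ℝ} (hc : 0 ≤ c) (hz : z ^ 2 = (c : ℂ)) :
    (starRingEnd ℂ) z = z := by
  have h1 : (z - (Real.sqrt c : ℝ)) * (z + (Real.sqrt c : ℝ)) = 0 := by
    have h2 : ((Real.sqrt c : ℝ) : ℂ) ^ 2 = (c : ℂ) := by
      rw [← Complex.ofReal_pow, Real.sq_sqrt hc]
    linear_combination hz - h2
  rcases mul_eq_zero.1 h1 with h | h
  · rw [sub_eq_zero.1 h, Complex.conj_ofReal]
  · rw [eq_neg_of_add_eq_zero_left h, map_neg, Complex.conj_ofReal]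

/-- the signs -/
theorem neg {E : Type*} [Field E] [Algebra ℚ E] (w β : E) (a b : ℚ) (w5 : w ^ 2 = 5)
    (hβ : β ^ 2 = algebraMap ℚ E a + algebraMap ℚ E b * w) (hβ0 : β ≠ 0)
    (hgen : ∀ x, ∃ p q r s : ℚ, x = algebraMap ℚ E p + algebraMap ℚ E q * w +
        (algebraMap ℚ E r + algebraMap ℚ E s * w) * β)
    (h₁ : ∃ φ : E →+* ℂ, ∀ x, (starRingEnd ℂ) (φ x) = φ x)
    (h₂ : ∃ φ : E →+* ℂ, ∃ x, (starRingEnd ℂ) (φ x) ≠ φ x) : a ^ 2 - 5 * b ^ 2 < 0 := by
  obtain ⟨φ₁, h₁⟩ := h₁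
  obtain ⟨φ₂, x₂, h₂⟩ := h₂
  have hQ : ∀ (φ : E →+* ℂ) (q : ℚ), φ (algebraMap ℚ E q) = (q : ℂ) := fun φ q => by
    rw [eq_ratCast (algebraMap ℚ E) q, map_ratCast]
  -- `φ₂ β` is not real
  have key : (starRingEnd ℂ) (φ₂ β) ≠ φ₂ β := by
    intro hb
    have hw : (starRingEnd ℂ) (φ₂ w) = φ₂ w := by
      refine real_sq (c := 5) (by norm_num) ?_
      rw [← map_pow, w5, map_ofNat]
      norm_num
    apply h₂
    obtain ⟨p, q, r, s, rfl⟩ := hgen x₂
    simp only [map_add, map_mul, hQ, hw, hb, map_ratCast]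
  have e1 : φ₁ β ^ 2 = a + b * φ₁ w := by rw [← map_pow, hβ, map_add, map_mul, hQ, hQ]
  have e2 : φ₂ β ^ 2 = a + b * φ₂ w := by rw [← map_pow, hβ, map_add, map_mul, hQ, hQ]
  obtain ⟨t, ht⟩ := Complex.conj_eq_iff_real.1 (h₁ w)
  obtain ⟨s, hs⟩ := Complex.conj_eq_iff_real.1 (h₁ β)
  have ht5 : t ^ 2 = 5 := by
    have h1 : ((t : ℂ)) ^ 2 = 5 := by rw [← ht, ← map_pow, w5, map_ofNat]
    exact_mod_cast h1
  have hst : s ^ 2 = a + b * t := by
    rw [ht, hs] at e1
    exact_mod_cast e1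
  have hs0 : s ≠ 0 := by
    rintro rfl
    apply hβ0
    rw [Complex.ofReal_zero] at hs
    exact (map_eq_zero φ₁).1 hs
  have hw2 : (φ₂ w - t) * (φ₂ w + t) = 0 := by
    have h1 : φ₂ w ^ 2 = 5 := by rw [← map_pow, w5, map_ofNat]
    have h2 : ((t : ℂ)) ^ 2 = 5 := by exact_mod_cast ht5
    linear_combination h1 - h2
  rcases mul_eq_zero.1 hw2 with h | h
  · exfalso
    apply key
    refine real_sq (c := s ^ 2) (sq_nonneg _) ?_
    rw [e2, sub_eq_zero.1 h, hst]
    push_cast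
    ring
  · have h3 : (a : ℝ) - b * t < 0 := by
      by_contra hc
      push Not at hc
      apply key
      refine real_sq (c := a - b * t) hc ?_
      rw [e2, eq_neg_of_add_eq_zero_left h]
      push_cast
      ring
    have h4 : 0 < (a : ℝ) + b * t := by rw [← hst]; positivity
    have h5 : ((a : ℝ) + b * t) * (a - b * t) < 0 := mul_neg_of_pos_of_neg h4 h3
    have h6 : ((a : ℝ) ^ 2 - 5 * b ^ 2) < 0 := by nlinarith
    exact_mod_cast h6

theorem choose_N (N : ℚ) :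
    (∀ y : ℚ, y ^ 2 * N ≠ -1 ∧ y ^ 2 * N ≠ -3) ∨
      (∀ y : ℚ, y ^ 2 * (5 * N) ≠ -1 ∧ y ^ 2 * (5 * N) ≠ -3) := by
  by_contra hc
  push Not at hc
  obtain ⟨⟨y, hy⟩, ⟨z, hz⟩⟩ := hc
  have hy' : y ^ 2 * N = -1 ∨ y ^ 2 * N = -3 := by tauto
  have hz' : z ^ 2 * (5 * N) = -1 ∨ z ^ 2 * (5 * N) = -3 := by tauto
  have hz0 : z ≠ 0 := by
    rintro rfl
    rcases hz' with h | h <;> norm_num at h
  rcases hy' with h | h <;> rcases hz' with h' | h'
  · refine no5 (y / z) ?_
    rw [div_pow, div_eq_iff (pow_ne_zero 2 hz0)]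
    linear_combination (y ^ 2) * h' - 5 * z ^ 2 * h
  · refine no15 (3 * y / z) ?_
    rw [div_pow, div_eq_iff (pow_ne_zero 2 hz0)]
    linear_combination (3 * y ^ 2) * h' - 15 * z ^ 2 * h
  · refine no15 (y / z) ?_
    rw [div_pow, div_eq_iff (pow_ne_zero 2 hz0)]
    linear_combination (y ^ 2) * h' - 5 * z ^ 2 * h
  · refine no5 (y / z) ?_
    rw [div_pow, div_eq_iff (pow_ne_zero 2 hz0)]
    linear_combination (y ^ 2 / 3) * h' - 5 / 3 * z ^ 2 * h


/-! ## the action of the automorphisms of `ℂ` -/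

/-- the numbers -/
structure Gen (w β β' : ℂ) (a b : ℚ) : Prop where
  w5 : w ^ 2 = 5
  hβ : β ^ 2 = a + b * w
  hβ' : β' ^ 2 = a - b * w
  N : a ^ 2 - 5 * b ^ 2 < 0

theorem sq_eq {x y : ℂ} (h : x ^ 2 = y ^ 2) : ∃ e : ℤ, e * e = 1 ∧ x = e * y := by
  rcases sq_eq_sq_iff_eq_or_eq_neg.1 h with h | h
  · exact ⟨1, by norm_num, by rw [h]; norm_num⟩
  · exact ⟨-1, by norm_num, by rw [h]; norm_num⟩

variable {w β β' : ℂ} {a b : ℚ}

theorem Gen.act (h : Gen w β β' a b) (S : ℂ ≃+* ℂ) : ∃ e e' : ℤ, e * e = 1 ∧ e' * e' = 1 ∧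
    ((S w = w ∧ S β = e * β ∧ S β' = e' * β') ∨ (S w = -w ∧ S β = e * β' ∧ S β' = e' * β)) := by
  have hw : S w = w ∨ S w = -w := by
    refine sq_eq_sq_iff_eq_or_eq_neg.1 ?_
    rw [← map_pow, h.w5, map_ofNat]
  rcases hw with hw | hw
  · obtain ⟨e, he, e1⟩ := sq_eq (x := S β) (y := β) (by
      rw [← map_pow, h.hβ, map_add, map_mul, map_ratCast, map_ratCast, hw])
    obtain ⟨e', he', e2⟩ := sq_eq (x := S β') (y := β') (by
      rw [← map_pow, h.hβ', map_sub, map_mul, map_ratCast, map_ratCast, hw])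
    exact ⟨e, e', he, he', Or.inl ⟨hw, e1, e2⟩⟩
  · obtain ⟨e, he, e1⟩ := sq_eq (x := S β) (y := β') (by
      rw [← map_pow, h.hβ, h.hβ', map_add, map_mul, map_ratCast, map_ratCast, hw]; ring)
    obtain ⟨e', he', e2⟩ := sq_eq (x := S β') (y := β) (by
      rw [← map_pow, h.hβ, h.hβ', map_sub, map_mul, map_ratCast, map_ratCast, hw]; ring)
    exact ⟨e, e', he, he', Or.inr ⟨hw, e1, e2⟩⟩

theorem Gen.mm (h : Gen w β β' a b) : (β * β') ^ 2 = ((a ^ 2 - 5 * b ^ 2 : ℚ) : ℂ) := by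
  rw [mul_pow, h.hβ, h.hβ']
  push_cast
  linear_combination (-(b : ℂ) ^ 2) * h.w5

theorem Gen.m0 (h : Gen w β β' a b) : β * β' ≠ 0 := by
  intro h0
  have h1 := h.mm
  rw [h0] at h1
  have h2 : ((a ^ 2 - 5 * b ^ 2 : ℚ) : ℂ) = 0 := by rw [← h1]; norm_num
  have h3 : a ^ 2 - 5 * b ^ 2 = 0 := by exact_mod_cast h2
  exact h.N.ne h3

theorem Gen.w0 (h : Gen w β β' a b) : w ≠ 0 := by
  rintro rfl
  have := h.w5
  norm_num at this

/-- the second sign is determined for the automorphisms which fix `m = β β'` (`κ = 1`) or `w m`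
(`κ = -1`) -/
theorem Gen.act' (h : Gen w β β' a b) {κ : ℤ} {m : ℂ}
    (hm : (κ = 1 ∧ m = β * β') ∨ (κ = -1 ∧ m = w * (β * β'))) (S : ℂ ≃+* ℂ) (hS : S m = m) :
    ∃ e : ℤ, e * e = 1 ∧ ((S w = w ∧ S β = e * β ∧ S β' = e * β') ∨
      (S w = -w ∧ S β = e * β' ∧ S β' = κ * e * β)) := by
  obtain ⟨e, e', he, he', hc⟩ := h.act S
  have hee : ∀ c : ℤ, ((e * e' : ℤ) : ℂ) = c → e' = c * e := by
    intro c hc
    have h1 : e * e' = c := by exact_mod_cast hc
    rw [← h1]
    linear_combination (-e') * he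
  have hm0 := h.m0
  have hw0 := h.w0
  refine ⟨e, he, ?_⟩
  rcases hc with ⟨h1, h2, h3⟩ | ⟨h1, h2, h3⟩
  · left
    refine ⟨h1, h2, ?_⟩
    have : e' = 1 * e := by
      apply hee
      rcases hm with ⟨-, rfl⟩ | ⟨-, rfl⟩
      · rw [map_mul, h2, h3] at hS
        have : ((e * e' : ℤ) : ℂ) * (β * β') = 1 * (β * β') := by push_cast; linear_combination hS
        exact_mod_cast mul_right_cancel₀ hm0 this
      · rw [map_mul, map_mul, h1, h2, h3] at hS
        have : ((e * e' : ℤ) : ℂ) * (w * (β * β')) = 1 * (w * (β * β')) := by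
          push_cast; linear_combination hS
        exact_mod_cast mul_right_cancel₀ (mul_ne_zero hw0 hm0) this
    rw [h3, this, one_mul]
  · right
    refine ⟨h1, h2, ?_⟩
    have : e' = κ * e := by
      apply hee
      rcases hm with ⟨rfl, rfl⟩ | ⟨rfl, rfl⟩
      · rw [map_mul, h2, h3] at hS
        have : ((e * e' : ℤ) : ℂ) * (β * β') = 1 * (β * β') := by push_cast; linear_combination hS
        exact_mod_cast mul_right_cancel₀ hm0 this
      · rw [map_mul, map_mul, h1, h2, h3] at hS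
        have : ((e * e' : ℤ) : ℂ) * (w * (β * β')) = (-1) * (w * (β * β')) := by
          push_cast; linear_combination -hS
        exact_mod_cast mul_right_cancel₀ (mul_ne_zero hw0 hm0) this
    rw [h3, this]
    push_cast
    ring

theorem Gen.comm (h : Gen w β β' a b) {κ : ℤ} {m : ℂ}
    (hm : (κ = 1 ∧ m = β * β') ∨ (κ = -1 ∧ m = w * (β * β'))) (S T : ℂ ≃+* ℂ) (hS : S m = m)
    (hT : T m = m) : S (T β) = T (S β) ∧ S (T β') = T (S β') := by
  obtain ⟨e, -, h1⟩ := h.act' hm S hS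
  obtain ⟨f, -, h2⟩ := h.act' hm T hT
  rcases h1 with ⟨-, a1, a2⟩ | ⟨-, a1, a2⟩ <;> rcases h2 with ⟨-, b1, b2⟩ | ⟨-, b1, b2⟩ <;>
    rw [a1, a2, b1, b2] <;> simp only [map_mul, map_intCast] <;> rw [a1, a2, b1, b2] <;>
    constructor <;> ring

theorem Gen.commE (h : Gen w β β' a b) (S T : ℂ ≃+* ℂ) (hS : S β = β) (hT : T β = β)
    (hSw : S w = w) (hTw : T w = w) : S (T β) = T (S β) ∧ S (T β') = T (S β') := by
  have hw : w ≠ -w := fun hc => h.w0 (self_eq_neg.1 hc)
  obtain ⟨e, e', -, -, h1⟩ := h.act S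
  obtain ⟨f, f', -, -, h2⟩ := h.act T
  rcases h1 with ⟨-, a1, a2⟩ | ⟨a0, a1, a2⟩
  · rcases h2 with ⟨-, b1, b2⟩ | ⟨b0, b1, b2⟩
    · rw [hS, hT, hS, a2, b2]
      simp only [map_mul, map_intCast]
      rw [a2, b2]
      exact ⟨trivial, by ring⟩
    · rw [hTw] at b0
      exact absurd b0 hw
  · rw [hSw] at a0
    exact absurd a0 hw

theorem root_pow (S : ℂ ≃+* ℂ) {z : ℂ} (hz : z ^ 5 = 1) : ∃ c < 5, S z = z ^ c := by
  by_cases h1 : z = 1
  · exact ⟨0, by norm_num, by rw [h1]; simp⟩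
  · have h2 : IsPrimitiveRoot z 5 := by
      have : Fact (Nat.Prime 5) := ⟨by norm_num⟩
      exact IsPrimitiveRoot.iff_orderOf.2 (orderOf_eq_prime hz h1)
    obtain ⟨c, hc, h3⟩ := h2.eq_pow_of_pow_eq_one (ξ := S z) (by rw [← map_pow, hz, map_one])
    exact ⟨c, hc, h3.symm⟩

theorem comm_root (S T : ℂ ≃+* ℂ) {z : ℂ} (hz : z ^ 5 = 1) : S (T z) = T (S z) := by
  obtain ⟨c, -, hc⟩ := root_pow S hz
  obtain ⟨d, -, hd⟩ := root_pow T hz
  rw [hc, hd, map_pow, map_pow, hc, hd, ← pow_mul, ← pow_mul, mul_comm]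

theorem four_root (S : ℂ ≃+* ℂ) {z : ℂ} (hz : z ^ 5 = 1) : S (S (S (S z))) = z := by
  obtain ⟨c, hc, h⟩ := root_pow S hz
  have key : ∀ k, z ^ (5 * k + 1) = z := fun k => by rw [pow_succ, pow_mul, hz, one_pow, one_mul]
  simp only [h, map_pow, ← pow_mul]
  interval_cases c
  · rw [pow_zero] at h
    have : z = 1 := by
      apply S.injective
      rw [h, map_one]
    rw [this]
    simp
  · simp
  · exact key 3
  · exact key 16
  · exact key 51

theorem Gen.four (h : Gen w β β' a b) (S : ℂ ≃+* ℂ) :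
    S (S (S (S β))) = β ∧ S (S (S (S β'))) = β' := by
  obtain ⟨e, e', he, he', h1⟩ := h.act S
  have he2 : (e : ℂ) * e = 1 := by exact_mod_cast he
  have he2' : (e' : ℂ) * e' = 1 := by exact_mod_cast he'
  rcases h1 with ⟨-, a1, a2⟩ | ⟨-, a1, a2⟩
  · constructor
    · simp only [a1, map_mul, map_intCast]
      linear_combination ((e : ℂ) * e * β + β) * he2
    · simp only [a2, map_mul, map_intCast]
      linear_combination ((e' : ℂ) * e' * β' + β') * he2'
  · constructor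
    · simp only [a1, a2, map_mul, map_intCast]
      linear_combination ((e' : ℂ) * e' * β) * he2 + β * he2'
    · simp only [a1, a2, map_mul, map_intCast]
      linear_combination ((e' : ℂ) * e' * β') * he2 + β' * he2'


end quad

section fields
open Module Polynomial

/-- the polynomial -/
noncomputable def pol (a b : ℚ) : ℚ[X] := ((X ^ 2 - C a) ^ 2 - C (5 * b ^ 2)) * (X ^ 5 - 1)

/-- the field -/
noncomputable def KK (a b : ℚ) : IntermediateField ℚ ℂ :=
  IntermediateField.adjoin ℚ ((pol a b).rootSet ℂ)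

theorem pol_ne (a b : ℚ) : pol a b ≠ 0 := by
  have h1 : ((X ^ 2 - C a) ^ 2 - C (5 * b ^ 2) : ℚ[X]) ≠ 0 := by
    intro h
    have h2 := congrArg (fun p => Polynomial.eval 0 p) h
    have h3 := congrArg (fun p => Polynomial.eval 1 p) h
    have h4 := congrArg (fun p => Polynomial.eval 2 p) h
    simp at h2 h3 h4
    nlinarith
  have h2 : (X ^ 5 - 1 : ℚ[X]) ≠ 0 := (Polynomial.monic_X_pow_sub_C (1 : ℚ) (by norm_num)).ne_zero
  exact mul_ne_zero h1 h2

theorem isSpl (a b : ℚ) : (pol a b).IsSplittingField ℚ (KK a b) :=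
  IntermediateField.adjoin_rootSet_isSplittingField (IsAlgClosed.splits _)

theorem finK (a b : ℚ) : FiniteDimensional ℚ (KK a b) :=
  haveI := isSpl a b
  Polynomial.IsSplittingField.finiteDimensional _ (pol a b)

theorem galK (a b : ℚ) : IsGalois ℚ (KK a b) := by
  have := isSpl a b
  have := Normal.of_isSplittingField (F := ℚ) (E := KK a b) (pol a b)
  exact ⟨⟩

theorem mem_root {a b : ℚ} {z : ℂ} : z ∈ (pol a b).rootSet ℂ ↔
    (z ^ 2 - a) ^ 2 = 5 * b ^ 2 ∨ z ^ 5 = 1 := by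
  rw [Polynomial.mem_rootSet]
  constructor
  · rintro ⟨-, h⟩
    have h1 : ((z ^ 2 - a) ^ 2 - 5 * b ^ 2) * (z ^ 5 - 1) = 0 := by
      simpa [pol] using h
    rcases mul_eq_zero.1 h1 with h2 | h2
    · exact Or.inl (sub_eq_zero.1 h2)
    · exact Or.inr (sub_eq_zero.1 h2)
  · intro h
    refine ⟨pol_ne a b, ?_⟩
    have h1 : ((z ^ 2 - a) ^ 2 - 5 * b ^ 2) * (z ^ 5 - 1) = 0 := by
      rcases h with h | h
      · rw [h]; ring
      · rw [h]; ring
    simpa [pol] using h1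


end fields

section final
open Module

variable {w β β' : ℂ} {a b : ℚ}

theorem root_cases (h : Gen w β β' a b) {z : ℂ} (hz : z ∈ (pol a b).rootSet ℂ) :
    z = β ∨ z = -β ∨ z = β' ∨ z = -β' ∨ z ^ 5 = 1 := by
  rcases mem_root.1 hz with h1 | h1
  · have h2 : (z ^ 2 - a) ^ 2 = ((b : ℂ) * w) ^ 2 := by rw [h1, mul_pow, h.w5]; ring
    rcases sq_eq_sq_iff_eq_or_eq_neg.1 h2 with h3 | h3
    · have h4 : z ^ 2 = β ^ 2 := by rw [h.hβ, ← h3]; ring
      rcases sq_eq_sq_iff_eq_or_eq_neg.1 h4 with h5 | h5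
      · exact Or.inl h5
      · exact Or.inr (Or.inl h5)
    · have h4 : z ^ 2 = β' ^ 2 := by rw [h.hβ']; linear_combination h3
      rcases sq_eq_sq_iff_eq_or_eq_neg.1 h4 with h5 | h5
      · exact Or.inr (Or.inr (Or.inl h5))
      · exact Or.inr (Or.inr (Or.inr (Or.inl h5)))
  · exact Or.inr (Or.inr (Or.inr (Or.inr h1)))

theorem beta_mem (h : Gen w β β' a b) : β ∈ KK a b := by
  refine IntermediateField.subset_adjoin _ _ (mem_root.2 (Or.inl ?_))
  rw [h.hβ]
  linear_combination ((b : ℂ) ^ 2) * h.w5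

theorem beta'_mem (h : Gen w β β' a b) : β' ∈ KK a b := by
  refine IntermediateField.subset_adjoin _ _ (mem_root.2 (Or.inl ?_))
  rw [h.hβ']
  linear_combination ((b : ℂ) ^ 2) * h.w5

theorem zeta_mem (a b : ℚ) {z : ℂ} (hz : z ^ 5 = 1) : z ∈ KK a b :=
  IntermediateField.subset_adjoin _ _ (mem_root.2 (Or.inr hz))

theorem Gen.b0 (h : Gen w β β' a b) : (b : ℂ) ≠ 0 := by
  intro h0
  have h1 : b = 0 := by exact_mod_cast h0
  have h2 := h.N
  rw [h1] at h2
  nlinarith [sq_nonneg a]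

theorem w_mem (h : Gen w β β' a b) : w ∈ KK a b := by
  have h1 : w = (β ^ 2 - ((a : ℚ) : ℂ)) / ((b : ℚ) : ℂ) := by
    rw [h.hβ, eq_div_iff h.b0]
    ring
  rw [h1]
  exact div_mem (sub_mem (pow_mem (beta_mem h) 2) (SubfieldClass.ratCast_mem _ _))
    (SubfieldClass.ratCast_mem _ _)

/-- the field where two homomorphisms agree -/
def eqF (F G : ℂ →+* ℂ) : IntermediateField ℚ ℂ where
  carrier := {x | F x = G x}
  mul_mem' := fun {x y} hx hy => by
    show F (x * y) = G (x * y)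
    rw [map_mul, map_mul, show F x = G x from hx, show F y = G y from hy]
  one_mem' := by
    show F 1 = G 1
    rw [map_one, map_one]
  add_mem' := fun {x y} hx hy => by
    show F (x + y) = G (x + y)
    rw [map_add, map_add, show F x = G x from hx, show F y = G y from hy]
  zero_mem' := by
    show F 0 = G 0
    rw [map_zero, map_zero]
  algebraMap_mem' := fun r => by
    show F (algebraMap ℚ ℂ r) = G (algebraMap ℚ ℂ r)
    rw [eq_ratCast (algebraMap ℚ ℂ) r, map_ratCast, map_ratCast]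
  inv_mem' := fun x hx => by
    show F x⁻¹ = G x⁻¹
    rw [map_inv₀, map_inv₀, show F x = G x from hx]

theorem extK (h : Gen w β β' a b) (F G : ℂ →+* ℂ) (h1 : F β = G β) (h2 : F β' = G β')
    (h3 : ∀ z, z ^ 5 = 1 → F z = G z) : ∀ x ∈ KK a b, F x = G x := by
  have h4 : KK a b ≤ eqF F G := by
    refine IntermediateField.adjoin_le_iff.2 fun z hz => ?_
    show F z = G z
    rcases root_cases h hz with rfl | rfl | rfl | rfl | h5
    · exact h1
    · rw [map_neg, map_neg, h1]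
    · exact h2
    · rw [map_neg, map_neg, h2]
    · exact h3 z h5
  exact fun x hx => h4 hx

theorem gal_top {k K : IntermediateField ℚ ℂ} (hk : k ≤ K) (hK : IsGalois ℚ K) :
    IsGalois k (IntermediateField.extendScalars hk) := by
  let e : K ≃ₐ[ℚ] (IntermediateField.extendScalars hk) :=
    { toFun := fun x => ⟨x.1, x.2⟩
      invFun := fun x => ⟨x.1, x.2⟩
      left_inv := fun _ => rfl
      right_inv := fun _ => rfl
      map_mul' := fun _ _ => rfl
      map_add' := fun _ _ => rfl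
      commutes' := fun _ => rfl }
  have : IsGalois ℚ (IntermediateField.extendScalars hk) := IsGalois.of_algEquiv e
  exact IsGalois.tower_top_of_isGalois ℚ _ _

/-- automorphisms of `K` over `k` extend to `ℂ` -/
theorem aut_ext {k K : IntermediateField ℚ ℂ} (hk : k ≤ K) (hK : Algebra.IsAlgebraic ℚ K)
    (s : (IntermediateField.extendScalars hk) ≃ₐ[k] (IntermediateField.extendScalars hk)) :
    ∃ S : ℂ ≃+* ℂ, (∀ x : IntermediateField.extendScalars hk, S (x : ℂ) = (s x : ℂ)) ∧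
      ∀ x ∈ k, S x = x := by
  let τ : K →+* ℂ :=
    { toFun := fun x => ((s ⟨x.1, x.2⟩ : IntermediateField.extendScalars hk) : ℂ)
      map_one' := by
        have h1 : s 1 = 1 := map_one s
        exact congrArg Subtype.val h1
      map_mul' := fun x y => by
        have h1 := map_mul s (⟨x.1, x.2⟩ : IntermediateField.extendScalars hk) ⟨y.1, y.2⟩
        exact congrArg Subtype.val h1
      map_zero' := by
        have h1 : s 0 = 0 := map_zero s
        exact congrArg Subtype.val h1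
      map_add' := fun x y => by
        have h1 := map_add s (⟨x.1, x.2⟩ : IntermediateField.extendScalars hk) ⟨y.1, y.2⟩
        exact congrArg Subtype.val h1 }
  obtain ⟨S, hS⟩ := _root_.Pool.Agent.MUXU.u_AUE K hK τ
  refine ⟨S, fun x => hS ⟨x.1, x.2⟩, fun x hx => ?_⟩
  have h1 := hS ⟨x, hk hx⟩
  have h2 : s (algebraMap k _ ⟨x, hx⟩) = algebraMap k _ ⟨x, hx⟩ := s.commutes ⟨x, hx⟩
  exact h1.trans (congrArg Subtype.val h2)

theorem aut_ext' {K : IntermediateField ℚ ℂ} (hK : Algebra.IsAlgebraic ℚ K) (s : K ≃ₐ[ℚ] K) :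
    ∃ S : ℂ ≃+* ℂ, ∀ x : K, S (x : ℂ) = (s x : ℂ) := by
  obtain ⟨S, hS⟩ := _root_.Pool.Agent.MUXU.u_AUE K hK
    ((algebraMap K ℂ).comp (s : K →+* K))
  exact ⟨S, fun x => hS x⟩

theorem algK (a b : ℚ) : Algebra.IsAlgebraic ℚ (KK a b) :=
  haveI := finK a b
  Algebra.IsAlgebraic.of_finite ℚ (KK a b)

theorem degK (h : Gen w β β' a b) : ¬ 5 ∣ finrank ℚ (KK a b) := by
  have := finK a b
  have := galK a b
  intro hd
  rw [← IsGalois.card_aut_eq_finrank] at hd
  have : Finite (KK a b ≃ₐ[ℚ] KK a b) := inferInstance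
  have : Fact (Nat.Prime 5) := ⟨by norm_num⟩
  obtain ⟨s, hs⟩ := exists_prime_orderOf_dvd_card' 5 hd
  have h4 : s ^ 4 = 1 := by
    obtain ⟨S, hS⟩ := aut_ext' (algK a b) s
    refine AlgEquiv.ext fun x => Subtype.ext ?_
    have h1 : ∀ y ∈ KK a b, ((S : ℂ →+* ℂ).comp ((S : ℂ →+* ℂ).comp
        ((S : ℂ →+* ℂ).comp (S : ℂ →+* ℂ)))) y = (RingHom.id ℂ) y := by
      refine extK h _ _ ?_ ?_ ?_
      · exact (h.four S).1
      · exact (h.four S).2
      · exact fun z hz => four_root S hz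
    have h2 := h1 x x.2
    have h3 : ((s ^ 4) x : KK a b) = s (s (s (s x))) := by
      rw [show (4 : ℕ) = 1 + 1 + 1 + 1 from rfl, pow_add, pow_add, pow_add, pow_one]
      rfl
    rw [h3, ← hS, ← hS, ← hS, ← hS]
    exact h2
  have h5 := orderOf_dvd_of_pow_eq_one h4
  rw [hs] at h5
  omega

theorem commK (h : Gen w β β' a b) {k : IntermediateField ℚ ℂ} (hk : k ≤ KK a b)
    (hc : ∀ S T : ℂ ≃+* ℂ, (∀ x ∈ k, S x = x) → (∀ x ∈ k, T x = x) →
      S (T β) = T (S β) ∧ S (T β') = T (S β')) :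
    ∀ s t : (IntermediateField.extendScalars hk) ≃ₐ[k] (IntermediateField.extendScalars hk),
      s * t = t * s := by
  intro s t
  obtain ⟨S, hS, hS'⟩ := aut_ext hk (algK a b) s
  obtain ⟨T, hT, hT'⟩ := aut_ext hk (algK a b) t
  have h1 : ∀ y ∈ KK a b, ((S : ℂ →+* ℂ).comp (T : ℂ →+* ℂ)) y =
      ((T : ℂ →+* ℂ).comp (S : ℂ →+* ℂ)) y := by
    refine extK h _ _ ?_ ?_ ?_
    · exact (hc S T hS' hT').1
    · exact (hc S T hS' hT').2
    · exact fun z hz => comm_root S T hz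
  refine AlgEquiv.ext fun x => Subtype.ext ?_
  show ((s (t x) : IntermediateField.extendScalars hk) : ℂ) =
    ((t (s x) : IntermediateField.extendScalars hk) : ℂ)
  rw [← hS, ← hT, ← hT, ← hS]
  exact h1 x x.2

theorem coefQ {w : ℂ} (w5 : w ^ 2 = 5) {p q : ℚ} (h : (p : ℂ) + q * w = 0) : p = 0 ∧ q = 0 := by
  have hq : q = 0 := by
    by_contra hq
    have hq' : (q : ℂ) ≠ 0 := by exact_mod_cast hq
    refine no5 (-p / q) ?_
    have h1 : (((-p / q : ℚ)) : ℂ) = w := by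
      push_cast
      rw [div_eq_iff hq']
      linear_combination -h
    have h2 : (((-p / q : ℚ)) : ℂ) ^ 2 = 5 := by rw [h1, w5]
    exact_mod_cast h2
  refine ⟨?_, hq⟩
  rw [hq] at h
  have h1 : (p : ℂ) = 0 := by rw [← h]; norm_num
  exact_mod_cast h1

/-- numbers with a negative rational square in `ℚ(m)` -/
theorem sq_in {m : ℂ} {N' : ℚ} (hmm : m ^ 2 = (N' : ℂ)) (hn : ∀ q : ℚ, (q : ℂ) ≠ m) {p q d : ℚ}
    (hd : d < 0) (h : ((p : ℂ) + q * m) ^ 2 = (d : ℂ)) : q ^ 2 * N' = d := by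
  have h1 : ((2 * p * q : ℚ) : ℂ) * m = ((d - p ^ 2 - q ^ 2 * N' : ℚ) : ℂ) := by
    push_cast
    rw [← hmm]
    linear_combination h
  have h2 : p * q = 0 := by
    by_contra hc
    have h3 : (2 * p * q : ℚ) ≠ 0 := by
      intro h4
      apply hc
      linarith
    have h3' : ((2 * p * q : ℚ) : ℂ) ≠ 0 := by exact_mod_cast h3
    refine hn ((d - p ^ 2 - q ^ 2 * N') / (2 * p * q)) ?_
    rw [Rat.cast_div, div_eq_iff h3', ← h1, mul_comm]
  have h3 : d - p ^ 2 - q ^ 2 * N' = 0 := by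
    have h4 : (2 * p * q : ℚ) = 0 := by linear_combination 2 * h2
    rw [h4] at h1
    have h5 : ((d - p ^ 2 - q ^ 2 * N' : ℚ) : ℂ) = 0 := by rw [← h1]; norm_num
    exact_mod_cast h5
  rcases mul_eq_zero.1 h2 with h4 | h4
  · rw [h4] at h3
    linear_combination -h3
  · exfalso
    rw [h4] at h3
    nlinarith [sq_nonneg p]

end final

section cyc
open Module

/-- the field `ℚ(μ_5)` -/
noncomputable abbrev C5 : IntermediateField ℚ ℂ := IntermediateField.adjoin ℚ {z : ℂ | z ^ 5 = 1}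

theorem extC (F G : ℂ →+* ℂ) (h : ∀ z, z ^ 5 = 1 → F z = G z) : ∀ x ∈ C5, F x = G x := by
  have h1 : C5 ≤ eqF F G := IntermediateField.adjoin_le_iff.2 fun z hz => h z hz
  exact fun x hx => h1 hx

/-- the preimage of a field -/
noncomputable def stF (S : ℂ →+* ℂ) (C : IntermediateField ℚ ℂ) : IntermediateField ℚ ℂ where
  carrier := {x | S x ∈ C}
  mul_mem' := fun {x y} hx hy => by
    show S (x * y) ∈ C
    rw [map_mul]
    exact mul_mem hx hy
  one_mem' := by
    show S 1 ∈ C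
    rw [map_one]
    exact one_mem _
  add_mem' := fun {x y} hx hy => by
    show S (x + y) ∈ C
    rw [map_add]
    exact add_mem hx hy
  zero_mem' := by
    show S 0 ∈ C
    rw [map_zero]
    exact zero_mem _
  algebraMap_mem' := fun r => by
    show S (algebraMap ℚ ℂ r) ∈ C
    rw [eq_ratCast (algebraMap ℚ ℂ) r, map_ratCast]
    exact SubfieldClass.ratCast_mem _ _
  inv_mem' := fun x hx => by
    show S x⁻¹ ∈ C
    rw [map_inv₀]
    exact inv_mem hx

theorem root_mem {z : ℂ} (hz : z ^ 5 = 1) : z ∈ C5 := IntermediateField.subset_adjoin _ _ hz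

theorem stabC (S : ℂ ≃+* ℂ) : ∀ x ∈ C5, S x ∈ C5 := by
  have h1 : C5 ≤ stF (S : ℂ →+* ℂ) C5 := IntermediateField.adjoin_le_iff.2 fun z hz => by
    show S z ∈ C5
    refine root_mem ?_
    rw [← map_pow, show z ^ 5 = 1 from hz, map_one]
  exact fun x hx => h1 hx

theorem sum5 {z : ℂ} (hz : z ^ 5 = 1) (h1 : z ≠ 1) : z ^ 4 + z ^ 3 + z ^ 2 + z + 1 = 0 := by
  have h2 : (z - 1) * (z ^ 4 + z ^ 3 + z ^ 2 + z + 1) = 0 := by linear_combination hz
  exact (mul_eq_zero.1 h2).resolve_left (sub_ne_zero.2 h1)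

theorem gauss {z : ℂ} (hz : z ^ 5 = 1) (h1 : z ≠ 1) : (z + z ^ 4 - z ^ 2 - z ^ 3) ^ 2 = 5 := by
  linear_combination (z ^ 4 - 3 * z ^ 3 + z ^ 2 + 5 * z - 5) * sum5 hz h1

theorem w_pm {w : ℂ} (w5 : w ^ 2 = 5) {z : ℂ} (hz : z ^ 5 = 1) (h1 : z ≠ 1) :
    w = z + z ^ 4 - z ^ 2 - z ^ 3 ∨ w = -(z + z ^ 4 - z ^ 2 - z ^ 3) :=
  sq_eq_sq_iff_eq_or_eq_neg.1 (by rw [w5, gauss hz h1])

theorem prim5 : IsPrimitiveRoot (Complex.exp (2 * Real.pi * Complex.I / (5 : ℕ))) 5 :=
  Complex.isPrimitiveRoot_exp 5 (by norm_num)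

theorem w_memC {w : ℂ} (w5 : w ^ 2 = 5) : w ∈ C5 := by
  have h1 := root_mem prim5.pow_eq_one
  rcases w_pm w5 prim5.pow_eq_one (prim5.ne_one (by norm_num)) with h | h <;> rw [h]
  · exact sub_mem (sub_mem (add_mem h1 (pow_mem h1 4)) (pow_mem h1 2)) (pow_mem h1 3)
  · exact neg_mem (sub_mem (sub_mem (add_mem h1 (pow_mem h1 4)) (pow_mem h1 2)) (pow_mem h1 3))

theorem conj_root {z : ℂ} (hz : z ^ 5 = 1) : (starRingEnd ℂ) z = z ^ 4 := by
  have h1 : ‖z‖ = 1 := Complex.norm_eq_one_of_pow_eq_one hz (by norm_num)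
  have h2 : z * (starRingEnd ℂ) z = 1 := by
    rw [Complex.mul_conj, Complex.normSq_eq_norm_sq, h1]
    norm_num
  have h0 : z ≠ 0 := by
    rintro rfl
    norm_num at hz
  have h3 : z * (starRingEnd ℂ) z = z * z ^ 4 := by rw [h2, ← hz]; ring
  exact mul_left_cancel₀ h0 h3

theorem TT {w : ℂ} (w5 : w ^ 2 = 5) (T : ℂ ≃+* ℂ) (hT : T w = -w) {z : ℂ} (hz : z ^ 5 = 1) :
    T (T z) = (starRingEnd ℂ) z := by
  rw [conj_root hz]
  by_cases h1 : z = 1
  · rw [h1]
    simp
  have hw0 : w ≠ 0 := by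
    rintro rfl
    norm_num at w5
  have hww : w ≠ -w := fun hc => hw0 (self_eq_neg.1 hc)
  obtain ⟨c, hc, h⟩ := root_pow T hz
  have key : ∀ k l : ℕ, z ^ (5 * k + l) = z ^ l := fun k l => by
    rw [pow_add, pow_mul, hz, one_pow, one_mul]
  have k8 : z ^ 8 = z ^ 3 := key 1 3
  have k12 : z ^ 12 = z ^ 2 := key 2 2
  have k16 : z ^ 16 = z ^ 1 := key 3 1
  have k9 : z ^ 9 = z ^ 4 := key 1 4
  interval_cases c
  · exfalso
    apply h1
    apply T.injective
    rw [h, pow_zero, map_one]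
  · exfalso
    apply hww
    rw [pow_one] at h
    rw [← hT]
    rcases w_pm w5 hz h1 with h2 | h2 <;> rw [h2] <;> simp [h]
  · rw [h, map_pow, h, ← pow_mul]
  · rw [h, map_pow, h, ← pow_mul]
    exact k9
  · exfalso
    apply hww
    rw [← hT]
    have e1 : T (z + z ^ 4 - z ^ 2 - z ^ 3) = z + z ^ 4 - z ^ 2 - z ^ 3 := by
      simp only [map_add, map_sub, map_pow, h, ← pow_mul]
      norm_num
      rw [k16, k8, k12]
      ring
    rcases w_pm w5 hz h1 with h2 | h2
    · rw [h2, e1]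
    · rw [h2, map_neg, e1]

variable {w β β' : ℂ} {a b : ℚ}

theorem Gen.exT (h : Gen w β β' a b) : ∃ T : ℂ ≃+* ℂ, T w = -w := by
  have := finK a b
  have := galK a b
  by_contra hc
  push Not at hc
  have h1 : (⟨w, w_mem h⟩ : KK a b) ∈ (⊥ : IntermediateField ℚ (KK a b)) := by
    rw [IsGalois.mem_bot_iff_fixed]
    intro s
    obtain ⟨S, hS⟩ := aut_ext' (algK a b) s
    refine Subtype.ext ?_
    rw [← hS]
    show S w = w
    refine (sq_eq_sq_iff_eq_or_eq_neg.1 ?_).resolve_right (hc S)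
    rw [← map_pow, h.w5, map_ofNat]
  obtain ⟨q, hq⟩ := IntermediateField.mem_bot.1 h1
  refine no5 q ?_
  have h2 : ((q : ℚ) : ℂ) = w := by
    have h3 := congrArg (algebraMap (KK a b) ℂ) hq
    rw [eq_ratCast (algebraMap ℚ (KK a b)) q, map_ratCast] at h3
    exact h3
  have h3 : ((q : ℚ) : ℂ) ^ 2 = 5 := by rw [h2, h.w5]
  exact_mod_cast h3

theorem im_sq {z : ℂ} {c : ℝ} (hc : 0 ≤ c) (hz : z ^ 2 = -(c : ℂ)) :
    (starRingEnd ℂ) z = -z := by
  have h1 := real_sq (z := Complex.I * z) hc (by rw [mul_pow, Complex.I_sq, hz]; ring)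
  rw [map_mul, Complex.conj_I] at h1
  have h2 : Complex.I * ((starRingEnd ℂ) z + z) = 0 := by linear_combination -h1
  have h3 := (mul_eq_zero.1 h2).resolve_left Complex.I_ne_zero
  linear_combination h3

theorem Gen.notC (h : Gen w β β' a b) : β ∉ C5 ∧ β' ∉ C5 ∧ β * β' ∉ C5 := by
  obtain ⟨T, hT⟩ := h.exT
  have hww : w ≠ -w := fun hc => h.w0 (self_eq_neg.1 hc)
  have hTT : ∀ x ∈ C5, T (T x) = (starRingEnd ℂ) x := by
    intro x hx
    exact extC ((T : ℂ →+* ℂ).comp (T : ℂ →+* ℂ)) (starRingEnd ℂ) (fun z hz => TT h.w5 T hT hz) x hx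
  have hc : (starRingEnd ℂ) (β * β') = -(β * β') := by
    refine im_sq (c := ((5 * b ^ 2 - a ^ 2 : ℚ) : ℝ)) ?_ ?_
    · have h1 : 0 ≤ 5 * b ^ 2 - a ^ 2 := by linarith [h.N]
      exact_mod_cast h1
    · rw [h.mm]
      push_cast
      ring
  obtain ⟨e, e', he, he', h1⟩ := h.act T
  rcases h1 with ⟨h1, -⟩ | ⟨-, h1, h2⟩
  · rw [hT] at h1
    exact absurd h1.symm hww
  have he2 : (e : ℂ) * e = 1 := by exact_mod_cast he
  have he2' : (e' : ℂ) * e' = 1 := by exact_mod_cast he'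
  have hmm : T (T (β * β')) = β * β' := by
    simp only [map_mul, map_intCast, h1, h2]
    linear_combination ((e' : ℂ) * e' * β * β') * he2 + β * β' * he2'
  have h3 : β * β' ∉ C5 := by
    intro hm
    have h4 := hTT _ hm
    rw [hmm, hc] at h4
    exact h.m0 (self_eq_neg.1 h4)
  have hi : ∀ n : ℤ, (n : ℂ) ∈ C5 := fun n => intCast_mem C5 n
  refine ⟨fun hb => h3 ?_, fun hb => h3 ?_, h3⟩
  · have h5 := stabC T β hb
    rw [h1] at h5
    have h6 := mul_mem (hi e) h5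
    have h7 : (e : ℂ) * (e * β') = β' := by linear_combination β' * he2
    rw [h7] at h6
    exact mul_mem hb h6
  · have h5 := stabC T β' hb
    rw [h2] at h5
    have h6 := mul_mem (hi e') h5
    have h7 : (e' : ℂ) * (e' * β) = β := by linear_combination β * he2'
    rw [h7] at h6
    exact mul_mem h6 hb

/-- elements of `ℚ(μ_5)(β)` -/
theorem Gen.memE (h : Gen w β β' a b) {E : IntermediateField ℚ ℂ}
    (hE : E ≤ (IntermediateField.adjoin C5 {β}).restrictScalars ℚ) :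
    ∀ x ∈ E, ∃ u ∈ C5, ∃ v ∈ C5, x = u + v * β := by
  intro x hx
  have hα : (a : ℂ) + b * w ∈ C5 := add_mem (SubfieldClass.ratCast_mem _ _)
    (mul_mem (SubfieldClass.ratCast_mem _ _) (w_memC h.w5))
  have h1 : β ^ 2 = algebraMap C5 ℂ ⟨_, hα⟩ := h.hβ
  obtain ⟨p, q, h2⟩ := mem_Q h1 (hE hx)
  exact ⟨p, p.2, q, q.2, h2⟩

theorem Gen.notE (h : Gen w β β' a b) {E : IntermediateField ℚ ℂ}
    (hE : E ≤ (IntermediateField.adjoin C5 {β}).restrictScalars ℚ) : β' ∉ E := by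
  intro hc
  obtain ⟨u, hu, v, hv, h1⟩ := h.memE hE β' hc
  obtain ⟨n1, n2, n3⟩ := h.notC
  have hq : ∀ q : ℚ, (q : ℂ) ∈ C5 := fun q => SubfieldClass.ratCast_mem _ _
  have hα : β ^ 2 ∈ C5 := by
    rw [h.hβ]
    exact add_mem (hq a) (mul_mem (hq b) (w_memC h.w5))
  have hα' : β' ^ 2 ∈ C5 := by
    rw [h.hβ']
    exact sub_mem (hq a) (mul_mem (hq b) (w_memC h.w5))
  by_cases hu0 : u = 0
  · apply n3
    have h2 : β * β' = v * β ^ 2 := by rw [h1, hu0]; ring
    rw [h2]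
    exact mul_mem hv hα
  by_cases hv0 : v = 0
  · apply n2
    rw [h1, hv0, zero_mul, add_zero]
    exact hu
  apply n1
  have h2 : (2 * u * v) ≠ 0 := mul_ne_zero (mul_ne_zero two_ne_zero hu0) hv0
  have h3 : β = (β' ^ 2 - u ^ 2 - v ^ 2 * β ^ 2) / (2 * u * v) := by
    rw [eq_div_iff h2]
    linear_combination (-(β' + u + v * β)) * h1
  rw [h3]
  refine div_mem (sub_mem (sub_mem hα' (pow_mem hu 2)) (mul_mem (pow_mem hv 2) hα)) ?_
  exact mul_mem (mul_mem (by exact_mod_cast hq 2) hu) hv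

end cyc

end Pool.Agent.OB.QFTx

namespace Pool.Agent.OB

open Module QFTx


/-- (QFT) -/
theorem tq_QFT : Sq_QFT := by
  intro E₀ h4 w hwE w5 h₁ h₂
  have w5' : (⟨w, hwE⟩ : E₀) ^ 2 = 5 := Subtype.ext w5
  obtain ⟨ρ₀, hw, hr, hn, hf⟩ := exists_rho h4 ⟨w, hwE⟩ w5'
  obtain ⟨β₀, a, b, hρ, h0, hab, hgen⟩ := exists_beta _ w5' ρ₀ hr hn hf
  have hN := neg _ β₀ a b w5' hab h0 hgen h₁ h₂
  obtain ⟨β', hβ'⟩ : ∃ β' : ℂ, β' ^ 2 = a - b * w := IsAlgClosed.exists_pow_nat_eq _ (by norm_num)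
  obtain ⟨β, hβ⟩ : ∃ β : ℂ, β = β₀ := ⟨_, rfl⟩
  have hcast : ∀ q : ℚ, ((algebraMap ℚ E₀ q : E₀) : ℂ) = (q : ℂ) := fun q => by
    rw [eq_ratCast (algebraMap ℚ E₀) q]
    exact map_ratCast (algebraMap E₀ ℂ) q
  have hG : Gen w β β' a b := by
    refine ⟨w5, ?_, hβ', hN⟩
    rw [hβ]
    have h1 := congrArg (algebraMap E₀ ℂ) hab
    rw [map_pow, map_add, map_mul] at h1
    rw [← hcast, ← hcast]
    exact h1
  have hgen' : ∀ x ∈ E₀, ∃ p q r s : ℚ, x = p + q * w + (r + s * w) * β := by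
    intro x hx
    obtain ⟨p, q, r, s, hx'⟩ := hgen ⟨x, hx⟩
    refine ⟨p, q, r, s, ?_⟩
    have h1 := congrArg (algebraMap E₀ ℂ) hx'
    rw [map_add, map_add, map_mul, map_mul, map_add, map_mul] at h1
    rw [hβ, ← hcast, ← hcast, ← hcast, ← hcast]
    exact h1
  have hm0 := hG.m0
  have hβE₀ : β ∈ E₀ := by rw [hβ]; exact β₀.2
  have hwC : w ∈ C5 := w_memC w5
  -- the choice of `k`
  obtain ⟨κ, m, N', hm, hmm, hN', hy⟩ : ∃ (κ : ℤ) (m : ℂ) (N' : ℚ),
      ((κ = 1 ∧ m = β * β') ∨ (κ = -1 ∧ m = w * (β * β'))) ∧ m ^ 2 = (N' : ℂ) ∧ N' < 0 ∧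
      ∀ y : ℚ, y ^ 2 * N' ≠ -1 ∧ y ^ 2 * N' ≠ -3 := by
    rcases choose_N (a ^ 2 - 5 * b ^ 2) with h | h
    · exact ⟨1, β * β', _, Or.inl ⟨rfl, rfl⟩, hG.mm, hN, h⟩
    · refine ⟨-1, w * (β * β'), _, Or.inr ⟨rfl, rfl⟩, ?_, by linarith, h⟩
      rw [mul_pow, hG.mm, w5]
      push_cast
      ring
  have hnq : ∀ q : ℚ, (q : ℂ) ≠ m := by
    intro q hq
    have h1 : (q : ℂ) ^ 2 = (N' : ℂ) := by rw [hq, hmm]
    have h2 : q ^ 2 = N' := by exact_mod_cast h1
    nlinarith [sq_nonneg q]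
  have hmK : m ∈ KK a b := by
    rcases hm with ⟨-, rfl⟩ | ⟨-, rfl⟩
    · exact mul_mem (beta_mem hG) (beta'_mem hG)
    · exact mul_mem (w_mem hG) (mul_mem (beta_mem hG) (beta'_mem hG))
  have hmm' : m ^ 2 = algebraMap ℚ ℂ N' := hmm
  have kK : IntermediateField.adjoin ℚ {m} ≤ KK a b :=
    IntermediateField.adjoin_le_iff.2 (by
      intro x hx
      rw [Set.mem_singleton_iff.1 hx]
      exact hmK)
  have E₀K : E₀ ≤ KK a b := by
    intro x hx
    obtain ⟨p, q, r, s, h1⟩ := hgen' x hx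
    rw [h1]
    have hq : ∀ q : ℚ, (q : ℂ) ∈ KK a b := fun q => SubfieldClass.ratCast_mem _ _
    exact add_mem (add_mem (hq _) (mul_mem (hq _) (w_mem hG)))
      (mul_mem (add_mem (hq _) (mul_mem (hq _) (w_mem hG))) (beta_mem hG))
  have CK : C5 ≤ KK a b := IntermediateField.adjoin_le_iff.2 fun z hz => zeta_mem a b hz
  obtain ⟨E, hE⟩ : ∃ E : IntermediateField ℚ ℂ, E = E₀ ⊔ C5 := ⟨_, rfl⟩
  have E₀E : E₀ ≤ E := by rw [hE]; exact le_sup_left
  have CE : C5 ≤ E := by rw [hE]; exact le_sup_right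
  have EK : E ≤ KK a b := by
    rw [hE]
    exact sup_le E₀K CK
  have hβE : β ∈ E := E₀E hβE₀
  -- the elements of `E`
  have hED : E ≤ (IntermediateField.adjoin C5 {β}).restrictScalars ℚ := by
    have hC : ∀ x ∈ C5, x ∈ IntermediateField.adjoin C5 {β} := fun x hx =>
      (IntermediateField.adjoin C5 {β}).algebraMap_mem ⟨x, hx⟩
    have hb : β ∈ IntermediateField.adjoin C5 {β} :=
      IntermediateField.mem_adjoin_simple_self C5 β
    have hq : ∀ q : ℚ, (q : ℂ) ∈ IntermediateField.adjoin C5 {β} := fun q =>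
      SubfieldClass.ratCast_mem _ _
    rw [hE]
    refine sup_le (fun x hx => ?_) fun x hx => hC x hx
    obtain ⟨p, q, r, s, h1⟩ := hgen' x hx
    rw [h1]
    show _ ∈ IntermediateField.adjoin C5 {β}
    exact add_mem (add_mem (hq _) (mul_mem (hq _) (hC w hwC)))
      (mul_mem (add_mem (hq _) (mul_mem (hq _) (hC w hwC))) hb)
  have hgenE := hG.memE hED
  have hk : ∀ z ∈ IntermediateField.adjoin ℚ {m}, ∃ p q : ℚ, z = p + q * m := fun z hz =>
    mem_Q hmm' hz
  have hmem : m ∈ IntermediateField.adjoin ℚ {m} := IntermediateField.mem_adjoin_simple_self ℚ m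
  have hkq : ∀ p q : ℚ, (p : ℂ) + q * m ∈ IntermediateField.adjoin ℚ {m} := fun p q =>
    add_mem (SubfieldClass.ratCast_mem _ _) (mul_mem (SubfieldClass.ratCast_mem _ _) hmem)
  have hE' : β' ∉ E := hG.notE hED
  have hβ0 : β ≠ 0 := left_ne_zero_of_mul hm0
  -- fixed elements
  have hfix : ∀ (M : IntermediateField ℚ ℂ) (hM : M ≤ KK a b) (y : ℂ) (hy : y ∈ KK a b), y ∉ M →
      ∃ S : ℂ ≃+* ℂ, (∀ x ∈ KK a b, S x ∈ KK a b) ∧ (∀ x ∈ KK a b, S.symm x ∈ KK a b) ∧
        (∀ x ∈ M, S x = x) ∧ S y ≠ y := by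
    intro M hM y hy hyM
    have galM := gal_top hM (galK a b)
    obtain ⟨s, hs⟩ : ∃ s : (IntermediateField.extendScalars hM) ≃ₐ[M]
        (IntermediateField.extendScalars hM), s ⟨y, hy⟩ ≠ ⟨y, hy⟩ := by
      by_contra hc
      push Not at hc
      have hfd := finK a b
      have hfd' : FiniteDimensional M (IntermediateField.extendScalars hM) := by
        let e : KK a b ≃ₐ[ℚ] (IntermediateField.extendScalars hM) :=
          { toFun := fun x => ⟨x.1, x.2⟩
            invFun := fun x => ⟨x.1, x.2⟩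
            left_inv := fun _ => rfl
            right_inv := fun _ => rfl
            map_mul' := fun _ _ => rfl
            map_add' := fun _ _ => rfl
            commutes' := fun _ => rfl }
        have : FiniteDimensional ℚ (IntermediateField.extendScalars hM) :=
          Module.Finite.equiv e.toLinearEquiv
        exact FiniteDimensional.right ℚ M _
      have h1 : (⟨y, hy⟩ : IntermediateField.extendScalars hM) ∈
          (⊥ : IntermediateField M (IntermediateField.extendScalars hM)) := by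
        rw [IsGalois.mem_bot_iff_fixed]
        exact hc
      obtain ⟨t, ht⟩ := IntermediateField.mem_bot.1 h1
      apply hyM
      have h2 : (t : ℂ) = y := congrArg Subtype.val ht
      rw [← h2]
      exact t.2
    obtain ⟨S, hS, hSM⟩ := aut_ext hM (algK a b) s
    refine ⟨S, fun x hx => ?_, fun x hx => ?_, hSM, fun hc => hs (Subtype.ext ?_)⟩
    · have h2 : S x = ((s ⟨x, hx⟩ : IntermediateField.extendScalars hM) : ℂ) := hS ⟨x, hx⟩
      rw [h2]
      exact (s ⟨x, hx⟩).2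
    · have h1 := hS (s.symm ⟨x, hx⟩)
      rw [AlgEquiv.apply_symm_apply] at h1
      have h2 : S ((s.symm ⟨x, hx⟩ : IntermediateField.extendScalars hM) : ℂ) = x := h1
      have h3 : S.symm x = ((s.symm ⟨x, hx⟩ : IntermediateField.extendScalars hM) : ℂ) := by
        rw [RingEquiv.symm_apply_eq, h2]
      rw [h3]
      exact (s.symm ⟨x, hx⟩).2
    · rw [← hS]
      exact hc
  have hww : w ≠ -w := fun hc => hG.w0 (self_eq_neg.1 hc)
  -- `ρ`
  obtain ⟨S₁, -, -, hS₁C, hS₁β⟩ := hfix C5 CK β (beta_mem hG) hG.notC.1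
  have hS₁w : S₁ w = w := hS₁C w hwC
  have hS₁b : S₁ β = -β := by
    refine (sq_eq_sq_iff_eq_or_eq_neg.1 ?_).resolve_left hS₁β
    rw [← map_pow, hG.hβ, map_add, map_mul, map_ratCast, map_ratCast, hS₁w]
  have hS₁v : ∀ u ∈ C5, ∀ v ∈ C5, S₁ (u + v * β) = u - v * β := by
    intro u hu v hv
    rw [map_add, map_mul, hS₁C u hu, hS₁C v hv, hS₁b]
    ring
  have hS₁E : ∀ x ∈ E, S₁ x ∈ E := by
    intro x hx
    obtain ⟨u, hu, v, hv, rfl⟩ := hgenE x hx
    rw [hS₁v u hu v hv]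
    exact sub_mem (CE hu) (mul_mem (CE hv) hβE)
  have hS₁i : ∀ x ∈ E, S₁ (S₁ x) = x := by
    intro x hx
    obtain ⟨u, hu, v, hv, rfl⟩ := hgenE x hx
    rw [hS₁v u hu v hv, map_sub, map_mul, hS₁C u hu, hS₁C v hv, hS₁b]
    ring
  let ρ : E ≃ₐ[ℚ] E :=
    { toFun := fun x => ⟨S₁ x, hS₁E x x.2⟩
      invFun := fun x => ⟨S₁ x, hS₁E x x.2⟩
      left_inv := fun x => Subtype.ext (hS₁i x x.2)
      right_inv := fun x => Subtype.ext (hS₁i x x.2)
      map_mul' := fun x y => Subtype.ext (map_mul S₁ (x : ℂ) (y : ℂ))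
      map_add' := fun x y => Subtype.ext (map_add S₁ (x : ℂ) (y : ℂ))
      commutes' := fun r => Subtype.ext (by
        show S₁ (algebraMap ℚ ℂ r) = algebraMap ℚ ℂ r
        rw [eq_ratCast (algebraMap ℚ ℂ) r, map_ratCast]) }
  have hρv : ∀ x : E, ((ρ x : E) : ℂ) = S₁ x := fun x => rfl
  -- `σ`
  obtain ⟨σ, hσK, hσK', hσE, hσβ''⟩ := hfix E EK β' (beta'_mem hG) hE'
  have hσw : σ w = w := hσE w (CE hwC)
  have hσβ : σ β = β := hσE β hβE
  have hσβ' : σ β' = -β' := by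
    refine (sq_eq_sq_iff_eq_or_eq_neg.1 ?_).resolve_left hσβ''
    rw [← map_pow, hG.hβ', map_sub, map_mul, map_ratCast, map_ratCast, hσw]
  have hσm : σ m = -m := by
    rcases hm with ⟨-, rfl⟩ | ⟨-, rfl⟩
    · rw [map_mul, hσβ, hσβ']
      ring
    · rw [map_mul, map_mul, hσw, hσβ, hσβ']
      ring
  have hσq : ∀ p q : ℚ, σ ((p : ℂ) + q * m) = (p : ℂ) + ((-q : ℚ) : ℂ) * m := fun p q => by
    rw [map_add, map_mul, map_ratCast, map_ratCast, hσm]
    push_cast
    ring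
  -- the commutator on `ℚ(μ_5)`
  have hcC : ∀ s : ℂ ≃+* ℂ, ∀ x ∈ C5, σ.symm (s (σ (s.symm x))) = x := by
    intro s x hx
    have h1 : s.symm x ∈ C5 := stabC s.symm x hx
    rw [hσE _ (CE h1), RingEquiv.apply_symm_apply, RingEquiv.symm_apply_eq, hσE x (CE hx)]
  have hσsβ : σ.symm β = β := by rw [RingEquiv.symm_apply_eq, hσβ]
  refine ⟨E, IntermediateField.adjoin ℚ {m}, KK a b, ρ, σ, hE, ?_⟩
  exact
    { kK := kK
      EK := EK
      fin := finK a b
      k2 := finrank_Q hmm' fun q hq => hnq q hq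
      im := by
        refine ⟨m, hmem, fun hc => ?_⟩
        obtain ⟨r, hr⟩ := Complex.conj_eq_iff_real.1 hc
        rw [hr] at hmm
        have h1 : r ^ 2 = (N' : ℝ) := by exact_mod_cast hmm
        have h2 : (N' : ℝ) < 0 := by exact_mod_cast hN'
        nlinarith [sq_nonneg r]
      n4 := by
        intro z hz hz2
        obtain ⟨p, q, rfl⟩ := hk z hz
        exact (hy q).1 (sq_in hmm hnq (by norm_num) (by rw [hz2]; norm_num))
      n3 := by
        intro z hz hz2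
        obtain ⟨p, q, rfl⟩ := hk z hz
        exact (hy q).2 (sq_in hmm hnq (by norm_num) (by rw [hz2]; norm_num))
      galk := gal_top kK (galK a b)
      abk := commK hG kK fun S T hS hT => hG.comm hm S T (hS m hmem) (hT m hmem)
      galE := gal_top EK (galK a b)
      abE := commK hG EK fun S T hS hT =>
        hG.commE S T (hS β hβE) (hT β hβE) (hS w (CE hwC)) (hT w (CE hwC))
      deg := degK hG
      w5 := w5
      mu := CE
      rhr := fun x => Subtype.ext (hS₁i x x.2)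
      rhn := by
        refine ⟨⟨β, hβE⟩, fun hc => hS₁β ?_⟩
        exact congrArg Subtype.val hc
      rhf := by
        intro x
        constructor
        · intro hx
          have h1 : S₁ (x : ℂ) = x := congrArg Subtype.val hx
          obtain ⟨u, hu, v, hv, h2⟩ := hgenE x x.2
          rw [h2, hS₁v u hu v hv] at h1
          have h3 : v * β = 0 := by linear_combination (-1 / 2 : ℂ) * h1
          rw [h2, h3, add_zero]
          exact hu
        · intro hx
          exact Subtype.ext (hS₁C x hx)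
      sE := hσE
      sK := by
        intro x
        constructor
        · exact hσK x
        · intro hx
          have h1 := hσK' _ hx
          rwa [RingEquiv.symm_apply_apply] at h1
      sk := by
        intro x
        constructor
        · intro hx
          obtain ⟨p, q, rfl⟩ := hk x hx
          rw [hσq]
          exact hkq _ _
        · intro hx
          obtain ⟨p, q, h1⟩ := hk _ hx
          have h2 : σ x = σ ((p : ℂ) + ((-q : ℚ) : ℂ) * m) := by
            rw [hσq, h1, neg_neg]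
          rw [σ.injective h2]
          exact hkq _ _
      cm1 := by
        intro s hs hsw x hx
        obtain ⟨e, e', he, -, h1⟩ := hG.act s
        rcases h1 with ⟨-, h2, -⟩ | ⟨h2, -⟩
        · have h3 : (e : ℂ) * e = 1 := by exact_mod_cast he
          have e2 : s.symm β = e * β := by
            rw [RingEquiv.symm_apply_eq, map_mul, map_intCast, h2]
            linear_combination (-β) * h3
          have e3 : σ.symm (s (σ (s.symm β))) = β := by
            rw [e2]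
            simp only [map_mul, map_intCast, hσβ, h2, hσsβ]
            linear_combination β * h3
          obtain ⟨u, hu, v, hv, h5⟩ := hgenE x hx
          rw [h5]
          have e4 : σ.symm (s (σ (s.symm (u + v * β)))) = σ.symm (s (σ (s.symm u))) +
              σ.symm (s (σ (s.symm v))) * σ.symm (s (σ (s.symm β))) := by
            simp only [map_add, map_mul]
          rw [e4, hcC s u hu, hcC s v hv, e3]
        · rw [hsw] at h2
          exact absurd h2 hww
      cm2 := by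
        intro s hs hsw x
        obtain ⟨e, e', -, he', h1⟩ := hG.act s
        rcases h1 with ⟨h2, -⟩ | ⟨-, -, h2'⟩
        · rw [hsw] at h2
          exact absurd h2.symm hww
        · have h3 : (e' : ℂ) * e' = 1 := by exact_mod_cast he'
          have e2 : s.symm β = e' * β' := by
            rw [RingEquiv.symm_apply_eq, map_mul, map_intCast, h2']
            linear_combination (-β) * h3
          have e3 : σ.symm (s (σ (s.symm β))) = -β := by
            rw [e2]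
            simp only [map_mul, map_intCast, map_neg, hσβ', h2', hσsβ]
            linear_combination (-β) * h3
          obtain ⟨u, hu, v, hv, h5⟩ := hgenE x x.2
          rw [hρv, h5, hS₁v u hu v hv]
          have e4 : σ.symm (s (σ (s.symm (u + v * β)))) = σ.symm (s (σ (s.symm u))) +
              σ.symm (s (σ (s.symm v))) * σ.symm (s (σ (s.symm β))) := by
            simp only [map_add, map_mul]
          rw [e4, hcC s u hu, hcC s v hv, e3]
          ring }

end Pool.Agent.OB
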