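import Pool.Agent.OB.F_CEN
import Pool.Agent.OB.Q_QFT

/-!
# OB, `p = 5`: central extensions of imaginary biquadratic fields which contain `√5`, formulated over `ℚ` (helper84)
-/

set_option autoImplicit false

open NumberField

namespace Pool.Agent.OBF

open _root_.Pool.Agent.RI _root_.Pool.Agent.RID _root_.Pool.Agent.MU3 _root_.Pool.Agent.MUXK
  _root_.Pool.Agent.MUXZ _root_.Pool.Agent.NSI _root_.Pool.Agent.OB

/-- (CENQ) central extensions of imaginary biquadratic fields which contain `√5`. -/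
def Sf_CENQ : Prop := ∀ (K K' : IntermediateField ℚ ℂ), K' ≤ K → FiniteDimensional ℚ K →
  IsGalois ℚ K → ¬ 5 ∣ Module.finrank ℚ K → ∀ (w u : K) (q : ℚ), w ^ 2 = 5 → q < 0 →
  u ^ 2 = (q : K) →
  (∀ σ τ : K ≃ₐ[ℚ] K, σ w = w → σ u = u → σ * τ = τ * σ) →
  (∀ x : K, (∀ σ τ : K ≃ₐ[ℚ] K, σ (τ x) = τ (σ x)) → (x : ℂ) ∈ K') →
  ∃ C : ℕ, ∀ (n : ℕ) (Q : IntermediateField ℚ ℂ), MuCyc.IsLayer 5 n Q →
    padicValNat 5 (MuCyc.classNo (K ⊔ Q)) ≤
      padicValNat 5 (MuCyc.classNo (K' ⊔ Q)) + C * (n + 1) ^ 2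

namespace Cen

/-- Automorphisms over `k` as automorphisms over `ℚ`. -/
noncomputable def toQ {k K : IntermediateField ℚ ℂ} (h : k ≤ K) : MuCyc.Gal h →* (K ≃ₐ[ℚ] K) where
  toFun s :=
    { toFun := fun x => ⟨(s ⟨x.1, x.2⟩).1, (s ⟨x.1, x.2⟩).2⟩
      invFun := fun x => ⟨(s.symm ⟨x.1, x.2⟩).1, (s.symm ⟨x.1, x.2⟩).2⟩
      left_inv := fun x => Subtype.ext (congrArg Subtype.val (s.symm_apply_apply ⟨x.1, x.2⟩))
      right_inv := fun x => Subtype.ext (congrArg Subtype.val (s.apply_symm_apply ⟨x.1, x.2⟩))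
      map_mul' := fun x y => Subtype.ext (congrArg Subtype.val (map_mul s
        (⟨x.1, x.2⟩ : IntermediateField.extendScalars h) ⟨y.1, y.2⟩))
      map_add' := fun x y => Subtype.ext (congrArg Subtype.val (map_add s
        (⟨x.1, x.2⟩ : IntermediateField.extendScalars h) ⟨y.1, y.2⟩))
      commutes' := fun r => Subtype.ext (by
        have h1 := s.commutes (algebraMap ℚ k r)
        exact congrArg Subtype.val h1) }
  map_one' := rfl
  map_mul' _ _ := rfl

lemma toQ_val {k K : IntermediateField ℚ ℂ} (h : k ≤ K) (s : MuCyc.Gal h) (x : K) :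
    ((toQ h s x : K) : ℂ) = (s ⟨x.1, x.2⟩ : IntermediateField.extendScalars h) := rfl

lemma toQ_inj {k K : IntermediateField ℚ ℂ} (h : k ≤ K) : Function.Injective (toQ h) := by
  intro s t hst
  apply AlgEquiv.ext
  intro x
  apply Subtype.ext
  have h1 : toQ h s ⟨x.1, x.2⟩ = toQ h t ⟨x.1, x.2⟩ := by rw [hst]
  exact congrArg Subtype.val h1

/-- A Galois extension of `ℚ` is stable under the automorphisms of `ℂ`. -/
lemma stable (K : IntermediateField ℚ ℂ) (hG : IsGalois ℚ K) (S : ℂ ≃+* ℂ) :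
    ∀ x ∈ K, S x ∈ K := by
  have hn : @Normal ℚ K _ _ (IntermediateField.algebra' K) := by
    have h1 := hG.to_normal
    have e : ∀ a b : Algebra ℚ K, @Normal ℚ K _ _ a → @Normal ℚ K _ _ b := by
      intro a b h
      rw [Subsingleton.elim b a]
      exact h
    exact e _ _ h1
  intro x hx
  exact @LAY.mem_of_normal ℚ ℂ _ _ _ K hn
    (@RingHom.toRatAlgHom _ _ _ _ _ _ ((S : ℂ →+* ℂ).comp (algebraMap K ℂ))) ⟨x, hx⟩

end Cen

open Cen in
theorem tf_CENQ (hCEN : Sf_CEN) : Sf_CENQ := by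
  intro K K' hle hfd hG hd w u q hw hq hu hcen hK'
  have hwC : (w : ℂ) ^ 2 = 5 := congrArg Subtype.val hw
  have huC : (u : ℂ) ^ 2 = ((q : ℚ) : ℂ) := by
    have := congrArg Subtype.val hu
    simpa using this
  have hw0 : w ≠ 0 := by
    rintro rfl
    norm_num at hw
  -- the field `k`
  obtain ⟨m, N', hmN, hN', hy, hmcase⟩ : ∃ (m : K) (N' : ℚ), (m : ℂ) ^ 2 = ((N' : ℚ) : ℂ) ∧
      N' < 0 ∧ (∀ y : ℚ, y ^ 2 * N' ≠ -1 ∧ y ^ 2 * N' ≠ -3) ∧ (m = u ∨ m = w * u) := by
    rcases QFTx.choose_N q with h | h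
    · exact ⟨u, q, huC, hq, h, Or.inl rfl⟩
    · refine ⟨w * u, 5 * q, ?_, by linarith, h, Or.inr rfl⟩
      show ((w : ℂ) * u) ^ 2 = _
      rw [mul_pow, hwC, huC]
      push_cast
      ring
  have hnq : ∀ r : ℚ, (r : ℂ) ≠ m := by
    intro r hr
    rw [← hr] at hmN
    have h1 : r ^ 2 = N' := by exact_mod_cast hmN
    nlinarith [sq_nonneg r]
  have hmm' : (m : ℂ) ^ 2 = algebraMap ℚ ℂ N' := by rw [hmN]; rfl
  set k := IntermediateField.adjoin ℚ {(m : ℂ)} with hkdef
  have hmem : (m : ℂ) ∈ k := IntermediateField.mem_adjoin_simple_self ℚ _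
  have hk : ∀ z ∈ k, ∃ a b : ℚ, z = (a : ℂ) + b * (m : ℂ) := by
    intro z hz
    obtain ⟨a, b, hab⟩ := QFTx.mem_Q hmm' hz
    exact ⟨a, b, hab⟩
  have h : k ≤ K := by
    rw [hkdef, IntermediateField.adjoin_simple_le_iff]
    exact m.2
  have hmc : (starRingEnd ℂ) (m : ℂ) = -(m : ℂ) := by
    have h1 : ((starRingEnd ℂ) (m : ℂ)) ^ 2 = (m : ℂ) ^ 2 := by
      rw [← map_pow, hmN]
      rw [map_ratCast]
    rcases sq_eq_sq_iff_eq_or_eq_neg.1 h1 with h2 | h2
    · exfalso
      obtain ⟨r, hr⟩ := Complex.conj_eq_iff_real.1 h2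
      rw [hr] at hmN
      have h3 : r ^ 2 = (N' : ℝ) := by exact_mod_cast hmN
      have h4 : (N' : ℝ) < 0 := by exact_mod_cast hN'
      nlinarith [sq_nonneg r]
    · exact h2
  have hwr : (starRingEnd ℂ) (w : ℂ) = w := by
    have h1 : ((starRingEnd ℂ) (w : ℂ)) ^ 2 = (w : ℂ) ^ 2 := by
      rw [← map_pow, hwC]
      exact Complex.conj_ofNat 5
    rcases sq_eq_sq_iff_eq_or_eq_neg.1 h1 with e2 | e2
    · exact e2
    · exfalso
      have e3 := Complex.mul_conj (w : ℂ)
      rw [e2, mul_neg, ← pow_two, hwC] at e3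
      have e4 : (-5 : ℝ) = Complex.normSq w := by
        have := congrArg Complex.re e3
        simpa using this
      have e5 := Complex.normSq_nonneg (w : ℂ)
      linarith
  -- central automorphisms
  have hcen' : ∀ s : MuCyc.Gal h, toQ h s w = w → ∀ τ : K ≃ₐ[ℚ] K,
      toQ h s * τ = τ * toQ h s := by
    intro s hs τ
    refine hcen _ τ hs ?_
    have h1 : toQ h s m = m := by
      apply Subtype.ext
      rw [toQ_val]
      exact congrArg Subtype.val (s.commutes ⟨m, hmem⟩)
    rcases hmcase with h2 | h2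
    · rw [← h2, h1]
    · rw [h2, map_mul, hs] at h1
      exact mul_left_cancel₀ hw0 h1
  have hpm : ∀ σ : K ≃ₐ[ℚ] K, σ w = w ∨ σ w = -w := by
    intro σ
    have h1 : (σ w) ^ 2 = w ^ 2 := by rw [← map_pow, hw, map_ofNat]
    exact sq_eq_sq_iff_eq_or_eq_neg.1 h1
  have hab : ∀ s t : MuCyc.Gal h, s * t = t * s := by
    intro s t
    apply toQ_inj h
    rw [map_mul, map_mul]
    rcases hpm (toQ h s) with h1 | h1
    · exact hcen' s h1 _
    rcases hpm (toQ h t) with h2 | h2
    · exact (hcen' t h2 _).symm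
    · have h3 : toQ h (s * t⁻¹) w = w := by
        have h4 : toQ h t⁻¹ w = -w := by
          have h5 : toQ h t (-w) = w := by rw [map_neg, h2, neg_neg]
          have h6 : toQ h t⁻¹ (toQ h t (-w)) = -w := by
            rw [← AlgEquiv.mul_apply, ← map_mul, inv_mul_cancel, map_one]
            rfl
          rw [h5] at h6
          exact h6
        rw [map_mul, AlgEquiv.mul_apply, h4, map_neg, h1, neg_neg]
      have h4 := hcen' _ h3 (toQ h t)
      rw [map_mul, mul_assoc, ← map_mul, inv_mul_cancel, map_one, mul_one] at h4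
      -- `s = t (s t⁻¹)`
      have h5 : toQ h s * toQ h t = toQ h t * (toQ h s * toQ h t⁻¹) * toQ h t := by rw [← h4]
      rw [h5, mul_assoc, mul_assoc, ← map_mul, inv_mul_cancel, map_one, mul_one]
  have hfk : FiniteDimensional ℚ k := by
    have := hfd
    exact FiniteDimensional.of_injective (IntermediateField.inclusion h).toLinearMap
      (IntermediateField.inclusion h).injective
  have hk2 : Module.finrank ℚ k = 2 := QFTx.finrank_Q hmm' fun r hr => hnq r hr
  have hb : Bs 5 h :=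
    { fin := hfd
      k2 := hk2
      im := by
        refine ⟨m, hmem, fun hc => ?_⟩
        rw [hmc] at hc
        have h1 : (m : ℂ) = 0 := by
          have h2 : (2 : ℂ) * m = 0 := by linear_combination -hc
          simpa using h2
        exact hnq 0 (by rw [h1]; norm_num)
      n4 := by
        intro z hz hz2
        obtain ⟨a, b, rfl⟩ := hk z hz
        exact (hy b).1 (QFTx.sq_in hmN hnq (by norm_num) (by rw [hz2]; norm_num))
      n3 := by
        intro z hz hz2
        obtain ⟨a, b, rfl⟩ := hk z hz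
        exact (hy b).2 (QFTx.sq_in hmN hnq (by norm_num) (by rw [hz2]; norm_num))
      gal := QFTx.gal_top h hG
      ab := hab
      cop := by
        intro h1
        apply hd
        have h2 : Module.finrank ℚ k * Module.finrank k (IntermediateField.extendScalars h) =
            Module.finrank ℚ K :=
          Module.finrank_mul_finrank ℚ k (IntermediateField.extendScalars h)
        rw [← h2]
        exact h1.mul_left _ }
  -- the complex conjugation on `K`
  have hst : ∀ z ∈ K, (starRingEnd ℂ) z ∈ K := stable K hG CNJx.cc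
  let c : K ≃ₐ[ℚ] K :=
    { toFun := fun x => ⟨(starRingEnd ℂ) x, hst _ x.2⟩
      invFun := fun x => ⟨(starRingEnd ℂ) x, hst _ x.2⟩
      left_inv := fun x => Subtype.ext (Complex.conj_conj _)
      right_inv := fun x => Subtype.ext (Complex.conj_conj _)
      map_mul' := fun x y => Subtype.ext (map_mul (starRingEnd ℂ) (x : ℂ) (y : ℂ))
      map_add' := fun x y => Subtype.ext (map_add (starRingEnd ℂ) (x : ℂ) (y : ℂ))
      commutes' := fun r => Subtype.ext (by
        show (starRingEnd ℂ) (algebraMap ℚ ℂ r) = algebraMap ℚ ℂ r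
        rw [eq_ratCast (algebraMap ℚ ℂ) r, map_ratCast]) }
  have hcv : ∀ x : K, ((c x : K) : ℂ) = (starRingEnd ℂ) x := fun _ => rfl
  have hcc : ∀ x : K, c (c x) = x := fun x => Subtype.ext (Complex.conj_conj _)
  have hcj : ∀ s s' : MuCyc.Gal h, Cj s s' ↔ ∀ x : K, toQ h s (c x) = c (toQ h s' x) := by
    intro s s'
    constructor
    · intro h1 x
      apply Subtype.ext
      exact h1 ⟨x.1, x.2⟩ ⟨(c x).1, (c x).2⟩ (hcv x)
    · intro h1 x y hxy
      have h2 := congrArg Subtype.val (h1 ⟨x.1, x.2⟩)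
      have h3 : y = (⟨(c ⟨x.1, x.2⟩).1, (c ⟨x.1, x.2⟩).2⟩ : IntermediateField.extendScalars h) :=
        Subtype.ext hxy
      rw [h3]
      exact h2
  refine hCEN k K' K ?_ hle h hb hst ⟨w, w.2, hwC⟩ ?_ ?_
  · -- `k ≤ K'`
    rw [hkdef, IntermediateField.adjoin_simple_le_iff]
    apply hK'
    intro σ τ
    have h1 : ∀ σ : K ≃ₐ[ℚ] K, σ m = m ∨ σ m = -m := by
      intro σ
      have h2 : (σ m) ^ 2 = m ^ 2 := by
        have h3 : m ^ 2 = algebraMap ℚ K N' := Subtype.ext hmN
        rw [← map_pow, h3, σ.commutes]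
      exact sq_eq_sq_iff_eq_or_eq_neg.1 h2
    rcases h1 σ with h2 | h2 <;> rcases h1 τ with h3 | h3 <;>
      simp only [h2, h3, map_neg]
  · -- the automorphisms which fix `w`
    intro s s' hss hfix
    rw [hcj] at hss
    have h1 : toQ h s w = w := by
      apply Subtype.ext
      rw [toQ_val]
      exact congrArg Subtype.val (hfix ⟨w.1, w.2⟩ (Subtype.ext hwC))
    have h2 := hcen' s h1 c
    apply toQ_inj h
    apply AlgEquiv.ext
    intro x
    have h3 : toQ h s (c x) = c (toQ h s x) := by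
      rw [← AlgEquiv.mul_apply, h2, AlgEquiv.mul_apply]
    rw [hss x] at h3
    exact c.injective h3
  · -- the elements on which the automorphisms commute
    intro x hx
    have h1 := hK' ⟨x.1, x.2⟩
    apply h1
    -- automorphisms which fix `m`
    have hfrom : ∀ σ : K ≃ₐ[ℚ] K, σ m = m → ∃ s : MuCyc.Gal h, toQ h s = σ := by
      intro σ hσ
      let s : MuCyc.Gal h :=
        { toFun := fun x => ⟨(σ ⟨x.1, x.2⟩).1, (σ ⟨x.1, x.2⟩).2⟩
          invFun := fun x => ⟨(σ.symm ⟨x.1, x.2⟩).1, (σ.symm ⟨x.1, x.2⟩).2⟩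
          left_inv := fun x => Subtype.ext (congrArg Subtype.val (σ.symm_apply_apply ⟨x.1, x.2⟩))
          right_inv := fun x => Subtype.ext (congrArg Subtype.val (σ.apply_symm_apply ⟨x.1, x.2⟩))
          map_mul' := fun x y => Subtype.ext (congrArg Subtype.val (map_mul σ
            (⟨x.1, x.2⟩ : K) ⟨y.1, y.2⟩))
          map_add' := fun x y => Subtype.ext (congrArg Subtype.val (map_add σ
            (⟨x.1, x.2⟩ : K) ⟨y.1, y.2⟩))
          commutes' := fun r => Subtype.ext (by
            obtain ⟨a, b, hr⟩ := hk r.1 r.2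
            have h2 : (⟨r.1, h r.2⟩ : K) = algebraMap ℚ K a + algebraMap ℚ K b * m :=
              Subtype.ext hr
            have h3 : σ (⟨r.1, h r.2⟩ : K) = ⟨r.1, h r.2⟩ := by
              rw [h2, map_add, map_mul, σ.commutes, σ.commutes, hσ]
            exact congrArg Subtype.val h3) }
      exact ⟨s, rfl⟩
    have hcm : c m = -m := Subtype.ext hmc
    set X : K := ⟨x.1, x.2⟩ with hX
    have hstar : ∀ s : MuCyc.Gal h, toQ h s (c X) = c (toQ h s X) := by
      intro s
      obtain ⟨s', hs'⟩ := hfrom (c * toQ h s * c) (by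
        have h2 : toQ h s m = m := by
          apply Subtype.ext
          rw [toQ_val]
          exact congrArg Subtype.val (s.commutes ⟨m, hmem⟩)
        rw [AlgEquiv.mul_apply, AlgEquiv.mul_apply, hcm, map_neg, h2, map_neg, hcm, neg_neg])
      have h2 : Cj s s' := by
        rw [hcj]
        intro y
        rw [hs', AlgEquiv.mul_apply, AlgEquiv.mul_apply, hcc]
      have h3 := hx s s' h2
      have h4 : toQ h s' X = toQ h s X := by
        apply Subtype.ext
        rw [toQ_val, toQ_val]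
        exact congrArg Subtype.val h3
      rw [hs', AlgEquiv.mul_apply, AlgEquiv.mul_apply] at h4
      rw [← h4, hcc]
    have hdec : ∀ σ : K ≃ₐ[ℚ] K, ∃ s : MuCyc.Gal h, σ = toQ h s ∨ σ = toQ h s * c := by
      intro σ
      have h2 : (σ m) ^ 2 = m ^ 2 := by
        have h3 : m ^ 2 = algebraMap ℚ K N' := Subtype.ext hmN
        rw [← map_pow, h3, σ.commutes]
      rcases sq_eq_sq_iff_eq_or_eq_neg.1 h2 with h3 | h3
      · obtain ⟨s, hs⟩ := hfrom σ h3
        exact ⟨s, Or.inl hs.symm⟩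
      · obtain ⟨s, hs⟩ := hfrom (σ * c) (by
          rw [AlgEquiv.mul_apply, hcm, map_neg, h3, neg_neg])
        refine ⟨s, Or.inr ?_⟩
        rw [hs]
        apply AlgEquiv.ext
        intro y
        rw [AlgEquiv.mul_apply, AlgEquiv.mul_apply, hcc]
    have hcomm : ∀ (s t : MuCyc.Gal h) (y : K), toQ h s (toQ h t y) = toQ h t (toQ h s y) := by
      intro s t y
      rw [← AlgEquiv.mul_apply, ← map_mul, hab, map_mul, AlgEquiv.mul_apply]
    intro σ τ
    obtain ⟨s, hs⟩ := hdec σ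
    obtain ⟨t, ht⟩ := hdec τ
    rcases hs with rfl | rfl <;> rcases ht with rfl | rfl
    · exact hcomm s t X
    · rw [AlgEquiv.mul_apply, AlgEquiv.mul_apply, ← hstar, hcomm]
    · rw [AlgEquiv.mul_apply, AlgEquiv.mul_apply, ← hstar, hcomm]
    · rw [AlgEquiv.mul_apply, AlgEquiv.mul_apply, AlgEquiv.mul_apply, AlgEquiv.mul_apply,
        hstar, hstar, hcc, hcc, hcomm]

end Pool.Agent.OBF
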