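import Pool.Agent.OB.StK

/-!
# OB, block K for one character: CNJ
-/

set_option autoImplicit false

open NumberField IsDedekindDomain Finset Filter Topology
open scoped nonZeroDivisors Pointwise

namespace Pool.Agent.OB

open _root_.Pool.Agent.MU3 _root_.Pool.Agent.RI _root_.Pool.Agent.RID _root_.Pool.Agent.MUXK
  _root_.Pool.Agent.MUXZ _root_.Pool.Agent.NSI

namespace CNJ

/-- The action of a ring automorphism on fractional ideals. -/
noncomputable def actU {L : Type} [Field L] [NumberField L] (τ : L ≃+* L) : J L →* J L :=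
  Units.map (actF τ).toMonoidHom

lemma mem_actU {L : Type} [Field L] [NumberField L] (τ : L ≃+* L) (I : J L) (x : L) :
    x ∈ ((actU τ I : J L) : FractionalIdeal (𝓞 L)⁰ L) ↔
      τ.symm x ∈ (I : FractionalIdeal (𝓞 L)⁰ L) := mem_actF τ I x

lemma actU_comp {L : Type} [Field L] [NumberField L] (τ₁ τ₂ : L ≃+* L) (I : J L) :
    actU τ₁ (actU τ₂ I) = actU (τ₂.trans τ₁) I := by
  apply Units.ext
  ext x
  rw [mem_actU, mem_actU, mem_actU]
  rfl

lemma actU_eq {L : Type} [Field L] [NumberField L] {τ₁ τ₂ : L ≃+* L} (h : ∀ x, τ₁ x = τ₂ x)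
    (I : J L) : actU τ₁ I = actU τ₂ I := by
  have : τ₁ = τ₂ := RingEquiv.ext h
  rw [this]

lemma actU_smul {k L : Type} [Field k] [Field L] [NumberField L] [Algebra k L] (g : L ≃ₐ[k] L)
    (I : J L) : g • I = actU (g : L ≃+* L) I := rfl

lemma actU_prin {L : Type} [Field L] [NumberField L] (τ : L ≃+* L) (x : Lˣ) :
    actU τ (prin x) = prin (Units.map (τ : L →* L) x) := by
  let g : L ≃ₐ[ℚ] L := AlgEquiv.ofRingEquiv (f := τ) (fun q => by
    rw [eq_ratCast, map_ratCast])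
  have h := smul_prin g x
  rw [actU_smul] at h
  have e1 : actU (g : L ≃+* L) (prin x) = actU τ (prin x) := actU_eq (fun _ => rfl) _
  have e2 : g • x = Units.map (τ : L →* L) x := Units.ext rfl
  rw [← e1, h, e2]

/-- Restriction of an automorphism of `ℂ`. -/
lemma restr_ring (σ : ℂ ≃+* ℂ) (L : IntermediateField ℚ ℂ) (h : ∀ x, x ∈ L ↔ σ x ∈ L) :
    ∃ τ : L ≃+* L, ∀ x, ((τ x : L) : ℂ) = σ x := by
  refine ⟨{ toFun := fun x => ⟨σ x, (h x).1 x.2⟩
            invFun := fun x => ⟨σ.symm x, (h _).2 (by rw [σ.apply_symm_apply]; exact x.2)⟩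
            left_inv := fun x => Subtype.ext (σ.symm_apply_apply _)
            right_inv := fun x => Subtype.ext (σ.apply_symm_apply _)
            map_mul' := fun x y => Subtype.ext (map_mul σ _ _)
            map_add' := fun x y => Subtype.ext (map_add σ _ _) }, fun x => rfl⟩

/-- The compositum. -/
lemma sup_iff (σ : ℂ ≃+* ℂ) (K B : IntermediateField ℚ ℂ) (hK : ∀ x, x ∈ K ↔ σ x ∈ K)
    (hB : ∀ x, x ∈ B ↔ σ x ∈ B) : ∀ x, x ∈ K ⊔ B ↔ σ x ∈ K ⊔ B := by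
  have key : ∀ ρ : ℂ ≃+* ℂ, (∀ x ∈ K, ρ x ∈ K) → (∀ x ∈ B, ρ x ∈ B) →
      ∀ x ∈ K ⊔ B, ρ x ∈ K ⊔ B := by
    intro ρ h1 h2
    let ρ' : ℂ →ₐ[ℚ] ℂ := AlgHom.mk' (ρ : ℂ →+* ℂ) (fun q x => by
      rw [Algebra.smul_def, Algebra.smul_def, map_mul, eq_ratCast]
      congr 1
      exact map_ratCast ρ q)
    have h3 : K ⊔ B ≤ (K ⊔ B).comap ρ' := by
      refine sup_le ?_ ?_
      · intro x hx
        exact (le_sup_left : K ≤ K ⊔ B) (h1 x hx)
      · intro x hx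
        exact (le_sup_right : B ≤ K ⊔ B) (h2 x hx)
    intro x hx
    exact h3 hx
  intro x
  constructor
  · exact key σ (fun x hx => (hK x).1 hx) (fun x hx => (hB x).1 hx) x
  · intro hx
    have h4 := key σ.symm (fun x hx => (hK _).2 (by rw [σ.apply_symm_apply]; exact hx))
      (fun x hx => (hB _).2 (by rw [σ.apply_symm_apply]; exact hx)) _ hx
    rwa [σ.symm_apply_apply] at h4

/-- `dg` and ring automorphisms. -/
lemma dg_actU {k L : Type} [Field k] [Field L] [NumberField L] [Algebra k L] (τ : L ≃+* L)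
    (g g' : L ≃ₐ[k] L) (h : ∀ x, g (τ x) = τ (g' x)) (b : J L) (l : ℕ) :
    actU τ ((dg g')^[l] b) = (dg g)^[l] (actU τ b) := by
  induction l generalizing b with
  | zero => rfl
  | succ l ih =>
    rw [Function.iterate_succ_apply, ih, Function.iterate_succ_apply]
    congr 1
    rw [dg_apply, dg_apply, map_div]
    congr 1
    rw [actU_smul, actU_smul, actU_comp, actU_comp]
    exact actU_eq (fun x => (h x).symm) _

end CNJ

open CNJ in
theorem t_CNJ : S_CNJ := by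
  intro F _ k K₀ B _ hk₀ hkK χ χ' σ hK hkσ hB hχ l hN n
  let akK := algC hkK
  let akL := algC (hk₀ n)
  intro g' hg' f' hf' b
  obtain ⟨e1, e2, e3⟩ := hf'
  obtain ⟨τ, hτ⟩ := restr_ring σ (K₀ ⊔ B n) (sup_iff σ K₀ (B n) hK (hB n))
  have hτs : ∀ x : ↥(K₀ ⊔ B n), ((τ.symm x : ↥(K₀ ⊔ B n)) : ℂ) = σ.symm x := by
    intro x
    rw [RingEquiv.eq_symm_apply, ← hτ, RingEquiv.apply_symm_apply]
  have hkmem : ∀ a : k, ∃ a' : k, algebraMap k ↥(K₀ ⊔ B n) a' =
      τ.symm (algebraMap k ↥(K₀ ⊔ B n) a) := by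
    intro a
    refine ⟨⟨σ.symm a, (hkσ _).2 (by rw [σ.apply_symm_apply]; exact a.2)⟩, ?_⟩
    apply Subtype.ext
    rw [hτs]
    rfl
  have hkmem' : ∀ a : k, ∃ a' : k, algebraMap k ↥(K₀ ⊔ B n) a' =
      τ (algebraMap k ↥(K₀ ⊔ B n) a) := by
    intro a
    refine ⟨⟨σ a, (hkσ _).1 a.2⟩, ?_⟩
    apply Subtype.ext
    rw [hτ]
    rfl
  -- the conjugate of `g'`
  let g : ↥(K₀ ⊔ B n) ≃ₐ[k] ↥(K₀ ⊔ B n) :=
    AlgEquiv.ofRingEquiv (f := (τ.symm.trans (g' : ↥(K₀ ⊔ B n) ≃+* ↥(K₀ ⊔ B n))).trans τ) (by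
      intro a
      obtain ⟨a', ha'⟩ := hkmem a
      show τ (g' (τ.symm (algebraMap k ↥(K₀ ⊔ B n) a))) = algebraMap k ↥(K₀ ⊔ B n) a
      rw [← ha', g'.commutes, ha', RingEquiv.apply_symm_apply])
  have hg1 : ∀ x, g x = τ (g' (τ.symm x)) := fun _ => rfl
  have hg : ∀ x : ↥(K₀ ⊔ B n), g x = x ↔ (x : ℂ) ∈ K₀ := by
    intro x
    rw [hg1, ← RingEquiv.eq_symm_apply, hg', hτs, hK, σ.apply_symm_apply]
  -- the functional
  let f : J ↥(K₀ ⊔ B n) → F := fun x => f' (actU τ.symm x)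
  have hf : EigF F k K₀ B n (hk₀ n) hkK χ f := by
    refine ⟨fun x y => ?_, fun x hx => ?_, fun δ s hs x => ?_⟩
    · show f' (actU τ.symm (x * y)) = _
      rw [map_mul, e1]
    · obtain ⟨a, rfl⟩ := hx
      show f' (actU τ.symm (prin a)) = 0
      rw [actU_prin]
      exact e2 _ ⟨_, rfl⟩
    · -- the conjugates of `δ` and `s`
      let δ' : ↥(K₀ ⊔ B n) ≃ₐ[k] ↥(K₀ ⊔ B n) :=
        AlgEquiv.ofRingEquiv (f := (τ.trans (((δ : ↥(K₀ ⊔ B n) ≃ₐ[k] ↥(K₀ ⊔ B n))) :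
          ↥(K₀ ⊔ B n) ≃+* ↥(K₀ ⊔ B n))).trans τ.symm) (by
          intro a
          obtain ⟨a', ha'⟩ := hkmem' a
          show τ.symm ((δ : ↥(K₀ ⊔ B n) ≃ₐ[k] ↥(K₀ ⊔ B n)) (τ (algebraMap k ↥(K₀ ⊔ B n) a))) =
            algebraMap k ↥(K₀ ⊔ B n) a
          rw [← ha', AlgEquiv.commutes, ha', RingEquiv.symm_apply_apply])
      have hδ1 : ∀ x, δ' x = τ.symm ((δ : ↥(K₀ ⊔ B n) ≃ₐ[k] ↥(K₀ ⊔ B n)) (τ x)) := fun _ => rfl
      have hδm : δ' ∈ NC (hk₀ n) (B n) := by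
        intro x hx
        have h1 : ((τ x : ↥(K₀ ⊔ B n)) : ℂ) ∈ B n := by
          rw [hτ]
          exact (hB n _).1 hx
        rw [hδ1, δ.2 _ h1, RingEquiv.symm_apply_apply]
      obtain ⟨t, ht⟩ := restr_ring σ K₀ hK
      have hts : ∀ x : ↥K₀, ((t.symm x : ↥K₀) : ℂ) = σ.symm x := by
        intro x
        rw [RingEquiv.eq_symm_apply, ← ht, RingEquiv.apply_symm_apply]
      let s' : ↥K₀ ≃ₐ[k] ↥K₀ :=
        AlgEquiv.ofRingEquiv (f := (t.trans (s : ↥K₀ ≃+* ↥K₀)).trans t.symm) (by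
          intro a
          have h1 : t (algebraMap k ↥K₀ a) = algebraMap k ↥K₀ ⟨σ a, (hkσ _).1 a.2⟩ := by
            apply Subtype.ext
            rw [ht]
            rfl
          show t.symm (s (t (algebraMap k ↥K₀ a))) = algebraMap k ↥K₀ a
          rw [h1, s.commutes, ← h1, RingEquiv.symm_apply_apply])
      have hs1 : ∀ x, s' x = t.symm (s (t x)) := fun _ => rfl
      have hss : χ' s' = χ s := by
        apply hχ
        intro x x' hx
        have h1 : x' = t x := Subtype.ext (hx.trans (ht x).symm)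
        rw [hs1, hts, σ.apply_symm_apply, h1]
      have h4 : ∀ (x : ↥K₀) (x' : ↥(K₀ ⊔ B n)), (x' : ℂ) = x →
          ((δ' x' : ↥(K₀ ⊔ B n)) : ℂ) = (s' x : ↥K₀) := by
        intro x x' hx
        rw [hδ1, hs1, hτs, hts]
        congr 1
        apply hs
        rw [hτ, ht, hx]
      have h5 := e3 ⟨δ', hδm⟩ s' h4 (actU τ.symm x)
      rw [hss] at h5
      show f' (actU τ.symm ((δ : ↥(K₀ ⊔ B n) ≃ₐ[k] ↥(K₀ ⊔ B n)) • x)) = (χ s : F) * f' (actU τ.symm x)
      rw [← h5]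
      congr 1
      rw [actU_smul, actU_comp]
      show _ = δ' • actU τ.symm x
      rw [actU_smul, actU_comp]
      refine actU_eq (fun y => ?_) _
      show τ.symm ((δ : ↥(K₀ ⊔ B n) ≃ₐ[k] ↥(K₀ ⊔ B n)) y) = δ' (τ.symm y)
      rw [hδ1, RingEquiv.apply_symm_apply]
  have h6 := hN n g hg f hf (actU τ b)
  have h7 : f ((dg g)^[l] (actU τ b)) = f' ((dg g')^[l] b) := by
    rw [← dg_actU τ g g' (fun x => by rw [hg1, RingEquiv.symm_apply_apply])]
    show f' (actU τ.symm (actU τ ((dg g')^[l] b))) = _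
    rw [actU_comp]
    congr 1
    have h8 : actU (τ.trans τ.symm) ((dg g')^[l] b) = actU (RingEquiv.refl _) ((dg g')^[l] b) :=
      actU_eq (fun x => by
        show τ.symm (τ x) = x
        rw [RingEquiv.symm_apply_apply]) _
    rw [h8]
    apply Units.ext
    ext x
    rw [mem_actU]
    rfl
  rw [← h7]
  exact h6

end Pool.Agent.OB
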