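import Pool.Agent.OB.StF
import Pool.Agent.OB.K_CNJ

/-!
# OB, FINAL (helper60): ideal classes and fractional ideals; `chiPart` and `EigS`
-/

set_option autoImplicit false

open NumberField IsDedekindDomain Finset
open scoped nonZeroDivisors Pointwise

namespace Pool.Agent.OBF

open _root_.Pool.Agent.RI _root_.Pool.Agent.RID _root_.Pool.Agent.MU3 _root_.Pool.Agent.MUXK
  _root_.Pool.Agent.MUXZ _root_.Pool.Agent.NSI _root_.Pool.Agent.OB

namespace CHIx

lemma coe_equiv {R S : Type} [CommRing R] [IsDomain R] [CommRing S] [IsDomain S] (f : R ≃+* S)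
    (I : Ideal R) :
    FractionalIdeal.ringEquivOfRingEquiv (FractionRing R) (FractionRing S) f
      (I : FractionalIdeal R⁰ (FractionRing R)) =
      ((I.map f : Ideal S) : FractionalIdeal S⁰ (FractionRing S)) := by
  have h0 : ∀ r : R, IsFractionRing.semilinearEquivOfRingEquiv (FractionRing R) (FractionRing S) f
      (algebraMap R (FractionRing R) r) = algebraMap S (FractionRing S) (f r) := by
    intro r
    simp [IsFractionRing.semilinearEquivOfRingEquiv_apply]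
  ext x
  rw [← FractionalIdeal.mem_coe]
  rw [FractionalIdeal.mem_coeIdeal]
  change x ∈ Submodule.map _ _ ↔ _
  rw [Submodule.mem_map]
  constructor
  · rintro ⟨y, hy, rfl⟩
    have hy' : y ∈ (I : FractionalIdeal R⁰ (FractionRing R)) := hy
    rw [FractionalIdeal.mem_coeIdeal] at hy'
    obtain ⟨r, hr, rfl⟩ := hy'
    exact ⟨f r, Ideal.mem_map_of_mem f hr, (h0 r).symm⟩
  · rintro ⟨s, hs, rfl⟩
    obtain ⟨r, hr, rfl⟩ := (Ideal.mem_map_iff_of_surjective f f.surjective).1 hs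
    refine ⟨algebraMap R (FractionRing R) r, ?_, h0 r⟩
    show algebraMap R (FractionRing R) r ∈ (I : FractionalIdeal R⁰ (FractionRing R))
    rw [FractionalIdeal.mem_coeIdeal]
    exact ⟨r, hr, rfl⟩

lemma map_ne {R S : Type} [CommRing R] [IsDomain R] [CommRing S] [IsDomain S] (f : R ≃+* S)
    (I : (Ideal R)⁰) : (I : Ideal R).map f ∈ (Ideal S)⁰ := by
  rw [mem_nonZeroDivisors_iff_ne_zero]
  intro h
  have h1 : (I : Ideal R) ≠ 0 := nonZeroDivisors.coe_ne_zero I
  apply h1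
  exact (Ideal.map_eq_bot_iff_of_injective f.injective).1 h

lemma mulEquiv_mk0 {R S : Type} [CommRing R] [IsDomain R] [IsDedekindDomain R] [CommRing S]
    [IsDomain S] [IsDedekindDomain S] (f : R ≃+* S) (I : (Ideal R)⁰) :
    ClassGroup.mulEquiv f (ClassGroup.mk0 I) =
      ClassGroup.mk0 (⟨(I : Ideal R).map f, map_ne f I⟩ : (Ideal S)⁰) := by
  unfold ClassGroup.mulEquiv
  rw [MulEquiv.trans_apply, MulEquiv.trans_apply, MulEquiv.symm_apply_eq,
    ClassGroup.equiv_mk0, ClassGroup.equiv_mk0]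
  rw [QuotientGroup.congr_mk']
  congr 1
  apply Units.ext
  exact coe_equiv f I

/-- Every fractional ideal is a principal one times an integral one. -/
lemma decomp {L : Type} [Field L] [NumberField L] (c : J L) :
    ∃ (y : Lˣ) (I : (Ideal (𝓞 L))⁰), c = prin y * FractionalIdeal.mk0 L I := by
  obtain ⟨a, I, ha, hc⟩ := FractionalIdeal.exists_eq_spanSingleton_mul
    (c : FractionalIdeal (𝓞 L)⁰ L)
  have ha' : (algebraMap (𝓞 L) L a) ≠ 0 := by simpa using ha
  have hI : I ≠ 0 := by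
    rintro rfl
    apply c.ne_zero
    rw [hc]; simp
  refine ⟨(Units.mk0 _ ha')⁻¹, ⟨I, mem_nonZeroDivisors_of_ne_zero hI⟩, ?_⟩
  apply Units.ext
  rw [hc, Units.val_mul, coe_toPrincipalIdeal]
  simp

open OB.CNJ in
lemma actU_mk0 {L : Type} [Field L] [NumberField L] (τ : L ≃+* L) (I : (Ideal (𝓞 L))⁰) :
    actU τ (FractionalIdeal.mk0 L I) =
      FractionalIdeal.mk0 L ⟨(I : Ideal (𝓞 L)).map (RingOfIntegers.mapRingEquiv τ),
        map_ne _ I⟩ := by
  apply Units.ext
  ext x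
  rw [mem_actU, FractionalIdeal.coe_mk0, FractionalIdeal.coe_mk0, FractionalIdeal.mem_coeIdeal,
    FractionalIdeal.mem_coeIdeal]
  constructor
  · rintro ⟨y, hy, hy'⟩
    refine ⟨RingOfIntegers.mapRingEquiv τ y, Ideal.mem_map_of_mem _ hy, ?_⟩
    have : algebraMap (𝓞 L) L (RingOfIntegers.mapRingEquiv τ y) = τ (algebraMap (𝓞 L) L y) := rfl
    rw [this, hy', RingEquiv.apply_symm_apply]
  · rintro ⟨y, hy, rfl⟩
    obtain ⟨r, hr, rfl⟩ := (Ideal.mem_map_iff_of_surjective _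
      (RingOfIntegers.mapRingEquiv τ).surjective).1 hy
    refine ⟨r, hr, ?_⟩
    have : algebraMap (𝓞 L) L (RingOfIntegers.mapRingEquiv τ r) = τ (algebraMap (𝓞 L) L r) := rfl
    rw [this, RingEquiv.symm_apply_apply]

lemma mk_prin {L : Type} [Field L] [NumberField L] (y : Lˣ) :
    ClassGroup.mk L (prin y : J L) = (1 : ClassGroup (𝓞 L)) := by
  rw [ClassGroup.mk_eq_one_iff]
  refine ⟨⟨(y : L), ?_⟩⟩
  rw [coe_toPrincipalIdeal, FractionalIdeal.coe_spanSingleton]

open OB.CNJ in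
/-- Ideal classes and automorphisms. -/
lemma mulEquiv_mk {L : Type} [Field L] [NumberField L] (τ : L ≃+* L) (x : J L) :
    ClassGroup.mulEquiv (RingOfIntegers.mapRingEquiv τ) (ClassGroup.mk L x) =
      ClassGroup.mk L (actU τ x) := by
  obtain ⟨y, I, rfl⟩ := decomp x
  rw [map_mul, map_mul, map_mul, map_mul, actU_prin, mk_prin, mk_prin, map_one, one_mul, one_mul,
    actU_mk0, ClassGroup.mk_mk0, ClassGroup.mk_mk0, mulEquiv_mk0]

/-- The character in the form of block K. -/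
noncomputable def toC {F : Type} [Field F] {k K : IntermediateField ℚ ℂ} (h : k ≤ K)
    (χ : MuCyc.Gal h →* Fˣ) : letI := algC h; (↥K ≃ₐ[k] ↥K) →* Fˣ :=
  letI := algC h
  χ.comp (AlgEquiv.autCongr (extEquiv h)).symm.toMonoidHom

lemma toC_apply {F : Type} [Field F] {k K : IntermediateField ℚ ℂ} (h : k ≤ K)
    (χ : MuCyc.Gal h →* Fˣ) : letI := algC h
    ∀ (s : ↥K ≃ₐ[k] ↥K) (s' : MuCyc.Gal h),
      (∀ (x : ↥K) (x' : IntermediateField.extendScalars h), (x' : ℂ) = x →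
        ((s' x' : IntermediateField.extendScalars h) : ℂ) = (s x : ↥K)) → toC h χ s = χ s' := by
  let _ := algC h
  intro s s' hs
  show χ ((AlgEquiv.autCongr (extEquiv h)).symm s) = χ s'
  congr 1
  apply AlgEquiv.ext
  intro x
  apply Subtype.ext
  exact (hs ⟨(x : ℂ), x.2⟩ x rfl).symm

/-- The inverse. -/
noncomputable def ofC {F : Type} [Field F] {k K : IntermediateField ℚ ℂ} (h : k ≤ K)
    (χ : letI := algC h; (↥K ≃ₐ[k] ↥K) →* Fˣ) : MuCyc.Gal h →* Fˣ :=
  letI := algC h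
  χ.comp (AlgEquiv.autCongr (extEquiv h)).toMonoidHom

lemma toC_ofC {F : Type} [Field F] {k K : IntermediateField ℚ ℂ} (h : k ≤ K)
    (χ : letI := algC h; (↥K ≃ₐ[k] ↥K) →* Fˣ) : toC h (ofC h χ) = χ := by
  letI := algC h
  apply MonoidHom.ext
  intro s
  show χ ((AlgEquiv.autCongr (extEquiv h)) ((AlgEquiv.autCongr (extEquiv h)).symm s)) = χ s
  rw [MulEquiv.apply_symm_apply]

end CHIx

open CHIx OB.CNJ in
/-- The dimension of `chiPart`. -/
theorem chi_eig (p : ℕ) [Fact p.Prime] (k K : IntermediateField ℚ ℂ) (h : k ≤ K)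
    (B : ℕ → IntermediateField ℚ ℂ) (n : ℕ) [FiniteDimensional ℚ ↥(K ⊔ B n)]
    (hk : k ≤ K ⊔ B n) (χ : MuCyc.Chr p h)
    (hfin : Module.Finite (AlgebraicClosure (ZMod p))
      (EigS (AlgebraicClosure (ZMod p)) k K B n hk h (toC h χ))) :
    Module.finrank (AlgebraicClosure (ZMod p)) (MuCyc.chiPart p h χ (B n)) ≤
      Module.finrank (AlgebraicClosure (ZMod p))
        (EigS (AlgebraicClosure (ZMod p)) k K B n hk h (toC h χ)) := by
  letI := algC h
  letI := algC hk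
  let φ : (ClassGroup (𝓞 ↥(K ⊔ B n)) → AlgebraicClosure (ZMod p)) →ₗ[AlgebraicClosure (ZMod p)]
      (J ↥(K ⊔ B n) → AlgebraicClosure (ZMod p)) :=
    LinearMap.funLeft _ _ (fun x => ClassGroup.mk ↥(K ⊔ B n) x)
  have hinj : Function.Injective φ := by
    apply LinearMap.funLeft_injective_of_surjective
    intro c
    exact ClassGroup.induction (R := 𝓞 ↥(K ⊔ B n)) ↥(K ⊔ B n)
      (P := fun c => ∃ x : J ↥(K ⊔ B n), ClassGroup.mk ↥(K ⊔ B n) x = c) (fun I => ⟨I, rfl⟩) c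
  have hmap : (MuCyc.chiPart p h χ (B n)).map φ ≤
      EigS (AlgebraicClosure (ZMod p)) k K B n hk h (toC h χ) := by
    rintro _ ⟨f, ⟨h1, h2⟩, rfl⟩
    refine ⟨fun x y => ?_, fun x hx => ?_, fun δ s hs x => ?_⟩
    · show f (ClassGroup.mk _ (x * y)) = f (ClassGroup.mk _ x) + f (ClassGroup.mk _ y)
      rw [map_mul, h1]
    · obtain ⟨a, rfl⟩ := hx
      show f (ClassGroup.mk _ (prin a)) = 0
      rw [mk_prin]
      have := h1 1 1
      rw [mul_one] at this
      linear_combination -this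
    · show f (ClassGroup.mk _ ((δ : ↥(K ⊔ B n) ≃ₐ[k] ↥(K ⊔ B n)) • x)) = _ * f (ClassGroup.mk _ x)
      rw [actU_smul, ← mulEquiv_mk]
      let s' : MuCyc.Gal h := (AlgEquiv.autCongr (extEquiv h)).symm s
      have e1 : toC h χ s = χ s' := rfl
      rw [e1]
      apply h2 ((δ : ↥(K ⊔ B n) ≃ₐ[k] ↥(K ⊔ B n)) : ↥(K ⊔ B n) ≃+* ↥(K ⊔ B n)) s'
      · intro x hx
        exact δ.2 x hx
      · intro x y hxy
        exact hs ⟨(y : ℂ), y.2⟩ x hxy
  calc Module.finrank (AlgebraicClosure (ZMod p)) (MuCyc.chiPart p h χ (B n))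
      = Module.finrank (AlgebraicClosure (ZMod p)) ((MuCyc.chiPart p h χ (B n)).map φ) :=
        (Submodule.equivMapOfInjective φ hinj _).finrank_eq
    _ ≤ _ := Submodule.finrank_mono hmap

end Pool.Agent.OBF
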