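import Pool.Agent.OB.StF

/-!
# OB, FINAL (helper60): subextensions of abelian extensions
-/

set_option autoImplicit false

open NumberField

namespace Pool.Agent.OBF

open _root_.Pool.Agent.RI

/-- Subextensions of abelian extensions are abelian. -/
theorem sub_ab {k K' K : IntermediateField ℚ ℂ} [FiniteDimensional ℚ K] (h1 : k ≤ K')
    (h2 : K' ≤ K) (h : k ≤ K) (hG : IsGalois k (IntermediateField.extendScalars h))
    (hc : ∀ σ τ : (IntermediateField.extendScalars h) ≃ₐ[k] (IntermediateField.extendScalars h),
      σ * τ = τ * σ) :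
    IsGalois k (IntermediateField.extendScalars h1) ∧
    ∀ σ τ : (IntermediateField.extendScalars h1) ≃ₐ[k] (IntermediateField.extendScalars h1),
      σ * τ = τ * σ := by
  have fdk : FiniteDimensional k (IntermediateField.extendScalars h) := by
    have h1 : FiniteDimensional ℚ (IntermediateField.extendScalars h) :=
      inferInstanceAs (FiniteDimensional ℚ K)
    exact Module.Finite.of_restrictScalars_finite ℚ k _
  have hE : IntermediateField.extendScalars h1 ≤ IntermediateField.extendScalars h :=
    fun x hx => h2 hx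
  let L₀ : IntermediateField k (IntermediateField.extendScalars h) :=
    IntermediateField.restrict hE
  have hnorm : L₀.fixingSubgroup.Normal := by
    constructor
    intro n hn g
    rw [hc g n, mul_assoc, mul_inv_cancel, mul_one]
    exact hn
  have hg₀ : IsGalois k L₀ := by
    have h3 := IsGalois.of_fixedField_normal_subgroup L₀.fixingSubgroup
    rwa [IsGalois.fixedField_fixingSubgroup] at h3
  let e : IntermediateField.extendScalars h1 ≃ₐ[k] L₀ := IntermediateField.restrictAlgEquiv hE
  have hg : IsGalois k (IntermediateField.extendScalars h1) := IsGalois.of_algEquiv e.symm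
  refine ⟨hg, fun σ τ => ?_⟩
  -- lift to `K`
  have hlift : ∀ s : (IntermediateField.extendScalars h1) ≃ₐ[k]
      (IntermediateField.extendScalars h1), ∃ s' : (IntermediateField.extendScalars h) ≃ₐ[k]
      (IntermediateField.extendScalars h), ∀ x : IntermediateField.extendScalars h1,
      ((s' ⟨x, hE x.2⟩ : IntermediateField.extendScalars h) : ℂ) =
        (s x : IntermediateField.extendScalars h1) := by
    intro s
    obtain ⟨s', hs'⟩ := AlgEquiv.restrictNormalHom_surjective (F := k) (K₁ := L₀)
      (E := IntermediateField.extendScalars h) (AlgEquiv.autCongr e s)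
    refine ⟨s', fun x => ?_⟩
    have h3 := AlgEquiv.restrictNormal_commutes s' L₀ (e x)
    have h4 : (AlgEquiv.restrictNormal s' L₀) (e x) = e (s x) := by
      have h5 : AlgEquiv.restrictNormal s' L₀ = AlgEquiv.autCongr e s := hs'
      rw [h5]
      show e (s (e.symm (e x))) = e (s x)
      rw [e.symm_apply_apply]
    rw [h4] at h3
    exact (congrArg (fun y : IntermediateField.extendScalars h => (y : ℂ)) h3).symm
  obtain ⟨σ', hσ⟩ := hlift σ
  obtain ⟨τ', hτ⟩ := hlift τ
  apply AlgEquiv.ext
  intro x
  apply Subtype.ext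
  have e1 : ((σ (τ x) : IntermediateField.extendScalars h1) : ℂ) =
      (σ' (τ' ⟨x, hE x.2⟩) : IntermediateField.extendScalars h) := by
    rw [← hσ]
    congr 2
    exact Subtype.ext (hτ x).symm
  have e2 : ((τ (σ x) : IntermediateField.extendScalars h1) : ℂ) =
      (τ' (σ' ⟨x, hE x.2⟩) : IntermediateField.extendScalars h) := by
    rw [← hτ]
    congr 2
    exact Subtype.ext (hσ x).symm
  show ((σ (τ x) : IntermediateField.extendScalars h1) : ℂ) =
    ((τ (σ x) : IntermediateField.extendScalars h1) : ℂ)
  rw [e1, e2]
  exact congrArg (fun s : (IntermediateField.extendScalars h) ≃ₐ[k]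
    (IntermediateField.extendScalars h) => ((s ⟨x, hE x.2⟩ : _) : ℂ)) (hc σ' τ')

/-- The upper part of an abelian extension is abelian. -/
theorem top_ab {k K' K : IntermediateField ℚ ℂ} (h1 : k ≤ K')
    (h2 : K' ≤ K) (h : k ≤ K) (hG : IsGalois k (IntermediateField.extendScalars h))
    (hc : ∀ σ τ : (IntermediateField.extendScalars h) ≃ₐ[k] (IntermediateField.extendScalars h),
      σ * τ = τ * σ) :
    IsGalois K' (IntermediateField.extendScalars h2) ∧
    ∀ σ τ : (IntermediateField.extendScalars h2) ≃ₐ[K'] (IntermediateField.extendScalars h2),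
      σ * τ = τ * σ := by
  constructor
  · rw [← isGalois_algC] at hG ⊢
    let _ := algC h1
    let _ := algC h2
    let _ := algC h
    have : IsScalarTower k K' K := towerC h1 h2
    exact IsGalois.tower_top_of_isGalois k K' K
  · intro σ τ
    have hr : ∀ s : (IntermediateField.extendScalars h2) ≃ₐ[K']
        (IntermediateField.extendScalars h2), ∃ s' : (IntermediateField.extendScalars h) ≃ₐ[k]
        (IntermediateField.extendScalars h), ∀ x : ℂ, ∀ (hx : x ∈ K), 
        ((s' ⟨x, hx⟩ : IntermediateField.extendScalars h) : ℂ) =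
          (s ⟨x, hx⟩ : IntermediateField.extendScalars h2) := by
      intro s
      refine ⟨AlgEquiv.ofRingEquiv (f :=
        { toFun := fun x => ⟨(s ⟨x, x.2⟩ : IntermediateField.extendScalars h2), (s ⟨x, x.2⟩).2⟩
          invFun := fun x => ⟨(s.symm ⟨x, x.2⟩ : IntermediateField.extendScalars h2),
            (s.symm ⟨x, x.2⟩).2⟩
          left_inv := fun x => Subtype.ext (congrArg Subtype.val (s.symm_apply_apply ⟨x, x.2⟩))
          right_inv := fun x => Subtype.ext (congrArg Subtype.val (s.apply_symm_apply ⟨x, x.2⟩))
          map_mul' := fun x y => Subtype.ext (congrArg Subtype.val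
            (map_mul s (⟨x, x.2⟩ : IntermediateField.extendScalars h2) ⟨y, y.2⟩))
          map_add' := fun x y => Subtype.ext (congrArg Subtype.val
            (map_add s (⟨x, x.2⟩ : IntermediateField.extendScalars h2) ⟨y, y.2⟩)) }) ?_,
        fun x hx => rfl⟩
      intro a
      apply Subtype.ext
      exact congrArg Subtype.val (s.commutes ⟨a, h1 a.2⟩)
    obtain ⟨σ', hσ⟩ := hr σ
    obtain ⟨τ', hτ⟩ := hr τ
    apply AlgEquiv.ext
    intro x
    apply Subtype.ext
    have e1 : ((σ (τ x) : IntermediateField.extendScalars h2) : ℂ) =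
        (σ' (τ' ⟨x, x.2⟩) : IntermediateField.extendScalars h) := by
      have h5 : (τ' ⟨x, x.2⟩ : IntermediateField.extendScalars h) =
          ⟨(τ x : IntermediateField.extendScalars h2), (τ x).2⟩ := Subtype.ext (hτ x x.2)
      rw [h5, hσ _ (τ x).2]
    have e2 : ((τ (σ x) : IntermediateField.extendScalars h2) : ℂ) =
        (τ' (σ' ⟨x, x.2⟩) : IntermediateField.extendScalars h) := by
      have h5 : (σ' ⟨x, x.2⟩ : IntermediateField.extendScalars h) =
          ⟨(σ x : IntermediateField.extendScalars h2), (σ x).2⟩ := Subtype.ext (hσ x x.2)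
      rw [h5, hτ _ (σ x).2]
    show ((σ (τ x) : IntermediateField.extendScalars h2) : ℂ) =
      ((τ (σ x) : IntermediateField.extendScalars h2) : ℂ)
    rw [e1, e2]
    exact congrArg (fun s : (IntermediateField.extendScalars h) ≃ₐ[k]
      (IntermediateField.extendScalars h) => ((s ⟨x, x.2⟩ : _) : ℂ)) (hc σ' τ')

end Pool.Agent.OBF
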