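import Pool.Agent.OB.StF2
import Pool.Agent.OB.F_TWO
import Pool.Agent.OB.F_SUB

/-!
# OB, FINAL, module CYC: cyclic extensions of degree `2^r` which contain `√5`
-/

set_option autoImplicit false

open NumberField IsDedekindDomain Finset
open scoped nonZeroDivisors Pointwise

namespace Pool.Agent.OBF

open _root_.Pool.Agent.RI _root_.Pool.Agent.RID _root_.Pool.Agent.MU3 _root_.Pool.Agent.MUXK
  _root_.Pool.Agent.MUXZ _root_.Pool.Agent.NSI _root_.Pool.Agent.OB

namespace CYCx

/-- `5^(2^j) = 1 + 2^(j+2) + c 2^(j+3)`. -/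
theorem five_pow (j : ℕ) : ∃ c : ℕ, 5 ^ 2 ^ j = 1 + 2 ^ (j + 2) + c * 2 ^ (j + 3) := by
  induction j with
  | zero => exact ⟨0, by norm_num⟩
  | succ j ih =>
    obtain ⟨c, hc⟩ := ih
    refine ⟨c + 2 ^ j * (1 + 2 * c) ^ 2, ?_⟩
    rw [pow_succ 2 j, pow_mul, hc]
    ring

/-- A power with exponent `5^a` which is the negative. -/
theorem pow_neg {F : Type} [Field F] (x : Fˣ) (u : ℕ) (hu : 2 ≤ u) (hx : x ^ 2 ^ u = -1) :
    ∃ a : ℕ, x ^ 5 ^ a = -x := by
  obtain ⟨j, rfl⟩ : ∃ j, u = j + 2 := ⟨u - 2, by omega⟩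
  obtain ⟨c, hc⟩ := five_pow j
  refine ⟨2 ^ j, ?_⟩
  have h1 : x ^ 2 ^ (j + 3) = 1 := by
    rw [show j + 3 = (j + 2) + 1 from rfl, pow_succ 2 (j + 2), pow_mul, hx]
    simp
  rw [hc, pow_add, pow_add, pow_one, hx, mul_comm c, pow_mul, h1, one_pow, mul_one, mul_neg,
    mul_one]

/-- An element of order a power of `2`. -/
theorem exists_neg {F : Type} [Field F] (x : Fˣ) (r e : ℕ) (he : 1 ≤ e) (hx : x ^ 2 ^ r = 1)
    (hxe : x ^ 2 ^ e ≠ 1) : ∃ u : ℕ, e ≤ u ∧ x ^ 2 ^ u = -1 := by
  classical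
  have hex : ∃ n, x ^ 2 ^ n = 1 := ⟨r, hx⟩
  have h0 : ∀ n, x ^ 2 ^ n = 1 → e < n := by
    intro n hn
    by_contra hc
    apply hxe
    obtain ⟨d, rfl⟩ := Nat.exists_eq_add_of_le (not_lt.1 hc)
    rw [pow_add, pow_mul, hn, one_pow]
  have h1 := Nat.find_spec hex
  have h2 := h0 _ h1
  obtain ⟨u, hu⟩ : ∃ u, Nat.find hex = u + 1 := ⟨Nat.find hex - 1, by omega⟩
  rw [hu] at h1 h2
  refine ⟨u, by omega, ?_⟩
  have h3 : x ^ 2 ^ u ≠ 1 := Nat.find_min hex (by omega)
  have h4 : ((x ^ 2 ^ u : Fˣ) : F) * ((x ^ 2 ^ u : Fˣ) : F) = 1 := by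
    rw [← Units.val_mul, ← sq, ← pow_mul, ← pow_succ, h1, Units.val_one]
  rcases mul_self_eq_one_iff.1 h4 with h5 | h5
  · exact absurd (Units.ext h5) h3
  · apply Units.ext
    rw [h5]
    simp

/-- A square root of `5` is real. -/
theorem conj_sqrt {w : ℂ} (hw : w ^ 2 = 5) : (starRingEnd ℂ) w = w := by
  have h1 : ((starRingEnd ℂ) w) ^ 2 = w ^ 2 := by
    rw [← map_pow, hw]
    exact map_ofNat _ 5
  rcases sq_eq_sq_iff_eq_or_eq_neg.1 h1 with h2 | h2
  · exact h2
  · exfalso
    have h3 : w * (starRingEnd ℂ) w = -5 := by rw [h2, ← hw]; ring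
    rw [Complex.mul_conj] at h3
    have h4 : (Complex.normSq w : ℝ) = -5 := by exact_mod_cast h3
    have h5 := Complex.normSq_nonneg w
    linarith

/-- `√5` is not in an imaginary quadratic field. -/
theorem sqrt_notMem {k : IntermediateField ℚ ℂ} (hk : Module.finrank ℚ k = 2)
    (hi : ∃ z ∈ k, (starRingEnd ℂ) z ≠ z) {w : ℂ} (hw : w ^ 2 = 5) : w ∉ k := by
  intro hwk
  obtain ⟨z, hz, hne⟩ := hi
  have fd : FiniteDimensional ℚ k := Module.finite_of_finrank_pos (by omega)
  have hle : IntermediateField.adjoin ℚ {w} ≤ k := by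
    rw [IntermediateField.adjoin_le_iff]
    intro x hx
    rw [Set.mem_singleton_iff.1 hx]
    exact hwk
  have hint : IsIntegral ℚ w := by
    refine ⟨Polynomial.X ^ 2 - Polynomial.C 5, Polynomial.monic_X_pow_sub_C _ two_ne_zero, ?_⟩
    simp [hw]
  have hd : Module.finrank ℚ (IntermediateField.adjoin ℚ {w}) = 2 := by
    have hdvd : Module.finrank ℚ (IntermediateField.adjoin ℚ {w}) ∣ 2 := by
      rw [← hk]
      let _ := IntermediateField.inclusion hle
      let _ : Algebra (IntermediateField.adjoin ℚ {w}) k :=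
        (IntermediateField.inclusion hle).toRingHom.toAlgebra
      have : IsScalarTower ℚ (IntermediateField.adjoin ℚ {w}) k :=
        IsScalarTower.of_algebraMap_eq fun _ => rfl
      exact ⟨_, (Module.finrank_mul_finrank ℚ (IntermediateField.adjoin ℚ {w}) k).symm⟩
    rcases (Nat.dvd_prime Nat.prime_two).1 hdvd with h1 | h1
    · exfalso
      rw [IntermediateField.finrank_eq_one_iff, IntermediateField.adjoin_simple_eq_bot_iff,
        IntermediateField.mem_bot] at h1
      obtain ⟨a, ha⟩ := h1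
      have h2 : (a : ℂ) ^ 2 = 5 := by rw [← hw, ← ha]; rfl
      have h3 : a ^ 2 = 5 := by exact_mod_cast h2
      have h4 : ¬ IsSquare (5 : ℚ) := by
        rw [show (5 : ℚ) = ((5 : ℕ) : ℚ) by norm_num, Rat.isSquare_natCast_iff]
        exact (Nat.prime_iff.1 (by norm_num : Nat.Prime 5)).not_isSquare
      exact h4 ⟨a, by rw [← h3]; ring⟩
    · exact h1
  have heq : IntermediateField.adjoin ℚ {w} = k :=
    IntermediateField.eq_of_le_of_finrank_eq hle (by rw [hd, hk])
  rw [← heq] at hz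
  apply hne
  refine IntermediateField.adjoin_induction ℚ (p := fun x _ => (starRingEnd ℂ) x = x)
    ?_ ?_ ?_ ?_ ?_ hz
  · intro x hx
    rw [Set.mem_singleton_iff.1 hx]
    exact conj_sqrt hw
  · intro q
    show (starRingEnd ℂ) (algebraMap ℚ ℂ q) = algebraMap ℚ ℂ q
    rw [show algebraMap ℚ ℂ q = ((q : ℝ) : ℂ) by simp]
    exact Complex.conj_ofReal _
  · intro x y _ _ hx hy
    rw [map_add, hx, hy]
  · intro x _ hx
    rw [map_inv₀, hx]
  · intro x y _ _ hx hy
    rw [map_mul, hx, hy]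

/-- Restriction of automorphisms. -/
theorem exists_res {k L K : IntermediateField ℚ ℂ} (hL : k ≤ L) (hLK : L ≤ K) (hK : k ≤ K)
    (hG : IsGalois k (IntermediateField.extendScalars hL)) :
    ∃ res : MuCyc.Gal hK →* MuCyc.Gal hL, ∀ (s : MuCyc.Gal hK)
      (x : IntermediateField.extendScalars hL) (x' : IntermediateField.extendScalars hK),
      (x' : ℂ) = x → ((s x' : IntermediateField.extendScalars hK) : ℂ) =
        (res s x : IntermediateField.extendScalars hL) := by
  have hE : IntermediateField.extendScalars hL ≤ IntermediateField.extendScalars hK :=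
    fun x hx => hLK hx
  let L₀ : IntermediateField k (IntermediateField.extendScalars hK) :=
    IntermediateField.restrict hE
  let e : IntermediateField.extendScalars hL ≃ₐ[k] L₀ := IntermediateField.restrictAlgEquiv hE
  have hg₀ : IsGalois k L₀ := IsGalois.of_algEquiv e
  refine ⟨((AlgEquiv.autCongr e.symm).toMonoidHom).comp
    (AlgEquiv.restrictNormalHom (F := k) (K₁ := IntermediateField.extendScalars hK) L₀), ?_⟩
  intro s x x' hx
  have h3 := AlgEquiv.restrictNormal_commutes s L₀ (e x)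
  have h4 : (algebraMap L₀ (IntermediateField.extendScalars hK)) (e x) = x' := by
    apply Subtype.ext
    rw [hx]
    rfl
  rw [h4] at h3
  rw [← h3]
  show _ = ((e.symm ((AlgEquiv.restrictNormal s L₀) (e x)) : IntermediateField.extendScalars hL) :
    ℂ)
  have h5 : ∀ y : L₀, ((e.symm y : IntermediateField.extendScalars hL) : ℂ) =
      ((algebraMap L₀ (IntermediateField.extendScalars hK)) y :
        IntermediateField.extendScalars hK) := by
    intro y
    obtain ⟨z, rfl⟩ := e.surjective y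
    rw [e.symm_apply_apply]
    rfl
  rw [h5]

/-- The elements of a cyclic Galois group which are trivial on a subfield of degree `e`. -/
theorem dvd_of_fix {k L' L : IntermediateField ℚ ℂ} [FiniteDimensional ℚ L] (h1 : k ≤ L')
    (h2 : L' ≤ L) (h : k ≤ L) (hG : IsGalois k (IntermediateField.extendScalars h))
    (g : MuCyc.Gal h) (hg : ∀ x, x ∈ Subgroup.zpowers g) (i : ℕ)
    (hi : ∀ x : IntermediateField.extendScalars h, (x : ℂ) ∈ L' → (g ^ i) x = x) :
    Module.finrank k (IntermediateField.extendScalars h1) ∣ i := by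
  have fdk : FiniteDimensional k (IntermediateField.extendScalars h) := by
    have h1 : FiniteDimensional ℚ (IntermediateField.extendScalars h) :=
      inferInstanceAs (FiniteDimensional ℚ L)
    exact Module.Finite.of_restrictScalars_finite ℚ k _
  have hE : IntermediateField.extendScalars h1 ≤ IntermediateField.extendScalars h :=
    fun x hx => h2 hx
  let L₀ : IntermediateField k (IntermediateField.extendScalars h) :=
    IntermediateField.restrict hE
  let e : IntermediateField.extendScalars h1 ≃ₐ[k] L₀ := IntermediateField.restrictAlgEquiv hE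
  have hfr : Module.finrank k L₀ = Module.finrank k (IntermediateField.extendScalars h1) :=
    e.symm.toLinearEquiv.finrank_eq
  have hcardG : Nat.card (MuCyc.Gal h) = Module.finrank k (IntermediateField.extendScalars h) :=
    IsGalois.card_aut_eq_finrank _ _
  have hcardH : Nat.card L₀.fixingSubgroup =
      Module.finrank L₀ (IntermediateField.extendScalars h) :=
    IsGalois.card_fixingSubgroup_eq_finrank L₀
  have hmul : Module.finrank k L₀ * Module.finrank L₀ (IntermediateField.extendScalars h) =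
      Module.finrank k (IntermediateField.extendScalars h) :=
    Module.finrank_mul_finrank k L₀ (IntermediateField.extendScalars h)
  have hmem : g ^ i ∈ L₀.fixingSubgroup := by
    rw [IntermediateField.mem_fixingSubgroup_iff]
    intro x hx
    apply hi
    have := (IntermediateField.mem_restrict hE x).1 hx
    exact this
  have hpow : (g ^ i) ^ Nat.card L₀.fixingSubgroup = 1 := by
    have h3 : (⟨g ^ i, hmem⟩ : L₀.fixingSubgroup) ^ Nat.card L₀.fixingSubgroup = 1 :=
      pow_card_eq_one'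
    exact congrArg Subtype.val h3
  rw [← pow_mul] at hpow
  have hord : orderOf g = Nat.card (MuCyc.Gal h) :=
    orderOf_eq_card_of_forall_mem_zpowers hg
  have hdvd := orderOf_dvd_of_pow_eq_one hpow
  rw [hord, hcardG, ← hmul, hcardH, hfr] at hdvd
  exact Nat.dvd_of_mul_dvd_mul_right Module.finrank_pos hdvd

/-- The action of the Galois group on `√5`. -/
theorem exists_gen {k L : IntermediateField ℚ ℂ} [FiniteDimensional ℚ L] (h : k ≤ L)
    (hG : IsGalois k (IntermediateField.extendScalars h)) (g : MuCyc.Gal h)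
    (hg : ∀ x, x ∈ Subgroup.zpowers g) {w : ℂ} (hwL : w ∈ L) (hw : w ^ 2 = 5) (hwk : w ∉ k) :
    ∀ (i : ℕ), (((g ^ i) ⟨w, hwL⟩ : IntermediateField.extendScalars h) : ℂ) = (-1) ^ i * w := by
  have h1 : ((g ⟨w, hwL⟩ : IntermediateField.extendScalars h) : ℂ) ^ 2 = w ^ 2 := by
    have h2 : (g ⟨w, hwL⟩) ^ 2 = (⟨w, hwL⟩ : IntermediateField.extendScalars h) ^ 2 := by
      rw [← map_pow]
      have h3 : (⟨w, hwL⟩ : IntermediateField.extendScalars h) ^ 2 = 5 := Subtype.ext hw
      rw [h3]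
      exact map_ofNat _ 5
    exact congrArg Subtype.val h2
  have h2 : ((g ⟨w, hwL⟩ : IntermediateField.extendScalars h) : ℂ) = -w := by
    rcases sq_eq_sq_iff_eq_or_eq_neg.1 h1 with h3 | h3
    · exfalso
      apply hwk
      have h4 : ∀ s : MuCyc.Gal h, s ⟨w, hwL⟩ = ⟨w, hwL⟩ := by
        have h5 : g ∈ MulAction.stabilizer (MuCyc.Gal h)
            (⟨w, hwL⟩ : IntermediateField.extendScalars h) := Subtype.ext h3
        intro s
        have h6 : s ∈ MulAction.stabilizer (MuCyc.Gal h)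
            (⟨w, hwL⟩ : IntermediateField.extendScalars h) :=
          (Subgroup.zpowers_le.2 h5) (hg s)
        exact h6
      have fdk : FiniteDimensional k (IntermediateField.extendScalars h) := by
        have h1 : FiniteDimensional ℚ (IntermediateField.extendScalars h) :=
          inferInstanceAs (FiniteDimensional ℚ L)
        exact Module.Finite.of_restrictScalars_finite ℚ k _
      obtain ⟨a, ha⟩ := (IsGalois.mem_range_algebraMap_iff_fixed
        (⟨w, hwL⟩ : IntermediateField.extendScalars h)).2 h4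
      have h7 := congrArg Subtype.val ha
      have h8 : (a : ℂ) = w := h7
      rw [← h8]
      exact a.2
    · exact h3
  intro i
  induction i with
  | zero => simp
  | succ i ih =>
    have h3 : g ⟨w, hwL⟩ = -⟨w, hwL⟩ := Subtype.ext h2
    rw [pow_succ, AlgEquiv.mul_apply, h3, map_neg]
    show -(((g ^ i) ⟨w, hwL⟩ : IntermediateField.extendScalars h) : ℂ) = _
    rw [ih]
    ring

/-- The good characters: the character `χ` of `Gal(L/k)` with `χ(g)^(2^u) = -1`. -/
theorem good (hP5 : Sf_P5) (hIFM : Sf_IFM) (hFLD : Sf_FLD5) {k L : IntermediateField ℚ ℂ}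
    [FiniteDimensional ℚ L] [Fact (Nat.Prime 5)] (h : k ≤ L) (r : ℕ) (hB : Bs 5 h)
    (hr : Module.finrank k (IntermediateField.extendScalars h) = 2 ^ r)
    (g : MuCyc.Gal h) (hg : ∀ x, x ∈ Subgroup.zpowers g) {w : ℂ} (hwL : w ∈ L)
    (hw : w ^ 2 = 5) (hwk : w ∉ k) (χ : MuCyc.Chr 5 h) (u : ℕ) (hu : 1 ≤ u)
    (hχ : (χ g) ^ 2 ^ u = -1)
    (hd : 2 ≤ u ∨ ((∀ z ∈ L, (starRingEnd ℂ) z ∈ L) ∧
      ∀ s s' : MuCyc.Gal h, (∀ x y : IntermediateField.extendScalars h,
        (y : ℂ) = (starRingEnd ℂ) x → ((s y : IntermediateField.extendScalars h) : ℂ) =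
          (starRingEnd ℂ) (s' x : IntermediateField.extendScalars h)) → s' = s⁻¹)) :
    MuCyc.MuZeroC 5 h χ := by
  obtain ⟨K, hK, hLK, hBK, hz, h5K, -, hconj, hF⟩ := hFLD k L h r hB hr
  have : FiniteDimensional ℚ K := hBK.fin
  obtain ⟨res, hres⟩ := exists_res h hLK hK hB.gal
  obtain ⟨ω, hω, hωs, -⟩ := exists_omega 5 hK hz
  have hw0 : w ≠ 0 := by
    rintro rfl
    norm_num at hw
  -- powers of `g`
  have fin : Finite (MuCyc.Gal h) := by
    have fdk : FiniteDimensional k (IntermediateField.extendScalars h) := by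
      have h1 : FiniteDimensional ℚ (IntermediateField.extendScalars h) :=
        inferInstanceAs (FiniteDimensional ℚ L)
      exact Module.Finite.of_restrictScalars_finite ℚ k _
    infer_instance
  have hpow : ∀ s : MuCyc.Gal h, ∃ i : ℕ, g ^ i = s := by
    intro s
    have h1 := hg s
    rw [← mem_powers_iff_mem_zpowers] at h1
    exact h1
  have hgen := exists_gen h hB.gal g hg hwL hw hwk
  -- the square of `ω`
  have hω2 : ∀ (s : MuCyc.Gal hK) (i : ℕ), g ^ i = res s → (ω s) ^ 2 = (-1) ^ i := by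
    intro s i hi
    obtain ⟨c, hc, hcω⟩ := hωs s
    obtain ⟨hwK, h1⟩ := hF (AlgebraicClosure (ZMod 5)) w hw
    have h2 := h1 s c hc ⟨w, hwK⟩ rfl
    have h3 : ((s ⟨w, hwK⟩ : IntermediateField.extendScalars hK) : ℂ) = (-1) ^ i * w := by
      rw [hres s ⟨w, hwL⟩ ⟨w, hwK⟩ rfl, ← hi]
      exact hgen i
    rw [h3] at h2
    apply Units.ext
    rw [Units.val_pow_eq_pow_val, hcω]
    rcases Nat.even_or_odd i with he | ho
    · rw [he.neg_one_pow, one_mul] at h2
      rcases h2 with ⟨-, h4⟩ | ⟨h4, -⟩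
      · rw [h4, he.neg_one_pow, Units.val_one]
      · exact absurd (self_eq_neg.1 h4) hw0
    · rw [ho.neg_one_pow, neg_one_mul] at h2
      rcases h2 with ⟨h4, -⟩ | ⟨-, h4⟩
      · exact absurd (self_eq_neg.1 h4.symm) hw0
      · rw [h4, ho.neg_one_pow, Units.val_neg, Units.val_one]
  -- inflation
  refine hIFM 5 (by norm_num) k L K h hK hLK hBK.fin hBK.gal hBK.ab h5K χ (χ.comp res) ?_ ?_
  · intro s s' hss
    have h1 : res s' = s := by
      apply AlgEquiv.ext
      intro x
      apply Subtype.ext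
      rw [← hres s' x ⟨x, hLK x.2⟩ rfl, hss x ⟨x, hLK x.2⟩ rfl]
    show χ (res s') = χ s
    rw [h1]
  have htw : MuCyc.IsTwist 5 hK (χ.comp res) (χ.comp res * ω ^ 2) 2 := (hω _ _ 2).2 rfl
  have hval : ∀ (s : MuCyc.Gal hK) (i : ℕ), g ^ i = res s →
      (χ.comp res * ω ^ 2) s = (χ g) ^ i * (-1) ^ i := by
    intro s i hi
    show χ (res s) * (ω s) ^ 2 = _
    rw [hω2 s i hi, ← hi, map_pow]
  have hreach : Reach 5 hK (χ.comp res) (χ.comp res * ω ^ 2) := by
    rcases hd with hd | ⟨hcL, hinv⟩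
    · obtain ⟨a, ha⟩ := pow_neg (χ g) u hd hχ
      refine ⟨a, Or.inl ?_⟩
      apply MonoidHom.ext
      intro s
      obtain ⟨i, hi⟩ := hpow (res s)
      rw [hval s i hi]
      show _ = (χ (res s)) ^ 5 ^ a
      rw [← hi, map_pow, ← pow_mul, mul_comm i, pow_mul, ha, neg_pow (χ g) i, mul_comm]
    · rcases Nat.lt_or_ge u 2 with hu2 | hu2
      · have hu1 : u = 1 := by omega
        subst hu1
        refine ⟨0, Or.inr ⟨hconj hcL, (χ.comp res)⁻¹, ?_, ?_⟩⟩
        · intro s s' hss
          have h1 : res s' = (res s)⁻¹ := by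
            apply hinv
            intro x y hxy
            have h2 := hss ⟨x, hLK x.2⟩ ⟨y, hLK y.2⟩ hxy
            rw [hres s y ⟨y, hLK y.2⟩ rfl, hres s' x ⟨x, hLK x.2⟩ rfl] at h2
            exact h2
          show (χ (res s'))⁻¹ = χ (res s)
          rw [h1, map_inv, inv_inv]
        · apply MonoidHom.ext
          intro s
          obtain ⟨i, hi⟩ := hpow (res s)
          rw [hval s i hi]
          show _ = ((χ (res s))⁻¹) ^ 5 ^ 0
          have h3 : (χ g)⁻¹ = -(χ g) := by
            rw [inv_eq_iff_mul_eq_one, mul_neg, ← sq]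
            have h4 : (χ g) ^ 2 = -1 := by simpa using hχ
            rw [h4, neg_neg]
          rw [pow_zero, pow_one, ← hi, map_pow, ← inv_pow, h3, neg_pow (χ g) i, mul_comm]
      · obtain ⟨a, ha⟩ := pow_neg (χ g) u hu2 hχ
        refine ⟨a, Or.inl ?_⟩
        apply MonoidHom.ext
        intro s
        obtain ⟨i, hi⟩ := hpow (res s)
        rw [hval s i hi]
        show _ = (χ (res s)) ^ 5 ^ a
        rw [← hi, map_pow, ← pow_mul, mul_comm i, pow_mul, ha, neg_pow (χ g) i, mul_comm]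
  refine hP5 5 rfl k K hK hBK hz _ _ htw hreach 0 _ ?_
  intro s c _
  rw [pow_zero, mul_one]

end CYCx

/-- (CYC) the comparison for cyclic extensions of degree `2^r` which contain `√5`. -/
theorem tf_CYC (hP5 : Sf_P5) (hIFM : Sf_IFM) (hREL : Sf_REL) (hFLD : Sf_FLD5) : Sf_CYC := by
  intro k L' L h1 h2 h r hfd hk2 him h4 h3 hG hcyc hr hex halt
  have hp5 : Fact (Nat.Prime 5) := ⟨by norm_num⟩
  obtain ⟨w, hwL, hw⟩ := hex
  have hwk : w ∉ k := CYCx.sqrt_notMem hk2 him hw
  obtain ⟨g, hg⟩ := hcyc.exists_generator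
  have hab : ∀ σ τ : MuCyc.Gal h, σ * τ = τ * σ := by
    intro σ τ
    obtain ⟨i, hi⟩ := Subgroup.mem_zpowers_iff.1 (hg σ)
    obtain ⟨j, hj⟩ := Subgroup.mem_zpowers_iff.1 (hg τ)
    rw [← hi, ← hj, ← zpow_add, ← zpow_add, add_comm]
  have hcop : ¬ 5 ∣ Module.finrank k (IntermediateField.extendScalars h) := by
    rw [hr]
    intro hc
    have := (Nat.Prime.dvd_of_dvd_pow (by norm_num) hc)
    omega
  have hB : Bs 5 h := ⟨hfd, hk2, him, h4, h3, hG, hab, hcop⟩
  obtain ⟨-, -, -, -, -, -, h5L, -⟩ := hFLD k L h r hB hr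
  have fdk : FiniteDimensional k (IntermediateField.extendScalars h) := by
    have h1 : FiniteDimensional ℚ (IntermediateField.extendScalars h) :=
      inferInstanceAs (FiniteDimensional ℚ L)
    exact Module.Finite.of_restrictScalars_finite ℚ k _
  have hcard : Nat.card (MuCyc.Gal h) = 2 ^ r := by
    rw [← hr]
    exact IsGalois.card_aut_eq_finrank _ _
  refine hREL 5 (by norm_num) k L' L h1 h2 h hfd hG hab h5L ?_
  rintro χ ⟨s, hs, hχs⟩
  have hgr : (χ g) ^ 2 ^ r = 1 := by
    rw [← map_pow, ← hcard, pow_card_eq_one', map_one]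
  obtain ⟨i, hi⟩ : ∃ i : ℕ, g ^ i = s := by
    have h1 := hg s
    rw [← mem_powers_iff_mem_zpowers] at h1
    exact h1
  have hdvd := CYCx.dvd_of_fix h1 h2 h hG g hg i (by rw [hi]; exact hs)
  obtain ⟨j, hj⟩ := hdvd
  have hne : (χ g) ^ Module.finrank k (IntermediateField.extendScalars h1) ≠ 1 := by
    intro hc
    apply hχs
    rw [← hi, map_pow, hj, pow_mul, hc, one_pow]
  rcases halt with ha | ⟨ha, hcL, hinv⟩
  · rw [ha] at hne
    obtain ⟨u, hu, hu1⟩ := CYCx.exists_neg (χ g) r 2 (by norm_num) hgr hne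
    exact CYCx.good hP5 hIFM hFLD h r hB hr g hg hwL hw hwk χ u (by omega) hu1 (Or.inl hu)
  · rw [ha] at hne
    obtain ⟨u, hu, hu1⟩ := CYCx.exists_neg (χ g) r 1 le_rfl hgr hne
    exact CYCx.good hP5 hIFM hFLD h r hB hr g hg hwL hw hwk χ u hu hu1 (Or.inr ⟨hcL, hinv⟩)

end Pool.Agent.OBF
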