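import Pool.Agent.MUX.J_LDX

/-!
# OB, block J: the layers of the cyclotomic `ℤ_p`-extension for an odd prime `p` (helper19)

`LAYO`: the layers exist, form a tower and are unique. `CYCO`: the `n`-th layer is contained in the field of the roots of
unity of order `p^(n+1)`, and this field is the composite of the `n`-th layer and the field of the `p`-th roots of unity.
-/

set_option autoImplicit false

open NumberField Polynomial

namespace Pool.Agent.OB

namespace Lay

open Pool.Agent.RI Pool.Agent.RID Pool.Agent.MU3I Pool.Agent.MU3I.Ilay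

section gen

variable {F E : Type} [Field F] [Field E] [Algebra F E]

/-- the field of the roots of unity of order `p^m` is cyclic, `p` odd -/
lemma cycC (p m : ℕ) [hp : Fact p.Prime] (h2 : p ≠ 2) (hirr : Irreducible (cyclotomic (p ^ m) F))
    {r : E} (hr : IsPrimitiveRoot r (p ^ m)) :
    FiniteDimensional F (IntermediateField.adjoin F {z : E | z ^ (p ^ m) = 1}) ∧
    IsGalois F (IntermediateField.adjoin F {z : E | z ^ (p ^ m) = 1}) ∧
    IsCyclic ((IntermediateField.adjoin F {z : E | z ^ (p ^ m) = 1}) ≃ₐ[F]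
      (IntermediateField.adjoin F {z : E | z ^ (p ^ m) = 1})) ∧
    Module.finrank F (IntermediateField.adjoin F {z : E | z ^ (p ^ m) = 1}) =
      Nat.totient (p ^ m) := by
  have hN : p ^ m ≠ 0 := pow_ne_zero m hp.out.ne_zero
  have : NeZero (p ^ m) := ⟨hN⟩
  set C := IntermediateField.adjoin F {z : E | z ^ (p ^ m) = 1} with hC
  have hcyc : IsCyclotomicExtension {p ^ m} F C := by
    have h := IntermediateField.isCyclotomicExtension_adjoin_of_exists_isPrimitiveRoot
      ({p ^ m} : Set ℕ) F E (fun n hn _ => by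
        rw [Set.mem_singleton_iff] at hn
        rw [hn]
        exact ⟨r, hr⟩)
    have hset : {x : E | ∃ n ∈ ({p ^ m} : Set ℕ), n ≠ 0 ∧ x ^ n = 1} =
        {z : E | z ^ (p ^ m) = 1} := by
      ext x
      simp [hp.out.ne_zero]
    rw [hset] at h
    exact h
  have hg : IsGalois F C := IsCyclotomicExtension.isGalois {p ^ m} F C
  have hfd : FiniteDimensional F C := IsCyclotomicExtension.finiteDimensional {p ^ m} F C
  refine ⟨hfd, hg, ?_, IsCyclotomicExtension.finrank C hirr⟩
  have hc : IsCyclic (ZMod (p ^ m))ˣ := ZMod.isCyclic_units_of_prime_pow p hp.out h2 m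
  have e := IsCyclotomicExtension.autEquivPow C hirr
  exact isCyclic_of_surjective e.symm.toMonoidHom e.symm.surjective

/-- subfields of a cyclic extension of given degree exist -/
lemma exSub (D : IntermediateField F E) [FiniteDimensional F D] [IsGalois F D]
    [IsCyclic (D ≃ₐ[F] D)] (d : ℕ) (hd : d ∣ Module.finrank F D) :
    ∃ Q : IntermediateField F E, Q ≤ D ∧ Module.finrank F Q = d := by
  obtain ⟨g, hg⟩ := IsCyclic.exists_generator (α := D ≃ₐ[F] D)
  have hc : orderOf g = Module.finrank F D := by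
    rw [orderOf_eq_card_of_forall_mem_zpowers hg, IsGalois.card_aut_eq_finrank]
  have hpos : 0 < Module.finrank F D := Module.finrank_pos
  have hd0 : 0 < d := Nat.pos_of_dvd_of_pos hd hpos
  obtain ⟨k, hk⟩ := hd
  have hk0 : 0 < k := by
    rcases Nat.eq_zero_or_pos k with h | h
    · rw [h, mul_zero] at hk; omega
    · exact h
  set S := Subgroup.zpowers (g ^ d) with hS
  have hSc : Nat.card S = k := by
    rw [hS, Nat.card_zpowers, orderOf_pow_of_dvd hd0.ne' (by rw [hc]; exact ⟨k, hk⟩), hc, hk,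
      Nat.mul_div_cancel_left k hd0]
  refine ⟨IntermediateField.lift (IntermediateField.fixedField S),
    IntermediateField.lift_le _, ?_⟩
  have h1 : Module.finrank (IntermediateField.fixedField S) D = k := by
    rw [IntermediateField.finrank_fixedField_eq_card, hSc]
  have h2 := Module.finrank_mul_finrank F (IntermediateField.fixedField S) D
  rw [h1, hk] at h2
  have h3 : Module.finrank F (IntermediateField.fixedField S) = d :=
    Nat.eq_of_mul_eq_mul_right hk0 h2
  rw [← h3]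
  exact (IntermediateField.liftAlgEquiv (IntermediateField.fixedField S)).toLinearEquiv.finrank_eq.symm

/-- an involution is trivial on a normal extension of odd degree -/
lemma fixOdd (c : E →ₐ[F] E) (hc : ∀ x, c (c x) = x) (Q : IntermediateField F E)
    [FiniteDimensional F Q] [IsGalois F Q] (ho : Odd (Module.finrank F Q)) :
    ∀ x ∈ Q, c x = x := by
  let s : Q ≃ₐ[F] Q := AlgHom.restrictNormal' c Q
  have hs : ∀ x : Q, ((s x : Q) : E) = c (x : E) := fun x =>
    AlgHom.restrictNormal_commutes c Q x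
  have h2 : s ^ 2 = 1 := by
    ext x
    rw [pow_two, AlgEquiv.mul_apply, hs, hs, hc]
    rfl
  have h3 : s ^ Module.finrank F Q = 1 := by
    rw [← IsGalois.card_aut_eq_finrank F Q]
    exact pow_card_eq_one'
  have h4 : s = 1 := by
    obtain ⟨k, hk⟩ := ho
    rw [hk, pow_succ, pow_mul, h2, one_pow, one_mul] at h3
    exact h3
  intro x hx
  rw [← hs ⟨x, hx⟩, h4]
  rfl

/-- subfields of the same degree of the cyclotomic field are equal -/
lemma uniqG (p m : ℕ) [hp : Fact p.Prime] (h2 : p ≠ 2) (hirr : Irreducible (cyclotomic (p ^ m) F))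
    {r : E} (hr : IsPrimitiveRoot r (p ^ m)) (Q R : IntermediateField F E)
    (hQ : Q ≤ IntermediateField.adjoin F {z : E | z ^ (p ^ m) = 1})
    (hR : R ≤ IntermediateField.adjoin F {z : E | z ^ (p ^ m) = 1})
    (hd : Module.finrank F Q = Module.finrank F R) : Q = R := by
  obtain ⟨h3, h4, h5, -⟩ := cycC (F := F) (E := E) p m h2 hirr hr
  exact uniq Q R _ hQ hR hd

/-- subfields of the subfields of the cyclotomic field -/
lemma subG (p m : ℕ) [hp : Fact p.Prime] (h2 : p ≠ 2) (hirr : Irreducible (cyclotomic (p ^ m) F))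
    {r : E} (hr : IsPrimitiveRoot r (p ^ m)) (B : IntermediateField F E)
    (hB : B ≤ IntermediateField.adjoin F {z : E | z ^ (p ^ m) = 1}) (d : ℕ)
    (hd : d ∣ Module.finrank F B) : ∃ Q : IntermediateField F E, Q ≤ B ∧ Module.finrank F Q = d := by
  obtain ⟨h3, h4, h5, -⟩ := cycC (F := F) (E := E) p m h2 hirr hr
  have hN : p ^ m ≠ 0 := pow_ne_zero m hp.out.ne_zero
  have hab := LAY.isAbelian_of_le (p ^ m) hN ⟨r, hr⟩ B hB
  have hG := hab.toIsGalois
  have hBn := hG.to_normal
  have hfd : FiniteDimensional F B :=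
    FiniteDimensional.of_injective (IntermediateField.inclusion hB).toLinearMap
      (IntermediateField.inclusion hB).injective
  set C := IntermediateField.adjoin F {z : E | z ^ (p ^ m) = 1} with hC
  let _ : Algebra B C := (IntermediateField.inclusion hB).toRingHom.toAlgebra
  have : IsScalarTower F B C := IsScalarTower.of_algebraMap_eq fun x => rfl
  let ρ : (C ≃ₐ[F] C) →* (B ≃ₐ[F] B) := AlgEquiv.restrictNormalHom B
  have hρ : Function.Surjective ρ := AlgEquiv.restrictNormalHom_surjective C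
  have hcy : IsCyclic (B ≃ₐ[F] B) := isCyclic_of_surjective ρ hρ
  exact exSub B d hd

end gen

/-- the cyclotomic field -/
noncomputable def CCf (p m : ℕ) : IntermediateField ℚ ℂ :=
  IntermediateField.adjoin ℚ {z : ℂ | z ^ (p ^ m) = 1}

lemma cc_mono (p : ℕ) {m n : ℕ} (h : m ≤ n) : CCf p m ≤ CCf p n := by
  unfold CCf
  apply IntermediateField.adjoin.mono
  intro z hz
  have hz' : z ^ p ^ m = 1 := hz
  obtain ⟨t, ht⟩ := pow_dvd_pow p h
  show z ^ p ^ n = 1
  rw [ht, pow_mul, hz', one_pow]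

/-- a subfield of degree `p^n` of the cyclotomic field is a layer, `p` odd -/
lemma layer_of (p : ℕ) [hp : Fact p.Prime] (h2 : p ≠ 2) (n m : ℕ) (Q : IntermediateField ℚ ℂ)
    (hQ : Q ≤ CCf p m) (hd : Module.finrank ℚ Q = p ^ n) : IsLayer p n Q := by
  have hN : p ^ m ≠ 0 := pow_ne_zero m hp.out.ne_zero
  refine ⟨hd, ?_, m, hQ⟩
  have hab := LAY.isAbelian_of_le (p ^ m) hN ⟨_, Complex.isPrimitiveRoot_exp _ hN⟩ Q hQ
  have hG := hab.toIsGalois
  have hfd : FiniteDimensional ℚ Q :=
    Module.finite_of_finrank_pos (by rw [hd]; exact pow_pos hp.out.pos n)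
  set c : ℂ →ₐ[ℚ] ℂ := (Complex.conjAe.toAlgHom).restrictScalars ℚ with hc
  have hcz : ∀ z : ℂ, c z = (starRingEnd ℂ) z := fun z => rfl
  intro z hz
  rw [← hcz]
  refine fixOdd c (fun x => ?_) Q ?_ z hz
  · rw [hcz, hcz, Complex.conj_conj]
  · rw [hd]
    exact (hp.out.odd_of_ne_two h2).pow

/-- subfields of the same degree of the cyclotomic fields are equal, `p` odd -/
lemma uniqO (p : ℕ) [hp : Fact p.Prime] (h2 : p ≠ 2) (m : ℕ) (Q R : IntermediateField ℚ ℂ)
    (hQ : Q ≤ CCf p m) (hR : R ≤ CCf p m) (hd : Module.finrank ℚ Q = Module.finrank ℚ R) :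
    Q = R := by
  have hN : p ^ m ≠ 0 := pow_ne_zero m hp.out.ne_zero
  have hirr : Irreducible (cyclotomic (p ^ m) ℚ) :=
    cyclotomic.irreducible_rat (Nat.pos_of_ne_zero hN)
  exact uniqG (F := ℚ) (E := ℂ) p m h2 hirr (Complex.isPrimitiveRoot_exp _ hN) Q R hQ hR hd

lemma uniqL (p : ℕ) [hp : Fact p.Prime] (h2 : p ≠ 2) (n : ℕ) (Q R : IntermediateField ℚ ℂ)
    (hQ : IsLayer p n Q) (hR : IsLayer p n R) : Q = R := by
  obtain ⟨hq, -, m, hm⟩ := hQ
  obtain ⟨hr, -, m', hm'⟩ := hR
  exact uniqO p h2 (max m m') Q R (hm.trans (cc_mono p (le_max_left _ _)))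
    (hm'.trans (cc_mono p (le_max_right _ _))) (hq.trans hr.symm)

lemma exL (p : ℕ) [hp : Fact p.Prime] (h2 : p ≠ 2) (n : ℕ) :
    ∃ Q : IntermediateField ℚ ℂ, Q ≤ CCf p (n + 1) ∧ IsLayer p n Q := by
  have hN : p ^ (n + 1) ≠ 0 := pow_ne_zero _ hp.out.ne_zero
  have hirr : Irreducible (cyclotomic (p ^ (n + 1)) ℚ) :=
    cyclotomic.irreducible_rat (Nat.pos_of_ne_zero hN)
  obtain ⟨h3, h4, h5, h6⟩ :=
    cycC (F := ℚ) (E := ℂ) p (n + 1) h2 hirr (Complex.isPrimitiveRoot_exp _ hN)
  obtain ⟨Q, hQ, hd⟩ := subG (F := ℚ) (E := ℂ) p (n + 1) h2 hirr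
    (Complex.isPrimitiveRoot_exp _ hN) (CCf p (n + 1)) le_rfl (p ^ n) (by
    unfold CCf
    rw [h6, Nat.totient_prime_pow_succ hp.out]
    exact Dvd.intro _ rfl)
  exact ⟨Q, hQ, layer_of p h2 n (n + 1) Q hQ hd⟩

end Lay

open Lay Pool.Agent.RI Pool.Agent.RID

/-- LAYO: the layers exist, form a tower and are unique, for an odd prime -/
theorem t_LAYO (p : ℕ) [hp : Fact p.Prime] (h2 : p ≠ 2) : ∃ Bn : ℕ → IntermediateField ℚ ℂ,
    (∀ n, IsLayer p n (Bn n)) ∧ Monotone Bn ∧
    ∀ (n : ℕ) (Q : IntermediateField ℚ ℂ), IsLayer p n Q → Q = Bn n := by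
  choose Bn hle hL using exL p h2
  refine ⟨Bn, hL, ?_, fun n Q hQ => uniqL p h2 n Q (Bn n) hQ (hL n)⟩
  refine monotone_nat_of_le_succ (fun n => ?_)
  have hN : p ^ (n + 2) ≠ 0 := pow_ne_zero _ hp.out.ne_zero
  have hirr : Irreducible (cyclotomic (p ^ (n + 2)) ℚ) :=
    cyclotomic.irreducible_rat (Nat.pos_of_ne_zero hN)
  obtain ⟨Q, hQ, hdQ⟩ := subG (F := ℚ) (E := ℂ) p (n + 2) h2 hirr
    (Complex.isPrimitiveRoot_exp _ hN) (Bn (n + 1)) (hle (n + 1)) (p ^ n) (by
    have hd := (hL (n + 1)).1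
    rw [hd]
    exact pow_dvd_pow p (Nat.le_succ n))
  have h7 : IsLayer p n Q := layer_of p h2 n (n + 2) Q (hQ.trans (hle (n + 1))) hdQ
  rw [← uniqL p h2 n Q (Bn n) h7 (hL n)]
  exact hQ

/-- CYCO: the `n`-th layer is contained in `ℚ(μ_(p^(n+1)))`, and `ℚ(μ_(p^(n+1)))` is contained in every field which contains
the layer and the `p`-th roots of unity -/
theorem t_CYCO (p : ℕ) [hp : Fact p.Prime] (h2 : p ≠ 2) (n : ℕ) (B : IntermediateField ℚ ℂ)
    (hB : IsLayer p n B) :
    B ≤ IntermediateField.adjoin ℚ {z : ℂ | z ^ (p ^ (n + 1)) = 1} ∧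
    ∀ K : IntermediateField ℚ ℂ, B ≤ K → (∃ ω ∈ K, IsPrimitiveRoot ω p) →
      ∀ z : ℂ, z ^ (p ^ (n + 1)) = 1 → z ∈ K := by
  obtain ⟨Q, hQ, hL⟩ := exL p h2 n
  rw [uniqL p h2 n B Q hB hL]
  refine ⟨hQ, ?_⟩
  rintro K hK ⟨ω, hω, hω'⟩ z hz
  have hN : p ^ (n + 1) ≠ 0 := pow_ne_zero _ hp.out.ne_zero
  have hirr : Irreducible (cyclotomic (p ^ (n + 1)) ℚ) :=
    cyclotomic.irreducible_rat (Nat.pos_of_ne_zero hN)
  obtain ⟨h3, h4, h5, h6⟩ :=
    cycC (F := ℚ) (E := ℂ) p (n + 1) h2 hirr (Complex.isPrimitiveRoot_exp _ hN)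
  -- the degree of `ℚ(μ_p)`
  have hint : IsIntegral ℚ ω := (hω'.isIntegral hp.out.pos).tower_top
  have h7 : Module.finrank ℚ (IntermediateField.adjoin ℚ {ω}) = p - 1 := by
    rw [IntermediateField.adjoin.finrank hint, ← cyclotomic_eq_minpoly_rat hω' hp.out.pos,
      natDegree_cyclotomic, Nat.totient_prime hp.out]
  have hωC : IntermediateField.adjoin ℚ {ω} ≤ CCf p (n + 1) := by
    rw [IntermediateField.adjoin_simple_le_iff]
    apply IntermediateField.subset_adjoin
    show ω ^ p ^ (n + 1) = 1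
    rw [pow_succ' p n, pow_mul, hω'.pow_eq_one, one_pow]
  have hsup : IntermediateField.adjoin ℚ {ω} ⊔ Q = CCf p (n + 1) := by
    have hle : IntermediateField.adjoin ℚ {ω} ⊔ Q ≤ CCf p (n + 1) := sup_le hωC hQ
    have : FiniteDimensional ℚ (CCf p (n + 1)) := h3
    refine IntermediateField.eq_of_le_of_finrank_le hle ?_
    have hfd : FiniteDimensional ℚ ↥(IntermediateField.adjoin ℚ {ω} ⊔ Q) :=
      FiniteDimensional.of_injective (IntermediateField.inclusion hle).toLinearMap
        (IntermediateField.inclusion hle).injective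
    have d1 : p - 1 ∣ Module.finrank ℚ ↥(IntermediateField.adjoin ℚ {ω} ⊔ Q) := by
      rw [← h7]
      exact IntermediateField.finrank_dvd_of_le_right le_sup_left
    have d2 : p ^ n ∣ Module.finrank ℚ ↥(IntermediateField.adjoin ℚ {ω} ⊔ Q) := by
      rw [← hL.1]
      exact IntermediateField.finrank_dvd_of_le_right le_sup_right
    have hco : Nat.Coprime (p ^ n) (p - 1) := by
      apply Nat.Coprime.pow_left
      rw [hp.out.coprime_iff_not_dvd]
      intro h
      have h1 := Nat.le_of_dvd (by have := hp.out.two_le; omega) h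
      have := hp.out.two_le
      omega
    have d3 := hco.mul_dvd_of_dvd_of_dvd d2 d1
    have h8 : Module.finrank ℚ (CCf p (n + 1)) = p ^ n * (p - 1) := by
      unfold Lay.CCf
      rw [h6, Nat.totient_prime_pow_succ hp.out]
    rw [h8]
    exact Nat.le_of_dvd Module.finrank_pos d3
  have hzC : z ∈ CCf p (n + 1) := IntermediateField.subset_adjoin _ _ hz
  rw [← hsup] at hzC
  have hKle : IntermediateField.adjoin ℚ {ω} ⊔ Q ≤ K := by
    refine sup_le ?_ hK
    rw [IntermediateField.adjoin_simple_le_iff]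
    exact hω
  exact hKle hzC

end Pool.Agent.OB
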