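import Pool.Agent.OB.StQ
import Pool.Agent.OB.J_LAYO
import Pool.Agent.MUX.StJX
import Pool.Agent.RI.LAY

/-!
# OB, corollary for `p = 5`: the bound for `E₀` and for `E₀(μ_5)`, for all layers
-/

set_option autoImplicit false

open NumberField IsDedekindDomain Finset
open scoped nonZeroDivisors Pointwise

namespace Pool.Agent.OB

open _root_.Pool.Agent.RI _root_.Pool.Agent.RID _root_.Pool.Agent.MU3

/-- the bound, for `E₀` and for `E₀(μ_5)` -/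
def Sq_BD : Prop := ∀ (E₀ : IntermediateField ℚ ℂ), Module.finrank ℚ E₀ = 4 →
    (∃ w ∈ E₀, w ^ 2 = 5) →
    (∃ φ : E₀ →+* ℂ, ∀ x, (starRingEnd ℂ) (φ x) = φ x) →
    (∃ φ : E₀ →+* ℂ, ∃ x, (starRingEnd ℂ) (φ x) ≠ φ x) →
    ∀ E : IntermediateField ℚ ℂ,
      E = E₀ ∨ E = E₀ ⊔ IntermediateField.adjoin ℚ {z : ℂ | z ^ 5 = 1} →
    ∃ C : ℕ, ∀ (n : ℕ) (Q : IntermediateField ℚ ℂ), IsLayer 5 n Q →
      padicValNat 5 (classNo (E ⊔ Q)) ≤ C * (n + 1) ^ 2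

theorem tq_BD (h1 : Sq_QRT) (h2 : Sq_QFT) (h3 : _root_.Pool.Agent.MUXJ.Sj_SUB) : Sq_BD := by
  have : Fact (Nat.Prime 5) := ⟨by norm_num⟩
  rintro E₀ hd ⟨w, hw, hw5⟩ hr hc
  obtain ⟨E, k, K₀, ρ, σ, hE, hQ⟩ := h2 E₀ hd w hw hw5 hr hc
  obtain ⟨B, hlay, hmono, huniq⟩ := t_LAYO 5 (by norm_num)
  obtain ⟨C, hC⟩ := h1 E k K₀ w ρ σ hQ B hlay hmono
  have hC' : ∀ (n : ℕ) (Q : IntermediateField ℚ ℂ), IsLayer 5 n Q →
      padicValNat 5 (classNo (E ⊔ Q)) ≤ C * (n + 1) ^ 2 := by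
    intro n Q hQ
    rw [huniq n Q hQ]
    exact hC n
  rintro E' (rfl | rfl)
  · have hfK : FiniteDimensional ℚ K₀ := hQ.fin
    have hfE : FiniteDimensional ℚ E :=
      FiniteDimensional.of_injective (IntermediateField.inclusion hQ.EK).toLinearMap
        (IntermediateField.inclusion hQ.EK).injective
    obtain ⟨C', hC''⟩ := h3 5 E' E (by rw [hE]; exact le_sup_left)
    refine ⟨C + C', fun n Q hQ => ?_⟩
    have e1 := hC'' n Q hQ
    have e2 := hC' n Q hQ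
    have e3 : 1 ≤ (n + 1) ^ 2 := Nat.one_le_pow _ _ (Nat.succ_pos n)
    calc padicValNat 5 (classNo (E' ⊔ Q)) ≤ C * (n + 1) ^ 2 + C' := by omega
      _ ≤ C * (n + 1) ^ 2 + C' * (n + 1) ^ 2 := by
        have := Nat.le_mul_of_pos_right C' (Nat.lt_of_lt_of_le Nat.zero_lt_one e3)
        omega
      _ = (C + C') * (n + 1) ^ 2 := by ring
  · exact ⟨C, by rw [← hE]; exact hC'⟩

end Pool.Agent.OB
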