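import Pool.Agent.OB.StF
import Pool.Agent.OB.Q_BD
import Pool.Agent.MU3.StP
import Pool.Agent.MUX.StJX
import Pool.Agent.VB.StVB
import Pool.Agent.VB.VFinal

/-!
# OB, FINAL (helper60): the growth formula, the unramified extensions; extensions of `5`-power degree
-/

set_option autoImplicit false

open NumberField IsDedekindDomain Finset Filter Topology
open scoped nonZeroDivisors Pointwise

namespace Pool.Agent.OBF

open _root_.Pool.Agent.RI _root_.Pool.Agent.RID _root_.Pool.Agent.MU3 _root_.Pool.Agent.OB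

/-- a polynomial bound and the growth formula give `μ = 0` -/
theorem mu_zero (hLAY : Sf_LAY) (p : ℕ) [Fact p.Prime] (hp2 : p ≠ 2) (f : IntermediateField ℚ ℂ → ℕ)
    (h : ∃ C : ℕ, ∀ (n : ℕ) (Q : IntermediateField ℚ ℂ), IsLayer p n Q → f Q ≤ C * (n + 1) ^ C)
    (mu lam nu : ℝ)
    (hg : ∃ n₀ : ℕ, ∀ n ≥ n₀, ∀ Q : IntermediateField ℚ ℂ, IsLayer p n Q →
      (f Q : ℝ) = mu * (p : ℝ) ^ n + lam * n + nu) : mu = 0 := by
  obtain ⟨C, hC⟩ := h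
  obtain ⟨n₀, hn₀⟩ := hg
  obtain ⟨Bn, hlay, -, -⟩ := hLAY p hp2
  have hpp : p.Prime := Fact.out
  have hp1 : (1 : ℝ) < p := by exact_mod_cast hpp.one_lt
  have hp0 : (0 : ℝ) < p := by linarith
  set D : ℝ := C + |lam| + |nu| with hD
  have hD0 : 0 ≤ D := by positivity
  have hbd : ∀ n ≥ n₀, |mu| ≤ D * p * ((((n + 1 : ℕ) : ℝ) ^ (C + 1)) / (p : ℝ) ^ (n + 1)) := by
    intro n hn
    have h1 := hn₀ n hn (Bn n) (hlay n)
    have h2 : ((f (Bn n) : ℕ) : ℝ) ≤ C * ((n : ℝ) + 1) ^ C := by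
      exact_mod_cast hC n (Bn n) (hlay n)
    have h3 : (0 : ℝ) ≤ (f (Bn n) : ℝ) := by positivity
    have hpn : (0 : ℝ) < (p : ℝ) ^ n := by positivity
    have h4 : |mu| * (p : ℝ) ^ n ≤ D * ((n : ℝ) + 1) ^ (C + 1) := by
      have e1 : |mu| * (p : ℝ) ^ n = |(f (Bn n) : ℝ) - lam * n - nu| := by
        rw [h1, ← abs_of_pos hpn, ← abs_mul, abs_of_pos hpn]
        congr 1
        ring
      rw [e1]
      have e2 : |(f (Bn n) : ℝ) - lam * n - nu| ≤ (f (Bn n) : ℝ) + |lam| * n + |nu| := by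
        have a1 := abs_sub ((f (Bn n) : ℝ) - lam * n) nu
        have a2 := abs_sub (f (Bn n) : ℝ) (lam * n)
        rw [abs_mul, abs_of_nonneg h3, abs_of_nonneg (by positivity : (0 : ℝ) ≤ n)] at a2
        linarith
      have hn1 : (1 : ℝ) ≤ (n : ℝ) + 1 := by
        have : (0 : ℝ) ≤ n := by positivity
        linarith
      have e3 : ((n : ℝ) + 1) ^ C ≤ ((n : ℝ) + 1) ^ (C + 1) :=
        pow_le_pow_right₀ hn1 (Nat.le_succ C)
      have e4 : (n : ℝ) ≤ ((n : ℝ) + 1) ^ (C + 1) := by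
        calc (n : ℝ) ≤ (n : ℝ) + 1 := by linarith
          _ = ((n : ℝ) + 1) ^ 1 := (pow_one _).symm
          _ ≤ ((n : ℝ) + 1) ^ (C + 1) := pow_le_pow_right₀ hn1 (by omega)
      have e5 : (1 : ℝ) ≤ ((n : ℝ) + 1) ^ (C + 1) := one_le_pow₀ hn1
      calc |(f (Bn n) : ℝ) - lam * n - nu| ≤ (f (Bn n) : ℝ) + |lam| * n + |nu| := e2
        _ ≤ C * ((n : ℝ) + 1) ^ (C + 1) + |lam| * ((n : ℝ) + 1) ^ (C + 1) +
            |nu| * ((n : ℝ) + 1) ^ (C + 1) := by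
          have i1 : (C : ℝ) * ((n : ℝ) + 1) ^ C ≤ C * ((n : ℝ) + 1) ^ (C + 1) :=
            mul_le_mul_of_nonneg_left e3 (by positivity)
          have i2 : |lam| * n ≤ |lam| * ((n : ℝ) + 1) ^ (C + 1) :=
            mul_le_mul_of_nonneg_left e4 (abs_nonneg _)
          have i3 : |nu| * 1 ≤ |nu| * ((n : ℝ) + 1) ^ (C + 1) :=
            mul_le_mul_of_nonneg_left e5 (abs_nonneg _)
          rw [mul_one] at i3
          linarith
        _ = D * ((n : ℝ) + 1) ^ (C + 1) := by rw [hD]; ring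
    rw [pow_succ (p : ℝ) n]
    push_cast
    rw [show D * (p : ℝ) * (((n : ℝ) + 1) ^ (C + 1) / ((p : ℝ) ^ n * p)) =
      D * ((n : ℝ) + 1) ^ (C + 1) / (p : ℝ) ^ n by field_simp]
    rw [le_div_iff₀ hpn]
    exact h4
  have hlim : Tendsto (fun n : ℕ => D * p * ((((n + 1 : ℕ) : ℝ) ^ (C + 1)) / (p : ℝ) ^ (n + 1)))
      atTop (𝓝 (D * p * 0)) :=
    ((tendsto_pow_const_div_const_pow_of_one_lt (C + 1) hp1).comp
      (tendsto_add_atTop_nat 1)).const_mul _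
  rw [mul_zero] at hlim
  have : |mu| ≤ 0 := ge_of_tendsto hlim (eventually_atTop.2 ⟨n₀, hbd⟩)
  exact abs_eq_zero.1 (le_antisymm this (abs_nonneg _))

/-- The three parts: the bound, `μ = 0` in the growth formula, the unramified extensions. -/
def Parts (p : ℕ) (K : IntermediateField ℚ ℂ) : Prop :=
  (∃ C : ℕ, ∀ (n : ℕ) (Q : IntermediateField ℚ ℂ), MuCyc.IsLayer p n Q →
      padicValNat p (MuCyc.classNo (K ⊔ Q)) ≤ C * (n + 1) ^ C) ∧
  (∀ μ lam nu : ℝ, (∃ n₀ : ℕ, ∀ n ≥ n₀, ∀ Q : IntermediateField ℚ ℂ, MuCyc.IsLayer p n Q →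
      (padicValNat p (MuCyc.classNo (K ⊔ Q)) : ℝ) = μ * (p : ℝ) ^ n + lam * n + nu) → μ = 0) ∧
  (MuCyc.unramifiedExt p (MuCyc.cycExt p K)).Finite

/-- From a polynomial bound for a totally complex field with `μ_p` to all subfields. -/
theorem parts_sub (hLAY : Sf_LAY) (hSUB : _root_.Pool.Agent.MUXJ.Sj_SUB)
    (hFNP : _root_.Pool.Agent.VB.Sb_FNP) (hRED : _root_.Pool.Agent.VB.Sb_RED) (p : ℕ)
    [Fact p.Prime] (hp2 : p ≠ 2) (F F' : IntermediateField ℚ ℂ) [FiniteDimensional ℚ F']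
    (hFF : F ≤ F') (hTC : _root_.Pool.Agent.VB.TCx F') (hz : ∃ ζ ∈ F', IsPrimitiveRoot ζ p)
    (hb : ∃ C k : ℕ, ∀ (n : ℕ) (Q : IntermediateField ℚ ℂ), RI.IsLayer p n Q →
      padicValNat p (RI.classNo (F' ⊔ Q)) ≤ C * (n + 1) ^ k) : Parts p F := by
  obtain ⟨C, k, hC⟩ := hb
  obtain ⟨B, hlay, hmono, hu⟩ := hLAY p hp2
  obtain ⟨C₁, hC₁⟩ := hSUB p F F' hFF
  have hb1 : ∃ C : ℕ, ∀ (n : ℕ) (Q : IntermediateField ℚ ℂ), RI.IsLayer p n Q →
      padicValNat p (RI.classNo (F ⊔ Q)) ≤ C * (n + 1) ^ C := by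
    refine ⟨C + C₁ + k, fun n Q hQ => ?_⟩
    have h1 := hC n Q hQ
    have h2 := hC₁ n Q hQ
    have h3 : (n + 1) ^ k ≤ (n + 1) ^ (C + C₁ + k) :=
      Nat.pow_le_pow_right (Nat.succ_pos n) (by omega)
    have h4 : 1 ≤ (n + 1) ^ (C + C₁ + k) := Nat.one_le_pow _ _ (Nat.succ_pos n)
    calc padicValNat p (RI.classNo (F ⊔ Q)) ≤ C * (n + 1) ^ k + C₁ := by omega
      _ ≤ C * (n + 1) ^ (C + C₁ + k) + C₁ * (n + 1) ^ (C + C₁ + k) := by
        have := Nat.mul_le_mul_left C h3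
        have := Nat.mul_le_mul_left C₁ h4
        omega
      _ ≤ (C + C₁ + k) * (n + 1) ^ (C + C₁ + k) := by
        rw [← Nat.add_mul]
        exact Nat.mul_le_mul_right _ (by omega)
  refine ⟨hb1, fun μ lam nu hg => ?_, ?_⟩
  · exact mu_zero hLAY p hp2 (fun Q => padicValNat p (RI.classNo (F ⊔ Q))) hb1 μ lam nu hg
  · have e1 : MuCyc.cycExt p F = _root_.Pool.Agent.VB.Finf F B := by
      unfold MuCyc.cycExt _root_.Pool.Agent.VB.Finf
      congr 1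
      apply le_antisymm
      · refine sSup_le ?_
        rintro Q ⟨n, hQ⟩
        rw [hu n Q hQ]
        exact le_iSup B n
      · exact iSup_le fun n => le_sSup ⟨n, hlay n⟩
    rw [e1]
    have h10 : (_root_.Pool.Agent.VB.UM p (_root_.Pool.Agent.VB.Finf F B)).Finite := by
      refine hRED p F F' B (fun n => (LAY_thm p n (B n) (hlay n)).1) hmono hFF ?_
      refine hFNP p F' B hlay hmono hTC hz ⟨C + k, fun n => ?_⟩
      refine (hC n (B n) (hlay n)).trans ?_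
      exact Nat.mul_le_mul (Nat.le_add_right _ _)
        (Nat.pow_le_pow_right (Nat.succ_pos n) (Nat.le_add_left _ _))
    exact h10

/-- A field with a primitive `p`-th root of unity, `p ≥ 3`, is totally complex. -/
theorem tcx_zeta (p : ℕ) (hp : 2 < p) (E : IntermediateField ℚ ℂ)
    (hz : ∃ ζ ∈ E, IsPrimitiveRoot ζ p) : _root_.Pool.Agent.VB.TCx E := by
  obtain ⟨ζ, hζE, hζ⟩ := hz
  have hζE' : IsPrimitiveRoot (⟨ζ, hζE⟩ : E) p := by
    refine IsPrimitiveRoot.of_map_of_injective (f := algebraMap E ℂ) ?_ (algebraMap E ℂ).injective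
    exact hζ
  intro φ
  refine ⟨⟨ζ, hζE⟩, fun h => ?_⟩
  have h5 : IsPrimitiveRoot (φ ⟨ζ, hζE⟩) p := hζE'.map_of_injective φ.injective
  have h6 : (starRingEnd ℂ) (φ ⟨ζ, hζE⟩) = (φ ⟨ζ, hζE⟩)⁻¹ := by
    rw [← Complex.inv_eq_conj]
    exact Complex.norm_eq_one_of_pow_eq_one h5.pow_eq_one (by omega)
  rw [h6] at h
  have h7 : (φ ⟨ζ, hζE⟩) ^ 2 = 1 := by
    have h8 : φ ⟨ζ, hζE⟩ ≠ 0 := h5.ne_zero (by omega)
    rw [pow_two]
    nth_rewrite 1 [← h]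
    exact inv_mul_cancel₀ h8
  have h9 := h5.dvd_of_pow_eq_one 2 h7
  have := Nat.le_of_dvd (by norm_num) h9
  omega

/-- The quartic corollary with extensions of `5`-power degree. -/
theorem quartic (hBD : Sq_BD) (hCY5 : Sq_CY5) (hPEX : _root_.MU3.P_PEX) (hLAY : Sf_LAY)
    (hSUB : _root_.Pool.Agent.MUXJ.Sj_SUB) (hFNP : _root_.Pool.Agent.VB.Sb_FNP)
    (hRED : _root_.Pool.Agent.VB.Sb_RED) (E : IntermediateField ℚ ℂ)
    (hE : Module.finrank ℚ E = 4) (hw : ∃ w ∈ E, w ^ 2 = 5)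
    (hr : ∃ φ : E →+* ℂ, ∀ x, (starRingEnd ℂ) (φ x) = φ x)
    (hc : ∃ φ : E →+* ℂ, ∃ x, (starRingEnd ℂ) (φ x) ≠ φ x)
    (F F' : IntermediateField ℚ ℂ) [FiniteDimensional ℚ F']
    (h : E ⊔ IntermediateField.adjoin ℚ {z : ℂ | z ^ 5 = 1} ≤ F')
    (hG : IsGalois ↥(E ⊔ IntermediateField.adjoin ℚ {z : ℂ | z ^ 5 = 1})
      (IntermediateField.extendScalars h))
    (a : ℕ) (ha : Module.finrank ↥(E ⊔ IntermediateField.adjoin ℚ {z : ℂ | z ^ 5 = 1})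
      (IntermediateField.extendScalars h) = 5 ^ a) (hFF : F ≤ F') : Parts 5 F := by
  have : Fact (Nat.Prime 5) := ⟨by norm_num⟩
  obtain ⟨C, hC⟩ := hBD E hE hw hr hc _ (Or.inr rfl)
  obtain ⟨B, hlay, hmono, hu⟩ := hLAY 5 (by norm_num)
  set E' := E ⊔ IntermediateField.adjoin ℚ {z : ℂ | z ^ 5 = 1} with hE'
  obtain ⟨ζ, hζ⟩ : ∃ ζ : ℂ, IsPrimitiveRoot ζ 5 := ⟨_, Complex.isPrimitiveRoot_exp 5 (by norm_num)⟩
  have hζE : ζ ∈ E' := (le_sup_right : IntermediateField.adjoin ℚ {z : ℂ | z ^ 5 = 1} ≤ E')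
    (IntermediateField.subset_adjoin ℚ _ hζ.pow_eq_one)
  have hz : ∃ ζ ∈ E', IsPrimitiveRoot ζ 5 := ⟨ζ, hζE, hζ⟩
  have hz' : ∃ ζ ∈ F', IsPrimitiveRoot ζ 5 := ⟨ζ, h hζE, hζ⟩
  obtain ⟨C', k, hC'⟩ := hPEX 5 a E' F' B h hG ha (tcx_zeta 5 (by norm_num) E' hz) hlay hmono
    ⟨C, 2, fun n => hC n (B n) (hlay n)⟩
  refine parts_sub hLAY hSUB hFNP hRED 5 (by norm_num) F F' hFF (tcx_zeta 5 (by norm_num) F' hz')
    hz' ⟨C', k, fun n Q hQ => ?_⟩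
  rw [hu n Q hQ]
  exact hC' n

end Pool.Agent.OBF
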