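import Pool.Agent.OB.StF2
import Pool.Agent.MUX.K_GALX
import Pool.Agent.RI.CL
import Pool.Agent.RI.EXTACT

/-!
# OB, FINAL, module INF: inflation of characters for the eigenfunctionals
-/

set_option autoImplicit false

open NumberField IsDedekindDomain Finset
open scoped nonZeroDivisors Pointwise

namespace Pool.Agent.OBF

open _root_.Pool.Agent.RI _root_.Pool.Agent.RID _root_.Pool.Agent.MU3 _root_.Pool.Agent.MUXK
  _root_.Pool.Agent.MUXZ _root_.Pool.Agent.NSI _root_.Pool.Agent.OB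

namespace INFx

section norm

variable (F K : Type) [Field F] [NumberField F] [Field K] [NumberField K] [Algebra F K]
  [IsGalois F K]

/-- The norm of fractional ideals for a Galois extension. -/
noncomputable def NN : J K →* J F where
  toFun b := Classical.choose (CL.nm_mem (F := F) b)
  map_one' := by
    apply ext_injective F K
    rw [Classical.choose_spec (CL.nm_mem (F := F) (1 : J K)), map_one, map_one]
  map_mul' a b := by
    apply ext_injective F K
    rw [Classical.choose_spec (CL.nm_mem (F := F) (a * b)), map_mul, map_mul,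
      Classical.choose_spec (CL.nm_mem (F := F) a), Classical.choose_spec (CL.nm_mem (F := F) b)]

theorem ext_NN (b : J K) : ext F K (NN F K b) = CL.nm F K b :=
  Classical.choose_spec (CL.nm_mem (F := F) b)

theorem NN_prin (x : Kˣ) : NN F K (prin x) = prin (Units.map (Algebra.norm F : K →* F) x) := by
  apply ext_injective F K
  rw [ext_NN, CL.nm_prin]

theorem NN_ext (c : J F) : NN F K (ext F K c) = c ^ Module.finrank F K := by
  apply ext_injective F K
  rw [ext_NN, CL.nm_ext, map_pow]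

end norm

section act

variable {k L' L : Type} [Field k] [Field L'] [NumberField L'] [Field L] [NumberField L]
  [Algebra k L'] [Algebra k L] [Algebra L' L] [IsScalarTower k L' L]

omit [NumberField L'] in
lemma smul_res (σ : L ≃ₐ[L'] L) (b : J L) : σ.restrictScalars k • b = σ • b := by
  apply Units.ext
  ext x
  rw [RI.mem_smul, RI.mem_smul]
  rfl

omit [NumberField L'] in
lemma comm_act (hab : ∀ σ τ : L ≃ₐ[k] L, σ * τ = τ * σ) (g : L ≃ₐ[k] L) (σ : L ≃ₐ[L'] L)
    (b : J L) : g • σ • b = σ • g • b := by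
  rw [← smul_res (k := k) σ, ← smul_res (k := k) σ, ← mul_smul, ← mul_smul, hab]

/-- The norm commutes with the action of the commutative group. -/
theorem NN_smul [IsGalois L' L] (hab : ∀ σ τ : L ≃ₐ[k] L, σ * τ = τ * σ) (δ : L ≃ₐ[k] L)
    (δ' : L' ≃ₐ[k] L') (h : ∀ x : L', algebraMap L' L (δ' x) = δ (algebraMap L' L x)) (b : J L) :
    NN L' L (δ • b) = δ' • NN L' L b := by
  apply ext_injective L' L
  rw [ext_NN, EXTACT_thm k L' k L δ δ' h, ext_NN, CL.nm_apply, CL.nm_apply, Finset.smul_prod']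
  exact Finset.prod_congr rfl fun σ _ => (comm_act hab δ σ b).symm

end act

/-- the degrees -/
lemma deg_eq {p n : ℕ} (hp : p ≠ 0) {K' K D' D : IntermediateField ℚ ℂ}
    [FiniteDimensional ℚ K'] [FiniteDimensional ℚ D'] [FiniteDimensional ℚ D] (h : D' ≤ D)
    (h' : Module.finrank ℚ D' = Module.finrank ℚ K' * p ^ n)
    (h'' : Module.finrank ℚ D = Module.finrank ℚ K * p ^ n) :
    (letI := algC h; Module.finrank ℚ K' * Module.finrank D' D) = Module.finrank ℚ K := by
  let _ := algC h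
  have t : IsScalarTower ℚ D' D := IsScalarTower.of_algebraMap_eq fun _ => rfl
  have h1 : Module.finrank ℚ D' * Module.finrank D' D = Module.finrank ℚ D :=
    Module.finrank_mul_finrank _ _ _
  rw [h', h''] at h1
  have h2 : 0 < p ^ n := pow_pos (Nat.pos_of_ne_zero hp) n
  apply Nat.eq_of_mul_eq_mul_right h2
  rw [← h1]
  ring

lemma map_pow' {G F : Type} [Group G] [Ring F] (g : G → F) (h : ∀ x y, g (x * y) = g x + g y)
    (c : G) (d : ℕ) : g (c ^ d) = (d : F) * g c := by
  have h1 : g 1 = 0 := by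
    have := h 1 1
    rw [mul_one] at this
    exact left_eq_add.1 this
  induction d with
  | zero => rw [pow_zero, h1, Nat.cast_zero, zero_mul]
  | succ d ih => rw [pow_succ, h, ih, Nat.cast_succ, add_mul, one_mul]

end INFx

open INFx in
/-- Module INF. -/
theorem tf_INF : Sf_INF := by
  intro p n _ F _ _ k L K B _ _ _ _ hBK hBL hLK hk hk' hkK hkL hp χ χ' hχ hfin
  have hp0 : p ≠ 0 := (Fact.out : p.Prime).ne_zero
  have hle : L ⊔ B n ≤ K ⊔ B n := sup_le_sup_right hLK (B n)
  have : FiniteDimensional ℚ k :=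
    FiniteDimensional.of_injective (IntermediateField.inclusion hkK).toLinearMap
      (IntermediateField.inclusion hkK).injective
  let akK := algC hkK
  let akL := algC hkL
  let aLK := algC hLK
  let akKn := algC hk
  let akLn := algC hk'
  let aLnKn := algC hle
  have tkLK : IsScalarTower k L K := towerC hkL hLK
  have tkLKn : IsScalarTower k ↥(L ⊔ B n) ↥(K ⊔ B n) := towerC hk' hle
  obtain ⟨galK, abK⟩ := t_GALX p k K B hBK n hk
  obtain ⟨galL, -⟩ := t_GALX p k L B hBL n hk'
  have fdK : FiniteDimensional k ↥(K ⊔ B n) := Module.Finite.of_restrictScalars_finite ℚ k _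
  have galLK : IsGalois ↥(L ⊔ B n) ↥(K ⊔ B n) := IsGalois.tower_top_of_isGalois k _ _
  have galL0 : IsGalois k L := (isGalois_algC hkL).mpr hBL.gal
  -- the degree
  set d : ℕ := Module.finrank ↥(L ⊔ B n) ↥(K ⊔ B n) with hd
  have hdeg : Module.finrank ℚ L * d = Module.finrank ℚ K :=
    deg_eq hp0 hle (hBL.deg n) (hBK.deg n)
  have hdF : (d : F) ≠ 0 := by
    intro h0
    rw [CharP.cast_eq_zero_iff F p] at h0
    exact hp (hdeg ▸ h0.mul_left _)
  -- restrictions
  have hres : ∀ (σ : ↥(K ⊔ B n) ≃ₐ[k] ↥(K ⊔ B n)) (x : ↥(L ⊔ B n)),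
      ((AlgEquiv.restrictNormalHom ↥(L ⊔ B n) σ x : ↥(L ⊔ B n)) : ℂ) =
        (σ ⟨x, hle x.2⟩ : ↥(K ⊔ B n)) := by
    intro σ x
    have h2 := AlgEquiv.restrictNormal_commutes σ ↥(L ⊔ B n) x
    exact congrArg Subtype.val h2
  have hres0 : ∀ (σ : ↥K ≃ₐ[k] ↥K) (x : ↥L),
      ((AlgEquiv.restrictNormalHom ↥L σ x : ↥L) : ℂ) = (σ ⟨x, hLK x.2⟩ : ↥K) := by
    intro σ x
    have h2 := AlgEquiv.restrictNormal_commutes σ ↥L x
    exact congrArg Subtype.val h2
  have key : ∀ g : J ↥(L ⊔ B n) → F, EigF F k L B n hk' hkL χ g →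
      EigF F k K B n hk hkK χ' (fun b => g (NN ↥(L ⊔ B n) ↥(K ⊔ B n) b)) := by
    rintro g ⟨g1, g2, g3⟩
    refine ⟨fun x y => ?_, ?_, fun δ s' hs x => ?_⟩
    · show g (NN ↥(L ⊔ B n) ↥(K ⊔ B n) (x * y)) = _
      rw [map_mul, g1]
    · rintro _ ⟨x, rfl⟩
      show g (NN ↥(L ⊔ B n) ↥(K ⊔ B n) (prin x)) = 0
      rw [NN_prin]
      exact g2 _ ⟨_, rfl⟩
    · let δ' : NC hk' (B n) := ⟨AlgEquiv.restrictNormalHom ↥(L ⊔ B n)
        (δ : ↥(K ⊔ B n) ≃ₐ[k] ↥(K ⊔ B n)), by
          intro y hy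
          apply Subtype.ext
          rw [hres]
          have h3 := δ.2 ⟨(y : ℂ), hle y.2⟩ hy
          exact congrArg Subtype.val h3⟩
      have hs1 : χ' s' = χ (AlgEquiv.restrictNormalHom ↥L s') := by
        apply hχ
        intro y y' hy
        rw [hres0]
        congr 2
        exact Subtype.ext hy
      show g (NN ↥(L ⊔ B n) ↥(K ⊔ B n) ((δ : ↥(K ⊔ B n) ≃ₐ[k] ↥(K ⊔ B n)) • x)) =
        (χ' s' : F) * g (NN ↥(L ⊔ B n) ↥(K ⊔ B n) x)
      rw [hs1, ← g3 δ' (AlgEquiv.restrictNormalHom ↥L s')]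
      · congr 1
        apply NN_smul abK
        intro y
        exact Subtype.ext (hres _ y)
      · intro y y' hy
        rw [hres0]
        refine (hres _ y').trans ?_
        refine hs ⟨(y : ℂ), hLK y.2⟩ ⟨(y' : ℂ), hle y'.2⟩ hy
  let Φ : EigS F k L B n hk' hkL χ →ₗ[F] EigS F k K B n hk hkK χ' :=
    { toFun := fun g => ⟨fun b => g.1 (NN ↥(L ⊔ B n) ↥(K ⊔ B n) b), key g.1 g.2⟩
      map_add' := fun g g' => rfl
      map_smul' := fun a g => rfl }
  have hinj : Function.Injective Φ := by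
    rw [injective_iff_map_eq_zero]
    intro g hg
    apply Subtype.ext
    funext c
    have h1 : g.1 (NN ↥(L ⊔ B n) ↥(K ⊔ B n) (ext ↥(L ⊔ B n) ↥(K ⊔ B n) c)) = 0 :=
      congrFun (congrArg Subtype.val hg) (ext ↥(L ⊔ B n) ↥(K ⊔ B n) c)
    rw [NN_ext, map_pow' g.1 g.2.1] at h1
    exact (mul_eq_zero.1 h1).resolve_left hdF
  exact ⟨Module.Finite.of_injective Φ hinj, LinearMap.finrank_le_finrank_of_injective hinj⟩

end Pool.Agent.OBF
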