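import Pool.Agent.OB.StF
import Pool.Agent.MU3.I_ILAY

/-!
# OB, FINAL, module LAY: the layers of the cyclotomic `ℤ_p`-extension of `ℚ`, `p` odd
-/

set_option autoImplicit false

open NumberField Polynomial

namespace Pool.Agent.OBF

namespace LAYx

open Pool.Agent.RI Pool.Agent.RID Pool.Agent.MU3I Pool.Agent.MU3I.Ilay

/-- a cyclic extension of degree `a * b` contains a field of degree `a` -/
lemma sub_deg {F E : Type*} [Field F] [Field E] [Algebra F E] (D : IntermediateField F E)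
    [FiniteDimensional F D] [IsGalois F D] [IsCyclic (D ≃ₐ[F] D)] (a b : ℕ)
    (h : Module.finrank F D = a * b) :
    ∃ Q : IntermediateField F E, Q ≤ D ∧ Module.finrank F Q = a := by
  have hpos : 0 < a * b := h ▸ Module.finrank_pos
  have ha : 0 < a := Nat.pos_of_ne_zero (by
    rintro rfl
    simp at hpos)
  have hb : 0 < b := Nat.pos_of_ne_zero (by
    rintro rfl
    simp at hpos)
  obtain ⟨g, hg⟩ := IsCyclic.exists_generator (α := D ≃ₐ[F] D)
  have hcard : Nat.card (D ≃ₐ[F] D) = a * b := by rw [IsGalois.card_aut_eq_finrank, h]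
  have hog : orderOf g = a * b := by rw [orderOf_eq_card_of_forall_mem_zpowers hg, hcard]
  have hS : Nat.card (Subgroup.zpowers (g ^ a)) = b := by
    rw [Nat.card_zpowers, orderOf_pow, hog, Nat.gcd_eq_right (Dvd.intro b rfl),
      Nat.mul_div_cancel_left b ha]
  refine ⟨IntermediateField.lift (IntermediateField.fixedField (Subgroup.zpowers (g ^ a))),
    IntermediateField.lift_le _, ?_⟩
  have h1 := IntermediateField.finrank_fixedField_eq_card (Subgroup.zpowers (g ^ a))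
  have h2 := Module.finrank_mul_finrank F
    (IntermediateField.fixedField (Subgroup.zpowers (g ^ a))) D
  rw [h1, hS, h] at h2
  exact (IntermediateField.liftAlgEquiv (IntermediateField.fixedField
    (Subgroup.zpowers (g ^ a)))).toLinearEquiv.finrank_eq.symm.trans
    (Nat.eq_of_mul_eq_mul_right hb h2)

/-- a subfield of a cyclotomic field of prime power order which is fixed by the inversion is
cyclic -/
lemma cycF {F E : Type} [Field F] [Field E] [Algebra F E] (p j : ℕ) [hp : Fact p.Prime]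
    (hirr : Irreducible (cyclotomic (p ^ j) F)) {r : E} (hr : IsPrimitiveRoot r (p ^ j))
    (c : E →ₐ[F] E) (hc : c r = r⁻¹) (D : IntermediateField F E)
    (hle : D ≤ IntermediateField.adjoin F {z : E | z ^ (p ^ j) = 1})
    (hreal : ∀ x ∈ D, c x = x) : IsGalois F D ∧ IsCyclic (D ≃ₐ[F] D) :=
  ⟨(LAY.isAbelian_of_le (p ^ j) (pow_ne_zero _ hp.out.ne_zero) ⟨r, hr⟩ D hle).toIsGalois,
    LAYC.gen p j hirr hr c hc D hle hreal⟩

lemma croot (p j : ℕ) [hp : Fact p.Prime] :
    ((Complex.conjAe.toAlgHom).restrictScalars ℚ)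
      (Complex.exp (2 * Real.pi * Complex.I / ((p ^ j : ℕ) : ℂ))) =
      (Complex.exp (2 * Real.pi * Complex.I / ((p ^ j : ℕ) : ℂ)))⁻¹ := by
  have hN : p ^ j ≠ 0 := pow_ne_zero _ hp.out.ne_zero
  exact conj_root hN (Complex.isPrimitiveRoot_exp _ hN).pow_eq_one

lemma adj_mono (p m j : ℕ) (h : m ≤ j) :
    IntermediateField.adjoin ℚ {z : ℂ | z ^ (p ^ m) = 1} ≤
      IntermediateField.adjoin ℚ {z : ℂ | z ^ (p ^ j) = 1} := by
  refine IntermediateField.adjoin.mono _ _ _ ?_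
  intro z hz
  have hz' : z ^ p ^ m = 1 := hz
  obtain ⟨t, ht⟩ := pow_dvd_pow p h
  show z ^ p ^ j = 1
  rw [ht, pow_mul, hz', one_pow]

/-- two layers are equal -/
lemma lay_uniq (p : ℕ) [hp : Fact p.Prime] (n : ℕ) (Q R : IntermediateField ℚ ℂ)
    (hQ : RI.IsLayer p n Q) (hR : RI.IsLayer p n R) : Q = R := by
  obtain ⟨hd, hr, m, hle⟩ := hQ
  obtain ⟨hd', hr', m', hle'⟩ := hR
  have h1 := hle.trans (adj_mono p m (max m m') (le_max_left _ _))
  have h2 := hle'.trans (adj_mono p m' (max m m') (le_max_right _ _))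
  set c : ℂ →ₐ[ℚ] ℂ := (Complex.conjAe.toAlgHom).restrictScalars ℚ with hc
  have hfix := fix_sup c Q R (fun x hx => hr x hx) (fun x hx => hr' x hx)
  have hN : p ^ (max m m') ≠ 0 := pow_ne_zero _ hp.out.ne_zero
  obtain ⟨hG, hcyc⟩ := cycF (F := ℚ) (E := ℂ) p (max m m')
    (cyclotomic.irreducible_rat (Nat.pos_of_ne_zero hN)) (Complex.isPrimitiveRoot_exp _ hN) c
    (croot p _) (Q ⊔ R) (sup_le h1 h2) hfix
  have : FiniteDimensional ℚ Q :=
    Module.finite_of_finrank_pos (by rw [hd]; exact pow_pos hp.out.pos n)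
  have : FiniteDimensional ℚ R :=
    Module.finite_of_finrank_pos (by rw [hd']; exact pow_pos hp.out.pos n)
  have hfd : FiniteDimensional ℚ ↥(Q ⊔ R) := IntermediateField.finiteDimensional_sup Q R
  exact uniq Q R (Q ⊔ R) le_sup_left le_sup_right (hd.trans hd'.symm)

/-- the layers exist -/
lemma lay_exists (p : ℕ) [hp : Fact p.Prime] (h2 : p ≠ 2) (n : ℕ) :
    ∃ B : IntermediateField ℚ ℂ, RI.IsLayer p n B := by
  have hM : p ^ (n + 1) ≠ 0 := pow_ne_zero _ hp.out.ne_zero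
  have hodd : Odd p := hp.out.odd_of_ne_two h2
  have hev : 2 ∣ p - 1 := by
    obtain ⟨t, ht⟩ := hodd
    exact ⟨t, by omega⟩
  obtain ⟨b, hb⟩ := hev
  set ζ := zt (p ^ (n + 1)) with hζ
  have hζp : IsPrimitiveRoot ζ (p ^ (n + 1)) := zt_prim _ hM
  have hζ0 : ζ ≠ 0 := hζp.ne_zero hM
  have hζc : (starRingEnd ℂ) ζ = ζ⁻¹ := conj_root hM hζp.pow_eq_one
  set R := IntermediateField.adjoin ℚ {ζ + ζ⁻¹} with hR
  set c : ℂ →ₐ[ℚ] ℂ := (Complex.conjAe.toAlgHom).restrictScalars ℚ with hc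
  have hcz : ∀ z : ℂ, c z = (starRingEnd ℂ) z := fun z => rfl
  have hRr : ∀ x ∈ R, c x = x := by
    have hRR : R ≤ (AlgHom.equalizer c (AlgHom.id ℚ ℂ)).toIntermediateField (fun x hx => by
        have hx' : c x = x := hx
        show c x⁻¹ = x⁻¹
        rw [map_inv₀, hx']) := by
      rw [hR, IntermediateField.adjoin_simple_le_iff]
      show c (ζ + ζ⁻¹) = ζ + ζ⁻¹
      rw [map_add, map_inv₀, hcz, hζc, inv_inv, add_comm]
    exact fun x hx => hRR hx
  have hdR : Module.finrank ℚ R = p ^ n * b := by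
    apply deg ζ (p ^ n * b) hζ0
    · have hint : IsIntegral ℚ ζ := (hζp.isIntegral (Nat.pos_of_ne_zero hM)).tower_top
      rw [IntermediateField.adjoin.finrank hint,
        ← cyclotomic_eq_minpoly_rat hζp (Nat.pos_of_ne_zero hM), natDegree_cyclotomic,
        Nat.totient_prime_pow_succ hp.out, hb]
      ring
    · intro h1
      have h2' := hRr _ h1
      rw [hcz, hζc] at h2'
      have h3 : ζ ^ 2 = 1 := by
        rw [pow_two]
        nth_rewrite 1 [← h2']
        exact inv_mul_cancel₀ hζ0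
      have h4 := hζp.dvd_of_pow_eq_one 2 h3
      have h5 : p ∣ 2 := (dvd_pow_self p (Nat.succ_ne_zero n)).trans h4
      exact h2 ((Nat.prime_dvd_prime_iff_eq hp.out Nat.prime_two).1 h5)
  have hRle : R ≤ IntermediateField.adjoin ℚ {z : ℂ | z ^ (p ^ (n + 1)) = 1} := by
    have hζj : ζ ∈ IntermediateField.adjoin ℚ {z : ℂ | z ^ (p ^ (n + 1)) = 1} :=
      IntermediateField.subset_adjoin _ _ hζp.pow_eq_one
    rw [hR, IntermediateField.adjoin_simple_le_iff]
    exact add_mem hζj (inv_mem hζj)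
  obtain ⟨hG, hcyc⟩ := cycF (F := ℚ) (E := ℂ) p (n + 1)
    (cyclotomic.irreducible_rat (Nat.pos_of_ne_zero hM)) (Complex.isPrimitiveRoot_exp _ hM) c
    (croot p _) R hRle hRr
  have hpos : 0 < p ^ n * b := by
    have h1 := hp.out.two_le
    have h3 : 0 < b := by
      have h4 : p ≠ 2 := h2
      omega
    exact Nat.mul_pos (pow_pos hp.out.pos n) h3
  have : FiniteDimensional ℚ R := Module.finite_of_finrank_pos (by rw [hdR]; exact hpos)
  obtain ⟨Q, hQ, hdQ⟩ := sub_deg R (p ^ n) b hdR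
  exact ⟨Q, hdQ, fun x hx => hRr x (hQ hx), n + 1, hQ.trans hRle⟩

end LAYx

/-- LAY. -/
theorem tf_LAY : Sf_LAY := by
  intro p hp h2
  choose B hB using LAYx.lay_exists p h2
  refine ⟨B, hB, monotone_nat_of_le_succ fun n => ?_, fun n Q hQ => LAYx.lay_uniq p n Q (B n) hQ (hB n)⟩
  obtain ⟨hd, hr, m, hle⟩ := hB (n + 1)
  have hN : p ^ m ≠ 0 := pow_ne_zero _ hp.out.ne_zero
  obtain ⟨hG, hcyc⟩ := LAYx.cycF (F := ℚ) (E := ℂ) p m
    (cyclotomic.irreducible_rat (Nat.pos_of_ne_zero hN)) (Complex.isPrimitiveRoot_exp _ hN)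
    ((Complex.conjAe.toAlgHom).restrictScalars ℚ) (LAYx.croot p m) (B (n + 1)) hle hr
  have : FiniteDimensional ℚ (B (n + 1)) :=
    Module.finite_of_finrank_pos (by rw [hd]; exact pow_pos hp.out.pos (n + 1))
  obtain ⟨Q, hQ, hdQ⟩ := LAYx.sub_deg (B (n + 1)) (p ^ n) p (by rw [hd, pow_succ])
  have h1 : Q = B n := LAYx.lay_uniq p n Q (B n)
    ⟨hdQ, fun x hx => hr x (hQ hx), m, hQ.trans hle⟩ (hB n)
  rw [← h1]
  exact hQ

end Pool.Agent.OBF
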