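import Pool.Agent.OB.F_CNJ

/-!
# OB, FINAL (helper60): Frobenius
-/

set_option autoImplicit false

open NumberField IsDedekindDomain Finset
open scoped nonZeroDivisors Pointwise

namespace Pool.Agent.OBF

open _root_.Pool.Agent.RI _root_.Pool.Agent.RID _root_.Pool.Agent.MU3 _root_.Pool.Agent.MUXK
  _root_.Pool.Agent.MUXZ _root_.Pool.Agent.NSI _root_.Pool.Agent.OB

namespace FRBx

/-- Semilinear injections do not decrease the dimension. -/
lemma finrank_le_semi {F V W : Type} [Field F] [AddCommGroup V] [Module F V] [AddCommGroup W]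
    [Module F W] [Module.Finite F V] [Module.Finite F W] (σ : F ≃+* F) (φ : V → W)
    (hadd : ∀ x y, φ (x + y) = φ x + φ y) (hs : ∀ (c : F) x, φ (c • x) = σ c • φ x)
    (hinj : Function.Injective φ) : Module.finrank F V ≤ Module.finrank F W := by
  let b := Module.finBasis F V
  have h0 : φ 0 = 0 := by
    have := hadd 0 0
    rw [add_zero] at this
    exact left_eq_add.1 this
  have hsum : ∀ (s : Finset (Fin (Module.finrank F V))) (c : Fin (Module.finrank F V) → F),
      φ (∑ i ∈ s, c i • b i) = ∑ i ∈ s, σ (c i) • φ (b i) := by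
    classical
    intro s c
    induction s using Finset.induction_on with
    | empty => rw [Finset.sum_empty, Finset.sum_empty, h0]
    | insert a s ha ih => rw [Finset.sum_insert ha, Finset.sum_insert ha, hadd, hs, ih]
  have hli : LinearIndependent F (fun i => φ (b i)) := by
    rw [Fintype.linearIndependent_iff]
    intro c hc i
    have h1 : φ (∑ i, σ.symm (c i) • b i) = 0 := by
      rw [hsum]
      simpa using hc
    have h2 : ∑ i, σ.symm (c i) • b i = 0 := hinj (h1.trans h0.symm)
    have h3 := (Fintype.linearIndependent_iff.1 b.linearIndependent) _ h2 i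
    rw [← σ.apply_symm_apply (c i), h3, map_zero]
  have := hli.fintype_card_le_finrank
  rwa [Fintype.card_fin] at this

end FRBx

open FRBx

/-- The power of a good character is good. -/
theorem frob_mu (p : ℕ) [Fact p.Prime] {k K : IntermediateField ℚ ℂ} [FiniteDimensional ℚ K]
    (h : k ≤ K) (χ : MuCyc.Chr p h) (hm : MuCyc.MuZeroC p h χ) :
    MuCyc.MuZeroC p h (χ ^ p) := by
  obtain ⟨C, hC⟩ := hm
  refine ⟨C, fun n Q hQ => le_trans ?_ (hC n Q hQ)⟩
  have hpp : p.Prime := Fact.out
  have hfQ : FiniteDimensional ℚ Q :=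
    Module.finite_of_finrank_pos (by rw [hQ.1]; exact pow_pos hpp.pos n)
  have hfL : FiniteDimensional ℚ ↥(K ⊔ Q) := IntermediateField.finiteDimensional_sup K Q
  have hfin : Finite (ClassGroup (𝓞 ↥(K ⊔ Q))) := inferInstance
  let σ : AlgebraicClosure (ZMod p) ≃+* AlgebraicClosure (ZMod p) :=
    frobeniusEquiv (AlgebraicClosure (ZMod p)) p
  have hσ : ∀ x, σ x = x ^ p := fun x => rfl
  have hσp : ∀ x, (σ.symm x) ^ p = x := fun x => by rw [← hσ, RingEquiv.apply_symm_apply]
  let φ : MuCyc.chiPart p h (χ ^ p) Q → MuCyc.chiPart p h χ Q := fun f =>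
    ⟨fun a => σ.symm (f.1 a), by
      refine ⟨fun a b => ?_, fun τ s hτ hs a => ?_⟩
      · show σ.symm (f.1 (a * b)) = σ.symm (f.1 a) + σ.symm (f.1 b)
        rw [f.2.1, map_add]
      · show σ.symm (f.1 _) = (χ s : AlgebraicClosure (ZMod p)) * σ.symm (f.1 a)
        rw [f.2.2 τ s hτ hs, map_mul]
        congr 1
        rw [RingEquiv.symm_apply_eq, hσ]
        rfl⟩
  have hinj : Function.Injective φ := by
    intro f g hfg
    apply Subtype.ext
    funext a
    have h1 := congrArg (fun q : MuCyc.chiPart p h χ Q => q.1 a) hfg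
    exact σ.symm.injective h1
  exact finrank_le_semi σ.symm φ
    (fun x y => Subtype.ext (funext fun a => map_add σ.symm _ _))
    (fun c x => Subtype.ext (funext fun a => map_mul σ.symm _ _)) hinj

end Pool.Agent.OBF
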