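import Mathlib

/-!
# OB, block K for one character: linear algebra for the bound of the dimension
-/

set_option autoImplicit false

namespace Pool.Agent.OB

/-- Additive functions on a finite vector space over the field with `p` elements. -/
theorem hom_dim_vec (p : ℕ) [hp : Fact p.Prime] (F : Type) [Field F] [CharP F p] (V : Type)
    [AddCommGroup V] [Module (ZMod p) V] [Finite V] (W : Submodule F (V → F))
    (hW : ∀ f ∈ W, ∀ x y, f (x + y) = f x + f y) :
    Module.finrank F W ≤ padicValNat p (Nat.card V) := by
  classical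
  have hfin : Module.Finite (ZMod p) V := Module.Finite.of_finite
  set r := Module.finrank (ZMod p) V with hr
  have hcard : p ^ r = Nat.card V := by
    have h2 := Module.natCard_eq_pow_finrank (K := ZMod p) (V := V)
    rw [Nat.card_zmod] at h2
    exact h2.symm
  have hle : padicValNat p (Nat.card V) = r := by
    rw [← hcard, padicValNat.prime_pow]
  rw [hle]
  let b := Module.finBasis (ZMod p) V
  let Φ : W →ₗ[F] (Fin r → F) :=
    { toFun := fun f i => f.1 (b i)
      map_add' := fun _ _ => rfl
      map_smul' := fun _ _ => rfl }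
  have hΦ : Function.Injective Φ := by
    rw [← LinearMap.ker_eq_bot, LinearMap.ker_eq_bot']
    intro f hf
    have hadd := hW f.1 f.2
    have hf0 : ∀ i, f.1 (b i) = 0 := fun i => congrFun hf i
    let fh : V →+ F := AddMonoidHom.mk' f.1 hadd
    have hfh : ∀ x, fh x = f.1 x := fun _ => rfl
    apply Subtype.ext
    funext x
    have h1 := b.sum_repr x
    have h7 : fh x = 0 := by
      rw [← h1, map_sum]
      refine Finset.sum_eq_zero fun i _ => ?_
      have h4 : b.repr x i • b i = (b.repr x i).val • b i := by
        rw [← Nat.cast_smul_eq_nsmul (ZMod p), ZMod.natCast_zmod_val]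
      rw [h4, map_nsmul, hfh, hf0, smul_zero]
    exact h7
  have h9 := LinearMap.finrank_le_finrank_of_injective hΦ
  rwa [Module.finrank_fin_fun] at h9

/-- Functions which vanish on a subgroup are functions on the quotient. -/
theorem quot_red (F : Type) [Field F] (A : Type) [AddCommGroup A] [Finite A] (R : AddSubgroup A)
    (N : ℕ) (W : Submodule F (A → F)) (hW : ∀ f ∈ W, ∀ x y, f (x + y) = f x + f y)
    (hR : ∀ f ∈ W, ∀ x ∈ R, f x = 0)
    (hN : ∀ W' : Submodule F ((A ⧸ R) → F), (∀ f ∈ W', ∀ x y, f (x + y) = f x + f y) →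
      Module.finrank F W' ≤ N) : Module.finrank F W ≤ N := by
  let φ : ((A ⧸ R) → F) →ₗ[F] (A → F) := LinearMap.funLeft F F (QuotientAddGroup.mk : A → A ⧸ R)
  have h1 : W = (W.comap φ).map φ := by
    apply le_antisymm
    · intro f hf
      have hadd := hW f hf
      have hwd : ∀ x y : A, (QuotientAddGroup.mk x : A ⧸ R) = QuotientAddGroup.mk y → f x = f y := by
        intro x y hxy
        have h2 : -x + y ∈ R := QuotientAddGroup.eq.1 hxy
        have h3 := hadd x (-x + y)
        rw [hR f hf _ h2, add_zero, add_neg_cancel_left] at h3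
        exact h3.symm
      refine ⟨fun q => f (Quotient.out q), ?_, ?_⟩
      · have h4 : φ (fun q => f (Quotient.out q)) = f := by
          funext x
          exact hwd _ _ (Quotient.out_eq _)
        show φ (fun q => f (Quotient.out q)) ∈ W
        rw [h4]
        exact hf
      · funext x
        exact hwd _ _ (Quotient.out_eq _)
    · rintro _ ⟨h, hh, rfl⟩
      exact hh
  have h2 : Module.finrank F W ≤ Module.finrank F (W.comap φ) := by
    conv_lhs => rw [h1]
    exact Submodule.finrank_map_le φ _
  refine h2.trans (hN (W.comap φ) ?_)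
  intro f hf x y
  obtain ⟨x, rfl⟩ := QuotientAddGroup.mk_surjective x
  obtain ⟨y, rfl⟩ := QuotientAddGroup.mk_surjective y
  exact hW _ hf x y

/-- Additive functions with values in a field of characteristic `p`, on a finite group: dimension at most the exponent of
`p` in the order. -/
theorem hom_dim (p : ℕ) [hp : Fact p.Prime] (F : Type) [Field F] [CharP F p] (A : Type)
    [AddCommGroup A] [Finite A] (W : Submodule F (A → F))
    (hW : ∀ f ∈ W, ∀ x y, f (x + y) = f x + f y) :
    Module.finrank F W ≤ padicValNat p (Nat.card A) := by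
  let R : AddSubgroup A := (nsmulAddMonoidHom p : A →+ A).range
  have hR : ∀ x : A ⧸ R, p • x = 0 := by
    intro x
    obtain ⟨a, rfl⟩ := QuotientAddGroup.mk_surjective x
    have : (p : ℕ) • (QuotientAddGroup.mk a : A ⧸ R) = QuotientAddGroup.mk (p • a) := rfl
    rw [this, QuotientAddGroup.eq_zero_iff]
    exact ⟨a, rfl⟩
  have hle : padicValNat p (Nat.card (A ⧸ R)) ≤ padicValNat p (Nat.card A) := by
    obtain ⟨c, hc⟩ := AddSubgroup.card_quotient_dvd_card R
    have h1 : Nat.card (A ⧸ R) ≠ 0 := Nat.card_pos.ne'
    have h2 : c ≠ 0 := by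
      rintro rfl
      rw [mul_zero] at hc
      exact Nat.card_pos.ne' hc
    rw [hc, padicValNat.mul h1 h2]
    omega
  refine le_trans (quot_red F A R _ W hW ?_ ?_) hle
  · rintro f hf _ ⟨x, rfl⟩
    let fh : A →+ F := AddMonoidHom.mk' f (hW f hf)
    have h3 : fh (p • x) = 0 := by
      rw [map_nsmul, nsmul_eq_mul, CharP.cast_eq_zero, zero_mul]
    exact h3
  · intro W' hW'
    exact letI : Module (ZMod p) (A ⧸ R) := AddCommGroup.zmodModule hR
    hom_dim_vec p F (A ⧸ R) W' hW'

/-- The same for functions which vanish on a subgroup. -/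
theorem hom_dim_quot (p : ℕ) [hp : Fact p.Prime] (F : Type) [Field F] [CharP F p] (A : Type)
    [AddCommGroup A] [Finite A] (R : AddSubgroup A) (W : Submodule F (A → F))
    (hW : ∀ f ∈ W, ∀ x y, f (x + y) = f x + f y) (hR : ∀ f ∈ W, ∀ x ∈ R, f x = 0) :
    Module.finrank F W ≤ padicValNat p (Nat.card (A ⧸ R)) :=
  quot_red F A R _ W hW hR fun W' hW' => hom_dim p F (A ⧸ R) W' hW'

/-- Kernels of powers. -/
theorem ker_pow_le {F V : Type} [Field F] [AddCommGroup V] [Module F V] [Module.Finite F V]
    (T : V →ₗ[F] V) (i : ℕ) :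
    Module.finrank F (LinearMap.ker (T ^ i)) ≤ i * Module.finrank F (LinearMap.ker T) := by
  induction i with
  | zero =>
    rw [pow_zero, zero_mul, Nat.le_zero]
    have : LinearMap.ker (1 : V →ₗ[F] V) = ⊥ := LinearMap.ker_id
    rw [this]
    exact finrank_bot F V
  | succ i ih =>
    -- `T` maps `ker T ^ (i+1)` to `ker T ^ i` with kernel in `ker T`
    let S : LinearMap.ker (T ^ (i + 1)) →ₗ[F] LinearMap.ker (T ^ i) :=
      T.restrict (fun x hx => by
        rw [LinearMap.mem_ker] at hx ⊢
        rw [← Module.End.mul_apply, ← pow_succ]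
        exact hx)
    have h1 := LinearMap.finrank_range_add_finrank_ker S
    have h2 : Module.finrank F (LinearMap.range S) ≤ Module.finrank F (LinearMap.ker (T ^ i)) :=
      Submodule.finrank_le _
    have h3 : Module.finrank F (LinearMap.ker S) ≤ Module.finrank F (LinearMap.ker T) := by
      let ψ : LinearMap.ker S →ₗ[F] LinearMap.ker T :=
        { toFun := fun x => ⟨x.1.1, by
            have := x.2
            rw [LinearMap.mem_ker] at this ⊢
            exact congrArg Subtype.val this⟩
          map_add' := fun _ _ => rfl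
          map_smul' := fun _ _ => rfl }
      refine LinearMap.finrank_le_finrank_of_injective (f := ψ) ?_
      intro x y hxy
      apply Subtype.ext
      apply Subtype.ext
      have h5 : (ψ x).1 = (ψ y).1 := by rw [hxy]
      exact h5
    have h4 : (i + 1) * Module.finrank F (LinearMap.ker T) =
        i * Module.finrank F (LinearMap.ker T) + Module.finrank F (LinearMap.ker T) := by ring
    omega

/-- A nilpotent operator. -/
theorem finrank_le_of_nilp {F V : Type} [Field F] [AddCommGroup V] [Module F V]
    [Module.Finite F V] (T : V →ₗ[F] V) (l : ℕ) (hT : ∀ v, (T ^ l) v = 0) :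
    Module.finrank F V ≤ l * Module.finrank F (LinearMap.ker T) := by
  have h1 : LinearMap.ker (T ^ l) = ⊤ := by
    rw [eq_top_iff]
    intro v _
    exact hT v
  have h2 := ker_pow_le T l
  rwa [h1, finrank_top] at h2

/-- The bound for a space of additive functions on which `g - 1` acts nilpotently. -/
theorem hom_nil (p l : ℕ) [hp : Fact p.Prime] (F : Type) [Field F] [CharP F p] (A : Type)
    [AddCommGroup A] [Finite A] (W : Submodule F (A → F))
    (hW : ∀ f ∈ W, ∀ x y, f (x + y) = f x + f y) (t : AddMonoid.End A)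
    (hst : ∀ f ∈ W, (fun x => f (t x)) ∈ W) (hnil : ∀ f ∈ W, ∀ x, f ((t ^ l) x) = 0) :
    Module.finrank F W ≤ l * padicValNat p (Nat.card (AddMonoidHom.ker t)) := by
  let T : W →ₗ[F] W :=
    { toFun := fun f => ⟨fun x => f.1 (t x), hst f.1 f.2⟩
      map_add' := fun _ _ => rfl
      map_smul' := fun _ _ => rfl }
  have hT1 : ∀ (f : W) (x : A), (T f).1 x = f.1 (t x) := fun _ _ => rfl
  have hTp : ∀ (j : ℕ) (f : W) (x : A), ((T ^ j) f).1 x = f.1 ((t ^ j) x) := by
    intro j
    induction j with
    | zero => intro f x; rfl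
    | succ j ih =>
      intro f x
      rw [pow_succ', Module.End.mul_apply, hT1, ih, pow_succ]
      rfl
  have h1 := finrank_le_of_nilp T l (by
    intro f
    apply Subtype.ext
    funext x
    rw [hTp]
    exact hnil f.1 f.2 x)
  refine h1.trans (Nat.mul_le_mul_left l ?_)
  -- the kernel of `T`
  have hcard : Nat.card (A ⧸ (AddMonoidHom.range (t : A →+ A))) = Nat.card (AddMonoidHom.ker t) := by
    have e1 := AddSubgroup.card_eq_card_quotient_mul_card_addSubgroup
      (AddMonoidHom.range (t : A →+ A))
    have e2 := AddSubgroup.card_eq_card_quotient_mul_card_addSubgroup (AddMonoidHom.ker (t : A →+ A))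
    have e3 : Nat.card (A ⧸ (AddMonoidHom.ker (t : A →+ A))) =
        Nat.card (AddMonoidHom.range (t : A →+ A)) :=
      Nat.card_congr (QuotientAddGroup.quotientKerEquivRange (t : A →+ A)).toEquiv
    rw [e3] at e2
    have hpos : 0 < Nat.card (AddMonoidHom.range (t : A →+ A)) := Nat.card_pos
    rw [e2, mul_comm] at e1
    exact (Nat.eq_of_mul_eq_mul_right hpos e1).symm
  rw [← hcard]
  have h2 : Module.finrank F (LinearMap.ker T) =
      Module.finrank F ((LinearMap.ker T).map W.subtype) :=
    (LinearEquiv.finrank_eq (Submodule.equivSubtypeMap W (LinearMap.ker T)))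
  rw [h2]
  refine hom_dim_quot p F A _ _ ?_ ?_
  · rintro _ ⟨f, -, rfl⟩
    exact hW f.1 f.2
  · rintro _ ⟨f, hf, rfl⟩ _ ⟨x, rfl⟩
    have h3 : T f = 0 := hf
    have h4 : (T f).1 x = 0 := by rw [h3]; rfl
    exact h4

end Pool.Agent.OB
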