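import Pool.Agent.OB.StK
import Pool.Agent.MUX.K_FINX
import Pool.Agent.OB.K_ALG

/-!
# OB, block K for one character: BNDO
-/

set_option autoImplicit false

open NumberField IsDedekindDomain Finset Filter Topology
open scoped nonZeroDivisors Pointwise

namespace Pool.Agent.OB

open _root_.Pool.Agent.MU3 _root_.Pool.Agent.RI _root_.Pool.Agent.RID _root_.Pool.Agent.MUXK
  _root_.Pool.Agent.MUXZ _root_.Pool.Agent.NSI

open _root_.MU3.NQ

/-- The bound for one level. -/
theorem bnd_level (p l : ℕ) [Fact p.Prime] (F : Type) [Field F] [CharP F p] (k L : Type)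
    [Field k] [Field L] [NumberField L] [Algebra k L]
    (E : Submodule F (J L → F)) (hadd : ∀ f ∈ E, ∀ x y, f (x * y) = f x + f y)
    (hprin : ∀ f ∈ E, ∀ x ∈ (prin : Lˣ →* J L).range, f x = 0) (g : L ≃ₐ[k] L)
    (hst : ∀ f ∈ E, (fun b => f (dg g b)) ∈ E) (hnil : ∀ f ∈ E, ∀ b, f ((dg g)^[l] b) = 0) :
    Module.Finite F E ∧ Module.finrank F E ≤
      l * padicValNat p ((_root_.MU3.PI L).relIndex ((_root_.MU3.PI L).comap (dg g))) := by
  let φ : (ClA L → F) →ₗ[F] (J L → F) := LinearMap.funLeft F F (cl : J L → ClA L)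
  have hneg : ∀ f ∈ E, ∀ x, f x⁻¹ = - f x := by
    intro f hf x
    have h0 : f 1 = 0 := hprin f hf 1 (one_mem _)
    have := hadd f hf x x⁻¹
    rw [mul_inv_cancel, h0] at this
    linear_combination -this
  have h1 : E = (E.comap φ).map φ := by
    apply le_antisymm
    · intro f hf
      have hwd : ∀ x y : J L, (cl x : ClA L) = cl y → f x = f y := by
        intro x y hxy
        have h2 : cl (x * y⁻¹) = 0 := by
          rw [cl_mul, cl_inv, hxy]
          exact add_neg_cancel (cl y)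
        have h3 := hprin f hf _ ((cl_eq_zero _).1 h2)
        rw [hadd f hf, hneg f hf] at h3
        linear_combination h3
      have hs : ∀ x : ClA L, ∃ b : J L, cl b = x := cl_surj
      choose o ho using hs
      refine ⟨fun q => f (o q), ?_, ?_⟩
      · have h4 : φ (fun q => f (o q)) = f := by
          funext x
          exact hwd _ _ (ho _)
        show φ (fun q => f (o q)) ∈ E
        rw [h4]
        exact hf
      · funext x
        exact hwd _ _ (ho _)
    · rintro _ ⟨h, hh, rfl⟩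
      exact hh
  have hfin : Module.Finite F (ClA L → F) := inferInstance
  constructor
  · rw [h1]
    exact Module.Finite.map _ _
  · have h2 : Module.finrank F E ≤ Module.finrank F (E.comap φ) := by
      conv_lhs => rw [h1]
      exact Submodule.finrank_map_le φ _
    refine h2.trans ?_
    rw [← card_ker g]
    refine hom_nil p l F (ClA L) (E.comap φ) ?_ (gA g - 1) ?_ ?_
    · intro f hf x y
      obtain ⟨x, rfl⟩ := cl_surj x
      obtain ⟨y, rfl⟩ := cl_surj y
      exact hadd _ hf x y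
    · intro f hf
      show φ (fun x => f ((gA g - 1 : AddMonoid.End (ClA L)) x)) ∈ E
      have h3 : φ (fun x => f ((gA g - 1 : AddMonoid.End (ClA L)) x)) =
          (-1 : F) • (fun b => (φ f) (dg g b)) := by
        funext b
        show f ((gA g - 1 : AddMonoid.End (ClA L)) (cl b)) = (-1 : F) * f (cl (dg g b))
        rw [T_cl, ← cl_inv]
        have h4 := hneg _ hf (dg g b)
        have h5 : (φ f) (dg g b)⁻¹ = f (cl (dg g b)⁻¹) := rfl
        have h6 : (φ f) (dg g b) = f (cl (dg g b)) := rfl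
        rw [h5, h6] at h4
        rw [h4]
        ring
      rw [h3]
      exact E.smul_mem _ (hst _ hf)
    · intro f hf x
      obtain ⟨b, rfl⟩ := cl_surj x
      have h3 := hnil _ hf b
      have h6 : (φ f) ((dg g)^[l] b) = f (cl ((dg g)^[l] b)) := rfl
      rw [h6] at h3
      rcases T_pow_cl g l b with h | h
      · rw [h, h3]
      · rw [h, ← cl_inv]
        have h4 := hneg _ hf ((dg g)^[l] b)
        have h5 : (φ f) ((dg g)^[l] b)⁻¹ = f (cl ((dg g)^[l] b)⁻¹) := rfl
        rw [h5, h6, h3, neg_zero] at h4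
        exact h4

open _root_.Pool.Agent.MUXK.Finx in
/-- The ambiguous classes of the layers. -/
theorem amb_layers (hGEN : S_GENX) (p : ℕ) [Fact p.Prime] (k K : IntermediateField ℚ ℂ)
    [FiniteDimensional ℚ K] (B : ℕ → IntermediateField ℚ ℂ) (hk : k ≤ K)
    [∀ n, FiniteDimensional ℚ ↥(K ⊔ B n)]
    (hdeg : ∀ n, Module.finrank ℚ ↥(K ⊔ B n) = Module.finrank ℚ K * p ^ n)
    (hB : ∀ n, IsLayer p n (B n)) (hmono : Monotone B) :
    ∃ c₀ c₁ : ℕ, ∀ (n : ℕ) (h : k ≤ K ⊔ B n), letI := algC h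
    ∃ g : ↥(K ⊔ B n) ≃ₐ[k] ↥(K ⊔ B n), (∀ x : ↥(K ⊔ B n), g x = x ↔ (x : ℂ) ∈ K) ∧
      padicValNat p ((_root_.MU3.PI ↥(K ⊔ B n)).relIndex
        ((_root_.MU3.PI ↥(K ⊔ B n)).comap (dg g))) ≤ c₀ + n * c₁ := by
  have hAMB := _root_.MU3.n_AMB _root_.MU3.n_AMBA _root_.MU3.n_AMBI _root_.MU3.n_AMBU
  have hRAMP := _root_.MU3.n_RAMP
  obtain ⟨S, hS⟩ := finS p K
  have : FiniteDimensional ℚ k :=
    FiniteDimensional.of_injective (IntermediateField.inclusion hk).toLinearMap
      (IntermediateField.inclusion hk).injective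
  refine ⟨padicValNat p (NumberField.classNumber K), S.card + NumberField.Units.rank K + 1, ?_⟩
  intro n h
  let aKL := algC (le_sup_left : K ≤ K ⊔ B n)
  let akK := algC hk
  let akL := algC h
  have : IsScalarTower k K ↥(K ⊔ B n) := towerC hk le_sup_left
  obtain ⟨g, ord, fix, -⟩ := hGEN p k K B hk hdeg hB hmono n h
  have hcyc : CycExt k K ↥(K ⊔ B n) g (p ^ n) := by
    refine ⟨ord, fun x => ?_⟩
    rw [fix x]
    constructor
    · intro hx
      exact ⟨⟨(x : ℂ), hx⟩, rfl⟩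
    · rintro ⟨y, rfl⟩
      exact y.2
  have h1 := hAMB p n k K ↥(K ⊔ B n) g hcyc S (by
    intro w hw
    have h2 := hRAMP p n K (B n) (hB n) w hw
    have hne : w.asIdeal.under (𝓞 K) ≠ ⊥ := by
      intro h0
      rw [h0, Ideal.mem_bot] at h2
      have : p ≠ 0 := (Fact.out : p.Prime).ne_zero
      exact this (by exact_mod_cast h2)
    have := w.isPrime
    exact ⟨⟨w.asIdeal.under (𝓞 K), inferInstance, hne⟩, hS _ h2, rfl⟩)
  exact ⟨g, fix, h1⟩

theorem t_BNDO (h1 : S_MAINO) (h2 : S_GENX) (h3 : S_GALX) : S_BNDO := by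
  intro F _ p _ _ k K₀ K B _ _ _ _ hX hk hk₀ hkK S c c₀ n₁ hI χ hI3
  have hfd₀ : FiniteDimensional ℚ K₀ :=
    FiniteDimensional.of_injective (IntermediateField.inclusion hX.le).toLinearMap
      (IntermediateField.inclusion hX.le).injective
  obtain ⟨l, hl⟩ := h1 F p k K₀ K B hX hk hk₀ hkK S c c₀ n₁ hI χ hI3
  obtain ⟨a₀, a₁, ha⟩ := amb_layers h2 p k K₀ B hX.b0.hk hX.b0.deg hX.b0.lay hX.b0.mono
  refine ⟨l * (a₀ + a₁), fun n => ?_⟩
  let akK := algC hkK
  let akL := algC (hk₀ n)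
  obtain ⟨g, hg, hle⟩ := ha n (hk₀ n)
  have comm := (h3 p k K₀ B hX.b0 n (hk₀ n)).2
  obtain ⟨h5, h6⟩ := bnd_level p l F k ↥(K₀ ⊔ B n) (EigS F k K₀ B n (hk₀ n) hkK χ)
    (fun f hf => hf.1) (fun f hf => hf.2.1) g (by
      rintro f ⟨e1, e2, e3⟩
      refine ⟨fun x y => ?_, fun x hx => ?_, fun δ s hs x => ?_⟩
      · show f (dg g (x * y)) = f (dg g x) + f (dg g y)
        rw [map_mul, e1]
      · show f (dg g x) = 0
        apply e2
        obtain ⟨a, rfl⟩ := hx
        rw [dg_apply, smul_prin, ← map_div]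
        exact ⟨_, rfl⟩
      · show f (dg g ((δ : ↥(K₀ ⊔ B n) ≃ₐ[k] ↥(K₀ ⊔ B n)) • x)) = (χ s : F) * f (dg g x)
        rw [← e3 δ s hs (dg g x)]
        congr 1
        rw [dg_apply, dg_apply, smul_div', ← mul_smul, ← mul_smul, comm])
    (fun f hf b => hl n g hg f hf b)
  refine ⟨h5, h6.trans ((Nat.mul_le_mul_left l hle).trans ?_)⟩
  have h7 : a₀ + n * a₁ ≤ (a₀ + a₁) * (n + 1) := by nlinarith
  calc l * (a₀ + n * a₁) ≤ l * ((a₀ + a₁) * (n + 1)) := Nat.mul_le_mul_left l h7
    _ = l * (a₀ + a₁) * (n + 1) := by ring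

end Pool.Agent.OB
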