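import Pool.Agent.OB.F_CHI
import Pool.Agent.OB.K_BNDO
import Pool.Agent.MUX.KAllX

/-!
# OB, FINAL (helper60): the bound, the twists, the two branches
-/

set_option autoImplicit false

open NumberField IsDedekindDomain Finset
open scoped nonZeroDivisors Pointwise

namespace Pool.Agent.OBF

open _root_.Pool.Agent.RI _root_.Pool.Agent.RID _root_.Pool.Agent.MU3 _root_.Pool.Agent.MUXK
  _root_.Pool.Agent.MUXZ _root_.Pool.Agent.NSI _root_.Pool.Agent.OB

open CHIx

/-- From the nilpotency to the bound for the dimensions. -/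
theorem nil_bnd (F : Type) [Field F] (p : ℕ) [Fact p.Prime] [CharP F p]
    (k K : IntermediateField ℚ ℂ) (B : ℕ → IntermediateField ℚ ℂ)
    [FiniteDimensional ℚ K] [∀ n, FiniteDimensional ℚ ↥(K ⊔ B n)] (hB : BasX p k K B)
    (hk : ∀ n, k ≤ K ⊔ B n) (hkK : k ≤ K)
    (χ : letI := algC hkK; (↥K ≃ₐ[k] ↥K) →* Fˣ) (l : ℕ) (hl : NilC F k K B hk hkK χ l) :
    ∃ C : ℕ, ∀ n : ℕ, Module.Finite F (EigS F k K B n (hk n) hkK χ) ∧
      Module.finrank F (EigS F k K B n (hk n) hkK χ) ≤ C * (n + 1) := by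
  obtain ⟨a₀, a₁, ha⟩ := amb_layers k_GENX p k K B hB.hk hB.deg hB.lay hB.mono
  refine ⟨l * (a₀ + a₁), fun n => ?_⟩
  let akK := algC hkK
  let akL := algC (hk n)
  obtain ⟨g, hg, hle⟩ := ha n (hk n)
  have comm := (k_GALX p k K B hB n (hk n)).2
  obtain ⟨h5, h6⟩ := bnd_level p l F k ↥(K ⊔ B n) (EigS F k K B n (hk n) hkK χ)
    (fun f hf => hf.1) (fun f hf => hf.2.1) g (by
      rintro f ⟨e1, e2, e3⟩
      refine ⟨fun x y => ?_, fun x hx => ?_, fun δ s hs x => ?_⟩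
      · show f (dg g (x * y)) = f (dg g x) + f (dg g y)
        rw [map_mul, e1]
      · show f (dg g x) = 0
        apply e2
        obtain ⟨a, rfl⟩ := hx
        rw [dg_apply, smul_prin, ← map_div]
        exact ⟨_, rfl⟩
      · show f (dg g ((δ : ↥(K ⊔ B n) ≃ₐ[k] ↥(K ⊔ B n)) • x)) = (χ s : F) * f (dg g x)
        rw [← e3 δ s hs (dg g x)]
        congr 1
        rw [dg_apply, dg_apply, smul_div', ← mul_smul, ← mul_smul, comm])
    (fun f hf b => hl n g hg f hf b)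
  refine ⟨h5, h6.trans ((Nat.mul_le_mul_left l hle).trans ?_)⟩
  have h7 : a₀ + n * a₁ ≤ (a₀ + a₁) * (n + 1) := by nlinarith
  calc l * (a₀ + n * a₁) ≤ l * ((a₀ + a₁) * (n + 1)) := Nat.mul_le_mul_left l h7
    _ = l * (a₀ + a₁) * (n + 1) := by ring

/-- From the nilpotency to `MuZeroC`. -/
theorem nil_mu (p : ℕ) [Fact p.Prime] (k K : IntermediateField ℚ ℂ)
    (B : ℕ → IntermediateField ℚ ℂ) [FiniteDimensional ℚ K]
    [∀ n, FiniteDimensional ℚ ↥(K ⊔ B n)] (hB : BasX p k K B)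
    (hu : ∀ (n : ℕ) (Q : IntermediateField ℚ ℂ), RI.IsLayer p n Q → Q = B n)
    (hk : ∀ n, k ≤ K ⊔ B n) (h : k ≤ K) (χ : MuCyc.Chr p h) (l : ℕ)
    (hl : NilC (AlgebraicClosure (ZMod p)) k K B hk h (toC h χ) l) : MuCyc.MuZeroC p h χ := by
  obtain ⟨C, hC⟩ := nil_bnd (AlgebraicClosure (ZMod p)) p k K B hB hk h (toC h χ) l hl
  refine ⟨C, fun n Q hQ => ?_⟩
  obtain rfl : Q = B n := hu n Q hQ
  exact (chi_eig p k K h B n (hk n) χ (hC n).1).trans (hC n).2

/-- The even branch. -/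
theorem one_even (hLAY : Sf_LAY) (hBAX : Sq_BAX) (hNIL : O_NIL) (p : ℕ) [Fact p.Prime]
    (hp : 5 ≤ p) (k K : IntermediateField ℚ ℂ) [FiniteDimensional ℚ K] (h : k ≤ K)
    (hG : IsGalois k (IntermediateField.extendScalars h))
    (hc : ∀ σ τ : (IntermediateField.extendScalars h) ≃ₐ[k] (IntermediateField.extendScalars h),
      σ * τ = τ * σ)
    (h2 : Module.finrank ℚ k = 2) (hi : ∃ z ∈ k, (starRingEnd ℂ) z ≠ z)
    (h4 : ∀ z ∈ k, z ^ 2 ≠ -1) (h3 : ∀ z ∈ k, z ^ 2 ≠ -3)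
    (hd : ¬ p ∣ Module.finrank k (IntermediateField.extendScalars h))
    (hz : ∃ ζ ∈ K, IsPrimitiveRoot ζ p) (χ : MuCyc.Chr p h) :
    ∃ (j : ℕ) (χ' : MuCyc.Chr p h), j < p - 1 ∧ Even j ∧ MuCyc.IsTwist p h χ χ' j ∧
      MuCyc.MuZeroC p h χ' := by
  have hpp : p.Prime := Fact.out
  obtain ⟨B, hlay, hmono, hu⟩ := hLAY p (by omega)
  have hfk : FiniteDimensional ℚ k :=
    FiniteDimensional.of_injective (IntermediateField.inclusion h).toLinearMap
      (IntermediateField.inclusion h).injective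
  have hfB : ∀ n, FiniteDimensional ℚ (B n) := fun n =>
    Module.finite_of_finrank_pos (by rw [(hlay n).1]; exact pow_pos hpp.pos n)
  have hfL : ∀ n, FiniteDimensional ℚ ↥(K ⊔ B n) := fun n =>
    IntermediateField.finiteDimensional_sup K (B n)
  have hdeg : ¬ p ∣ Module.finrank ℚ K := by
    letI := algC h
    have e1 : Module.finrank ℚ k * Module.finrank k K = Module.finrank ℚ K := by
      have : IsScalarTower ℚ k K := IsScalarTower.of_algebraMap_eq fun _ => rfl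
      exact Module.finrank_mul_finrank ℚ k K
    rw [← e1, finrank_algC h, h2, hpp.dvd_mul, not_or]
    refine ⟨fun h0 => ?_, hd⟩
    have := Nat.le_of_dvd (by norm_num) h0
    omega
  have hB : BasX p k K B := hBAX p k K B h hG hc hdeg hlay hmono
  obtain ⟨j, χ', hj, hev, htw, l, hl⟩ := hNIL p hp k K B hB
    (fun n => h.trans le_sup_left) h h2 hi h4 h3 hd hz (toC h χ)
  refine ⟨j, ofC h χ', hj, hev, ?_, ?_⟩
  · intro s' c hs
    letI := algC h
    let s : ↥K ≃ₐ[k] ↥K := AlgEquiv.autCongr (extEquiv h) s'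
    have e1 : toC h χ s = χ s' := toC_apply h χ s s' (by
      intro x x' hx
      obtain rfl : x' = ⟨(x : ℂ), x.2⟩ := Subtype.ext hx
      rfl)
    have e2 := htw s c (by
      intro z hz'
      have h5 := hs ⟨(z : ℂ), z.2⟩ (by
        apply Subtype.ext
        exact congrArg Subtype.val hz')
      apply Subtype.ext
      exact congrArg Subtype.val h5)
    rw [e1] at e2
    exact e2
  · apply nil_mu p k K B hB hu (fun n => h.trans le_sup_left) h (ofC h χ') l
    rw [toC_ofC]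
    exact hl

end Pool.Agent.OBF
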