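import Pool.Agent.OB.StF

/-!
# OB, FINAL, module RIX (helper92): the index of the norm kernel
-/

set_option autoImplicit false

open NumberField IsDedekindDomain Finset
open scoped nonZeroDivisors Pointwise

namespace Pool.Agent.OBF

open _root_.Pool.Agent.RI

namespace RIXx

theorem padic_mono (p : ℕ) [Fact p.Prime] {a b : ℕ} (hb : b ≠ 0) (h : a ∣ b) :
    padicValNat p a ≤ padicValNat p b := by
  obtain ⟨c, rfl⟩ := h
  have ha : a ≠ 0 := by rintro rfl; simp at hb
  have hc : c ≠ 0 := by rintro rfl; simp at hb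
  rw [padicValNat.mul ha hc]
  omega

variable (L' L : Type) [Field L'] [NumberField L'] [Field L] [NumberField L] [Algebra L' L]

theorem PI_le [IsGalois L' L] : _root_.MU3.PI L ≤ RJ L' L := by
  rintro _ ⟨x, rfl⟩
  unfold RJ
  rw [Subgroup.mem_comap, CL.nm_prin, ext_prin]
  exact ⟨_, rfl⟩

/-- the norm on ideal classes -/
noncomputable def nC [IsGalois L' L] :
    (J L ⧸ _root_.MU3.PI L) →* (J L ⧸ _root_.MU3.PI L) :=
  QuotientGroup.map (_root_.MU3.PI L) (_root_.MU3.PI L) (CL.nm L' L) (PI_le L' L)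

/-- extension of ideal classes -/
noncomputable def eC : (J L' ⧸ _root_.MU3.PI L') →* (J L ⧸ _root_.MU3.PI L) :=
  QuotientGroup.map (_root_.MU3.PI L') (_root_.MU3.PI L) (ext L' L) (by
    rintro _ ⟨x, rfl⟩
    rw [Subgroup.mem_comap, ext_prin]
    exact ⟨_, rfl⟩)

theorem card_ker [IsGalois L' L] :
    Nat.card (nC L' L).ker = (_root_.MU3.PI L).relIndex (RJ L' L) := by
  have h1 : (nC L' L).ker = (RJ L' L).map (QuotientGroup.mk' (_root_.MU3.PI L)) :=
    QuotientGroup.ker_map _ _ _ _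
  rw [h1, ← Subgroup.relIndex_bot_left, ← Subgroup.map_bot (QuotientGroup.mk' (_root_.MU3.PI L)),
    Subgroup.relIndex_map_map, QuotientGroup.ker_mk', bot_sup_eq, sup_eq_left.2 (PI_le L' L)]

theorem range_le [IsGalois L' L] : (nC L' L).range ≤ (eC L' L).range := by
  rintro _ ⟨c, rfl⟩
  obtain ⟨b, rfl⟩ := QuotientGroup.mk_surjective c
  obtain ⟨b', hb'⟩ := CL.nm_mem (F := L') b
  refine ⟨QuotientGroup.mk b', ?_⟩
  show (QuotientGroup.mk (ext L' L b') : J L ⧸ _root_.MU3.PI L) = QuotientGroup.mk (CL.nm L' L b)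
  rw [hb']

end RIXx

open RIXx in
theorem tf_RIX : Sf_RIX := by
  intro p _ L' L _ _ _ _ _ _
  have hfin : Finite (J L ⧸ _root_.MU3.PI L) := CL.finite_quot L
  have h1 : Nat.card (nC L' L).ker * Nat.card (nC L' L).range =
      NumberField.classNumber L := by
    rw [← Subgroup.index_ker, Subgroup.card_mul_index, CL.classNumber_eq L]
  have hk : Nat.card (nC L' L).ker ≠ 0 := Nat.card_pos.ne'
  have hr : Nat.card (nC L' L).range ≠ 0 := Nat.card_pos.ne'
  rw [← h1, padicValNat.mul hk hr, card_ker]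
  refine Nat.add_le_add_left (padic_mono p ?_ ?_) _
  · rw [NumberField.classNumber]
    exact Fintype.card_ne_zero
  · rw [CL.classNumber_eq L']
    exact (Subgroup.card_dvd_of_le (range_le L' L)).trans (Subgroup.card_range_dvd (eC L' L))

end Pool.Agent.OBF
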