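import Pool.Agent.OB.StF
import Pool.Agent.MU3.N_STEP
import Pool.Agent.MUX.KAllX
import Pool.Agent.RI.EXTACT
import Pool.Agent.RID.P_GCC

/-!
# OB, FINAL, module RST: one step of the tower for the norm kernels
-/

set_option autoImplicit false

open NumberField IsDedekindDomain Finset
open scoped nonZeroDivisors Pointwise

namespace Pool.Agent.OBF

open _root_.Pool.Agent.RI _root_.Pool.Agent.RID _root_.Pool.Agent.MU3 _root_.Pool.Agent.MUXK
  _root_.Pool.Agent.MUXZ _root_.Pool.Agent.NSI _root_.Pool.Agent.OB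

namespace RSTx

open _root_.MU3 _root_.MU3.NQ _root_.MU3.NStep

/-! ### Classes of a subgroup -/

section cls

variable {L : Type} [Field L] [NumberField L]

/-- the classes of the elements of `X` -/
noncomputable def clS (X : Subgroup (J L)) : AddSubgroup (ClA L) where
  carrier := {x | ∃ b ∈ X, cl b = x}
  add_mem' := by
    rintro _ _ ⟨b, hb, rfl⟩ ⟨c, hc, rfl⟩
    exact ⟨b * c, mul_mem hb hc, cl_mul b c⟩
  zero_mem' := ⟨1, one_mem _, cl_one⟩
  neg_mem' := by
    rintro _ ⟨b, hb, rfl⟩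
    exact ⟨b⁻¹, inv_mem hb, cl_inv b⟩

lemma mem_clS {X : Subgroup (J L)} {x : ClA L} : x ∈ clS X ↔ ∃ b ∈ X, cl b = x := Iff.rfl

lemma card_clS (X : Subgroup (J L)) (hX : _root_.MU3.PI L ≤ X) :
    Nat.card (clS X) = (_root_.MU3.PI L).relIndex X := by
  have h1 : Nat.card ↥(X.map (QuotientGroup.mk' (_root_.MU3.PI L))) =
      (_root_.MU3.PI L).relIndex X := by
    rw [← Subgroup.relIndex_bot_left, ← Subgroup.map_bot (QuotientGroup.mk' (_root_.MU3.PI L)),
      Subgroup.relIndex_map_map, QuotientGroup.ker_mk', bot_sup_eq, sup_eq_left.2 hX]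
  rw [← h1]
  apply Nat.card_congr
  refine Equiv.subtypeEquiv Additive.toMul ?_
  intro a
  constructor
  · rintro ⟨b, hb, rfl⟩
    exact ⟨b, hb, rfl⟩
  · rintro ⟨b, hb, h⟩
    exact ⟨b, hb, h⟩

lemma card_torS (X : Subgroup (J L)) (p : ℕ) :
    Nat.card {x : clS X // p • x = 0} =
      Nat.card {c : J L ⧸ _root_.MU3.PI L // (∃ b ∈ X, (b : J L ⧸ _root_.MU3.PI L) = c) ∧
        c ^ p = 1} := by
  apply Nat.card_congr
  refine
    { toFun := fun x => ⟨Additive.toMul (x.1.1), ?_, ?_⟩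
      invFun := fun c => ⟨⟨Additive.ofMul c.1, ?_⟩, ?_⟩
      left_inv := fun x => rfl
      right_inv := fun c => rfl }
  · obtain ⟨b, hb, h⟩ := x.1.2
    exact ⟨b, hb, h⟩
  · exact congrArg Subtype.val x.2
  · obtain ⟨b, hb, h⟩ := c.2.1
    exact ⟨b, hb, h⟩
  · exact Subtype.ext c.2.2

end cls

section step

variable {k M L L' M' : Type} [Field k] [NumberField k] [Field M] [NumberField M] [Field L]
  [NumberField L] [Field L'] [NumberField L'] [Field M'] [NumberField M'] [Algebra k M]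
  [Algebra k L] [Algebra M L] [IsScalarTower k M L] [Algebra L' L] [Algebra M' M]

lemma PI_le_RJ (L' L : Type) [Field L'] [NumberField L'] [Field L] [NumberField L]
    [Algebra L' L] [IsGalois L' L] : _root_.MU3.PI L ≤ RJ L' L := by
  rintro _ ⟨x, rfl⟩
  show CL.nm L' L (prin x) ∈ _root_.MU3.PI L
  rw [CL.nm_prin, ext_prin]
  exact ⟨_, rfl⟩

/-- the operator on the classes -/
noncomputable def gS (g : L ≃ₐ[k] L) (X : Subgroup (J L)) (hX : ∀ b ∈ X, g • b ∈ X) :
    AddMonoid.End (clS X) where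
  toFun x := ⟨gA g x, by
    obtain ⟨b, hb, h⟩ := x.2
    exact ⟨g • b, hX b hb, by rw [← h, gA_cl]⟩⟩
  map_zero' := Subtype.ext (map_zero _)
  map_add' a b := Subtype.ext (map_add _ _ _)

lemma gS_pow (g : L ≃ₐ[k] L) (X : Subgroup (J L)) (hX : ∀ b ∈ X, g • b ∈ X) (n : ℕ)
    (x : clS X) : (((gS g X hX ^ n : AddMonoid.End (clS X)) x : clS X) : ClA L) =
      (gA g ^ n : AddMonoid.End (ClA L)) x := by
  induction n generalizing x with
  | zero => rfl
  | succ n ih =>
    have h1 : (gS g X hX ^ (n + 1) : AddMonoid.End (clS X)) x =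
        (gS g X hX ^ n : AddMonoid.End (clS X)) (gS g X hX x) := by rw [pow_succ]; rfl
    have h2 : (gA g ^ (n + 1) : AddMonoid.End (ClA L)) x =
        (gA g ^ n : AddMonoid.End (ClA L)) (gA g x) := by rw [pow_succ]; rfl
    rw [h1, ih, h2]
    rfl

lemma coe_sum {X : Subgroup (J L)} (s : Finset ℕ) (f : ℕ → clS X) :
    ((∑ j ∈ s, f j : clS X) : ClA L) = ∑ j ∈ s, (f j : ClA L) := by
  exact map_sum (clS X).subtype f s

/-- One step, abstract form. -/
theorem step (p m : ℕ) [Fact p.Prime] [IsGalois L' L] [IsGalois M' M] (g : L ≃ₐ[k] L)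
    (hg : g ^ (p ^ (m + 1)) = 1) (hcyc : CycExt k M L (g ^ (p ^ m)) p)
    (hc1 : ∀ (σ : L ≃ₐ[L'] L) (b : J L), g • σ • b = σ • g • b)
    (hc2 : ∀ (σ : L ≃ₐ[L'] L) (τ : L ≃ₐ[M] L) (b : J L), σ • τ • b = τ • σ • b)
    (hkey : ∀ c : J M, ext M L (CL.nm M' M c) = CL.nm L' L (ext M L c))
    (hlt : rR p L' L < p ^ m * (p - 1)) : vR p L' L ≤ vR p M' M + rR p L' L := by
  classical
  obtain ⟨hgal, -, -, -, -, -, hng, -, -, -, -⟩ := t_CYC k M L (g ^ (p ^ m)) p hcyc
  have hX : ∀ b ∈ RJ L' L, g • b ∈ RJ L' L := by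
    intro b hb
    have h1 : CL.nm L' L (g • b) = g • CL.nm L' L b := by
      rw [CL.nm_apply, CL.nm_apply, Finset.smul_prod']
      exact Finset.prod_congr rfl fun σ _ => (hc1 σ b).symm
    show CL.nm L' L (g • b) ∈ _root_.MU3.PI L
    rw [h1]
    obtain ⟨x, hx⟩ := hb
    rw [← hx]
    exact ⟨g • x, (smul_prin g x).symm⟩
  set X := RJ L' L with hXdef
  set γ : AddMonoid.End (clS X) := gS g X hX with hγdef
  have hγ : γ ^ (p ^ (m + 1)) = 1 := by
    apply AddMonoidHom.ext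
    intro x
    apply Subtype.ext
    have h0 := gS_pow g X hX (p ^ (m + 1)) x
    obtain ⟨b, hb, h⟩ := x.2
    have h1 := gA_pow_cl g (p ^ (m + 1)) b
    rw [hg, one_smul, h] at h1
    exact h0.trans h1
  have hr : padicValNat p (Nat.card {x : clS X // p • x = 0}) = rR p L' L := by
    rw [card_torS]
    rfl
  have h2 := t_ALG2 p m (clS X) γ hγ (by rw [hr]; exact hlt)
  rw [hr, card_clS X (PI_le_RJ L' L)] at h2
  set R := AddMonoidHom.range (∑ j ∈ range p, γ ^ (p ^ m * j) : AddMonoid.End (clS X)) with hR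
  have hle : R.map (clS X).subtype ≤ (clS (RJ M' M)).map (eA M L) := by
    rintro _ ⟨_, ⟨x, rfl⟩, rfl⟩
    obtain ⟨b, hb, h⟩ := x.2
    obtain ⟨c, hc⟩ := CL.nm_mem (F := M) b
    refine ⟨cl c, ⟨c, ?_, rfl⟩, ?_⟩
    · -- `c ∈ RJ M' M`
      have h3 : CL.nm L' L (CL.nm M L b) = CL.nm M L (CL.nm L' L b) := by
        rw [CL.nm_apply (F := M), CL.nm_apply (F := M), map_prod]
        refine Finset.prod_congr rfl fun τ _ => ?_
        rw [CL.nm_apply, CL.nm_apply, Finset.smul_prod']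
        exact Finset.prod_congr rfl fun σ _ => hc2 σ τ b
      obtain ⟨y, hy⟩ := hb
      have h4 : ext M L (CL.nm M' M c) =
          ext M L (prin (Units.map (Algebra.norm M : L →* M) y)) := by
        rw [hkey, hc, h3, ← hy, CL.nm_prin]
      have h5 := ext_injective M L h4
      show CL.nm M' M c ∈ _root_.MU3.PI M
      rw [h5]
      exact ⟨_, rfl⟩
    · -- the class
      have h3 : (∑ j ∈ range p, gA g ^ (p ^ m * j) : AddMonoid.End (ClA L)) (cl b) =
          cl (ng (g ^ (p ^ m)) p b) := by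
        rw [NStep.sum_apply, ng_apply, cl_prod]
        apply Finset.sum_congr rfl
        intro j _
        rw [gA_pow_cl, pow_mul]
      have h4 : eA M L (cl c) = cl (ng (g ^ (p ^ m)) p b) := by
        rw [hng b, eA_cl, hc]
        rfl
      have h5 : (((∑ j ∈ range p, γ ^ (p ^ m * j) : AddMonoid.End (clS X)) x : clS X) : ClA L) =
          (∑ j ∈ range p, gA g ^ (p ^ m * j) : AddMonoid.End (ClA L)) (x : ClA L) := by
        rw [NStep.sum_apply, NStep.sum_apply, coe_sum]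
        exact Finset.sum_congr rfl fun j _ => gS_pow g X hX _ x
      rw [h4, ← h3, h]
      exact h5.symm
  have hd1 : Nat.card R = Nat.card (R.map (clS X).subtype) :=
    Nat.card_congr (R.equivMapOfInjective (clS X).subtype Subtype.val_injective).toEquiv
  have hd2 : Nat.card R ∣ Nat.card (clS (RJ M' M)) := by
    rw [hd1]
    exact (AddSubgroup.card_dvd_of_le hle).trans (AddSubgroup.card_map_dvd _ _)
  have hne : Nat.card (clS (RJ M' M)) ≠ 0 := Nat.card_pos.ne'
  have h3 := padic_mono p hne hd2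
  rw [card_clS _ (PI_le_RJ M' M)] at h3
  exact h2.trans (Nat.add_le_add_right h3 _)

end step

section act

variable {k L' L : Type} [Field k] [Field L'] [Field L] [NumberField L] [Algebra k L']
  [Algebra k L] [Algebra L' L] [IsScalarTower k L' L]

lemma smul_res (σ : L ≃ₐ[L'] L) (b : J L) : σ.restrictScalars k • b = σ • b := by
  apply Units.ext
  ext x
  rw [RI.mem_smul, RI.mem_smul]
  rfl

lemma comm_act (hab : ∀ σ τ : L ≃ₐ[k] L, σ * τ = τ * σ) (g : L ≃ₐ[k] L) (σ : L ≃ₐ[L'] L)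
    (b : J L) : g • σ • b = σ • g • b := by
  rw [← smul_res (k := k) σ, ← smul_res (k := k) σ, ← mul_smul, ← mul_smul, hab]

end act

/-- the degrees -/
lemma deg_eq {p n : ℕ} (hp : p ≠ 0) {K' K D' D : IntermediateField ℚ ℂ}
    [FiniteDimensional ℚ K'] [FiniteDimensional ℚ D'] [FiniteDimensional ℚ D] (h : D' ≤ D)
    (h' : Module.finrank ℚ D' = Module.finrank ℚ K' * p ^ n)
    (h'' : Module.finrank ℚ D = Module.finrank ℚ K * p ^ n) :
    (letI := algC h; Module.finrank ℚ K' * Module.finrank D' D) = Module.finrank ℚ K := by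
  let _ := algC h
  have t : IsScalarTower ℚ D' D := IsScalarTower.of_algebraMap_eq fun _ => rfl
  have h1 : Module.finrank ℚ D' * Module.finrank D' D = Module.finrank ℚ D :=
    Module.finrank_mul_finrank _ _ _
  rw [h', h''] at h1
  have h2 : 0 < p ^ n := pow_pos (Nat.pos_of_ne_zero hp) n
  apply Nat.eq_of_mul_eq_mul_right h2
  rw [← h1]
  ring

end RSTx

open RSTx in
/-- Module RST. -/
theorem tf_RST : Sf_RST := by
  intro p m _ k K' K B _ _ _ _ hB hB' hB'' h1 h0
  have hp0 : p ≠ 0 := (Fact.out : p.Prime).ne_zero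
  have hk : k ≤ K := hB.hk
  have hk' : k ≤ K' := hB'.hk
  have hle : K ⊔ B m ≤ K ⊔ B (m + 1) := sup_le_sup_left (hB.mono (Nat.le_succ m)) K
  have hle' : K' ⊔ B m ≤ K' ⊔ B (m + 1) := sup_le_sup_left (hB.mono (Nat.le_succ m)) K'
  have hkM : k ≤ K ⊔ B m := hk.trans le_sup_left
  have hkL : k ≤ K ⊔ B (m + 1) := hk.trans le_sup_left
  have hkM' : k ≤ K' ⊔ B m := hk'.trans le_sup_left
  have hkL' : k ≤ K' ⊔ B (m + 1) := hk'.trans le_sup_left
  have : FiniteDimensional ℚ k :=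
    FiniteDimensional.of_injective (IntermediateField.inclusion hk).toLinearMap
      (IntermediateField.inclusion hk).injective
  let aL'L := algC h1
  let aM'M := algC h0
  let akM := algC hkM
  let akL := algC hkL
  let akM' := algC hkM'
  let akL' := algC hkL'
  let aML := algC hle
  have tkML : IsScalarTower k ↥(K ⊔ B m) ↥(K ⊔ B (m + 1)) := towerC hkM hle
  have tkL'L : IsScalarTower k ↥(K' ⊔ B (m + 1)) ↥(K ⊔ B (m + 1)) := towerC hkL' h1
  have tkM'M : IsScalarTower k ↥(K' ⊔ B m) ↥(K ⊔ B m) := towerC hkM' h0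
  obtain ⟨galL, abL⟩ := k_GALX p k K B hB (m + 1) hkL
  obtain ⟨galM, -⟩ := k_GALX p k K B hB m hkM
  have fdL : FiniteDimensional k ↥(K ⊔ B (m + 1)) :=
    Module.Finite.of_restrictScalars_finite ℚ k _
  have galLL : IsGalois ↥(K' ⊔ B (m + 1)) ↥(K ⊔ B (m + 1)) :=
    IsGalois.tower_top_of_isGalois k _ _
  have galMM : IsGalois ↥(K' ⊔ B m) ↥(K ⊔ B m) := IsGalois.tower_top_of_isGalois k _ _
  obtain ⟨g, ord, -, hm⟩ := k_GENX p k K B hk hB.deg hB.lay hB.mono (m + 1) hkL
  obtain ⟨ord', fix'⟩ := hm m (Nat.le_succ m)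
  have hcyc : CycExt k ↥(K ⊔ B m) ↥(K ⊔ B (m + 1)) (g ^ (p ^ m)) p := by
    refine ⟨by rw [ord']; simp, fun x => ?_⟩
    rw [fix' x]
    constructor
    · intro hx
      exact ⟨⟨(x : ℂ), hx⟩, rfl⟩
    · rintro ⟨y, rfl⟩
      exact y.2
  have hg1 : g ^ (p ^ (m + 1)) = 1 := by
    rw [← ord]
    exact pow_orderOf_eq_one g
  intro hlt
  refine RSTx.step p m g hg1 hcyc (fun σ b => RSTx.comm_act abL g σ b) (fun σ τ b => ?_) ?_ hlt
  · have h2 := RSTx.comm_act abL (τ.restrictScalars k) σ b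
    rw [RSTx.smul_res, RSTx.smul_res] at h2
    exact h2.symm
  · -- restriction
    have hres : ∀ (σ : ↥(K ⊔ B (m + 1)) ≃ₐ[k] ↥(K ⊔ B (m + 1))) (x : ↥(K ⊔ B m)),
        ((AlgEquiv.restrictNormalHom ↥(K ⊔ B m) σ x : ↥(K ⊔ B m)) : ℂ) =
          (σ ⟨x, hle x.2⟩ : ↥(K ⊔ B (m + 1))) := by
      intro σ x
      have h2 := AlgEquiv.restrictNormal_commutes σ ↥(K ⊔ B m) x
      exact congrArg Subtype.val h2
    let r : (↥(K ⊔ B (m + 1)) ≃ₐ[↥(K' ⊔ B (m + 1))] ↥(K ⊔ B (m + 1))) →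
        (↥(K ⊔ B m) ≃ₐ[↥(K' ⊔ B m)] ↥(K ⊔ B m)) := fun σ =>
      AlgEquiv.ofRingEquiv
        (f := (AlgEquiv.restrictNormalHom ↥(K ⊔ B m) (σ.restrictScalars k)).toRingEquiv)
        (fun y => by
          apply Subtype.ext
          refine (hres (σ.restrictScalars k) _).trans ?_
          have h2 := σ.commutes ⟨(y : ℂ), hle' y.2⟩
          exact congrArg Subtype.val h2)
    have hr : ∀ (σ : ↥(K ⊔ B (m + 1)) ≃ₐ[↥(K' ⊔ B (m + 1))] ↥(K ⊔ B (m + 1)))
        (x : ↥(K ⊔ B m)), algebraMap ↥(K ⊔ B m) ↥(K ⊔ B (m + 1)) (r σ x) =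
          σ (algebraMap ↥(K ⊔ B m) ↥(K ⊔ B (m + 1)) x) := by
      intro σ x
      exact Subtype.ext (hres (σ.restrictScalars k) x)
    have hinj : Function.Injective r := by
      intro σ τ hστ
      have h2 : (τ.restrictScalars k)⁻¹ * (σ.restrictScalars k) = 1 := by
        apply GCC.triv hkL
        · intro x hx
          have e1 : σ x = τ x := by
            have e2 := hr σ ⟨x, (le_sup_left : K ≤ K ⊔ B m) hx⟩
            have e3 := hr τ ⟨x, (le_sup_left : K ≤ K ⊔ B m) hx⟩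
            rw [hστ] at e2
            exact e2.symm.trans e3
          change τ.symm (σ x) = x
          rw [e1, AlgEquiv.symm_apply_apply]
        · intro x hx
          have hx' : (x : ℂ) ∈ K' ⊔ B (m + 1) := (le_sup_right : B (m + 1) ≤ _) hx
          have e1 : σ x = x := σ.commutes ⟨(x : ℂ), hx'⟩
          have e2 : τ x = x := τ.commutes ⟨(x : ℂ), hx'⟩
          change τ.symm (σ x) = x
          rw [e1]
          exact (AlgEquiv.symm_apply_eq τ).2 e2.symm
      apply AlgEquiv.ext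
      intro x
      have h3 : σ.restrictScalars k = τ.restrictScalars k := (inv_mul_eq_one.1 h2).symm
      exact congrArg (fun f : ↥(K ⊔ B (m + 1)) ≃ₐ[k] ↥(K ⊔ B (m + 1)) => f x) h3
    have hbij : Function.Bijective r := by
      refine hinj.bijective_of_nat_card_le ?_
      rw [IsGalois.card_aut_eq_finrank, IsGalois.card_aut_eq_finrank]
      have d1 := RSTx.deg_eq (K := K) hp0 h1 (hB'.deg (m + 1)) (hB.deg (m + 1))
      have d0 := RSTx.deg_eq (K := K) hp0 h0 (hB'.deg m) (hB.deg m)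
      exact (Nat.eq_of_mul_eq_mul_left Module.finrank_pos (d0.trans d1.symm)).le
    intro c
    rw [CL.nm_apply, CL.nm_apply, map_prod, ← hbij.prod_comp]
    exact Finset.prod_congr rfl fun σ _ => EXTACT_thm _ _ _ _ σ (r σ) (hr σ) c

end Pool.Agent.OBF
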