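import Pool.Agent.OB.F_SUB
import Pool.Agent.OB.F_ONE
import Pool.Agent.OB.F_RST
import Pool.Agent.OB.F_RIX

/-!
# OB, FINAL (helper60): relative class numbers
-/

set_option autoImplicit false

open NumberField IsDedekindDomain Finset
open scoped nonZeroDivisors Pointwise

namespace Pool.Agent.OBF

open _root_.Pool.Agent.RI _root_.Pool.Agent.RID _root_.Pool.Agent.MU3 _root_.Pool.Agent.MUXK
  _root_.Pool.Agent.MUXZ _root_.Pool.Agent.NSI _root_.Pool.Agent.OB

open CHIx OB.CNJ

/-- The dimension of `EigS` is at most that of `chiPart`. -/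
theorem eig_chi (p : ℕ) [Fact p.Prime] (k K : IntermediateField ℚ ℂ) (h : k ≤ K)
    (B : ℕ → IntermediateField ℚ ℂ) (n : ℕ) [FiniteDimensional ℚ ↥(K ⊔ B n)]
    (hk : k ≤ K ⊔ B n) (χ : MuCyc.Chr p h) :
    Module.Finite (AlgebraicClosure (ZMod p))
      (EigS (AlgebraicClosure (ZMod p)) k K B n hk h (toC h χ)) ∧
    Module.finrank (AlgebraicClosure (ZMod p))
        (EigS (AlgebraicClosure (ZMod p)) k K B n hk h (toC h χ)) ≤
      Module.finrank (AlgebraicClosure (ZMod p)) (MuCyc.chiPart p h χ (B n)) := by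
  let _ := algC h
  let _ := algC hk
  let φ : (ClassGroup (𝓞 ↥(K ⊔ B n)) → AlgebraicClosure (ZMod p)) →ₗ[AlgebraicClosure (ZMod p)]
      (J ↥(K ⊔ B n) → AlgebraicClosure (ZMod p)) :=
    LinearMap.funLeft _ _ (fun x => ClassGroup.mk ↥(K ⊔ B n) x)
  have hmap : EigS (AlgebraicClosure (ZMod p)) k K B n hk h (toC h χ) ≤
      (MuCyc.chiPart p h χ (B n)).map φ := by
    rintro f ⟨h1, h2, h3⟩
    have hsurj : ∀ c : ClassGroup (𝓞 ↥(K ⊔ B n)), ∃ x : J ↥(K ⊔ B n),
        ClassGroup.mk ↥(K ⊔ B n) x = c := fun c =>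
      ClassGroup.induction (R := 𝓞 ↥(K ⊔ B n)) ↥(K ⊔ B n)
        (P := fun c => ∃ x : J ↥(K ⊔ B n), ClassGroup.mk ↥(K ⊔ B n) x = c) (fun I => ⟨I, rfl⟩) c
    choose o ho using hsurj
    have hwd : ∀ x y : J ↥(K ⊔ B n), ClassGroup.mk ↥(K ⊔ B n) x = ClassGroup.mk ↥(K ⊔ B n) y →
        f x = f y := by
      intro x y hxy
      have h4 : ClassGroup.mk ↥(K ⊔ B n) (x * y⁻¹) = 1 := by
        rw [map_mul, map_inv, hxy, mul_inv_cancel]
      have h5 : x * y⁻¹ ∈ (prin : (↥(K ⊔ B n))ˣ →* J ↥(K ⊔ B n)).range := by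
        rw [ClassGroup.mk_eq_one_iff] at h4
        obtain ⟨a, ha⟩ := h4.principal
        have ha0 : a ≠ 0 := by
          rintro rfl
          have h6 : ((x * y⁻¹ : J ↥(K ⊔ B n)) : FractionalIdeal (𝓞 ↥(K ⊔ B n))⁰ ↥(K ⊔ B n)) = 0 := by
            apply FractionalIdeal.coeToSubmodule_injective
            beta_reduce
            rw [ha, Submodule.span_zero_singleton, FractionalIdeal.coe_zero]
          exact (x * y⁻¹).ne_zero h6
        refine ⟨Units.mk0 a ha0, ?_⟩
        apply Units.ext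
        rw [coe_toPrincipalIdeal]
        apply FractionalIdeal.coeToSubmodule_injective
        beta_reduce
        rw [ FractionalIdeal.coe_spanSingleton, ha]
        rfl
      have h6 := h2 _ h5
      have h7 : f (x * y⁻¹ * y) = f (x * y⁻¹) + f y := h1 _ _
      rw [inv_mul_cancel_right, h6, zero_add] at h7
      exact h7
    refine ⟨fun c => f (o c), ⟨fun a b => ?_, fun τ s hτ hs a => ?_⟩, ?_⟩
    · show f (o (a * b)) = f (o a) + f (o b)
      rw [← h1]
      apply hwd
      rw [map_mul, ho, ho, ho]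
    · show f (o (ClassGroup.mulEquiv (RingOfIntegers.mapRingEquiv τ) a)) =
        (χ s : AlgebraicClosure (ZMod p)) * f (o a)
      have e0 : ClassGroup.mulEquiv (RingOfIntegers.mapRingEquiv τ) a =
          ClassGroup.mk ↥(K ⊔ B n) (actU τ (o a)) := by
        rw [← mulEquiv_mk, ho]
      let τ' : ↥(K ⊔ B n) ≃ₐ[k] ↥(K ⊔ B n) := AlgEquiv.ofRingEquiv (f := τ) (by
        intro x
        apply Subtype.ext
        have h4 := hs (algebraMap k ↥(K ⊔ B n) x)
          (algebraMap k (IntermediateField.extendScalars h) x) rfl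
        rw [h4, s.commutes]
        rfl)
      let δ : NC hk (B n) := ⟨τ', fun x hx => hτ x hx⟩
      let s₁ : ↥K ≃ₐ[k] ↥K := AlgEquiv.autCongr (extEquiv h) s
      have e1 : toC h χ s₁ = χ s := toC_apply h χ s₁ s (by
        intro x x' hx
        obtain rfl : x' = ⟨(x : ℂ), x.2⟩ := Subtype.ext hx
        rfl)
      have e2 := h3 δ s₁ (by
        intro x x' hx
        exact hs x' ⟨(x : ℂ), x.2⟩ hx) (o a)
      rw [e1] at e2
      rw [← e2]
      apply hwd
      rw [ho, e0]
      rfl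
    · funext x
      exact hwd _ _ (ho _)
  have hfin : Finite (ClassGroup (𝓞 ↥(K ⊔ B n))) := inferInstance
  have hf1 : Module.Finite (AlgebraicClosure (ZMod p)) ((MuCyc.chiPart p h χ (B n)).map φ) :=
    Module.Finite.map _ _
  constructor
  · exact Submodule.finiteDimensional_of_le hmap
  · exact (Submodule.finrank_mono hmap).trans (Submodule.finrank_map_le φ _)

/-- Relative class numbers: all `χ` which are not trivial on `Gal(K/K')` are good. -/
theorem rel_bound (hLAY : Sf_LAY) (hBAX : Sq_BAX) (hRRK : Sf_RRK) (p : ℕ) [Fact p.Prime]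
    (hp2 : p ≠ 2) (k K' K : IntermediateField ℚ ℂ) [FiniteDimensional ℚ K] (h1 : k ≤ K')
    (h2 : K' ≤ K) (h : k ≤ K) (hG : IsGalois k (IntermediateField.extendScalars h))
    (hc : ∀ σ τ : (IntermediateField.extendScalars h) ≃ₐ[k] (IntermediateField.extendScalars h),
      σ * τ = τ * σ) (hd : ¬ p ∣ Module.finrank ℚ K)
    (hχ : ∀ χ : MuCyc.Chr p h, (∃ s : MuCyc.Gal h,
      (∀ x : IntermediateField.extendScalars h, (x : ℂ) ∈ K' → s x = x) ∧ χ s ≠ 1) →
      MuCyc.MuZeroC p h χ) :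
    ∃ C : ℕ, ∀ (n : ℕ) (Q : IntermediateField ℚ ℂ), MuCyc.IsLayer p n Q →
      padicValNat p (MuCyc.classNo (K ⊔ Q)) ≤
        padicValNat p (MuCyc.classNo (K' ⊔ Q)) + C * (n + 1) ^ 2 := by
  have hpp : p.Prime := Fact.out
  obtain ⟨B, hlay, hmono, hu⟩ := hLAY p hp2
  have hfK' : FiniteDimensional ℚ K' :=
    FiniteDimensional.of_injective (IntermediateField.inclusion h2).toLinearMap
      (IntermediateField.inclusion h2).injective
  have hfB : ∀ n, FiniteDimensional ℚ (B n) := fun n =>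
    Module.finite_of_finrank_pos (by rw [(hlay n).1]; exact pow_pos hpp.pos n)
  have hfL : ∀ n, FiniteDimensional ℚ ↥(K ⊔ B n) := fun n =>
    IntermediateField.finiteDimensional_sup K (B n)
  have hfL' : ∀ n, FiniteDimensional ℚ ↥(K' ⊔ B n) := fun n =>
    IntermediateField.finiteDimensional_sup K' (B n)
  have hmul : ∀ {E F : IntermediateField ℚ ℂ} (hEF : E ≤ F) [FiniteDimensional ℚ F],
      Module.finrank ℚ E * Module.finrank E (IntermediateField.extendScalars hEF) =
        Module.finrank ℚ F := by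
    intro E F hEF _
    let _ := algC hEF
    have : FiniteDimensional ℚ E :=
      FiniteDimensional.of_injective (IntermediateField.inclusion hEF).toLinearMap
        (IntermediateField.inclusion hEF).injective
    have : IsScalarTower ℚ E F := IsScalarTower.of_algebraMap_eq fun _ => rfl
    rw [← finrank_algC hEF]
    exact Module.finrank_mul_finrank ℚ E F
  have hd' : ¬ p ∣ Module.finrank ℚ K' := fun h0 => hd ((hmul h2) ▸ h0.mul_right _)
  have hdk : ¬ p ∣ Module.finrank k (IntermediateField.extendScalars h) :=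
    fun h0 => hd ((hmul h) ▸ h0.mul_left _)
  obtain ⟨hG', hc'⟩ := sub_ab h1 h2 h hG hc
  obtain ⟨hG'', hc''⟩ := top_ab h1 h2 h hG hc
  have hB : BasX p k K B := hBAX p k K B h hG hc hd hlay hmono
  have hB' : BasX p k K' B := hBAX p k K' B h1 hG' hc' hd' hlay hmono
  have hB'' : BasX p K' K B := hBAX p K' K B h2 hG'' hc'' hd hlay hmono
  -- one constant for all characters
  have hex : ∀ χ : MuCyc.Chr p h, ∃ C : ℕ, (∃ s : MuCyc.Gal h,
      (∀ x : IntermediateField.extendScalars h, (x : ℂ) ∈ K' → s x = x) ∧ χ s ≠ 1) →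
      ∀ n : ℕ, Module.finrank (AlgebraicClosure (ZMod p)) (MuCyc.chiPart p h χ (B n)) ≤
        C * (n + 1) := by
    intro χ
    by_cases h0 : ∃ s : MuCyc.Gal h,
      (∀ x : IntermediateField.extendScalars h, (x : ℂ) ∈ K' → s x = x) ∧ χ s ≠ 1
    · obtain ⟨C, hC⟩ := hχ χ h0
      exact ⟨C, fun _ n => hC n (B n) (hlay n)⟩
    · exact ⟨0, fun h5 => absurd h5 h0⟩
  choose Cf hCf using hex
  have hfC : Finite (MuCyc.Chr p h) := by
    have fdk : FiniteDimensional k (IntermediateField.extendScalars h) := by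
      have h1 : FiniteDimensional ℚ (IntermediateField.extendScalars h) :=
        inferInstanceAs (FiniteDimensional ℚ K)
      exact Module.Finite.of_restrictScalars_finite ℚ k _
    have : Finite (MuCyc.Gal h) := inferInstance
    infer_instance
  have := Fintype.ofFinite (MuCyc.Chr p h)
  set C₀ : ℕ := ∑ χ : MuCyc.Chr p h, Cf χ with hC₀
  have hle : ∀ χ : MuCyc.Chr p h, Cf χ ≤ C₀ := fun χ =>
    Finset.single_le_sum (f := fun χ => Cf χ) (fun _ _ => Nat.zero_le _) (Finset.mem_univ χ)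
  have hLn : ∀ n, K' ⊔ B n ≤ K ⊔ B n := fun n => sup_le_sup_right h2 _
  let v : ℕ → ℕ := fun n =>
    letI := algC (hLn n)
    vR p ↥(K' ⊔ B n) ↥(K ⊔ B n)
  let r : ℕ → ℕ := fun n =>
    letI := algC (hLn n)
    rR p ↥(K' ⊔ B n) ↥(K ⊔ B n)
  have hr : ∀ n, r n ≤ (Module.finrank k (IntermediateField.extendScalars h) * C₀) *
      (1 + n * 1) := by
    intro n
    have h5 := hRRK p n (AlgebraicClosure (ZMod p)) k K' K B hB hB' hB'' (hLn n)
      (h.trans le_sup_left) h hdk (C₀ * (n + 1)) (by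
        intro χ hs
        obtain ⟨e1, e2⟩ := eig_chi p k K h B n (h.trans le_sup_left) (ofC h χ)
        rw [toC_ofC] at e1 e2
        refine ⟨e1, e2.trans ?_⟩
        have h6 := hCf (ofC h χ) (by
          obtain ⟨s, hs1, hs2⟩ := hs
          let _ := algC h
          refine ⟨(AlgEquiv.autCongr (extEquiv h)).symm s, ?_, ?_⟩
          · intro x hx
            apply Subtype.ext
            exact congrArg Subtype.val (hs1 ⟨(x : ℂ), x.2⟩ hx)
          · intro h7
            apply hs2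
            have h8 : toC h (ofC h χ) s = χ s := by rw [toC_ofC]
            rw [← h8]
            exact h7) n
        exact h6.trans (Nat.mul_le_mul_right _ (hle _)))
    show r n ≤ _
    refine h5.trans (le_of_eq ?_)
    ring
  have hstep : ∀ m, r (m + 1) < p ^ m * (p - 1) → v (m + 1) ≤ v m + r (m + 1) := by
    intro m hm
    exact tf_RST p m k K' K B hB hB' hB'' (hLn (m + 1)) (hLn m) hm
  obtain ⟨C, hC⟩ := _root_.MU3.n_NUM p
    (Module.finrank k (IntermediateField.extendScalars h) * C₀) 1 1 v r hr hstep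
  refine ⟨C, fun n Q hQ => ?_⟩
  obtain rfl : Q = B n := hu n Q hQ
  let aL := algC (hLn n)
  have hGn : IsGalois ↥(K' ⊔ B n) ↥(K ⊔ B n) := by
    have h5 := (k_GALX p K' K B hB'' n (h2.trans le_sup_left)).1
    let _ := algC (h2.trans le_sup_left : K' ≤ K ⊔ B n)
    let _ := algC (le_sup_left : K' ≤ K' ⊔ B n)
    have : IsScalarTower K' ↥(K' ⊔ B n) ↥(K ⊔ B n) := towerC le_sup_left (hLn n)
    exact IsGalois.tower_top_of_isGalois K' ↥(K' ⊔ B n) ↥(K ⊔ B n)
  have h6 := tf_RIX p ↥(K' ⊔ B n) ↥(K ⊔ B n)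
  have e1 : MuCyc.classNo (K ⊔ B n) = NumberField.classNumber ↥(K ⊔ B n) :=
    Finx.classNo_eq (K ⊔ B n)
  have e2 : MuCyc.classNo (K' ⊔ B n) = NumberField.classNumber ↥(K' ⊔ B n) :=
    Finx.classNo_eq (K' ⊔ B n)
  rw [e1, e2]
  have h7 : vR p ↥(K' ⊔ B n) ↥(K ⊔ B n) ≤ C * (n + 1) ^ 2 := hC n
  omega

end Pool.Agent.OBF
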