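import Pool.Agent.OB.StF2
import Pool.Agent.OB.F_FRB
import Pool.Agent.OB.F_REL

/-!
# OB, FINAL (helper60): the criterion for `p = 5`; inflation
-/

set_option autoImplicit false

open NumberField IsDedekindDomain Finset
open scoped nonZeroDivisors Pointwise

namespace Pool.Agent.OBF

open _root_.Pool.Agent.RI _root_.Pool.Agent.RID _root_.Pool.Agent.MU3 _root_.Pool.Agent.MUXK
  _root_.Pool.Agent.MUXZ _root_.Pool.Agent.NSI _root_.Pool.Agent.OB

open CHIx

/-- Iterated powers. -/
theorem frob_iter (p : ℕ) [Fact p.Prime] {k K : IntermediateField ℚ ℂ} [FiniteDimensional ℚ K]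
    (h : k ≤ K) (χ : MuCyc.Chr p h) (hm : MuCyc.MuZeroC p h χ) (a : ℕ) :
    MuCyc.MuZeroC p h (χ ^ p ^ a) := by
  induction a with
  | zero =>
    have : χ ^ p ^ 0 = χ := by
      rw [Nat.pow_zero]
      exact pow_one χ
    rw [this]
    exact hm
  | succ a ih =>
    have : χ ^ p ^ (a + 1) = (χ ^ p ^ a) ^ p := by
      rw [Nat.pow_succ]
      exact pow_mul χ (p ^ a) p
    rw [this]
    exact frob_mu p h _ ih

theorem tf_P5 (hLAY : Sf_LAY) (hBAX : Sq_BAX) (hNIL : O_NIL) : Sf_P5 := by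
  intro p _ hp5 k K h hb hz χ χ₁ h1 hR j χ' hj
  have := hb.fin
  obtain ⟨ω, hω, hω1, hω4⟩ := exists_omega p h hz
  rw [hω] at h1 hj
  subst hj
  have hω4' : ∀ s : MuCyc.Gal h, (ω s) ^ 4 = 1 := by
    intro s
    have h6 : (ω s) ^ (p - 1) = 1 := congrArg (fun f : MuCyc.Chr p h => f s) hω4
    have h7 : p - 1 = 4 := by omega
    rwa [h7] at h6
  have hωp : ∀ (s : MuCyc.Gal h) (a : ℕ), (ω s) ^ p ^ a = ω s := by
    intro s a
    induction a with
    | zero => rw [Nat.pow_zero, pow_one]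
    | succ a ih =>
      rw [Nat.pow_succ, pow_mul, ih]
      have h7 : p = 4 + 1 := by omega
      have h8 : (ω s) ^ p = (ω s) ^ (4 + 1) := congrArg (fun n => (ω s) ^ n) h7
      rw [h8, pow_succ, hω4', one_mul]
  -- the values of `χ₁`
  have hv : ∀ s : MuCyc.Gal h, χ₁ s = χ s * (ω s) ^ 2 := fun s =>
    congrArg (fun f : MuCyc.Chr p h => f s) h1
  have hper : ∀ i : ℕ, χ * ω ^ (i + 4) = χ * ω ^ i := by
    intro i
    apply MonoidHom.ext
    intro s
    show χ s * (ω s) ^ (i + 4) = χ s * (ω s) ^ i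
    rw [pow_add, hω4', mul_one]
  have hstep : ∀ i : ℕ, MuCyc.MuZeroC p h (χ * ω ^ i) → MuCyc.MuZeroC p h (χ * ω ^ (i + 2)) := by
    intro i hi
    obtain ⟨a, hR⟩ := hR
    rcases hR with hR | ⟨hK, χ₂, hc2, hR⟩
    · have h5 := frob_iter p h _ hi a
      have h6 : (χ * ω ^ i) ^ p ^ a = χ * ω ^ (i + 2) := by
        apply MonoidHom.ext
        intro s
        show (χ s * (ω s) ^ i) ^ p ^ a = χ s * (ω s) ^ (i + 2)
        have h7 : (χ s) ^ p ^ a = χ s * (ω s) ^ 2 := by
          rw [← hv, hR]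
          rfl
        rw [mul_pow, h7, ← pow_mul, mul_comm i, pow_mul, hωp, pow_add, mul_assoc,
          mul_comm ((ω s) ^ 2)]
      rwa [h6] at h5
    · -- `ω (s') = ω (s)` for conjugate `s`, `s'`
      have hωc : ∀ s s' : MuCyc.Gal h, (∀ x y : IntermediateField.extendScalars h,
          (y : ℂ) = (starRingEnd ℂ) x → ((s y : IntermediateField.extendScalars h) : ℂ) =
            (starRingEnd ℂ) (s' x : IntermediateField.extendScalars h)) → ω s' = ω s := by
        intro s s' hss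
        obtain ⟨c, hc1, hc2⟩ := hω1 s
        have h5 : MuCyc.IsTwist p h 1 ω 1 := (hω 1 ω 1).2 (by
          apply MonoidHom.ext
          intro s
          show ω s = 1 * (ω s) ^ 1
          rw [one_mul, pow_one])
        apply Units.ext
        rw [hc2]
        have h6 := h5 s' c (by
          intro z hz
          have hy : (starRingEnd ℂ) (z : ℂ) ∈ IntermediateField.extendScalars h := hK _ z.2
          have h7 := hss z ⟨_, hy⟩ rfl
          have h8 : (⟨_, hy⟩ : IntermediateField.extendScalars h) ^ p = 1 := by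
            apply Subtype.ext
            show ((starRingEnd ℂ) (z : ℂ)) ^ p = 1
            rw [← map_pow]
            have h9 : (z : ℂ) ^ p = 1 := congrArg Subtype.val hz
            rw [h9, map_one]
          rw [hc1 _ h8] at h7
          apply Subtype.ext
          have h9 : ((starRingEnd ℂ) (z : ℂ)) ^ c = (starRingEnd ℂ) ((s' z : _) : ℂ) := h7
          rw [← map_pow] at h9
          exact ((starRingEnd ℂ).injective h9).symm)
        rw [h6]
        simp
      have hcj : MuCyc.IsConj p h (χ * ω ^ i) (χ₂ * ω ^ i) := by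
        intro s s' hss
        show χ₂ s' * (ω s') ^ i = χ s * (ω s) ^ i
        rw [hc2 s s' hss, hωc s s' hss]
      have h5 := frob_iter p h _ (conj_mu p h hb.k2 hK _ _ hcj hi) a
      have h6 : (χ₂ * ω ^ i) ^ p ^ a = χ * ω ^ (i + 2) := by
        apply MonoidHom.ext
        intro s
        show (χ₂ s * (ω s) ^ i) ^ p ^ a = χ s * (ω s) ^ (i + 2)
        have h7 : (χ₂ s) ^ p ^ a = χ s * (ω s) ^ 2 := by
          rw [← hv, hR]
          rfl
        rw [mul_pow, h7, ← pow_mul, mul_comm i, pow_mul, hωp, pow_add, mul_assoc,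
          mul_comm ((ω s) ^ 2)]
      rwa [h6] at h5
  have hstep' : ∀ i : ℕ, MuCyc.MuZeroC p h (χ * ω ^ (i + 2)) →
      MuCyc.MuZeroC p h (χ * ω ^ i) := by
    intro i hi'
    have := hstep (i + 2) hi'
    rwa [show i + 2 + 2 = i + 4 from rfl, hper] at this
  obtain ⟨e, χ₂, he, hev, htw, hmu⟩ := one_even hLAY hBAX hNIL p (by omega) k K h hb.gal hb.ab
    hb.k2 hb.im hb.n4 hb.n3 hb.cop hz (χ * ω ^ j)
  rw [hω] at htw
  subst htw
  have e1 : χ * ω ^ j * ω ^ e = χ * ω ^ (j + e) := by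
    apply MonoidHom.ext
    intro s
    show χ s * (ω s) ^ j * (ω s) ^ e = χ s * (ω s) ^ (j + e)
    rw [pow_add, mul_assoc]
  rw [e1] at hmu
  have : e = 0 ∨ e = 2 := by
    obtain ⟨a, ha⟩ := hev
    omega
  rcases this with rfl | rfl
  · exact hmu
  · exact hstep' j hmu

theorem tf_REL (hLAY : Sf_LAY) (hBAX : Sq_BAX) (hRRK : Sf_RRK) : Sf_REL := by
  intro p _ hp2 k K' K h1 h2 h hf hG hc hd hχ
  exact rel_bound hLAY hBAX hRRK p hp2 k K' K h1 h2 h hG hc hd hχ

theorem tf_IFM (hLAY : Sf_LAY) (hBAX : Sq_BAX) (hINF : Sf_INF) : Sf_IFM := by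
  intro p _ hp2 k L K hL hK hLK hf hG hc hd χ χ' hχ hm
  have hpp : p.Prime := Fact.out
  obtain ⟨B, hlay, hmono, hu⟩ := hLAY p hp2
  have hfL : FiniteDimensional ℚ L :=
    FiniteDimensional.of_injective (IntermediateField.inclusion hLK).toLinearMap
      (IntermediateField.inclusion hLK).injective
  have hfB : ∀ n, FiniteDimensional ℚ (B n) := fun n =>
    Module.finite_of_finrank_pos (by rw [(hlay n).1]; exact pow_pos hpp.pos n)
  have hfKn : ∀ n, FiniteDimensional ℚ ↥(K ⊔ B n) := fun n =>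
    IntermediateField.finiteDimensional_sup K (B n)
  have hfLn : ∀ n, FiniteDimensional ℚ ↥(L ⊔ B n) := fun n =>
    IntermediateField.finiteDimensional_sup L (B n)
  have hd' : ¬ p ∣ Module.finrank ℚ L := by
    intro h0
    apply hd
    let _ := algC hLK
    have : IsScalarTower ℚ L K := IsScalarTower.of_algebraMap_eq fun _ => rfl
    have e1 : Module.finrank ℚ L * Module.finrank L K = Module.finrank ℚ K :=
      Module.finrank_mul_finrank ℚ L K
    rw [← e1]
    exact h0.mul_right _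
  obtain ⟨hG', hc'⟩ := sub_ab hL hLK hK hG hc
  have hB : BasX p k K B := hBAX p k K B hK hG hc hd hlay hmono
  have hB' : BasX p k L B := hBAX p k L B hL hG' hc' hd' hlay hmono
  obtain ⟨C, hC⟩ := hm
  refine ⟨C, fun n Q hQ => ?_⟩
  obtain rfl : Q = B n := hu n Q hQ
  obtain ⟨e1, e2⟩ := eig_chi p k K hK B n (hK.trans le_sup_left) χ'
  obtain ⟨e3, e4⟩ := hINF p n (AlgebraicClosure (ZMod p)) k L K B hB hB' hLK
    (hK.trans le_sup_left) (hL.trans le_sup_left) hK hL hd (toC hL χ) (toC hK χ') (by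
      let _ := algC hL
      let _ := algC hK
      intro s s' hs
      have h1 : toC hL χ s = χ ((AlgEquiv.autCongr (extEquiv hL)).symm s) := rfl
      have h2 : toC hK χ' s' = χ' ((AlgEquiv.autCongr (extEquiv hK)).symm s') := rfl
      rw [h1, h2]
      apply hχ
      intro x x' hx
      exact hs ⟨(x : ℂ), x.2⟩ ⟨(x' : ℂ), x'.2⟩ hx) e1
  exact ((chi_eig p k L hL B n (hL.trans le_sup_left) χ e3).trans e4).trans
    (e2.trans (hC n (B n) (hlay n)))

end Pool.Agent.OBF
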