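import Pool.Agent.OB.StF
import Pool.Agent.MUX.K_EIGX

/-!
# OB, FINAL: the rank of the kernel of a norm element and eigenspaces (RAG)
-/

set_option autoImplicit false

open Finset

namespace Pool.Agent.OBF

namespace RAGx

/-- additive functions -/
def AddF (F : Type) [Field F] (B : Type) [AddCommGroup B] : Submodule F (B → F) where
  carrier := {f | ∀ x y, f (x + y) = f x + f y}
  add_mem' := by
    intro f g h1 h2 x y
    show f (x + y) + g (x + y) = (f x + g x) + (f y + g y)
    rw [h1, h2]; ring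
  zero_mem' := by
    intro x y
    show (0 : F) = 0 + 0
    rw [add_zero]
  smul_mem' := by
    intro c f h1 x y
    show c * f (x + y) = c * f x + c * f y
    rw [h1]; ring

theorem hom_ge_vec (p : ℕ) [hp : Fact p.Prime] (F : Type) [Field F] [CharP F p] (B : Type)
    [AddCommGroup B] [Module (ZMod p) B] [Finite B] :
    padicValNat p (Nat.card B) ≤ Module.finrank F (AddF F B) := by
  classical
  have hfin : Module.Finite (ZMod p) B := Module.Finite.of_finite
  set r := Module.finrank (ZMod p) B with hr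
  have hcard : p ^ r = Nat.card B := by
    have h2 := Module.natCard_eq_pow_finrank (K := ZMod p) (V := B)
    rw [Nat.card_zmod] at h2
    exact h2.symm
  have hle : padicValNat p (Nat.card B) = r := by
    rw [← hcard, padicValNat.prime_pow]
  rw [hle]
  let b := Module.finBasis (ZMod p) B
  let ψ : ZMod p →+* F := ZMod.castHom (dvd_refl p) F
  let Φ : (Fin r → F) →ₗ[F] AddF F B :=
    { toFun := fun c => ⟨fun x => ∑ i, c i * ψ (b.repr x i), by
        intro x y
        simp only [map_add, Finsupp.coe_add, Pi.add_apply, mul_add, sum_add_distrib]⟩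
      map_add' := fun c c' => by
        apply Subtype.ext
        funext x
        show ∑ i, (c i + c' i) * ψ (b.repr x i) =
          ∑ i, c i * ψ (b.repr x i) + ∑ i, c' i * ψ (b.repr x i)
        rw [← sum_add_distrib]
        exact sum_congr rfl fun i _ => by ring
      map_smul' := fun a c => by
        apply Subtype.ext
        funext x
        show ∑ i, (a * c i) * ψ (b.repr x i) = a * ∑ i, c i * ψ (b.repr x i)
        rw [mul_sum]
        exact sum_congr rfl fun i _ => by ring }
  have hΦ : Function.Injective Φ := by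
    rw [← LinearMap.ker_eq_bot, LinearMap.ker_eq_bot']
    intro c hc
    funext j
    have h1 : (Φ c).1 (b j) = 0 := by rw [hc]; rfl
    have h2 : (Φ c).1 (b j) = ∑ i, c i * ψ (b.repr (b j) i) := rfl
    rw [h2, Finset.sum_eq_single j] at h1
    · rw [b.repr_self, Finsupp.single_eq_same, map_one, mul_one] at h1
      exact h1
    · intro i _ hij
      rw [b.repr_self, Finsupp.single_eq_of_ne hij, map_zero, mul_zero]
    · intro h
      exact absurd (mem_univ _) h
  have h9 := LinearMap.finrank_le_finrank_of_injective hΦ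
  rwa [Module.finrank_fin_fun] at h9

theorem hom_ge (p : ℕ) [hp : Fact p.Prime] (F : Type) [Field F] [CharP F p] (B : Type)
    [AddCommGroup B] [Finite B] (hB : ∀ x : B, p • x = 0) :
    padicValNat p (Nat.card B) ≤ Module.finrank F (AddF F B) :=
  letI : Module (ZMod p) B := AddCommGroup.zmodModule hB
  hom_ge_vec p F B

/-- the kernel and the cokernel of an endomorphism of a finite group have the same order -/
theorem card_coker (A : Type) [AddCommGroup A] [Finite A] (t : A →+ A) :
    Nat.card (A ⧸ t.range) = Nat.card t.ker := by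
  have e1 := AddSubgroup.card_eq_card_quotient_mul_card_addSubgroup t.range
  have e2 := AddSubgroup.card_eq_card_quotient_mul_card_addSubgroup t.ker
  have e3 : Nat.card (A ⧸ t.ker) = Nat.card t.range :=
    Nat.card_congr (QuotientAddGroup.quotientKerEquivRange t).toEquiv
  rw [e3] at e2
  have hpos : 0 < Nat.card t.range := Nat.card_pos
  rw [e2, mul_comm] at e1
  exact (Nat.eq_of_mul_eq_mul_right hpos e1).symm

section act

variable {A D : Type} [AddCommGroup A] [CommGroup D] (ρ : D →* AddMonoid.End A)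
  (H : Subgroup D) [Fintype H]

/-- the norm element of `H` -/
def NN : A →+ A := AddMonoidHom.mk' (fun x => ∑ δ : H, ρ (δ : D) x) (by
  intro x y
  simp only [map_add, sum_add_distrib])

theorem NN_apply (x : A) : NN ρ H x = ∑ δ : H, ρ (δ : D) x := rfl

theorem act_mul (δ ε : D) (x : A) : ρ (δ * ε) x = ρ δ (ρ ε x) := by
  rw [map_mul]; rfl

theorem NN_act (δ : D) (x : A) : NN ρ H (ρ δ x) = ρ δ (NN ρ H x) := by
  rw [NN_apply, NN_apply, map_sum]
  refine sum_congr rfl fun ε _ => ?_
  rw [← act_mul, ← act_mul, mul_comm]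

theorem NN_NN (x : A) : NN ρ H (NN ρ H x) = Fintype.card H • NN ρ H x := by
  rw [NN_apply ρ H (NN ρ H x)]
  have h1 : ∀ δ : H, ρ (δ : D) (NN ρ H x) = NN ρ H x := by
    intro δ
    rw [NN_apply, map_sum]
    have h2 : ∀ ε : H, ρ (δ : D) (ρ (ε : D) x) = ρ ((δ * ε : H) : D) x := by
      intro ε
      rw [Subgroup.coe_mul, act_mul]
    simp only [h2]
    exact Fintype.sum_equiv (Equiv.mulLeft δ) _ _ fun _ => rfl
  simp only [h1, sum_const, card_univ]

end act

end RAGx

open RAGx in
theorem tf_RAG : Sf_RAG := by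
  intro p hp F _ _ _ A D _ _ _ _ ρ H _ hD R hR
  classical
  have : Fintype D := Fintype.ofFinite D
  -- numbers
  have hc : (Nat.card D).Coprime p := ((Nat.Prime.coprime_iff_not_dvd hp.out).2 hD).symm
  have hh : ((Fintype.card H : ℕ) : F) ≠ 0 := by
    refine MUXK.EIGX.natCast_ne p F _ (Nat.Coprime.coprime_dvd_left ?_ hc)
    rw [← Nat.card_eq_fintype_card]
    exact Subgroup.card_subgroup_dvd_card H
  have hexp : ((Monoid.exponent D : ℕ) : F) ≠ 0 := by
    refine MUXK.EIGX.natCast_ne p F _ (Nat.Coprime.coprime_dvd_left ?_ hc)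
    exact Group.exponent_dvd_nat_card
  have : NeZero ((Monoid.exponent D : ℕ) : F) := ⟨hexp⟩
  have : HasEnoughRootsOfUnity F (Monoid.exponent D) := inferInstance
  have hfin : Finite (D →* Fˣ) :=
    Finite.of_equiv D (CommGroup.monoidHom_mulEquiv_of_hasEnoughRootsOfUnity D F).some.symm.toEquiv
  have : Fintype (D →* Fˣ) := Fintype.ofFinite _
  have hcardD : Fintype.card (D →* Fˣ) = Nat.card D := by
    rw [← Nat.card_eq_fintype_card, CommGroup.card_monoidHom_of_hasEnoughRootsOfUnity]
  have hcard : (Fintype.card (D →* Fˣ) : F) ≠ 0 := by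
    rw [hcardD]
    exact MUXK.EIGX.natCast_ne p F _ hc
  have horth : ∀ δ : D, δ ≠ 1 → ∑ χ : D →* Fˣ, (((χ δ)⁻¹ : Fˣ) : F) = 0 := by
    intro δ hδ
    obtain ⟨φ, hφ⟩ := CommGroup.exists_apply_ne_one_of_hasEnoughRootsOfUnity D F hδ
    have h1 : ∑ χ : D →* Fˣ, (((χ δ)⁻¹ : Fˣ) : F) =
        ∑ χ : D →* Fˣ, ((((φ * χ) δ)⁻¹ : Fˣ) : F) :=
      (Fintype.sum_equiv (Equiv.mulLeft φ) _ _ (fun _ => rfl)).symm
    have h2 : ∑ χ : D →* Fˣ, ((((φ * χ) δ)⁻¹ : Fˣ) : F) =
        (((φ δ)⁻¹ : Fˣ) : F) * ∑ χ : D →* Fˣ, (((χ δ)⁻¹ : Fˣ) : F) := by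
      rw [Finset.mul_sum]
      refine Finset.sum_congr rfl fun χ _ => ?_
      rw [MonoidHom.mul_apply, mul_inv, Units.val_mul]
    have h3 : (1 - (((φ δ)⁻¹ : Fˣ) : F)) * ∑ χ : D →* Fˣ, (((χ δ)⁻¹ : Fˣ) : F) = 0 := by
      rw [sub_mul, one_mul, ← h2, ← h1, sub_self]
    rcases mul_eq_zero.mp h3 with h | h
    · exfalso
      apply hφ
      have h4 : (((φ δ)⁻¹ : Fˣ) : F) = ((1 : Fˣ) : F) := by
        rw [Units.val_one]
        linear_combination -h
      have h5 := Units.ext h4
      exact inv_eq_one.mp h5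
    · exact h
  -- the kernel of the norm element
  set N : A →+ A := NN ρ H with hN
  let A' : AddSubgroup A := N.ker
  let t : A' →+ A' := nsmulAddMonoidHom p
  have ht : ∀ x : A', t x = p • x := fun x => rfl
  have hS : Nat.card {x : A // ∑ δ : H, ρ (δ : D) x = 0 ∧ p • x = 0} = Nat.card t.ker := by
    refine Nat.card_congr
      { toFun := fun x => ⟨⟨x.1, x.2.1⟩, ?_⟩
        invFun := fun x => ⟨x.1.1, x.1.2, ?_⟩
        left_inv := fun x => rfl
        right_inv := fun x => rfl }
    · rw [AddMonoidHom.mem_ker, ht]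
      exact Subtype.ext x.2.2
    · have h1 := x.2
      rw [AddMonoidHom.mem_ker, ht] at h1
      exact congrArg Subtype.val h1
  rw [hS, ← card_coker A' t]
  have hB : ∀ x : A' ⧸ t.range, p • x = 0 := by
    intro x
    obtain ⟨a, rfl⟩ := QuotientAddGroup.mk_surjective x
    have : (p : ℕ) • (QuotientAddGroup.mk a : A' ⧸ t.range) = QuotientAddGroup.mk (p • a) := rfl
    rw [this, QuotientAddGroup.eq_zero_iff]
    exact ⟨a, rfl⟩
  refine (hom_ge p F (A' ⧸ t.range) hB).trans ?_
  -- functions on `A` which vanish on the image of `N`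
  let W : Submodule F (A → F) :=
    { carrier := {f | (∀ x y, f (x + y) = f x + f y) ∧ ∀ x, f (N x) = 0}
      add_mem' := by
        rintro f g ⟨h1, h2⟩ ⟨h3, h4⟩
        refine ⟨fun x y => ?_, fun x => ?_⟩
        · show f (x + y) + g (x + y) = (f x + g x) + (f y + g y)
          rw [h1, h3]; ring
        · show f _ + g _ = 0
          rw [h2, h4, add_zero]
      zero_mem' := ⟨fun x y => by
        show (0 : F) = 0 + 0
        rw [add_zero], fun x => rfl⟩
      smul_mem' := by
        rintro c f ⟨h1, h2⟩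
        refine ⟨fun x y => ?_, fun x => ?_⟩
        · show c * f (x + y) = c * f x + c * f y
          rw [h1]; ring
        · show c * f _ = 0
          rw [h2, mul_zero] }
  have hmem : ∀ x : A, Fintype.card H • x - N x ∈ A' := by
    intro x
    show N (Fintype.card H • x - N x) = 0
    rw [map_sub, map_nsmul, hN, NN_NN, sub_self]
  let q : A → A' ⧸ t.range := fun x => QuotientAddGroup.mk ⟨Fintype.card H • x - N x, hmem x⟩
  have hq : ∀ x y, q (x + y) = q x + q y := by
    intro x y
    have h1 : (⟨Fintype.card H • (x + y) - N (x + y), hmem (x + y)⟩ : A') =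
        ⟨Fintype.card H • x - N x, hmem x⟩ + ⟨Fintype.card H • y - N y, hmem y⟩ := by
      apply Subtype.ext
      show Fintype.card H • (x + y) - N (x + y) =
        (Fintype.card H • x - N x) + (Fintype.card H • y - N y)
      rw [smul_add, map_add]
      abel
    show QuotientAddGroup.mk _ = QuotientAddGroup.mk _ + QuotientAddGroup.mk _
    rw [h1]
    rfl
  have hq0 : ∀ x, q (N x) = 0 := by
    intro x
    have h1 : (⟨Fintype.card H • N x - N (N x), hmem (N x)⟩ : A') = 0 := by
      apply Subtype.ext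
      show Fintype.card H • N x - N (N x) = 0
      rw [hN, NN_NN, sub_self]
    show QuotientAddGroup.mk _ = _
    rw [h1]
    rfl
  let Ψ : AddF F (A' ⧸ t.range) →ₗ[F] W :=
    { toFun := fun f => ⟨fun x => f.1 (q x), fun x y => by
          show f.1 (q (x + y)) = f.1 (q x) + f.1 (q y)
          rw [hq, f.2], fun x => by
        have h0 : f.1 0 = 0 := by
          have := f.2 0 0
          rw [add_zero] at this
          linear_combination -this
        show f.1 (q (N x)) = 0
        rw [hq0, h0]⟩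
      map_add' := fun _ _ => rfl
      map_smul' := fun _ _ => rfl }
  have hΨ : Function.Injective Ψ := by
    rw [← LinearMap.ker_eq_bot, LinearMap.ker_eq_bot']
    intro f hf
    apply Subtype.ext
    funext z
    obtain ⟨a, rfl⟩ := QuotientAddGroup.mk_surjective z
    have h1 : (Ψ f).1 (a : A) = 0 := by rw [hf]; rfl
    have h2 : (Ψ f).1 (a : A) = f.1 (q a) := rfl
    have h3 : q (a : A) = Fintype.card H • (QuotientAddGroup.mk a : A' ⧸ t.range) := by
      have h4 : (⟨Fintype.card H • (a : A) - N a, hmem a⟩ : A') = Fintype.card H • a := by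
        apply Subtype.ext
        show Fintype.card H • (a : A) - N a = ((Fintype.card H • a : A') : A)
        have h5 : N (a : A) = 0 := a.2
        rw [h5, sub_zero]
        rfl
      show QuotientAddGroup.mk _ = _
      rw [h4]
      rfl
    let fh : (A' ⧸ t.range) →+ F := AddMonoidHom.mk' f.1 f.2
    have h6 : fh (Fintype.card H • (QuotientAddGroup.mk a : A' ⧸ t.range)) = 0 := by
      rw [← h3]
      exact h2.symm.trans h1
    rw [map_nsmul, nsmul_eq_mul] at h6
    exact (mul_eq_zero.1 h6).resolve_left hh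
  refine (LinearMap.finrank_le_finrank_of_injective hΨ).trans ?_
  -- the eigenspaces
  let T : Type := {χ : D →* Fˣ // ∃ δ ∈ H, χ δ ≠ 1}
  have : Fintype T := Fintype.ofFinite _
  let e : (D →* Fˣ) → (A → F) → (A → F) := fun χ f x => ∑ δ : D, (((χ δ)⁻¹ : Fˣ) : F) * f (ρ δ x)
  have he : ∀ (χ : D →* Fˣ) (f : A → F), (∀ x y, f (x + y) = f x + f y) → e χ f ∈ EA F ρ χ := by
    intro χ f hf
    refine ⟨fun x y => ?_, fun δ x => ?_⟩
    · show ∑ δ : D, _ = ∑ δ : D, _ + ∑ δ : D, _
      rw [← sum_add_distrib]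
      refine sum_congr rfl fun δ _ => ?_
      rw [map_add, hf, mul_add]
    · show ∑ ε : D, (((χ ε)⁻¹ : Fˣ) : F) * f (ρ ε (ρ δ x)) =
        (χ δ : F) * ∑ ε : D, (((χ ε)⁻¹ : Fˣ) : F) * f (ρ ε x)
      rw [Finset.mul_sum]
      refine Fintype.sum_equiv (Equiv.mulRight δ) _ _ fun ε => ?_
      simp only [Equiv.coe_mulRight, map_mul, mul_inv, Units.val_mul]
      have h1 : ((χ δ : Fˣ) : F) * (((χ δ)⁻¹ : Fˣ) : F) = 1 := Units.mul_inv _
      have h2 : (ρ ε * ρ δ) x = ρ ε (ρ δ x) := rfl
      rw [h2]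
      linear_combination -((((χ ε)⁻¹ : Fˣ) : F) * f (ρ ε (ρ δ x))) * h1
  have hsum : ∀ (f : A → F) (x : A), ∑ χ : D →* Fˣ, e χ f x =
      (Fintype.card (D →* Fˣ) : F) * f x := by
    intro f x
    show ∑ χ : D →* Fˣ, ∑ δ : D, (((χ δ)⁻¹ : Fˣ) : F) * f (ρ δ x) = _
    rw [Finset.sum_comm, Finset.sum_eq_single (1 : D)]
    · simp only [map_one, inv_one, Units.val_one, one_mul, Finset.sum_const, nsmul_eq_mul,
        Finset.card_univ]
      rfl
    · intro δ _ hδ
      rw [← Finset.sum_mul, horth δ hδ, zero_mul]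
    · intro h
      exact absurd (Finset.mem_univ _) h
  let E : W →ₗ[F] ((χ : T) → EA F ρ χ.1) :=
    { toFun := fun f χ => ⟨e χ.1 f.1, he χ.1 f.1 f.2.1⟩
      map_add' := fun f g => by
        funext χ
        apply Subtype.ext
        funext x
        show ∑ δ : D, (((χ.1 δ)⁻¹ : Fˣ) : F) * (f.1 (ρ δ x) + g.1 (ρ δ x)) =
          ∑ δ : D, (((χ.1 δ)⁻¹ : Fˣ) : F) * f.1 (ρ δ x) +
            ∑ δ : D, (((χ.1 δ)⁻¹ : Fˣ) : F) * g.1 (ρ δ x)
        rw [← sum_add_distrib]
        exact sum_congr rfl fun δ _ => by ring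
      map_smul' := fun c f => by
        funext χ
        apply Subtype.ext
        funext x
        show ∑ δ : D, (((χ.1 δ)⁻¹ : Fˣ) : F) * (c * f.1 (ρ δ x)) =
          c * ∑ δ : D, (((χ.1 δ)⁻¹ : Fˣ) : F) * f.1 (ρ δ x)
        rw [mul_sum]
        exact sum_congr rfl fun δ _ => by ring }
  have hE : Function.Injective E := by
    rw [← LinearMap.ker_eq_bot, LinearMap.ker_eq_bot']
    intro f hf
    apply Subtype.ext
    funext x
    have h1 : ∀ χ : D →* Fˣ, e χ f.1 x = 0 := by
      intro χ
      by_cases hχ : ∃ δ ∈ H, χ δ ≠ 1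
      · have h2 : (E f ⟨χ, hχ⟩).1 x = 0 := by rw [hf]; rfl
        exact h2
      · push Not at hχ
        have h3 := (he χ f.1 f.2.1)
        have h4 : e χ f.1 (N x) = (Fintype.card H : F) * e χ f.1 x := by
          let g : A →+ F := AddMonoidHom.mk' (e χ f.1) h3.1
          have h5 : g (N x) = ∑ δ : H, g (ρ (δ : D) x) := by
            rw [hN, NN_apply, map_sum]
          have h6 : ∀ δ : H, g (ρ (δ : D) x) = g x := by
            intro δ
            have h7 : g (ρ (δ : D) x) = (χ (δ : D) : F) * g x := h3.2 δ x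
            rw [h7, hχ δ δ.2, Units.val_one, one_mul]
          have h8 : g (N x) = (Fintype.card H : F) * g x := by
            rw [h5]
            simp only [h6, sum_const, card_univ, nsmul_eq_mul]
          exact h8
        have h9 : e χ f.1 (N x) = 0 := by
          show ∑ δ : D, (((χ δ)⁻¹ : Fˣ) : F) * f.1 (ρ δ (N x)) = 0
          refine sum_eq_zero fun δ _ => ?_
          rw [hN, ← NN_act, f.2.2, mul_zero]
        rw [h9] at h4
        exact (mul_eq_zero.1 h4.symm).resolve_left hh
    have h2 := hsum f.1 x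
    simp only [h1, sum_const_zero] at h2
    exact (mul_eq_zero.1 h2.symm).resolve_left hcard
  refine (LinearMap.finrank_le_finrank_of_injective hE).trans ?_
  rw [Module.finrank_pi_fintype]
  have h1 : ∑ χ : T, Module.finrank F (EA F ρ χ.1) ≤ ∑ _χ : T, R :=
    sum_le_sum fun χ _ => hR χ.1 χ.2
  refine h1.trans ?_
  rw [sum_const, card_univ, smul_eq_mul]
  refine Nat.mul_le_mul_right R ?_
  rw [← hcardD]
  exact Fintype.card_subtype_le _

end Pool.Agent.OBF
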