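import Pool.Agent.OB.StF
import Pool.Agent.MUX.KAllX
import Pool.Agent.OB.K_BNDO

/-!
# OB, FINAL, module RRK (helper90): the rank of the norm kernel and the `χ`-parts
-/

set_option autoImplicit false

open NumberField IsDedekindDomain Finset
open scoped nonZeroDivisors Pointwise

namespace Pool.Agent.OBF

open _root_.Pool.Agent.RI _root_.Pool.Agent.RID _root_.Pool.Agent.MU3 _root_.Pool.Agent.MUXK
  _root_.Pool.Agent.MUXZ _root_.Pool.Agent.NSI _root_.Pool.Agent.OB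

namespace RRKx

open _root_.MU3.NQ

section gen

variable {F L : Type} [Field F] [Field L] [NumberField L] [Algebra F L]

lemma cl_prod {ι : Type} (s : Finset ι) (f : ι → J L) :
    (cl (∏ i ∈ s, f i) : ClA L) = ∑ i ∈ s, cl (f i) := by
  classical
  induction s using Finset.induction_on with
  | empty => rw [prod_empty, sum_empty, cl_one]
  | insert a s ha ih => rw [prod_insert ha, sum_insert ha, cl_mul, ih]

/-- the action on the class group as a homomorphism -/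
noncomputable def gH : (L ≃ₐ[F] L) →* AddMonoid.End (ClA L) where
  toFun := gA
  map_one' := by
    refine AddMonoidHom.ext fun x => ?_
    obtain ⟨b, rfl⟩ := cl_surj x
    show (cl ((1 : L ≃ₐ[F] L) • b) : ClA L) = cl b
    rw [one_smul]
  map_mul' a b := by
    refine AddMonoidHom.ext fun x => ?_
    obtain ⟨c, rfl⟩ := cl_surj x
    show (cl ((a * b) • c) : ClA L) = cl (a • b • c)
    rw [mul_smul]

lemma gH_cl (g : L ≃ₐ[F] L) (b : J L) : gH g (cl b) = cl (g • b) := rfl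

end gen

/-- The fixed points of an automorphism, as an intermediate field of `ℂ`. -/
lemma fixsup {k L E M : IntermediateField ℚ ℂ} (h : k ≤ L) (hE : E ≤ L) (hM : M ≤ L) :
    letI := algC h
    ∀ σ : L ≃ₐ[k] L, (∀ x : L, (x : ℂ) ∈ E → σ x = x) → (∀ x : L, (x : ℂ) ∈ M → σ x = x) →
      ∀ x : L, (x : ℂ) ∈ E ⊔ M → σ x = x := by
  let _ := algC h
  intro σ h1 h2
  let G : IntermediateField ℚ ℂ := IntermediateField.mk
    { carrier := {x | ∃ hx : x ∈ L, σ ⟨x, hx⟩ = ⟨x, hx⟩}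
      mul_mem' := by
        rintro x y ⟨hx, ex⟩ ⟨hy, ey⟩
        refine ⟨mul_mem hx hy, ?_⟩
        have : (⟨x * y, mul_mem hx hy⟩ : L) = ⟨x, hx⟩ * ⟨y, hy⟩ := rfl
        rw [this, map_mul, ex, ey]
      add_mem' := by
        rintro x y ⟨hx, ex⟩ ⟨hy, ey⟩
        refine ⟨add_mem hx hy, ?_⟩
        have : (⟨x + y, add_mem hx hy⟩ : L) = ⟨x, hx⟩ + ⟨y, hy⟩ := rfl
        rw [this, map_add, ex, ey]
      algebraMap_mem' := by
        intro q
        refine ⟨L.algebraMap_mem q, ?_⟩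
        have : (⟨algebraMap ℚ ℂ q, L.algebraMap_mem q⟩ : L) = algebraMap ℚ L q := rfl
        rw [this, eq_ratCast, map_ratCast] }
    (by
      rintro x ⟨hx, ex⟩
      refine ⟨inv_mem hx, ?_⟩
      have : (⟨x⁻¹, inv_mem hx⟩ : L) = (⟨x, hx⟩ : L)⁻¹ := rfl
      rw [this, map_inv₀, ex])
  have hG : E ⊔ M ≤ G := by
    refine sup_le (fun x hx => ⟨hE hx, h1 _ hx⟩) (fun x hx => ⟨hM hx, h2 _ hx⟩)
  intro x hx
  obtain ⟨_, e⟩ := hG hx
  exact e

end RRKx

open RRKx _root_.MU3.NQ in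
theorem tf_RRK (h1 : Sf_RAG) : Sf_RRK := by
  intro p n _ F _ _ _ k K' K B _ _ _ _ hB hB' hB'' hL hk₀ hkK hcop R hR
  let akL := algC hk₀
  let akK := algC hkK
  let aL := algC hL
  have hkL' : k ≤ K' ⊔ B n := hB'.hk.trans le_sup_left
  let akL' := algC hkL'
  have tow : IsScalarTower k ↥(K' ⊔ B n) ↥(K ⊔ B n) := towerC hkL' hL
  have comm := (k_GALX p k K B hB n hk₀).2
  obtain ⟨r, hr⟩ := I3X19.restr k_RSX p k K B hB hcop hkK n hk₀
  have fdkL : FiniteDimensional k ↥(K ⊔ B n) := Module.Finite.of_restrictScalars_finite ℚ k _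
  let icD : CommGroup (NC hk₀ (B n)) :=
    { (inferInstance : Group (NC hk₀ (B n))) with
      mul_comm := fun a b => Subtype.ext (comm _ _) }
  let H : Subgroup (NC hk₀ (B n)) :=
    { carrier := {δ | ∀ x : ↥(K ⊔ B n), (x : ℂ) ∈ K' →
        (δ : ↥(K ⊔ B n) ≃ₐ[k] ↥(K ⊔ B n)) x = x}
      mul_mem' := by
        intro a b ha hb x hx
        show (a : ↥(K ⊔ B n) ≃ₐ[k] ↥(K ⊔ B n)) ((b : ↥(K ⊔ B n) ≃ₐ[k] ↥(K ⊔ B n)) x) = x
        rw [hb x hx, ha x hx]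
      one_mem' := fun x _ => rfl
      inv_mem' := by
        intro a ha x hx
        have e := ha x hx
        show (a : ↥(K ⊔ B n) ≃ₐ[k] ↥(K ⊔ B n)).symm x = x
        rw [AlgEquiv.symm_apply_eq, e] }
  let ρ : (NC hk₀ (B n)) →* AddMonoid.End (ClA ↥(K ⊔ B n)) := gH.comp (NC hk₀ (B n)).subtype
  have hρ : ∀ (δ : NC hk₀ (B n)) (b : J ↥(K ⊔ B n)),
      ρ δ (cl b) = cl ((δ : ↥(K ⊔ B n) ≃ₐ[k] ↥(K ⊔ B n)) • b) := fun δ b => rfl
  -- the order of `D`
  have hcard : Nat.card (NC hk₀ (B n)) =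
      Module.finrank k (IntermediateField.extendScalars hB.hk) := by
    have gK : IsGalois k K := (isGalois_algC hkK).2 hB.gal
    have fdK : FiniteDimensional k K := Module.Finite.of_restrictScalars_finite ℚ k _
    rw [Nat.card_congr r.toEquiv, IsGalois.card_aut_eq_finrank, finrank_algC hkK]
  have hfD : Finite (NC hk₀ (B n)) := inferInstance
  have hfH : Fintype H := Fintype.ofFinite _
  -- the algebraic statement
  have hmain := h1 p F (ClA ↥(K ⊔ B n)) (NC hk₀ (B n)) ρ H (by rw [hcard]; exact hcop) R (by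
    rintro χ ⟨δ, hδ, hχ⟩
    have hs1 : ∀ x : ↥K, (x : ℂ) ∈ K' → r δ x = x := by
      intro x hx
      have hxL : (x : ℂ) ∈ K ⊔ B n := (le_sup_left : K ≤ K ⊔ B n) x.2
      apply Subtype.ext
      rw [← hr δ x ⟨x, hxL⟩ rfl, hδ ⟨x, hxL⟩ hx]
    have hs2 : (χ.comp r.symm.toMonoidHom) (r δ) ≠ 1 := by
      show χ (r.symm (r δ)) ≠ 1
      rw [MulEquiv.symm_apply_apply]
      exact hχ
    obtain ⟨hfin, hle⟩ := hR (χ.comp r.symm.toMonoidHom) ⟨r δ, hs1, hs2⟩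
    refine le_trans ?_ hle
    let φ : (ClA ↥(K ⊔ B n) → F) →ₗ[F] (J ↥(K ⊔ B n) → F) :=
      LinearMap.funLeft F F (cl : J ↥(K ⊔ B n) → ClA ↥(K ⊔ B n))
    have hφ : ∀ f ∈ EA F ρ χ, φ f ∈ EigS F k K B n hk₀ hkK (χ.comp r.symm.toMonoidHom) := by
      rintro f ⟨f1, f2⟩
      refine ⟨fun x y => ?_, fun x hx => ?_, fun ε s hs x => ?_⟩
      · show f (cl (x * y)) = f (cl x) + f (cl y)
        rw [cl_mul, f1]
      · obtain ⟨y, rfl⟩ := hx
        show f (cl (prin y)) = 0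
        have h0 := f1 0 0
        rw [add_zero] at h0
        rw [cl_prin]
        linear_combination -h0
      · have hs' : s = r ε := by
          ext x
          have hx : (x : ℂ) ∈ K ⊔ B n := (le_sup_left : K ≤ K ⊔ B n) x.2
          rw [← hs x ⟨x, hx⟩ rfl, ← hr ε x ⟨x, hx⟩ rfl]
        have e1 := f2 ε (cl x)
        rw [hρ] at e1
        have e2 : (χ.comp r.symm.toMonoidHom) s = χ ε := by
          rw [hs']
          show χ (r.symm (r ε)) = χ ε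
          rw [MulEquiv.symm_apply_apply]
        rw [e2]
        exact e1
    let ψ : EA F ρ χ →ₗ[F] EigS F k K B n hk₀ hkK (χ.comp r.symm.toMonoidHom) :=
      (φ.comp (EA F ρ χ).subtype).codRestrict _ (fun f => hφ f.1 f.2)
    have hψ : Function.Injective ψ := by
      intro f g hfg
      apply Subtype.ext
      funext x
      obtain ⟨b, rfl⟩ := cl_surj x
      have e := congrArg (fun q => (q : J ↥(K ⊔ B n) → F) b) (congrArg Subtype.val hfg)
      exact e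
    have := hfin
    exact LinearMap.finrank_le_finrank_of_injective hψ)
  rw [hcard] at hmain
  refine le_trans (le_of_eq ?_) hmain
  -- the norm
  have hK'L : K' ≤ K ⊔ B n := (le_sup_left : K' ≤ K' ⊔ B n).trans hL
  have hBL : B n ≤ K ⊔ B n := le_sup_right
  let φ : (↥(K ⊔ B n) ≃ₐ[↥(K' ⊔ B n)] ↥(K ⊔ B n)) → H := fun σ =>
    ⟨⟨σ.restrictScalars k, fun x hx => σ.commutes ⟨x, (le_sup_right : B n ≤ K' ⊔ B n) hx⟩⟩,
      fun x hx => σ.commutes ⟨x, (le_sup_left : K' ≤ K' ⊔ B n) hx⟩⟩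
  have hφv : ∀ (σ : ↥(K ⊔ B n) ≃ₐ[↥(K' ⊔ B n)] ↥(K ⊔ B n)) (x : ↥(K ⊔ B n)),
      (((φ σ : H) : NC hk₀ (B n)) : ↥(K ⊔ B n) ≃ₐ[k] ↥(K ⊔ B n)) x = σ x := fun σ x => rfl
  have hφb : Function.Bijective φ := by
    constructor
    · intro σ τ h
      ext x
      rw [← hφv σ x, ← hφv τ x, h]
    · rintro ⟨⟨δ, hδ1⟩, hδ2⟩
      refine ⟨AlgEquiv.ofRingEquiv (f := (δ : ↥(K ⊔ B n) ≃+* ↥(K ⊔ B n))) (fun x => ?_), ?_⟩
      · exact fixsup hk₀ hK'L hBL δ hδ2 hδ1 (algebraMap ↥(K' ⊔ B n) ↥(K ⊔ B n) x) x.2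
      · apply Subtype.ext
        apply Subtype.ext
        ext x
        rfl
  have hnm : ∀ b : J ↥(K ⊔ B n), ∑ δ : H, ρ (δ : NC hk₀ (B n)) (cl b) =
      cl (CL.nm ↥(K' ⊔ B n) ↥(K ⊔ B n) b) := by
    intro b
    rw [CL.nm_apply, cl_prod]
    symm
    refine Fintype.sum_bijective φ hφb _ _ fun σ => ?_
    rw [hρ]
    rfl
  unfold rR
  congr 1
  refine Nat.card_congr (Equiv.subtypeEquiv (Additive.ofMul) fun c => ?_)
  obtain ⟨b, rfl⟩ := QuotientGroup.mk_surjective c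
  show _ ↔ (∑ δ : H, ρ (δ : NC hk₀ (B n)) (cl b) = 0 ∧ p • (cl b : ClA ↥(K ⊔ B n)) = 0)
  rw [hnm, cl_eq_zero, ← cl_pow, cl_eq_zero]
  have e2 : ((b : J ↥(K ⊔ B n) ⧸ _root_.MU3.PI ↥(K ⊔ B n)) ^ p = 1) ↔
      b ^ p ∈ _root_.MU3.PI ↥(K ⊔ B n) := by
    rw [← QuotientGroup.mk_pow, QuotientGroup.eq_one_iff]
  rw [e2]
  refine and_congr_left fun _ => ⟨?_, fun h => ⟨b, h, rfl⟩⟩
  rintro ⟨b', hb', e⟩
  have e3 : (cl b' : ClA ↥(K ⊔ B n)) = cl b := congrArg Additive.ofMul e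
  have e4 : (cl (CL.nm ↥(K' ⊔ B n) ↥(K ⊔ B n) b') : ClA ↥(K ⊔ B n)) = 0 := (cl_eq_zero _).2 hb'
  rw [← hnm, e3, hnm] at e4
  exact (cl_eq_zero _).1 e4

end Pool.Agent.OBF
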