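import Pool.Agent.OB.StK
import Pool.Agent.MUX.K_I3X

/-!
# OB, block K for one character: I3O
-/

set_option autoImplicit false

open NumberField IsDedekindDomain Finset Filter Topology
open scoped nonZeroDivisors Pointwise

namespace Pool.Agent.OB

open _root_.Pool.Agent.MU3 _root_.Pool.Agent.RI _root_.Pool.Agent.RID _root_.Pool.Agent.MUXK
  _root_.Pool.Agent.MUXZ _root_.Pool.Agent.NSI _root_.Pool.Agent.Lib_helper28.FROB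

open _root_.Pool.Agent.MUXK.I3X19 in
theorem t_I3O (h1 : S_RSX) (h2 : Sn_NRX) (h3 : S_TNX) (h4 : S_NCP) (h5 : S_GALX) : S_I3O := by
  intro F _ p _ k K₀ K B _ _ _ _ hX hk hk₀ hh hkK S c c₀ n₁ hI ψ hI3 m₀
  have hp0 : p ≠ 0 := (Fact.out : p.Prime).ne_zero
  have hfin : FiniteDimensional ℚ K₀ :=
    FiniteDimensional.of_injective (IntermediateField.inclusion hX.le).toLinearMap
      (IntermediateField.inclusion hX.le).injective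
  obtain ⟨ω, hωK, hω1⟩ := hX.om
  let _ := algC hkK
  have htow : IsScalarTower ℚ k K₀ := IsScalarTower.of_algebraMap_eq fun x => rfl
  obtain ⟨m, hm1, hm2⟩ := hI3 (p ^ (m₀ + 1) + 2) n₁
  refine ⟨m, hm1, ?_⟩
  intro n hmn
  let _ := algC (hk₀ n)
  let _ := algC (hh n)
  let _ := algC (hk n)
  intro γ hγ _ u hu χ hχ₀
  obtain ⟨ρn, hρn⟩ := restr h1 p k K₀ B hX.b0 hX.cop hkK n (hk₀ n)
  have hψ : ∀ δ, ψ (ρn δ) = χ δ := fun δ => (hχ₀ δ (ρn δ) (hρn δ)).symm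
  let _ := algC (hk₀ m)
  have hmn' : m ≤ n := hmn
  have hsub : K₀ ⊔ B m ≤ K₀ ⊔ B n := sup_le_sup_left (hX.b0.mono hmn') K₀
  obtain ⟨r, hr, hrγ, e, he⟩ := h1 p k K₀ B hX.b0 hX.cop m n hmn' (hk₀ n) (hk₀ m) hsub
  obtain ⟨ρm, hρm⟩ := restr h1 p k K₀ B hX.b0 hX.cop hkK m (hk₀ m)
  obtain ⟨hr1, hr2⟩ := hrγ γ hγ
  let _ : Fintype (NC (hk₀ m) (B m)) := Fintype.ofEquiv _ e.toEquiv
  obtain ⟨θ, hθ0⟩ := hm2 (r γ) hr1 (fun δ => ρm δ) hρm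
  have hρ : ∀ δ, ρm (e δ) = ρn δ := by
    intro δ
    refine AlgEquiv.ext fun x => Subtype.ext ?_
    have hx1 : (x : ℂ) ∈ K₀ ⊔ B m := le_sup_left (a := K₀) x.2
    rw [← hρm (e δ) x ⟨x, hx1⟩ rfl, ← hρn δ x ⟨x, hsub hx1⟩ rfl, he]
    exact hr _ ⟨x, hx1⟩
  have hχ : ∀ δ, ψ (ρm δ) = (χ.comp e.symm.toMonoidHom) δ := by
    intro δ
    show ψ (ρm δ) = χ (e.symm δ)
    rw [← hψ, ← hρ, e.apply_symm_apply]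
  have hθ : ∀ y : ↥(K₀ ⊔ B m), y ^ p ≠ ∏ δ : NC (hk₀ m) (B m),
      ((δ : ↥(K₀ ⊔ B m) ≃ₐ[k] ↥(K₀ ⊔ B m)) ((Tg (r γ))^[p ^ (m₀ + 1) + 2] ⟨c₀ m, hI.mem₀ m⟩)) ^
        (θ (((χ.comp e.symm.toMonoidHom) δ)⁻¹ : Fˣ)).val := by
    intro y hy
    refine hθ0 y (hy.trans ?_)
    exact prod_congr rfl fun δ _ => by rw [hχ]
  obtain ⟨C, hCk, hC0, hC⟩ := h2 p k K₀ K B hX hk hk₀ S c c₀ n₁ hI m n hm1 hmn' γ hγ
  refine ⟨θ, ?_⟩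
  have hc0 : ∀ i, c₀ i ≠ 0 := by
    intro i
    let _ := algC (hk i)
    rw [hI.norm i]
    refine finprod_induction (p := fun x : ℂ => x ≠ 0) one_ne_zero (fun x y hx hy => mul_ne_zero hx hy)
      fun g hg => ?_
    have h6 := (map_eq_zero ((g : NC (hk i) (K₀ ⊔ B i)) : ↥(K ⊔ B i) ≃ₐ[k] ↥(K ⊔ B i))).1
      (Subtype.ext hg)
    exact hI.ne i (congrArg Subtype.val h6)
  have hcm : (⟨c₀ m, hI.mem₀ m⟩ : ↥(K₀ ⊔ B m)) ≠ 0 := by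
    intro h; exact hc0 m (congrArg Subtype.val h)
  have a1 := h3 p k ↥(K₀ ⊔ B m) (r γ) (m₀ + 1) _ hcm
  have a2 := (h5 p k K₀ B hX.b0 m (hk₀ m)).2
  have b1 : ∀ (σ : ↥(K₀ ⊔ B n) ≃ₐ[k] ↥(K₀ ⊔ B n)) (x : ↥(K₀ ⊔ B m)),
      (IntermediateField.inclusion hsub : ↥(K₀ ⊔ B m) →+* ↥(K₀ ⊔ B n)) (r σ x) =
        σ ((IntermediateField.inclusion hsub : ↥(K₀ ⊔ B m) →+* ↥(K₀ ⊔ B n)) x) :=
    fun σ x => Subtype.ext (hr σ x)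
  have b2 : ∀ x : ↥(K₀ ⊔ B n), (γ ^ (p ^ m)) x = x ↔
      ∃ z : ↥(K₀ ⊔ B m),
        (IntermediateField.inclusion hsub : ↥(K₀ ⊔ B m) →+* ↥(K₀ ⊔ B n)) z = x := by
    intro x
    rw [hr2 x]
    constructor
    · intro hx
      exact ⟨⟨x, hx⟩, rfl⟩
    · rintro ⟨z, rfl⟩
      exact z.2
  have hK₀n : K₀ ≤ K₀ ⊔ B n := le_sup_left
  have b3 : (⟨C, hK₀n hCk⟩ : ↥(K₀ ⊔ B n)) ≠ 0 := by
    intro h; exact hC0 (congrArg Subtype.val h)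
  have b4 : ∀ i : ℕ, (γ ^ i) (⟨C, hK₀n hCk⟩ : ↥(K₀ ⊔ B n)) = ⟨C, hK₀n hCk⟩ := by
    intro i
    have h6 : γ (⟨C, hK₀n hCk⟩ : ↥(K₀ ⊔ B n)) = ⟨C, hK₀n hCk⟩ := (hγ _).2 hCk
    induction i with
    | zero => rw [pow_zero, AlgEquiv.one_apply]
    | succ i ih => rw [pow_succ, AlgEquiv.mul_apply, h6, ih]
  have b5 : ∏ i ∈ range (p ^ (n - m)), (γ ^ (p ^ m * i)) ⟨c₀ n, hI.mem₀ n⟩ =
      ⟨C, hK₀n hCk⟩ *
        (IntermediateField.inclusion hsub : ↥(K₀ ⊔ B m) →+* ↥(K₀ ⊔ B n)) ⟨c₀ m, hI.mem₀ m⟩ :=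
    Subtype.ext hC
  have b6 : ∀ w : ↥(K₀ ⊔ B n), w ^ p = 1 → γ w = w := by
    intro w hw
    rw [hγ w]
    have hw' : (w : ℂ) ^ p = 1 := congrArg Subtype.val hw
    have : NeZero p := ⟨hp0⟩
    obtain ⟨i, _, hi⟩ := hω1.eq_pow_of_pow_eq_one hw'
    rw [← hi]
    exact K₀.pow_mem hωK i
  have a4 := core (F := F) p hp0 _ r b1 a2 γ m n m₀ b2 (NC (hk₀ n) (B n)) (NC (hk₀ m) (B m)) e he
  have a5 := a4 ⟨c₀ n, hI.mem₀ n⟩ ⟨c₀ m, hI.mem₀ m⟩ hcm _ b3 b4 b5 b6 u hu χ θ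
  obtain ⟨a6, a7⟩ := a5 hθ a1
  intro y hy
  have hst : IsScalarTower k ↥(K₀ ⊔ B n) ↥(K ⊔ B n) := IsScalarTower.of_algebraMap_eq fun x => rfl
  have hg1 := (h5 p k K₀ B hX.b0 n (hk₀ n)).1
  obtain ⟨hg2, hg3⟩ := h5 p k K B hX.b n (hk n)
  have hωn : ω ∈ K₀ ⊔ B n := hK₀n hωK
  have hω2 : IsPrimitiveRoot (⟨ω, hωn⟩ : ↥(K₀ ⊔ B n)) p := by
    refine IsPrimitiveRoot.of_map_of_injective (f := (K₀ ⊔ B n).val) ?_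
      (K₀ ⊔ B n).val.injective
    exact hω1
  obtain ⟨t, ht⟩ := h4 p k ↥(K₀ ⊔ B n) ↥(K ⊔ B n) hg3 γ ⟨ω, hωn⟩ hω2 ((hγ _).2 hωK) _ a6 y hy
  exact a7 t ht

end Pool.Agent.OB
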