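import Pool.Agent.OB.StK
import Pool.Agent.MUX.K_KOLX
import Pool.Agent.MUX.K_SU0

/-!
# OB, block K for one character: KOLO and SU0O (copies of KOLX and SU0 for `InpW`)
-/

set_option autoImplicit false

open NumberField IsDedekindDomain Finset Filter Topology
open scoped nonZeroDivisors Pointwise

namespace Pool.Agent.OB

open _root_.Pool.Agent.MU3 _root_.Pool.Agent.RI _root_.Pool.Agent.RID _root_.Pool.Agent.MUXK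
  _root_.Pool.Agent.MUXZ _root_.Pool.Agent.NSI _root_.Pool.Agent.Lib_helper28.FROB

open _root_.Pool.Agent.MUXK.K_KOLX in
theorem t_KOLO (h1 : S_KINX) (h2 : S_KNM) (h3 : S_GALX) (h4 : S_RAMX) : S_KOLO := by
  intro p _ k K₀ K B _ _ _ _ hS
  obtain ⟨S', h2S', hpS', hS'p, hram⟩ := h4 p k K B hS.b
  refine ⟨S', h2S', hpS', hS'p, ?_⟩
  intro hk hk₀ hh S c c₀ n₁ hI S₁ hSS hS₁p n hn
  let : Algebra k ↥(K ⊔ B n) := algC (hk n)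
  let : Algebra k ↥(K₀ ⊔ B n) := algC (hk₀ n)
  let : Algebra ↥(K₀ ⊔ B n) ↥(K ⊔ B n) := algC (hh n)
  intro g g' hg'K hgg' hfix u hu
  have tower : IsScalarTower k ↥(K₀ ⊔ B n) ↥(K ⊔ B n) := IsScalarTower.of_algebraMap_eq (fun x => rfl)
  have fdK₀ : FiniteDimensional ℚ ↥K₀ :=
    FiniteDimensional.of_injective (IntermediateField.inclusion hS.le).toLinearMap
      (IntermediateField.inclusion_injective hS.le)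
  obtain ⟨galM, commM⟩ := h3 p k K B hS.b n (hk n)
  obtain ⟨galL, commL⟩ := h3 p k K₀ B hS.b0 n (hk₀ n)
  have hp : p.Prime := Fact.out
  have hsub : S ⊆ S₁ := Finset.subset_union_left.trans hSS
  have hsub' : S' ⊆ S₁ := Finset.subset_union_right.trans hSS
  have hcn : (⟨c n, hI.mem n⟩ : ↥(K ⊔ B n)) ≠ 0 := by
    intro h0
    exact hI.ne n (congrArg Subtype.val h0)
  have su1 : SU S₁ ↥(K ⊔ B n) ⟨c n, hI.mem n⟩ := P_MONO.su hsub (hI.su n hn)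
  have kol1 := kol_mono hsub (hI.kol n hn)
  obtain ⟨u', hu'⟩ := t_UNI k ↥(K ⊔ B n) S₁ ⟨c n, hI.mem n⟩ hcn su1 g' hfix p
  have hrel := h1 p k ↥(K ⊔ B n) commM S₁ (hsub' hpS') ⟨c n, hI.mem n⟩ hcn su1 _ kol1 g' hg'K
    hfix u' hu'
  have galLM : IsGalois ↥(K₀ ⊔ B n) ↥(K ⊔ B n) :=
    IsGalois.tower_top_of_isGalois k ↥(K₀ ⊔ B n) ↥(K ⊔ B n)
  have fdLM : FiniteDimensional ↥(K₀ ⊔ B n) ↥(K ⊔ B n) := inferInstance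
  have hgg : ∀ x : ↥(K₀ ⊔ B n), algebraMap ↥(K₀ ⊔ B n) ↥(K ⊔ B n) (g x) =
      g' (algebraMap ↥(K₀ ⊔ B n) ↥(K ⊔ B n) x) := fun x => Subtype.ext (hgg' x).symm
  have hnorm : Algebra.norm ↥(K₀ ⊔ B n) (⟨c n, hI.mem n⟩ : ↥(K ⊔ B n)) = ⟨c₀ n, hI.mem₀ n⟩ := by
    apply (algebraMap ↥(K₀ ⊔ B n) ↥(K ⊔ B n)).injective
    rw [Algebra.norm_eq_prod_automorphisms]
    apply Subtype.ext
    have e1 : ((algebraMap ↥(K₀ ⊔ B n) ↥(K ⊔ B n) ⟨c₀ n, hI.mem₀ n⟩ : ↥(K ⊔ B n)) : ℂ) = c₀ n := rfl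
    have e2 : ((∏ σ : ↥(K ⊔ B n) ≃ₐ[↥(K₀ ⊔ B n)] ↥(K ⊔ B n), σ ⟨c n, hI.mem n⟩ : ↥(K ⊔ B n)) : ℂ) =
        ∏ σ : ↥(K ⊔ B n) ≃ₐ[↥(K₀ ⊔ B n)] ↥(K ⊔ B n), ((σ ⟨c n, hI.mem n⟩ : ↥(K ⊔ B n)) : ℂ) :=
      map_prod (algebraMap ↥(K ⊔ B n) ℂ) _ _
    rw [e1, e2, hI.norm n, ← finprod_eq_prod_of_fintype]
    refine finprod_eq_of_bijective
      (fun σ => ⟨σ.restrictScalars k, fun x hx => σ.commutes ⟨(x : ℂ), hx⟩⟩) ⟨?_, ?_⟩ fun σ => rfl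
    · intro σ τ h
      have h5 := congrArg (fun θ : NC (hk n) (K₀ ⊔ B n) => (θ : ↥(K ⊔ B n) ≃ₐ[k] ↥(K ⊔ B n))) h
      ext x
      have h6 := congrArg (fun θ : ↥(K ⊔ B n) ≃ₐ[k] ↥(K ⊔ B n) => ((θ x : ↥(K ⊔ B n)) : ℂ)) h5
      exact h6
    · intro θ
      refine ⟨AlgEquiv.ofRingEquiv (f := ((θ : ↥(K ⊔ B n) ≃ₐ[k] ↥(K ⊔ B n)) : ↥(K ⊔ B n) ≃+* ↥(K ⊔ B n)))
        (fun y => θ.2 _ y.2), ?_⟩
      apply Subtype.ext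
      ext x
      rfl
  have hnu : ((u : 𝓞 ↥(K₀ ⊔ B n)) : ↥(K₀ ⊔ B n)) =
      Algebra.norm ↥(K₀ ⊔ B n) ((u' : 𝓞 ↥(K ⊔ B n)) : ↥(K ⊔ B n)) := by
    have hc0 : (⟨c₀ n, hI.mem₀ n⟩ : ↥(K₀ ⊔ B n)) ≠ 0 := by
      rw [← hnorm]
      exact Algebra.norm_ne_zero_iff.2 hcn
    rw [hu, div_eq_iff hc0, ← hnorm, ← norm_comp_pow commM g g' hgg, ← map_mul, hu',
      div_mul_cancel₀ _ hcn]
  obtain ⟨ζ, hζK, hζ⟩ := hS.ze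
  have hζL : ζ ∈ K ⊔ B n := (le_sup_left : K ≤ K ⊔ B n) hζK
  have h2p : NeZero (2 * p) := ⟨by have := hp.pos; omega⟩
  have hζ' : IsPrimitiveRoot (⟨ζ, hζL⟩ : ↥(K ⊔ B n)) (2 * p) := by
    refine IsPrimitiveRoot.of_map_of_injective (f := algebraMap ↥(K ⊔ B n) ℂ) ?_ ?_
    · exact hζ
    · exact (algebraMap ↥(K ⊔ B n) ℂ).injective
  exact h2 p k ↥(K₀ ⊔ B n) ↥(K ⊔ B n) commM S₁ hζ'.toInteger hζ'.toInteger_isPrimitiveRoot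
    (hsub' h2S') (hsub' hpS') hS₁p (hram S₁ hsub' n (hk n)) u' u hnu hrel

open _root_.Pool.Agent.MUXK.K_SU0 in
/-- SU0O. -/
theorem t_SU0O : S_SU0O := by
  intro p _ k K₀ K B _ _ _ _ hX hk hk₀ S c c₀ n₁ hI n hn
  have hh : K₀ ⊔ B n ≤ K ⊔ B n := sup_le_sup_right hX.le _
  let _ := algC (hk n)
  let _ := algC hh
  have : NumberField k := numC k
  have : FiniteDimensional ↥k ↥(K ⊔ B n) := by
    have : IsScalarTower ℚ ↥k ↥(K ⊔ B n) := IsScalarTower.of_algebraMap_eq fun x => rfl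
    exact FiniteDimensional.right ℚ ↥k ↥(K ⊔ B n)
  have hfin : Finite (↥(K ⊔ B n) ≃ₐ[k] ↥(K ⊔ B n)) := inferInstance
  have := Fintype.ofFinite (NC (hk n) (K₀ ⊔ B n))
  have hc : (⟨c n, hI.mem n⟩ : ↥(K ⊔ B n)) ≠ 0 := by
    intro h
    exact hI.ne n (congrArg Subtype.val h)
  have hsu := hI.su n hn
  have hnorm := hI.norm n
  rw [finprod_eq_prod_of_fintype] at hnorm
  set y : ↥(K ⊔ B n) := ∏ g : NC (hk n) (K₀ ⊔ B n),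
    (g : ↥(K ⊔ B n) ≃ₐ[k] ↥(K ⊔ B n)) ⟨c n, hI.mem n⟩ with hy
  have hy1 : c₀ n = (y : ℂ) := by
    rw [hnorm, hy]
    exact (map_prod (K ⊔ B n).val _ _).symm
  have hy0 : y ≠ 0 := by
    rw [hy, Finset.prod_ne_zero_iff]
    intro g _ h
    exact hc ((map_eq_zero_iff _ (g : ↥(K ⊔ B n) ≃ₐ[k] ↥(K ⊔ B n)).injective).1 h)
  have hc0 : c₀ n ≠ 0 := by
    intro h
    apply hy0
    apply Subtype.ext
    rw [← hy1, h]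
    rfl
  refine ⟨hc0, ?_⟩
  have hx0 : (⟨c₀ n, hI.mem₀ n⟩ : ↥(K₀ ⊔ B n)) ≠ 0 := by
    intro h
    exact hc0 (congrArg Subtype.val h)
  refine su_down (M := ↥(K ⊔ B n)) hx0 ?_
  have e : algebraMap ↥(K₀ ⊔ B n) ↥(K ⊔ B n) ⟨c₀ n, hI.mem₀ n⟩ = y := Subtype.ext hy1
  rw [e, hy]
  exact su_prod _ fun g _ => su_act hsu _

end Pool.Agent.OB
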