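import Pool.Agent.OB.StK
import Pool.Agent.MUX.K_NILP

/-!
# OB, block K for one character: NILO (NILP for one eigenfunctional)
-/

set_option autoImplicit false

open NumberField IsDedekindDomain Finset Filter Topology
open scoped nonZeroDivisors Pointwise

namespace Pool.Agent.OB

open _root_.Pool.Agent.MU3 _root_.Pool.Agent.RI _root_.Pool.Agent.RID _root_.Pool.Agent.MUXK
  _root_.Pool.Agent.MUXZ _root_.Pool.Agent.NSI _root_.Pool.Agent.Lib_helper28.FROB

open _root_.Pool.Agent.MUXK.NILP _root_.Pool.Agent.MU3.P_NIL in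
theorem t_NILO (h2 : S_STABX) (h3 : S_THDX) (h4 : S_NRJ) (h5 : S_NIX)
    (h6 : S_NILXX) : S_NILO := by
  classical
  intro p _ F _ _ k L M _ _ _ _ _ _ _ _ _ _ _ _ n m m₀ γ D _ hTw hmn S ζ hζ h2S hpS hpr
    hram hdec c hK χ θ hθ' f hf hfp hfχ b
  have hp : p.Prime := Fact.out
  set P : Subgroup (J L) := (prin : Lˣ →* J L).range ⊔ (powMonoidHom p : J L →* J L).range
    with hP
  have hprin : ∀ (σ : L ≃ₐ[k] L), ∀ x ∈ (prin : Lˣ →* J L).range,
      σ • x ∈ (prin : Lˣ →* J L).range := by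
    rintro σ _ ⟨a, rfl⟩
    rw [smul_prin]
    exact ⟨_, rfl⟩
  have hPmem : ∀ x : J L, x ∈ P ↔ ∃ (a : Lˣ) (y : J L), prin a * y ^ p = x := by
    intro x
    rw [hP, Subgroup.mem_sup]
    constructor
    · rintro ⟨_, ⟨a, rfl⟩, _, ⟨y, rfl⟩, rfl⟩
      exact ⟨a, y, rfl⟩
    · rintro ⟨a, y, rfl⟩
      exact ⟨_, ⟨a, rfl⟩, _, ⟨y, rfl⟩, rfl⟩
  have hst : ∀ (σ : L ≃ₐ[k] L), ∀ x ∈ P, σ • x ∈ P := by
    intro σ x hx
    obtain ⟨a, y, rfl⟩ := (hPmem x).1 hx
    refine (hPmem _).2 ⟨σ • a, σ • y, ?_⟩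
    rw [smul_mul', smul_prin, smul_pow']
  have hcu : ∀ x : J L, x ^ p ∈ P := by
    intro x
    exact (hPmem _).2 ⟨1, x, by rw [map_one, one_mul]⟩
  obtain ⟨N, hN1, hN2, hN3⟩ := h4 k L M
  -- restriction and extension of automorphisms
  have hres : ∀ σ : M ≃ₐ[k] M, ∃ τ : L ≃ₐ[k] L, ∀ x : L,
      algebraMap L M (τ x) = σ (algebraMap L M x) := by
    intro σ
    exact ⟨σ.restrictNormal L, fun x => σ.restrictNormal_commutes L x⟩
  have hext : ∃ σ : M ≃ₐ[k] M, ∀ x : L, algebraMap L M (γ x) = σ (algebraMap L M x) := by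
    obtain ⟨σ, hσ⟩ := AlgEquiv.restrictNormalHom_surjective (F := k) (K₁ := L) M γ
    refine ⟨σ, fun x => ?_⟩
    rw [← hσ]
    exact σ.restrictNormal_commutes L x
  obtain ⟨γ', hγ'⟩ := hext
  have hNγ : ∀ z : J M, N (γ' • z) = γ • N z := hN3 γ' γ hγ'
  -- the first part
  have hf1 : f 1 = 0 := by
    have := hf 1 1
    rw [mul_one] at this
    simpa using this
  have hfi : ∀ y, f y⁻¹ = - f y := by
    intro y
    have := hf y y⁻¹
    rw [mul_inv_cancel, hf1] at this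
    linear_combination -this
  have hfpow : ∀ (y : J L) (j : ℕ), f (y ^ j) = (j : F) * f y := by
    intro y j
    induction j with
    | zero => rw [pow_zero, hf1, Nat.cast_zero, zero_mul]
    | succ j ih => rw [pow_succ, hf, ih, Nat.cast_succ]; ring
  have hfP : ∀ x ∈ P, f x = 0 := by
    intro x hx
    obtain ⟨a, y, rfl⟩ := (hPmem x).1 hx
    rw [hf, hfp _ ⟨a, rfl⟩, hfpow, CharP.cast_eq_zero, zero_mul, add_zero]
  have hkey : ∀ z : J M, f ((dg γ)^[p ^ m₀ + p ^ m + 1] (N z)) = 0 := by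
    intro z
    have hfcls : ∀ y y' : J L, cls P y = cls P y' → f y = f y' := by
      intro y y' h
      have h7 : cls P (y * y'⁻¹) = 0 := by
        rw [cls_mul, cls_inv, h]
        exact add_neg_cancel (cls P y')
      have h8 := hfP _ ((cls_eq_zero P _).1 h7)
      rw [hf, hfi] at h8
      linear_combination h8
    -- the functional at all translates
    let Φ : ℕ → J L → F := fun j y =>
      f (γ ^ j • γ ^ (p ^ m₀) • γ ^ (p ^ m) • y) - f (γ ^ j • γ ^ (p ^ m) • y) -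
      f (γ ^ j • γ ^ (p ^ m₀) • y) + f (γ ^ j • y)
    have hΦmul : ∀ j y y', Φ j (y * y') = Φ j y + Φ j y' := by
      intro j y y'
      simp only [Φ, smul_mul', hf]
      ring
    have hΦ1 : ∀ j, Φ j 1 = 0 := by
      intro j
      have := hΦmul j 1 1
      rw [mul_one] at this
      simpa using this
    have hΦinv : ∀ j y, Φ j y⁻¹ = - Φ j y := by
      intro j y
      have := hΦmul j y y⁻¹
      rw [mul_inv_cancel, hΦ1] at this
      linear_combination -this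
    let U : Subgroup (J L) :=
      { carrier := {y | ∀ j, Φ j y = 0}
        one_mem' := fun j => hΦ1 j
        mul_mem' := by
          intro a b ha hb j
          rw [hΦmul, ha j, hb j, add_zero]
        inv_mem' := by
          intro a ha j
          rw [hΦinv, ha j, neg_zero] }
    have hU : ∀ y : J L, y ∈ U ↔ ∀ j, Φ j y = 0 := fun y => Iff.rfl
    have hcm : ∀ (σ τ : L ≃ₐ[k] L) (y : J L), σ • τ • y = τ • σ • y := by
      intro σ τ y
      rw [← mul_smul, ← mul_smul, hTw.comm]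
    have hUγ : ∀ y ∈ U, γ • y ∈ U := by
      intro y hy j
      have := hy (j + 1)
      simp only [Φ] at this ⊢
      have e : ∀ y : J L, γ ^ (j + 1) • y = γ ^ j • γ • y := by
        intro y
        rw [pow_succ, mul_smul]
      rw [e, e, e, e] at this
      rw [hcm (γ ^ (p ^ m)) γ, hcm (γ ^ (p ^ m₀)) γ, hcm (γ ^ (p ^ m₀)) γ]
      exact this
    have hUδ : ∀ δ ∈ D, ∀ y ∈ U, δ • y ∈ U := by
      intro δ hδ y hy j
      have := hy j
      simp only [Φ] at this ⊢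
      have e : ∀ y : J L, f (δ • y) = (χ ⟨δ, hδ⟩ : F) * f y := fun y => hfχ ⟨δ, hδ⟩ y
      have e1 : γ ^ j • γ ^ (p ^ m₀) • γ ^ (p ^ m) • δ • y =
          δ • γ ^ j • γ ^ (p ^ m₀) • γ ^ (p ^ m) • y := by
        rw [hcm (γ ^ (p ^ m)) δ, hcm (γ ^ (p ^ m₀)) δ, hcm (γ ^ j) δ]
      have e2 : γ ^ j • γ ^ (p ^ m) • δ • y = δ • γ ^ j • γ ^ (p ^ m) • y := by
        rw [hcm (γ ^ (p ^ m)) δ, hcm (γ ^ j) δ]
      have e3 : γ ^ j • γ ^ (p ^ m₀) • δ • y = δ • γ ^ j • γ ^ (p ^ m₀) • y := by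
        rw [hcm (γ ^ (p ^ m₀)) δ, hcm (γ ^ j) δ]
      have e4 : γ ^ j • δ • y = δ • γ ^ j • y := hcm _ _ _
      rw [e1, e2, e3, e4, e, e, e, e]
      linear_combination (χ ⟨δ, hδ⟩ : F) * this
    have hUσ : ∀ (σ : L ≃ₐ[k] L), ∀ y ∈ U, σ • y ∈ U := by
      intro σ y hy
      obtain ⟨δ, hδ, i, rfl⟩ := hTw.gen σ
      rw [mul_smul]
      apply hUδ δ hδ
      clear hδ
      induction i with
      | zero => simpa using hy
      | succ i ih =>
        rw [pow_succ', mul_smul]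
        exact hUγ _ ih
    have hUprin : (prin : Lˣ →* J L).range ≤ U := by
      intro y hy j
      simp only [Φ]
      rw [hfp _ (hprin _ _ (hprin _ _ (hprin _ _ hy))), hfp _ (hprin _ _ (hprin _ _ hy)),
        hfp _ (hprin _ _ (hprin _ _ hy)), hfp _ (hprin _ _ hy)]
      simp
    have hζp : IsPrimitiveRoot (ζ ^ 2) p := hζ.pow (by have := hp.pos; omega) rfl
    let t : (𝓞 L)ˣ := sUnitP p D γ m n χ θ c
    let t' : (𝓞 M)ˣ := Units.map (algebraMap (𝓞 L) (𝓞 M)).toMonoidHom t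
    have ht'1 : ((t' : 𝓞 M) : M) = algebraMap L M ((t : 𝓞 L) : L) := rfl
    have hUM := h3 p k M (ζ ^ 2) t' hζp (by
        intro y hy
        exact hθ' y (hy.trans ht'1)) S hpr (U.comap N) (by
        rintro _ ⟨a, rfl⟩
        rw [Subgroup.mem_comap, hN1]
        exact hUprin ⟨_, rfl⟩) (by
        intro σ x hx
        obtain ⟨τ, hτ⟩ := hres σ
        rw [Subgroup.mem_comap, hN3 σ τ hτ]
        exact hUσ τ _ hx) (by
        intro w q hq hqS hcard hnt
        rw [Subgroup.mem_comap]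
        -- the prime below
        set v : HeightOneSpectrum (𝓞 L) :=
          ⟨w.asIdeal.under (𝓞 L), inferInstance, Ideal.under_ne_bot (𝓞 L) w.ne_bot⟩ with hv
        have hvw : w.asIdeal.under (𝓞 L) = v.asIdeal := rfl
        have hcv : Nat.card (𝓞 L ⧸ v.asIdeal) = q := card_under w q hq hcard
        have hab : HasAb L M v q := ⟨w, rfl, hcard⟩
        have hgood : GoodPrP p k L S v q :=
          h2 p k L M S ζ hζ h2S hpS hpr hram v q hq hqS hcv hab
        rw [(hN2 w v rfl).2 (hcard.trans hcv.symm)]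
        refine h6 p F k L n m m₀ γ D hTw hmn S hdec c χ θ f hf hfp hfχ v q hgood
          (hK v q hgood hab) ?_
        intro a ha
        apply hnt (algebraMap (𝓞 L) (𝓞 M) a)
        have ha' : algebraMap (𝓞 L) (𝓞 M) ((t : 𝓞 L) - a ^ p) ∈ w.asIdeal := ha
        rw [map_sub, map_pow] at ha'
        exact ha') γ' z
    have hx1 : dg γ (N z) ∈ U := by
      rw [Subgroup.mem_comap, map_mul, map_inv, hNγ] at hUM
      have := U.inv_mem hUM
      rw [dg_apply, div_eq_mul_inv]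
      rw [mul_inv_rev, inv_inv] at this
      exact this
    have hx3 := (hU _).1 hx1 0
    simp only [Φ, pow_zero, one_smul] at hx3
    rw [Function.iterate_succ_apply]
    have hY0 : f ((γ ^ (p ^ m₀) • γ ^ (p ^ m) • (dg γ (N z))) *
        (γ ^ (p ^ m) • (dg γ (N z)))⁻¹ *
        (γ ^ (p ^ m₀) • (dg γ (N z)))⁻¹ *
        (dg γ (N z))) = 0 := by
      rw [hf, hf, hf, hfi, hfi]
      linear_combination hx3
    rcases two_frob p P γ (hst γ) hcu m₀ m (dg γ (N z)) with h7 | h7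
    · rw [hfcls _ _ h7, hY0]
    · rw [← cls_inv] at h7
      rw [hfcls _ _ h7, hfi, hY0, neg_zero]
  -- the second part
  set W : Subgroup (J L) := N.range ⊔ P with hW
  have hWmem : ∀ x : J L, x ∈ W ↔ ∃ (z : J M), ∃ y ∈ P, N z * y = x := by
    intro x
    rw [hW, Subgroup.mem_sup]
    constructor
    · rintro ⟨_, ⟨z, rfl⟩, y, hy, rfl⟩
      exact ⟨z, y, hy, rfl⟩
    · rintro ⟨z, y, hy, rfl⟩
      exact ⟨_, ⟨z, rfl⟩, y, hy, rfl⟩
  have hWst : ∀ x ∈ W, γ • x ∈ W := by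
    intro x hx
    obtain ⟨z, y, hy, rfl⟩ := (hWmem x).1 hx
    refine (hWmem _).2 ⟨γ' • z, γ • y, hst γ _ hy, ?_⟩
    rw [smul_mul', hNγ]
  have hWi := h5 L M S hpr W (le_sup_left.trans (le_sup_right : P ≤ W)) (by
    rintro v q hq hqS hcard ⟨w, hw1, hw2⟩
    have h7 := (hN2 w v hw1).2 (by rw [hw2, hcard])
    rw [← h7]
    exact (hWmem _).2 ⟨vJ w, 1, P.one_mem, mul_one _⟩)
  have hst' : ∀ y ∈ P, ∀ j : ℕ, (dg γ)^[j] y ∈ P := fun y hy j =>
    iter_mem P γ (hst γ) j _ hy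
  have hb2 : ∀ b : J L, f ((dg γ)^[p ^ m₀ + p ^ m + 1] ((dg γ)^[Module.finrank L M] b)) = 0 := by
    intro b
    have hb1 := fin_nil p W γ hWst (fun x => (le_sup_right : P ≤ W) (hcu x)) n
      (Module.finrank L M) (by rw [← hTw.ord, pow_orderOf_eq_one]) hWi.1 hWi.2 b
    obtain ⟨z, y, hy, hzy⟩ := (hWmem _).1 hb1
    rw [← hzy, iter_mul, hf, hkey z, hfP _ (hst' _ hy _), add_zero]
  have hle : p ^ m₀ + p ^ m ≤ p ^ (max m m₀ + 1) := by
    have h7 : p ^ m₀ ≤ p ^ (max m m₀) := Nat.pow_le_pow_right hp.pos (le_max_right _ _)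
    have h8 : p ^ m ≤ p ^ (max m m₀) := Nat.pow_le_pow_right hp.pos (le_max_left _ _)
    have h9 : 2 * p ^ (max m m₀) ≤ p * p ^ (max m m₀) := Nat.mul_le_mul_right _ hp.two_le
    rw [pow_succ']
    omega
  obtain ⟨r, hr⟩ := Nat.exists_eq_add_of_le hle
  have h7 : p ^ (max m m₀ + 1) + 1 + Module.finrank L M =
      (p ^ m₀ + p ^ m + 1) + (Module.finrank L M + r) := by omega
  rw [h7, Function.iterate_add_apply _ (p ^ m₀ + p ^ m + 1), Function.iterate_add_apply _ (Module.finrank L M)]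
  exact hb2 _

end Pool.Agent.OB
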