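import Pool.Agent.OB.StK
import Pool.Agent.NS.I_INP

/-!
# OB, block K for one character: PIG
-/

set_option autoImplicit false

open NumberField IsDedekindDomain Finset Filter Topology
open scoped nonZeroDivisors Pointwise

namespace Pool.Agent.OB

open _root_.Pool.Agent.MU3 _root_.Pool.Agent.RI _root_.Pool.Agent.RID _root_.Pool.Agent.MUXK
  _root_.Pool.Agent.MUXZ _root_.Pool.Agent.NSI

theorem t_PIG (h1 : Sn_LEM1) (h2 : Sn_NRX) : S_PIG := by
  intro F _ p _ k K₀ K B _ _ _ _ hX hk hk₀ hkK S c c₀ n₁ hI ι _ χ h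
  have hfd₀ : FiniteDimensional ℚ K₀ :=
    FiniteDimensional.of_injective (IntermediateField.inclusion hX.le).toLinearMap
      (IntermediateField.inclusion hX.le).injective
  have hNr := h2 p k K₀ K B hX hk hk₀ S c c₀ n₁ hI
  have h3 : ∃ i : ι, ∀ n₀ : ℕ, ∃ n, n₀ ≤ n ∧
      I3At F p k K₀ B hkK (χ i) 1 n (hk₀ n) (c₀ n) (hI.mem₀ n) := by
    by_contra hcon
    push Not at hcon
    choose N hN using hcon
    obtain ⟨M, hM⟩ := (Set.finite_range N).bddAbove
    obtain ⟨i, n, hn, hi⟩ := h M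
    exact hN i n ((hM (Set.mem_range_self i)).trans hn) hi
  obtain ⟨i, hi⟩ := h3
  exact ⟨i, fun N n₀ => h1 F p k K₀ B hX.b0 hX.cop hX.om hk₀ hkK c₀ hI.mem₀
    (_root_.Pool.Agent.NSI.INP.c_ne hI) n₁ hNr (χ i) hi N n₀⟩

end Pool.Agent.OB
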