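import Pool.Agent.OB.StK
import Pool.Agent.OB.K_KOLO
import Pool.Agent.OB.K_I3O
import Pool.Agent.OB.K_NILO
import Pool.Agent.OB.K_MAINO
import Pool.Agent.OB.K_BNDO
import Pool.Agent.OB.K_PIG
import Pool.Agent.OB.K_CNJ
import Pool.Agent.MUX.KAllX
import Pool.Agent.NS.I_NR1
import Pool.Agent.NS.I_NRX
import Pool.Agent.NS.I_LEM1

/-!
# OB, block K for one character, assembled
-/

set_option autoImplicit false

namespace Pool.Agent.OB

open _root_.Pool.Agent.MUXK _root_.Pool.Agent.NSI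

theorem o_KOLO : S_KOLO := t_KOLO k_KINX k_KNM k_GALX k_RAMX
theorem o_SU0O : S_SU0O := t_SU0O
theorem o_NR1 : Sn_NR1 := tn_NR1 k_GALX k_GENX k_LFX
theorem o_NRX : Sn_NRX := tn_NRX o_NR1 k_RSX
theorem o_LEM1 : Sn_LEM1 := tn_LEM1 k_GALX k_RSX
theorem o_I3O : S_I3O := t_I3O k_RSX o_NRX k_TNX k_NCP k_GALX
theorem o_NILO : S_NILO := t_NILO k_STABX k_THDX k_NRJ k_NIX k_NILXX
theorem o_MAINO : S_MAINO :=
  t_MAINO k_GALX k_TWX k_LFX k_M0X k_RAMX o_KOLO o_SU0O o_I3O o_NILO k_RSX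
theorem o_BNDO : S_BNDO := t_BNDO o_MAINO k_GENX k_GALX
theorem o_PIG : S_PIG := t_PIG o_LEM1 o_NRX
theorem o_CNJ : S_CNJ := t_CNJ

end Pool.Agent.OB
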