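import Pool.Agent.OB.StQ

/-!
# OB, the corollary for `p = 5`, module BAX: `BasX` from coprime degrees (helper11)
-/

set_option autoImplicit false

namespace Pool.Agent.OB

open _root_.Pool.Agent.RI _root_.Pool.Agent.RID _root_.Pool.Agent.MU3 _root_.Pool.Agent.MUXK
  _root_.Pool.Agent.MUXZ _root_.Pool.Agent.NSI

/-- (BAX) `BasX` from coprime degrees -/
theorem tq_BAX : Sq_BAX := by
  intro p hp k K B _ hk hgal hab hdeg hlay hmono
  refine ⟨hk, hgal, hab, fun n => ?_, hlay, hmono⟩
  have h1 := (hlay n).1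
  have hpos : 0 < Module.finrank ℚ ↥(B n) := by
    rw [h1]
    exact pow_pos hp.out.pos n
  haveI : FiniteDimensional ℚ ↥(B n) := Module.finite_of_finrank_pos hpos
  have hcop : (Module.finrank ℚ ↥K).Coprime (Module.finrank ℚ ↥(B n)) := by
    rw [h1]
    exact ((Nat.Prime.coprime_iff_not_dvd hp.out).2 hdeg).symm.pow_right n
  have hld : K.LinearDisjoint (B n) := IntermediateField.LinearDisjoint.of_finrank_coprime hcop
  rw [hld.finrank_sup, h1]

end Pool.Agent.OB
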