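import Pool.Agent.OB.StQ

/-!
# OB, the corollary for `p = 5`: `ℚ(μ_5)` has class number one (helper2)
-/

set_option autoImplicit false

open NumberField

namespace Pool.Agent.OB

open _root_.Pool.Agent.RI _root_.Pool.Agent.RID _root_.Pool.Agent.MU3 _root_.Pool.Agent.MUXK
  _root_.Pool.Agent.MUXZ _root_.Pool.Agent.NSI

theorem tq_CY5 : Sq_CY5 := by
  set C : IntermediateField ℚ ℂ := IntermediateField.adjoin ℚ {z : ℂ | z ^ 5 = 1} with hC
  have hcy : IsCyclotomicExtension {5} ℚ C := by
    have h := IntermediateField.isCyclotomicExtension_adjoin_of_exists_isPrimitiveRoot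
      {5} ℚ ℂ (fun n hn _ => by
        rw [Set.mem_singleton_iff] at hn
        subst hn
        exact ⟨_, Complex.isPrimitiveRoot_exp 5 (by norm_num)⟩)
    have e : {x : ℂ | ∃ n ∈ ({5} : Set ℕ), n ≠ 0 ∧ x ^ n = 1} = {z : ℂ | z ^ 5 = 1} := by
      ext x
      simp
    rw [e] at h
    exact h
  have hnf : NumberField C := IsCyclotomicExtension.numberField {5} ℚ C
  have hfd : FiniteDimensional ℚ C := hnf.to_finiteDimensional
  refine ⟨hfd, ?_⟩
  have hpid : IsPrincipalIdealRing (𝓞 C) := IsCyclotomicExtension.Rat.five_pid C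
  have h1 : NumberField.classNumber C = 1 := NumberField.classNumber_eq_one_iff.2 hpid
  rw [← h1]
  unfold classNo NumberField.classNumber
  exact Nat.card_eq_fintype_card

end Pool.Agent.OB
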