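import Pool.Agent.OB.StQ
import Pool.Agent.RI.CL
import Pool.Agent.RI.EXTACT
import Pool.Agent.MUX.K_MAINKX
import Pool.Agent.MUX.K_I3X
import Pool.Agent.MUX.K_NR1

/-!
# OB, corollary for `p = 5`: DSC, descent
-/

set_option autoImplicit false

open NumberField IsDedekindDomain Finset
open scoped nonZeroDivisors Pointwise

namespace Pool.Agent.OB

open _root_.Pool.Agent.RI _root_.Pool.Agent.RID _root_.Pool.Agent.MU3 _root_.Pool.Agent.MUXK
  _root_.Pool.Agent.MUXZ _root_.Pool.Agent.NSI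

namespace DSC

/-- `p`-th powers times principal ideals. -/
noncomputable def PP (p : ℕ) (L : Type) [Field L] [NumberField L] : Subgroup (J L) :=
  (prin : Lˣ →* J L).range ⊔ (powMonoidHom p : J L →* J L).range

lemma mem_PP {p : ℕ} {L : Type} [Field L] [NumberField L] (x : J L) :
    x ∈ PP p L ↔ ∃ (a : Lˣ) (y : J L), prin a * y ^ p = x := by
  rw [PP, Subgroup.mem_sup]
  constructor
  · rintro ⟨_, ⟨a, rfl⟩, _, ⟨y, rfl⟩, rfl⟩
    exact ⟨a, y, rfl⟩
  · rintro ⟨a, y, rfl⟩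
    exact ⟨_, ⟨a, rfl⟩, _, ⟨y, rfl⟩, rfl⟩

lemma pow_PP (p : ℕ) {L : Type} [Field L] [NumberField L] (x : J L) : x ^ p ∈ PP p L :=
  (mem_PP _).2 ⟨1, x, by rw [map_one, one_mul]⟩

lemma prin_PP (p : ℕ) {L : Type} [Field L] [NumberField L] (a : Lˣ) : prin a ∈ PP p L :=
  (mem_PP _).2 ⟨a, 1, by rw [one_pow, mul_one]⟩

lemma smul_PP (p : ℕ) {k L : Type} [Field k] [Field L] [NumberField L] [Algebra k L]
    (σ : L ≃ₐ[k] L) (x : J L) (hx : x ∈ PP p L) : σ • x ∈ PP p L := by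
  obtain ⟨a, y, rfl⟩ := (mem_PP x).1 hx
  refine (mem_PP _).2 ⟨σ • a, σ • y, ?_⟩
  rw [smul_mul', smul_prin, smul_pow']

/-- Descent of `PP` in an extension of degree prime to `p`. -/
lemma PP_of_ext {p : ℕ} (hp : p.Prime) {L M : Type} [Field L] [NumberField L] [Field M]
    [NumberField M] [Algebra L M] [IsGalois L M] (hd : ¬ p ∣ Module.finrank L M) (v : J L)
    (hv : ext L M v ∈ PP p M) : v ∈ PP p L := by
  obtain ⟨a, y, hay⟩ := (mem_PP _).1 hv
  obtain ⟨y', hy'⟩ := CL.nm_mem (F := L) y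
  have h1 : v ^ Module.finrank L M ∈ PP p L := by
    refine (mem_PP _).2 ⟨Units.map (Algebra.norm L : M →* L) a, y', ?_⟩
    apply ext_injective L M
    rw [map_mul, ← CL.nm_prin, map_pow, hy', map_pow, ← CL.nm_ext, ← hay, map_mul, map_pow]
  have h2 : IsCoprime ((Module.finrank L M : ℕ) : ℤ) (p : ℤ) := by
    rw [Nat.isCoprime_iff_coprime]
    refine (Nat.Coprime.symm ?_)
    rwa [hp.coprime_iff_not_dvd]
  obtain ⟨u, w, huw⟩ := h2
  have h3 : v = (v ^ Module.finrank L M) ^ u * (v ^ w) ^ p := by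
    rw [← zpow_natCast v, ← zpow_natCast (v ^ w), ← zpow_mul, ← zpow_mul, ← zpow_add]
    have : ((Module.finrank L M : ℕ) : ℤ) * u + w * (p : ℤ) = 1 := by linarith
    rw [this, zpow_one]
  rw [h3]
  exact mul_mem (zpow_mem h1 u) (pow_PP p _)

/-- `dg` and extension of ideals. -/
lemma dg_ext {k k' L M : Type} [Field k] [Field k'] [Field L] [NumberField L] [Field M]
    [NumberField M] [Algebra L M] [Algebra k M] [Algebra k' L] (g' : M ≃ₐ[k] M)
    (g : L ≃ₐ[k'] L) (h : ∀ x : L, algebraMap L M (g x) = g' (algebraMap L M x)) (b : J L)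
    (l : ℕ) : ext L M ((dg g)^[l] b) = (dg g')^[l] (ext L M b) := by
  induction l generalizing b with
  | zero => rfl
  | succ l ih =>
    rw [Function.iterate_succ_apply, ih, Function.iterate_succ_apply]
    congr 1
    rw [dg_apply, dg_apply, map_div]
    congr 1
    exact EXTACT_thm k' L k M g' g h b

/-- An automorphism of order at least `p ^ n` which is trivial on `K` fixes exactly `K`. -/
lemma exact_fix (hGEN : S_GENX) (p : ℕ) [Fact p.Prime] (k K : IntermediateField ℚ ℂ)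
    [FiniteDimensional ℚ K] (B : ℕ → IntermediateField ℚ ℂ)
    [∀ n, FiniteDimensional ℚ ↥(K ⊔ B n)] (hB : BasX p k K B) (n : ℕ) (h : k ≤ K ⊔ B n) :
    letI := algC h
    ∀ g : ↥(K ⊔ B n) ≃ₐ[k] ↥(K ⊔ B n), (∀ x : ↥(K ⊔ B n), (x : ℂ) ∈ K → g x = x) →
    p ^ n ≤ orderOf g → ∀ x : ↥(K ⊔ B n), g x = x ↔ (x : ℂ) ∈ K := by
  let akL : Algebra k ↥(K ⊔ B n) := algC h
  intro g hg hord
  obtain ⟨G, hG1, hG2, -⟩ := hGEN p k K B hB.hk hB.deg hB.lay hB.mono n h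
  have hkfd : FiniteDimensional k ↥(K ⊔ B n) := Module.Finite.of_restrictScalars_finite ℚ k _
  have hmem : g ∈ Subgroup.zpowers G := by
    have hkK : k ≤ K := hB.hk
    have ez := P_TWK.zp G (GCC.sub h K hkK)
      (fun x => (hG2 x).trans (GCC.mem_sub h K hkK x).symm)
    rw [← ez]
    intro x
    obtain ⟨x, hx⟩ := x
    exact hg x hx
  have hle : Subgroup.zpowers g ≤ Subgroup.zpowers G := by
    rwa [Subgroup.zpowers_le]
  have hfin : Finite (↥(K ⊔ B n) ≃ₐ[k] ↥(K ⊔ B n)) := inferInstance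
  have heq : Subgroup.zpowers g = Subgroup.zpowers G := by
    apply Subgroup.eq_of_le_of_card_ge hle
    rw [Nat.card_zpowers, Nat.card_zpowers, hG1]
    exact hord
  intro x
  constructor
  · intro h1
    rw [← hG2]
    have h2 : g ∈ MulAction.stabilizer (↥(K ⊔ B n) ≃ₐ[k] ↥(K ⊔ B n)) x := h1
    have h3 : G ∈ Subgroup.zpowers g := heq ▸ Subgroup.mem_zpowers G
    obtain ⟨j, hj⟩ := h3
    have h4 := zpow_mem h2 j
    have hj' : g ^ j = G := hj
    rw [hj'] at h4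
    exact h4
  · exact hg x

end DSC

open DSC in
theorem tq_DSC (h1 : S_GALX) (h2 : S_GENX) (h3 : S_TWX) (h4 : S_LFX) (h5 : S_RSX)
    (h6 : S_EIGX) (h7 : S_FINX) : Sq_DSC := by
  intro F _ _ p hp _ k K₀ E B _ _ _ _ hB hE hEE hcop hcopE hk₀ hkK hEB l X hX hX'
  have hEK : E ≤ K₀ := hE.hk
  have hfdE : FiniteDimensional ℚ E :=
    FiniteDimensional.of_injective (IntermediateField.inclusion hEK).toLinearMap
      (IntermediateField.inclusion hEK).injective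
  refine h7 p l E E B le_rfl hEE.deg hEE.lay hEE.mono ?_
  intro n hEn
  let aEn : Algebra E ↥(E ⊔ B n) := algC hEn
  intro g hg b
  have hEL : E ≤ K₀ ⊔ B n := hEK.trans le_sup_left
  let akK : Algebra k ↥K₀ := algC hkK
  let akL : Algebra k ↥(K₀ ⊔ B n) := algC (hk₀ n)
  let aEL : Algebra E ↥(K₀ ⊔ B n) := algC hEL
  let aLL : Algebra ↥(E ⊔ B n) ↥(K₀ ⊔ B n) := algC (hEB n)
  have tow : IsScalarTower E ↥(E ⊔ B n) ↥(K₀ ⊔ B n) := IsScalarTower.of_algebraMap_eq (fun _ => rfl)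
  -- the lift of `g`
  obtain ⟨γ, hγ1, hγ2⟩ := h4 p E E K₀ B hEE hE hEK n hEL hEn (hEB n) g
    (fun x hx => (hg x).2 hx)
  have hcop1 : ¬ p ∣ Module.finrank E (IntermediateField.extendScalars hEE.hk) := by
    have h8 : Module.finrank ℚ E * Module.finrank E (IntermediateField.extendScalars hEE.hk) =
        Module.finrank ℚ E := Module.finrank_mul_finrank ℚ E (IntermediateField.extendScalars hEE.hk)
    have h9 : 0 < Module.finrank ℚ E := Module.finrank_pos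
    have h10 : Module.finrank E (IntermediateField.extendScalars hEE.hk) = 1 :=
      Nat.eq_of_mul_eq_mul_left h9 (by rw [h8, mul_one])
    rw [h10]
    exact hp.out.one_lt.ne' ∘ Nat.dvd_one.1
  have hordg : orderOf g = p ^ n := (h3 p E E B hEE hcop1 n hEn g hg).ord
  have hpow := K_MAINKX.lift_pow hEn hEL (hEB n) g γ hγ2
  have hordγ : p ^ n ≤ orderOf γ := by
    have hfd' : FiniteDimensional E ↥(K₀ ⊔ B n) := Module.Finite.of_restrictScalars_finite ℚ E _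
    have hfin : Finite (↥(K₀ ⊔ B n) ≃ₐ[E] ↥(K₀ ⊔ B n)) := inferInstance
    have hpos : 0 < orderOf γ := orderOf_pos γ
    apply Nat.le_of_dvd hpos
    rw [← hordg]
    apply orderOf_dvd_of_pow_eq_one
    apply AlgEquiv.ext
    intro x
    apply Subtype.ext
    rw [← hpow, pow_orderOf_eq_one]
    rfl
  -- `γ` as an automorphism over `k`
  let γ' : ↥(K₀ ⊔ B n) ≃ₐ[k] ↥(K₀ ⊔ B n) :=
    AlgEquiv.ofRingEquiv (f := (γ : ↥(K₀ ⊔ B n) ≃+* ↥(K₀ ⊔ B n)))
      (fun a => hγ1 _ (hkK a.2))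
  have hγ'1 : ∀ x, γ' x = γ x := fun _ => rfl
  have hγ'pow : ∀ (j : ℕ) (x : ↥(K₀ ⊔ B n)), (γ' ^ j) x = (γ ^ j) x := by
    intro j
    induction j with
    | zero => intro x; rfl
    | succ j ih => intro x; rw [pow_succ, AlgEquiv.mul_apply, ih, pow_succ, AlgEquiv.mul_apply, hγ'1]
  have hordγ' : p ^ n ≤ orderOf γ' := by
    have hfd' : FiniteDimensional k ↥(K₀ ⊔ B n) := Module.Finite.of_restrictScalars_finite ℚ k _
    have hfin : Finite (↥(K₀ ⊔ B n) ≃ₐ[k] ↥(K₀ ⊔ B n)) := inferInstance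
    have hpos : 0 < orderOf γ' := orderOf_pos γ'
    refine hordγ.trans (Nat.le_of_dvd hpos ?_)
    apply orderOf_dvd_of_pow_eq_one
    apply AlgEquiv.ext
    intro x
    rw [← hγ'pow, pow_orderOf_eq_one]
    rfl
  have hfix := exact_fix h2 p k K₀ B hB n (hk₀ n) γ' (fun x hx => hγ1 x hx) hordγ'
  -- the ideal
  by_contra hcon
  push Not at hcon
  set v : J ↥(E ⊔ B n) := (dg g)^[l] b with hv
  have hvP : v ∉ PP p ↥(E ⊔ B n) := by
    intro h8
    obtain ⟨a, y, hay⟩ := (mem_PP _).1 h8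
    exact hcon y a (by rw [← hay, mul_comm])
  have hgalL : IsGalois ↥(E ⊔ B n) ↥(K₀ ⊔ B n) := by
    have h8 := (h1 p E K₀ B hE n hEL).1
    exact IsGalois.tower_top_of_isGalois E ↥(E ⊔ B n) ↥(K₀ ⊔ B n)
  have hdL : ¬ p ∣ Module.finrank ↥(E ⊔ B n) ↥(K₀ ⊔ B n) := by
    have h8 : Module.finrank ↥(E ⊔ B n) ↥(K₀ ⊔ B n) = Module.finrank ℚ K₀ / Module.finrank ℚ E :=
      K_MAINKX.finrank_quot (hEB n) _ _ (p ^ n) Module.finrank_pos (pow_pos hp.out.pos n)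
        (hEE.deg n) (hE.deg n)
    have h9 : Module.finrank ℚ E * Module.finrank E (IntermediateField.extendScalars hE.hk) =
        Module.finrank ℚ K₀ := Module.finrank_mul_finrank ℚ E (IntermediateField.extendScalars hE.hk)
    rw [h8, ← h9, Nat.mul_div_cancel_left _ Module.finrank_pos]
    exact hcopE
  have hvL : ext ↥(E ⊔ B n) ↥(K₀ ⊔ B n) v ∉ PP p ↥(K₀ ⊔ B n) := fun h8 =>
    hvP (PP_of_ext hp.out hdL v h8)
  have tw := h3 p k K₀ B hB hcop n (hk₀ n) γ' hfix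
  have hfinD : Finite (NC (hk₀ n) (B n)) := by
    have hfd' : FiniteDimensional k ↥(K₀ ⊔ B n) := Module.Finite.of_restrictScalars_finite ℚ k _
    have hfin : Finite (↥(K₀ ⊔ B n) ≃ₐ[k] ↥(K₀ ⊔ B n)) := inferInstance
    infer_instance
  obtain ⟨χ', f, hf1, hf2, hf3, hf4⟩ := h6 p F (↥(K₀ ⊔ B n) ≃ₐ[k] ↥(K₀ ⊔ B n)) (J ↥(K₀ ⊔ B n))
    (NC (hk₀ n) (B n)) (fun a _ b _ => tw.comm a b) tw.cop (PP p ↥(K₀ ⊔ B n))
    (fun σ x hx => smul_PP p σ x hx) (fun x => pow_PP p x) _ hvL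
  obtain ⟨τ, hτ⟩ := I3X19.restr h5 p k K₀ B hB hcop hkK n (hk₀ n)
  let χ : (↥K₀ ≃ₐ[k] ↥K₀) →* Fˣ := χ'.comp τ.symm.toMonoidHom
  have hχ : ∀ δ, χ (τ δ) = χ' δ := fun δ => by
    show χ' (τ.symm (τ δ)) = χ' δ
    rw [τ.symm_apply_apply]
  have hEig : EigF F k K₀ B n (hk₀ n) hkK χ f := by
    refine ⟨hf1, fun x hx => ?_, fun δ s hs x => ?_⟩
    · obtain ⟨a, rfl⟩ := hx
      exact hf2 _ (prin_PP p a)
    · have hs' : s = τ δ := by
        refine AlgEquiv.ext fun x => Subtype.ext ?_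
        have hx1 : (x : ℂ) ∈ K₀ ⊔ B n := le_sup_left (a := K₀) x.2
        rw [← hτ δ x ⟨x, hx1⟩ rfl, ← hs x ⟨x, hx1⟩ rfl]
      rw [hs', hχ]
      exact hf3 δ x
  apply hf4
  by_cases hχX : χ ∈ X
  · have h8 := hX χ hχX n γ' hfix f hEig (ext ↥(E ⊔ B n) ↥(K₀ ⊔ B n) b)
    rw [← dg_ext γ' g (fun x => Subtype.ext (hγ2 x).symm)] at h8
    exact h8
  · exact hX' n χ hχX f hEig v

end Pool.Agent.OB
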