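import Pool.Agent.OB.StQ
import Pool.Agent.MUX.K_FINX

/-!
# OB, corollary for `p = 5`: RAT, the field of the fifth roots of unity
-/

set_option autoImplicit false

open NumberField IsDedekindDomain Finset
open scoped nonZeroDivisors Pointwise

namespace Pool.Agent.OB

open _root_.Pool.Agent.RI _root_.Pool.Agent.RID

theorem tq_RAT (h1 : Sq_REG) (h2 : Sq_CY5) (h3 : Sq_SBF) : Sq_RAT := by
  intro B _ hB hmono n c
  haveI : Fact (Nat.Prime 5) := ⟨by norm_num⟩
  obtain ⟨h4, h5⟩ := h2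
  have h6 := h1 5 (by norm_num) (IntermediateField.adjoin ℚ {z : ℂ | z ^ 5 = 1}) B rfl hB hmono
    (by rw [h5]; norm_num) n
  rw [_root_.Pool.Agent.MUXK.Finx.classNo_eq] at h6
  refine h3 5 ↥(IntermediateField.adjoin ℚ {z : ℂ | z ^ 5 = 1} ⊔ B n)
    ↥(IntermediateField.adjoin ℚ {z : ℂ | z ^ 5 = 1} ⊔ B n) ?_ h6 c
  rw [Module.finrank_self]
  norm_num

end Pool.Agent.OB
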