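import Pool.Agent.OB.StQ
import Pool.Agent.MUX.K_FINX
import Pool.Agent.MUX.K_MAINKX
import Pool.Agent.MU3.N_GAL

/-!
# OBQ_REG: regular primes, the class numbers of `ℚ(μ_p) B_n` (helper16)
-/

set_option autoImplicit false

open NumberField IsDedekindDomain Finset
open scoped nonZeroDivisors Pointwise

namespace Pool.Agent.OB

open _root_.Pool.Agent.RI _root_.Pool.Agent.RID _root_.Pool.Agent.MU3 _root_.Pool.Agent.MUXK
  _root_.Pool.Agent.MUXZ _root_.Pool.Agent.NSI

namespace QREG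

lemma cyc1 (p : ℕ) [hp : Fact p.Prime] :
    IsCyclotomicExtension {p} ℚ ↥(IntermediateField.adjoin ℚ {z : ℂ | z ^ p = 1}) := by
  have hN : p ≠ 0 := hp.out.ne_zero
  have h := IntermediateField.isCyclotomicExtension_adjoin_of_exists_isPrimitiveRoot
    ({p} : Set ℕ) ℚ ℂ (fun n hn _ => by
      rw [Set.mem_singleton_iff] at hn
      rw [hn]
      exact ⟨_, Complex.isPrimitiveRoot_exp _ hN⟩)
  have hset : {x : ℂ | ∃ n ∈ ({p} : Set ℕ), n ≠ 0 ∧ x ^ n = 1} = {z : ℂ | z ^ p = 1} := by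
    ext x
    simp [hp.out.ne_zero]
  rw [hset] at h
  exact h

lemma inf_card (K : Type) [Field K] [NumberField K] (h : InfinitePlace.nrRealPlaces K = 0) :
    2 * Nat.card (InfinitePlace K) = Module.finrank ℚ K := by
  have h1 := InfinitePlace.card_add_two_mul_card_eq_rank K
  have h2 := InfinitePlace.card_eq_nrRealPlaces_add_nrComplexPlaces K
  rw [Nat.card_eq_fintype_card, h2, ← h1, h]
  ring

lemma under_eq (p : ℕ) [hp : Fact p.Prime] (K : Type) [Field K] [NumberField K]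
    (v : HeightOneSpectrum (𝓞 K)) (hv : (p : 𝓞 K) ∈ v.asIdeal) :
    v.asIdeal.LiesOver (Ideal.span {(p : ℤ)}) := by
  have hmax : (Ideal.span {(p : ℤ)}).IsMaximal := Int.ideal_span_isMaximal_of_prime p
  refine ⟨hmax.eq_of_le ?_ ?_⟩
  · have := v.isPrime
    exact (Ideal.IsPrime.under ℤ v.asIdeal).ne_top
  · rw [Ideal.span_singleton_le_iff_mem, Ideal.under_def, Ideal.mem_comap]
    simpa using hv

lemma one_prime (p : ℕ) [hp : Fact p.Prime] (K : Type) [Field K] [NumberField K]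
    [hK : IsCyclotomicExtension {p} ℚ K] (v v' : HeightOneSpectrum (𝓞 K))
    (hv : (p : 𝓞 K) ∈ v.asIdeal) (hv' : (p : 𝓞 K) ∈ v'.asIdeal) : v = v' := by
  have h1 := under_eq p K v hv
  have h2 := under_eq p K v' hv'
  have h3 := v.isPrime
  have h4 := v'.isPrime
  have : NeZero p := ⟨hp.out.ne_zero⟩
  apply HeightOneSpectrum.ext
  rw [IsCyclotomicExtension.Rat.eq_span_zeta_sub_one_of_liesOver' p K
      (IsCyclotomicExtension.zeta_spec p ℚ K) v.asIdeal,
    IsCyclotomicExtension.Rat.eq_span_zeta_sub_one_of_liesOver' p K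
      (IsCyclotomicExtension.zeta_spec p ℚ K) v'.asIdeal]

lemma finS (p : ℕ) [hp : Fact p.Prime] (K : Type) [Field K] [NumberField K]
    [hK : IsCyclotomicExtension {p} ℚ K] :
    ∃ S : Finset (HeightOneSpectrum (𝓞 K)), S.card ≤ 1 ∧ ∀ v : HeightOneSpectrum (𝓞 K),
      (p : 𝓞 K) ∈ v.asIdeal → v ∈ S := by
  classical
  obtain ⟨S, hS⟩ := Finx.finS p K
  refine ⟨S.filter (fun v => (p : 𝓞 K) ∈ v.asIdeal), ?_, fun v hv =>
    Finset.mem_filter.2 ⟨hS v hv, hv⟩⟩
  refine Finset.card_le_one.2 fun a ha b hb => ?_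
  exact one_prime p K a b (Finset.mem_filter.1 ha).2 (Finset.mem_filter.1 hb).2

/-- Cauchy -/
lemma of_rkp (p : ℕ) [hp : Fact p.Prime] (Q : Type) [CommGroup Q] [Finite Q]
    (h : padicValNat p (Nat.card {c : Q // c ^ p = 1}) = 0) : ¬ p ∣ Nat.card Q := by
  intro hd
  obtain ⟨x, hx⟩ := exists_prime_orderOf_dvd_card' p hd
  let H : Subgroup Q := (powMonoidHom p : Q →* Q).ker
  have e : Nat.card {c : Q // c ^ p = 1} = Nat.card H :=
    Nat.card_congr (Equiv.refl _)
  have hxH : x ∈ H := by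
    show x ^ p = 1
    rw [← hx]
    exact pow_orderOf_eq_one x
  have h1 : p ∣ Nat.card H := by
    have h2 := orderOf_dvd_natCard (⟨x, hxH⟩ : H)
    have h3 : orderOf (⟨x, hxH⟩ : H) = p := by
      rw [← hx]
      exact (Subgroup.orderOf_mk x hxH)
    rwa [h3] at h2
  rw [e] at h
  have h0 : Nat.card H ≠ 0 := Nat.card_pos.ne'
  rcases padicValNat.eq_zero_iff.1 h with h' | h' | h'
  · exact hp.out.ne_one h'
  · exact h0 h'
  · exact h' h1

end QREG

open QREG in
theorem tq_REG (h1 : Sq_CHS) : Sq_REG := by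
  intro p hp hp2 C _ B _ hC hB hmono hcl n
  have hpp : p.Prime := hp.out
  have hcyC : IsCyclotomicExtension {p} ℚ ↥C := by
    rw [hC]
    exact cyc1 p
  have : NeZero p := ⟨hpp.ne_zero⟩
  have hfin : Module.finrank ℚ C = p - 1 := by
    rw [IsCyclotomicExtension.finrank (K := ℚ) (n := p) ↥C
      (Polynomial.cyclotomic.irreducible_rat hpp.pos), Nat.totient_prime hpp]
  have h2 := hpp.two_le
  have h3 : 2 < p := by omega
  have hcop : ¬ p ∣ Module.finrank ℚ C := by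
    rw [hfin]
    intro hd
    have := Nat.le_of_dvd (by omega) hd
    omega
  have hCL : C ≤ C ⊔ B n := le_sup_left
  let aKL : Algebra C ↥(C ⊔ B n) := algC hCL
  obtain ⟨g, ord, fix, -⟩ := _root_.MU3.Gal.overK p C B hcop hB hmono n
  have hcyc : CycExt C C ↥(C ⊔ B n) g (p ^ n) := by
    refine ⟨ord, fun x => ?_⟩
    rw [fix x]
    constructor
    · intro hx
      exact ⟨⟨(x : ℂ), hx⟩, rfl⟩
    · rintro ⟨y, rfl⟩
      exact y.2
  have hζ := IsCyclotomicExtension.zeta_spec p ℚ ↥C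
  have rC : InfinitePlace.nrRealPlaces ↥C = 0 :=
    NumberField.InfinitePlace.IsPrimitiveRoot.nrRealPlaces_eq_zero_of_two_lt h3 hζ
  have rL : InfinitePlace.nrRealPlaces ↥(C ⊔ B n) = 0 :=
    NumberField.InfinitePlace.IsPrimitiveRoot.nrRealPlaces_eq_zero_of_two_lt h3
      (hζ.map_of_injective (algebraMap C ↥(C ⊔ B n)).injective)
  have hdeg : Module.finrank ℚ ↥(C ⊔ B n) = Module.finrank ℚ C * p ^ n := by
    rw [← _root_.MU3.Gal.degree C (B n) hcop (hB n)]
    exact (Module.finrank_mul_finrank ℚ C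
      (IntermediateField.extendScalars (le_sup_left : C ≤ C ⊔ B n))).symm
  have hinf : Nat.card (InfinitePlace ↥(C ⊔ B n)) = p ^ n * Nat.card (InfinitePlace C) := by
    have e1 := inf_card ↥C rC
    have e2 := inf_card ↥(C ⊔ B n) rL
    rw [hdeg, ← e1] at e2
    have e3 : 2 * Nat.card (InfinitePlace ↥(C ⊔ B n)) =
        2 * (p ^ n * Nat.card (InfinitePlace C)) := by rw [e2]; ring
    exact Nat.eq_of_mul_eq_mul_left two_pos e3
  obtain ⟨S, hS1, hS⟩ := finS p ↥C
  have hch := h1 p n C ↥(C ⊔ B n) g hcyc hinf S (by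
    intro w hw
    have h2 := _root_.MU3.n_RAMP p n C (B n) (hB n) w hw
    have hne : w.asIdeal.under (𝓞 C) ≠ ⊥ := by
      intro h0
      rw [h0, Ideal.mem_bot] at h2
      exact hpp.ne_zero (by exact_mod_cast h2)
    have := w.isPrime
    exact ⟨⟨w.asIdeal.under (𝓞 C), inferInstance, hne⟩, hS _ h2, rfl⟩)
  have hc0 : padicValNat p (NumberField.classNumber C) = 0 := by
    apply padicValNat.eq_zero_of_not_dvd
    rwa [← Finx.classNo_eq]
  have hr : padicValNat p ((_root_.MU3.PI ↥(C ⊔ B n)).relIndex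
      ((_root_.MU3.PI ↥(C ⊔ B n)).comap (dg g))) = 0 := by
    rw [hc0, zero_add] at hch
    have : n * S.card ≤ n * 1 := Nat.mul_le_mul_left n hS1
    omega
  have hg : g ^ (p ^ n) = 1 := by
    rw [← ord]
    exact pow_orderOf_eq_one g
  have hrk := _root_.MU3.n_NILR _root_.MU3.n_NIL p (p ^ n) C ↥(C ⊔ B n) g (fun b => by
    obtain ⟨y, hy⟩ := K_MAINKX.iter_mem p n g hg b
    exact ⟨y, 1, by rw [hy, map_one, mul_one]⟩)
  rw [hr, mul_zero] at hrk
  have hfq : Finite (J ↥(C ⊔ B n) ⧸ _root_.MU3.PI ↥(C ⊔ B n)) := CL.finite_quot _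
  have := of_rkp p (J ↥(C ⊔ B n) ⧸ _root_.MU3.PI ↥(C ⊔ B n)) (Nat.le_zero.1 hrk)
  rw [Finx.classNo_eq, CL.classNumber_eq]
  exact this

end Pool.Agent.OB
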