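import Pool.Agent.OB.StQ
import Pool.Agent.RI.CL

/-!
# OB, corollary for `p = 5`: SBF, fields of degree prime to `p` over which the class number is prime to `p`
-/

set_option autoImplicit false

open NumberField IsDedekindDomain Finset
open scoped nonZeroDivisors Pointwise

namespace Pool.Agent.OB

open _root_.Pool.Agent.RI _root_.Pool.Agent.RID

theorem tq_SBF : Sq_SBF := by
  intro p hp L M _ _ _ _ _ _ hd hh c
  have h1 : ∀ b : J M, b ^ NumberField.classNumber M ∈ (prin : Mˣ →* J M).range := by
    intro b
    have h2 := Subgroup.pow_index_mem (prin : Mˣ →* J M).range b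
    have h3 : (prin : Mˣ →* J M).range.index = NumberField.classNumber M := by
      rw [CL.classNumber_eq M]
      rfl
    rwa [h3] at h2
  obtain ⟨x, hx⟩ := h1 (ext L M c)
  have h4 : c ^ (NumberField.classNumber M * Module.finrank L M) =
      prin (Units.map (Algebra.norm L : M →* L) x) := by
    apply ext_injective L M
    rw [← CL.nm_prin, hx, ← map_pow, CL.nm_ext, pow_mul, map_pow]
  have h5 : IsCoprime ((NumberField.classNumber M * Module.finrank L M : ℕ) : ℤ) (p : ℤ) := by
    rw [Nat.isCoprime_iff_coprime]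
    refine (Nat.Coprime.symm ?_)
    rw [hp.out.coprime_iff_not_dvd]
    intro h6
    rcases (Nat.Prime.dvd_mul hp.out).1 h6 with h7 | h7
    · exact hh h7
    · exact hd h7
  obtain ⟨u, v, huv⟩ := h5
  refine ⟨c ^ v, (Units.map (Algebra.norm L : M →* L) x) ^ u, ?_⟩
  rw [map_zpow, ← h4, ← zpow_natCast (c ^ v) p, ← zpow_natCast c (_ * _), ← zpow_mul, ← zpow_mul,
    ← zpow_add]
  have h8 : v * (p : ℤ) + ((NumberField.classNumber M * Module.finrank L M : ℕ) : ℤ) * u = 1 := by
    linarith
  rw [h8, zpow_one]

end Pool.Agent.OB
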