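import Pool.Agent.OB.StQ
import Pool.Agent.OB.KAll
import Pool.Agent.OB.Q_CHS
import Pool.Agent.OB.Q_SBF
import Pool.Agent.OB.Q_REG
import Pool.Agent.OB.Q_CY5
import Pool.Agent.OB.Q_RAT
import Pool.Agent.OB.Q_BAX
import Pool.Agent.OB.Q_DSC
import Pool.Agent.OB.Q_OCC
import Pool.Agent.OB.Q_QFT
import Pool.Agent.OB.Q_QRT
import Pool.Agent.OB.Q_BD
import Pool.Agent.MUX.UAll
import Pool.Agent.MUX.J_SUB
import Pool.Agent.MUX.J_DWN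

/-!
# OB, corollary for `p = 5`, assembled
-/

set_option autoImplicit false

namespace Pool.Agent.OB

open _root_.Pool.Agent.MUXK _root_.Pool.Agent.NSI

theorem q_CHS : Sq_CHS := o_CHS
theorem q_SBF : Sq_SBF := tq_SBF
theorem q_REG : Sq_REG := tq_REG q_CHS
theorem q_CY5 : Sq_CY5 := tq_CY5
theorem q_RAT : Sq_RAT := tq_RAT q_REG q_CY5 q_SBF
theorem q_BAX : Sq_BAX := tq_BAX
theorem q_DSC : Sq_DSC := tq_DSC k_GALX k_GENX k_TWX k_LFX k_RSX k_EIGX k_FINX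
theorem q_OCC : Sq_OCC := tq_OCC q_RAT q_BAX k_RSX k_GALX
theorem q_QFT : Sq_QFT := tq_QFT
theorem q_QRT (h : O_NIL) : Sq_QRT :=
  tq_QRT h q_BAX q_DSC q_OCC o_CNJ _root_.Pool.Agent.MUXU.u_AUE
theorem q_BD (h : O_NIL) : Sq_BD :=
  tq_BD (q_QRT h) q_QFT (_root_.Pool.Agent.MUXJ.t_SUB (_root_.Pool.Agent.MUXJ.t_DWN k_NIX))

end Pool.Agent.OB
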