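import Pool.Agent.OB.OAll
import Pool.Agent.OB.QAll
import Pool.Agent.OB.F_LAY
import Pool.Agent.OB.F_RAG
import Pool.Agent.OB.F_RRK
import Pool.Agent.OB.F_TWO
import Pool.Agent.OB.F_P5
import Pool.Agent.OB.F_INF
import Pool.Agent.OB.F_GRO
import Pool.Agent.OB.F_CEN
import Pool.Agent.OB.F_CENQ
import Pool.Agent.OB.FDefs2
import Pool.Agent.MU3.PAll
import Pool.Agent.VB.VAll

/-!
# OB, FINAL (helper60): the root
-/

set_option autoImplicit false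

open NumberField

namespace Pool.Agent.OBF

open _root_.Pool.Agent.MuCyc

/-- (QUA) quadratic extensions of `k`, `p = 5`. -/
def Sf_QUA : Prop := ∀ k : IntermediateField ℚ ℂ, Module.finrank ℚ k = 2 →
  (∃ z ∈ k, (starRingEnd ℂ) z ≠ z) → (∀ z ∈ k, z ^ 2 ≠ -1) → (∀ z ∈ k, z ^ 2 ≠ -3) →
  ∀ a w : ℂ, a ^ 2 ∈ k → w ^ 2 = 5 →
  MuLE 5 (k ⊔ IntermediateField.adjoin ℚ {a}) k ∨
    MuLE 5 (k ⊔ IntermediateField.adjoin ℚ {w * a}) k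

theorem f_LAY : Sf_LAY := tf_LAY
theorem f_RAG : Sf_RAG := tf_RAG
theorem f_RRK : Sf_RRK := tf_RRK f_RAG
theorem f_INF : Sf_INF := tf_INF
theorem f_P5 : Sf_P5 := tf_P5 f_LAY _root_.Pool.Agent.OB.q_BAX _root_.Pool.Agent.OB.nil
theorem f_REL : Sf_REL := tf_REL f_LAY _root_.Pool.Agent.OB.q_BAX f_RRK
theorem f_IFM : Sf_IFM := tf_IFM f_LAY _root_.Pool.Agent.OB.q_BAX f_INF
theorem f_CEN : Sf_CEN := tf_CEN f_P5 f_IFM f_REL _root_.Pool.Agent.VB.v_NRM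
theorem f_CENQ : Sf_CENQ := tf_CENQ f_CEN

/-- The final statement. -/
theorem final (hCYC : Sf_CYC) (hQUA : Sf_QUA) :
    -- (1), (2), (3)
    (∀ (p : ℕ) [Fact p.Prime], 5 ≤ p → ∀ (k K : IntermediateField ℚ ℂ) (h : k ≤ K),
      ImQuad k → Abelian p h → (∃ ζ ∈ K, IsPrimitiveRoot ζ p) →
      (∀ χ : Chr p h,
        (∃ i < p - 1, Even i ∧ ∃ χ' : Chr p h, IsTwist p h χ χ' i ∧ MuZeroC p h χ') ∧
        ∃ j < p - 1, Odd j ∧ ∃ χ' : Chr p h, IsTwist p h χ χ' j ∧ MuZeroC p h χ') ∧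
      2 * Module.finrank k (IntermediateField.extendScalars h) ≤
        (p - 1) * Nat.card {χ : Chr p h // MuZeroC p h χ} ∧
      (p = 5 → ∀ χ χ₁ : Chr p h, IsTwist p h χ χ₁ 2 →
        (∃ a : ℕ, χ₁ = χ ^ p ^ a ∨ ((∀ z ∈ K, (starRingEnd ℂ) z ∈ K) ∧
          ∃ χ₂ : Chr p h, IsConj p h χ χ₂ ∧ χ₁ = χ₂ ^ p ^ a)) →
        ∀ (j : ℕ) (χ' : Chr p h), IsTwist p h χ χ' j → MuZeroC p h χ')) ∧
    -- (4)
    (∀ (K K' : IntermediateField ℚ ℂ), K' ≤ K → FiniteDimensional ℚ K → IsGalois ℚ K →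
      ¬ 5 ∣ Module.finrank ℚ K →
      ∀ (w u : K) (q : ℚ), w ^ 2 = 5 → q < 0 → u ^ 2 = (q : K) →
      (∀ σ τ : K ≃ₐ[ℚ] K, σ w = w → σ u = u → σ * τ = τ * σ) →
      (∀ x : K, (∀ σ τ : K ≃ₐ[ℚ] K, σ (τ x) = τ (σ x)) → (x : ℂ) ∈ K') → MuLE 5 K K') ∧
    -- (5)
    (∀ (k L' L : IntermediateField ℚ ℂ) (h' : k ≤ L') (_ : L' ≤ L) (h : k ≤ L) (r : ℕ),
      ImQuad k → Abelian 5 h → IsCyclic (Gal h) →
      Module.finrank k (IntermediateField.extendScalars h) = 2 ^ r → (∃ w ∈ L, w ^ 2 = 5) →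
      (Module.finrank k (IntermediateField.extendScalars h') = 4 ∨
        Module.finrank k (IntermediateField.extendScalars h') = 2 ∧ ConjInverts h) →
      MuLE 5 L L') ∧
    -- (6)
    (∀ k : IntermediateField ℚ ℂ, ImQuad k → ∀ a w : ℂ, a ^ 2 ∈ k → w ^ 2 = 5 →
      MuLE 5 (k ⊔ IntermediateField.adjoin ℚ {a}) k ∨
        MuLE 5 (k ⊔ IntermediateField.adjoin ℚ {w * a}) k) ∧
    -- (7)
    (∀ E : IntermediateField ℚ ℂ, Module.finrank ℚ E = 4 → (∃ w ∈ E, w ^ 2 = 5) →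
      (∃ φ : E →+* ℂ, ∀ x, (starRingEnd ℂ) (φ x) = φ x) →
      (∃ φ : E →+* ℂ, ∃ x, (starRingEnd ℂ) (φ x) ≠ φ x) →
      ∀ (F F' : IntermediateField ℚ ℂ)
        (h : E ⊔ IntermediateField.adjoin ℚ {z : ℂ | z ^ 5 = 1} ≤ F'),
        FiniteDimensional ℚ F' →
        IsGalois ↥(E ⊔ IntermediateField.adjoin ℚ {z : ℂ | z ^ 5 = 1})
          (IntermediateField.extendScalars h) →
        (∃ a : ℕ, Module.finrank ↥(E ⊔ IntermediateField.adjoin ℚ {z : ℂ | z ^ 5 = 1})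
          (IntermediateField.extendScalars h) = 5 ^ a) →
        F ≤ F' → MuZeroF 5 F) := by
  refine ⟨?_, ?_, ?_, ?_, ?_⟩
  · intro p _ hp k K h hk hK hz
    have := hK.fin
    obtain ⟨h1, h2⟩ := one_both f_LAY _root_.Pool.Agent.OB.q_BAX _root_.Pool.Agent.OB.nil p hp k K h hK.gal hK.comm hk.deg hk.imag hk.no_i
      hk.no_w hK.prime_to hz
    refine ⟨fun χ => ?_, h2, fun h5 χ χ₁ h6 h7 => ?_⟩
    · obtain ⟨i, j, hi, hj, ei, oj, gi, gj⟩ := h1 χ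
      exact ⟨⟨i, hi, ei, gi⟩, j, hj, oj, gj⟩
    · exact f_P5 p h5 k K h ⟨hK.fin, hk.deg, hk.imag, hk.no_i, hk.no_w, hK.gal, hK.comm,
        hK.prime_to⟩ hz χ χ₁ h6 h7
  · exact f_CENQ
  · intro k L' L h' hL h r hk hK hcy hr hw h4
    exact hCYC k L' L h' hL h r hK.fin hk.deg hk.imag hk.no_i hk.no_w hK.gal hcy hr hw h4
  · intro k hk a w ha hw
    exact hQUA k hk.deg hk.imag hk.no_i hk.no_w a w ha hw
  · intro E hE hw hr hc F F' h hf hG ha hFF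
    obtain ⟨a, ha⟩ := ha
    exact quartic (_root_.Pool.Agent.OB.q_BD _root_.Pool.Agent.OB.nil) _root_.Pool.Agent.OB.q_CY5 _root_.MU3.u_PEX f_LAY
      (_root_.Pool.Agent.MUXJ.t_SUB (_root_.Pool.Agent.MUXJ.t_DWN _root_.Pool.Agent.MUXK.k_NIX))
      _root_.Pool.Agent.VB.v_FNP _root_.Pool.Agent.VB.v_RED E hE hw hr hc F F' h hG a ha hFF

end Pool.Agent.OBF
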