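import Pool.Agent.OB.StF2
import Pool.Agent.VB.VFinal
import Pool.Agent.VB.V_NRM

/-!
# OB, FINAL part 2: FLD5 (helper47)
-/

set_option autoImplicit false

open NumberField Finset

namespace Pool.Agent.OBF

namespace FLD5x

/-- the tower formula -/
theorem tower {k K : IntermediateField ℚ ℂ} (h : k ≤ K) :
    Module.finrank ℚ k * Module.finrank k (IntermediateField.extendScalars h) =
      Module.finrank ℚ K := by
  rw [Module.finrank_mul_finrank ℚ k (IntermediateField.extendScalars h)]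
  rfl

/-- complex conjugation over the rationals -/
noncomputable def cj : ℂ →ₐ[ℚ] ℂ := (Complex.conjAe.toAlgHom).restrictScalars ℚ

theorem cj_apply (z : ℂ) : cj z = (starRingEnd ℂ) z := rfl

theorem conj_stable {L : IntermediateField ℚ ℂ} {ζ : ℂ} (hζ : IsPrimitiveRoot ζ 5)
    (hL : ∀ z ∈ L, (starRingEnd ℂ) z ∈ L) :
    ∀ z ∈ L ⊔ IntermediateField.adjoin ℚ {ζ},
      (starRingEnd ℂ) z ∈ L ⊔ IntermediateField.adjoin ℚ {ζ} := by
  have hζm : ζ ∈ L ⊔ IntermediateField.adjoin ℚ {ζ} :=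
    (le_sup_right : _ ≤ L ⊔ IntermediateField.adjoin ℚ {ζ})
      (IntermediateField.mem_adjoin_simple_self ℚ _)
  have h1 : L ⊔ IntermediateField.adjoin ℚ {ζ} ≤
      (L ⊔ IntermediateField.adjoin ℚ {ζ}).comap cj := by
    refine sup_le ?_ ?_
    · intro z hz
      exact (le_sup_left : L ≤ _) (hL z hz)
    · rw [IntermediateField.adjoin_le_iff]
      intro z hz
      rw [Set.mem_singleton_iff] at hz
      rw [hz]
      change cj ζ ∈ L ⊔ IntermediateField.adjoin ℚ {ζ}
      have h5 : (cj ζ) ^ 5 = 1 := by rw [← map_pow, hζ.pow_eq_one, map_one]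
      obtain ⟨i, -, hi⟩ := hζ.eq_pow_of_pow_eq_one h5
      rw [← hi]
      exact pow_mem hζm i
  intro z hz
  exact h1 hz

theorem sum_zeta {R : Type*} [CommRing R] [IsDomain R] {z : R} (hz : IsPrimitiveRoot z 5) :
    1 + z + z ^ 2 + z ^ 3 + z ^ 4 = 0 := by
  have h := hz.geom_sum_eq_zero (by norm_num)
  simp only [Finset.sum_range_succ, Finset.sum_range_zero, pow_zero, pow_one, zero_add] at h
  exact h

theorem sq_five {R : Type*} [CommRing R] [IsDomain R] {z : R} (hz : IsPrimitiveRoot z 5) :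
    (z + z ^ 4 - z ^ 2 - z ^ 3) ^ 2 = 5 := by
  have h := sum_zeta hz
  have h5 := hz.pow_eq_one
  have e6 : z ^ 6 = z := by rw [show (6 : ℕ) = 5 + 1 by norm_num, pow_add, h5, one_mul, pow_one]
  have e7 : z ^ 7 = z ^ 2 := by rw [show (7 : ℕ) = 5 + 2 by norm_num, pow_add, h5, one_mul]
  have e8 : z ^ 8 = z ^ 3 := by rw [show (8 : ℕ) = 5 + 3 by norm_num, pow_add, h5, one_mul]
  have e : (z + z ^ 4 - z ^ 2 - z ^ 3) ^ 2 =
      z ^ 2 + z ^ 8 + z ^ 4 + z ^ 6 + 2 * z ^ 5 - 2 * z ^ 3 - 2 * z ^ 4 - 2 * z ^ 6 - 2 * z ^ 7 +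
        2 * z ^ 5 := by ring
  rw [e, e8, e6, e7, h5]
  linear_combination (-1) * h

theorem degree_le {ζ : ℂ} (hζ : IsPrimitiveRoot ζ 5) :
    Module.finrank ℚ (IntermediateField.adjoin ℚ ({ζ} : Set ℂ)) ≤ 4 := by
  have hint : IsIntegral ℚ ζ := (hζ.isIntegral (by norm_num)).tower_top
  rw [IntermediateField.adjoin.finrank hint]
  have h1 : minpoly ℚ ζ ∣ Polynomial.cyclotomic 5 ℚ := by
    refine minpoly.dvd ℚ ζ ?_
    have := hζ.isRoot_cyclotomic (by norm_num)
    rw [← Polynomial.map_cyclotomic 5 (algebraMap ℚ ℂ)] at this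
    rw [Polynomial.aeval_def, ← Polynomial.eval_map]
    exact this
  have h2 := Polynomial.natDegree_le_of_dvd h1 (Polynomial.cyclotomic_ne_zero 5 ℚ)
  rw [Polynomial.natDegree_cyclotomic] at h2
  have : Nat.totient 5 = 4 := by decide
  omega

theorem not_dvd {L K : IntermediateField ℚ ℂ} [FiniteDimensional ℚ L] [FiniteDimensional ℚ K]
    {ζ : ℂ} (hζ : IsPrimitiveRoot ζ 5) (hK : K = L ⊔ IntermediateField.adjoin ℚ {ζ})
    (h5 : ¬ 5 ∣ Module.finrank ℚ L) : ¬ 5 ∣ Module.finrank ℚ K := by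
  have hLK : L ≤ K := by rw [hK]; exact le_sup_left
  have h1 := tower hLK
  have h2 : Module.finrank ℚ K ≤ Module.finrank ℚ L * 4 := by
    rw [hK]
    exact (IntermediateField.finrank_sup_le L (IntermediateField.adjoin ℚ {ζ})).trans
      (Nat.mul_le_mul_left _ (degree_le hζ))
  have h3 : 0 < Module.finrank ℚ L := Module.finrank_pos
  have h4 : 0 < Module.finrank ℚ K := Module.finrank_pos
  have h6 : Module.finrank L (IntermediateField.extendScalars hLK) ≤ 4 := by
    rw [← h1] at h2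
    exact Nat.le_of_mul_le_mul_left h2 h3
  have h7 : 0 < Module.finrank L (IntermediateField.extendScalars hLK) := by
    rw [← h1] at h4
    exact Nat.pos_of_mul_pos_left h4 |> fun h => h
  intro h8
  rw [← h1] at h8
  rcases (Nat.Prime.dvd_mul (by norm_num)).1 h8 with h9 | h9
  · exact h5 h9
  · have := Nat.le_of_dvd h7 h9
    omega

theorem cast_mod (F : Type) [Field F] [CharP F 5] (c : ℕ) : (c : F) = ((c % 5 : ℕ) : F) :=
  (CharP.cast_eq_iff_mod_eq F 5).2 (Nat.mod_mod _ _).symm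

/-- the action on `√5` -/
theorem action (F : Type) [Field F] [CharP F 5] {R : Type*} [CommRing R] [IsDomain R]
    {z : R} (hz : IsPrimitiveRoot z 5) (f : R →+* R) (hf : Function.Injective f) (c : ℕ)
    (hc : f z = z ^ c) :
    (f (z + z ^ 4 - z ^ 2 - z ^ 3) = z + z ^ 4 - z ^ 2 - z ^ 3 ∧ (c : F) ^ 2 = 1) ∨
      (f (z + z ^ 4 - z ^ 2 - z ^ 3) = -(z + z ^ 4 - z ^ 2 - z ^ 3) ∧ (c : F) ^ 2 = -1) := by
  have h5 := hz.pow_eq_one
  have h0 : (5 : F) = 0 := by
    have := CharP.cast_eq_zero F 5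
    exact_mod_cast this
  rw [cast_mod F c]
  have hc' : f z = z ^ (c % 5) := by rw [hc, pow_eq_pow_mod c h5]
  obtain ⟨i, hi⟩ : ∃ i, i = c % 5 := ⟨_, rfl⟩
  have hi5 : i < 5 := by omega
  rw [← hi] at hc' ⊢
  simp only [map_sub, map_add, map_pow, hc']
  have e6 : z ^ 6 = z := by rw [show (6 : ℕ) = 5 + 1 by norm_num, pow_add, h5, one_mul, pow_one]
  have e8 : z ^ 8 = z ^ 3 := by rw [show (8 : ℕ) = 5 + 3 by norm_num, pow_add, h5, one_mul]
  have e9 : z ^ 9 = z ^ 4 := by rw [show (9 : ℕ) = 5 + 4 by norm_num, pow_add, h5, one_mul]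
  have e12 : z ^ 12 = z ^ 2 := by
    rw [show (12 : ℕ) = 5 * 2 + 2 by norm_num, pow_add, pow_mul, h5, one_pow, one_mul]
  have e16 : z ^ 16 = z := by
    rw [show (16 : ℕ) = 5 * 3 + 1 by norm_num, pow_add, pow_mul, h5, one_pow, one_mul, pow_one]
  interval_cases i
  · exfalso
    rw [pow_zero] at hc'
    have : z = 1 := hf (by rw [hc', map_one])
    exact hz.ne_one (by norm_num) this
  · left
    constructor
    · ring
    · norm_num
  · right
    constructor
    · simp only [← pow_mul]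
      norm_num
      rw [e8, e6]
      ring
    · push_cast
      linear_combination h0
  · right
    constructor
    · simp only [← pow_mul]
      norm_num
      rw [e12, e6, e9]
      ring
    · push_cast
      linear_combination 2 * h0
  · left
    constructor
    · simp only [← pow_mul]
      norm_num
      rw [e16, e8, e12]
      ring
    · push_cast
      linear_combination 3 * h0

end FLD5x

open FLD5x in
/-- FLD5 -/
theorem tf_FLD5 : Sf_FLD5 := by
  intro k L h r hB hr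
  have hfL : FiniteDimensional ℚ L := hB.fin
  obtain ⟨ζ, hζ⟩ : ∃ ζ : ℂ, IsPrimitiveRoot ζ 5 :=
    ⟨_, Complex.isPrimitiveRoot_exp 5 (by norm_num)⟩
  have hab : VB.AbE k L := ⟨h, hB.gal, hB.ab⟩
  obtain ⟨hfK, hK, hgal, hcomm⟩ := VB.abE_zeta VB.tb_NRM 5 (by norm_num) hab ζ hζ
  obtain ⟨K, hKd⟩ : ∃ K, K = L ⊔ IntermediateField.adjoin ℚ {ζ} := ⟨_, rfl⟩
  rw [← hKd] at hfK
  have hLK : L ≤ K := by rw [hKd]; exact le_sup_left
  have hζK : ζ ∈ K := by
    rw [hKd]
    exact (le_sup_right : _ ≤ L ⊔ IntermediateField.adjoin ℚ {ζ})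
      (IntermediateField.mem_adjoin_simple_self ℚ _)
  have h5L : ¬ 5 ∣ Module.finrank ℚ L := by
    rw [← tower h, hB.k2, hr]
    intro h5
    have : (5 : ℕ) ∣ 2 ^ (r + 1) := by rw [pow_succ, mul_comm]; exact h5
    have := (Nat.Prime.dvd_of_dvd_pow (by norm_num) this)
    omega
  have h5K : ¬ 5 ∣ Module.finrank ℚ K := not_dvd hζ hKd h5L
  have hkK : k ≤ K := h.trans hLK
  refine ⟨K, hkK, hLK, ?_, ⟨ζ, hζK, hζ⟩, h5K, h5L, ?_, ?_⟩
  · subst hKd
    exact ⟨hfK, hB.k2, hB.im, hB.n4, hB.n3, hgal, hcomm, fun h5 => h5K (by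
      rw [← tower hkK]
      exact Dvd.dvd.mul_left h5 _)⟩
  · intro hL
    subst hKd
    exact conj_stable hζ hL
  · intro F _ _ w hw
    have hg : (ζ + ζ ^ 4 - ζ ^ 2 - ζ ^ 3) ^ 2 = 5 := sq_five hζ
    have hgK : ζ + ζ ^ 4 - ζ ^ 2 - ζ ^ 3 ∈ K :=
      sub_mem (sub_mem (add_mem hζK (pow_mem hζK 4)) (pow_mem hζK 2)) (pow_mem hζK 3)
    have hwg : w = ζ + ζ ^ 4 - ζ ^ 2 - ζ ^ 3 ∨ w = -(ζ + ζ ^ 4 - ζ ^ 2 - ζ ^ 3) := by
      rw [← sq_eq_sq_iff_eq_or_eq_neg, hw, hg]
    have hwK : w ∈ K := by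
      rcases hwg with h1 | h1 <;> rw [h1]
      · exact hgK
      · exact neg_mem hgK
    refine ⟨hwK, ?_⟩
    intro s c hc x hx
    obtain ⟨z, hz⟩ : ∃ z : IntermediateField.extendScalars hkK, z = ⟨ζ, hζK⟩ := ⟨_, rfl⟩
    have hzc : (z : ℂ) = ζ := by rw [hz]
    have hzp : IsPrimitiveRoot z 5 := by
      refine IsPrimitiveRoot.of_map_of_injective
        (f := (IntermediateField.extendScalars hkK).val) ?_ (Subtype.val_injective)
      change IsPrimitiveRoot (z : ℂ) 5
      rw [hzc]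
      exact hζ
    have hact := action F hzp (s : (IntermediateField.extendScalars hkK) →+*
      (IntermediateField.extendScalars hkK)) s.injective c (hc z hzp.pow_eq_one)
    have hxz : x = z + z ^ 4 - z ^ 2 - z ^ 3 ∨ x = -(z + z ^ 4 - z ^ 2 - z ^ 3) := by
      rcases hwg with h1 | h1
      · left
        apply Subtype.ext
        rw [hx, h1, ← hzc]
        rfl
      · right
        apply Subtype.ext
        rw [hx, h1, ← hzc]
        rfl
    rcases hact with ⟨h1, h2⟩ | ⟨h1, h2⟩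
    · left
      refine ⟨?_, h2⟩
      have h3 : s x = x := by
        rcases hxz with h4 | h4
        · rw [h4]; exact h1
        · rw [h4, map_neg]; exact congrArg Neg.neg h1
      rw [h3, hx]
    · right
      refine ⟨?_, h2⟩
      have h3 : s x = -x := by
        rcases hxz with h4 | h4
        · rw [h4]; exact h1
        · rw [h4, map_neg]; exact congrArg Neg.neg h1
      rw [h3, ← hx]
      rfl

end Pool.Agent.OBF
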