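import Pool.Agent.OB.F_TW5

/-!
# OB, `p = 5`: cyclic extensions of degree `8` which contain the fifth roots of unity
-/

set_option autoImplicit false

open NumberField

namespace Pool.Agent.OBF

open _root_.Pool.Agent.MuCyc

local instance : Fact (Nat.Prime 5) := ⟨by norm_num⟩

namespace Oct

/-- A square root of `5` is real. -/
lemma real5 (w : ℂ) (hw : w ^ 2 = 5) : (starRingEnd ℂ) w = w := by
  have h1 : ((starRingEnd ℂ) w) ^ 2 = w ^ 2 := by
    rw [← map_pow, hw]
    exact Complex.conj_ofNat 5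
  rcases sq_eq_sq_iff_eq_or_eq_neg.1 h1 with h2 | h2
  · exact h2
  · exfalso
    have h3 := Complex.mul_conj w
    rw [h2, mul_neg, ← pow_two, hw] at h3
    have h4 : (-5 : ℝ) = Complex.normSq w := by
      have := congrArg Complex.re h3
      simpa using this
    have h5 := Complex.normSq_nonneg w
    linarith

/-- An imaginary quadratic field does not contain a square root of `5`. -/
lemma not_mem5 (k : IntermediateField ℚ ℂ) (hk2 : Module.finrank ℚ k = 2)
    (him : ∃ z ∈ k, (starRingEnd ℂ) z ≠ z) (w : ℂ) (hw : w ^ 2 = 5) : w ∉ k := by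
  intro hwk
  have hfd : FiniteDimensional ℚ k := Module.finite_of_finrank_pos (by rw [hk2]; norm_num)
  have h1 : IntermediateField.adjoin ℚ {w} ≤ k := by
    rw [IntermediateField.adjoin_simple_le_iff]
    exact hwk
  have h2 : Module.finrank ℚ (IntermediateField.adjoin ℚ {w}) ∣ 2 := by
    rw [← hk2]
    exact IntermediateField.finrank_dvd_of_le_right h1
  rcases (Nat.dvd_prime Nat.prime_two).1 h2 with h3 | h3
  · rw [IntermediateField.finrank_eq_one_iff] at h3
    have h4 : w ∈ (⊥ : IntermediateField ℚ ℂ) := by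
      rw [← h3]
      exact IntermediateField.mem_adjoin_simple_self ℚ w
    rw [IntermediateField.mem_bot] at h4
    obtain ⟨q, hq⟩ := h4
    rw [← hq] at hw
    have h5 : q ^ 2 = 5 := by
      have : ((q ^ 2 : ℚ) : ℂ) = ((5 : ℚ) : ℂ) := by
        push_cast
        simpa using hw
      exact_mod_cast this
    have h6 : ¬ IsSquare (5 : ℚ) := by
      rw [show (5 : ℚ) = ((5 : ℕ) : ℚ) by norm_num, Rat.isSquare_natCast_iff]
      rintro ⟨r, hr⟩
      have : r ≤ 2 := by nlinarith
      interval_cases r <;> omega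
    exact h6 ⟨q, by rw [← h5]; ring⟩
  · have h4 : IntermediateField.adjoin ℚ {w} = k :=
      IntermediateField.eq_of_le_of_finrank_eq h1 (h3.trans hk2.symm)
    obtain ⟨z, hz, hzr⟩ := him
    rw [← h4] at hz
    apply hzr
    have h5 : IntermediateField.adjoin ℚ {w} ≤
        ((IsScalarTower.toAlgHom ℚ ℝ ℂ).fieldRange : IntermediateField ℚ ℂ) := by
      rw [IntermediateField.adjoin_simple_le_iff]
      obtain ⟨r, hr⟩ := Complex.conj_eq_iff_real.1 (real5 w hw)
      exact ⟨r, hr.symm⟩
    obtain ⟨r, hr⟩ := h5 hz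
    rw [Complex.conj_eq_iff_real]
    exact ⟨r, hr.symm⟩

end Oct

open Oct in
/-- (E) a cyclic extension `K/k` of degree `8` which contains the fifth roots of unity: the characters which are not trivial
on `Gal(K/k(μ_5))`. -/
theorem oct {k K : IntermediateField ℚ ℂ} [FiniteDimensional ℚ K] (h : k ≤ K) (hk2 : Module.finrank ℚ k = 2)
    (him : ∃ z ∈ k, (starRingEnd ℂ) z ≠ z)
    (hG : IsGalois k (IntermediateField.extendScalars h)) (hcy : IsCyclic (Gal h))
    (h8 : Nat.card (Gal h) = 8) (hz : ∃ ζ ∈ K, IsPrimitiveRoot ζ 5) (hA : OneA 5 h)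
    (hC : CnjA 5 h) (χ : Chr 5 h) (t : Gal h)
    (ht : ∀ z : IntermediateField.extendScalars h, z ^ 5 = 1 → t z = z) (hχ : χ t ≠ 1) :
    MuZeroC 5 h χ := by
  have hfin : Finite (Gal h) := Nat.finite_of_card_ne_zero (by rw [h8]; norm_num)
  have hfd : FiniteDimensional ℚ (IntermediateField.extendScalars h) :=
    (inferInstance : FiniteDimensional ℚ K)
  have hfdk : FiniteDimensional k (IntermediateField.extendScalars h) :=
    Module.Finite.of_restrictScalars_finite ℚ k _
  obtain ⟨g, hg⟩ := hcy.exists_generator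
  have hg' : ∀ s : Gal h, ∃ m : ℕ, g ^ m = s := fun s =>
    (mem_powers_iff_mem_zpowers.2 (hg s))
  obtain ⟨ζ₀, hζ₀, hpr⟩ := id hz
  let ζ : IntermediateField.extendScalars h := ⟨ζ₀, hζ₀⟩
  have hζ : IsPrimitiveRoot ζ 5 := by
    refine IsPrimitiveRoot.of_map_of_injective
      (f := algebraMap (IntermediateField.extendScalars h) ℂ) ?_
      (algebraMap (IntermediateField.extendScalars h) ℂ).injective
    exact hpr
  obtain ⟨c₀, hc₀⟩ := ex_c h hz g
  have hgm : ∀ (m : ℕ) (z : IntermediateField.extendScalars h), z ^ 5 = 1 →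
      (g ^ m) z = z ^ (c₀ ^ m) := by
    intro m
    induction m with
    | zero => intro z _; rw [pow_zero, pow_zero, pow_one]; rfl
    | succ m ih =>
      intro z hz
      rw [pow_succ, AlgEquiv.mul_apply, hc₀ z hz, map_pow, ih z hz, ← pow_mul, pow_succ]
  -- congruences
  have hcong : ∀ (s : Gal h) (m c : ℕ), g ^ m = s →
      (∀ z : IntermediateField.extendScalars h, z ^ 5 = 1 → s z = z ^ c) →
      (c : AlgebraicClosure (ZMod 5)) = (c₀ : AlgebraicClosure (ZMod 5)) ^ m := by
    intro s m c hs hc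
    have e1 := hgm m ζ hζ.pow_eq_one
    rw [hs, hc ζ hζ.pow_eq_one] at e1
    have e4 : ζ₀ ^ c = ζ₀ ^ (c₀ ^ m) := congrArg Subtype.val e1
    have e5 : ∀ a : ℕ, ζ₀ ^ (a % 5) = ζ₀ ^ a := by
      intro a
      conv_lhs => rw [hpr.eq_orderOf]
      exact pow_mod_orderOf ζ₀ a
    have e3 : c ≡ c₀ ^ m [MOD 5] :=
      hpr.pow_inj (Nat.mod_lt _ (by norm_num)) (Nat.mod_lt _ (by norm_num))
        (by rw [e5, e5, e4])
    have e2 := (CharP.natCast_eq_natCast (AlgebraicClosure (ZMod 5)) 5).2 e3
    rw [e2]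
    push_cast
    rfl
  -- the square root of `5`
  set w : IntermediateField.extendScalars h := ζ + ζ ^ 4 - ζ ^ 2 - ζ ^ 3 with hw
  have hw5 : w ^ 2 = 5 := _root_.Pool.Agent.OB.QRT.five ζ hζ
  have hF2 : (-1 : AlgebraicClosure (ZMod 5)) ≠ 1 := by
    intro e
    have e1 : ((2 : ℕ) : AlgebraicClosure (ZMod 5)) = 0 := by
      push_cast
      linear_combination -e
    have e2 := (CharP.cast_eq_zero_iff (AlgebraicClosure (ZMod 5)) 5 2).1 e1
    omega
  rcases _root_.Pool.Agent.OB.QRT.wsq (F := AlgebraicClosure (ZMod 5))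
    (g : IntermediateField.extendScalars h →+* IntermediateField.extendScalars h) ζ hζ w hw5 c₀
    (hc₀ ζ hζ.pow_eq_one) with ⟨e1, -⟩ | ⟨-, e2⟩
  · -- `w` is in `k`
    exfalso
    have e3 : ∀ s : Gal h, s w = w := by
      intro s
      obtain ⟨m, rfl⟩ := hg' s
      induction m with
      | zero => rfl
      | succ m ih =>
        rw [pow_succ, AlgEquiv.mul_apply]
        have e4 : g w = w := e1
        rw [e4]
        exact ih
    obtain ⟨a, ha⟩ := (IsGalois.mem_range_algebraMap_iff_fixed w).2 e3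
    have e5 : (w : ℂ) = (a : ℂ) := by rw [← ha]; rfl
    refine not_mem5 k hk2 him (a : ℂ) ?_ a.2
    rw [← e5]
    exact congrArg Subtype.val hw5
  · -- the order
    obtain ⟨m, hm⟩ := hg' t
    have e3 : (c₀ : AlgebraicClosure (ZMod 5)) ^ m = 1 := by
      rw [← hcong t m 1 hm (fun z hz => by rw [ht z hz, pow_one])]
      exact Nat.cast_one
    have e4 : 4 ∣ m := by
      obtain ⟨a, r, hr, rfl⟩ : ∃ a r, r < 4 ∧ m = 4 * a + r :=
        ⟨m / 4, m % 4, Nat.mod_lt _ (by norm_num), (Nat.div_add_mod m 4).symm⟩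
      have e5 : (c₀ : AlgebraicClosure (ZMod 5)) ^ 4 = 1 := by
        rw [show 4 = 2 * 2 by norm_num, pow_mul, e2]
        ring
      rw [pow_add, pow_mul, e5, one_pow, one_mul] at e3
      interval_cases r
      · exact ⟨a, by omega⟩
      · exfalso
        rw [pow_one] at e3
        rw [e3, one_pow] at e2
        exact hF2 e2.symm
      · exfalso
        rw [e2] at e3
        exact hF2 e3
      · exfalso
        have e6 : (c₀ : AlgebraicClosure (ZMod 5)) = -1 := by
          have : (c₀ : AlgebraicClosure (ZMod 5)) ^ 3 = (c₀ : AlgebraicClosure (ZMod 5)) ^ 2 * c₀ := by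
            ring
          rw [this, e2] at e3
          linear_combination -e3
        rw [e6] at e2
        apply hF2
        rw [← e2]
        ring
    obtain ⟨a, rfl⟩ := e4
    have e6 : (χ g) ^ 4 ≠ 1 := by
      intro e7
      apply hχ
      rw [← hm, map_pow, pow_mul, e7, one_pow]
    have e7 : (χ g) ^ 8 = 1 := by
      rw [← map_pow, ← h8, pow_card_eq_one', map_one]
    have e8 : ((χ g : (AlgebraicClosure (ZMod 5))ˣ) : AlgebraicClosure (ZMod 5)) ^ 4 = -1 := by
      have e9 : (((χ g : (AlgebraicClosure (ZMod 5))ˣ) : AlgebraicClosure (ZMod 5)) ^ 4) ^ 2 =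
          1 ^ 2 := by
        rw [← pow_mul, ← Units.val_pow_eq_pow_val, e7, one_pow]
        rfl
      rcases sq_eq_sq_iff_eq_or_eq_neg.1 e9 with e10 | e10
      · exact absurd (Units.ext (by rw [Units.val_pow_eq_pow_val, e10]; rfl)) e6
      · exact e10
    refine (twist5 h hz hA hC χ (χ ^ 5) χ 1 ?_ (Or.inl rfl) ?_).1
    · intro s c hc
      obtain ⟨m', rfl⟩ := hg' s
      rw [hcong _ m' c rfl hc, MonoidHom.pow_apply, Units.val_pow_eq_pow_val, map_pow,
        Units.val_pow_eq_pow_val, ← pow_mul, ← pow_mul, mul_comm m' 2, pow_mul _ 2 m', e2,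
        mul_comm m' 5, pow_mul _ 5 m']
      have e11 : ((χ g : (AlgebraicClosure (ZMod 5))ˣ) : AlgebraicClosure (ZMod 5)) ^ 5 =
          (χ g : AlgebraicClosure (ZMod 5)) * (-1) := by
        rw [← e8]; ring
      rw [e11, mul_pow]
    · intro s
      rw [MonoidHom.pow_apply, Units.val_pow_eq_pow_val, pow_one]

end Pool.Agent.OBF
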