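import Pool.Agent.OB.F_P5

/-!
# OB, FINAL (helper59): quadratic extensions, `p = 5`: `k(√α)` or `k(√(5α))`
-/

set_option autoImplicit false

open NumberField

namespace Pool.Agent.OBF

open _root_.Pool.Agent.RI _root_.Pool.Agent.RID _root_.Pool.Agent.MU3 _root_.Pool.Agent.MUXK
  _root_.Pool.Agent.MUXZ _root_.Pool.Agent.NSI _root_.Pool.Agent.OB

namespace QUA

/-- `k(b)` -/
noncomputable abbrev kb (k : IntermediateField ℚ ℂ) (b : ℂ) : IntermediateField ℚ ℂ :=
  k ⊔ IntermediateField.adjoin ℚ {b}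

theorem mem_kb (k : IntermediateField ℚ ℂ) (b : ℂ) : b ∈ kb k b :=
  (le_sup_right : _ ≤ kb k b) (IntermediateField.subset_adjoin ℚ {b} rfl)

theorem kb_le {k K : IntermediateField ℚ ℂ} {b : ℂ} (h : k ≤ K) (hb : b ∈ K) : kb k b ≤ K :=
  sup_le h (IntermediateField.adjoin_le_iff.2 (by
    rintro _ rfl
    exact hb))

theorem kb_self {k : IntermediateField ℚ ℂ} {b : ℂ} (hb : b ∈ k) : kb k b = k :=
  le_antisymm (kb_le le_rfl hb) le_sup_left

/-- two automorphisms of `k(b)/k` which agree at `b` are equal -/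
theorem kb_ext {k : IntermediateField ℚ ℂ} {b : ℂ} (h : k ≤ kb k b) (s t : MuCyc.Gal h)
    (hst : ∀ x : IntermediateField.extendScalars h, (x : ℂ) = b → s x = t x) : s = t := by
  have h1 : (IntermediateField.adjoin k {b} : IntermediateField k ℂ) =
      IntermediateField.extendScalars h := by
    apply le_antisymm
    · rw [IntermediateField.adjoin_le_iff]
      rintro _ rfl
      exact mem_kb k _
    · intro x hx
      have h2 : kb k b ≤ (IntermediateField.adjoin k {b}).restrictScalars ℚ := by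
        apply kb_le
        · intro y hy
          exact (IntermediateField.adjoin k {b}).algebraMap_mem ⟨y, hy⟩
        · exact IntermediateField.subset_adjoin k {b} rfl
      exact h2 hx
  let E : IntermediateField k (IntermediateField.extendScalars h) :=
    IntermediateField.adjoin k {⟨b, mem_kb k b⟩}
  have h3 : E = ⊤ := by
    apply IntermediateField.map_injective (IntermediateField.extendScalars h).val
    rw [IntermediateField.adjoin_map, ← AlgHom.fieldRange_eq_map, IntermediateField.fieldRange_val,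
      Set.image_singleton]
    exact h1
  have h4 : E ≤ IntermediateField.fixedField (Subgroup.zpowers (t⁻¹ * s)) := by
    rw [IntermediateField.adjoin_le_iff]
    rintro _ rfl
    rintro ⟨g, hg⟩
    have h5 : (t⁻¹ * s) • (⟨b, mem_kb k b⟩ : IntermediateField.extendScalars h) =
        ⟨b, mem_kb k b⟩ := by
      show t⁻¹ (s _) = _
      rw [hst _ rfl]
      exact t.symm_apply_apply _
    have h6 : Subgroup.zpowers (t⁻¹ * s) ≤ MulAction.stabilizer _
        (⟨b, mem_kb k b⟩ : IntermediateField.extendScalars h) := by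
      rw [Subgroup.zpowers_le]
      exact h5
    exact h6 hg
  have h5 : t⁻¹ * s = 1 := by
    apply AlgEquiv.ext
    intro x
    have h6 : x ∈ IntermediateField.fixedField (Subgroup.zpowers (t⁻¹ * s)) := h4 (by
      rw [h3]
      trivial)
    exact h6 ⟨_, Subgroup.mem_zpowers _⟩
  exact (inv_mul_eq_one.1 h5).symm

theorem gal_sq {k K : IntermediateField ℚ ℂ} (h : k ≤ K) {b : ℂ} (hb2 : b ^ 2 ∈ k)
    (s : MuCyc.Gal h) (x : IntermediateField.extendScalars h) (hx : (x : ℂ) = b) :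
    s x = x ∨ s x = -x := by
  have h1 : (s x) ^ 2 = x ^ 2 := by
    rw [← map_pow]
    have h2 : x ^ 2 = algebraMap k _ ⟨b ^ 2, hb2⟩ := by
      apply Subtype.ext
      show (x : ℂ) ^ 2 = b ^ 2
      rw [hx]
    rw [h2, s.commutes]
  exact sq_eq_sq_iff_eq_or_eq_neg.1 h1

open Classical in
/-- The quadratic character of `b`. -/
noncomputable def chq (p : ℕ) [Fact p.Prime] {k K : IntermediateField ℚ ℂ} (h : k ≤ K) {b : ℂ}
    (hb : b ∈ K) (hb2 : b ^ 2 ∈ k) (hb0 : b ≠ 0) : MuCyc.Chr p h where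
  toFun s := if s ⟨b, hb⟩ = ⟨b, hb⟩ then 1 else -1
  map_one' := if_pos rfl
  map_mul' s t := by
    have hne : (⟨b, hb⟩ : IntermediateField.extendScalars h) ≠ -⟨b, hb⟩ := by
      intro h0
      have h1 : b = -b := congrArg Subtype.val h0
      apply hb0
      linear_combination (1 / 2 : ℂ) * h1
    have e : (s * t) (⟨b, hb⟩ : IntermediateField.extendScalars h) = s (t ⟨b, hb⟩) := rfl
    rcases gal_sq h hb2 s ⟨b, hb⟩ rfl with h1 | h1 <;> rcases gal_sq h hb2 t ⟨b, hb⟩ rfl with h2 | h2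
    · rw [if_pos (by rw [e, h2, h1]), if_pos h1, if_pos h2, one_mul]
    · rw [if_neg (by rw [e, h2, map_neg, h1]; exact hne.symm), if_pos h1,
        if_neg (by rw [h2]; exact hne.symm), one_mul]
    · rw [if_neg (by rw [e, h2, h1]; exact hne.symm), if_neg (by rw [h1]; exact hne.symm),
        if_pos h2, mul_one]
    · rw [if_pos (by rw [e, h2, map_neg, h1, neg_neg]), if_neg (by rw [h1]; exact hne.symm),
        if_neg (by rw [h2]; exact hne.symm)]
      norm_num

theorem chq_pos (p : ℕ) [Fact p.Prime] {k K : IntermediateField ℚ ℂ} (h : k ≤ K) {b : ℂ}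
    (hb : b ∈ K) (hb2 : b ^ 2 ∈ k) (hb0 : b ≠ 0) (s : MuCyc.Gal h)
    (x : IntermediateField.extendScalars h) (hx : (x : ℂ) = b) (hs : s x = x) :
    chq p h hb hb2 hb0 s = 1 := by
  obtain rfl : x = ⟨b, hb⟩ := Subtype.ext hx
  exact if_pos hs

theorem chq_neg (p : ℕ) [Fact p.Prime] {k K : IntermediateField ℚ ℂ} (h : k ≤ K) {b : ℂ}
    (hb : b ∈ K) (hb2 : b ^ 2 ∈ k) (hb0 : b ≠ 0) (s : MuCyc.Gal h)
    (x : IntermediateField.extendScalars h) (hx : (x : ℂ) = b) (hs : s x = -x) :
    chq p h hb hb2 hb0 s = -1 := by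
  obtain rfl : x = ⟨b, hb⟩ := Subtype.ext hx
  apply if_neg
  rw [hs]
  intro h0
  have h1 : -b = b := congrArg Subtype.val h0
  apply hb0
  linear_combination (-1 / 2 : ℂ) * h1

/-- From `MuZeroC` for the quadratic character of `b` to the class numbers. -/
theorem quad_rel (hIFM : Sf_IFM) (hREL : Sf_REL) (p : ℕ) [Fact p.Prime] (hp : p ≠ 2)
    {k K : IntermediateField ℚ ℂ} (h : k ≤ K) (hfin : FiniteDimensional ℚ K)
    (hG : IsGalois k (IntermediateField.extendScalars h))
    (hc : ∀ σ τ : (IntermediateField.extendScalars h) ≃ₐ[k] (IntermediateField.extendScalars h),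
      σ * τ = τ * σ) (hd : ¬ p ∣ Module.finrank ℚ K) {b : ℂ}
    (hb : b ∈ K) (hb2 : b ^ 2 ∈ k) (hb0 : b ≠ 0) (hm : MuCyc.MuZeroC p h (chq p h hb hb2 hb0)) :
    ∃ C : ℕ, ∀ (n : ℕ) (Q : IntermediateField ℚ ℂ), MuCyc.IsLayer p n Q →
      padicValNat p (MuCyc.classNo (kb k b ⊔ Q)) ≤
        padicValNat p (MuCyc.classNo (k ⊔ Q)) + C * (n + 1) ^ 2 := by
  have hL : kb k b ≤ K := kb_le h hb
  have h1 : k ≤ kb k b := le_sup_left
  have hfL : FiniteDimensional ℚ (kb k b) :=
    FiniteDimensional.of_injective (IntermediateField.inclusion hL).toLinearMap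
      (IntermediateField.inclusion hL).injective
  have hd' : ¬ p ∣ Module.finrank ℚ (kb k b) := by
    intro h0
    apply hd
    let _ := algC hL
    have : IsScalarTower ℚ (kb k b) K := IsScalarTower.of_algebraMap_eq fun _ => rfl
    have e1 : Module.finrank ℚ (kb k b) * Module.finrank (kb k b) K = Module.finrank ℚ K :=
      Module.finrank_mul_finrank ℚ (kb k b) K
    rw [← e1]
    exact h0.mul_right _
  obtain ⟨hG', hc'⟩ := sub_ab h1 hL h hG hc
  refine hREL p hp k k (kb k b) le_rfl h1 h1 hfL hG' hc' hd' fun χ hχ => ?_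
  obtain ⟨s₀, -, hs₀⟩ := hχ
  apply hIFM p hp k (kb k b) K h1 h hL hfin hG hc hd χ _ _ hm
  intro s s' hss
  let y : IntermediateField.extendScalars h1 := ⟨b, mem_kb k b⟩
  let y' : IntermediateField.extendScalars h := ⟨b, hb⟩
  have hyy : ((s' y' : IntermediateField.extendScalars h) : ℂ) =
      (s y : IntermediateField.extendScalars h1) := hss y y' rfl
  -- `s₀ b = - b`
  have h3 : s₀ y = -y := by
    rcases gal_sq h1 hb2 s₀ y rfl with h4 | h4
    · exfalso
      apply hs₀
      have : s₀ = 1 := kb_ext h1 s₀ 1 (by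
        intro x hx
        obtain rfl : x = y := Subtype.ext hx
        exact h4)
      rw [this, map_one]
    · exact h4
  rcases gal_sq h1 hb2 s y rfl with h4 | h4
  · have h5 : s = 1 := kb_ext h1 s 1 (by
      intro x hx
      obtain rfl : x = y := Subtype.ext hx
      exact h4)
    rw [chq_pos p h hb hb2 hb0 s' y' rfl (by
      apply Subtype.ext
      rw [hyy, h4]), h5, map_one]
  · have h5 : s = s₀ := kb_ext h1 s s₀ (by
      intro x hx
      obtain rfl : x = y := Subtype.ext hx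
      rw [h4, h3])
    rw [chq_neg p h hb hb2 hb0 s' y' rfl (by
      apply Subtype.ext
      rw [hyy, h4]
      rfl), h5]
    have h6 : s₀ * s₀ = 1 := kb_ext h1 _ 1 (by
      intro x hx
      obtain rfl : x = y := Subtype.ext hx
      show s₀ (s₀ y) = y
      rw [h3, map_neg, h3, neg_neg])
    have h7 : (χ s₀) ^ 2 = 1 := by
      rw [sq, ← map_mul, h6, map_one]
    have h8 : (((χ s₀ : (AlgebraicClosure (ZMod p))ˣ)) : AlgebraicClosure (ZMod p)) ^ 2 = 1 := by
      rw [← Units.val_pow_eq_pow_val, h7, Units.val_one]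
    rw [sq] at h8
    rcases mul_self_eq_one_iff.1 h8 with h9 | h9
    · exact absurd (Units.ext h9) hs₀
    · apply Units.ext
      rw [h9]
      rfl

theorem gal_comm_two {k L : IntermediateField ℚ ℂ} (h : k ≤ L)
    (h2 : Module.finrank k (IntermediateField.extendScalars h) = 2) :
    IsGalois k (IntermediateField.extendScalars h) ∧
    ∀ σ τ : (IntermediateField.extendScalars h) ≃ₐ[k] (IntermediateField.extendScalars h),
      σ * τ = τ * σ := by
  have : Algebra.IsQuadraticExtension k (IntermediateField.extendScalars h) :=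
    { finrank_eq_two' := h2 }
  refine ⟨inferInstance, fun σ τ => ?_⟩
  have h3 : IsMulCommutative ((IntermediateField.extendScalars h) ≃ₐ[k]
    (IntermediateField.extendScalars h)) := inferInstance
  exact h3.is_comm.comm σ τ

theorem finrank_kb {k : IntermediateField ℚ ℂ} {b : ℂ} (h : k ≤ kb k b) (hb2 : b ^ 2 ∈ k)
    (hb : b ∉ k) : Module.finrank k (IntermediateField.extendScalars h) = 2 := by
  have h1 : (IntermediateField.adjoin k {b} : IntermediateField k ℂ) =
      IntermediateField.extendScalars h := by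
    apply le_antisymm
    · rw [IntermediateField.adjoin_le_iff]
      rintro _ rfl
      exact mem_kb k _
    · intro x hx
      have h2 : kb k b ≤ (IntermediateField.adjoin k {b}).restrictScalars ℚ := by
        apply kb_le
        · intro y hy
          exact (IntermediateField.adjoin k {b}).algebraMap_mem ⟨y, hy⟩
        · exact IntermediateField.subset_adjoin k {b} rfl
      exact h2 hx
  have hint : IsIntegral k b := by
    refine ⟨Polynomial.X ^ 2 - Polynomial.C ⟨b ^ 2, hb2⟩, Polynomial.monic_X_pow_sub_C _ two_ne_zero, ?_⟩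
    simp only [Polynomial.eval₂_sub, Polynomial.eval₂_X_pow, Polynomial.eval₂_C]
    exact sub_self _
  rw [← h1, IntermediateField.adjoin.finrank hint]
  apply le_antisymm
  · have h3 := minpoly.min k b (Polynomial.monic_X_pow_sub_C (⟨b ^ 2, hb2⟩ : k) two_ne_zero) (by
      rw [map_sub, map_pow, Polynomial.aeval_X, Polynomial.aeval_C]
      exact sub_self _)
    have h4 := Polynomial.natDegree_le_natDegree h3
    rwa [Polynomial.natDegree_X_pow_sub_C] at h4
  · rw [minpoly.two_le_natDegree_iff hint]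
    rintro ⟨y, hy⟩
    apply hb
    rw [← hy]
    exact y.2

/-- `k(b)/k` satisfies the conditions. -/
theorem bs_kb {k : IntermediateField ℚ ℂ} {b : ℂ} (h : k ≤ kb k b) (hb2 : b ^ 2 ∈ k)
    (hb : b ∉ k) (h2 : Module.finrank ℚ k = 2) (hi : ∃ z ∈ k, (starRingEnd ℂ) z ≠ z)
    (h4 : ∀ z ∈ k, z ^ 2 ≠ -1) (h3 : ∀ z ∈ k, z ^ 2 ≠ -3) : Bs 5 h := by
  have e := finrank_kb h hb2 hb
  have hk : FiniteDimensional ℚ k := Module.finite_of_finrank_pos (by rw [h2]; norm_num)
  obtain ⟨hg, hc⟩ := gal_comm_two h e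
  refine ⟨?_, h2, hi, h4, h3, hg, hc, by rw [e]; norm_num⟩
  have : FiniteDimensional k (IntermediateField.extendScalars h) :=
    Module.finite_of_finrank_pos (by rw [e]; norm_num)
  exact Module.Finite.trans (R := ℚ) (A := k) (M := IntermediateField.extendScalars h)

end QUA

open QUA in
/-- (QUA) `p = 5`: one of `k(a)`, `k(√5 a)` has the class numbers of `k`, up to a polynomial. -/
theorem quad5 (hLAY : Sf_LAY) (hBAX : Sq_BAX) (hNIL : O_NIL) (hIFM : Sf_IFM) (hREL : Sf_REL)
    (hFLD : Sf_FLD5) (k : IntermediateField ℚ ℂ) (h2 : Module.finrank ℚ k = 2)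
    (hi : ∃ z ∈ k, (starRingEnd ℂ) z ≠ z) (h4 : ∀ z ∈ k, z ^ 2 ≠ -1) (h3 : ∀ z ∈ k, z ^ 2 ≠ -3)
    (a w : ℂ) (ha : a ^ 2 ∈ k) (hw : w ^ 2 = 5) :
    ∃ C : ℕ,
      (∀ (n : ℕ) (Q : IntermediateField ℚ ℂ), MuCyc.IsLayer 5 n Q →
        padicValNat 5 (MuCyc.classNo (k ⊔ IntermediateField.adjoin ℚ {a} ⊔ Q)) ≤
          padicValNat 5 (MuCyc.classNo (k ⊔ Q)) + C * (n + 1) ^ 2) ∨
      (∀ (n : ℕ) (Q : IntermediateField ℚ ℂ), MuCyc.IsLayer 5 n Q →
        padicValNat 5 (MuCyc.classNo (k ⊔ IntermediateField.adjoin ℚ {w * a} ⊔ Q)) ≤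
          padicValNat 5 (MuCyc.classNo (k ⊔ Q)) + C * (n + 1) ^ 2) := by
  have : Fact (Nat.Prime 5) := ⟨by norm_num⟩
  by_cases hak : a ∈ k
  · refine ⟨0, Or.inl fun n Q _ => ?_⟩
    rw [show k ⊔ IntermediateField.adjoin ℚ {a} = k from kb_self hak]
    exact Nat.le_add_right _ _
  have hb := bs_kb (le_sup_left : k ≤ kb k a) ha hak h2 hi h4 h3
  obtain ⟨K, hK, hLK, hbK, hz, hd, -, -, hF⟩ := hFLD k (kb k a) le_sup_left 1 hb (by
    rw [finrank_kb le_sup_left ha hak, pow_one])
  obtain ⟨hwK, hsw⟩ := hF (AlgebraicClosure (ZMod 5)) w hw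
  have haK : a ∈ K := hLK (mem_kb k a)
  have hwa : w * a ∈ K := mul_mem hwK haK
  have ha0 : a ≠ 0 := by
    rintro rfl
    exact hak k.zero_mem
  have hw0 : w ≠ 0 := by
    rintro rfl
    norm_num at hw
  have hwa0 : w * a ≠ 0 := mul_ne_zero hw0 ha0
  have hwa2 : (w * a) ^ 2 ∈ k := by
    rw [mul_pow, hw]
    exact mul_mem (by exact_mod_cast k.natCast_mem 5) ha
  have hfin := hbK.fin
  obtain ⟨j, χ', hj, hev, htw, hm⟩ := one_even hLAY hBAX hNIL 5 le_rfl k K hK hbK.gal hbK.ab h2 hi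
    h4 h3 hbK.cop hz (chq 5 hK haK ha ha0)
  obtain ⟨ω, hω, hω1, -⟩ := exists_omega 5 hK hz
  have hj2 : j = 0 ∨ j = 2 := by
    obtain ⟨e, he⟩ := hev
    omega
  rcases hj2 with rfl | rfl
  · have h5 : χ' = chq 5 hK haK ha ha0 := by
      apply MonoidHom.ext
      intro s
      obtain ⟨c, hc, -⟩ := hω1 s
      apply Units.ext
      rw [htw s c hc, pow_zero, mul_one]
    rw [h5] at hm
    obtain ⟨C, hC⟩ := quad_rel hIFM hREL 5 (by norm_num) hK hfin hbK.gal hbK.ab hd haK ha ha0 hm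
    exact ⟨C, Or.inl hC⟩
  · have h5 : χ' = chq 5 hK hwa hwa2 hwa0 := by
      apply MonoidHom.ext
      intro s
      obtain ⟨c, hc, -⟩ := hω1 s
      apply Units.ext
      rw [htw s c hc]
      let xa : IntermediateField.extendScalars hK := ⟨a, haK⟩
      let xw : IntermediateField.extendScalars hK := ⟨w, hwK⟩
      let xwa : IntermediateField.extendScalars hK := ⟨w * a, hwa⟩
      have h6 : xwa = xw * xa := rfl
      have hww : w ^ 2 ∈ k := by
        rw [hw]
        exact_mod_cast k.natCast_mem 5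
      have h7 : (s xw = xw ∧ (c : AlgebraicClosure (ZMod 5)) ^ 2 = 1) ∨
          (s xw = -xw ∧ (c : AlgebraicClosure (ZMod 5)) ^ 2 = -1) := by
        rcases hsw s c hc xw rfl with ⟨h8, h9⟩ | ⟨h8, h9⟩
        · exact Or.inl ⟨Subtype.ext h8, h9⟩
        · exact Or.inr ⟨Subtype.ext h8, h9⟩
      rcases h7 with ⟨h8, h9⟩ | ⟨h8, h9⟩ <;> rcases gal_sq hK ha s xa rfl with h10 | h10
      · rw [h9, chq_pos 5 hK haK ha ha0 s xa rfl h10, chq_pos 5 hK hwa hwa2 hwa0 s xwa rfl (by
          rw [h6, map_mul, h8, h10])]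
        simp
      · rw [h9, chq_neg 5 hK haK ha ha0 s xa rfl h10, chq_neg 5 hK hwa hwa2 hwa0 s xwa rfl (by
          rw [h6, map_mul, h8, h10, mul_neg])]
        simp
      · rw [h9, chq_pos 5 hK haK ha ha0 s xa rfl h10, chq_neg 5 hK hwa hwa2 hwa0 s xwa rfl (by
          rw [h6, map_mul, h8, h10, neg_mul])]
        simp
      · rw [h9, chq_neg 5 hK haK ha ha0 s xa rfl h10, chq_pos 5 hK hwa hwa2 hwa0 s xwa rfl (by
          rw [h6, map_mul, h8, h10, neg_mul_neg])]
        simp
    rw [h5] at hm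
    obtain ⟨C, hC⟩ := quad_rel hIFM hREL 5 (by norm_num) hK hfin hbK.gal hbK.ab hd hwa hwa2 hwa0 hm
    exact ⟨C, Or.inr hC⟩

end Pool.Agent.OBF
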