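import Pool.Agent.OB.F_FRB
import Pool.Agent.OB.Q_QRT

/-!
# OB, `p = 5`: characters whose even twist is a conjugate

`p = 5`: the even twists of `χ` are `χ` and `χ ω ^ 2`. If `χ ω ^ 2` is the image of `χ` under complex conjugation and/or a power
of the Frobenius automorphism (on the values), then both are good.
-/

set_option autoImplicit false

open NumberField

namespace Pool.Agent.OBF

open _root_.Pool.Agent.MuCyc

/-- One even twist of every character is good. -/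
def OneA (p : ℕ) [Fact p.Prime] {k K : IntermediateField ℚ ℂ} (h : k ≤ K) : Prop :=
  ∀ χ : Chr p h, ∃ (j : ℕ) (χ' : Chr p h), j < p - 1 ∧ Even j ∧ IsTwist p h χ χ' j ∧
    MuZeroC p h χ'

/-- Complex conjugation. -/
def CnjA (p : ℕ) [Fact p.Prime] {k K : IntermediateField ℚ ℂ} (h : k ≤ K) : Prop :=
  ∀ χ χ' : Chr p h, IsConj p h χ χ' → MuZeroC p h χ → MuZeroC p h χ'

/-- `χ` is the complex conjugate of `χ'` if `χ'` is the complex conjugate of `χ`. -/
lemma conj_symm (p : ℕ) [Fact p.Prime] {k K : IntermediateField ℚ ℂ} (h : k ≤ K)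
    {χ χ' : Chr p h} (hc : IsConj p h χ χ') : IsConj p h χ' χ := by
  intro s s' hs
  symm
  apply hc
  intro x y hxy
  have h1 : (x : ℂ) = (starRingEnd ℂ) y := by rw [hxy, Complex.conj_conj]
  rw [hs y x h1, Complex.conj_conj]

section root

variable {k K : IntermediateField ℚ ℂ} (h : k ≤ K) {p : ℕ} [hp : Fact p.Prime]

/-- The action on the roots of unity. -/
lemma ex_c (hz : ∃ ζ ∈ K, IsPrimitiveRoot ζ p) (s : Gal h) : ∃ c : ℕ,
    ∀ z : IntermediateField.extendScalars h, z ^ p = 1 → s z = z ^ c := by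
  obtain ⟨ζ, hζ, hpr⟩ := hz
  have : NeZero p := ⟨hp.out.ne_zero⟩
  let ζ' : IntermediateField.extendScalars h := ⟨ζ, hζ⟩
  have hζ' : IsPrimitiveRoot ζ' p := by
    refine IsPrimitiveRoot.of_map_of_injective
      (f := algebraMap (IntermediateField.extendScalars h) ℂ) ?_
      (algebraMap (IntermediateField.extendScalars h) ℂ).injective
    exact hpr
  have h6 : (s ζ') ^ p = 1 := by rw [← map_pow, hζ'.pow_eq_one, map_one]
  obtain ⟨c, -, hc⟩ := hζ'.eq_pow_of_pow_eq_one h6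
  refine ⟨c, fun z hz => ?_⟩
  obtain ⟨i, -, hi⟩ := hζ'.eq_pow_of_pow_eq_one hz
  rw [← hi, map_pow, ← hc, ← pow_mul, ← pow_mul, mul_comm]

end root

section five

local instance : Fact (Nat.Prime 5) := ⟨by norm_num⟩

variable {k K : IntermediateField ℚ ℂ} (h : k ≤ K)

/-- (C') `χ ω ^ 2` is conjugate to `χ`. -/
theorem twist5 (hz : ∃ ζ ∈ K, IsPrimitiveRoot ζ 5) (hA : OneA 5 h) (hC : CnjA 5 h)
    (χ χ₁ χ₂ : Chr 5 h) (i : ℕ) (h1 : IsTwist 5 h χ χ₁ 2) (h2 : χ₂ = χ ∨ IsConj 5 h χ χ₂)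
    (h3 : ∀ s, ((χ₁ s : (AlgebraicClosure (ZMod 5))ˣ) : AlgebraicClosure (ZMod 5)) =
      (χ₂ s : AlgebraicClosure (ZMod 5)) ^ (5 ^ i)) : MuZeroC 5 h χ ∧ MuZeroC 5 h χ₁ := by
  have e1 : MuZeroC 5 h χ₁ ↔ MuZeroC 5 h χ₂ := muZero_frob_pow 5 h χ₂ χ₁ i h3
  have e2 : MuZeroC 5 h χ₂ ↔ MuZeroC 5 h χ := by
    rcases h2 with rfl | h2
    · exact Iff.rfl
    · exact ⟨hC _ _ (conj_symm 5 h h2), hC _ _ h2⟩
  obtain ⟨j, χ', hj1, hj2, hj3, hj4⟩ := hA χ
  have hj : j = 0 ∨ j = 2 := by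
    obtain ⟨i, hi⟩ := hj2
    omega
  rcases hj with rfl | rfl
  · have e3 : χ' = χ := by
      ext s
      obtain ⟨c, hc⟩ := ex_c h hz s
      rw [hj3 s c hc, pow_zero, mul_one]
    rw [e3] at hj4
    exact ⟨hj4, e1.2 (e2.2 hj4)⟩
  · have e3 : χ' = χ₁ := by
      ext s
      obtain ⟨c, hc⟩ := ex_c h hz s
      rw [hj3 s c hc, h1 s c hc]
    rw [e3] at hj4
    exact ⟨e2.1 (e1.1 hj4), hj4⟩

/-- (C') for all twists of `χ`. -/
theorem twist5_all (hz : ∃ ζ ∈ K, IsPrimitiveRoot ζ 5) (hA : OneA 5 h) (hC : CnjA 5 h)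
    (χ χ₁ χ₂ : Chr 5 h) (i : ℕ) (h1 : IsTwist 5 h χ χ₁ 2) (h2 : χ₂ = χ ∨ IsConj 5 h χ χ₂)
    (h3 : ∀ s, ((χ₁ s : (AlgebraicClosure (ZMod 5))ˣ) : AlgebraicClosure (ZMod 5)) =
      (χ₂ s : AlgebraicClosure (ZMod 5)) ^ (5 ^ i)) (j : ℕ) (χ' : Chr 5 h)
    (h4 : IsTwist 5 h χ χ' j) : MuZeroC 5 h χ' := by
  set η : Chr 5 h := χ' * χ⁻¹ with hη
  have e0 : ∀ s, χ' s = χ s * η s := by
    intro s
    rw [hη, MonoidHom.mul_apply, MonoidHom.inv_apply, mul_comm (χ' s), mul_inv_cancel_left]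
  have e1 : ∀ (s : Gal h) (c : ℕ), (∀ z : IntermediateField.extendScalars h, z ^ 5 = 1 →
      s z = z ^ c) → ((η s : (AlgebraicClosure (ZMod 5))ˣ) : AlgebraicClosure (ZMod 5)) =
        (c : AlgebraicClosure (ZMod 5)) ^ j := by
    intro s c hc
    have e2 := h4 s c hc
    rw [e0, Units.val_mul] at e2
    exact mul_left_cancel₀ (χ s).ne_zero e2
  refine (twist5 h hz hA hC χ' (χ₁ * η) (χ₂ * η) i ?_ ?_ ?_).1
  · intro s c hc
    rw [MonoidHom.mul_apply, Units.val_mul, h1 s c hc, e0 s, Units.val_mul]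
    ring
  · rcases h2 with rfl | h2
    · left
      ext s
      rw [e0 s, MonoidHom.mul_apply]
    · right
      intro s s' hs
      rw [MonoidHom.mul_apply, e0 s, h2 s s' hs]
      congr 1
      obtain ⟨c, hc⟩ := ex_c h hz s
      apply Units.ext
      rw [e1 s c hc]
      refine e1 s' c (fun z hz5 => ?_)
      -- the conjugate of `z`
      have hz0 : (z : ℂ) ^ 5 = 1 := by
        have := congrArg Subtype.val hz5
        exact this
      have hcj : (starRingEnd ℂ) (z : ℂ) = (z : ℂ)⁻¹ := by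
        rw [← Complex.inv_eq_conj]
        exact Complex.norm_eq_one_of_pow_eq_one hz0 (by norm_num)
      have e5 := hs z (z⁻¹) (by rw [hcj]; rfl)
      have e6 : (z⁻¹) ^ 5 = 1 := by rw [inv_pow, hz5, inv_one]
      rw [hc _ e6] at e5
      apply Subtype.ext
      have e7 : ((s' z : IntermediateField.extendScalars h) : ℂ) =
          (starRingEnd ℂ) (((z⁻¹) ^ c : IntermediateField.extendScalars h) : ℂ) := by
        rw [e5, Complex.conj_conj]
      rw [e7]
      have e8 : (((z⁻¹) ^ c : IntermediateField.extendScalars h) : ℂ) = ((z : ℂ)⁻¹) ^ c := rfl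
      rw [e8, map_pow, ← hcj, Complex.conj_conj]
      rfl
  · intro s
    obtain ⟨c, hc⟩ := ex_c h hz s
    have m1 : (χ₁ * η) s = χ₁ s * η s := rfl
    have m2 : (χ₂ * η) s = χ₂ s * η s := rfl
    rw [m1, m2, Units.val_mul, Units.val_mul, h3 s, mul_pow]
    congr 1
    rw [e1 s c hc, ← pow_mul, mul_comm j, pow_mul]
    congr 1
    have e9 : ∀ i : ℕ, (c : AlgebraicClosure (ZMod 5)) ^ (5 ^ i) = c := by
      intro i
      induction i with
      | zero => rw [pow_zero, pow_one]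
      | succ i ih =>
        rw [pow_succ, pow_mul, ih]
        exact map_natCast (frobenius (AlgebraicClosure (ZMod 5)) 5) c
    exact (e9 i).symm

end five

end Pool.Agent.OBF
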