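import Pool.Agent.OB.StG
import Pool.Agent.MUX.N_LOC
import Pool.Agent.MUX.N_GJ
import Pool.Agent.MUX.E_RNG

/-!
# OB, block G, LCN: common denominators prime to `V` (helper50), after `MUX/N_LOC.lean` and `NS/G_Lcn.lean`
-/

set_option autoImplicit false

namespace Pool.Agent.OBG

open _root_.MU3 Pool.Agent.MU3A Pool.Agent.MU3B Pool.Agent.MUX Pool.Agent.MUXN Pool.Agent.NS
  Pool.Agent.NSG Pool.Agent.OB

noncomputable section

namespace LCN

/-- one element -/
lemma one {A B : ℤ} (hC : CQ A B) {l : ℕ} (hl : l.Prime) {P : Ideal (OO A B)} (hPp : P.IsPrime)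
    (hlP : ((l : ℕ) : OO A B) ∈ P) {V : ValuationSubring ℂ} (hV : OverI V P) {y : ℂ} (hy : y ∈ kk A B) (hyV : y ∈ V) :
    ∃ t : OO A B, t ∉ P ∧ ∃ c : OO A B, emb t * y = emb c := by
  have hR := Pool.Agent.MUXE.te_RNG A B hC
  have hded : IsDedekindDomain (OO A B) := hR.ded
  obtain ⟨n, a, hn, ha⟩ := Pool.Agent.MUXN.LOC.quot hC hy
  have hnC : (n : ℂ) ≠ 0 := by exact_mod_cast hn
  have hnO : (n : OO A B) ≠ 0 := natCast_ne_zero' hC hn
  by_cases ha0 : a = 0
  · refine ⟨1, fun h => hPp.ne_top (P.eq_top_iff_one.2 h), 0, ?_⟩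
    have hy0 : y = 0 := by
      rw [ha0, emb_zero hC] at ha
      exact (mul_eq_zero.1 ha).resolve_left hnC
    rw [hy0, mul_zero, emb_zero hC]
  have hPb : P ≠ ⊥ := by
    intro h
    have h1 : ((l : ℕ) : OO A B) ∈ P := hlP
    rw [h, Ideal.mem_bot] at h1
    exact natCast_ne_zero' hC hl.ne_zero h1
  have hprime : Prime P := Ideal.prime_of_isPrime hPb hPp
  have hna : sp a ≠ 0 := by
    rw [Ne, Ideal.zero_eq_bot, Ideal.span_singleton_eq_bot]
    exact ha0
  have hnn : sp (n : OO A B) ≠ 0 := by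
    rw [Ne, Ideal.zero_eq_bot, Ideal.span_singleton_eq_bot]
    exact hnO
  obtain ⟨i, J, hJ, haJ⟩ := WfDvdMonoid.max_power_factor hna hprime.irreducible
  obtain ⟨j, K, hK, hnK⟩ := WfDvdMonoid.max_power_factor hnn hprime.irreducible
  rw [Ideal.dvd_iff_le] at hJ hK
  obtain ⟨s, hsJ, hsP⟩ := SetLike.not_le_iff_exists.1 hJ
  obtain ⟨t, htK, htP⟩ := SetLike.not_le_iff_exists.1 hK
  rcases le_or_gt j i with hij | hij
  · -- `t a ∈ (n)`
    obtain ⟨r, rfl⟩ := Nat.exists_eq_add_of_le hij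
    have h1 : t * a ∈ sp (n : OO A B) := by
      have h2 : t * a ∈ K * (P ^ (j + r) * J) :=
        Ideal.mul_mem_mul htK (haJ ▸ Ideal.mem_span_singleton_self a)
      have h3 : K * (P ^ (j + r) * J) ≤ sp (n : OO A B) := by
        rw [hnK]
        calc K * (P ^ (j + r) * J) = P ^ j * K * (P ^ r * J) := by rw [pow_add]; ring
          _ ≤ P ^ j * K := Ideal.mul_le_left
      exact h3 h2
    obtain ⟨c, hc⟩ := Ideal.mem_span_singleton.1 h1
    refine ⟨t, htP, c, ?_⟩
    have h2 := congrArg emb hc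
    rw [emb_mul hC, emb_mul hC, emb_natCast hC, ← ha] at h2
    apply mul_left_cancel₀ hnC
    linear_combination h2
  · exfalso
    obtain ⟨r, rfl⟩ := Nat.exists_eq_add_of_lt hij
    have h1 : s * (n : OO A B) ∈ sp a * P := by
      have h2 : s * (n : OO A B) ∈ J * (P ^ (i + r + 1) * K) :=
        Ideal.mul_mem_mul hsJ (hnK ▸ Ideal.mem_span_singleton_self _)
      have h3 : J * (P ^ (i + r + 1) * K) ≤ sp a * P := by
        rw [haJ]
        calc J * (P ^ (i + r + 1) * K) = (P ^ i * J * P) * (P ^ r * K) := by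
              rw [pow_succ, pow_add]; ring
          _ ≤ P ^ i * J * P := Ideal.mul_le_left
      exact h3 h2
    obtain ⟨c, hc, hac⟩ := Ideal.mem_span_singleton_mul.1 h1
    have h2 := congrArg emb hac
    rw [emb_mul hC, emb_mul hC, emb_natCast hC, ← ha] at h2
    have h3 : emb s = y * emb c := by
      apply mul_left_cancel₀ hnC
      linear_combination -h2
    have h4 : emb c ∈ V.nonunits := (hV c).2 hc
    have h5 : emb s ∈ V.nonunits := by
      rw [ValuationSubring.mem_nonunits_iff] at h4 ⊢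
      rw [h3, map_mul]
      have h6 : V.valuation y ≤ 1 := (ValuationSubring.valuation_le_one_iff _ _).2 hyV
      exact lt_of_le_of_lt (mul_le_of_le_one_left' h6) h4
    exact hsP ((hV s).1 h5)

/-- an element outside `P` has valuation `1` -/
lemma val1 {A B : ℤ} (hC : CQ A B) {P : Ideal (OO A B)} {V : ValuationSubring ℂ}
    (hV : OverI V P) {t : OO A B} (ht : t ∉ P) : V.valuation (emb t) = 1 := by
  have h1 : V.valuation (emb t) ≤ 1 :=
    (V.valuation_le_one_iff _).2 (N_GJ.emb_mem_V hC V t)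
  have h2 : ¬ V.valuation (emb t) < 1 := fun h =>
    ht ((hV t).1 ((ValuationSubring.mem_nonunits_iff _).2 h))
  exact le_antisymm h1 (not_lt.1 h2)

end LCN

open LCN in
theorem o_LCN : So_LCN := by
  intro p er A B P V h S hS
  have hC : CQ A B := h.cq
  have hPp : P.IsPrime := h.prime
  classical
  obtain ⟨t, ht, htS⟩ : ∃ t : OO A B, t ∉ P ∧ ∀ y ∈ S, ∃ c : OO A B, emb t * y = emb c := by
    induction S using Finset.induction_on with
    | empty =>
      exact ⟨1, fun h => hPp.ne_top (P.eq_top_iff_one.2 h),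
        fun y hy => absurd hy (Finset.notMem_empty y)⟩
    | insert y S hyS ih =>
      obtain ⟨t, ht, htS⟩ := ih (fun z hz => hS z (Finset.mem_insert_of_mem hz))
      obtain ⟨h1, h2⟩ := hS y (Finset.mem_insert_self y S)
      obtain ⟨u, hu, c, hc⟩ := one hC h.pp hPp h.mem h.hV h1 h2
      refine ⟨t * u, fun h => (hPp.mem_or_mem h).elim ht hu, ?_⟩
      intro z hz
      rcases Finset.mem_insert.1 hz with rfl | hz
      · refine ⟨t * c, ?_⟩
        rw [emb_mul hC, emb_mul hC, ← hc]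
        ring
      · obtain ⟨c', hc'⟩ := htS z hz
        refine ⟨u * c', ?_⟩
        rw [emb_mul hC, emb_mul hC, ← hc']
        ring
  exact ⟨t, val1 hC h.hV ht, htS⟩

end

end Pool.Agent.OBG
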