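import Pool.Agent.OB.StG
import Pool.Agent.NS.G_Leg

/-!
# OB, block G: (LEG) the lattice `u L_0` in Legendre form, and `u` is algebraic, after `NS/G_Leg.lean`
-/

set_option autoImplicit false

namespace Pool.Agent.OBG.LEG

open _root_.MU3 Pool.Agent.MU3A Pool.Agent.MU3B Pool.Agent.MU3Q Pool.Agent.MUX Pool.Agent.MuSym
  Pool.Agent.MUXN Pool.Agent.NS Pool.Agent.NSG Pool.Agent.OB OnePoint UpperHalfPlane

noncomputable section

variable {A B : ℤ}

/-- the equation of `GoodL` is the one of `GoodN` for the trivial valuation ring -/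
theorem good_top {V : ValuationSubring ℂ} {L : PeriodPair} {u e lam : ℂ} (h : GoodL V L u e lam) :
    GoodN (⊤ : ValuationSubring ℂ) L u e lam := by
  refine ⟨h.u0, h.eq, ?_⟩
  have h1 : (⊤ : ValuationSubring ℂ).valuation (1 + lam) ≤ 1 :=
    ((⊤ : ValuationSubring ℂ).valuation_le_one_iff _).2 trivial
  have h2 : (⊤ : ValuationSubring ℂ).valuation (3 : ℂ)⁻¹ ≤ 1 :=
    ((⊤ : ValuationSubring ℂ).valuation_le_one_iff _).2 trivial
  have h3 : 1 ≤ (⊤ : ValuationSubring ℂ).valuation (3 : ℂ) := by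
    have h4 : (⊤ : ValuationSubring ℂ).valuation (3 : ℂ) *
        (⊤ : ValuationSubring ℂ).valuation (3 : ℂ)⁻¹ = 1 := by
      rw [← map_mul, mul_inv_cancel₀ (by norm_num : (3 : ℂ) ≠ 0), map_one]
    calc 1 = (⊤ : ValuationSubring ℂ).valuation (3 : ℂ) *
        (⊤ : ValuationSubring ℂ).valuation (3 : ℂ)⁻¹ := h4.symm
      _ ≤ (⊤ : ValuationSubring ℂ).valuation (3 : ℂ) * 1 := mul_le_mul_right h2 _
      _ = _ := mul_one _
  exact h1.trans h3

/-- `LegN` for the lattice `u L` -/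
theorem legL (hS : MUXU.Su_SCX) (hc : CQ A B) (hT : TorX A B) {n : ℕ} {ι : Type}
    (R : Reps A B n ι) {V : ValuationSubring ℂ} {u e lam : ℂ}
    (h : GoodL V (R.L R.i0) u e lam) :
    ∃ (L' : PeriodPair), LegN A B V L' (u * R.om R.i0) (e / u ^ 2) lam := by
  obtain ⟨L', hL'⟩ := hS (R.L R.i0) u h.u0
  obtain ⟨s1, s2, -, -⟩ := ta_SCP (R.L R.i0) L' u h.u0 hL'
  have ho : R.om R.i0 ≠ 0 := (R.nl R.i0).om_ne
  refine ⟨L', mul_ne_zero h.u0 ho, ?_, ?_, (leg_alg hc hT (R.nl R.i0) (good_top h)).2.2, h.vl,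
    h.vl1⟩
  · intro z
    have e1 : z = u * (u⁻¹ * z) := by rw [mul_inv_cancel_left₀ h.u0]
    rw [e1, ← hL' (u⁻¹ * z), (R.nl R.i0).mem]
    constructor
    · rintro ⟨x, -, hx⟩
      exact ⟨x, by rw [hx]; ring⟩
    · rintro ⟨x, hx⟩
      refine ⟨x, by rw [R.b0]; trivial, ?_⟩
      have hu := h.u0
      apply mul_left_cancel₀ hu
      rw [hx]
      ring
  · intro z hz
    have e1 : z = u * (u⁻¹ * z) := by rw [mul_inv_cancel_left₀ h.u0]
    have hz' : u⁻¹ * z ∉ (R.L R.i0).lattice := by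
      intro h4
      apply hz
      rw [e1]
      exact (hL' _).1 h4
    have h5 := h.eq _ hz'
    rw [e1, s1, s2]
    have hu := h.u0
    rw [show (R.L R.i0).weierstrassP (u⁻¹ * z) / u ^ 2 - e / u ^ 2 =
      ((R.L R.i0).weierstrassP (u⁻¹ * z) - e) / u ^ 2 by ring, ← h5]
    field_simp
    ring

end

end Pool.Agent.OBG.LEG

namespace Pool.Agent.OBG

/-- (LEG) the lattice `u L_0` in Legendre form, and `u` is algebraic -/
theorem o_LEG (h1 : MUXU.Su_SCX) : So_LEG := by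
  intro A B hc hT n ι R V u e lam h
  exact ⟨(Pool.Agent.NSG.leg_alg hc hT (R.nl R.i0) (LEG.good_top h)).1, LEG.legL h1 hc hT R h⟩

end Pool.Agent.OBG
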