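import Pool.Agent.OB.G_GPT
import Pool.Agent.OB.G_LCN
import Pool.Agent.OB.G_LEG
import Pool.Agent.OB.G_TRL
import Pool.Agent.OB.G_UNN
import Pool.Agent.NS.G_Gj
import Pool.Agent.NS.G_Gth
import Pool.Agent.MU3.Q_ALL
import Pool.Agent.MUX.N_RET
import Pool.Agent.MUX.N_NFE
import Pool.Agent.MUX.N_DSC
import Pool.Agent.MUX.N_DSI
import Pool.Agent.MUX.N_ZL
import Pool.Agent.MUX.N_FK
import Pool.Agent.MUX.N_FGG
import Pool.Agent.MUX.N_GV
import Pool.Agent.MUX.N_GD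
import Pool.Agent.MUX.N_GP
import Pool.Agent.MUX.N_DV
import Pool.Agent.MUX.YAll
import Pool.Agent.MUX.UAll
import Pool.Agent.MUX.XTMain

/-!
# OB, block G put together (helper59): Theorem G for the translates, every prime `p ≥ 5`
-/

set_option autoImplicit false

namespace Pool.Agent.OBG

open _root_.MU3 Pool.Agent.MUX Pool.Agent.MUXN Pool.Agent.MUXF Pool.Agent.MUXY Pool.Agent.MUXU
  Pool.Agent.MuSym Pool.Agent.NS Pool.Agent.NSG OnePoint

/-- Theorem G for the translates, without hypotheses -/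
theorem x_GPT : So_GPT :=
  o_GPT o_TRL o_LCN (o_LEG u_SCX) (o_UNN xf_IDL xf_NIM)
    (tn_GTH (tn_GJ Pool.Agent.MU3Q.wq (tg_GP tg_GV tg_GD) tg_DV tg_RET tg_NFE)
    (tg_DSC tg_DSI) tg_ZL (tg_FK u_AUF) tg_FGG) Pool.Agent.MUXT.main_FTI xf_CHI y_CON y_ALP
    y_FEC y_COP xf_ALG xf_IDL xf_QB xf_BDD xf_TSM

end Pool.Agent.OBG
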