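import Pool.Agent.OB.Defs0
import Pool.Agent.NS.StRN
import Pool.Agent.MUX.XLib

/-!
# OB, block GR: elementary facts (helper60)
-/

set_option autoImplicit false

namespace Pool.Agent.OB

open _root_.MU3 Pool.Agent.MU3A Pool.Agent.MU3B Pool.Agent.RI Pool.Agent.MUX Pool.Agent.NS

noncomputable section

section
variable {p er : ℕ} {A B : ℤ} {P : Ideal (OO A B)} {V : ValuationSubring ℂ}

lemma vint (V : ValuationSubring ℂ) (n : ℤ) : V.valuation (n : ℂ) ≤ 1 :=
  (ValuationSubring.valuation_le_one_iff _ _).2 (intCast_mem V n)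

lemma vnat_le (V : ValuationSubring ℂ) (n : ℕ) : V.valuation (n : ℂ) ≤ 1 :=
  (ValuationSubring.valuation_le_one_iff _ _).2 (natCast_mem V n)

lemma vwC (h : CQ A B) (V : ValuationSubring ℂ) : V.valuation (wC A B) ≤ 1 := by
  by_contra hc
  rw [not_le] at hc
  have h1 : V.valuation (wC A B ^ 2) ≤ V.valuation (wC A B) := by
    rw [pow_two, wC_sq h]
    refine (V.valuation.map_add _ _).trans (max_le ((vint V A).trans hc.le) ?_)
    rw [map_mul]
    calc V.valuation (B : ℂ) * V.valuation (wC A B) ≤ 1 * V.valuation (wC A B) :=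
          mul_le_mul_left (vint V B) _
      _ = _ := one_mul _
  rw [map_pow, pow_two] at h1
  have h2 : V.valuation (wC A B) * 1 < V.valuation (wC A B) * V.valuation (wC A B) :=
    mul_lt_mul_of_pos_left hc (zero_lt_one.trans hc)
  rw [mul_one] at h2
  exact absurd h1 (not_le.2 h2)

/-- `O` is in `V` -/
lemma vemb_le (h : CQ A B) (V : ValuationSubring ℂ) (x : OO A B) : V.valuation (emb x) ≤ 1 := by
  have h1 : emb x = (x.re : ℂ) + (x.im : ℂ) * wC A B := rfl
  rw [h1]
  refine (V.valuation.map_add _ _).trans (max_le (vint V _) ?_)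
  rw [map_mul]
  exact mul_le_one' (vint V _) (vwC h V)

lemma CaseO.vemb_lt (h : CaseO p er A B P V) (x : OO A B) : V.valuation (emb x) < 1 ↔ x ∈ P := by
  rw [← ValuationSubring.mem_nonunits_iff]
  exact h.hV x

lemma CaseO.vemb_one (h : CaseO p er A B P V) {x : OO A B} (hx : x ∉ P) :
    V.valuation (emb x) = 1 := by
  refine le_antisymm (vemb_le h.cq V x) ?_
  rw [← h.vemb_lt, not_lt] at hx
  exact hx

lemma CaseO.vp (h : CaseO p er A B P V) : V.valuation (p : ℂ) < 1 := by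
  have h1 := (h.vemb_lt _).2 h.mem
  rwa [emb_natCast h.cq] at h1

/-- natural numbers prime to `p` are units -/
lemma v_nat_unit {p : ℕ} (hp : p.Prime) (hv : V.valuation (p : ℂ) < 1) {n : ℕ} (hn : ¬ p ∣ n) :
    V.valuation (n : ℂ) = 1 := by
  have hco : IsCoprime (n : ℤ) (p : ℤ) := by
    have h1 : Nat.Coprime n p := ((Nat.Prime.coprime_iff_not_dvd hp).2 hn).symm
    exact_mod_cast Nat.isCoprime_iff_coprime.2 h1
  obtain ⟨a, b, hab⟩ := hco
  have h4 : (a : ℂ) * n = 1 - b * p := by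
    have h5 : ((a * (n : ℤ) + b * p : ℤ) : ℂ) = 1 := by rw [hab]; norm_num
    push_cast at h5
    linear_combination h5
  have h6 : V.valuation ((b : ℂ) * p) < 1 := by
    rw [map_mul]
    calc V.valuation (b : ℂ) * V.valuation (p : ℂ) ≤ 1 * V.valuation (p : ℂ) :=
          mul_le_mul_left (vint V b) _
      _ < 1 := by rw [one_mul]; exact hv
  have h7 : V.valuation (1 - (b : ℂ) * p) = 1 := by
    have := V.valuation.map_sub_eq_of_lt_left (x := 1) (y := (b : ℂ) * p)
      (by rw [map_one]; exact h6)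
    rw [this, map_one]
  rw [← h4, map_mul] at h7
  have h8 : V.valuation (n : ℂ) ≤ 1 := vnat_le V n
  refine le_antisymm h8 ?_
  rw [← h7]
  calc V.valuation (a : ℂ) * V.valuation (n : ℂ) ≤ 1 * V.valuation (n : ℂ) :=
        mul_le_mul_left (vint V a) _
    _ = _ := one_mul _

lemma CaseO.vnat (h : CaseO p er A B P V) {n : ℕ} (hn : ¬ p ∣ n) : V.valuation (n : ℂ) = 1 :=
  v_nat_unit h.pp h.vp hn

lemma CaseO.v2 (h : CaseO p er A B P V) : V.valuation (2 : ℂ) = 1 := by
  have h1 := h.vnat (n := 2) (fun hd => by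
    have := Nat.le_of_dvd two_pos hd
    have := h.p5
    omega)
  exact_mod_cast h1

lemma CaseO.v3 (h : CaseO p er A B P V) : V.valuation (3 : ℂ) = 1 := by
  have h1 := h.vnat (n := 3) (fun hd => by
    have := Nat.le_of_dvd (by norm_num) hd
    have := h.p5
    omega)
  exact_mod_cast h1

lemma CaseO.P0 (h : CaseO p er A B P V) : P ≠ ⊥ := by
  intro h0
  have h1 := h.mem
  rw [h0, Ideal.mem_bot] at h1
  exact natCast_ne_zero' h.cq h.pp.ne_zero h1

lemma CaseO.two (h : CaseO p er A B P V) : ((2 : ℕ) : OO A B) ∉ P := by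
  intro h1
  have h2 := (h.vemb_lt _).2 h1
  rw [emb_natCast h.cq] at h2
  have h3 := h.v2
  rw [Nat.cast_ofNat, h3] at h2
  exact lt_irrefl _ h2

end

/-- points killed by `n` are killed by the ideal `(n)` -/
lemma tor_of_mul {A B : ℤ} (h : CQ A B) {b : Ideal (OO A B)} {L : PeriodPair} {om : ℂ}
    (hL : IsLI b L om) {n : ℕ} {z : ℂ} (hz : (n : ℂ) * z ∈ L.lattice) :
    Tor (idl (A := A) (B := B) n) L z := by
  intro x hx
  obtain ⟨y, rfl⟩ := Ideal.mem_span_singleton.1 hx
  obtain ⟨t, ht, e⟩ := (hL.mem _).1 hz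
  refine (hL.mem _).2 ⟨y * t, b.mul_mem_left _ ht, ?_⟩
  rw [emb_mul h, emb_mul h, emb_natCast h]
  linear_combination (emb y) * e

lemma GoodL.leg {V : ValuationSubring ℂ} {L : PeriodPair} {u e lam : ℂ}
    (h : GoodL V L u e lam) : Pool.Agent.NSR.Leg L u e lam := ⟨h.u0, h.eq⟩

lemma GoodL.unit {V : ValuationSubring ℂ} {L : PeriodPair} {u e lam : ℂ}
    (h : GoodL V L u e lam) : V.valuation lam = 1 ∧ V.valuation (lam - 1) = 1 :=
  ⟨h.vl, by rw [Valuation.map_sub_swap]; exact h.vl1⟩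

end

end Pool.Agent.OB
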