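import Pool.Agent.OB.StG
import Pool.Agent.NS.G_Gpt

/-!
# OB, block G: Theorem G for `PT p (PhiK R e kk / (u om_0))` (module GPT), after `NS/G_Gdn.lean` and `NS/G_Gpt.lean`
-/

set_option autoImplicit false

namespace Pool.Agent.OBG

open _root_.MU3 Pool.Agent.MU3A Pool.Agent.MU3B Pool.Agent.MU3Q Pool.Agent.MUX Pool.Agent.MuSym
  Pool.Agent.MUXN Pool.Agent.NS Pool.Agent.OB OnePoint UpperHalfPlane

noncomputable section

namespace GPT

open Pool.Agent.NSG (EC qx SymN GDatN)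

variable {A B : ℤ} {n : ℕ} {ι : Type}

/-- the symbols -/
def PsT (T : ℕ) (R : Reps A B n ι) (e : OO A B → ℂ) (j : ι × EC e × Fin T) (x y : OnePoint ℚ) : ℂ :=
  PhiI (R.b j.1) j.2.1 (mob (T : ℤ) (j.2.2 : ℕ) 0 (T : ℤ) x) (mob (T : ℤ) (j.2.2 : ℕ) 0 (T : ℤ) y)

/-- their primitives -/
def ThT (T : ℕ) (R : Reps A B n ι) (e : OO A B → ℂ) (j : ι × EC e × Fin T) (τ : ℂ) : ℂ :=
  thetaIntI (R.b j.1) j.2.1 (τ + ((j.2.2 : ℕ) : ℤ) / (T : ℂ))

/-- `ζ_T` -/
def zT (T : ℕ) : ℂ := Complex.exp (2 * Real.pi * Complex.I / T)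

/-- the first coefficients -/
def a1T (T : ℕ) (R : Reps A B n ι) (e : OO A B → ℂ) (j : ι × EC e × Fin T) : ℂ :=
  open Classical in if j.1 = R.i0 then zT T ^ (j.2.2 : ℕ) else 0

theorem zT_prim (T : ℕ) (hT0 : T ≠ 0) : IsPrimitiveRoot (zT T) T := by
  have := Complex.isPrimitiveRoot_exp T hT0
  unfold zT
  exact_mod_cast this

theorem zT_int (T : ℕ) (hT0 : T ≠ 0) : IsIntegral ℤ (zT T) :=
  IsIntegral.of_pow (n := T) (Nat.pos_of_ne_zero hT0)
    (by rw [(zT_prim T hT0).pow_eq_one]; exact isIntegral_one)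

open MUXY in
/-- the data for Theorem G, for `g = (n)` -/
theorem gdat (hTR : So_TRL) (T : ℕ) (hT0 : T ≠ 0) (h2 : MUXT.Xs_FTI) (h3 : MUXF.Sx_CHI) (h4 : Sy_CON) (h5 : Sy_ALP)
    (h7 : Sy_FEC) (h8 : Sy_COP) (hA : MUXF.Sx_ALG) (hI : MUXF.Sx_IDL) (hQB : MUXF.Sx_QB)
    (hBD : MUXF.Sx_BDD) (hTS : MUXF.Sx_TSM) (hQ : MUX.CQ A B)
    (u1 : ∀ x : OO A B, nm x = 1 → x = 1 ∨ x = -1)
    (u2 : ∀ (b : Ideal (OO A B)) (_ : b ≠ ⊥) (x : OO A B), x ∈ b → nm x = MUX.nI b → b = MUX.sp x)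
    (hT : TorX A B) [hι : Finite ι] (hn : 2 ≤ n) (R : Reps A B n ι) (e : OO A B → ℂ)
    (he : IsEI (idl n) e) (r : ℕ) (hr : r ≠ 0) (her : ∀ x, e x ≠ 0 → e x ^ r = 1) (u : ℂ)
    (hu : u ≠ 0) (hua : IsAlgebraic ℚ u) (N' : ℕ) (hN : N' ≠ 0)
    (hNd : absD A B * (n : ℤ) ^ 2 ∣ (N' : ℤ)) :
    GDatN A B (ι × EC e × Fin T) (PsT T R e) (ThT T R e) (a1T T R e) (u * R.om R.i0)
      (T ^ 2 * N') := by
  classical
  have hn0 : n ≠ 0 := by omega
  set g : Ideal (OO A B) := idl n with hg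
  have hpf : ((n : ℕ) : OO A B) ∈ g := Ideal.mem_span_singleton_self _
  have hgb : g ≠ ⊥ := by
    intro h
    rw [h, Ideal.mem_bot] at hpf
    exact Gdt.nat_ne _ hn0 hpf
  have hgt : g ≠ ⊤ := by
    intro h
    rw [Ideal.eq_top_iff_one, hg, Ideal.mem_span_singleton] at h
    obtain ⟨y, hy⟩ := h
    have h1 := congrArg QuadraticAlgebra.re hy
    rw [QuadraticAlgebra.re_one, QuadraticAlgebra.re_mul, QuadraticAlgebra.re_natCast,
      QuadraticAlgebra.im_natCast, mul_zero, zero_mul, add_zero] at h1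
    have h9 : (n : ℤ) ∣ 1 := ⟨y.re, h1⟩
    have h10 : (n : ℤ) ≤ 1 := Int.le_of_dvd one_pos h9
    omega
  have hcop : ∀ i, IsCoprime (MUX.sp ((MUX.nI (R.b i) : ℕ) : OO A B)) g :=
    h8 A B n ι R g 1 (by rw [pow_one]; exact hpf)
  have hEI : ∀ e' ∈ EC e, IsEI g e' := by
    rintro e' ⟨σ, rfl⟩
    exact Gdt.ei_conj he σ
  have hEr : ∀ e' ∈ EC e, ∀ x, e' x ≠ 0 → e' x ^ r = 1 := by
    rintro e' ⟨σ, rfl⟩ x hx
    show σ (e x) ^ r = 1
    have hx' : e x ≠ 0 := by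
      intro h0
      apply hx
      show σ (e x) = 0
      rw [h0, map_zero]
    rw [← map_pow, her x hx', map_one]
  have hEG : ∀ e' ∈ EC e, ∀ x y : OO A B, ((n : ℕ) : OO A B) ∣ x - y → e' x = e' y := by
    rintro e' he' x y ⟨z, hz⟩
    apply (hEI e' he').per
    rw [hz]
    exact Ideal.mul_mem_right _ _ hpf
  have hb : ∀ i, R.b i ≠ ⊥ := fun i => (R.nl i).b_ne
  have hNd' : -(B ^ 2 + 4 * A) * ((n : ℕ) : ℤ) ^ 2 ∣ (N' : ℤ) := by
    have : -(B ^ 2 + 4 * A) * ((n : ℕ) : ℤ) ^ 2 = absD A B * n ^ 2 := by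
      unfold absD
      push_cast
      ring
    rw [this]
    exact hNd
  have hF : ∀ e' ∈ EC e, ∀ i, _ := fun e' he' i =>
    (h2 A B hQ.hB hQ.neg (R.b i) (hb i) e' n (Nat.pos_of_ne_zero hn0)
      (hEI e' he').mul (hEG e' he') (hEI e' he').neg).2 N' hN hNd'
  have hDN : absD A B ∣ (N' : ℤ) := dvd_trans (Dvd.intro _ rfl) hNd
  have hGN : ((n : ℕ) : ℤ) ∣ (N' : ℤ) := by
    refine dvd_trans ?_ hNd
    exact ⟨absD A B * n, by push_cast; ring⟩
  have hnu : ∀ e' ∈ EC e, ∀ d : ℤ, (N' : ℤ) ∣ d - 1 →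
      (MUXT.chiQ A B d : ℂ) * e' (d : OO A B) = 1 := by
    intro e' he' d hd
    have h10 : MUXF.chiQ A B d = 1 := by
      have := (h3 A B (cqF hQ) 1 isCoprime_one_left).2.2 d (by
        rw [← dvd_neg, neg_sub]
        exact dvd_trans hDN hd)
      rw [this, Gdt.chiQ_one]
    have h11 : e' (d : OO A B) = 1 := by
      rw [← (hEI e' he').one]
      apply (hEI e' he').per
      obtain ⟨t, ht⟩ := dvd_trans hGN hd
      have h12 : (d : OO A B) - 1 = ((n : ℕ) : OO A B) * (t : OO A B) := by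
        have := congrArg (fun z : ℤ => (z : OO A B)) ht
        push_cast at this
        push_cast
        exact this
      rw [h12]
      exact Ideal.mul_mem_right _ _ hpf
    have h13 : MUXT.chiQ A B d = 1 := h10
    rw [h13, h11]
    norm_num
  have hS : ∀ (i : ι) (e' : OO A B → ℂ), e' ∈ EC e →
      SymN N' (PhiI (R.b i) e') (thetaIntI (R.b i) e') := by
    intro i e' he'
    refine
      { pos := Nat.pos_of_ne_zero hN
        add := ?_
        inv := ?_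
        per := ?_
        cusp := ?_ }
    · intro x y z
      unfold PhiI
      ring
    · intro a b c d hdet hc hd x y
      have := (hF e' he' i).1.equiv a b c d hdet hc x y
      rw [hnu e' he' d hd, one_mul] at this
      exact this
    · intro a b c d hdet hc hd τ hτ
      have := ((hF e' he' i).2.1 a b c d hdet hc τ hτ).2
      rw [hnu e' he' d hd, one_mul] at this
      exact this
    · intro a b c d hdet
      obtain ⟨w, hw⟩ := (hF e' he' i).2.2 a b c d hdet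
      exact ⟨_, w, hw⟩
  have hST : ∀ j : ι × EC e × Fin T, SymN (T ^ 2 * N') (PsT T R e j) (ThT T R e j) := fun j =>
    hTR T hT0 N' _ _ (hS j.1 j.2.1 j.2.1.2) ((j.2.2 : ℕ) : ℤ)
  have hTC : (T : ℂ) ≠ 0 := Nat.cast_ne_zero.2 hT0
  refine
    { pos := Nat.mul_pos (pow_pos (Nat.pos_of_ne_zero hT0) 2) (Nat.pos_of_ne_zero hN)
      add := fun j => (hST j).add
      inv := fun j => (hST j).inv
      per := fun j => (hST j).per
      cusp := fun j => (hST j).cusp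
      qexp := ?_
      rat := ?_
      alg := ?_ }
  · rintro ⟨i, ⟨e', he'⟩, t⟩
    obtain ⟨α, hα1, ⟨K, hK1, hK2⟩, hα3, hα4, hα5⟩ :=
      qx hA hI hQB hBD hTS A B hQ u1 u2 n ι R g hgb e' (hEI e' he') r hr (hEr e' he') i
    refine ⟨fun m => α m * zT T ^ ((t : ℕ) * m), ?_, ?_, ?_, ?_⟩
    · intro m
      exact (hα1 m).mul ((zT_int T hT0).pow _)
    · set K1 : IntermediateField ℚ ℂ := K.toIntermediateField fun x => by
        have : (algebraMap ℚ ℂ x) = (x : ℂ) := rfl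
        rw [this]
        exact SubfieldClass.ratCast_mem K x
      set K2 : IntermediateField ℚ ℂ := IntermediateField.adjoin ℚ {zT T}
      have hf1 : FiniteDimensional ℚ K1 := hK1.to_finiteDimensional
      have hf2 : FiniteDimensional ℚ K2 :=
        IntermediateField.adjoin.finiteDimensional (zT_int T hT0).tower_top
      have hf3 : FiniteDimensional ℚ ↥(K1 ⊔ K2) := IntermediateField.finiteDimensional_sup K1 K2
      refine ⟨(K1 ⊔ K2).toSubfield, ?_, fun m => ?_⟩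
      · have h4 : NumberField ↥(K1 ⊔ K2) := ⟨⟩
        exact h4
      · show α m * zT T ^ ((t : ℕ) * m) ∈ K1 ⊔ K2
        have m1 : α m ∈ K1 ⊔ K2 := (le_sup_left : K1 ≤ K1 ⊔ K2) (hK2 m)
        have m2 : zT T ∈ K1 ⊔ K2 := (le_sup_right : K2 ≤ K1 ⊔ K2)
          (IntermediateField.mem_adjoin_simple_self ℚ (zT T))
        exact mul_mem m1 (pow_mem m2 _)
    · show α 1 * zT T ^ ((t : ℕ) * 1) = if i = R.i0 then zT T ^ (t : ℕ) else 0
      rw [mul_one]
      split_ifs with hi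
      · rw [hα3 hi, one_mul]
      · rw [hα4 hi, zero_mul]
    · intro τ hτ
      have him : 0 < (τ + (((t : ℕ) : ℤ) : ℂ) / (T : ℂ)).im := by
        have : ((((t : ℕ) : ℤ) : ℂ) / (T : ℂ)).im = 0 := by
          have : ((((t : ℕ) : ℤ) : ℂ) / (T : ℂ)) = (((t : ℕ) / (T : ℕ) : ℝ) : ℂ) := by push_cast; ring
          rw [this]
          exact Complex.ofReal_im _
        rw [Complex.add_im, this, add_zero]
        exact hτ
      have h9 := hα5 _ him
      show HasSum _ (thetaIntI (R.b i) e' (τ + (((t : ℕ) : ℤ) : ℂ) / (T : ℂ)))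
      have e1 : (fun m : ℕ => α m / m * Complex.exp (2 * Real.pi * Complex.I *
          (τ + (((t : ℕ) : ℤ) : ℂ) / (T : ℂ))) ^ m) = fun m : ℕ => α m * zT T ^ ((t : ℕ) * m) / m *
          Complex.exp (2 * Real.pi * Complex.I * τ) ^ m := by
        funext m
        have e2 : Complex.exp (2 * Real.pi * Complex.I * (τ + (((t : ℕ) : ℤ) : ℂ) / (T : ℂ))) =
            zT T ^ (t : ℕ) * Complex.exp (2 * Real.pi * Complex.I * τ) := by
          unfold zT
          rw [← Complex.exp_nat_mul, ← Complex.exp_add]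
          congr 1
          push_cast
          ring
        rw [e2, mul_pow, ← pow_mul]
        ring
      rw [e1] at h9
      exact h9
  · intro σ hσ
    rintro ⟨i, ⟨e', he'⟩, t⟩
    obtain ⟨-, j, C, -, hC0, hC⟩ := h4 A B hQ hT n ι R g e' hgb hgt (hEI e' he') hcop σ hσ i
    obtain ⟨τ, hτ⟩ := he'
    subst hτ
    refine ⟨⟨j, ⟨fun x => σ (τ (e x)), ⟨τ.trans σ, rfl⟩⟩, t⟩, C * u / σ u, fun x y => ?_⟩
    have hσu : σ u ≠ 0 := (map_ne_zero σ).2 hu
    have ho : R.om R.i0 ≠ 0 := (R.nl R.i0).om_ne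
    have e1 : PsT T R e (i, ⟨fun x => τ (e x), ⟨τ, rfl⟩⟩, t) x y / (u * R.om R.i0) =
        PhiI (R.b i) (fun x => τ (e x)) (mob (T : ℤ) (t : ℕ) 0 (T : ℤ) x) (mob (T : ℤ) (t : ℕ) 0 (T : ℤ) y) /
          R.om R.i0 / u := by
      unfold PsT
      rw [div_div, mul_comm u]
    rw [e1, map_div₀, hC]
    unfold PsT
    field_simp
  · rintro ⟨i, ⟨e', he'⟩, t⟩ x y
    have h9 := (h5 A B hQ hT n ι hι R g e' hgb hgt (hEI e' he') hcop r hr (hEr e' he') i
      (mob (T : ℤ) (t : ℕ) 0 (T : ℤ) x) (mob (T : ℤ) (t : ℕ) 0 (T : ℤ) y)).2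
    have e1 : PsT T R e (i, ⟨e', he'⟩, t) x y / (u * R.om R.i0) =
        PhiI (R.b i) e' (mob (T : ℤ) (t : ℕ) 0 (T : ℤ) x) (mob (T : ℤ) (t : ℕ) 0 (T : ℤ) y) / R.om R.i0 * u⁻¹ := by
      unfold PsT
      have ho : R.om R.i0 ≠ 0 := (R.nl R.i0).om_ne
      field_simp
    rw [e1]
    exact h9.mul hua.inv


theorem mob_zero (T : ℕ) (hT0 : T ≠ 0) (x : OnePoint ℚ) : mob (T : ℤ) (0 : ℤ) 0 (T : ℤ) x = x := by
  induction x using OnePoint.rec with
  | infty => exact MUXH.H1.mob_inf (T : ℤ) 0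
  | coe r =>
    have := Pool.Agent.MUXHN.H1N.mob_tr (T : ℤ) 0 (by exact_mod_cast hT0) r
    rw [this]
    simp

theorem sumF (T : ℕ) (i0 i1 : Fin T) (h01 : i0 ≠ i1) (a b : ℂ) (G : Fin T → ℂ) :
    ∑ t, (if t = i0 then a else if t = i1 then b else 0) * G t = a * G i0 + b * G i1 := by
  have h1 : ∀ t : Fin T, (if t = i0 then a else if t = i1 then b else 0) * G t =
      (if t = i0 then a * G t else 0) + (if t = i1 then b * G t else 0) := by
    intro t
    by_cases h : t = i0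
    · rw [if_pos h, if_pos h, if_neg (by rw [h]; exact h01), add_zero]
    · rw [if_neg h, if_neg h, zero_add]
      by_cases h' : t = i1
      · rw [if_pos h', if_pos h']
      · rw [if_neg h', if_neg h', zero_mul]
  simp_rw [h1]
  rw [Finset.sum_add_distrib, Finset.sum_ite_eq' Finset.univ i0 (fun t => a * G t),
    Finset.sum_ite_eq' Finset.univ i1 (fun t => b * G t), if_pos (Finset.mem_univ _),
    if_pos (Finset.mem_univ _)]

theorem vpO {p er : ℕ} {A B : ℤ} {P : Ideal (OO A B)} {V : ValuationSubring ℂ}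
    (h : CaseO p er A B P V) : V.valuation (p : ℂ) < 1 := by
  have h1 : emb ((p : ℕ) : OO A B) ∈ V.nonunits := (h.hV _).2 h.mem
  rw [ValuationSubring.mem_nonunits_iff] at h1
  have h2 : emb ((p : ℕ) : OO A B) = (p : ℂ) := by
    unfold emb
    rw [QuadraticAlgebra.re_natCast, QuadraticAlgebra.im_natCast]
    norm_num
  rw [h2] at h1
  exact h1

theorem v2O {p er : ℕ} {A B : ℤ} {P : Ideal (OO A B)} {V : ValuationSubring ℂ}
    (h : CaseO p er A B P V) : V.valuation (2 : ℂ) = 1 := by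
  have hle : ∀ z : ℤ, V.valuation (z : ℂ) ≤ 1 := fun z =>
    (V.valuation_le_one_iff _).2 (Pool.Agent.MU3A2.int_mem z)
  have hp5 := h.p5
  have hp2 : ¬ 2 ∣ p := by
    intro h2
    have := (Nat.prime_dvd_prime_iff_eq Nat.prime_two h.pp).1 h2
    omega
  obtain ⟨m, hm⟩ : ∃ m : ℕ, p = 2 * m + 1 := ⟨p / 2, by omega⟩
  by_contra hne
  have hlt : V.valuation (2 : ℂ) < 1 := by
    refine lt_of_le_of_ne ?_ hne
    have := hle 2
    exact_mod_cast this
  have hv := vpO h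
  have h1 : V.valuation ((p : ℂ) - 2 * (m : ℂ)) < 1 := by
    refine lt_of_le_of_lt (Valuation.map_sub _ _ _) (max_lt hv ?_)
    rw [map_mul]
    have h3 : V.valuation (m : ℂ) ≤ 1 := by
      have := hle m
      exact_mod_cast this
    calc V.valuation (2 : ℂ) * V.valuation (m : ℂ) ≤ V.valuation (2 : ℂ) * 1 :=
          mul_le_mul_right h3 _
      _ = V.valuation (2 : ℂ) := mul_one _
      _ < 1 := hlt
  have h4 : (p : ℂ) - 2 * (m : ℂ) = 1 := by
    rw [hm]
    push_cast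
    ring
  rw [h4, map_one] at h1
  exact lt_irrefl _ h1

end GPT

open Pool.Agent.NSG (EC GDatN Sn_GTH) in
open GPT in
theorem o_GPT (hTR : So_TRL) (hLC : So_LCN) (hLE : So_LEG) (hUN : So_UNN) (hG : Sn_GTH)
    (h2 : MUXT.Xs_FTI) (h3 : MUXF.Sx_CHI) (h4 : MUXY.Sy_CON) (h5 : MUXY.Sy_ALP)
    (h7 : MUXY.Sy_FEC) (h8 : MUXY.Sy_COP) (hA : MUXF.Sx_ALG) (hI : MUXF.Sx_IDL)
    (hQB : MUXF.Sx_QB) (hBD : MUXF.Sx_BDD) (hTS : MUXF.Sx_TSM) : So_GPT := by
  classical
  intro p er A B P V f hSN hT ι _ R u el lam hg e he r hr her kk hkk N' hN' hNd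
  have hCO : CaseO p er A B P V := hSN.toCaseO
  have hc : CQ A B := hCO.cq
  have hp : p.Prime := hCO.pp
  have hp5 : 5 ≤ p := hCO.p5
  obtain ⟨u1, u2⟩ := hUN A B hc hCO.ex3 hCO.ex4
  have hvp : V.valuation (p : ℂ) < 1 := vpO hCO
  have hv2 : V.valuation (2 : ℂ) = 1 := v2O hCO
  obtain ⟨hua, L', hL'⟩ := hLE A B hc hT (p * f) ι R V u el lam hg
  have hn : 2 ≤ p * f := by
    have := Nat.pos_of_ne_zero hSN.f0
    nlinarith
  set T : ℕ := p ^ 3 with hTdef
  have hT1 : 1 < T := Nat.one_lt_pow (by norm_num) hp.one_lt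
  have hT0 : T ≠ 0 := by omega
  have hD := gdat hTR T hT0 h2 h3 h4 h5 h7 h8 hA hI hQB hBD hTS hc u1 u2 hT hn R e he r hr her u
    hg.u0 hua N' hN' hNd
  have hfE : Finite (EC e) := (h7 A B e r hr her).1
  have hFt : Fintype (EC e) := Fintype.ofFinite _
  have heE : e ∈ EC e := ⟨RingEquiv.refl ℂ, rfl⟩
  have hzp : IsPrimitiveRoot (zT T) T := zT_prim T hT0
  have hz1 : (1 : ℂ) - zT T ≠ 0 := by
    intro h0
    have h1 : zT T = 1 := by linear_combination -h0
    exact hzp.ne_one hT1 h1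
  set i0 : Fin T := ⟨0, by omega⟩ with hi0
  set i1 : Fin T := ⟨1, hT1⟩ with hi1
  have h01 : i0 ≠ i1 := by
    intro h
    have := congrArg Fin.val h
    simp [hi0, hi1] at this
  set w : ι × EC e × Fin T → ℂ := fun j => if j.2.1 = ⟨e, heE⟩ then
    (if j.2.2 = i0 then kk j.1 / (1 - zT T) else if j.2.2 = i1 then -(kk j.1 / (1 - zT T)) else 0)
    else 0 with hw
  have hsum : ∀ F : ι × EC e × Fin T → ℂ, ∑ j, w j * F j =
      ∑ i, (kk i / (1 - zT T) * F (i, ⟨e, heE⟩, i0) +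
        -(kk i / (1 - zT T)) * F (i, ⟨e, heE⟩, i1)) := by
    intro F
    rw [Fintype.sum_prod_type]
    refine Finset.sum_congr rfl fun i _ => ?_
    rw [Fintype.sum_prod_type, Finset.sum_eq_single (⟨e, heE⟩ : EC e)]
    · refine Eq.trans ?_ (sumF T i0 i1 h01 (kk i / (1 - zT T)) (-(kk i / (1 - zT T)))
        (fun t => F (i, ⟨e, heE⟩, t)))
      refine Finset.sum_congr rfl fun t _ => ?_
      rw [hw]
      beta_reduce
      rw [if_pos rfl]
    · intro e' _ he'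
      refine Finset.sum_eq_zero fun t _ => ?_
      rw [hw]
      beta_reduce
      rw [if_neg he', zero_mul]
    · intro h
      exact absurd (Finset.mem_univ _) h
  have hα : ∑ j, w j * a1T T R e j = kk R.i0 := by
    rw [hsum, Finset.sum_eq_single R.i0]
    · unfold a1T
      rw [if_pos rfl, if_pos rfl]
      have e0 : (i0 : ℕ) = 0 := rfl
      have e1 : (i1 : ℕ) = 1 := rfl
      dsimp only
      rw [e0, e1]
      field_simp
      ring
    · intro i _ hi
      unfold a1T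
      rw [if_neg hi, if_neg hi]
      ring
    · intro h
      exact absurd (Finset.mem_univ _) h
  obtain ⟨a, b, c, d, k1, k2, k3, k4⟩ := hG A B hc (ι × EC e × Fin T) (PsT T R e) (ThT T R e)
    (a1T T R e) (u * R.om R.i0) (T ^ 2 * N') hD V p hp
    (by
      rw [ValuationSubring.mem_nonunits_iff]
      exact hvp) hv2 (hLC p er A B P V hCO) L' (el / u ^ 2) lam hL' w (by
      rw [hα, ValuationSubring.mem_nonunits_iff, hkk]
      exact lt_irrefl _)
  have hcast : ((T ^ 2 * N' : ℕ) : ℤ) = (T : ℤ) ^ 2 * (N' : ℤ) := by push_cast; ring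
  rw [hcast] at k2 k3
  refine ⟨a, b, c, d, k1, dvd_trans (Dvd.intro_left _ rfl) k2, dvd_trans (Dvd.intro_left _ rfl) k3,
    ?_⟩
  rw [ValuationSubring.mem_nonunits_iff, not_lt, hsum] at k4
  have hTc : ((p : ℤ) ^ 3) = (T : ℤ) := by rw [hTdef]; push_cast; ring
  have e2 : (∑ i, (kk i / (1 - zT T) * PsT T R e (i, ⟨e, heE⟩, i0) ∞ (mob a b c d ∞) +
      -(kk i / (1 - zT T)) * PsT T R e (i, ⟨e, heE⟩, i1) ∞ (mob a b c d ∞))) /
        (u * R.om R.i0) =
      Pool.Agent.OBH.PT p (fun x y => PhiK R e kk x y / (u * R.om R.i0)) ∞ (mob a b c d ∞) /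
        (1 - zT T) := by
    have e3 : Pool.Agent.OBH.PT p (fun x y => PhiK R e kk x y / (u * R.om R.i0)) ∞
        (mob a b c d ∞) =
        (∑ i, (kk i * PhiI (R.b i) e ∞ (mob a b c d ∞) -
          kk i * PhiI (R.b i) e (mob (T : ℤ) 1 0 (T : ℤ) ∞)
            (mob (T : ℤ) 1 0 (T : ℤ) (mob a b c d ∞)))) / (u * R.om R.i0) := by
      unfold Pool.Agent.OBH.PT PhiK
      rw [hTc, ← sub_div, ← Finset.sum_sub_distrib]
    rw [e3, div_right_comm _ (u * R.om R.i0)]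
    refine congrArg (fun t => t / (u * R.om R.i0)) ?_
    rw [Finset.sum_div]
    refine Finset.sum_congr rfl fun i _ => ?_
    have e0 : PsT T R e (i, ⟨e, heE⟩, i0) ∞ (mob a b c d ∞) =
        PhiI (R.b i) e ∞ (mob a b c d ∞) := by
      have f1 : ((i0 : ℕ) : ℤ) = 0 := rfl
      unfold PsT
      dsimp only
      rw [f1, mob_zero T hT0, mob_zero T hT0]
    have e1 : PsT T R e (i, ⟨e, heE⟩, i1) ∞ (mob a b c d ∞) =
        PhiI (R.b i) e (mob (T : ℤ) 1 0 (T : ℤ) ∞) (mob (T : ℤ) 1 0 (T : ℤ) (mob a b c d ∞)) := by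
      have f1 : ((i1 : ℕ) : ℤ) = 1 := rfl
      unfold PsT
      dsimp only
      rw [f1]
    rw [e0, e1]
    ring
  rw [e2, map_div₀] at k4
  have h27 : V.valuation (zT T - 1) ^ ((p - 1) * p ^ 2) = V.valuation (p : ℂ) := by
    have := MUXH.Hz.val_p p hp V 2 (zT T) (by
      have : (p : ℕ) ^ (2 + 1) = T := by rw [hTdef]
      rw [this]
      exact hzp)
    rw [mul_comm] at this
    exact this
  have hz2 : V.valuation (1 - zT T) = V.valuation (zT T - 1) := by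
    rw [← neg_sub, Valuation.map_neg]
  have hz3 : (0 : V.ValueGroup) < V.valuation (1 - zT T) :=
    zero_lt_iff.2 ((Valuation.ne_zero_iff _).2 hz1)
  rw [← h27, ← hz2]
  have k5 : V.valuation (1 - zT T) ≤
      V.valuation (Pool.Agent.OBH.PT p (fun x y => PhiK R e kk x y / (u * R.om R.i0)) ∞
        (mob a b c d ∞)) := by
    have := (le_div_iff₀ hz3).1 k4
    rw [one_mul] at this
    exact this
  exact pow_le_pow_left₀ zero_le k5 _

end

end Pool.Agent.OBG
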