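import Pool.Agent.OB.StHB
import Pool.Agent.MUX.XTF7
import Pool.Agent.MUX.HY_QSX

/-!
# OB, block H, bridge (helper66): (DEP) depletion
-/

set_option autoImplicit false

namespace Pool.Agent.OBH

open _root_.MU3 _root_.Pool.Agent.MU3A _root_.Pool.Agent.MU3B _root_.Pool.Agent.MU3F _root_.Pool.Agent.MUX
  _root_.Pool.Agent.MUXH _root_.Pool.Agent.MUXHY _root_.Pool.Agent.MuSym _root_.Pool.Agent.OB OnePoint
open scoped ComplexConjugate

noncomputable section

variable {A B : ℤ}

/-- the sum over the translates by thirds of theta is zero -/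
theorem DEP.theta_dep {p : ℕ} (hp0 : p ≠ 0) {g : Ideal (OO A B)} (hcq : CQ A B) (hg : g ≠ ⊥)
    {e : OO A B → ℂ} (he : IsEI g e) {b : Ideal (OO A B)}
    (hb : b ≠ ⊥) (hq : ∀ x ∈ b, e x ≠ 0 → ¬ (p : ℤ) ∣ MUXF.qb b x) (z : ℂ) (hz : 0 < z.im) :
    ∑ j ∈ Finset.range p, thetaI b e (z + (j : ℂ) / p) = 0 := by
  have hcq := toCQ hcq
  obtain ⟨-, C, hC0, hC⟩ := MUXF.xf_BDD A B hcq _ e hg (toEI he)
  have him : ∀ j : ℕ, 0 < (z + (j : ℂ) / p).im := by
    intro j
    have : ((j : ℂ) / p).im = 0 := by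
      have : ((j : ℂ) / p) = (((j : ℝ) / p : ℝ) : ℂ) := by push_cast; ring
      rw [this]
      exact Complex.ofReal_im _
    rw [Complex.add_im, this, add_zero]
    exact hz
  have hsum : ∀ j : ℕ, Summable (fun x : b => e x * (starRingEnd ℂ) (emb (x : OO A B)) *
      Complex.exp (2 * Real.pi * Complex.I * ((nm (x : OO A B) : ℂ) / nI b) *
        (z + (j : ℂ) / p))) :=
    fun j : ℕ => MUXF.xf_TSM A B hcq b hb e C hC (z + (j : ℂ) / p) (him j)
  have e1 : ∑ j ∈ Finset.range p, thetaI b e (z + (j : ℂ) / p) =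
      (1 / 2) * ∑ j ∈ Finset.range p, ∑' x : b, e x * (starRingEnd ℂ) (emb (x : OO A B)) *
        Complex.exp (2 * Real.pi * Complex.I * ((nm (x : OO A B) : ℂ) / nI b) *
          (z + (j : ℂ) / p)) := by
    rw [Finset.mul_sum]
    rfl
  rw [e1, ← Summable.tsum_finsetSum (fun j _ => hsum j)]
  have e2 : ∀ x : b, ∑ j ∈ Finset.range p, e x * (starRingEnd ℂ) (emb (x : OO A B)) *
      Complex.exp (2 * Real.pi * Complex.I * ((nm (x : OO A B) : ℂ) / nI b) *
        (z + (j : ℂ) / p)) = 0 := by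
    intro x
    obtain ⟨h1, h2⟩ := (MUXF.xf_QB A B hcq b hb).1 x x.2
    have hnI : ((nI b : ℕ) : ℂ) ≠ 0 := by
      have := (MUXF.xf_IDL A B hcq b hb).1
      exact_mod_cast this
    by_cases he0 : e (x : OO A B) = 0
    · rw [he0]
      simp
    have h3 := hq x x.2 he0
    have h4 : ((nm (x : OO A B) : ℤ) : ℂ) / ((nI b : ℕ) : ℂ) = ((MUXF.qb b (x : OO A B) : ℤ) : ℂ) := by
      have h5 : nm (x : OO A B) = (nI b : ℤ) * MUXF.qb b (x : OO A B) := h1
      rw [h5]
      push_cast
      field_simp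
    have hpC : ((p : ℕ) : ℂ) ≠ 0 := Nat.cast_ne_zero.2 hp0
    set N : ℤ := MUXF.qb b (x : OO A B) with hN
    have e3 : ∀ j : ℕ, Complex.exp (2 * Real.pi * Complex.I * ((nm (x : OO A B) : ℂ) / nI b) *
        (z + (j : ℂ) / p)) = Complex.exp (2 * Real.pi * Complex.I * N * z) *
          Complex.exp (2 * Real.pi * Complex.I * N / p) ^ j := by
      intro j
      rw [← Complex.exp_nat_mul, ← Complex.exp_add, h4]
      congr 1
      ring
    simp only [e3]
    set q : ℂ := Complex.exp (2 * Real.pi * Complex.I * N / p) with hq'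
    have hq3 : q ^ p = 1 := by
      rw [hq', ← Complex.exp_nat_mul, Complex.exp_eq_one_iff]
      exact ⟨N, by field_simp⟩
    have hq1 : q ≠ 1 := by
      intro h
      rw [hq', Complex.exp_eq_one_iff] at h
      obtain ⟨k, hk⟩ := h
      apply h3
      refine ⟨k, ?_⟩
      have hpi : (2 * Real.pi * Complex.I : ℂ) ≠ 0 := Complex.two_pi_I_ne_zero
      have h6 : (2 * Real.pi * Complex.I : ℂ) * N = (2 * Real.pi * Complex.I) * (p * k) := by
        have h8 : (2 * Real.pi * Complex.I * N / p : ℂ) * p = (k * (2 * Real.pi * Complex.I)) * p := by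
          rw [hk]
        rw [div_mul_cancel₀ _ hpC] at h8
        rw [h8]
        ring
      have h7 := mul_left_cancel₀ hpi h6
      exact_mod_cast h7
    have h5 : ∑ j ∈ Finset.range p, q ^ j = 0 := by
      have h6 := mul_geom_sum q p
      rw [hq3, sub_self] at h6
      exact (mul_eq_zero.1 h6).resolve_left (sub_ne_zero.2 hq1)
    have h6 : ∀ j ∈ Finset.range p, e x * (starRingEnd ℂ) (emb (x : OO A B)) *
        (Complex.exp (2 * Real.pi * Complex.I * N * z) * q ^ j) =
        e x * (starRingEnd ℂ) (emb (x : OO A B)) *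
        Complex.exp (2 * Real.pi * Complex.I * N * z) * q ^ j := fun j _ => by ring
    rw [Finset.sum_congr rfl h6, ← Finset.mul_sum, h5, mul_zero]
  rw [tsum_congr e2, tsum_zero, mul_zero]

/-- (DEP) depletion -/
theorem to_DEP (h1 : So_VAL) (h2 : So_QBO) : So_DEP := by
  intro p er A B P V f hS e he b hb x
  obtain ⟨-, -, -, -, -, -, hg, -, -, -, -, -, -, -⟩ := h1 p er A B P V f hS
  have hp0 : p ≠ 0 := hS.pp.ne_zero
  have hq := fun y hy h0 => (h2 p er A B P V f hS e he b hb y hy h0).2.1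
  have hcq := toCQ hS.cq
  have hI := fun r : ℚ => MUXF.xf_ITG A B hcq b _ e hb hg (toEI he) r
  have e1 : ∀ j ∈ Finset.range p, PhiI b e ∞ (((x + j) / p : ℚ) : OnePoint ℚ) =
      2 * Real.pi * ∫ t in Set.Ioi (0 : ℝ), thetaI b e (((x / p : ℚ) : ℂ) + t * Complex.I +
        (j : ℂ) / p) := by
    intro j _
    rw [Qsx.PhiI_inf]
    unfold IvI
    rw [neg_mul, neg_neg]
    congr 1
    refine MeasureTheory.integral_congr_ae (Filter.Eventually.of_forall fun t => ?_)
    show thetaI b e _ = thetaI b e _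
    congr 1
    push_cast
    ring
  rw [Finset.sum_congr rfl e1, ← Finset.mul_sum, ← MeasureTheory.integral_finsetSum]
  · have e2 : ∫ t in Set.Ioi (0 : ℝ), ∑ j ∈ Finset.range p,
        thetaI b e (((x / p : ℚ) : ℂ) + t * Complex.I + (j : ℂ) / p) = 0 := by
      rw [MeasureTheory.setIntegral_congr_fun (g := fun _ => (0 : ℂ)) measurableSet_Ioi]
      · simp
      · intro t ht
        refine DEP.theta_dep hp0 hS.cq hg he hb hq _ ?_
        have h1 : (((x / p : ℚ) : ℂ)).im = 0 := by
          rw [← Complex.ofReal_ratCast]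
          exact Complex.ofReal_im _
        rw [Complex.add_im, h1, zero_add, Complex.mul_im]
        simpa using ht
    rw [e2, mul_zero]
  · intro j _
    have h1 := hI ((x + j) / p)
    refine h1.congr_fun ?_ measurableSet_Ioi
    intro t _
    show thetaI b e _ = thetaI b e _
    congr 1
    push_cast
    ring

end

end Pool.Agent.OBH
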