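import Pool.Agent.OB.StHB
import Pool.Agent.MUX.HY_BRG
import Pool.Agent.MUX.HY_HFX
import Pool.Agent.MU3.H_QS

/-!
# OB, block H, bridge: the result for `er = 2` (module HF2, helper54)
-/

set_option autoImplicit false

namespace Pool.Agent.OBH

open _root_.MU3 _root_.Pool.Agent.MU3A _root_.Pool.Agent.MU3B _root_.Pool.Agent.MU3F _root_.Pool.Agent.MUX
  _root_.Pool.Agent.MUXH _root_.Pool.Agent.MUXHY _root_.Pool.Agent.MuSym _root_.Pool.Agent.OB OnePoint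

noncomputable section

namespace HF2

variable {A B : ℤ}

/-- the weights `kkJ` commute with the normalisation of the weights -/
lemma kkJ_div {n : ℕ} {ι : Type} (p : ℕ) (R : Reps A B n ι) (kk : ι → ℂ) (e : OO A B → ℂ) (d : ℤ)
    (c : ι) : kkJ p R (fun c => kk c / e ((MUX.nI (R.b c) : ℕ) : OO A B)) d c =
      kkJ p R kk d c / e ((MUX.nI (R.b c) : ℕ) : OO A B) := by
  unfold kkJ
  split_ifs
  · rfl
  · rw [zero_div]

/-- the normalised combination -/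
lemma PP_eq {n : ℕ} {ι : Type} [Fintype ι] (R : Reps A B n ι) (p : ℕ) (e : OO A B → ℂ)
    (kk : ι → ℂ) (d : ℤ) (x y : OnePoint ℚ) :
    PP R ⊤ e (kkJ p R kk d) 0 x y =
      PhiK R e (kkJ p R (fun c => kk c / e ((MUX.nI (R.b c) : ℕ) : OO A B)) d) x y / R.om R.i0 := by
  rw [Brg.PP_zero]
  congr 2
  funext c
  exact (kkJ_div p R kk e d c).symm

/-- the sum of the two parts is `u` times the symbol `QR` -/
lemma PP_QR {n : ℕ} {ι : Type} [Fintype ι] (R : Reps A B n ι) (p : ℕ) (e : OO A B → ℂ)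
    (kk : ι → ℂ) (s u : ℂ) (hu : u ≠ 0) (x y : OnePoint ℚ) :
    PP R ⊤ e (kkJ p R kk 1) 0 x y +
        s * PP R ⊤ e (kkJ p R kk (-1)) 0 (mob (-1) 0 0 1 x) (mob (-1) 0 0 1 y) =
      u * QR p R e (fun c => kk c / e ((MUX.nI (R.b c) : ℕ) : OO A B)) s u x y := by
  rw [PP_eq, PP_eq]
  unfold QR
  have ho : R.om R.i0 ≠ 0 := (R.nl R.i0).om_ne
  field_simp

/-- the combination is linear -/
lemma comb_smul (a g : ℤ) (u : ℂ) (F : ℤ → ℂ) (b : ℤ) :
    comb a g 1 (fun b => u * F b) b = u * comb a g 1 F b := by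
  unfold comb
  rw [Finset.mul_sum]
  refine Finset.sum_congr rfl fun j _ => ?_
  ring

lemma aX_sub (p f : ℕ) (h2 : p ≠ 2) : ((aX p f : ℕ) : ℤ) - 1 = p * (2 * f) := by
  unfold aX q0
  rw [if_neg h2]
  push_cast
  ring

end HF2

open HF2 in
theorem to_HF2 (h1 : So_HQ2) (h2 : So_HR) (h3 : So_REL) (h4 : So_QS2) (h5 : So_VAL) : So_HF2 := by
  intro p A B P V f hS hT ι _ R u el lam hg w hw e he r hrp her i hi2 hip hty s hs kk hkk n₀
  obtain ⟨vp, vZ, v1, vr, D0, gD, gb, gt, hpf, hN, hN0, hcopN, hDN, hfN⟩ := h5 p 2 A B P V f hS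
  have hr0 : r ≠ 0 := by
    rintro rfl
    exact hrp (dvd_zero p)
  have pp : p.Prime := hS.pp
  have p5 : 5 ≤ p := hS.p5
  have p2 : p ≠ 2 := by omega
  have hf0 := hS.f0
  have hu := hg.u0
  set kk' : ι → ℂ := fun c => kk c / e ((MUX.nI (R.b c) : ℕ) : OO A B) with hkk'
  have heN : ∀ c, e ((MUX.nI (R.b c) : ℕ) : OO A B) ≠ 0 := Brg.e_nI R he hpf
  have hk1 : ∀ c, kk' c ^ r = 1 := by
    intro c
    rw [hkk']
    beta_reduce
    rw [div_pow, hkk, her _ (heN c), div_one]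
  obtain ⟨pi, KI, hyp, hKI, hpi⟩ := h1 p A B P V f hS hT ι R u el lam hg w hw e he r hrp her i
    hi2 hip hty s hs kk' hk1
  have hpz : (0 : ℤ) < p := by exact_mod_cast pp.pos
  have hp5z : (5 : ℤ) ≤ p := by exact_mod_cast p5
  have hfz : (0 : ℤ) < f := by exact_mod_cast Nat.pos_of_ne_zero hf0
  have haz := aX_sub p f p2
  have hap : (p : ℤ) ∣ ((aX p f : ℕ) : ℤ) - 1 := by rw [haz]; exact Dvd.intro _ rfl
  have ha1 : ((aX p f : ℕ) : ℤ) ≠ 1 := by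
    intro h
    rw [h, sub_self] at haz
    have : (0 : ℤ) < p * (2 * f) := by positivity
    omega
  have hprimom : IsPrimitiveRoot (Complex.exp (2 * Real.pi * Complex.I / p)) p :=
    Complex.isPrimitiveRoot_exp p pp.ne_zero
  obtain ⟨n, hn, hmain⟩ := h2 p V (N0O p 2 A B f) 2 i (nuX e) _ pi KI
    (Complex.exp (2 * Real.pi * Complex.I / p)) hyp hprimom
    (fun x => h3 p A B P V f hS ι R e he kk' (s : ℂ) u x) hKI hi2 hip hpi
    ((aX p f : ℕ) : ℤ) (1 + (p : ℤ)) hap ha1 ⟨1, by ring⟩ (by omega) n₀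
  refine ⟨n, hn, ?_⟩
  rw [h4 p A B P V f hS ι R e he kk s n]
  have hpa : ¬ (p : ℤ) ∣ ((aX p f : ℕ) : ℤ) := by
    intro h
    have h6 := dvd_sub h hap
    rw [sub_sub_cancel] at h6
    have := Int.le_of_dvd one_pos h6
    omega
  have hprim := Hfx.prim p (n + 1) pp (-((1 + (p : ℤ)) * ((aX p f : ℕ) : ℤ) ^ 2)) (by
    intro h
    rw [dvd_neg] at h
    rcases (Nat.prime_iff_prime_int.mp pp).dvd_or_dvd h with h | h
    · have h6 := dvd_sub h (dvd_refl (p : ℤ))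
      rw [add_sub_cancel_right] at h6
      have := Int.le_of_dvd one_pos h6
      omega
    · exact hpa ((Nat.prime_iff_prime_int.mp pp).dvd_of_dvd_pow h))
  have hζ : ex (-((1 + (p : ℚ)) * (aX p f : ℚ) ^ 2) / ((p ^ (n + 1) : ℕ) : ℚ)) =
      ex (((-((1 + (p : ℤ)) * ((aX p f : ℕ) : ℤ) ^ 2) : ℤ) : ℚ) / (p : ℚ) ^ (n + 1)) := by
    push_cast
    rfl
  rw [hζ]
  set ζ : ℂ := ex (((-((1 + (p : ℤ)) * ((aX p f : ℕ) : ℤ) ^ 2) : ℤ) : ℚ) / (p : ℚ) ^ (n + 1))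
    with hζd
  have hpQ : (p : ℚ) ≠ 0 := by exact_mod_cast pp.ne_zero
  have hrel : ζ ^ p ^ n * Complex.exp (2 * Real.pi * Complex.I / p) = 1 := by
    have h1 : Complex.exp (2 * Real.pi * Complex.I / p) = ex ((1 : ℚ) / p) := by
      unfold ex
      congr 1
      push_cast
      ring
    have h2 : ζ ^ p ^ n = ex (((-((1 + (p : ℤ)) * ((aX p f : ℕ) : ℤ) ^ 2) : ℤ) : ℚ) / p) := by
      rw [hζd, Pool.Agent.MU3H.Qs.ex_pow]
      congr 1
      push_cast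
      have : (p : ℚ) ^ n ≠ 0 := pow_ne_zero _ hpQ
      rw [pow_succ]
      field_simp
      ring
    obtain ⟨t, ht⟩ := hap
    have h3 : ∃ k : ℤ, (-((1 + (p : ℤ)) * ((aX p f : ℕ) : ℤ) ^ 2) : ℤ) + 1 = p * k := by
      refine ⟨-(2 * t + p * t ^ 2 + (1 + p * t) ^ 2), ?_⟩
      have h4 : ((aX p f : ℕ) : ℤ) = 1 + p * t := by linarith
      rw [h4]
      ring
    obtain ⟨k, hk⟩ := h3
    rw [h1, h2, ← Pool.Agent.MU3H.Qs.ex_add]
    have h5 : ((-((1 + (p : ℤ)) * ((aX p f : ℕ) : ℤ) ^ 2) : ℤ) : ℚ) / p + 1 / p = (k : ℚ) := by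
      have h6 : (((-((1 + (p : ℤ)) * ((aX p f : ℕ) : ℤ) ^ 2) : ℤ) + 1 : ℤ) : ℚ) =
          ((p * k : ℤ) : ℚ) := by
        rw [hk]
      rw [Int.cast_add, Int.cast_mul, Int.cast_one, Int.cast_natCast] at h6
      rw [← add_div, h6, mul_div_cancel_left₀ _ hpQ]
    rw [h5]
    exact Pool.Agent.MU3H.Qs.ex_int k
  have hfin := hmain ζ hprim hrel
  set Y : ℂ := ∑ b ∈ Finset.range (p ^ (n + 1)), ζ ^ b *
      comb ((aX p f : ℕ) : ℤ) (1 + (p : ℤ)) 1 (fun b => QR p R e kk' (s : ℂ) u ∞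
        (((b : ℚ) / (p : ℚ) ^ (n + 1) : ℚ) : OnePoint ℚ)) b with hY
  have e5 : (2 * (f : ℂ) * ∑ b ∈ Finset.range (p ^ (n + 1)), ζ ^ b *
      comb ((aX p f : ℕ) : ℤ) (1 + (p : ℤ)) 1 (fun b => PP R ⊤ e (kkJ p R kk 1) 0 ∞
              ((b / ((p ^ (n + 1) : ℕ) : ℚ) : ℚ) : OnePoint ℚ) +
            s * PP R ⊤ e (kkJ p R kk (-1)) 0 (mob (-1) 0 0 1 ∞)
              (mob (-1) 0 0 1 ((b / ((p ^ (n + 1) : ℕ) : ℚ) : ℚ) : OnePoint ℚ))) b) / u =
      2 * f * Y := by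
    have e6 : (fun b : ℤ => PP R ⊤ e (kkJ p R kk 1) 0 ∞
              ((b / ((p ^ (n + 1) : ℕ) : ℚ) : ℚ) : OnePoint ℚ) +
            s * PP R ⊤ e (kkJ p R kk (-1)) 0 (mob (-1) 0 0 1 ∞)
              (mob (-1) 0 0 1 ((b / ((p ^ (n + 1) : ℕ) : ℚ) : ℚ) : OnePoint ℚ))) =
        fun b : ℤ => u * QR p R e kk' (s : ℂ) u ∞
          (((b : ℚ) / (p : ℚ) ^ (n + 1) : ℚ) : OnePoint ℚ) := by
      funext b
      rw [PP_QR R p e kk (s : ℂ) u hu]
      push_cast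
      rfl
    rw [e6, mul_div_assoc, Finset.sum_div, hY]
    congr 1
    refine Finset.sum_congr rfl fun b _ => ?_
    rw [comb_smul]
    field_simp
  have e8 : V.valuation (2 : ℂ) = 1 := by
    have := v1 2 (by
      intro h
      have := Int.le_of_dvd two_pos h
      omega)
    exact_mod_cast this
  have e9 : V.valuation (f : ℂ) = 1 := by
    have := v1 f (by
      intro h
      exact hS.fp (by exact_mod_cast h))
    exact_mod_cast this
  rw [e5, map_mul, map_mul, e8, e9, one_mul, one_mul]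
  exact hfin

end

end Pool.Agent.OBH
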