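import Pool.Agent.OB.StHB
import Pool.Agent.MUX.HY_SYM
import Pool.Agent.MUX.HX_HK

/-!
# OB, block H, bridge (helper98): the hypotheses of the abstract part for `er = 2` (`So_HQ2`)

Adapted from `hypR` in `Pool/Agent/NS/HGR.lean`.
-/

set_option autoImplicit false

namespace Pool.Agent.OBH

open _root_.MU3 _root_.Pool.Agent.MU3A _root_.Pool.Agent.MU3B _root_.Pool.Agent.MU3F _root_.Pool.Agent.MUX
  _root_.Pool.Agent.MUXH _root_.Pool.Agent.MUXHY _root_.Pool.Agent.MuSym _root_.Pool.Agent.OB OnePoint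

noncomputable section

namespace HQ2

/-- the symbol `ι^* P` -/
theorem isSym_neg {N : ℕ} {nu : ℤ → ℂ} {P : OnePoint ℚ → OnePoint ℚ → ℂ} (h : IsSym N nu P) :
    IsSym N nu (fun x y => P (mob (-1) 0 0 1 x) (mob (-1) 0 0 1 y)) := by
  constructor
  · intro x y z
    exact h.add _ _ _
  · intro a b c d hd hc x y
    show P (mob (-1) 0 0 1 (mob a b c d x)) (mob (-1) 0 0 1 (mob a b c d y)) = _
    rw [Hk.mob_conj, Hk.mob_conj]
    exact h.equiv a (-b) (-c) d (by linear_combination hd) (hc.neg_right) _ _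

theorem isSym_add {N : ℕ} {nu : ℤ → ℂ} {P Q : OnePoint ℚ → OnePoint ℚ → ℂ} (h : IsSym N nu P)
    (h' : IsSym N nu Q) (s : ℂ) : IsSym N nu (fun x y => P x y + s * Q x y) := by
  constructor
  · intro x y z
    rw [← h.add x y z, ← h'.add x y z]
    ring
  · intro a b c d hd hc x y
    show P (mob a b c d x) (mob a b c d y) + s * Q (mob a b c d x) (mob a b c d y) = _
    rw [h.equiv a b c d hd hc, h'.equiv a b c d hd hc]
    ring

theorem QR_eq {A B : ℤ} {n : ℕ} {ι : Type} [Fintype ι] (p : ℕ) (R : Reps A B n ι)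
    (e : OO A B → ℂ) (kk : ι → ℂ) (s u : ℂ) (x y : OnePoint ℚ) :
    QR p R e kk s u x y = PhiK R e (kkJ p R kk 1) x y / (u * R.om R.i0) +
      s * (PhiK R e (kkJ p R kk (-1)) (mob (-1) 0 0 1 x) (mob (-1) 0 0 1 y) /
        (u * R.om R.i0)) := by
  unfold QR
  rw [add_div, mul_div_assoc]

end HQ2

theorem to_HQ2 (hT : O_TYF) (hG : O_GPT) (h1 : So_RAM) (h2 : So_VAL) (h3 : So_CHR)
    (h5 : So_PJ2) (h6 : So_SAF) (h7 : So_UAL) (h8 : So_BDN) (h10 : So_TYP) (h11 : So_PRT) :
    So_HQ2 := by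
  intro p A B P V f hS hTor ι _ R u el lam hg w hw e he r hrp her i hi2 hip hty s hs kk hkk
  have hpp : p.Prime := hS.pp
  have hp5 : 5 ≤ p := hS.p5
  obtain ⟨vp, vZ, v1, vr, D0, -, gb, gt, hpf, hN, hNne, hcop, -, -⟩ := h2 p 2 A B P V f hS
  obtain ⟨-, -, hram⟩ := h1 p 2 A B P V hS.toCaseO
  obtain ⟨hnI, -, -⟩ := hram rfl
  have hr0 : r ≠ 0 := by
    rintro rfl
    exact hrp (dvd_zero p)
  obtain ⟨nu1, num, nuper, nuv⟩ := h3 p 2 A B P V f hS e he r hr0 her
  have hk0 : ∀ d : ℤ, ∀ j, kkJ p R kk d j = 0 ∨ kkJ p R kk d j ^ r = 1 := by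
    intro d j
    unfold kkJ
    split_ifs
    · exact Or.inr (hkk j)
    · exact Or.inl rfl
  obtain ⟨pi, KI, typ, typ', unr, vpi⟩ := hT p 2 A B P V f hS hTor ι R u el lam hg w hw e he r hrp
    her i hty (kkJ p R kk 1) (hk0 1) (kkJ p R kk (-1)) (hk0 (-1))
  rw [hnI] at vpi
  have hua : IsAlgebraic ℚ u := h7 A B hS.cq hTor (p * f) ι R V u el lam hg
  obtain ⟨sym1, alg1, T1, fin1⟩ := h6 p 2 A B P V f hS hTor ι R e he r hr0 her (kkJ p R kk 1)
    (hk0 1) u hg.u0 hua
  obtain ⟨sym2, alg2, T2, fin2⟩ := h6 p 2 A B P V f hS hTor ι R e he r hr0 her (kkJ p R kk (-1))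
    (hk0 (-1)) u hg.u0 hua
  have hsA : IsAlgebraic ℚ ((s : ℤ) : ℂ) := isAlgebraic_intCast s
  have hsK : ((s : ℤ) : ℂ) ∈ KI := intCast_mem KI s
  have halg : ∀ x y, IsAlgebraic ℚ (QR p R e kk (s : ℂ) u x y) := by
    intro x y
    rw [HQ2.QR_eq]
    exact (alg1 x y).add (hsA.mul (alg2 _ _))
  have hfin : ∃ T : Finset ℂ, ∀ x y, QR p R e kk (s : ℂ) u x y ∈
      AddSubgroup.closure (T : Set ℂ) := by
    classical
    refine ⟨T1 ∪ T2, fun x y => ?_⟩
    rw [HQ2.QR_eq]
    refine add_mem ?_ ?_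
    · exact AddSubgroup.closure_mono (by rw [Finset.coe_union]; exact Set.subset_union_left)
        (fin1 x y)
    · rw [← zsmul_eq_mul]
      refine zsmul_mem ?_ s
      exact AddSubgroup.closure_mono (by rw [Finset.coe_union]; exact Set.subset_union_right)
        (fin2 _ _)
  have hpi0 : pi ≠ 0 := by
    rintro rfl
    have h9 : 2 * (p - 1) ≠ 0 := by omega
    rw [map_zero, zero_pow h9, zero_mul] at vpi
    exact zero_ne_one vpi
  have hgap := h10 p hpp V vp KI 2 (p - 1) i (by norm_num) hip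
    (Nat.mul_le_mul_right (p - 1) hi2) (by
      have h9 : 0 < p - 1 := by omega
      have h12 : 2 < p ^ 2 := by nlinarith
      rw [mul_comm]
      exact Nat.mul_lt_mul_of_pos_left h12 h9) unr pi vpi
  refine ⟨pi, KI, ?_, unr, vpi⟩
  exact
    { pp := hpp
      p2 := by omega
      vp := vp
      N0 := hNne
      cop := hcop
      nu1 := nu1
      num := num
      nuper := nuper
      nuv := nuv
      sym := by
        have h9 := HQ2.isSym_add sym1 (HQ2.isSym_neg sym2) ((s : ℤ) : ℂ)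
        have h12 : (fun x y => (fun x y => PhiK R e (kkJ p R kk 1) x y / (u * R.om R.i0)) x y +
            ((s : ℤ) : ℂ) * (fun x y => (fun x y => PhiK R e (kkJ p R kk (-1)) x y /
              (u * R.om R.i0)) (mob (-1) 0 0 1 x) (mob (-1) 0 0 1 y)) x y) =
            QR p R e kk (s : ℂ) u := by
          funext x y
          rw [HQ2.QR_eq]
        rw [← h12]
        exact h9
      bdd := h8 p hpp V vp _ halg hfin
      pi0 := hpi0
      typ := by
        intro x y
        obtain ⟨a, ha, ha1⟩ := typ x y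
        obtain ⟨b, hb, hb1⟩ := typ' (mob (-1) 0 0 1 x) (mob (-1) 0 0 1 y)
        refine ⟨a + (s : ℂ) * b, KI.add_mem ha (KI.mul_mem hsK hb), ?_⟩
        rw [HQ2.QR_eq, ha1, hb1]
        ring
      gap := fun a ha => (hgap a ha).1
      G := by
        obtain ⟨q, c, hq, hc, hsum⟩ := h5 p A B P V f hS ι R e he kk (s : ℂ) u
        have hM : (p - 1) * p ^ 2 ≠ 0 := by
          have h9 : p - 1 ≠ 0 := by omega
          exact mul_ne_zero h9 (pow_ne_zero _ hpp.ne_zero)
        refine h11 p hpp V vp (p ^ (2 + 1) * N0O p 2 A B f) ((p - 1) * p ^ 2)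
          (fun x y => PhiK R e (kkJ p R kk 1) x y / (u * R.om R.i0))
          (QR p R e kk (s : ℂ) u) q c hq hM hc hsum ?_
        intro N' hN' hd
        refine hG p 2 A B P V f hS hTor ι R u el lam hg e he r hr0 her (kkJ p R kk 1) ?_ N' hN' ?_
        · have h9 : kkJ p R kk 1 R.i0 = kk R.i0 := by
            unfold kkJ
            have h12 : nI (R.b R.i0) = 1 := by
              rw [R.b0]
              unfold nI
              have hss : Subsingleton (OO A B ⧸ (⊤ : Ideal (OO A B))) :=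
                Ideal.Quotient.subsingleton_iff.2 rfl
              exact Nat.card_unique
            rw [h12]
            rw [if_pos (by simp)]
          rw [h9]
          exact vr r _ hr0 (hkk _)
        · rw [← hN]
          exact_mod_cast hd }

end

end Pool.Agent.OBH
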