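import Pool.Agent.OB.StHB
import Pool.Agent.MUX.XFAll

/-!
# OB, block H, bridge, module PHJ (helper56): the function `φ` modulo `D' = |D|/p`
-/

set_option autoImplicit false

namespace Pool.Agent.OBH

open _root_.MU3 _root_.Pool.Agent.MU3A _root_.Pool.Agent.MU3B _root_.Pool.Agent.MU3F _root_.Pool.Agent.MUX
  _root_.Pool.Agent.MUXH _root_.Pool.Agent.MUXHY _root_.Pool.Agent.MuSym _root_.Pool.Agent.OB OnePoint
open _root_.Pool.Agent.MUXF (qb)

noncomputable section

namespace PHJ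

private theorem per_mul {φ : ℤ → ℂ} {d : ℤ} (h : ∀ n, φ (n + d) = φ n) :
    ∀ (k n : ℤ), φ (n + d * k) = φ n := by
  intro k
  induction k using Int.induction_on with
  | zero => intro n; simp
  | succ i ih =>
    intro n
    have := h (n + d * i)
    rw [ih n] at this
    rw [← this]
    congr 1
    ring
  | pred i ih =>
    intro n
    have := h (n + d * (-i - 1))
    rw [← this]
    have h2 := ih n
    rw [← h2]
    congr 1
    ring

private theorem per_dvd {φ : ℤ → ℂ} {d : ℤ} (h : ∀ n, φ (n + d) = φ n) {a b : ℤ}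
    (hab : d ∣ a - b) : φ a = φ b := by
  obtain ⟨k, hk⟩ := hab
  have := per_mul h k b
  rw [← this]
  congr 1
  linear_combination hk

/-- an integer `c'` with `c'² c² ≡ 1` modulo `p`, `c' ≡ 1` modulo `f` -/
private theorem crt {p f : ℕ} (hp : p.Prime) (hf : ¬ p ∣ f) {m : ℤ} (hm : jacobiSym m p = 1) :
    ∃ c : ℤ, (p : ℤ) ∣ c ^ 2 * m - 1 ∧ (f : ℤ) ∣ c - 1 ∧ ¬ (p : ℤ) ∣ c := by
  have := Fact.mk hp
  rw [← jacobiSym.legendreSym.to_jacobiSym] at hm
  have hm0 : ((m : ℤ) : ZMod p) ≠ 0 := by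
    intro h0
    rw [(legendreSym.eq_zero_iff p m).2 h0] at hm
    exact absurd hm (by norm_num)
  obtain ⟨y, hy⟩ := (legendreSym.eq_one_iff p hm0).1 hm
  have hy0 : y ≠ 0 := by
    rintro rfl
    apply hm0
    rw [hy]
    ring
  have hcop : IsCoprime (p : ℤ) (f : ℤ) := by
    rw [Nat.isCoprime_iff_coprime]
    exact (Nat.Prime.coprime_iff_not_dvd hp).2 hf
  obtain ⟨s, t, hst⟩ := hcop
  -- s p + t f = 1
  let z : ℤ := ((y⁻¹ : ZMod p).val : ℤ)
  have hz : ((z : ℤ) : ZMod p) = y⁻¹ := by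
    show (((y⁻¹ : ZMod p).val : ℤ) : ZMod p) = y⁻¹
    rw [Int.cast_natCast, ZMod.natCast_zmod_val]
  have hc : (((s * p + t * f * z : ℤ)) : ZMod p) = y⁻¹ := by
    have h1 : ((s * p + t * f : ℤ) : ZMod p) = 1 := by rw [hst]; simp
    push_cast at h1 ⊢
    rw [hz]
    rw [ZMod.natCast_self] at h1 ⊢
    rw [mul_zero, zero_add] at h1 ⊢
    rw [h1, one_mul]
  refine ⟨s * p + t * f * z, ?_, ?_, ?_⟩
  · rw [← ZMod.intCast_zmod_eq_zero_iff_dvd]
    rw [Int.cast_sub, Int.cast_mul, Int.cast_pow, hc, hy]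
    field_simp
    simp
  · refine ⟨t * (z - 1), ?_⟩
    linear_combination hst
  · rw [← ZMod.intCast_zmod_eq_zero_iff_dvd, hc]
    exact inv_ne_zero hy0

end PHJ

open PHJ in
theorem to_PHJ (h1 : So_RAM) (h2 : So_VAL) : So_PHJ := by
  intro p A B P V f hs
  obtain ⟨-, -, hr⟩ := h1 p 2 A B P V hs.toCaseO
  obtain ⟨-, hpD, hp2⟩ := hr rfl
  obtain ⟨-, -, -, -, hpos, hle, -⟩ := h2 p 2 A B P V f hs
  obtain ⟨φ, v01, hper, hval⟩ := MUXF.xf_PHX A B (Pool.Agent.MUXY.cqF hs.cq)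
  have hp := hs.pp
  have hp0 : (0 : ℤ) < (p : ℤ) := by exact_mod_cast hp.pos
  obtain ⟨c, hc⟩ := hpD
  have hcpos : 0 < c := by
    by_contra hcn
    have : (p : ℤ) * c ≤ 0 := mul_nonpos_of_nonneg_of_nonpos hp0.le (not_lt.1 hcn)
    omega
  have hD : ((c.toNat : ℕ) : ℤ) = c := Int.toNat_of_nonneg hcpos.le
  set D : ℕ := c.toNat with hDdef
  have habs : ((p : ℤ) * (D : ℤ)) = absD A B := by rw [hD, hc]
  have hpc : ¬ (p : ℤ) ∣ (D : ℤ) := by
    rintro ⟨k, hk⟩
    apply hp2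
    refine ⟨k, ?_⟩
    rw [← habs, hk]
    ring
  have hpDn : ¬ p ∣ D := fun hd => hpc (by exact_mod_cast hd)
  have hcop : IsCoprime (p : ℤ) (D : ℤ) := by
    rw [Nat.isCoprime_iff_coprime]
    exact (Nat.Prime.coprime_iff_not_dvd hp).2 hpDn
  obtain ⟨s, t, hst⟩ := hcop
  -- `u = t D`, `u ≡ 1` modulo `p`
  have hDf : (D : ℤ) ∣ (f : ℤ) := by
    have h3 : (p : ℤ) * (D : ℤ) ∣ (p : ℤ) * (f : ℤ) := by
      rw [habs]
      have := hs.fD
      push_cast at this
      exact (dvd_mul_left _ _).trans this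
    exact (mul_dvd_mul_iff_left hp0.ne').1 h3
  have hdv : ∀ a : ℤ, (p : ℤ) ∣ a → (D : ℤ) ∣ a → absD A B ∣ a := by
    intro a ha hb
    rw [← habs]
    exact IsCoprime.mul_dvd ⟨s, t, hst⟩ ha hb
  refine ⟨D, fun n => φ (n + t * D * (1 - n)), by push_cast; exact habs, hpDn, ?_, ?_, ?_, ?_⟩
  · intro h0
    rw [h0] at hD
    simp at hD
    omega
  · intro n
    exact v01 _
  · intro n
    show φ (n + (D : ℤ) + t * (D : ℤ) * (1 - (n + (D : ℤ)))) = φ (n + t * (D : ℤ) * (1 - n))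
    refine per_dvd hper (hdv _ ⟨s * D, ?_⟩ ⟨1 - t * D, ?_⟩)
    · linear_combination (-(D : ℤ)) * hst
    · ring
  · intro e he b hb x hx hex
    have hbF := MUXF.xf_QB A B (Pool.Agent.MUXY.cqF hs.cq) b hb
    have hnI := (MUXF.xf_IDL A B (Pool.Agent.MUXY.cqF hs.cq) b hb).1
    -- the twist
    have key : ∀ c : ℤ, (f : ℤ) ∣ c - 1 → ¬ (p : ℤ) ∣ c →
        φ (c ^ 2 * qb b x) = 1 ∧ φ (-(c ^ 2 * qb b x)) = 0 := by
      intro c hcf hcp
      have hmem : ((c : ℤ) : OO A B) * x ∈ b := b.mul_mem_left _ hx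
      have hqb : qb b (((c : ℤ) : OO A B) * x) = c ^ 2 * qb b x := by
        have e1 := (hbF.1 _ hmem).1
        have e2 := (hbF.1 x hx).1
        have e3 := ((MUXF.xf_ALG A B (Pool.Agent.MUXY.cqF hs.cq)).1 ((c : ℤ) : OO A B) x).2.2
        have e4 := ((MUXF.xf_ALG A B (Pool.Agent.MUXY.cqF hs.cq)).2.2.1 c).2
        rw [e3, e4, e2] at e1
        have h5 : ((MUXF.nI b : ℕ) : ℤ) ≠ 0 := by exact_mod_cast hnI
        apply mul_left_cancel₀ h5
        linear_combination -e1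
      have hcopc : IsCoprime c ((p * f : ℕ) : ℤ) := by
        push_cast
        apply IsCoprime.mul_right
        · rw [isCoprime_comm]
          exact (Prime.coprime_iff_not_dvd (Nat.prime_iff_prime_int.1 hp)).2 hcp
        · obtain ⟨k, hk⟩ := hcf
          exact ⟨1, -k, by linear_combination hk⟩
      have hec : e ((c : ℤ) : OO A B) ≠ 0 := by
        obtain ⟨a', b', hab⟩ := hcopc
        have h5 : e 1 = e ((a' : OO A B) * ((c : ℤ) : OO A B)) := by
          apply he.per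
          have h6 : (1 : OO A B) - (a' : OO A B) * ((c : ℤ) : OO A B) =
              (b' : OO A B) * ((p * f : ℕ) : OO A B) := by
            have h7 : ((a' * c + b' * ((p * f : ℕ) : ℤ) : ℤ) : OO A B) = ((1 : ℤ) : OO A B) := by
              rw [hab]
            push_cast at h7 ⊢
            linear_combination -h7
          rw [h6]
          exact Ideal.mul_mem_left _ _ (Ideal.mem_span_singleton_self _)
        rw [he.mul, he.one] at h5
        intro h0
        rw [h0, mul_zero] at h5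
        exact one_ne_zero h5
      have hecx : e (((c : ℤ) : OO A B) * x) ≠ 0 := by
        rw [he.mul]
        exact mul_ne_zero hec hex
      have := hval b (idl (A := A) (B := B) (p * f)) e hb (Pool.Agent.MUXY.eiF he) hle _ hmem hecx
      rw [hqb] at this
      exact this
    constructor
    · intro hj
      obtain ⟨c, hc1, hc2, hc3⟩ := crt hp hs.fp hj
      show φ (qb b x + t * (D : ℤ) * (1 - qb b x)) = 1
      rw [← (key c hc2 hc3).1]
      obtain ⟨k1, hk1⟩ := hc1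
      obtain ⟨k2, hk2⟩ := hDf.trans hc2
      refine per_dvd hper (hdv _ ⟨-(s * (1 - qb b x)) - k1, ?_⟩ ⟨t * (1 - qb b x) - k2 * (c + 1) * qb b x, ?_⟩)
      · linear_combination (1 - qb b x) * hst - hk1
      · linear_combination (-(c + 1) * qb b x) * hk2
    · intro hj
      obtain ⟨c, hc1, hc2, hc3⟩ := crt hp hs.fp hj
      show φ (-qb b x + t * (D : ℤ) * (1 - -qb b x)) = 0
      rw [← (key c hc2 hc3).2]
      obtain ⟨k1, hk1⟩ := hc1
      obtain ⟨k2, hk2⟩ := hDf.trans hc2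
      refine per_dvd hper (hdv _ ⟨-(s * (1 + qb b x)) - k1, ?_⟩ ⟨t * (1 + qb b x) + k2 * (c + 1) * qb b x, ?_⟩)
      · linear_combination (1 + qb b x) * hst - hk1
      · linear_combination ((c + 1) * qb b x) * hk2

end

end Pool.Agent.OBH
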