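import Pool.Agent.OB.StHB
import Pool.Agent.MUX.HY_PRX
import Pool.Agent.MUX.XFAll

/-!
# OB, block H, bridge, module PJ1 (helper34): the projector, `p` unramified

Adapted from `Pool/Agent/NS/H_Prn.lean` (helper6).
-/

set_option autoImplicit false

namespace Pool.Agent.OBH

open _root_.MU3 _root_.Pool.Agent.MU3A _root_.Pool.Agent.MU3B _root_.Pool.Agent.MU3F _root_.Pool.Agent.MUX
  _root_.Pool.Agent.MUXH _root_.Pool.Agent.MUXHY _root_.Pool.Agent.MuSym _root_.Pool.Agent.OB OnePoint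

noncomputable section

namespace PJ1

lemma sgn_PK {A B : ℤ} {n : ℕ} {ι : Type} [Fintype ι] (R : Reps A B n ι) (e : OO A B → ℂ)
    (kk : ι → ℂ) (Z s : ℂ) (x y : OnePoint ℚ) :
    sgnPart s (fun x y => PhiK R e kk x y / Z) x y =
      (∑ c, kk c * sgnPart s (PhiI (R.b c) e) x y) / Z := by
  unfold sgnPart PhiK
  rw [← mul_div_assoc, ← add_div, Finset.mul_sum, ← Finset.sum_add_distrib]
  congr 1
  refine Finset.sum_congr rfl fun c _ => ?_
  ring

end PJ1

open PJ1 in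
/-- (PJ1) -/
theorem to_PJ1 (h1 : So_VAL) (h2 : So_RAM) : So_PJ1 := by
  intro p A B P V f hS ι _ R e he kk Z s
  obtain ⟨-, -, hv1, hr, hD, hgD, hg, -, -, -, -, -, -, -⟩ := h1 p 1 A B P V f hS
  have hDp : ¬ (p : ℤ) ∣ absD A B := (h2 p 1 A B P V hS.toCaseO).2.1 rfl
  obtain ⟨φ, hφ, hper, hφ2⟩ := MUXF.xf_PHX A B (toCQ hS.cq)
  have hqD : (((absD A B).toNat : ℕ) : ℤ) = absD A B := Int.toNat_of_nonneg hD.le
  have hq : (absD A B).toNat ≠ 0 := by omega
  have hv : V.valuation (((absD A B).toNat : ℕ) : ℂ) = 1 := by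
    have h5 : (((absD A B).toNat : ℕ) : ℂ) = ((absD A B : ℤ) : ℂ) := by
      rw [← Int.cast_natCast (R := ℂ) (absD A B).toNat, hqD]
    rw [h5]
    exact hv1 _ hDp
  refine ⟨(absD A B).toNat, fun t => (1 / ((absD A B).toNat : ℂ)) *
    ∑ n ∈ Finset.range (absD A B).toNat, φ n * ex (-(t * n) / (absD A B).toNat), hq,
    fun t => Prx.val_le V hr _ hq hv φ hφ t, fun x y => ?_⟩
  have key : ∀ c, ∑ t ∈ Finset.range (absD A B).toNat, ((1 / ((absD A B).toNat : ℂ)) *
      ∑ n ∈ Finset.range (absD A B).toNat, φ n * ex (-(t * n) / (absD A B).toNat)) *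
      sgnPart s (PhiI (R.b c) e) (mob (absD A B).toNat t 0 (absD A B).toNat x)
        (mob (absD A B).toNat t 0 (absD A B).toNat y) = PhiI (R.b c) e x y := by
    intro c
    exact MUXF.xf_PRJ A B (toCQ hS.cq) (R.b c) _ e (R.nl c).b_ne hg (toEI he) _ φ hq
      (fun n => by rw [hqD]; exact hper n)
      (hφ2 (R.b c) _ e (R.nl c).b_ne (toEI he) hgD) s x y
  simp only [sgn_PK]
  simp only [← mul_div_assoc]
  rw [← Finset.sum_div]
  congr 1
  simp only [Finset.mul_sum (s := (Finset.univ : Finset ι))]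
  rw [Finset.sum_comm]
  unfold PhiK
  refine Finset.sum_congr rfl fun c _ => ?_
  rw [← key c, Finset.mul_sum]
  refine Finset.sum_congr rfl fun t _ => ?_
  ring

end

end Pool.Agent.OBH
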