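import Pool.Agent.OB.StHB
import Pool.Agent.NS.GR_TWR

/-!
# OB, block H, bridge, module PJ2: the projector for `QR`, `er = 2` (helper72)

`q = D' = |D|/p`, `c_t = (1/q) Σ_n φ(n) exp(-2πi t n/q)`. The first half of `TWR` for the ideals with
`J(N | p) = 1`, the second half for those with `J(-N | p) = 1`.
-/

set_option autoImplicit false

namespace Pool.Agent.OBH

open _root_.MU3 _root_.Pool.Agent.MU3A _root_.Pool.Agent.MU3B _root_.Pool.Agent.MU3F _root_.Pool.Agent.MUX
  _root_.Pool.Agent.MUXH _root_.Pool.Agent.MUXHY _root_.Pool.Agent.MuSym _root_.Pool.Agent.OB OnePoint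
open _root_.Pool.Agent.MUXF (qb)

noncomputable section

namespace PJ2

/-- `exp (2πi m/q) ^ q = 1` -/
lemma exp_pow (q : ℕ) (hq : q ≠ 0) (m : ℤ) :
    Complex.exp (2 * Real.pi * Complex.I * (m / q)) ^ q = 1 := by
  have hqC : (q : ℂ) ≠ 0 := by exact_mod_cast hq
  rw [← Complex.exp_nat_mul, Complex.exp_eq_one_iff]
  refine ⟨m, ?_⟩
  field_simp

end PJ2

open PJ2

/-- (PJ2) the projector, `er = 2` -/
theorem to_PJ2 (h1 : So_PHJ) (h2 : So_QBO) (h3 : So_VAL) : So_PJ2 := by
  intro p A B P V f hS ι _ R e he kk s u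
  have hc : CQ A B := hS.cq
  obtain ⟨D', φ, hD3, hD'3, hD0, hφ, hper, hph⟩ := h1 p A B P V f hS
  obtain ⟨-, -, vone, vroot, -, -, hg0, -⟩ := h3 p 2 A B P V f hS
  have hQ := h2 p 2 A B P V f hS e he
  refine ⟨D', fun a => (1 / D') * ∑ n ∈ Finset.range D', φ n *
        Complex.exp (2 * Real.pi * Complex.I * (-(a * n) / D')), hD0, ?_, ?_⟩
  · intro t
    have hD1 : V.valuation ((D' : ℕ) : ℂ) = 1 := by
      have h4 := vone (D' : ℤ) (by exact_mod_cast hD'3)
      exact_mod_cast h4
    have hq1 : V.valuation ((1 : ℂ) / D') = 1 := by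
      rw [map_div₀, map_one, hD1, div_one]
    rw [map_mul, hq1, one_mul]
    refine Valuation.map_sum_le _ fun n _ => ?_
    rw [map_mul]
    have e1 : Complex.exp (2 * Real.pi * Complex.I * (-((t : ℂ) * n) / D')) =
        Complex.exp (2 * Real.pi * Complex.I * (((-((t : ℤ) * n) : ℤ) : ℂ) / D')) := by
      push_cast
      rfl
    rw [e1, vroot D' _ hD0 (exp_pow D' hD0 _), mul_one]
    rcases hφ n with h | h
    · rw [h, map_zero]
      exact zero_le
    · rw [h, map_one]
  · intro x y
    -- the two halves, for one ideal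
    have hb : ∀ i, R.b i ≠ ⊥ := fun i => (R.nl i).b_ne
    have k1 : ∀ i, jacobiSym (1 * (nI (R.b i) : ℤ)) p = 1 → ∀ x y : OnePoint ℚ,
        ∑ a ∈ Finset.range D', ((1 / D') * ∑ n ∈ Finset.range D', φ n *
          Complex.exp (2 * Real.pi * Complex.I * (-(a * n) / D'))) *
          PhiI (R.b i) e (mob D' a 0 D' x) (mob D' a 0 D' y) = PhiI (R.b i) e x y := by
      intro i hi
      refine (NSGR.tv_TWR A B hc (R.b i) _ e (hb i) hg0 he D' φ hD0 hper).1 ?_
      intro z hz hez
      have h4 := ((hQ (R.b i) (hb i) z hz hez).2.2 rfl).2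
      refine (hph e he (R.b i) (hb i) z hz hez).1 ?_
      rw [h4]
      rw [one_mul] at hi
      exact hi
    have k2 : ∀ i, jacobiSym (-1 * (nI (R.b i) : ℤ)) p = 1 → ∀ x y : OnePoint ℚ,
        ∑ a ∈ Finset.range D', ((1 / D') * ∑ n ∈ Finset.range D', φ n *
          Complex.exp (2 * Real.pi * Complex.I * (-(a * n) / D'))) *
          PhiI (R.b i) e (mob (-1) 0 0 1 (mob D' a 0 D' x))
            (mob (-1) 0 0 1 (mob D' a 0 D' y)) = 0 := by
      intro i hi
      refine (NSGR.tv_TWR A B hc (R.b i) _ e (hb i) hg0 he D' φ hD0 hper).2 ?_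
      intro z hz hez
      have h4 := ((hQ (R.b i) (hb i) z hz hez).2.2 rfl).2
      refine (hph e he (R.b i) (hb i) z hz hez).2 ?_
      rw [← neg_one_mul, jacobiSym.mul_left, h4, ← jacobiSym.mul_left]
      exact hi
    generalize hcc : (fun a : ℕ => (1 / (D' : ℂ)) * ∑ n ∈ Finset.range D', φ n *
        Complex.exp (2 * Real.pi * Complex.I * (-((a : ℂ) * n) / D'))) = c at *
    have hcc' : ∀ a : ℕ, (1 / (D' : ℂ)) * ∑ n ∈ Finset.range D', φ n *
        Complex.exp (2 * Real.pi * Complex.I * (-((a : ℂ) * n) / D')) = c a := fun a => by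
      rw [← hcc]
    simp only [hcc'] at k1 k2 ⊢
    -- the sums over `i`
    have s1 : ∑ t ∈ Finset.range D', c t *
        PhiK R e (kkJ p R kk 1) (mob D' t 0 D' x) (mob D' t 0 D' y) =
          PhiK R e (kkJ p R kk 1) x y := by
      unfold PhiK
      simp only [Finset.mul_sum]
      rw [Finset.sum_comm]
      refine Finset.sum_congr rfl fun i _ => ?_
      by_cases hi : jacobiSym (1 * (nI (R.b i) : ℤ)) p = 1
      · rw [← k1 i hi x y, Finset.mul_sum]
        refine Finset.sum_congr rfl fun t _ => ?_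
        ring
      · have h0 : kkJ p R kk 1 i = 0 := by
          unfold kkJ
          rw [if_neg hi]
        rw [h0, zero_mul]
        refine Finset.sum_eq_zero fun t _ => ?_
        rw [zero_mul, mul_zero]
    have s2 : ∑ t ∈ Finset.range D', c t *
        PhiK R e (kkJ p R kk (-1)) (mob (-1) 0 0 1 (mob D' t 0 D' x))
          (mob (-1) 0 0 1 (mob D' t 0 D' y)) = 0 := by
      unfold PhiK
      simp only [Finset.mul_sum]
      rw [Finset.sum_comm]
      refine Finset.sum_eq_zero fun i _ => ?_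
      by_cases hi : jacobiSym (-1 * (nI (R.b i) : ℤ)) p = 1
      · have h4 := k2 i hi x y
        have h5 : ∑ t ∈ Finset.range D', c t * (kkJ p R kk (-1) i *
            PhiI (R.b i) e (mob (-1) 0 0 1 (mob D' t 0 D' x))
              (mob (-1) 0 0 1 (mob D' t 0 D' y))) = kkJ p R kk (-1) i *
            ∑ t ∈ Finset.range D', c t * PhiI (R.b i) e (mob (-1) 0 0 1 (mob D' t 0 D' x))
              (mob (-1) 0 0 1 (mob D' t 0 D' y)) := by
          rw [Finset.mul_sum]
          refine Finset.sum_congr rfl fun t _ => ?_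
          ring
        rw [h5, h4, mul_zero]
      · have h0 : kkJ p R kk (-1) i = 0 := by
          unfold kkJ
          rw [if_neg hi]
        refine Finset.sum_eq_zero fun t _ => ?_
        rw [h0, zero_mul, mul_zero]
    calc ∑ t ∈ Finset.range D', c t * QR p R e kk s u (mob D' t 0 D' x) (mob D' t 0 D' y)
        = (∑ t ∈ Finset.range D', c t *
            PhiK R e (kkJ p R kk 1) (mob D' t 0 D' x) (mob D' t 0 D' y) +
          s * ∑ t ∈ Finset.range D', c t *
            PhiK R e (kkJ p R kk (-1)) (mob (-1) 0 0 1 (mob D' t 0 D' x))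
              (mob (-1) 0 0 1 (mob D' t 0 D' y))) / (u * R.om R.i0) := by
          rw [Finset.mul_sum, ← Finset.sum_add_distrib, Finset.sum_div]
          refine Finset.sum_congr rfl fun t _ => ?_
          unfold QR
          ring
      _ = _ := by rw [s1, s2, mul_zero, add_zero]

end

end Pool.Agent.OBH
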