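import Pool.Agent.OB.StHB
import Pool.Agent.MUX.XFAll

/-!
# OB, block H (helper70): `So_QBO`, the exponents modulo `p`
-/

set_option autoImplicit false

namespace Pool.Agent.OBH

open _root_.MU3 _root_.Pool.Agent.MU3A _root_.Pool.Agent.MU3B _root_.Pool.Agent.MU3F _root_.Pool.Agent.MUX
  _root_.Pool.Agent.MUXH _root_.Pool.Agent.MUXHY _root_.Pool.Agent.MuSym _root_.Pool.Agent.OB OnePoint
open _root_.Pool.Agent.MUXF (qb)

namespace QBO

variable {A B : ℤ}

lemma nm_mul' (x y : OO A B) : nm (x * y) = nm x * nm y := by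
  unfold nm
  rw [QuadraticAlgebra.re_mul, QuadraticAlgebra.im_mul]
  ring

lemma not_dvd {p f : ℕ} (hp : p.Prime) {e : OO A B → ℂ}
    (he : IsEI (idl (A := A) (B := B) (p * f)) e) {x : OO A B} (hex : e x ≠ 0) :
    ¬ (p : ℤ) ∣ nm x := by
  intro hd
  have h5 := (he.supp _).1 hex
  obtain ⟨i, hi, j, hj, hij⟩ := (Ideal.isCoprime_iff_exists).1 h5
  rw [Ideal.mem_span_singleton] at hi hj
  obtain ⟨i', hi'⟩ := hi
  obtain ⟨j', hj'⟩ := hj
  set y : OO A B := ((f : ℕ) : OO A B) * j' with hy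
  have h7 : x * i' = 1 - ((p : ℕ) : OO A B) * y := by
    rw [← hij, hi', hj', hy]
    push_cast
    ring
  have h8 : nm x * nm i' = nm (1 - ((p : ℕ) : OO A B) * y) := by rw [← h7, nm_mul']
  have h9 : nm (1 - ((p : ℕ) : OO A B) * y) =
      1 + (p : ℤ) * (-2 * y.re + p * y.re ^ 2 - B * (1 - p * y.re) * y.im - A * p * y.im ^ 2) := by
    unfold nm
    simp only [QuadraticAlgebra.re_sub, QuadraticAlgebra.im_sub, QuadraticAlgebra.re_mul,
      QuadraticAlgebra.im_mul, QuadraticAlgebra.re_natCast, QuadraticAlgebra.im_natCast,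
      QuadraticAlgebra.re_one, QuadraticAlgebra.im_one]
    ring
  have h10 : (p : ℤ) ∣ 1 := by
    have h11 : (p : ℤ) ∣ 1 + (p : ℤ) * (-2 * y.re + p * y.re ^ 2 - B * (1 - p * y.re) * y.im -
        A * p * y.im ^ 2) := by
      rw [← h9, ← h8]
      exact Dvd.dvd.mul_right hd _
    exact (Int.dvd_add_left (Dvd.intro _ rfl)).1 h11
  have h12 : p ∣ 1 := by exact_mod_cast h10
  exact hp.one_lt.ne' (Nat.dvd_one.1 h12)

lemma gcd_one {p : ℕ} (hp : p.Prime) {n : ℤ} (h : ¬ (p : ℤ) ∣ n) : n.gcd p = 1 := by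
  rw [Int.gcd_comm, Int.gcd_eq_natAbs, Int.natAbs_natCast]
  exact (Nat.Prime.coprime_iff_not_dvd hp).2 fun h1 => h (Int.natCast_dvd.2 h1)

end QBO

open QBO in
/-- (QBO) the exponents modulo `p` -/
theorem to_QBO (h : So_RAM) : So_QBO := by
  intro p er A B P V f hS e he b hb x hx hex
  have hp := hS.pp
  have hn : ¬ (p : ℤ) ∣ nm x := not_dvd hp he hex
  have hq : nm x = (nI b : ℤ) * qb b x := ((MUXF.xf_QB A B (toCQ hS.cq) b hb).1 x hx).1
  have hq1 : ¬ (p : ℤ) ∣ qb b x := fun h1 => hn (by rw [hq]; exact Dvd.dvd.mul_left h1 _)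
  have hq2 : ¬ (p : ℤ) ∣ (nI b : ℤ) := fun h1 => hn (by rw [hq]; exact Dvd.dvd.mul_right h1 _)
  refine ⟨hn, hq1, fun her => ?_⟩
  obtain ⟨-, hpD, -⟩ := (h p er A B P V hS.toCaseO).2.2 her
  obtain ⟨k, hk⟩ := hpD
  have hp5 := hS.p5
  have h4 : (4 : ℤ) * nm x = (2 * x.re + B * x.im) ^ 2 + (p : ℤ) * (k * x.im ^ 2) := by
    have h1 : absD A B = -(B ^ 2 + 4 * A) := rfl
    rw [h1] at hk
    unfold nm
    linear_combination x.im ^ 2 * hk
  have hp4 : ¬ (p : ℤ) ∣ 4 := by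
    intro h1
    have h2 := Int.le_of_dvd (by norm_num) h1
    have h3 : (5 : ℤ) ≤ p := by exact_mod_cast hp5
    omega
  have hp2 : ¬ (p : ℤ) ∣ 2 := fun h1 => hp4 (h1.trans (by norm_num))
  have hpi : Prime (p : ℤ) := Nat.prime_iff_prime_int.1 hp
  have ht : ¬ (p : ℤ) ∣ 2 * x.re + B * x.im := by
    intro h1
    have h2 : (p : ℤ) ∣ 4 * nm x := by
      rw [h4]
      exact dvd_add (Dvd.dvd.pow h1 (by norm_num)) (Dvd.intro _ rfl)
    rcases hpi.dvd_or_dvd h2 with h3 | h3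
    · exact hp4 h3
    · exact hn h3
  have hJ4 : jacobiSym 4 p = 1 := by
    have h1 := jacobiSym.sq_one' (gcd_one hp hp2)
    norm_num at h1
    exact h1
  have hJ : jacobiSym (nm x) p = 1 := by
    have h1 : jacobiSym (4 * nm x) p = 1 := by
      rw [h4, jacobiSym.mod_left, Int.add_mul_emod_self_left, ← jacobiSym.mod_left]
      exact jacobiSym.sq_one' (gcd_one hp ht)
    rw [jacobiSym.mul_left, hJ4, one_mul] at h1
    exact h1
  refine ⟨hJ, ?_⟩
  have h6 : jacobiSym (nI b : ℤ) p * jacobiSym (qb b x) p = 1 := by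
    rw [← jacobiSym.mul_left, ← hq]
    exact hJ
  have h7 : jacobiSym (nI b : ℤ) p ^ 2 = 1 := jacobiSym.sq_one (gcd_one hp hq2)
  calc jacobiSym (qb b x) p = jacobiSym (nI b : ℤ) p ^ 2 * jacobiSym (qb b x) p := by
        rw [h7, one_mul]
    _ = jacobiSym (nI b : ℤ) p * (jacobiSym (nI b : ℤ) p * jacobiSym (qb b x) p) := by ring
    _ = jacobiSym (nI b : ℤ) p := by rw [h6, mul_one]

end Pool.Agent.OBH
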