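import Pool.Agent.OB.StHB
import Pool.Agent.MUX.HY_QSX
import Pool.Agent.MUX.XFAll

/-!
# OB, block H (helper89): the quantity of the final statement as a character sum, `er = 2` (`So_QS2`)

`SnX R m M e i c = 0` for `p ∣ M`, `p ∤ c` and `J(N b_i | p) ≠ J(c | p)`. So `STX (kkJ p R kk 1) c = STX kk c` for `c ≡ 1` modulo `p`, and
`STX (kkJ p R kk (-1)) c = STX kk c` for `c ≡ -1`. Half the sum and half the difference of `QSX` for the signs `1` and `-1`.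
-/

set_option autoImplicit false

namespace Pool.Agent.OBH

open _root_.MU3 _root_.Pool.Agent.MU3A _root_.Pool.Agent.MU3B _root_.Pool.Agent.MU3F _root_.Pool.Agent.MUX
  _root_.Pool.Agent.MUXH _root_.Pool.Agent.MUXHY _root_.Pool.Agent.MuSym _root_.Pool.Agent.OB OnePoint

noncomputable section

namespace QS2

variable {A B : ℤ}

lemma top_ne : (⊤ : Ideal (OO A B)) ≠ ⊥ := by
  intro h2
  have h3 := (Ideal.eq_top_iff_one (I := (⊤ : Ideal (OO A B)))).1 rfl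
  rw [h2, Ideal.mem_bot] at h3
  have h4 := congrArg QuadraticAlgebra.re h3
  rw [QuadraticAlgebra.re_one, QuadraticAlgebra.re_zero] at h4
  omega

lemma jac_congr {p : ℕ} {x y : ℤ} (h : (p : ℤ) ∣ x - y) : jacobiSym x p = jacobiSym y p := by
  rw [jacobiSym.mod_left x p, jacobiSym.mod_left y p,
    Int.emod_eq_emod_iff_emod_sub_eq_zero.2 (Int.emod_eq_zero_of_dvd h)]

/-- the sums over the other genus vanish -/
theorem SnX_zero (hQ : So_QBO) {p : ℕ} {P : Ideal (OO A B)} {V : ValuationSubring ℂ} {f : ℕ}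
    (H : SetO p 2 A B P V f) {e : OO A B → ℂ} (he : IsEI (idl (A := A) (B := B) (p * f)) e)
    {ι : Type} (R : Reps A B (p * f) ι) (m M : ℕ) (hM : p ∣ M) (i : ι) (c : ℤ)
    (hc : jacobiSym (nI (R.b i) : ℤ) p ≠ jacobiSym c p) : SnX R m M e i c = 0 := by
  unfold SnX
  have h0 : ∀ x : OO A B, (if (M : ℤ) ∣ nm x * nI (R.b i) - c then
      e x * ee (R.L i) (pt R m i x) else 0) = 0 := by
    intro x
    split_ifs with h
    · by_cases hx : e x = 0
      · rw [hx, zero_mul]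
      · exfalso
        obtain ⟨-, -, h1⟩ := hQ p 2 A B P V f H e he ⊤ top_ne x trivial hx
        apply hc
        have h2 : (p : ℤ) ∣ nm x * nI (R.b i) - c := by
          refine dvd_trans ?_ h
          exact_mod_cast hM
        have h3 : jacobiSym (nm x * nI (R.b i)) p = jacobiSym c p := jac_congr h2
        rw [jacobiSym.mul_left, (h1 rfl).1, one_mul] at h3
        exact h3
    · rfl
  have h1 : sumMod ((m : ℕ) : OO A B) (fun x => if (M : ℤ) ∣ nm x * nI (R.b i) - c then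
      e x * ee (R.L i) (pt R m i x) else 0) = 0 := by
    unfold sumMod
    exact finsum_eq_zero_of_forall_eq_zero fun q => h0 _
  rw [h1, mul_zero]

/-- `STX` for the part of the weights with `J(d N b_i | p) = 1`, `c ≡ d = ± 1` modulo `p` -/
theorem STX_eq (hQ : So_QBO) {p : ℕ} {P : Ideal (OO A B)} {V : ValuationSubring ℂ} {f : ℕ}
    (H : SetO p 2 A B P V f) {e : OO A B → ℂ} (he : IsEI (idl (A := A) (B := B) (p * f)) e)
    {ι : Type} [Fintype ι] (R : Reps A B (p * f) ι) (m M a : ℕ) (hM : p ∣ M)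
    (ha : (p : ℤ) ∣ (a : ℤ) - 1) (kk : ι → ℂ) (d : ℤ) (hd : d * d = 1) (c : ℤ)
    (hc : (p : ℤ) ∣ c - d) : STX R m M a e (kkJ p R kk d) c = STX R m M a e kk c := by
  have hac : (p : ℤ) ∣ (a : ℤ) ^ 2 * c - d := by
    have : (a : ℤ) ^ 2 * c - d = ((a : ℤ) - 1) * ((a + 1) * c) + (c - d) := by ring
    rw [this]
    exact dvd_add (Dvd.dvd.mul_right ha _) hc
  have key : ∀ i, ¬ jacobiSym (d * (nI (R.b i) : ℤ)) p = 1 →
      jacobiSym (nI (R.b i) : ℤ) p ≠ jacobiSym d p := by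
    intro i hi h
    apply hi
    rw [jacobiSym.mul_left, h, ← jacobiSym.mul_left, hd, jacobiSym.one_left]
  unfold STX
  refine Finset.sum_congr rfl fun i _ => ?_
  unfold kkJ
  split_ifs with h
  · rfl
  · have h1 := SnX_zero hQ H he R m M hM i c (by rw [jac_congr hc]; exact key i h)
    have h2 := SnX_zero hQ H he R m M hM i ((a : ℤ) ^ 2 * c) (by rw [jac_congr hac]; exact key i h)
    rw [h1, h2]
    ring

end QS2

open QS2

theorem to_QS2 (h2 : So_QBO) : So_QS2 := by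
  intro p A B P V f H ι hι R e he kk s n
  have hcq : CQ A B := H.cq
  have hpf : ((p * f : ℕ) : OO A B) ∈ idl (A := A) (B := B) (p * f) :=
    Ideal.mem_span_singleton_self _
  have hp2 : p ≠ 2 := by
    have := H.p5
    omega
  have hq : q0 p = p := by
    unfold q0
    rw [if_neg hp2]
  have hM : q0 p * p ^ n = p ^ (n + 1) := by
    rw [hq, pow_succ, mul_comm]
  have haz : ((aX p f : ℕ) : ℤ) - 1 = p * (2 * f) := by
    unfold aX
    rw [hq]
    push_cast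
    ring
  have ha : (p : ℤ) ∣ ((aX p f : ℕ) : ℤ) - 1 := by rw [haz]; exact Dvd.intro _ rfl
  have hpM : p ∣ p ^ (n + 1) := dvd_pow_self p (Nat.succ_ne_zero n)
  have Q := fun (k : ι → ℂ) (s : ℤ) => ty_QSX MUXF.xf_F5 MUXF.xf_PRD p H.pp A B hcq ⊤ f H.f0 ι hι R
    _ e he hpf k s 1 n
  rw [hM, hq] at Q
  have c1 : ∀ j : ℕ, (p : ℤ) ∣ (1 + (p : ℤ)) ^ j - 1 := by
    intro j
    have := sub_dvd_pow_sub_pow (1 + (p : ℤ)) 1 j
    rw [one_pow] at this
    exact dvd_trans (by rw [add_sub_cancel_left]) this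
  have c2 : ∀ j : ℕ, (p : ℤ) ∣ -(1 + (p : ℤ)) ^ j - (-1) := by
    intro j
    have := (dvd_neg).2 (c1 j)
    rwa [neg_sub, show (1 : ℤ) - (1 + (p : ℤ)) ^ j = -(1 + (p : ℤ)) ^ j - (-1) by ring] at this
  have P1 := fun j => STX_eq h2 H he R (lvX p f n) (p ^ (n + 1)) (aX p f) hpM ha kk 1 (one_mul 1)
    ((1 + (p : ℤ)) ^ j) (c1 j)
  have P2 := fun j => STX_eq h2 H he R (lvX p f n) (p ^ (n + 1)) (aX p f) hpM ha kk (-1)
    (by norm_num) (-(1 + (p : ℤ)) ^ j) (c2 j)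
  set ζ : ℂ := ex (-((1 + (p : ℚ)) * (aX p f : ℚ) ^ 2) / ((p ^ (n + 1) : ℕ) : ℚ)) with hζ
  have hζ1 : ex (-((1 + (p : ℚ)) ^ 1 * (aX p f : ℚ) ^ 2) / ((p ^ (n + 1) : ℕ) : ℚ)) = ζ := by
    rw [pow_one]
  rw [hζ1] at Q
  -- the four sums
  have A1 := Q (kkJ p R kk 1) 1
  have A2 := Q (kkJ p R kk 1) (-1)
  have B1 := Q (kkJ p R kk (-1)) 1
  have B2 := Q (kkJ p R kk (-1)) (-1)
  have L0 : ∀ (k : ι → ℂ) (t : ℤ),
      ∑ j ∈ Finset.range (1 + 1), ((-1 : ℂ) ^ (1 - j) * ((1 : ℕ).choose j : ℂ)) *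
      (STX R (lvX p f n) (p ^ (n + 1)) (aX p f) e k ((1 + (p : ℤ)) ^ j) +
        t * STX R (lvX p f n) (p ^ (n + 1)) (aX p f) e k (-(1 + (p : ℤ)) ^ j)) =
      ∑ j ∈ Finset.range 2, (-1 : ℂ) ^ (1 - j) *
        STX R (lvX p f n) (p ^ (n + 1)) (aX p f) e k ((1 + (p : ℤ)) ^ j) +
      t * ∑ j ∈ Finset.range 2, (-1 : ℂ) ^ (1 - j) *
        STX R (lvX p f n) (p ^ (n + 1)) (aX p f) e k (-(1 + (p : ℤ)) ^ j) := by
    intro k t
    rw [Finset.mul_sum, ← Finset.sum_add_distrib]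
    refine Finset.sum_congr rfl fun j hj => ?_
    have hj2 : j = 0 ∨ j = 1 := by
      have := Finset.mem_range.1 hj
      omega
    rcases hj2 with rfl | rfl
    · simp
      ring
    · simp
  rw [L0] at A1 A2 B1 B2
  simp only [P1] at A1 A2
  simp only [P2] at B1 B2
  have E : ∀ b : ℕ, comb (aX p f) (1 + (p : ℤ)) 1 (fun b => PP R ⊤ e (kkJ p R kk 1) 0 ∞
              ((b / ((p ^ (n + 1) : ℕ) : ℚ) : ℚ) : OnePoint ℚ) +
            s * PP R ⊤ e (kkJ p R kk (-1)) 0 (mob (-1) 0 0 1 ∞)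
              (mob (-1) 0 0 1 ((b / ((p ^ (n + 1) : ℕ) : ℚ) : ℚ) : OnePoint ℚ))) b =
      (1 / 2) * (comb (aX p f) (1 + (p : ℤ)) 1 (fun b => sgnPart (((1 : ℤ)) : ℂ)
            (PP R ⊤ e (kkJ p R kk 1) 0) ∞
            ((b / ((p ^ (n + 1) : ℕ) : ℚ) : ℚ) : OnePoint ℚ)) b +
        comb (aX p f) (1 + (p : ℤ)) 1 (fun b => sgnPart (((-1 : ℤ)) : ℂ)
            (PP R ⊤ e (kkJ p R kk 1) 0) ∞
            ((b / ((p ^ (n + 1) : ℕ) : ℚ) : ℚ) : OnePoint ℚ)) b) +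
      (s / 2) * (comb (aX p f) (1 + (p : ℤ)) 1 (fun b => sgnPart (((1 : ℤ)) : ℂ)
            (PP R ⊤ e (kkJ p R kk (-1)) 0) ∞
            ((b / ((p ^ (n + 1) : ℕ) : ℚ) : ℚ) : OnePoint ℚ)) b -
        comb (aX p f) (1 + (p : ℤ)) 1 (fun b => sgnPart (((-1 : ℤ)) : ℂ)
            (PP R ⊤ e (kkJ p R kk (-1)) 0) ∞
            ((b / ((p ^ (n + 1) : ℕ) : ℚ) : ℚ) : OnePoint ℚ)) b) := by
    intro b
    unfold comb sgnPart
    rw [← Finset.sum_add_distrib, ← Finset.sum_sub_distrib, Finset.mul_sum, Finset.mul_sum,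
      ← Finset.sum_add_distrib]
    refine Finset.sum_congr rfl fun j _ => ?_
    push_cast
    ring
  have hL : ∑ j ∈ Finset.range 2, (-1 : ℂ) ^ (1 - j) *
        (STX R (lvX p f n) (p ^ (n + 1)) (aX p f) e kk ((1 + (p : ℤ)) ^ j) +
          s * STX R (lvX p f n) (p ^ (n + 1)) (aX p f) e kk (-((1 + (p : ℤ)) ^ j))) =
      ∑ j ∈ Finset.range 2, (-1 : ℂ) ^ (1 - j) *
        STX R (lvX p f n) (p ^ (n + 1)) (aX p f) e kk ((1 + (p : ℤ)) ^ j) +
      s * ∑ j ∈ Finset.range 2, (-1 : ℂ) ^ (1 - j) *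
        STX R (lvX p f n) (p ^ (n + 1)) (aX p f) e kk (-(1 + (p : ℤ)) ^ j) := by
    rw [Finset.mul_sum, ← Finset.sum_add_distrib]
    refine Finset.sum_congr rfl fun j _ => ?_
    ring
  rw [hL]
  simp only [E, mul_add, Finset.sum_add_distrib, mul_sub, Finset.sum_sub_distrib]
  have hs : ∀ (t : ℂ) (G : ℕ → ℂ), ∑ b ∈ Finset.range (p ^ (n + 1)), ζ ^ b * (t * G b) =
      t * ∑ b ∈ Finset.range (p ^ (n + 1)), ζ ^ b * G b := by
    intro t G
    rw [Finset.mul_sum]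
    refine Finset.sum_congr rfl fun b _ => ?_
    ring
  rw [hs, hs, hs, hs]
  push_cast at A1 A2 B1 B2 ⊢
  linear_combination (1 / 2) * A1 + (1 / 2) * A2 + (s / 2) * B1 - (s / 2) * B2

end

end Pool.Agent.OBH
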