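import Pool.Agent.OB.StHB
import Pool.Agent.MUX.XLib

/-!
# OB, block H: the norm of `P` and the discriminant (`O_RAM`), helper2
-/

set_option autoImplicit false

namespace Pool.Agent.OBH

open _root_.MU3 _root_.Pool.Agent.MU3A _root_.Pool.Agent.MU3B _root_.Pool.Agent.MUX
  _root_.Pool.Agent.OB

noncomputable section

namespace RAM

variable {A B : ℤ}

lemma card_dvd {I J : Ideal (OO A B)} (h : I ≤ J) : nI J ∣ nI I :=
  AddSubgroup.card_dvd_of_surjective (Ideal.Quotient.factor h).toAddMonoidHom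
    (Ideal.Quotient.factor_surjective h)

lemma nI_ne_one {P : Ideal (OO A B)} (hP : P ≠ ⊤) : nI P ≠ 1 := fun h1 => by
  have h2 : Subsingleton (OO A B ⧸ P) := (Nat.card_eq_one_iff_unique.1 h1).1
  exact hP (Ideal.Quotient.subsingleton_iff.1 h2)

lemma nI_idl (h : CQ A B) {n : ℕ} (hn : n ≠ 0) : nI (idl (A := A) (B := B) n) = n ^ 2 := by
  have h1 := nI_sp h (natCast_ne_zero' h hn)
  have h2 : nm ((n : ℕ) : OO A B) = (n : ℤ) ^ 2 := by
    have := nm_intCast (A := A) (B := B) (n : ℤ)
    rwa [Int.cast_natCast] at this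
  rw [h2] at h1
  rw [h1, Int.natAbs_pow, Int.natAbs_natCast]

/-- the integers in `P` -/
lemma int_mem {p : ℕ} (pp : p.Prime) {P : Ideal (OO A B)} (hP : P ≠ ⊤)
    (hp : ((p : ℕ) : OO A B) ∈ P) {n : ℤ} (hn : ((n : ℤ) : OO A B) ∈ P) : (p : ℤ) ∣ n := by
  by_contra hd
  have hc : IsCoprime (p : ℤ) n := (Prime.coprime_iff_not_dvd (Nat.prime_iff_prime_int.1 pp)).2 hd
  obtain ⟨s, t, hst⟩ := hc
  apply hP
  rw [Ideal.eq_top_iff_one]
  have e : (1 : OO A B) = ((s : ℤ) : OO A B) * ((p : ℕ) : OO A B) +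
      ((t : ℤ) : OO A B) * ((n : ℤ) : OO A B) := by
    have := congrArg (fun z : ℤ => (z : OO A B)) hst
    push_cast at this
    exact this.symm
  rw [e]
  exact add_mem (P.mul_mem_left _ hp) (P.mul_mem_left _ hn)

lemma not_sq {p : ℕ} (h : CQ A B) (pp : p.Prime) (p5 : 5 ≤ p) :
    ¬ (p : ℤ) ^ 2 ∣ absD A B := fun hd => by
  have hpi : Prime (p : ℤ) := Nat.prime_iff_prime_int.1 pp
  have hu : ¬ IsUnit (p : ℤ) := hpi.not_isUnit
  have hd' : (p : ℤ) * p ∣ B ^ 2 + 4 * A := by
    have := (dvd_neg.2 hd)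
    rw [sq] at this
    simpa [absD] using this
  rcases h.hB with hB | hB
  · have h1 := (h.fund0 hB).1
    rw [hB] at hd'
    have h2 : (p : ℤ) * p ∣ 4 * A := by
      simpa using hd'
    have hc : IsCoprime ((p : ℤ) * p) 4 := by
      have h3 : IsCoprime (p : ℤ) 4 := by
        rw [Prime.coprime_iff_not_dvd hpi]
        intro h4
        have := Int.le_of_dvd (by norm_num) h4
        omega
      exact IsCoprime.mul_left h3 h3
    exact hu (h1 _ (hc.dvd_of_dvd_mul_left h2))
  · have h1 := h.fund1 hB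
    rw [hB] at hd'
    have h2 : (p : ℤ) * p ∣ 1 + 4 * A := by
      simpa using hd'
    exact hu (h1 _ h2)

lemma del_sq (A B : ℤ) : (⟨-B, 2⟩ : OO A B) * ⟨-B, 2⟩ = ((B ^ 2 + 4 * A : ℤ) : OO A B) := by
  apply QuadraticAlgebra.ext
  · simp only [QuadraticAlgebra.re_mul, QuadraticAlgebra.re_intCast, Int.cast_id]
    ring
  · simp only [QuadraticAlgebra.im_mul, QuadraticAlgebra.im_intCast]
    ring

lemma add_star' (x : OO A B) : x + star x = ((2 * x.re + B * x.im : ℤ) : OO A B) := by
  apply QuadraticAlgebra.ext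
  · simp only [QuadraticAlgebra.re_add, QuadraticAlgebra.re_star, QuadraticAlgebra.re_intCast,
      Int.cast_id]
    ring
  · simp only [QuadraticAlgebra.im_add, QuadraticAlgebra.im_star, QuadraticAlgebra.im_intCast]
    ring

end RAM

open RAM in
theorem to_RAM : So_RAM := by
  intro p er A B P V h
  have hq := h.cq
  have pp := h.pp
  have p5 := h.p5
  have hpi : Prime (p : ℤ) := Nat.prime_iff_prime_int.1 pp
  have hPt : P ≠ ⊤ := h.prime.ne_top
  have hp0 : ((p : ℕ) : OO A B) ≠ 0 := natCast_ne_zero' hq pp.ne_zero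
  have hPb : P ≠ ⊥ := fun h0 => hp0 (by have := h.mem; rwa [h0, Ideal.mem_bot] at this)
  have hle : idl (A := A) (B := B) p ≤ P := (Ideal.span_singleton_le_iff_mem _).2 h.mem
  have hnP : nI P = p ∨ nI P = p ^ 2 := by
    have h1 := card_dvd hle
    rw [nI_idl hq pp.ne_zero, Nat.dvd_prime_pow pp] at h1
    obtain ⟨k, hk, hk'⟩ := h1
    have h2 := nI_ne_one hPt
    interval_cases k
    · exact absurd (by simpa using hk') h2
    · exact Or.inl (by simpa using hk')
    · exact Or.inr hk'
  have hsq := not_sq hq pp p5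
  refine ⟨hnP, fun her hd => ?_, fun her => ?_⟩
  · -- `er = 1`
    have hram : ((p : ℕ) : OO A B) ∉ P ^ 2 := by
      rcases h.ram with h1 | h1
      · exact h1.2
      · omega
    have hd2 : (p : ℤ) ∣ B ^ 2 + 4 * A := by
      have := dvd_neg.2 hd
      simpa [absD] using this
    obtain ⟨D₁, hD₁⟩ := hd2
    have hnd : ¬ (p : ℤ) ∣ D₁ := by
      rintro ⟨c, hc⟩
      apply hsq
      refine ⟨-c, ?_⟩
      unfold absD
      rw [hD₁, hc]
      ring
    have hc : IsCoprime (p : ℤ) D₁ := (Prime.coprime_iff_not_dvd hpi).2 hnd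
    obtain ⟨s, t, hst⟩ := hc
    have hdel : (⟨-B, 2⟩ : OO A B) ∈ P := by
      have h1 : (⟨-B, 2⟩ : OO A B) * ⟨-B, 2⟩ ∈ P := by
        rw [del_sq, hD₁]
        push_cast
        exact P.mul_mem_right _ h.mem
      rcases h.prime.mem_or_mem h1 with h2 | h2 <;> exact h2
    have h3 : (⟨-B, 2⟩ : OO A B) * ⟨-B, 2⟩ ∈ P ^ 2 := by
      rw [sq]
      exact Ideal.mul_mem_mul hdel hdel
    have h4 : ((p : ℕ) : OO A B) * ((p : ℕ) : OO A B) ∈ P ^ 2 := by
      rw [sq]
      exact Ideal.mul_mem_mul h.mem h.mem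
    apply hram
    have e : ((p : ℕ) : OO A B) = ((s : ℤ) : OO A B) * (((p : ℕ) : OO A B) * ((p : ℕ) : OO A B)) +
        ((t : ℤ) : OO A B) * ((⟨-B, 2⟩ : OO A B) * ⟨-B, 2⟩) := by
      rw [del_sq, hD₁]
      have := congrArg (fun z : ℤ => (z : OO A B)) hst
      push_cast at this ⊢
      linear_combination -((p : ℕ) : OO A B) * this
    rw [e]
    exact add_mem (Ideal.mul_mem_left _ _ h4) (Ideal.mul_mem_left _ _ h3)
  · -- `er = 2`
    have hram : ((p : ℕ) : OO A B) ∈ P ^ 2 := by
      rcases h.ram with h1 | h1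
      · omega
      · exact h1.2
    have hle2 : idl (A := A) (B := B) p ≤ P * P := by
      rw [← sq]
      exact (Ideal.span_singleton_le_iff_mem _).2 hram
    have hn : nI P = p := by
      rcases hnP with h1 | h1
      · exact h1
      · exfalso
        have h2 := card_dvd hle2
        rw [nI_mul hq hPb hPb, h1, nI_idl hq pp.ne_zero] at h2
        have h3 : 0 < p ^ 2 := pow_pos pp.pos 2
        have h4 := Nat.le_of_dvd h3 h2
        have h5 : 1 < p ^ 2 := Nat.one_lt_pow (by norm_num) pp.one_lt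
        nlinarith
    have hmul : P * cjI P = idl p := by
      rw [mul_cjI hq hPb, hn]
    have hcj : cjI P ≤ P := by
      rw [← mul_le_mul_iff hq hPb, hmul]
      exact hle2
    have hstar : ∀ x ∈ P, star x ∈ P := by
      intro x hx
      apply hcj
      change starRingEnd (OO A B) (star x) ∈ P
      rw [starRingEnd_apply, star_star]
      exact hx
    have hP2 : P * P ≤ idl p := by
      rw [← hmul, mul_le_mul_iff hq hPb]
      intro x hx
      change starRingEnd (OO A B) x ∈ P
      rw [starRingEnd_apply]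
      exact hstar x hx
    obtain ⟨x, hxP, hxp⟩ : ∃ x ∈ P, x ∉ idl (A := A) (B := B) p := by
      by_contra hcon
      push Not at hcon
      apply hPt
      have h1 : P * ⊤ ≤ P * P := by
        rw [Ideal.mul_top]
        exact le_trans (fun x hx => hcon x hx) hle2
      exact top_le_iff.1 ((mul_le_mul_iff hq hPb).1 h1)
    have htr : (p : ℤ) ∣ 2 * x.re + B * x.im := by
      apply int_mem pp hPt h.mem
      rw [← add_star']
      exact add_mem hxP (hstar x hxP)
    have hnm : (p : ℤ) ∣ nm x := by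
      apply int_mem pp hPt h.mem
      rw [← mul_star]
      exact P.mul_mem_right _ hxP
    refine ⟨hn, ?_, hsq⟩
    have hid : (B ^ 2 + 4 * A) * x.im ^ 2 = (2 * x.re + B * x.im) ^ 2 - 4 * nm x := by
      unfold nm
      ring
    have h6 : (p : ℤ) ∣ (B ^ 2 + 4 * A) * x.im ^ 2 := by
      rw [hid]
      exact dvd_sub (dvd_pow htr (by norm_num)) (Dvd.dvd.mul_left hnm 4)
    rcases hpi.dvd_or_dvd h6 with h7 | h7
    · have := dvd_neg.2 h7
      exact this
    · exfalso
      have him : (p : ℤ) ∣ x.im := hpi.dvd_of_dvd_pow h7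
      have h8 : (p : ℤ) ∣ 2 * x.re := by
        have := dvd_sub htr (Dvd.dvd.mul_left him B)
        have e : 2 * x.re + B * x.im - B * x.im = 2 * x.re := by ring
        rwa [e] at this
      have hre : (p : ℤ) ∣ x.re := by
        rcases hpi.dvd_or_dvd h8 with h9 | h9
        · exfalso
          have := Int.le_of_dvd (by norm_num) h9
          omega
        · exact h9
      obtain ⟨a, ha⟩ := hre
      obtain ⟨b, hb⟩ := him
      apply hxp
      rw [Ideal.mem_span_singleton']
      refine ⟨⟨a, b⟩, ?_⟩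
      have e1 : ((p : ℕ) : OO A B) = ((p : ℤ) : OO A B) := (Int.cast_natCast p).symm
      rw [e1]
      apply QuadraticAlgebra.ext
      · simp only [QuadraticAlgebra.re_mul, QuadraticAlgebra.re_intCast,
          QuadraticAlgebra.im_intCast, Int.cast_id]
        rw [ha]
        ring
      · simp only [QuadraticAlgebra.im_mul, QuadraticAlgebra.re_intCast,
          QuadraticAlgebra.im_intCast, Int.cast_id]
        rw [hb]
        ring

end

end Pool.Agent.OBH
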