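import Pool.Agent.OB.StHB

/-!
# OB, block H, bridge, module REL (helper52): the relation for `QR`
-/

set_option autoImplicit false

namespace Pool.Agent.OBH

open _root_.MU3 _root_.Pool.Agent.MU3A _root_.Pool.Agent.MU3B _root_.Pool.Agent.MU3F _root_.Pool.Agent.MUX
  _root_.Pool.Agent.MUXH _root_.Pool.Agent.MUXHY _root_.Pool.Agent.MuSym _root_.Pool.Agent.OB OnePoint
open _root_.Pool.Agent.MUXF (qb)

noncomputable section

namespace REL

theorem mob_neg (y : ℚ) : mob (-1) 0 0 1 (y : OnePoint ℚ) = ((-y : ℚ) : OnePoint ℚ) := by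
  unfold mob
  rw [OnePoint.elim_some]
  simp

theorem mob_inf : mob (-1) 0 0 1 (∞ : OnePoint ℚ) = ∞ := by
  unfold mob
  rw [OnePoint.elim_infty]
  simp

end REL

theorem to_REL (h1 : So_QBO) (h2 : So_SHJ) (h3 : So_VAL) : So_REL := by
  intro p A B P V f hS ι _ R e hE kk s u x
  set G : ℂ := ∑ j ∈ Finset.range p, (jacobiSym (j : ℤ) p : ℂ) *
    Complex.exp (2 * Real.pi * Complex.I / p) ^ j with hG
  obtain ⟨-, -, -, -, -, -, hg, -⟩ := h3 p 2 A B P V f hS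
  have hb : ∀ i, R.b i ≠ ⊥ := fun i => (R.nl i).b_ne
  have hp2 : p ≠ 2 := by
    have := hS.p5
    omega
  have hq : ∀ i, ∀ y ∈ R.b i, e y ≠ 0 → jacobiSym (qb (R.b i) y) p =
      jacobiSym (nI (R.b i) : ℤ) p := fun i y hy he =>
    ((h1 p 2 A B P V f hS e hE (R.b i) (hb i) y hy he).2.2 rfl).2
  have hA : ∀ i, kkJ p R kk 1 i * ∑ j ∈ Finset.range p, (jacobiSym (j : ℤ) p : ℂ) *
      PhiI (R.b i) e ∞ ((x + (j : ℚ) / p : ℚ) : OnePoint ℚ) =
      kkJ p R kk 1 i * (G * PhiI (R.b i) e ∞ (x : OnePoint ℚ)) := by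
    intro i
    by_cases hi : jacobiSym (1 * (nI (R.b i) : ℤ)) p = 1
    · rw [one_mul] at hi
      have h4 := (h2 p hS.pp hp2 A B hS.cq (R.b i) _ e (hb i) hg hE
        (jacobiSym (nI (R.b i) : ℤ) p) (by rw [hi]; exact one_ne_zero) (hq i) x).1
      rw [h4, hi, Int.cast_one, one_mul]
    · unfold kkJ
      rw [if_neg hi, zero_mul, zero_mul]
  have hB : ∀ i, kkJ p R kk (-1) i * ∑ j ∈ Finset.range p, (jacobiSym (j : ℤ) p : ℂ) *
      PhiI (R.b i) e ∞ ((-x - (j : ℚ) / p : ℚ) : OnePoint ℚ) =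
      kkJ p R kk (-1) i * (G * PhiI (R.b i) e ∞ ((-x : ℚ) : OnePoint ℚ)) := by
    intro i
    by_cases hi : jacobiSym (-1 * (nI (R.b i) : ℤ)) p = 1
    · rw [jacobiSym.mul_left] at hi
      have ht : jacobiSym (nI (R.b i) : ℤ) p ≠ 0 := by
        intro h
        rw [h, mul_zero] at hi
        exact zero_ne_one hi
      have h4 := (h2 p hS.pp hp2 A B hS.cq (R.b i) _ e (hb i) hg hE
        (jacobiSym (nI (R.b i) : ℤ) p) ht (hq i) (-x)).2
      have h5 : (jacobiSym (-1) p : ℂ) * (jacobiSym (nI (R.b i) : ℤ) p : ℂ) = 1 := by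
        exact_mod_cast hi
      rw [h4, h5, one_mul]
    · unfold kkJ
      rw [if_neg hi, zero_mul, zero_mul]
  unfold QR PhiK
  simp only [REL.mob_neg, REL.mob_inf]
  have e1 : ∀ j : ℕ, ((-(x + (j : ℚ) / p) : ℚ) : OnePoint ℚ) =
      ((-x - (j : ℚ) / p : ℚ) : OnePoint ℚ) := by
    intro j
    congr 1
    ring
  simp only [e1]
  have hA' : ∑ j ∈ Finset.range p, (jacobiSym (j : ℤ) p : ℂ) *
      ∑ i, kkJ p R kk 1 i * PhiI (R.b i) e ∞ ((x + (j : ℚ) / p : ℚ) : OnePoint ℚ) =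
      G * ∑ i, kkJ p R kk 1 i * PhiI (R.b i) e ∞ (x : OnePoint ℚ) := by
    simp only [Finset.mul_sum]
    rw [Finset.sum_comm]
    refine Finset.sum_congr rfl fun i _ => ?_
    have h5 := hA i
    rw [Finset.mul_sum] at h5
    rw [show G * (kkJ p R kk 1 i * PhiI (R.b i) e ∞ (x : OnePoint ℚ)) =
      kkJ p R kk 1 i * (G * PhiI (R.b i) e ∞ (x : OnePoint ℚ)) by ring, ← h5]
    refine Finset.sum_congr rfl fun j _ => ?_
    ring
  have hB' : ∑ j ∈ Finset.range p, (jacobiSym (j : ℤ) p : ℂ) *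
      ∑ i, kkJ p R kk (-1) i * PhiI (R.b i) e ∞ ((-x - (j : ℚ) / p : ℚ) : OnePoint ℚ) =
      G * ∑ i, kkJ p R kk (-1) i * PhiI (R.b i) e ∞ ((-x : ℚ) : OnePoint ℚ) := by
    simp only [Finset.mul_sum]
    rw [Finset.sum_comm]
    refine Finset.sum_congr rfl fun i _ => ?_
    have h5 := hB i
    rw [Finset.mul_sum] at h5
    rw [show G * (kkJ p R kk (-1) i * PhiI (R.b i) e ∞ ((-x : ℚ) : OnePoint ℚ)) =
      kkJ p R kk (-1) i * (G * PhiI (R.b i) e ∞ ((-x : ℚ) : OnePoint ℚ)) by ring, ← h5]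
    refine Finset.sum_congr rfl fun j _ => ?_
    ring
  have e2 : ∀ j : ℕ, (jacobiSym (j : ℤ) p : ℂ) *
      ((∑ i, kkJ p R kk 1 i * PhiI (R.b i) e ∞ ((x + (j : ℚ) / p : ℚ) : OnePoint ℚ) +
        s * ∑ i, kkJ p R kk (-1) i * PhiI (R.b i) e ∞ ((-x - (j : ℚ) / p : ℚ) : OnePoint ℚ)) /
          (u * R.om R.i0)) =
      (1 / (u * R.om R.i0)) * ((jacobiSym (j : ℤ) p : ℂ) *
        ∑ i, kkJ p R kk 1 i * PhiI (R.b i) e ∞ ((x + (j : ℚ) / p : ℚ) : OnePoint ℚ)) +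
      (s / (u * R.om R.i0)) * ((jacobiSym (j : ℤ) p : ℂ) *
        ∑ i, kkJ p R kk (-1) i * PhiI (R.b i) e ∞ ((-x - (j : ℚ) / p : ℚ) : OnePoint ℚ)) := by
    intro j
    ring
  simp only [e2]
  rw [Finset.sum_add_distrib, ← Finset.mul_sum, ← Finset.mul_sum, hA', hB']
  ring

end

end Pool.Agent.OBH
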