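import Pool.Agent.OB.StHB
import Pool.Agent.MUX.XTF7
import Pool.Agent.MUX.YAll
import Pool.Agent.MUX.HY_SYM

/-!
# OB, block H, bridge: SAF (helper28)

`PhiK/(u om_0)` is a symbol with algebraic values in a finitely generated group; from `hypN` in `NS/H_Hfin.lean` (helper6).
-/

set_option autoImplicit false

namespace Pool.Agent.OBH

open _root_.MU3 _root_.Pool.Agent.MU3A _root_.Pool.Agent.MU3B _root_.Pool.Agent.MU3F _root_.Pool.Agent.MUX
  _root_.Pool.Agent.MUXH _root_.Pool.Agent.MUXHY _root_.Pool.Agent.MuSym _root_.Pool.Agent.OB OnePoint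

noncomputable section

theorem SAF.sum_alg {ι : Type} (S : Finset ι) (F : ι → ℂ) (h : ∀ c ∈ S, IsAlgebraic ℚ (F c)) :
    IsAlgebraic ℚ (∑ c ∈ S, F c) := by
  rw [← mem_algebraicClosure_iff]
  exact sum_mem fun c hc => mem_algebraicClosure_iff.2 (h c hc)

/-- (SAF) -/
theorem to_SAF (h : So_VAL) : So_SAF := by
  intro p er A B P V f hS hT ι _ R e he r hr0 her kk hkk u hu hua
  obtain ⟨-, -, -, -, D0, -, gb, gt, hpf, hN, hNne, -, -, -⟩ := h p er A B P V f hS
  have hcq : CQ A B := hS.cq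
  have hp0 : 0 < p := hS.pp.pos
  have hf0 : 0 < f := Nat.pos_of_ne_zero hS.f0
  have hcop : ∀ i, IsCoprime (MUX.sp ((MUX.nI (R.b i) : ℕ) : OO A B))
      (idl (A := A) (B := B) (p * f)) :=
    MUXY.y_COP A B (p * f) ι R _ 1 (by rw [pow_one]; exact hpf)
  refine ⟨?_, ?_, ?_⟩
  · have h1 : ∀ c, IsSym (p ^ (er + 1) * N0O p er A B f) (nuX e) (PhiI (R.b c) e) := fun c =>
      MUXT.sym_EI (toCQ hcq) (R.b c) (R.nl c).b_ne _ e (toEI he) (p * f) (Nat.mul_pos hp0 hf0)
        hpf _ (mul_ne_zero (pow_ne_zero _ hp0.ne') hNne) (by rw [hN])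
    exact Sym.isSym_lin h1 kk (u * R.om R.i0)
  · intro x y
    have hka : ∀ c, IsAlgebraic ℚ (kk c) := fun c => by
      rcases hkk c with h0 | h1
      · rw [h0]
        exact isAlgebraic_zero
      · exact IsAlgebraic.of_pow (Nat.pos_of_ne_zero hr0) (by rw [h1]; exact isAlgebraic_one)
    have h1 := fun c =>
      (MUXY.y_ALP A B hcq hT (p * f) ι inferInstance R _ e gb gt he hcop r hr0 her c x y).2
    have e1 : PhiK R e kk x y / (u * R.om R.i0) =
        (∑ c, kk c * (PhiI (R.b c) e x y / R.om R.i0)) * u⁻¹ := by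
      unfold PhiK
      rw [mul_comm u, ← div_div, Finset.sum_div, div_eq_mul_inv]
      congr 1
      refine Finset.sum_congr rfl fun c _ => ?_
      ring
    rw [e1]
    exact (SAF.sum_alg _ _ fun c _ => (hka c).mul (h1 c)).mul hua.inv
  · classical
    have h1 := fun c => MUXT.fg_EI A B (toCQ hcq) (R.b c) _ e (R.nl c).b_ne gb (toEI he)
    choose S hS' using h1
    set Z : ℂ := u * R.om R.i0 with hZ
    refine ⟨Finset.univ.biUnion fun c => (S c).image fun t => kk c / Z * t, fun x y => ?_⟩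
    have e1 : PhiK R e kk x y / Z = ∑ c, kk c / Z * PhiI (R.b c) e x y := by
      unfold PhiK
      rw [Finset.sum_div]
      refine Finset.sum_congr rfl fun c _ => ?_
      ring
    rw [e1]
    refine sum_mem fun c _ => ?_
    have h2 := hS' c x y
    have h3 : AddMonoidHom.mulLeft (kk c / Z) (PhiI (R.b c) e x y) ∈
        (AddSubgroup.closure (S c : Set ℂ)).map (AddMonoidHom.mulLeft (kk c / Z)) :=
      AddSubgroup.mem_map_of_mem _ h2
    rw [AddMonoidHom.map_closure] at h3
    refine AddSubgroup.closure_mono ?_ h3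
    rintro _ ⟨t, ht, rfl⟩
    simp only [Finset.coe_biUnion, Set.mem_iUnion]
    exact ⟨c, by simp, Finset.mem_coe.2 (Finset.mem_image.2 ⟨t, ht, rfl⟩)⟩

end

end Pool.Agent.OBH
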