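import Pool.Agent.OB.StHB
import Pool.Agent.MUX.N_FK
import Pool.Agent.MU3.BAll

/-!
# OB, block H, bridge (helper53): (UAL) the scaling factor `u` of a lattice in Legendre form is algebraic. Model: `NS/G_Leg.lean`
-/

set_option autoImplicit false

namespace Pool.Agent.OBH.UAL

open _root_.MU3 _root_.Pool.Agent.MU3A _root_.Pool.Agent.MU3B _root_.Pool.Agent.MUX
  _root_.Pool.Agent.MUXN _root_.Pool.Agent.NS _root_.Pool.Agent.OB

noncomputable section

variable {A B : ℤ}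

/-- the cubic of a lattice in Legendre form -/
theorem cub {V : ValuationSubring ℂ} {L : PeriodPair} {u e lam : ℂ} (h : GoodL V L u e lam)
    (X : ℂ) : 4 * X ^ 3 - L.g₂ * X - L.g₃ = 4 * (X - e) * (X - e - u ^ 2) * (X - e - lam * u ^ 2) := by
  obtain ⟨y, hy⟩ := IsAlgClosed.exists_pow_nat_eq (4 * X ^ 3 - L.g₂ * X - L.g₃) (n := 2) (by norm_num)
  obtain ⟨z, hz, hX, hY⟩ := (b_DSC L).2 X y hy
  have h1 := h.eq z hz
  rw [hX, hY] at h1
  have hu := h.u0
  have hu2 : u ^ 6 ≠ 0 := pow_ne_zero _ hu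
  have h2 : y ^ 2 = 4 * (X - e) * (X - e - u ^ 2) * (X - e - lam * u ^ 2) := by
    field_simp at h1
    linear_combination h1
  rw [← h2, hy]

/-- elements which are algebraic over `k` are algebraic -/
theorem alg_of (hc : CQ A B) {x : ℂ} (h : IsAlgebraic (kk A B) x) : IsAlgebraic ℚ x := by
  have h1 : Algebra.IsAlgebraic ℚ (kk A B) := FK.isAlgebraic_kk hc
  exact h.restrictScalars ℚ

theorem kap_alg (hc : CQ A B) (hT : TorX A B) {b : Ideal (OO A B)} {L : PeriodPair} {om : ℂ}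
    (hL : IsNL b L om) : IsAlgebraic ℚ (kap L) := by
  have hm : (⊤ : Ideal (OO A B)) ≠ ⊥ := by
    intro h
    have h1 : (1 : OO A B) ∈ (⊥ : Ideal (OO A B)) := by rw [← h]; trivial
    rw [Ideal.mem_bot] at h1
    have h2 := congrArg QuadraticAlgebra.re h1
    rw [QuadraticAlgebra.re_one, QuadraticAlgebra.re_zero] at h2
    exact one_ne_zero h2
  have hf := hT.fin ⊤ hm
  have hmem : kap L ∈ RF (⊤ : Ideal (OO A B)) :=
    IntermediateField.subset_adjoin _ _ ⟨b, L, om, hL, Or.inl rfl⟩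
  have h1 : IsAlgebraic (kk A B) (⟨kap L, hmem⟩ : RF (⊤ : Ideal (OO A B))) :=
    Algebra.IsAlgebraic.isAlgebraic _
  exact alg_of hc (h1.algebraMap (A := ℂ))

theorem root_alg {g2 g3 x : ℂ} (h2 : IsAlgebraic ℚ g2) (h3 : IsAlgebraic ℚ g3)
    (h : 4 * x ^ 3 - g2 * x - g3 = 0) : IsAlgebraic ℚ x := by
  have h4 : IsAlgebraic (algebraicClosure ℚ ℂ) x := by
    refine ⟨Polynomial.C 4 * Polynomial.X ^ 3 - Polynomial.C ⟨g2, mem_algebraicClosure_iff.2 h2⟩ * Polynomial.X -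
      Polynomial.C ⟨g3, mem_algebraicClosure_iff.2 h3⟩, ?_, ?_⟩
    · intro h0
      have := congrArg (fun P => Polynomial.coeff P 3) h0
      simp [Polynomial.coeff_C, Polynomial.coeff_X] at this
    · simp only [map_sub, map_mul, Polynomial.aeval_C, Polynomial.aeval_X, map_pow]
      exact h
  have h5 : Algebra.IsAlgebraic ℚ (algebraicClosure ℚ ℂ) := algebraicClosure.isAlgebraic ℚ ℂ
  exact @IsAlgebraic.restrictScalars ℚ (algebraicClosure ℚ ℂ) ℂ _ _ _ _ _ _ _ _ h5 x h4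

theorem leg_alg (hc : CQ A B) (hT : TorX A B) {b : Ideal (OO A B)} {L : PeriodPair} {om : ℂ}
    (hL : IsNL b L om) {V : ValuationSubring ℂ} {u e lam : ℂ} (h : GoodL V L u e lam) :
    IsAlgebraic ℚ u := by
  have hk := kap_alg hc hT hL
  have hq : ∀ q : ℚ, IsAlgebraic ℚ (q : ℂ) := fun q => isAlgebraic_algebraMap (A := ℂ) q
  have h2 : IsAlgebraic ℚ L.g₂ := by
    have e1 : L.g₂ = ((144 : ℚ) : ℂ) * kap L + ((1 / 12 : ℚ) : ℂ) := by
      unfold kap
      push_cast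
      ring
    rw [e1]
    exact ((hq _).mul hk).add (hq _)
  have h3 : IsAlgebraic ℚ L.g₃ := by
    have e1 : L.g₃ = ((-(1 / 18) : ℚ) : ℂ) * L.g₂ := by
      rw [hL.nrm]
      push_cast
      ring
    rw [e1]
    exact (hq _).mul h2
  have k1 : IsAlgebraic ℚ e := root_alg h2 h3 (by rw [cub h e]; ring)
  have k2 : IsAlgebraic ℚ (e + u ^ 2) := root_alg h2 h3 (by rw [cub h (e + u ^ 2)]; ring)
  have k4 : IsAlgebraic ℚ (u ^ 2) := by
    have : u ^ 2 = (e + u ^ 2) - e := by ring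
    rw [this]
    exact k2.sub k1
  exact IsAlgebraic.of_pow (by norm_num) k4

end

end Pool.Agent.OBH.UAL

namespace Pool.Agent.OBH

open _root_.MU3 _root_.Pool.Agent.MU3A _root_.Pool.Agent.MU3B _root_.Pool.Agent.MUX
  _root_.Pool.Agent.OB

theorem to_UAL : So_UAL := by
  intro A B hc hT n ι R V u el lam h
  exact UAL.leg_alg hc hT (R.nl R.i0) h

end Pool.Agent.OBH
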