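import Pool.Agent.OB.StHB

/-!
# OB, block H, bridge: elementary facts (helper77)
-/

set_option autoImplicit false

namespace Pool.Agent.OBH

open _root_.MU3 _root_.Pool.Agent.MU3A _root_.Pool.Agent.MU3B _root_.Pool.Agent.MU3F _root_.Pool.Agent.MUX
  _root_.Pool.Agent.MUXH _root_.Pool.Agent.MUXHY _root_.Pool.Agent.MuSym _root_.Pool.Agent.OB OnePoint

noncomputable section

theorem to_VAL (hram : So_RAM) : So_VAL := by
  intro p er A B P V f H
  have hp := H.pp
  have hp5 := H.p5
  have hpZ : Prime (p : ℤ) := Nat.prime_iff_prime_int.1 hp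
  have hf0 := H.f0
  have h3 : V.valuation (p : ℂ) < 1 := by
    have h1 : emb ((p : ℕ) : OO A B) ∈ V.nonunits := (H.hV _).2 H.mem
    have h2 : emb ((p : ℕ) : OO A B) = (p : ℂ) := by
      unfold emb
      rw [QuadraticAlgebra.re_natCast, QuadraticAlgebra.im_natCast]
      push_cast
      ring
    rw [h2, ValuationSubring.mem_nonunits_iff] at h1
    exact h1
  have hle : ∀ z : ℤ, V.valuation (z : ℂ) ≤ 1 := fun z =>
    (V.valuation_le_one_iff _).2 (intCast_mem V z)
  have hD0 : 0 < absD A B := by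
    have := H.cq.neg
    unfold absD
    omega
  have h3f : ((p * f : ℕ) : OO A B) ∈ idl (A := A) (B := B) (p * f) :=
    Ideal.mem_span_singleton_self _
  have hDn : (((absD A B).toNat : ℕ) : ℤ) = absD A B := Int.toNat_of_nonneg hD0.le
  obtain ⟨-, hr1, hr2⟩ := hram p er A B P V H.toCaseO
  -- the number `N0O`
  have hN : ((p ^ (er + 1) * N0O p er A B f : ℕ) : ℤ) = absD A B * ((p * f : ℕ) : ℤ) ^ 2 ∧
      N0O p er A B f ≠ 0 ∧ Nat.Coprime p (N0O p er A B f) ∧
      absD A B ∣ ((p * N0O p er A B f : ℕ) : ℤ) ∧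
      ((p * f : ℕ) : ℤ) ∣ ((p * N0O p er A B f : ℕ) : ℤ) := by
    rcases H.ram with ⟨he, -⟩ | ⟨he, -⟩
    · subst he
      have hpD : ¬ (p : ℤ) ∣ absD A B := hr1 rfl
      have hN0 : N0O p 1 A B f = (absD A B).toNat * f ^ 2 := by
        unfold N0O
        simp
      rw [hN0]
      refine ⟨?_, ?_, ?_, ?_, ?_⟩
      · push_cast
        rw [hDn]
        ring
      · have h1 : (absD A B).toNat ≠ 0 := by omega
        exact Nat.mul_ne_zero h1 (pow_ne_zero _ hf0)
      · rw [Nat.Prime.coprime_iff_not_dvd hp]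
        intro h
        rcases (Nat.Prime.dvd_mul hp).1 h with h | h
        · apply hpD
          rw [← hDn]
          exact_mod_cast h
        · exact H.fp (hp.dvd_of_dvd_pow h)
      · refine ⟨(p : ℤ) * (f : ℤ) ^ 2, ?_⟩
        push_cast
        rw [hDn]
        ring
      · refine ⟨absD A B * (f : ℤ), ?_⟩
        push_cast
        rw [hDn]
        ring
    · subst he
      obtain ⟨-, hpD, hp2D⟩ := hr2 rfl
      have hpn : p ∣ (absD A B).toNat := by
        have : ((p : ℕ) : ℤ) ∣ (((absD A B).toNat : ℕ) : ℤ) := by rw [hDn]; exact hpD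
        exact_mod_cast this
      obtain ⟨d, hd⟩ := hpn
      have hdiv : (absD A B).toNat / p ^ (2 - 1) = d := by
        rw [hd]
        norm_num
        exact Nat.mul_div_cancel_left d hp.pos
      have hN0 : N0O p 2 A B f = d * f ^ 2 := by
        unfold N0O
        rw [hdiv]
      have hDd : absD A B = (p : ℤ) * (d : ℤ) := by
        rw [← hDn, hd]
        push_cast
        rfl
      have hd0 : d ≠ 0 := by
        rintro rfl
        rw [hDd] at hD0
        simp at hD0
      rw [hN0]
      refine ⟨?_, ?_, ?_, ?_, ?_⟩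
      · push_cast
        rw [hDd]
        ring
      · exact Nat.mul_ne_zero hd0 (pow_ne_zero _ hf0)
      · rw [Nat.Prime.coprime_iff_not_dvd hp]
        intro h
        rcases (Nat.Prime.dvd_mul hp).1 h with h | h
        · apply hp2D
          rw [hDd, pow_two]
          exact mul_dvd_mul_left _ (by exact_mod_cast h)
        · exact H.fp (hp.dvd_of_dvd_pow h)
      · refine ⟨(f : ℤ) ^ 2, ?_⟩
        push_cast
        rw [hDd]
        ring
      · refine ⟨(d : ℤ) * (f : ℤ), ?_⟩
        push_cast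
        ring
  refine ⟨h3, hle, ?_, ?_, hD0, ?_, ?_, ?_, h3f, hN⟩
  · intro n hn
    have hc : IsCoprime n (p : ℤ) := by
      rw [isCoprime_comm]
      exact (hpZ.coprime_iff_not_dvd).2 hn
    obtain ⟨a, b, hab⟩ := hc
    by_contra hne
    have hlt : V.valuation (n : ℂ) < 1 := lt_of_le_of_ne (hle n) hne
    have h1 : V.valuation ((a : ℂ) * n + b * (p : ℂ)) < 1 := by
      refine lt_of_le_of_lt (V.valuation.map_add _ _) (max_lt ?_ ?_)
      · rw [map_mul]
        exact mul_lt_one_of_nonneg_of_lt_one_right (hle a) zero_le hlt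
      · rw [map_mul]
        exact mul_lt_one_of_nonneg_of_lt_one_right (hle b) zero_le h3
    have h2 : (a : ℂ) * n + b * (p : ℂ) = 1 := by exact_mod_cast hab
    rw [h2, map_one] at h1
    exact lt_irrefl _ h1
  · intro r z hr hz
    have h1 : V.valuation z ^ r = 1 := by rw [← map_pow, hz, map_one]
    exact (pow_eq_one_iff_of_nonneg zero_le hr).1 h1
  · rw [Ideal.span_singleton_le_iff_mem, Ideal.mem_span_singleton]
    obtain ⟨t, ht⟩ := H.fD
    refine ⟨((2 * t : ℤ) : OO A B), ?_⟩
    have h1 : ((p * f : ℕ) : OO A B) = ((((p * f : ℕ) : ℤ) : ℤ) : OO A B) := by push_cast; rfl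
    rw [h1, ht]
    push_cast
    ring
  · intro h
    rw [h, Ideal.mem_bot] at h3f
    have h1 := congrArg QuadraticAlgebra.re h3f
    simp only [QuadraticAlgebra.re_natCast, QuadraticAlgebra.re_zero] at h1
    have h2 : (p * f : ℕ) = 0 := by exact_mod_cast h1
    rcases Nat.mul_eq_zero.1 h2 with h | h
    · exact hp.ne_zero h
    · exact hf0 h
  · intro h
    rw [Ideal.eq_top_iff_one, Ideal.mem_span_singleton] at h
    obtain ⟨y, hy⟩ := h
    have h1 := congrArg QuadraticAlgebra.re hy
    rw [QuadraticAlgebra.re_one, QuadraticAlgebra.re_mul, QuadraticAlgebra.re_natCast,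
      QuadraticAlgebra.im_natCast, mul_zero, zero_mul, add_zero] at h1
    have h9 : ((p * f : ℕ) : ℤ) ∣ 1 := ⟨y.re, h1⟩
    have h10 : (p * f : ℕ) ∣ 1 := by exact_mod_cast h9
    have h11 := Nat.dvd_one.1 h10
    have h12 : p ∣ 1 := ⟨f, h11.symm⟩
    have h13 := Nat.le_of_dvd one_pos h12
    omega

end

end Pool.Agent.OBH
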