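import Pool.Agent.OB.StHN
import Pool.Agent.MUX.HX_MAX
import Pool.Agent.MUX.HX_ALB

/-!
# OB, block H, module BDN: bounded denominators for every prime (helper87; model `MUX/HN_BDN.lean` of helper76)
-/

set_option autoImplicit false

namespace Pool.Agent.OBH

open _root_.MU3 Pool.Agent.MuSym Pool.Agent.MUXH OnePoint

noncomputable section

/-- BDN. -/
theorem to_BDN : So_BDN := by
  intro p hp V hv P halg hfin
  obtain ⟨T, hT⟩ := hfin
  obtain ⟨⟨l, ⟨x0, y0, rfl⟩, hmax⟩, -⟩ := tx_MAX V T {z | ∃ x y, P x y = z} (by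
      rintro _ ⟨x, y, rfl⟩
      exact hT x y) ⟨_, ∞, ∞, rfl⟩
  obtain ⟨k, hk⟩ := tx_ALB p hp V hv _ (halg x0 y0)
  refine ⟨k, fun x y => ?_⟩
  refine le_trans ?_ hk
  rw [map_mul, map_mul]
  exact mul_le_mul_right (hmax _ ⟨x, y, rfl⟩) _

end

end Pool.Agent.OBH
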