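import Pool.Agent.OB.StHN
import Pool.Agent.MUX.HX_HZ

/-!
# OB, block H, module DVN (helper19)

The character sums of a depleted function with values of one type, every odd prime `p`: `to_DVN : So_DVN`. After
`Pool/Agent/MUX/HN_DVN.lean`.
-/

set_option autoImplicit false

namespace Pool.Agent.OBH

open _root_.MU3 Pool.Agent.MuSym Pool.Agent.MUXH OnePoint

noncomputable section

namespace DVN

/-- summation by parts -/
theorem abel (z : ℂ) (w : ℕ → ℂ) (m : ℕ) :
    ∑ k ∈ Finset.range (m + 1), z ^ k * w k =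
      (1 - z) * ∑ k ∈ Finset.range m, z ^ k * (∑ l ∈ Finset.range (k + 1), w l) +
        z ^ m * ∑ l ∈ Finset.range (m + 1), w l := by
  induction m with
  | zero => simp
  | succ m ih =>
    rw [Finset.sum_range_succ, ih,
      Finset.sum_range_succ (fun k => z ^ k * ∑ l ∈ Finset.range (k + 1), w l) m,
      Finset.sum_range_succ w (m + 1)]
    ring

/-- a sum over `range (m q)` as a double sum -/
theorem split (q m : ℕ) (f : ℕ → ℂ) :
    ∑ b ∈ Finset.range (m * q), f b =
      ∑ b ∈ Finset.range q, ∑ k ∈ Finset.range m, f (k * q + b) := by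
  induction m with
  | zero => simp
  | succ m ih =>
    rw [Nat.succ_mul, Finset.sum_range_add, ih, ← Finset.sum_add_distrib]
    exact Finset.sum_congr rfl fun b _ => (Finset.sum_range_succ _ _).symm

/-- the sums of the first terms -/
def ps (q : ℕ) (W : ℕ → ℂ) (b : ℕ) : ℂ := ∑ l ∈ Finset.range (b / q + 1), W (l * q + b % q)

theorem ps_eq (q : ℕ) (W : ℕ → ℂ) (b k : ℕ) (hb : b < q) :
    ps q W (k * q + b) = ∑ l ∈ Finset.range (k + 1), W (l * q + b) := by
  have hq : 0 < q := by omega
  have h1 : (k * q + b) / q = k := by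
    rw [mul_comm, Nat.mul_add_div hq, Nat.div_eq_of_lt hb, add_zero]
  have h2 : (k * q + b) % q = b := by
    rw [mul_comm, Nat.mul_add_mod, Nat.mod_eq_of_lt hb]
  unfold ps
  rw [h1, h2]

/-- the sum of a depleted function against the powers of `ζ` -/
theorem sum_dep (p q : ℕ) (hp : 1 ≤ p) (ζ : ℂ) (W : ℕ → ℂ)
    (hW : ∀ b < q, ∑ k ∈ Finset.range p, W (k * q + b) = 0) :
    ∑ b ∈ Finset.range (p * q), ζ ^ b * W b =
      (1 - ζ ^ q) * ∑ b ∈ Finset.range ((p - 1) * q), ζ ^ b * ps q W b := by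
  obtain ⟨m, rfl⟩ : ∃ m, p = m + 1 := ⟨p - 1, by omega⟩
  rw [Nat.add_sub_cancel, split, split, Finset.mul_sum]
  refine Finset.sum_congr rfl fun b hb => ?_
  have hb' := Finset.mem_range.1 hb
  have h1 := abel (ζ ^ q) (fun k => W (k * q + b)) m
  rw [hW b hb', mul_zero, add_zero] at h1
  have h2 : ∑ k ∈ Finset.range (m + 1), ζ ^ (k * q + b) * W (k * q + b) =
      ζ ^ b * ∑ k ∈ Finset.range (m + 1), (ζ ^ q) ^ k * W (k * q + b) := by
    rw [Finset.mul_sum]
    refine Finset.sum_congr rfl fun k _ => ?_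
    rw [pow_add, mul_comm k q, pow_mul]
    ring
  have h3 : ∑ k ∈ Finset.range m, ζ ^ (k * q + b) * ps q W (k * q + b) =
      ζ ^ b * ∑ k ∈ Finset.range m, (ζ ^ q) ^ k *
        ∑ l ∈ Finset.range (k + 1), W (l * q + b) := by
    rw [Finset.mul_sum]
    refine Finset.sum_congr rfl fun k _ => ?_
    rw [ps_eq q W b k hb', pow_add, mul_comm k q, pow_mul]
    ring
  rw [h2, h3, h1]
  ring

end DVN

open DVN Hz in
theorem to_DVN : So_DVN := by
  intro p hp hp2 V hV K hK n y hper hdep hyK b₀ hb₀ ζ hζ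
  have hp3 : 3 ≤ p := by have := hp.two_le; omega
  set q := p ^ n with hq
  have hqpos : 0 < q := pow_pos hp.pos n
  have hpq : 0 < p * q := Nat.mul_pos hp.pos hqpos
  have hN : p ^ (n + 1) = p * q := by rw [pow_succ, mul_comm]
  have hppos : (0 : V.ValueGroup) < V.valuation (p : ℂ) :=
    lt_of_le_of_ne zero_le
      ((Valuation.ne_zero_iff _).2 (by exact_mod_cast hp.ne_zero)).symm
  -- the maximal value
  obtain ⟨bs, hbs, hmax⟩ := Finset.exists_max_image (Finset.range (p * q))
    (fun b : ℕ => V.valuation (y b)) ⟨0, Finset.mem_range.2 hpq⟩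
  have hge : V.valuation (y b₀) ≤ V.valuation (y bs) := by
    have hpos : (0 : ℤ) < (p : ℤ) ^ (n + 1) := pow_pos (by exact_mod_cast hp.pos) _
    have h0 := Int.emod_nonneg b₀ hpos.ne'
    have h1 := Int.emod_lt_of_pos b₀ hpos
    have h2 : y b₀ = y (((b₀ % (p : ℤ) ^ (n + 1)).toNat : ℕ) : ℤ) := by
      rw [Int.toNat_of_nonneg h0]
      refine hper _ _ ?_
      have := Int.emod_add_mul_ediv b₀ ((p : ℤ) ^ (n + 1))
      exact ⟨b₀ / (p : ℤ) ^ (n + 1), by linarith⟩
    rw [h2]
    refine hmax _ (Finset.mem_range.2 ?_)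
    have h3 : (((b₀ % (p : ℤ) ^ (n + 1)).toNat : ℕ) : ℤ) < ((p * q : ℕ) : ℤ) := by
      rw [Int.toNat_of_nonneg h0, ← hN]
      push_cast
      exact h1
    exact_mod_cast h3
  have hbs2 : 1 ≤ V.valuation (y bs) ^ (p - 1) * V.valuation (p : ℂ) :=
    hb₀.trans (mul_le_mul_left (pow_le_pow_left₀ zero_le hge (p - 1)) _)
  have hys0 : y bs ≠ 0 := by
    intro h
    rw [h, map_zero, zero_pow (by omega), zero_mul] at hbs2
    exact absurd hbs2 (not_le.2 zero_lt_one)
  have hvs0 : (0 : V.ValueGroup) < V.valuation (y bs) :=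
    lt_of_le_of_ne zero_le ((Valuation.ne_zero_iff _).2 hys0).symm
  set W : ℕ → ℂ := fun b => y b / y bs with hWdef
  have hWK : ∀ b, W b ∈ K := fun b => hyK b bs hys0
  have hW1 : ∀ b < p * q, V.valuation (W b) ≤ 1 := by
    intro b hb
    have := hmax b (Finset.mem_range.2 hb)
    simp only [hWdef, map_div₀]
    exact div_le_one_of_le₀ this zero_le
  have hWdep : ∀ b < q, ∑ k ∈ Finset.range p, W (k * q + b) = 0 := by
    intro b _
    have h1 := hdep b
    simp only [hWdef]
    rw [← Finset.sum_div]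
    refine div_eq_zero_iff.2 (Or.inl ?_)
    rw [← h1]
    refine Finset.sum_congr rfl fun k _ => ?_
    congr 1
    push_cast [hq]
    ring
  set W' : ℕ → ℂ := ps q W with hW'def
  have hW'K : ∀ b, W' b ∈ K := fun b => sum_mem fun l _ => hWK _
  have hW'1 : ∀ b < p * q, V.valuation (W' b) ≤ 1 := by
    intro b hb
    refine Valuation.map_sum_le _ fun l hl => hW1 _ ?_
    have h1 := Finset.mem_range.1 hl
    have h2 : l * q + b % q ≤ b := by
      calc l * q + b % q ≤ (b / q) * q + b % q := by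
            have : l * q ≤ (b / q) * q := Nat.mul_le_mul_right q (by omega)
            omega
        _ = b := Nat.div_add_mod' b q
    omega
  -- the value of `W'` on the last block
  have hlast : ∀ b < p * q, (p - 1) * q ≤ b → W' b = 0 := by
    intro b hb hb2
    have h1 : b / q = p - 1 := by
      apply Nat.div_eq_of_lt_le hb2
      have : (p - 1 + 1) * q = p * q := by congr 1; omega
      omega
    show ps q W b = 0
    unfold ps
    rw [h1, Nat.sub_add_cancel (by omega)]
    exact hWdep _ (Nat.mod_lt _ hqpos)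
  have hrec : ∀ b, q ≤ b → W b = W' b - W' (b - q) := by
    intro b hb
    show W b = ps q W b - ps q W (b - q)
    unfold ps
    have h1 : (b - q) / q + 1 = b / q := (Nat.div_eq_sub_div hqpos hb).symm
    have h2 : (b - q) % q = b % q := by
      rw [← Nat.mod_eq_sub_mod hb]
    rw [h1, h2, Finset.sum_range_succ, Nat.div_add_mod' b q]
    ring
  have hrec0 : ∀ b < q, W b = W' b := by
    intro b hb
    show W b = ps q W b
    unfold ps
    rw [Nat.div_eq_of_lt hb, Nat.mod_eq_of_lt hb]
    simp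
  -- some value of `W'` is a unit
  have hex0 : ∃ b < (p - 1) * q, V.valuation (W' b) = 1 := by
    by_contra hcon
    have hlt : ∀ b < p * q, V.valuation (W' b) < 1 := by
      intro b hb
      rcases lt_or_ge b ((p - 1) * q) with h | h
      · exact lt_of_le_of_ne (hW'1 b hb) fun h1 => hcon ⟨b, h, h1⟩
      · rw [hlast b hb h, map_zero]
        exact zero_lt_one
    have hbs' := Finset.mem_range.1 hbs
    have h1 : V.valuation (W bs) < 1 := by
      rcases lt_or_ge bs q with h | h
      · rw [hrec0 bs h]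
        exact hlt bs hbs'
      · rw [hrec bs h]
        exact lt_of_le_of_lt (Valuation.map_sub _ _ _)
          (max_lt (hlt bs hbs') (hlt (bs - q) (by omega)))
    have h2 : W bs = 1 := div_self hys0
    rw [h2, map_one] at h1
    exact lt_irrefl _ h1
  have hble : ∀ b, b < (p - 1) * q → b < p * q := fun b hb =>
    lt_of_lt_of_le hb (Nat.mul_le_mul_right q (Nat.sub_le p 1))
  set c : ℕ → ℂ := fun k => ∑ b ∈ Finset.range ((p - 1) * q), ((b.choose k : ℕ) : ℂ) * W' b with hc
  have hcK : ∀ k, c k ∈ K := fun k =>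
    sum_mem fun b _ => mul_mem (natCast_mem K _) (hW'K _)
  have hc1 : ∀ k, V.valuation (c k) ≤ 1 := fun k =>
    Valuation.map_sum_le _ fun b hb => by
      rw [map_mul]
      exact mul_le_one' (val_nat V _) (hW'1 _ (hble _ (Finset.mem_range.1 hb)))
  have hex1 : ∃ k, k < (p - 1) * q ∧ V.valuation (c k) = 1 := by
    by_contra hcon
    have hlt : ∀ k < (p - 1) * q, V.valuation (c k) < 1 := fun k hk =>
      lt_of_le_of_ne (hc1 k) fun h => hcon ⟨k, hk, h⟩
    obtain ⟨b₁, hb₁, hb₁v⟩ := hex0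
    have h1 := newton ((p - 1) * q) W' (fun b => if b = b₁ then 1 else 0)
    have h2 : ∑ b ∈ Finset.range ((p - 1) * q), (((if b = b₁ then 1 else 0 : ℤ)) : ℂ) * W' b
        = W' b₁ := by
      rw [Finset.sum_eq_single b₁]
      · simp
      · intro b _ hb
        rw [if_neg hb]
        simp
      · intro h
        exact absurd (Finset.mem_range.2 hb₁) h
    rw [h2] at h1
    have h3 : V.valuation (W' b₁) < 1 := by
      rw [h1]
      refine Valuation.map_sum_lt _ one_ne_zero fun k hk => ?_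
      rw [map_mul]
      exact lt_of_le_of_lt (mul_le_of_le_one_left' (val_int V _))
        (hlt k (Finset.mem_range.1 hk))
    exact absurd hb₁v h3.ne
  classical
  obtain ⟨hk₀, hk₁⟩ := Nat.find_spec hex1
  set k₀ := Nat.find hex1 with hk₀def
  have hmin : ∀ k < k₀, V.valuation (c k) ≤ V.valuation (p : ℂ) := by
    intro k hk
    refine hK _ (hcK k) (lt_of_le_of_ne (hc1 k) fun h => ?_)
    exact Nat.find_min hex1 hk ⟨lt_trans hk hk₀, h⟩
  -- the valuation of `ζ - 1`
  have hx : V.valuation (ζ - 1) ^ ((p - 1) * q) = V.valuation (p : ℂ) := by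
    have := val_p p hp V n ζ hζ
    rwa [show p ^ n * (p - 1) = (p - 1) * q by rw [hq, mul_comm]] at this
  set x := V.valuation (ζ - 1) with hxdef
  have hx0 : 0 < x := by
    refine lt_of_le_of_ne zero_le fun h => ?_
    rw [← h, zero_pow (Nat.mul_pos (by omega) hqpos).ne'] at hx
    exact hppos.ne hx
  have hx1 : x < 1 := by
    by_contra h
    have h1 : 1 ≤ x := not_lt.1 h
    have : 1 ≤ x ^ ((p - 1) * q) := one_le_pow₀ h1
    rw [hx] at this
    exact absurd this (not_le.2 hV)
  have hval : V.valuation (∑ b ∈ Finset.range ((p - 1) * q), ζ ^ b * W' b) = x ^ k₀ := by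
    rw [shift_pow ((p - 1) * q) W' ζ]
    have hk₀N : k₀ ∈ Finset.range ((p - 1) * q) := Finset.mem_range.2 hk₀
    rw [← Finset.add_sum_erase _ _ hk₀N]
    have ha : V.valuation ((ζ - 1) ^ k₀ * c k₀) = x ^ k₀ := by
      rw [map_mul, map_pow, hk₁, mul_one]
    have hb : V.valuation (∑ k ∈ (Finset.range ((p - 1) * q)).erase k₀, (ζ - 1) ^ k * c k)
        < x ^ k₀ := by
      refine Valuation.map_sum_lt _ (pow_pos hx0 k₀).ne' fun k hk => ?_
      have hne := Finset.ne_of_mem_erase hk
      rw [map_mul, map_pow]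
      rcases lt_or_gt_of_ne hne with hlt | hgt
      · refine lt_of_le_of_lt (mul_le_of_le_one_left' (pow_le_one' hx1.le k)) ?_
        refine lt_of_le_of_lt (hmin k hlt) ?_
        rw [← hx]
        exact pow_lt_pow_right_of_lt_one₀ hx0 hx1 hk₀
      · refine lt_of_le_of_lt (mul_le_of_le_one_right' (hc1 k)) ?_
        exact pow_lt_pow_right_of_lt_one₀ hx0 hx1 hgt
    have := Valuation.map_add_eq_of_lt_left V.valuation (x := (ζ - 1) ^ k₀ * c k₀)
      (y := ∑ k ∈ (Finset.range ((p - 1) * q)).erase k₀, (ζ - 1) ^ k * c k) (by rw [ha]; exact hb)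
    rw [this, ha]
  -- the valuation of `1 - ζ^q`
  have hω : V.valuation (1 - ζ ^ q) ^ (p - 1) = V.valuation (p : ℂ) := by
    have h1 : IsPrimitiveRoot (ζ ^ q) p := by
      refine hζ.pow (pow_pos hp.pos _) ?_
      rw [hN, mul_comm]
    have h2 := val_p p hp V 0 (ζ ^ q) (by simpa using h1)
    rw [← neg_sub, Valuation.map_neg]
    simpa using h2
  -- the end
  have hsum : ∑ b ∈ Finset.range (p ^ (n + 1)), ζ ^ b * y b =
      y bs * ((1 - ζ ^ q) * ∑ b ∈ Finset.range ((p - 1) * q), ζ ^ b * W' b) := by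
    rw [← sum_dep p q (by omega) ζ W hWdep, Finset.mul_sum, hN]
    refine Finset.sum_congr rfl fun b _ => ?_
    simp only [hWdef]
    field_simp
  rw [hsum, map_mul, map_mul, hval, ← mul_assoc]
  have h1 : 1 ≤ V.valuation (y bs) * V.valuation (1 - ζ ^ q) := by
    have h2 : 1 ≤ (V.valuation (y bs) * V.valuation (1 - ζ ^ q)) ^ (p - 1) := by
      rw [mul_pow, hω]
      exact hbs2
    by_contra h
    exact absurd h2 (not_le.2 (pow_lt_one₀ zero_le (not_le.1 h) (by omega)))
  have h2 : V.valuation (p : ℂ) < x ^ k₀ := by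
    rw [← hx]
    exact pow_lt_pow_right_of_lt_one₀ hx0 hx1 hk₀
  exact lt_of_lt_of_le h2 (le_mul_of_one_le_left' h1)

end

end Pool.Agent.OBH
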