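import Pool.Agent.OB.StHN
import Pool.Agent.MUX.HX_HZ

/-!
# OB, block H, module DVR (helper92)

The character sums of a function which is killed by a factor of degree `(p - 1)/2` of `X^p - 1`: `to_DVR : So_DVR`.
-/

set_option autoImplicit false

namespace Pool.Agent.OBH

open _root_.MU3 Pool.Agent.MuSym Pool.Agent.MUXH OnePoint

noncomputable section

namespace DVR

/-- a polynomial which vanishes at all `N`-th roots of unity is divisible by `X^N - 1` -/
theorem dvd_of_eval (N : ℕ) (hN : 0 < N) (ζ : ℂ) (hζ : IsPrimitiveRoot ζ N) (P : Polynomial ℂ)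
    (h : ∀ ω : ℂ, ω ^ N = 1 → P.eval ω = 0) : (Polynomial.X ^ N - 1 : Polynomial ℂ) ∣ P := by
  rw [Polynomial.X_pow_sub_one_eq_prod hN hζ]
  refine Finset.prod_dvd_of_coprime ?_ ?_
  · intro a _ b _ hab
    exact Polynomial.pairwise_coprime_X_sub_C Function.injective_id hab
  · intro ω hω
    rw [Polynomial.dvd_iff_isRoot]
    exact h ω ((Polynomial.mem_nthRootsFinset hN _).1 hω)

/-- the sum of a periodic function against the powers of a root of unity, shifted -/
theorem sum_shift (N : ℕ) (hN : 0 < N) (y : ℤ → ℂ) (hy : ∀ b c : ℤ, (N : ℤ) ∣ b - c → y b = y c)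
    (ω : ℂ) (hω : ω ^ N = 1) (c : ℕ) :
    ∑ b ∈ Finset.range N, ω ^ b * y ((b : ℤ) - c) =
      ω ^ c * ∑ b ∈ Finset.range N, ω ^ b * y b := by
  induction c with
  | zero => simp
  | succ c ih =>
    rw [pow_succ', mul_assoc, ← ih]
    obtain ⟨M, rfl⟩ : ∃ M, N = M + 1 := ⟨N - 1, by omega⟩
    rw [Finset.sum_range_succ', Finset.sum_range_succ _ M, mul_add, Finset.mul_sum]
    refine congrArg₂ (· + ·) ?_ ?_
    · refine Finset.sum_congr rfl fun b _ => ?_
      rw [pow_succ']
      have : (((b + 1 : ℕ) : ℤ) - ((c + 1 : ℕ) : ℤ)) = (b : ℤ) - c := by push_cast; ring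
      rw [this]
      ring
    · rw [pow_zero, one_mul, ← mul_assoc, ← pow_succ', hω, one_mul]
      refine hy _ _ ?_
      refine ⟨-1, ?_⟩
      push_cast
      ring

/-- a quotient by a monic polynomial with coefficients in a subring -/
theorem coeff_mem (S : Subring ℂ) (w G w' : Polynomial ℂ) (hG : G.Monic)
    (hw : ∀ l, w.coeff l ∈ S) (hGS : ∀ l, G.coeff l ∈ S) (h : w = G * w') (l : ℕ) :
    w'.coeff l ∈ S := by
  have h1 : w ∈ Polynomial.lifts S.subtype := by
    rw [Polynomial.lifts_iff_coeff_lifts]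
    intro k
    exact ⟨⟨w.coeff k, hw k⟩, rfl⟩
  have h2 : G ∈ Polynomial.lifts S.subtype := by
    rw [Polynomial.lifts_iff_coeff_lifts]
    intro k
    exact ⟨⟨G.coeff k, hGS k⟩, rfl⟩
  obtain ⟨w₁, hw₁⟩ := (Polynomial.mem_lifts _).1 h1
  obtain ⟨G₁, hG₁, _, hG₁m⟩ := Polynomial.lifts_and_natDegree_eq_and_monic h2 hG
  have h3 : w' = w /ₘ G := by
    rw [h, Polynomial.mul_divByMonic_cancel_left _ hG]
  rw [h3, ← hw₁, ← hG₁, ← Polynomial.map_divByMonic _ hG₁m, Polynomial.coeff_map]
  exact ((w₁ /ₘ G₁).coeff l).2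

/-- a monic factor of `X^p - 1` has coefficients in `V` -/
theorem coeff_V (V : ValuationSubring ℂ) (p : ℕ) (hp : p ≠ 0) (F H : Polynomial ℂ) (hH : H.Monic)
    (h : F * H = Polynomial.X ^ p - 1) (l : ℕ) : H.coeff l ∈ V := by
  have h1 : H ∣ (Polynomial.X ^ p - 1 : Polynomial V).map (algebraMap V ℂ) := by
    refine ⟨F, ?_⟩
    rw [Polynomial.map_sub, Polynomial.map_pow, Polynomial.map_X, Polynomial.map_one, ← h, mul_comm]
  have h2 : (Polynomial.X ^ p - 1 : Polynomial V).Monic := Polynomial.monic_X_pow_sub_C 1 hp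
  obtain ⟨g, hg⟩ := IsIntegrallyClosed.eq_map_mul_C_of_dvd ℂ h2 h1
  rw [hH.leadingCoeff, Polynomial.C_1, mul_one] at hg
  rw [← hg, Polynomial.coeff_map]
  exact (g.coeff l).2

/-- the value of `H` at a root of `F` -/
theorem val_H (V : ValuationSubring ℂ) (p : ℕ) (hp : p.Prime) (F H : Polynomial ℂ) (hH : H.Monic)
    (h : F * H = Polynomial.X ^ p - 1) (z : ℂ) (hz : z ^ p = 1) (hF : F.eval z = 0)
    (t : V.ValueGroup) (ht : t ^ (p - 1) = V.valuation (p : ℂ)) :
    V.valuation (H.eval z) = t ^ H.natDegree := by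
  have : Fact (Nat.Prime p) := ⟨hp⟩
  have hp1 : p - 1 ≠ 0 := by
    have := hp.two_le
    omega
  have hz0 : z ≠ 0 := by
    intro h0
    rw [h0, zero_pow hp.ne_zero] at hz
    exact zero_ne_one hz
  -- `z` is not a root of `H`
  have hHz : H.eval z ≠ 0 := by
    intro h0
    have h1 := congrArg (fun P => (Polynomial.derivative P).eval z) h
    simp only [Polynomial.derivative_mul, Polynomial.eval_add, Polynomial.eval_mul, h0, hF,
      mul_zero, zero_mul, add_zero, Polynomial.derivative_sub, Polynomial.derivative_X_pow,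
      Polynomial.derivative_one, sub_zero, Polynomial.eval_pow, Polynomial.eval_X,
      Polynomial.eval_C] at h1
    exact mul_ne_zero (by exact_mod_cast hp.ne_zero) (pow_ne_zero _ hz0) h1.symm
  have hs : H = (H.roots.map fun a => Polynomial.X - Polynomial.C a).prod :=
    (IsAlgClosed.splits H).eq_prod_roots_of_monic hH
  have hcard : H.natDegree = Multiset.card H.roots :=
    (IsAlgClosed.splits H).natDegree_eq_card_roots
  have h1 : H.eval z = (H.roots.map fun a => z - a).prod := by
    conv_lhs => rw [hs]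
    rw [Polynomial.eval_multiset_prod, Multiset.map_map]
    simp
  rw [h1, map_multiset_prod, Multiset.map_map, hcard]
  have h2 : ∀ ρ ∈ H.roots, V.valuation (z - ρ) = t := by
    intro ρ hρ
    have h3 : H.eval ρ = 0 := (Polynomial.mem_roots'.1 hρ).2
    have h4 : ρ ^ p = 1 := by
      have := congrArg (fun P => P.eval ρ) h
      simp only [Polynomial.eval_mul, h3, mul_zero, Polynomial.eval_sub, Polynomial.eval_pow,
        Polynomial.eval_X, Polynomial.eval_one] at this
      linear_combination -this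
    have h5 : ρ ≠ 0 := by
      intro h0
      rw [h0, zero_pow hp.ne_zero] at h4
      exact zero_ne_one h4
    have h6 : z / ρ ≠ 1 := by
      intro h0
      rw [div_eq_one_iff_eq h5] at h0
      exact hHz (h0 ▸ h3)
    have h7 : (z / ρ) ^ p = 1 := by rw [div_pow, hz, h4, div_one]
    have h8 : IsPrimitiveRoot (z / ρ) p := by
      rw [← orderOf_eq_prime h7 h6]
      exact IsPrimitiveRoot.orderOf _
    have h9 := Hz.val_p p hp V 0 (z / ρ) (by simpa using h8)
    rw [pow_zero, one_mul, ← ht] at h9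
    have h10 := (pow_left_inj₀ zero_le zero_le hp1).1 h9
    have h11 : z - ρ = ρ * (z / ρ - 1) := by field_simp
    rw [h11, map_mul, Hz.val_root V p hp.ne_zero ρ h4, one_mul, h10]
  have h12 : Multiset.map (⇑V.valuation ∘ fun a => z - a) H.roots =
      Multiset.map (fun _ => t) H.roots := Multiset.map_congr rfl fun ρ hρ => h2 ρ hρ
  rw [h12, Multiset.map_const', Multiset.prod_replicate]

end DVR

open DVR Hz in
theorem to_DVR : So_DVR := by
  intro p hp hp2 V hV K hK n y hper F H hFm hHm hFK hHK hdeg hFH hrel hyK b₀ hb₀ ζ hζ hFζ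
  set q := p ^ n with hq
  have hqpos : 0 < q := pow_pos hp.pos n
  have hN : p ^ (n + 1) = p * q := by rw [pow_succ]; ring
  have hNpos : 0 < p * q := Nat.mul_pos hp.pos hqpos
  set d := F.natDegree with hd
  have hdpos : 0 < d := by
    have := hp.two_le
    omega
  have hp1 : p - 1 ≠ 0 := by omega
  have hppos : (0 : V.ValueGroup) < V.valuation (p : ℂ) :=
    lt_of_le_of_ne zero_le
      ((Valuation.ne_zero_iff _).2 (by exact_mod_cast hp.ne_zero)).symm
  -- the maximal value
  obtain ⟨bs, hbs, hmax⟩ := Finset.exists_max_image (Finset.range (p * q))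
    (fun b : ℕ => V.valuation (y b)) ⟨0, Finset.mem_range.2 hNpos⟩
  have hge : V.valuation (y b₀) ≤ V.valuation (y bs) := by
    have hpos : (0 : ℤ) < (p : ℤ) ^ (n + 1) := pow_pos (by exact_mod_cast hp.pos) _
    have h0 := Int.emod_nonneg b₀ hpos.ne'
    have h1 := Int.emod_lt_of_pos b₀ hpos
    have h2 : y b₀ = y (((b₀ % (p : ℤ) ^ (n + 1)).toNat : ℕ) : ℤ) := by
      rw [Int.toNat_of_nonneg h0]
      refine hper _ _ ?_
      have := Int.emod_add_mul_ediv b₀ ((p : ℤ) ^ (n + 1))
      exact ⟨b₀ / (p : ℤ) ^ (n + 1), by linarith⟩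
    rw [h2]
    refine hmax _ (Finset.mem_range.2 ?_)
    have h3 : (((b₀ % (p : ℤ) ^ (n + 1)).toNat : ℕ) : ℤ) < ((p * q : ℕ) : ℤ) := by
      rw [Int.toNat_of_nonneg h0, ← hN]
      push_cast
      exact h1
    exact_mod_cast h3
  have hbs2 : 1 ≤ V.valuation (y bs) ^ (p - 1) * V.valuation (p : ℂ) :=
    hb₀.trans (mul_le_mul_left (pow_le_pow_left₀ zero_le hge (p - 1)) _)
  have hys0 : y bs ≠ 0 := by
    intro h
    rw [h, map_zero, zero_pow hp1, zero_mul] at hbs2
    exact absurd hbs2 (not_le.2 zero_lt_one)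
  have hvs0 : (0 : V.ValueGroup) < V.valuation (y bs) :=
    lt_of_le_of_ne zero_le ((Valuation.ne_zero_iff _).2 hys0).symm
  set W : ℕ → ℂ := fun b => y b / y bs with hWdef
  have hWK : ∀ b, W b ∈ K := fun b => hyK b bs hys0
  have hW1 : ∀ b < p * q, V.valuation (W b) ≤ 1 := by
    intro b hb
    have := hmax b (Finset.mem_range.2 hb)
    simp only [hWdef, map_div₀]
    exact div_le_one_of_le₀ this zero_le
  have hWs : W bs = 1 := div_self hys0
  -- the polynomial
  set w : Polynomial ℂ := ∑ b ∈ Finset.range (p * q), Polynomial.C (W b) * Polynomial.X ^ b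
    with hwdef
  have hwc : ∀ l, w.coeff l = if l < p * q then W l else 0 := by
    intro l
    simp only [hwdef, Polynomial.finsetSum_coeff, Polynomial.coeff_C_mul_X_pow]
    rw [Finset.sum_ite_eq]
    simp only [Finset.mem_range]
  have hwe : ∀ ω : ℂ, w.eval ω = (∑ b ∈ Finset.range (p * q), ω ^ b * y b) / y bs := by
    intro ω
    simp only [hwdef, Polynomial.eval_finsetSum, Polynomial.eval_mul, Polynomial.eval_C,
      Polynomial.eval_pow, Polynomial.eval_X]
    rw [Finset.sum_div]
    refine Finset.sum_congr rfl fun b _ => ?_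
    simp only [hWdef]
    ring
  have hexF : Polynomial.expand ℂ q F * Polynomial.expand ℂ q H =
      Polynomial.X ^ (p * q) - 1 := by
    rw [← map_mul, hFH, map_sub, map_pow, Polynomial.expand_X, map_one, ← pow_mul, mul_comm q p]
  have hper' : ∀ b c : ℤ, ((p * q : ℕ) : ℤ) ∣ b - c → y b = y c := by
    intro b c hbc
    refine hper b c ?_
    rw [← hN] at hbc
    exact_mod_cast hbc
  have hdvd : (Polynomial.X ^ (p * q) - 1 : Polynomial ℂ) ∣ Polynomial.expand ℂ q F * w := by
    refine dvd_of_eval (p * q) hNpos ζ (hN ▸ hζ) _ fun ω hω => ?_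
    rw [Polynomial.eval_mul, Polynomial.expand_eval, hwe, mul_div_assoc', div_eq_zero_iff]
    left
    have hFlt : F.natDegree < p := by omega
    rw [Polynomial.eval_eq_sum_range' hFlt, Finset.sum_mul]
    have h1 : ∀ l ∈ Finset.range p, F.coeff l * (ω ^ q) ^ l *
        (∑ b ∈ Finset.range (p * q), ω ^ b * y b) =
        ∑ b ∈ Finset.range (p * q), ω ^ b * (F.coeff l * y ((b : ℤ) - l * (p : ℤ) ^ n)) := by
      intro l _
      have h2 := sum_shift (p * q) hNpos y hper' ω hω (l * q)
      rw [mul_assoc, ← pow_mul, mul_comm q l, ← h2, Finset.mul_sum]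
      refine Finset.sum_congr rfl fun b _ => ?_
      have : ((l * q : ℕ) : ℤ) = (l : ℤ) * (p : ℤ) ^ n := by push_cast [hq]; ring
      rw [this]
      ring
    rw [Finset.sum_congr rfl h1, Finset.sum_comm]
    refine Finset.sum_eq_zero fun b _ => ?_
    rw [← Finset.mul_sum, hrel, mul_zero]
  have hFe0 : Polynomial.expand ℂ q F ≠ 0 := (hFm.expand hqpos).ne_zero
  have hHe : (Polynomial.expand ℂ q H).Monic := hHm.expand hqpos
  rw [← hexF] at hdvd
  obtain ⟨w', hw'⟩ := (mul_dvd_mul_iff_left hFe0).1 hdvd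
  -- coefficients
  have hHV : ∀ l, (Polynomial.expand ℂ q H).coeff l ∈ V := by
    intro l
    rw [Polynomial.coeff_expand hqpos]
    split_ifs
    · exact coeff_V V p hp.ne_zero F H hHm hFH _
    · exact zero_mem V
  have hHK' : ∀ l, (Polynomial.expand ℂ q H).coeff l ∈ K := by
    intro l
    rw [Polynomial.coeff_expand hqpos]
    split_ifs
    · exact hHK _
    · exact zero_mem K
  have hw'V : ∀ l, V.valuation (w'.coeff l) ≤ 1 := by
    intro l
    rw [V.valuation_le_one_iff]
    refine coeff_mem V.toSubring w _ w' hHe (fun k => ?_) hHV hw' l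
    rw [hwc]
    split_ifs with hk
    · exact (V.valuation_le_one_iff _).1 (hW1 k hk)
    · exact zero_mem V.toSubring
  have hw'K : ∀ l, w'.coeff l ∈ K := by
    intro l
    refine coeff_mem K.toSubring w _ w' hHe (fun k => ?_) hHK' hw' l
    rw [hwc]
    split_ifs with hk
    · exact hWK k
    · exact zero_mem K.toSubring
  -- some coefficient of `w'` is a unit
  have hbs' := Finset.mem_range.1 hbs
  have hex0 : ∃ b, V.valuation (w'.coeff b) = 1 := by
    by_contra hcon
    have hlt : ∀ b, V.valuation (w'.coeff b) < 1 := fun b =>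
      lt_of_le_of_ne (hw'V b) fun h => hcon ⟨b, h⟩
    have h1 : V.valuation (w.coeff bs) < 1 := by
      rw [hw', Polynomial.coeff_mul]
      refine Valuation.map_sum_lt _ one_ne_zero fun k _ => ?_
      rw [map_mul]
      exact lt_of_le_of_lt
        (mul_le_of_le_one_left' ((V.valuation_le_one_iff _).2 (hHV _))) (hlt _)
    rw [hwc, if_pos hbs', hWs, map_one] at h1
    exact lt_irrefl _ h1
  -- degrees
  have hdH : H.natDegree = d + 1 := by
    have h1 := congrArg Polynomial.natDegree hFH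
    rw [hFm.natDegree_mul hHm, ← Polynomial.C_1, Polynomial.natDegree_X_pow_sub_C] at h1
    omega
  have hw0 : w ≠ 0 := by
    intro h
    have h1 := hwc bs
    rw [h, Polynomial.coeff_zero, if_pos hbs', hWs] at h1
    exact zero_ne_one h1
  have hw'0 : w' ≠ 0 := by
    intro h
    rw [h, mul_zero] at hw'
    exact hw0 hw'
  have hdw : w.natDegree < p * q := by
    by_contra hcon
    have h1 := hwc w.natDegree
    rw [if_neg hcon, Polynomial.coeff_natDegree, Polynomial.leadingCoeff_eq_zero] at h1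
    exact hw0 h1
  have hdw' : w'.natDegree < d * q := by
    have h1 : w.natDegree = (d + 1) * q + w'.natDegree := by
      rw [hw', hHe.natDegree_mul' hw'0, Polynomial.natDegree_expand, hdH]
    have h2 : p * q = (d + 1) * q + d * q := by
      rw [← hdeg]
      ring
    omega
  have hw'z : ∀ b, d * q ≤ b → w'.coeff b = 0 := fun b hb =>
    Polynomial.coeff_eq_zero_of_natDegree_lt (by omega)
  set c : ℕ → ℂ := fun k => ∑ b ∈ Finset.range (d * q), ((b.choose k : ℕ) : ℂ) * w'.coeff b
    with hc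
  have hcK : ∀ k, c k ∈ K := fun k =>
    sum_mem fun b _ => mul_mem (natCast_mem K _) (hw'K _)
  have hc1 : ∀ k, V.valuation (c k) ≤ 1 := fun k =>
    Valuation.map_sum_le _ fun b _ => by
      rw [map_mul]
      exact mul_le_one' (val_nat V _) (hw'V _)
  have hex1 : ∃ k, k < d * q ∧ V.valuation (c k) = 1 := by
    by_contra hcon
    have hlt : ∀ k < d * q, V.valuation (c k) < 1 := fun k hk =>
      lt_of_le_of_ne (hc1 k) fun h => hcon ⟨k, hk, h⟩
    obtain ⟨b₁, hb₁v⟩ := hex0
    have hb₁ : b₁ < d * q := by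
      by_contra h
      rw [hw'z b₁ (not_lt.1 h), map_zero] at hb₁v
      exact zero_ne_one hb₁v
    have h1 := newton (d * q) (fun b => w'.coeff b) (fun b => if b = b₁ then 1 else 0)
    have h2 : ∑ b ∈ Finset.range (d * q), (((if b = b₁ then 1 else 0 : ℤ)) : ℂ) * w'.coeff b
        = w'.coeff b₁ := by
      rw [Finset.sum_eq_single b₁]
      · simp
      · intro b _ hb
        rw [if_neg hb]
        simp
      · intro h
        exact absurd (Finset.mem_range.2 hb₁) h
    rw [h2] at h1
    have h3 : V.valuation (w'.coeff b₁) < 1 := by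
      rw [h1]
      refine Valuation.map_sum_lt _ one_ne_zero fun k hk => ?_
      rw [map_mul]
      exact lt_of_le_of_lt (mul_le_of_le_one_left' (val_int V _))
        (hlt k (Finset.mem_range.1 hk))
    exact absurd hb₁v h3.ne
  classical
  obtain ⟨hk₀, hk₁⟩ := Nat.find_spec hex1
  set k₀ := Nat.find hex1 with hk₀def
  have hmin : ∀ k < k₀, V.valuation (c k) ^ 2 ≤ V.valuation (p : ℂ) := by
    intro k hk
    refine hK _ (hcK k) (lt_of_le_of_ne (hc1 k) fun h => ?_)
    exact Nat.find_min hex1 hk ⟨lt_trans hk hk₀, h⟩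
  -- the valuation of `ζ - 1`
  have hx : V.valuation (ζ - 1) ^ (q * (p - 1)) = V.valuation (p : ℂ) := val_p p hp V n ζ hζ
  set x := V.valuation (ζ - 1) with hxdef
  have hqp : q * (p - 1) ≠ 0 := Nat.mul_ne_zero hqpos.ne' hp1
  have hx0 : 0 < x := by
    refine lt_of_le_of_ne zero_le fun h => ?_
    rw [← h, zero_pow hqp] at hx
    exact hppos.ne hx
  have hx1 : x < 1 := by
    by_contra h
    have h1 : 1 ≤ x := not_lt.1 h
    have : 1 ≤ x ^ (q * (p - 1)) := one_le_pow₀ h1
    rw [hx] at this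
    exact absurd this (not_le.2 hV)
  have hqd : q * (p - 1) = (d * q) * 2 := by
    have : p - 1 = 2 * d := by omega
    rw [this]
    ring
  have hval : V.valuation (w'.eval ζ) = x ^ k₀ := by
    rw [Polynomial.eval_eq_sum_range' hdw']
    have h0 : ∑ b ∈ Finset.range (d * q), w'.coeff b * ζ ^ b =
        ∑ b ∈ Finset.range (d * q), ζ ^ b * w'.coeff b :=
      Finset.sum_congr rfl fun b _ => mul_comm _ _
    rw [h0, shift_pow (d * q) (fun b => w'.coeff b) ζ]
    have hk₀N : k₀ ∈ Finset.range (d * q) := Finset.mem_range.2 hk₀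
    rw [← Finset.add_sum_erase _ _ hk₀N]
    have ha : V.valuation ((ζ - 1) ^ k₀ * c k₀) = x ^ k₀ := by
      rw [map_mul, map_pow, hk₁, mul_one]
    have hb : V.valuation (∑ k ∈ (Finset.range (d * q)).erase k₀, (ζ - 1) ^ k * c k)
        < x ^ k₀ := by
      refine Valuation.map_sum_lt _ (pow_pos hx0 k₀).ne' fun k hk => ?_
      have hne := Finset.ne_of_mem_erase hk
      rw [map_mul, map_pow]
      rcases lt_or_gt_of_ne hne with hlt | hgt
      · refine lt_of_le_of_lt (mul_le_of_le_one_left' (pow_le_one' hx1.le k)) ?_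
        have h1 := hmin k hlt
        rw [← hx, hqd, pow_mul] at h1
        have h2 : V.valuation (c k) ≤ x ^ (d * q) :=
          (pow_le_pow_iff_left₀ zero_le zero_le two_ne_zero).1 h1
        exact lt_of_le_of_lt h2 (pow_lt_pow_right_of_lt_one₀ hx0 hx1 hk₀)
      · refine lt_of_le_of_lt (mul_le_of_le_one_right' (hc1 k)) ?_
        exact pow_lt_pow_right_of_lt_one₀ hx0 hx1 hgt
    have := Valuation.map_add_eq_of_lt_left V.valuation (x := (ζ - 1) ^ k₀ * c k₀)
      (y := ∑ k ∈ (Finset.range (d * q)).erase k₀, (ζ - 1) ^ k * c k) (by rw [ha]; exact hb)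
    rw [this, ha]
  -- the valuation of `H (ζ^q)`
  have hHval : V.valuation (H.eval (ζ ^ q)) = (x ^ q) ^ (d + 1) := by
    rw [← hdH]
    refine val_H V p hp F H hHm hFH (ζ ^ q) ?_ hFζ (x ^ q) ?_
    · rw [← pow_mul, mul_comm q p, ← hN]
      exact hζ.pow_eq_one
    · rw [← pow_mul, hx]
  -- the end
  have hsum : ∑ b ∈ Finset.range (p ^ (n + 1)), ζ ^ b * y b =
      y bs * (H.eval (ζ ^ q) * w'.eval ζ) := by
    have h1 := hwe ζ
    rw [hw', Polynomial.eval_mul, Polynomial.expand_eval] at h1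
    rw [h1, hN]
    field_simp
  rw [hsum, map_mul, map_mul, hval, hHval]
  have h1 : 1 ≤ V.valuation (y bs) * x ^ q := by
    have h2 : 1 ≤ (V.valuation (y bs) * x ^ q) ^ (p - 1) := by
      rw [mul_pow, ← pow_mul, hx]
      exact hbs2
    by_contra h
    exact absurd h2 (not_le.2 (pow_lt_one₀ zero_le (not_le.1 h) hp1))
  have h2 : (V.valuation (y bs) * x ^ q) * V.valuation (p : ℂ) <
      V.valuation (y bs) * ((x ^ q) ^ (d + 1) * x ^ k₀) := by
    have e1 : (V.valuation (y bs) * x ^ q) * V.valuation (p : ℂ) =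
        V.valuation (y bs) * ((x ^ q) ^ (d + 1) * x ^ (d * q)) := by
      rw [← hx, hqd]
      have : x ^ (d * q * 2) = x ^ (d * q) * x ^ (d * q) := by rw [pow_mul, pow_two]
      rw [this, pow_succ, ← pow_mul, mul_comm q d]
      ac_rfl
    rw [e1]
    refine mul_lt_mul_of_pos_left ?_ hvs0
    refine mul_lt_mul_of_pos_left ?_ (pow_pos (pow_pos hx0 _) _)
    exact pow_lt_pow_right_of_lt_one₀ hx0 hx1 hk₀
  exact lt_of_le_of_lt (le_mul_of_one_le_left' h1) h2

end

end Pool.Agent.OBH
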