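import Pool.Agent.OB.StHN

/-!
# (FAC) the factorisation of `X^p - 1` over a field which contains the quadratic Gauss sum
-/

set_option autoImplicit false

namespace Pool.Agent.OBH

namespace FAC

open Finset Polynomial

/-- elementary symmetric functions lie in a subfield if the power sums do -/
theorem esymm_mem {ι : Type} [Fintype ι] (x : ι → ℂ) (K : Subfield ℂ)
    (h : ∀ k : ℕ, ∑ i, x i ^ k ∈ K) (n : ℕ) :
    MvPolynomial.aeval x (MvPolynomial.esymm ι ℂ n) ∈ K := by
  classical
  induction n using Nat.strong_induction_on with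
  | _ n ih =>
    rcases Nat.eq_zero_or_pos n with h0 | h0
    · subst h0
      simp [MvPolynomial.esymm_zero, K.one_mem]
    · have h1 := congrArg (MvPolynomial.aeval x) (MvPolynomial.mul_esymm_eq_sum ι ℂ n)
      simp only [map_mul, map_sum, map_pow, map_neg, map_one, map_natCast] at h1
      have h2 : (n : ℂ) ≠ 0 := by exact_mod_cast h0.ne'
      have h3 : (n : ℂ) * MvPolynomial.aeval x (MvPolynomial.esymm ι ℂ n) ∈ K := by
        rw [h1]
        refine K.mul_mem (K.pow_mem (K.neg_mem K.one_mem) _) (K.sum_mem fun a ha => ?_)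
        simp only [Finset.mem_filter] at ha
        refine K.mul_mem (K.mul_mem (K.pow_mem (K.neg_mem K.one_mem) _) (ih _ ha.2)) ?_
        have h4 : MvPolynomial.aeval x (MvPolynomial.psum ι ℂ a.2) = ∑ i, x i ^ a.2 := by
          simp [MvPolynomial.psum]
        rw [h4]
        exact h _
      have h5 : MvPolynomial.aeval x (MvPolynomial.esymm ι ℂ n) =
          (n : ℂ)⁻¹ * ((n : ℂ) * MvPolynomial.aeval x (MvPolynomial.esymm ι ℂ n)) := by
        field_simp
      rw [h5]
      exact K.mul_mem (K.inv_mem (natCast_mem K n)) h3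

/-- the coefficients of `∏ (X - x i)` lie in a subfield if the power sums do -/
theorem coeff_mem {ι : Type} [Fintype ι] (x : ι → ℂ) (K : Subfield ℂ)
    (h : ∀ k : ℕ, ∑ i, x i ^ k ∈ K) (l : ℕ) : (∏ i, (X - C (x i))).coeff l ∈ K := by
  classical
  have h1 : (∏ i, (X - C (x i))) = ((Finset.univ.val.map x).map fun t => X - C t).prod := by
    rw [Multiset.map_map]
    rfl
  rcases le_or_gt l (Fintype.card ι) with h2 | h2
  · have h3 : l ≤ Multiset.card (Finset.univ.val.map x) := by
      simpa using h2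
    rw [h1, Multiset.prod_X_sub_C_coeff _ h3]
    refine K.mul_mem (K.pow_mem (K.neg_mem K.one_mem) _) ?_
    rw [← MvPolynomial.aeval_esymm_eq_multiset_esymm ι ℂ]
    exact esymm_mem x K h _
  · rw [Polynomial.coeff_eq_zero_of_natDegree_lt]
    · exact K.zero_mem
    · rw [Polynomial.natDegree_prod_of_monic _ _ fun i _ => monic_X_sub_C _]
      simpa using h2

theorem sum_range_zmod (p : ℕ) [NeZero p] (g : ZMod p → ℂ) :
    ∑ j ∈ Finset.range p, g (j : ZMod p) = ∑ x : ZMod p, g x := by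
  refine Finset.sum_bij' (fun j _ => (j : ZMod p)) (fun x _ => x.val) ?_ ?_ ?_ ?_ ?_
  · intro a _; exact Finset.mem_univ _
  · intro a _; exact Finset.mem_range.2 (ZMod.val_lt a)
  · intro a ha; exact ZMod.val_cast_of_lt (Finset.mem_range.1 ha)
  · intro a _; exact ZMod.natCast_zmod_val a
  · intro a _; rfl

theorem gsum {p : ℕ} [Fact p.Prime] {χ : MulChar (ZMod p) ℂ} (h1 : χ ≠ 1) (h2 : χ.IsQuadratic)
    (ψ : AddChar (ZMod p) ℂ) (m : ZMod p) :
    ∑ x, χ x * ψ (m * x) = χ m * gaussSum χ ψ := by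
  by_cases hm : m = 0
  · subst hm
    have h3 : ∑ x, χ x = 0 := MulChar.sum_eq_zero_of_ne_one h1
    have h4 : χ (0 : ZMod p) = 0 := MulChar.map_zero χ
    simp only [zero_mul, AddChar.map_zero_eq_one, mul_one, h3, h4]
  · have h3 := gaussSum_mulShift χ ψ (Units.mk0 m hm)
    have h4 : χ m * χ m = 1 := by
      rw [← map_mul]
      rcases h2 m with h5 | h5 | h5
      · exfalso
        exact hm (by
          by_contra h6
          have h7 : IsUnit m := isUnit_iff_ne_zero.2 hm
          have h8 := h7.map χ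
          rw [h5] at h8
          exact not_isUnit_zero h8)
      · rw [map_mul, h5, mul_one]
      · rw [map_mul, h5]; norm_num
    have h5 : gaussSum χ (ψ.mulShift (Units.mk0 m hm : (ZMod p)ˣ)) = ∑ x, χ x * ψ (m * x) := by
      simp only [gaussSum, AddChar.mulShift_apply, Units.val_mk0]
    rw [h5, Units.val_mk0] at h3
    rw [← h3, ← mul_assoc, h4, one_mul]

/-- the main part, with the characters of `ZMod p` -/
theorem main {p : ℕ} [Fact p.Prime] {χ : MulChar (ZMod p) ℂ} (h1 : χ ≠ 1)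
    (h2 : χ.IsQuadratic) {ψ : AddChar (ZMod p) ℂ} (hψ : ψ.IsPrimitive) (K : Subfield ℂ)
    (hK : gaussSum χ ψ ∈ K) :
    ∃ F H : Polynomial ℂ, F.Monic ∧ H.Monic ∧ (∀ l, F.coeff l ∈ K) ∧ (∀ l, H.coeff l ∈ K) ∧
      2 * F.natDegree + 1 = p ∧ F * H = ∏ c : ZMod p, (X - C (ψ (-c))) ∧
      ∀ c, χ c = 1 → F.eval (ψ (-c)) = 0 := by
  classical
  have hz : χ (0 : ZMod p) = 0 := MulChar.map_zero χ
  have hne : ∀ c : ZMod p, c ≠ 0 → χ c ≠ 0 := fun c hc h5 => by
    have h8 := (isUnit_iff_ne_zero.2 hc).map χ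
    rw [h5] at h8
    exact not_isUnit_zero h8
  have hind : ∀ c : ZMod p, (if χ c = 1 then (1 : ℂ) else 0) =
      (1 + χ c - if c = 0 then 1 else 0) / 2 := by
    intro c
    by_cases hc : c = 0
    · subst hc; rw [hz]; simp
    · rcases h2 c with h5 | h5 | h5
      · exact absurd h5 (hne c hc)
      · rw [h5]; simp [hc]
      · rw [h5]; norm_num [hc]
  have hpow : ∀ (c : ZMod p) (k : ℕ), ψ (-c) ^ k = ψ ((-(k : ZMod p)) * c) := by
    intro c k
    rw [← AddChar.map_nsmul_eq_pow]
    congr 1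
    simp
  have hall : ∀ k : ℕ, ∑ c : ZMod p, ψ (-c) ^ k ∈ K := by
    intro k
    have h5 : ∑ c : ZMod p, ψ (-c) ^ k = ∑ c : ZMod p, ψ (c * (-(k : ZMod p))) :=
      Finset.sum_congr rfl fun c _ => by rw [hpow, mul_comm]
    rw [h5, AddChar.sum_mulShift _ hψ]
    exact natCast_mem K _
  have hone : ∀ k : ℕ, ∑ c : {c : ZMod p // χ c = 1}, ψ (-c.1) ^ k ∈ K := by
    intro k
    have h5 : ∑ c : {c : ZMod p // χ c = 1}, ψ (-c.1) ^ k =
        (∑ c : ZMod p, ψ (-c) ^ k + χ (-(k : ZMod p)) * gaussSum χ ψ - 1) / 2 := by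
      rw [← Finset.sum_subtype (Finset.univ.filter fun c : ZMod p => χ c = 1) (by simp)
        (fun c => ψ (-c) ^ k), Finset.sum_filter]
      have h6 : ∀ c : ZMod p, (if χ c = 1 then ψ (-c) ^ k else 0) =
          (ψ (-c) ^ k + χ c * ψ ((-(k : ZMod p)) * c) - (if c = 0 then 1 else 0)) / 2 := by
        intro c
        have h7 : (if χ c = 1 then ψ (-c) ^ k else 0) = (if χ c = 1 then (1 : ℂ) else 0) *
            ψ (-c) ^ k := by split_ifs <;> simp
        rw [h7, hind, ← hpow]
        by_cases hc : c = 0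
        · subst hc; simp
        · simp [hc]; ring
      rw [Finset.sum_congr rfl fun c _ => h6 c, ← Finset.sum_div, Finset.sum_sub_distrib,
        Finset.sum_add_distrib, gsum h1 h2]
      simp
    rw [h5]
    have h8 : χ (-(k : ZMod p)) ∈ K := by
      rcases h2 (-(k : ZMod p)) with h9 | h9 | h9 <;> rw [h9]
      · exact K.zero_mem
      · exact K.one_mem
      · exact K.neg_mem K.one_mem
    exact K.div_mem (K.sub_mem (K.add_mem (hall k) (K.mul_mem h8 hK)) K.one_mem)
      (by exact_mod_cast natCast_mem K 2)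
  have htwo : ∀ k : ℕ, ∑ c : {c : ZMod p // ¬ χ c = 1}, ψ (-c.1) ^ k ∈ K := by
    intro k
    have h5 := Fintype.sum_subtype_add_sum_subtype (fun c : ZMod p => χ c = 1)
      (fun c => ψ (-c) ^ k)
    have h6 : ∑ c : {c : ZMod p // ¬ χ c = 1}, ψ (-c.1) ^ k =
        ∑ c : ZMod p, ψ (-c) ^ k - ∑ c : {c : ZMod p // χ c = 1}, ψ (-c.1) ^ k := by
      rw [← h5]; ring
    rw [h6]
    exact K.sub_mem (hall k) (hone k)
  refine ⟨∏ c : {c : ZMod p // χ c = 1}, (X - C (ψ (-c.1))),
    ∏ c : {c : ZMod p // ¬ χ c = 1}, (X - C (ψ (-c.1))),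
    monic_prod_of_monic _ _ fun i _ => monic_X_sub_C _,
    monic_prod_of_monic _ _ fun i _ => monic_X_sub_C _,
    coeff_mem _ K hone, coeff_mem _ K htwo, ?_, ?_, ?_⟩
  · rw [Polynomial.natDegree_prod_of_monic _ _ fun i _ => monic_X_sub_C _]
    simp only [natDegree_X_sub_C, Finset.sum_const, smul_eq_mul, mul_one, Finset.card_univ]
    have h5 : ∑ c : ZMod p, (if χ c = 1 then (1 : ℂ) else 0) = ((p : ℂ) - 1) / 2 := by
      rw [Finset.sum_congr rfl fun c _ => hind c, ← Finset.sum_div, Finset.sum_sub_distrib,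
        Finset.sum_add_distrib, MulChar.sum_eq_zero_of_ne_one h1]
      simp [ZMod.card]
    have h6 : (Fintype.card {c : ZMod p // χ c = 1} : ℂ) = ((p : ℂ) - 1) / 2 := by
      rw [← h5, Fintype.card_subtype, Finset.card_filter]
      push_cast
      rfl
    have h7 : ((2 * Fintype.card {c : ZMod p // χ c = 1} + 1 : ℕ) : ℂ) = (p : ℂ) := by
      push_cast
      rw [h6]; ring
    exact_mod_cast h7
  · exact Fintype.prod_subtype_mul_prod_subtype (fun c : ZMod p => χ c = 1)
      (fun c => X - C (ψ (-c)))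
  · intro c hc
    rw [Polynomial.eval_prod]
    exact Finset.prod_eq_zero (Finset.mem_univ ⟨c, hc⟩) (by simp)

/-- the product over all `p`-th roots of unity -/
theorem prod_all {p : ℕ} [Fact p.Prime] {om : ℂ} (hom : IsPrimitiveRoot om p)
    (ψ : AddChar (ZMod p) ℂ) (hψ : ∀ a : ZMod p, ψ a = om ^ a.val) :
    ∏ c : ZMod p, (X - C (ψ (-c))) = (X : Polynomial ℂ) ^ p - 1 := by
  classical
  have hp : 0 < p := (Fact.out : p.Prime).pos
  rw [X_pow_sub_one_eq_prod hp hom]
  refine Finset.prod_bij (fun c _ => ψ (-c)) ?_ ?_ ?_ ?_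
  · intro c _
    rw [mem_nthRootsFinset hp, hψ, ← pow_mul, mul_comm, pow_mul, hom.pow_eq_one, one_pow]
  · intro a _ b _ hab
    rw [hψ, hψ] at hab
    have h1 := hom.pow_inj (ZMod.val_lt _) (ZMod.val_lt _) hab
    exact neg_injective (ZMod.val_injective p h1)
  · intro z hz
    rw [mem_nthRootsFinset hp] at hz
    obtain ⟨i, hi, h1⟩ := hom.eq_pow_of_pow_eq_one hz
    refine ⟨-(i : ZMod p), Finset.mem_univ _, ?_⟩
    rw [neg_neg, hψ, ZMod.val_cast_of_lt hi, h1]
  · intro a _; rfl

/-- the last part: the relation kills the Fourier coefficients outside the squares -/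
theorem last {p : ℕ} [Fact p.Prime] {χ : MulChar (ZMod p) ℂ} (h1 : χ ≠ 1) (h2 : χ.IsQuadratic)
    {ψ : AddChar (ZMod p) ℂ} (hψ : ψ.IsPrimitive) (F : Polynomial ℂ) (hF : F.natDegree < p)
    (hroot : ∀ c, χ c = 1 → F.eval (ψ (-c)) = 0) (f : ZMod p → ℂ)
    (hf : ∀ b, ∑ j, χ j * f (b + j) = gaussSum χ ψ * f b) (b : ZMod p) :
    ∑ l ∈ Finset.range p, F.coeff l * f (b - l) = 0 := by
  classical
  have hG : gaussSum χ ψ ≠ 0 := by
    intro h0
    have h3 := gaussSum_sq h1 h2 hψ
    rw [h0, ZMod.card] at h3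
    have h4 : χ (-1) ≠ 0 := fun h5 => by
      have h8 := (isUnit_one.neg : IsUnit (-1 : ZMod p)).map χ
      rw [h5] at h8
      exact not_isUnit_zero h8
    have h5 : ((p : ℕ) : ℂ) ≠ 0 := by exact_mod_cast (Fact.out : p.Prime).ne_zero
    exact mul_ne_zero h4 h5 (by rw [← h3]; simp)
  set a : ZMod p → ℂ := fun c => ∑ x, f x * ψ (-(x * c)) with ha
  have ha0 : ∀ c, χ c ≠ 1 → a c = 0 := by
    intro c hc
    have h3 : (χ c * gaussSum χ ψ) * a c = gaussSum χ ψ * a c := by
      calc (χ c * gaussSum χ ψ) * a c = ∑ j, (χ j * ψ (c * j)) * a c := by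
            rw [← gsum h1 h2, Finset.sum_mul]
        _ = ∑ j, ∑ x, χ j * ψ (c * j) * (f (x + j) * ψ (-((x + j) * c))) := by
            refine Finset.sum_congr rfl fun j _ => ?_
            rw [ha, Finset.mul_sum]
            exact (Equiv.sum_comp (Equiv.addRight j)
              (fun x => χ j * ψ (c * j) * (f x * ψ (-(x * c))))).symm
        _ = ∑ x, ∑ j, χ j * f (x + j) * ψ (-(x * c)) := by
            rw [Finset.sum_comm]
            refine Finset.sum_congr rfl fun x _ => Finset.sum_congr rfl fun j _ => ?_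
            have h4 : ψ (-(x * c)) = ψ (c * j) * ψ (-((x + j) * c)) := by
              rw [← AddChar.map_add_eq_mul]
              congr 1
              ring
            rw [h4]; ring
        _ = gaussSum χ ψ * a c := by
            rw [ha, Finset.mul_sum]
            refine Finset.sum_congr rfl fun x _ => ?_
            rw [← Finset.sum_mul, hf]; ring
    have h4 : (χ c - 1) * (gaussSum χ ψ * a c) = 0 := by linear_combination h3
    rcases mul_eq_zero.1 h4 with h5 | h5
    · exact absurd (sub_eq_zero.1 h5) hc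
    · exact (mul_eq_zero.1 h5).resolve_left hG
  set T : ZMod p → ℂ := fun x => ∑ l ∈ Finset.range p, F.coeff l * f (x - l) with hT
  have hTc : ∀ c, ∑ x, T x * ψ (-(x * c)) = 0 := by
    intro c
    have h3 : ∑ x, T x * ψ (-(x * c)) = F.eval (ψ (-c)) * a c := by
      rw [Polynomial.eval_eq_sum_range' hF, Finset.sum_mul]
      simp only [hT, Finset.sum_mul]
      rw [Finset.sum_comm]
      refine Finset.sum_congr rfl fun l _ => ?_
      rw [ha, Finset.mul_sum]
      rw [← Equiv.sum_comp (Equiv.addRight (l : ZMod p))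
        (fun x => F.coeff l * f (x - l) * ψ (-(x * c)))]
      refine Finset.sum_congr rfl fun x _ => ?_
      have h4 : ψ (-c) ^ l = ψ (-((l : ZMod p) * c)) := by
        rw [← AddChar.map_nsmul_eq_pow]
        congr 1
        simp
      simp only [Equiv.coe_addRight, add_sub_cancel_right]
      have h5 : ψ (-((x + (l : ZMod p)) * c)) = ψ (-((l : ZMod p) * c)) * ψ (-(x * c)) := by
        rw [← AddChar.map_add_eq_mul]
        congr 1
        ring
      rw [h5, h4]; ring
    rw [h3]
    by_cases hc : χ c = 1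
    · rw [hroot c hc, zero_mul]
    · rw [ha0 c hc, mul_zero]
  have h3 : ∑ c, ψ (b * c) * ∑ x, T x * ψ (-(x * c)) = (p : ℂ) * T b := by
    have h4 : ∀ c : ZMod p, ψ (b * c) * ∑ x, T x * ψ (-(x * c)) =
        ∑ x, T x * ψ (c * (b - x)) := by
      intro c
      rw [Finset.mul_sum]
      refine Finset.sum_congr rfl fun x _ => ?_
      have h5 : ψ (c * (b - x)) = ψ (b * c) * ψ (-(x * c)) := by
        rw [← AddChar.map_add_eq_mul]
        congr 1
        ring
      rw [h5]; ring
    rw [Finset.sum_congr rfl fun c _ => h4 c, Finset.sum_comm]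
    have h6 : ∀ x : ZMod p, ∑ c, T x * ψ (c * (b - x)) = if x = b then (p : ℂ) * T b else 0 := by
      intro x
      rw [← Finset.mul_sum, AddChar.sum_mulShift _ hψ]
      by_cases hx : x = b
      · subst hx
        simp [ZMod.card, mul_comm]
      · have h7 : b - x ≠ 0 := sub_ne_zero.2 (Ne.symm hx)
        simp [hx, h7]
    rw [Finset.sum_congr rfl fun x _ => h6 x]
    simp
  have h4 : (p : ℂ) * T b = 0 := by
    rw [← h3]
    exact Finset.sum_eq_zero fun c _ => by rw [hTc c, mul_zero]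
  exact (mul_eq_zero.1 h4).resolve_left (by exact_mod_cast (Fact.out : p.Prime).ne_zero)

end FAC

open Finset in
/-- (FAC) -/
theorem to_FAC : So_FAC := by
  intro p hp hp2 om hom K hK
  have : Fact p.Prime := ⟨hp⟩
  have hrc : ringChar (ZMod p) ≠ 2 := by rw [ZMod.ringChar_zmod_n]; exact hp2
  set χ : MulChar (ZMod p) ℂ := (quadraticChar (ZMod p)).ringHomComp (Int.castRingHom ℂ) with hχ
  have hχ2 : χ.IsQuadratic := (quadraticChar_isQuadratic (F := ZMod p)).comp _
  have hχ1 : χ ≠ 1 := by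
    intro h
    obtain ⟨a, ha⟩ := quadraticChar_exists_neg_one' (F := ZMod p) hrc
    have h3 : χ (a : ZMod p) = 1 := by rw [h]; exact MulChar.one_apply_coe a
    rw [hχ, MulChar.ringHomComp_apply, ha] at h3
    norm_num at h3
  have hj : ∀ j : ℕ, (jacobiSym (j : ℤ) p : ℂ) = χ (j : ZMod p) := by
    intro j
    rw [← jacobiSym.legendreSym.to_jacobiSym, legendreSym, hχ, MulChar.ringHomComp_apply]
    simp
  have hom1 : om ^ p = 1 := hom.pow_eq_one
  set ψ : AddChar (ZMod p) ℂ := AddChar.zmodChar p hom1 with hψd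
  have hψ : ψ.IsPrimitive := AddChar.zmodChar_primitive_of_primitive_root p hom
  have hG : ∑ j ∈ Finset.range p, (jacobiSym (j : ℤ) p : ℂ) * om ^ j = gaussSum χ ψ := by
    rw [gaussSum, ← FAC.sum_range_zmod p (fun x => χ x * ψ x)]
    refine Finset.sum_congr rfl fun j _ => ?_
    rw [hj, hψd, AddChar.zmodChar_apply']
  rw [hG] at hK
  obtain ⟨F, H, hF, hH, hFK, hHK, hdeg, hFH, hroot⟩ := FAC.main hχ1 hχ2 hψ K hK
  refine ⟨F, H, hF, hH, hFK, hHK, hdeg, ?_, ?_, ?_⟩
  · rw [hFH]
    exact FAC.prod_all hom ψ fun a => AddChar.zmodChar_apply hom1 a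
  · have h3 := hroot 1 (map_one χ)
    have h4 : ψ (-1) = om⁻¹ := by
      rw [AddChar.map_neg_eq_inv]
      congr 1
      have h5 := AddChar.zmodChar_apply' hom1 1
      rw [hψd]
      simpa using h5
    rw [← h4]; exact h3
  · intro f hper hrel b
    set g : ZMod p → ℂ := fun x => f (x.val : ℤ) with hg
    have hfg : ∀ b : ℤ, f b = g (b : ZMod p) := by
      intro b
      refine hper _ _ ?_
      have h3 : ((b - ((b : ZMod p).val : ℤ) : ℤ) : ZMod p) = 0 := by
        push_cast
        rw [ZMod.natCast_zmod_val]; simp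
      exact (ZMod.intCast_zmod_eq_zero_iff_dvd _ _).1 h3
    have h5 := FAC.last hχ1 hχ2 hψ F (by omega) hroot g ?_ (b : ZMod p)
    · rw [← h5]
      refine Finset.sum_congr rfl fun l _ => ?_
      rw [hfg]; push_cast; rfl
    · intro x
      have h6 := hrel (x.val : ℤ)
      rw [hG] at h6
      rw [← FAC.sum_range_zmod p (fun j => χ j * g (x + j))]
      have h7 : g x = f (x.val : ℤ) := rfl
      rw [h7, ← h6]
      refine Finset.sum_congr rfl fun j _ => ?_
      rw [hj, hfg]; push_cast; rw [ZMod.natCast_zmod_val]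

end Pool.Agent.OBH
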