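import Pool.Agent.OB.StHN
import Pool.Agent.MUX.HX_HK

/-!
# OB, block H, module HKN (helper81): the part `s` of a depleted symbol
-/

set_option autoImplicit false

namespace Pool.Agent.OBH

open _root_.MU3 Pool.Agent.MuSym Pool.Agent.MUXH OnePoint

noncomputable section

/-- a sum over the classes of a function of period one, reflected -/
theorem HKN.refl_sum (p : ℕ) (hp : p ≠ 0) (f : ℚ → ℂ) (hf : ∀ (r : ℚ) (k : ℤ), f (r + k) = f r)
    (x : ℚ) :
    ∑ j ∈ Finset.range p, f (-((x + j) / p)) = ∑ j ∈ Finset.range p, f ((-x + j) / p) := by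
  obtain ⟨n, rfl⟩ := Nat.exists_eq_succ_of_ne_zero hp
  rw [Finset.sum_range_succ', Finset.sum_range_succ',
    ← Finset.sum_range_reflect (fun j => f ((-x + ((j + 1 : ℕ) : ℚ)) / (n.succ : ℕ))) n]
  congr 1
  · refine Finset.sum_congr rfl fun j hj => ?_
    have hj' : j < n := Finset.mem_range.mp hj
    have hn : ((n.succ : ℕ) : ℚ) ≠ 0 := by exact_mod_cast Nat.succ_ne_zero n
    have e : ((n - 1 - j + 1 : ℕ) : ℚ) = (n : ℚ) - j := by
      have : n - 1 - j + 1 = n - j := by omega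
      rw [this, Nat.cast_sub hj'.le]
    rw [← hf (-((x + ((j + 1 : ℕ) : ℚ)) / (n.succ : ℕ))) 1]
    congr 1
    rw [e]
    field_simp
    push_cast
    ring
  · congr 1
    push_cast
    ring

/-- (HKN) the part `s` of a depleted symbol. -/
theorem to_HKN : So_HKN := by
  intro p hp N' nu P s hP hnu hdep
  obtain ⟨h1, h2, -⟩ := tx_HK p hp.one_lt.le N' nu P P hP hnu s
  refine ⟨h2, h1, ?_⟩
  have ht : ∀ (r : ℚ) (k : ℤ), P ∞ ((r + k : ℚ) : OnePoint ℚ) = P ∞ (r : OnePoint ℚ) := by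
    intro r k
    have h := hP.equiv 1 k 0 1 (by ring) (dvd_zero _) ∞ (r : OnePoint ℚ)
    rw [Hk.mob_inf, Hk.mob_tr, hnu, one_mul] at h
    exact h
  have hs : ∀ r : ℚ, sgnPart s P ∞ (r : OnePoint ℚ) =
      P ∞ (r : OnePoint ℚ) + s * P ∞ ((-r : ℚ) : OnePoint ℚ) := by
    intro r
    unfold sgnPart
    rw [Hk.mob_inf, Hk.mob_neg]
  intro x
  have e1 := hdep x
  have e2 := hdep (-x)
  have e3 := HKN.refl_sum p hp.ne_zero (fun r => P ∞ ((r : ℚ) : OnePoint ℚ)) ht x
  simp only [hs, Finset.sum_add_distrib, ← Finset.mul_sum]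
  rw [e1, e3, e2]
  ring

end

end Pool.Agent.OBH
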