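import Pool.Agent.OB.StHN

/-!
# OB, block HN: glue for a depleted symbol, `p` unramified (helper34)

Adapted from `Pool/Agent/MUX/HN_HN.lean` (helper87).
-/

set_option autoImplicit false

namespace Pool.Agent.OBH

open _root_.MU3 Pool.Agent.MuSym Pool.Agent.MUXH OnePoint

noncomputable section

namespace HN

theorem mob_inf (a b d : ℤ) : mob a b 0 d ∞ = ∞ := by
  show (if (0 : ℤ) = 0 then (∞ : OnePoint ℚ) else ((a / (0 : ℤ) : ℚ) : OnePoint ℚ)) = ∞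
  rw [if_pos rfl]

theorem mob_tr (k : ℤ) (r : ℚ) :
    mob 1 k 0 1 ((r : ℚ) : OnePoint ℚ) = ((r + k : ℚ) : OnePoint ℚ) := by
  show (if ((0 : ℤ) : ℚ) * r + (1 : ℤ) = 0 then ∞ else
    (((((1 : ℤ) : ℚ) * r + (k : ℤ)) / (((0 : ℤ) : ℚ) * r + (1 : ℤ)) : ℚ) : OnePoint ℚ)) = _
  rw [if_neg (by norm_num)]
  congr 1
  push_cast
  ring

/-- the sum over the classes modulo `p` of the next level is invariant under units -/
lemma dep_unit {p n : ℕ} {z : ℤ → ℂ}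
    (hper : ∀ b c : ℤ, (p : ℤ) ^ (n + 1) ∣ b - c → z b = z c)
    (hdep : ∀ b : ℤ, ∑ j ∈ Finset.range p, z (b + j * (p : ℤ) ^ n) = 0) (u : ℤ)
    (hu : (p : ℤ) ∣ u - 1) (b : ℤ) :
    ∑ j ∈ Finset.range p, z (u * (b + j * (p : ℤ) ^ n)) = 0 := by
  rw [← hdep (u * b)]
  refine Finset.sum_congr rfl fun j _ => hper _ _ ?_
  obtain ⟨t, ht⟩ := hu
  refine ⟨t * j, ?_⟩
  have : u = 1 + p * t := by linear_combination ht
  rw [this]
  ring

end HN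

open HN in
/-- (HN) -/
theorem to_HN (h1 : So_NZ) (h2 : So_DVN) (h3 : So_TYP) : So_HN := by
  intro p V N₀ s₀ q' i nu Q pi KI H hQd hunr hq1 hq2 hq3 hvpi α g hα hα1 hg hg1 n₀
  obtain ⟨n', hn', b₀, -, hb⟩ := h1 p V N₀ s₀ nu Q pi KI H α g hα hα1 hg hg1 1 (n₀ + 1)
  obtain ⟨m, rfl⟩ : ∃ m, n' = m + 1 := ⟨n' - 1, by omega⟩
  refine ⟨m, by omega, fun ζ hζ => ?_⟩
  have hp0 : (p : ℚ) ≠ 0 := by exact_mod_cast H.pp.ne_zero
  have hQp : ∀ (r : ℚ) (t : ℤ), Q ∞ ((r + t : ℚ) : OnePoint ℚ) = Q ∞ (r : OnePoint ℚ) := by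
    intro r t
    have e := H.sym.equiv 1 t 0 1 (by ring) (dvd_zero _) ∞ (r : OnePoint ℚ)
    rw [mob_inf, mob_tr, H.nu1, one_mul] at e
    exact e
  -- the functions on the levels
  let z : ℕ → ℤ → ℂ := fun n b => Q ∞ (((b : ℚ) / (p : ℚ) ^ n : ℚ) : OnePoint ℚ)
  have hzper : ∀ (n : ℕ) (b c : ℤ), (p : ℤ) ^ n ∣ b - c → z n b = z n c := by
    rintro n b c ⟨t, ht⟩
    have e : ((b : ℚ) / (p : ℚ) ^ n : ℚ) = (c : ℚ) / (p : ℚ) ^ n + t := by
      have h3 : ((p : ℚ) ^ n) ≠ 0 := pow_ne_zero _ hp0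
      have : (b : ℚ) = c + (p : ℚ) ^ n * t := by
        have : (b : ℤ) = c + (p : ℤ) ^ n * t := by linear_combination ht
        exact_mod_cast this
      rw [this]
      field_simp
    change Q ∞ (((b : ℚ) / (p : ℚ) ^ n : ℚ) : OnePoint ℚ) =
      Q ∞ (((c : ℚ) / (p : ℚ) ^ n : ℚ) : OnePoint ℚ)
    rw [e]
    exact hQp _ t
  have hzdep : ∀ (n : ℕ) (b : ℤ),
      ∑ j ∈ Finset.range p, z (n + 1) (b + j * (p : ℤ) ^ n) = 0 := by
    intro n b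
    rw [← hQd ((b : ℚ) / (p : ℚ) ^ n)]
    refine Finset.sum_congr rfl fun j _ => ?_
    change Q ∞ ((((b + j * (p : ℤ) ^ n : ℤ) : ℚ) / (p : ℚ) ^ (n + 1) : ℚ) : OnePoint ℚ) = _
    congr 2
    have h3 : ((p : ℚ) ^ n) ≠ 0 := pow_ne_zero _ hp0
    push_cast
    field_simp
    ring
  have hztyp : ∀ n b, ∃ w ∈ KI, z n b = pi * w := fun n b => H.typ _ _
  have hint : ∀ a : ℤ, (a : ℂ) ∈ KI := fun a => intCast_mem KI a
  have hYtyp : ∀ n b, ∃ w ∈ KI, comb α g 1 (z n) b = pi * w := by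
    intro n b
    choose w hw hw' using hztyp n
    refine ⟨∑ j ∈ Finset.range (1 + 1), ((-1 : ℂ) ^ (1 - j) * ((1 : ℕ).choose j : ℂ)) *
      ((α : ℂ) * w (g ^ (1 - j) * b) - (α : ℂ) ^ 2 * w (g ^ (1 - j) * α ^ 2 * b)), ?_, ?_⟩
    · refine sum_mem fun j _ => mul_mem (mul_mem (pow_mem (neg_mem (one_mem _)) _)
        (natCast_mem KI _)) (sub_mem (mul_mem (hint α) (hw _))
        (mul_mem (pow_mem (hint α) 2) (hw _)))
    · unfold comb
      rw [Finset.mul_sum]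
      refine Finset.sum_congr rfl fun j _ => ?_
      rw [hw', hw']
      ring
  have hYper : ∀ b c : ℤ, (p : ℤ) ^ (m + 1) ∣ b - c →
      comb α g 1 (z (m + 1)) b = comb α g 1 (z (m + 1)) c := by
    intro b c hbc
    unfold comb
    refine Finset.sum_congr rfl fun j _ => ?_
    rw [hzper (m + 1) (g ^ (1 - j) * b) (g ^ (1 - j) * c) (by
        rw [← mul_sub]; exact hbc.mul_left _),
      hzper (m + 1) (g ^ (1 - j) * α ^ 2 * b) (g ^ (1 - j) * α ^ 2 * c) (by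
        rw [← mul_sub]; exact hbc.mul_left _)]
  have hpow : ∀ (u : ℤ), (p : ℤ) ∣ u - 1 → ∀ j : ℕ, (p : ℤ) ∣ u ^ j - 1 := by
    intro u hu j
    have := sub_dvd_pow_sub_pow u 1 j
    rw [one_pow] at this
    exact hu.trans this
  have hYdep : ∀ b : ℤ, ∑ j ∈ Finset.range p,
      comb α g 1 (z (m + 1)) (b + j * (p : ℤ) ^ m) = 0 := by
    intro b
    unfold comb
    rw [Finset.sum_comm]
    refine Finset.sum_eq_zero fun j _ => ?_
    rw [← Finset.mul_sum, Finset.sum_sub_distrib, ← Finset.mul_sum, ← Finset.mul_sum,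
      dep_unit (hzper (m + 1)) (hzdep m) _ (hpow g hg (1 - j)) b]
    have h2 : (p : ℤ) ∣ g ^ (1 - j) * α ^ 2 - 1 := by
      have e : g ^ (1 - j) * α ^ 2 - 1 = (g ^ (1 - j) - 1) * α ^ 2 + (α ^ 2 - 1) := by ring
      rw [e]
      exact dvd_add ((hpow g hg _).mul_right _) (hpow α hα 2)
    rw [dep_unit (hzper (m + 1)) (hzdep m) _ h2 b]
    ring
  refine h2 p H.pp H.p2 V H.vp KI hunr m (comb α g 1 (z (m + 1))) hYper hYdep ?_ b₀ ?_ ζ hζ
  · intro b b' hb'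
    obtain ⟨w, hw, e⟩ := hYtyp (m + 1) b
    obtain ⟨w', hw', e'⟩ := hYtyp (m + 1) b'
    rw [e, e', mul_div_mul_left _ _ H.pi0]
    exact div_mem hw hw'
  · obtain ⟨w, hw, e⟩ := hYtyp (m + 1) b₀
    have hb' : 1 ≤ V.valuation (comb α g 1 (z (m + 1)) b₀) := hb
    rw [e] at hb' ⊢
    exact (h3 p H.pp V H.vp KI 1 q' i le_rfl hq2 (by rwa [one_mul]) (by rwa [one_mul])
      (fun w hw hw1 => by rw [pow_one]; exact hunr w hw hw1) pi (by rwa [one_mul]) w hw).2 hb'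

end

end Pool.Agent.OBH
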