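import Pool.Agent.OB.StHN

/-!
# OB, block H: module HR (helper38)
-/

set_option autoImplicit false

namespace Pool.Agent.OBH

open _root_.MU3 Pool.Agent.MuSym Pool.Agent.MUXH OnePoint

noncomputable section

namespace HR

lemma mob_coe (t : ℤ) (x : ℚ) : mob 1 t 0 1 (x : OnePoint ℚ) = ((x + t : ℚ) : OnePoint ℚ) := by
  unfold mob
  rw [OnePoint.elim_some]
  simp

lemma mob_inf (t : ℤ) : mob 1 t 0 1 (∞ : OnePoint ℚ) = ∞ := by
  unfold mob
  rw [OnePoint.elim_infty]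
  simp

lemma sym_per {N : ℕ} {nu : ℤ → ℂ} {Q : OnePoint ℚ → OnePoint ℚ → ℂ} (h : IsSym N nu Q)
    (h1 : nu 1 = 1) (x : ℚ) (t : ℤ) : Q ∞ ((x + t : ℚ) : OnePoint ℚ) = Q ∞ (x : OnePoint ℚ) := by
  have e := h.equiv 1 t 0 1 (by ring) (dvd_zero _) ∞ (x : OnePoint ℚ)
  rw [mob_inf, mob_coe, h1, one_mul] at e
  exact e

end HR

open HR in
/-- (HR) -/
theorem to_HR (h1 : So_NZ) (h2 : So_DVR) (h3 : So_TYP) (h4 : So_FAC) : So_HR := by
  intro p V N₀ s₀ i nu Q pi KI om H hom hrel hunr hi1 hi2 hvpi α g hα hα1 hg hg1 n₀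
  have hp := H.pp
  have hp3 : 3 ≤ p := by
    have := hp.two_le
    have := H.p2
    omega
  have hpq : (p : ℚ) ≠ 0 := by exact_mod_cast hp.ne_zero
  obtain ⟨m, hm, b₀, hb₀, hv₀⟩ := h1 p V N₀ s₀ nu Q pi KI H α g hα hα1 hg hg1 1 (n₀ + 1)
  obtain ⟨n, rfl⟩ : ∃ n, m = n + 1 := ⟨m - 1, by omega⟩
  let z : ℤ → ℂ := fun b => Q ∞ (((b : ℚ) / (p : ℚ) ^ (n + 1) : ℚ) : OnePoint ℚ)
  change 1 ≤ V.valuation (comb α g 1 z b₀) at hv₀
  have hzper : ∀ b c : ℤ, (p : ℤ) ^ (n + 1) ∣ b - c → z b = z c := by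
    rintro b c ⟨t, ht⟩
    have e : ((b : ℚ) / (p : ℚ) ^ (n + 1) : ℚ) = (c : ℚ) / (p : ℚ) ^ (n + 1) + t := by
      have h5 : ((p : ℚ) ^ (n + 1)) ≠ 0 := pow_ne_zero _ hpq
      have : (b : ℚ) = c + (p : ℚ) ^ (n + 1) * t := by
        have : (b : ℤ) = c + (p : ℤ) ^ (n + 1) * t := by linear_combination ht
        exact_mod_cast this
      rw [this, add_div, mul_div_cancel_left₀ _ h5]
    change Q ∞ (((b : ℚ) / (p : ℚ) ^ (n + 1) : ℚ) : OnePoint ℚ) =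
      Q ∞ (((c : ℚ) / (p : ℚ) ^ (n + 1) : ℚ) : OnePoint ℚ)
    rw [e]
    exact sym_per H.sym H.nu1 _ t
  -- the Gauss sum
  obtain ⟨G, hG⟩ : ∃ G : ℂ, G = ∑ j ∈ Finset.range p, (jacobiSym (j : ℤ) p : ℂ) * om ^ j :=
    ⟨_, rfl⟩
  rw [← hG] at hrel
  have hGK : G ∈ KI := by
    obtain ⟨x, hx⟩ : ∃ x : ℚ, Q ∞ (x : OnePoint ℚ) ≠ 0 := by
      by_contra hcon
      push Not at hcon
      have e : comb α g 1 z b₀ = 0 := by
        unfold comb
        refine Finset.sum_eq_zero fun j _ => ?_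
        have e1 : ∀ b, z b = 0 := fun b => hcon _
        rw [e1, e1]
        ring
      rw [e, map_zero] at hv₀
      exact absurd hv₀ (not_le.2 zero_lt_one)
    have ht := hrel x
    obtain ⟨w, hw, ew⟩ := H.typ ∞ (x : OnePoint ℚ)
    have hw' : ∀ j : ℕ, ∃ w ∈ KI, Q ∞ ((x + (j : ℚ) / p : ℚ) : OnePoint ℚ) = pi * w :=
      fun j => H.typ _ _
    choose w' hwK ew' using hw'
    have e2 : ∑ j ∈ Finset.range p, (jacobiSym (j : ℤ) p : ℂ) *
        Q ∞ ((x + (j : ℚ) / p : ℚ) : OnePoint ℚ) =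
        pi * ∑ j ∈ Finset.range p, (jacobiSym (j : ℤ) p : ℂ) * w' j := by
      rw [Finset.mul_sum]
      refine Finset.sum_congr rfl fun j _ => ?_
      rw [ew']
      ring
    rw [e2, ew] at ht
    have hw0 : w ≠ 0 := by
      rintro rfl
      rw [ew, mul_zero] at hx
      exact hx rfl
    have e3 : G = (∑ j ∈ Finset.range p, (jacobiSym (j : ℤ) p : ℂ) * w' j) / w := by
      rw [eq_div_iff hw0]
      refine mul_left_cancel₀ H.pi0 ?_
      linear_combination -ht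
    rw [e3]
    exact div_mem (sum_mem fun j _ => mul_mem (intCast_mem KI _) (hwK j)) hw
  obtain ⟨F, Hh, hF, hH, hFK, hHK, hdeg, hFH, hFe, hFf⟩ := h4 p hp H.p2 om hom KI (hG ▸ hGK)
  -- the combination
  obtain ⟨Y, hY⟩ : ∃ Y : ℤ → ℂ, Y = comb α g 1 z := ⟨_, rfl⟩
  rw [← hY] at hv₀
  have hpow : ∀ (u : ℤ), (p : ℤ) ∣ u - 1 → ∀ j : ℕ, (p : ℤ) ∣ u ^ j - 1 := by
    intro u hu j
    have := sub_dvd_pow_sub_pow u 1 j
    rw [one_pow] at this
    exact hu.trans this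
  have hzrel : ∀ u b : ℤ, (p : ℤ) ∣ u - 1 → ∑ j ∈ Finset.range p, (jacobiSym (j : ℤ) p : ℂ) *
      z (u * (b + j * (p : ℤ) ^ n)) = G * z (u * b) := by
    intro u b hu
    have e1 : z (u * b) = Q ∞ ((((u * b : ℤ) : ℚ) / (p : ℚ) ^ (n + 1) : ℚ) : OnePoint ℚ) := rfl
    rw [e1, ← hrel]
    refine Finset.sum_congr rfl fun j _ => ?_
    congr 1
    have e2 : z (u * (b + j * (p : ℤ) ^ n)) = z (u * b + j * (p : ℤ) ^ n) := by
      apply hzper
      obtain ⟨t, ht⟩ := hu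
      refine ⟨t * j, ?_⟩
      have : u = 1 + p * t := by linear_combination ht
      rw [this]
      ring
    rw [e2]
    change Q ∞ ((((u * b + j * (p : ℤ) ^ n : ℤ) : ℚ) / (p : ℚ) ^ (n + 1) : ℚ) : OnePoint ℚ) = _
    congr 2
    have h5 : ((p : ℚ) ^ n) ≠ 0 := pow_ne_zero _ hpq
    have e3 : (((u * b + j * (p : ℤ) ^ n : ℤ) : ℚ) / (p : ℚ) ^ (n + 1) : ℚ) =
        ((u * b : ℤ) : ℚ) / (p : ℚ) ^ (n + 1) + (j : ℚ) / p := by
      push_cast
      rw [pow_succ, add_div]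
      congr 1
      rw [mul_comm ((p : ℚ) ^ n) (p : ℚ), mul_div_mul_right _ _ h5]
    rw [e3]
  have hYrel : ∀ b : ℤ, ∑ j ∈ Finset.range p, (jacobiSym (j : ℤ) p : ℂ) *
      Y (b + j * (p : ℤ) ^ n) = G * Y b := by
    intro b
    rw [hY]
    unfold comb
    simp only [Finset.mul_sum]
    rw [Finset.sum_comm]
    refine Finset.sum_congr rfl fun l _ => ?_
    have h6 : (p : ℤ) ∣ g ^ (1 - l) * α ^ 2 - 1 := by
      have e : g ^ (1 - l) * α ^ 2 - 1 = (g ^ (1 - l) - 1) * α ^ 2 + (α ^ 2 - 1) := by ring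
      rw [e]
      exact dvd_add ((hpow g hg _).mul_right _) (hpow α hα 2)
    have h7 := hzrel (g ^ (1 - l)) b (hpow g hg (1 - l))
    have h8 := hzrel (g ^ (1 - l) * α ^ 2) b h6
    have h9 : G * ((-1 : ℂ) ^ (1 - l) * ((1 : ℕ).choose l : ℂ) *
        ((α : ℂ) * z (g ^ (1 - l) * b) - (α : ℂ) ^ 2 * z (g ^ (1 - l) * α ^ 2 * b))) =
        (-1 : ℂ) ^ (1 - l) * ((1 : ℕ).choose l : ℂ) * ((α : ℂ) * (G * z (g ^ (1 - l) * b)) -
          (α : ℂ) ^ 2 * (G * z (g ^ (1 - l) * α ^ 2 * b))) := by ring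
    rw [h9, ← h7, ← h8, Finset.mul_sum, Finset.mul_sum, ← Finset.sum_sub_distrib,
      Finset.mul_sum]
    refine Finset.sum_congr rfl fun j _ => ?_
    ring
  have hYper : ∀ b c : ℤ, (p : ℤ) ^ (n + 1) ∣ b - c → Y b = Y c := by
    intro b c hbc
    rw [hY]
    unfold comb
    refine Finset.sum_congr rfl fun j _ => ?_
    rw [hzper (g ^ (1 - j) * b) (g ^ (1 - j) * c) (by
        rw [← mul_sub]; exact hbc.mul_left _),
      hzper (g ^ (1 - j) * α ^ 2 * b) (g ^ (1 - j) * α ^ 2 * c) (by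
        rw [← mul_sub]; exact hbc.mul_left _)]
  have hYtyp : ∀ b, ∃ w ∈ KI, Y b = pi * w := by
    intro b
    have hztyp : ∀ b, ∃ w ∈ KI, z b = pi * w := fun b => H.typ _ _
    choose w hw hw' using hztyp
    refine ⟨∑ j ∈ Finset.range (1 + 1), ((-1 : ℂ) ^ (1 - j) * ((1 : ℕ).choose j : ℂ)) *
      ((α : ℂ) * w (g ^ (1 - j) * b) - (α : ℂ) ^ 2 * w (g ^ (1 - j) * α ^ 2 * b)), ?_, ?_⟩
    · refine sum_mem fun j _ => mul_mem (mul_mem (pow_mem (neg_mem (one_mem _)) _)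
        (natCast_mem KI _)) (sub_mem (mul_mem (intCast_mem KI α) (hw _))
        (mul_mem (pow_mem (intCast_mem KI α) 2) (hw _)))
    · rw [hY]
      unfold comb
      rw [Finset.mul_sum]
      refine Finset.sum_congr rfl fun j _ => ?_
      rw [hw', hw']
      ring
  -- the relation for the coefficients of `F`
  have hYF : ∀ b : ℤ, ∑ l ∈ Finset.range p, F.coeff l * Y (b - l * (p : ℤ) ^ n) = 0 := by
    intro b
    have h5 := hFf (fun l => Y (b + l * (p : ℤ) ^ n)) (by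
      rintro l l' ⟨t, ht⟩
      apply hYper
      refine ⟨t, ?_⟩
      have : l = l' + p * t := by linear_combination ht
      rw [this]
      ring) (by
      intro b'
      have h6 := hYrel (b + b' * (p : ℤ) ^ n)
      rw [← hG, ← h6]
      refine Finset.sum_congr rfl fun j _ => ?_
      have e : b + (b' + (j : ℤ)) * (p : ℤ) ^ n = b + b' * (p : ℤ) ^ n + j * (p : ℤ) ^ n := by ring
      rw [e]) 0
    rw [← h5]
    refine Finset.sum_congr rfl fun l _ => ?_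
    have e : b + (0 - (l : ℤ)) * (p : ℤ) ^ n = b - l * (p : ℤ) ^ n := by ring
    rw [e]
  -- the type
  have hpp : 0 < p - 1 := by omega
  obtain ⟨w, hw, ew⟩ := hYtyp b₀
  have hb : 1 ≤ V.valuation (Y b₀) ^ (p - 1) * V.valuation (p : ℂ) := by
    have h5 := h3 p hp V H.vp KI 2 (p - 1) i (by norm_num) hi2
      (Nat.mul_le_mul_right _ hi1) (by
        rw [mul_comm]
        exact Nat.mul_lt_mul_of_pos_left (by nlinarith) hpp) hunr pi hvpi w hw
    rw [← ew] at h5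
    exact h5.2 hv₀
  refine ⟨n, by omega, fun ζ hζ hζom => ?_⟩
  change V.valuation (p : ℂ) < V.valuation (∑ b ∈ Finset.range (p ^ (n + 1)), ζ ^ b *
    comb α g 1 z b)
  rw [← hY]
  refine h2 p hp H.p2 V H.vp KI hunr n Y hYper F Hh hF hH hFK hHK hdeg hFH hYF ?_ b₀ hb ζ hζ ?_
  · intro b b' hb'
    obtain ⟨w, hw, e⟩ := hYtyp b
    obtain ⟨w', hw', e'⟩ := hYtyp b'
    rw [e, e', mul_div_mul_left _ _ H.pi0]
    exact div_mem hw hw'
  · rw [eq_inv_of_mul_eq_one_left hζom]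
    exact hFe

end

end Pool.Agent.OBH
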