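import Pool.Agent.OB.StHN

/-!
# OB, block H: module NZ

Adapted from `Pool/Agent/MUX/HN_HN.lean` (helper87).
-/

set_option autoImplicit false

namespace Pool.Agent.OBH

open _root_.MU3 Pool.Agent.MuSym Pool.Agent.MUXH OnePoint

noncomputable section

namespace NZ

theorem mob_inf (a b d : ℤ) : mob a b 0 d ∞ = ∞ := by
  show (if (0 : ℤ) = 0 then (∞ : OnePoint ℚ) else ((a / (0 : ℤ) : ℚ) : OnePoint ℚ)) = ∞
  rw [if_pos rfl]

theorem mob_tr (k : ℤ) (r : ℚ) :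
    mob 1 k 0 1 ((r : ℚ) : OnePoint ℚ) = ((r + k : ℚ) : OnePoint ℚ) := by
  show (if ((0 : ℤ) : ℚ) * r + (1 : ℤ) = 0 then ∞ else
    (((((1 : ℤ) : ℚ) * r + (k : ℤ)) / (((0 : ℤ) : ℚ) * r + (1 : ℤ)) : ℚ) : OnePoint ℚ)) = _
  rw [if_neg (by norm_num)]
  congr 1
  push_cast
  ring

/-- the maximal ideal as a submodule of `ℂ` -/
def mV (V : ValuationSubring ℂ) : Submodule V ℂ where
  carrier := {x | V.valuation x < 1}
  add_mem' := by
    intro a b ha hb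
    exact lt_of_le_of_lt (V.valuation.map_add a b) (max_lt ha hb)
  zero_mem' := by
    change V.valuation 0 < 1
    rw [map_zero]
    exact zero_lt_one
  smul_mem' := by
    intro c x hx
    change V.valuation ((c : ℂ) * x) < 1
    rw [map_mul]
    have h1 : V.valuation (c : ℂ) ≤ 1 := (V.valuation_le_one_iff _).2 c.2
    have h2 : V.valuation x < 1 := hx
    exact lt_of_le_of_lt (mul_le_mul_left h1 _) (by rwa [one_mul])

lemma mem_mV {V : ValuationSubring ℂ} {x : ℂ} : x ∈ mV V ↔ V.valuation x < 1 := Iff.rfl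

/-- the symbol is periodic -/
lemma per {N : ℕ} {nu : ℤ → ℂ} {Q : OnePoint ℚ → OnePoint ℚ → ℂ} (h : IsSym N nu Q)
    (h1 : nu 1 = 1) (r : ℚ) (k : ℤ) :
    Q ∞ ((r + k : ℚ) : OnePoint ℚ) = Q ∞ (r : OnePoint ℚ) := by
  have := h.equiv 1 k 0 1 (by ring) (dvd_zero _) ∞ (r : OnePoint ℚ)
  rw [mob_inf, mob_tr, h1, one_mul] at this
  exact this

end NZ

open NZ in
/-- (NZ) -/
theorem to_NZ (hLOC : So_LOC) (hKYN : So_KYN) : So_NZ := by
  intro p V N₀ s₀ nu Q pi KI H α g hα hα1 hg hg1 N n₀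
  by_contra hcon
  push Not at hcon
  obtain ⟨k, hk⟩ := H.bdd
  have hp0 : (p : ℚ) ≠ 0 := Nat.cast_ne_zero.mpr H.pp.ne_zero
  let z : ℕ → ℤ → ℂ := fun n b => Q ∞ (((b : ℚ) / (p : ℚ) ^ n : ℚ) : OnePoint ℚ)
  have hzper : ∀ (n : ℕ) (b c : ℤ), (p : ℤ) ^ n ∣ b - c → z n b = z n c := by
    rintro n b c ⟨t, ht⟩
    have e : ((b : ℚ) / (p : ℚ) ^ n : ℚ) = (c : ℚ) / (p : ℚ) ^ n + t := by
      have h3 : ((p : ℚ) ^ n) ≠ 0 := pow_ne_zero _ hp0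
      have : (b : ℚ) = c + (p : ℚ) ^ n * t := by
        have : (b : ℤ) = c + (p : ℤ) ^ n * t := by linear_combination ht
        exact_mod_cast this
      rw [this]
      field_simp
    change Q ∞ (((b : ℚ) / (p : ℚ) ^ n : ℚ) : OnePoint ℚ) =
      Q ∞ (((c : ℚ) / (p : ℚ) ^ n : ℚ) : OnePoint ℚ)
    rw [e]
    exact per H.sym H.nu1 _ t
  have hz3 : ∀ n b, (p : ℂ) ^ (k + 1) * z n b ∈ mV V := by
    intro n b
    rw [mem_mV]
    have e : (p : ℂ) ^ (k + 1) * z n b = p * ((p : ℂ) ^ k * z n b) := by ring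
    rw [e, map_mul]
    exact mul_lt_one_of_lt_of_le H.vp (hk _ _)
  have hall : ∀ n, n₀ ≤ n → ∀ b : ℤ, ¬ (p : ℤ) ∣ b → comb α g N (z n) b ∈ mV V :=
    fun n hn b hb => mem_mV.mpr (hcon n hn b hb)
  obtain ⟨r, hr⟩ := hLOC p H.pp H.p2 V H.vp (mV V) z (k + 1) n₀ hzper hz3 α g hα hα1 hg hg1 N hall
  -- pass to the level `2 N₀`
  have hN0 : N₀ ≠ 0 := H.N0
  have hN2 : 2 ≤ 2 * N₀ := by omega
  have hcop2 : Nat.Coprime p (2 * N₀) := by
    refine Nat.Coprime.mul_right ?_ H.cop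
    exact (Nat.coprime_primes H.pp Nat.prime_two).mpr H.p2
  have hdvN : ((p * N₀ : ℕ) : ℤ) ∣ ((p * (2 * N₀) : ℕ) : ℤ) :=
    Int.natCast_dvd_natCast.2 ⟨2, by ring⟩
  have hper2 : ∀ d d', ((p * (2 * N₀) : ℕ) : ℤ) ∣ d - d' → nu d = nu d' :=
    fun d d' h => H.nuper d d' (hdvN.trans h)
  have hnuv2 : ∀ d, IsCoprime d ((p * (2 * N₀) : ℕ) : ℤ) → V.valuation (nu d) = 1 := by
    intro d hd
    have hd' : IsCoprime d ((p * N₀ : ℕ) : ℤ) := hd.of_isCoprime_of_dvd_right hdvN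
    obtain ⟨a, b, hab⟩ := hd'
    have h1 : nu (d * a) = nu 1 := H.nuper _ _ ⟨-b, by linear_combination hab⟩
    rw [H.num, H.nu1] at h1
    refine le_antisymm (H.nuv d) ?_
    have h2 : V.valuation (nu d) * V.valuation (nu a) = 1 := by
      rw [← map_mul, h1, map_one]
    calc (1 : V.ValueGroup) = V.valuation (nu d) * V.valuation (nu a) := h2.symm
      _ ≤ V.valuation (nu d) * 1 := by
        exact mul_le_mul_right (H.nuv a) _
      _ = V.valuation (nu d) := mul_one _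
  have hQs2 : IsSym (p ^ (s₀ + 1) * (2 * N₀)) nu Q := by
    refine ⟨H.sym.add, fun a b c d hdet hc => H.sym.equiv a b c d hdet (dvd_trans ?_ hc)⟩
    exact Int.natCast_dvd_natCast.2 ⟨2, by ring⟩
  obtain ⟨R, hR⟩ := hKYN p H.pp H.p2 V H.vp (mV V) (2 * N₀) s₀ nu Q hN2 hcop2 H.nu1 hper2 hnuv2
    hQs2 r n₀ hr
  obtain ⟨a, b, c, d, hdet, hc, hd, hv⟩ := H.G (p ^ (R + (s₀ + 1)) * (2 * N₀))
    (mul_ne_zero (pow_ne_zero _ H.pp.ne_zero) (by omega))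
    (mul_dvd_mul (pow_dvd_pow p (Nat.le_add_left _ _)) (Dvd.intro_left _ rfl))
  have hdvd : (p : ℤ) ^ R * ((2 * N₀ : ℕ) : ℤ) ∣ ((p ^ (R + (s₀ + 1)) * (2 * N₀) : ℕ) : ℤ) := by
    push_cast
    exact mul_dvd_mul_right (pow_dvd_pow _ (Nat.le_add_right _ _)) _
  have h1 := hR a b c d hdet (hdvd.trans hc) (hdvd.trans hd) ∞
  rw [mem_mV] at h1
  -- the type of the values of `PT Q`
  obtain ⟨w1, hw1, e1⟩ := H.typ ∞ (mob a b c d ∞)
  obtain ⟨w2, hw2, e2⟩ := H.typ (mob ((p : ℤ) ^ 3) 1 0 ((p : ℤ) ^ 3) ∞)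
    (mob ((p : ℤ) ^ 3) 1 0 ((p : ℤ) ^ 3) (mob a b c d ∞))
  have e3 : PT p Q ∞ (mob a b c d ∞) = pi * (w1 - w2) := by
    unfold PT
    rw [e1, e2]
    ring
  rw [e3] at h1 hv
  exact absurd h1 (not_lt.2 (H.gap (w1 - w2) (sub_mem hw1 hw2) hv))

end

end Pool.Agent.OBH
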