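import Pool.Agent.OB.StHN

/-!
# OB, block H, module PRT (helper45): Theorem G is inherited by a part of the symbol
-/

set_option autoImplicit false

namespace Pool.Agent.OBH

open _root_.MU3 Pool.Agent.MuSym Pool.Agent.MUXH OnePoint

noncomputable section

namespace PRT

/-- conjugation of a matrix by the translation by `a / D` -/
theorem conj_mob (D a α γ' : ℤ) (hD : D ≠ 0) (β β' δ δ' : ℤ) :
    mob D a 0 D (mob α β (D ^ 2 * γ') δ ∞) = mob (α + a * D * γ') β' (D ^ 2 * γ') δ' ∞ := by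
  have hD' : (D : ℚ) ≠ 0 := by exact_mod_cast hD
  by_cases hg : γ' = 0
  · subst hg
    simp [mob]
  · have hg' : (γ' : ℚ) ≠ 0 := by exact_mod_cast hg
    have h1 : D ^ 2 * γ' ≠ 0 := mul_ne_zero (pow_ne_zero _ hD) hg
    have e1 : mob α β (D ^ 2 * γ') δ ∞ = (((α : ℚ) / ((D ^ 2 * γ' : ℤ) : ℚ) : ℚ) : OnePoint ℚ) := by
      show (if D ^ 2 * γ' = 0 then ∞ else (((α : ℚ) / ((D ^ 2 * γ' : ℤ) : ℚ) : ℚ) : OnePoint ℚ)) = _
      rw [if_neg h1]
    have e2 : mob (α + a * D * γ') β' (D ^ 2 * γ') δ' ∞ =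
        ((((α + a * D * γ' : ℤ) : ℚ) / ((D ^ 2 * γ' : ℤ) : ℚ) : ℚ) : OnePoint ℚ) := by
      show (if D ^ 2 * γ' = 0 then ∞ else
        ((((α + a * D * γ' : ℤ) : ℚ) / ((D ^ 2 * γ' : ℤ) : ℚ) : ℚ) : OnePoint ℚ)) = _
      rw [if_neg h1]
    have e3 : ∀ r : ℚ, mob D a 0 D (r : OnePoint ℚ) =
        ((((D : ℚ) * r + a) / (((0 : ℤ) : ℚ) * r + D) : ℚ) : OnePoint ℚ) := by
      intro r
      show (if ((0 : ℤ) : ℚ) * r + (D : ℚ) = 0 then ∞ else
        ((((D : ℚ) * r + a) / (((0 : ℤ) : ℚ) * r + D) : ℚ) : OnePoint ℚ)) = _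
      rw [if_neg (by simpa using hD')]
    rw [e1, e2, e3]
    congr 1
    push_cast
    field_simp
    ring

theorem mob_inf (D a : ℤ) : mob D a 0 D ∞ = ∞ := by
  simp [mob]

theorem mob_tr (D a : ℤ) (hD : D ≠ 0) (r : ℚ) :
    mob D a 0 D (r : OnePoint ℚ) = ((r + (a : ℚ) / D : ℚ) : OnePoint ℚ) := by
  have hD' : (D : ℚ) ≠ 0 := by exact_mod_cast hD
  have h1 : mob D a 0 D (r : OnePoint ℚ) =
      ((((D : ℚ) * r + a) / (((0 : ℤ) : ℚ) * r + D) : ℚ) : OnePoint ℚ) := by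
    show (if ((0 : ℤ) : ℚ) * r + (D : ℚ) = 0 then ∞ else
      ((((D : ℚ) * r + a) / (((0 : ℤ) : ℚ) * r + D) : ℚ) : OnePoint ℚ)) = _
    rw [if_neg (by simpa using hD')]
  have h2 : ((0 : ℤ) : ℚ) * r + (D : ℚ) = D := by simp
  rw [h1, h2]
  congr 1
  rw [add_div, mul_div_cancel_left₀ r hD']

/-- translations commute on cusps -/
theorem mob_comm (D a D' a' : ℤ) (hD : D ≠ 0) (hD' : D' ≠ 0) (x : OnePoint ℚ) :
    mob D a 0 D (mob D' a' 0 D' x) = mob D' a' 0 D' (mob D a 0 D x) := by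
  induction x using OnePoint.rec with
  | infty => rw [mob_inf, mob_inf, mob_inf]
  | coe r =>
    rw [mob_tr D' a' hD', mob_tr D a hD, mob_tr D a hD, mob_tr D' a' hD']
    congr 1
    ring

end PRT

open PRT in
theorem to_PRT : So_PRT := by
  intro p hp V hvp N₁ W P Q q c hq hW hc hprj hG N' hN' hdvd
  by_contra hcon
  push Not at hcon
  obtain ⟨M, hM⟩ : ∃ M : ℕ, M = N' := ⟨_, rfl⟩
  rw [← hM] at hcon hN' hdvd
  obtain ⟨D, hD⟩ : ∃ D : ℤ, D = (q : ℤ) := ⟨_, rfl⟩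
  have hD0 : D ≠ 0 := by rw [hD]; exact_mod_cast hq
  obtain ⟨α, β, γ, δ, h1, h2, h3, h4⟩ := hG (M * q ^ 2) (mul_ne_zero hN' (pow_ne_zero _ hq))
    (Dvd.dvd.mul_right hdvd _)
  have hcast : ((M * q ^ 2 : ℕ) : ℤ) = M * D ^ 2 := by
    push_cast
    rw [hD]
  rw [hcast] at h2 h3
  obtain ⟨u, hu⟩ := h2
  obtain ⟨t, ht⟩ := h3
  have hterm : ∀ k ∈ Finset.range q, V.valuation (c k *
      PT p Q (mob q k 0 q ∞) (mob q k 0 q (mob α β γ δ ∞))) ^ W <
        V.valuation (p : ℂ) := by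
    intro k _
    have e1 : γ = D ^ 2 * (M * u) := by rw [hu]; ring
    have e2 : mob D k 0 D (mob α β γ δ ∞) =
        mob (α + k * D * (M * u)) (β + k * D * M * (t - (β * u - α * t)) - k ^ 2 * (M * u))
          (D ^ 2 * (M * u)) (δ - k * D * (M * u)) ∞ := by
      rw [e1]
      exact conj_mob D k α (M * u) hD0 _ _ _ _
    have hδ2 : δ = 1 + M * D ^ 2 * t := by linarith
    have hα2 : α = 1 + M * D ^ 2 * (β * u - α * t) := by
      have h5 : α = 1 + β * γ - α * (δ - 1) := by linarith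
      rw [ht, hu] at h5
      linarith
    rw [← hD, e2, mob_inf, map_mul]
    have h5 := hcon (α + k * D * (M * u))
      (β + k * D * M * (t - (β * u - α * t)) - k ^ 2 * (M * u))
      (D ^ 2 * (M * u)) (δ - k * D * (M * u)) ?_ ?_ ?_
    · refine lt_of_le_of_lt (pow_le_pow_left₀ zero_le (mul_le_of_le_one_left' (hc k)) W) h5
    · have e3 : δ - α = M * D ^ 2 * (t - (β * u - α * t)) := by linarith
      have e4 : α * δ - β * (D ^ 2 * (M * u)) = 1 := by rw [← e1]; exact h1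
      linear_combination e4 + (k * D * (M * u)) * e3
    · exact Dvd.intro_left (D ^ 2 * u) (by ring)
    · refine ⟨D ^ 2 * t - k * D * u, ?_⟩
      rw [hδ2]
      ring
  have hp0 : (p : ℂ) ≠ 0 := by exact_mod_cast hp.ne_zero
  have h3pos : (0 : V.ValueGroup) < V.valuation (p : ℂ) :=
    lt_of_le_of_ne zero_le ((Valuation.ne_zero_iff _).2 hp0).symm
  have hsum : V.valuation (∑ k ∈ Finset.range q, c k *
      PT p Q (mob q k 0 q ∞) (mob q k 0 q (mob α β γ δ ∞))) ^ W <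
        V.valuation (p : ℂ) := by
    refine Finset.sum_induction _ (fun x => V.valuation x ^ W < V.valuation (p : ℂ)) ?_ ?_ hterm
    · intro x y hx hy
      have h := V.valuation.map_add x y
      rcases le_total (V.valuation x) (V.valuation y) with hxy | hxy
      · rw [max_eq_right hxy] at h
        exact lt_of_le_of_lt (pow_le_pow_left₀ zero_le h W) hy
      · rw [max_eq_left hxy] at h
        exact lt_of_le_of_lt (pow_le_pow_left₀ zero_le h W) hx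
    · show V.valuation 0 ^ W < _
      rw [map_zero, zero_pow hW]
      exact h3pos
  have hq0 : (q : ℤ) ≠ 0 := by exact_mod_cast hq
  have hp3 : ((p : ℤ) ^ 3) ≠ 0 := pow_ne_zero _ (by exact_mod_cast hp.ne_zero)
  have hPT : PT p P ∞ (mob α β γ δ ∞) = ∑ k ∈ Finset.range q, c k *
      PT p Q (mob q k 0 q ∞) (mob q k 0 q (mob α β γ δ ∞)) := by
    unfold PT
    rw [← hprj ∞ (mob α β γ δ ∞), ← hprj (mob ((p : ℤ) ^ 3) 1 0 ((p : ℤ) ^ 3) ∞)
      (mob ((p : ℤ) ^ 3) 1 0 ((p : ℤ) ^ 3) (mob α β γ δ ∞)), ← Finset.sum_sub_distrib]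
    refine Finset.sum_congr rfl fun k _ => ?_
    rw [mob_comm q k ((p : ℤ) ^ 3) 1 hq0 hp3 ∞,
      mob_comm q k ((p : ℤ) ^ 3) 1 hq0 hp3 (mob α β γ δ ∞), mul_sub]
  rw [← hPT] at hsum
  exact absurd h4 (not_le.2 hsum)

end

end Pool.Agent.OBH
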