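import Pool.Agent.OB.StHN

/-!
# OB, block H, module TYP: arithmetic of types
-/

set_option autoImplicit false

namespace Pool.Agent.OBH

open _root_.MU3 Pool.Agent.MuSym Pool.Agent.MUXH OnePoint

noncomputable section

namespace TYP

variable {Γ : Type*} [LinearOrderedCommGroupWithZero Γ]

lemma one_le_of_pow {a : Γ} {n : ℕ} (h : 1 ≤ a ^ n) (hn : n ≠ 0) : 1 ≤ a := by
  by_contra hc
  exact absurd h (not_le.2 (pow_lt_one₀ zero_le (not_le.1 hc) hn))

lemma key {t a x : Γ} (ht : t < 1) (e q i m M : ℕ) (he : 1 ≤ e) (hiq : i < q)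
    (hE : e * q ≤ i * m) (hM : e * q < M) (hx : x < 1 → x ^ e ≤ t)
    (hp : a ^ (e * q) * t ^ i = 1) :
    (t ≤ (a * x) ^ M → 1 ≤ a * x) ∧ (1 ≤ a * x → 1 ≤ (a * x) ^ m * t) := by
  have hE0 : e * q ≠ 0 := Nat.mul_ne_zero (by omega) (by omega)
  have hi0 : i ≠ 0 := by
    rintro rfl
    rw [Nat.zero_mul] at hE
    omega
  have ht0 : t ≠ 0 := by
    rintro rfl
    rw [zero_pow hi0, mul_zero] at hp
    exact zero_ne_one hp
  have htp : 0 < t := zero_lt_iff.2 ht0
  have hti : t ^ i ≤ 1 := pow_le_one' ht.le i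
  have hp1 : 1 ≤ a := by
    apply one_le_of_pow (n := e * q) _ hE0
    calc (1 : Γ) = a ^ (e * q) * t ^ i := hp.symm
      _ ≤ a ^ (e * q) * 1 := mul_le_mul' le_rfl hti
      _ = a ^ (e * q) := mul_one _
  have e0 : (a * x) ^ (e * q) * t ^ i = x ^ (e * q) := by
    rw [mul_pow, mul_right_comm, hp, one_mul]
  have h0 : x < 1 → (a * x) ^ (e * q) * t ^ i ≤ t ^ q := by
    intro h
    rw [e0, pow_mul]
    exact pow_le_pow_left' (hx h) q
  constructor
  · intro h
    by_cases hx1 : x < 1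
    · exfalso
      have h1 : t ^ (e * q + i * M) ≤ t ^ (M + i * M) := by
        calc t ^ (e * q + i * M) = t ^ (e * q) * t ^ (i * M) := pow_add _ _ _
          _ ≤ ((a * x) ^ M) ^ (e * q) * t ^ (i * M) :=
              mul_le_mul' (pow_le_pow_left' h (e * q)) le_rfl
          _ = ((a * x) ^ (e * q) * t ^ i) ^ M := by
              rw [mul_pow ((a * x) ^ (e * q)) (t ^ i) M, ← pow_mul, ← pow_mul, ← pow_mul,
                mul_comm M (e * q)]
          _ ≤ (t ^ q) ^ M := pow_le_pow_left' (h0 hx1) M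
          _ = t ^ (q * M) := (pow_mul _ _ _).symm
          _ ≤ t ^ (M + i * M) := by
              apply pow_le_pow_right_of_le_one' ht.le
              calc M + i * M = (i + 1) * M := by ring
                _ ≤ q * M := Nat.mul_le_mul_right M hiq
      have h2 : t ^ (M + i * M) < t ^ (e * q + i * M) :=
        pow_lt_pow_right_of_lt_one₀ htp ht (by omega)
      exact absurd h1 (not_le.2 h2)
    · exact one_le_mul hp1 (not_lt.1 hx1)
  · intro h
    by_cases hx1 : x < 1
    · exfalso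
      have h1 : t ^ i ≤ t ^ q := by
        calc t ^ i = 1 * t ^ i := (one_mul _).symm
          _ ≤ (a * x) ^ (e * q) * t ^ i := mul_le_mul' (one_le_pow_of_one_le' h _) le_rfl
          _ ≤ t ^ q := h0 hx1
      exact absurd h1 (not_le.2 (pow_lt_pow_right_of_lt_one₀ htp ht hiq))
    · have hx2 : 1 ≤ x := not_lt.1 hx1
      apply one_le_of_pow (n := e * q) _ hE0
      calc (1 : Γ) ≤ (x ^ (e * q)) ^ m := one_le_pow_of_one_le' (one_le_pow_of_one_le' hx2 _) _
        _ = ((a * x) ^ (e * q) * t ^ i) ^ m := by rw [e0]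
        _ = (a * x) ^ (e * q * m) * t ^ (i * m) := by
            rw [mul_pow ((a * x) ^ (e * q)) (t ^ i) m, ← pow_mul, ← pow_mul]
        _ ≤ (a * x) ^ (e * q * m) * t ^ (e * q) :=
            mul_le_mul' le_rfl (pow_le_pow_right_of_le_one' ht.le hE)
        _ = ((a * x) ^ m * t) ^ (e * q) := by
            rw [mul_pow ((a * x) ^ m) t (e * q), ← pow_mul, mul_comm m (e * q)]

end TYP

open TYP in
theorem to_TYP : So_TYP := by
  intro p hpp V hv KI e q i he hiq hE hM hKI pi hpi w hw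
  have h := key hv e q i (p - 1) ((p - 1) * p ^ 2) he hiq hE hM (hKI w hw) hpi
  rw [map_mul]
  exact h

end

end Pool.Agent.OBH
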