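import Pool.Agent.OB.HB_HFA
import Pool.Agent.OB.HB_HF1
import Pool.Agent.OB.HB_HF2
import Pool.Agent.OB.HB_HQ1
import Pool.Agent.OB.HB_HQ2
import Pool.Agent.OB.HB_CHR
import Pool.Agent.OB.HB_DEP
import Pool.Agent.OB.HB_PHJ
import Pool.Agent.OB.HB_PJ1
import Pool.Agent.OB.HB_PJ2
import Pool.Agent.OB.HB_QBO
import Pool.Agent.OB.HB_QS2
import Pool.Agent.OB.HB_RAM
import Pool.Agent.OB.HB_REL
import Pool.Agent.OB.HB_SAF
import Pool.Agent.OB.HB_SHJ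
import Pool.Agent.OB.HB_UAL
import Pool.Agent.OB.HB_VAL
import Pool.Agent.OB.HN_BDN
import Pool.Agent.OB.HN_DVN
import Pool.Agent.OB.HN_DVR
import Pool.Agent.OB.HN_FAC
import Pool.Agent.OB.HN_HKN
import Pool.Agent.OB.HN_HN
import Pool.Agent.OB.HN_HR
import Pool.Agent.OB.HN_KYN
import Pool.Agent.OB.HN_LOC
import Pool.Agent.OB.HN_NZ
import Pool.Agent.OB.HN_PAI
import Pool.Agent.OB.HN_PRT
import Pool.Agent.OB.HN_TYP

/-!
# OB, block H, the result: `O_HFIN` from `O_TYF` and `O_GPT` (helper51)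
-/

set_option autoImplicit false

namespace Pool.Agent.OBH

open Pool.Agent.OB

theorem o_RAM : So_RAM := to_RAM
theorem o_VAL : So_VAL := to_VAL o_RAM
theorem o_CHR : So_CHR := to_CHR o_VAL
theorem o_QBO : So_QBO := to_QBO o_RAM
theorem o_DEP : So_DEP := to_DEP o_VAL o_QBO
theorem o_SHJ : So_SHJ := to_SHJ
theorem o_REL : So_REL := to_REL o_QBO o_SHJ o_VAL
theorem o_PJ1 : So_PJ1 := to_PJ1 o_VAL o_RAM
theorem o_PHJ : So_PHJ := to_PHJ o_RAM o_VAL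
theorem o_PJ2 : So_PJ2 := to_PJ2 o_PHJ o_QBO o_VAL
theorem o_SAF : So_SAF := to_SAF o_VAL
theorem o_UAL : So_UAL := to_UAL
theorem o_QS2 : So_QS2 := to_QS2 o_QBO
theorem o_PAI : So_PAI := to_PAI
theorem o_KYN : So_KYN := to_KYN o_PAI
theorem o_LOC : So_LOC := to_LOC
theorem o_NZ : So_NZ := to_NZ o_LOC o_KYN
theorem o_DVN : So_DVN := to_DVN
theorem o_DVR : So_DVR := to_DVR
theorem o_TYP : So_TYP := to_TYP
theorem o_FAC : So_FAC := to_FAC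
theorem o_HKN : So_HKN := to_HKN
theorem o_BDN : So_BDN := to_BDN
theorem o_PRT : So_PRT := to_PRT
theorem o_HN : So_HN := to_HN o_NZ o_DVN o_TYP
theorem o_HR : So_HR := to_HR o_NZ o_DVR o_TYP o_FAC

theorem o_HFIN (hT : O_TYF) (hG : O_GPT) : O_HFIN :=
  to_HFA
    (to_HF1 (to_HQ1 hT hG o_RAM o_VAL o_CHR o_DEP o_PJ1 o_SAF o_UAL o_BDN o_HKN o_TYP o_PRT)
      o_HN o_VAL o_RAM)
    (to_HF2 (to_HQ2 hT hG o_RAM o_VAL o_CHR o_PJ2 o_SAF o_UAL o_BDN o_TYP o_PRT)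
      o_HR o_REL o_QS2 o_VAL)
    o_RAM

end Pool.Agent.OBH
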