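import Pool.Agent.OB.StHB

/-!
# OB, block H (helper51): the two cases `er = 1`, `er = 2` together
-/

set_option autoImplicit false

namespace Pool.Agent.OBH

open _root_.MU3 _root_.Pool.Agent.MU3A _root_.Pool.Agent.MU3B _root_.Pool.Agent.MUX _root_.Pool.Agent.OB OnePoint

/-- the final statement of block H -/
theorem to_HFA (h1 : So_HF1) (h2 : So_HF2) (h3 : So_RAM) : O_HFIN := by
  intro p er A B P V f hS hT ι _ R u el lam hg w hw e he r hr her i hi1 hi2 hty s hs kk hkk n₀
  obtain ⟨hN, -, hR2⟩ := h3 p er A B P V hS.toCaseO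
  have p5 := hS.p5
  rcases hS.ram with ⟨h, -⟩ | ⟨h, -⟩
  · subst h
    rw [one_mul] at hi1
    exact h1 p A B P V f hS hT ι R u el lam hg w hw e he r hr her i hi1 hi2 hty s hs kk hkk n₀
  · subst h
    obtain ⟨hNP, -, -⟩ := hR2 rfl
    rw [hNP] at hi1 hi2
    have hp1 : 0 < p - 1 := by omega
    have h2i : 2 ≤ i := Nat.le_of_mul_le_mul_right hi1 hp1
    have hip : i < p - 1 := by omega
    exact h2 p A B P V f hS hT ι R u el lam hg w hw e he r hr her i h2i hip hty s hs kk hkk n₀

end Pool.Agent.OBH
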