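import Pool.Agent.OB.StHB
import Pool.Agent.MUX.XTF7
import Pool.Agent.MUX.HY_QSX

/-!
# OB, block H, bridge, module SHJ (helper71): the symbol under the quadratic character sum of
the translations `x ↦ x + j/p`
-/

set_option autoImplicit false

namespace Pool.Agent.OBH

open _root_.MU3 _root_.Pool.Agent.MU3A _root_.Pool.Agent.MU3B _root_.Pool.Agent.MU3F _root_.Pool.Agent.MUX
  _root_.Pool.Agent.MUXH _root_.Pool.Agent.MUXHY _root_.Pool.Agent.MuSym _root_.Pool.Agent.OB OnePoint
open _root_.Pool.Agent.MUXF (qb)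

noncomputable section

namespace SHJ

variable {A B : ℤ}

lemma sum_zmod (p : ℕ) [NeZero p] (g : ZMod p → ℂ) :
    ∑ j ∈ Finset.range p, g (j : ZMod p) = ∑ a : ZMod p, g a := by
  refine Finset.sum_nbij' (fun j => (j : ZMod p)) (fun a => a.val) ?_ ?_ ?_ ?_ ?_
  · intro j _
    exact Finset.mem_univ _
  · intro a _
    exact Finset.mem_range.2 (ZMod.val_lt a)
  · intro j hj
    exact ZMod.val_cast_of_lt (Finset.mem_range.1 hj)
  · intro a _
    exact ZMod.natCast_zmod_val a
  · intro j _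
    rfl

/-- the quadratic character of `ZMod p` with complex values -/
def qc (p : ℕ) [Fact p.Prime] : MulChar (ZMod p) ℂ :=
  (quadraticChar (ZMod p)).ringHomComp (Int.castRingHom ℂ)

lemma qc_eq (p : ℕ) [Fact p.Prime] (a : ℤ) :
    qc p (a : ZMod p) = ((jacobiSym a p : ℤ) : ℂ) := by
  rw [← jacobiSym.legendreSym.to_jacobiSym]
  rfl

/-- the Gauss sum with the exponents multiplied by `N` -/
lemma gauss (p : ℕ) (hp : p.Prime) (N : ℤ) (hN : jacobiSym N p ≠ 0) :
    ∑ j ∈ Finset.range p, ((jacobiSym (j : ℤ) p : ℤ) : ℂ) *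
        Complex.exp (2 * Real.pi * Complex.I * N * j / p) =
      ((jacobiSym N p : ℤ) : ℂ) * (∑ j ∈ Finset.range p, ((jacobiSym (j : ℤ) p : ℤ) : ℂ) *
        Complex.exp (2 * Real.pi * Complex.I / p) ^ j) := by
  haveI : Fact p.Prime := ⟨hp⟩
  haveI : NeZero p := ⟨hp.ne_zero⟩
  have h1 : ∀ j : ℕ, ((jacobiSym (j : ℤ) p : ℤ) : ℂ) *
      Complex.exp (2 * Real.pi * Complex.I * N * j / p) =
      qc p (j : ZMod p) * ZMod.stdAddChar ((N : ZMod p) * (j : ZMod p)) := by
    intro j
    rw [← qc_eq]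
    have h2 : ((N : ZMod p) * (j : ZMod p)) = ((N * (j : ℤ) : ℤ) : ZMod p) := by push_cast; ring
    rw [h2, ZMod.stdAddChar_coe]
    push_cast
    congr 2
    ring
  have h2 : ∀ j : ℕ, ((jacobiSym (j : ℤ) p : ℤ) : ℂ) *
      Complex.exp (2 * Real.pi * Complex.I / p) ^ j =
      qc p (j : ZMod p) * ZMod.stdAddChar (j : ZMod p) := by
    intro j
    rw [← qc_eq, ← Complex.exp_nat_mul]
    have h2 : (j : ZMod p) = (((j : ℤ) : ℤ) : ZMod p) := by push_cast; ring
    rw [h2, ZMod.stdAddChar_coe]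
    push_cast
    congr 2
    ring
  simp only [h1, h2]
  rw [sum_zmod p (fun a => qc p a * ZMod.stdAddChar ((N : ZMod p) * a)),
    sum_zmod p (fun a => qc p a * ZMod.stdAddChar a)]
  have hu : IsUnit (N : ZMod p) := by
    rw [isUnit_iff_ne_zero]
    intro h0
    apply hN
    rw [← jacobiSym.legendreSym.to_jacobiSym]
    exact (legendreSym.eq_zero_iff p N).2 h0
  obtain ⟨a, ha⟩ := hu
  have h3 := gaussSum_mulShift (qc p) (ZMod.stdAddChar (N := p)) a
  have h4 : gaussSum (qc p) (AddChar.mulShift (ZMod.stdAddChar (N := p)) a) =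
      ∑ x : ZMod p, qc p x * ZMod.stdAddChar ((N : ZMod p) * x) := by
    unfold gaussSum
    refine Finset.sum_congr rfl fun x _ => ?_
    rw [AddChar.mulShift_apply, ha]
  rw [h4] at h3
  have h5 : qc p (a : ZMod p) = ((jacobiSym N p : ℤ) : ℂ) := by rw [ha, qc_eq]
  rw [h5] at h3
  have h6 : ((jacobiSym N p : ℤ) : ℂ) * ((jacobiSym N p : ℤ) : ℂ) = 1 := by
    have h7 : jacobiSym N p = 1 ∨ jacobiSym N p = -1 := by
      rcases jacobiSym.trichotomy N p with h | h | h
      · exact absurd h hN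
      · exact Or.inl h
      · exact Or.inr h
    rcases h7 with h | h <;> rw [h] <;> norm_num
  have h8 : gaussSum (qc p) (ZMod.stdAddChar (N := p)) =
      ∑ x : ZMod p, qc p x * ZMod.stdAddChar x := rfl
  rw [← h8, ← h3, ← mul_assoc, h6, one_mul]

/-- theta under a weighted sum of translations -/
theorem theta_sum (hc : CQ A B) {b g : Ideal (OO A B)} {e : OO A B → ℂ} (hb : b ≠ ⊥) (hg : g ≠ ⊥)
    (he : IsEI g e) (p : ℕ) (w : ℕ → ℂ) (s : ℤ) (c : ℂ)
    (h : ∀ x ∈ b, e x ≠ 0 → ∑ j ∈ Finset.range p, w j *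
      Complex.exp (2 * Real.pi * Complex.I * ((s * qb b x : ℤ) : ℂ) * j / p) = c)
    (z : ℂ) (hz : 0 < z.im) :
    ∑ j ∈ Finset.range p, w j * thetaI b e (z + s * (j : ℂ) / p) = c * thetaI b e z := by
  have hcq := toCQ hc
  obtain ⟨-, C, hC0, hC⟩ := MUXF.xf_BDD A B hcq _ e hg (toEI he)
  have him : ∀ j : ℕ, 0 < (z + s * (j : ℂ) / p).im := by
    intro j
    have : (s * (j : ℂ) / p).im = 0 := by
      have : (s * (j : ℂ) / p) = ((s * (j : ℝ) / p : ℝ) : ℂ) := by push_cast; ring
      rw [this]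
      exact Complex.ofReal_im _
    rw [Complex.add_im, this, add_zero]
    exact hz
  have hsum : ∀ j : ℕ, Summable (fun x : b => w j * (e x * (starRingEnd ℂ) (emb (x : OO A B)) *
      Complex.exp (2 * Real.pi * Complex.I * ((nm (x : OO A B) : ℂ) / nI b) *
        (z + s * (j : ℂ) / p)))) :=
    fun j : ℕ => (MUXF.xf_TSM A B hcq b hb e C hC (z + s * (j : ℂ) / p) (him j)).mul_left (w j)
  have e1 : ∑ j ∈ Finset.range p, w j * thetaI b e (z + s * (j : ℂ) / p) =
      (1 / 2) * ∑ j ∈ Finset.range p, ∑' x : b, w j * (e x * (starRingEnd ℂ) (emb (x : OO A B)) *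
        Complex.exp (2 * Real.pi * Complex.I * ((nm (x : OO A B) : ℂ) / nI b) *
          (z + s * (j : ℂ) / p))) := by
    rw [Finset.mul_sum]
    refine Finset.sum_congr rfl fun j _ => ?_
    rw [tsum_mul_left]
    unfold thetaI
    ring
  have e0 : c * thetaI b e z = (1 / 2) * ∑' x : b, c * (e x * (starRingEnd ℂ) (emb (x : OO A B)) *
        Complex.exp (2 * Real.pi * Complex.I * ((nm (x : OO A B) : ℂ) / nI b) * z)) := by
    rw [tsum_mul_left]
    unfold thetaI
    ring
  rw [e1, e0, ← Summable.tsum_finsetSum (fun j _ => hsum j)]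
  congr 1
  refine tsum_congr fun x => ?_
  by_cases h3 : e x = 0
  · rw [h3]
    simp
  · obtain ⟨h1, h2⟩ := (MUXF.xf_QB A B hcq b hb).1 x x.2
    have hnI : ((nI b : ℕ) : ℂ) ≠ 0 := by
      have := (MUXF.xf_IDL A B hcq b hb).1
      exact_mod_cast this
    have h4 : ((nm (x : OO A B) : ℤ) : ℂ) / ((nI b : ℕ) : ℂ) = ((qb b (x : OO A B) : ℤ) : ℂ) := by
      have h5 : nm (x : OO A B) = (nI b : ℤ) * qb b (x : OO A B) := h1
      rw [h5]
      push_cast
      field_simp
    have h6 := h x.1 x.2 h3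
    rw [← h6, Finset.sum_mul]
    refine Finset.sum_congr rfl fun j _ => ?_
    rw [h4]
    have h7 : Complex.exp (2 * Real.pi * Complex.I * ((qb b (x : OO A B) : ℤ) : ℂ) *
        (z + s * (j : ℂ) / p)) =
        Complex.exp (2 * Real.pi * Complex.I * ((s * qb b (x : OO A B) : ℤ) : ℂ) * j / p) *
          Complex.exp (2 * Real.pi * Complex.I * ((qb b (x : OO A B) : ℤ) : ℂ) * z) := by
      rw [← Complex.exp_add]
      congr 1
      push_cast
      ring
    rw [h7]
    ring

/-- the symbol under a weighted sum of translations -/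
theorem symb_sum (hc : CQ A B) {b g : Ideal (OO A B)} {e : OO A B → ℂ} (hb : b ≠ ⊥) (hg : g ≠ ⊥)
    (he : IsEI g e) (p : ℕ) (w : ℕ → ℂ) (s : ℤ) (c : ℂ)
    (h : ∀ x ∈ b, e x ≠ 0 → ∑ j ∈ Finset.range p, w j *
      Complex.exp (2 * Real.pi * Complex.I * ((s * qb b x : ℤ) : ℂ) * j / p) = c) (r : ℚ) :
    ∑ j ∈ Finset.range p, w j * PhiI b e ∞ ((r + s * (j : ℚ) / p : ℚ) : OnePoint ℚ) =
      c * PhiI b e ∞ (r : OnePoint ℚ) := by
  have hcq := toCQ hc
  have hI := fun r : ℚ => MUXF.xf_ITG A B hcq b _ e hb hg (toEI he) r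
  have e1 : ∀ j ∈ Finset.range p, w j * PhiI b e ∞ ((r + s * (j : ℚ) / p : ℚ) : OnePoint ℚ) =
      2 * Real.pi * ∫ t in Set.Ioi (0 : ℝ), w j * thetaI b e ((r : ℂ) + t * Complex.I +
        s * (j : ℂ) / p) := by
    intro j _
    rw [Qsx.PhiI_inf]
    unfold IvI
    rw [neg_mul, neg_neg, MeasureTheory.integral_const_mul]
    have : ∫ t in Set.Ioi (0 : ℝ), thetaI b e (((r + s * (j : ℚ) / p : ℚ) : ℂ) + t * Complex.I) =
        ∫ t in Set.Ioi (0 : ℝ), thetaI b e ((r : ℂ) + t * Complex.I + s * (j : ℂ) / p) := by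
      refine MeasureTheory.integral_congr_ae (Filter.Eventually.of_forall fun t => ?_)
      show thetaI b e _ = thetaI b e _
      congr 1
      push_cast
      ring
    rw [this]
    ring
  have e0 : c * PhiI b e ∞ (r : OnePoint ℚ) =
      2 * Real.pi * ∫ t in Set.Ioi (0 : ℝ), c * thetaI b e ((r : ℂ) + t * Complex.I) := by
    rw [Qsx.PhiI_inf]
    unfold IvI
    rw [neg_mul, neg_neg, MeasureTheory.integral_const_mul]
    ring
  rw [Finset.sum_congr rfl e1, e0, ← Finset.mul_sum, ← MeasureTheory.integral_finsetSum]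
  · congr 1
    refine MeasureTheory.setIntegral_congr_fun measurableSet_Ioi ?_
    intro t ht
    refine theta_sum hc hb hg he p w s c h _ ?_
    have h1 : ((r : ℂ)).im = 0 := by
      rw [← Complex.ofReal_ratCast]
      exact Complex.ofReal_im _
    rw [Complex.add_im, h1, zero_add, Complex.mul_im]
    simpa using ht
  · intro j _
    refine MeasureTheory.Integrable.const_mul ?_ (w j)
    have h1 := hI (r + s * (j : ℚ) / p)
    refine h1.congr_fun ?_ measurableSet_Ioi
    intro t _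
    show thetaI b e _ = thetaI b e _
    congr 1
    push_cast
    ring

end SHJ

theorem to_SHJ : So_SHJ := by
  intro p hp _ A B hc b g e hb hg he t ht h r
  constructor
  · have h1 := SHJ.symb_sum hc hb hg he p (fun j => ((jacobiSym (j : ℤ) p : ℤ) : ℂ)) 1
      ((t : ℂ) * (∑ j ∈ Finset.range p, ((jacobiSym (j : ℤ) p : ℤ) : ℂ) *
        Complex.exp (2 * Real.pi * Complex.I / p) ^ j)) (by
        intro x hx hex
        have h2 := h x hx hex
        have h3 := SHJ.gauss p hp (1 * qb b x) (by rw [one_mul, h2]; exact ht)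
        rw [one_mul, h2] at h3
        rw [one_mul]
        exact h3) r
    rw [← h1]
    refine Finset.sum_congr rfl fun j _ => ?_
    norm_num
  · have h1 := SHJ.symb_sum hc hb hg he p (fun j => ((jacobiSym (j : ℤ) p : ℤ) : ℂ)) (-1)
      (((jacobiSym (-1) p : ℤ) : ℂ) * (t : ℂ) *
        (∑ j ∈ Finset.range p, ((jacobiSym (j : ℤ) p : ℤ) : ℂ) *
        Complex.exp (2 * Real.pi * Complex.I / p) ^ j)) (by
        intro x hx hex
        have h2 := h x hx hex
        have h4 : jacobiSym (-1 * qb b x) p = jacobiSym (-1) p * t := by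
          rw [jacobiSym.mul_left, h2]
        have h5 : jacobiSym (-1) p ≠ 0 := by
          haveI : NeZero p := ⟨hp.ne_zero⟩
          rw [Ne, jacobiSym.eq_zero_iff_not_coprime]
          simp
        have h3 := SHJ.gauss p hp (-1 * qb b x) (by rw [h4]; exact mul_ne_zero h5 ht)
        rw [h4] at h3
        rw [h3]
        push_cast
        ring) r
    rw [← h1]
    refine Finset.sum_congr rfl fun j _ => ?_
    congr 3
    push_cast
    ring

end

end Pool.Agent.OBH
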