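import Pool.Agent.OB.StI

/-!
# OB, block I, module BRA: the branches, algebra (helper65)
-/

set_option autoImplicit false

namespace Pool.Agent.OBI

open _root_.MU3 Pool.Agent.MU3 Pool.Agent.MU3A Pool.Agent.MU3B Pool.Agent.RI Pool.Agent.RID
  Pool.Agent.MUX Pool.Agent.MUXK Pool.Agent.MUXI Pool.Agent.NS Pool.Agent.NSI Pool.Agent.OB

noncomputable section

namespace BRAx

open scoped Classical in
/-- the geometric sum over the even exponents -/
theorem geo {F : Type} [Field F] {k : ℕ} {w : F} (hw : w ^ (2 * k) = 1) :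
    ∑ m ∈ Finset.range k, w ^ (2 * m) = if w ^ 2 = 1 then (k : F) else 0 := by
  split_ifs with h
  · simp [pow_mul, h]
  · have h1 := geom_sum_mul (w ^ 2) k
    rw [← pow_mul, hw, sub_self] at h1
    have h2 : ∑ m ∈ Finset.range k, (w ^ 2) ^ m = 0 := by
      rcases mul_eq_zero.1 h1 with h3 | h3
      · exact h3
      · exact absurd (sub_eq_zero.1 h3) h
    simpa [pow_mul] using h2

end BRAx

open BRAx in
theorem oi_BRA : Oi_BRA := by
  classical
  intro F _ p _ hp2 _ M _ Δ _ S u χ hu hS a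
  rintro ⟨θ, hθ⟩
  by_contra hcon
  have hp : p.Prime := Fact.out
  obtain ⟨k, hk⟩ : ∃ k, p = 2 * k + 1 := by
    rcases hp.eq_two_or_odd' with h | h
    · exact absurd h hp2
    · exact h
  have hk1 : p - 1 = 2 * k := by omega
  obtain ⟨θ', hθ'⟩ : ∃ θ' : F →+ ZMod p, ∀ x, θ' x = θ (-2 * x) :=
    ⟨θ.comp (AddMonoidHom.mulLeft (-2)), fun x => rfl⟩
  have h1 : ∀ m : ℕ, ∃ y : M, m < k →
      y ^ p = ∏ δ, a δ ^ (θ' ((χ δ * u δ ^ (2 * m))⁻¹ : Fˣ)).val := by
    intro m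
    by_cases hm : m < k
    · by_contra hno
      apply hcon
      refine ⟨2 * m, by omega, even_two_mul m, θ', fun y hy => hno ⟨y, fun _ => hy⟩⟩
    · exact ⟨1, fun h => absurd h hm⟩
  choose y hy using h1
  -- the sums of the exponents
  obtain ⟨N, hN⟩ : ∃ N : Δ → ℕ, ∀ δ, N δ = ∑ m ∈ Finset.range k,
      (θ' ((χ δ * u δ ^ (2 * m))⁻¹ : Fˣ)).val := ⟨_, fun _ => rfl⟩
  have hNc : ∀ δ, ((N δ : ℕ) : ZMod p) = if δ ∈ S then θ ((χ δ)⁻¹ : Fˣ) else 0 := by
    intro δ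
    rw [hN, Nat.cast_sum]
    have e1 : ∀ m ∈ Finset.range k, (((θ' ((χ δ * u δ ^ (2 * m))⁻¹ : Fˣ)).val : ℕ) : ZMod p) =
        θ (-2 * (((χ δ)⁻¹ : Fˣ) : F) * (((u δ)⁻¹ : Fˣ) : F) ^ (2 * m)) := by
      intro m _
      rw [ZMod.natCast_val, ZMod.cast_id', id, hθ']
      congr 1
      rw [mul_inv, Units.val_mul, ← inv_pow, Units.val_pow_eq_pow_val]
      ring
    rw [Finset.sum_congr rfl e1, ← map_sum, ← Finset.mul_sum, geo]
    · have e2 : ((((u δ)⁻¹ : Fˣ) : F) ^ 2 = 1) ↔ δ ∈ S := by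
        rw [hS]
        rw [← Units.val_pow_eq_pow_val, Units.val_eq_one, inv_pow, inv_eq_one]
      by_cases hδ : δ ∈ S
      · rw [if_pos hδ, if_pos (e2.2 hδ)]
        congr 1
        have e3 : (2 * (k : F) + 1) = 0 := by
          have e4 : ((p : ℕ) : F) = 0 := CharP.cast_eq_zero F p
          rw [hk] at e4
          push_cast at e4
          exact e4
        linear_combination (-(((χ δ)⁻¹ : Fˣ) : F)) * e3
      · rw [if_neg hδ, if_neg (fun h => hδ (e2.1 h)), mul_zero, map_zero]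
    · have e5 := hu δ
      rw [hk1] at e5
      rw [← Units.val_pow_eq_pow_val, inv_pow, e5, inv_one, Units.val_one]
  have hNv : ∀ δ, N δ % p = if δ ∈ S then (θ ((χ δ)⁻¹ : Fˣ)).val else 0 := by
    intro δ
    have e1 := congrArg ZMod.val (hNc δ)
    rw [ZMod.val_natCast] at e1
    rw [e1]
    split_ifs
    · rfl
    · exact ZMod.val_zero
  apply hθ ((∏ m ∈ Finset.range k, y m) * (∏ δ, a δ ^ (N δ / p))⁻¹)
  have e1 : (∏ m ∈ Finset.range k, y m) ^ p = ∏ δ, a δ ^ N δ := by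
    rw [← Finset.prod_pow]
    rw [Finset.prod_congr rfl fun m hm => hy m (Finset.mem_range.1 hm)]
    rw [Finset.prod_comm]
    refine Finset.prod_congr rfl fun δ _ => ?_
    rw [hN, Finset.prod_pow_eq_pow_sum]
  have e2 : ∏ δ, a δ ^ N δ = (∏ δ, a δ ^ (N δ / p)) ^ p *
      ∏ δ ∈ S, a δ ^ (θ ((χ δ)⁻¹ : Fˣ)).val := by
    have e3 : ∏ δ ∈ S, a δ ^ (θ ((χ δ)⁻¹ : Fˣ)).val = ∏ δ, a δ ^ (N δ % p) := by
      rw [← Finset.prod_subset (Finset.subset_univ S)]
      · refine Finset.prod_congr rfl fun δ hδ => ?_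
        rw [hNv, if_pos hδ]
      · intro δ _ hδ
        rw [hNv, if_neg hδ, pow_zero]
    rw [e3, ← Finset.prod_pow, ← Finset.prod_mul_distrib]
    refine Finset.prod_congr rfl fun δ _ => ?_
    rw [← pow_mul, ← pow_add]
    congr 1
    have := Nat.div_add_mod (N δ) p
    rw [mul_comm]
    exact this.symm
  rw [mul_pow, inv_pow, e1, e2]
  rw [mul_comm ((∏ δ, a δ ^ (N δ / p)) ^ p), mul_assoc, mul_inv_cancel, mul_one]

end

end Pool.Agent.OBI
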