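import Pool.Agent.OB.StI
import Pool.Agent.MUX.I_CHI

/-!
# OB, block I, module CHI: one character for all subgroups

The proof of `Pool/Agent/MUX/I_CHI.lean`, with a subgroup.
-/

set_option autoImplicit false

namespace Pool.Agent.OBI

open Pool.Agent.MU3I (ichi_mem_unitGroup ichiRed ichiRed_coe ichi_mem)
open Pool.Agent.MUXI

theorem oi_CHI : Oi_CHI := by
  intro p _ V hpV hC _ Δ _ _ hcomm hpn χ
  have hn : Nat.card Δ ≠ 0 := Nat.card_pos.ne'
  set n := Nat.card Δ with hndef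
  -- the character in the roots of unity of the residue field
  have hχ : ∀ δ, χ δ ∈ rootsOfUnity n (IsLocalRing.ResidueField V) := by
    intro δ
    rw [mem_rootsOfUnity, ← map_pow, hndef, pow_card_eq_one', map_one]
  let χ' : Δ →* rootsOfUnity n (IsLocalRing.ResidueField V) := χ.codRestrict _ hχ
  let E : rootsOfUnity n ℂ ≃* rootsOfUnity n (IsLocalRing.ResidueField V) :=
    MulEquiv.ofBijective (ichiRed V n hn) (CHI.red_bij p V hC n hn hpn)
  refine ⟨(rootsOfUnity n ℂ).subtype.comp (E.symm.toMonoidHom.comp χ'), ?_, ?_⟩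
  · intro δ
    exact (mem_rootsOfUnity n _).1 (E.symm (χ' δ)).2
  intro Δ' _ _ j hj
  have hpn' : ¬ p ∣ Fintype.card Δ' := by
    intro h
    rw [← Nat.card_eq_fintype_card] at h
    exact hpn (h.trans (Subgroup.card_dvd_of_injective j hj))
  obtain ⟨θ, hθ⟩ := CHI.theta p V hC Δ' hpn' (χ.comp j)
  refine ⟨θ, ?_⟩
  intro hmem
  apply hθ
  have hV : ∀ δ : Δ', (((E.symm (χ' (j δ)) : rootsOfUnity n ℂ) : ℂˣ) : ℂ) ∈ V := fun δ =>
    ichi_mem V hn _
  have hres : ∀ δ : Δ', IsLocalRing.residue V ⟨_, hV δ⟩ =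
      ((χ (j δ) : (IsLocalRing.ResidueField V)ˣ) : IsLocalRing.ResidueField V) := by
    intro δ
    rw [← ichiRed_coe V n hn]
    have : ichiRed V n hn (E.symm (χ' (j δ))) = χ' (j δ) := E.apply_symm_apply (χ' (j δ))
    rw [this]
    rfl
  have hsum : ((∑ δ : Δ', (((θ ((χ (j δ))⁻¹ : (IsLocalRing.ResidueField V)ˣ)).val : ℕ) : V) *
      (⟨_, hV δ⟩ : V) : V) : ℂ) ∈ V.nonunits := by
    rw [AddSubmonoidClass.coe_finsetSum]
    have he : ∀ δ : Δ', (((((θ ((χ (j δ))⁻¹ : (IsLocalRing.ResidueField V)ˣ)).val : ℕ) : V) *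
      (⟨_, hV δ⟩ : V) : V) : ℂ) =
        ((θ ((χ (j δ))⁻¹ : (IsLocalRing.ResidueField V)ˣ)).val : ℂ) *
        ((((rootsOfUnity n ℂ).subtype.comp (E.symm.toMonoidHom.comp χ')) (j δ) : ℂˣ) : ℂ) := by
      intro δ
      rfl
    simp_rw [he]
    exact hmem
  rw [ValuationSubring.coe_mem_nonunits_iff] at hsum
  have h4 := (IsLocalRing.residue_eq_zero_iff _).2 hsum
  rw [map_sum] at h4
  simp only [map_mul, map_natCast, hres] at h4
  exact h4

end Pool.Agent.OBI
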