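import Pool.Agent.OB.StI
import Pool.Agent.OB.J_LAYO
import Pool.Agent.MU3.I_IGAM

/-!
# OB, block I, GAM: an automorphism `γ` of `K_n / k` with fixed field `K` which maps `ζ` to `ζ^(1+p)`
-/

set_option autoImplicit false

namespace Pool.Agent.OBI

open _root_.MU3 Pool.Agent.MU3 Pool.Agent.MU3A Pool.Agent.MU3B Pool.Agent.RI Pool.Agent.RID
  Pool.Agent.MUX Pool.Agent.MUXK Pool.Agent.MUXI Pool.Agent.NS Pool.Agent.NSI Pool.Agent.OB
open Pool.Agent.MU3I (zt)

noncomputable section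

namespace GAMx

/-- in a finite cyclic group an element killed by the order of `c` is a power of `c` -/
theorem mem_pow {G : Type} [CommGroup G] [Finite G] [IsCyclic G] (c u : G)
    (h : u ^ orderOf c = 1) : ∃ i : ℕ, c ^ i = u := by
  classical
  have := Fintype.ofFinite G
  have hpos : 0 < orderOf c := orderOf_pos c
  have h1 := IsCyclic.card_pow_eq_one_le (α := G) hpos
  have h2 : (Finset.image (fun i : ℕ => c ^ i) (Finset.range (orderOf c))) ⊆
      (Finset.univ.filter fun a : G => a ^ orderOf c = 1) := by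
    intro a ha
    obtain ⟨i, -, rfl⟩ := Finset.mem_image.1 ha
    refine Finset.mem_filter.2 ⟨Finset.mem_univ _, ?_⟩
    rw [← pow_mul, mul_comm, pow_mul, pow_orderOf_eq_one, one_pow]
  have h3 : (Finset.image (fun i : ℕ => c ^ i) (Finset.range (orderOf c))).card = orderOf c := by
    rw [Finset.card_image_of_injOn, Finset.card_range]
    intro i hi j hj hij
    exact pow_injOn_Iio_orderOf (by simpa using hi) (by simpa using hj) hij
  have h4 := Finset.eq_of_subset_of_card_le h2 (by rw [h3]; exact h1)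
  have h5 : u ∈ (Finset.univ.filter fun a : G => a ^ orderOf c = 1) :=
    Finset.mem_filter.2 ⟨Finset.mem_univ _, h⟩
  rw [← h4] at h5
  obtain ⟨i, -, hi⟩ := Finset.mem_image.1 h5
  exact ⟨i, hi⟩

/-- the field of the roots of unity of order `M` is generated by one of them -/
theorem adj_eq {M : ℕ} (hM : M ≠ 0) {ζ : ℂ} (hζ : IsPrimitiveRoot ζ M) :
    IntermediateField.adjoin ℚ {z : ℂ | z ^ M = 1} = IntermediateField.adjoin ℚ {ζ} := by
  have : NeZero M := ⟨hM⟩
  apply le_antisymm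
  · rw [IntermediateField.adjoin_le_iff]
    intro z hz
    obtain ⟨i, -, rfl⟩ := hζ.eq_pow_of_pow_eq_one hz
    exact pow_mem (IntermediateField.mem_adjoin_simple_self ℚ ζ) i
  · rw [IntermediateField.adjoin_simple_le_iff]
    exact IntermediateField.subset_adjoin ℚ _ hζ.pow_eq_one

theorem pow_iff {F : Type} [Field F] {z : F} {M : ℕ} (hM : M ≠ 0) (hz : IsPrimitiveRoot z M)
    (a b : ℕ) : z ^ a = z ^ b ↔ a ≡ b [MOD M] := by
  have hz0 := hz.ne_zero hM
  have hzu : IsPrimitiveRoot (Units.mk0 z hz0) M := by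
    rw [← IsPrimitiveRoot.coe_units_iff]
    exact hz
  have h1 : z ^ a = z ^ b ↔ (Units.mk0 z hz0) ^ a = (Units.mk0 z hz0) ^ b := by
    rw [← Units.val_inj, Units.val_pow_eq_pow_val, Units.val_pow_eq_pow_val, Units.val_mk0]
  rw [h1, pow_eq_pow_iff_modEq, ← hzu.eq_orderOf]

end GAMx

open GAMx Pool.Agent.MU3I.IGAM in
/-- (GAM) an automorphism `γ` of `K_n / k` with fixed field `K`, which maps `ζ` to `ζ^(1+p)` -/
theorem oi_GAM (h2 : S_GENX) : Oi_GAM := by
  intro p _ hp2 k K Bn _ _ hB hω n h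
  let _ := algC h
  have hpp : p.Prime := Fact.out
  obtain ⟨hB1, hB2⟩ := t_CYCO p hp2 n (Bn n) (hB.lay n)
  obtain ⟨g, hg1, hg2, -⟩ := h2 p k K Bn hB.hk hB.deg hB.lay hB.mono n h
  have hM0 : p ^ (n + 1) ≠ 0 := pow_ne_zero _ hpp.ne_zero
  have : NeZero (p ^ (n + 1)) := ⟨hM0⟩
  set ζ : ℂ := zt (p ^ (n + 1)) with hζdef
  have hζ : IsPrimitiveRoot ζ (p ^ (n + 1)) := Complex.isPrimitiveRoot_exp _ hM0
  have hzD : ζ ∈ K ⊔ Bn n := by
    obtain ⟨ω, hω1, hω2⟩ := hω
    exact hB2 (K ⊔ Bn n) le_sup_right ⟨ω, (le_sup_left : K ≤ K ⊔ Bn n) hω1, hω2⟩ ζ hζ.pow_eq_one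
  have hadj := adj_eq hM0 hζ
  have hD : K ⊔ Bn n = K ⊔ IntermediateField.adjoin ℚ {ζ} := by
    apply le_antisymm
    · refine sup_le le_sup_left ?_
      rw [hadj] at hB1
      exact hB1.trans le_sup_right
    · refine sup_le le_sup_left ?_
      rw [IntermediateField.adjoin_simple_le_iff]
      exact hzD
  set z : ↥(K ⊔ Bn n) := ⟨ζ, hzD⟩ with hzdef
  -- two automorphisms which agree on `K` and on `z` are equal
  have hext : ∀ τ τ' : ↥(K ⊔ Bn n) ≃ₐ[k] ↥(K ⊔ Bn n),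
      (∀ y : ↥(K ⊔ Bn n), (y : ℂ) ∈ K → τ y = τ' y) → τ z = τ' z → τ = τ' := by
    intro τ τ' h1 h2
    apply AlgEquiv.ext
    intro y
    apply Subtype.ext
    exact eqD rfl hD
      ((algebraMap ↥(K ⊔ Bn n) ℂ).comp (τ : ↥(K ⊔ Bn n) →+* ↥(K ⊔ Bn n)))
      ((algebraMap ↥(K ⊔ Bn n) ℂ).comp (τ' : ↥(K ⊔ Bn n) →+* ↥(K ⊔ Bn n)))
      (fun y hy => congrArg (fun t : ↥(K ⊔ Bn n) => (t : ℂ)) (h1 y hy)) hzD
      (congrArg (fun t : ↥(K ⊔ Bn n) => (t : ℂ)) h2) y
  have hz : IsPrimitiveRoot z (p ^ (n + 1)) := by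
    have h3 : IsPrimitiveRoot (algebraMap ↥(K ⊔ Bn n) ℂ z) (p ^ (n + 1)) := hζ
    exact IsPrimitiveRoot.of_map_of_injective h3 (algebraMap ↥(K ⊔ Bn n) ℂ).injective
  obtain ⟨c, -, hc1, hc2⟩ := hz.isPrimitiveRoot_iff.1 (hz.map_of_injective g.injective)
  have hgfix : ∀ (i : ℕ) (y : ↥(K ⊔ Bn n)), (y : ℂ) ∈ K → (g ^ i) y = y := by
    intro i y hy
    induction i with
    | zero => rfl
    | succ i ih => rw [pow_succ', AlgEquiv.mul_apply, ih, (hg2 y).2 hy]
  have hgi : ∀ i : ℕ, (g ^ i) z = z ^ (c ^ i) := by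
    intro i
    induction i with
    | zero => rw [pow_zero, pow_zero, pow_one]; rfl
    | succ i ih =>
      rw [pow_succ, AlgEquiv.mul_apply, ← hc2, map_pow, ih, ← pow_mul, pow_succ]
  have hpow : ∀ a b : ℕ, z ^ a = z ^ b ↔ (a : ZMod (p ^ (n + 1))) = (b : ZMod (p ^ (n + 1))) := by
    intro a b
    rw [ZMod.natCast_eq_natCast_iff]
    exact pow_iff hM0 hz a b
  -- the units
  set cu : (ZMod (p ^ (n + 1)))ˣ := ZMod.unitOfCoprime c hc1 with hcu
  have hcuv : (cu : ZMod (p ^ (n + 1))) = c := ZMod.coe_unitOfCoprime c hc1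
  have hcop : Nat.Coprime (1 + p) (p ^ (n + 1)) := by
    apply Nat.Coprime.pow_right
    rw [Nat.coprime_add_self_left]
    exact Nat.coprime_one_left p
  set u : (ZMod (p ^ (n + 1)))ˣ := ZMod.unitOfCoprime (1 + p) hcop with hu
  have huv : (u : ZMod (p ^ (n + 1))) = 1 + (p : ZMod (p ^ (n + 1))) := by
    rw [hu, ZMod.coe_unitOfCoprime]
    push_cast
    rfl
  have hou : orderOf u = p ^ n := by
    rw [← orderOf_units, huv]
    exact ZMod.orderOf_one_add_prime hpp hp2 n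
  have hoc : orderOf cu = p ^ n := by
    rw [← hg1]
    rw [orderOf_eq_orderOf_iff]
    intro i
    have h3 : cu ^ i = 1 ↔ z ^ (c ^ i) = z ^ 1 := by
      rw [hpow, ← Units.val_inj, Units.val_pow_eq_pow_val, hcuv, Units.val_one]
      push_cast
      rfl
    rw [h3, ← hgi, pow_one]
    constructor
    · intro h4
      exact hext _ _ (fun y hy => (hgfix i y hy).trans rfl) h4
    · intro h4
      rw [h4]
      rfl
  have hcyc : IsCyclic (ZMod (p ^ (n + 1)))ˣ := ZMod.isCyclic_units_of_prime_pow p hpp hp2 (n + 1)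
  obtain ⟨i, hi⟩ := mem_pow cu u (by rw [hoc, ← hou]; exact pow_orderOf_eq_one u)
  obtain ⟨j, hj⟩ := mem_pow u cu (by rw [hou, ← hoc]; exact pow_orderOf_eq_one cu)
  have hgz : (g ^ i) z = z ^ (1 + p) := by
    rw [hgi, hpow]
    have h3 := congrArg (fun t : (ZMod (p ^ (n + 1)))ˣ => (t : ZMod (p ^ (n + 1)))) hi
    simp only [Units.val_pow_eq_pow_val, hcuv, huv] at h3
    push_cast
    exact h3
  refine ⟨g ^ i, fun x => ⟨fun hx => ?_, fun hx => hgfix i x hx⟩, fun x hx => ?_⟩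
  · have h3 : (g ^ i) ^ j = g := by
      rw [← pow_mul]
      have h4 : cu ^ (i * j) = cu ^ 1 := by rw [pow_mul, hi, hj, pow_one]
      have h5 := pow_eq_pow_iff_modEq.1 h4
      rw [hoc, ← hg1] at h5
      have h6 := pow_eq_pow_iff_modEq.2 h5
      rw [h6, pow_one]
    have h4 : ∀ m : ℕ, ((g ^ i) ^ m) x = x := by
      intro m
      induction m with
      | zero => rfl
      | succ m ih => rw [pow_succ', AlgEquiv.mul_apply, ih, hx]
    have h5 := h4 j
    rw [h3] at h5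
    exact (hg2 x).1 h5
  · have hxt : x = z + z⁻¹ := by
      apply Subtype.ext
      rw [hx]
      rfl
    rw [hxt, map_add, map_inv₀, hgz]
    rfl

end

end Pool.Agent.OBI
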