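import Pool.Agent.OB.StI
import Pool.Agent.NS.I_INP

/-!
# OB, block I, module INP (helper79): the input (I3) of block K for one even branch
-/

set_option autoImplicit false

namespace Pool.Agent.OBI

open _root_.MU3 Pool.Agent.MU3 Pool.Agent.MU3A Pool.Agent.MU3B Pool.Agent.RI Pool.Agent.RID
  Pool.Agent.MUX Pool.Agent.MUXK Pool.Agent.MUXI Pool.Agent.NS Pool.Agent.NSI Pool.Agent.OB
open Pool.Agent.MU3I (zt)

noncomputable section

namespace INP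

/-- one of finitely many values is taken infinitely often -/
lemma pigeon (Q : ℕ → ℕ → Prop) (M : ℕ) (h : ∀ n₀, ∃ n, n₀ ≤ n ∧ ∃ j, j < M ∧ Even j ∧ Q n j) :
    ∃ j, j < M ∧ Even j ∧ ∀ n₀, ∃ n, n₀ ≤ n ∧ Q n j := by
  by_contra hcon
  push Not at hcon
  choose! b hb using hcon
  obtain ⟨n, hn, j, hj, hj2, hQ⟩ := h (∑ i ∈ Finset.range M, b i)
  refine hb j hj hj2 n ?_ hQ
  exact (Finset.single_le_sum (f := b) (fun _ _ => Nat.zero_le _)
    (Finset.mem_range.2 hj)).trans hn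

end INP

/-- THE RESULT of block I -/
theorem oi_INP (h1 : Oi_I31) (h2 : Sn_LEM1) (h3 : Sn_NRX) : O_I3 := by
  intro p er iP A B P V f hS hTor ι iι R u el lam hG K₀ K Bn ik iK iKB hX hKT hk hk₀ hkK S c c₀
    n₁ hW C hE hc₀ χ om hom
  have iK₀ : FiniteDimensional ℚ K₀ := NSI.INP.fd hX.le
  have iKB₀ : ∀ n, FiniteDimensional ℚ ↥(K₀ ⊔ Bn n) := fun n =>
    NSI.INP.fd (E' := K ⊔ Bn n) (sup_le_sup_right hX.le _)
  have hNr := h3 p (kk A B) K₀ K Bn hX hk hk₀ S c c₀ n₁ hW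
  obtain ⟨j, hj, hj2, hQ⟩ := INP.pigeon (fun n j =>
      I3At (IsLocalRing.ResidueField V) p (kk A B) K₀ Bn hkK (brO hkK χ om j) 1 n (hk₀ n) (c₀ n)
        (hW.mem₀ n)) (p - 1)
    (fun n₀ => h1 p er A B P V f hS hTor ι R u el lam hG K₀ Bn hX.b0 hX.cop hX.om hKT hk₀ hkK C hE
      c₀ hW.mem₀ hc₀ χ om hom n₀)
  refine ⟨j, hj, hj2, ?_⟩
  exact h2 (IsLocalRing.ResidueField V) p (kk A B) K₀ Bn hX.b0 hX.cop hX.om hk₀ hkK c₀ hW.mem₀
    (NSI.INP.c_ne hW) n₁ hNr (brO hkK χ om j) hQ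

end

end Pool.Agent.OBI
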