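import Pool.Agent.OB.StI
import Pool.Agent.OB.J_LAYO

/-!
# OB, block I, module NCR (helper86): the group `NC h (RB p n)`
-/

set_option autoImplicit false

open NumberField Polynomial

namespace Pool.Agent.OBI

namespace NCRx

open _root_.MU3 Pool.Agent.MU3 Pool.Agent.RI Pool.Agent.RID Pool.Agent.OB Pool.Agent.OB.Lay
  Pool.Agent.MU3I Pool.Agent.MU3I.Ilay

lemma rb_real (p : ℕ) [hp : Fact p.Prime] (n : ℕ) : ∀ x ∈ RB p n, (starRingEnd ℂ) x = x := by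
  have hM : p ^ (n + 1) ≠ 0 := pow_ne_zero _ hp.out.ne_zero
  unfold RB
  set ζ := zt (p ^ (n + 1)) with hζ
  have hζp : IsPrimitiveRoot ζ (p ^ (n + 1)) := zt_prim _ hM
  have hζc : (starRingEnd ℂ) ζ = ζ⁻¹ := conj_root hM hζp.pow_eq_one
  set R := IntermediateField.adjoin ℚ {ζ + ζ⁻¹} with hR
  set c : ℂ →ₐ[ℚ] ℂ := (Complex.conjAe.toAlgHom).restrictScalars ℚ with hc
  have hcz : ∀ z : ℂ, c z = (starRingEnd ℂ) z := fun z => rfl
  have hRR : R ≤ (AlgHom.equalizer c (AlgHom.id ℚ ℂ)).toIntermediateField (fun x hx => by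
      have hx' : c x = x := hx
      show c x⁻¹ = x⁻¹
      rw [map_inv₀, hx']) := by
    rw [hR, IntermediateField.adjoin_simple_le_iff]
    show c (ζ + ζ⁻¹) = ζ + ζ⁻¹
    rw [map_add, map_inv₀, hcz, hζc, inv_inv, add_comm]
  exact fun x hx => hRR hx

lemma rb_deg (p : ℕ) [hp : Fact p.Prime] (h2 : p ≠ 2) (n : ℕ) :
    Module.finrank ℚ (RB p n) = p ^ n * ((p - 1) / 2) := by
  have hM : p ^ (n + 1) ≠ 0 := pow_ne_zero _ hp.out.ne_zero
  have hr := rb_real p n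
  have h3 : 3 ≤ p := by
    have := hp.out.two_le
    omega
  unfold RB at hr ⊢
  set ζ := zt (p ^ (n + 1)) with hζ
  have hζp : IsPrimitiveRoot ζ (p ^ (n + 1)) := zt_prim _ hM
  have hζ0 : ζ ≠ 0 := hζp.ne_zero hM
  have hζc : (starRingEnd ℂ) ζ = ζ⁻¹ := conj_root hM hζp.pow_eq_one
  apply deg ζ _ hζ0
  · have hint : IsIntegral ℚ ζ := (hζp.isIntegral (Nat.pos_of_ne_zero hM)).tower_top
    rw [IntermediateField.adjoin.finrank hint,
      ← cyclotomic_eq_minpoly_rat hζp (Nat.pos_of_ne_zero hM), natDegree_cyclotomic,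
      Nat.totient_prime_pow_succ hp.out, mul_assoc]
    congr 1
    have h4 := (hp.out.odd_of_ne_two h2)
    obtain ⟨k, hk⟩ := h4
    omega
  · intro h1
    have h4 := hr _ h1
    rw [hζc] at h4
    have h5 : ζ ^ 2 = 1 := by
      rw [pow_two]
      nth_rewrite 1 [← h4]
      exact inv_mul_cancel₀ hζ0
    have h6 := Nat.le_of_dvd (by norm_num) (hζp.dvd_of_pow_eq_one 2 h5)
    have h7 : p ^ 1 ≤ p ^ (n + 1) := Nat.pow_le_pow_right hp.out.pos (by omega)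
    rw [pow_one] at h7
    omega

lemma rb_le (p : ℕ) [hp : Fact p.Prime] (n : ℕ) (K : IntermediateField ℚ ℂ)
    (h : ∀ z : ℂ, z ^ (p ^ (n + 1)) = 1 → z ∈ K) : RB p n ≤ K := by
  have hM : p ^ (n + 1) ≠ 0 := pow_ne_zero _ hp.out.ne_zero
  have h1 := h _ (zt_prim _ hM).pow_eq_one
  unfold RB
  rw [IntermediateField.adjoin_simple_le_iff]
  exact add_mem h1 (inv_mem h1)

lemma rb_cc (p : ℕ) [hp : Fact p.Prime] (n : ℕ) : RB p n ≤ CCf p (n + 1) :=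
  rb_le p n _ (fun _ hz => IntermediateField.subset_adjoin _ _ hz)

/-- the numbers `ζ^j + ζ^(-j)` -/
lemma dick (ζ : ℂ) (hζ : ζ ≠ 0) (K : IntermediateField ℚ ℂ) (h : ζ + ζ⁻¹ ∈ K) (j : ℕ) :
    ζ ^ j + (ζ ^ j)⁻¹ ∈ K ∧ ζ ^ (j + 1) + (ζ ^ (j + 1))⁻¹ ∈ K := by
  induction j with
  | zero =>
    refine ⟨?_, by simpa using h⟩
    rw [pow_zero, inv_one]
    exact add_mem (one_mem _) (one_mem _)
  | succ j ih =>
    refine ⟨ih.2, ?_⟩
    have e : ζ ^ (j + 1 + 1) + (ζ ^ (j + 1 + 1))⁻¹ =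
        (ζ + ζ⁻¹) * (ζ ^ (j + 1) + (ζ ^ (j + 1))⁻¹) - (ζ ^ j + (ζ ^ j)⁻¹) := by
      field_simp
      ring
    rw [e]
    exact sub_mem (mul_mem h ih.2) ih.1

lemma in_rb (p : ℕ) [hp : Fact p.Prime] (n : ℕ) (z : ℂ) (hz : z ^ (p ^ (n + 1)) = 1) :
    z + z⁻¹ ∈ RB p n := by
  have hM : p ^ (n + 1) ≠ 0 := pow_ne_zero _ hp.out.ne_zero
  have : NeZero (p ^ (n + 1)) := ⟨hM⟩
  obtain ⟨i, -, hi⟩ := (zt_prim _ hM).eq_pow_of_pow_eq_one hz
  rw [← hi]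
  exact (dick _ ((zt_prim _ hM).ne_zero hM) _
    (IntermediateField.mem_adjoin_simple_self ℚ _) i).1

lemma sub_rb (p : ℕ) [hp : Fact p.Prime] (h2 : p ≠ 2) (n d : ℕ) (hd : d ∣ p ^ n * ((p - 1) / 2))
    (B : IntermediateField ℚ ℂ) (hB : B ≤ CCf p (n + 1)) (hBd : Module.finrank ℚ B = d) :
    B ≤ RB p n := by
  have hN : p ^ (n + 1) ≠ 0 := pow_ne_zero _ hp.out.ne_zero
  have hirr : Irreducible (cyclotomic (p ^ (n + 1)) ℚ) :=
    cyclotomic.irreducible_rat (Nat.pos_of_ne_zero hN)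
  obtain ⟨Q, hQ, hdQ⟩ := subG (F := ℚ) (E := ℂ) p (n + 1) h2 hirr
    (Complex.isPrimitiveRoot_exp _ hN) (RB p n) (rb_cc p n) d (by rw [rb_deg p h2 n]; exact hd)
  rw [uniqO p h2 (n + 1) B Q hB (hQ.trans (rb_cc p n)) (hBd.trans hdQ.symm)]
  exact hQ

lemma rb_sup (p : ℕ) [hp : Fact p.Prime] (h2 : p ≠ 2) (n : ℕ) (B : IntermediateField ℚ ℂ)
    (hB : IsLayer p n B) : B ≤ RB p n ∧ RB p n = B ⊔ RB p 0 := by
  have hN : p ^ (n + 1) ≠ 0 := pow_ne_zero _ hp.out.ne_zero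
  have h3 : 3 ≤ p := by
    have := hp.out.two_le
    omega
  have h1 : B ≤ RB p n := sub_rb p h2 n (p ^ n) (Dvd.intro _ rfl) B (t_CYCO p h2 n B hB).1 hB.1
  have h4 : Module.finrank ℚ (RB p 0) = (p - 1) / 2 := by
    rw [rb_deg p h2 0, pow_zero, one_mul]
  have h5 : RB p 0 ≤ RB p n := sub_rb p h2 n ((p - 1) / 2) (Dvd.intro_left _ rfl) (RB p 0)
    ((rb_cc p 0).trans (cc_mono p (by omega))) h4
  refine ⟨h1, ?_⟩
  have hpos : 0 < p ^ n * ((p - 1) / 2) := by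
    have : 0 < (p - 1) / 2 := by omega
    have := hp.out.pos
    positivity
  have : FiniteDimensional ℚ (RB p n) :=
    Module.finite_of_finrank_pos (by rw [rb_deg p h2 n]; exact hpos)
  have hle : B ⊔ RB p 0 ≤ RB p n := sup_le h1 h5
  symm
  refine IntermediateField.eq_of_le_of_finrank_le hle ?_
  have hfd : FiniteDimensional ℚ ↥(B ⊔ RB p 0) :=
    FiniteDimensional.of_injective (IntermediateField.inclusion hle).toLinearMap
      (IntermediateField.inclusion hle).injective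
  have d1 : (p - 1) / 2 ∣ Module.finrank ℚ ↥(B ⊔ RB p 0) := by
    rw [← h4]
    exact IntermediateField.finrank_dvd_of_le_right le_sup_right
  have d2 : p ^ n ∣ Module.finrank ℚ ↥(B ⊔ RB p 0) := by
    rw [← hB.1]
    exact IntermediateField.finrank_dvd_of_le_right le_sup_left
  have hco : Nat.Coprime (p ^ n) ((p - 1) / 2) := by
    apply Nat.Coprime.pow_left
    rw [hp.out.coprime_iff_not_dvd]
    intro h
    have h6 := Nat.le_of_dvd (by omega) h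
    omega
  have d3 := hco.mul_dvd_of_dvd_of_dvd d2 d1
  rw [rb_deg p h2 n]
  exact Nat.le_of_dvd Module.finrank_pos d3

end NCRx

open _root_.MU3 Pool.Agent.MU3 Pool.Agent.RI Pool.Agent.RID Pool.Agent.OB Pool.Agent.OB.Lay
  Pool.Agent.MU3I Pool.Agent.MU3I.Ilay NCRx in
theorem oi_NCR : Oi_NCR := by
  intro p hp h2 k K n Bn hB hω h
  let akL : Algebra k ↥(K ⊔ Bn) := algC h
  obtain ⟨hB1, hB2⟩ := rb_sup p h2 n Bn hB
  obtain ⟨ω, hω1, hω2⟩ := hω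
  have hroot : ∀ z : ℂ, z ^ (p ^ (n + 1)) = 1 → z ∈ K ⊔ Bn :=
    (t_CYCO p h2 n Bn hB).2 (K ⊔ Bn) le_sup_right
      ⟨ω, (le_sup_left : K ≤ K ⊔ Bn) hω1, hω2⟩
  refine ⟨hB1, rb_le p n _ hroot, ?_⟩
  intro δ hδ
  constructor
  · intro hδ' z hz
    apply hδ' (z + z⁻¹)
    have h1 : (z : ℂ) ^ (p ^ (n + 1)) = 1 := by
      have h3 : (z : ℂ) ^ p = 1 := by
        rw [← SubmonoidClass.coe_pow, hz]
        rfl
      rw [pow_succ' p n, pow_mul, h3, one_pow]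
    exact in_rb p n z h1
  · intro hδ'
    let c : ↥(K ⊔ Bn) →ₐ[ℚ] ↥(K ⊔ Bn) := RingHom.toRatAlgHom (δ : ↥(K ⊔ Bn) →+* ↥(K ⊔ Bn))
    have hc : ∀ x, c x = δ x := fun x => rfl
    let T : IntermediateField ℚ ↥(K ⊔ Bn) :=
      (AlgHom.equalizer c (AlgHom.id ℚ ↥(K ⊔ Bn))).toIntermediateField (fun x hx => by
        have hx' : c x = x := hx
        show c x⁻¹ = x⁻¹
        rw [map_inv₀, hx'])
    have hT : ∀ x, x ∈ T ↔ δ x = x := fun x => Iff.rfl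
    have h1 : Bn ≤ IntermediateField.lift T := by
      intro x hx
      have hx' : x ∈ K ⊔ Bn := (le_sup_right : Bn ≤ K ⊔ Bn) hx
      have h3 : (⟨x, hx'⟩ : ↥(K ⊔ Bn)) ∈ T := (hT _).2 (hδ ⟨x, hx'⟩ hx)
      exact (IntermediateField.mem_lift (⟨x, hx'⟩ : ↥(K ⊔ Bn))).2 h3
    have h4 : RB p 0 ≤ IntermediateField.lift T := by
      have hM : p ^ (0 + 1) ≠ 0 := pow_ne_zero _ hp.out.ne_zero
      have hzp : zt (p ^ (0 + 1)) ^ p = 1 := by
        have h7 := (zt_prim _ hM).pow_eq_one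
        have h8 : p ^ (0 + 1) = p := by rw [zero_add, pow_one]
        calc zt (p ^ (0 + 1)) ^ p = zt (p ^ (0 + 1)) ^ (p ^ (0 + 1)) := by rw [h8]
          _ = 1 := h7
      have hz : zt (p ^ (0 + 1)) ∈ K ⊔ Bn := hroot _ (by
        rw [pow_succ' p n, pow_mul, hzp, one_pow])
      unfold RB
      rw [IntermediateField.adjoin_simple_le_iff]
      have h5 := hδ' ⟨zt (p ^ (0 + 1)), hz⟩ (Subtype.ext (by
        rw [SubmonoidClass.coe_pow]
        exact hzp))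
      exact (IntermediateField.mem_lift
        ((⟨zt (p ^ (0 + 1)), hz⟩ : ↥(K ⊔ Bn)) + ⟨zt (p ^ (0 + 1)), hz⟩⁻¹)).2 ((hT _).2 h5)
    have h6 : RB p n ≤ IntermediateField.lift T := by
      rw [hB2]
      exact sup_le h1 h4
    intro x hx
    exact (hT x).1 ((IntermediateField.mem_lift x).1 (h6 hx))

end Pool.Agent.OBI
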