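import Pool.Agent.OB.StI

/-!
# OB, block I, module OME: the cyclotomic character modulo `p` (helper9)
-/

set_option autoImplicit false

namespace Pool.Agent.OBI

open _root_.MU3 Pool.Agent.MU3 Pool.Agent.MU3A Pool.Agent.MU3B Pool.Agent.RI Pool.Agent.RID
  Pool.Agent.MUX Pool.Agent.MUXK Pool.Agent.MUXI Pool.Agent.NS Pool.Agent.NSI Pool.Agent.OB
open Pool.Agent.MU3I (zt)

noncomputable section

theorem oi_OME : Oi_OME := by
  intro F _ p hp _ k K _ h hω
  obtain ⟨ω, hωK, hω⟩ := hω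
  letI := algC h
  have hp1 : p.Prime := hp.out
  have : NeZero p := ⟨hp1.ne_zero⟩
  obtain ⟨w, hw⟩ : ∃ w : K, IsPrimitiveRoot w p := ⟨⟨ω, hωK⟩,
    IsPrimitiveRoot.of_map_of_injective (f := (algebraMap K ℂ)) hω (algebraMap K ℂ).injective⟩
  refine ⟨(Units.map ((ZMod.castHom (dvd_refl p) F : ZMod p →+* F) : ZMod p →* F)).comp
    (hw.autToPow k), ?_⟩
  intro σ z c hz hz1 hσ
  obtain ⟨a, ha, rfl⟩ := hw.eq_pow_of_pow_eq_one hz
  have h1 := hw.autToPow_spec k σ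
  show (ZMod.castHom (dvd_refl p) F) ((hw.autToPow k σ : (ZMod p)ˣ) : ZMod p) = (c : F)
  have ha0 : (a : ZMod p) ≠ 0 := by
    intro h0
    rw [ZMod.natCast_eq_zero_iff] at h0
    apply hz1
    rw [Nat.eq_zero_of_dvd_of_lt h0 ha, pow_zero]
  have h2 : w ^ (((hw.autToPow k σ : (ZMod p)ˣ) : ZMod p).val * a) = w ^ (a * c) := by
    rw [pow_mul, h1, ← map_pow, hσ, pow_mul]
  have hu := hw.isUnit hp1.ne_zero
  have h2' : hu.unit ^ (((hw.autToPow k σ : (ZMod p)ˣ) : ZMod p).val * a) =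
      hu.unit ^ (a * c) := by
    apply Units.ext
    rw [Units.val_pow_eq_pow_val, Units.val_pow_eq_pow_val, IsUnit.unit_spec]
    exact h2
  have h3 := pow_eq_pow_iff_modEq.1 h2'
  rw [← orderOf_units, IsUnit.unit_spec, ← hw.eq_orderOf, ← ZMod.natCast_eq_natCast_iff, Nat.cast_mul,
    Nat.cast_mul, ZMod.natCast_zmod_val, mul_comm (a : ZMod p)] at h3
  rw [mul_right_cancel₀ ha0 h3, map_natCast]

end

end Pool.Agent.OBI
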