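import Pool.Agent.OB.StI
import Pool.Agent.OB.J_LAYO
import Pool.Agent.NS.T_ALT
import Pool.Agent.MUX.UAll
import Pool.Agent.MUX.F_ALG

/-!
# OB, block I, module SUB: the fields `K B_n` are contained in the ray class fields
(after `Pool/Agent/NS/I_SUB.lean` and `Pool/Agent/NS/IR_SUB.lean`)
-/

set_option autoImplicit false

namespace Pool.Agent.OBI

open _root_.MU3 Pool.Agent.MU3 Pool.Agent.MU3A Pool.Agent.MU3B Pool.Agent.RI Pool.Agent.RID
  Pool.Agent.MUX Pool.Agent.MUXU Pool.Agent.MUXK Pool.Agent.MUXI Pool.Agent.NS Pool.Agent.NSI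
  Pool.Agent.OB Pool.Agent.OBT
open Pool.Agent.MU3I (zt)
open Pool.Agent.NSRD (lvR)

noncomputable section

namespace SUBx

variable {p er : ℕ} {A B : ℤ} {P : Ideal (OO A B)} {V : ValuationSubring ℂ}

theorem ne_bot (hc : CaseO p er A B P V) : P ≠ ⊥ := by
  intro h
  have h1 := hc.mem
  rw [h, Ideal.mem_bot] at h1
  exact natCast_ne_zero' hc.cq hc.pp.ne_zero h1

theorem int_mem (hc : CaseO p er A B P V) (n : ℤ) : ((n : ℤ) : OO A B) ∈ P ↔ (p : ℤ) ∣ n := by
  constructor
  · intro hn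
    by_contra h
    have hcop : IsCoprime (p : ℤ) n :=
      ((Nat.prime_iff_prime_int.1 hc.pp).coprime_iff_not_dvd).2 h
    obtain ⟨a, b, hab⟩ := hcop
    apply hc.prime.ne_top
    rw [Ideal.eq_top_iff_one]
    have h1 : (1 : OO A B) = (a : OO A B) * ((p : ℕ) : OO A B) + (b : OO A B) * (n : OO A B) := by
      have := congrArg (fun t : ℤ => (t : OO A B)) hab
      push_cast at this
      exact this.symm
    rw [h1]
    exact P.add_mem (P.mul_mem_left _ hc.mem) (P.mul_mem_left _ hn)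
  · rintro ⟨c, rfl⟩
    push_cast
    exact P.mul_mem_right _ hc.mem

/-- in the ramified case `P` is its own conjugate -/
theorem cj_eq (hb : So_BAS) (hc : CaseO p 2 A B P V) : cjI P = P := by
  by_contra h
  obtain ⟨-, -, -, -, -, -, hn, -, -, -, -, hid⟩ := hb p 2 A B P V hc
  have hP := ne_bot hc
  have hpb : idl (A := A) (B := B) p ≠ ⊥ := Pool.Agent.NST.ALT.idl_ne hc.cq hc.pp.ne_zero
  have h1 : Pc P = cjI P := if_neg h
  have h2 : idl (A := A) (B := B) p = sp ((nI P : ℕ) : OO A B) * P := by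
    rw [hid, h1, pow_two, ← mul_assoc, mul_comm (cjI P) P, mul_cjI hc.cq hP]
  have hd : p ∣ nI P := by
    rcases hn with hn | hn
    · rw [hn]
    · rw [hn]; exact dvd_pow_self p two_ne_zero
  have h3 : sp ((nI P : ℕ) : OO A B) ≤ idl p := by
    rw [Ideal.span_singleton_le_span_singleton]
    obtain ⟨c, hc'⟩ := hd
    exact ⟨c, by rw [hc']; push_cast; ring⟩
  have h4 : idl (A := A) (B := B) p * ⊤ ≤ idl p * P := by
    rw [Ideal.mul_top]
    calc idl (A := A) (B := B) p = sp ((nI P : ℕ) : OO A B) * P := h2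
      _ ≤ idl p * P := Ideal.mul_mono_left h3
  have h5 := (mul_le_mul_iff hc.cq hpb).1 h4
  exact hc.prime.ne_top (top_le_iff.1 h5)

/-- `P² = (p)` in the ramified case -/
theorem sq_eq (hb : So_BAS) (hc : CaseO p 2 A B P V) : P ^ 2 = idl (A := A) (B := B) p := by
  obtain ⟨-, -, -, -, -, -, -, -, -, -, -, hid⟩ := hb p 2 A B P V hc
  have h1 : Pc P = ⊤ := if_pos (cj_eq hb hc)
  rw [hid, h1, Ideal.top_mul]

theorem pow_eq (hb : So_BAS) (hc : CaseO p 2 A B P V) (n : ℕ) :
    P ^ (2 * n + 1) = Ideal.span {((p ^ n : ℕ) : OO A B)} * P := by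
  rw [pow_succ, pow_mul, sq_eq hb hc]
  congr 1
  rw [Ideal.span_singleton_pow]
  push_cast
  rfl

/-- the norm of `c ≡ 1` modulo `f P^(2n+1)` -/
theorem nm_one (hb : So_BAS) (hc : CaseO p 2 A B P V) (f n : ℕ) {c : OO A B}
    (h : c - 1 ∈ lvR P f n) : ((p ^ (n + 1) : ℕ) : ℤ) ∣ nm c - 1 := by
  have h1 : c - 1 ∈ Ideal.span {((p ^ n : ℕ) : OO A B)} * P := by
    rw [← pow_eq hb hc]
    exact Ideal.mul_le_right h
  obtain ⟨z, hz, hzc⟩ := Ideal.mem_span_singleton_mul.1 h1
  have h2 : (p : ℤ) ∣ nm z := by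
    rw [← int_mem hc, ← Pool.Agent.MUXF.AlgX.mul_star' z]
    exact P.mul_mem_right _ hz
  have h3 : (p : ℤ) ∣ 2 * z.re + B * z.im := by
    rw [← int_mem hc]
    have h4 : star z ∈ P := by
      have h5 : z ∈ cjI P := by rw [cj_eq hb hc]; exact hz
      exact h5
    have hint : ∀ n : ℤ, ((n : ℤ) : OO A B) = ⟨n, 0⟩ := fun n => by ext <;> simp
    have h6 : ((2 * z.re + B * z.im : ℤ) : OO A B) = z + star z := by
      rw [hint]
      ext
      · simp
        ring
      · simp
    rw [h6]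
    exact P.add_mem hz h4
  obtain ⟨a, ha⟩ := h2
  obtain ⟨b, hb'⟩ := h3
  have e1 : c = ⟨1 + p ^ n * z.re, p ^ n * z.im⟩ := by
    have h4 : c = 1 + ((p ^ n : ℕ) : OO A B) * z := by rw [hzc]; ring
    rw [h4]
    have e2 : ((p ^ n : ℕ) : OO A B) = ⟨p ^ n, 0⟩ := by
      ext
      · rw [QuadraticAlgebra.re_natCast]; push_cast; rfl
      · rw [QuadraticAlgebra.im_natCast]
    rw [e2]
    ext
    · simp
      rfl
    · simp
      rfl
  have e3 : nm c - 1 = p ^ n * (2 * z.re + B * z.im) + p ^ n * p ^ n * nm z := by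
    rw [e1]
    unfold nm
    simp only
    ring
  rw [e3, hb', ha]
  refine ⟨b + p ^ n * a, ?_⟩
  push_cast
  ring

/-- the field of roots of unity is in `F` if the roots of unity are -/
theorem sup_le_F {p n : ℕ} (hp : p.Prime) (h2 : p ≠ 2) {K Bn : IntermediateField ℚ ℂ}
    (hlay : IsLayer p n Bn) (F : IntermediateField ℚ ℂ) (hK : K ≤ F)
    (hz : ∀ z : ℂ, z ^ p ^ (n + 1) = 1 → z ∈ F) : K ⊔ Bn ≤ F := by
  have : Fact p.Prime := ⟨hp⟩
  refine sup_le hK (((t_CYCO p h2 n Bn hlay).1).trans ?_)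
  rw [IntermediateField.adjoin_le_iff]
  exact fun z h => hz z h

end SUBx

open SUBx in
/-- Module SUB. -/
theorem oi_SUB (h1 : Si_IAF) (hb : So_BAS) : Oi_SUB := by
  intro p er A B P V f hS hT hNL K hK n Bn hn hlay
  have hc : CaseO p er A B P V := hS.toCaseO
  have hC : CQ A B := hc.cq
  have hp2 : p ≠ 2 := by have := hc.p5; omega
  have hp0 : p ≠ 0 := hc.pp.ne_zero
  have hpn : p ^ (n + 1) ≠ 0 := pow_ne_zero _ hp0
  have hlv : lvX p f n = f * p ^ (n + 1) := lvX_odd hp2 f n
  have hlv0 : lvX p f n ≠ 0 := by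
    rw [hlv]; exact Nat.mul_ne_zero hS.f0 hpn
  have hm : idl (A := A) (B := B) (lvX p f n) ≠ ⊥ := Pool.Agent.NST.ALT.idl_ne hC hlv0
  have hdiv : ∀ {M N : ℕ}, M ∣ N → idl (A := A) (B := B) N ≤ idl M := by
    intro M N h
    rw [Ideal.span_singleton_le_span_singleton]
    obtain ⟨c, rfl⟩ := h
    exact ⟨c, by push_cast; ring⟩
  have hle : idl (A := A) (B := B) (lvX p f n) ≤ idl (p ^ (n + 1)) :=
    hdiv ⟨f, by rw [hlv]; ring⟩
  have hle0 : idl (A := A) (B := B) (lvX p f n) ≤ idl (lvX p f 0) :=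
    hdiv ⟨p ^ n, by unfold lvX; ring⟩
  constructor
  · obtain ⟨i1, -, -, -, -, -, -, i8⟩ := h1 A B hC hT hNL _ hm
    obtain ⟨a, ha⟩ := i1 (RingEquiv.refl ℂ) rfl
    have hz : ∀ z : ℂ, z ^ p ^ (n + 1) = 1 → z ∈ RF (idl (A := A) (B := B) (lvX p f n)) :=
      fun z hz => (i8 (p ^ (n + 1)) (RingEquiv.refl ℂ) a z hpn hle ha hz).1
    have hK' : K ≤ IntermediateField.restrictScalars ℚ
        (RF (idl (A := A) (B := B) (lvX p f n))) := by
      intro x hx
      exact hT.mono _ _ hle0 (hK x hx)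
    intro y hy
    exact sup_le_F hc.pp hp2 hlay _ hK' hz hy
  · rintro rfl
    have hlvR : lvR P f n = idl f * (Ideal.span {((p ^ n : ℕ) : OO A B)} * P) := by
      unfold Pool.Agent.NSRD.lvR
      rw [pow_eq hb hc]
    have hle1 : idl (A := A) (B := B) (lvX p f n) ≤ lvR P f n := by
      rw [hlvR, Ideal.span_singleton_le_iff_mem]
      have e1 : ((lvX p f n : ℕ) : OO A B) =
          ((f : ℕ) : OO A B) * (((p ^ n : ℕ) : OO A B) * ((p : ℕ) : OO A B)) := by
        rw [hlv]
        push_cast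
        ring
      rw [e1]
      exact Ideal.mul_mem_mul (Ideal.mem_span_singleton_self _)
        (Ideal.mul_mem_mul (Ideal.mem_span_singleton_self _) hc.mem)
    have hle2 : lvR P f n ≤ idl (lvX p f 0) := by
      obtain ⟨m, rfl⟩ : ∃ m, n = m + 1 := ⟨n - 1, by omega⟩
      rw [hlvR, ← mul_assoc, Ideal.span_singleton_mul_span_singleton]
      refine Ideal.mul_le_left.trans ?_
      rw [Ideal.span_singleton_le_span_singleton, lvX_odd hp2]
      refine ⟨((p ^ m : ℕ) : OO A B), ?_⟩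
      push_cast
      ring
    have hmR : lvR P f n ≠ ⊥ := by
      intro h
      rw [h, le_bot_iff] at hle1
      exact hm hle1
    have hK' : K ≤ IntermediateField.restrictScalars ℚ (RF (lvR P f n)) := by
      intro x hx
      exact hT.mono _ _ hle2 (hK x hx)
    have halg : Algebra.IsAlgebraic ℚ
        ((RF (lvR P f n)).restrictScalars ℚ : IntermediateField ℚ ℂ) := by
      refine ⟨fun x => (IntermediateField.isAlgebraic_iff).2 ?_⟩
      have h2 := hT.mono _ _ hle1 x.2
      exact Pool.Agent.NST.ALT.alg_RF hC hT hlv0 h2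
    have hz : ∀ z : ℂ, z ^ p ^ (n + 1) = 1 → z ∈ RF (lvR P f n) := by
      intro z hz
      have key := u_AUF ((RF (lvR P f n)).restrictScalars ℚ) halg z (fun σ hσ => by
        have hσ' : ∀ y ∈ RF (lvR P f n), σ y = y := fun y hy => hσ y hy
        have hfix : FixK A B σ :=
          hσ' _ (IntermediateField.algebraMap_mem (RF (lvR P f n))
            (⟨wC A B, IntermediateField.mem_adjoin_simple_self ℚ (wC A B)⟩ : kk A B))
        obtain ⟨b, L, om, hL⟩ := hNL
        obtain ⟨a, hcop, ha⟩ := hT.act (idl (lvX p f n)) hm σ hfix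
        obtain ⟨b', L', om', mu, hL', hA⟩ := ha b L om hL
        have hA' : ActI σ (lvR P f n) a L L' mu := by
          refine ⟨hA.kap, ?_, hA.isq, fun z hz => hA.act z fun x hx => hz x (hle1 hx)⟩
          rw [Ideal.isCoprime_iff_sup_eq] at hcop ⊢
          rw [eq_top_iff, ← hcop]
          exact sup_le_sup_left hle1 a
        obtain ⟨c, hc1, hca⟩ := (hT.triv _ a σ b L L' om mu hmR hfix hL hA' hL'.nrm).1 hσ'
        have h3 := (hT.zeta (p ^ (n + 1)) (idl (lvX p f n)) a σ b L L' om mu hm hfix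
          hpn hle hL hA z hz).2
        rw [h3, hca]
        have h4 := nm_one hb hc f n hc1
        have hc0 : c ≠ 0 := by
          rintro rfl
          have h6 : (0 - 1 : OO A B) ∈ P := by
            have h7 : lvR P f n ≤ P := by
              rw [hlvR]
              exact (Ideal.mul_le_right).trans Ideal.mul_le_right
            exact h7 hc1
          apply hc.prime.ne_top
          rw [Ideal.eq_top_iff_one]
          have h8 := P.neg_mem h6
          rwa [zero_sub, neg_neg] at h8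
        have hnn : 0 ≤ nm c := by
          have h6 : 4 * nm c = (2 * c.re + B * c.im) ^ 2 - (B ^ 2 + 4 * A) * c.im ^ 2 := by
            unfold nm
            ring
          have h7 := hC.neg
          nlinarith [sq_nonneg (2 * c.re + B * c.im), sq_nonneg c.im]
        have h5 : ((nI (sp c) : ℕ) : ℤ) = nm c := by
          rw [Pool.Agent.MUX.nI_sp hC hc0]
          exact Int.natAbs_of_nonneg hnn
        obtain ⟨k, hk⟩ : ∃ k : ℕ, nI (sp c) = 1 + p ^ (n + 1) * k := by
          have h0 : 1 ≤ nI (sp c) := by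
            have : nI (sp c) ≠ 0 := nI_ne_zero hC (by
              rw [ne_eq, Ideal.span_singleton_eq_bot]; exact hc0)
            omega
          have h6 : ((p ^ (n + 1) : ℕ) : ℤ) ∣ ((nI (sp c) - 1 : ℕ) : ℤ) := by
            rw [Nat.cast_sub h0, h5]
            exact_mod_cast h4
          obtain ⟨k, hk⟩ := Int.natCast_dvd_natCast.1 h6
          exact ⟨k, by omega⟩
        rw [hk, pow_add, pow_one, pow_mul, hz, one_pow, mul_one])
      exact key
    intro y hy
    exact sup_le_F hc.pp hp2 hlay _ hK' hz hy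

end

end Pool.Agent.OBI
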