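import Pool.Agent.OB.StI
import Pool.Agent.MUX.XLib

/-!
# OB, block I, module TEI: existence of the Teichmueller character (helper85), after `NS/I_TEI.lean` (helper80)

`N = nI P - 1` is prime to `p` and `x ^ N ≡ 1` modulo `P` for `x ∉ P`. For such an `x` there is exactly one
`N`-th root of unity `η` with `v (emb x - η) < 1`, and then `v (emb x - η) ^ er ≤ v p`
(the product of the `emb x - η` is `emb x ^ N - 1`, and different `N`-th roots of unity differ by units at `V`).
Put `w x = η`, and `w x = 0` for `x ∈ P`; everything follows from the uniqueness.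
-/

set_option autoImplicit false

namespace Pool.Agent.OBI

open _root_.MU3 Pool.Agent.MU3 Pool.Agent.MU3A Pool.Agent.MU3B Pool.Agent.RI Pool.Agent.RID
  Pool.Agent.MUX Pool.Agent.MUXK Pool.Agent.MUXI Pool.Agent.NS Pool.Agent.NSI Pool.Agent.OB
open Pool.Agent.MU3I (zt)

noncomputable section

namespace TEIx

lemma v_root {V : ValuationSubring ℂ} {N : ℕ} (hN : N ≠ 0) {η : ℂ} (h : η ^ N = 1) :
    V.valuation η = 1 := by
  have h1 : V.valuation η ^ N = 1 := by rw [← map_pow, h, map_one]
  exact (pow_eq_one_iff.1 h1).resolve_right hN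

lemma lt_of_pow {V : ValuationSubring ℂ} {er p : ℕ} (vp : V.valuation (p : ℂ) < 1) {z : ℂ}
    (h : V.valuation z ^ er ≤ V.valuation (p : ℂ)) : V.valuation z < 1 := by
  by_contra hc
  rw [not_lt] at hc
  exact absurd ((one_le_pow₀ hc).trans h) (not_le.2 vp)

/-- different `N`-th roots of unity differ by a unit at `V` -/
lemma root_eq {V : ValuationSubring ℂ} {N : ℕ} (hN : N ≠ 0) (vN : V.valuation (N : ℂ) = 1)
    {η η' : ℂ} (h : η ^ N = 1) (h' : η' ^ N = 1) (hv : V.valuation (η - η') < 1) : η = η' := by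
  have h0 : η' ≠ 0 := by
    rintro rfl
    rw [zero_pow hN] at h'
    exact zero_ne_one h'
  have hr8 : (η / η') ^ N = 1 := by rw [div_pow, h, h', div_one]
  have hrv : V.valuation (η / η') = 1 := v_root hN hr8
  have hd : V.valuation (η / η' - 1) < 1 := by
    have e1 : η / η' - 1 = (η - η') / η' := by
      rw [sub_div, div_self h0]
    rw [e1, map_div₀, v_root hN h', div_one]
    exact hv
  by_contra hne
  have hr1 : η / η' ≠ 1 := by
    intro h1
    exact hne ((div_eq_one_iff_eq h0).1 h1)
  generalize η / η' = ρ at hr8 hrv hd hr1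
  have hgeom : ∑ i ∈ Finset.range N, ρ ^ i = 0 := by
    have h1 := mul_geom_sum ρ N
    rw [hr8, sub_self] at h1
    exact (mul_eq_zero.1 h1).resolve_left (sub_ne_zero.2 hr1)
  have hN1 : (N : ℂ) = -∑ i ∈ Finset.range N, (ρ ^ i - 1) := by
    rw [Finset.sum_sub_distrib, hgeom, Finset.sum_const, Finset.card_range, nsmul_eq_mul]
    ring
  have hp : ∀ i : ℕ, V.valuation (ρ ^ i - 1) < 1 := by
    intro i
    rw [← mul_geom_sum ρ i, map_mul]
    refine mul_lt_one_of_lt_of_le hd ?_
    refine Valuation.map_sum_le _ fun j _ => ?_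
    rw [map_pow, hrv, one_pow]
  have h3 : V.valuation (N : ℂ) < 1 := by
    rw [hN1, Valuation.map_neg]
    exact Valuation.map_sum_lt _ one_ne_zero fun i _ => hp i
  rw [vN] at h3
  exact lt_irrefl _ h3

/-- `z ^ N ≡ 1`: then `z` is congruent to an `N`-th root of unity -/
lemma exists_root {V : ValuationSubring ℂ} {N er p : ℕ} (hN : N ≠ 0)
    (vN : V.valuation (N : ℂ) = 1) (vp : V.valuation (p : ℂ) < 1) {z : ℂ}
    (hz : V.valuation (z ^ N - 1) ^ er ≤ V.valuation (p : ℂ)) :
    ∃ η : ℂ, η ^ N = 1 ∧ V.valuation (η - z) ^ er ≤ V.valuation (p : ℂ) := by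
  have hN1 : 0 < N := Nat.pos_of_ne_zero hN
  have hprod : z ^ N - 1 = ∏ η ∈ Polynomial.nthRootsFinset N (1 : ℂ), (z - η) := by
    have h1 := Polynomial.X_pow_sub_one_eq_prod (R := ℂ) (n := N) hN1
      (Complex.isPrimitiveRoot_exp N hN)
    have h2 := congrArg (Polynomial.eval z) h1
    rw [Polynomial.eval_prod] at h2
    simpa using h2
  have hS : ∀ η ∈ Polynomial.nthRootsFinset N (1 : ℂ), η ^ N = 1 := fun η hη =>
    (Polynomial.mem_nthRootsFinset hN1 (1 : ℂ)).1 hη
  by_cases h : ∃ η ∈ Polynomial.nthRootsFinset N (1 : ℂ), V.valuation (z - η) < 1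
  · obtain ⟨η, hη, hv⟩ := h
    refine ⟨η, hS η hη, ?_⟩
    rw [Valuation.map_sub_swap]
    have h1 : V.valuation (z ^ N - 1) = V.valuation (z - η) := by
      rw [hprod, ← Finset.mul_prod_erase _ _ hη, map_mul, map_prod]
      have h2 : ∏ x ∈ (Polynomial.nthRootsFinset N (1 : ℂ)).erase η, V.valuation (z - x) = 1 := by
        refine Finset.prod_eq_one fun x hx => ?_
        obtain ⟨hxne, hxS⟩ := Finset.mem_erase.1 hx
        have h3 : V.valuation (η - x) = 1 := by
          refine le_antisymm ?_
            (not_lt.1 fun h4 => hxne (root_eq hN vN (hS η hη) (hS x hxS) h4).symm)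
          exact (V.valuation.map_sub _ _).trans
            (max_le (v_root hN (hS η hη)).le (v_root hN (hS x hxS)).le)
        have e1 : z - x = (z - η) + (η - x) := by ring
        rw [e1, Valuation.map_add_eq_of_lt_right _ (by rw [h3]; exact hv), h3]
      rw [h2, mul_one]
    rw [← h1]
    exact hz
  · push Not at h
    exfalso
    have h1 : 1 ≤ V.valuation (z ^ N - 1) := by
      rw [hprod, map_prod]
      exact Finset.prod_induction (fun x => V.valuation (z - x)) (fun y => 1 ≤ y)
        (fun a b ha hb => one_le_mul_of_one_le_of_one_le ha hb) le_rfl h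
    exact absurd (lt_of_pow vp hz) (not_lt.2 h1)

end TEIx

open TEIx in
/-- (TEI) existence of the Teichmueller character -/
theorem oi_TEI (h1 : Pool.Agent.OBT.So_BAS) (h2 : Oi_PRF) : Oi_TEI := by
  classical
  intro p er A B P V hC
  have hc : CQ A B := hC.cq
  obtain ⟨vp, -, -, hV1, -, hnat, -, hnq, hq4, -, -, -⟩ := h1 p er A B P V hC
  obtain ⟨-, hP2, hP3, -, -⟩ := h2 p er A B P V hC
  have hP : P.IsPrime := hC.prime
  set N := nI P - 1 with hNd
  have hN : N ≠ 0 := by omega
  have vN : V.valuation (N : ℂ) = 1 := hnat N hnq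
  have hex : ∀ x : OO A B, x ∉ P →
      ∃ η : ℂ, η ^ N = 1 ∧ V.valuation (η - emb x) ^ er ≤ V.valuation (p : ℂ) := by
    intro x hx
    refine exists_root hN vN vp ?_
    have h3 := hP2 _ (hP3 x hx)
    rwa [emb_sub hc, emb_pow hc, emb_one hc] at h3
  choose η hη8 hηv using hex
  have key : ∀ (x : OO A B) (hx : x ∉ P) (ξ : ℂ), ξ ^ N = 1 →
      V.valuation (ξ - emb x) < 1 → η x hx = ξ := by
    intro x hx ξ hξ hv
    refine root_eq hN vN (hη8 x hx) hξ ?_
    have e1 : η x hx - ξ = (η x hx - emb x) - (ξ - emb x) := by ring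
    rw [e1]
    exact lt_of_le_of_lt (V.valuation.map_sub _ _) (max_lt (lt_of_pow vp (hηv x hx)) hv)
  refine ⟨fun x => if hx : x ∈ P then 0 else η x hx, ?_, ?_, ?_, ?_, ?_, ?_⟩
  · have h3 : (1 : OO A B) ∉ P := (Ideal.ne_top_iff_one _).1 hP.ne_top
    rw [dif_neg h3]
    refine key 1 h3 1 (one_pow N) ?_
    rw [emb_one hc, sub_self, map_zero]
    exact zero_lt_one
  · intro x y
    by_cases hx : x ∈ P
    · rw [dif_pos hx, dif_pos (Ideal.mul_mem_right y _ hx), zero_mul]
    · by_cases hy : y ∈ P
      · rw [dif_pos hy, dif_pos (Ideal.mul_mem_left _ x hy), mul_zero]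
      · have hxy : x * y ∉ P := fun h => (hP.mem_or_mem h).elim hx hy
        rw [dif_neg hx, dif_neg hy, dif_neg hxy]
        refine key (x * y) hxy _ (by rw [mul_pow, hη8, hη8, one_mul]) ?_
        have e1 : η x hx * η y hy - emb (x * y) =
            η x hx * (η y hy - emb y) + emb y * (η x hx - emb x) := by
          rw [emb_mul hc]
          ring
        rw [e1]
        refine lt_of_le_of_lt (V.valuation.map_add _ _) (max_lt ?_ ?_)
        · rw [map_mul, v_root hN (hη8 x hx), one_mul]
          exact lt_of_pow vp (hηv y hy)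
        · rw [map_mul]
          exact lt_of_le_of_lt (mul_le_of_le_one_left' (hV1 y)) (lt_of_pow vp (hηv x hx))
  · intro x y hxy
    by_cases hx : x ∈ P
    · have hy : y ∈ P := by
        have h := Ideal.sub_mem _ hx hxy
        rwa [sub_sub_cancel] at h
      rw [dif_pos hx, dif_pos hy]
    · have hy : y ∉ P := by
        intro h
        apply hx
        have h := Ideal.add_mem _ hxy h
        rwa [sub_add_cancel] at h
      rw [dif_neg hx, dif_neg hy]
      refine key x hx _ (hη8 y hy) ?_
      have e1 : η y hy - emb x = (η y hy - emb y) - emb (x - y) := by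
        rw [emb_sub hc]
        ring
      rw [e1]
      exact lt_of_le_of_lt (V.valuation.map_sub _ _)
        (max_lt (lt_of_pow vp (hηv y hy)) (lt_of_pow vp (hP2 _ hxy)))
  · intro x hx
    rw [dif_pos hx]
  · intro x hx
    rw [dif_neg hx]
    exact hη8 x hx
  · intro x
    by_cases hx : x ∈ P
    · rw [dif_pos hx, zero_sub, Valuation.map_neg]
      exact hP2 x hx
    · rw [dif_neg hx]
      exact hηv x hx

end

end Pool.Agent.OBI
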