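import Pool.Agent.OB.StI
import Pool.Agent.MUX.I_TH

/-!
# OB, block I, module TH: the sums `That_j` with a twist `t` (after `Pool/Agent/NS/I_TH.lean`)
-/

set_option autoImplicit false

namespace Pool.Agent.OBI

open _root_.MU3 Pool.Agent.MU3 Pool.Agent.MU3A Pool.Agent.MU3B Pool.Agent.RI Pool.Agent.RID
  Pool.Agent.MUX Pool.Agent.MUXK Pool.Agent.MUXI Pool.Agent.NS Pool.Agent.NSI Pool.Agent.OB

noncomputable section

namespace THx

/-- norm prime to `p` and prime to `f`: prime to the level -/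
lemma cop_lv {p : ℕ} {A B : ℤ} {f : ℕ} (hp : p.Prime) (hp2 : p ≠ 2) (n : ℕ) (x : OO A B)
    (hx : ¬ (p : ℤ) ∣ nm x) (hf : IsCoprime x ((f : ℕ) : OO A B)) :
    IsCoprime x ((lvX p f n : ℕ) : OO A B) := by
  have h1 : IsCoprime (nm x) (p : ℤ) :=
    ((Prime.coprime_iff_not_dvd (Nat.prime_iff_prime_int.1 hp)).2 hx).symm
  have h2 : IsCoprime ((nm x : ℤ) : OO A B) (((p : ℕ) : ℤ) : OO A B) := h1.intCast
  rw [← MUXI.TH.mul_star_nm, Int.cast_natCast] at h2
  have h3 : IsCoprime x ((p : ℕ) : OO A B) := h2.of_mul_left_left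
  rw [lvX_odd hp2, Nat.cast_mul, Nat.cast_pow]
  exact hf.mul_right h3.pow_right

lemma cop_f {A B : ℤ} {f : ℕ} {g : Ideal (OO A B)} (hg : g ≤ idl f) {x : OO A B}
    (h : IsCoprime (sp x) g) : IsCoprime x ((f : ℕ) : OO A B) := by
  have h1 : IsCoprime (sp x) (idl (A := A) (B := B) f) := by
    rw [Ideal.isCoprime_iff_sup_eq] at h ⊢
    rw [eq_top_iff, ← h]
    exact sup_le_sup_left hg _
  exact Ideal.isCoprime_span_singleton_iff _ _ |>.1 h1

/-! ### One summand -/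

open Classical in
lemma term {p : ℕ} {A B : ℤ} {f : ℕ}
    (hS : SetQ p A B f) (n : ℕ) {e0 e w : OO A B → ℂ} {s : ℤ} {t : ℤ → ℂ}
    {g : Ideal (OO A B)} (hg : g ≤ idl f)
    (hE : IsEI g e) (htm : ∀ a b : ℤ, t (a * b) = t a * t b)
    (htp : ∀ a b : ℤ, (p : ℤ) ∣ a - b → t a = t b) (ht1 : t 1 = 1) (hts : t (-1) = s)
    (hes : ∀ x, IsCoprime x ((lvX p f 0 : ℕ) : OO A B) → e0 x * w x = e x * t (nm x))
    (N : ℕ) (j : ℕ) (kp d c : ℂ) (x : OO A B) :
    (if IsCoprime x ((lvX p f n : ℕ) : OO A B) ∧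
      (((p ^ (n + 1) : ℕ) : ℤ) ∣ nm x * N - (1 + (p : ℤ)) ^ j ∨
      ((p ^ (n + 1) : ℕ) : ℤ) ∣ nm x * N + (1 + (p : ℤ)) ^ j) then
      (kp * e0 x) * (w x * c * d) else 0) =
    (kp * c * (t N)⁻¹) *
      ((if ((p ^ (n + 1) : ℕ) : ℤ) ∣ nm x * N - (1 + (p : ℤ)) ^ j then e x * d else 0) +
      s * (if ((p ^ (n + 1) : ℕ) : ℤ) ∣ nm x * N - -(1 + (p : ℤ)) ^ j then e x * d else 0)) := by
  set T : ℤ := (1 + (p : ℤ)) ^ j with hT
  have hT1 : (p : ℤ) ∣ T - 1 := MUXI.TH.pow_mod _ _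
  have hpp : Prime (p : ℤ) := Nat.prime_iff_prime_int.1 hS.pp
  have hp3 : 3 ≤ p := by
    have h1 := hS.pp.two_le
    have h2 := hS.p2
    omega
  have hM : (p : ℤ) ∣ ((p ^ (n + 1) : ℕ) : ℤ) := ⟨(p : ℤ) ^ n, by push_cast; ring⟩
  have hs0 : (s : ℂ) ≠ 0 := by
    intro h0
    have h1 := htm (-1) (-1)
    rw [hts, h0] at h1
    norm_num at h1
    rw [ht1] at h1
    exact one_ne_zero h1
  -- not prime to the level, then `e x = 0`
  have hzero : ∀ u : ℤ, (p : ℤ) ∣ nm x * N - u → ¬ (p : ℤ) ∣ u →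
      ¬ IsCoprime x ((lvX p f n : ℕ) : OO A B) → e x = 0 := by
    intro u hu hnu hnc
    by_contra h0
    apply hnc
    refine cop_lv hS.pp hS.p2 n x ?_ (cop_f hg ((hE.supp x).1 h0))
    intro h1
    apply hnu
    have h2 : (p : ℤ) ∣ nm x * N := h1.mul_right _
    have h4 := dvd_sub h2 hu
    rwa [sub_sub_cancel] at h4
  have hlv : IsCoprime x ((lvX p f n : ℕ) : OO A B) →
      IsCoprime x ((lvX p f 0 : ℕ) : OO A B) := by
    intro h1
    refine h1.of_isCoprime_of_dvd_right ⟨((p ^ n : ℕ) : OO A B), ?_⟩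
    unfold lvX
    push_cast
    ring
  have hn1 : ¬ (p : ℤ) ∣ 1 := by
    intro h1
    have h2 := Int.le_of_dvd one_pos h1
    omega
  have hn2 : ¬ (p : ℤ) ∣ 2 := by
    intro h1
    have h2 := Int.le_of_dvd two_pos h1
    omega
  have hnt : ¬ (p : ℤ) ∣ T := by
    intro h1
    have h4 := dvd_sub h1 hT1
    rw [sub_sub_cancel] at h4
    exact hn1 h4
  have hnt' : ¬ (p : ℤ) ∣ -T := fun h1 => hnt ((dvd_neg).1 h1)
  have hnb : ((p ^ (n + 1) : ℕ) : ℤ) ∣ nm x * N - T →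
      ¬ ((p ^ (n + 1) : ℕ) : ℤ) ∣ nm x * N - -T := by
    intro h1 h2
    have h4 := hM.trans (dvd_sub h2 h1)
    have h5 : nm x * N - -T - (nm x * N - T) = 2 * (T - 1) + 2 := by ring
    rw [h5] at h4
    exact hn2 ((Int.dvd_add_right (hT1.mul_left 2)).1 h4)
  by_cases h1 : ((p ^ (n + 1) : ℕ) : ℤ) ∣ nm x * N - T
  · rw [if_pos h1, if_neg (hnb h1), mul_zero, add_zero]
    by_cases hc : IsCoprime x ((lvX p f n : ℕ) : OO A B)
    · rw [if_pos ⟨hc, Or.inl h1⟩]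
      have h2 := hes x (hlv hc)
      have h4 : t (nm x) * t N = 1 := by
        rw [← htm, ← ht1]
        apply htp
        have h7 := dvd_add (hM.trans h1) hT1
        rwa [sub_add_sub_cancel] at h7
      have h5 : t (nm x) = (t N)⁻¹ := eq_inv_of_mul_eq_one_left h4
      rw [h5] at h2
      linear_combination (kp * c * d) * h2
    · rw [if_neg (fun h2 => hc h2.1), hzero T (hM.trans h1) hnt hc, zero_mul, mul_zero]
  · by_cases h2 : ((p ^ (n + 1) : ℕ) : ℤ) ∣ nm x * N - -T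
    · rw [if_neg h1, if_pos h2, zero_add]
      have h2' : ((p ^ (n + 1) : ℕ) : ℤ) ∣ nm x * N + T := by
        rwa [sub_neg_eq_add] at h2
      by_cases hc : IsCoprime x ((lvX p f n : ℕ) : OO A B)
      · rw [if_pos ⟨hc, Or.inr h2'⟩]
        have h3 := hes x (hlv hc)
        have h4 : t (nm x) * t N = s := by
          rw [← htm, ← hts]
          apply htp
          have h7 := dvd_sub (hM.trans h2') hT1
          rwa [show nm x * N + T - (T - 1) = nm x * N - -1 by ring] at h7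
        have hN0 : t N ≠ 0 := by
          intro h0
          rw [h0, mul_zero] at h4
          exact hs0 h4.symm
        have h5 : t (nm x) = s * (t N)⁻¹ := by
          rw [← h4, mul_assoc, mul_inv_cancel₀ hN0, mul_one]
        rw [h5] at h3
        linear_combination (kp * c * d) * h3
      · rw [if_neg (fun h3 => hc h3.1), hzero (-T) (hM.trans h2) hnt' hc, zero_mul,
          mul_zero, mul_zero]
    · rw [if_neg h1, if_neg h2, if_neg]
      · ring
      · rintro ⟨-, h4 | h4⟩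
        · exact h1 h4
        · apply h2
          rwa [sub_neg_eq_add]

lemma lvX_ne {p : ℕ} {A B : ℤ} {f : ℕ} (hS : SetQ p A B f) (n : ℕ) : lvX p f n ≠ 0 := by
  rw [lvX_odd hS.p2]
  exact mul_ne_zero hS.f0 (pow_ne_zero _ hS.pp.ne_zero)

lemma muX_ne {p : ℕ} {A B : ℤ} {f : ℕ}
    (hS : SetQ p A B f) {ι : Type} (R : Reps A B (p * f) ι) (i : ι) : muX R i ≠ 0 := by
  have h1 : nI (R.b i) ≠ 0 := by
    intro h0
    have h2 := R.cop i
    rw [h0, Nat.coprime_zero_left] at h2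
    exact hS.pp.one_lt.ne' (Nat.eq_one_of_mul_eq_one_right h2)
  unfold muX
  refine div_ne_zero (mul_ne_zero (R.nl i).om_ne ?_) (R.nl R.i0).om_ne
  exact_mod_cast h1

end THx

open THx in
/-- (TH) the sums `That_j` with a twist -/
theorem oi_TH (h1 : Oi_TSH) : Oi_TH := by
  classical
  intro p A B f hS g hlv hg ι _ R n G _ _ γ Δ _ X hM χ e0 kp c w e s t _ _ hE htm htp ht1 hts
    hes hχ j
  have hfin : Finite (OO A B ⧸ idl (A := A) (B := B) (lvX p f n)) :=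
    MUXI.TH.finR _ (THx.lvX_ne hS n)
  have hq : q0 p = p := q0_odd hS.p2
  have hpn : p * p ^ n = p ^ (n + 1) := by ring
  rw [MUXI.TH.sum_disj (fun δ : Δ => X (γ ^ j * (δ : G)))
    (fun q δ δ' h2 h4 => Subtype.ext (mul_left_cancel (hM.uniq q _ _ h2 h4)))
    (fun δ => (((χ δ)⁻¹ : ℂˣ) : ℂ)) _ (fun q => kp q.1 * e0 (Quotient.out q.2))
    (fun δ q hq => hχ δ j q hq)]
  have hind : ∀ q : ι × (OO A B ⧸ idl (A := A) (B := B) (lvX p f n)),
      (if ∃ δ : Δ, q ∈ X (γ ^ j * (δ : G)) then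
        kp q.1 * e0 (Quotient.out q.2) * (w (Quotient.out q.2) *
        c q.1 * dlX (R.L q.1) (aX p f) (pt R (lvX p f n) q.1 (Quotient.out q.2))) else 0) =
      kp q.1 * c q.1 * (t (nI (R.b q.1)))⁻¹ *
      ((if ((p ^ (n + 1) : ℕ) : ℤ) ∣ nm (Quotient.out q.2) * nI (R.b q.1) -
          (1 + (p : ℤ)) ^ j then
        e (Quotient.out q.2) * dlX (R.L q.1) (aX p f)
          (pt R (lvX p f n) q.1 (Quotient.out q.2)) else 0) +
      s * (if ((p ^ (n + 1) : ℕ) : ℤ) ∣ nm (Quotient.out q.2) * nI (R.b q.1) -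
          -(1 + (p : ℤ)) ^ j then
        e (Quotient.out q.2) * dlX (R.L q.1) (aX p f)
          (pt R (lvX p f n) q.1 (Quotient.out q.2)) else 0)) := by
    intro q
    have hmem := MUXI.TH.mem_iff hM q j
    rw [hq, hpn] at hmem
    rw [if_congr hmem rfl rfl]
    exact THx.term hS n hg hE htm htp ht1 hts hes _ j _ _ _ _
  rw [finsum_congr hind, MUXI.TH.sum_pairs]
  unfold STX
  rw [Finset.mul_sum, ← Finset.sum_add_distrib]
  refine Finset.sum_congr rfl fun i _ => ?_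
  have hT := h1 p A B f hS g hlv ι R n e hE i ((1 + (p : ℤ)) ^ j)
  have hT' := h1 p A B f hS g hlv ι R n e hE i (-(1 + (p : ℤ)) ^ j)
  rw [MUXI.TH.comb_sum (kp i * c i * (t (nI (R.b i)))⁻¹) (s : ℂ) _ _ _
    (fun x => rfl), ← hT, ← hT']
  have hmu := THx.muX_ne hS R i
  unfold kkT sumMod
  field_simp

end

end Pool.Agent.OBI
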