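import Pool.Agent.OB.StI
import Pool.Agent.MUX.XLib

/-!
# OB, block I: module XMX, the sets `XX` satisfy `XM` for the group `NC h (RB p n)` (helper85), after `NS/I_XMX.lean`
-/

set_option autoImplicit false

namespace Pool.Agent.OBI

open _root_.MU3 Pool.Agent.MU3 Pool.Agent.MU3A Pool.Agent.MU3B Pool.Agent.RI Pool.Agent.RID
  Pool.Agent.MUX Pool.Agent.MUXK Pool.Agent.MUXI Pool.Agent.NS Pool.Agent.NSI Pool.Agent.OB
open Pool.Agent.MU3I (zt)

noncomputable section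

namespace XMXx

/-- the numbers `ζ^u + ζ^(-u)` -/
lemma pm {ζ : ℂ} {M : ℕ} (hM : M ≠ 0) (hζ : IsPrimitiveRoot ζ M) (u v : ℕ) :
    ζ ^ u + (ζ ^ u)⁻¹ = ζ ^ v + (ζ ^ v)⁻¹ ↔
      (M : ℤ) ∣ (u : ℤ) - v ∨ (M : ℤ) ∣ (u : ℤ) + v := by
  have h0 : ζ ≠ 0 := hζ.ne_zero hM
  have hu : ζ ^ u ≠ 0 := pow_ne_zero _ h0
  have hv : ζ ^ v ≠ 0 := pow_ne_zero _ h0
  have e1 : (M : ℤ) ∣ (u : ℤ) - v ↔ ζ ^ u = ζ ^ v := by
    rw [← hζ.zpow_eq_one_iff_dvd, zpow_sub₀ h0, zpow_natCast, zpow_natCast, div_eq_one_iff_eq hv]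
  have e2 : (M : ℤ) ∣ (u : ℤ) + v ↔ ζ ^ u * ζ ^ v = 1 := by
    rw [← hζ.zpow_eq_one_iff_dvd, zpow_add₀ h0, zpow_natCast, zpow_natCast]
  rw [e1, e2]
  constructor
  · intro h
    have h1 : (ζ ^ u - ζ ^ v) * (ζ ^ u * ζ ^ v - 1) = 0 := by
      field_simp at h
      linear_combination h
    rcases mul_eq_zero.1 h1 with h2 | h2
    · exact Or.inl (sub_eq_zero.1 h2)
    · exact Or.inr (sub_eq_zero.1 h2)
  · rintro (h | h)
    · rw [h]
    · have h1 : ζ ^ u = (ζ ^ v)⁻¹ := eq_inv_of_mul_eq_one_left h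
      rw [h1, inv_inv, add_comm]

/-- powers of `± g` -/
lemma pw (M c g : ℤ) (h : M ∣ c - g ∨ M ∣ c + g) (j : ℕ) :
    M ∣ c ^ j - g ^ j ∨ M ∣ c ^ j + g ^ j := by
  rcases h with h | h
  · exact Or.inl (h.trans (sub_dvd_pow_sub_pow c g j))
  · have h1 : M ∣ c ^ j - (-g) ^ j := by
      refine dvd_trans ?_ (sub_dvd_pow_sub_pow c (-g) j)
      rwa [sub_neg_eq_add]
    rcases Nat.even_or_odd j with hj | hj
    · rw [hj.neg_pow] at h1
      exact Or.inl h1
    · rw [hj.neg_pow, sub_neg_eq_add] at h1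
      exact Or.inr h1

lemma pm_iff (M N a b : ℤ) (h : M ∣ a - b ∨ M ∣ a + b) :
    (M ∣ N - a ∨ M ∣ N + a) ↔ (M ∣ N - b ∨ M ∣ N + b) := by
  constructor
  · rintro (h1 | h1)
    · rcases h with h | h
      · left
        have := dvd_add h1 h
        rwa [sub_add_sub_cancel] at this
      · right
        have := dvd_add h1 h
        rwa [show N - a + (a + b) = N + b by ring] at this
    · rcases h with h | h
      · right
        have := dvd_sub h1 h
        rwa [show N + a - (a - b) = N + b by ring] at this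
      · left
        have := dvd_sub h1 h
        rwa [show N + a - (a + b) = N - b by ring] at this
  · rintro (h1 | h1)
    · rcases h with h | h
      · left
        have := dvd_sub h1 h
        rwa [show N - b - (a - b) = N - a by ring] at this
      · right
        have := dvd_add h1 h
        rwa [show N - b + (a + b) = N + a by ring] at this
    · rcases h with h | h
      · right
        have := dvd_add h1 h
        rwa [show N + b + (a - b) = N + a by ring] at this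
      · left
        have := dvd_sub h1 h
        rwa [show N + b - (a + b) = N - a by ring] at this

/-- two homomorphisms which agree on `z` agree on `ℚ(z)` -/
theorem eqB {B D : IntermediateField ℚ ℂ} {z : ℂ} (hB : B = IntermediateField.adjoin ℚ {z})
    (φ ψ : D →+* ℂ) (hz : z ∈ D)
    (h2 : φ ⟨z, hz⟩ = ψ ⟨z, hz⟩) (y : D) (hy : (y : ℂ) ∈ B) : φ y = ψ y := by
  let S : IntermediateField ℚ ℂ :=
    { carrier := {y | ∃ hy : y ∈ D, φ ⟨y, hy⟩ = ψ ⟨y, hy⟩}
      mul_mem' := by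
        rintro a b ⟨ha, ha'⟩ ⟨hb, hb'⟩
        refine ⟨mul_mem ha hb, ?_⟩
        have h3 : (⟨a * b, mul_mem ha hb⟩ : D) = ⟨a, ha⟩ * ⟨b, hb⟩ := rfl
        rw [h3, map_mul, map_mul, ha', hb']
      one_mem' := ⟨one_mem D, by
        have h3 : (⟨1, one_mem D⟩ : D) = 1 := rfl
        rw [h3, map_one, map_one]⟩
      add_mem' := by
        rintro a b ⟨ha, ha'⟩ ⟨hb, hb'⟩
        refine ⟨add_mem ha hb, ?_⟩
        have h3 : (⟨a + b, add_mem ha hb⟩ : D) = ⟨a, ha⟩ + ⟨b, hb⟩ := rfl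
        rw [h3, map_add, map_add, ha', hb']
      zero_mem' := ⟨zero_mem D, by
        have h3 : (⟨0, zero_mem D⟩ : D) = 0 := rfl
        rw [h3, map_zero, map_zero]⟩
      algebraMap_mem' := by
        intro q
        refine ⟨D.algebraMap_mem q, ?_⟩
        have h3 : (⟨algebraMap ℚ ℂ q, D.algebraMap_mem q⟩ : D) = (q : D) := by
          apply Subtype.ext
          simp
        rw [h3, map_ratCast, map_ratCast]
      inv_mem' := by
        rintro a ⟨ha, ha'⟩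
        refine ⟨inv_mem ha, ?_⟩
        have h3 : (⟨a⁻¹, inv_mem ha⟩ : D) = (⟨a, ha⟩ : D)⁻¹ := rfl
        rw [h3, map_inv₀, map_inv₀, ha'] }
  have h4 : B ≤ S := by
    rw [hB, IntermediateField.adjoin_simple_le_iff]
    exact ⟨hz, h2⟩
  obtain ⟨_, h6⟩ := h4 hy
  exact h6

lemma natCast_not_unit {A B : ℤ} {m : ℕ} (hm : 2 ≤ m) (z : OO A B) :
    ((m : ℕ) : OO A B) * z ≠ 1 := by
  intro h
  have h1 := congrArg QuadraticAlgebra.re h
  simp only [QuadraticAlgebra.re_mul, QuadraticAlgebra.re_natCast, QuadraticAlgebra.im_natCast,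
    QuadraticAlgebra.re_one, mul_zero, zero_mul, add_zero] at h1
  have h2 : (m : ℤ) ∣ 1 := ⟨z.re, h1.symm⟩
  have h3 : m ∣ 1 := by exact_mod_cast h2
  have := Nat.le_of_dvd one_pos h3
  omega

lemma nI_top {A B : ℤ} : nI (⊤ : Ideal (OO A B)) = 1 := by
  unfold nI
  have : Subsingleton (OO A B ⧸ (⊤ : Ideal (OO A B))) := Ideal.Quotient.subsingleton_iff.2 rfl
  exact Nat.card_of_subsingleton 0

lemma nI_pow {A B : ℤ} (hc : CQ A B) {c : Ideal (OO A B)} (hc0 : c ≠ ⊥) (j : ℕ) :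
    c ^ j ≠ ⊥ ∧ nI (c ^ j) = nI c ^ j := by
  induction j with
  | zero =>
    rw [pow_zero, pow_zero, Ideal.one_eq_top]
    refine ⟨?_, nI_top⟩
    intro h
    have h1 : (1 : OO A B) ∈ (⊤ : Ideal (OO A B)) := trivial
    rw [h, Ideal.mem_bot] at h1
    have := natCast_ne_zero' hc (n := 1) one_ne_zero
    rw [Nat.cast_one] at this
    exact this h1
  | succ j ih =>
    rw [pow_succ, pow_succ]
    exact ⟨mul_ne_bot hc ih.1 hc0, by rw [nI_mul hc ih.1 hc0, ih.2]⟩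

end XMXx

open XMXx in
theorem oi_XMX (h1 : Si_XXF) (h2 : Si_ARF) : Oi_XMX := by
  intro p A B f hS hT ι R D n h hRB hD
  let aD : Algebra (kk A B) ↥D := algC h
  intro hG γ hγ
  have hQ := hS.cq
  have hp0 : 0 < p := hS.pp.pos
  have hq3 : 3 ≤ p := by
    have h4 := hS.pp.two_le
    have h5 := hS.p2
    omega
  have hf1 : 1 ≤ f := Nat.one_le_iff_ne_zero.2 hS.f0
  have hpn : 1 ≤ p ^ n := Nat.one_le_pow _ _ hp0
  set m : ℕ := lvX p f n with hm
  set M : ℕ := p ^ (n + 1) with hM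
  have hmM : m = f * M := by rw [hm, hM, lvX_odd hS.p2]
  have hM3 : 3 ≤ M := by
    rw [hM]
    calc 3 = 1 * 3 := rfl
      _ ≤ p ^ n * p := Nat.mul_le_mul hpn hq3
      _ = p ^ (n + 1) := (pow_succ p n).symm
  have hm3 : 3 ≤ m := by
    rw [hmM]
    calc 3 = 1 * 3 := rfl
      _ ≤ f * M := Nat.mul_le_mul hf1 hM3
  have hm2 : 2 ≤ m := by omega
  have hM0 : M ≠ 0 := by omega
  have hm0 : idl (A := A) (B := B) m ≠ ⊥ := by
    rw [Ne, Ideal.span_singleton_eq_bot]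
    exact natCast_ne_zero' hQ (by omega)
  have hcop : ∀ i, (nI (R.b i)).Coprime m := by
    intro i
    have h4 := R.cop i
    have h5 : (nI (R.b i)).Coprime p := h4.coprime_mul_right_right
    have h6 : (nI (R.b i)).Coprime f := h4.coprime_mul_left_right
    rw [hmM, hM]
    exact h6.mul_right (h5.pow_right (n + 1))
  have hNL : ∃ (b : Ideal (OO A B)) (L : PeriodPair) (om : ℂ), IsNL b L om :=
    ⟨_, _, _, R.nl R.i0⟩
  obtain ⟨a1, -, a3, a4, a5, -, a7⟩ := h2 A B hQ hT hNL (idl m) hm0 D h hD hG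
  obtain ⟨x1, x2⟩ := h1 A B hQ hT (p * f) ι R m hm2 hcop D h hD hG
  have hcomm : ∀ σ τ : ↥D ≃ₐ[kk A B] ↥D, σ * τ = τ * σ := by
    intro σ τ
    obtain ⟨a, -, ha⟩ := a3 σ
    obtain ⟨b, -, hb⟩ := a3 τ
    have h5 := a5 σ τ a b ha hb
    have h6 := a5 τ σ b a hb ha
    refine a4 _ _ _ _ h5 h6 ⟨1, 1, ?_, ?_, ?_, ?_, ?_⟩
    · have := natCast_ne_zero' hQ (n := 1) one_ne_zero
      rwa [Nat.cast_one] at this
    · have := natCast_ne_zero' hQ (n := 1) one_ne_zero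
      rwa [Nat.cast_one] at this
    · rw [sp, Ideal.span_singleton_one, ← Ideal.one_eq_top]
      exact isCoprime_one_left
    · rw [sub_self]
      exact Ideal.zero_mem _
    · rw [mul_comm a b]
  have hcopr : ∀ τ, ∀ q ∈ XX R m h τ,
      IsCoprime (Quotient.out q.2 : OO A B) ((m : ℕ) : OO A B) := fun τ q hq => hq.1
  refine ⟨hcomm, hcopr, fun q hq => (x2 q hq).1,
    fun q τ τ' hq hq' => (x2 q (hcopr τ q hq)).2 τ τ' hq hq', ?_⟩
  intro q τ hq j
  set ζ : ℂ := zt M with hζd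
  have hζ : IsPrimitiveRoot ζ M := Complex.isPrimitiveRoot_exp M hM0
  have hζM : ζ ^ M = 1 := hζ.pow_eq_one
  have hBn : RB p n = IntermediateField.adjoin ℚ {ζ + ζ⁻¹} := rfl
  have htB : ζ + ζ⁻¹ ∈ RB p n := by
    rw [hBn]
    exact IntermediateField.mem_adjoin_simple_self ℚ _
  have htD : ζ + ζ⁻¹ ∈ D := hRB htB
  set y : ↥D := ⟨ζ + ζ⁻¹, htD⟩ with hy
  have hle : idl (A := A) (B := B) m ≤ idl M := by
    rw [Ideal.span_singleton_le_span_singleton, hmM]
    push_cast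
    exact dvd_mul_left _ _
  -- the ideal of `τ`
  set x : OO A B := Quotient.out q.2 with hx
  have hxc : IsCoprime x ((m : ℕ) : OO A B) := hcopr τ q hq
  have hqe : (q.1, Ideal.Quotient.mk (idl (A := A) (B := B) m) x) = q := by
    have h5 : Ideal.Quotient.mk (idl (A := A) (B := B) m) x = q.2 := Quotient.out_eq q.2
    rw [h5]
  have hAR : AR h (idl m) τ (sp x * cjI (R.b q.1)) := by
    refine (x1 τ q.1 x hxc).1 ?_
    rw [hqe]
    exact hq
  have hx0 : x ≠ 0 := by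
    intro h0
    rw [h0, isCoprime_zero_left] at hxc
    obtain ⟨z, hz⟩ := hxc.exists_right_inv
    exact natCast_not_unit hm2 z hz
  have hb0 : R.b q.1 ≠ ⊥ := (R.nl q.1).b_ne
  have hspx : sp x ≠ ⊥ := by
    rwa [Ne, Ideal.span_singleton_eq_bot]
  have hN : ((nI (sp x * cjI (R.b q.1)) : ℕ) : ℤ) = nm x * nI (R.b q.1) := by
    rw [nI_mul hQ hspx (cjI_ne_bot hQ hb0), nI_sp hQ hx0, nI_cjI hQ hb0]
    push_cast
    rw [abs_of_nonneg (nm_nonneg hQ x)]
  have e1 := a7 M τ _ ζ y hM0 hle hAR hζM rfl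
  -- the ideal of `γ`
  obtain ⟨c, hcc, hc⟩ := a3 γ
  have hc0 : c ≠ ⊥ := by
    rintro rfl
    have h5 : IsUnit (idl (A := A) (B := B) m) := isCoprime_zero_left.1 hcc
    rw [Ideal.isUnit_iff, Ideal.eq_top_iff_one] at h5
    obtain ⟨z, hz⟩ := Ideal.mem_span_singleton.1 h5
    exact natCast_not_unit hm2 z hz.symm
  have hARj : ∀ j : ℕ, AR h (idl m) (γ ^ j) (c ^ j) := by
    intro j
    induction j with
    | zero =>
      rw [pow_zero, pow_zero, Ideal.one_eq_top]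
      exact a1
    | succ j ih =>
      rw [pow_succ, pow_succ]
      exact a5 _ _ _ _ ih hc
  have e2 := a7 M (γ ^ j) _ ζ y hM0 hle (hARj j) hζM rfl
  rw [(nI_pow hQ hc0 j).2] at e2
  have e3 := a7 M γ _ ζ y hM0 hle hc hζM rfl
  have e4 := hγ y rfl
  rw [e3] at e4
  have e5 := (pm hM0 hζ _ _).1 e4
  have e6 := pw (M : ℤ) (nI c : ℤ) ((1 + p : ℕ) : ℤ) e5 j
  -- the condition on `τ`
  have key : τ * (γ ^ j)⁻¹ ∈ NC h (RB p n) ↔
      ((τ y : ↥D) : ℂ) = (((γ ^ j) y : ↥D) : ℂ) := by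
    rw [hcomm τ (γ ^ j)⁻¹]
    constructor
    · intro hmem
      have h5 : ((γ ^ j)⁻¹ * τ) y = y := hmem y htB
      have h6 : τ y = (γ ^ j) y := by
        have h7 : (γ ^ j) (((γ ^ j)⁻¹ * τ) y) = (γ ^ j) y := by rw [h5]
        rwa [← AlgEquiv.mul_apply, mul_inv_cancel_left] at h7
      rw [h6]
    · intro he
      have h5 : ∀ z : ↥D, (z : ℂ) ∈ RB p n → τ z = (γ ^ j) z := by
        intro z hz
        let φ : ↥D →+* ℂ := (algebraMap ↥D ℂ).comp (τ : ↥D →+* ↥D)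
        let ψ : ↥D →+* ℂ :=
          (algebraMap ↥D ℂ).comp ((γ ^ j : ↥D ≃ₐ[kk A B] ↥D) :
            ↥D →+* ↥D)
        exact Subtype.ext (eqB hBn φ ψ htD he z hz)
      intro z hz
      have h6 := h5 z hz
      show (γ ^ j)⁻¹ (τ z) = z
      rw [h6, ← AlgEquiv.mul_apply, inv_mul_cancel]
      rfl
  have hqM : q0 p * p ^ n = M := by rw [q0_odd hS.p2, hM, pow_succ, mul_comm]
  rw [key, e1, e2, pm hM0 hζ]
  rw [hN, hqM, q0_odd hS.p2]
  push_cast
  push_cast at e6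
  exact pm_iff (M : ℤ) _ _ _ e6

end

end Pool.Agent.OBI
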