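import Pool.Agent.NS.IAll
import Pool.Agent.OB.J_LAYO
import Pool.Agent.OB.T_BAS
import Pool.Agent.OB.I_PRF
import Pool.Agent.OB.I_TEI
import Pool.Agent.OB.I_EPS
import Pool.Agent.OB.I_CHI
import Pool.Agent.OB.I_BRA
import Pool.Agent.OB.I_OME
import Pool.Agent.OB.I_SUB
import Pool.Agent.OB.I_GAM
import Pool.Agent.OB.I_NCR
import Pool.Agent.OB.I_E0
import Pool.Agent.OB.I_XMX
import Pool.Agent.OB.I_TSH
import Pool.Agent.OB.I_TH
import Pool.Agent.OB.I_I31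
import Pool.Agent.OB.I_INP

/-!
# OB, block I: all statements of `StI.lean` (helper79). The only input is `O_HFIN` (block H)
-/

set_option autoImplicit false

namespace Pool.Agent.OBI

open Pool.Agent.MUXF Pool.Agent.MUXU Pool.Agent.MUXY Pool.Agent.MUXK Pool.Agent.MUXI
  Pool.Agent.NSI Pool.Agent.OB Pool.Agent.OBT Pool.Agent.RI Pool.Agent.RID

theorem o_PRF : Oi_PRF := oi_PRF Pool.Agent.OBT.o_BAS
theorem o_TEI : Oi_TEI := oi_TEI Pool.Agent.OBT.o_BAS o_PRF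
theorem o_EPS : Oi_EPS := oi_EPS Pool.Agent.OBT.o_BAS o_PRF
theorem o_CHI : Oi_CHI := oi_CHI
theorem o_BRA : Oi_BRA := oi_BRA
theorem o_OME : Oi_OME := oi_OME
theorem o_SUB : Oi_SUB := oi_SUB i_IAF Pool.Agent.OBT.o_BAS
theorem o_GAM : Oi_GAM := oi_GAM k_GENX
theorem o_NCR : Oi_NCR := oi_NCR
theorem o_E0 : Oi_E0 := oi_E0 i_ARF xf_NIM
theorem o_XMX : Oi_XMX := oi_XMX i_XXF i_ARF
theorem o_TSH : Oi_TSH := oi_TSH i_PTP xf_ALG
theorem o_TH : Oi_TH := oi_TH o_TSH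
theorem o_I31 (hH : O_HFIN) : Oi_I31 :=
  oi_I31 Pool.Agent.MUXJ.j_RES o_CHI n_FOU Pool.Agent.MU3I.t_ITG o_EPS o_TEI o_E0 i_ARF i_XXF o_SUB
    o_GAM o_NCR o_XMX o_TH o_BRA i_GEN hH k_GALX k_RSX Pool.Agent.OBT.o_BAS

/-- the result of block I -/
theorem o_I3 (hH : O_HFIN) : O_I3 := oi_INP (o_I31 hH) n_LEM1 n_NRX

/-- another form of the definition of the cyclotomic character -/
theorem isOm_of {F : Type} [Field F] {p : ℕ} (hp : p.Prime) {k K : IntermediateField ℚ ℂ}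
    (h : k ≤ K) (om : (letI := algC h; (↥K ≃ₐ[k] ↥K) →* Fˣ))
    (H : letI := algC h
      ∀ (σ : ↥K ≃ₐ[k] ↥K) (c : ℕ), (∀ z : K, z ^ p = 1 → σ z = z ^ c) → ((om σ : Fˣ) : F) = c) :
    IsOm F p h om := by
  intro σ z c hz hz1 hσ
  have : Fact p.Prime := ⟨hp⟩
  have : NeZero p := ⟨hp.ne_zero⟩
  refine H σ c fun z' hz' => ?_
  have h1 : IsPrimitiveRoot z p := (orderOf_eq_prime hz hz1) ▸ IsPrimitiveRoot.orderOf z
  obtain ⟨a, -, rfl⟩ := h1.eq_pow_of_pow_eq_one hz'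
  rw [map_pow, hσ, ← pow_mul, ← pow_mul, mul_comm]

end Pool.Agent.OBI
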