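import Pool.Agent.OB.I_OMB
import Pool.Agent.MUX.StJX
import Pool.Agent.MUX.K_I3X
import Pool.Agent.MU3.I_I3F

/-!
# OB, block I, module I31 (helper79): one level, one even branch, from blocks E and H

Model: `Pool/Agent/NS/I_I31.lean` (helper36).
-/

set_option autoImplicit false

namespace Pool.Agent.OBI

open _root_.MU3 Pool.Agent.MU3 Pool.Agent.MU3A Pool.Agent.MU3B Pool.Agent.RI Pool.Agent.RID
  Pool.Agent.MUX Pool.Agent.MUXK Pool.Agent.MUXI Pool.Agent.NS Pool.Agent.NSI Pool.Agent.OB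
open Pool.Agent.MU3I (zt St_ITG)

noncomputable section

namespace I31

lemma emb_nat {A B : ℤ} (n : ℕ) : emb (n : OO A B) = n := by
  have h1 : ((n : ℕ) : OO A B).re = n := by
    simp
  have h2 : ((n : ℕ) : OO A B).im = 0 := by
    simp
  unfold emb
  rw [h1, h2]
  push_cast
  ring

/-- the set `v(x) ≤ v(p)` -/
lemma val_prop (V : ValuationSubring ℂ) (u q : ℂ) :
    V.valuation ((0 : ℂ) / u) ≤ V.valuation q ∧
    (∀ x y : ℂ, V.valuation (x / u) ≤ V.valuation q →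
      V.valuation (y / u) ≤ V.valuation q →
      V.valuation ((x + y) / u) ≤ V.valuation q) ∧
    (∀ v x : ℂ, v ∈ V → V.valuation (x / u) ≤ V.valuation q →
      V.valuation (v * x / u) ≤ V.valuation q) ∧
    ∀ v x : ℂ, v ∉ V.nonunits → V.valuation (v * x / u) ≤ V.valuation q →
      V.valuation (x / u) ≤ V.valuation q := by
  refine ⟨by simp, ?_, ?_, ?_⟩
  · intro x y hx hy
    rw [add_div]
    exact (V.valuation.map_add _ _).trans (max_le hx hy)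
  · intro v x hv hx
    rw [mul_div_assoc, map_mul]
    have h1 : V.valuation v ≤ 1 := (V.valuation_le_one_iff v).2 hv
    exact (mul_le_of_le_one_left' h1).trans hx
  · intro v x hv hx
    rw [mul_div_assoc, map_mul] at hx
    have h1 : 1 ≤ V.valuation v := by
      by_contra h2
      exact hv (V.mem_nonunits_iff.2 (lt_of_not_ge h2))
    exact (le_mul_of_one_le_left' h1).trans hx

/-- if the product is a `p`-th power, then the sum is small -/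
theorem pows (hFOU : Sn_FOU) (hTG : St_ITG) {p er : ℕ} {A B : ℤ} (P : Ideal (OO A B))
    (V : ValuationSubring ℂ) (f : ℕ)
    {ι : Type} (R : Reps A B (p * f) ι) (u : ℂ)
    (n : ℕ) (D : IntermediateField ℚ ℂ) [FiniteDimensional ℚ D] (h : kk A B ≤ D)
    (C : (letI := algC h; D ≃ₐ[kk A B] D) → ℂ) (hE : EInpO p er P V f R u n h C)
    (w : OO A B → ℂ) (hw : IsTeiP p er P V w) :
    letI := algC h
    ∀ (_ : ∀ σ τ : D ≃ₐ[kk A B] D, σ * τ = τ * σ) (c₁ : ℂ) (hc : c₁ ∈ D) (_ : c₁ = C 1)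
      (γ : D ≃ₐ[kk A B] D) (Δ : Subgroup (D ≃ₐ[kk A B] D)) [Fintype Δ] (N : ℕ) (b : Δ → ℕ)
      (X : Δ →* ℂˣ) (_ : (∑ δ : Δ, (b δ : ℂ) * (X δ : ℂ)) ∉ V.nonunits) (y : D)
      (_ : y ^ p = ∏ δ : Δ, ((δ : D ≃ₐ[kk A B] D) ((Tg γ)^[N] ⟨c₁, hc⟩)) ^ b δ),
      V.valuation ((∑ j ∈ Finset.range (N + 1),
        (((-1 : ℤ) ^ (N - j) * (N.choose j : ℤ) : ℤ) : ℂ) *
        ∑ δ : Δ, (((X δ)⁻¹ : ℂˣ) : ℂ) * TTN R w (lvX p f n)
          (aX p f) h (γ ^ j * (δ : D ≃ₐ[kk A B] D))) / u) ≤ V.valuation (p : ℂ) := by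
  classical
  let akL : Algebra (kk A B) D := algC h
  intro comm c₁ hc hc1 γ Δ iΔ N b X hX y hy
  have fdk : FiniteDimensional (kk A B) D := Module.Finite.of_restrictScalars_finite ℚ (kk A B) D
  have iG : Fintype (D ≃ₐ[kk A B] D) := Fintype.ofFinite _
  let e : ℕ → ℤ := fun j => (-1 : ℤ) ^ (N - j) * (N.choose j : ℤ)
  let g : (D ≃ₐ[kk A B] D) → ℤ := fun τ => ∑ δ : Δ, ∑ j ∈ Finset.range (N + 1),
      if (δ : D ≃ₐ[kk A B] D) * γ ^ j = τ then (b δ : ℤ) * e j else 0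
  have hcτ : ∀ τ : D ≃ₐ[kk A B] D, ((τ ⟨c₁, hc⟩ : D) : ℂ) = C τ := by
    intro τ
    obtain ⟨y', hy1, hy2⟩ := hE.conj τ
    have h3 : y' = ⟨c₁, hc⟩ := Subtype.ext (hy1.trans hc1.symm)
    rw [← h3]
    exact hy2
  have hcne : (⟨c₁, hc⟩ : D) ≠ 0 := by
    intro h0
    apply hE.ne
    have h1 : c₁ = 0 := congrArg Subtype.val h0
    rw [hc1] at h1
    exact h1
  have hu : ∀ τ : D ≃ₐ[kk A B] D, C τ ≠ 0 := by
    intro τ h0
    rw [← hcτ τ] at h0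
    have h1 : τ (⟨c₁, hc⟩ : D) = 0 := Subtype.ext h0
    exact hcne ((map_eq_zero_iff τ τ.injective).1 h1)
  have e1 : (y : ℂ) ^ p = ∏ᶠ τ : D ≃ₐ[kk A B] D, C τ ^ g τ := by
    rw [MU3I.I3F.prod_exp γ Δ _ hu (fun δ => (b δ : ℤ)) N e g (fun τ => rfl)]
    have h1 : (y : ℂ) ^ p = D.val (y ^ p) := rfl
    rw [h1, hy, map_prod]
    refine Finset.prod_congr rfl fun δ _ => ?_
    rw [MU3I.I3F.tg_pow hTG _ _ γ δ _ hcne N (b δ), map_prod]
    refine Finset.prod_congr rfl fun j _ => ?_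
    rw [map_zpow₀]
    exact congrArg (fun w : ℂ => w ^ ((b δ : ℤ) * e j)) (hcτ ((δ : D ≃ₐ[kk A B] D) * γ ^ j))
  have e2 := hE.ew w hw g ⟨y, y.2, e1⟩
  obtain ⟨q1, q2, q3, q4⟩ := val_prop V u (p : ℂ)
  refine hFOU V (fun x => V.valuation (x / u) ≤ V.valuation (p : ℂ)) q1 q2 q3 q4
    (D ≃ₐ[kk A B] D) comm γ Δ
    (fun τ => TTN R w (lvX p f n) (aX p f) h τ) (fun δ => (b δ : ℤ)) N e X ?_ ?_
  · simpa using hX
  · intro τ'
    have e3 := e2 τ'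
    rw [MU3I.I3F.sum_exp γ Δ (fun τ => TTN R w (lvX p f n) (aX p f) h τ)
      (fun δ => (b δ : ℤ)) N e g (fun τ => rfl) τ'] at e3
    exact e3

lemma nI_ne {p f : ℕ} (hp : p.Prime) {A B : ℤ} {ι : Type} (R : Reps A B (p * f) ι) (i : ι) :
    ¬ (p : ℤ) ∣ (nI (R.b i) : ℤ) := by
  intro h
  have h1 : p ∣ nI (R.b i) := by exact_mod_cast h
  have h2 := R.cop i
  have h3 : p ∣ Nat.gcd (nI (R.b i)) (p * f) := Nat.dvd_gcd h1 (dvd_mul_right p f)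
  rw [h2] at h3
  exact hp.one_lt.ne' (Nat.dvd_one.1 h3)

lemma muX_ne {p f : ℕ} (hp : p.Prime) {A B : ℤ} {ι : Type} (R : Reps A B (p * f) ι) (i : ι) :
    muX R i ≠ 0 := by
  have h1 := nI_ne hp R i
  have h2 : nI (R.b i) ≠ 0 := by
    intro h
    rw [h] at h1
    exact h1 (dvd_zero _)
  unfold muX
  exact div_ne_zero (mul_ne_zero (R.nl i).om_ne (Nat.cast_ne_zero.2 h2)) (R.nl R.i0).om_ne

lemma kkT_pow {p f : ℕ} (hp : p.Prime) {A B : ℤ} {ι : Type} (R : Reps A B (p * f) ι)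
    (kp : ι → ℂ) (r q : ℕ)
    (hkp : ∀ i, kp i ^ r = 1) (t : ℤ → ℂ) (ht : ∀ a : ℤ, ¬ (p : ℤ) ∣ a → t a ^ q = 1) (i : ι) :
    kkT R kp (fun i => muX R i) t i ^ (q * r) = 1 := by
  have h1 : kp i * muX R i / muX R i = kp i := mul_div_cancel_right₀ _ (muX_ne hp R i)
  unfold kkT
  rw [h1, mul_pow, mul_comm q r, pow_mul, hkp, one_pow, one_mul, mul_comm r q, pow_mul, inv_pow,
    ht _ (nI_ne hp R i), inv_one, one_pow]

end I31

/-- (I31) one level, one even branch -/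
theorem oi_I31 (hRES : Pool.Agent.MUXJ.Sj_RES) (hCHI : Oi_CHI) (hFOU : Sn_FOU)
    (hTG : St_ITG) (hEPS : Oi_EPS) (hTEI : Oi_TEI) (hE0 : Oi_E0) (hARF : Si_ARF)
    (hXXF : Si_XXF) (hSUB : Oi_SUB) (hGAM : Oi_GAM) (hNCR : Oi_NCR) (hXM : Oi_XMX)
    (hTH : Oi_TH) (hBRA : Oi_BRA) (hGEN : Si_GEN) (hH : O_HFIN) (hGAL : S_GALX)
    (hRSX : S_RSX) (hBAS : Pool.Agent.OBT.So_BAS) : Oi_I31 := by
  classical
  intro p er iP A B P V f hS hTor ι iι R u el lam hG K Bn iK iKB hB hcop hmu hKT hk hkK C hE c₀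
    mem hc₀ χ om hom n₀
  let aK : Algebra (kk A B) K := algC hkK
  have hpp : p.Prime := iP.out
  have p5 := hS.p5
  have p2 : p ≠ 2 := by omega
  have hCQ : CQ A B := hS.cq
  have hL : SetQ p A B f := setQ_O hS
  have hpV : ((p : ℕ) : ℂ) ∈ V.nonunits := by
    have h1 := (hS.hV ((p : ℕ) : OO A B)).2 hS.mem
    rwa [I31.emb_nat] at h1
  obtain ⟨iF1, iF2⟩ := hRES p V hpV
  have galK : IsGalois (kk A B) K := (isGalois_algC hkK).2 hB.gal
  have fdkK : FiniteDimensional (kk A B) K :=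
    Module.Finite.of_restrictScalars_finite ℚ (kk A B) K
  have commK : ∀ a b : K ≃ₐ[kk A B] K, a * b = b * a := by
    intro a b
    have h1 := hB.ab ((extEquiv hkK).symm.autCongr a) ((extEquiv hkK).symm.autCongr b)
    rw [← map_mul, ← map_mul] at h1
    exact (extEquiv hkK).symm.autCongr.injective h1
  have hcard : Nat.card (K ≃ₐ[kk A B] K) =
      Module.finrank (kk A B) (IntermediateField.extendScalars hB.hk) := by
    rw [IsGalois.card_aut_eq_finrank]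
    exact (extEquiv hkK).toLinearEquiv.finrank_eq
  have hc3 : ¬ p ∣ Nat.card (K ≃ₐ[kk A B] K) := by
    rw [hcard]
    exact hcop
  obtain ⟨X, hXr', hXθ⟩ := hCHI p V hpV iF1 iF2 (K ≃ₐ[kk A B] K) commK hc3 χ
  obtain ⟨rr, hrr⟩ : ∃ rr, rr = Nat.card (K ≃ₐ[kk A B] K) := ⟨_, rfl⟩
  have hXr : ∀ τ, X τ ^ rr = 1 := by
    intro τ
    rw [hrr]
    exact hXr' τ
  rw [← hrr] at hc3
  obtain ⟨e0, kp, h01, h0m, h0mul, h0per, h0supp, h0pow, hkp, h0X⟩ := hE0 p A B f hL hTor ι R K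
    hkK hKT galK X _ hXr
  obtain ⟨w, hw⟩ := hTEI p er A B P V hS.toCaseO
  obtain ⟨e, s, i, t, hei, hs, hi4, hi7, hty, hepow, ht1, ht2, ht3, ht4, ht5, hes⟩ :=
    hEPS p er A B P V f hS w hw e0 rr hc3 h01 h0m h0mul h0per h0supp h0pow
  have hkk := I31.kkT_pow hpp R kp rr (nI P - 1) hkp t ht5
  obtain ⟨-, -, -, -, -, -, -, hq1, -⟩ := hBAS p er A B P V hS.toCaseO
  have h8 : ¬ p ∣ (nI P - 1) * rr := by
    intro h
    rcases (Nat.Prime.dvd_mul hpp).1 h with h | h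
    · exact hq1 h
    · exact hc3 h
  obtain ⟨n, hn1, hnot⟩ := hH p er A B P V f hS hTor ι R u el lam hG w hw e hei ((nI P - 1) * rr)
    h8 hepow i hi4 hi7 hty s hs (kkT R kp (fun i => muX R i) t) hkk (n₀ + 1)
  refine ⟨n, by omega, ?_⟩
  have hn2 : 1 ≤ n := by omega
  let akL : Algebra (kk A B) ↥(K ⊔ Bn n) := algC (hk n)
  obtain ⟨ρ, hρ⟩ := Pool.Agent.MUXK.I3X19.restr hRSX p (kk A B) K Bn hB hcop hkK n (hk n)
  obtain ⟨gal, comm⟩ := hGAL p (kk A B) K Bn hB n (hk n)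
  have hNL : ∃ (b : Ideal (OO A B)) (L : PeriodPair) (om : ℂ), IsNL b L om :=
    ⟨_, _, _, R.nl R.i0⟩
  have hsub := (hSUB p er A B P V f hS hTor hNL K hKT n (Bn n) hn2 (hB.lay n)).1
  obtain ⟨γ₀, hγ₀, hγ₀z⟩ := hGAM p p2 (kk A B) K Bn hB hmu n (hk n)
  obtain ⟨hBR, hRD, hNC⟩ := hNCR p p2 (kk A B) K n (Bn n) (hB.lay n) hmu (hk n)
  have hXX := hXM p A B f hL hTor ι R (K ⊔ Bn n) n (hk n) hRD hsub gal γ₀ hγ₀z
  have fdk : FiniteDimensional (kk A B) ↥(K ⊔ Bn n) :=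
    Module.Finite.of_restrictScalars_finite ℚ (kk A B) ↥(K ⊔ Bn n)
  have iG : Finite (↥(K ⊔ Bn n) ≃ₐ[kk A B] ↥(K ⊔ Bn n)) := inferInstance
  have iN : Fintype (NC (hk n) (Bn n)) := Fintype.ofFinite _
  have iN2 : Fintype (NC (hk n) (RB p n)) := Fintype.ofFinite _
  have hNle : NC (hk n) (RB p n) ≤ NC (hk n) (Bn n) := fun δ hδ x hx => hδ x (hBR hx)
  let inc : NC (hk n) (RB p n) →* NC (hk n) (Bn n) := Subgroup.inclusion hNle
  have hinc : Function.Injective inc := Subgroup.inclusion_injective hNle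
  let jj : NC (hk n) (RB p n) →* (K ≃ₐ[kk A B] K) := ρ.toMonoidHom.comp inc
  have hjj : Function.Injective jj := ρ.injective.comp hinc
  obtain ⟨θ, hXθ1⟩ := hXθ (NC (hk n) (RB p n)) jj hjj
  let X' : NC (hk n) (RB p n) →* ℂˣ := X.comp jj
  have hX'θ : (∑ δ : NC (hk n) (RB p n),
      (((θ ((χ (jj δ))⁻¹ : (IsLocalRing.ResidueField V)ˣ)).val : ℕ) : ℂ) * (X' δ : ℂ)) ∉
        V.nonunits := hXθ1
  have hKD : K ≤ K ⊔ Bn n := le_sup_left
  have hq3 : q0 p = p := q0_odd p2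
  have hCc : ∀ i, (nI (R.b i)).Coprime (lvX p f n) := by
    intro i
    have h1 := R.cop i
    have h2 : lvX p f n ∣ (p * f) ^ (n + 1) := by
      have h4 : f ∣ f ^ (n + 1) := dvd_pow_self f (by omega)
      have h5 : lvX p f n = p ^ (n + 1) * f := by
        rw [lvX_odd p2]
        ring
      rw [h5, mul_pow]
      exact mul_dvd_mul (dvd_refl _) h4
    exact Nat.Coprime.coprime_dvd_right h2 (Nat.Coprime.pow_right _ h1)
  have hm2 : 2 ≤ lvX p f n := by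
    have h2 : 1 ≤ p ^ n := Nat.one_le_pow _ _ hpp.pos
    have h3 : 1 ≤ f := Nat.one_le_iff_ne_zero.2 hS.f0
    rw [lvX_odd p2, pow_succ]
    nlinarith [Nat.mul_le_mul h3 h2]
  have hm0 : (idl (A := A) (B := B) (lvX p f n)) ≠ ⊥ := by
    intro h
    have h1 : ((lvX p f n : ℕ) : OO A B) = 0 := Ideal.span_singleton_eq_bot.1 h
    have h2 := congrArg emb h1
    rw [I31.emb_nat] at h2
    have h3 : emb (0 : OO A B) = 0 := by
      unfold emb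
      simp
    rw [h3] at h2
    have h4 : lvX p f n = 0 := by exact_mod_cast h2
    omega
  have hlv : lvX p f 0 ∣ lvX p f n := by
    unfold lvX
    rw [pow_zero, mul_one]
    exact dvd_mul_right _ _
  have hle : idl (A := A) (B := B) (lvX p f n) ≤ idl (lvX p f 0) := by
    refine Ideal.span_singleton_le_span_singleton.2 ?_
    exact_mod_cast Nat.cast_dvd_cast hlv
  have hchi : ∀ (δ : NC (hk n) (RB p n)) (j : ℕ),
      ∀ q ∈ XX R (lvX p f n) (hk n) (γ₀ ^ j * (δ : ↥(K ⊔ Bn n) ≃ₐ[kk A B] ↥(K ⊔ Bn n))),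
      (((X' δ)⁻¹ : ℂˣ) : ℂ) = kp q.1 * e0 (Quotient.out q.2) := by
    intro δ j q hq
    have hqc : IsCoprime (Quotient.out q.2 : OO A B) ((lvX p f n : ℕ) : OO A B) := hq.1
    have h1 := hXXF A B hCQ hTor (p * f) ι R (lvX p f n) hm2 hCc (K ⊔ Bn n) (hk n) hsub gal
    have hq2 : (q.1, Ideal.Quotient.mk (idl (A := A) (B := B) (lvX p f n))
        (Quotient.out q.2)) = q := Prod.ext rfl (Quotient.out_eq' q.2)
    have h2 := (h1.1 (γ₀ ^ j * (δ : ↥(K ⊔ Bn n) ≃ₐ[kk A B] ↥(K ⊔ Bn n))) q.1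
      (Quotient.out q.2) hqc).1 (by rw [hq2]; exact hq)
    obtain ⟨-, -, -, -, -, h3, -⟩ := hARF A B hCQ hTor hNL (idl (lvX p f n)) hm0 (K ⊔ Bn n)
      (hk n) hsub gal
    have hγj : ∀ (i : ℕ) (z : ↥(K ⊔ Bn n)), (z : ℂ) ∈ K → (γ₀ ^ i) z = z := by
      intro i z hz
      induction i with
      | zero => rfl
      | succ i ih =>
        rw [pow_succ, AlgEquiv.mul_apply, (hγ₀ z).2 hz, ih]
    have h4 := h3 K hkK (idl (lvX p f 0)) hle hKD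
      (γ₀ ^ j * (δ : ↥(K ⊔ Bn n) ≃ₐ[kk A B] ↥(K ⊔ Bn n))) (jj δ)
      (sp (Quotient.out q.2) * cjI (R.b q.1)) (by
        intro x x' hx
        rw [AlgEquiv.mul_apply]
        have h5 := hρ (inc δ) x x' hx
        have h6 : (((δ : ↥(K ⊔ Bn n) ≃ₐ[kk A B] ↥(K ⊔ Bn n)) x' : ↥(K ⊔ Bn n)) : ℂ) ∈ K := by
          have h7 : (((δ : ↥(K ⊔ Bn n) ≃ₐ[kk A B] ↥(K ⊔ Bn n)) x' : ↥(K ⊔ Bn n)) : ℂ) =
            (ρ (inc δ) x : ↥K) := h5
          rw [h7]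
          exact (ρ (inc δ) x).2
        rw [hγj j _ h6]
        exact h5) h2
    have hco : IsCoprime (Quotient.out q.2 : OO A B) ((lvX p f 0 : ℕ) : OO A B) := by
      have h7 : ((lvX p f 0 : ℕ) : OO A B) ∣ ((lvX p f n : ℕ) : OO A B) := by
        exact_mod_cast Nat.cast_dvd_cast hlv
      exact hqc.of_isCoprime_of_dvd_right h7
    exact h0X (jj δ) q.1 (Quotient.out q.2) hco h4
  -- the ideal `(p f)`
  have hg1 : idl (A := A) (B := B) (lvX p f 0) ≤ idl (p * f) := by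
    refine Ideal.span_singleton_le_span_singleton.2 ?_
    have h1 : p * f ∣ lvX p f 0 := by
      rw [lvX_odd p2, zero_add, pow_one, mul_comm]
    exact_mod_cast Nat.cast_dvd_cast h1
  have hg2 : idl (A := A) (B := B) (p * f) ≤ idl f := by
    refine Ideal.span_singleton_le_span_singleton.2 ?_
    have h1 : f ∣ p * f := dvd_mul_left f p
    exact_mod_cast Nat.cast_dvd_cast h1
  have hg3 : idl (A := A) (B := B) (lvX p f n) ≤ P := by
    rw [Ideal.span_singleton_le_iff_mem]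
    have h1 : ((lvX p f n : ℕ) : OO A B) = ((f * p ^ n : ℕ) : OO A B) * ((p : ℕ) : OO A B) := by
      rw [lvX_odd p2]
      push_cast
      ring
    rw [h1]
    exact P.mul_mem_left _ hS.mem
  have hTHi := hTH p A B f hL (idl (p * f)) hg1 hg2 ι R n _ γ₀ (NC (hk n) (RB p n))
    (fun τ => XX R (lvX p f n) (hk n) τ) hXX X' e0 kp (fun i => muX R i) w e s t
    (fun x y hxy => h0per x y (hle hxy)) (fun x y hxy => hw.per x y (hg3 hxy)) hei ht1 ht2 ht3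
    ht4 hes hchi
  -- the statement for `γ₀` and the small group
  have hcne : c₀ n ≠ 0 := by
    rw [hc₀ n hn2]
    exact (hE n hn2).ne
  have key : ∀ y : ↥(K ⊔ Bn n), y ^ p ≠ ∏ δ : NC (hk n) (RB p n),
      ((δ : ↥(K ⊔ Bn n) ≃ₐ[kk A B] ↥(K ⊔ Bn n)) ((Tg γ₀)^[1] ⟨c₀ n, mem n⟩)) ^
        (θ ((χ (jj δ))⁻¹ : (IsLocalRing.ResidueField V)ˣ)).val := by
    intro y hy
    have hHf := I31.pows hFOU hTG P V f R u n (K ⊔ Bn n) (hk n) (C n) (hE n hn2) w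
      hw comm (c₀ n) (mem n) (hc₀ n hn2) γ₀ (NC (hk n) (RB p n)) 1
      (fun δ => (θ ((χ (jj δ))⁻¹ : (IsLocalRing.ResidueField V)ˣ)).val) X' hX'θ y hy
    refine absurd hHf (not_le_of_gt ?_)
    have hS1 : ∑ j ∈ Finset.range (1 + 1),
        (((-1 : ℤ) ^ (1 - j) * (Nat.choose 1 j : ℤ) : ℤ) : ℂ) *
        ∑ δ : NC (hk n) (RB p n), (((X' δ)⁻¹ : ℂˣ) : ℂ) * TTN R w (lvX p f n)
          (aX p f) (hk n) (γ₀ ^ j * (δ : ↥(K ⊔ Bn n) ≃ₐ[kk A B] ↥(K ⊔ Bn n))) =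
        ∑ j ∈ Finset.range 2, (-1) ^ (1 - j) *
        (STX R (lvX p f n) (p ^ (n + 1)) (aX p f) e (kkT R kp (fun i => muX R i) t)
            ((1 + p) ^ j) +
          s * STX R (lvX p f n) (p ^ (n + 1)) (aX p f) e (kkT R kp (fun i => muX R i) t)
            (-((1 + p) ^ j))) := by
      refine Finset.sum_congr rfl fun j hj => ?_
      have hj1 : j ≤ 1 := by
        have := Finset.mem_range.1 hj
        omega
      have hch : Nat.choose 1 j = 1 := by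
        interval_cases j <;> rfl
      have h9 := hTHi j
      have h10 : ∑ δ : NC (hk n) (RB p n), (((X' δ)⁻¹ : ℂˣ) : ℂ) * TTN R w (lvX p f n)
          (aX p f) (hk n) (γ₀ ^ j * (δ : ↥(K ⊔ Bn n) ≃ₐ[kk A B] ↥(K ⊔ Bn n))) = _ := h9
      rw [h10, hch]
      push_cast
      ring
    rw [hS1]
    exact hnot
  -- the branch
  have hexp := OMB.om_exp p hkK hmu om hom
  have hu1 : ∀ δ : NC (hk n) (Bn n), om (ρ δ) ^ (p - 1) = 1 := by
    intro δ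
    obtain ⟨c, hc, hc2, -⟩ := hexp (ρ δ)
    apply Units.ext
    rw [Units.val_pow_eq_pow_val, hc2, Units.val_one]
    exact OMB.nat_pow p hc
  have hu2 : ∀ δ : NC (hk n) (Bn n), (∃ ε : NC (hk n) (RB p n), inc ε = δ) ↔
      om (ρ δ) ^ 2 = 1 := by
    intro δ
    obtain ⟨c, hc, hc2, hcz⟩ := hexp (ρ δ)
    have h1 : (∃ ε : NC (hk n) (RB p n), inc ε = δ) ↔
        (δ : ↥(K ⊔ Bn n) ≃ₐ[kk A B] ↥(K ⊔ Bn n)) ∈ NC (hk n) (RB p n) := by
      constructor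
      · rintro ⟨ε, rfl⟩
        exact ε.2
      · intro h
        exact ⟨⟨δ, h⟩, Subtype.ext rfl⟩
    have h2 : om (ρ δ) ^ 2 = 1 ↔ ((p : ℤ) ∣ (c : ℤ) - 1 ∨ (p : ℤ) ∣ (c : ℤ) + 1) := by
      rw [← OMB.nat_sq (F := IsLocalRing.ResidueField V) p c, ← hc2]
      constructor
      · intro h
        have h3 := congrArg Units.val h
        rwa [Units.val_pow_eq_pow_val, Units.val_one] at h3
      · intro h
        apply Units.ext
        rw [Units.val_pow_eq_pow_val, Units.val_one]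
        exact h
    -- the action of `δ` on the roots of unity
    have h3 : ∀ z : ↥(K ⊔ Bn n), z ^ p = 1 →
        (δ : ↥(K ⊔ Bn n) ≃ₐ[kk A B] ↥(K ⊔ Bn n)) z = z ^ c := by
      intro z hz
      obtain ⟨ω, hωK, hω1⟩ := hmu
      have hz' : (z : ℂ) ^ p = 1 := congrArg Subtype.val hz
      have : NeZero p := ⟨hpp.ne_zero⟩
      obtain ⟨a, _, ha⟩ := hω1.eq_pow_of_pow_eq_one hz'
      have hzK : (z : ℂ) ∈ K := by
        rw [← ha]
        exact K.pow_mem hωK a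
      have h4 := hρ δ ⟨z, hzK⟩ z rfl
      have h5 := hcz ⟨z, hzK⟩ (Subtype.ext hz')
      rw [h5] at h4
      exact Subtype.ext h4
    rw [h1, h2, hNC δ δ.2]
    constructor
    · intro h
      obtain ⟨ω, hωK, hω1⟩ := hmu
      have h4 : IsPrimitiveRoot (⟨ω, hKD hωK⟩ : ↥(K ⊔ Bn n)) p := by
        refine ⟨Subtype.ext hω1.pow_eq_one, fun l hl => hω1.dvd_of_pow_eq_one l ?_⟩
        exact congrArg Subtype.val hl
      have h5 := h _ h4.pow_eq_one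
      rw [map_add, map_inv₀, h3 _ h4.pow_eq_one] at h5
      exact OMB.of_fix h4 hpp.ne_zero h5
    · intro h z hz
      rw [map_add, map_inv₀, h3 z hz]
      rcases OMB.pow_one hz h with h4 | h4
      · rw [h4]
      · rw [h4, inv_inv, add_comm]
  have hane : ∀ δ : NC (hk n) (Bn n), ((δ : ↥(K ⊔ Bn n) ≃ₐ[kk A B] ↥(K ⊔ Bn n))
      ((Tg γ₀)^[1] ⟨c₀ n, mem n⟩)) ≠ 0 := by
    intro δ h
    have h1 : ((Tg γ₀)^[1] (⟨c₀ n, mem n⟩ : ↥(K ⊔ Bn n))) = 0 :=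
      (map_eq_zero (δ : ↥(K ⊔ Bn n) ≃ₐ[kk A B] ↥(K ⊔ Bn n))).1 h
    have h2 : (⟨c₀ n, mem n⟩ : ↥(K ⊔ Bn n)) ≠ 0 := fun h3 => hcne (congrArg Subtype.val h3)
    have h3 : γ₀ (⟨c₀ n, mem n⟩ : ↥(K ⊔ Bn n)) / ⟨c₀ n, mem n⟩ = 0 := h1
    rcases div_eq_zero_iff.1 h3 with h4 | h4
    · exact h2 ((map_eq_zero γ₀).1 h4)
    · exact h2 h4
  obtain ⟨j, hj, hj2, θ', hθ'⟩ := OMB.branch hBRA (IsLocalRing.ResidueField V) p p2
    (NC (hk n) (Bn n)) (NC (hk n) (RB p n)) inc hinc (fun δ => om (ρ δ)) (fun δ => χ (ρ δ)) hu1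
    hu2 (fun δ => (δ : ↥(K ⊔ Bn n) ≃ₐ[kk A B] ↥(K ⊔ Bn n)) ((Tg γ₀)^[1] ⟨c₀ n, mem n⟩)) hane θ key
  refine ⟨j, hj, hj2, ?_⟩
  intro γ hγ iN' r hr
  obtain rfl : iN' = iN := Subsingleton.elim _ _
  have hrρ : ∀ δ, r δ = ρ δ := by
    intro δ
    refine AlgEquiv.ext fun x => Subtype.ext ?_
    have hx1 : (x : ℂ) ∈ K ⊔ Bn n := hKD x.2
    rw [← hr δ x ⟨x, hx1⟩ rfl, ← hρ δ x ⟨x, hx1⟩ rfl]
  have key2 := hGEN p (kk A B) K Bn hB n (hk n) (c₀ n) (mem n) hcne 1 γ₀ hγ₀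
    (fun δ => (θ' ((χ (ρ δ) * om (ρ δ) ^ j)⁻¹ : (IsLocalRing.ResidueField V)ˣ)).val) hθ' γ hγ
  refine ⟨θ', fun y hy => key2 y (hy.trans ?_)⟩
  refine Finset.prod_congr rfl fun δ _ => ?_
  rw [hrρ δ]
  rfl

end

end Pool.Agent.OBI
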