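import Pool.Agent.OB.StI

/-!
# OB, block I (helper79): facts on the cyclotomic character modulo `p`, and the step from the small group to a branch
-/

set_option autoImplicit false

namespace Pool.Agent.OBI

open _root_.MU3 Pool.Agent.MU3 Pool.Agent.MU3A Pool.Agent.MU3B Pool.Agent.RI Pool.Agent.RID
  Pool.Agent.MUX Pool.Agent.MUXK Pool.Agent.MUXI Pool.Agent.NS Pool.Agent.NSI Pool.Agent.OB
open Pool.Agent.MU3I (zt)

noncomputable section

namespace OMB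

/-- the exponent of an automorphism -/
lemma om_exp {F : Type} [Field F] (p : ℕ) [hp : Fact p.Prime] {k K : IntermediateField ℚ ℂ}
    (h : k ≤ K) (hω : ∃ ω ∈ K, IsPrimitiveRoot ω p)
    (om : (letI := algC h; (↥K ≃ₐ[k] ↥K) →* Fˣ)) (hom : IsOm F p h om) :
    letI := algC h
    ∀ σ : ↥K ≃ₐ[k] ↥K, ∃ c : ℕ, ¬ p ∣ c ∧ ((om σ : Fˣ) : F) = c ∧
      ∀ z : K, z ^ p = 1 → σ z = z ^ c := by
  let _ := algC h
  intro σ
  obtain ⟨ω, hωK, hω1⟩ := hω
  have h1 : IsPrimitiveRoot (⟨ω, hωK⟩ : K) p := by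
    refine ⟨Subtype.ext hω1.pow_eq_one, fun l hl => hω1.dvd_of_pow_eq_one l ?_⟩
    exact congrArg Subtype.val hl
  have hne : NeZero p := ⟨hp.out.ne_zero⟩
  have h2 : (σ ⟨ω, hωK⟩) ^ p = 1 := by
    rw [← map_pow, h1.pow_eq_one, map_one]
  obtain ⟨c, -, hc⟩ := h1.eq_pow_of_pow_eq_one h2
  have hz : ∀ z : K, z ^ p = 1 → σ z = z ^ c := by
    intro z hz
    obtain ⟨a, -, rfl⟩ := h1.eq_pow_of_pow_eq_one hz
    rw [map_pow, ← hc, ← pow_mul, ← pow_mul, mul_comm]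
  refine ⟨c, ?_, ?_, hz⟩
  · intro hdvd
    obtain ⟨d, rfl⟩ := hdvd
    rw [pow_mul, h1.pow_eq_one, one_pow] at hc
    have h3 : (⟨ω, hωK⟩ : K) = 1 := by
      have h4 : σ ⟨ω, hωK⟩ = σ 1 := by rw [← hc, map_one]
      exact σ.injective h4
    exact h1.ne_one hp.out.one_lt h3
  · exact hom σ ⟨ω, hωK⟩ c h1.pow_eq_one (h1.ne_one hp.out.one_lt) (hz _ h1.pow_eq_one)

lemma nat_pow {F : Type} [Field F] (p : ℕ) [hp : Fact p.Prime] [CharP F p] {c : ℕ}
    (hc : ¬ p ∣ c) : (c : F) ^ (p - 1) = 1 := by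
  have h1 : ((c : ZMod p)) ^ (p - 1) = 1 := by
    apply ZMod.pow_card_sub_one_eq_one
    intro h
    exact hc ((ZMod.natCast_eq_zero_iff c p).1 h)
  have h2 := congrArg (ZMod.castHom (dvd_refl p) F) h1
  rw [map_pow, map_one, map_natCast] at h2
  exact h2

lemma nat_sq {F : Type} [Field F] (p : ℕ) [hp : Fact p.Prime] [CharP F p] (c : ℕ) :
    (c : F) ^ 2 = 1 ↔ ((p : ℤ) ∣ (c : ℤ) - 1 ∨ (p : ℤ) ∣ (c : ℤ) + 1) := by
  have h1 : (c : F) ^ 2 = 1 ↔ ((((c : ℤ) - 1) * ((c : ℤ) + 1) : ℤ) : F) = 0 := by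
    push_cast
    constructor
    · intro h
      linear_combination h
    · intro h
      linear_combination h
  rw [h1, CharP.intCast_eq_zero_iff F p]
  exact (Nat.prime_iff_prime_int.1 hp.out).dvd_mul

/-- a root of unity of order `p` and its inverse -/
lemma pow_one {L : Type} [Field L] {p : ℕ} {c : ℕ} {z : L} (hz : z ^ p = 1)
    (h : (p : ℤ) ∣ (c : ℤ) - 1 ∨ (p : ℤ) ∣ (c : ℤ) + 1) : z ^ c = z ∨ z ^ c = z⁻¹ := by
  have hz0 : (z ≠ 0 ∨ p = 0) := by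
    by_cases hp : p = 0
    · exact Or.inr hp
    · left
      rintro rfl
      rw [zero_pow hp] at hz
      exact zero_ne_one hz
  by_cases hz1 : z = 0
  · rcases hz0 with h0 | h0
    · exact absurd hz1 h0
    · rw [h0] at h
      rcases h with h | h
      · have h2 : (c : ℤ) - 1 = 0 := by simpa using h
        have h3 : c = 1 := by omega
        left
        rw [h3, _root_.pow_one]
      · have h2 : (c : ℤ) + 1 = 0 := by simpa using h
        omega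
  have hzp : z ^ (p : ℤ) = 1 := by
    rw [zpow_natCast, hz]
  rcases h with ⟨d, hd⟩ | ⟨d, hd⟩
  · left
    have h1 : (c : ℤ) = (p : ℤ) * d + 1 := by omega
    rw [← zpow_natCast, h1, zpow_add₀ hz1, zpow_mul, hzp, one_zpow, one_mul, zpow_one]
  · right
    have h1 : (c : ℤ) = (p : ℤ) * d + (-1) := by omega
    rw [← zpow_natCast, h1, zpow_add₀ hz1, zpow_mul, hzp, one_zpow, one_mul, zpow_neg_one]

lemma sum_inv {L : Type} [Field L] {a b : L} (ha : a ≠ 0) (hb : b ≠ 0)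
    (h : a + a⁻¹ = b + b⁻¹) : a = b ∨ a = b⁻¹ := by
  have h1 : (a - b) * (a * b - 1) = 0 := by
    have h2 := congrArg (fun t => t * a * b) h
    simp only [add_mul] at h2
    rw [inv_mul_cancel₀ ha] at h2
    have h3 : b⁻¹ * a * b = a := by field_simp
    rw [h3] at h2
    linear_combination h2
  rcases mul_eq_zero.1 h1 with h2 | h2
  · left
    exact sub_eq_zero.1 h2
  · right
    exact eq_inv_of_mul_eq_one_left (sub_eq_zero.1 h2)

/-- the exponent of an automorphism which fixes `z + z⁻¹` -/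
lemma of_fix {L : Type} [Field L] {p : ℕ} {c : ℕ} {z : L} (hz : IsPrimitiveRoot z p)
    (hp : p ≠ 0) (h : z ^ c + (z ^ c)⁻¹ = z + z⁻¹) :
    (p : ℤ) ∣ (c : ℤ) - 1 ∨ (p : ℤ) ∣ (c : ℤ) + 1 := by
  have hz0 : z ≠ 0 := hz.ne_zero hp
  rcases sum_inv (pow_ne_zero c hz0) hz0 h with h1 | h1
  · left
    rw [← hz.zpow_eq_one_iff_dvd, zpow_sub₀ hz0, zpow_natCast, zpow_one, h1, div_self hz0]
  · right
    rw [← hz.zpow_eq_one_iff_dvd, zpow_add₀ hz0, zpow_natCast, zpow_one, h1,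
      inv_mul_cancel₀ hz0]

/-- from the product over the small group to one branch -/
lemma branch (hBRA : Oi_BRA) (F : Type) [Field F] (p : ℕ) [Fact p.Prime] (p2 : p ≠ 2)
    [CharP F p] {L : Type} [Field L] (Δ : Type) [Fintype Δ] (D : Type) [Fintype D] (i : D → Δ)
    (hi : Function.Injective i) (u χ : Δ → Fˣ) (hu : ∀ δ, u δ ^ (p - 1) = 1)
    (hS : ∀ δ, (∃ ε, i ε = δ) ↔ u δ ^ 2 = 1) (a : Δ → L) (ha : ∀ δ, a δ ≠ 0)
    (θ : F →+ ZMod p)
    (h : ∀ y : L, y ^ p ≠ ∏ ε : D, a (i ε) ^ (θ ((χ (i ε))⁻¹ : Fˣ)).val) :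
    ∃ j, j < p - 1 ∧ Even j ∧ ∃ θ : F →+ ZMod p,
      ∀ y : L, y ^ p ≠ ∏ δ, a δ ^ (θ ((χ δ * u δ ^ j)⁻¹ : Fˣ)).val := by
  classical
  have hp : p ≠ 0 := (Fact.out : p.Prime).ne_zero
  obtain ⟨j, hj, hj2, θ', hθ'⟩ := hBRA F p p2 Lˣ Δ (Finset.univ.image i) u χ hu
    (fun δ => by
      rw [← hS δ, Finset.mem_image]
      simp) (fun δ => Units.mk0 (a δ) (ha δ)) ⟨θ, fun y hy => h (y : L) (by
      have h1 := congrArg (Units.val) hy
      rw [Units.val_pow_eq_pow_val] at h1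
      rw [h1, Finset.prod_image (fun x _ y _ hxy => hi hxy), Units.coe_prod]
      refine Finset.prod_congr rfl fun δ _ => ?_
      rw [Units.val_pow_eq_pow_val, Units.val_mk0])⟩
  refine ⟨j, hj, hj2, θ', fun y hy => ?_⟩
  have hy0 : y ≠ 0 := by
    rintro rfl
    rw [zero_pow hp] at hy
    have h1 : ∏ δ, a δ ^ (θ' ((χ δ * u δ ^ j)⁻¹ : Fˣ)).val ≠ 0 :=
      Finset.prod_ne_zero_iff.2 fun δ _ => pow_ne_zero _ (ha δ)
    exact h1 hy.symm
  refine hθ' (Units.mk0 y hy0) (Units.ext ?_)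
  rw [Units.val_pow_eq_pow_val, Units.val_mk0, hy, Units.coe_prod]
  refine Finset.prod_congr rfl fun δ _ => ?_
  rw [Units.val_pow_eq_pow_val, Units.val_mk0]

end OMB

end

end Pool.Agent.OBI
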