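import Pool.Agent.OB.ZL
import Pool.Agent.NS.ZSq

/-!
# OB, block Z (helper59): the input `EInpO` of block I from `O_EFIN`, after helper6's `NS/ZSq.lean`
-/

set_option autoImplicit false

open NumberField IsDedekindDomain

namespace Pool.Agent.OBZ

open _root_.MU3 Pool.Agent.MU3 Pool.Agent.MU3A Pool.Agent.MU3B Pool.Agent.RI Pool.Agent.RID
  Pool.Agent.MUX Pool.Agent.MUXK Pool.Agent.MUXJ Pool.Agent.MUXW Pool.Agent.MUXZ
  Pool.Agent.NS Pool.Agent.OB
open Pool.Agent.MU3V (Sub GD)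
open Pool.Agent.NSZ (cX_sq idl_ne_bot)

noncomputable section

/-- the input of block IN for the norm to any field `D ≤ RF (lvX p f n)` -/
theorem eInpO (hME : Sy_MEM) (hCX : Sy_CXS) (hEF : O_EFIN)
    {p er : ℕ} {A B : ℤ} {P : Ideal (OO A B)} {V : ValuationSubring ℂ} {f : ℕ}
    (hS : SetO p er A B P V f) (hT : TorX A B) (hLV : Zl_LVX)
    {ι : Type} [Fintype ι] (R : Reps A B (p * f) ι) {u e lam : ℂ}
    (hG : GoodL V (R.L R.i0) u e lam) {H : ι → Finset ℂ}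
    {θ : ∀ n : ℕ, (RF (idl (A := A) (B := B) (lvX p f n)) : IntermediateField (kk A B) ℂ)}
    (hth : ThN p f R H θ) (n : ℕ) (hn : 1 ≤ n) (D : IntermediateField ℚ ℂ) (h : kk A B ≤ D)
    (hInR : InRF er P p f n D) :
    EInpO p er P V f R u n h (fun τ => cWt h (θ n) τ) := by
  have hD : ∀ y ∈ D, y ∈ RF (idl (A := A) (B := B) (lvX p f n)) := hInR.1
  obtain ⟨hl0, _, _, hl2, hlu, hodd, hac, _, _, hcop⟩ := hLV p A B f (setQ_O hS) n
  have hb : (idl (A := A) (B := B) (lvX p f n)) ≠ ⊥ := idl_ne_bot hl0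
  have := hT.fin _ hb
  have := hT.gal _ hb
  obtain ⟨h1, h2, h3, _, _⟩ := hME A B _ (hT.fin _ hb) (hT.gal _ hb) (hT.comm _ hb) D h hD (θ n)
    (hth.ne n)
  let := algC h
  have hconj : ∀ τ : D ≃ₐ[kk A B] D, ∃ y : D, (y : ℂ) = cWt h (θ n) 1 ∧
      ((τ y : D) : ℂ) = cWt h (θ n) τ := by
    intro τ
    refine ⟨⟨cWt h (θ n) 1, (h2 1).1⟩, rfl, ?_⟩
    have hm : cW h (θ n) ∈ D := by rw [h1]; exact (h2 1).1
    have := h3 τ hm
    have he : (⟨cWt h (θ n) 1, (h2 1).1⟩ : D) = ⟨cW h (θ n), hm⟩ := Subtype.ext h1.symm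
    rw [he]; exact this
  have hsq : ∀ τ : D ≃ₐ[kk A B] D, cX R (lvX p f n) H h τ = cWt h (θ n) τ ^ 2 := by
    intro τ
    obtain ⟨S, hS1, hS2, hS3⟩ := hCX A B hS.cq hT (p * f) ι R (lvX p f n) hl0
      (fun i => hcop _ (R.cop i)) hl2 (aX p f) H (by unfold aX; omega) hac hth.half (θ n)
      (hth.pt n) D h hD τ
    rw [hS3]
    exact cX_sq hS.cq R hl0 H hth.half h τ S hS1 hS2
  have hfin : Finite (D ≃ₐ[kk A B] D) := by
    have hfd : FiniteDimensional (kk A B) D := by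
      have hle : ∀ x : D, (x : ℂ) ∈ RF (idl (A := A) (B := B) (lvX p f n)) := fun x => hD x x.2
      let φ : D →ₗ[kk A B] RF (idl (A := A) (B := B) (lvX p f n)) :=
        { toFun := fun x => ⟨x, hle x⟩
          map_add' := fun x y => rfl
          map_smul' := fun c x => by
            apply Subtype.ext
            rfl }
      exact FiniteDimensional.of_injective φ (fun x y hxy => by
        have := congrArg (fun z : RF (idl (A := A) (B := B) (lvX p f n)) => (z : ℂ)) hxy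
        exact Subtype.ext this)
    exact inferInstance
  refine ⟨(h2 1).2, hconj, ?_⟩
  rintro w hw g ⟨y, hy, hye⟩ τ'
  refine hEF p er A B P V f hS hT ι R u e lam hG w hw n hn H hth.half D h hInR ?_ g
    ⟨y ^ 2, pow_mem hy 2, ?_⟩ τ'
  · intro τ
    obtain ⟨z, hz1, hz2⟩ := hconj τ
    refine ⟨z ^ 2, ?_, ?_⟩
    · rw [hsq]
      push_cast
      rw [hz1]
    · rw [hsq, map_pow]
      push_cast
      rw [hz2]
  · have h4 : (∏ᶠ τ : D ≃ₐ[kk A B] D, cX R (lvX p f n) H h τ ^ g τ) =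
        (∏ᶠ τ : D ≃ₐ[kk A B] D, cWt h (θ n) τ ^ g τ) ^ 2 := by
      have := Fintype.ofFinite (D ≃ₐ[kk A B] D)
      rw [finprod_eq_prod_of_fintype, finprod_eq_prod_of_fintype, ← Finset.prod_pow]
      refine Finset.prod_congr rfl fun τ _ => ?_
      rw [hsq, ← zpow_natCast, ← zpow_natCast, ← zpow_mul, ← zpow_mul, mul_comm]
    rw [h4, ← hye]
    ring

end

end Pool.Agent.OBZ
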