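import Pool.Agent.OB.StI
import Pool.Agent.OB.Z_EINP
import Pool.Agent.MUX.StYR
import Pool.Agent.MUX.StJG

/-!
# OB, block J: the inputs of block K for one branch (helper19)

Model: `Pool/Agent/NS/ZR_INPG.lean` (helper87).
-/

set_option autoImplicit false

open NumberField IsDedekindDomain

namespace Pool.Agent.OB

open _root_.MU3 Pool.Agent.MU3 Pool.Agent.MU3A Pool.Agent.MU3B Pool.Agent.RI Pool.Agent.RID
  Pool.Agent.MUX Pool.Agent.MUXK Pool.Agent.MUXJ Pool.Agent.MUXW Pool.Agent.MUXZ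
  Pool.Agent.NS Pool.Agent.NSI
open Pool.Agent.OBZ (Zl_LVX Zl_INW Zl_SUB Zl_INR setQ_O)
open Pool.Agent.OBI (IsOm brO O_I3)

noncomputable section

/-- the inputs of block K for `K₀ ≤ K`, and for every `χ` an even branch -/
def Jo_INPO : Prop :=
  ∀ (p er : ℕ) [Fact p.Prime] (A B : ℤ) (P : Ideal (OO A B)) (V : ValuationSubring ℂ) (f : ℕ),
    SetO p er A B P V f → TorX A B →
    ∀ (K₀ K : IntermediateField ℚ ℂ) (Bn : ℕ → IntermediateField ℚ ℂ)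
    [FiniteDimensional ℚ (kk A B)] [FiniteDimensional ℚ K] [∀ n, FiniteDimensional ℚ ↥(K ⊔ Bn n)],
    SetX p (kk A B) K₀ K Bn → (∀ y ∈ K, y ∈ RF (idl (A := A) (B := B) (lvX p f 0))) →
    (∀ y ∈ RF (⊤ : Ideal (OO A B)), y ∈ K) →
    ∀ (hk : ∀ n, kk A B ≤ K ⊔ Bn n) (hk₀ : ∀ n, kk A B ≤ K₀ ⊔ Bn n) (hkK : kk A B ≤ K₀),
    ∃ (S : Finset ℕ) (c c₀ : ℕ → ℂ) (hW : InpW p (kk A B) K₀ K Bn hk hk₀ S c c₀ 0),
      ∀ (χ om : (letI := algC hkK; (↥K₀ ≃ₐ[kk A B] ↥K₀) →* (IsLocalRing.ResidueField V)ˣ))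
      (_ : IsOm (IsLocalRing.ResidueField V) p hkK om),
      ∃ j, j < p - 1 ∧ Even j ∧ ∀ N n₀ : ℕ, ∃ n, n₀ ≤ n ∧
        I3At (IsLocalRing.ResidueField V) p (kk A B) K₀ Bn hkK (brO hkK χ om j) N n (hk₀ n) (c₀ n)
          (hW.mem₀ n)

/-- INPO -/
theorem t_INPO (hRF : O_RFIN) (hEF : O_EFIN) (hI3 : O_I3) (hINR : Zl_INR) (hLV : Zl_LVX)
    (hIW : Zl_INW) (hSUB : Zl_SUB) (hTH : Sz_THN) (hME : Sy_MEM) (hCX : Sy_CXS)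
    (hRX : MUXY.Sy_REX) : Jo_INPO := by
  intro p er _ A B P V f hS hT K₀ K Bn _ _ _ hX hK hH hk hk₀ hkK
  have hCQ : CQ A B := hS.cq
  have hp := hS.pp
  have hL : OBZ.SetQ p A B f := setQ_O hS
  obtain ⟨ι, hι, ⟨R⟩⟩ := hRX A B hCQ hS.ex3 hS.ex4 (p * f) (Nat.mul_ne_zero hp.ne_zero hS.f0)
  have hodd := (hLV p A B f hL 0).2.2.2.2.2.1
  obtain ⟨H, hHalf, hθ⟩ := hTH A B hCQ hT (p * f) ι R (aX p f) hodd
  have hθ' : ∀ n : ℕ, ∃ θ : (RF (idl (A := A) (B := B) (lvX p f n)) :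
      IntermediateField (kk A B) ℂ),
      (θ : ℂ) = ThetaH (R.L R.i0) (H R.i0) (pt R (lvX p f n) R.i0 1) ∧
      (θ : ℂ) = ThetaH (R.L R.i0) (H R.i0) (R.om R.i0 / emb ((lvX p f n : ℕ) : OO A B)) ∧
      θ ≠ 0 := fun n =>
    hθ (lvX p f n) (hLV p A B f hL n).1 (hLV p A B f hL n).2.2.2.2.1
      (hLV p A B f hL n).2.2.2.2.2.2.1
  choose θ hθ1 hθ2 hθ3 using hθ'
  have hth : ThN p f R H θ := ⟨hHalf, hθ1, hθ2, hθ3⟩
  obtain ⟨S, hW⟩ := hIW p A B f hL hT ι R H θ hth K₀ K Bn hX hK hH hk hk₀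
  obtain ⟨u, e, lam, hG, -, -, -⟩ := (hRF p er A B P V hS.toCaseO hT).1 _ _ _ (R.nl R.i0)
  have hNL : NLex A B := ⟨_, _, _, R.nl R.i0⟩
  have hK₀ : ∀ y ∈ K₀, y ∈ RF (idl (A := A) (B := B) (lvX p f 0)) := fun y hy => hK y (hX.le hy)
  have hDn : ∀ n, ∀ y ∈ K₀ ⊔ Bn n, y ∈ RF (idl (A := A) (B := B) (lvX p f n)) := fun n =>
    hSUB p A B f hL hT hNL K₀ hK₀ n (Bn n) (hX.b0.lay n)
  refine ⟨S, fun n => cW (hk n) (θ n), fun n => cW (hk₀ n) (θ n), hW, ?_⟩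
  intro χ om hom
  refine hI3 p er A B P V f hS hT ι R u e lam hG K₀ K Bn hX hK₀ hk hk₀ hkK S _ _ 0 hW
    (fun n τ => cWt (hk₀ n) (θ n) τ) (fun n hn => ?_) (fun n hn => ?_) χ om hom
  · exact Pool.Agent.OBZ.eInpO hME hCX hEF hS hT hLV R hG hth n hn (K₀ ⊔ Bn n) (hk₀ n)
      (hINR p er A B P V f hS hT hNL K₀ hkK hX.cop hK₀ n (Bn n) (hX.b0.lay n))
  · have hb : (idl (A := A) (B := B) (lvX p f n)) ≠ ⊥ := NSZ.idl_ne_bot (hLV p A B f hL n).1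
    exact (hME A B _ (hT.fin _ hb) (hT.gal _ hb) (hT.comm _ hb) _ (hk₀ n) (hDn n) (θ n)
      (hth.ne n)).1

end

end Pool.Agent.OB
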