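import Pool.Agent.OB.StI

/-!
# OB, block J: change of the field of values of the characters (helper19)
-/

set_option autoImplicit false

namespace Pool.Agent.OB

open Pool.Agent.MUXK Pool.Agent.NSI Pool.Agent.MU3 Pool.Agent.MU3B Pool.Agent.RI Pool.Agent.RID
  Pool.Agent.MUX
open Pool.Agent.OBI (IsOm brO)

noncomputable section

/-- the character `ι ∘ χ` -/
def mpO {F F' : Type} [Field F] [Field F'] (ι : F' →+* F) {k K : IntermediateField ℚ ℂ}
    (h : k ≤ K) (χ : (letI := algC h; (↥K ≃ₐ[k] ↥K) →* F'ˣ)) :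
    (letI := algC h; (↥K ≃ₐ[k] ↥K) →* Fˣ) :=
  letI := algC h
  (Units.map (ι : F' →* F)).comp χ

theorem mpO_br {F F' : Type} [Field F] [Field F'] (ι : F' →+* F) {k K : IntermediateField ℚ ℂ}
    (h : k ≤ K) (χ om : (letI := algC h; (↥K ≃ₐ[k] ↥K) →* F'ˣ)) (j : ℕ) :
    mpO ι h (brO h χ om j) = brO h (mpO ι h χ) (mpO ι h om) j := by
  let _ := algC h
  apply MonoidHom.ext
  intro σ
  simp only [mpO, brO, MonoidHom.comp_apply, MonoidHom.mul_apply, MonoidHom.pow_apply, map_mul,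
    map_pow]

theorem isOm_mp {F F' : Type} [Field F] [Field F'] (ι : F' →+* F) (p : ℕ)
    {k K : IntermediateField ℚ ℂ} (h : k ≤ K) (om : (letI := algC h; (↥K ≃ₐ[k] ↥K) →* F'ˣ))
    (ho : IsOm F' p h om) : IsOm F p h (mpO ι h om) := by
  let _ := algC h
  intro σ z c hz hz1 hσ
  have h1 := ho σ z c hz hz1 hσ
  show ι ((om σ : F'ˣ) : F') = c
  rw [h1, map_natCast]

theorem I3At_mp {F F' : Type} [Field F] [Field F'] (ι : F' →+* F) (p : ℕ)
    (k K : IntermediateField ℚ ℂ) (B : ℕ → IntermediateField ℚ ℂ) (hkK : k ≤ K)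
    (χ : (letI := algC hkK; (↥K ≃ₐ[k] ↥K) →* F'ˣ)) (N n : ℕ) (hk : k ≤ K ⊔ B n) (c : ℂ)
    (mem : c ∈ K ⊔ B n) (h : I3At F p k K B hkK (mpO ι hkK χ) N n hk c mem) :
    I3At F' p k K B hkK χ N n hk c mem := by
  let _ := algC hk
  let _ := algC hkK
  intro γ hγ _ r hr
  obtain ⟨θ, hθ⟩ := h γ hγ r hr
  refine ⟨θ.comp (ι : F' →+ F), fun y => ?_⟩
  refine fun hy => hθ y (hy.trans ?_)
  refine Finset.prod_congr rfl fun δ _ => ?_
  congr 2

/-- the algebraic closure of `𝔽_p` is in every algebraically closed field of characteristic `p` -/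
theorem ex_io (p : ℕ) [Fact p.Prime] (F : Type) [Field F] [CharP F p] [IsAlgClosed F] :
    Nonempty (AlgebraicClosure (ZMod p) →+* F) := by
  let _ : Algebra (ZMod p) F := ZMod.algebra F p
  exact ⟨(IsAlgClosed.lift : AlgebraicClosure (ZMod p) →ₐ[ZMod p] F).toRingHom⟩

end

end Pool.Agent.OB
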