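import Pool.Agent.OB.Defs0
import Pool.Agent.NS.StTN
import Pool.Agent.NS.StTR

/-!
# OB, block T: TYPES, every prime `p ≥ 5` (helper59), after helper4's `NS/StTN.lean` (3 inert) and helper87's `NS/StTR.lean` (3 ramified)

`SetO p er A B P V f`, `er = 1` (`p` not in `P²`: split or inert) or `er = 2` (ramified), `q = nI P` the number of elements of `O/P`, `v = V.valuation` (multiplicative). `L_i = R.L i`,
`om_i = R.om i`, `mu_i = muX R i`, `Pc P` = the conjugate of `P` if `p` splits, `O` otherwise; `idl p = Pc P * P^er`. `σ` an automorphism of `ℂ / k` in the inertia group at `V` of a large Galois extension `F / k`.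
RESULT (`O_TYF` of `Defs0.lean`): all values `PhiK R e kk x y / (u om_0)` are `pi` times elements of the inertia field of `F`; on the inertia field `v w < 1` implies `(v w)^er ≤ v p`, and `v(pi)^(er (q - 1)) v(p)^i = 1`.

IDEA. Let `m = p^(j+1) m'`, `p ∤ m'`, `g = idl m' * (Pc P)^(j+1)`, the part of `idl m` prime to `P`. `σ` is trivial on `RF g` (`O_RFIN`), so it acts on the points of level `m` of every `L_i` as `d_i c`, `c ∈ O`, `c ≡ 1` modulo `g`,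
`d_i = ±1` (ACG). `σ u = d_0 u` (SGU), `σ mu_i = d_0 d_i mu_i` (SGM), `e(c) σ(P_i/om_i) = d_i P_i/om_i` (VAL), so `e(c) σ(P_i/(u om_0)) = P_i/(u om_0)` (VAK), and `e(c) = w(c)^i` (TYPE).
`tau = Σ w(x)⁻¹ ru(x Y)`, `Y` a point of `L_0[P]`: `σ tau = w(c) tau`, `v(tau)^(er (q-1)) = v p` (TAU). So `tau^i P_i/(u om_0)` is fixed by the inertia group.

Every statement is a `def So_X : Prop`; the module OBT_X proves `theorem o_X (h : ..) .. : So_X` in `Pool/Agent/OB/T_X.lean`, namespace `Pool.Agent.OBT` (private lemmas in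
`Pool.Agent.OBT.X`), with the statements named under USES as hypotheses (fewer is fine). The MODEL is the file named; copy it and replace `3` by `p`. Unconditional and usable: everything proved in the folders MU3, MUX, NS
(`NS/TAll.lean`, `NS/TR_X.lean`, `NS/RN_ALL.lean`, ..).
-/

set_option autoImplicit false

namespace Pool.Agent.OBT

open _root_.MU3 Pool.Agent.MU3A Pool.Agent.MU3B Pool.Agent.RI Pool.Agent.MUX Pool.Agent.MUXU
open OnePoint Pool.Agent.NS Pool.Agent.OB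
open Pool.Agent.MUXV (GR InK)
open Pool.Agent.NSE (su ru)
open Pool.Agent.NST (KIn ActT)
open Pool.Agent.MUXY (ActN Dn)

noncomputable section

/-- the points of `L[P]` different from `0` -/
def EP {A B : ℤ} (P : Ideal (OO A B)) (L : PeriodPair) : Set ℂ :=
  {Y | (∀ x ∈ P, emb x * Y ∈ L.lattice) ∧ Y ∉ L.lattice}

/-- (RTU) roots of unity of order prime to `p` are determined by their residues.

MODEL: `nt_RTU` (`NS/T_RTU.lean`), with a prime number `p` instead of `3`. -/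
def So_RTU : Prop :=
  ∀ (p : ℕ), p.Prime → ∀ (V : ValuationSubring ℂ), V.valuation (p : ℂ) < 1 → ∀ r : ℕ, ¬ p ∣ r →
    (∀ z z' : ℂ, z ^ r = 1 → z' ^ r = 1 → V.valuation (z' - z) < 1 → z' = z) ∧
    ∀ σ : ℂ ≃+* ℂ, (∀ z : ℂ, z ^ r = 1 → V.valuation (σ z - z) < 1) →
      ∀ z : ℂ, (z = 0 ∨ z ^ r = 1) → σ z = z

/-- (BAS) elementary facts on `P` and `V`.

PROOF. `p ∈ P` and (`OverI`) `v p < 1`; integers prime to `p` are units at `V` (Bezout; `emb n = n`). All `emb x`, `x ∈ O`, are integral over `ℤ`, so in `V`. `P` is prime and not `⊥` (`p ∈ P`, `p ≠ 0`), so maximal (`O` is a Dedekind domain: `(Pool.Agent.MUXE.te_RNG A B hcq).ded`), `O/P` is a finite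
field of characteristic `p`, a quotient of `O/p`, which has `p²` elements (`MUX.nI_sp`, `nm p = p²`): `nI P = p` or `p²` (`nI P = p^a`, `a ≥ 1`, `a ≤ 2`). So `4 ≤ nI P - 1`, `¬ p ∣ nI P - 1`. `y`: `p ∈ P` gives `idl p = P * Q` (`Ideal.dvd_iff_le`), `Q ≠ idl p` (cancel, `P ≠ ⊤`), `idl p ≤ Q`, so there is
`y ∈ Q`, `y ∉ idl p`; `x y ∈ P Q = idl p` for `x ∈ P`.
The last part: `Q = Pc P * P^(er-1)`, i.e. `idl p = Pc P * P^er`, and `Pc P` is prime to `P`. `P P' = idl p` or `idl p = P` (`P' = cjI P`; `x star x = nm x`): if `nI P = p`: `P P'` contains ... `P P' ∣ ` see `MUX/XLib.lean` (ideal norms, `cjI`); (i) split: `nI P = p`, `P' ≠ P`: `idl p ≤ P`, `idl p ≤ P'`, `P`, `P'` different maximal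
ideals, so `P P' = P ⊓ P' ≥ idl p`, equality by the norms (`p²`). Then `p ∉ P²` (otherwise `P' ≤ P`), `er = 1`. (ii) `nI P = p²`: `P = idl p`, `P' = P`, `p ∉ P² = p² O`, `er = 1`. (iii) `nI P = p`, `P' = P`: we must show `p ∈ P²`, `er = 2`. `idl p = P Q`, `nI Q = p`, `Q` prime; `cjI`: `idl p = P Q'`, so `Q' = Q`;
if `Q ≠ P`: for `x ∈ P`: `nm x = x star x ∈ P ∩ ℤ = p ℤ`.. (choose `x ∈ P`, `x ∉ Q`: `x star x ∈ p ℤ ⊆ Q`, so `star x ∈ Q`, `x ∈ Q' = Q`, a contradiction). So `Q = P`, `idl p = P²`. And if `er = 2` then `p ∈ P²`, so `Q ≤ P`.. `idl p = P²` (norms), and `P' = P` (`P'² = P²`). -/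
def So_BAS : Prop :=
  ∀ (p er : ℕ) (A B : ℤ) (P : Ideal (OO A B)) (V : ValuationSubring ℂ), CaseO p er A B P V →
    V.valuation (p : ℂ) < 1 ∧ V.valuation (2 : ℂ) = 1 ∧ P.IsMaximal ∧
    (∀ x : OO A B, V.valuation (emb x) ≤ 1) ∧ (∀ x : OO A B, V.valuation (emb x) < 1 ↔ x ∈ P) ∧
    (∀ n : ℕ, ¬ p ∣ n → V.valuation (n : ℂ) = 1) ∧
    (nI P = p ∨ nI P = p ^ 2) ∧ ¬ p ∣ nI P - 1 ∧ 4 ≤ nI P - 1 ∧
    (∃ y : OO A B, (∀ x ∈ P, ∃ z, x * y = (p : OO A B) * z) ∧ ∀ z, y ≠ (p : OO A B) * z) ∧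
    IsCoprime (Pc P) P ∧ idl (A := A) (B := B) p = Pc P * P ^ er

/-- (UNF) the inertia field. MODELS: `nt_UNF` (`NS/T_UNF.lean`, `er = 1`: the only fact used on `3` is that `w ∩ 𝓞 k` is unramified over `3`; here `p ∉ P²`, `v.valuation p = exp (-1)` for the prime `v = w ∩ 𝓞 k`, which corresponds to `P`) and `tw_UNF` (`NS/TR_UNF.lean`, `er = 2`).

USES BAS. PROOF. `w` = the prime of `𝓞 F` below `V`, `v = w ∩ 𝓞 k`, `x ∈ v.asIdeal` iff `x = emb z`, `z ∈ P`. `v.valuation p ≥ exp (-er)`: `idl p = Pc P * P^er`, `Pc P` prime to `P`: there are `t ∈ Pc P`, `t ∉ P`.. or: `p ∉ P^(er+1)` (otherwise `Pc P * P^er ≤ P^(er+1)`, `Pc P ≤ P`). (`v.intValuation_le_pow_iff_mem`.)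
For `y` in the inertia field, `v y < 1`: `w.valuation F y ≤ exp(-1)^e` (`e` the order of the inertia group), `w.valuation F p = (v.valuation p)^e ≥ exp(-er)^e`, so `w.valuation F (y^er / p) ≤ 1`, `v(y^er/p) ≤ 1` (`ord_le`). -/
def So_UNF : Prop :=
  ∀ (p er : ℕ) (A B : ℤ) (P : Ideal (OO A B)) (V : ValuationSubring ℂ), CaseO p er A B P V →
    ∀ (F : IntermediateField (kk A B) ℂ) [FiniteDimensional (kk A B) F] [IsGalois (kk A B) F],
    ∀ w ∈ KIn A B V F, V.valuation w < 1 → V.valuation w ^ er ≤ V.valuation (p : ℂ)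

/-- (FGP) finitely many pairs of cusps generate all values. MODEL: `nt_FGP` (`NS/T_FGP.lean`). -/
def So_FGP : Prop :=
  ∀ (p : ℕ), p.Prime → ∀ (P : OnePoint ℚ → OnePoint ℚ → ℂ) (T : Finset ℂ),
    (∀ x y, P x y ∈ AddSubgroup.closure (T : Set ℂ)) →
    ∃ (S : Finset (OnePoint ℚ × OnePoint ℚ)) (j N : ℕ), N ≠ 0 ∧ ¬ p ∣ N ∧
      (∀ q ∈ S, Dn (p ^ j * N) q.1 ∧ Dn (p ^ j * N) q.2) ∧
      ∀ x y, P x y ∈ AddSubgroup.closure
        ((fun q : OnePoint ℚ × OnePoint ℚ => P q.1 q.2) '' (S : Set (OnePoint ℚ × OnePoint ℚ)))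

/-- (ALV) the values are algebraic. MODEL: `nt_ALV` (`NS/T_ALV.lean`), with `p f` instead of `3 f`, and weights `kk i = 0` allowed (the terms are `0`).

USES Sy_ALP. -/
def So_ALV : Prop :=
  ∀ (p : ℕ), p.Prime → ∀ (A B : ℤ), CQ A B → TorX A B → ∀ (f : ℕ), f ≠ 0 →
    ∀ (ι : Type) [Fintype ι]
    (R : Reps A B (p * f) ι) (e : OO A B → ℂ), IsEI (idl (A := A) (B := B) (p * f)) e →
    ∀ r : ℕ, r ≠ 0 → (∀ x, e x ≠ 0 → e x ^ r = 1) →
    ∀ kk : ι → ℂ, (∀ i, kk i = 0 ∨ kk i ^ r = 1) →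
    ∀ u : ℂ, IsAlgebraic ℚ u → ∀ x y : OnePoint ℚ,
      IsAlgebraic ℚ (PhiK R e kk x y / (u * R.om R.i0))

/-- (ALT) algebraicity. MODEL: `tw_ALT` (`NS/TR_ALT.lean`): the same proof (`V` is not used; `GoodL` gives `NSR.Leg`: fields `u0`, `eq`). -/
def So_ALT : Prop :=
  ∀ (A B : ℤ), CQ A B → TorX A B → ∀ (V : ValuationSubring ℂ)
    (b : Ideal (OO A B)) (L : PeriodPair) (om : ℂ), IsNL b L om →
    ∀ u e lam : ℂ, GoodL V L u e lam →
      u ^ 2 ∈ RF (idl (A := A) (B := B) 2) ∧ e ∈ RF (idl (A := A) (B := B) 2) ∧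
      lam ∈ RF (idl (A := A) (B := B) 2) ∧ IsAlgebraic ℚ u ∧
      ∀ N : ℕ, N ≠ 0 → ∀ z, z ∉ L.lattice → (N : ℂ) * z ∈ L.lattice →
        IsAlgebraic ℚ (xu L u e z) ∧ IsAlgebraic ℚ (yu L u z) ∧ IsAlgebraic ℚ (ru L u e z)

/-- (ACG) the number `c` and the signs `d_i`, for `σ` trivial on `RF g`, `g` an ideal. MODEL: `tw_ACF` (`NS/TR_ACF.lean`), there `g = idl m'`.

USES Sy_MUU, Sy_BRI. (`kap (R.L i) ∈ RF ⊤ ≤ RF g` by `T.mono`.) -/
def So_ACG : Prop :=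
  ∀ (A B : ℤ), CQ A B → TorX A B → ∀ (n : ℕ) (ι : Type) (R : Reps A B n ι) (m : ℕ)
    (g : Ideal (OO A B)), m ≠ 0 → idl (A := A) (B := B) m ≤ g →
    ∀ σ : ℂ ≃+* ℂ, FixK A B σ → (∀ y ∈ RF g, σ y = y) →
    ∃ (c : OO A B) (d : ι → ℤ), c - 1 ∈ g ∧
      IsCoprime (sp c) (idl (A := A) (B := B) m) ∧ ActT R m σ c d

/-- (SGU) the sign `d_0`. MODELS: `tw_SGU` (`NS/TR_SGU.lean`), `nt_SGU` (`NS/T_SGU.lean`), with `m' = f` and level `m`.

USES BAS. PROOF. As there. Good reduction: as `rgrl` (`Sr_GRL`, `NS/RN_ALL.lean`), which gives `ξ` and `GR`, for `GoodL` instead (the discriminant of `y² = x (x-1) (x-lam)` is `16 lam² (1 - lam)²`, a unit at `V`). `z = om_0/f` and `2 z` are not in `L` (`2 z = om emb x` gives `2 = f x`, `f² ∣ 4`, but `f ≥ 3`) and not in the kernel of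
reduction: `Pool.Agent.MUXV.mem_of_nat_mul` with `v(f) = 1` (BAS). -/
def So_SGU : Prop :=
  ∀ (p er : ℕ) (A B : ℤ) (P : Ideal (OO A B)) (V : ValuationSubring ℂ), CaseO p er A B P V →
    ∀ (n : ℕ) (ι : Type) (R : Reps A B n ι) (u e lam : ℂ), GoodL V (R.L R.i0) u e lam →
    ∀ (m f : ℕ), m ≠ 0 → f ∣ m → 3 ≤ f → ¬ p ∣ f → ∀ (σ : ℂ ≃+* ℂ) (c : OO A B) (d : ι → ℤ),
    c - 1 ∈ idl (A := A) (B := B) f → ActT R m σ c d → σ (u ^ 2) = u ^ 2 →
    (V.valuation (yu (R.L R.i0) u (R.om R.i0 / f)) ≤ 1 →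
      V.valuation (σ (yu (R.L R.i0) u (R.om R.i0 / f)) -
        yu (R.L R.i0) u (R.om R.i0 / f)) < 1) → σ u = d R.i0 * u

/-- (SGM) the signs `d_i`. MODEL: `nt_SGM` (`NS/T_SGM.lean`), with `m' = f`, level `m`; `2 N(b_i) = f x` gives `f ∣ 2` as `N(b_i)` is prime to `f`, but `f ≥ 3`.

USES Sy_MUI, Sy_MUC, Sy_MUU. -/
def So_SGM : Prop :=
  ∀ (A B : ℤ), CQ A B → ∀ (n : ℕ) (ι : Type) (R : Reps A B n ι) (m f : ℕ), m ≠ 0 → f ∣ m →
    3 ≤ f → f ∣ n → ∀ (σ : ℂ ≃+* ℂ) (c : OO A B) (d : ι → ℤ),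
    c - 1 ∈ idl (A := A) (B := B) f → ActT R m σ c d →
    ∀ i, σ (muX R i) = d R.i0 * d i * muX R i

/-- (VAL) conjugation of the values. MODEL: `nt_VAL` (`NS/T_VAL.lean`), `3 f` replaced by `n ≥ 2`.

USES Sy_RA1. -/
def So_VAL : Prop :=
  ∀ (A B : ℤ), CQ A B → ∀ (n : ℕ), 2 ≤ n → ∀ (ι : Type) (R : Reps A B n ι)
    (e : OO A B → ℂ), IsEI (idl (A := A) (B := B) n) e → ∀ m : ℕ, m ≠ 0 → n ∣ m →
    ∀ (σ : ℂ ≃+* ℂ) (c : OO A B) (d : ι → ℤ), ActT R m σ c d → (∀ x, σ (e x) = e x) →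
    ∀ (i : ι) (x y : OnePoint ℚ), Dn m x → Dn m y →
      e c * σ (PhiI (R.b i) e x y / R.om i) = d i * (PhiI (R.b i) e x y / R.om i)

/-- (VAK) conjugation of the values of `PhiK/(u om_0)`. MODEL: `nt_VAK` (`NS/T_VAK.lean`).

USES SGM, VAL. -/
def So_VAK : Prop :=
  ∀ (A B : ℤ), CQ A B → ∀ (n : ℕ), 2 ≤ n → ∀ (ι : Type) [Fintype ι] (R : Reps A B n ι)
    (e : OO A B → ℂ), IsEI (idl (A := A) (B := B) n) e → ∀ (m f : ℕ), m ≠ 0 → n ∣ m → f ∣ n →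
    3 ≤ f → ∀ (σ : ℂ ≃+* ℂ) (c : OO A B) (d : ι → ℤ), c - 1 ∈ idl (A := A) (B := B) f →
    ActT R m σ c d → (∀ x, σ (e x) = e x) →
    ∀ kk : ι → ℂ, (∀ i, σ (kk i) = kk i) → ∀ u : ℂ, u ≠ 0 → σ u = d R.i0 * u →
    ∀ x y : OnePoint ℚ, Dn m x → Dn m y →
      e c * σ (PhiK R e kk x y / (u * R.om R.i0)) = PhiK R e kk x y / (u * R.om R.i0)

/-- (TRC) the points of order `P`. THIS IS A STATEMENT OF BLOCK E (helper96), the form is fixed here: `v(ru Y)^(er (q-1)) = v p` and `ru(x Y) ≡ x ru(Y)` for the points `Y` of `L[P] - 0`. -/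
def So_TRC : Prop :=
  ∀ (p er : ℕ) (A B : ℤ) (P : Ideal (OO A B)) (V : ValuationSubring ℂ), CaseO p er A B P V →
    TorX A B → ∀ (b : Ideal (OO A B)) (L : PeriodPair) (om u e lam : ℂ), IsNL b L om →
    GoodL V L u e lam →
    (∀ Y ∈ EP P L, V.valuation (ru L u e Y) ^ (er * (nI P - 1)) = V.valuation (p : ℂ)) ∧
    ∀ x : OO A B, x ∉ P → ∀ Y ∈ EP P L,
      emb x * Y ∈ EP P L ∧
      V.valuation (ru L u e (emb x * Y) - emb x * ru L u e Y) < V.valuation (ru L u e Y)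

/-- (TAU) the number `tau`. MODEL: `nt_TAU` (`NS/T_TAU.lean`).

USES BAS, TRC, Nt_TCJ (`nt_TCJ`, `NS/T_TCJ.lean`), ALT. PROOF. `L = L_0 = om emb O`, `Y = om emb y/p` with `y` of (BAS), `Y ∈ EP P L`. `T(x) := (w x)⁻¹ ru(emb x Y)` depends only on `x` modulo `P` (`IsTeiP.per`; for `x - x' ∈ P`: `emb (x - x') Y ∈ L`, and `ru` is periodic because `℘`, `℘'` are; for `x ∈ P`: `w x = 0`, `T(x) = 0`).
`tau := ∑ᶠ c : O ⧸ P, T(Quotient.out c)`, a finite sum. (1) For the `q - 1` classes `≠ 0`: `v(T(x) - ru Y) < v(ru Y)` (TRC; `v(emb x - w x)^er ≤ v p < 1`, `v(w x) = 1` as `w x` is a root of unity). So `v(tau - (q-1) ru Y) < v(ru Y)`, `v(q - 1) = 1` (BAS): `v(tau) = v(ru Y)`. (2) algebraic: (ALT) with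
`N = p`. (3) as there: `σ(T(x)) = (w x)⁻¹ ru(emb (c x) Y) = w(c) T(c x)`, `c` is invertible modulo `P`. -/
def So_TAU : Prop :=
  ∀ (p er : ℕ) (A B : ℤ) (P : Ideal (OO A B)) (V : ValuationSubring ℂ), CaseO p er A B P V →
    TorX A B → ∀ (n : ℕ) (ι : Type)
    (R : Reps A B n ι) (u e lam : ℂ), GoodL V (R.L R.i0) u e lam →
    ∀ w : OO A B → ℂ, IsTeiP p er P V w →
    ∃ tau : ℂ, V.valuation tau ^ (er * (nI P - 1)) = V.valuation (p : ℂ) ∧ IsAlgebraic ℚ tau ∧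
      ∀ (m : ℕ), p ∣ m → ∀ (σ : ℂ ≃+* ℂ) (c : OO A B) (d : ι → ℤ), ActT R m σ c d →
        c ∉ P → σ u = d R.i0 * u → σ e = e → (∀ x, σ (w x) = w x) →
        σ tau = w c * tau

/-- (TYF) THE RESULT of block T, two families of weights at the same time. MODELS: `tw_TYF` (`NS/TR_TYF.lean`: two families, weights `0` allowed) and `nt_TYF` (`NS/T_TYF.lean`: weights `w`).

USES O_RFIN (its second part; `Defs0.lean`), BAS, UNF, ALT, ACG, SGU, TAU, RTU, Nt_GLC (`nt_GLC`), FGP, Nt_FGV (`nt_FGV`), ALV, VAK. PROOF. As there, with `r (q - 1)` instead of `8 r`. `S, j, N`, `S', j', N'` from (FGP) for the two families, `m' = f N N'`, `J = j + j' + 1`, `m = p^J m'`, `g = idl m' * (Pc P)^J`: prime to `P`, `idl m ≤ g ≤ gO P f ≤ idl f`,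
`g ≤ idl 2` (`12 ∣ f`). `F ⊇ RF g` with the values at `S`, `S'`, `tau`, `yu L_0 u (om_0/f)`, the roots of unity of order dividing `r (q - 1)`. `σ` in the inertia group `InI A B V F`: trivial on `RF g` (O_RFIN), (ACG): `c, d`, `c ∉ P` (`sp c` is prime to `idl m ≤ P`). `e(c) = w(c)^i` since `c - 1 ∈ g ≤ gO P f`. -/
def So_TYF : Prop := O_TYF

end

end Pool.Agent.OBT
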