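import Pool.Agent.OB.Defs0
import Pool.Agent.OB.StT
import Pool.Agent.NS.StIN
import Pool.Agent.MUX.StZX

/-!
# OB, block I (helper79): from the results of blocks E, H to the input (I3) of block K for ONE branch, every prime `p ≥ 5`

Every statement is a `def Oi_X : Prop`; the module OBI_X proves `theorem oi_X (h : ..) ... : Oi_X` in the file `Pool/Agent/OB/I_X.lean`, namespace
`Pool.Agent.OBI` (private lemmas in `Pool.Agent.OBI.X`); the hypotheses are the statements named under USES (fewer is fine). All statements `Si_..` of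
`MUX/StIX.lean` and `Sn_..` of `NS/StIN.lean` are proved (`i_..` in `MUX/IAll.lean`, `n_..` in `NS/IAll.lean`; import them freely if this is more convenient
than a hypothesis). `So_BAS` : `OB/StT.lean` (block T, helper59). `v = V.valuation`, `q = nI P`.

THE ARGUMENT. `K` contains the `p`-th roots of unity, `K_n = K B_n ∋ ζ` of order `p^(n+1)`. `RB p n = ℚ(ζ + ζ⁻¹)`, so `B_n ≤ RB p n ≤ K_n`. `D₊ = NC h (RB p n)` is a subgroup of `Δ = NC h (B n) ≅ Gal(K/k)`; it consists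
of the `δ` with `om(δ)² = 1` (`om` : the cyclotomic character modulo `p`) (NCR). The proof of `Sn_I31` with `D₊` instead of `Δ` (XMX, TH, EPS) shows that for infinitely many `n` the product over `D₊` is not a `p`-th power. `Σ_(j even, j < p-1) om(δ)^(-j)` is `(p-1)/2`
on `D₊` and `0` elsewhere on `Δ`; so for one even `j` the product over `Δ` with `χ om^j` is not a `p`-th power (BRA).
-/

set_option autoImplicit false

namespace Pool.Agent.OBI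

open _root_.MU3 Pool.Agent.MU3 Pool.Agent.MU3A Pool.Agent.MU3B Pool.Agent.RI Pool.Agent.RID
  Pool.Agent.MUX Pool.Agent.MUXK Pool.Agent.MUXI Pool.Agent.NS Pool.Agent.NSI Pool.Agent.OB
open Pool.Agent.MU3I (zt)

noncomputable section

/-! ## Definitions -/

/-- the level, `p` an odd prime -/
structure SetQ (p : ℕ) (A B : ℤ) (f : ℕ) : Prop where
  cq : CQ A B
  pp : p.Prime
  p2 : p ≠ 2
  f0 : f ≠ 0

lemma setQ_O {p er : ℕ} {A B : ℤ} {P : Ideal (OO A B)} {V : ValuationSubring ℂ} {f : ℕ}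
    (h : SetO p er A B P V f) : SetQ p A B f :=
  ⟨h.cq, h.pp, by have := h.p5; omega, h.f0⟩

lemma q0_odd {p : ℕ} (h : p ≠ 2) : q0 p = p := by
  unfold q0
  rw [if_neg h]

lemma lvX_odd {p : ℕ} (h : p ≠ 2) (f n : ℕ) : lvX p f n = f * p ^ (n + 1) := by
  unfold lvX
  rw [q0_odd h]
  ring

/-- the real subfield of the field of the roots of unity of order `p^(n+1)` -/
def RB (p n : ℕ) : IntermediateField ℚ ℂ :=
  IntermediateField.adjoin ℚ {zt (p ^ (n + 1)) + (zt (p ^ (n + 1)))⁻¹}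

/-- the weights `kk_i = kp_i c_i / mu_i / t (N b_i)` -/
def kkT {A B : ℤ} {n₀ : ℕ} {ι : Type} (R : Reps A B n₀ ι) (kp c : ι → ℂ) (t : ℤ → ℂ) (i : ι) : ℂ :=
  kp i * c i / muX R i * (t (nI (R.b i)))⁻¹

/-- `om` is the cyclotomic character modulo `p` -/
def IsOm (F : Type) [Field F] (p : ℕ) {k K : IntermediateField ℚ ℂ} (h : k ≤ K)
    (om : (letI := algC h; (↥K ≃ₐ[k] ↥K) →* Fˣ)) : Prop :=
  letI := algC h
  ∀ (σ : ↥K ≃ₐ[k] ↥K) (z : K) (c : ℕ), z ^ p = 1 → z ≠ 1 → σ z = z ^ c → ((om σ : Fˣ) : F) = c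

/-- the character `χ om^j` -/
def brO {F : Type} [Field F] {k K : IntermediateField ℚ ℂ} (h : k ≤ K)
    (χ om : (letI := algC h; (↥K ≃ₐ[k] ↥K) →* Fˣ)) (j : ℕ) :
    (letI := algC h; (↥K ≃ₐ[k] ↥K) →* Fˣ) :=
  letI := algC h
  χ * om ^ j

/-! ## The prime `P` and characters -/

/-- (PRF) facts on `P`, continued.

USES So_BAS. PROOF. `q = nI P = Nat.card (O/P)`, `O/P` is a finite field (BAS: `P` maximal; `q = p` or `p²`, so finite). (1) `p ∈ P`; if `c ∈ P`, `p ∤ c` then `1 ∈ P` (Bezout). (2) `IsCoprime (Pc P) P`: `t ∈ Pc P`, `t ∉ P`; `x^er t ∈ P^er * Pc P = idl p`, `x^er t = p z`, `v(emb t) = 1`, `v(emb z) ≤ 1`.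
(3) `FiniteField.pow_card_sub_one_eq_one` in `O/P`. (4) the unit group of `O/P` is cyclic. (5) four cases. `er = 1`, `q = p` (split), `m = 1`: `Pc P = ⊤` would give `idl p = P`, `q = nI (idl p) = p²` (`MUX.nI_sp`); so `Pc P = cjI P`, and `x - 1 ∈ cjI P` means `star x - 1 ∈ P`; `nm x = x * star x`, so `nm x - x = x (star x - 1) ∈ P`.
`er = 1`, `q = p²` (inert), `m = p + 1`: `idl p ≤ P` and `nI (idl p) = p² = nI P`, so `P = idl p`, `cjI P = P`. `nm x - x^(p+1) = x (star x - x^p)`. Let `T = x + star x`, `N = nm x` (integers): modulo `P` (characteristic `p`; `c^p ≡ c` for integers): `(x^p)² - T x^p + N ≡ (x² - T x + N)^p = 0`, so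
`(x^p - x) (x^p - star x) ∈ P`. If `x^p - x ∈ P` then `x ≡ c` modulo `P`, `c` an integer (the polynomial `X^p - X` has in the field `O/P` the `p` roots `0, .., p-1` and no others), so `star x ≡ c ≡ x` (`cjI P = P`), and `x^p ≡ x ≡ star x`. `er = 2`, `q = p²`: impossible (`P = idl p`, `p ∈ P² = idl (p²)`).
`er = 2`, `q = p` (ramified), `m = 2`: `Pc P = ⊤`: otherwise `Pc P = cjI P` has `p` classes modulo it, and `idl p = cjI P * P^2 ≤ P * P ⊓ cjI P` has index `≥ p³` (or: `idl p ≤ P^2 ≤ P`, `nI (P^2) = p²` so `idl p = P^2`); so `cjI P = P` (`Pc P = cjI P = ⊤` is impossible). The integers `0, .., p-1` represent the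
`p` classes modulo `P`: `x ≡ c`, so `star x ≡ c ≡ x`: `nm x - x² = x (star x - x) ∈ P`. `2 m + 1 ≤ q`: `p ≥ 5`. Norms of ideals: `MUX/XLib.lean`. -/
def Oi_PRF : Prop :=
  ∀ (p er : ℕ) (A B : ℤ) (P : Ideal (OO A B)) (V : ValuationSubring ℂ), CaseO p er A B P V →
    (∀ c : ℤ, (c : OO A B) ∈ P ↔ (p : ℤ) ∣ c) ∧
    (∀ x ∈ P, V.valuation (emb x) ^ er ≤ V.valuation (p : ℂ)) ∧
    (∀ x ∉ P, x ^ (nI P - 1) - 1 ∈ P) ∧
    (∃ g ∉ P, ∀ x ∉ P, ∃ k : ℕ, x - g ^ k ∈ P) ∧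
    ∃ m : ℕ, er * (nI P - 1) = m * (p - 1) ∧ m ∣ nI P - 1 ∧ 1 ≤ m ∧ 2 * m + 1 ≤ nI P ∧
      ∀ x : OO A B, x - 1 ∈ Pc P → x ∉ P → ((nm x : ℤ) : OO A B) - x ^ m ∈ P

/-- (TEI) existence of the Teichmueller character. MODEL: `NS/I_TEI.lean`.

USES So_BAS, PRF. PROOF. `g` as in PRF (4), `N = q - 1`, prime to `p`. `v(emb g ^ N - 1)^er ≤ v p` (PRF (3), (2)). `X^N - 1 = ∏_j (X - ζ^j)`, `ζ` a primitive `N`-th root of unity; the differences `ζ^j - ζ^l`, `j ≠ l`, have valuation `1` (`∏_(l = 1)^(N-1) (1 - ζ^l) = N`, `v N = 1` by BAS, all factors `≤ 1`). So some factor `emb g - ζ^j` of `emb g ^ N - 1 = ∏_j (emb g - ζ^j)`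
has `v < 1`, the others have `v = 1`, so `v(emb g - ζ^j)^er = v(emb g ^ N - 1)^er ≤ v p`. Put `ω = ζ^j`, `w x = ω^k` if `x - g^k ∈ P`, `w x = 0` if `x ∈ P`. Well defined: if `g^k ≡ g^l` modulo `P` then `v(ω^k - ω^l) < 1` (`v(ω^k - emb g^k) < 1`), so `ω^k = ω^l` (the differences of different `N`-th roots of unity have valuation `1`). Multiplicative.
`cong`, `x ∉ P`: `w x - emb x = (ω^k - emb g^k) - emb(x - g^k)`, each with `v^er ≤ v p` (`ω^k - emb g^k` is a multiple of `ω - emb g`; PRF (2)); `v(a + b)^er ≤ max`. `x ∈ P`: PRF (2). -/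
def Oi_TEI : Prop :=
  ∀ (p er : ℕ) (A B : ℤ) (P : Ideal (OO A B)) (V : ValuationSubring ℂ), CaseO p er A B P V →
    ∃ w : OO A B → ℂ, IsTeiP p er P V w

/-- (EPS) the odd character, the twist `t`, the sign `s` and the type `i`. MODEL: `NS/I_EPS.lean`.

USES So_BAS, PRF. PROOF. `lvX p f 0 = f p`. `k* = {x : x - 1 ∈ gO P f, x ∉ P}`. `idl (p f) = gO P f * P^er` (BAS), `gO P f` is prime to `P` (`¬ p ∣ f`; BAS). If `x, x' ∈ k*`, `x - x' ∈ P`, then `e0 x = e0 x'`: let `x' x'' ≡ 1` modulo `p f` (`x'` is prime to `p f`), `y = x x''`, `y = 1 + z`, `z ∈ gO P f * P` (`= gO P f ⊓ P`); `y^p - 1 ∈ idl (p f)`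
(`p z ∈ gO * P^er`, `z^p ∈ gO * P^er` as `er ≤ 2 ≤ p`), so `e0(y)^p = 1`, `e0(y)^r = 1`, `e0 y = 1`. Let `g` be as in PRF (4), `g' ≡ g` modulo `P`, `g' ≡ 1` modulo `gO P f` (CRT), `N = q - 1`. `e0(g')^N = 1` (`g'^N ∈ k*`, `≡ 1` modulo `P`). `w g` is a primitive `N`-th root of unity (`(w g)^l = w(g^l) = 1` implies `v(1 - emb g^l) < 1`, `g^l - 1 ∈ P`,
and then `N ∣ l`: the powers of `g` represent all `N` classes). So `e0(g') = w(g)^b` for some `b`, and `e0 x = w(x)^b` for `x ∈ k*` (`x ≡ g^k ≡ g'^k` modulo `P`). `m` from PRF (5): `w(nm x) = w(x)^m` for `x ∈ k*`. `i = m + (b + 1) % m`, `j = (b + 1)/m + N/m - 1`: `m ≤ i ≤ 2 m - 1 ≤ q - 2`, `i + m j = b + 1 + N`. `t a = w((a : O))^j`, `s = (-1)^j`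
(`w (-1) = -1`: `w(-1)² = 1`, `v(w(-1) + 1) < 1`, `v 2 = 1`). `e x = e0 x * w x * (t (nm x))⁻¹`. On `k*`: `e x = w(x)^(b+1) (w(x)^(m j))⁻¹ = w(x)^i` (`w(x)^N = 1`). `supp`: `x` prime to `p f`: `x ∉ P`, `nm x` prime to `p`; `e0 x ≠ 0` iff `x` is prime to `p f`. `per`: `nm x ≡ nm y` modulo `p`. `e(-1) = e0(-1) w(-1) = -1`. -/
def Oi_EPS : Prop :=
  ∀ (p er : ℕ) (A B : ℤ) (P : Ideal (OO A B)) (V : ValuationSubring ℂ) (f : ℕ)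
    (_ : SetO p er A B P V f) (w : OO A B → ℂ) (_ : IsTeiP p er P V w)
    (e0 : OO A B → ℂ) (r : ℕ) (_ : ¬ p ∣ r)
    (_ : e0 1 = 1) (_ : e0 (-1) = 1) (_ : ∀ x y, e0 (x * y) = e0 x * e0 y)
    (_ : ∀ x y, x - y ∈ idl (A := A) (B := B) (lvX p f 0) → e0 x = e0 y)
    (_ : ∀ x, e0 x ≠ 0 ↔ IsCoprime x ((lvX p f 0 : ℕ) : OO A B))
    (_ : ∀ x, e0 x ≠ 0 → e0 x ^ r = 1),
    ∃ (e : OO A B → ℂ) (s : ℤ) (i : ℕ) (t : ℤ → ℂ),
      IsEI (idl (A := A) (B := B) (p * f)) e ∧ (s = 1 ∨ s = -1) ∧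
      er * (nI P - 1) ≤ i * (p - 1) ∧ i ≤ nI P - 2 ∧
      (∀ x, x - 1 ∈ gO P f → x ∉ P → e x = w x ^ i) ∧
      (∀ x, e x ≠ 0 → e x ^ ((nI P - 1) * r) = 1) ∧
      (∀ a b : ℤ, t (a * b) = t a * t b) ∧ (∀ a b : ℤ, (p : ℤ) ∣ a - b → t a = t b) ∧
      t 1 = 1 ∧ t (-1) = s ∧ (∀ a : ℤ, ¬ (p : ℤ) ∣ a → t a ^ (nI P - 1) = 1) ∧
      ∀ x, IsCoprime x ((lvX p f 0 : ℕ) : OO A B) → e0 x * w x = e x * t (nm x)

/-- (CHI) one character `X` for all subgroups. MODEL: `MUX/I_CHI.lean` (`Si_CHI`, there `Δ' = Δ`).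

PROOF. `X` is constructed there (the Teichmueller lift of `χ`: `X δ` is the root of unity of order prime to `p` with residue `χ δ`); the existence of `θ` for `Δ'`: if `Σ_δ θ(χ(j δ)⁻¹) χ(j δ) = 0` in the residue field `F` for all additive `θ : F → F_p` then `Σ_δ χ(j δ)⁻¹ ⊗ χ(j δ) = 0` in `F ⊗ F`, so `card Δ' = 0` in `F`; but `card Δ'` divides `card Δ` (`j` is injective), prime to `p`.
(Apply the proof there to `χ ∘ j`, `X ∘ j`.) -/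
def Oi_CHI : Prop :=
  ∀ (p : ℕ) [Fact p.Prime] (V : ValuationSubring ℂ) (_ : (p : ℂ) ∈ V.nonunits)
    (_ : CharP (IsLocalRing.ResidueField V) p) (_ : IsAlgClosed (IsLocalRing.ResidueField V))
    (Δ : Type) [Group Δ] [Finite Δ] (_ : ∀ σ τ : Δ, σ * τ = τ * σ)
    (_ : ¬ p ∣ Nat.card Δ) (χ : Δ →* (IsLocalRing.ResidueField V)ˣ),
    ∃ X : Δ →* ℂˣ, (∀ δ, X δ ^ Nat.card Δ = 1) ∧
      ∀ (Δ' : Type) [Group Δ'] [Fintype Δ'] (j : Δ' →* Δ), Function.Injective j →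
      ∃ θ : IsLocalRing.ResidueField V →+ ZMod p,
        (∑ δ : Δ', ((θ ((χ (j δ))⁻¹ : (IsLocalRing.ResidueField V)ˣ)).val : ℂ) *
          (X (j δ) : ℂ)) ∉ V.nonunits

/-- (BRA) the branches: algebra.

PROOF. Suppose that for all even `j < p - 1` and all `θ'` the product is a `p`-th power. Given `θ`, let `θ' x = θ (-2 x)`. For `δ : Δ`: `Σ_(j even, j < p-1) θ'((χ δ * u δ^j)⁻¹) = θ(-2 (χ δ)⁻¹ Σ_(m < (p-1)/2) ((u δ)^(-2))^m)`; the geometric sum is `(p-1)/2` if `u δ² = 1`, and `0` otherwise (`(u δ)^(p-1) = 1`). `-2 (p-1)/2 = 1 - p = 1` in `F`.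
So the sum of the `θ'(..)` (in `ZMod p`) is `θ((χ δ)⁻¹)` for `δ ∈ S` and `0` otherwise. The product over the even `j` of the `p`-th powers `∏_δ a δ ^ (θ'(..)).val` is `∏_δ a δ ^ (Σ_j (θ'(..)).val)`, and `Σ_j (θ'(..)).val ≡ (θ((χ δ)⁻¹)).val` or `0` modulo `p`: it differs from `∏_(δ ∈ S) a δ ^ (θ((χ δ)⁻¹)).val` by a `p`-th power. So this product is
a `p`-th power for every `θ`, against the hypothesis. -/
def Oi_BRA : Prop :=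
  ∀ (F : Type) [Field F] (p : ℕ) [Fact p.Prime] (_ : p ≠ 2) [CharP F p] (M : Type) [CommGroup M]
    (Δ : Type) [Fintype Δ] (S : Finset Δ) (u χ : Δ → Fˣ) (_ : ∀ δ, u δ ^ (p - 1) = 1)
    (_ : ∀ δ, δ ∈ S ↔ u δ ^ 2 = 1) (a : Δ → M),
    (∃ θ : F →+ ZMod p, ∀ y : M, y ^ p ≠ ∏ δ ∈ S, a δ ^ (θ ((χ δ)⁻¹ : Fˣ)).val) →
    ∃ j, j < p - 1 ∧ Even j ∧ ∃ θ : F →+ ZMod p,
      ∀ y : M, y ^ p ≠ ∏ δ, a δ ^ (θ ((χ δ * u δ ^ j)⁻¹ : Fˣ)).val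

/-! ## The fields -/

/-- (OME) the cyclotomic character.

PROOF. `IsPrimitiveRoot.autToPow` (Mathlib) with values in `(ZMod p)ˣ`, followed by `Units.map (ZMod.castHom (dvd_refl p) F)`. Every `z ≠ 1` with `z^p = 1` is a power `ω^a`, `a` prime to `p`; `σ z = z^c` gives `σ ω = ω^c`. -/
def Oi_OME : Prop :=
  ∀ (F : Type) [Field F] (p : ℕ) [Fact p.Prime] [CharP F p] (k K : IntermediateField ℚ ℂ)
    [FiniteDimensional ℚ K] (h : k ≤ K) (_ : ∃ ω ∈ K, IsPrimitiveRoot ω p),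
    ∃ om : (letI := algC h; (↥K ≃ₐ[k] ↥K) →* Fˣ), IsOm F p h om

/-- (SUB) `K B_n` is in the ray class field of its level. MODEL: `tn_SUB` (`NS/I_SUB.lean`), `tp_SUB` (`NS/IR_SUB.lean`, the first half).

USES Si_IAF (`Pool.Agent.MUXI.i_IAF`), t_CYCO (`OB/J_LAYO.lean`), So_BAS. PROOF. First part: as `tn_SUB`: `B_n ≤ ℚ(μ_(p^(n+1)))` (CYCO (1)) and the roots of unity are in `RF (idl (lvX p f n))` (IAF 8). Second part, `er = 2`: as `tp_SUB`: `idl p = P^2` (BAS: `idl p = Pc P * P^2`, and `Pc P = ⊤`, see the proof of PRF (5)), `lvR P f n ≤ idl (p f)`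
(`n ≥ 1`), and `c - 1 ∈ lvR P f n` implies `p^(n+1) ∣ nm c - 1`: `c = 1 + y`, `y ∈ P^(2n+1) = p^n P`, `y = p^n z`, `z ∈ P`, `nm c = 1 + p^n tr z + p^(2n) nm z`; `tr z = z + star z ∈ P ∩ ℤ = p ℤ` (`cjI P = P`), `nm z ∈ p ℤ`. -/
def Oi_SUB : Prop :=
  ∀ (p er : ℕ) (A B : ℤ) (P : Ideal (OO A B)) (V : ValuationSubring ℂ) (f : ℕ),
    SetO p er A B P V f → TorX A B →
    (∃ (b : Ideal (OO A B)) (L : PeriodPair) (om : ℂ), IsNL b L om) →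
    ∀ (K : IntermediateField ℚ ℂ), (∀ y ∈ K, y ∈ RF (idl (A := A) (B := B) (lvX p f 0))) →
    ∀ (n : ℕ) (Bn : IntermediateField ℚ ℂ), 1 ≤ n → IsLayer p n Bn → InRF er P p f n (K ⊔ Bn)

/-- (GAM) an automorphism `γ` of `K_n / k` with fixed field `K`, which maps `ζ` to `ζ^(1+p)`. MODEL: `MUX/I_GAM.lean`.

USES S_GENX, t_CYCO (`OB/J_LAYO.lean`). PROOF. `ζ = zt (p^(n+1)) ∈ K_n` (CYCO (2), `K_n ≥ B_n`, `ω ∈ K`). `g` from GENX, of order `p^n` with fixed field `K`. `g ζ = ζ^c`; `g` fixes `ζ^(p^n) ∈ K` (a power of `ω`), so `c ≡ 1` modulo `p`. The powers `g^i`, `i < p^n`, have different values at `ζ`: if `g^i ζ = ζ` then `g^i` is trivial on `K` and on `B_n ≤ ℚ(ζ)` (CYCO (1)), so on `K ⊔ B_n`. There are `p^n`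
numbers `ζ^c`, `c ≡ 1` modulo `p`, so some `g^i =: γ` has `γ ζ = ζ^(1+p)`. `γ^j ζ = ζ^((1+p)^j)`, `(1+p)^j ≡ 1` modulo `p^(n+1)` only if `p^n ∣ j` (LTE, `p` odd), so `γ` has order `p^n`, `⟨γ⟩ = ⟨g⟩` and the fixed field of `γ` is `K`. -/
def Oi_GAM : Prop :=
  ∀ (p : ℕ) [Fact p.Prime] (_ : p ≠ 2) (k K : IntermediateField ℚ ℂ)
    (Bn : ℕ → IntermediateField ℚ ℂ)
    [FiniteDimensional ℚ K] [∀ n, FiniteDimensional ℚ ↥(K ⊔ Bn n)] (_ : BasX p k K Bn)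
    (_ : ∃ ω ∈ K, IsPrimitiveRoot ω p) (n : ℕ) (h : k ≤ K ⊔ Bn n),
    letI := algC h
    ∃ γ : ↥(K ⊔ Bn n) ≃ₐ[k] ↥(K ⊔ Bn n),
      (∀ x : ↥(K ⊔ Bn n), γ x = x ↔ (x : ℂ) ∈ K) ∧
      ∀ x : ↥(K ⊔ Bn n), (x : ℂ) = zt (p ^ (n + 1)) + (zt (p ^ (n + 1)))⁻¹ →
        ((γ x : ↥(K ⊔ Bn n)) : ℂ) =
          zt (p ^ (n + 1)) ^ (1 + p) + (zt (p ^ (n + 1)) ^ (1 + p))⁻¹

/-- (NCR) the group `NC h (RB p n)`.

USES t_CYCO, t_LAYO (`OB/J_LAYO.lean`). PROOF. `ζ = zt (p^(n+1)) ∈ K ⊔ Bn` (CYCO (2)), so `RB p n = ℚ(ζ + ζ⁻¹) ≤ K ⊔ Bn`. `Bn ≤ RB p n`: `Bn ≤ ℚ(ζ)` (CYCO (1)) and `Bn` is real (`IsLayer`); `ℚ(ζ)` is abelian over `ℚ` and `RB p n` is its maximal real subfield (the element of `Gal(ℚ(ζ)/ℚ)` given by complex conjugation fixes `Bn`; `[ℚ(ζ) : RB] = 2`); or: `ℚ(ζ)/ℚ` is cyclic of degree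
`p^n (p-1)`, `RB p n` has degree `p^n (p-1)/2` (`MU3I.Ilay.deg`), a multiple of `p^n`, so it contains a field of degree `p^n` (`OB.Lay.exSub`), which is `Bn` (`OB.Lay.uniqO`). The equivalence for `δ ∈ NC h Bn`: let `δ ζ = ζ^c`, so `δ z = z^c` for all `z` with `z^p = 1`. (→) `δ` fixes `ζ + ζ⁻¹`: `ζ^c = ζ^(±1)`. (←) `c ≡ ε = ± 1` modulo `p`.
The restriction of `δ` to `ℚ(ζ)` is in `Gal(ℚ(ζ)/Bn)`, which has order `[ℚ(ζ) : Bn] = p - 1`: `c^(p-1) ≡ 1` modulo `p^(n+1)`. `(ε c)^(p^n) ≡ 1` modulo `p^(n+1)` (as `ε c ≡ 1` modulo `p`) and `(ε c)^(p-1) ≡ 1` (`p - 1` is even): `ε c ≡ 1` modulo `p^(n+1)`, so `δ ζ = ζ^ε`. -/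
def Oi_NCR : Prop :=
  ∀ (p : ℕ) [Fact p.Prime] (_ : p ≠ 2) (k K : IntermediateField ℚ ℂ) (n : ℕ)
    (Bn : IntermediateField ℚ ℂ) (_ : IsLayer p n Bn) (_ : ∃ ω ∈ K, IsPrimitiveRoot ω p)
    (h : k ≤ K ⊔ Bn), letI := algC h
    Bn ≤ RB p n ∧ RB p n ≤ K ⊔ Bn ∧
    ∀ δ : ↥(K ⊔ Bn) ≃ₐ[k] ↥(K ⊔ Bn), δ ∈ NC h Bn →
      (δ ∈ NC h (RB p n) ↔ ∀ z : ↥(K ⊔ Bn), z ^ p = 1 → δ (z + z⁻¹) = z + z⁻¹)

/-- (E0) the characters `e0` and `kp` attached to a character of `Gal(K/k)`, `K ≤ RF (f p)`. MODEL: `tn_E0` (`NS/I_E0.lean`), the same proof with `SetQ`.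

USES Si_ARF, Sx_NIM. -/
def Oi_E0 : Prop :=
  ∀ (p : ℕ) (A B : ℤ) (f : ℕ),
    SetQ p A B f → TorX A B → ∀ (ι : Type) (R : Reps A B (p * f) ι)
    (K : IntermediateField ℚ ℂ) (hK : kk A B ≤ K),
    (∀ y ∈ K, y ∈ RF (idl (A := A) (B := B) (lvX p f 0))) → letI := algC hK
    ∀ (_ : IsGalois (kk A B) K) (X : (K ≃ₐ[kk A B] K) →* ℂˣ) (r : ℕ) (_ : ∀ τ, X τ ^ r = 1),
    ∃ (e0 : OO A B → ℂ) (kp : ι → ℂ), e0 1 = 1 ∧ e0 (-1) = 1 ∧ (∀ x y, e0 (x * y) = e0 x * e0 y) ∧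
      (∀ x y, x - y ∈ idl (A := A) (B := B) (lvX p f 0) → e0 x = e0 y) ∧
      (∀ x, e0 x ≠ 0 ↔ IsCoprime x ((lvX p f 0 : ℕ) : OO A B)) ∧
      (∀ x, e0 x ≠ 0 → e0 x ^ r = 1) ∧ (∀ i, kp i ^ r = 1) ∧
      ∀ (τ : K ≃ₐ[kk A B] K) (i : ι) (x : OO A B), IsCoprime x ((lvX p f 0 : ℕ) : OO A B) →
        AR hK (idl (lvX p f 0)) τ (sp x * cjI (R.b i)) → (((X τ)⁻¹ : ℂˣ) : ℂ) = kp i * e0 x

/-- (XMX) the sets `XX` satisfy `XM` for the group `NC h (RB p n)`. MODEL: `tn_XMX` (`NS/I_XMX.lean`): there `Bn = ℚ(t)` by `Si_LAY`; here `RB p n = ℚ(t)` by definition, `D = K ⊔ Bn` is an arbitrary field.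

USES Si_XXF, Si_ARF. -/
def Oi_XMX : Prop :=
  ∀ (p : ℕ) (A B : ℤ) (f : ℕ),
    SetQ p A B f → TorX A B → ∀ (ι : Type) (R : Reps A B (p * f) ι)
    (D : IntermediateField ℚ ℂ) (n : ℕ) (h : kk A B ≤ D), RB p n ≤ D →
    (∀ y ∈ D, y ∈ RF (idl (A := A) (B := B) (lvX p f n))) → letI := algC h
    ∀ (_ : IsGalois (kk A B) ↥D) (γ : ↥D ≃ₐ[kk A B] ↥D),
    (∀ x : ↥D, (x : ℂ) = zt (p ^ (n + 1)) + (zt (p ^ (n + 1)))⁻¹ →
        ((γ x : ↥D) : ℂ) =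
          zt (p ^ (n + 1)) ^ (1 + p) + (zt (p ^ (n + 1)) ^ (1 + p))⁻¹) →
    XM R p f n γ (NC h (RB p n)) (fun τ => XX R (lvX p f n) h τ)

/-- (TSH) the sums of the logarithmic derivatives. MODEL: `tn_TSH` (`NS/I_TSH.lean`), the same proof with `SetQ`.

USES Si_PTP, Sx_ALG. -/
def Oi_TSH : Prop :=
  ∀ (p : ℕ) (A B : ℤ) (f : ℕ),
    SetQ p A B f → ∀ g : Ideal (OO A B), idl (A := A) (B := B) (lvX p f 0) ≤ g →
    ∀ (ι : Type) (R : Reps A B (p * f) ι) (n : ℕ) (e : OO A B → ℂ),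
    IsEI g e → ∀ (i : ι) (t : ℤ),
    muX R i * sumMod ((lvX p f n : ℕ) : OO A B) (fun x =>
      if ((p ^ (n + 1) : ℕ) : ℤ) ∣ nm x * nI (R.b i) - t then
        e x * dlX (R.L i) (aX p f) (pt R (lvX p f n) i x) else 0) =
      (aX p f : ℂ) * SnX R (lvX p f n) (p ^ (n + 1)) e i ((aX p f : ℤ) ^ 2 * t) -
        (aX p f : ℂ) ^ 2 * SnX R (lvX p f n) (p ^ (n + 1)) e i t

/-- (TH) the sums `That_j` with a twist `t`. MODEL: `tn_TH` (`NS/I_TH.lean`; there `t = 1` or `t = w3`).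

USES TSH. PROOF. As there. If `p^(n+1)` divides `nm x * N - (1+p)^j`, `N = nI (b i)`, then `t (nm x) t(N) = t 1 = 1` (`t` has period `p`), and if it divides `nm x * N + (1+p)^j` then `t (nm x) t(N) = t (-1) = s`, so `t (nm x) = (t N)⁻¹` resp. `s (t N)⁻¹`. -/
def Oi_TH : Prop :=
  ∀ (p : ℕ) (A B : ℤ) (f : ℕ),
    SetQ p A B f → ∀ g : Ideal (OO A B), idl (A := A) (B := B) (lvX p f 0) ≤ g → g ≤ idl f →
    ∀ (ι : Type) [Fintype ι] (R : Reps A B (p * f) ι) (n : ℕ) (G : Type)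
    [Group G] [Finite G] (γ : G) (Δ : Subgroup G) [Fintype Δ]
    (X : G → Set (ι × (OO A B ⧸ idl (A := A) (B := B) (lvX p f n)))), XM R p f n γ Δ X →
    ∀ (χ : Δ →* ℂˣ) (e0 : OO A B → ℂ) (kp c : ι → ℂ) (w : OO A B → ℂ) (e : OO A B → ℂ)
    (s : ℤ) (t : ℤ → ℂ),
    (∀ x y, x - y ∈ idl (A := A) (B := B) (lvX p f n) → e0 x = e0 y) →
    (∀ x y, x - y ∈ idl (A := A) (B := B) (lvX p f n) → w x = w y) →
    IsEI g e → (∀ a b : ℤ, t (a * b) = t a * t b) → (∀ a b : ℤ, (p : ℤ) ∣ a - b → t a = t b) →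
    t 1 = 1 → t (-1) = s →
    (∀ x, IsCoprime x ((lvX p f 0 : ℕ) : OO A B) → e0 x * w x = e x * t (nm x)) →
    (∀ (δ : Δ) (j : ℕ), ∀ q ∈ X (γ ^ j * (δ : G)),
      (((χ δ)⁻¹ : ℂˣ) : ℂ) = kp q.1 * e0 (Quotient.out q.2)) →
    ∀ j : ℕ,
    ∑ δ : Δ, (((χ δ)⁻¹ : ℂˣ) : ℂ) * ∑ᶠ q ∈ X (γ ^ j * (δ : G)), w (Quotient.out q.2) *
        c q.1 * dlX (R.L q.1) (aX p f) (pt R (lvX p f n) q.1 (Quotient.out q.2)) =
      STX R (lvX p f n) (p ^ (n + 1)) (aX p f) e (kkT R kp c t) ((1 + (p : ℤ)) ^ j) +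
        s * STX R (lvX p f n) (p ^ (n + 1)) (aX p f) e (kkT R kp c t) (-(1 + (p : ℤ)) ^ j)

/-! ## The result -/

/-- (I31) one level, `T`, one even branch. Module of helper79. MODEL: `tn_I31` (`NS/I_I31.lean`).

USES Sj_RES, CHI, Sn_FOU, St_ITG, EPS, TEI, E0, Si_ARF, Si_XXF, SUB, GAM, NCR, XMX, Si_BIJ, TH, BRA, Si_GEN, O_HFIN, S_GALX. -/
def Oi_I31 : Prop :=
  ∀ (p er : ℕ) [Fact p.Prime] (A B : ℤ) (P : Ideal (OO A B)) (V : ValuationSubring ℂ) (f : ℕ),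
    SetO p er A B P V f → TorX A B →
    ∀ (ι : Type) [Fintype ι] (R : Reps A B (p * f) ι) (u el lam : ℂ),
    GoodL V (R.L R.i0) u el lam →
    ∀ (K : IntermediateField ℚ ℂ) (Bn : ℕ → IntermediateField ℚ ℂ)
    [FiniteDimensional ℚ K] [∀ n, FiniteDimensional ℚ ↥(K ⊔ Bn n)]
    (hB : BasX p (kk A B) K Bn)
    (_ : ¬ p ∣ Module.finrank (kk A B) (IntermediateField.extendScalars hB.hk))
    (_ : ∃ ω ∈ K, IsPrimitiveRoot ω p)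
    (_ : ∀ y ∈ K, y ∈ RF (idl (A := A) (B := B) (lvX p f 0)))
    (hk : ∀ n, kk A B ≤ K ⊔ Bn n) (hkK : kk A B ≤ K)
    (C : ∀ n, (letI := algC (hk n); ↥(K ⊔ Bn n) ≃ₐ[kk A B] ↥(K ⊔ Bn n)) → ℂ)
    (_ : ∀ n, 1 ≤ n → EInpO p er P V f R u n (hk n) (C n)) (c₀ : ℕ → ℂ)
    (mem : ∀ n, c₀ n ∈ K ⊔ Bn n) (_ : ∀ n, 1 ≤ n → c₀ n = C n (letI := algC (hk n); 1))
    (χ om : (letI := algC hkK; (↥K ≃ₐ[kk A B] ↥K) →* (IsLocalRing.ResidueField V)ˣ))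
    (_ : IsOm (IsLocalRing.ResidueField V) p hkK om) (n₀ : ℕ),
    ∃ n, n₀ ≤ n ∧ ∃ j, j < p - 1 ∧ Even j ∧
      I3At (IsLocalRing.ResidueField V) p (kk A B) K Bn hkK (brO hkK χ om j) 1 n (hk n) (c₀ n)
        (mem n)

/-- THE RESULT of block I: for every `χ` there is an even branch `χ om^j` with the input (I3) of block K. Module of helper79.

USES I31, Sn_LEM1, Sn_NRX. -/
def O_I3 : Prop :=
  ∀ (p er : ℕ) [Fact p.Prime] (A B : ℤ) (P : Ideal (OO A B)) (V : ValuationSubring ℂ) (f : ℕ),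
    SetO p er A B P V f → TorX A B →
    ∀ (ι : Type) [Fintype ι] (R : Reps A B (p * f) ι) (u el lam : ℂ),
    GoodL V (R.L R.i0) u el lam →
    ∀ (K₀ K : IntermediateField ℚ ℂ) (Bn : ℕ → IntermediateField ℚ ℂ)
    [FiniteDimensional ℚ (kk A B)] [FiniteDimensional ℚ K] [∀ n, FiniteDimensional ℚ ↥(K ⊔ Bn n)]
    (_ : SetX p (kk A B) K₀ K Bn)
    (_ : ∀ y ∈ K₀, y ∈ RF (idl (A := A) (B := B) (lvX p f 0)))
    (hk : ∀ n, kk A B ≤ K ⊔ Bn n) (hk₀ : ∀ n, kk A B ≤ K₀ ⊔ Bn n) (hkK : kk A B ≤ K₀)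
    (S : Finset ℕ) (c c₀ : ℕ → ℂ) (n₁ : ℕ)
    (hW : Pool.Agent.MUXZ.InpW p (kk A B) K₀ K Bn hk hk₀ S c c₀ n₁)
    (C : ∀ n, (letI := algC (hk₀ n); ↥(K₀ ⊔ Bn n) ≃ₐ[kk A B] ↥(K₀ ⊔ Bn n)) → ℂ)
    (_ : ∀ n, 1 ≤ n → EInpO p er P V f R u n (hk₀ n) (C n))
    (_ : ∀ n, 1 ≤ n → c₀ n = C n (letI := algC (hk₀ n); 1))
    (χ om : (letI := algC hkK; (↥K₀ ≃ₐ[kk A B] ↥K₀) →* (IsLocalRing.ResidueField V)ˣ))
    (_ : IsOm (IsLocalRing.ResidueField V) p hkK om),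
    ∃ j, j < p - 1 ∧ Even j ∧ ∀ N n₀ : ℕ, ∃ n, n₀ ≤ n ∧
      I3At (IsLocalRing.ResidueField V) p (kk A B) K₀ Bn hkK (brO hkK χ om j) N n (hk₀ n) (c₀ n)
        (hW.mem₀ n)

end

end Pool.Agent.OBI
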