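import Pool.Agent.OB.Z_EINP
import Pool.Agent.OB.StI
import Pool.Agent.MUX.StYR

/-!
# OB, block Z (helper59): the inputs of block K at one prime `P`, after helper6's `NS/ZSq.lean`

`InpGO p A B V`: for all fields `K₀ ≤ K` of level `p f` there are the numbers `c`, `c₀` with (INW), and for every character `χ` of `Gal(K₀/k)` with values in the residue field of `V` there is an even
branch `χ om^j` with the input (I3). `o_INPO`: it follows from the results of the blocks GR, E, I.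
-/

set_option autoImplicit false

open NumberField IsDedekindDomain

namespace Pool.Agent.OBZ

open _root_.MU3 Pool.Agent.MU3 Pool.Agent.MU3A Pool.Agent.MU3B Pool.Agent.RI Pool.Agent.RID
  Pool.Agent.MUX Pool.Agent.MUXK Pool.Agent.MUXJ Pool.Agent.MUXW Pool.Agent.MUXZ
  Pool.Agent.NS Pool.Agent.OB
open Pool.Agent.MU3V (Sub GD)
open Pool.Agent.NSZ (cX_sq idl_ne_bot)
open Pool.Agent.NSI (I3At)
open Pool.Agent.OBI (O_I3 Oi_SUB IsOm brO)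

noncomputable section

/-- the inputs of block K -/
def InpGO (p : ℕ) (A B : ℤ) (V : ValuationSubring ℂ) : Prop :=
  ∀ (f : ℕ), f ≠ 0 → ¬ p ∣ f → 12 ∣ f → 2 * absD A B ∣ ((p * f : ℕ) : ℤ) →
  ∀ (K₀ K : IntermediateField ℚ ℂ) (Bn : ℕ → IntermediateField ℚ ℂ)
    [FiniteDimensional ℚ (kk A B)] [FiniteDimensional ℚ K] [∀ n, FiniteDimensional ℚ ↥(K ⊔ Bn n)],
    SetX p (kk A B) K₀ K Bn → (∀ y ∈ K, y ∈ RF (idl (A := A) (B := B) (lvX p f 0))) →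
    (∀ y ∈ RF (⊤ : Ideal (OO A B)), y ∈ K) →
    ∀ (hk : ∀ n, kk A B ≤ K ⊔ Bn n) (hk₀ : ∀ n, kk A B ≤ K₀ ⊔ Bn n) (hkK : kk A B ≤ K₀),
    ∃ (S : Finset ℕ) (c c₀ : ℕ → ℂ) (n₁ : ℕ)
      (hW : InpW p (kk A B) K₀ K Bn hk hk₀ S c c₀ n₁),
      ∀ (χ om : (letI := algC hkK;
          (↥K₀ ≃ₐ[kk A B] ↥K₀) →* (IsLocalRing.ResidueField V)ˣ)),
        IsOm (IsLocalRing.ResidueField V) p hkK om →
        ∃ j, j < p - 1 ∧ Even j ∧ ∀ N n₀ : ℕ, ∃ n, n₀ ≤ n ∧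
          I3At (IsLocalRing.ResidueField V) p (kk A B) K₀ Bn hkK (brO hkK χ om j) N n (hk₀ n)
            (c₀ n) (hW.mem₀ n)

/-- (INPO) -/
theorem o_INPO (hRF : O_RFIN) (hEF : O_EFIN) (hI : O_I3) (hSUB : Oi_SUB) (hLV : Zl_LVX)
    (hIW : Zl_INW) (hTH : Sz_THN) (hME : Sy_MEM) (hCX : Sy_CXS) (hRX : MUXY.Sy_REX) :
    ∀ (p er : ℕ) (A B : ℤ) (P : Ideal (OO A B)) (V : ValuationSubring ℂ),
      CaseO p er A B P V → TorX A B → InpGO p A B V := by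
  intro p er A B P V hC hT f hf0 hfp hf12 hfD K₀ K Bn _ _ _ hX hK hH hk hk₀ hkK
  have hCQ : CQ A B := hC.cq
  have hS : SetO p er A B P V f := { hC with f0 := hf0, fp := hfp, f12 := hf12, fD := hfD }
  have hL : SetQ p A B f := setQ_O hS
  have : Fact (Nat.Prime p) := ⟨hC.pp⟩
  obtain ⟨ι, hι, ⟨R⟩⟩ := hRX A B hCQ hC.ex3 hC.ex4 (p * f) (Nat.mul_ne_zero hC.pp.ne_zero hf0)
  have hodd := (hLV p A B f hL 0).2.2.2.2.2.1
  obtain ⟨H, hHalf, hθ⟩ := hTH A B hCQ hT (p * f) ι R (aX p f) hodd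
  have hθ' : ∀ n : ℕ, ∃ θ : (RF (idl (A := A) (B := B) (lvX p f n)) :
      IntermediateField (kk A B) ℂ),
      (θ : ℂ) = ThetaH (R.L R.i0) (H R.i0) (pt R (lvX p f n) R.i0 1) ∧
      (θ : ℂ) = ThetaH (R.L R.i0) (H R.i0) (R.om R.i0 / emb ((lvX p f n : ℕ) : OO A B)) ∧
      θ ≠ 0 := fun n =>
    hθ (lvX p f n) (hLV p A B f hL n).1 (hLV p A B f hL n).2.2.2.2.1
      (hLV p A B f hL n).2.2.2.2.2.2.1
  choose θ hθ1 hθ2 hθ3 using hθ'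
  have hth : ThN p f R H θ := ⟨hHalf, hθ1, hθ2, hθ3⟩
  obtain ⟨S, hW⟩ := hIW p A B f hL hT ι R H θ hth K₀ K Bn hX hK hH hk hk₀
  obtain ⟨u, e, lam, hG, -, -, -⟩ := (hRF p er A B P V hC hT).1 _ _ _ (R.nl R.i0)
  have hNL : ∃ (b : Ideal (OO A B)) (L : PeriodPair) (om : ℂ), IsNL b L om :=
    ⟨_, _, _, R.nl R.i0⟩
  have hK₀ : ∀ y ∈ K₀, y ∈ RF (idl (A := A) (B := B) (lvX p f 0)) := fun y hy => hK y (hX.le hy)
  have hInR : ∀ n, 1 ≤ n → InRF er P p f n (K₀ ⊔ Bn n) := fun n hn =>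
    hSUB p er A B P V f hS hT hNL K₀ hK₀ n (Bn n) hn (hX.b0.lay n)
  refine ⟨S, fun n => cW (hk n) (θ n), fun n => cW (hk₀ n) (θ n), 0, hW, fun χ om hom => ?_⟩
  refine hI p er A B P V f hS hT ι R u e lam hG K₀ K Bn hX hK₀ hk hk₀ hkK S _ _ 0 hW
    (fun n τ => cWt (hk₀ n) (θ n) τ) (fun n hn => ?_) (fun n hn => ?_) χ om hom
  · exact eInpO hME hCX hEF hS hT hLV R hG hth n hn (K₀ ⊔ Bn n) (hk₀ n) (hInR n hn)
  · have hb : (idl (A := A) (B := B) (lvX p f n)) ≠ ⊥ := idl_ne_bot (hLV p A B f hL n).1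
    exact (hME A B _ (hT.fin _ hb) (hT.gal _ hb) (hT.comm _ hb) _ (hk₀ n) (hInR n hn).1 (θ n)
      (hth.ne n)).1

end

end Pool.Agent.OBZ
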