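import Pool.Agent.OB.StK
import Pool.Agent.VB.HDefs

/-!
# OB, the corollary for `p = 5` (helper84): quartic fields of mixed signature which contain `√5`

Every `def Sq_X : Prop` is the statement of a module; it is proved as `theorem tq_X (h : Sq_Y) .. : Sq_X` in
`Pool/Agent/OB/Q_X.lean`, namespace `Pool.Agent.OB`, where the `Sq_Y` are the statements named after USES (or fewer).
Files import originals (MU3, MUX, RI, ..), never MVF.

PLAN. `E₀` quartic, `w ∈ E₀`, `w² = 5`, one real and one non-real embedding: `E₀ = ℚ(w, β)`, `β² = a + b w`, `β'² = a - b w`, the product `(a + b w)(a - b w)` is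
negative. `E = E₀(μ_5)`. `k = ℚ(β β')` or `ℚ(w β β')` (two different imaginary quadratic fields, one of them is not `ℚ(i)`, `ℚ(√-3)`), `K₀ = ℚ(β, β', μ_5)`, `σ` an automorphism of `ℂ` with
`σ β = β`, `σ β' = - β'` (QFT). Let `v = (dg g)^[l] b`, `b ∈ J(E B_n)`. If `v` is not a `5`-th power times a principal ideal then there are a character `χ` of `Gal(K₀ B_n / k B_n) = Gal(K₀/k)` and an
eigenfunctional `f` on `J(K₀ B_n)` with `f (ext v) ≠ 0` (EIGX). `χ` is trivial on the automorphisms which are trivial on `E`, and `χ = -1` on the automorphisms which are `ρ` on `E`, `ρ` the automorphism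
of `E/ℚ(μ_5)`, since `b * ρ b` comes from `ℚ(μ_5) B_n`, whose class number is prime to `5` (OCC; REG, CY5, SBF). So `χ (σ⁻¹ s σ) = χ(s) ω(s)²`, and by O_NIL (one of `χ`, `χ ω²` is good) and CNJ both are good, so `f (ext v) = 0` (QRT).
-/

set_option autoImplicit false

open NumberField IsDedekindDomain Finset
open scoped nonZeroDivisors Pointwise

namespace Pool.Agent.OB

open _root_.Pool.Agent.RI _root_.Pool.Agent.RID _root_.Pool.Agent.MU3 _root_.Pool.Agent.MUXK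
  _root_.Pool.Agent.MUXZ _root_.Pool.Agent.NSI

/-- (NIL) THE ONE BRANCH THEOREM in the form of block K. Assembly of helper19 (`o_MAINO`, `Jo_INPO`, ..).

`p ≥ 5`, `k` imaginary quadratic, not `ℚ(i)`, `ℚ(√-3)`, `K₀/k` abelian of degree prime to `p`, `μ_p ⊆ K₀`. For every character `χ` of `Gal(K₀/k)` there is an even `j < p - 1`
such that `γ - 1` is nilpotent, with an exponent which does not depend on the layer, on the `χ'`-parts of the class groups of `K₀ B_n` modulo `p`, `χ' = χ ω^j`. -/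
def O_NIL : Prop := ∀ (p : ℕ) [Fact p.Prime], 5 ≤ p →
    ∀ (k K₀ : IntermediateField ℚ ℂ) (B : ℕ → IntermediateField ℚ ℂ) [FiniteDimensional ℚ k]
    [FiniteDimensional ℚ K₀] [∀ n, FiniteDimensional ℚ ↥(K₀ ⊔ B n)] (hB : BasX p k K₀ B)
    (hk₀ : ∀ n, k ≤ K₀ ⊔ B n) (hkK : k ≤ K₀), Module.finrank ℚ k = 2 →
    (∃ z ∈ k, (starRingEnd ℂ) z ≠ z) → (∀ z ∈ k, z ^ 2 ≠ -1) → (∀ z ∈ k, z ^ 2 ≠ -3) →
    ¬ p ∣ Module.finrank k (IntermediateField.extendScalars hB.hk) →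
    (∃ ω ∈ K₀, IsPrimitiveRoot ω p) →
    ∀ χ : (letI := algC hkK; (↥K₀ ≃ₐ[k] ↥K₀) →* (AlgebraicClosure (ZMod p))ˣ),
    ∃ (j : ℕ) (χ' : (letI := algC hkK; (↥K₀ ≃ₐ[k] ↥K₀) →* (AlgebraicClosure (ZMod p))ˣ)),
      j < p - 1 ∧ Even j ∧
      (letI := algC hkK
        ∀ (s : ↥K₀ ≃ₐ[k] ↥K₀) (c : ℕ), (∀ z : ↥K₀, z ^ p = 1 → s z = z ^ c) →
        ((χ' s : (AlgebraicClosure (ZMod p))ˣ) : AlgebraicClosure (ZMod p)) =
          χ s * (c : AlgebraicClosure (ZMod p)) ^ j) ∧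
      ∃ l : ℕ, NilC (AlgebraicClosure (ZMod p)) k K₀ B hk₀ hkK χ' l

/-! ## The abelian part -/

/-- (CHS) Chevalley's inequality for ambiguous classes, sharp form. Module of helper84. `P_CHEV` of `MU3/StP.lean` with the exponent `a` on the left side. -/
def Sq_CHS : Prop := ∀ (p a : ℕ) [Fact p.Prime] (K L : Type) [Field K] [NumberField K] [Field L]
    [NumberField L] [Algebra K L] (g : L ≃ₐ[K] L), CycExt K K L g (p ^ a) →
    Nat.card (InfinitePlace L) = p ^ a * Nat.card (InfinitePlace K) →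
    ∀ S : Finset (HeightOneSpectrum (𝓞 K)),
    (∀ w : HeightOneSpectrum (𝓞 L), w.asIdeal.ramificationIdx (𝓞 K) ≠ 1 →
      ∃ v ∈ S, w.asIdeal.under (𝓞 K) = v.asIdeal) →
    padicValNat p ((_root_.MU3.PI L).relIndex ((_root_.MU3.PI L).comap (dg g))) + a ≤
      padicValNat p (NumberField.classNumber K) + a * S.card

/-- (REG) a regular prime: the class number of `ℚ(μ_p) B_n` is prime to `p`.

USES CHS, S_GENX. PROOF. `L = C ⊔ B n`, `C = ℚ(μ_p)`. `C/ℚ` is cyclotomic of degree `p - 1` (Mathlib `IsCyclotomicExtension {p} ℚ C`), totally complex (`p ≠ 2`). `[L : ℚ] = (p-1) p^n` (coprime degrees, `B n/ℚ` is Galois of degree `p^n`: `LAY_thm`). GENX (with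
`k = K = C`) gives `g`, `CycExt C C L g (p ^ n)` (as in `MUX/K_FINX.lean`). The infinite places: all are complex, `Nat.card (InfinitePlace L) = [L : ℚ]/2` (or Mathlib `IsUnramifiedAtInfinitePlaces.card_infinitePlace`; `RI.INF_thm`). `S` = the set of the primes of `C` which contain `p`: `N_RAMP` (`MU3.n_RAMP`) as in `K_FINX.lean`;
it has at most one element: `IsCyclotomicExtension.Rat.eq_span_zeta_sub_one_of_liesOver'`. CHS: `v_p(relIndex) + n ≤ 0 + n * 1`, so `v_p(relIndex) = 0` (if `S` is empty or `n = 0`, too). `(dg g)^[p^n] b = y^p` (`MUXK.K_MAINKX.iter_mem`), so `MU3.n_NILR MU3.n_NIL` with `l = p^n` gives `rkp p L ≤ p^n * 0 = 0`: `p` does not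
divide the number of classes killed by `p` (`rkp`, `padicValNat`, the number is not `0`: `CL.finite_quot`); so by Cauchy's theorem (`exists_prime_orderOf_dvd_card'`; the classes killed by `p` form a subgroup) `p` does not divide `Nat.card (J L ⧸ PI L) = classNo L` (`CL.classNumber_eq`, `MUXK.Finx.classNo_eq`). -/
def Sq_REG : Prop := ∀ (p : ℕ) [Fact p.Prime], p ≠ 2 →
    ∀ (C : IntermediateField ℚ ℂ) [FiniteDimensional ℚ C] (B : ℕ → IntermediateField ℚ ℂ)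
    [∀ n, FiniteDimensional ℚ ↥(C ⊔ B n)],
    C = IntermediateField.adjoin ℚ {z : ℂ | z ^ p = 1} → (∀ n, IsLayer p n (B n)) → Monotone B →
    ¬ p ∣ classNo C → ∀ n, ¬ p ∣ classNo (C ⊔ B n)

/-- (CY5) `ℚ(μ_5)` has class number one.

PROOF. `IsCyclotomicExtension {5} ℚ C` (`IntermediateField`, `{z | z^5 = 1}` contains a primitive root), `IsCyclotomicExtension.Rat.five_pid`, `classNumber_eq_one_iff`, `classNo_eq`. Finite dimension: `IsCyclotomicExtension.numberField`. -/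
def Sq_CY5 : Prop := FiniteDimensional ℚ (IntermediateField.adjoin ℚ {z : ℂ | z ^ 5 = 1}) ∧
    classNo (IntermediateField.adjoin ℚ {z : ℂ | z ^ 5 = 1}) = 1

/-- (SBF) if the class number of `M` is prime to `p` and `M/L` is Galois of degree prime to `p`, then every ideal of `L` is a `p`-th power times a principal ideal.

PROOF. `c ∈ J L`, `h = h(M)`: `(ext L M c)^h = prin x` (`CL.classNumber_eq`, `J M ⧸ PI M` has `h` elements), so by `CL.nm_ext`, `CL.nm_prin` and `ext_injective` `c^(h d) = prin (norm x)`, `d = [M : L]`. `p` is prime to `h d`: `1 = u h d + v p`. Module of helper84. -/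
def Sq_SBF : Prop := ∀ (p : ℕ) [Fact p.Prime] (L M : Type) [Field L] [NumberField L] [Field M]
    [NumberField M] [Algebra L M] [IsGalois L M], ¬ p ∣ Module.finrank L M →
    ¬ p ∣ NumberField.classNumber M → ∀ c : J L, ∃ (y : J L) (x : Lˣ), c = y ^ p * prin x

/-- (RAT) `ℚ(μ_5)`.

USES REG, CY5, SBF. Module of helper84. -/
def Sq_RAT : Prop := ∀ (B : ℕ → IntermediateField ℚ ℂ)
    [∀ n, FiniteDimensional ℚ ↥(IntermediateField.adjoin ℚ {z : ℂ | z ^ 5 = 1} ⊔ B n)],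
    (∀ n, IsLayer 5 n (B n)) → Monotone B →
    ∀ (n : ℕ) (c : J ↥(IntermediateField.adjoin ℚ {z : ℂ | z ^ 5 = 1} ⊔ B n)),
    ∃ (y : J ↥(IntermediateField.adjoin ℚ {z : ℂ | z ^ 5 = 1} ⊔ B n))
      (x : (↥(IntermediateField.adjoin ℚ {z : ℂ | z ^ 5 = 1} ⊔ B n))ˣ), c = y ^ 5 * prin x

/-! ## The fields -/

/-- The data: `E = E₀(μ_5)`, `E₀` quartic of mixed signature, `w ∈ E₀`, `w² = 5`, `k` imaginary quadratic, `K₀ ⊇ E, k`, `ρ` the automorphism of `E/ℚ(μ_5)`, `σ`. -/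
structure QD (E k K₀ : IntermediateField ℚ ℂ) (w : ℂ) (ρ : E ≃ₐ[ℚ] E) (σ : ℂ ≃+* ℂ) : Prop where
  kK : k ≤ K₀
  EK : E ≤ K₀
  fin : FiniteDimensional ℚ K₀
  k2 : Module.finrank ℚ k = 2
  im : ∃ z ∈ k, (starRingEnd ℂ) z ≠ z
  n4 : ∀ z ∈ k, z ^ 2 ≠ -1
  n3 : ∀ z ∈ k, z ^ 2 ≠ -3
  galk : IsGalois k (IntermediateField.extendScalars kK)
  abk : ∀ s t : (IntermediateField.extendScalars kK) ≃ₐ[k] (IntermediateField.extendScalars kK),
    s * t = t * s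
  galE : IsGalois E (IntermediateField.extendScalars EK)
  abE : ∀ s t : (IntermediateField.extendScalars EK) ≃ₐ[E] (IntermediateField.extendScalars EK),
    s * t = t * s
  deg : ¬ 5 ∣ Module.finrank ℚ K₀
  w5 : w ^ 2 = 5
  mu : IntermediateField.adjoin ℚ {z : ℂ | z ^ 5 = 1} ≤ E
  /-- `ρ` generates the group of `E/ℚ(μ_5)`, of order `2` -/
  rhr : ∀ x : E, ρ (ρ x) = x
  rhn : ∃ x : E, ρ x ≠ x
  rhf : ∀ x : E, ρ x = x ↔ (x : ℂ) ∈ IntermediateField.adjoin ℚ {z : ℂ | z ^ 5 = 1}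
  sE : ∀ x ∈ E, σ x = x
  sK : ∀ x, x ∈ K₀ ↔ σ x ∈ K₀
  sk : ∀ x, x ∈ k ↔ σ x ∈ k
  /-- the commutator of `s` and `σ` -/
  cm1 : ∀ s : ℂ ≃+* ℂ, (∀ x ∈ k, s x = x) → s w = w → ∀ x ∈ E, σ.symm (s (σ (s.symm x))) = x
  cm2 : ∀ s : ℂ ≃+* ℂ, (∀ x ∈ k, s x = x) → s w = -w → ∀ x : E,
    σ.symm (s (σ (s.symm x))) = ρ x

/-- (QFT) the field theory.

PROOF. `[E₀ : ℚ(w)] = 2` (`w` is not rational), `E₀ = ℚ(w)(β)`, `β² = a + b w =: α`, `a, b ∈ ℚ` (complete the square); let `α' = a - b w`, `β' ∈ ℂ` with `β'² = α'`. `α α' = a² - 5 b² < 0`: there are embeddings `φ₁` (real), `φ₂` (not real) of `E₀`. `φ(w) = ± w`; if `φ₁ w = φ₂ w` then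
`φ₁(β)² = φ₂(β)²` is the same real number, it is `≥ 0` by `φ₁`, so `φ₂(β)` is real and `φ₂` is real (`E₀` is generated by `w, β`; `w = ± √5` is real). So `φ₁(w) = - φ₂(w)`, one of `α`, `α'` is `> 0` (`≠ 0`: `β ∉ ℚ(w)`) and the other is `< 0`. `m = β β'`, `m² = α α' < 0`, `m' = w m`, `m'² = 5 α α' < 0`. `ℚ(m)` and `ℚ(m')` are imaginary
quadratic; if `ℚ(m)` contains a square root of `-1` or `-3` then `ℚ(m')` does not: if `√-1 ∈ ℚ(m)` then `m² = - r²`, `r` rational, `m'² = -5 r²`, and `m'² = - t²` or `- 3 t²` with `t` rational is impossible (`5` and `5/3` are no squares of rationals); if `√-3 ∈ ℚ(m)`: `m² = - 3 r²`, `m'² = -15 r²`,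
`15`, `5` no squares. So choose `k = ℚ(m)` (`κ = 1`) or `ℚ(m')` (`κ = -1`). `E = E₀(μ_5)`, `K₀ = ℚ(β, β', μ_5)`: `w ∈ ℚ(μ_5)` (`w = ± (ζ + ζ⁻¹ - ζ² - ζ⁻²)`), so `K₀` contains `E`, `k`; it is the splitting field over `ℚ` of `((X² - a)² - 5 b²)(X^5 - 1)`, so Galois over `ℚ`, `[K₀ : ℚ]` divides `16` (tower of square roots over `ℚ(μ_5)`, of degree `4`).
So `K₀/k`, `K₀/E` are Galois. Every automorphism `s` of `ℂ` has: `s w = w`, `s β = e β`, `s β' = e' β'`, or `s w = - w`, `s β = e β'`, `s β' = e' β`, with `e, e' = ± 1`; if `s` fixes `k` then `e' = e` in the first case, `e' = κ e` in the second. So the automorphisms of `K₀/k` commute on `β`, `β'`, and on `μ_5` (powers): `abk`. `abE`: an automorphism over `E` is determined by `s β' = ± β'`.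
`β ∉ ℚ(μ_5)`: `ℚ(μ_5)/ℚ` is abelian, so `ℚ(β) = E₀` would be Galois over `ℚ`, but it has a real and a non-real embedding. So `[E : ℚ(μ_5)] = 2`, `ρ β = - β`, `ρ = 1` on `ℚ(μ_5)`. `β' ∉ E`: `β' ∈ E = ℚ(μ_5)(β)` would give `β' = u + v β`, `u, v ∈ ℚ(μ_5)`, `β'² ∈ ℚ(w)`, so `u v = 0`; `β' = u ∈ ℚ(μ_5)` is excluded as for `β` (`ℚ(β')` is conjugate to `ℚ(β)`); `β' = v β`: `m = β β' = v α ∈ ℚ(μ_5)`, so
`ℚ(m)`, an imaginary quadratic field, is contained in `ℚ(μ_5)`, whose only quadratic subfield is the real field `ℚ(w)`: impossible. `σ`: the automorphism of `K₀` over `E` with `σ β' = - β'`, extended to `ℂ` (`MUXU.u_AUE`). `sk`: `σ m = - m`. `cm1`, `cm2` on `β` and `μ_5` (they generate `E`; all automorphisms commute on `μ_5`, `ρ = 1` there). `cm1`: `s⁻¹ β = e β`, `σ`: `e β`, `s`: `e² β`.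
`cm2`: `s β' = e' β`, so `s⁻¹ β = e' β'`, `σ`: `- e' β'`, `s`: `- e' e' β = - β`, `σ⁻¹ (-β) = -β = ρ β`. -/
def Sq_QFT : Prop := ∀ (E₀ : IntermediateField ℚ ℂ), Module.finrank ℚ E₀ = 4 → ∀ w ∈ E₀,
    w ^ 2 = 5 → (∃ φ : E₀ →+* ℂ, ∀ x, (starRingEnd ℂ) (φ x) = φ x) →
    (∃ φ : E₀ →+* ℂ, ∃ x, (starRingEnd ℂ) (φ x) ≠ φ x) →
    ∃ (E k K₀ : IntermediateField ℚ ℂ) (ρ : E ≃ₐ[ℚ] E) (σ : ℂ ≃+* ℂ),
      E = E₀ ⊔ IntermediateField.adjoin ℚ {z : ℂ | z ^ 5 = 1} ∧ QD E k K₀ w ρ σ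

/-- (BAX) `BasX` from coprime degrees.

PROOF. `deg`: `[K : ℚ]` and `[B n : ℚ] = p^n` are coprime. (`MU3/N_GAL.lean`, `MUX/J_*`: search for `deg`.) -/
def Sq_BAX : Prop := ∀ (p : ℕ) [Fact p.Prime] (k K : IntermediateField ℚ ℂ)
    (B : ℕ → IntermediateField ℚ ℂ) [FiniteDimensional ℚ K] (hk : k ≤ K),
    IsGalois k (IntermediateField.extendScalars hk) →
    (∀ σ τ : (IntermediateField.extendScalars hk) ≃ₐ[k] (IntermediateField.extendScalars hk),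
      σ * τ = τ * σ) → ¬ p ∣ Module.finrank ℚ K → (∀ n, IsLayer p n (B n)) → Monotone B →
    BasX p k K B

/-! ## Descent -/

/-- (DSC) descent from `K₀` to `E ≤ K₀` (`E` need not contain `k`). Module of helper84.

PROOF. Let `g` be an automorphism of `E B_n` which fixes exactly `E`; LFX (for `E ≤ E ≤ K₀`) gives `g'` on `K₀ B_n`, trivial on `K₀`, `g' = g` on `E B_n`; it has order `≥ p^n`, so it fixes exactly `K₀`. Let `b ∈ J(E B_n)`, `v = (dg g)^[l] b`, suppose `v ∉ P` (`P` = `p`-th powers times principal ideals), then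
`ext v ∉ P` (norm, `[K₀ : E]` is prime to `p`). EIGX on `J(K₀ B_n)` with `D = NC (B n)`: `χ`, `f`, `f (ext v) ≠ 0`. `ext v = (dg g')^[l] (ext b)`. If `χ ∈ X`: `NilC`. Otherwise the last hypothesis (for the ideal `v`). So `v ∈ P`, FINX. -/
def Sq_DSC : Prop := ∀ (F : Type) [Field F] [IsAlgClosed F] (p : ℕ) [Fact p.Prime] [CharP F p]
    (k K₀ E : IntermediateField ℚ ℂ) (B : ℕ → IntermediateField ℚ ℂ) [FiniteDimensional ℚ k]
    [FiniteDimensional ℚ K₀] [∀ n, FiniteDimensional ℚ ↥(K₀ ⊔ B n)]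
    [∀ n, FiniteDimensional ℚ ↥(E ⊔ B n)] (hB : BasX p k K₀ B) (hE : BasX p E K₀ B) (_ : BasX p E E B),
    ¬ p ∣ Module.finrank k (IntermediateField.extendScalars hB.hk) →
    ¬ p ∣ Module.finrank E (IntermediateField.extendScalars hE.hk) →
    ∀ (hk₀ : ∀ n, k ≤ K₀ ⊔ B n) (hkK : k ≤ K₀) (hEB : ∀ n, E ⊔ B n ≤ K₀ ⊔ B n) (l : ℕ)
    (X : Set (letI := algC hkK; (↥K₀ ≃ₐ[k] ↥K₀) →* Fˣ)),
    (∀ χ ∈ X, NilC F k K₀ B hk₀ hkK χ l) →
    (∀ n, ∀ χ ∉ X, ∀ f : J ↥(K₀ ⊔ B n) → F, EigF F k K₀ B n (hk₀ n) hkK χ f →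
      ∀ b : J ↥(E ⊔ B n), letI := algC (hEB n)
        f (_root_.Pool.Agent.RI.ext ↥(E ⊔ B n) ↥(K₀ ⊔ B n) b) = 0) →
    ∃ C : ℕ, ∀ n, padicValNat p (classNo (E ⊔ B n)) ≤ C * (n + 1) ^ 2

/-- (OCC) the characters which occur. Module of helper84.

USES RAT. PROOF. `a` lifts to `δ ∈ NC (B n)` (`I3X19.restr`). `a` trivial on `E`: `δ` is trivial on `E B_n`, `δ (ext b) = ext b`. `a = ρ` on `E`: `δ` restricts to an automorphism `ρ'` of `L = E B_n` which is trivial on `C B_n`, `C = ℚ(μ_5)`, `ρ' ≠ 1`, `L/(C B_n)` is Galois with group `{1, ρ'}`, `b * ρ' b = nm b = ext c` (`CL.nm_mem`), `c ∈ J(C B_n)`,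
`c = y^5 prin x` (RAT), so `f (ext b) + f (ext (ρ' b)) = 0`, and `ext (ρ' b) = δ (ext b)`. -/
def Sq_OCC : Prop := ∀ (E k K₀ : IntermediateField ℚ ℂ) (w : ℂ) (ρ : E ≃ₐ[ℚ] E) (σ : ℂ ≃+* ℂ),
    QD E k K₀ w ρ σ → ∀ (B : ℕ → IntermediateField ℚ ℂ) [∀ n, FiniteDimensional ℚ ↥(K₀ ⊔ B n)]
    [∀ n, FiniteDimensional ℚ ↥(E ⊔ B n)] (F : Type) [Field F] [CharP F 5],
    (∀ n, IsLayer 5 n (B n)) → Monotone B →
    ∀ (n : ℕ) (hk₀ : k ≤ K₀ ⊔ B n) (hkK : k ≤ K₀) (hEB : E ⊔ B n ≤ K₀ ⊔ B n)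
    (χ : (letI := algC hkK; (↥K₀ ≃ₐ[k] ↥K₀) →* Fˣ)) (f : J ↥(K₀ ⊔ B n) → F),
    EigF F k K₀ B n hk₀ hkK χ f → ∀ b : J ↥(E ⊔ B n),
    (letI := algC hEB; f (_root_.Pool.Agent.RI.ext ↥(E ⊔ B n) ↥(K₀ ⊔ B n) b) ≠ 0) →
    letI := algC hkK
    (∀ a : ↥K₀ ≃ₐ[k] ↥K₀, (∀ x : ↥K₀, (x : ℂ) ∈ E → a x = x) → χ a = 1) ∧
    (∀ a : ↥K₀ ≃ₐ[k] ↥K₀, (∀ (x : ↥K₀) (y : E), (x : ℂ) = y → ((a x : ↥K₀) : ℂ) = ρ y) →
      ((χ a : Fˣ) : F) = -1)

/-- (QRT) the class numbers of `E B_n`, `E = E₀(μ_5)`. Module of helper84.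

USES O_NIL, QFT, BAX, DSC, OCC, CNJ. -/
def Sq_QRT : Prop := ∀ (E k K₀ : IntermediateField ℚ ℂ) (w : ℂ) (ρ : E ≃ₐ[ℚ] E) (σ : ℂ ≃+* ℂ),
    QD E k K₀ w ρ σ →
    ∀ B : ℕ → IntermediateField ℚ ℂ, (∀ n, IsLayer 5 n (B n)) → Monotone B →
    ∃ C : ℕ, ∀ n, padicValNat 5 (classNo (E ⊔ B n)) ≤ C * (n + 1) ^ 2

/-- (QFN) THE COROLLARY: quartic fields of mixed signature which contain `√5`. Module of helper84.

USES QRT, QFT, `VB.v_FNP`, `VB.v_RED` (as `VB/HThird.lean`). -/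
def Sq_QFN : Prop := ∀ (E₀ : IntermediateField ℚ ℂ), Module.finrank ℚ E₀ = 4 →
    (∃ w ∈ E₀, w ^ 2 = 5) →
    (∃ φ : E₀ →+* ℂ, ∀ x, (starRingEnd ℂ) (φ x) = φ x) →
    (∃ φ : E₀ →+* ℂ, ∃ x, (starRingEnd ℂ) (φ x) ≠ φ x) →
    (∃ C : ℕ, ∀ (n : ℕ) (Q : IntermediateField ℚ ℂ), IsLayer 5 n Q →
      padicValNat 5 (classNo (E₀ ⊔ Q)) ≤ C * (n + 1) ^ 2) ∧
    (_root_.Pool.Agent.MuCyc.unramifiedExt 5 (_root_.Pool.Agent.MuCyc.cycExt 5 E₀)).Finite

end Pool.Agent.OB
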