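import Pool.Agent.OB.J_MAIN
import Pool.Agent.OB.StQ

/-!
# OB, block J: the one-branch theorem for all imaginary quadratic fields except `ℚ(i)`, `ℚ(√-3)` (helper19)

`O_NB` is `O_NIL` (`OB/StQ.lean`) together with the bound for the dimension of the space of the eigenfunctionals.
-/

set_option autoImplicit false

open NumberField IsDedekindDomain

namespace Pool.Agent.OB

open _root_.MU3 Pool.Agent.MU3 Pool.Agent.MU3A Pool.Agent.MU3B Pool.Agent.RI Pool.Agent.RID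
  Pool.Agent.MUX Pool.Agent.MUXK Pool.Agent.MUXE Pool.Agent.MUXJ Pool.Agent.MUXZ Pool.Agent.NSI
open Pool.Agent.OBI (IsOm brO)

noncomputable section

/-- THE ONE BRANCH THEOREM: nilpotency and the linear bound. -/
def O_NB : Prop := ∀ (p : ℕ) [Fact p.Prime], 5 ≤ p →
    ∀ (k K₀ : IntermediateField ℚ ℂ) (B : ℕ → IntermediateField ℚ ℂ) [FiniteDimensional ℚ k]
    [FiniteDimensional ℚ K₀] [∀ n, FiniteDimensional ℚ ↥(K₀ ⊔ B n)] (hB : BasX p k K₀ B)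
    (hk₀ : ∀ n, k ≤ K₀ ⊔ B n) (hkK : k ≤ K₀), Module.finrank ℚ k = 2 →
    (∃ z ∈ k, (starRingEnd ℂ) z ≠ z) → (∀ z ∈ k, z ^ 2 ≠ -1) → (∀ z ∈ k, z ^ 2 ≠ -3) →
    ¬ p ∣ Module.finrank k (IntermediateField.extendScalars hB.hk) →
    (∃ ω ∈ K₀, IsPrimitiveRoot ω p) →
    ∀ χ : (letI := algC hkK; (↥K₀ ≃ₐ[k] ↥K₀) →* (AlgebraicClosure (ZMod p))ˣ),
    ∃ (j : ℕ) (χ' : (letI := algC hkK; (↥K₀ ≃ₐ[k] ↥K₀) →* (AlgebraicClosure (ZMod p))ˣ)),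
      j < p - 1 ∧ Even j ∧
      (letI := algC hkK
        ∀ (s : ↥K₀ ≃ₐ[k] ↥K₀) (c : ℕ), (∀ z : ↥K₀, z ^ p = 1 → s z = z ^ c) →
        ((χ' s : (AlgebraicClosure (ZMod p))ˣ) : AlgebraicClosure (ZMod p)) =
          χ s * (c : AlgebraicClosure (ZMod p)) ^ j) ∧
      (∃ l : ℕ, NilC (AlgebraicClosure (ZMod p)) k K₀ B hk₀ hkK χ' l) ∧
      ∃ C : ℕ, ∀ n : ℕ,
        Module.Finite (AlgebraicClosure (ZMod p))
          (EigS (AlgebraicClosure (ZMod p)) k K₀ B n (hk₀ n) hkK χ') ∧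
        Module.finrank (AlgebraicClosure (ZMod p))
          (EigS (AlgebraicClosure (ZMod p)) k K₀ B n (hk₀ n) hkK χ') ≤ C * (n + 1)

theorem o_nb (hM : O_MAIN) (hOM : OBI.Oi_OME) : O_NB := by
  intro p hpf h5 k K₀ B _ _ _ hB hk₀ hkK h2 hi h4 h3 hcop hom χ
  obtain ⟨d, hd, rfl, -⟩ := JT.j_JQF k h2 hi
  have hd1 : d ≠ 1 := by
    rintro rfl
    exact h4 _ JT.kk_one Complex.I_sq
  have hd3 : d ≠ 3 := by
    rintro rfl
    obtain ⟨z, hz, hz3⟩ := JT.kk_three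
    exact h3 z hz hz3
  have hCQ : MUX.CQ (MUXZ.pA d) (MUXZ.pB d) := MUXZ.cq_p hd
  have ha3 : absD (MUXZ.pA d) (MUXZ.pB d) ≠ 3 := by
    rw [MUXZ.absD_p]
    split_ifs <;> omega
  have ha4 : absD (MUXZ.pA d) (MUXZ.pB d) ≠ 4 := by
    rw [MUXZ.absD_p]
    split_ifs <;> omega
  obtain ⟨om, hIs⟩ := hOM (AlgebraicClosure (ZMod p)) p (kk (MUXZ.pA d) (MUXZ.pB d)) K₀ hkK hom
  obtain ⟨j, hj, hje, hnil, hbd⟩ := hM p h5 (MUXZ.pA d) (MUXZ.pB d) hCQ ha3 ha4 K₀ hkK hB.gal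
    hB.ab hcop hom B hB.lay hB.mono hk₀ χ om hIs
  refine ⟨j, brO hkK χ om j, hj, hje, ?_, hnil, hbd⟩
  let _ := algC hkK
  intro s c hs
  obtain ⟨ω, hω, hωp⟩ := hom
  have h1 : ((om s : (AlgebraicClosure (ZMod p))ˣ) : AlgebraicClosure (ZMod p)) = c := by
    have hz : (⟨ω, hω⟩ : K₀) ^ p = 1 := Subtype.ext hωp.pow_eq_one
    refine hIs s ⟨ω, hω⟩ c hz ?_ (hs _ hz)
    intro h
    have h7 : ω = 1 := congrArg Subtype.val h
    have h8 := hωp.eq_orderOf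
    rw [h7, orderOf_one] at h8
    omega
  show ((((χ * om ^ j) s : (AlgebraicClosure (ZMod p))ˣ)) : AlgebraicClosure (ZMod p)) = _
  rw [MonoidHom.mul_apply, MonoidHom.pow_apply, Units.val_mul, Units.val_pow_eq_pow_val, h1]

theorem o_nil (h : O_NB) : O_NIL := by
  intro p hpf h5 k K₀ B _ _ _ hB hk₀ hkK h2 hi h4 h3 hcop hom χ
  obtain ⟨j, χ', h6, h7, h8, h9, -⟩ := h p h5 k K₀ B hB hk₀ hkK h2 hi h4 h3 hcop hom χ
  exact ⟨j, χ', h6, h7, h8, h9⟩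

end

end Pool.Agent.OB
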