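import Pool.Agent.OB.J_SETO
import Pool.Agent.NS.ZVex

/-!
# OB, block J: the data `P`, `V`, `er` and the divisor `d` of the level (helper19)
-/

set_option autoImplicit false

open NumberField IsDedekindDomain

namespace Pool.Agent.OB

open _root_.MU3 Pool.Agent.MU3 Pool.Agent.MU3A Pool.Agent.MU3B Pool.Agent.RI Pool.Agent.RID
  Pool.Agent.MUX Pool.Agent.MUXK Pool.Agent.MUXE Pool.Agent.MUXJ Pool.Agent.NSZ

noncomputable section

/-- VEXO: the prime ideal `P` above `p` and the valuation ring `V` above `P`. -/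
theorem t_VEXO (p : ℕ) (A B : ℤ) (hC : MUX.CQ A B) (h3 : absD A B ≠ 3) (h4 : absD A B ≠ 4)
    (hp : p.Prime) (h5 : 5 ≤ p) :
    ∃ (er : ℕ) (P : Ideal (OO A B)) (V : ValuationSubring ℂ), CaseO p er A B P V := by
  have h1 : (idl (A := A) (B := B) p) ≠ ⊤ := by
    intro h
    have h2 : (1 : OO A B) ∈ idl (A := A) (B := B) p := by rw [h]; trivial
    rw [mem_idl] at h2
    obtain ⟨h2, -⟩ := h2
    rw [QuadraticAlgebra.re_one] at h2
    have := Int.le_of_dvd one_pos h2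
    omega
  obtain ⟨P, hP, hle⟩ := Ideal.exists_le_maximal _ h1
  obtain ⟨V, hV⟩ := vex hC P hP
  have hmem : ((p : ℕ) : OO A B) ∈ P := hle (Ideal.mem_span_singleton_self _)
  by_cases h2 : ((p : ℕ) : OO A B) ∈ P ^ 2
  · exact ⟨2, P, V, ⟨hC, h3, h4, hp, h5, hP.isPrime, hmem, Or.inr ⟨rfl, h2⟩, hV⟩⟩
  · exact ⟨1, P, V, ⟨hC, h3, h4, hp, h5, hP.isPrime, hmem, Or.inl ⟨rfl, h2⟩, hV⟩⟩

/-- `p` is in the maximal ideal of `V` -/
theorem caseO_hp {p er : ℕ} {A B : ℤ} {P : Ideal (OO A B)} {V : ValuationSubring ℂ}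
    (h : CaseO p er A B P V) : (p : ℂ) ∈ V.nonunits := by
  have h2 := (h.hV ((p : ℕ) : OO A B)).2 h.mem
  have h3 : emb ((p : ℕ) : OO A B) = (p : ℂ) := by
    rw [← RNGaux.eH_apply h.cq, map_natCast]
  rwa [h3] at h2

/-- `p²` does not divide the discriminant, `p` odd -/
theorem sq_not_dvd {A B : ℤ} (hC : MUX.CQ A B) {p : ℕ} (hp : p.Prime) (h2 : p ≠ 2) :
    ¬ (p : ℤ) * p ∣ absD A B := by
  have hpu : ¬ IsUnit (p : ℤ) := by
    rw [Int.isUnit_iff]
    have := hp.two_le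
    omega
  rcases hC.hB with hB | hB
  · obtain ⟨hs, -⟩ := hC.fund0 hB
    intro h
    have h1 : (p : ℤ) * p ∣ 4 * A := by
      have e : absD A B = -(4 * A) := by unfold absD; rw [hB]; ring
      rw [e] at h
      exact (dvd_neg).1 h
    have hco : IsCoprime ((p : ℤ) * p) 4 := by
      have h3 : IsCoprime (p : ℤ) 2 := by
        have h9 : Nat.Coprime p 2 := (Nat.coprime_primes hp Nat.prime_two).2 h2
        exact_mod_cast Nat.isCoprime_iff_coprime.2 h9
      have h4 : IsCoprime (p : ℤ) (2 * 2) := IsCoprime.mul_right h3 h3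
      have h5 : IsCoprime ((p : ℤ) * p) (2 * 2) := IsCoprime.mul_left h4 h4
      exact h5
    exact hpu (hs _ (hco.dvd_of_dvd_mul_left h1))
  · have hs := hC.fund1 hB
    intro h
    have e : absD A B = -(1 + 4 * A) := by unfold absD; rw [hB]; ring
    rw [e, dvd_neg] at h
    exact hpu (hs _ h)

/-- the divisor of the level -/
theorem t_DO {p er : ℕ} {A B : ℤ} {P : Ideal (OO A B)} {V : ValuationSubring ℂ}
    (h : CaseO p er A B P V) : ∃ d : ℕ, d ≠ 0 ∧ ¬ p ∣ d ∧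
      ∀ f : ℕ, f ≠ 0 → ¬ p ∣ f → d ∣ f → SetO p er A B P V f := by
  have hp := h.pp
  have h5 := h.p5
  have hpZ : Prime (p : ℤ) := Nat.prime_iff_prime_int.1 hp
  have hD0 : absD A B ≠ 0 := by
    have := h.cq.neg
    unfold absD
    omega
  have h12 : ¬ p ∣ 12 := by
    intro h1
    have e : (12 : ℕ) = 2 * (2 * 3) := by norm_num
    rw [e] at h1
    rcases hp.dvd_mul.1 h1 with h2 | h2
    · have := Nat.le_of_dvd (by norm_num) h2
      omega
    · rcases hp.dvd_mul.1 h2 with h3 | h3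
      · have := Nat.le_of_dvd (by norm_num) h3
        omega
      · have := Nat.le_of_dvd (by norm_num) h3
        omega
  obtain ⟨D, hD, hpD, hdv⟩ : ∃ D : ℕ, D ≠ 0 ∧ ¬ p ∣ D ∧ absD A B ∣ (p : ℤ) * D := by
    by_cases hpd : (p : ℤ) ∣ absD A B
    · obtain ⟨D, hD⟩ := hpd
      refine ⟨D.natAbs, ?_, ?_, ?_⟩
      · intro h1
        rw [Int.natAbs_eq_zero] at h1
        rw [h1, mul_zero] at hD
        exact hD0 hD
      · intro h1
        rw [← Int.natCast_dvd] at h1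
        apply sq_not_dvd h.cq hp (by omega)
        rw [hD]
        exact mul_dvd_mul_left _ h1
      · rw [hD]
        exact mul_dvd_mul_left _ (Int.dvd_natAbs.2 dvd_rfl)
    · refine ⟨(absD A B).natAbs, ?_, ?_, ?_⟩
      · rwa [Ne, Int.natAbs_eq_zero]
      · rwa [← Int.natCast_dvd]
      · exact (Int.dvd_natAbs.2 dvd_rfl).mul_left _
  refine ⟨12 * D, by positivity, ?_, fun f hf0 hpf hdf => ?_⟩
  · rw [hp.dvd_mul]
    push Not
    exact ⟨h12, hpD⟩
  · refine ⟨h, hf0, hpf, (Dvd.intro _ rfl).trans hdf, ?_⟩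
    have h6 : 2 * absD A B ∣ (p : ℤ) * ((12 * D : ℕ) : ℤ) := by
      have h7 := mul_dvd_mul (show (2 : ℤ) ∣ 12 by norm_num) hdv
      have e : (12 : ℤ) * ((p : ℤ) * D) = (p : ℤ) * ((12 * D : ℕ) : ℤ) := by push_cast; ring
      rwa [e] at h7
    have h8 : ((12 * D : ℕ) : ℤ) ∣ (f : ℤ) := by exact_mod_cast hdf
    push_cast
    push_cast at h6 h8
    exact h6.trans (mul_dvd_mul_left _ h8)

/-- UNHO: the Hilbert class field is unramified at `V` -/
theorem t_UNHO (hR : O_RFIN) {p er : ℕ} {A B : ℤ} {P : Ideal (OO A B)} {V : ValuationSubring ℂ}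
    (h : CaseO p er A B P V) (T : TorX A B) : UnrH A B V := by
  intro σ hσ hy
  exact (hR p er A B P V h T).2 ⊤ top_ne_bot
    (fun h1 => h.prime.ne_top (top_le_iff.1 h1)) σ hσ hy

end

end Pool.Agent.OB
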