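import Pool.Agent.OB.StR
import Pool.Agent.NS.RN_ALL

/-!
# OB, block GR (helper66): (AFF)
-/

set_option autoImplicit false

open WeierstrassCurve Polynomial

namespace Pool.Agent.OBR

open _root_.MU3 Pool.Agent.MU3A Pool.Agent.MU3B Pool.Agent.RI Pool.Agent.MUX Pool.Agent.MUXU
open Pool.Agent.MUXV (GR InK tX)
open Pool.Agent.NS Pool.Agent.NSR Pool.Agent.OB

noncomputable section

namespace AFFx

lemma wp_congr (L : PeriodPair) {a b : ℂ} (h : a - b ∈ L.lattice) :
    L.weierstrassP a = L.weierstrassP b := by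
  have h1 := L.weierstrassP_add_coe b ⟨a - b, h⟩
  rw [← h1]
  congr 1
  ring

/-- the difference of the values at two different points of order two -/
lemma val_diff {V : ValuationSubring ℂ} {L : PeriodPair} {w₁ w₂ w₃ u : ℂ}
    (h3 : So_TW3) (hw : Two3 L w₁ w₂ w₃)
    (hG : GoodL V L u (L.weierstrassP w₁)
      ((L.weierstrassP w₃ - L.weierstrassP w₁) / (L.weierstrassP w₂ - L.weierstrassP w₁)))
    {z z' : ℂ} (hz : z ∉ L.lattice) (hz2 : 2 * z ∈ L.lattice) (hz' : z' ∉ L.lattice)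
    (hz2' : 2 * z' ∈ L.lattice) (hd : z - z' ∉ L.lattice) :
    V.valuation (L.weierstrassP z - L.weierstrassP z') =
      V.valuation (L.weierstrassP w₂ - L.weierstrassP w₁) := by
  obtain ⟨-, h5, -, n12, -, -⟩ := (h3 L).2.2 w₁ w₂ w₃ hw
  obtain ⟨hl, hl1⟩ := hG.unit
  have hN : L.weierstrassP w₂ - L.weierstrassP w₁ ≠ 0 := sub_ne_zero.2 (Ne.symm n12)
  have hvN : V.valuation (L.weierstrassP w₂ - L.weierstrassP w₁) ≠ 0 :=
    (Valuation.ne_zero_iff _).2 hN
  have e1 : V.valuation (L.weierstrassP w₃ - L.weierstrassP w₁) =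
      V.valuation (L.weierstrassP w₂ - L.weierstrassP w₁) := by
    rw [map_div₀, div_eq_one_iff_eq hvN] at hl
    exact hl
  have e2 : V.valuation (L.weierstrassP w₃ - L.weierstrassP w₂) =
      V.valuation (L.weierstrassP w₂ - L.weierstrassP w₁) := by
    have h6 : (L.weierstrassP w₃ - L.weierstrassP w₁) / (L.weierstrassP w₂ - L.weierstrassP w₁) - 1 =
        (L.weierstrassP w₃ - L.weierstrassP w₂) / (L.weierstrassP w₂ - L.weierstrassP w₁) := by
      field_simp
      ring
    rw [h6, map_div₀, div_eq_one_iff_eq hvN] at hl1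
    exact hl1
  have same : ∀ {a : ℂ}, z - a ∈ L.lattice → z' - a ∈ L.lattice → False := by
    intro a ha hb
    apply hd
    have := sub_mem ha hb
    rwa [show z - a - (z' - a) = z - z' by ring] at this
  rcases h5 z hz hz2 with ha | ha | ha <;> rcases h5 z' hz' hz2' with hb | hb | hb
  · exact (same ha hb).elim
  · rw [wp_congr L ha, wp_congr L hb, Valuation.map_sub_swap]
  · rw [wp_congr L ha, wp_congr L hb, Valuation.map_sub_swap, e1]
  · rw [wp_congr L ha, wp_congr L hb]
  · exact (same ha hb).elim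
  · rw [wp_congr L ha, wp_congr L hb, Valuation.map_sub_swap, e2]
  · rw [wp_congr L ha, wp_congr L hb, e1]
  · rw [wp_congr L ha, wp_congr L hb, e2]
  · exact (same ha hb).elim

lemma tor_two {A B : ℤ} (hcq : CQ A B) {b : Ideal (OO A B)} {L : PeriodPair} {om : ℂ}
    (hL : IsLI b L om) {q : ℕ} {w : ℂ} (h : 2 * w ∈ L.lattice) :
    Tor (idl (A := A) (B := B) (2 * q)) L w := by
  refine tor_of_mul hcq hL ?_
  have h1 := nsmul_mem h q
  rw [nsmul_eq_mul] at h1
  push_cast
  rwa [show (2 : ℂ) * q * w = q * (2 * w) by ring]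

lemma tor_sub {A B : ℤ} {m : Ideal (OO A B)} {L : PeriodPair} {z w : ℂ} (h : Tor m L z)
    (h' : Tor m L w) : Tor m L (z - w) := by
  intro x hx
  rw [mul_sub]
  exact sub_mem (h x hx) (h' x hx)

lemma wp_mem {A B : ℤ} {m : Ideal (OO A B)} {b : Ideal (OO A B)} {L : PeriodPair} {om : ℂ}
    (hL : IsNL b L om) {z : ℂ} (hz : z ∉ L.lattice) (ht : Tor m L z) :
    L.weierstrassP z ∈ RF m := by
  have h1 : xn L z ∈ RF m := IntermediateField.subset_adjoin _ _ ⟨b, L, om, hL, Or.inr ⟨z, ht, hz, rfl⟩⟩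
  have h3 : L.weierstrassP z = xn L z + ((1 / 12 : ℚ) : ℂ) := by
    unfold xn
    push_cast
    ring
  rw [h3]
  exact add_mem h1 (SubfieldClass.ratCast_mem _ _)

end AFFx

/-- (AFF) the action of the inertia group on the points of a lattice with the same reduction -/
theorem o_AFF (h1 : So_GRD) (h2 : So_TW3) : So_AFF := by
  intro p er A B P V hC hT b L om hL w₁ w₂ w₃ u hw hu q hq hqp σ hσ hI c hA
  have hcq := hC.cq
  have hG := h1 p er A B P V hC b L om hL.toIsLI w₁ w₂ w₃ u hw hu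
  obtain ⟨-, h5, -, n12, -, -⟩ := (h2 L).2.2 w₁ w₂ w₃ hw
  set m : Ideal (OO A B) := idl (A := A) (B := B) (2 * q) with hm
  have hN : L.weierstrassP w₂ - L.weierstrassP w₁ ≠ 0 := sub_ne_zero.2 (Ne.symm n12)
  have t1 : Tor m L w₁ := AFFx.tor_two hcq hL.toIsLI hw.t₁
  have t2 : Tor m L w₂ := AFFx.tor_two hcq hL.toIsLI hw.t₂
  have act : ∀ z, z ∉ L.lattice → Tor m L z → emb c * z ∉ L.lattice ∧
      σ (L.weierstrassP z) = L.weierstrassP (emb c * z) := by
    intro z hz ht
    rcases hA.act z ht with ⟨h, -⟩ | ⟨-, h, h', -⟩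
    · exact (hz h).elim
    · refine ⟨h, ?_⟩
      unfold xn at h'
      rw [map_sub, map_div₀, map_one, map_ofNat] at h'
      linear_combination h'
  have c1 := act w₁ hw.n₁ t1
  have c2 := act w₂ hw.n₂ t2
  have c12 := act (w₂ - w₁) (fun k => hw.d₁₂ (by
    have := neg_mem k
    rwa [neg_sub] at this)) (AFFx.tor_sub t2 t1)
  have two : ∀ {w : ℂ}, 2 * w ∈ L.lattice → 2 * (emb c * w) ∈ L.lattice := by
    intro w h
    have := hL.toIsLI.hasCM hcq c _ h
    rwa [show emb c * (2 * w) = 2 * (emb c * w) by ring] at this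
  have hva := AFFx.val_diff h2 hw hG c2.1 (two hw.t₂) c1.1 (two hw.t₁) (by
    have := c12.1
    rwa [mul_sub] at this)
  have hvN : V.valuation (L.weierstrassP w₂ - L.weierstrassP w₁) ≠ 0 :=
    (Valuation.ne_zero_iff _).2 hN
  have hN' : L.weierstrassP (emb c * w₂) - L.weierstrassP (emb c * w₁) ≠ 0 := by
    intro h
    rw [h, map_zero] at hva
    exact hvN hva.symm
  have ha : xu L u (L.weierstrassP w₁) (emb c * w₂) - xu L u (L.weierstrassP w₁) (emb c * w₁) =
      (L.weierstrassP (emb c * w₂) - L.weierstrassP (emb c * w₁)) /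
        (L.weierstrassP w₂ - L.weierstrassP w₁) := by
    unfold xu
    rw [hu]
    field_simp
    ring
  have hv1 : V.valuation (xu L u (L.weierstrassP w₁) (emb c * w₂) -
      xu L u (L.weierstrassP w₁) (emb c * w₁)) = 1 := by
    rw [ha, map_div₀, hva, div_self hvN]
  refine ⟨hv1, fun z hz ht => ?_⟩
  have cz := act z hz ht
  have hvz : V.valuation (xu L u (L.weierstrassP w₁) z) ≤ 1 := by
    refine (rtor V L u _ _ hC.v2 hG.unit.1.le hG.leg (2 * q) (hC.vnat ?_) z hz ?_).1
    · intro hd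
      rcases (hC.pp.dvd_mul).1 hd with h | h
      · have := Nat.le_of_dvd two_pos h
        have := hC.p5
        omega
      · exact hqp ((Nat.prime_dvd_prime_iff_eq hC.pp hq).1 h).symm
    · have := ht ((2 * q : ℕ) : OO A B) (Ideal.mem_span_singleton_self _)
      rwa [emb_natCast hcq] at this
  refine ⟨cz.1, hvz, ?_⟩
  have hmem : xu L u (L.weierstrassP w₁) z ∈ RF m := by
    unfold xu
    rw [hu]
    exact div_mem (sub_mem (AFFx.wp_mem hL hz ht) (AFFx.wp_mem hL hw.n₁ t1))
      (sub_mem (AFFx.wp_mem hL hw.n₂ t2) (AFFx.wp_mem hL hw.n₁ t1))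
  have hs := hI _ hmem hvz
  have hσX : σ (xu L u (L.weierstrassP w₁) z) =
      (L.weierstrassP (emb c * z) - L.weierstrassP (emb c * w₁)) /
        (L.weierstrassP (emb c * w₂) - L.weierstrassP (emb c * w₁)) := by
    unfold xu
    rw [hu, map_div₀, map_sub, map_sub, cz.2, c1.2, c2.2]
  have e9 : xu L u (L.weierstrassP w₁) (emb c * z) -
      ((xu L u (L.weierstrassP w₁) (emb c * w₂) - xu L u (L.weierstrassP w₁) (emb c * w₁)) *
        xu L u (L.weierstrassP w₁) z + xu L u (L.weierstrassP w₁) (emb c * w₁)) =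
      (xu L u (L.weierstrassP w₁) (emb c * w₂) - xu L u (L.weierstrassP w₁) (emb c * w₁)) *
        (σ (xu L u (L.weierstrassP w₁) z) - xu L u (L.weierstrassP w₁) z) := by
    rw [ha, hσX]
    unfold xu
    rw [hu]
    field_simp
    ring
  rw [e9, map_mul, hv1, one_mul]
  exact hs

end

end Pool.Agent.OBR
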