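import Pool.Agent.OB.StR

/-!
# OB, block GR (helper53): (DIC) good reduction or a far point of order two
-/

set_option autoImplicit false

namespace Pool.Agent.OBR

open _root_.MU3 Pool.Agent.MU3A Pool.Agent.MU3B Pool.Agent.RI Pool.Agent.MUX Pool.Agent.MUXU
open Pool.Agent.NS Pool.Agent.NSR Pool.Agent.OB

noncomputable section

namespace DICx

/-- a far point, if the three distances are not equal -/
theorem far_of (h1 : So_TW3) (h3 : So_FRC) (V : ValuationSubring ℂ) (L : PeriodPair) (w₁ w₂ w₃ : ℂ)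
    (h : Two3 L w₁ w₂ w₃)
    (hlt : V.valuation (L.weierstrassP w₂ - L.weierstrassP w₃) <
      V.valuation (L.weierstrassP w₁ - L.weierstrassP w₂))
    (heq : V.valuation (L.weierstrassP w₁ - L.weierstrassP w₂) =
      V.valuation (L.weierstrassP w₁ - L.weierstrassP w₃)) : ∃ w d, Far V L w d := by
  obtain ⟨-, -, -, n12, n13, n23⟩ := (h1 L).2.2 w₁ w₂ w₃ h
  have h12 : V.valuation (L.weierstrassP w₁ - L.weierstrassP w₂) ≠ 0 :=
    (Valuation.ne_zero_iff _).2 (sub_ne_zero.2 n12)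
  have h23 : V.valuation (L.weierstrassP w₂ - L.weierstrassP w₃) ≠ 0 :=
    (Valuation.ne_zero_iff _).2 (sub_ne_zero.2 n23)
  refine ⟨w₁, V.valuation (L.weierstrassP w₂ - L.weierstrassP w₃) /
    V.valuation (L.weierstrassP w₁ - L.weierstrassP w₂), h3 V L w₁ w₂ w₃ _ h ?_ ?_ heq ?_⟩
  · exact div_ne_zero h23 h12
  · exact (div_lt_one₀ (zero_lt_iff.2 h12)).2 hlt
  · rw [div_mul_cancel₀ _ h12]

/-- the three distances of a labelling are equal, or there is a far point -/
theorem eq_or_far (h1 : So_TW3) (h3 : So_FRC) (V : ValuationSubring ℂ) (L : PeriodPair)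
    (w₁ w₂ w₃ : ℂ) (h : Two3 L w₁ w₂ w₃) :
    (V.valuation (L.weierstrassP w₂ - L.weierstrassP w₃) =
      V.valuation (L.weierstrassP w₁ - L.weierstrassP w₃) ∧
     V.valuation (L.weierstrassP w₁ - L.weierstrassP w₂) =
      V.valuation (L.weierstrassP w₁ - L.weierstrassP w₃)) ∨ ∃ w d, Far V L w d := by
  set e₁ := L.weierstrassP w₁ with he1
  set e₂ := L.weierstrassP w₂ with he2
  set e₃ := L.weierstrassP w₃ with he3
  have s1 : e₁ - e₂ = (e₁ - e₃) - (e₂ - e₃) := by ring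
  rcases lt_trichotomy (V.valuation (e₂ - e₃)) (V.valuation (e₁ - e₃)) with hlt | heq | hgt
  · right
    have h4 : V.valuation (e₁ - e₂) = V.valuation (e₁ - e₃) := by
      rw [s1, Valuation.map_sub_eq_of_lt_left _ hlt]
    refine far_of h1 h3 V L w₁ w₂ w₃ h ?_ h4
    rw [← he1, ← he2, ← he3, h4]
    exact hlt
  · by_cases hc : V.valuation (e₁ - e₂) = V.valuation (e₁ - e₃)
    · exact Or.inl ⟨heq, hc⟩
    · right
      have h4 : V.valuation (e₁ - e₂) ≤ V.valuation (e₁ - e₃) := by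
        rw [s1]
        refine (Valuation.map_sub _ _ _).trans ?_
        rw [heq, max_self]
      have h5 := lt_of_le_of_ne h4 hc
      refine far_of h1 h3 V L w₃ w₁ w₂ h.rot.rot ?_ ?_
      · rw [← he1, ← he2, ← he3, V.valuation.map_sub_swap e₃ e₁]
        exact h5
      · rw [← he1, ← he2, ← he3, V.valuation.map_sub_swap e₃ e₁, V.valuation.map_sub_swap e₃ e₂]
        exact heq.symm
  · right
    have h4 : V.valuation (e₁ - e₂) = V.valuation (e₂ - e₃) := by
      rw [s1, Valuation.map_sub_eq_of_lt_right _ hgt]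
    refine far_of h1 h3 V L w₂ w₃ w₁ h.rot ?_ ?_
    · rw [← he1, ← he2, ← he3, V.valuation.map_sub_swap e₃ e₁]
      exact hgt
    · rw [← he1, ← he2, ← he3, V.valuation.map_sub_swap e₂ e₁, h4]

end DICx

open DICx in
theorem o_DIC (h1 : So_TW3) (h2 : So_LGE) (h3 : So_FRC) : So_DIC := by
  intro V L
  by_cases hF : ∃ w d, Far V L w d
  · exact Or.inr hF
  left
  intro w₁ w₂ w₃ u h hu
  obtain ⟨-, -, -, n12, n13, n23⟩ := (h1 L).2.2 w₁ w₂ w₃ h
  obtain ⟨e1, e2⟩ := (eq_or_far h1 h3 V L w₁ w₂ w₃ h).resolve_right hF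
  have hleg := h2 L w₁ w₂ w₃ u h hu
  have h12 : V.valuation (L.weierstrassP w₁ - L.weierstrassP w₂) ≠ 0 :=
    (Valuation.ne_zero_iff _).2 (sub_ne_zero.2 n12)
  refine ⟨hleg.u0, hleg.eq, ?_, ?_⟩
  · rw [map_div₀, V.valuation.map_sub_swap (L.weierstrassP w₃), V.valuation.map_sub_swap
      (L.weierstrassP w₂), ← e2, div_self h12]
  · have h5 : 1 - (L.weierstrassP w₃ - L.weierstrassP w₁) / (L.weierstrassP w₂ - L.weierstrassP w₁) =
        (L.weierstrassP w₂ - L.weierstrassP w₃) / (L.weierstrassP w₂ - L.weierstrassP w₁) := by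
      rw [eq_div_iff (sub_ne_zero.2 n12.symm), sub_mul, div_mul_cancel₀ _ (sub_ne_zero.2 n12.symm)]
      ring
    rw [h5, map_div₀, e1, V.valuation.map_sub_swap (L.weierstrassP w₂), ← e2, div_self h12]

end

end Pool.Agent.OBR
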