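import Pool.Agent.OB.StR

/-!
# OB, block GR, module FIN (helper37): the final statement of the block
-/

set_option autoImplicit false

open WeierstrassCurve Polynomial

namespace Pool.Agent.OBR

open _root_.MU3 Pool.Agent.MU3A Pool.Agent.MU3B Pool.Agent.RI Pool.Agent.MUX Pool.Agent.MUXU
open Pool.Agent.NS Pool.Agent.NSR Pool.Agent.OB

noncomputable section

theorem o_FIN (h1 : So_GRD) (h2 : So_TW3) (h3 : So_RF2) (h4 : So_LIF) (h5 : So_FXX)
    (h6 : So_IN2) : So_FIN := by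
  intro p er A B P V hC hT
  refine ⟨fun b L om hL => ?_, fun m hm hmP σ hσ hin y hy => ?_⟩
  · obtain ⟨w₁, w₂, w₃, hw⟩ := (h2 L).1
    obtain ⟨u, hu⟩ : ∃ u : ℂ, u ^ 2 = L.weierstrassP w₂ - L.weierstrassP w₁ :=
      IsAlgClosed.exists_pow_nat_eq _ two_pos
    have m1 := h3 A B hC.cq b L om hL w₁ hw.n₁ hw.t₁
    have m2 := h3 A B hC.cq b L om hL w₂ hw.n₂ hw.t₂
    have m3 := h3 A B hC.cq b L om hL w₃ hw.n₃ hw.t₃
    refine ⟨u, _, _, h1 p er A B P V hC b L om hL.toIsLI w₁ w₂ w₃ u hw hu, ?_, m1, ?_⟩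
    · rw [hu]
      exact sub_mem m2 m1
    · exact div_mem (sub_mem m3 m1) (sub_mem m2 m1)
  · have hP : P.IsPrime := hC.prime
    have h2P : ¬ idl (A := A) (B := B) 2 ≤ P := fun h =>
      hC.two (h (Ideal.mem_span_singleton_self _))
    have hm'P : ¬ m * idl (A := A) (B := B) 2 ≤ P := fun h =>
      ((hP.mul_le).1 h).elim hmP h2P
    have hm' : m * idl (A := A) (B := B) 2 ≠ ⊥ := fun h => hm'P (by rw [h]; exact bot_le)
    obtain ⟨σ', hσ', hσσ, hσM⟩ := h4 p A B V hC.cq hC.pp hC.vp (RF m)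
      (RF (m * idl (A := A) (B := B) 2)) (hT.fin m hm) (hT.gal m hm) (hT.fin _ hm') σ hσ
      (fun y hy hv => by
        rw [← ValuationSubring.mem_nonunits_iff]
        exact hin y hy ((ValuationSubring.valuation_le_one_iff _ _).1 hv))
    rw [← hσσ y hy]
    refine h5 p er A B P V hC hT _ hm' hm'P Ideal.mul_le_right σ' hσ' hσM
      (h6 p er A B P V hC hT σ' hσ' fun y hy hv => hσM y (hT.mono _ _ Ideal.mul_le_right hy) hv)
      y (hT.mono _ _ Ideal.mul_le_left hy)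

end

end Pool.Agent.OBR
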