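import Pool.Agent.OB.StR
import Pool.Agent.NS.RN_ALL

/-!
# OB, block GR, module FIX: the far point is fixed by complex multiplications of odd norm prime to `p`
-/

set_option autoImplicit false

open WeierstrassCurve Polynomial

namespace Pool.Agent.OBR

open _root_.MU3 Pool.Agent.MU3A Pool.Agent.MU3B Pool.Agent.RI Pool.Agent.MUX Pool.Agent.MUXU
open Pool.Agent.MUXV (GR InK tX)
open Pool.Agent.NS Pool.Agent.NSR Pool.Agent.OB

noncomputable section

namespace FIXx

lemma wp_per {L : PeriodPair} {a b : ℂ} (h : a - b ∈ L.lattice) :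
    L.weierstrassP a = L.weierstrassP b := by
  have h1 := L.weierstrassP_add_coe b ⟨a - b, h⟩
  rw [← h1]
  congr 1
  show a = b + (a - b)
  ring

lemma xu_per {L : PeriodPair} {a b : ℂ} (u e : ℂ) (h : a - b ∈ L.lattice) :
    xu L u e a = xu L u e b := by
  unfold xu
  rw [wp_per h]

/-- a point killed by `2` and by an odd number is in the lattice -/
lemma odd_two {L : PeriodPair} {n : ℕ} (hn : Odd n) {z : ℂ} (h2 : 2 * z ∈ L.lattice)
    (h : (n : ℂ) * z ∈ L.lattice) : z ∈ L.lattice := by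
  obtain ⟨k, rfl⟩ := hn
  have h3 : (k : ℤ) • (2 * z) ∈ L.lattice := L.lattice.smul_mem _ h2
  have h4 := sub_mem h h3
  have h5 : ((2 * k + 1 : ℕ) : ℂ) * z - (k : ℤ) • (2 * z) = z := by
    rw [zsmul_eq_mul]
    push_cast
    ring
  rwa [h5] at h4

/-- translation by a point of order two -/
lemma tw2 (hLG : So_LGE) (hTW : So_TW3) {L : PeriodPair} {w₁ w₂ w₃ : ℂ} (h : Two3 L w₁ w₂ w₃)
    {z : ℂ} (hz : z ∉ L.lattice) (hz1 : z + w₁ ∉ L.lattice) :
    (L.weierstrassP (z + w₁) - L.weierstrassP w₁) * (L.weierstrassP z - L.weierstrassP w₁) =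
      (L.weierstrassP w₂ - L.weierstrassP w₁) * (L.weierstrassP w₃ - L.weierstrassP w₁) := by
  obtain ⟨u, hu⟩ := IsAlgClosed.exists_pow_nat_eq
    (L.weierstrassP w₂ - L.weierstrassP w₁) (n := 2) two_pos
  have hne : L.weierstrassP w₂ - L.weierstrassP w₁ ≠ 0 :=
    sub_ne_zero.2 ((hTW L).2.2 w₁ w₂ w₃ h).2.2.2.1.symm
  have h1 := rtwo L u (L.weierstrassP w₁) _ w₁ (hLG L w₁ w₂ w₃ u h hu) h.n₁ h.t₁ rfl z hz hz1
  unfold xu at h1
  rw [hu] at h1
  field_simp at h1
  linear_combination h1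

lemma hX (L : PeriodPair) {u : ℂ} (hu : u ≠ 0) (e a b : ℂ) :
    L.weierstrassP a - L.weierstrassP b = u ^ 2 * (xu L u e a - xu L u e b) := by
  unfold xu
  field_simp
  ring

/-- the key formula -/
lemma key (hLG : So_LGE) (hTW : So_TW3) {L : PeriodPair} {α : ℂ} (hα : α ≠ 0) (hI : Isg L L α)
    {R : Finset ℂ} (hR : IsRpM L L α R) (hq2 : ∀ q ∈ R, 2 * q ∉ L.lattice) {wi wj wk : ℂ}
    (h : Two3 L wi wj wk) (hi : α * wi ∉ L.lattice) (hj : α * wj ∉ L.lattice) {u : ℂ}
    (hu : u ≠ 0) (e : ℂ) :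
    α ^ 2 * (xu L u e (α * wi) - xu L u e (α * wj)) * (∏ q ∈ R, (xu L u e wi - xu L u e q)) *
      (∏ q ∈ R, (xu L u e wj - xu L u e q)) =
    (xu L u e wi - xu L u e wj) ^ (R.card + 1) * ∏ q ∈ R, (xu L u e wk - xu L u e q) := by
  have h1 := u_PFI L L α R hα hI hR wj hj wi hi
  simp only [hX L hu e] at h1
  rw [Finset.prod_mul_distrib, Finset.prod_mul_distrib, Finset.prod_const] at h1
  have h2 : ∀ q ∈ R, (xu L u e wi - xu L u e (wj + q)) * (xu L u e wj - xu L u e q) =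
      (xu L u e wi - xu L u e wj) * (xu L u e wk - xu L u e q) := by
    intro q hq
    have hq1 : q + wj ∉ L.lattice := by
      intro hc
      apply hq2 q hq
      have h5 := sub_mem (L.lattice.smul_mem (2 : ℤ) hc) h.t₂
      have h6 : (2 : ℤ) • (q + wj) - 2 * wj = 2 * q := by
        rw [zsmul_eq_mul]
        push_cast
        ring
      rwa [h6] at h5
    have h3 := tw2 hLG hTW h.rot (hR.ne q hq) hq1
    rw [add_comm q wj, hX L hu e, hX L hu e, hX L hu e, hX L hu e] at h3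
    have hu4 : u ^ 2 * u ^ 2 ≠ 0 := mul_ne_zero (pow_ne_zero _ hu) (pow_ne_zero _ hu)
    have h4 : (xu L u e (wj + q) - xu L u e wj) * (xu L u e q - xu L u e wj) =
        (xu L u e wk - xu L u e wj) * (xu L u e wi - xu L u e wj) := by
      apply mul_left_cancel₀ hu4
      linear_combination h3
    linear_combination h4
  have h3 : (∏ q ∈ R, (xu L u e wi - xu L u e (wj + q))) *
      ∏ q ∈ R, (xu L u e wj - xu L u e q) =
      (xu L u e wi - xu L u e wj) ^ R.card * ∏ q ∈ R, (xu L u e wk - xu L u e q) := by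
    rw [← Finset.prod_mul_distrib, Finset.prod_congr rfl h2, Finset.prod_mul_distrib,
      Finset.prod_const]
  have hu5 : u ^ 2 * (u ^ 2) ^ R.card ≠ 0 :=
    mul_ne_zero (pow_ne_zero _ hu) (pow_ne_zero _ (pow_ne_zero _ hu))
  apply mul_left_cancel₀ hu5
  rw [pow_succ]
  linear_combination (∏ q ∈ R, (xu L u e wj - xu L u e q)) * h1 +
    u ^ 2 * (u ^ 2) ^ R.card * (xu L u e wi - xu L u e wj) * h3

lemma one_of_mul {Γ : Type} [LinearOrderedCommGroupWithZero Γ] {x y : Γ} (hx : x ≤ 1)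
    (hy : y ≤ 1) (h : x * y = 1) : x = 1 ∧ y = 1 := by
  constructor
  · refine le_antisymm hx ?_
    rw [← h]
    calc x * y ≤ x * 1 := mul_le_mul_right hy x
      _ = x := mul_one x
  · refine le_antisymm hy ?_
    rw [← h]
    calc x * y ≤ 1 * y := mul_le_mul_left hx y
      _ = y := one_mul y

/-- labels with the first point `w` -/
lemma labels (hTW : So_TW3) {L : PeriodPair} {w : ℂ} (h1 : w ∉ L.lattice)
    (h2 : 2 * w ∈ L.lattice) : ∃ w₂ w₃, Two3 L w w₂ w₃ := by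
  obtain ⟨⟨a, b, c, h⟩, h3, -⟩ := hTW L
  by_cases h4 : w - a ∈ L.lattice
  · refine ⟨b, w + b, h3 w b h1 h2 h.n₂ h.t₂ fun h5 => h.d₁₂ ?_⟩
    have h6 := sub_mem h5 h4
    rwa [sub_sub_sub_cancel_left] at h6
  · exact ⟨a, w + a, h3 w a h1 h2 h.n₁ h.t₁ h4⟩

end FIXx

open FIXx in
/-- (FIX) -/
theorem o_FIX (hTW : So_TW3) (hLG : So_LGE) : So_FIX := by
  intro A B V hQ hv2 b L om hL w d hF al n hnm hodd hvn
  obtain ⟨w₂, w₃, h123⟩ := labels hTW hF.ne hF.two
  set α : ℂ := emb al with hαdef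
  -- `n z ∈ L` if `α z ∈ L`
  have hCM := IsLI.hasCM hQ hL
  have hst : emb (star al) * α = (n : ℂ) := by
    rw [hαdef, ← emb_mul hQ, mul_comm, mul_star, emb_intCast hQ, hnm]
    norm_cast
  have hn0 : (n : ℂ) ≠ 0 := by
    have : n ≠ 0 := by
      rintro rfl
      exact absurd hodd (by decide)
    exact_mod_cast this
  have hα : α ≠ 0 := by
    intro h
    rw [h, mul_zero] at hst
    exact hn0 hst.symm
  have hnz : ∀ z, α * z ∈ L.lattice → (n : ℂ) * z ∈ L.lattice := by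
    intro z hz
    have h1 := hCM (star al) _ hz
    rwa [← mul_assoc, hst] at h1
  have hI : Isg L L α := fun z hz => hCM al z hz
  have h2α : ∀ z, 2 * z ∈ L.lattice → α * z ∈ L.lattice → z ∈ L.lattice :=
    fun z h1 h2 => odd_two hodd h1 (hnz z h2)
  obtain ⟨⟨R, hR⟩, -⟩ := u_BAC.2 L L α hα hI
  have hq2 : ∀ q ∈ R, 2 * q ∉ L.lattice := fun q hq h =>
    hR.ne q hq (h2α q h (hR.mem q hq))
  -- the model
  obtain ⟨-, hcl, -, hn21, hn23, hn13⟩ := (hTW L).2.2 w₂ w w₃ h123.rot.swap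
  obtain ⟨u, hu2⟩ := IsAlgClosed.exists_pow_nat_eq
    (L.weierstrassP w - L.weierstrassP w₂) (n := 2) two_pos
  have hleg := hLG L w₂ w w₃ u h123.rot.swap hu2
  have hu : u ≠ 0 := hleg.u0
  set e := L.weierstrassP w₂ with he
  have hne : L.weierstrassP w - e ≠ 0 := sub_ne_zero.2 hn21.symm
  set lam := (L.weierstrassP w₃ - e) / (L.weierstrassP w - e) with hlam
  have hX2 : xu L u e w₂ = 0 := by
    unfold xu
    rw [he, sub_self, zero_div]
  have hX1 : xu L u e w = 1 := by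
    unfold xu
    rw [hu2, div_self hne]
  have hX3 : xu L u e w₃ = lam := by
    unfold xu
    rw [hu2]
  have hvne : V.valuation (L.weierstrassP w - e) ≠ 0 := V.valuation.ne_zero_iff.2 hne
  have hvlam : V.valuation lam < 1 := by
    have h1 := hF.dist w₂ w₃ h123
    rw [← he, Valuation.map_sub_swap] at h1
    rw [hlam, map_div₀, h1, mul_div_assoc, div_self hvne, mul_one]
    exact hF.lt
  have hv1lam : V.valuation (1 - lam) = 1 := by
    have h1 := V.valuation.map_sub_eq_of_lt_left (x := 1) (y := lam)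
      (by rw [map_one]; exact hvlam)
    rw [h1, map_one]
  -- torsion
  have htn : ∀ z, z ∉ L.lattice → (n : ℂ) * z ∈ L.lattice → V.valuation (xu L u e z) ≤ 1 :=
    fun z h1 h2 => (rtor V L u e lam hv2 hvlam.le hleg n hvn z h1 h2).1
  have ht2 : ∀ z, z ∉ L.lattice → 2 * z ∈ L.lattice → V.valuation (xu L u e z) ≤ 1 := by
    intro z h1 h2
    refine (rtor V L u e lam hv2 hvlam.le hleg 2 (by exact_mod_cast hv2) z h1 ?_).1
    exact_mod_cast h2
  have hqle : ∀ q ∈ R, V.valuation (xu L u e q) ≤ 1 := fun q hq =>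
    htn q (hR.ne q hq) (hnz q (hR.mem q hq))
  have hPle : ∀ z, z ∉ L.lattice → 2 * z ∈ L.lattice →
      V.valuation (∏ q ∈ R, (xu L u e z - xu L u e q)) ≤ 1 := by
    intro z h1 h2
    rw [map_prod]
    refine Finset.prod_le_one' fun q hq => ?_
    exact (V.valuation.map_sub _ _).trans (max_le (ht2 z h1 h2) (hqle q hq))
  have hP0 : ∀ z, z ∉ L.lattice → 2 * z ∈ L.lattice →
      V.valuation (∏ q ∈ R, (xu L u e z - xu L u e q)) ≠ 0 := by
    intro z h1 h2
    rw [V.valuation.ne_zero_iff, Finset.prod_ne_zero_iff]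
    intro q hq h3
    have h4 := hX L hu e z q
    rw [h3, mul_zero, sub_eq_zero] at h4
    apply hq2 q hq
    have h2' : (2 : ℤ) • z ∈ L.lattice := by
      rw [zsmul_eq_mul]
      exact_mod_cast h2
    rcases b_NEQ L q z (hR.ne q hq) h1 h4 with h5 | h5
    · have h6 := sub_mem h2' (L.lattice.smul_mem (2 : ℤ) h5)
      have h7 : (2 : ℤ) • z - (2 : ℤ) • (z - q) = 2 * q := by
        rw [zsmul_eq_mul, zsmul_eq_mul]
        push_cast
        ring
      rwa [h7] at h6
    · have h6 := sub_mem (L.lattice.smul_mem (2 : ℤ) h5) h2'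
      have h7 : (2 : ℤ) • (z + q) - (2 : ℤ) • z = 2 * q := by
        rw [zsmul_eq_mul, zsmul_eq_mul]
        push_cast
        ring
      rwa [h7] at h6
  -- the points `α w_i`
  have hαn : ∀ z, z ∉ L.lattice → 2 * z ∈ L.lattice → α * z ∉ L.lattice :=
    fun z h1 h2 h3 => h1 (h2α z h2 h3)
  have hαt : ∀ z, 2 * z ∈ L.lattice → 2 * (α * z) ∈ L.lattice := by
    intro z h1
    have h2 := hI _ h1
    rwa [mul_left_comm] at h2
  have hαd : ∀ y z, 2 * y ∈ L.lattice → 2 * z ∈ L.lattice → y - z ∉ L.lattice →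
      α * y - α * z ∉ L.lattice := by
    intro y z h1 h2 h3 h4
    rw [← mul_sub] at h4
    apply h3
    refine h2α _ ?_ h4
    rw [mul_sub]
    exact sub_mem h1 h2
  have e12 := key hLG hTW hα hI hR hq2 h123 (hαn _ h123.n₁ h123.t₁) (hαn _ h123.n₂ h123.t₂) hu e
  have e13 := key hLG hTW hα hI hR hq2 h123.swap (hαn _ h123.n₁ h123.t₁)
    (hαn _ h123.n₃ h123.t₃) hu e
  have f12 := congrArg V.valuation e12
  have f13 := congrArg V.valuation e13
  have hd12 : V.valuation (xu L u e w - xu L u e w₂) = 1 := by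
    rw [hX1, hX2, sub_zero, map_one]
  have hd13 : V.valuation (xu L u e w - xu L u e w₃) = 1 := by
    rw [hX1, hX3, hv1lam]
  rw [map_mul, map_mul, map_mul, map_mul, map_pow, map_pow, hd12, one_pow, one_mul] at f12
  rw [map_mul, map_mul, map_mul, map_mul, map_pow, map_pow, hd13, one_pow, one_mul] at f13
  set x12 := V.valuation (xu L u e (α * w) - xu L u e (α * w₂)) with hx12
  set x13 := V.valuation (xu L u e (α * w) - xu L u e (α * w₃)) with hx13
  set m := V.valuation α ^ 2 with hm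
  set p1 := V.valuation (∏ q ∈ R, (xu L u e w - xu L u e q)) with hp1
  set p2 := V.valuation (∏ q ∈ R, (xu L u e w₂ - xu L u e q)) with hp2
  set p3 := V.valuation (∏ q ∈ R, (xu L u e w₃ - xu L u e q)) with hp3
  have hm1 : m ≤ 1 := pow_le_one' (vemb_le hQ V al) 2
  have hx12' : x12 ≤ 1 := (V.valuation.map_sub _ _).trans (max_le
    (ht2 _ (hαn _ h123.n₁ h123.t₁) (hαt _ h123.t₁)) (ht2 _ (hαn _ h123.n₂ h123.t₂) (hαt _ h123.t₂)))
  have hx13' : x13 ≤ 1 := (V.valuation.map_sub _ _).trans (max_le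
    (ht2 _ (hαn _ h123.n₁ h123.t₁) (hαt _ h123.t₁)) (ht2 _ (hαn _ h123.n₃ h123.t₃) (hαt _ h123.t₃)))
  have hp1' : p1 ≤ 1 := hPle w h123.n₁ h123.t₁
  have hp20 : p2 ≠ 0 := hP0 w₂ h123.n₂ h123.t₂
  have hab : (m * x12 * p1) * (m * x13 * p1) = 1 := by
    apply mul_right_cancel₀ hp20
    calc (m * x12 * p1) * (m * x13 * p1) * p2 = (m * x13 * p1) * ((m * x12 * p1) * p2) := by
          rw [mul_comm (m * x12 * p1) (m * x13 * p1), mul_assoc]
      _ = 1 * p2 := by rw [f12, f13, one_mul]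
  have hle3 : ∀ {x : V.ValueGroup}, x ≤ 1 → m * x * p1 ≤ 1 := fun {x} hx =>
    mul_le_one' (mul_le_one' hm1 hx) hp1'
  obtain ⟨ha, hb⟩ := one_of_mul (hle3 hx12') (hle3 hx13') hab
  have hx12'' : x12 = 1 := (one_of_mul hm1 hx12' (one_of_mul (mul_le_one' hm1 hx12') hp1' ha).1).2
  have hx13'' : x13 = 1 := (one_of_mul hm1 hx13' (one_of_mul (mul_le_one' hm1 hx13') hp1' hb).1).2
  -- the permutation
  have hc : ∀ z, z ∉ L.lattice → 2 * z ∈ L.lattice →
      z - w₂ ∈ L.lattice ∨ z - w ∈ L.lattice ∨ z - w₃ ∈ L.lattice := hcl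
  have hsub : ∀ {y z t : ℂ}, y - z ∉ L.lattice → y - t ∈ L.lattice → z - t ∈ L.lattice → False := by
    intro y z t h1 h2 h3
    apply h1
    have := sub_mem h2 h3
    rwa [sub_sub_sub_cancel_right] at this
  have g12 := hαd w w₂ h123.t₁ h123.t₂ h123.d₁₂
  have g13 := hαd w w₃ h123.t₁ h123.t₃ h123.d₁₃
  have g23 := hαd w₂ w₃ h123.t₂ h123.t₃ h123.d₂₃
  have hv23 : V.valuation (xu L u e w₂ - xu L u e w₃) < 1 := by
    rw [hX2, hX3, zero_sub, Valuation.map_neg]
    exact hvlam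
  have hv32 : V.valuation (xu L u e w₃ - xu L u e w₂) < 1 := by
    rw [Valuation.map_sub_swap]
    exact hv23
  rcases hc _ (hαn _ h123.n₁ h123.t₁) (hαt _ h123.t₁) with h | h | h
  · exfalso
    rcases hc _ (hαn _ h123.n₂ h123.t₂) (hαt _ h123.t₂) with h' | h' | h'
    · exact hsub g12 h h'
    · rcases hc _ (hαn _ h123.n₃ h123.t₃) (hαt _ h123.t₃) with h'' | h'' | h''
      · exact hsub g13 h h''
      · exact hsub g23 h' h''
      · rw [hx13, xu_per u e h, xu_per u e h''] at hx13''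
        exact hv23.ne hx13''
    · rw [hx12, xu_per u e h, xu_per u e h'] at hx12''
      exact hv23.ne hx12''
  · exact h
  · exfalso
    rcases hc _ (hαn _ h123.n₂ h123.t₂) (hαt _ h123.t₂) with h' | h' | h'
    · rw [hx12, xu_per u e h, xu_per u e h'] at hx12''
      exact hv32.ne hx12''
    · rcases hc _ (hαn _ h123.n₃ h123.t₃) (hαt _ h123.t₃) with h'' | h'' | h''
      · rw [hx13, xu_per u e h, xu_per u e h''] at hx13''
        exact hv32.ne hx13''
      · exact hsub g23 h' h''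
      · exact hsub g13 h h''
    · exact hsub g12 h h'

end

end Pool.Agent.OBR
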