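import Pool.Agent.OB.StR

/-!
# OB, block GR: FRC, criterion for a far point (helper63)
-/

set_option autoImplicit false

open WeierstrassCurve Polynomial

namespace Pool.Agent.OBR

open _root_.MU3 Pool.Agent.MU3A Pool.Agent.MU3B Pool.Agent.RI Pool.Agent.MUX Pool.Agent.MUXU
open Pool.Agent.MUXV (GR InK tX)
open Pool.Agent.NS Pool.Agent.NSR Pool.Agent.OB

namespace FRCx

/-- `℘` at points congruent modulo the lattice. -/
theorem per (L : PeriodPair) {z w : ℂ} (h : z - w ∈ L.lattice) :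
    L.weierstrassP z = L.weierstrassP w := by
  have h1 := L.weierstrassP_add_coe w ⟨z - w, h⟩
  have h2 : w + ((⟨z - w, h⟩ : L.lattice) : ℂ) = z := by
    show w + (z - w) = z
    ring
  rw [h2] at h1
  exact h1

end FRCx

theorem o_FRC (hTW : So_TW3) : So_FRC := by
  intro V L w w₂ w₃ d h3 hd0 hd1 he hf
  obtain ⟨-, -, hT⟩ := hTW L
  obtain ⟨-, hcl, -, -, -, -⟩ := hT w w₂ w₃ h3
  refine ⟨h3.n₁, h3.t₁, hd0, hd1, fun w' w'' h => ?_⟩
  have hw' : ∀ z, z ∉ L.lattice → 2 * z ∈ L.lattice → w - z ∉ L.lattice →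
      z - w₂ ∈ L.lattice ∨ z - w₃ ∈ L.lattice := by
    intro z hz h2z hzw
    rcases hcl z hz h2z with h4 | h4 | h4
    · exfalso
      apply hzw
      have := neg_mem h4
      rwa [neg_sub] at this
    · exact Or.inl h4
    · exact Or.inr h4
  rcases hw' w' h.n₂ h.t₂ h.d₁₂ with h5 | h5 <;> rcases hw' w'' h.n₃ h.t₃ h.d₁₃ with h6 | h6
  · exfalso
    apply h.d₂₃
    have h7 := sub_mem h5 h6
    have h8 : w' - w₂ - (w'' - w₂) = w' - w'' := by ring
    rwa [h8] at h7
  · rw [FRCx.per L h5, FRCx.per L h6]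
    exact hf
  · rw [FRCx.per L h5, FRCx.per L h6, ← he, ← hf]
    rw [← V.valuation.map_neg, neg_sub]
  · exfalso
    apply h.d₂₃
    have h7 := sub_mem h5 h6
    have h8 : w' - w₃ - (w'' - w₃) = w' - w'' := by ring
    rwa [h8] at h7

end Pool.Agent.OBR
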