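import Pool.Agent.OB.StR
import Pool.Agent.MU3.A_SCP

/-!
# OB, block GR: FRU, the far point is unique; homotheties (helper51)
-/

set_option autoImplicit false

open WeierstrassCurve Polynomial

namespace Pool.Agent.OBR

open _root_.MU3 Pool.Agent.MU3A Pool.Agent.MU3B Pool.Agent.RI Pool.Agent.MUX Pool.Agent.MUXU
open Pool.Agent.MUXV (GR InK tX)
open Pool.Agent.NS Pool.Agent.NSR Pool.Agent.OB

namespace FRUx

/-- `℘` at points congruent modulo the lattice. -/
theorem per (L : PeriodPair) {z w : ℂ} (h : z - w ∈ L.lattice) :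
    L.weierstrassP z = L.weierstrassP w := by
  have h1 := L.weierstrassP_add_coe w ⟨z - w, h⟩
  have h2 : w + ((⟨z - w, h⟩ : L.lattice) : ℂ) = z := by
    show w + (z - w) = z
    ring
  rw [h2] at h1
  exact h1

lemma sub_swap' {L : PeriodPair} {x y : ℂ} (h : x - y ∈ L.lattice) : y - x ∈ L.lattice := by
  have := neg_mem h
  rwa [neg_sub] at this

lemma exists_two3 (h1 : So_TW3) (L : PeriodPair) {T : ℂ} (hT : T ∉ L.lattice)
    (h2T : 2 * T ∈ L.lattice) : ∃ x y, Two3 L T x y := by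
  obtain ⟨⟨a₁, a₂, a₃, ha⟩, hb, -⟩ := h1 L
  by_cases hc : a₁ - T ∈ L.lattice
  · refine ⟨a₂, T + a₂, hb T a₂ hT h2T ha.n₂ ha.t₂ fun hk => ha.d₁₂ ?_⟩
    have := add_mem hc hk
    rwa [sub_add_sub_cancel] at this
  · refine ⟨a₁, T + a₁, hb T a₁ hT h2T ha.n₁ ha.t₁ fun hk => hc ?_⟩
    exact sub_swap' hk

/-- the two differences with the far point have the same value -/
lemma eqd {V : ValuationSubring ℂ} {L : PeriodPair} {w : ℂ} {d : V.ValueGroup}
    (h : Far V L w d) {w₂ w₃ : ℂ} (h3 : Two3 L w w₂ w₃) :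
    V.valuation (L.weierstrassP w - L.weierstrassP w₂) =
      V.valuation (L.weierstrassP w - L.weierstrassP w₃) := by
  have e1 := h.dist w₂ w₃ h3
  have e2 := h.dist w₃ w₂ h3.swap
  rw [← V.valuation.map_neg, neg_sub, e2] at e1
  exact (mul_left_cancel₀ h.d0 e1).symm

end FRUx

open FRUx in
theorem o_FRU (hTW : So_TW3) (hFRC : So_FRC) : So_FRU := by
  intro V L w d h
  obtain ⟨-, hadd, hT⟩ := hTW L
  constructor
  · intro w' d' h'
    have hww : w' - w ∈ L.lattice := by
      by_contra hn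
      have hn' : w - w' ∉ L.lattice := fun hk => hn (sub_swap' hk)
      have h3 := hadd w w' h.ne h.two h'.ne h'.two hn'
      have h4 : Two3 L w' w (w + w') := h3.rot.swap
      obtain ⟨-, -, -, hne, -, -⟩ := hT _ _ _ h3
      have e1 := eqd h h3
      have e2 := h'.dist w (w + w') h4
      have e3 : V.valuation (L.weierstrassP w' - L.weierstrassP w) =
          V.valuation (L.weierstrassP w - L.weierstrassP w') := by
        rw [← V.valuation.map_neg, neg_sub]
      rw [← e1, e3] at e2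
      have hD : V.valuation (L.weierstrassP w - L.weierstrassP w') ≠ 0 :=
        (V.valuation.ne_zero_iff).2 (sub_ne_zero.2 hne)
      have e4 : d' = 1 := by
        have e5 : 1 * V.valuation (L.weierstrassP w - L.weierstrassP w') =
            d' * V.valuation (L.weierstrassP w - L.weierstrassP w') := by
          rw [one_mul]; exact e2
        exact (mul_right_cancel₀ hD e5).symm
      exact absurd h'.lt (by rw [e4]; exact lt_irrefl _)
    refine ⟨hww, ?_⟩
    obtain ⟨w₂, w₃, h3⟩ := exists_two3 hTW L h.ne h.two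
    have key : ∀ z, w - z ∉ L.lattice → w' - z ∉ L.lattice := by
      intro z hz hk
      apply hz
      have := sub_mem hk hww
      rwa [sub_sub_sub_cancel_left, ← neg_sub, neg_sub] at this
    have h4 : Two3 L w' w₂ w₃ := ⟨h'.ne, h3.n₂, h3.n₃, h'.two, h3.t₂, h3.t₃,
      key _ h3.d₁₂, key _ h3.d₁₃, h3.d₂₃⟩
    have e1 := h.dist w₂ w₃ h3
    have e2 := h'.dist w₂ w₃ h4
    rw [per L hww, e1] at e2
    obtain ⟨-, -, -, hne, -, -⟩ := hT _ _ _ h3
    have hD : V.valuation (L.weierstrassP w - L.weierstrassP w₂) ≠ 0 :=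
      (V.valuation.ne_zero_iff).2 (sub_ne_zero.2 hne)
    exact (mul_right_cancel₀ hD e2).symm
  · intro L' c hc hL
    obtain ⟨w₂, w₃, h3⟩ := exists_two3 hTW L h.ne h.two
    obtain ⟨k1, -, -, -⟩ := ta_SCP L L' c hc hL
    have hm : ∀ z, 2 * z ∈ L.lattice → 2 * (c * z) ∈ L'.lattice := by
      intro z hz
      have := (hL _).1 hz
      rwa [mul_left_comm] at this
    have hs : ∀ x y, x - y ∉ L.lattice → c * x - c * y ∉ L'.lattice := by
      intro x y hxy hk
      rw [← mul_sub] at hk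
      exact hxy ((hL _).2 hk)
    have hn : ∀ z, z ∉ L.lattice → c * z ∉ L'.lattice := fun z hz hk => hz ((hL _).2 hk)
    have h4 : Two3 L' (c * w) (c * w₂) (c * w₃) := ⟨hn _ h3.n₁, hn _ h3.n₂, hn _ h3.n₃,
      hm _ h3.t₁, hm _ h3.t₂, hm _ h3.t₃, hs _ _ h3.d₁₂, hs _ _ h3.d₁₃, hs _ _ h3.d₂₃⟩
    have e1 := eqd h h3
    have e2 := h.dist w₂ w₃ h3
    refine hFRC V L' (c * w) (c * w₂) (c * w₃) d h4 h.d0 h.lt ?_ ?_
    · rw [k1, k1, k1, ← sub_div, ← sub_div, map_div₀, map_div₀, e1]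
    · rw [k1, k1, k1, ← sub_div, ← sub_div, map_div₀, map_div₀, e2, mul_div_assoc]

end Pool.Agent.OBR
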