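import Pool.Agent.OB.StR
import Pool.Agent.MU3.BAll
import Pool.Agent.MUX.UAll

/-!
# OB, block GR, module FXX: an element of the inertia group of `RF m`, `m` even and prime to `P`, which is trivial on `RF (2)`, is trivial on `RF m`
-/

set_option autoImplicit false

open WeierstrassCurve Polynomial

namespace Pool.Agent.OBR

open _root_.MU3 Pool.Agent.MU3A Pool.Agent.MU3B Pool.Agent.RI Pool.Agent.MUX Pool.Agent.MUXU
open Pool.Agent.MUXV (GR InK tX)
open Pool.Agent.NS Pool.Agent.NSR Pool.Agent.OB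

noncomputable section

namespace FXXx

variable {A B : ℤ}

/-- an automorphism which fixes `wC` fixes `k` -/
lemma fix_kk {σ : ℂ ≃+* ℂ} (hσ : FixK A B σ) : ∀ y ∈ kk A B, σ y = y := by
  intro y hy
  induction hy using IntermediateField.adjoin_induction with
  | mem x hx => rw [Set.mem_singleton_iff] at hx; rw [hx]; exact hσ
  | algebraMap x => simp
  | add x y _ _ hx hy => rw [map_add, hx, hy]
  | inv x _ hx => rw [map_inv₀, hx]
  | mul x y _ _ hx hy => rw [map_mul, hx, hy]

/-- an automorphism which fixes `wC` fixes `O` -/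
lemma fix_emb {σ : ℂ ≃+* ℂ} (hσ : FixK A B σ) (x : OO A B) : σ (emb x) = emb x := by
  have h1 : emb x = (x.re : ℂ) + (x.im : ℂ) * wC A B := rfl
  rw [h1, map_add, map_mul, map_intCast, map_intCast, hσ]

end FXXx

open FXXx in
/-- (FXX) -/
theorem o_FXX (h1 : So_GRD) (h2 : So_TW3) (h3 : So_RF2) (h4 : So_INJ) (h5 : So_INX) : So_FXX := by
  intro p er A B P V hC T m hm0 hmP hm2 σ hσ hin hfix
  have hcq := hC.cq
  have key : ∀ (b : Ideal (OO A B)) (L : PeriodPair) (om : ℂ), IsNL b L om →
      σ (kap L) = kap L ∧ ∀ z, Tor m L z → z ∉ L.lattice → σ (xn L z) = xn L z := by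
    intro b L om hL
    have hk : σ (kap L) = kap L :=
      hfix _ (IntermediateField.subset_adjoin _ _ ⟨b, L, om, hL, Or.inl rfl⟩)
    obtain ⟨⟨w₁, w₂, w₃, hw⟩, -, -⟩ := h2 L
    obtain ⟨u, hu2⟩ := IsAlgClosed.exists_pow_nat_eq
      (L.weierstrassP w₂ - L.weierstrassP w₁) (n := 2) two_pos
    have hg := h1 p er A B P V hC b L om hL.toIsLI w₁ w₂ w₃ u hw hu2
    have m1 := h3 A B hcq b L om hL w₁ hw.n₁ hw.t₁
    have m2 := h3 A B hcq b L om hL w₂ hw.n₂ hw.t₂
    set e : ℂ := L.weierstrassP w₁ with hedef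
    set lam : ℂ := (L.weierstrassP w₃ - e) / (L.weierstrassP w₂ - e) with hlam
    have he : σ e = e := hfix _ m1
    have hu : σ (u ^ 2) = u ^ 2 := by
      rw [hu2]
      exact hfix _ (sub_mem m2 m1)
    have hg2 : σ L.g₂ = L.g₂ := by
      have h6 : L.g₂ = (1728 * kap L + 1) / 12 := by
        unfold kap
        ring
      rw [h6]
      simp only [map_div₀, map_add, map_mul, map_one, map_ofNat, hk]
    have hg3 : σ L.g₃ = L.g₃ := by
      have h6 : L.g₃ = -(1 / 18) * L.g₂ := by linear_combination (1 / 18) * hL.nrm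
      rw [h6]
      simp only [map_div₀, map_mul, map_neg, map_one, map_ofNat, hg2]
    refine ⟨hk, fun z hz hzL => ?_⟩
    have hCj : IsCj σ L L := ⟨hg2.symm, hg3.symm⟩
    obtain ⟨Φ, hΦ⟩ := u_PHI σ L L hCj
    have hΦz : Φ z ∉ L.lattice := fun h => hzL ((hΦ.mem z).1 h)
    have hTΦ : Tor m L (Φ z) := fun x hx =>
      ((u_TSN σ L L Φ hCj hΦ).2 (emb x) z (fun w hw' => hL.toIsLI.hasCM hcq x w hw')
        (fix_emb hσ x)).2 (hz x hx)
    have hX : xu L u e (Φ z) = σ (xu L u e z) := by
      rw [xu, xu, hΦ.P z hzL, map_div₀, map_sub, hu, he]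
    have hle : V.valuation (xu L u e z) ≤ 1 :=
      (h4 p er A B P V hC b L om hL.toIsLI u e lam hg m hmP z hzL hz).1
    have hmono : RF (idl (A := A) (B := B) 2) ≤ RF m := T.mono _ _ hm2
    have hmem : xu L u e z ∈ RF m := by
      have hx : xn L z ∈ RF m :=
        IntermediateField.subset_adjoin _ _ ⟨b, L, om, hL, Or.inr ⟨z, hz, hzL, rfl⟩⟩
      have h12 : (1 / 12 : ℂ) ∈ RF m := by simp
      have e1 : L.weierstrassP z = xn L z + 1 / 12 := by
        unfold xn
        ring
      have e2 : xu L u e z = (xn L z + 1 / 12 - e) / u ^ 2 := by rw [xu, e1]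
      rw [e2, hu2]
      exact div_mem (sub_mem (add_mem hx h12) (hmono m1)) (sub_mem (hmono m2) (hmono m1))
    have hlt : V.valuation (xu L u e z - xu L u e (Φ z)) < 1 := by
      rw [hX, Valuation.map_sub_swap]
      exact hin _ hmem hle
    have hP : L.weierstrassP (Φ z) = L.weierstrassP z := by
      rcases h5 p er A B P V hC b L om hL.toIsLI u e lam hg m hmP z (Φ z) hzL hΦz hz hTΦ hlt
        with h | h
      · have h7 : z = Φ z + ((⟨z - Φ z, h⟩ : L.lattice) : ℂ) := by
          show z = Φ z + (z - Φ z)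
          ring
        have h8 := L.weierstrassP_add_coe (Φ z) ⟨z - Φ z, h⟩
        rw [← h7] at h8
        exact h8.symm
      · have h7 : Φ z = -z + ((⟨z + Φ z, h⟩ : L.lattice) : ℂ) := by
          show Φ z = -z + (z + Φ z)
          ring
        rw [h7, L.weierstrassP_add_coe, L.weierstrassP_neg]
    have h6 := hΦ.P z hzL
    rw [hP] at h6
    rw [xn, map_sub, ← h6, map_div₀, map_one, map_ofNat]
  intro y hy
  induction hy using IntermediateField.adjoin_induction with
  | mem x hx =>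
    obtain ⟨b, L, om, hL, h | ⟨z, hz, hzL, h⟩⟩ := hx
    · rw [h]; exact (key b L om hL).1
    · rw [h]; exact (key b L om hL).2 z hz hzL
  | algebraMap x => exact fix_kk hσ _ x.2
  | add x y _ _ hx hy => rw [map_add, hx, hy]
  | inv x _ hx => rw [map_inv₀, hx]
  | mul x y _ _ hx hy => rw [map_mul, hx, hy]

end

end Pool.Agent.OBR
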