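import Pool.Agent.OB.StR

/-!
# OB, block GR, module GRD (helper98): good reduction, all labels
-/

set_option autoImplicit false

namespace Pool.Agent.OBR

open _root_.MU3 Pool.Agent.MU3A Pool.Agent.MU3B Pool.Agent.RI Pool.Agent.MUX Pool.Agent.MUXU
open Pool.Agent.NS Pool.Agent.NSR Pool.Agent.OB

noncomputable section

/-- (GRD) good reduction, all labels -/
theorem o_GRD (h1 : So_DIC) (h2 : So_NFI) (h3 : So_NFR) (h4 : So_NFS) : So_GRD := by
  intro p er A B P V hC b L om hL w₁ w₂ w₃ u hw hu
  have hno : ∀ w d, ¬ Far V L w d := by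
    rcases hC.cq.hB with hB | hB
    · exact h3 p er A B P V hC hB b L om hL
    · by_cases hA : (2 : ℤ) ∣ A
      · exact h4 p er A B P V hC hB hA b L om hL
      · exact h2 p er A B P V hC hB hA b L om hL
  rcases h1 V L with h | ⟨w, d, h⟩
  · exact h w₁ w₂ w₃ u hw hu
  · exact absurd h (hno w d)

end

end Pool.Agent.OBR
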