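import Pool.Agent.OB.StR

/-!
# OB, block GR, module GRL (helper20): good reduction of the Legendre form
-/

set_option autoImplicit false

open WeierstrassCurve Polynomial

namespace Pool.Agent.OBR

open _root_.MU3 Pool.Agent.MU3A Pool.Agent.MU3B Pool.Agent.RI Pool.Agent.MUX Pool.Agent.MUXU
open Pool.Agent.MUXV (GR InK tX)
open Pool.Agent.NS Pool.Agent.NSR Pool.Agent.OB

noncomputable section

namespace GRLx

/-- the discriminant of the Legendre curve -/
theorem disc (lam : ℂ) : (WL lam).Δ = 2 ^ 4 * (lam ^ 2 * (lam - 1) ^ 2) := by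
  simp only [WeierstrassCurve.Δ, WeierstrassCurve.b₂, WeierstrassCurve.b₄, WeierstrassCurve.b₆,
    WeierstrassCurve.b₈, WL]
  ring

end GRLx

theorem o_GRL (h : Sr_XIL) : So_GRL := by
  intro V L u e lam h2 hL
  obtain ⟨ξ, hk, hs, hp⟩ := h L u e lam hL.leg
  obtain ⟨hl, hl1⟩ := hL.unit
  refine ⟨ξ, ⟨⟨rfl, rfl, ?_, ?_, ?_⟩, h2, ?_, hp, fun z hz => (hk z).2 hz⟩, hs⟩
  · show V.valuation (-(1 + lam)) ≤ 1
    rw [Valuation.map_neg]
    exact (V.valuation.map_add _ _).trans (max_le (by rw [map_one]) hl.le)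
  · show V.valuation lam ≤ 1
    exact hl.le
  · show V.valuation (0 : ℂ) ≤ 1
    rw [map_zero]
    exact zero_le_one
  · rw [GRLx.disc, map_mul, map_mul, map_pow, map_pow, map_pow, h2, hl, hl1]
    simp

end

end Pool.Agent.OBR
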