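import Pool.Agent.OB.StR
import Pool.Agent.MUX.XLib

/-!
# OB, block GR, module IN2: the inertia group of `RF (2)` is trivial
-/

set_option autoImplicit false

open WeierstrassCurve Polynomial

namespace Pool.Agent.OBR

open _root_.MU3 Pool.Agent.MU3A Pool.Agent.MU3B Pool.Agent.RI Pool.Agent.MUX Pool.Agent.MUXU
open Pool.Agent.MUXV (GR InK tX)
open Pool.Agent.NS Pool.Agent.NSR Pool.Agent.OB

noncomputable section

namespace IN2x

variable {A B : ℤ}

/-- `σ` fixes `k` -/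
lemma fix_k {σ : ℂ ≃+* ℂ} (hσ : FixK A B σ) : ∀ x ∈ kk A B, σ x = x := by
  intro x hx
  have hwC : σ (wC A B) = wC A B := hσ
  refine IntermediateField.adjoin_induction ℚ (p := fun x _ => σ x = x) ?_ ?_ ?_ ?_ ?_ hx
  · intro y hy
    rw [Set.mem_singleton_iff] at hy
    rw [hy, hwC]
  · intro r
    rw [eq_ratCast, map_ratCast]
  · intro a b _ _ ha hb
    rw [map_add, ha, hb]
  · intro a _ ha
    rw [map_inv₀, ha]
  · intro a b _ _ ha hb
    rw [map_mul, ha, hb]

lemma pow_succ_apply (σ : ℂ ≃+* ℂ) (n : ℕ) (y : ℂ) :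
    (σ ^ (n + 1) : ℂ ≃+* ℂ) y = σ ((σ ^ n : ℂ ≃+* ℂ) y) := by
  rw [pow_succ']
  rfl

lemma fix_pow {σ : ℂ ≃+* ℂ} (hσ : FixK A B σ) (n : ℕ) : FixK A B (σ ^ n) := by
  unfold FixK
  induction n with
  | zero => rfl
  | succ n ih =>
    rw [pow_succ_apply, ih]
    exact hσ

/-- the restriction of `σ` to a normal extension of `k` -/
lemma exists_res {σ : ℂ ≃+* ℂ} (hσ : FixK A B σ) (F : IntermediateField (kk A B) ℂ)
    [Normal (kk A B) F] : ∃ τ : F ≃ₐ[kk A B] F, ∀ (n : ℕ) (y : F),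
      (((τ ^ n : F ≃ₐ[kk A B] F) y : F) : ℂ) = (σ ^ n : ℂ ≃+* ℂ) (y : ℂ) := by
  let σK : ℂ ≃ₐ[kk A B] ℂ := AlgEquiv.ofRingEquiv (f := σ) (fun x => fix_k hσ x x.2)
  let τ : F ≃ₐ[kk A B] F := σK.restrictNormal F
  have hτ : ∀ y : F, ((τ y : F) : ℂ) = σ (y : ℂ) := fun y =>
    AlgEquiv.restrictNormal_commutes σK F y
  refine ⟨τ, fun n => ?_⟩
  induction n with
  | zero => intro y; rfl
  | succ n ih =>
    intro y
    have h1 : (τ ^ (n + 1) : F ≃ₐ[kk A B] F) y = τ ((τ ^ n : F ≃ₐ[kk A B] F) y) := by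
      rw [pow_succ']
      rfl
    rw [h1, hτ, ih, pow_succ_apply]

lemma ini_pow {V : ValuationSubring ℂ} {m : Ideal (OO A B)} {σ : ℂ ≃+* ℂ}
    (hres : ∀ (n : ℕ), ∀ y ∈ RF m, (σ ^ n : ℂ ≃+* ℂ) y ∈ RF m) (h : InI V m σ) (n : ℕ) :
    InI V m (σ ^ n) := by
  induction n with
  | zero =>
    intro y _ _
    have h1 : (σ ^ 0 : ℂ ≃+* ℂ) y = y := rfl
    rw [h1, sub_self, map_zero]
    exact zero_lt_one
  | succ n ih =>
    intro y hy hv
    have h1 := ih y hy hv
    have h2 : V.valuation ((σ ^ n : ℂ ≃+* ℂ) y) ≤ 1 := by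
      have h3 : (σ ^ n : ℂ ≃+* ℂ) y = ((σ ^ n : ℂ ≃+* ℂ) y - y) + y := by ring
      rw [h3]
      exact (V.valuation.map_add _ _).trans (max_le h1.le hv)
    have h4 := h _ (hres n y hy) h2
    have h5 : (σ ^ (n + 1) : ℂ ≃+* ℂ) y - y =
        (σ ((σ ^ n : ℂ ≃+* ℂ) y) - (σ ^ n : ℂ ≃+* ℂ) y) + ((σ ^ n : ℂ ≃+* ℂ) y - y) := by
      rw [pow_succ_apply]
      ring
    rw [h5]
    exact lt_of_le_of_lt (V.valuation.map_add _ _) (max_lt h4 h1)

lemma idl_ne {M : ℕ} (h : M ≠ 0) (hc : CQ A B) : idl (A := A) (B := B) M ≠ ⊥ := by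
  intro h1
  rw [Ideal.span_singleton_eq_bot] at h1
  exact natCast_ne_zero' hc h h1

/-- elements of `(q)` are mapped to zero -/
lemma phi_idl {q : ℕ} (φ : OO A B →+* ZMod q) {x : OO A B} (hx : x ∈ idl (A := A) (B := B) q) :
    φ x = 0 := by
  obtain ⟨y, rfl⟩ := Ideal.mem_span_singleton'.1 hx
  rw [map_mul, map_natCast, ZMod.natCast_self, mul_zero]

end IN2x

open IN2x in
theorem o_IN2 (h1 : So_PSI) (h2 : So_KUB) (h3 : So_NSQ) : So_IN2 := by
  intro p er A B P V hc T σ hσ hI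
  classical
  by_contra hcon
  have hcq := hc.cq
  obtain ⟨hn1, hn3, -⟩ := h3 A B hcq hc.ex3 hc.ex4
  have hbot : idl (A := A) (B := B) 2 ≠ ⊥ := idl_ne (by norm_num) hcq
  have hfin : FiniteDimensional (kk A B) (RF (idl (A := A) (B := B) 2)) := T.fin _ hbot
  have hgal : IsGalois (kk A B) (RF (idl (A := A) (B := B) 2)) := T.gal _ hbot
  obtain ⟨τ, hτ⟩ := exists_res hσ (RF (idl (A := A) (B := B) 2))
  have hmem : ∀ (n : ℕ), ∀ y ∈ RF (idl (A := A) (B := B) 2),
      (σ ^ n : ℂ ≃+* ℂ) y ∈ RF (idl (A := A) (B := B) 2) := by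
    intro n y hy
    have h := hτ n ⟨y, hy⟩
    rw [← h]
    exact Subtype.property _
  have htriv : ∀ n : ℕ, (∀ y ∈ RF (idl (A := A) (B := B) 2), (σ ^ n : ℂ ≃+* ℂ) y = y) ↔
      τ ^ n = 1 := by
    intro n
    constructor
    · intro h
      refine AlgEquiv.ext fun y => Subtype.ext ?_
      rw [hτ n y]
      exact h y y.2
    · intro h y hy
      have h4 := hτ n ⟨y, hy⟩
      rw [h] at h4
      exact h4.symm
  have hord : 0 < orderOf τ := orderOf_pos τ
  have hne : orderOf τ ≠ 1 := by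
    intro h
    apply hcon
    have h4 : τ ^ 1 = 1 := by
      rw [← h]
      exact pow_orderOf_eq_one τ
    have h5 := (htriv 1).2 h4
    rwa [pow_one] at h5
  set l := (orderOf τ).minFac with hl
  have hlp : l.Prime := Nat.minFac_prime hne
  obtain ⟨d, hd⟩ := Nat.minFac_dvd (orderOf τ)
  rw [← hl] at hd
  have hd0 : 0 < d := by
    rcases Nat.eq_zero_or_pos d with h | h
    · rw [h, mul_zero] at hd
      omega
    · exact h
  have hρl : ∀ y ∈ RF (idl (A := A) (B := B) 2), ((σ ^ d) ^ l : ℂ ≃+* ℂ) y = y := by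
    rw [← pow_mul, mul_comm d l, ← hd]
    exact (htriv _).2 (pow_orderOf_eq_one τ)
  have hρn : ¬ (∀ y ∈ RF (idl (A := A) (B := B) 2), (σ ^ d : ℂ ≃+* ℂ) y = y) := by
    intro h
    have h4 := orderOf_dvd_of_pow_eq_one ((htriv d).1 h)
    have h5 := Nat.le_of_dvd hd0 h4
    have h6 := hlp.two_le
    nlinarith
  have key := h1 p er A B P V hc T l hlp (σ ^ d) (fix_pow hσ d) (ini_pow hmem hI d) hρl hρn
  by_cases hl2 : l = 2
  · obtain ⟨z, hz⟩ := h2 A B hcq {2, 3, p} (-1) (by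
        have h := natCast_ne_zero' hcq (n := 1) one_ne_zero
        rw [Nat.cast_one] at h
        exact neg_ne_zero.2 h) (fun q hq hqS φ => by
      rw [Finset.mem_insert, Finset.mem_insert, Finset.mem_singleton] at hqS
      push Not at hqS
      obtain ⟨c, hcc | hcc⟩ := key q hq hqS.1 hqS.2.1 hqS.2.2
      · refine ⟨φ c, ?_⟩
        have h := phi_idl φ hcc.2
        rw [map_add, map_pow, map_one] at h
        rw [map_neg, map_one]
        linear_combination -h
      · exact absurd (hl2.symm.trans hcc.1) (by norm_num))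
    exact hn1 z hz.symm
  · by_cases hl3 : l = 3
    · obtain ⟨z, hz⟩ := h2 A B hcq {2, 3, p} (-3) (by
        have h := natCast_ne_zero' hcq (n := 3) (by norm_num)
        rw [Nat.cast_ofNat] at h
        exact neg_ne_zero.2 h) (fun q hq hqS φ => by
        rw [Finset.mem_insert, Finset.mem_insert, Finset.mem_singleton] at hqS
        push Not at hqS
        obtain ⟨c, hcc | hcc⟩ := key q hq hqS.1 hqS.2.1 hqS.2.2
        · exact absurd hcc.1 hl2
        · have e3 : φ (-3) = -3 := by rw [map_neg, map_ofNat]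
          rcases hcc.2 with h | h
          · refine ⟨2 * φ c + 1, ?_⟩
            have h' := phi_idl φ h
            rw [map_add, map_add, map_pow, map_one] at h'
            rw [e3]
            linear_combination -4 * h'
          · refine ⟨2 * φ c - 1, ?_⟩
            have h' := phi_idl φ h
            rw [map_add, map_sub, map_pow, map_one] at h'
            rw [e3]
            linear_combination -4 * h')
      exact hn3 z hz.symm
    · obtain ⟨q, hq1, hq2⟩ := Nat.exists_infinite_primes (p + 4)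
      obtain ⟨c, hcc | hcc⟩ := key q hq2 (by omega) (by omega) (by omega)
      · exact hl2 hcc.1
      · exact hl3 hcc.1

end

end Pool.Agent.OBR
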