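import Pool.Agent.OB.StR
import Pool.Agent.MUX.XLib

/-!
# OB, block GR, module INJ: points of level prime to `P` have integral coordinates (helper23)
-/

set_option autoImplicit false

open WeierstrassCurve Polynomial

namespace Pool.Agent.OBR

open _root_.MU3 Pool.Agent.MU3A Pool.Agent.MU3B Pool.Agent.RI Pool.Agent.MUX Pool.Agent.MUXU
open Pool.Agent.MUXV (GR InK tX)
open Pool.Agent.NS Pool.Agent.NSR Pool.Agent.OB

noncomputable section

namespace INJx

variable {p er : ℕ} {A B : ℤ} {P : Ideal (OO A B)} {V : ValuationSubring ℂ}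

lemma nm_unit (h : CaseO p er A B P V) {x : OO A B} (hx : x ∉ P) (hx' : star x ∉ P) :
    ∃ n : ℕ, nm x = (n : ℤ) ∧ V.valuation (n : ℂ) = 1 := by
  refine ⟨(nm x).toNat, (Int.toNat_of_nonneg (nm_nonneg h.cq x)).symm, h.vnat fun hd => ?_⟩
  obtain ⟨k, hk⟩ := hd
  have h1 : nm x = (p : ℤ) * k := by
    rw [← Int.toNat_of_nonneg (nm_nonneg h.cq x), hk]
    push_cast
    ring
  have h2 : x * star x ∈ P := by
    rw [mul_star, h1]
    have h3 : (((p : ℤ) * (k : ℤ) : ℤ) : OO A B) = (k : OO A B) * ((p : ℕ) : OO A B) := by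
      push_cast
      ring
    rw [h3]
    exact P.mul_mem_left _ h.mem
  rcases h.prime.mem_or_mem h2 with h3 | h3
  · exact hx h3
  · exact hx' h3

lemma v_y_le {L : PeriodPair} {u e lam : ℂ} (hG : GoodL V L u e lam) {z : ℂ}
    (hz : z ∉ L.lattice) (hX : V.valuation (xu L u e z) ≤ 1) :
    V.valuation (yu L u z) ≤ 1 := by
  have h1 : yu L u z ^ 2 = xu L u e z * (xu L u e z - 1) * (xu L u e z - lam) := hG.eq z hz
  have h2 : V.valuation (yu L u z) ^ 2 ≤ 1 := by
    rw [← map_pow, h1, map_mul, map_mul]
    refine mul_le_one' (mul_le_one' hX ?_) ?_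
    · exact (V.valuation.map_sub _ _).trans (max_le hX (by rw [map_one]))
    · exact (V.valuation.map_sub _ _).trans (max_le hX hG.vl.le)
  by_contra hc
  rw [not_le] at hc
  have h3 : 1 < V.valuation (yu L u z) ^ 2 := one_lt_pow₀ hc two_ne_zero
  exact absurd h2 (not_le.2 h3)

end INJx

open INJx in
theorem o_INJ (h1 : So_MLT) (h3 : Sr_TOR) : So_INJ := by
  intro p er A B P V h b L om hL u e lam hG m hm z hz ht
  obtain ⟨be, hbm, hbP⟩ : ∃ be ∈ m, be ∉ P := by
    by_contra hc
    push Not at hc
    exact hm hc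
  have hcq := h.cq
  have hcm := hL.hasCM hcq
  have hbe : emb be * z ∈ L.lattice := ht be hbm
  have hvbe : V.valuation (emb be) = 1 := h.vemb_one hbP
  have hX : V.valuation (xu L u e z) ≤ 1 := by
    by_cases hs : star be ∈ P
    · -- the conjugate is in `P`
      by_contra hc
      rw [not_le] at hc
      obtain ⟨t, htz, hvt, hst, htP⟩ : ∃ t : OO A B, emb t * z ∈ L.lattice ∧
          V.valuation (emb t) = 1 ∧ star t ∈ P ∧ 1 + (t + t) ∉ P := by
        by_cases h4 : 1 + (be + be) ∈ P
        · refine ⟨-be, ?_, ?_, ?_, fun h5 => ?_⟩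
          · rw [emb_neg hcq, neg_mul]
            exact neg_mem hbe
          · rw [emb_neg hcq, Valuation.map_neg]
            exact hvbe
          · rw [star_neg]
            exact P.neg_mem hs
          · have h6 := P.add_mem h4 h5
            have h7 : (1 + (be + be)) + (1 + (-be + -be)) = ((2 : ℕ) : OO A B) := by
              push_cast
              ring
            rw [h7] at h6
            exact h.two h6
        · exact ⟨be, hbe, hvbe, hs, h4⟩
      have hst' : star (1 + (t + t)) ∉ P := by
        intro h5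
        rw [star_add, star_add, star_one] at h5
        have h6 := P.sub_mem h5 (P.add_mem hst hst)
        rw [add_sub_cancel_right] at h6
        exact h.prime.ne_top ((Ideal.eq_top_iff_one _).2 h6)
      obtain ⟨n, hn, hvn⟩ := nm_unit h htP hst'
      have hodd : Odd n := by
        have h5 : (n : ℤ) = 2 * (2 * t.re + 2 * t.re ^ 2 + B * t.im * (1 + 2 * t.re) -
            2 * A * t.im ^ 2) + 1 := by
          rw [← hn]
          simp only [nm, QuadraticAlgebra.re_add, QuadraticAlgebra.im_add,
            QuadraticAlgebra.re_one, QuadraticAlgebra.im_one]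
          ring
        have h6 : Odd (n : ℤ) := ⟨_, h5⟩
        exact_mod_cast h6
      obtain ⟨-, -, h8⟩ := h1 A B V hcq h.v2 b L om hL u e lam hG _ n hn hodd hvn z hz hc
      have hw : emb t * z + emb t * z ∈ L.lattice := add_mem htz htz
      have h9 : emb (1 + (t + t)) * z = z + (emb t * z + emb t * z) := by
        rw [emb_add hcq, emb_add hcq, emb_one hcq]
        ring
      have hx9 : xu L u e (emb (1 + (t + t)) * z) = xu L u e z := by
        rw [h9]
        unfold xu
        rw [L.weierstrassP_add_coe z ⟨_, hw⟩]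
      have hy9 : yu L u (emb (1 + (t + t)) * z) = yu L u z := by
        rw [h9]
        unfold yu
        rw [L.derivWeierstrassP_add_coe z ⟨_, hw⟩]
      have h10 : tX (xu L u e) (yu L u) (emb (1 + (t + t)) * z) =
          tX (xu L u e) (yu L u) z := by
        unfold tX
        rw [hx9, hy9]
      rw [h10] at h8
      have h11 : tX (xu L u e) (yu L u) z - emb (1 + (t + t)) * tX (xu L u e) (yu L u) z =
          -(2 * emb t * tX (xu L u e) (yu L u) z) := by
        rw [emb_add hcq, emb_add hcq, emb_one hcq]
        ring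
      rw [h11, Valuation.map_neg, map_mul, map_mul, h.v2, hvt, one_mul, one_mul] at h8
      exact lt_irrefl _ h8
    · obtain ⟨n, hn, hvn⟩ := nm_unit h hbP hs
      have h5 : (n : ℂ) * z ∈ L.lattice := by
        have h6 : (n : ℂ) = emb (star be) * emb be := by
          rw [← emb_mul hcq, mul_comm, mul_star, hn, emb_intCast hcq]
          push_cast
          rfl
        rw [h6, mul_assoc]
        exact hcm _ _ hbe
      exact (h3 V L u e lam h.v2 hG.vl.le hG.leg n hvn z hz h5).1
  exact ⟨hX, v_y_le hG hz hX⟩

end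

end Pool.Agent.OBR
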