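import Pool.Agent.OB.StR
import Pool.Agent.MUX.VX

/-!
# OB, block GR (helper70): `So_INX`, reduction is injective on points of level prime to `P`, up to sign
-/

set_option autoImplicit false

open WeierstrassCurve Polynomial

namespace Pool.Agent.OBR

open _root_.MU3 Pool.Agent.MU3A Pool.Agent.MU3B Pool.Agent.RI Pool.Agent.MUX Pool.Agent.MUXU
open Pool.Agent.MUXV (GR InK tX)
open Pool.Agent.NS Pool.Agent.NSR Pool.Agent.OB

noncomputable section

theorem o_INX (h1 : So_GRL) (h2 : So_INJ) : So_INX := by
  intro p er A B P V hC b L om hL u e lam hG m hm z z' hz hz' hT hT' hlt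
  obtain ⟨ξ, G, -⟩ := h1 V L u e lam hC.v2 hG
  have nK : ∀ w : ℂ, w ∉ L.lattice → Tor m L w → ¬ InK V L (xu L u e) w := by
    intro w hw hTw h
    rcases h with h | h
    · exact hw h
    · exact h ((ValuationSubring.valuation_le_one_iff _ _).1
        (h2 p er A B P V hC b L om hL u e lam hG m hm w hw hTw).1)
  have hTa : Tor m L (z + z') := by
    intro x hx
    rw [mul_add]
    exact add_mem (hT x hx) (hT' x hx)
  have hTs : Tor m L (z - z') := by
    intro x hx
    rw [mul_sub]
    exact sub_mem (hT x hx) (hT' x hx)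
  by_contra hcon
  rw [not_or] at hcon
  exact absurd (Pool.Agent.MUXV.v_X_sub G (nK z hz hT) (nK z' hz' hT') (nK _ hcon.2 hTa)
    (nK _ hcon.1 hTs)) hlt.ne

end

end Pool.Agent.OBR
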