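import Pool.Agent.OB.StR

/-!
# OB, block GR, module IS2: far points of isogenous lattices, degree two (helper44)
-/

set_option autoImplicit false

open WeierstrassCurve Polynomial

namespace Pool.Agent.OBR

open _root_.MU3 Pool.Agent.MU3A Pool.Agent.MU3B Pool.Agent.RI Pool.Agent.MUX Pool.Agent.MUXU
open Pool.Agent.MUXV (GR InK tX)
open Pool.Agent.NS Pool.Agent.NSR Pool.Agent.OB

noncomputable section

namespace IS2x

/-- periodicity -/
lemma wp_congr (L : PeriodPair) {z w : ℂ} (h : z - w ∈ L.lattice) :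
    L.weierstrassP z = L.weierstrassP w := by
  have h1 := L.weierstrassP_add_coe w ⟨z - w, h⟩
  have h2 : w + ((⟨z - w, h⟩ : L.lattice) : ℂ) = z := by
    show w + (z - w) = z
    ring
  rw [h2] at h1
  exact h1

lemma sub_swap' {L : PeriodPair} {x y : ℂ} (h : x - y ∈ L.lattice) : y - x ∈ L.lattice := by
  have := neg_mem h
  rwa [neg_sub] at this

lemma sub_trans' {L : PeriodPair} {x y z : ℂ} (h : x - y ∈ L.lattice) (h' : y - z ∈ L.lattice) :
    x - z ∈ L.lattice := by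
  have := add_mem h h'
  rwa [sub_add_sub_cancel] at this

lemma exists_two3 (h1 : So_TW3) (L : PeriodPair) {T : ℂ} (hT : T ∉ L.lattice)
    (h2T : 2 * T ∈ L.lattice) : ∃ x y, Two3 L T x y := by
  obtain ⟨⟨a₁, a₂, a₃, ha⟩, hb, -⟩ := h1 L
  by_cases hc : a₁ - T ∈ L.lattice
  · refine ⟨a₂, T + a₂, hb T a₂ hT h2T ha.n₂ ha.t₂ fun hk => ha.d₁₂ ?_⟩
    exact sub_trans' hc hk
  · refine ⟨a₁, T + a₁, hb T a₁ hT h2T ha.n₁ ha.t₁ fun hk => hc ?_⟩
    exact sub_swap' hk

section
variable {V : ValuationSubring ℂ}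

lemma v4 (h2 : V.valuation (2 : ℂ) = 1) : V.valuation (4 : ℂ) = 1 := by
  have h3 : (4 : ℂ) = 2 * 2 := by norm_num
  rw [h3, map_mul, h2, one_mul]

/-- the two factors of `a² - b²` -/
lemma factors (h2 : V.valuation (2 : ℂ) = 1) {a b : ℂ} {d : V.ValueGroup}
    (ha : a ≠ 0) (hab : V.valuation a = V.valuation b)
    (h : V.valuation (a - b) * V.valuation (a + b) = d * V.valuation a ^ 2) :
    (V.valuation (a - b) = d * V.valuation a ∧ V.valuation (a + b) = V.valuation a) ∨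
    (V.valuation (a + b) = d * V.valuation a ∧ V.valuation (a - b) = V.valuation a) := by
  have h0 : V.valuation a ≠ 0 := (V.valuation.ne_zero_iff).2 ha
  have l1 : V.valuation (a - b) ≤ V.valuation a := by
    refine (V.valuation.map_sub _ _).trans (max_le le_rfl ?_)
    rw [hab]
  have l2 : V.valuation (a + b) ≤ V.valuation a := by
    refine (V.valuation.map_add _ _).trans (max_le le_rfl ?_)
    rw [hab]
  have l3 : V.valuation a ≤ max (V.valuation (a + b)) (V.valuation (a - b)) := by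
    have h3 : V.valuation ((a + b) - (a - b)) = V.valuation a := by
      have h4 : (a + b) - (a - b) = 2 * b := by ring
      rw [h4, map_mul, h2, one_mul, hab]
    rw [← h3]
    exact V.valuation.map_sub _ _
  rcases le_max_iff.1 l3 with k | k
  · left
    have h5 := le_antisymm l2 k
    refine ⟨?_, h5⟩
    rw [h5, pow_two, ← mul_assoc] at h
    exact mul_right_cancel₀ h0 h
  · right
    have h5 := le_antisymm l1 k
    refine ⟨?_, h5⟩
    rw [h5, mul_comm, pow_two, ← mul_assoc] at h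
    exact mul_right_cancel₀ h0 h

end

/-- the first case: `w` is congruent to `T` -/
lemma case1 (h1 : So_TW3) (h2 : So_FRC) (h3 : So_FRU) (h4 : So_ISV)
    (V : ValuationSubring ℂ) (L M : PeriodPair) (w T : ℂ) (d : V.ValueGroup)
    (hv : V.valuation (2 : ℂ) = 1) (hF : Far V L w d) (hT : T ∉ L.lattice)
    (h2T : 2 * T ∈ L.lattice)
    (hM : ∀ z, z ∈ M.lattice ↔ z ∈ L.lattice ∨ z - T ∈ L.lattice) (hw : w - T ∈ L.lattice) :
    (∃ w', Far V M w' (d ^ 2)) ∧ ∀ w' d', Far V M w' d' →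
      ∀ t, t ∉ L.lattice → 2 * t ∈ L.lattice → t - T ∉ L.lattice → t - w' ∉ M.lattice := by
  obtain ⟨w₁, w₂, hT3⟩ := exists_two3 h1 L hT h2T
  have hw3 : Two3 L w w₁ w₂ :=
    ⟨hF.ne, hT3.n₂, hT3.n₃, hF.two, hT3.t₂, hT3.t₃,
      fun k => hT3.d₁₂ (sub_trans' (sub_swap' hw) k),
      fun k => hT3.d₁₃ (sub_trans' (sub_swap' hw) k), hT3.d₂₃⟩
  have e1 := hF.dist _ _ hw3
  have e2 := hF.dist _ _ hw3.swap
  rw [Valuation.map_sub_swap, e1] at e2
  have e3 := mul_left_cancel₀ hF.d0 e2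
  obtain ⟨m12, y₀, y₁, a, b, hY, qa, qb, r0, r1, r2⟩ := h4 L M T w₁ w₂ hT3 hM
  have hPT : L.weierstrassP w = L.weierstrassP T := wp_congr L hw
  rw [hPT] at e1 e3
  have va : V.valuation a ^ 2 = V.valuation (L.weierstrassP T - L.weierstrassP w₁) := by
    rw [← map_pow, qa, Valuation.map_sub_swap]
  have vb : V.valuation b ^ 2 = V.valuation (L.weierstrassP T - L.weierstrassP w₂) := by
    rw [← map_pow, qb, Valuation.map_sub_swap]
  have hab : V.valuation a = V.valuation b := by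
    have h5 : V.valuation a ^ 2 = V.valuation b ^ 2 := by rw [va, vb, e3]
    exact (pow_left_inj₀ zero_le zero_le two_ne_zero).1 h5
  have ha0 : a ≠ 0 := by
    rintro rfl
    obtain ⟨-, -, -, k1, -, -⟩ := (h1 L).2.2 T w₁ w₂ hT3
    apply k1
    have h6 : L.weierstrassP w₁ - L.weierstrassP T = 0 := by
      rw [← qa]
      ring
    exact (sub_eq_zero.1 h6).symm
  have hprod : V.valuation (a - b) * V.valuation (a + b) = d * V.valuation a ^ 2 := by
    rw [va, ← e1, ← map_mul]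
    have h7 : (a - b) * (a + b) = L.weierstrassP w₁ - L.weierstrassP w₂ := by
      linear_combination qa - qb
    rw [h7]
  have h40 : V.valuation (4 * (a * b)) = V.valuation a ^ 2 := by
    rw [map_mul, map_mul, v4 hv, one_mul, ← hab, pow_two]
  have hd2 : d ^ 2 ≠ 0 := pow_ne_zero 2 hF.d0
  have hd1 : d ^ 2 < 1 := pow_lt_one₀ zero_le hF.lt two_ne_zero
  have key : ∃ y, Far V M y (d ^ 2) ∧ w₁ - y ∉ M.lattice := by
    rcases factors hv ha0 hab hprod with ⟨f1, f2⟩ | ⟨f1, f2⟩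
    · refine ⟨y₁, h2 V M y₁ w₁ y₀ (d ^ 2) hY.rot.rot hd2 hd1 ?_ ?_, hY.d₁₃⟩
      · rw [Valuation.map_sub_swap, r1, map_pow, f2,
          Valuation.map_sub_swap V.valuation (M.weierstrassP y₁), r2, h40]
      · rw [r0, map_pow, f1, Valuation.map_sub_swap V.valuation (M.weierstrassP y₁), r1, map_pow,
          f2, mul_pow]
    · refine ⟨y₀, h2 V M y₀ w₁ y₁ (d ^ 2) hY.rot.swap hd2 hd1 ?_ ?_, hY.d₁₂⟩
      · rw [Valuation.map_sub_swap, r0, map_pow, f2, r2, h40]
      · rw [r1, map_pow, f1, Valuation.map_sub_swap V.valuation (M.weierstrassP y₀), r0, map_pow,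
          f2, mul_pow]
  obtain ⟨y, hy, hwy⟩ := key
  refine ⟨⟨y, hy⟩, ?_⟩
  intro w' d' hF' t ht h2t htT hk
  obtain ⟨g1, -⟩ := (h3 V M y (d ^ 2) hy).1 w' d' hF'
  obtain ⟨-, g2, -⟩ := (h1 L).2.2 T w₁ w₂ hT3
  have g3 : t - w₁ ∈ M.lattice := by
    rcases g2 t ht h2t with k | k | k
    · exact absurd k htT
    · exact (hM _).2 (Or.inl k)
    · exact sub_trans' ((hM _).2 (Or.inl k)) (sub_swap' m12)
  exact hwy (sub_trans' (sub_swap' g3) (sub_trans' hk g1))

/-- the second case: `w` is not congruent to `T` -/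
lemma case2 (h1 : So_TW3) (h2 : So_FRC) (h4 : So_ISV)
    (V : ValuationSubring ℂ) (L M : PeriodPair) (w T : ℂ) (d : V.ValueGroup)
    (hv : V.valuation (2 : ℂ) = 1) (hF : Far V L w d) (hT : T ∉ L.lattice)
    (h2T : 2 * T ∈ L.lattice)
    (hM : ∀ z, z ∈ M.lattice ↔ z ∈ L.lattice ∨ z - T ∈ L.lattice) (hw : w - T ∉ L.lattice) :
    ∃ d', d' ^ 2 = d ∧ Far V M w d' := by
  have hT3 : Two3 L T w (T + w) :=
    (h1 L).2.1 T w hT h2T hF.ne hF.two fun k => hw (sub_swap' k)
  obtain ⟨-, -, -, k1, -, -⟩ := (h1 L).2.2 T w (T + w) hT3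
  obtain ⟨-, y₀, y₁, a, b, hY, qa, qb, r0, r1, r2⟩ := h4 L M T w (T + w) hT3 hM
  have hw3 : Two3 L w T (T + w) := hT3.rot.swap
  have e1 := hF.dist _ _ hw3
  have ha0 : a ≠ 0 := by
    rintro rfl
    apply k1
    have h6 : L.weierstrassP w - L.weierstrassP T = 0 := by
      rw [← qa]
      ring
    exact (sub_eq_zero.1 h6).symm
  have hva : V.valuation a ≠ 0 := (V.valuation.ne_zero_iff).2 ha0
  have hb2 : V.valuation b ^ 2 = d * V.valuation a ^ 2 := by
    rw [← map_pow, ← map_pow, qb, qa, Valuation.map_sub_swap, e1]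
  have hdd : (V.valuation b / V.valuation a) ^ 2 = d := by
    rw [div_pow, hb2, mul_div_assoc, div_self (pow_ne_zero 2 hva), mul_one]
  have hd0 : V.valuation b / V.valuation a ≠ 0 := by
    intro h
    rw [h, zero_pow two_ne_zero] at hdd
    exact hF.d0 hdd.symm
  have hd1 : V.valuation b / V.valuation a < 1 := by
    by_contra h
    rw [not_lt] at h
    have h7 : 1 ≤ d := by
      rw [← hdd]
      exact one_le_pow₀ h
    exact absurd hF.lt (not_lt.2 h7)
  have hlt : V.valuation b < V.valuation a := by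
    rwa [div_lt_one₀ (zero_lt_iff.2 hva)] at hd1
  have s1 : V.valuation (a - b) = V.valuation a := V.valuation.map_sub_eq_of_lt_left hlt
  have s2 : V.valuation (a + b) = V.valuation a := V.valuation.map_add_eq_of_lt_left hlt
  refine ⟨_, hdd, h2 V M w y₀ y₁ _ hY hd0 hd1 ?_ ?_⟩
  · rw [r0, r1, map_pow, map_pow, s1, s2]
  · rw [r2, r0, map_mul, map_mul, v4 hv, one_mul, map_pow, s1, pow_two, ← mul_assoc,
      div_mul_cancel₀ _ hva, mul_comm]

end IS2x

theorem o_IS2 (h1 : So_TW3) (h2 : So_FRC) (h3 : So_FRU) (h4 : So_ISV) : So_IS2 := by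
  intro V L M w T d hv hF hT h2T hM
  exact ⟨fun hw => IS2x.case1 h1 h2 h3 h4 V L M w T d hv hF hT h2T hM hw,
    fun hw => IS2x.case2 h1 h2 h4 V L M w T d hv hF hT h2T hM hw⟩

end

end Pool.Agent.OBR
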