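import Pool.Agent.OB.StR
import Pool.Agent.MUX.U_ISO
import Pool.Agent.MUX.U_PFI
import Pool.Agent.MU3.BAll
import Pool.Agent.MU3.A_TW2

/-!
# OB, block GR, module ISV: the values at the points of order two of `M = L + ℤ T` (helper47)
-/

set_option autoImplicit false

open WeierstrassCurve Polynomial

namespace Pool.Agent.OBR

open _root_.MU3 Pool.Agent.MU3A Pool.Agent.MU3B Pool.Agent.RI Pool.Agent.MUX Pool.Agent.MUXU

noncomputable section

namespace ISVx

/-- `℘` is even and periodic -/
lemma wp_congr (L : PeriodPair) (z w : ℂ) (h : z + w ∈ L.lattice) :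
    L.weierstrassP z = L.weierstrassP w := by
  have e : z = -w + ((⟨z + w, h⟩ : L.lattice) : ℂ) := by
    show z = -w + (z + w)
    ring
  rw [e, PeriodPair.weierstrassP_add_coe, PeriodPair.weierstrassP_neg]

variable {L M : PeriodPair} {T w₁ w₂ : ℂ}

/-- multiplication by two -/
lemma two_mem {z : ℂ} (h : z ∈ L.lattice) : 2 * z ∈ L.lattice := by
  rw [two_mul]
  exact add_mem h h

/-- the product formula of the isogeny `ℂ / L → ℂ / M` -/
lemma pfi (hT : Two3 L T w₁ w₂) (hM : ∀ z, z ∈ M.lattice ↔ z ∈ L.lattice ∨ z - T ∈ L.lattice)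
    {w z : ℂ} (hw : w ∉ M.lattice) (hz : z ∉ M.lattice) :
    (M.weierstrassP z - M.weierstrassP w) * (L.weierstrassP z - L.weierstrassP T) =
      (L.weierstrassP z - L.weierstrassP w) * (L.weierstrassP z - L.weierstrassP (w + T)) := by
  have hper : ∀ z, (1 : ℂ) * z ∈ M.lattice ↔ z ∈ L.lattice ∨ z - T ∈ L.lattice := by
    intro z
    rw [one_mul]
    exact hM z
  have hIsg : Isg L M 1 := fun v hv => (hper v).mpr (Or.inl hv)
  have hRp : IsRpM L M 1 {T} := by
    constructor
    · intro q hq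
      rw [Finset.mem_singleton] at hq
      rw [hq]
      refine (hper T).mpr (Or.inr ?_)
      rw [sub_self]
      exact zero_mem _
    · intro q hq
      rw [Finset.mem_singleton] at hq
      rw [hq]
      exact hT.n₁
    · intro q hq q' hq' _
      rw [Finset.mem_singleton] at hq hq'
      rw [hq, hq']
    · intro z hz hzL
      rcases (hper z).mp hz with h | h
      · exact absurd h hzL
      · exact ⟨T, Finset.mem_singleton_self T, h⟩
  have h := tu_PFI tu_ISO L M 1 {T} one_ne_zero hIsg hRp w (by rw [one_mul]; exact hw) z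
    (by rw [one_mul]; exact hz)
  rw [Finset.prod_singleton, Finset.prod_singleton, one_mul, one_mul, one_pow, one_mul] at h
  exact h

end ISVx

open ISVx in
theorem o_ISV (h : So_TW3) : So_ISV := by
  intro L M T w₁ w₂ hT hM
  obtain ⟨hs, -, -, hne1, hne2, -⟩ := (h L).2.2 T w₁ w₂ hT
  have hTw : T + w₁ ∉ L.lattice := fun k => hT.n₃ (by
    have := sub_mem hs k
    rwa [add_sub_cancel_left] at this)
  -- a multiple argument: from `u ∈ L` with `2 u ≡ T` we get `T ∈ L`
  have hhalf : ∀ u : ℂ, T - 2 * u ∈ L.lattice → u ∉ L.lattice := fun u hu k => hT.n₁ (by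
    have := add_mem hu (two_mem k)
    rwa [sub_add_cancel] at this)
  have hT2 := hT.t₁
  have hw2 := hT.t₂
  have two : Two3 M w₁ (T / 2) (T / 2 + w₁) := by
    refine ⟨?_, ?_, ?_, ?_, ?_, ?_, ?_, ?_, ?_⟩
    · rw [hM]
      rintro (k | k)
      · exact hT.n₂ k
      · exact hT.d₁₂ (by
          have := neg_mem k
          rwa [neg_sub] at this)
    · rw [hM]
      rintro (k | k)
      · exact hhalf _ (by
          have e : T - 2 * (T / 2) = 0 := by ring
          rw [e]; exact zero_mem _) k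
      · exact hhalf _ (by
          have e : T - 2 * (T / 2 - T) = 2 * T := by ring
          rw [e]; exact hT2) k
    · rw [hM]
      rintro (k | k)
      · exact hhalf _ (by
          have e : T - 2 * (T / 2 + w₁) = -(2 * w₁) := by ring
          rw [e]; exact neg_mem hw2) k
      · exact hhalf _ (by
          have e : T - 2 * (T / 2 + w₁ - T) = 2 * T - 2 * w₁ := by ring
          rw [e]; exact sub_mem hT2 hw2) k
    · exact (hM _).2 (Or.inl hw2)
    · refine (hM _).2 (Or.inr ?_)
      have e : 2 * (T / 2) - T = 0 := by ring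
      rw [e]; exact zero_mem _
    · refine (hM _).2 (Or.inr ?_)
      have e : 2 * (T / 2 + w₁) - T = 2 * w₁ := by ring
      rw [e]; exact hw2
    · rw [hM]
      rintro (k | k)
      · exact hhalf _ (by
          have e : T - 2 * (w₁ - T / 2) = 2 * T - 2 * w₁ := by ring
          rw [e]; exact sub_mem hT2 hw2) k
      · exact hhalf _ (by
          have e : T - 2 * (w₁ - T / 2 - T) = 2 * T + 2 * T - 2 * w₁ := by ring
          rw [e]; exact sub_mem (add_mem hT2 hT2) hw2) k
    · rw [hM]
      rintro (k | k)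
      · exact hhalf _ (by
          have e : T - 2 * (w₁ - (T / 2 + w₁)) = 2 * T := by ring
          rw [e]; exact hT2) k
      · exact hhalf _ (by
          have e : T - 2 * (w₁ - (T / 2 + w₁) - T) = 2 * T + 2 * T := by ring
          rw [e]; exact add_mem hT2 hT2) k
    · rw [hM]
      rintro (k | k)
      · exact hT.n₂ (by
          have := neg_mem k
          have e : -(T / 2 - (T / 2 + w₁)) = w₁ := by ring
          rwa [e] at this)
      · exact hTw (by
          have := neg_mem k
          have e : -(T / 2 - (T / 2 + w₁) - T) = T + w₁ := by ring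
          rwa [e] at this)
  have tw := (ta_TW2 b_ADD b_ZER b_NEQ L T hT.n₁ hT.t₁).2
  have hML : ∀ z, z ∉ M.lattice → z ∉ L.lattice ∧ z + T ∉ L.lattice := fun z hz =>
    ⟨fun k => hz ((hM z).2 (Or.inl k)), fun k => hz ((hM z).2 (Or.inr (by
      have := sub_mem k hT2
      have e : z + T - 2 * T = z - T := by ring
      rwa [e] at this)))⟩
  have k1 := tw w₁ (hML _ two.n₁).1 (hML _ two.n₁).2
  have k2 := tw (T / 2) (hML _ two.n₂).1 (hML _ two.n₂).2
  have k3 := tw (T / 2 + w₁) (hML _ two.n₃).1 (hML _ two.n₃).2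
  have e1 : L.weierstrassP (w₁ + T) = L.weierstrassP w₂ := wp_congr L _ _ (by
    have e : w₁ + T + w₂ = T + w₁ + w₂ := by ring
    rw [e]; exact hs)
  have e2 : L.weierstrassP (T / 2 + T) = L.weierstrassP (T / 2) := wp_congr L _ _ (by
    have e : T / 2 + T + T / 2 = 2 * T := by ring
    rw [e]; exact hT2)
  have e3 : L.weierstrassP (T / 2 + w₁ + T) = L.weierstrassP (T / 2 + w₁) := wp_congr L _ _ (by
    have e : T / 2 + w₁ + T + (T / 2 + w₁) = 2 * T + 2 * w₁ := by ring
    rw [e]; exact add_mem hT2 hw2)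
  have m2 := pfi hT hM two.n₂ two.n₁
  have m3 := pfi hT hM two.n₃ two.n₁
  rw [e1] at k1
  rw [e2] at k2 m2
  rw [e3] at k3 m3
  set t : ℂ := L.weierstrassP T with ht
  set x₁ : ℂ := L.weierstrassP w₁ with hx1
  set x₂ : ℂ := L.weierstrassP w₂ with hx2
  set u₀ : ℂ := L.weierstrassP (T / 2) with hu0
  set u₁ : ℂ := L.weierstrassP (T / 2 + w₁) with hu1
  have hx1n : x₁ - t ≠ 0 := sub_ne_zero.2 hne1.symm
  have hd : u₁ - u₀ ≠ 0 := by
    intro k
    rcases b_NEQ L (T / 2) (T / 2 + w₁) (hML _ two.n₂).1 (hML _ two.n₃).1 (sub_eq_zero.1 k) with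
      h' | h'
    · rw [add_sub_cancel_left] at h'
      exact hT.n₂ h'
    · have e : T / 2 + w₁ + T / 2 = T + w₁ := by ring
      rw [e] at h'
      exact hTw h'
  have hsum : (u₁ - t) + (u₀ - t) = 0 := by
    apply mul_left_cancel₀ hd
    linear_combination k3 - k2
  have hu1 : u₁ - t = -(u₀ - t) := by linear_combination hsum
  obtain ⟨a, ha⟩ := IsAlgClosed.exists_pow_nat_eq (x₁ - t) (n := 2) (by norm_num)
  have ha0 : a ≠ 0 := by
    rintro rfl
    apply hx1n
    rw [← ha]
    ring
  have r2 : M.weierstrassP w₁ - M.weierstrassP (T / 2) = (a - (u₀ - t) / a) ^ 2 := by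
    apply mul_right_cancel₀ hx1n
    rw [m2]
    have : (a - (u₀ - t) / a) ^ 2 * (x₁ - t) = (a ^ 2 - (u₀ - t)) ^ 2 := by
      rw [← ha]
      field_simp
    rw [this, ha]
    ring
  have r3 : M.weierstrassP w₁ - M.weierstrassP (T / 2 + w₁) = (a + (u₀ - t) / a) ^ 2 := by
    apply mul_right_cancel₀ hx1n
    rw [m3]
    have : (a + (u₀ - t) / a) ^ 2 * (x₁ - t) = (a ^ 2 + (u₀ - t)) ^ 2 := by
      rw [← ha]
      field_simp
    rw [this, ha]
    have e : x₁ - u₁ = x₁ - t + (u₀ - t) := by linear_combination -hu1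
    rw [e]
    ring
  refine ⟨?_, T / 2, T / 2 + w₁, a, (u₀ - t) / a, two, ha, ?_, r2, r3, ?_⟩
  · refine (hM _).2 (Or.inr ?_)
    have e : w₁ - w₂ - T = 2 * w₁ - (T + w₁ + w₂) := by ring
    rw [e]
    exact sub_mem hw2 hs
  · rw [div_pow, div_eq_iff (pow_ne_zero 2 ha0), ha]
    linear_combination k2 - k1
  · linear_combination r3 - r2

end

end Pool.Agent.OBR
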