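import Pool.Agent.OB.StR

/-!
# OB, block GR: KUA (helper28)
-/

set_option autoImplicit false

namespace Pool.Agent.OBR

open _root_.MU3 Pool.Agent.MU3A Pool.Agent.MU3B Pool.Agent.RI Pool.Agent.MUX Pool.Agent.MUXU

namespace KUAx

/-- a prime of `𝓞 L` whose norm is a prime number `q` is the kernel of a homomorphism onto `ZMod q` -/
theorem quot (L : Type) [Field L] [NumberField L]
    (v : IsDedekindDomain.HeightOneSpectrum (NumberField.RingOfIntegers L))
    (hv : (Ideal.absNorm v.asIdeal).Prime) :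
    ∃ f : NumberField.RingOfIntegers L →+* ZMod (Ideal.absNorm v.asIdeal),
      Function.Surjective f ∧ ∀ z, f z = 0 ↔ z ∈ v.asIdeal := by
  have hc : Nat.card (NumberField.RingOfIntegers L ⧸ v.asIdeal) = Ideal.absNorm v.asIdeal := by
    rw [Ideal.absNorm_apply, Submodule.cardQuot_apply]
  have hfin : Finite (NumberField.RingOfIntegers L ⧸ v.asIdeal) :=
    Nat.finite_of_card_ne_zero (by rw [hc]; exact hv.ne_zero)
  have : Fintype (NumberField.RingOfIntegers L ⧸ v.asIdeal) := Fintype.ofFinite _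
  have hc' : Fintype.card (NumberField.RingOfIntegers L ⧸ v.asIdeal) =
      Ideal.absNorm v.asIdeal := by
    rw [← Nat.card_eq_fintype_card, hc]
  let e := ZMod.ringEquivOfPrime (NumberField.RingOfIntegers L ⧸ v.asIdeal) hv hc'
  refine ⟨(e.symm : _ →+* _).comp (Ideal.Quotient.mk v.asIdeal), ?_, fun z => ?_⟩
  · exact e.symm.surjective.comp Ideal.Quotient.mk_surjective
  · rw [RingHom.comp_apply, RingHom.coe_coe, map_eq_zero_iff _ e.symm.injective,
      Ideal.Quotient.eq_zero_iff_mem]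

end KUAx

/-- (KUA) -/
theorem o_KUA (h1 : So_KUM) : So_KUA := by
  intro A B l _ L _ _ ζ j al hζ h0 S h
  refine h1 l L ζ (j al) hζ h0 S fun v hv hvS => ?_
  obtain ⟨f, hf, hk⟩ := KUAx.quot L v hv
  have main : ∀ a : NumberField.RingOfIntegers L, f (j al) = f a ^ l →
      ∃ a : NumberField.RingOfIntegers L, j al - a ^ l ∈ v.asIdeal := fun a ha =>
    ⟨a, (hk _).1 (by rw [map_sub, map_pow, ha, sub_self])⟩
  rcases h with h | ⟨⟨i, hi⟩, h⟩
  · obtain ⟨x, hx⟩ := h _ hv hvS (f.comp j)
    obtain ⟨a, rfl⟩ := hf x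
    exact main a hx
  · obtain ⟨x, hx⟩ := h _ hv hvS (f.comp j)
    obtain ⟨a, rfl⟩ := hf x
    rcases hx with hx | hx
    · exact main a hx
    · refine main (i * a) ?_
      rw [map_mul, mul_pow, ← map_pow f i, hi, map_neg, map_one, neg_one_mul]
      exact hx

end Pool.Agent.OBR
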