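import Pool.Agent.OB.StR
import Pool.Agent.MUX.E_RNG

/-!
# OB, block GR, module KUB: squares in `O`
-/

set_option autoImplicit false

open WeierstrassCurve Polynomial NumberField

namespace Pool.Agent.OBR

open _root_.MU3 Pool.Agent.MU3A Pool.Agent.MU3B Pool.Agent.RI Pool.Agent.MUX Pool.Agent.MUXU
open Pool.Agent.NS Pool.Agent.NSR Pool.Agent.OB

noncomputable section

/-- KUB. -/
theorem o_KUB (h1 : So_KUA) : So_KUB := by
  intro A B hCQ S al hal hq
  obtain ⟨⟨φ, hφ⟩, hinj, hded, hpos, hint⟩ := Pool.Agent.MUXE.te_RNG A B hCQ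
  have hw0 : IsIntegral ℤ (wC A B) := by
    rw [hint _ (wC_mem A B)]
    exact ⟨⟨0, 1⟩, by simp [emb]⟩
  have hfd : FiniteDimensional ℚ (kk A B) :=
    IntermediateField.adjoin.finiteDimensional hw0.tower_top
  have hk : NumberField (kk A B) := ⟨⟩
  have hIn : ∀ x : OO A B, IsIntegral ℤ (ek x) := by
    intro x
    have h2 : IsIntegral ℤ (emb x) := (hint (emb x) (MU3A.emb_mem x)).mpr ⟨x, rfl⟩
    have h3 : algebraMap (kk A B) ℂ (ek x) = emb x := rfl
    rw [← h3] at h2
    exact (isIntegral_algebraMap_iff (FaithfulSMul.algebraMap_injective (kk A B) ℂ)).mp h2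
  let j : OO A B →+* 𝓞 (kk A B) :=
    { toFun := fun x => ⟨ek x, hIn x⟩
      map_one' := by
        apply RingOfIntegers.ext
        apply Subtype.ext
        change emb 1 = 1
        rw [← hφ, map_one]
      map_mul' := by
        intro a b
        apply RingOfIntegers.ext
        apply Subtype.ext
        change emb (a * b) = emb a * emb b
        rw [← hφ, ← hφ, ← hφ, map_mul]
      map_zero' := by
        apply RingOfIntegers.ext
        apply Subtype.ext
        change emb 0 = 0
        rw [← hφ, map_zero]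
      map_add' := by
        intro a b
        apply RingOfIntegers.ext
        apply Subtype.ext
        change emb (a + b) = emb a + emb b
        rw [← hφ, ← hφ, ← hφ, map_add] }
  have hj : ∀ x, (((j x : 𝓞 (kk A B)) : kk A B) : ℂ) = emb x := fun x => rfl
  have hjal : j al ≠ 0 := by
    intro h0
    apply hal
    apply hinj
    rw [← hj, h0]
    rfl
  have : Fact (Nat.Prime 2) := ⟨Nat.prime_two⟩
  obtain ⟨y, hy⟩ := h1 A B 2 (kk A B) (-1) j al (IsPrimitiveRoot.neg_one 0 (by norm_num)) hjal S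
    (Or.inl hq)
  have hy2 : (y : ℂ) ^ 2 = emb al := by
    rw [← hj, ← hy]
    rfl
  have hyi : IsIntegral ℤ (y : ℂ) := by
    apply IsIntegral.of_pow (n := 2) (by norm_num)
    rw [hy2]
    exact (hint (emb al) (MU3A.emb_mem al)).mpr ⟨al, rfl⟩
  obtain ⟨z, hz⟩ := (hint _ y.2).mp hyi
  refine ⟨z, ?_⟩
  rw [← sub_eq_zero]
  apply hinj
  rw [← hφ, map_sub, map_pow, hφ, hφ, ← hz, hy2, sub_self]

end

end Pool.Agent.OBR
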