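import Pool.Agent.OB.StR
import Pool.Agent.MUX.E_RNG

/-!
# OB, block GR, KUC: `l`-th powers in `O`, up to sign
-/

set_option autoImplicit false

open WeierstrassCurve Polynomial

namespace Pool.Agent.OBR

open _root_.MU3 Pool.Agent.MU3A Pool.Agent.MU3B Pool.Agent.RI Pool.Agent.MUX Pool.Agent.MUXU
open Pool.Agent.NS Pool.Agent.NSR Pool.Agent.OB

noncomputable section

namespace KUCx

open Pool.Agent.MUXE.RNGaux (eH eH_apply w_intQ emb_int int_iff)

variable {A B : ℤ}

/-- descent to `O` -/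
theorem desc (h : CQ A B) {l : ℕ} (hl : 0 < l) (al : OO A B) (z : ℂ) (hz : z ∈ kk A B)
    (hzl : z ^ l = emb al) : ∃ z' : OO A B, al = z' ^ l := by
  have h1 : IsIntegral ℤ z := IsIntegral.of_pow hl (hzl ▸ emb_int h al)
  obtain ⟨z', rfl⟩ := (int_iff h hz).1 h1
  refine ⟨z', MUX.emb_inj h ?_⟩
  rw [← hzl, ← eH_apply h, ← eH_apply h, map_pow]

theorem emb_neg' (h : CQ A B) (x : OO A B) : emb (-x) = -emb x := by
  rw [← eH_apply h, ← eH_apply h, map_neg]

theorem desc_neg (h : CQ A B) {l : ℕ} (hl : 0 < l) (al : OO A B) (z : ℂ) (hz : z ∈ kk A B)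
    (hzl : z ^ l = -emb al) : ∃ z' : OO A B, al = -z' ^ l := by
  obtain ⟨z', h1⟩ := desc h hl (-al) z hz (by rw [emb_neg' h, hzl])
  exact ⟨z', by rw [← h1, neg_neg]⟩

/-- KUA for the field `k(ω)` -/
theorem root (hA : So_KUA) (h : CQ A B) (S : Finset ℕ) (al : OO A B) (hal : al ≠ 0) (l : ℕ)
    (hl : l.Prime)
    (H : ∀ q : ℕ, q.Prime → q ∉ S → ∀ φ : OO A B →+* ZMod q, ∃ x, φ al = x ^ l ∨ φ al = -x ^ l)
    (ω ζ i : ℂ) (hω : IsIntegral (kk A B) ω)
    (hζm : ζ ∈ IntermediateField.adjoin (kk A B) {ω})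
    (him : i ∈ IntermediateField.adjoin (kk A B) {ω}) (hζ : IsPrimitiveRoot ζ l)
    (hi : i ^ l = -1) :
    ∃ y : IntermediateField.adjoin (kk A B) {ω}, (y : ℂ) ^ l = emb al := by
  have hlp := hl.pos
  haveI : Fact l.Prime := ⟨hl⟩
  let K := kk A B
  let L := IntermediateField.adjoin (kk A B) {ω}
  haveI f1 : FiniteDimensional ℚ K := IntermediateField.adjoin.finiteDimensional (w_intQ h)
  haveI f2 : FiniteDimensional K L := IntermediateField.adjoin.finiteDimensional hω
  haveI f3 : FiniteDimensional ℚ L := FiniteDimensional.trans ℚ K L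
  haveI : NumberField L := { to_finiteDimensional := by convert f3 }
  have hint : ∀ x : L, IsIntegral ℤ (x : ℂ) → IsIntegral ℤ x := fun x hx =>
    (isIntegral_algebraMap_iff (algebraMap L ℂ).injective).1 hx
  have hmem : ∀ x : OO A B, emb x ∈ L := fun x =>
    L.algebraMap_mem (⟨emb x, MUX.emb_mem x⟩ : K)
  let j0 : OO A B →+* L := (eH h).codRestrict L (fun x => by
    rw [eH_apply]
    exact hmem x)
  have hj0 : ∀ x, ((j0 x : L) : ℂ) = emb x := fun x => eH_apply h x
  let j : OO A B →+* NumberField.RingOfIntegers L := j0.codRestrict (integralClosure ℤ L)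
    (fun x => hint _ (by rw [hj0]; exact emb_int h x))
  have hj : ∀ x, ((j x : L) : ℂ) = emb x := fun x => hj0 x
  have iζ : IsIntegral ℤ ζ := hζ.isIntegral hlp
  have ii : IsIntegral ℤ i := IsIntegral.of_pow hlp (by rw [hi]; exact isIntegral_one.neg)
  let ζ' : NumberField.RingOfIntegers L := ⟨⟨ζ, hζm⟩, hint _ iζ⟩
  let i' : NumberField.RingOfIntegers L := ⟨⟨i, him⟩, hint _ ii⟩
  have hinj : Function.Injective (fun x : NumberField.RingOfIntegers L => ((x : L) : ℂ)) :=
    Subtype.coe_injective.comp NumberField.RingOfIntegers.coe_injective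
  have hζ' : IsPrimitiveRoot ζ' l := by
    have e : ((algebraMap L ℂ).comp (algebraMap (NumberField.RingOfIntegers L) L)) ζ' = ζ := rfl
    refine IsPrimitiveRoot.of_map_of_injective (f := ((algebraMap L ℂ).comp
      (algebraMap (NumberField.RingOfIntegers L) L))) ?_ ?_
    · rw [e]
      exact hζ
    · exact hinj
  have hi' : i' ^ l = -1 := by
    apply hinj
    change i ^ l = -1
    exact hi
  have hjal : j al ≠ 0 := by
    intro h0
    apply hal
    apply MUX.emb_inj h
    rw [← hj al, h0, ← eH_apply h 0, map_zero]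
    rfl
  obtain ⟨y, hy⟩ := hA A B l L ζ' j al hζ' hjal S (Or.inr ⟨⟨i', hi'⟩, H⟩)
  refine ⟨y, ?_⟩
  rw [← hj al, ← hy]
  rfl

/-- `l`-th roots and extensions of degree prime to `l` -/
theorem coprime_root {K L : Type} [Field K] [Field L] [Algebra K L] [FiniteDimensional K L]
    (l : ℕ) (hl0 : 0 < l) (hl : Nat.Coprime (Module.finrank K L) l) (a : K) (ha : a ≠ 0) (y : L)
    (hy : y ^ l = algebraMap K L a) : ∃ z : K, z ^ l = a := by
  have h1 : (Algebra.norm K y) ^ l = a ^ Module.finrank K L := by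
    rw [← map_pow, hy, Algebra.norm_algebraMap]
  have h2 : Algebra.norm K y ≠ 0 := by
    intro h0
    rw [h0, zero_pow hl0.ne'] at h1
    exact pow_ne_zero _ ha h1.symm
  have h3 := Nat.gcd_eq_gcd_ab (Module.finrank K L) l
  rw [hl] at h3
  refine ⟨(Algebra.norm K y) ^ (Nat.gcdA (Module.finrank K L) l) *
    a ^ (Nat.gcdB (Module.finrank K L) l), ?_⟩
  have e1 : ((Algebra.norm K y) ^ (Nat.gcdA (Module.finrank K L) l)) ^ l =
      a ^ ((Module.finrank K L : ℤ) * Nat.gcdA (Module.finrank K L) l) := by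
    rw [← zpow_natCast, ← zpow_mul, mul_comm, zpow_mul, zpow_natCast, h1, ← zpow_natCast,
      ← zpow_mul]
  have e2 : (a ^ (Nat.gcdB (Module.finrank K L) l)) ^ l =
      a ^ ((l : ℤ) * Nat.gcdB (Module.finrank K L) l) := by
    rw [← zpow_natCast, ← zpow_mul, mul_comm]
  rw [mul_pow, e1, e2, ← zpow_add₀ ha, ← h3]
  norm_num

theorem finrank_lt (K : IntermediateField ℚ ℂ) (l : ℕ) (hl : l.Prime) (ζ : ℂ)
    (hζ : IsPrimitiveRoot ζ l) :
    Module.finrank K (IntermediateField.adjoin K {ζ}) < l := by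
  have hi : IsIntegral K ζ := (hζ.isIntegral hl.pos).tower_top
  rw [IntermediateField.adjoin.finrank hi]
  have h1 : minpoly K ζ ∣ cyclotomic l K := by
    refine minpoly.dvd K ζ ?_
    rw [aeval_def, ← eval_map, map_cyclotomic]
    exact hζ.isRoot_cyclotomic hl.pos
  have h2 := natDegree_le_of_dvd h1 (cyclotomic_ne_zero l K)
  rw [natDegree_cyclotomic, Nat.totient_prime hl] at h2
  have := hl.pos
  omega

theorem reprI (K : IntermediateField ℚ ℂ) {x : ℂ}
    (hx : x ∈ IntermediateField.adjoin K {Complex.I}) :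
    ∃ c ∈ K, ∃ d ∈ K, x = c + d * Complex.I := by
  have hi : IsAlgebraic K Complex.I :=
    (IsIntegral.of_pow (n := 2) (R := K) (by norm_num)
      (by rw [Complex.I_sq]; exact isIntegral_one.neg)).isAlgebraic
  have h1 : x ∈ (IntermediateField.adjoin K {Complex.I}).toSubalgebra := hx
  rw [IntermediateField.adjoin_simple_toSubalgebra_of_isAlgebraic hi] at h1
  clear hx
  induction h1 using Algebra.adjoin_induction with
  | mem y hy =>
    rw [Set.mem_singleton_iff] at hy
    exact ⟨0, K.zero_mem, 1, K.one_mem, by rw [hy]; ring⟩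
  | algebraMap r => exact ⟨r, r.2, 0, K.zero_mem, by rw [zero_mul, add_zero]; rfl⟩
  | add y z _ _ hy hz =>
    obtain ⟨s, hs, t, ht, rfl⟩ := hy
    obtain ⟨s', hs', t', ht', rfl⟩ := hz
    exact ⟨s + s', K.add_mem hs hs', t + t', K.add_mem ht ht', by ring⟩
  | mul y z _ _ hy hz =>
    obtain ⟨s, hs, t, ht, rfl⟩ := hy
    obtain ⟨s', hs', t', ht', rfl⟩ := hz
    refine ⟨s * s' - t * t', K.sub_mem (K.mul_mem hs hs') (K.mul_mem ht ht'), s * t' + t * s',
      K.add_mem (K.mul_mem hs ht') (K.mul_mem ht hs'), ?_⟩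
    linear_combination (t : ℂ) * t' * Complex.I_sq

/-- squares in `K(i)` -/
theorem sq_root (K : IntermediateField ℚ ℂ) (a y : ℂ) (ha : a ∈ K)
    (hy : y ∈ IntermediateField.adjoin K {Complex.I}) (h : y ^ 2 = a) :
    ∃ z ∈ K, z ^ 2 = a ∨ z ^ 2 = -a := by
  obtain ⟨c, hc, d, hd, rfl⟩ := reprI K hy
  by_cases hI : Complex.I ∈ K
  · exact ⟨_, K.add_mem hc (K.mul_mem hd hI), Or.inl h⟩
  · have h1 : 2 * (c * d) * Complex.I = a - c ^ 2 + d ^ 2 := by
      rw [← h]
      linear_combination (-d ^ 2) * Complex.I_sq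
    have h2 : c * d = 0 := by
      by_contra hne
      apply hI
      have h3 : Complex.I = (a - c ^ 2 + d ^ 2) / (2 * (c * d)) := by
        rw [eq_div_iff (mul_ne_zero two_ne_zero hne)]
        linear_combination h1
      rw [h3]
      have h4 : (2 : ℂ) ∈ K := by exact_mod_cast K.natCast_mem 2
      exact K.div_mem (K.add_mem (K.sub_mem ha (K.pow_mem hc 2)) (K.pow_mem hd 2))
        (K.mul_mem h4 (K.mul_mem hc hd))
    rcases mul_eq_zero.1 h2 with h3 | h3
    · refine ⟨d, hd, Or.inr ?_⟩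
      rw [← h, h3]
      linear_combination (d ^ 2) * Complex.I_sq
    · refine ⟨c, hc, Or.inl ?_⟩
      rw [← h, h3]
      ring

end KUCx

open KUCx in
theorem o_KUC (hA : So_KUA) : So_KUC := by
  intro A B h S al hal l hl H
  have hal' : emb al ≠ 0 := by
    intro h0
    apply hal
    apply MUX.emb_inj h
    rw [h0, ← Pool.Agent.MUXE.RNGaux.eH_apply h 0, map_zero]
  rcases hl.eq_two_or_odd' with rfl | hodd
  · have hI : IsIntegral (kk A B) Complex.I :=
      IsIntegral.of_pow (n := 2) (by norm_num) (by rw [Complex.I_sq]; exact isIntegral_one.neg)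
    obtain ⟨y, hy⟩ := root hA h S al hal 2 hl H Complex.I (-1) Complex.I hI
      (neg_mem (one_mem _)) (IntermediateField.mem_adjoin_simple_self _ _)
      (IsPrimitiveRoot.neg_one 0 (by norm_num)) Complex.I_sq
    obtain ⟨z, hz, h1 | h1⟩ := sq_root (kk A B) (emb al) y (MUX.emb_mem al) y.2 hy
    · obtain ⟨z', h2⟩ := desc h hl.pos al z hz h1
      exact ⟨z', Or.inl h2⟩
    · obtain ⟨z', h2⟩ := desc_neg h hl.pos al z hz h1
      exact ⟨z', Or.inr h2⟩
  · have hζ := Complex.isPrimitiveRoot_exp l hl.ne_zero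
    have hi : IsIntegral (kk A B) (Complex.exp (2 * Real.pi * Complex.I / l)) :=
      (hζ.isIntegral hl.pos).tower_top
    obtain ⟨y, hy⟩ := root hA h S al hal l hl H _ _ (-1) hi
      (IntermediateField.mem_adjoin_simple_self _ _) (neg_mem (one_mem _)) hζ hodd.neg_one_pow
    haveI f2 : FiniteDimensional (kk A B)
      (IntermediateField.adjoin (kk A B) {Complex.exp (2 * Real.pi * Complex.I / l)}) :=
      IntermediateField.adjoin.finiteDimensional hi
    have hlt := finrank_lt (kk A B) l hl _ hζ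
    have hpos : 0 < Module.finrank (kk A B)
      (IntermediateField.adjoin (kk A B) {Complex.exp (2 * Real.pi * Complex.I / l)}) :=
      Module.finrank_pos
    obtain ⟨z, hz⟩ := coprime_root (K := kk A B)
      (L := IntermediateField.adjoin (kk A B) {Complex.exp (2 * Real.pi * Complex.I / l)})
      l hl.pos ((Nat.Coprime.symm ((Nat.Prime.coprime_iff_not_dvd hl).2 fun hd =>
        absurd (Nat.le_of_dvd hpos hd) (not_le.2 hlt))))
      ⟨emb al, MUX.emb_mem al⟩ (fun h0 => hal' (congrArg Subtype.val h0)) y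
      (Subtype.ext hy)
    obtain ⟨z', h2⟩ := desc h hl.pos al z z.2 (congrArg Subtype.val hz)
    exact ⟨z', Or.inl h2⟩

end

end Pool.Agent.OBR
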