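import Pool.Agent.OB.StR
import Pool.Agent.MUX.K_THDX
import Pool.Agent.MUX.K_KUMX

/-!
# Project OB, block GR, module KUM (helper4)

An integer which is an `l`-th power modulo all primes of prime norm, except for finitely many residue
characteristics, is an `l`-th power.
-/

set_option autoImplicit false

open NumberField IsDedekindDomain Finset Filter Topology Asymptotics
open scoped nonZeroDivisors Pointwise

namespace Pool.Agent.OBR

open Pool.Agent.MU3 Pool.Agent.RI Pool.Agent.RID Pool.Agent.Lib_helper28.FROB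

namespace KUMx

variable {L : Type} [Field L] [NumberField L]

theorem fin_mem {t : 𝓞 L} (ht : t ≠ 0) :
    {v : HeightOneSpectrum (𝓞 L) | t ∈ v.asIdeal}.Finite := by
  have h0 : (Ideal.span {t}) ≠ 0 := by
    intro h
    exact ht (Ideal.span_singleton_eq_bot.1 h)
  refine (Ideal.finite_factors h0).subset ?_
  intro v hv
  have hv' : t ∈ v.asIdeal := hv
  change v.asIdeal ∣ Ideal.span {t}
  rw [Ideal.dvd_iff_le, Ideal.span_singleton_le_iff_mem]
  exact hv'

theorem tendsto_log : Tendsto (fun s : ℝ => Real.log (1 / (s - 1))) (𝓝[>] 1) atTop := by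
  have h1 : Tendsto (fun s : ℝ => s - 1) (𝓝[>] 1) (𝓝[>] 0) := by
    refine tendsto_nhdsWithin_iff.2 ⟨?_, ?_⟩
    · have h2 : Tendsto (fun s : ℝ => s - 1) (𝓝 1) (𝓝 (1 - 1)) :=
        tendsto_id.sub tendsto_const_nhds
      rw [sub_self] at h2
      exact h2.mono_left nhdsWithin_le_nhds
    · filter_upwards [self_mem_nhdsWithin] with s hs
      exact sub_pos.2 (Set.mem_Ioi.1 hs)
  have h3 : Tendsto (fun s : ℝ => (s - 1)⁻¹) (𝓝[>] 1) atTop := tendsto_inv_nhdsGT_zero.comp h1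
  refine (Real.tendsto_log_atTop.comp h3).congr fun s => ?_
  simp [one_div]

end KUMx

open KUMx in
theorem o_KUM : So_KUM := by
  intro l _ L _ _ ζ t hζ ht S hS
  by_contra hcon
  push Not at hcon
  have hl : l.Prime := Fact.out
  have hl2 : (2 : ℝ) ≤ l := by exact_mod_cast hl.two_le
  obtain ⟨M, _, _, _, hM⟩ := Pool.Agent.MUXK.t_KUMX l L ζ t hζ hcon
  have hS' : ∀ ℓ ∈ insert l (S.filter Nat.Prime), ℓ.Prime := by
    intro ℓ hℓ
    rcases Finset.mem_insert.1 hℓ with h | h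
    · rw [h]
      exact hl
    · exact (Finset.mem_filter.1 h).2
  let B₁ : Set (HeightOneSpectrum (𝓞 L)) := {v | l ≤ spl L M v}
  let B₂ : Set (HeightOneSpectrum (𝓞 L)) := {v | ¬ (Ideal.absNorm v.asIdeal).Prime}
  let B₃ : Set (HeightOneSpectrum (𝓞 L)) :=
    {v | Above (insert l (S.filter Nat.Prime)) v} ∪ {v | t ∈ v.asIdeal}
  have hcov : ∀ v, v ∈ (∅ : Set (HeightOneSpectrum (𝓞 L))) ∨ v ∈ B₁ ∨ v ∈ B₂ ∨ v ∈ B₃ := by
    intro v
    right
    by_cases c2 : (Ideal.absNorm v.asIdeal).Prime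
    · by_cases c3 : v ∈ B₃
      · exact Or.inr (Or.inr c3)
      · left
        have c4 : ¬ Above (insert l (S.filter Nat.Prime)) v := fun h => c3 (Or.inl h)
        have c5 : t ∉ v.asIdeal := fun h => c3 (Or.inr h)
        refine hM v ?_ c5 (hS v c2 ?_)
        · intro hlv
          exact c4 ⟨l, Finset.mem_insert_self _ _, hlv⟩
        · intro hmem
          exact c4 ⟨_, Finset.mem_insert_of_mem (Finset.mem_filter.2 ⟨hmem, c2⟩),
            Ideal.absNorm_mem v.asIdeal⟩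
    · exact Or.inr (Or.inl c2)
  have hB3 : B₃.Finite := (Pool.Agent.MUXK.THDX.fin_above hS').union (fin_mem ht)
  obtain ⟨C₁, e1⟩ := m_SPLS L M l B₁ (fun v hv => hv)
  obtain ⟨C₂, e2⟩ := m_DEG2 L B₂ (fun v hv => hv)
  obtain ⟨C₃, e3⟩ := Pool.Agent.MUXK.THDX.fin_bound B₃ hB3
  obtain ⟨C₄, e4⟩ := (isBigO_sum L).bound
  have hc : (1 : ℝ) / 2 ≤ 1 - 1 / l := by
    have h3 : (1 : ℝ) / l ≤ 1 / 2 := one_div_le_one_div_of_le (by norm_num) hl2
    linarith
  have key : ∀ᶠ s : ℝ in 𝓝[>] 1,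
      (1 - 1 / (l : ℝ)) * Real.log (1 / (s - 1)) ≤ C₁ / l + C₂ + C₃ + C₄ := by
    filter_upwards [e1, e4, self_mem_nhdsWithin] with s f1 f4 hs
    have hs' : (1 : ℝ) < s := hs
    rw [norm_one, mul_one, Real.norm_eq_abs] at f4
    have h5 := neg_abs_le (∑' v : HeightOneSpectrum (𝓞 L), x s v - Real.log (1 / (s - 1)))
    have h6 := Pool.Agent.MUXK.THDX.lower hcov hs'
    have h7 := e2 s hs'
    have h8 := e3 s hs'
    have h9 : ∑' v, Set.indicator B₁ (x s) v ≤ (Real.log (1 / (s - 1)) + C₁) / l := by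
      rw [le_div_iff₀ (by linarith)]
      linarith
    have h10 : (Real.log (1 / (s - 1)) + C₁) / l = 1 / l * Real.log (1 / (s - 1)) + C₁ / l := by
      ring
    have h11 : (1 - 1 / (l : ℝ)) * Real.log (1 / (s - 1)) =
      Real.log (1 / (s - 1)) - 1 / l * Real.log (1 / (s - 1)) := by ring
    have h12 : ∑' v : HeightOneSpectrum (𝓞 L),
        Set.indicator (∅ : Set (HeightOneSpectrum (𝓞 L))) (x s) v = 0 := by
      simp
    linarith
  have h13 : ∀ᶠ s : ℝ in 𝓝[>] 1,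
      2 * (|C₁ / l + C₂ + C₃ + C₄| + 1) ≤ Real.log (1 / (s - 1)) :=
    tendsto_log.eventually_ge_atTop _
  obtain ⟨s, h14, h15⟩ := (key.and h13).exists
  have h16 := le_abs_self (C₁ / l + C₂ + C₃ + C₄)
  have h17 := abs_nonneg (C₁ / l + C₂ + C₃ + C₄)
  nlinarith

end Pool.Agent.OBR
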