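import Pool.Agent.OB.StR

/-!
# OB, block GR, module LGE: Legendre forms (helper9)
-/

set_option autoImplicit false

open WeierstrassCurve Polynomial

namespace Pool.Agent.OBR

open _root_.MU3 Pool.Agent.MU3A Pool.Agent.MU3B Pool.Agent.RI Pool.Agent.MUX Pool.Agent.MUXU
open Pool.Agent.NS Pool.Agent.NSR Pool.Agent.OB

noncomputable section

theorem o_LGE (h1 : So_TW3) : So_LGE := by
  intro L w₁ w₂ w₃ u hw hu
  obtain ⟨-, -, h3⟩ := h1 L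
  obtain ⟨-, -, heq, n12, n13, n23⟩ := h3 w₁ w₂ w₃ hw
  obtain ⟨e₁, he₁⟩ : ∃ e, e = L.weierstrassP w₁ := ⟨_, rfl⟩
  obtain ⟨e₂, he₂⟩ : ∃ e, e = L.weierstrassP w₂ := ⟨_, rfl⟩
  obtain ⟨e₃, he₃⟩ : ∃ e, e = L.weierstrassP w₃ := ⟨_, rfl⟩
  rw [← he₁, ← he₂, ← he₃] at heq
  rw [← he₁, ← he₂] at n12 hu
  rw [← he₁, ← he₂, ← he₃]
  have hd : e₂ - e₁ ≠ 0 := sub_ne_zero.2 n12.symm
  have hu0 : u ≠ 0 := by
    rintro rfl
    apply hd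
    rw [← hu]
    ring
  refine ⟨hu0, fun z hz => ?_⟩
  have h := heq z hz
  obtain ⟨P, hP⟩ : ∃ P, P = L.weierstrassP z := ⟨_, rfl⟩
  obtain ⟨D, hD⟩ : ∃ D, D = L.derivWeierstrassP z := ⟨_, rfl⟩
  rw [← hP, ← hD] at h
  rw [← hP, ← hD, ← hu]
  have h5 : (D / (2 * u ^ 3)) ^ 2 = D ^ 2 / (4 * u ^ 6) := by ring
  have h6 : (P - e₁) / u ^ 2 - 1 = (P - e₂) / u ^ 2 := by
    rw [div_sub_one (pow_ne_zero 2 hu0), hu]
    congr 1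
    ring
  have h7 : (P - e₁) / u ^ 2 - (e₃ - e₁) / u ^ 2 = (P - e₃) / u ^ 2 := by
    rw [← sub_div]
    congr 1
    ring
  rw [h5, h, h6, h7]
  field_simp

end

end Pool.Agent.OBR
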