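import Pool.Agent.OB.StR
import Pool.Agent.NS.RN_LIF

/-!
# OB, block GR: module LIF, lifting of elements of the inertia group (helper2, model: `NS/RN_LIF.lean` of helper13)
-/

set_option autoImplicit false

namespace Pool.Agent.OBR

open _root_.MU3 _root_.Pool.Agent.MU3A _root_.Pool.Agent.MU3B _root_.Pool.Agent.RI
  _root_.Pool.Agent.MUX _root_.Pool.Agent.MUXU _root_.Pool.Agent.NS _root_.Pool.Agent.MU3E.RAM
  _root_.Pool.Agent.OB
open NumberField IsDedekindDomain
open scoped Pointwise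

noncomputable section

open _root_.Pool.Agent.NSR.LIF in
theorem o_LIF : So_LIF := by
  intro p A B V hAB pp hvp F₁ M _ _ _ σ hσ hσF
  have hwC : σ (wC A B) = wC A B := hσ
  -- sigma fixes `k`
  have hfix : ∀ x ∈ kk A B, σ x = x := by
    intro x hx
    refine IntermediateField.adjoin_induction ℚ (p := fun x _ => σ x = x) ?_ ?_ ?_ ?_ ?_ hx
    · intro y hy
      rw [Set.mem_singleton_iff] at hy
      rw [hy, hwC]
    · intro r
      rw [eq_ratCast, map_ratCast]
    · intro a b _ _ ha hb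
      rw [map_add, ha, hb]
    · intro a _ ha
      rw [map_inv₀, ha]
    · intro a b _ _ ha hb
      rw [map_mul, ha, hb]
  have hfd : FiniteDimensional ℚ (kk A B) := by
    apply IntermediateField.adjoin.finiteDimensional
    refine ⟨Polynomial.X ^ 2 - Polynomial.C (B : ℚ) * Polynomial.X - Polynomial.C (A : ℚ), ?_, ?_⟩
    · monicity!
    · have h := wsq hAB
      simp only [Polynomial.eval₂_sub, Polynomial.eval₂_mul, Polynomial.eval₂_pow,
        Polynomial.eval₂_X, Polynomial.eval₂_C]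
      rw [pow_two, h]
      simp
  have hk : NumberField (kk A B) := ⟨⟩
  let σK : ℂ ≃ₐ[kk A B] ℂ := AlgEquiv.ofRingEquiv (f := σ) (fun x => hfix x x.2)
  have hσK : ∀ x, σK x = σ x := fun x => rfl
  -- the normal closure
  have hfin : FiniteDimensional (kk A B) ↥(F₁ ⊔ M) := inferInstance
  obtain ⟨α, hα⟩ := Field.exists_primitive_element (kk A B) ↥(F₁ ⊔ M)
  have hαi : IsIntegral (kk A B) (α : ℂ) := by
    have h : IsIntegral (kk A B) α := Algebra.IsIntegral.isIntegral α
    exact h.map (IntermediateField.val _)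
  set pol := minpoly (kk A B) (α : ℂ) with hpol
  let E : IntermediateField (kk A B) ℂ := IntermediateField.adjoin (kk A B) (pol.rootSet ℂ)
  have hsf : pol.IsSplittingField (kk A B) E :=
    IntermediateField.adjoin_rootSet_isSplittingField (IsAlgClosed.splits _)
  have hαE : (α : ℂ) ∈ E := by
    apply IntermediateField.subset_adjoin
    rw [Polynomial.mem_rootSet]
    exact ⟨minpoly.ne_zero hαi, minpoly.aeval _ _⟩
  have hle : F₁ ⊔ M ≤ E := by
    have h1 : IntermediateField.lift (IntermediateField.adjoin (kk A B) {α}) = F₁ ⊔ M := by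
      rw [hα, IntermediateField.lift_top]
    rw [← h1, IntermediateField.lift_adjoin_simple, IntermediateField.adjoin_le_iff,
      Set.singleton_subset_iff]
    exact hαE
  have hE1 : F₁ ≤ E := le_sup_left.trans hle
  have hE2 : M ≤ E := le_sup_right.trans hle
  have hEf : FiniteDimensional (kk A B) E := Polynomial.IsSplittingField.finiteDimensional E pol
  have hEn : Normal (kk A B) E := Normal.of_isSplittingField pol
  have hEg : IsGalois (kk A B) E := ⟨⟩
  have hFf : FiniteDimensional (kk A B) F₁ := inferInstance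
  have hF1 : NumberField F₁ :=
    { to_finiteDimensional := FiniteDimensional.trans ℚ (kk A B) F₁ }
  have hE3 : NumberField E :=
    { to_finiteDimensional := FiniteDimensional.trans ℚ (kk A B) E }
  let alg : Algebra F₁ E := (IntermediateField.inclusion hE1).toRingHom.toAlgebra
  have halg : ∀ x : F₁, ((algebraMap F₁ E x : E) : ℂ) = (x : ℂ) := fun x => rfl
  have tower : IsScalarTower (kk A B) F₁ E := IsScalarTower.of_algebraMap_eq (fun x => rfl)
  have hgal : IsGalois F₁ E := IsGalois.tower_top_of_isGalois (kk A B) F₁ E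
  -- restrictions of sigma
  let τ₀ : E ≃ₐ[kk A B] E := σK.restrictNormal E
  have hτ₀ : ∀ x : E, ((τ₀ x : E) : ℂ) = σ (x : ℂ) := fun x =>
    AlgEquiv.restrictNormal_commutes σK E x
  let σ₁ : F₁ ≃ₐ[kk A B] F₁ := σK.restrictNormal F₁
  have hσ₁ : ∀ x : F₁, ((σ₁ x : F₁) : ℂ) = σ (x : ℂ) := fun x =>
    AlgEquiv.restrictNormal_commutes σK F₁ x
  let io : E →+* ℂ := algebraMap E ℂ
  have hio : ∀ x : E, io x = (x : ℂ) := fun x => rfl
  have e3 : io (((p : ℕ) : 𝓞 E) : E) = (p : ℂ) := by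
    have h : ((((p : ℕ) : 𝓞 E)) : E) = (p : E) := map_natCast (algebraMap (𝓞 E) E) p
    rw [h, map_natCast]
  obtain ⟨w, hw⟩ := exists_prime (V := V) io (z := ((p : ℕ) : 𝓞 E)) (by
    intro h
    rw [h] at e3
    have h2 : io ((0 : 𝓞 E) : E) = 0 := by
      have h : ((0 : 𝓞 E) : E) = 0 := map_zero (algebraMap (𝓞 E) E)
      rw [h, map_zero]
    rw [h2] at e3
    exact pp.ne_zero (by exact_mod_cast e3.symm)) (by
    rw [e3]
    exact hvp)
  obtain ⟨γ, hγ⟩ := lift_aux (V := V) io hw (τ₀ : E ≃+* E) (σ₁ : F₁ ≃+* F₁) (by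
    intro x
    apply Subtype.ext
    exact (hτ₀ _).trans (hσ₁ x).symm) (by
    intro x
    have h1 := hσF (x : F₁) (x : F₁).2 (by
      exact int_le (V := V) (algebraMap F₁ ℂ) x)
    have h2 : io (algebraMap F₁ E ((σ₁ : F₁ ≃+* F₁) (x : F₁))) = σ ((x : F₁) : ℂ) := hσ₁ x
    rw [h2]
    exact h1)
  -- the automorphism of `E`
  let τ : E ≃+* E := (τ₀ : E ≃+* E).trans (γ : E ≃+* E)
  have hτ : ∀ x : E, τ x = γ (τ₀ x) := fun x => rfl
  have hτF : ∀ x : F₁, τ (algebraMap F₁ E x) = algebraMap F₁ E (σ₁ x) := by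
    intro x
    rw [hτ]
    have h : τ₀ (algebraMap F₁ E x) = algebraMap F₁ E (σ₁ x) := by
      apply Subtype.ext
      exact (hτ₀ _).trans (hσ₁ x).symm
    rw [h, γ.commutes]
  have hfin2 := of_int (V := V) io hw τ (fun x => hγ x)
  let EQ : IntermediateField ℚ ℂ := E.restrictScalars ℚ
  have hEQ : Algebra.IsAlgebraic ℚ EQ := by
    have : FiniteDimensional ℚ E := hE3.to_finiteDimensional
    have h2 : FiniteDimensional ℚ EQ := this
    exact Algebra.IsAlgebraic.of_finite ℚ EQ
  obtain ⟨σ', hσ'⟩ := u_AUE EQ hEQ (io.comp (τ : E →+* E))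
  have hσ'2 : ∀ x : E, σ' (x : ℂ) = ((τ x : E) : ℂ) := fun x => hσ' x
  have hF' : ∀ y ∈ F₁, σ' y = σ y := by
    intro y hy
    have h1 := hσ'2 (algebraMap F₁ E ⟨y, hy⟩)
    rw [hτF, halg, halg] at h1
    rw [h1, hσ₁]
  refine ⟨σ', ?_, hF', ?_⟩
  · have h1 : wC A B ∈ F₁ := F₁.algebraMap_mem (⟨wC A B, wC_mem A B⟩ : kk A B)
    have h2 := hF' _ h1
    rw [hwC] at h2
    exact h2
  · intro y hy hvy
    have h1 := hfin2 ⟨y, hE2 hy⟩ hvy
    have h2 := hσ'2 ⟨y, hE2 hy⟩
    rw [hio, hio, ← h2] at h1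
    exact h1

end

end Pool.Agent.OBR
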