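import Pool.Agent.OB.StR
import Pool.Agent.MUX.UAll
import Pool.Agent.MUX.E_RNG

/-!
# OB, block GR: (MUL) the multiplier of the `P`-isogeny
-/

set_option autoImplicit false

open WeierstrassCurve Polynomial

namespace Pool.Agent.OBR

open _root_.MU3 Pool.Agent.MU3A Pool.Agent.MU3B Pool.Agent.RI Pool.Agent.MUX Pool.Agent.MUXU
open Pool.Agent.MUXV (GR InK tX)
open Pool.Agent.NS Pool.Agent.NSR Pool.Agent.OB

noncomputable section

namespace MULx

variable {A B : ℤ}

/-- an element `be` of `P`, not in `P²`, congruent to `1` modulo `Q` -/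
lemma exists_be (h : CQ A B) {P Q : Ideal (OO A B)} (hP : P ≠ ⊥) (hP1 : P ≠ ⊤)
    (hQ : IsCoprime Q P) : ∃ be : OO A B, be ∈ P ∧ be ∉ P ^ 2 ∧ be - 1 ∈ Q := by
  have h1 : ¬ P ≤ P ^ 2 := by
    intro h1
    have h2 : P * ⊤ ≤ P * P := by rw [Ideal.mul_top, ← pow_two]; exact h1
    exact hP1 (top_le_iff.1 ((mul_le_mul_iff h hP).1 h2))
  obtain ⟨pi, hpi, hpi2⟩ := Set.not_subset.1 h1
  obtain ⟨y, hy, x, hx, hxy⟩ := Ideal.isCoprime_iff_exists.1 (hQ.pow_right (n := 2))
  have hP2 : P ^ 2 ≤ P := Ideal.pow_le_self two_ne_zero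
  refine ⟨pi * y + x, P.add_mem (P.mul_mem_right _ hpi) (hP2 hx), fun hc => hpi2 ?_, ?_⟩
  · have e : pi = (pi * y + x) + (pi * x - x) := by linear_combination (-pi) * hxy
    rw [e]
    exact (P ^ 2).add_mem hc ((P ^ 2).sub_mem ((P ^ 2).mul_mem_left _ hx) hx)
  · have e : pi * y + x - 1 = y * (pi - 1) := by linear_combination hxy
    rw [e]
    exact Q.mul_mem_right _ hy

/-- the norm of `1 - 2 p y` -/
lemma nm_one_sub (p : ℕ) (y : OO A B) : ∃ t : ℤ,
    nm (1 - ((p : ℕ) : OO A B) * ((2 : ℕ) : OO A B) * y) = 1 + 2 * p * t := by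
  obtain ⟨c, d⟩ := y
  refine ⟨-2 * c + 2 * p * c ^ 2 - B * d * (1 - 2 * p * c) - 2 * p * A * d ^ 2, ?_⟩
  simp only [nm, QuadraticAlgebra.re_sub, QuadraticAlgebra.im_sub, QuadraticAlgebra.re_one,
    QuadraticAlgebra.im_one, QuadraticAlgebra.re_mul, QuadraticAlgebra.im_mul,
    QuadraticAlgebra.re_natCast, QuadraticAlgebra.im_natCast]
  push_cast
  ring

end MULx

open MULx in
/-- (MUL) -/
theorem o_MUL (hBAS : Pool.Agent.OBT.So_BAS) (hISO : So_ISO) : So_MUL := by
  intro p er A B P V h b b' L M om om' mu u e lam u' e' lam' hL hM hgL hgM hq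
  obtain ⟨-, -, hmax, -, -, -, -, -, -, -, hPc, hidl⟩ := hBAS p er A B P V h
  have hcq := h.cq
  have hded : IsDedekindDomain (OO A B) := (Pool.Agent.MUXE.te_RNG A B hcq).ded
  have hP0 := h.P0
  have hP1 : P ≠ ⊤ := hmax.ne_top
  have hcm : HasCM A B L := IsLI.hasCM hcq hL
  -- coprimality with `P`
  have hcopP : ∀ I : Ideal (OO A B), (∃ x ∈ I, x ∉ P) → IsCoprime I P := by
    rintro I ⟨x, hx, hxP⟩
    rw [Ideal.isCoprime_iff_sup_eq]
    by_contra hne
    have h1 : P = I ⊔ P := hmax.eq_of_le hne le_sup_right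
    exact hxP (h1 ▸ Ideal.mem_sup_left hx)
  have hnot : ∀ I : Ideal (OO A B), IsCoprime I P → ∃ x ∈ I, x ∉ P := by
    intro I hI
    by_contra hcon
    push Not at hcon
    have h1 := Ideal.isCoprime_iff_sup_eq.1 hI
    rw [sup_eq_right.2 (show I ≤ P from fun x hx => hcon x hx)] at h1
    exact hP1 h1
  have h2P : IsCoprime (sp ((2 : ℕ) : OO A B)) P :=
    hcopP _ ⟨_, Ideal.mem_span_singleton_self _, h.two⟩
  have hQP : IsCoprime (Pc P * sp ((2 : ℕ) : OO A B)) P := hPc.mul_left h2P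
  obtain ⟨be, hbP, hbP2, hb1⟩ := exists_be hcq hP0 hP1 hQP
  -- the ideal `c`
  have hdvd : P ∣ sp be := Ideal.dvd_iff_le.2 ((Ideal.span_singleton_le_iff_mem _).2 hbP)
  obtain ⟨c, hc⟩ := hdvd
  have hbe' : be ∈ P * c := hc ▸ Ideal.mem_span_singleton_self be
  have hbc : be ∈ c := (Ideal.mul_le_right : P * c ≤ c) hbe'
  have hcP : IsCoprime c P := by
    rw [Ideal.isCoprime_iff_sup_eq]
    by_contra hne
    have h1 : P = c ⊔ P := hmax.eq_of_le hne le_sup_right
    have h2 : c ≤ P := h1 ▸ le_sup_left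
    have h4 : P * c ≤ P * P := Ideal.mul_mono_right h2
    exact hbP2 (by rw [pow_two]; exact h4 hbe')
  have hcQ : IsCoprime c (Pc P * sp ((2 : ℕ) : OO A B)) :=
    Ideal.isCoprime_iff_exists.2 ⟨be, hbc, 1 - be, by
      have := (Pc P * sp ((2 : ℕ) : OO A B)).neg_mem hb1
      rwa [neg_sub] at this, by ring⟩
  have hcall : IsCoprime c (sp ((p : ℕ) : OO A B) * sp ((2 : ℕ) : OO A B)) := by
    have h1 : (sp ((p : ℕ) : OO A B) : Ideal (OO A B)) = Pc P * P ^ er := hidl
    rw [h1]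
    have h2 : IsCoprime c ((Pc P * sp ((2 : ℕ) : OO A B)) * P ^ er) :=
      hcQ.mul_right (hcP.pow_right)
    have h3 : Pc P * P ^ er * sp ((2 : ℕ) : OO A B) =
        (Pc P * sp ((2 : ℕ) : OO A B)) * P ^ er := by ring
    rw [h3]; exact h2
  -- the integer `k`
  obtain ⟨k, hkc, hkodd, hkp⟩ : ∃ k : ℕ, ((k : ℕ) : OO A B) ∈ c ∧ Odd k ∧ ¬ p ∣ k := by
    obtain ⟨x, hx, y, hy, hxy⟩ := Ideal.isCoprime_iff_exists.1 hcall
    rw [Ideal.span_singleton_mul_span_singleton] at hy
    obtain ⟨z, rfl⟩ := Ideal.mem_span_singleton.1 hy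
    have hx' : x = 1 - ((p : ℕ) : OO A B) * ((2 : ℕ) : OO A B) * z := by
      linear_combination hxy
    obtain ⟨t, ht⟩ := nm_one_sub (A := A) (B := B) p z
    rw [← hx'] at ht
    have hnn := nm_nonneg hcq x
    refine ⟨(nm x).toNat, ?_, ?_, ?_⟩
    · have h1 : (((nm x).toNat : ℕ) : OO A B) = x * star x := by
        rw [mul_star]
        have h2 : (((nm x).toNat : ℕ) : ℤ) = nm x := Int.toNat_of_nonneg hnn
        rw [← h2]
        push_cast
        rfl
      rw [h1]
      exact c.mul_mem_right _ hx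
    · have h2 : (((nm x).toNat : ℕ) : ℤ) = nm x := Int.toNat_of_nonneg hnn
      have h3 : Odd (((nm x).toNat : ℕ) : ℤ) := ⟨p * t, by rw [h2, ht]; ring⟩
      exact_mod_cast h3
    · intro hd
      have h2 : (((nm x).toNat : ℕ) : ℤ) = nm x := Int.toNat_of_nonneg hnn
      have h3 : (p : ℤ) ∣ nm x := by rw [← h2]; exact_mod_cast hd
      rw [ht] at h3
      have h4 : (p : ℤ) ∣ 1 := by
        have h5 : (p : ℤ) ∣ 2 * p * t := ⟨2 * t, by ring⟩
        exact (Int.dvd_add_left h5).1 h3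
      have h5 : p ∣ 1 := by exact_mod_cast h4
      exact h.pp.one_lt.ne' (Nat.dvd_one.1 h5)
  -- the valuation of `be`
  have hvk : V.valuation (k : ℂ) = 1 := h.vnat hkp
  have hpow : sp be ^ er * Pc P = sp ((p : ℕ) : OO A B) * c ^ er := by
    have h1 : (sp ((p : ℕ) : OO A B) : Ideal (OO A B)) = Pc P * P ^ er := hidl
    rw [h1, hc]; ring
  have hvb : V.valuation (emb be) ^ er = V.valuation (p : ℂ) := by
    refine le_antisymm ?_ ?_
    · obtain ⟨y, hy, hyP⟩ := hnot _ hPc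
      have h1 : be ^ er * y ∈ sp be ^ er * Pc P :=
        Ideal.mul_mem_mul (Ideal.pow_mem_pow (Ideal.mem_span_singleton_self _) _) hy
      rw [hpow] at h1
      obtain ⟨z, hz⟩ := Ideal.mem_span_singleton.1 (Ideal.mul_le_left h1)
      have h2 := congrArg (fun x => V.valuation (emb x)) hz
      simp only [emb_mul hcq, emb_pow hcq, emb_natCast hcq, map_mul, map_pow] at h2
      rw [h.vemb_one hyP, mul_one] at h2
      rw [h2]
      calc V.valuation (p : ℂ) * V.valuation (emb z) ≤ V.valuation (p : ℂ) * 1 :=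
            mul_le_mul_right (vemb_le hcq V z) _
        _ = _ := mul_one _
    · obtain ⟨t, ht, htP⟩ := hnot _ (hcP.pow_left (m := er))
      have h1 : ((p : ℕ) : OO A B) * t ∈ sp ((p : ℕ) : OO A B) * c ^ er :=
        Ideal.mul_mem_mul (Ideal.mem_span_singleton_self _) ht
      rw [← hpow] at h1
      have h1' := Ideal.mul_le_left h1
      rw [Ideal.span_singleton_pow] at h1'
      obtain ⟨z, hz⟩ := Ideal.mem_span_singleton.1 h1'
      have h2 := congrArg (fun x => V.valuation (emb x)) hz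
      simp only [emb_mul hcq, emb_pow hcq, emb_natCast hcq, map_mul, map_pow] at h2
      rw [h.vemb_one htP, mul_one] at h2
      rw [h2]
      calc V.valuation (emb be) ^ er * V.valuation (emb z) ≤ V.valuation (emb be) ^ er * 1 :=
            mul_le_mul_right (vemb_le hcq V z) _
        _ = _ := mul_one _
  -- the isogeny
  have hmu := hq.1
  have hbe0 : be ≠ 0 := fun h0 => hbP2 (by rw [h0]; exact (P ^ 2).zero_mem)
  have hemb0 : emb be ≠ 0 := emb_ne_zero hcq hbe0
  have hnu : emb be / mu ≠ 0 := div_ne_zero hemb0 hmu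
  have hisg : Isg M L (emb be / mu) := by
    intro w hw
    have h1 : mu * (w / mu) ∈ M.lattice := by rwa [mul_div_cancel₀ _ hmu]
    have h2 := (hq.2 _).1 h1 be hbP
    have e : emb be / mu * w = emb be * (w / mu) := by ring
    rw [e]; exact h2
  have hker : ∀ z, emb be / mu * z ∈ L.lattice → (k : ℂ) * z ∈ M.lattice := by
    intro z hz
    have e : (k : ℂ) * z = mu * ((k : ℂ) * (z / mu)) := by field_simp
    rw [e, hq.2]
    intro x hx
    have h1 : x * ((k : ℕ) : OO A B) ∈ sp be := by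
      rw [hc]; exact Ideal.mul_mem_mul hx hkc
    obtain ⟨s, hs⟩ := Ideal.mem_span_singleton.1 h1
    have h2 := congrArg emb hs
    rw [emb_mul hcq, emb_mul hcq, emb_natCast hcq] at h2
    have e2 : emb x * ((k : ℂ) * (z / mu)) = emb s * (emb be / mu * z) := by
      have : emb x * ((k : ℂ) * (z / mu)) = (emb x * k) * (z / mu) := by ring
      rw [this, h2]; ring
    rw [e2]
    exact hcm s _ hz
  obtain ⟨R, hR⟩ := (u_BAC.2 M L _ hnu hisg).1
  have h1 := (hISO V M L u' e' lam' u e lam (emb be / mu) k h.v2 hgM hgL hnu hisg hkodd hvk hker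
    R hR).1
  have hu := hgL.u0
  have hu' := hgM.u0
  have h2 : V.valuation (mu * u' / u) = V.valuation (emb be) := by
    have e : emb be = (emb be / mu * u / u') * (mu * u' / u) := by field_simp
    have h3 := congrArg V.valuation e
    rw [map_mul, h1, one_mul] at h3
    exact h3.symm
  rw [h2]; exact hvb

end

end Pool.Agent.OBR
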