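import Pool.Agent.OB.StR

/-!
# OB, block GR, module NFI (helper99): 2 inert, no far point
-/

set_option autoImplicit false

namespace Pool.Agent.OBR

open _root_.MU3 Pool.Agent.MU3A Pool.Agent.MU3B Pool.Agent.RI Pool.Agent.MUX Pool.Agent.MUXU
open Pool.Agent.NS Pool.Agent.NSR Pool.Agent.OB

noncomputable section

namespace NFIx

lemma zmul_mem (L : PeriodPair) {z : ℂ} (hz : z ∈ L.lattice) (k : ℤ) :
    (k : ℂ) * z ∈ L.lattice := by
  have h := L.lattice.smul_mem k hz
  rwa [zsmul_eq_mul] at h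

/-- the common part: `(emb ⟨2 j, 1⟩ - 1) w ∈ L` gives `emb ⟨-1, 1⟩ w ∈ L` -/
lemma key {A B : ℤ} (h : CQ A B) (L : PeriodPair) {w : ℂ} (h2 : 2 * w ∈ L.lattice) (j : ℤ)
    (h1 : emb (⟨2 * j, 1⟩ : OO A B) * w - w ∈ L.lattice) :
    emb (⟨-1, 1⟩ : OO A B) * w ∈ L.lattice := by
  have e : emb (⟨-1, 1⟩ : OO A B) * w =
      (emb (⟨2 * j, 1⟩ : OO A B) * w - w) - (j : ℂ) * (2 * w) := by
    simp only [emb]
    push_cast
    ring
  rw [e]
  exact sub_mem h1 (zmul_mem L h2 j)

end NFIx

open NFIx in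
/-- NFI. -/
theorem o_NFI (hFIX : So_FIX) : So_NFI := by
  intro p er A B P V hC hB hA b L om hL w d hF
  subst hB
  have hcq := hC.cq
  have hneg : A < 0 := by
    have := hcq.neg
    omega
  have hcm : HasCM A 1 L := hL.hasCM hcq
  -- one of the two norms is prime to `p`
  have hj : ∃ j : ℤ, ∃ n : ℕ, nm (⟨2 * j, 1⟩ : OO A 1) = (n : ℤ) ∧ Odd n ∧ ¬ p ∣ n := by
    have hA1 : Odd A := by
      rcases Int.even_or_odd A with h | h
      · exact absurd h.two_dvd hA
      · exact h
    by_cases hp : ((p : ℕ) : ℤ) ∣ -A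
    · have hp6 : ¬ ((p : ℕ) : ℤ) ∣ 6 - A := by
        intro h6
        have h7 : ((p : ℕ) : ℤ) ∣ 6 := by
          have := dvd_sub h6 hp
          simpa using this
        have h8 : p ∣ 6 := by exact_mod_cast h7
        have h9 : p ≤ 6 := Nat.le_of_dvd (by norm_num) h8
        have h10 := hC.p5
        have h11 := hC.pp
        have h12 : p = 5 ∨ p = 6 := by omega
        rcases h12 with rfl | rfl
        · norm_num at h8
        · norm_num at h11
      refine ⟨1, (6 - A).toNat, ?_, ?_, ?_⟩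
      · rw [Int.toNat_of_nonneg (by omega)]
        simp only [nm]
        ring
      · have h1 : Odd (((6 - A).toNat : ℕ) : ℤ) := by
          rw [Int.toNat_of_nonneg (by omega)]
          exact Even.sub_odd (by decide) hA1
        exact_mod_cast h1
      · intro h1
        apply hp6
        have h2 : ((p : ℕ) : ℤ) ∣ (((6 - A).toNat : ℕ) : ℤ) := by exact_mod_cast h1
        rwa [Int.toNat_of_nonneg (by omega)] at h2
    · refine ⟨0, (-A).toNat, ?_, ?_, ?_⟩
      · rw [Int.toNat_of_nonneg (by omega)]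
        simp only [nm]
        ring
      · have h1 : Odd (((-A).toNat : ℕ) : ℤ) := by
          rw [Int.toNat_of_nonneg (by omega)]
          exact hA1.neg
        exact_mod_cast h1
      · intro h1
        apply hp
        have h2 : ((p : ℕ) : ℤ) ∣ (((-A).toNat : ℕ) : ℤ) := by exact_mod_cast h1
        rwa [Int.toNat_of_nonneg (by omega)] at h2
  obtain ⟨j, n, hn, hodd, hpn⟩ := hj
  have h1 := hFIX A 1 V hcq hC.v2 b L om hL w d hF ⟨2 * j, 1⟩ n hn hodd (hC.vnat hpn)
  have h2 := key hcq L hF.two j h1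
  have h3 := hcm (star (⟨-1, 1⟩ : OO A 1)) _ h2
  have h4 : emb (star (⟨-1, 1⟩ : OO A 1)) * (emb (⟨-1, 1⟩ : OO A 1) * w) = -(A : ℂ) * w := by
    rw [← mul_assoc, ← emb_mul hcq, mul_comm (star _) _, mul_star, emb_intCast hcq]
    simp only [nm]
    push_cast
    ring
  rw [h4] at h3
  obtain ⟨c, hc⟩ : Odd A := by
    rcases Int.even_or_odd A with h | h
    · exact absurd h.two_dvd hA
    · exact h
  apply hF.ne
  have h5 : w = -(-(A : ℂ) * w) - (c : ℂ) * (2 * w) := by
    rw [hc]
    push_cast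
    ring
  rw [h5]
  exact sub_mem (neg_mem h3) (zmul_mem L hF.two c)

end

end Pool.Agent.OBR
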