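import Pool.Agent.OB.StR

/-!
# OBR_NFR: two ramified, no far point (helper69)
-/

set_option autoImplicit false

namespace Pool.Agent.OBR

open _root_.MU3 Pool.Agent.MU3A Pool.Agent.MU3B Pool.Agent.RI Pool.Agent.MUX Pool.Agent.MUXU
open Pool.Agent.NS Pool.Agent.NSR Pool.Agent.OB

noncomputable section

namespace NFRx

/-- reduction modulo the prime above two -/
def phi (A : ℤ) : OO A 0 →+* ZMod 2 where
  toFun x := ((x.re + A * x.im : ℤ) : ZMod 2)
  map_one' := by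
    rw [QuadraticAlgebra.re_one, QuadraticAlgebra.im_one]
    simp
  map_zero' := by
    rw [QuadraticAlgebra.re_zero, QuadraticAlgebra.im_zero]
    simp
  map_add' x y := by
    simp only [QuadraticAlgebra.re_add, QuadraticAlgebra.im_add]
    push_cast
    ring
  map_mul' x y := by
    have hA : (A : ZMod 2) * A = A := by
      generalize (A : ZMod 2) = a
      revert a
      decide
    simp only [QuadraticAlgebra.re_mul, QuadraticAlgebra.im_mul]
    push_cast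
    linear_combination (-(x.im : ZMod 2) * y.im) * hA

lemma phi_apply {A : ℤ} (x : OO A 0) : phi A x = ((x.re + A * x.im : ℤ) : ZMod 2) := rfl

/-- the prime above two -/
def qq (A : ℤ) : Ideal (OO A 0) := RingHom.ker (phi A)

lemma phi_surj (A : ℤ) : Function.Surjective (phi A) := by
  intro y
  refine ⟨((y.val : ℤ) : OO A 0), ?_⟩
  rw [phi_apply, QuadraticAlgebra.re_intCast, QuadraticAlgebra.im_intCast]
  simp

lemma nI_qq (A : ℤ) : nI (qq A) = 2 := by
  have e := RingHom.quotientKerEquivOfSurjective (phi_surj A)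
  have h1 : Nat.card (OO A 0 ⧸ RingHom.ker (phi A)) = Nat.card (ZMod 2) :=
    Nat.card_congr e.toEquiv
  have h2 : Nat.card (ZMod 2) = 2 := Nat.card_zmod 2
  exact h1.trans h2

lemma mem_qq {A : ℤ} (x : OO A 0) : x ∈ qq A ↔ (2 : ℤ) ∣ x.re + A * x.im := by
  unfold qq
  rw [RingHom.mem_ker, phi_apply]
  exact ZMod.intCast_zmod_eq_zero_iff_dvd _ 2

lemma two_mem (A : ℤ) : ((2 : ℤ) : OO A 0) ∈ qq A := by
  rw [mem_qq, QuadraticAlgebra.re_intCast, QuadraticAlgebra.im_intCast]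
  simp

lemma qq_ne {A : ℤ} (h : CQ A 0) : qq A ≠ ⊥ := by
  intro h0
  have h1 := two_mem A
  rw [h0, Ideal.mem_bot] at h1
  have h2 : ((2 : ℕ) : OO A 0) ≠ 0 := natCast_ne_zero' h two_ne_zero
  exact h2 (by exact_mod_cast h1)

/-- killed by two and by `th`: killed by the prime above two -/
lemma tor_of {A c : ℤ} (h : CQ A 0) (hc : (2 : ℤ) ∣ A - c) {L : PeriodPair} {z : ℂ}
    (h2 : 2 * z ∈ L.lattice) (ht : emb (⟨c, 1⟩ : OO A 0) * z ∈ L.lattice) : Tor (qq A) L z := by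
  intro x hx
  rw [mem_qq] at hx
  obtain ⟨k, hk⟩ := hx
  obtain ⟨l, hl⟩ := hc
  have e : emb x * z = ((k - (l + c) * x.im : ℤ) : ℂ) * (2 * z) + ((x.im : ℤ) : ℂ) *
      (emb (⟨c, 1⟩ : OO A 0) * z) := by
    have h3 : (x.re : ℂ) = 2 * k - (2 * l + c) * x.im := by
      have h4 : x.re = 2 * k - (2 * l + c) * x.im := by
        have h5 : 2 * l + c = A := by linarith
        rw [h5]
        linarith
      rw [h4]
      push_cast
      ring
    unfold emb
    simp only [Int.cast_one, one_mul]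
    rw [h3]
    push_cast
    ring
  rw [e, ← zsmul_eq_mul, ← zsmul_eq_mul]
  exact add_mem (zsmul_mem h2 _) (zsmul_mem ht _)

/-- the number `c`, `0` or `1` -/
lemma exists_c (A : ℤ) : ∃ c : ℤ, (c = 0 ∨ c = 1) ∧ (2 : ℤ) ∣ A - c := by
  rcases Int.even_or_odd A with ⟨k, hk⟩ | ⟨k, hk⟩
  · exact ⟨0, Or.inl rfl, k, by linarith⟩
  · exact ⟨1, Or.inr rfl, k, by linarith⟩

/-- `th² = 2 ε` -/
lemma th_sq {A c : ℤ} (hc : c = 0 ∨ c = 1) (hA : (2 : ℤ) ∣ A - c) :
    ∃ ep : OO A 0, (⟨c, 1⟩ : OO A 0) * ⟨c, 1⟩ = ep * ((2 : ℤ) : OO A 0) := by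
  obtain ⟨l, hl⟩ := hA
  have h1 : ∃ m : ℤ, c * c + A = 2 * m := by
    rcases hc with rfl | rfl
    · exact ⟨l, by linarith⟩
    · exact ⟨l + 1, by linarith⟩
  obtain ⟨m, hm⟩ := h1
  refine ⟨⟨m, c⟩, ?_⟩
  apply QuadraticAlgebra.ext
  · simp only [QuadraticAlgebra.re_mul, QuadraticAlgebra.re_intCast, QuadraticAlgebra.im_intCast]
    simp only [Int.cast_id]
    linarith
  · simp only [QuadraticAlgebra.im_mul, QuadraticAlgebra.re_intCast, QuadraticAlgebra.im_intCast]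
    simp only [Int.cast_id]
    ring

/-- `th` kills the far point -/
lemma th_far {p er : ℕ} {A c : ℤ} {P : Ideal (OO A 0)} {V : ValuationSubring ℂ}
    (h1 : So_FIX) (h : CaseO p er A 0 P V) (hc : c = 0 ∨ c = 1) (hA : (2 : ℤ) ∣ A - c)
    {b : Ideal (OO A 0)} {L : PeriodPair} {om : ℂ} (hL : IsLI b L om) {w : ℂ}
    {d : V.ValueGroup} (hw : Far V L w d) : emb (⟨c, 1⟩ : OO A 0) * w ∈ L.lattice := by
  have hneg : A < 0 := by
    have := h.cq.neg
    nlinarith
  have key : ∀ j : ℤ, ¬ (p : ℤ) ∣ (1 - c + 2 * j) ^ 2 - A →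
      emb (⟨c, 1⟩ : OO A 0) * w ∈ L.lattice := by
    intro j hj
    have hpos : 0 ≤ (1 - c + 2 * j) ^ 2 - A := by nlinarith [sq_nonneg (1 - c + 2 * j)]
    obtain ⟨n, hn⟩ := Int.eq_ofNat_of_zero_le hpos
    have hnm : nm (⟨1 - c + 2 * j, 1⟩ : OO A 0) = (n : ℤ) := by
      rw [← hn]
      simp only [nm]
      ring
    have hodd : Odd n := by
      have : Odd ((n : ℕ) : ℤ) := by
        rw [← hn]
        obtain ⟨l, hl⟩ := hA
        rcases hc with rfl | rfl
        · refine ⟨2 * j + 2 * j ^ 2 - l, ?_⟩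
          have : A = 2 * l := by linarith
          rw [this]
          ring
        · refine ⟨2 * j ^ 2 - l - 1, ?_⟩
          have : A = 2 * l + 1 := by linarith
          rw [this]
          ring
      exact_mod_cast this
    have hpn : ¬ p ∣ n := by
      intro hd
      apply hj
      rw [hn]
      exact_mod_cast hd
    have h3 := h1 A 0 V h.cq h.v2 b L om hL w d hw ⟨1 - c + 2 * j, 1⟩ n hnm hodd (h.vnat hpn)
    have e : emb (⟨c, 1⟩ : OO A 0) * w = (emb (⟨1 - c + 2 * j, 1⟩ : OO A 0) * w - w) -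
        ((j - c : ℤ) : ℂ) * (2 * w) := by
      unfold emb
      push_cast
      ring
    rw [e, ← zsmul_eq_mul]
    exact sub_mem h3 (zsmul_mem hw.two _)
  by_cases h0 : (p : ℤ) ∣ (1 - c + 2 * 0) ^ 2 - A
  · apply key 1
    intro h4
    have h5 : (p : ℤ) ∣ 8 := by
      have h6 := dvd_sub h4 h0
      rcases hc with rfl | rfl
      · have e : ((1 - 0 + 2 * 1) ^ 2 - A) - ((1 - 0 + 2 * 0) ^ 2 - A) = (8 : ℤ) := by ring
        rwa [e] at h6
      · have e : ((1 - 1 + 2 * 1) ^ 2 - A) - ((1 - 1 + 2 * 0) ^ 2 - A) = (4 : ℤ) := by ring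
        rw [e] at h6
        exact h6.trans (by norm_num)
    have h7 : p ∣ 2 ^ 3 := by
      have : (p : ℤ) ∣ ((2 ^ 3 : ℕ) : ℤ) := by
        norm_num
        exact h5
      exact_mod_cast this
    have h8 := Nat.le_of_dvd two_pos (h.pp.dvd_of_dvd_pow h7)
    have := h.p5
    omega
  · exact key 0 h0

end NFRx

open NFRx in
theorem o_NFR (h1 : So_FIX) (h2 : So_IS2) (h3 : So_QUO) (h4 : So_TW3) : So_NFR := by
  intro p er A B P V h hB b L om hL w d hw
  subst hB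
  obtain ⟨c, hc, hA⟩ := exists_c A
  have hcm := hL.hasCM h.cq
  obtain ⟨b', M, om', T, hM, hT, hT2, hMT, hMo⟩ :=
    h3 A 0 h.cq (qq A) (qq_ne h.cq) (nI_qq A) b L om hL
  have hLM : ∀ z, z ∈ L.lattice → z ∈ M.lattice := fun z hz => (hMo z).2 (Or.inl hz)
  have hwM : w ∈ M.lattice := (hMT w).2 (tor_of h.cq hA hw.two (th_far h1 h hc hA hL hw))
  have hwT : w - T ∈ L.lattice := ((hMo w).1 hwM).resolve_left hw.ne
  obtain ⟨⟨w', hw'⟩, hall⟩ := (h2 V L M w T d h.v2 hw hT hT2 hMo).1 hwT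
  -- another point of order two
  obtain ⟨t, ht, ht2, htT⟩ : ∃ t, t ∉ L.lattice ∧ 2 * t ∈ L.lattice ∧ t - T ∉ L.lattice := by
    obtain ⟨w₁, w₂, w₃, hh⟩ := (h4 L).1
    by_cases h5 : w₁ - T ∈ L.lattice
    · refine ⟨w₂, hh.n₂, hh.t₂, fun h6 => hh.d₁₂ ?_⟩
      have := sub_mem h5 h6
      rwa [sub_sub_sub_cancel_right] at this
    · exact ⟨w₁, hh.n₁, hh.t₁, h5⟩
  refine hall w' _ hw' t ht ht2 htT ?_
  have htM : t ∉ M.lattice := fun h5 => ((hMo t).1 h5).elim ht htT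
  obtain ⟨b'', M', om'', T', hM', hT', hT'2, hMT', hMo'⟩ :=
    h3 A 0 h.cq (qq A) (qq_ne h.cq) (nI_qq A) b' M om' hM
  have h6 : emb (⟨c, 1⟩ : OO A 0) * t ∈ M.lattice := by
    rw [hMT]
    refine tor_of h.cq hA ?_ ?_
    · have := hcm ⟨c, 1⟩ _ ht2
      have e : 2 * (emb (⟨c, 1⟩ : OO A 0) * t) = emb (⟨c, 1⟩ : OO A 0) * (2 * t) := by ring
      rwa [e]
    · obtain ⟨ep, hep⟩ := th_sq hc hA
      have e : emb (⟨c, 1⟩ : OO A 0) * (emb (⟨c, 1⟩ : OO A 0) * t) = emb ep * (2 * t) := by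
        have h7 := congrArg emb hep
        rw [emb_mul h.cq, emb_mul h.cq, emb_intCast h.cq] at h7
        push_cast at h7
        linear_combination t * h7
      rw [e]
      exact hcm ep _ ht2
  have htM' : t ∈ M'.lattice := (hMT' t).2 (tor_of h.cq hA (hLM _ ht2) h6)
  have hwM' : w' ∈ M'.lattice := (hMT' w').2
    (tor_of h.cq hA hw'.two (th_far h1 h hc hA hM hw'))
  have a1 := ((hMo' t).1 htM').resolve_left htM
  have a2 := ((hMo' w').1 hwM').resolve_left hw'.ne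
  have := sub_mem a1 a2
  rwa [sub_sub_sub_cancel_right] at this

end

end Pool.Agent.OBR
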