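import Pool.Agent.OB.StR
import Pool.Agent.MUX.ZY

/-!
# OB, block GR: NFS, two split, no far point (helper51)
-/

set_option autoImplicit false

namespace Pool.Agent.OBR

open _root_.MU3 Pool.Agent.MU3A Pool.Agent.MU3B Pool.Agent.RI Pool.Agent.MUX Pool.Agent.MUXU
open Pool.Agent.NS Pool.Agent.NSR Pool.Agent.OB

noncomputable section

namespace NFSx

/-- `φ₀ : x ↦ re x`, `φ₁ : x ↦ re x + im x` modulo two; `c = 0, 1` -/
def phi (A c : ℤ) (hA : (2 : ℤ) ∣ A) (hc : c = 0 ∨ c = 1) : OO A 1 →+* ZMod 2 where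
  toFun x := ((x.re + c * x.im : ℤ) : ZMod 2)
  map_one' := by
    rw [QuadraticAlgebra.re_one, QuadraticAlgebra.im_one]
    simp
  map_zero' := by
    rw [QuadraticAlgebra.re_zero, QuadraticAlgebra.im_zero]
    simp
  map_add' x y := by
    simp only [QuadraticAlgebra.re_add, QuadraticAlgebra.im_add]
    push_cast
    ring
  map_mul' x y := by
    have h2 : (A : ZMod 2) = 0 := (ZMod.intCast_zmod_eq_zero_iff_dvd _ 2).2 hA
    simp only [QuadraticAlgebra.re_mul, QuadraticAlgebra.im_mul]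
    push_cast
    rcases hc with rfl | rfl
    · rw [h2]
      push_cast
      ring
    · rw [h2]
      push_cast
      ring

/-- the primes above two -/
def qq (A c : ℤ) (hA : (2 : ℤ) ∣ A) (hc : c = 0 ∨ c = 1) : Ideal (OO A 1) :=
  RingHom.ker (phi A c hA hc)

section
variable {A c : ℤ} {hA : (2 : ℤ) ∣ A} {hc : c = 0 ∨ c = 1}

lemma phi_apply (x : OO A 1) : phi A c hA hc x = ((x.re + c * x.im : ℤ) : ZMod 2) := rfl

lemma phi_surj : Function.Surjective (phi A c hA hc) := by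
  intro y
  refine ⟨((y.val : ℤ) : OO A 1), ?_⟩
  rw [phi_apply, QuadraticAlgebra.re_intCast, QuadraticAlgebra.im_intCast]
  simp

lemma nI_qq : nI (qq A c hA hc) = 2 := by
  have e := RingHom.quotientKerEquivOfSurjective (phi_surj (A := A) (c := c) (hA := hA) (hc := hc))
  have h1 : Nat.card (OO A 1 ⧸ RingHom.ker (phi A c hA hc)) = Nat.card (ZMod 2) :=
    Nat.card_congr e.toEquiv
  have h2 : Nat.card (ZMod 2) = 2 := Nat.card_zmod 2
  exact h1.trans h2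

lemma mem_qq (x : OO A 1) : x ∈ qq A c hA hc ↔ (2 : ℤ) ∣ x.re + c * x.im := by
  unfold qq
  rw [RingHom.mem_ker, phi_apply]
  exact ZMod.intCast_zmod_eq_zero_iff_dvd _ 2

lemma qq_ne (h : CQ A 1) : qq A c hA hc ≠ ⊥ := by
  intro h0
  have h1 : ((2 : ℤ) : OO A 1) ∈ qq A c hA hc := by
    rw [mem_qq, QuadraticAlgebra.re_intCast, QuadraticAlgebra.im_intCast]
    simp
  rw [h0, Ideal.mem_bot] at h1
  have h2 : ((2 : ℕ) : OO A 1) ≠ 0 := natCast_ne_zero' h two_ne_zero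
  exact h2 (by exact_mod_cast h1)

end

/-- the two ideals are coprime -/
lemma cop {A : ℤ} (hA : (2 : ℤ) ∣ A) : IsCoprime (qq A 0 hA (Or.inl rfl))
    (qq A 1 hA (Or.inr rfl)) := by
  rw [Ideal.isCoprime_iff_exists]
  refine ⟨-⟨0, 1⟩, ?_, ⟨1, 1⟩, ?_, ?_⟩
  · rw [mem_qq]
    simp
  · rw [mem_qq]
    norm_num
  · apply QuadraticAlgebra.ext
    · rw [QuadraticAlgebra.re_one]
      simp
    · rw [QuadraticAlgebra.im_one]
      simp

/-- the product is in `(2)` -/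
lemma prod {A : ℤ} (hA : (2 : ℤ) ∣ A) {x y : OO A 1} (hx : x ∈ qq A 0 hA (Or.inl rfl))
    (hy : y ∈ qq A 1 hA (Or.inr rfl)) : ∃ z : OO A 1, x * y = z * ((2 : ℕ) : OO A 1) := by
  rw [mem_qq] at hx hy
  obtain ⟨k, hk⟩ := hx
  obtain ⟨l, hl⟩ := hy
  obtain ⟨a, ha⟩ := hA
  refine ⟨⟨k * y.re + a * x.im * y.im, k * y.im + x.im * l⟩, ?_⟩
  have hx0 : x.re = 2 * k := by linarith
  apply QuadraticAlgebra.ext
  · simp only [QuadraticAlgebra.re_mul, QuadraticAlgebra.re_natCast, QuadraticAlgebra.im_natCast]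
    push_cast
    linear_combination y.re * hx0 + x.im * y.im * ha
  · simp only [QuadraticAlgebra.im_mul, QuadraticAlgebra.re_natCast, QuadraticAlgebra.im_natCast]
    rw [hx0]
    have : y.re = 2 * l - y.im := by linarith
    rw [this]
    push_cast
    ring

/-- one step -/
lemma step {A : ℤ} {V : ValuationSubring ℂ} (hIS : So_IS2) (hQ : So_QUO) (h : CQ A 1)
    (h2 : V.valuation (2 : ℂ) = 1) {q q' : Ideal (OO A 1)} (hq : q ≠ ⊥) (hn : nI q = 2)
    (hcop : IsCoprime q q')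
    (hqq : ∀ x ∈ q, ∀ y ∈ q', ∃ z : OO A 1, x * y = z * ((2 : ℕ) : OO A 1))
    {b : Ideal (OO A 1)} {L : PeriodPair} {om : ℂ} (hL : IsLI b L om) {w : ℂ}
    {d : V.ValueGroup} (hw : Far V L w d) (hnt : ¬ Tor q L w) :
    ∃ (b' : Ideal (OO A 1)) (M : PeriodPair) (om' : ℂ) (d' : V.ValueGroup), IsLI b' M om' ∧
      (∀ z, z ∈ M.lattice ↔ Tor q L z) ∧ Far V M w d' ∧ d' ^ 2 = d ∧ ¬ Tor q M w := by
  obtain ⟨b', M, om', T, hM, hT, h2T, hMq, hMT⟩ := hQ A 1 h q hq hn b L om hL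
  have hcm := hL.hasCM h
  have hcmM := hM.hasCM h
  have hTM : T ∈ M.lattice := (hMT T).2 (Or.inr (by rw [sub_self]; exact zero_mem _))
  have hwT : w - T ∉ L.lattice := fun hk => hnt ((hMq w).1 ((hMT w).2 (Or.inr hk)))
  obtain ⟨d', hd', hf⟩ := (hIS V L M w T d h2 hw hT h2T hMT).2 hwT
  refine ⟨b', M, om', d', hM, hMq, hf, hd', fun hk => ?_⟩
  have hk' : Tor q' M w := by
    intro y hy
    rw [hMq]
    intro x hx
    obtain ⟨z, hz⟩ := hqq x hx y hy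
    have e : emb x * (emb y * w) = emb z * (2 * w) := by
      rw [← mul_assoc, ← emb_mul h, hz, emb_mul h, emb_natCast h]
      push_cast
      ring
    rw [e]
    exact hcm z _ hw.two
  exact hnt ((hMq w).1 (tor_coprime h hcop hk hk'))

/-- `Tor (q ^ (k + 1))` -/
lemma tor_pow {A : ℤ} (h : CQ A 1) {q : Ideal (OO A 1)} {L L' M : PeriodPair} {k : ℕ}
    (hL' : ∀ z, z ∈ L'.lattice ↔ Tor (q ^ k) L z) (hM : ∀ z, z ∈ M.lattice ↔ Tor q L' z) (z : ℂ) :
    z ∈ M.lattice ↔ Tor (q ^ (k + 1)) L z := by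
  rw [hM]
  constructor
  · intro hz x hx
    rw [pow_succ] at hx
    refine Submodule.mul_induction_on hx ?_ ?_
    · intro y hy x hx
      have h1 := (hL' _).1 (hz x hx) y hy
      rwa [← mul_assoc, ← emb_mul h] at h1
    · intro x y hx hy
      rw [emb_add h, add_mul]
      exact add_mem hx hy
  · intro hz x hx
    rw [hL']
    intro y hy
    rw [← mul_assoc, ← emb_mul h]
    refine hz _ ?_
    rw [pow_succ]
    exact Ideal.mul_mem_mul hy hx

/-- the chain -/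
lemma chain {A : ℤ} {V : ValuationSubring ℂ} (hIS : So_IS2) (hQ : So_QUO) (h : CQ A 1)
    (h2 : V.valuation (2 : ℂ) = 1) {q q' : Ideal (OO A 1)} (hq : q ≠ ⊥) (hn : nI q = 2)
    (hcop : IsCoprime q q')
    (hqq : ∀ x ∈ q, ∀ y ∈ q', ∃ z : OO A 1, x * y = z * ((2 : ℕ) : OO A 1))
    {b : Ideal (OO A 1)} {L : PeriodPair} {om : ℂ} (hL : IsLI b L om) {w : ℂ}
    {d : V.ValueGroup} (hw : Far V L w d) (hnt : ¬ Tor q L w) (k : ℕ) :
    ∃ (b' : Ideal (OO A 1)) (M : PeriodPair) (om' : ℂ) (d' : V.ValueGroup), IsLI b' M om' ∧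
      (∀ z, z ∈ M.lattice ↔ Tor (q ^ k) L z) ∧ Far V M w d' ∧ d' ^ 2 ^ k = d ∧ ¬ Tor q M w := by
  induction k with
  | zero =>
    refine ⟨b, L, om, d, hL, fun z => ?_, hw, ?_, hnt⟩
    · rw [pow_zero, Ideal.one_eq_top]
      exact (tor_top h (hL.hasCM h)).symm
    · rw [pow_zero, pow_one]
  | succ k ih =>
    obtain ⟨b', L', om', d', hL', hz', hf', hd', hnt'⟩ := ih
    obtain ⟨b₂, M, om₂, d₂, hM, hzM, hfM, hdM, hntM⟩ := step hIS hQ h h2 hq hn hcop hqq hL' hf' hnt'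
    refine ⟨b₂, M, om₂, d₂, hM, tor_pow h hz' hzM, hfM, ?_, hntM⟩
    rw [pow_succ, mul_comm (2 ^ k) 2, pow_mul, hdM, hd']

/-- no far point, one of the two ideals given -/
lemma no_far {A : ℤ} {V : ValuationSubring ℂ} (hF : So_FRU) (hIS : So_IS2) (hQ : So_QUO)
    (h : CQ A 1) (hfin : ∀ b : Ideal (OO A 1), b ≠ ⊥ → ∃ (n : ℕ) (x : OO A 1), 0 < n ∧ x ≠ 0 ∧
      b ^ n = sp x)
    (h2 : V.valuation (2 : ℂ) = 1) {q q' : Ideal (OO A 1)} (hq : q ≠ ⊥) (hn : nI q = 2)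
    (hcop : IsCoprime q q')
    (hqq : ∀ x ∈ q, ∀ y ∈ q', ∃ z : OO A 1, x * y = z * ((2 : ℕ) : OO A 1))
    {b : Ideal (OO A 1)} {L : PeriodPair} {om : ℂ} (hL : IsLI b L om) {w : ℂ}
    {d : V.ValueGroup} (hw : Far V L w d) (hnt : ¬ Tor q L w) : False := by
  obtain ⟨n, x, hn0, hx, hqx⟩ := hfin q hq
  obtain ⟨b', M, om', d', hM, hz, hf, hd, -⟩ := chain hIS hQ h h2 hq hn hcop hqq hL hw hnt n
  have hz' : ∀ z, z ∈ M.lattice ↔ emb x * z ∈ L.lattice := by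
    intro z
    rw [hz, hqx]
    exact tor_span h (hL.hasCM h) x
  have h3 := (hF V M w d' hf).2 L (emb x) (emb_ne_zero h hx) hz'
  obtain ⟨-, h4⟩ := (hF V L w d hw).1 _ _ h3
  rw [h4] at hd
  have h5 : 2 ^ n = 1 + (2 ^ n - 1) := by
    have : 1 ≤ 2 ^ n := Nat.one_le_two_pow
    omega
  have h6 : 2 ^ n - 1 ≠ 0 := by
    have h7 : 2 ^ 1 ≤ 2 ^ n := Nat.pow_le_pow_right (by norm_num) hn0
    omega
  rw [h5, pow_add, pow_one] at hd
  have h8 : d ^ (2 ^ n - 1) = 1 := by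
    have h9 : d * d ^ (2 ^ n - 1) = d * 1 := by rw [mul_one]; exact hd
    exact mul_left_cancel₀ hw.d0 h9
  exact absurd (pow_lt_one₀ zero_le hw.lt h6) (by rw [h8]; exact lt_irrefl _)

end NFSx

open NFSx in
theorem o_NFS (hF : So_FRU) (hIS : So_IS2) (hQ : So_QUO) (_ : So_TW3) : So_NFS := by
  intro p er A B P V hc hB hA b L om hL w d hw
  subst hB
  have h := hc.cq
  have hfin := (Pool.Agent.MUXY.z_LAF A 1 h hc.ex3 hc.ex4).fin
  have h2 : V.valuation (2 : ℂ) = 1 := hc.v2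
  by_cases h1 : Tor (qq A 0 hA (Or.inl rfl)) L w
  · have h3 : ¬ Tor (qq A 1 hA (Or.inr rfl)) L w := fun h3 =>
      hw.ne (tor_coprime h (cop hA) h1 h3)
    exact no_far hF hIS hQ h hfin h2 (qq_ne h) nI_qq (cop hA).symm
      (fun x hx y hy => by
        obtain ⟨z, hz⟩ := NFSx.prod hA hy hx
        exact ⟨z, by rw [mul_comm]; exact hz⟩) hL hw h3
  · exact no_far hF hIS hQ h hfin h2 (qq_ne h) nI_qq (cop hA)
      (fun x hx y hy => NFSx.prod hA hx hy) hL hw h1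

end

end Pool.Agent.OBR
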