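import Pool.Agent.OB.StR

/-!
# OB, block GR: units of `O`, and squares `-1`, `-3`
-/

set_option autoImplicit false

namespace Pool.Agent.OBR

open _root_.MU3 Pool.Agent.MU3A Pool.Agent.MU3B Pool.Agent.RI Pool.Agent.MUX

namespace NSQx

/-- `x ^ 2 = -n` in coordinates -/
lemma sq_neg {A B n : ℤ} (x : OO A B) (h : x ^ 2 = -(n : OO A B)) :
    x.re ^ 2 + A * x.im ^ 2 = -n ∧ 2 * x.re * x.im + B * x.im ^ 2 = 0 := by
  have h1 := congrArg QuadraticAlgebra.re h
  have h2 := congrArg QuadraticAlgebra.im h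
  rw [pow_two] at h1 h2
  simp only [QuadraticAlgebra.re_mul, QuadraticAlgebra.re_neg, QuadraticAlgebra.re_intCast,
    Int.cast_id] at h1
  simp only [QuadraticAlgebra.im_mul, QuadraticAlgebra.im_neg, QuadraticAlgebra.im_intCast,
    neg_zero] at h2
  constructor
  · linear_combination h1
  · linear_combination h2

lemma key {A B : ℤ} (h : CQ A B) (h3 : absD A B ≠ 3) (h4 : absD A B ≠ 4) {n : ℤ}
    (hn : n = 1 ∨ n = 3) (x : OO A B) : x ^ 2 ≠ -(n : OO A B) := by
  intro hx
  obtain ⟨h1, h2⟩ := sq_neg x hx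
  set a := x.re
  set b := x.im
  unfold absD at h3 h4
  have hneg := h.neg
  have hb : b ≠ 0 := by
    intro hb
    rw [hb] at h1
    have := sq_nonneg a
    rcases hn with rfl | rfl <;> nlinarith
  have h5 : 2 * a + B * b = 0 := by
    have h6 : b * (2 * a + B * b) = 0 := by linear_combination h2
    rcases mul_eq_zero.1 h6 with h7 | h7
    · exact absurd h7 hb
    · exact h7
  rcases h.hB with hB | hB
  · subst hB
    have ha : a = 0 := by omega
    rw [ha] at h1
    have hA : A < 0 := by omega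
    have hb1 : 1 ≤ b ^ 2 := by
      have := sq_nonneg b
      have h8 : b ^ 2 ≠ 0 := pow_ne_zero 2 hb
      omega
    have hb2 : b ^ 2 ≤ 3 := by
      rcases hn with rfl | rfl <;> nlinarith
    have hb3 : b ≤ 1 := by nlinarith
    have hb4 : -1 ≤ b := by nlinarith
    have hb5 : b ^ 2 = 1 := by
      have : b = 1 ∨ b = -1 := by omega
      rcases this with h9 | h9 <;> rw [h9] <;> norm_num
    rw [hb5] at h1
    rcases hn with rfl | rfl
    · apply h4
      omega
    · refine (h.fund0 rfl).2 ⟨-1, by omega⟩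
  · subst hB
    have hba : b = -2 * a := by omega
    rw [hba] at h1
    have h6 : a ^ 2 * (1 + 4 * A) = -n := by linear_combination h1
    have ha0 : a ≠ 0 := by
      rintro h7
      apply hb
      rw [hba, h7]
      norm_num
    have ha1 : 1 ≤ a ^ 2 := by
      have := sq_nonneg a
      have h8 : a ^ 2 ≠ 0 := pow_ne_zero 2 ha0
      omega
    have ha2 : a ^ 2 ≤ 3 := by
      rcases hn with rfl | rfl <;> nlinarith
    have ha3 : a ≤ 1 := by nlinarith
    have ha4 : -1 ≤ a := by nlinarith
    have ha5 : a ^ 2 = 1 := by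
      have : a = 1 ∨ a = -1 := by omega
      rcases this with h9 | h9 <;> rw [h9] <;> norm_num
    rw [ha5] at h6
    rcases hn with rfl | rfl
    · omega
    · apply h3
      omega

lemma re1 {A B : ℤ} : (1 : OO A B).re = 1 := rfl

lemma im1 {A B : ℤ} : (1 : OO A B).im = 0 := rfl

lemma units {A B : ℤ} (h : CQ A B) (h3 : absD A B ≠ 3) (h4 : absD A B ≠ 4) (x : OO A B)
    (hx : IsUnit x) : x = 1 ∨ x = -1 := by
  obtain ⟨y, hy⟩ := hx.exists_right_inv
  have h1 : nm x * nm y = 1 := by
    have h8 : nm (1 : OO A B) = 1 := by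
      have h9 := nm_intCast (A := A) (B := B) 1
      rw [Int.cast_one] at h9
      rw [h9]
      norm_num
    rw [← nm_mul h, hy, h8]
  have h2 := nm_nonneg h x
  have h5 : nm x = 1 := by
    rcases Int.eq_one_or_neg_one_of_mul_eq_one h1 with h6 | h6
    · exact h6
    · omega
  unfold nm at h5
  unfold absD at h3 h4
  have hneg := h.neg
  have hb : x.im = 0 := by
    by_contra hb
    have hb1 : 1 ≤ x.im ^ 2 := by
      have := sq_nonneg x.im
      have h8 : x.im ^ 2 ≠ 0 := pow_ne_zero 2 hb
      omega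
    have h6 : (2 * x.re + B * x.im) ^ 2 + (-(B ^ 2 + 4 * A)) * x.im ^ 2 = 4 := by
      linear_combination 4 * h5
    have h7 : -(B ^ 2 + 4 * A) ≤ 4 := by
      have := sq_nonneg (2 * x.re + B * x.im)
      nlinarith
    rcases h.hB with hB | hB
    · subst hB
      apply h4
      omega
    · subst hB
      apply h3
      omega
  rw [hb] at h5
  have h6 : x.re ^ 2 = 1 := by linear_combination h5
  have h8 : x.re = 1 ∨ x.re = -1 := by
    have h9 : (x.re - 1) * (x.re + 1) = 0 := by linear_combination h6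
    rcases mul_eq_zero.1 h9 with h10 | h10
    · left; omega
    · right; omega
  rcases h8 with h7 | h7
  · left
    exact QuadraticAlgebra.ext (h7.trans re1.symm) (hb.trans im1.symm)
  · right
    refine QuadraticAlgebra.ext ?_ ?_
    · rw [QuadraticAlgebra.re_neg, re1]
      exact h7
    · rw [QuadraticAlgebra.im_neg, im1, neg_zero]
      exact hb

end NSQx

theorem o_NSQ : So_NSQ := by
  intro A B h h3 h4
  refine ⟨fun x hx => ?_, fun x hx => ?_, NSQx.units h h3 h4⟩
  · refine NSQx.key h h3 h4 (n := 1) (Or.inl rfl) x ?_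
    rw [hx]
    norm_num
  · refine NSQx.key h h3 h4 (n := 3) (Or.inr rfl) x ?_
    rw [hx]
    norm_num

end Pool.Agent.OBR
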