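import Pool.Agent.OB.StR
import Pool.Agent.MUX.E_RNG
import Pool.Agent.MUX.ZY

/-!
# OB, block GR, module ORD (helper42): the ideal of an element of prime order is principal
-/

set_option autoImplicit false

open WeierstrassCurve Polynomial

namespace Pool.Agent.OBR

open _root_.MU3 Pool.Agent.MU3A Pool.Agent.MU3B Pool.Agent.RI Pool.Agent.MUX Pool.Agent.MUXU
open Pool.Agent.MUXV (GR InK tX)
open Pool.Agent.NS Pool.Agent.NSR Pool.Agent.OB

noncomputable section

namespace ORDx

variable {A B : ℤ}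

/-- `2` is not a unit -/
lemma two_top (h : CQ A B) (e3 : absD A B ≠ 3) (e4 : absD A B ≠ 4) (h4 : So_NSQ) :
    idl (A := A) (B := B) 2 ≠ ⊤ := by
  intro h1
  have h2 : IsUnit (((2 : ℕ) : OO A B)) := Ideal.span_singleton_eq_top.1 h1
  rcases (h4 A B h e3 e4).2.2 _ h2 with h3 | h3
  · have h5 := congrArg emb h3
    rw [emb_natCast h, emb_one h] at h5
    norm_num at h5
  · have h5 := congrArg emb h3
    rw [emb_natCast h, emb_neg h, emb_one h] at h5
    norm_num at h5

/-- powers of ideals -/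
lemma pow_inj_ideal {R : Type*} [CommRing R] [IsDedekindDomain R] {a b : Ideal R} {l : ℕ}
    (hl : l ≠ 0) (h : a ^ l = b ^ l) : a = b := by
  have h1 : a ∣ b := (UniqueFactorizationMonoid.pow_dvd_pow_iff_dvd hl).1 (dvd_of_eq h)
  have h2 : b ∣ a := (UniqueFactorizationMonoid.pow_dvd_pow_iff_dvd hl).1 (dvd_of_eq h.symm)
  exact le_antisymm (Ideal.dvd_iff_le.1 h2) (Ideal.dvd_iff_le.1 h1)

/-- the computation -/
lemma core {R : Type*} [CommRing R] [IsDomain R] {K : Type*} [Field K] (φ : R →+* K)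
    (hu : ∀ x : R, IsUnit x → x = 1 ∨ x = -1) {a a' : Ideal R} {x y al be : R} {l : ℕ}
    (hy : y ≠ 0) (hxy : Ideal.span {x} * a = Ideal.span {y} * a')
    (ha : a ^ l = Ideal.span {al}) (ha' : a' ^ l = Ideal.span {be}) (hbe : φ be = 1)
    (h1 : ∃ s ∈ a, φ s ≠ 0) (h2 : ∃ s ∈ a', φ s ≠ 0) :
    ∃ r, φ al = r ^ l ∨ φ al = -r ^ l := by
  obtain ⟨s, hs, hs0⟩ := h1
  obtain ⟨s', hs', hs0'⟩ := h2
  obtain ⟨t, ht, e1⟩ : ∃ t ∈ a', y * t = x * s := by
    have : x * s ∈ Ideal.span {y} * a' := by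
      rw [← hxy]
      exact Ideal.mul_mem_mul (Ideal.mem_span_singleton_self x) hs
    exact Ideal.mem_span_singleton_mul.1 this
  obtain ⟨t', ht', e2⟩ : ∃ t' ∈ a, x * t' = y * s' := by
    have : y * s' ∈ Ideal.span {x} * a := by
      rw [hxy]
      exact Ideal.mul_mem_mul (Ideal.mem_span_singleton_self y) hs'
    exact Ideal.mem_span_singleton_mul.1 this
  have e3 : t * t' = s * s' := by
    apply mul_left_cancel₀ hy
    linear_combination t' * e1 + s * e2
  have ht0 : φ t ≠ 0 := by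
    intro h
    have h3 := congrArg φ e3
    rw [map_mul, map_mul, h, zero_mul] at h3
    exact (mul_ne_zero hs0 hs0') h3.symm
  have e4 : Associated (x ^ l * al) (y ^ l * be) := by
    rw [← Ideal.span_singleton_eq_span_singleton, ← Ideal.span_singleton_mul_span_singleton,
      ← Ideal.span_singleton_mul_span_singleton, ← Ideal.span_singleton_pow,
      ← Ideal.span_singleton_pow, ← ha, ← ha', ← mul_pow, ← mul_pow, hxy]
  obtain ⟨u, hu1⟩ := e4
  have e5 : t ^ l * al * (u : R) = be * s ^ l := by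
    apply mul_left_cancel₀ (pow_ne_zero l hy)
    calc y ^ l * (t ^ l * al * (u : R)) = (y * t) ^ l * (al * u) := by ring
      _ = (x * s) ^ l * (al * u) := by rw [e1]
      _ = (x ^ l * al * u) * s ^ l := by ring
      _ = y ^ l * be * s ^ l := by rw [hu1]
      _ = y ^ l * (be * s ^ l) := by ring
  have e6 := congrArg φ e5
  simp only [map_mul, map_pow, hbe, one_mul] at e6
  refine ⟨φ s / φ t, ?_⟩
  rw [div_pow]
  rcases hu (u : R) u.isUnit with h | h
  · left
    rw [h, map_one, mul_one] at e6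
    rw [← e6]
    field_simp
  · right
    rw [h, map_neg, map_one] at e6
    rw [← e6]
    field_simp

end ORDx

open ORDx in
/-- MODULE ORD -/
theorem o_ORD (h1 : So_LFT) (h2 : So_POW) (h3 : So_KUC) (h4 : So_NSQ) : So_ORD := by
  intro p er A B P V hC T l hl σ hσ hI hσl
  have hq := hC.cq
  have hR := Pool.Agent.MUXE.te_RNG A B hq
  have := hR.ded
  have htop := two_top hq hC.ex3 hC.ex4 h4
  have h20 : idl (A := A) (B := B) 2 ≠ ⊥ := by
    intro h
    have : ((2 : ℕ) : OO A B) ∈ idl (A := A) (B := B) 2 := Ideal.mem_span_singleton_self _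
    rw [h, Ideal.mem_bot] at this
    exact natCast_ne_zero' hq two_ne_zero this
  have hex : ∃ (b : Ideal (OO A B)) (L : PeriodPair) (om : ℂ), IsNL b L om := by
    obtain ⟨L, om, h⟩ := (Pool.Agent.MUXY.z_LAF A B hq hC.ex3 hC.ex4).ex ⊤ top_ne_bot
    exact ⟨_, L, om, h⟩
  obtain ⟨a, hacop, hact⟩ := T.act (idl 2) h20 σ hσ
  have ha0 : a ≠ ⊥ := by
    rintro rfl
    rw [Ideal.isCoprime_iff_sup_eq, bot_sup_eq] at hacop
    exact htop hacop
  obtain ⟨-, hpow⟩ := h2 A B hq T hex (idl 2) a σ h20 hσ hact l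
  obtain ⟨al, hal1, hal⟩ := hpow.1 hσl
  have hal0 : al ≠ 0 := by
    rintro rfl
    apply htop
    rw [Ideal.eq_top_iff_one]
    have := neg_mem hal1
    simpa using this
  have hN : nI a ≠ 0 := nI_ne_zero hq ha0
  have hkuc := h3 A B hq (2 * p * nI a).primeFactors al hal0 l hl ?_
  · obtain ⟨z, hz⟩ := hkuc
    have hz1 : a ^ l = (sp z) ^ l := by
      rw [hal, Ideal.span_singleton_pow]
      rcases hz with hz | hz
      · rw [hz]
      · rw [hz]
        exact Ideal.span_singleton_neg (z ^ l)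
    have hz2 : a = sp z := pow_inj_ideal hl.ne_zero hz1
    refine ⟨z, ?_, ?_⟩
    · rintro rfl
      apply ha0
      rw [hz2]
      simp
    · rw [← hz2]
      exact hact
  · intro q hqp hqS φ
    have : Fact q.Prime := ⟨hqp⟩
    have hnd : ¬ q ∣ 2 * p * nI a := by
      intro h
      exact hqS (Nat.mem_primeFactors.2 ⟨hqp, h,
        mul_ne_zero (mul_ne_zero two_ne_zero hC.pp.ne_zero) hN⟩)
    have hq2 : q ≠ 2 := by
      rintro rfl
      exact hnd (dvd_mul_of_dvd_left (dvd_mul_right _ _) _)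
    have hqp' : q ≠ p := by
      rintro rfl
      exact hnd (dvd_mul_of_dvd_left (dvd_mul_left _ _) _)
    have hqN : ¬ q ∣ nI a := fun h => hnd (h.mul_left _)
    obtain ⟨σ', a', be, -, -, -, -, hcop', ha0', -, hbe, hbe1, hlast⟩ :=
      h1 p er A B P V hC T hex l σ hσ hI hσl q hqp hq2 hqp'
    obtain ⟨x, y, -, hy, -, hxy⟩ := hlast a hact
    have hker : idl (A := A) (B := B) (2 * q) ≤ RingHom.ker φ := by
      refine (Ideal.span_singleton_le_iff_mem _).2 ?_
      rw [RingHom.mem_ker, map_natCast, Nat.cast_mul, ZMod.natCast_self, mul_zero]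
    refine core φ (h4 A B hq hC.ex3 hC.ex4).2.2 hy hxy hal hbe ?_ ?_ ?_
    · have := hker hbe1
      rw [RingHom.mem_ker, map_sub, map_one, sub_eq_zero] at this
      exact this
    · refine ⟨_, nI_mem hq ha0, ?_⟩
      rw [map_natCast]
      intro h
      exact hqN ((ZMod.natCast_eq_zero_iff _ _).1 h)
    · by_contra hne
      push Not at hne
      have hle : a' ≤ RingHom.ker φ := fun s hs => (RingHom.mem_ker).2 (hne s hs)
      rw [Ideal.isCoprime_iff_sup_eq] at hcop'
      have hle2 : (⊤ : Ideal (OO A B)) ≤ RingHom.ker φ := by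
        rw [← hcop']
        exact sup_le hle hker
      have h5 : φ 1 = 0 := hle2 (Submodule.mem_top (x := (1 : OO A B)))
      rw [map_one] at h5
      exact one_ne_zero h5

end

end Pool.Agent.OBR
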