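import Pool.Agent.OB.StR

/-!
# OB, block GR, module POW (helper56): powers of an automorphism
-/

set_option autoImplicit false

open WeierstrassCurve Polynomial

namespace Pool.Agent.OBR

open _root_.MU3 Pool.Agent.MU3A Pool.Agent.MU3B Pool.Agent.RI Pool.Agent.MUX Pool.Agent.MUXU
open Pool.Agent.MUXV (GR InK tX)
open Pool.Agent.NS Pool.Agent.NSR Pool.Agent.OB

noncomputable section

namespace POWx

theorem act_one {A B : ℤ} (hC : CQ A B) (m b : Ideal (OO A B)) (L : PeriodPair) (om : ℂ)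
    (hL : IsNL b L om) : ActI (1 : ℂ ≃+* ℂ) m (1 : Ideal (OO A B)) L L 1 := by
  refine ⟨rfl, isCoprime_one_left, ⟨one_ne_zero, ?_⟩, ?_⟩
  · intro z
    rw [one_mul]
    constructor
    · intro hz x _
      obtain ⟨t, ht, e⟩ := (hL.mem z).1 hz
      refine (hL.mem _).2 ⟨x * t, b.mul_mem_left _ ht, ?_⟩
      rw [emb_mul hC, e]
      ring
    · intro h
      have h1 := h 1 (by rw [Ideal.one_eq_top]; exact Submodule.mem_top)
      have h2 : emb (1 : OO A B) = 1 := by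
        have := emb_natCast hC 1
        simpa using this
      rwa [h2, one_mul] at h1
  · intro z _
    rw [one_mul]
    by_cases hz : z ∈ L.lattice
    · exact Or.inl ⟨hz, hz⟩
    · exact Or.inr ⟨hz, hz, rfl, rfl⟩

theorem fix_pow {A B : ℤ} {σ : ℂ ≃+* ℂ} (h : FixK A B σ) (n : ℕ) : FixK A B (σ ^ n) := by
  induction n with
  | zero => rfl
  | succ n ih =>
    have h1 : (σ ^ (n + 1) : ℂ ≃+* ℂ) (wC A B) = (σ ^ n : ℂ ≃+* ℂ) (σ (wC A B)) := by
      rw [pow_succ]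
      rfl
    show (σ ^ (n + 1) : ℂ ≃+* ℂ) (wC A B) = wC A B
    rw [h1]
    have h2 : σ (wC A B) = wC A B := h
    rw [h2]
    exact ih

theorem acts_pow {A B : ℤ} (hC : CQ A B) (T : TorX A B) (m a : Ideal (OO A B)) (σ : ℂ ≃+* ℂ)
    (h : Acts σ m a) (n : ℕ) : Acts (σ ^ n) m (a ^ n) := by
  induction n with
  | zero =>
    intro b L om hL
    rw [pow_zero, pow_zero]
    exact ⟨b, L, om, 1, hL, act_one hC m b L om hL⟩
  | succ n ih =>
    intro b L om hL
    obtain ⟨b1, L1, om1, mu1, hL1, h1⟩ := ih b L om hL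
    obtain ⟨b2, L2, om2, mu2, hL2, h2⟩ := h b1 L1 om1 hL1
    have h3 := T.comp m (a ^ n) a (σ ^ n) σ L L1 L2 mu1 mu2 h1 h2
    refine ⟨b2, L2, om2, mu2 * mu1, hL2, ?_⟩
    rw [pow_succ' σ n, pow_succ a n]
    exact h3

end POWx

open POWx in
theorem o_POW : So_POW := by
  intro A B hC T hN m a σ hm hσ hA n
  have h1 := acts_pow hC T m a σ hA n
  refine ⟨h1, ?_⟩
  obtain ⟨b, L, om, hL⟩ := hN
  obtain ⟨b', L', om', mu, hL', h2⟩ := h1 b L om hL
  exact T.triv m (a ^ n) (σ ^ n) b L L' om mu hm (fix_pow hσ n) hL h2 hL'.nrm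

end

end Pool.Agent.OBR
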