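import Pool.Agent.OB.StR
import Pool.Agent.MUX.XLib
import Pool.Agent.MU3.A_SCP
import Pool.Agent.MU3.BAll

/-!
# OBR_PRN (helper80): automorphisms with a principal ideal; see `StR.lean`
-/

set_option autoImplicit false

namespace Pool.Agent.OBR

open _root_.MU3 Pool.Agent.MU3A Pool.Agent.MU3B Pool.Agent.RI Pool.Agent.MUX Pool.Agent.MUXU
open Pool.Agent.NS Pool.Agent.NSR Pool.Agent.OB

noncomputable section

namespace PRNx

/-- two normalised lattices with `L' = ν L`: `ν² = 1` -/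
lemma sq_one {L L' : PeriodPair} {nu : ℂ} (h0 : nu ≠ 0)
    (h : ∀ z, z ∈ L.lattice ↔ nu * z ∈ L'.lattice) (hL : L.g₂ = -18 * L.g₃)
    (hL' : L'.g₂ = -18 * L'.g₃) : nu ^ 2 = 1 := by
  obtain ⟨-, -, h2, h3⟩ := ta_SCP L L' nu h0 h
  have hg : L.g₃ ≠ 0 := by
    intro hg
    apply (b_DSC L).1
    rw [hL, hg]
    ring
  rw [h2, h3, hL] at hL'
  have h6 : nu ^ 6 ≠ 0 := pow_ne_zero _ h0
  have h4 : nu ^ 4 ≠ 0 := pow_ne_zero _ h0
  field_simp at hL'
  linear_combination -hL'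

/-- equal lattices -/
lemma same {A B : ℤ} {m a : Ideal (OO A B)} {σ : ℂ ≃+* ℂ} {L L' : PeriodPair} {mu : ℂ}
    (h : ∀ z, z ∈ L.lattice ↔ z ∈ L'.lattice) (ha : ActI σ m a L L' mu) : ActI σ m a L L mu := by
  obtain ⟨h1, h2, h3, -⟩ := ta_SCP L L' 1 one_ne_zero (fun z => by rw [one_mul]; exact h z)
  have hP : ∀ z, L'.weierstrassP z = L.weierstrassP z := fun z => by
    have := h1 z
    rwa [one_mul, one_pow, div_one] at this
  have hD : ∀ z, L'.derivWeierstrassP z = L.derivWeierstrassP z := fun z => by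
    have := h2 z
    rwa [one_mul, one_pow, div_one] at this
  have hk : kap L' = kap L := by
    unfold kap
    rw [h3, one_pow, div_one]
  refine ⟨?_, ha.cop, ⟨ha.isq.1, fun z => ?_⟩, fun z hz => ?_⟩
  · rw [← ha.kap, hk]
  · rw [h]
    exact ha.isq.2 z
  · rcases ha.act z hz with ⟨h4, h5⟩ | ⟨h4, h5, h6, h7⟩
    · exact Or.inl ⟨h4, (h _).2 h5⟩
    · refine Or.inr ⟨h4, fun h8 => h5 ((h _).1 h8), ?_, ?_⟩
      · rw [h6]
        unfold xn
        rw [hP]
      · rw [h7]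
        unfold yy
        rw [hD]

end PRNx

open PRNx in
theorem o_PRN : So_PRN := by
  intro A B hcq T m σ c hm hc hK b b' L L' om om' mu hL hL' ha
  have hdom : IsDomain (OO A B) := isDomain hcq
  have hCM : HasCM A B L := hL.toIsLI.hasCM hcq
  have h1 : ActI σ (⊤ : Ideal (OO A B)) (sp c) L L' mu :=
    ⟨ha.kap, by rw [Ideal.isCoprime_iff_sup_eq]; exact sup_top_eq _, ha.isq,
      fun z hz => ha.act z (Tor.mono le_top hz)⟩
  have h2 := T.chg ⊤ (sp c) ⊤ σ L L' mu 1 c top_ne_bot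
    (by rw [Ideal.isCoprime_iff_sup_eq]; exact sup_top_eq _)
    (by rw [Ideal.isCoprime_iff_sup_eq]; exact sup_top_eq _) one_ne_zero hc Submodule.mem_top
    (by
      rw [Ideal.mul_top, show sp (1 : OO A B) = ⊤ from Ideal.span_singleton_one, Ideal.top_mul]) ⟨b, om, hL⟩ h1
  rw [emb_one hcq, mul_one] at h2
  have h3 : ∀ z, z ∈ L.lattice ↔ (mu / emb c) * z ∈ L'.lattice := fun z => by
    rw [h2.isq.2 z]
    exact (tor_top hcq hCM).symm
  have h4 := sq_one h2.isq.1 h3 hL.nrm hL'.nrm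
  have hce : emb c ≠ 0 := emb_ne_zero hcq hc
  have h5 : mu / emb c = 1 ∨ mu / emb c = -1 := by
    rcases mul_eq_zero.1 (show (mu / emb c - 1) * (mu / emb c + 1) = 0 by linear_combination h4) with h | h
    · exact Or.inl (sub_eq_zero.1 h)
    · exact Or.inr (eq_neg_of_add_eq_zero_left h)
  rcases h5 with h5 | h5
  · have h6 : mu = emb c := by
      rw [div_eq_iff hce, one_mul] at h5
      exact h5
    subst h6
    refine ⟨c, Or.inl rfl, same (fun z => ?_) ha⟩
    rw [h3 z, h5, one_mul]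
  · have h6 : mu = emb (-c) := by
      rw [div_eq_iff hce] at h5
      rw [h5, emb_neg hcq]
      ring
    have h7 : sp (-c) = sp c := Ideal.span_singleton_neg c
    refine ⟨-c, Or.inr rfl, ?_⟩
    rw [h7, ← h6]
    refine same (fun z => ?_) ha
    have h8 := h3 (-z)
    rw [h5, neg_one_mul, neg_neg] at h8
    rw [← h8]
    exact ⟨fun h => neg_mem h, fun h => by simpa using neg_mem h⟩

end

end Pool.Agent.OBR
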