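import Pool.Agent.OB.StR

/-!
# OBR_PS2: `c² ≡ -1` modulo `q` (helper69)
-/

set_option autoImplicit false

namespace Pool.Agent.OBR

open _root_.MU3 Pool.Agent.MU3A Pool.Agent.MU3B Pool.Agent.RI Pool.Agent.MUX Pool.Agent.MUXU
open Pool.Agent.NS Pool.Agent.NSR Pool.Agent.OB

noncomputable section

namespace PS2x

lemma wp_of_sub {L : PeriodPair} {a b : ℂ} (h : a - b ∈ L.lattice) :
    L.weierstrassP a = L.weierstrassP b := by
  have h1 := L.weierstrassP_add_coe b ⟨a - b, h⟩
  simpa using h1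

lemma wp_of_add {L : PeriodPair} {a b : ℂ} (h : a + b ∈ L.lattice) :
    L.weierstrassP a = L.weierstrassP b := by
  rw [wp_of_sub (a := a) (b := -b) (by rwa [sub_neg_eq_add]), L.weierstrassP_neg]

/-- `2 q` is not in `P` -/
lemma not_le_two {p er : ℕ} {A B : ℤ} {P : Ideal (OO A B)} {V : ValuationSubring ℂ}
    (h : CaseO p er A B P V) {q : ℕ} (hq : q.Prime) (hqp : q ≠ p) :
    ¬ idl (A := A) (B := B) (2 * q) ≤ P := by
  intro hle
  have h1 : ((2 * q : ℕ) : OO A B) ∈ P := hle (Ideal.mem_span_singleton_self _)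
  have h2 := (h.vemb_lt _).2 h1
  rw [emb_natCast h.cq] at h2
  have h3 : ¬ p ∣ 2 * q := by
    intro hd
    rcases (h.pp.dvd_mul).1 hd with h4 | h4
    · have := Nat.le_of_dvd two_pos h4
      have := h.p5
      omega
    · exact hqp ((Nat.prime_dvd_prime_iff_eq h.pp hq).1 h4).symm
  exact h2.ne (h.vnat h3)

/-- not all points of level `2 q` are killed by four -/
lemma not_four {A B : ℤ} (h : CQ A B) {b : Ideal (OO A B)} {L : PeriodPair} {om : ℂ}
    (hL : IsLI b L om) {q : ℕ} (hq : q.Prime) (hq2 : q ≠ 2)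
    (hall : ∀ z, Tor (idl (A := A) (B := B) (2 * q)) L z → 4 * z ∈ L.lattice) : False := by
  have hqc : (q : ℂ) ≠ 0 := by exact_mod_cast hq.ne_zero
  have h1 : sp ((2 : ℕ) : OO A B) * b ≤ idl (A := A) (B := B) q * b := by
    rw [Ideal.mul_le]
    intro r hr x hx
    obtain ⟨r', rfl⟩ := Ideal.mem_span_singleton'.1 hr
    have hz : ((2 * q : ℕ) : ℂ) * (om * emb x / (2 * q)) ∈ L.lattice := by
      have e : ((2 * q : ℕ) : ℂ) * (om * emb x / (2 * q)) = om * emb x := by
        push_cast
        field_simp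
      rw [e]
      exact (hL.mem _).2 ⟨x, hx, rfl⟩
    have h2 := hall _ (tor_of_mul h hL hz)
    obtain ⟨y, hy, e⟩ := (hL.mem _).1 h2
    have h3 : ((2 : ℕ) : OO A B) * x = ((q : ℕ) : OO A B) * y := by
      apply emb_inj h
      rw [emb_mul h, emb_mul h, emb_natCast h, emb_natCast h]
      have h4 : om * (2 * emb x) = om * (q * emb y) := by
        have h5 : 4 * (om * emb x / (2 * q)) * q = om * (2 * emb x) := by
          field_simp
          ring
        rw [← h5, e]
        ring
      have := mul_left_cancel₀ hL.om_ne h4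
      push_cast
      exact this
    have h5 : r' * ((2 : ℕ) : OO A B) * x = ((q : ℕ) : OO A B) * (r' * y) := by
      rw [mul_assoc, h3]
      ring
    rw [h5]
    exact Ideal.mul_mem_mul (Ideal.mem_span_singleton_self _) (b.mul_mem_left _ hy)
  have h6 : sp ((2 : ℕ) : OO A B) ≤ idl (A := A) (B := B) q := by
    rw [mul_comm, mul_comm (idl q)] at h1
    exact (mul_le_mul_iff h hL.b_ne).1 h1
  have h7 := h6 (Ideal.mem_span_singleton_self _)
  obtain ⟨t, ht⟩ := Ideal.mem_span_singleton.1 h7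
  have h8 : (2 : ℤ) = q * t.re := by
    have := congrArg QuadraticAlgebra.re ht
    simp only [QuadraticAlgebra.re_mul, QuadraticAlgebra.re_natCast,
      QuadraticAlgebra.im_natCast] at this
    simpa using this
  have h9 : (q : ℤ) ∣ 2 := ⟨_, h8⟩
  have h10 : q ∣ 2 := by exact_mod_cast h9
  exact hq2 ((Nat.prime_dvd_prime_iff_eq hq Nat.prime_two).1 h10)

end PS2x

open PS2x in
theorem o_PS2 (h1 : So_AFF) (h2 : So_TW3) (h3 : So_GRD) (h4 : So_INX) : So_PS2 := by
  intro p er A B P V h hT b L om hL w₁ w₂ w₃ hw q hq hqp hq2 σ hσ hI c hc c₁ c₂ c₃ hcc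
  obtain ⟨u, hu⟩ : ∃ u : ℂ, u ^ 2 = L.weierstrassP w₂ - L.weierstrassP w₁ :=
    IsAlgClosed.exists_pow_nat_eq _ two_pos
  have hcm := hL.toIsLI.hasCM h.cq
  have G := h3 p er A B P V h b L om hL.toIsLI w₁ w₂ w₃ u hw hu
  obtain ⟨-, hA⟩ := h1 p er A B P V h hT b L om hL w₁ w₂ w₃ u hw hu q hq hqp σ hσ hI c hc
  set X : ℂ → ℂ := xu L u (L.weierstrassP w₁) with hX
  set lam : ℂ := (L.weierstrassP w₃ - L.weierstrassP w₁) /
    (L.weierstrassP w₂ - L.weierstrassP w₁) with hlam
  have hu2 : u ^ 2 ≠ 0 := pow_ne_zero _ G.u0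
  have X1 : X w₁ = 0 := by simp [hX, xu]
  have X2 : X w₂ = 1 := by
    rw [hX, xu, hu]
    exact div_self (by rw [← hu]; exact hu2)
  have X3 : X w₃ = lam := by rw [hX, xu, hu]
  have Xs : ∀ {a b : ℂ}, a - b ∈ L.lattice → X a = X b := by
    intro a b hab
    rw [hX, xu, xu, wp_of_sub hab]
  have Xa : ∀ {a b : ℂ}, a + b ∈ L.lattice → X a = X b := by
    intro a b hab
    rw [hX, xu, xu, wp_of_add hab]
  rw [Xs c₂, Xs c₁, X3, X1] at hA
  simp only [sub_zero, add_zero] at hA
  have v2 := h.v2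
  -- the point `w₃`
  have tor2 : ∀ z, 2 * z ∈ L.lattice → Tor (idl (A := A) (B := B) (2 * q)) L z := by
    intro z hz
    refine tor_of_mul h.cq hL.toIsLI ?_
    have e : ((2 * q : ℕ) : ℂ) * z = (q : ℕ) • (2 * z) := by
      rw [nsmul_eq_mul]
      push_cast
      ring
    rw [e]
    exact nsmul_mem hz q
  have hv1 : V.valuation (1 + lam) < 1 := by
    have h5 := (hA w₃ hw.n₃ (tor2 _ hw.t₃)).2.2
    rw [Xs c₃, X2, X3] at h5
    have e : 1 - lam * lam = (1 - lam) * (1 + lam) := by ring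
    rw [e, map_mul, G.vl1, one_mul] at h5
    exact h5
  have hadd : ∀ z, z ∉ L.lattice → Tor (idl (A := A) (B := B) (2 * q)) L z →
      V.valuation (X (emb c * z) + X z) < 1 := by
    intro z hz hz'
    obtain ⟨-, h6, h7⟩ := hA z hz hz'
    have e : X (emb c * z) + X z = (X (emb c * z) - lam * X z) + (1 + lam) * X z := by ring
    rw [e]
    refine (V.valuation.map_add _ _).trans_lt (max_lt h7 ?_)
    rw [map_mul]
    calc V.valuation (1 + lam) * V.valuation (X z) ≤ V.valuation (1 + lam) * 1 :=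
          mul_le_mul_right h6 _
      _ < 1 := by rw [mul_one]; exact hv1
  -- a point with `X (c y) = X y`
  have key : ∀ y, Tor (idl (A := A) (B := B) (2 * q)) L y → X (emb c * y) = X y →
      2 * y ∈ L.lattice := by
    intro y hy hXy
    by_cases hyL : y ∈ L.lattice
    · have e : 2 * y = y + y := by ring
      rw [e]
      exact add_mem hyL hyL
    · have h8 := hadd y hyL hy
      rw [hXy] at h8
      have e : X y + X y = 2 * (X y - X w₁) := by rw [X1]; ring
      rw [e, map_mul, v2, one_mul] at h8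
      rcases h4 p er A B P V h b L om hL.toIsLI u (L.weierstrassP w₁) lam G (idl (2 * q))
        (not_le_two h hq hqp) y w₁ hyL hw.n₁ hy (tor2 _ hw.t₁) h8 with h9 | h9
      · have h10 := add_mem (add_mem h9 h9) hw.t₁
        have e : y - w₁ + (y - w₁) + 2 * w₁ = 2 * y := by ring
        rwa [e] at h10
      · have h10 := sub_mem (add_mem h9 h9) hw.t₁
        have e : y + w₁ + (y + w₁) - 2 * w₁ = 2 * y := by ring
        rwa [e] at h10
  have hle : idl (A := A) (B := B) (2 * q) ≤ idl (A := A) (B := B) q := by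
    rw [Ideal.span_singleton_le_span_singleton]
    push_cast
    exact dvd_mul_left _ _
  rcases hcc with hcc | hcc
  · exfalso
    refine not_four h.cq hL.toIsLI hq hq2 fun z hz => ?_
    have h11 : emb (c ^ 2 - 1) * z ∈ L.lattice := hz _ hcc
    have hec : emb (c ^ 2 - 1) = emb c * emb c - 1 := by
      rw [emb_sub h.cq, pow_two, emb_mul h.cq, emb_one h.cq]
    rw [hec] at h11
    have hz2 : Tor (idl (A := A) (B := B) (2 * q)) L (emb c * z) := Tor.mul_emb h.cq hz c
    have k1 : 2 * (z + emb c * z) ∈ L.lattice := by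
      refine key _ (hz.add hz2) (Xs ?_)
      have e : emb c * (z + emb c * z) - (z + emb c * z) = (emb c * emb c - 1) * z := by ring
      rwa [e]
    have k2 : 2 * (z + -(emb c * z)) ∈ L.lattice := by
      refine key _ (hz.add hz2.neg) (Xa ?_)
      have e : emb c * (z + -(emb c * z)) + (z + -(emb c * z)) =
          -((emb c * emb c - 1) * z) := by ring
      rw [e]
      exact neg_mem h11
    have e : 4 * z = 2 * (z + emb c * z) + 2 * (z + -(emb c * z)) := by ring
    rw [e]
    exact add_mem k1 k2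
  · exact hle hcc

end

end Pool.Agent.OBR
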