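import Pool.Agent.OB.StR

/-!
# OB, block GR, module PS3: `c` permutes the points of order two cyclically (helper65)
-/

set_option autoImplicit false

open WeierstrassCurve Polynomial

namespace Pool.Agent.OBR

open _root_.MU3 Pool.Agent.MU3A Pool.Agent.MU3B Pool.Agent.RI Pool.Agent.MUX Pool.Agent.MUXU
open Pool.Agent.MUXV (GR InK tX)
open Pool.Agent.NS Pool.Agent.NSR Pool.Agent.OB

noncomputable section

namespace PS3x

lemma xu_congr (L : PeriodPair) (u e : ℂ) {a b : ℂ} (h : a - b ∈ L.lattice) :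
    xu L u e a = xu L u e b := by
  have h1 := L.weierstrassP_add_coe b ⟨a - b, h⟩
  have h2 : b + ((⟨a - b, h⟩ : L.lattice) : ℂ) = a := by simp
  rw [h2] at h1
  unfold xu
  rw [h1]

lemma xu_neg (L : PeriodPair) (u e z : ℂ) : xu L u e (-z) = xu L u e z := by
  unfold xu
  rw [L.weierstrassP_neg]

/-- the estimate: two values `x`, `x'` with `(2 - lam) x ≡ 1` are congruent -/
lemma close {V : ValuationSubring ℂ} {lam x x' : ℂ} (hx : V.valuation x ≤ 1)
    (h : V.valuation (x - ((lam - 1) * x + 1)) < 1)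
    (h' : V.valuation (x' - ((lam - 1) * x' + 1)) < 1) : V.valuation (x - x') < 1 := by
  have e1 : x - ((lam - 1) * x + 1) = (2 - lam) * x - 1 := by ring
  have e2 : x' - ((lam - 1) * x' + 1) = (2 - lam) * x' - 1 := by ring
  rw [e1] at h
  rw [e2] at h'
  have h1 : V.valuation ((2 - lam) * (x - x')) < 1 := by
    have e3 : (2 - lam) * (x - x') = ((2 - lam) * x - 1) - ((2 - lam) * x' - 1) := by ring
    rw [e3]
    exact lt_of_le_of_lt (V.valuation.map_sub _ _) (max_lt h h')
  have h2 : V.valuation ((2 - lam) * x) = 1 := by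
    have e4 : (2 - lam) * x = ((2 - lam) * x - 1) + 1 := by ring
    rw [e4, V.valuation.map_add_eq_of_lt_right (by rw [map_one]; exact h), map_one]
  rw [map_mul] at h1 h2
  have h3 : 1 ≤ V.valuation (2 - lam) := by
    rw [← h2]
    exact mul_le_of_le_one_right' hx
  by_contra hc
  rw [not_lt] at hc
  exact absurd (one_le_mul h3 hc) (not_le.2 h1)

end PS3x

open PS3x in
theorem o_PS3 (h1 : So_AFF) (h2 : So_GRD) (h3 : So_INX) : So_PS3 := by
  intro p er A B P V hC hT b L om hL w₁ w₂ w₃ hw q hq hqp hq2 hq3 σ hσ hI c hc c12 c23 _ hcc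
  have hcq := hC.cq
  have hcm : HasCM A B L := IsLI.hasCM hcq hL.toIsLI
  have := isDomain hcq
  obtain ⟨u, hu⟩ : ∃ u : ℂ, u ^ 2 = L.weierstrassP w₂ - L.weierstrassP w₁ :=
    IsAlgClosed.exists_pow_nat_eq _ two_pos
  have hG := h2 p er A B P V hC b L om hL.toIsLI w₁ w₂ w₃ u hw hu
  have hA := h1 p er A B P V hC hT b L om hL w₁ w₂ w₃ u hw hu q hq hqp σ hσ hI c hc
  have hIN := h3 p er A B P V hC b L om hL.toIsLI u (L.weierstrassP w₁) _ hG
    (idl (A := A) (B := B) (2 * q))
  obtain ⟨lam, hlam⟩ : ∃ lam : ℂ, lam = (L.weierstrassP w₃ - L.weierstrassP w₁) /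
    (L.weierstrassP w₂ - L.weierstrassP w₁) := ⟨_, rfl⟩
  have hu0 : u ≠ 0 := hG.u0
  obtain ⟨X, hX⟩ : ∃ X : ℂ → ℂ, X = xu L u (L.weierstrassP w₁) := ⟨_, rfl⟩
  have X2 : X (emb c * w₁) = 1 := by
    rw [hX, xu_congr L u _ c12]
    unfold xu
    rw [← hu, div_self (pow_ne_zero 2 hu0)]
  have X3 : X (emb c * w₂) = lam := by
    rw [hX, xu_congr L u _ c23]
    unfold xu
    rw [hu, hlam]
  rw [← hX] at hA hIN
  rw [X2, X3] at hA
  have hA2 := hA.2
  -- `s`
  obtain ⟨s, hs, hcs⟩ : ∃ s : OO A B, (s = 1 ∨ s = -1) ∧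
      c ^ 3 - s ∈ idl (A := A) (B := B) (2 * q) := by
    rcases hcc with h | h
    · exact ⟨1, Or.inl rfl, h⟩
    · exact ⟨-1, Or.inr rfl, by rw [sub_neg_eq_add]; exact h⟩
  have hss : s * s = 1 := by
    rcases hs with rfl | rfl
    · exact one_mul 1
    · ring
  obtain ⟨e, he⟩ : ∃ e : OO A B, e = 1 + s * c + c ^ 2 := ⟨_, rfl⟩
  -- `X (c y) = X y`
  have hXy : ∀ z, Tor (idl (A := A) (B := B) (2 * q)) L z →
      X (emb c * (emb e * z)) = X (emb e * z) := by
    intro z hz
    have e1 : (s * c - 1) * e = s * (c ^ 3 - s) := by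
      rw [he]
      linear_combination (c ^ 2 + 1) * hss
    have h5 := hz _ (Ideal.mul_mem_left _ s hcs)
    rw [← e1] at h5
    have e2 : emb ((s * c - 1) * e) * z = emb s * (emb c * (emb e * z)) - emb e * z := by
      rw [emb_mul hcq, emb_sub hcq, emb_mul hcq, emb_one hcq]
      ring
    rw [e2] at h5
    rcases hs with rfl | rfl
    · rw [emb_one hcq, one_mul] at h5
      rw [hX]
      exact xu_congr L u _ h5
    · rw [emb_neg hcq, emb_one hcq, neg_one_mul] at h5
      rw [hX]
      rw [← xu_neg L u _ (emb c * (emb e * z))]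
      exact xu_congr L u _ h5
  have hnle : ¬ idl (A := A) (B := B) (2 * q) ≤ P := by
    intro hle
    have h5 := (hC.vemb_lt _).2 (hle (Ideal.mem_span_singleton_self _))
    rw [emb_natCast hcq, hC.vnat (n := 2 * q)] at h5
    · exact lt_irrefl _ h5
    · intro hd
      rcases (Nat.Prime.dvd_mul hC.pp).1 hd with h6 | h6
      · have := Nat.le_of_dvd two_pos h6
        have := hC.p5
        omega
      · exact hqp ((Nat.prime_dvd_prime_iff_eq hC.pp hq).1 h6).symm
  -- `6 y` is in the lattice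
  have h6 : ∀ z, Tor (idl (A := A) (B := B) (2 * q)) L z → 6 * (emb e * z) ∈ L.lattice := by
    intro z hz
    obtain ⟨y, hy⟩ : ∃ y, y = emb e * z := ⟨_, rfl⟩
    have hyT : Tor (idl (A := A) (B := B) (2 * q)) L y := by rw [hy]; exact hz.mul_emb hcq e
    have hmul : ∀ (n : ℕ) (t : ℂ), t ∈ L.lattice → (n : ℂ) * t ∈ L.lattice := by
      intro n t ht
      have := nsmul_mem ht n
      rwa [nsmul_eq_mul] at this
    by_cases hy0 : y ∈ L.lattice
    · rw [← hy]
      exact_mod_cast hmul 6 y hy0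
    by_cases hy2 : 2 * y ∈ L.lattice
    · rw [← hy]
      have := hmul 3 _ hy2
      have e1 : ((3 : ℕ) : ℂ) * (2 * y) = 6 * y := by push_cast; ring
      rwa [e1] at this
    have hz2 : Tor (idl (A := A) (B := B) (2 * q)) L (2 * z) := by
      have e0 : 2 * z = z + z := two_mul z
      rw [e0]
      exact hz.add hz
    have hy2T : Tor (idl (A := A) (B := B) (2 * q)) L (2 * y) := by
      have e0 : 2 * y = y + y := two_mul y
      rw [e0]
      exact hyT.add hyT
    have e2 : emb e * (2 * z) = 2 * y := by rw [hy]; ring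
    have a1 := hA2 y hy0 hyT
    have a2 := hA2 (2 * y) hy2 hy2T
    have b1 := hXy z hz
    have b2 := hXy (2 * z) hz2
    rw [← hy] at b1
    rw [e2] at b2
    rw [b1] at a1
    rw [b2] at a2
    have hd := close a1.2.1 a1.2.2 a2.2.2
    rcases hIN hnle y (2 * y) hy0 hy2 hyT hy2T hd with h | h
    · exfalso
      apply hy0
      have := neg_mem h
      have e3 : -(y - 2 * y) = y := by ring
      rwa [e3] at this
    · rw [← hy]
      have := hmul 2 _ h
      have e3 : ((2 : ℕ) : ℂ) * (y + 2 * y) = 6 * y := by push_cast; ring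
      rwa [e3] at this
  -- from points to ideals
  have hq0 : ((2 * q : ℕ) : ℂ) ≠ 0 := by
    have := hq.pos
    exact_mod_cast (by omega : 2 * q ≠ 0)
  have h7 : sp (6 * e) * b ≤ idl (A := A) (B := B) (2 * q) * b := by
    rw [Ideal.mul_le]
    intro r hr x hx
    obtain ⟨r', rfl⟩ := Ideal.mem_span_singleton'.1 hr
    have hz : Tor (idl (A := A) (B := B) (2 * q)) L (om * emb x / ((2 * q : ℕ) : ℂ)) := by
      apply tor_of_mul hcq hL.toIsLI
      rw [mul_div_cancel₀ _ hq0]
      exact (hL.mem _).2 ⟨x, hx, rfl⟩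
    obtain ⟨t, ht, e1⟩ := (hL.mem _).1 (h6 _ hz)
    have e2 : 6 * e * x = ((2 * q : ℕ) : OO A B) * t := by
      apply emb_inj hcq
      rw [emb_mul hcq, emb_mul hcq, emb_mul hcq, emb_natCast hcq]
      have e3 : emb (6 : OO A B) = 6 := by
        have := emb_natCast hcq 6
        exact_mod_cast this
      rw [e3]
      have hom := hL.om_ne
      apply mul_left_cancel₀ hom
      have e4 : 6 * (emb e * (om * emb x / ((2 * q : ℕ) : ℂ))) * ((2 * q : ℕ) : ℂ) =
          om * (6 * emb e * emb x) := by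
        field_simp
      rw [← e4, e1]
      ring
    have e5 : r' * (6 * e) * x = ((2 * q : ℕ) : OO A B) * (r' * t) := by
      rw [mul_assoc, e2]
      ring
    rw [e5]
    exact Ideal.mul_mem_mul (Ideal.mem_span_singleton_self _) (b.mul_mem_left _ ht)
  rw [mul_comm _ b, mul_comm _ b, mul_le_mul_iff hcq hL.b_ne] at h7
  obtain ⟨r, hr⟩ := Ideal.mem_span_singleton.1 (h7 (Ideal.mem_span_singleton_self (6 * e)))
  have h8 : 3 * e = (q : OO A B) * r := by
    have h20 : (2 : OO A B) ≠ 0 := by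
      have := natCast_ne_zero' hcq (n := 2) two_ne_zero
      exact_mod_cast this
    apply mul_left_cancel₀ h20
    push_cast at hr
    linear_combination hr
  have hco : IsCoprime (3 : ℤ) (q : ℤ) := by
    have h9 : Nat.Coprime 3 q := (Nat.coprime_primes Nat.prime_three hq).2 (Ne.symm hq3)
    exact_mod_cast Nat.isCoprime_iff_coprime.2 h9
  obtain ⟨x, y, hxy⟩ := hco
  have h10 : e ∈ idl (A := A) (B := B) q := by
    rw [Ideal.mem_span_singleton]
    refine ⟨(x : OO A B) * r + (y : OO A B) * e, ?_⟩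
    have h11 : (x : OO A B) * 3 + (y : OO A B) * (q : OO A B) = 1 := by
      have := congrArg (fun n : ℤ => (n : OO A B)) hxy
      push_cast at this
      exact this
    linear_combination (-e) * h11 + (x : OO A B) * h8
  rw [he] at h10
  rcases hs with rfl | rfl
  · left
    have e1 : (1 : OO A B) + 1 * c + c ^ 2 = c ^ 2 + c + 1 := by ring
    rwa [e1] at h10
  · right
    have e1 : (1 : OO A B) + -1 * c + c ^ 2 = c ^ 2 - c + 1 := by ring
    rwa [e1] at h10

end

end Pool.Agent.OBR
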