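import Pool.Agent.OB.StR
import Pool.Agent.MUX.ZY

/-!
# OB, block GR, module PSI (helper96): the element by which the lift to the level `2 q` acts
-/

set_option autoImplicit false

namespace Pool.Agent.OBR.PSIx

open _root_.MU3 Pool.Agent.MU3A Pool.Agent.MU3B Pool.Agent.RI Pool.Agent.MUX Pool.Agent.MUXU
open Pool.Agent.NS Pool.Agent.NSR Pool.Agent.OB

noncomputable section

section
variable {A B : ℤ} {L : PeriodPair}

/-- two lattice statements for iterates -/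
lemma iter2 (h : CQ A B) (hL : HasCM A B L) {c : OO A B} {w w' : ℂ}
    (h1 : emb c * w - w' ∈ L.lattice) (h2 : emb c * w' - w ∈ L.lattice) (k : ℕ) :
    emb (c ^ (2 * k)) * w - w ∈ L.lattice ∧ emb (c ^ (2 * k + 1)) * w - w' ∈ L.lattice := by
  induction k with
  | zero =>
    refine ⟨?_, ?_⟩
    · rw [mul_zero, pow_zero, emb_one h, one_mul, sub_self]
      exact zero_mem _
    · rw [mul_zero, zero_add, pow_one]
      exact h1
  | succ k ih =>
    have h3 : emb (c ^ (2 * (k + 1))) * w - w ∈ L.lattice := by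
      have h4 := add_mem (hL c _ ih.2) h2
      have e : emb c * (emb (c ^ (2 * k + 1)) * w - w') + (emb c * w' - w) =
          emb (c ^ (2 * (k + 1))) * w - w := by
        rw [show 2 * (k + 1) = (2 * k + 1) + 1 by ring, pow_succ (n := 2 * k + 1), emb_mul h]
        ring
      rwa [e] at h4
    refine ⟨h3, ?_⟩
    have h4 := add_mem (hL c _ h3) h1
    have e : emb c * (emb (c ^ (2 * (k + 1))) * w - w) + (emb c * w - w') =
        emb (c ^ (2 * (k + 1) + 1)) * w - w' := by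
      rw [pow_succ (n := 2 * (k + 1)), emb_mul h]
      ring
    rwa [e] at h4

lemma iter3 (h : CQ A B) (hL : HasCM A B L) {c : OO A B} {w w' w'' : ℂ}
    (h1 : emb c * w - w' ∈ L.lattice) (h2 : emb c * w' - w'' ∈ L.lattice)
    (h3 : emb c * w'' - w ∈ L.lattice) (k : ℕ) :
    emb (c ^ (3 * k)) * w - w ∈ L.lattice ∧ emb (c ^ (3 * k + 1)) * w - w' ∈ L.lattice ∧
      emb (c ^ (3 * k + 2)) * w - w'' ∈ L.lattice := by
  have step : ∀ (n : ℕ) (x y : ℂ), emb (c ^ n) * w - x ∈ L.lattice → emb c * x - y ∈ L.lattice →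
      emb (c ^ (n + 1)) * w - y ∈ L.lattice := by
    intro n x y hx hy
    have h4 := add_mem (hL c _ hx) hy
    have e : emb c * (emb (c ^ n) * w - x) + (emb c * x - y) = emb (c ^ (n + 1)) * w - y := by
      rw [pow_succ, emb_mul h]
      ring
    rwa [e] at h4
  induction k with
  | zero =>
    have h0 : emb (c ^ (3 * 0)) * w - w ∈ L.lattice := by
      rw [mul_zero, pow_zero, emb_one h, one_mul, sub_self]
      exact zero_mem _
    exact ⟨h0, step _ _ _ h0 h1, step _ _ _ (step _ _ _ h0 h1) h2⟩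
  | succ k ih =>
    have h0 : emb (c ^ (3 * (k + 1))) * w - w ∈ L.lattice := step _ _ _ ih.2.2 h3
    exact ⟨h0, step _ _ _ h0 h1, step _ _ _ (step _ _ _ h0 h1) h2⟩

/-- `c^l` acts trivially on the points of order two -/
lemma pow_triv (h : CQ A B) (hL : HasCM A B L) {c : OO A B} {l q : ℕ}
    (hc : c ^ l - 1 ∈ idl (A := A) (B := B) (2 * q) ∨ c ^ l + 1 ∈ idl (A := A) (B := B) (2 * q))
    {w : ℂ} (hw : 2 * w ∈ L.lattice) : emb (c ^ l) * w - w ∈ L.lattice := by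
  have hmul : ∀ x ∈ idl (A := A) (B := B) (2 * q), emb x * w ∈ L.lattice := by
    intro x hx
    obtain ⟨y, rfl⟩ := Ideal.mem_span_singleton'.1 hx
    have h1 := hL (y * (q : OO A B)) _ hw
    have e : emb (y * (q : OO A B)) * (2 * w) = emb (y * ((2 * q : ℕ) : OO A B)) * w := by
      rw [emb_mul h, emb_mul h, emb_natCast h, emb_natCast h]
      push_cast
      ring
    rwa [e] at h1
  rcases hc with hc | hc
  · have h1 := hmul _ hc
    rw [emb_sub h, emb_one h] at h1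
    have e : (emb (c ^ l) - 1) * w = emb (c ^ l) * w - w := by ring
    rwa [e] at h1
  · have h1 := sub_mem (hmul _ hc) hw
    rw [emb_add h, emb_one h] at h1
    have e : (emb (c ^ l) + 1) * w - 2 * w = emb (c ^ l) * w - w := by ring
    rwa [e] at h1

lemma even_of (h : CQ A B) (hL : HasCM A B L) {c : OO A B} {l : ℕ} {w w' : ℂ}
    (h1 : emb c * w - w' ∈ L.lattice) (h2 : emb c * w' - w ∈ L.lattice)
    (hd : w - w' ∉ L.lattice) (ht : emb (c ^ l) * w - w ∈ L.lattice) : 2 ∣ l := by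
  by_contra hc
  obtain ⟨k, hk⟩ : ∃ k, l = 2 * k + 1 := ⟨l / 2, by omega⟩
  have h3 := (iter2 h hL h1 h2 k).2
  rw [← hk] at h3
  apply hd
  have h4 := sub_mem h3 ht
  have e : emb (c ^ l) * w - w' - (emb (c ^ l) * w - w) = w - w' := by ring
  rwa [e] at h4

lemma three_of (h : CQ A B) (hL : HasCM A B L) {c : OO A B} {l : ℕ} {w w' w'' : ℂ}
    (h1 : emb c * w - w' ∈ L.lattice) (h2 : emb c * w' - w'' ∈ L.lattice)
    (h3 : emb c * w'' - w ∈ L.lattice) (hd : w - w' ∉ L.lattice) (hd' : w - w'' ∉ L.lattice)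
    (ht : emb (c ^ l) * w - w ∈ L.lattice) : 3 ∣ l := by
  by_contra hc
  have h4 : l = 3 * (l / 3) + 1 ∨ l = 3 * (l / 3) + 2 := by omega
  rcases h4 with hk | hk
  · have h5 := (iter3 h hL h1 h2 h3 (l / 3)).2.1
    rw [← hk] at h5
    apply hd
    have h6 := sub_mem h5 ht
    have e : emb (c ^ l) * w - w' - (emb (c ^ l) * w - w) = w - w' := by ring
    rwa [e] at h6
  · have h5 := (iter3 h hL h1 h2 h3 (l / 3)).2.2
    rw [← hk] at h5
    apply hd'
    have h6 := sub_mem h5 ht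
    have e : emb (c ^ l) * w - w'' - (emb (c ^ l) * w - w) = w - w'' := by ring
    rwa [e] at h6

/-- the image of a point of order two -/
lemma img (h : CQ A B) (hL : HasCM A B L) {c : OO A B}
    (hc : IsCoprime (sp c) (idl (A := A) (B := B) 2)) {w : ℂ} (hw : w ∉ L.lattice)
    (h2 : 2 * w ∈ L.lattice) : emb c * w ∉ L.lattice ∧ 2 * (emb c * w) ∈ L.lattice := by
  refine ⟨fun h3 => hw (tor_coprime h hc ((tor_span h hL c).2 h3) ((tor_span h hL _).2 ?_)), ?_⟩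
  · rw [emb_natCast h]
    exact_mod_cast h2
  · have h3 := hL c _ h2
    have e : emb c * (2 * w) = 2 * (emb c * w) := by ring
    rwa [e] at h3

/-- if `c - 1` kills the points of order two of a lattice of `O` itself then `c ≡ 1` modulo 2 -/
lemma triv2 (h : CQ A B) {om : ℂ} (hL : IsNL (⊤ : Ideal (OO A B)) L om) {c : OO A B}
    (hc : ∀ w, 2 * w ∈ L.lattice → emb c * w - w ∈ L.lattice) :
    c - 1 ∈ idl (A := A) (B := B) 2 := by
  have h2 : (2 : ℂ) * (om / 2) ∈ L.lattice :=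
    (hL.mem _).2 ⟨1, trivial, by rw [emb_one h]; ring⟩
  obtain ⟨y, -, hy⟩ := (hL.mem _).1 (hc _ h2)
  refine Ideal.mem_span_singleton'.2 ⟨y, ?_⟩
  apply emb_inj h
  rw [emb_mul h, emb_natCast h, emb_sub h, emb_one h]
  have h0 := hL.om_ne
  have h3 : om * (emb c - 1) = om * (emb y * 2) := by linear_combination 2 * hy
  have h4 := mul_left_cancel₀ h0 h3
  push_cast
  exact h4.symm

end

end

end Pool.Agent.OBR.PSIx

namespace Pool.Agent.OBR

open _root_.MU3 Pool.Agent.MU3A Pool.Agent.MU3B Pool.Agent.RI Pool.Agent.MUX Pool.Agent.MUXU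
open Pool.Agent.NS Pool.Agent.NSR Pool.Agent.OB PSIx

theorem o_PSI (hLFT : So_LFT) (hORD : So_ORD) (hPRN : So_PRN) (hPS2 : So_PS2) (hPS3 : So_PS3)
    (hNSQ : So_NSQ) (hTW3 : So_TW3) : So_PSI := by
  intro p er A B P V h hT l hl σ hσ hI hpow hnt q hq hq2 hq3 hqp
  have hcq := h.cq
  have hdom := isDomain hcq
  have hF := MUXY.z_LAF A B hcq h.ex3 h.ex4
  have htop : (⊤ : Ideal (OO A B)) ≠ ⊥ := top_ne_bot
  obtain ⟨L, om, hL⟩ := hF.ex ⊤ htop
  have hex : ∃ (b : Ideal (OO A B)) (L : PeriodPair) (om : ℂ), IsNL b L om := ⟨⊤, L, om, hL⟩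
  have hcm : HasCM A B L := hL.toIsLI.hasCM hcq
  obtain ⟨z, hz0, hzA⟩ := hORD p er A B P V h hT l hl σ hσ hI hpow
  obtain ⟨σ', a', be, hσ', hI', heq, -, hcop', ha'0, hA', hbe, hbe1, hall⟩ :=
    hLFT p er A B P V h hT hex l σ hσ hI hpow q hq hq2 hqp
  obtain ⟨x, y, hx0, hy0, hxy, hsp⟩ := hall (sp z) hzA
  -- the generator of `a'`
  have hspy : sp y ≠ ⊥ := by
    intro h0
    exact hy0 (Ideal.span_singleton_eq_bot.1 h0)
  obtain ⟨c₀, hc₀, hc₀e⟩ : ∃ c₀ ∈ a', y * c₀ = x * z := by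
    have h1 : x * z ∈ sp y * a' := by
      rw [← hsp]
      exact Ideal.mul_mem_mul (Ideal.mem_span_singleton_self x) (Ideal.mem_span_singleton_self z)
    exact Ideal.mem_span_singleton_mul.1 h1
  have ha' : a' = sp c₀ := by
    apply mul_cancel hcq hspy
    rw [← hsp, Ideal.span_singleton_mul_span_singleton, Ideal.span_singleton_mul_span_singleton,
      hc₀e]
  have hc₀0 : c₀ ≠ 0 := by
    rintro rfl
    exact ha'0 (by rw [ha']; exact Ideal.span_singleton_eq_bot.2 rfl)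
  have hm0 : idl (A := A) (B := B) (2 * q) ≠ ⊥ := by
    intro h0
    exact natCast_ne_zero' hcq (Nat.mul_ne_zero two_ne_zero hq.ne_zero)
      (Ideal.span_singleton_eq_bot.1 h0)
  have h20 : idl (A := A) (B := B) 2 ≠ ⊥ := by
    intro h0
    exact natCast_ne_zero' hcq two_ne_zero (Ideal.span_singleton_eq_bot.1 h0)
  obtain ⟨b', L', om', mu, hL', hact⟩ := hA' ⊤ L om hL
  rw [ha'] at hact
  obtain ⟨c, hcc, hcact⟩ := hPRN A B hcq hT _ σ' c₀ hm0 hc₀0 hσ' ⊤ b' L L' om om' mu hL hL' hact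
  have hspc : sp c = sp c₀ := by
    rcases hcc with rfl | rfl
    · rfl
    · exact Ideal.span_singleton_neg c₀
  have hle : idl (A := A) (B := B) (2 * q) ≤ idl (A := A) (B := B) 2 := by
    rw [Ideal.span_singleton_le_span_singleton]
    exact ⟨(q : OO A B), by push_cast; ring⟩
  have hcop : IsCoprime (sp c) (idl (A := A) (B := B) (2 * q)) := hcact.cop
  have hcop2 : IsCoprime (sp c) (idl (A := A) (B := B) 2) := by
    rw [Ideal.isCoprime_iff_sup_eq] at hcop ⊢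
    exact eq_top_iff.2 (hcop.ge.trans (sup_le_sup_left hle _))
  -- `c ^ l ≡ ± 1`
  have hcl : c ^ l - 1 ∈ idl (A := A) (B := B) (2 * q) ∨ c ^ l + 1 ∈ idl (A := A) (B := B) (2 * q) := by
    have h0 : sp c ^ l = sp (c ^ l) := Ideal.span_singleton_pow c l
    have h1 : sp (c ^ l) = sp be := by
      rw [← h0, hspc, ← ha', hbe]
    obtain ⟨ε, hε⟩ := Ideal.span_singleton_eq_span_singleton.1 h1
    have h2 := (hNSQ A B hcq h.ex3 h.ex4).2.2 (ε : OO A B) ε.isUnit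
    rcases h2 with h2 | h2
    · left
      rw [h2, mul_one] at hε
      rw [hε]
      exact hbe1
    · right
      rw [h2] at hε
      have h3 : c ^ l + 1 = -(be - 1) := by rw [← hε]; ring
      rw [h3]
      exact neg_mem hbe1
  -- `c` is not 1 modulo 2
  have hc1 : c - 1 ∉ idl (A := A) (B := B) 2 := by
    intro h1
    have h2 : ActI σ' (idl (A := A) (B := B) 2) (sp c) L L (emb c) :=
      ⟨hcact.kap, hcop2, hcact.isq, fun z hz => hcact.act z (hz.mono hle)⟩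
    have h3 := (hT.triv _ _ σ' ⊤ L L om (emb c) h20 hσ' hL h2 hL.nrm).2 ⟨c, h1, rfl⟩
    exact hnt fun y hy => by rw [← heq y hy]; exact h3 y hy
  obtain ⟨⟨w₁, w₂, w₃, hw⟩, -, hw3⟩ := hTW3 L
  obtain ⟨-, hcl3, -⟩ := hw3 w₁ w₂ w₃ hw
  have hpt : ∀ w, 2 * w ∈ L.lattice → emb (c ^ l) * w - w ∈ L.lattice := fun w hw' =>
    pow_triv hcq hcm hcl hw'
  have i1 := img hcq hcm hcop2 hw.n₁ hw.t₁
  have i2 := img hcq hcm hcop2 hw.n₂ hw.t₂
  have i3 := img hcq hcm hcop2 hw.n₃ hw.t₃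
  -- the differences
  have dd : ∀ a b : ℂ, a - b ∉ L.lattice → 2 * a ∈ L.lattice → 2 * b ∈ L.lattice → ∀ t,
      emb c * a - t ∈ L.lattice → emb c * b - t ∈ L.lattice → False := by
    intro a b hab ha hb t h1 h2
    have h3 : 2 * (a - b) ∈ L.lattice := by
      have := sub_mem ha hb
      rwa [← mul_sub] at this
    apply (img hcq hcm hcop2 hab h3).1
    have := sub_mem h1 h2
    have e : emb c * a - t - (emb c * b - t) = emb c * (a - b) := by ring
    rwa [e] at this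
  have d12 := dd w₁ w₂ hw.d₁₂ hw.t₁ hw.t₂
  have d13 := dd w₁ w₃ hw.d₁₃ hw.t₁ hw.t₃
  have d23 := dd w₂ w₃ hw.d₂₃ hw.t₂ hw.t₃
  -- the two results
  have r2 : ∀ v₁ v₂ v₃, Two3 L v₁ v₂ v₃ → emb c * v₁ - v₁ ∈ L.lattice →
      emb c * v₂ - v₃ ∈ L.lattice → emb c * v₃ - v₂ ∈ L.lattice →
      l = 2 ∧ c ^ 2 + 1 ∈ idl (A := A) (B := B) q := by
    intro v₁ v₂ v₃ hv e1 e2 e3
    have hdl := even_of hcq hcm e2 e3 hv.d₂₃ (hpt _ hv.t₂)
    have hl2 : l = 2 := ((Nat.prime_dvd_prime_iff_eq Nat.prime_two hl).1 hdl).symm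
    refine ⟨hl2, hPS2 p er A B P V h hT ⊤ L om hL v₁ v₂ v₃ hv q hq hqp hq2 σ' hσ' hI' c hcact
      e1 e2 e3 ?_⟩
    rwa [hl2] at hcl
  have r3 : ∀ v₁ v₂ v₃, Two3 L v₁ v₂ v₃ → emb c * v₁ - v₂ ∈ L.lattice →
      emb c * v₂ - v₃ ∈ L.lattice → emb c * v₃ - v₁ ∈ L.lattice →
      l = 3 ∧ (c ^ 2 + c + 1 ∈ idl (A := A) (B := B) q ∨ c ^ 2 - c + 1 ∈ idl (A := A) (B := B) q) := by
    intro v₁ v₂ v₃ hv e1 e2 e3
    have hdl := three_of hcq hcm e1 e2 e3 hv.d₁₂ hv.d₁₃ (hpt _ hv.t₁)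
    have hl3 : l = 3 := ((Nat.prime_dvd_prime_iff_eq Nat.prime_three hl).1 hdl).symm
    refine ⟨hl3, hPS3 p er A B P V h hT ⊤ L om hL v₁ v₂ v₃ hv q hq hqp hq2 hq3 σ' hσ' hI' c hcact
      e1 e2 e3 ?_⟩
    rwa [hl3] at hcl
  refine ⟨c, ?_⟩
  rcases hcl3 _ i1.1 i1.2 with a1 | a1 | a1 <;> rcases hcl3 _ i2.1 i2.2 with a2 | a2 | a2 <;>
    rcases hcl3 _ i3.1 i3.2 with a3 | a3 | a3
  · exact (d12 _ a1 a2).elim
  · exact (d12 _ a1 a2).elim
  · exact (d12 _ a1 a2).elim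
  · exact (d13 _ a1 a3).elim
  · exact (d23 _ a2 a3).elim
  · -- the identity
    exfalso
    apply hc1
    apply triv2 hcq hL
    intro w hw'
    by_cases hwL : w ∈ L.lattice
    · exact sub_mem (hcm c _ hwL) hwL
    · have key : ∀ t, emb c * t - t ∈ L.lattice → w - t ∈ L.lattice →
          emb c * w - w ∈ L.lattice := by
        intro t h1 h2
        have h3 := sub_mem (add_mem (hcm c _ h2) h1) h2
        have e : emb c * (w - t) + (emb c * t - t) - (w - t) = emb c * w - w := by ring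
        rwa [e] at h3
      rcases hcl3 _ hwL hw' with h1 | h1 | h1
      · exact key _ a1 h1
      · exact key _ a2 h1
      · exact key _ a3 h1
  · exact (d13 _ a1 a3).elim
  · exact Or.inl (r2 w₁ w₂ w₃ hw a1 a2 a3)
  · exact (d23 _ a2 a3).elim
  · exact (d23 _ a2 a3).elim
  · exact (d13 _ a1 a3).elim
  · -- (1 2) 3
    exact Or.inl (r2 w₃ w₁ w₂ hw.rot.rot a3 a1 a2)
  · exact (d12 _ a1 a2).elim
  · exact (d12 _ a1 a2).elim
  · exact (d12 _ a1 a2).elim
  · -- 1 → 2 → 3 → 1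
    exact Or.inr (r3 w₁ w₂ w₃ hw a1 a2 a3)
  · exact (d13 _ a1 a3).elim
  · exact (d23 _ a2 a3).elim
  · exact (d23 _ a2 a3).elim
  · -- 1 → 3 → 2 → 1
    exact Or.inr (r3 w₁ w₃ w₂ hw.swap a1 a3 a2)
  · exact (d13 _ a1 a3).elim
  · -- (1 3) 2
    exact Or.inl (r2 w₂ w₃ w₁ hw.rot a2 a3 a1)
  · exact (d23 _ a2 a3).elim
  · exact (d13 _ a1 a3).elim
  · exact (d12 _ a1 a2).elim
  · exact (d12 _ a1 a2).elim
  · exact (d12 _ a1 a2).elim

end Pool.Agent.OBR
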