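import Pool.Agent.OB.StR
import Pool.Agent.MUX.XLib

/-!
# OB, block GR, module QUO (helper26): the lattice `q⁻¹ L`, `q` an ideal of norm two
-/

set_option autoImplicit false

namespace Pool.Agent.OBR

open _root_.MU3 Pool.Agent.MU3A Pool.Agent.MU3B Pool.Agent.RI Pool.Agent.MUX Pool.Agent.MUXU
open Pool.Agent.MUXV (GR InK tX)
open Pool.Agent.NS Pool.Agent.NSR Pool.Agent.OB

noncomputable section

namespace QUOx

variable {A B : ℤ}

lemma card_eq_index (I : Ideal (OO A B)) : nI I = I.toAddSubgroup.index := rfl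

/-- the class of an ideal of relative index two -/
lemma exists_rep {q c : Ideal (OO A B)} (h : nI (q * c) = 2 * nI c) (hc : nI c ≠ 0) :
    ∃ y ∈ c, y ∉ q * c ∧ ∀ t ∈ c, t ∈ q * c ∨ t - y ∈ q * c := by
  have hqc : q * c ≤ c := Ideal.mul_le_right
  have hle : (q * c).toAddSubgroup ≤ c.toAddSubgroup := by
    intro x hx
    have hx' : x ∈ q * c := hx
    exact (hqc hx' : x ∈ c)
  have h1 := AddSubgroup.relIndex_mul_index hle
  rw [← card_eq_index, ← card_eq_index, h] at h1
  have h2 : (q * c).toAddSubgroup.relIndex c.toAddSubgroup = 2 :=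
    Nat.eq_of_mul_eq_mul_right (Nat.pos_of_ne_zero hc) h1
  obtain ⟨a, ha, h3⟩ := AddSubgroup.relIndex_eq_two_iff.1 h2
  have ha' : a ∈ c := ha
  have h0 : a ∉ q * c := by
    intro hq
    have h4 := h3 0 c.toAddSubgroup.zero_mem
    rcases h4 with h4 | h4
    · exact h4.2 (q * c).zero_mem
    · exact h4.2 (by rw [zero_add]; exact hq)
  refine ⟨-a, neg_mem ha', fun h5 => h0 (by have := neg_mem h5; rwa [neg_neg] at this), ?_⟩
  intro t ht
  rcases h3 t ht with h4 | h4
  · right
    rw [sub_neg_eq_add]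
    exact h4.1
  · exact Or.inl h4.1

end QUOx

open QUOx in
theorem o_QUO : So_QUO := by
  intro A B hC q hq0 hq2 b L om hL
  have hqc := cjI_ne_bot hC hq0
  have hb := hL.b_ne
  have hc : cjI q * b ≠ ⊥ := mul_ne_bot hC hqc hb
  set c := cjI q * b with hcdef
  have hom := hL.om_ne
  have h2c : (2 : ℂ) ≠ 0 := two_ne_zero
  have hom' : om / 2 ≠ 0 := div_ne_zero hom h2c
  obtain ⟨M, hM⟩ := exists_isLI hC hc hom'
  have e2 : q * cjI q = sp ((2 : ℕ) : OO A B) := by
    have := mul_cjI hC hq0
    rwa [hq2] at this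
  have eqc : q * c = sp ((2 : ℕ) : OO A B) * b := by
    rw [hcdef, ← mul_assoc, e2]
  have hqcle : q * c ≤ c := Ideal.mul_le_right
  have embtwo : ∀ t : OO A B, om / 2 * emb (((2 : ℕ) : OO A B) * t) = om * emb t := by
    intro t
    rw [emb_mul hC, emb_natCast hC]
    push_cast
    ring
  have key : ∀ s : OO A B, om / 2 * emb s ∈ L.lattice ↔ s ∈ q * c := by
    intro s
    rw [hL.mem, eqc]
    constructor
    · rintro ⟨t, ht, hst⟩
      rw [← embtwo] at hst
      have := emb_inj hC (mul_left_cancel₀ hom' hst)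
      rw [this]
      exact Ideal.mul_mem_mul (Ideal.mem_span_singleton_self _) ht
    · intro hs
      obtain ⟨t, ht, rfl⟩ := Ideal.mem_span_singleton_mul.1 hs
      exact ⟨t, ht, embtwo t⟩
  have hnI : nI (q * c) = 2 * nI c := by rw [nI_mul hC hq0 hc, hq2]
  obtain ⟨y, hyc, hyq, hrep⟩ := exists_rep hnI (nI_ne_zero hC hc)
  have two_q : ((2 : ℕ) : OO A B) ∈ q := by
    have := nI_mem hC hq0
    rwa [hq2] at this
  refine ⟨c, M, om / 2, om / 2 * emb y, hM, fun h => hyq ((key y).1 h), ?_, ?_, ?_⟩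
  · have h1 : 2 * (om / 2 * emb y) = om / 2 * emb (((2 : ℕ) : OO A B) * y) := by
      rw [embtwo]
      ring
    rw [h1]
    exact (key _).2 (Ideal.mul_mem_mul two_q hyc)
  · intro z
    constructor
    · intro hz x hx
      obtain ⟨t, ht, rfl⟩ := (hM.mem z).1 hz
      have h1 : emb x * (om / 2 * emb t) = om / 2 * emb (x * t) := by
        rw [emb_mul hC]
        ring
      rw [h1]
      exact (key _).2 (Ideal.mul_mem_mul hx ht)
    · intro hz
      have h1 : ∀ s ∈ q * cjI q, ∃ t ∈ c, emb s * z = om * emb t := by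
        intro s hs
        refine Submodule.mul_induction_on hs ?_ ?_
        · intro x hx u hu
          obtain ⟨t, ht, hxt⟩ := (hL.mem _).1 (hz x hx)
          refine ⟨u * t, Ideal.mul_mem_mul hu ht, ?_⟩
          rw [emb_mul hC, emb_mul hC]
          linear_combination emb u * hxt
        · rintro s s' ⟨t, ht, h1⟩ ⟨t', ht', h2⟩
          refine ⟨t + t', add_mem ht ht', ?_⟩
          rw [emb_add hC, emb_add hC]
          linear_combination h1 + h2
      obtain ⟨t, ht, h2⟩ := h1 ((2 : ℕ) : OO A B) (by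
        rw [e2]
        exact Ideal.mem_span_singleton_self _)
      refine (hM.mem z).2 ⟨t, ht, ?_⟩
      rw [emb_natCast hC] at h2
      push_cast at h2
      linear_combination h2 / 2
  · intro z
    constructor
    · intro hz
      obtain ⟨t, ht, rfl⟩ := (hM.mem z).1 hz
      rcases hrep t ht with h1 | h1
      · exact Or.inl ((key t).2 h1)
      · right
        have h2 := (key _).2 h1
        rw [emb_sub hC, mul_sub] at h2
        exact h2
    · have h3 : ∀ z ∈ L.lattice, z ∈ M.lattice := by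
        intro z hz
        obtain ⟨t, ht, rfl⟩ := (hL.mem z).1 hz
        rw [← embtwo]
        refine (hM.mem _).2 ⟨_, ?_, rfl⟩
        have : ((2 : ℕ) : OO A B) * t ∈ q * c := by
          rw [eqc]
          exact Ideal.mul_mem_mul (Ideal.mem_span_singleton_self _) ht
        exact hqcle this
      rintro (h1 | h1)
      · exact h3 z h1
      · have h4 := h3 _ h1
        have h5 : om / 2 * emb y ∈ M.lattice := (hM.mem _).2 ⟨y, hyc, rfl⟩
        have := add_mem h4 h5
        rwa [sub_add_cancel] at this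

end

end Pool.Agent.OBR
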