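import Pool.Agent.OB.StR

/-!
# OB, block GR, module RF2 (helper37): the Legendre forms are defined over `RF (2)`
-/

set_option autoImplicit false

open WeierstrassCurve Polynomial

namespace Pool.Agent.OBR

open _root_.MU3 Pool.Agent.MU3A Pool.Agent.MU3B Pool.Agent.RI Pool.Agent.MUX Pool.Agent.MUXU
open Pool.Agent.NS Pool.Agent.NSR Pool.Agent.OB

noncomputable section

theorem RF2x.xn_mem {A B : ℤ} (hc : CQ A B) {b : Ideal (OO A B)} {L : PeriodPair} {om : ℂ}
    (h : IsNL b L om) {w : ℂ} (hw : w ∉ L.lattice) (hw2 : 2 * w ∈ L.lattice) :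
    L.weierstrassP w ∈ RF (idl (A := A) (B := B) 2) := by
  have h1 : xn L w ∈ RF (idl (A := A) (B := B) 2) := by
    refine IntermediateField.subset_adjoin _ _ ⟨b, L, om, h, Or.inr ⟨w, ?_, hw, rfl⟩⟩
    intro x hx
    obtain ⟨y, rfl⟩ := Ideal.mem_span_singleton'.1 hx
    have h2 : emb (y * ((2 : ℕ) : OO A B)) = emb y * 2 := by
      rw [emb_mul hc]
      congr 1
      have := map_natCast (Pool.Agent.MUX.embHom hc) 2
      rw [Pool.Agent.MUX.embHom_apply] at this
      rw [this]
      norm_num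
    rw [h2, mul_assoc]
    exact h.toIsLI.hasCM hc y _ hw2
  have h3 : L.weierstrassP w = xn L w + ((1 / 12 : ℚ) : ℂ) := by
    unfold xn
    push_cast
    ring
  rw [h3]
  refine add_mem h1 ?_
  exact SubfieldClass.ratCast_mem _ _

theorem o_RF2 : So_RF2 := fun _ _ hc _ _ _ hL _ hw hw2 => RF2x.xn_mem hc hL hw hw2

end

end Pool.Agent.OBR
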