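import Pool.Agent.OB.StR
import Pool.Agent.MUX.UAll
import Pool.Agent.MU3.A_SCP

/-!
# OB, block GR, SCL: the scaled lattice (helper50)
-/

set_option autoImplicit false

open WeierstrassCurve Polynomial

namespace Pool.Agent.OBR

open _root_.MU3 Pool.Agent.MU3A Pool.Agent.MU3B Pool.Agent.RI Pool.Agent.MUX Pool.Agent.MUXU
open Pool.Agent.MUXV (GR InK tX)
open Pool.Agent.NS Pool.Agent.NSR Pool.Agent.OB

noncomputable section

theorem o_SCL (h1 : So_GRL) : So_SCL := by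
  intro V L u e lam v2 hL
  have hu : u ≠ 0 := hL.u0
  obtain ⟨L₁, hL₁⟩ := Pool.Agent.MUXU.u_SCX L u hu
  obtain ⟨hP, hP', -, -⟩ := ta_SCP L L₁ u hu hL₁
  obtain ⟨ξ, G, -⟩ := h1 V L u e lam v2 hL
  refine ⟨L₁, hL₁, hP, hP', WL lam, ξ.comp (AddMonoidHom.mulLeft u⁻¹), ?_⟩
  have hz : ∀ z : ℂ, u * (u⁻¹ * z) = z := fun z => by
    rw [← mul_assoc, mul_inv_cancel₀ hu, one_mul]
  refine ⟨G.int, G.two, G.disc, ?_, ?_⟩
  · intro z hzL
    have h2 : u⁻¹ * z ∉ L.lattice := by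
      rw [hL₁, hz]
      exact hzL
    obtain ⟨h, e1⟩ := G.some (u⁻¹ * z) h2
    have e2 : xu L u e (u⁻¹ * z) = L₁.weierstrassP z - e / u ^ 2 := by
      have := hP (u⁻¹ * z)
      rw [hz] at this
      unfold xu
      rw [this, sub_div]
    have e3 : yu L u (u⁻¹ * z) = L₁.derivWeierstrassP z / 2 := by
      have := hP' (u⁻¹ * z)
      rw [hz] at this
      unfold yu
      rw [this]
      field_simp
    have h' := h
    rw [e2, e3] at h'
    refine ⟨h', ?_⟩
    rw [AddMonoidHom.comp_apply, AddMonoidHom.coe_mulLeft, e1]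
    congr 1
  · intro z hzL
    have h2 : u⁻¹ * z ∈ L.lattice := by
      rw [hL₁, hz]
      exact hzL
    rw [AddMonoidHom.comp_apply, AddMonoidHom.coe_mulLeft, G.zero _ h2]

end

end Pool.Agent.OBR
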