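import Pool.Agent.OB.R_TW3
import Pool.Agent.OB.R_LGE
import Pool.Agent.OB.R_FRC
import Pool.Agent.OB.R_DIC
import Pool.Agent.OB.R_FRU
import Pool.Agent.OB.R_FIX
import Pool.Agent.OB.R_ISV
import Pool.Agent.OB.R_IS2
import Pool.Agent.OB.R_QUO
import Pool.Agent.OB.R_NFI
import Pool.Agent.OB.R_NFR
import Pool.Agent.OB.R_NFS
import Pool.Agent.OB.R_GRD
import Pool.Agent.OB.R_GRL
import Pool.Agent.OB.R_SCL
import Pool.Agent.OB.R_ISO
import Pool.Agent.OB.R_MLT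
import Pool.Agent.OB.R_INJ
import Pool.Agent.OB.R_INX
import Pool.Agent.OB.R_MUL
import Pool.Agent.OB.R_LIF
import Pool.Agent.OB.R_RF2
import Pool.Agent.OB.R_FXX
import Pool.Agent.OB.R_KUM
import Pool.Agent.OB.R_KUA
import Pool.Agent.OB.R_KUB
import Pool.Agent.OB.R_KUC
import Pool.Agent.OB.R_NSQ
import Pool.Agent.OB.R_AFF
import Pool.Agent.OB.R_PS2
import Pool.Agent.OB.R_PS3
import Pool.Agent.OB.R_PRN
import Pool.Agent.OB.R_POW
import Pool.Agent.OB.R_LFT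
import Pool.Agent.OB.R_ORD
import Pool.Agent.OB.R_PSI
import Pool.Agent.OB.R_IN2
import Pool.Agent.OB.R_FIN
import Pool.Agent.OB.T_BAS
import Pool.Agent.NS.RN_ALL
import Pool.Agent.MUX.RQ0

/-!
# OB, block GR, the result `O_RFIN` without hypotheses, and the other theorems of the block (helper51)

`r_X : So_X` for every statement of `OB/StR.lean`; `o_RFIN : O_RFIN`.
-/

set_option autoImplicit false

namespace Pool.Agent.OBR

open Pool.Agent.NSR Pool.Agent.OB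

theorem r_TW3 : So_TW3 := o_TW3
theorem r_LGE : So_LGE := o_LGE r_TW3
theorem r_FRC : So_FRC := o_FRC r_TW3
theorem r_DIC : So_DIC := o_DIC r_TW3 r_LGE r_FRC
theorem r_FRU : So_FRU := o_FRU r_TW3 r_FRC
theorem r_FIX : So_FIX := o_FIX r_TW3 r_LGE
theorem r_ISV : So_ISV := o_ISV r_TW3
theorem r_IS2 : So_IS2 := o_IS2 r_TW3 r_FRC r_FRU r_ISV
theorem r_QUO : So_QUO := o_QUO
theorem r_NFI : So_NFI := o_NFI r_FIX
theorem r_NFR : So_NFR := o_NFR r_FIX r_IS2 r_QUO r_TW3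
theorem r_NFS : So_NFS := o_NFS r_FRU r_IS2 r_QUO r_TW3
/-- good reduction -/
theorem r_GRD : So_GRD := o_GRD r_DIC r_NFI r_NFR r_NFS
theorem r_GRL : So_GRL := o_GRL rxil
theorem r_SCL : So_SCL := o_SCL r_GRL
theorem r_ISO : So_ISO := o_ISO r_SCL rtor rlgf Pool.Agent.MUXV.x_MUN
theorem r_MLT : So_MLT := o_MLT r_ISO
theorem r_INJ : So_INJ := o_INJ r_MLT rtor
theorem r_INX : So_INX := o_INX r_GRL r_INJ
theorem r_MUL : So_MUL := o_MUL Pool.Agent.OBT.o_BAS r_ISO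
theorem r_LIF : So_LIF := o_LIF
theorem r_RF2 : So_RF2 := o_RF2
theorem r_FXX : So_FXX := o_FXX r_GRD r_TW3 r_RF2 r_INJ r_INX
theorem r_KUM : So_KUM := o_KUM
theorem r_KUA : So_KUA := o_KUA r_KUM
theorem r_KUB : So_KUB := o_KUB r_KUA
theorem r_KUC : So_KUC := o_KUC r_KUA
theorem r_NSQ : So_NSQ := o_NSQ
theorem r_AFF : So_AFF := o_AFF r_GRD r_TW3
theorem r_PS2 : So_PS2 := o_PS2 r_AFF r_TW3 r_GRD r_INX
theorem r_PS3 : So_PS3 := o_PS3 r_AFF r_GRD r_INX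
theorem r_PRN : So_PRN := o_PRN
theorem r_POW : So_POW := o_POW
theorem r_LFT : So_LFT := o_LFT r_LIF r_FXX r_POW
theorem r_ORD : So_ORD := o_ORD r_LFT r_POW r_KUC r_NSQ
theorem r_PSI : So_PSI := o_PSI r_LFT r_ORD r_PRN r_PS2 r_PS3 r_NSQ r_TW3
theorem r_IN2 : So_IN2 := o_IN2 r_PSI r_KUB r_NSQ

/-- good models and trivial inertia groups -/
theorem o_RFIN : O_RFIN := o_FIN r_GRD r_TW3 r_RF2 r_LIF r_FXX r_IN2

end Pool.Agent.OBR
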