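import Pool.Agent.OB.StT
import Pool.Agent.MUX.UAll
import Pool.Agent.MUX.XLib

/-!
# OB, block T, module ACG (helper81, after helper73's `NS/TR_ACF.lean`): the number `c` and the signs `d_i`, for `σ` trivial on `RF g`
-/

set_option autoImplicit false

namespace Pool.Agent.OBT

open _root_.MU3 Pool.Agent.MU3A Pool.Agent.MU3B Pool.Agent.RI Pool.Agent.MUX Pool.Agent.MUXU
open OnePoint Pool.Agent.NS Pool.Agent.OB
open Pool.Agent.MUXV (GR InK)
open Pool.Agent.NSE (su ru)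
open Pool.Agent.NST (KIn ActT)
open Pool.Agent.MUXY (ActN Dn Sy_MUU Sy_BRI)

noncomputable section

/-- (ACG) the number `c` and the signs `d_i`, for `σ` trivial on `RF g`, `g` an ideal. -/
theorem o_ACG (h1 : Sy_MUU) (h2 : Sy_BRI) : So_ACG := by
  intro A B hC T n ι R m g hm hle σ hσ hfix
  have hI : idl (A := A) (B := B) m ≠ ⊥ := by
    rw [Ne, Ideal.span_singleton_eq_bot]
    exact natCast_ne_zero' hC hm
  have hI' : g ≠ ⊥ := by
    rintro rfl
    exact hI (le_bot_iff.1 hle)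
  obtain ⟨a, hcop, ha⟩ := T.act (idl m) hI σ hσ
  obtain ⟨b₀, L₀, om₀, mu₀, hL₀, hA₀⟩ := ha _ _ _ (R.nl R.i0)
  have hA' : ActI σ g a (R.L R.i0) L₀ mu₀ := by
    refine ⟨hA₀.kap, ?_, hA₀.isq, fun z hz => hA₀.act z fun x hx => hz x (hle hx)⟩
    have h3 := hcop
    rw [Ideal.isCoprime_iff_sup_eq] at h3 ⊢
    rw [eq_top_iff, ← h3]
    exact sup_le_sup_left hle a
  obtain ⟨c, hc1, hca⟩ := (T.triv g a σ _ _ _ _ mu₀ hI' hσ (R.nl R.i0) hA' hL₀.nrm).1 hfix
  subst hca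
  have hc0 : c ≠ 0 := by
    rintro rfl
    obtain ⟨hmu, hq⟩ := hA₀.isq
    refine L₀.ω₁_div_two_notMem_lattice ?_
    have h5 := (hq (L₀.ω₁ / 2 / mu₀)).2 (by
      intro x hx
      obtain ⟨y, rfl⟩ := Ideal.mem_span_singleton'.1 hx
      rw [mul_zero]
      have e0 : emb (0 : OO A B) = 0 := Pool.Agent.MUX.emb_zero hC
      rw [e0, zero_mul]
      exact Submodule.zero_mem _)
    rwa [mul_div_cancel₀ _ hmu] at h5
  have key : ∀ i, ∃ d : ℤ, (d = 1 ∨ d = -1) ∧
      ActN σ m (sp c) (R.L i) (R.L i) ((d : ℂ) * emb c) := by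
    intro i
    obtain ⟨b', L', om', mu, hL', hA⟩ := ha _ _ _ (R.nl i)
    have hk : kap L' = kap (R.L i) := by
      rw [hA.kap]
      exact hfix _ (IntermediateField.subset_adjoin _ _ ⟨R.b i, R.L i, R.om i, R.nl i, Or.inl rfl⟩)
    have hg2 : L'.g₂ = (R.L i).g₂ := by
      unfold kap at hk
      linear_combination (1728 / 12) * hk
    have hg3 : L'.g₃ = (R.L i).g₃ := by
      have e1 := hL'.nrm
      have e2 := (R.nl i).nrm
      rw [hg2, e2] at e1
      linear_combination (1 / 18) * e1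
    have hlat : L'.lattice = (R.L i).lattice := u_DET L' (R.L i) hg2 hg3
    have hN : ActN σ m (sp c) (R.L i) (R.L i) mu :=
      h2 A B hC σ m (sp c) (R.b i) b' (R.L i) L' (R.L i) (R.om i) om' mu (R.nl i) hL' hA
        (fun z => by rw [hlat])
    have hq1 : IsQ (sp c) (R.L i) (R.L i) mu := ⟨hN.ne, hN.isq⟩
    have hCM : HasCM A B (R.L i) := (R.nl i).toIsLI.hasCM hC
    have hq2 : IsQ (sp c) (R.L i) (R.L i) (emb c) := by
      refine ⟨emb_ne_zero hC hc0, fun z => ⟨fun hz x hx => ?_, fun hz => ?_⟩⟩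
      · obtain ⟨y, rfl⟩ := Ideal.mem_span_singleton'.1 hx
        rw [emb_mul hC, mul_assoc]
        exact hCM y _ hz
      · exact hz c (Ideal.mem_span_singleton_self c)
    rcases h1 A B (sp c) (R.L i) (R.L i) (emb c) mu (R.nl i).nrm hq2 hq1 with h | h
    · refine ⟨1, Or.inl rfl, ?_⟩
      have e : (((1 : ℤ) : ℂ)) * emb c = mu := by rw [h]; push_cast; ring
      rw [e]
      exact hN
    · refine ⟨-1, Or.inr rfl, ?_⟩
      have e : (((-1 : ℤ) : ℂ)) * emb c = mu := by rw [h]; push_cast; ring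
      rw [e]
      exact hN
  choose d hd hact using key
  refine ⟨c, d, hc1, hcop, hσ, hd, hact, fun z hz => ?_⟩
  exact (T.zeta m (idl m) (sp c) σ _ _ _ _ mu₀ hI hσ hm le_rfl (R.nl R.i0) hA₀ z hz).2

end

end Pool.Agent.OBT
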