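import Pool.Agent.OB.StT
import Pool.Agent.NS.T_ALT
import Pool.Agent.NS.RN_LGF

/-!
# OB, block T, module ALT: the coordinates of torsion points are algebraic (helper95, after `NS/TR_ALT.lean`)
-/

set_option autoImplicit false

namespace Pool.Agent.OBT

open _root_.MU3 Pool.Agent.MU3A Pool.Agent.MU3B Pool.Agent.RI Pool.Agent.MUX Pool.Agent.MUXU
open OnePoint Pool.Agent.NS Pool.Agent.OB
open Pool.Agent.MUXV (GR InK)
open Pool.Agent.NSE (su ru)
open Pool.Agent.NST (KIn ActT)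
open Pool.Agent.MUXY (ActN Dn)

noncomputable section

open Pool.Agent.NST.ALT in
/-- (ALT) the coordinates of torsion points are algebraic -/
theorem o_ALT : So_ALT := by
  intro A B hC T V b L om hL u e lam hG
  have hu0 := hG.u0
  have hu2' : u ^ 2 ≠ 0 := pow_ne_zero _ hu0
  obtain ⟨e1, -, -, -, -, ⟨w₁, hw1, hw1', he⟩, -⟩ :=
    Pool.Agent.NSR.tr_LGF L u e lam ⟨hG.u0, hG.eq⟩
  obtain ⟨w₂, hw2, hew⟩ := b_SUR L (e + u ^ 2)
  have hw2' : 2 * w₂ ∈ L.lattice := by
    apply (b_ZER L w₂ hw2).1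
    have h1 := hG.eq w₂ hw2
    have h4 : (L.weierstrassP w₂ - e) / u ^ 2 = 1 := by
      rw [hew, add_sub_cancel_left, div_self hu2']
    rw [h4, sub_self, mul_zero, zero_mul] at h1
    have h5 := (pow_eq_zero_iff two_ne_zero).1 h1
    rcases div_eq_zero_iff.1 h5 with h6 | h6
    · exact h6
    · exact absurd h6 (mul_ne_zero two_ne_zero (pow_ne_zero _ hu0))
  have hu : L.weierstrassP w₂ - L.weierstrassP w₁ = u ^ 2 := by
    rw [hew, he]
    ring
  have m1 := wp_mem (n := 2) hC hL hw1 (by push_cast; exact hw1')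
  have m2 := wp_mem (n := 2) hC hL hw2 (by push_cast; exact hw2')
  have hu2 : u ^ 2 ∈ RF (idl (A := A) (B := B) 2) := by
    rw [← hu]; exact sub_mem m2 m1
  have hem : e ∈ RF (idl (A := A) (B := B) 2) := by rw [← he]; exact m1
  have hlam : lam ∈ RF (idl (A := A) (B := B) 2) := by
    have h6 : lam = -3 * e / u ^ 2 - 1 := by
      field_simp
      linear_combination e1
    rw [h6]
    have h7 : (-3 : ℂ) ∈ RF (idl (A := A) (B := B) 2) := by simp
    exact sub_mem (div_mem (mul_mem h7 hem) hu2) (one_mem _)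
  have hua2 : IsAlgebraic ℚ (u ^ 2) := alg_RF hC T two_ne_zero hu2
  have hua : IsAlgebraic ℚ u := IsAlgebraic.of_pow two_pos hua2
  have hea : IsAlgebraic ℚ e := alg_RF hC T two_ne_zero hem
  refine ⟨hu2, hem, hlam, hua, fun N hN z hz hz' => ?_⟩
  have hP : IsAlgebraic ℚ (L.weierstrassP z) := alg_RF hC T hN (wp_mem hC hL hz hz')
  have hk : IsAlgebraic ℚ (kap L) := alg_RF hC T hN
    (IntermediateField.subset_adjoin _ _ ⟨b, L, om, hL, Or.inl rfl⟩)
  have hg2 : IsAlgebraic ℚ L.g₂ := by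
    have h8 : L.g₂ = ((1 / 12 : ℚ) : ℂ) + ((144 : ℚ) : ℂ) * kap L := by
      unfold kap
      push_cast
      ring
    rw [h8]
    exact (alg_num _).add ((alg_num _).mul hk)
  have hg3 : IsAlgebraic ℚ L.g₃ := by
    have h8 : L.g₃ = ((-1 / 18 : ℚ) : ℂ) * L.g₂ := by
      rw [hL.nrm]
      push_cast
      ring
    rw [h8]
    exact (alg_num _).mul hg2
  have hD : IsAlgebraic ℚ (L.derivWeierstrassP z) := by
    apply IsAlgebraic.of_pow two_pos
    rw [L.derivWeierstrassP_sq z hz]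
    have h4 : IsAlgebraic ℚ (4 : ℂ) := by simpa using alg_num 4
    exact ((h4.mul (hP.pow 3)).sub (hg2.mul hP)).sub hg3
  have hx : IsAlgebraic ℚ (xu L u e z) := by
    unfold xu
    rw [div_eq_mul_inv]
    exact (hP.sub hea).mul hua2.inv
  have hy : IsAlgebraic ℚ (yu L u z) := by
    unfold yu
    rw [div_eq_mul_inv]
    have h2 : IsAlgebraic ℚ (2 : ℂ) := by simpa using alg_num 2
    exact hD.mul (h2.mul (hua.pow 3)).inv
  refine ⟨hx, hy, ?_⟩
  unfold ru
  rw [div_eq_mul_inv]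
  exact hy.neg.mul (hx.pow 2).inv

end

end Pool.Agent.OBT
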