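import Pool.Agent.OB.StT
import Pool.Agent.MUX.XLib

/-!
# OB, block T, module ALV (helper31): the values are algebraic

Copy of `NS/T_ALV.lean` (helper83) with a prime `p` instead of `3` and weights `0` allowed.
-/

set_option autoImplicit false

namespace Pool.Agent.OBT

open _root_.MU3 Pool.Agent.MU3A Pool.Agent.MU3B Pool.Agent.RI Pool.Agent.MUX Pool.Agent.MUXU
open OnePoint Pool.Agent.NS Pool.Agent.OB

namespace ALV

lemma ne_bot {A B : ℤ} (hC : CQ A B) {n : ℕ} (hn : n ≠ 0) : idl (A := A) (B := B) n ≠ ⊥ := by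
  intro h0
  rw [Ideal.span_singleton_eq_bot] at h0
  exact natCast_ne_zero' hC hn h0

lemma ne_top {A B : ℤ} (hC : CQ A B) {n : ℕ} (hn : 2 ≤ n) : idl (A := A) (B := B) n ≠ ⊤ := by
  intro h0
  have h1 : (1 : OO A B) ∈ idl (A := A) (B := B) n := by
    rw [h0]; exact Submodule.mem_top
  obtain ⟨y, hy⟩ := Ideal.mem_span_singleton'.1 h1
  have h2 := congrArg nm hy
  have h3 : nm (((n : ℕ) : OO A B)) = (n : ℤ) ^ 2 := by
    have := nm_intCast (A := A) (B := B) (n : ℤ)
    rwa [Int.cast_natCast] at this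
  have h4 : nm (1 : OO A B) = 1 := by
    have := nm_intCast (A := A) (B := B) 1
    simpa using this
  rw [nm_mul hC, h3, h4] at h2
  have h5 := Int.eq_one_or_neg_one_of_mul_eq_one ((mul_comm _ _).trans h2)
  have h6 : (2 : ℤ) ≤ n := by exact_mod_cast hn
  rcases h5 with h5 | h5 <;> nlinarith

lemma cop {A B : ℤ} {n : ℕ} {ι : Type} (R : Reps A B n ι) (i : ι) :
    IsCoprime (sp ((nI (R.b i) : ℕ) : OO A B)) (idl (A := A) (B := B) n) := by
  obtain ⟨u, v, huv⟩ := Nat.isCoprime_iff_coprime.2 (R.cop i)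
  rw [Ideal.isCoprime_iff_exists]
  refine ⟨(u : OO A B) * ((nI (R.b i) : ℕ) : OO A B), ?_, (v : OO A B) * ((n : ℕ) : OO A B),
    ?_, ?_⟩
  · exact Ideal.mul_mem_left _ _ (Ideal.mem_span_singleton_self _)
  · exact Ideal.mul_mem_left _ _ (Ideal.mem_span_singleton_self _)
  · have h2 := congrArg (fun z : ℤ => (z : OO A B)) huv
    push_cast at h2
    exact h2

lemma sum {ι : Type} (s : Finset ι) (t : ι → ℂ) (ht : ∀ i ∈ s, IsAlgebraic ℚ (t i)) :
    IsAlgebraic ℚ (∑ i ∈ s, t i) :=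
  mem_algebraicClosure_iff.1 (sum_mem (S := algebraicClosure ℚ ℂ) (t := s) (f := t) fun i hi =>
    (mem_algebraicClosure_iff.2 (ht i hi)))

end ALV

theorem o_ALV (h : Pool.Agent.MUXY.Sy_ALP) : So_ALV := by
  intro p hp A B hC hX f hf ι _ R e he r hr her kk hkk u hu x y
  have hpf : p * f ≠ 0 := Nat.mul_ne_zero hp.ne_zero hf
  have hpf2 : 2 ≤ p * f := by
    have h1 := hp.two_le
    have h2 : 1 ≤ f := Nat.one_le_iff_ne_zero.2 hf
    nlinarith
  have hbot : idl (A := A) (B := B) (p * f) ≠ ⊥ := ALV.ne_bot hC hpf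
  have htop : idl (A := A) (B := B) (p * f) ≠ ⊤ := ALV.ne_top hC hpf2
  have hval := fun i => (h A B hC hX (p * f) ι inferInstance R _ e hbot htop he
    (fun i => ALV.cop R i) r hr her i x y).2
  have hsum : PhiK R e kk x y / (u * R.om R.i0) =
      ∑ i, kk i * (PhiI (R.b i) e x y / R.om R.i0) * u⁻¹ := by
    rw [PhiK, Finset.sum_div]
    refine Finset.sum_congr rfl fun i _ => ?_
    rw [div_eq_mul_inv, mul_inv, div_eq_mul_inv]
    ring
  rw [hsum]
  refine ALV.sum _ _ fun i _ => ?_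
  have hk : IsAlgebraic ℚ (kk i) := by
    rcases hkk i with h0 | h1
    · rw [h0]
      exact isAlgebraic_zero
    · refine IsAlgebraic.of_pow (n := r) (Nat.pos_of_ne_zero hr) ?_
      rw [h1]
      exact isAlgebraic_one
  exact (hk.mul (hval i)).mul hu.inv

end Pool.Agent.OBT
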