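import Pool.Agent.OB.StT
import Pool.Agent.MUX.UAll
import Pool.Agent.MUX.XLib

/-!
# OB, block T, module SGM: the signs `d_i`
-/

set_option autoImplicit false

namespace Pool.Agent.OBT

open _root_.MU3 Pool.Agent.MU3A Pool.Agent.MU3B Pool.Agent.RI Pool.Agent.MUX Pool.Agent.MUXU
open OnePoint Pool.Agent.NS Pool.Agent.OB
open Pool.Agent.NST (KIn ActT)
open Pool.Agent.MUXY (ActN Dn Sy_MUI Sy_MUC Sy_MUU)

noncomputable section

namespace SGM

theorem zmul_mem {L : PeriodPair} (n : ℤ) {w : ℂ} (h : w ∈ L.lattice) : (n : ℂ) * w ∈ L.lattice := by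
  have h1 := zsmul_mem h n
  rwa [zsmul_eq_mul] at h1

theorem phi_cong {A B : ℤ} {σ : ℂ ≃+* ℂ} {L : PeriodPair} {Φ : ℂ → ℂ} (hΦ : IsPhi σ L L Φ)
    {m : ℕ} {a : Ideal (OO A B)} {mu : ℂ} (h : ActN σ m a L L mu) {z : ℂ}
    (hz : (m : ℂ) * z ∈ L.lattice) (hzL : z ∉ L.lattice) : Φ z - mu * z ∈ L.lattice := by
  obtain ⟨h1, h2, h3⟩ := h.act z hz hzL
  refine u_EQP L _ _ ((hΦ.mem z).not.2 hzL) h1 ?_ ?_
  · rw [hΦ.P z hzL, h2]
  · rw [hΦ.P' z hzL, h3]

/-- `Φ z ≡ d z` if `c ≡ 1` modulo `m'` and `m' z ∈ L` -/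
theorem phi_d {A B : ℤ} (hC : CQ A B) {σ : ℂ ≃+* ℂ} {b : Ideal (OO A B)} {L : PeriodPair} {om : ℂ}
    (hL : IsLI b L om) {Φ : ℂ → ℂ} (hΦ : IsPhi σ L L Φ)
    {m m' : ℕ} (hdv : m' ∣ m) {a : Ideal (OO A B)} {c : OO A B}
    (hc : c - 1 ∈ idl (A := A) (B := B) m') {d : ℤ}
    (h : ActN σ m a L L (d * emb c)) {z : ℂ}
    (hz : (m' : ℂ) * z ∈ L.lattice) (hzL : z ∉ L.lattice) : Φ z - d * z ∈ L.lattice := by
  have h1 : ((m : ℕ) : ℂ) * z ∈ L.lattice := by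
    obtain ⟨q, rfl⟩ := hdv
    have h2 := nsmul_mem hz q
    rw [nsmul_eq_mul, ← mul_assoc, ← Nat.cast_mul, mul_comm q] at h2
    exact h2
  have h3 := phi_cong hΦ h h1 hzL
  obtain ⟨y, hy⟩ := Ideal.mem_span_singleton'.1 hc
  have h4 : emb c = emb y * m' + 1 := by
    have h5 : c = y * ((m' : ℕ) : OO A B) + 1 := by rw [hy]; ring
    rw [h5, Pool.Agent.MUX.emb_add hC, Pool.Agent.MUX.emb_mul hC,
      Pool.Agent.MUX.emb_natCast hC, Pool.Agent.MUX.emb_one hC]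
  have h5 : emb y * (m' * z) ∈ L.lattice := by
    obtain ⟨t, ht, he⟩ := (hL.mem _).1 hz
    rw [he]
    refine (hL.mem _).2 ⟨y * t, b.mul_mem_left y ht, ?_⟩
    rw [Pool.Agent.MUX.emb_mul hC]; ring
  have h6 := add_mem h3 (zmul_mem d h5)
  have h7 : Φ z - d * emb c * z + d * (emb y * (m' * z)) = Φ z - d * z := by
    rw [h4]; ring
  rwa [h7] at h6

end SGM

open SGM in
theorem o_SGM (hI : Sy_MUI) (hMC : Sy_MUC) (hMU : Sy_MUU) : So_SGM := by
  intro A B hC n ι R m m' hm hmm hf hfn σ c d hc hact i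
  have hm' : m' ≠ 0 := by omega
  have hN0 : nI (R.b i) ≠ 0 := by
    intro h
    have h1 := R.cop i
    rw [h, Nat.coprime_zero_left] at h1
    rw [h1] at hfn
    exact absurd (Nat.le_of_dvd one_pos hfn) (by omega)
  have hμ : muX R i ≠ 0 := by
    unfold muX
    exact div_ne_zero (mul_ne_zero (R.nl i).om_ne (by exact_mod_cast hN0)) (R.nl R.i0).om_ne
  have hQ := hI A B hC _ ι R i
  have hQ' := hMC A B hC σ hact.fix (cjI (R.b i)) (R.b R.i0) (R.L R.i0) (R.L i) (R.L R.i0) (R.L i)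
    (R.om R.i0) (muX R i) (R.nl R.i0).toIsLI (hact.act R.i0).cj (hact.act i).cj hQ
  have hs := hMU A B _ _ _ _ _ (R.nl i).nrm hQ hQ'
  have hisg : Isg (R.L R.i0) (R.L i) (muX R i) := by
    intro w hw
    refine (hQ.2 w).2 fun x _ => ?_
    obtain ⟨t, ht, rfl⟩ := ((R.nl R.i0).mem w).1 hw
    refine ((R.nl R.i0).mem _).2 ⟨x * t, (R.b R.i0).mul_mem_left x ht, ?_⟩
    rw [Pool.Agent.MUX.emb_mul hC]; ring
  obtain ⟨Φ, hΦ⟩ := u_PHI σ _ _ (hact.act R.i0).cj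
  obtain ⟨Ψ, hΨ⟩ := u_PHI σ _ _ (hact.act i).cj
  obtain ⟨-, hfun⟩ := u_FUN σ _ _ _ _ (muX R i) Φ Ψ hμ hisg (hact.act R.i0).cj (hact.act i).cj hΦ hΨ
  have hm0 : (m' : ℂ) ≠ 0 := by exact_mod_cast hm'
  -- the point
  obtain ⟨z, hz⟩ : ∃ z : ℂ, z = R.om R.i0 / m' := ⟨_, rfl⟩
  have hmz : (m' : ℂ) * z = R.om R.i0 := by rw [hz]; field_simp
  have hom0 : R.om R.i0 ∈ (R.L R.i0).lattice := by
    refine ((R.nl R.i0).mem _).2 ⟨1, by rw [R.b0]; trivial, ?_⟩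
    rw [Pool.Agent.MUX.emb_one hC, mul_one]
  have hμz : (m' : ℂ) * (muX R i * z) = R.om i * nI (R.b i) := by
    rw [mul_left_comm, hmz]
    unfold muX
    have := (R.nl R.i0).om_ne
    field_simp
  have h2 : 2 * (muX R i * z) ∉ (R.L i).lattice := by
    intro h
    obtain ⟨x, -, hx⟩ := ((R.nl i).mem _).1 h
    have h3 : emb (((2 * nI (R.b i) : ℕ) : OO A B)) = emb (((m' : ℕ) : OO A B) * x) := by
      rw [Pool.Agent.MUX.emb_mul hC, Pool.Agent.MUX.emb_natCast hC, Pool.Agent.MUX.emb_natCast hC]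
      apply mul_left_cancel₀ (R.nl i).om_ne
      push_cast
      linear_combination -2 * hμz + (m' : ℂ) * hx
    have h4 := Pool.Agent.MUX.emb_inj hC h3
    have h5 : ((2 * nI (R.b i) : ℕ) : ℤ) = (m' : ℤ) * x.re := by
      have h6 := congrArg QuadraticAlgebra.re h4
      rw [QuadraticAlgebra.re_natCast, QuadraticAlgebra.re_mul, QuadraticAlgebra.re_natCast,
        QuadraticAlgebra.im_natCast] at h6
      rw [h6]; ring
    have h6 : m' ∣ 2 * nI (R.b i) := by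
      have : (m' : ℤ) ∣ ((2 * nI (R.b i) : ℕ) : ℤ) := ⟨_, h5⟩
      exact_mod_cast this
    have h8 : Nat.Coprime m' (nI (R.b i)) := ((R.cop i).coprime_dvd_right hfn).symm
    have h9 := h8.dvd_of_dvd_mul_right h6
    exact absurd (Nat.le_of_dvd (by norm_num) h9) (by omega)
  have h1 : muX R i * z ∉ (R.L i).lattice := fun h => h2 (by
    have := add_mem h h
    rwa [← two_mul] at this)
  have hz0 : z ∉ (R.L R.i0).lattice := fun h => h1 (hisg z h)
  have e1 := phi_d hC (R.nl R.i0).toIsLI hΦ hmm hc (hact.act R.i0) (hmz ▸ hom0) hz0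
  have e2 : Ψ (muX R i * z) - d i * (muX R i * z) ∈ (R.L i).lattice := by
    refine phi_d hC (R.nl i).toIsLI hΨ hmm hc (hact.act i) ?_ h1
    rw [mul_left_comm, hmz]
    exact hisg _ hom0
  have e3 := hfun z
  have e4 := hisg _ e1
  -- the sign
  obtain ⟨s, hs1, hs2⟩ : ∃ s : ℤ, (s = 1 ∨ s = -1) ∧ σ (muX R i) = s * muX R i := by
    rcases hs with h | h
    · exact ⟨1, Or.inl rfl, by rw [h]; push_cast; ring⟩
    · exact ⟨-1, Or.inr rfl, by rw [h]; push_cast; ring⟩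
  rw [hs2] at e3 ⊢
  have e5 : ((d i - s * d R.i0 : ℤ) : ℂ) * (muX R i * z) ∈ (R.L i).lattice := by
    have h6 := add_mem (sub_mem e3 e2) (zmul_mem s e4)
    have h7 : Ψ (muX R i * z) - s * muX R i * Φ z - (Ψ (muX R i * z) - d i * (muX R i * z)) +
        s * (muX R i * (Φ z - d R.i0 * z)) =
        ((d i - s * d R.i0 : ℤ) : ℂ) * (muX R i * z) := by
      push_cast; ring
    rwa [h7] at h6
  have e6 : d i = s * d R.i0 := by
    by_contra hne
    have h8 : d i - s * d R.i0 = 2 ∨ d i - s * d R.i0 = -2 := by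
      rcases hact.sgn i with h9 | h9 <;> rcases hact.sgn R.i0 with h10 | h10 <;>
        rcases hs1 with h11 | h11 <;> rw [h9, h10, h11] at hne ⊢ <;> simp at hne ⊢
    apply h2
    rcases h8 with h8 | h8
    · rw [h8] at e5
      exact_mod_cast e5
    · rw [h8] at e5
      have := neg_mem e5
      push_cast at this
      rwa [← neg_mul, neg_neg] at this
  rw [e6]
  rcases hact.sgn R.i0 with h10 | h10 <;> rw [h10] <;> push_cast <;> ring

end

end Pool.Agent.OBT
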