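import Pool.Agent.OB.StT
import Pool.Agent.NS.RN_ALL
import Pool.Agent.MUX.XLib

/-!
# OB, block T, module SGU: the sign `d_0`, every prime `p ≥ 5` (adapted from `NS/TR_SGU.lean`)
-/

set_option autoImplicit false

namespace Pool.Agent.OBT

open _root_.MU3 Pool.Agent.MU3A Pool.Agent.MU3B Pool.Agent.RI Pool.Agent.MUX Pool.Agent.MUXU
open OnePoint Pool.Agent.NS Pool.Agent.OB
open Pool.Agent.MUXV (GR InK)
open Pool.Agent.NSE (su ru)
open Pool.Agent.NST (KIn ActT)
open Pool.Agent.MUXY (ActN Dn)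

noncomputable section

namespace SGU

theorem der_congr (L : PeriodPair) {z w : ℂ} (h : w - z ∈ L.lattice) :
    L.derivWeierstrassP w = L.derivWeierstrassP z := by
  have h4 := L.derivWeierstrassP_add_coe z ⟨w - z, h⟩
  have h5 : z + ((⟨w - z, h⟩ : L.lattice) : ℂ) = w := by
    show z + (w - z) = w
    ring
  rw [h5] at h4
  exact h4

/-- good reduction of the Legendre form -/
theorem grl (V : ValuationSubring ℂ) (L : PeriodPair) (u e lam : ℂ)
    (h2 : V.valuation (2 : ℂ) = 1) (hG : GoodL V L u e lam) :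
    ∃ ξ : ℂ →+ (NSR.WL lam).Point, GR V (NSR.WL lam) L (xu L u e) (yu L u) ξ := by
  obtain ⟨ξ, hk, hs, hp⟩ := NSR.rxil L u e lam ⟨hG.u0, hG.eq⟩
  have hl := hG.vl
  have hl1 : V.valuation (lam - 1) = 1 := by
    rw [← Valuation.map_neg, neg_sub]
    exact hG.vl1
  refine ⟨ξ, ⟨⟨rfl, rfl, ?_, ?_, ?_⟩, h2, ?_, hp, fun z hz => (hk z).2 hz⟩⟩
  · show V.valuation (-(1 + lam)) ≤ 1
    rw [Valuation.map_neg]
    refine (Valuation.map_add _ _ _).trans ?_
    rw [map_one, hl, max_self]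
  · show V.valuation lam ≤ 1
    exact hl.le
  · show V.valuation (0 : ℂ) ≤ 1
    rw [map_zero]
    exact zero_le_one
  · rw [NSR.GRL_disc, map_mul, map_mul, map_pow, map_pow, map_pow, h2, hl, hl1]
    simp

end SGU

open SGU in
/-- (SGU) the sign `d_0` -/
theorem o_SGU (h1 : So_BAS) : So_SGU := by
  intro p er A B P V hS n ι R u e lam hGd m f hm0 hfm hf3 hpf σ c d hcm hAct hσu hlast
  have hC := hS.cq
  obtain ⟨-, hv2, -, -, -, hvn, -⟩ := h1 p er A B P V hS
  have hf0 : f ≠ 0 := by omega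
  set L := R.L R.i0 with hL
  set om := R.om R.i0 with hom
  have hmem : ∀ z : ℂ, z ∈ L.lattice ↔ ∃ x : OO A B, z = om * emb x := by
    intro z
    rw [(R.nl R.i0).mem, R.b0]
    exact ⟨fun ⟨x, _, hx⟩ => ⟨x, hx⟩, fun ⟨x, hx⟩ => ⟨x, trivial, hx⟩⟩
  have hom0 : om ≠ 0 := (R.nl R.i0).om_ne
  have hmC : (f : ℂ) ≠ 0 := Nat.cast_ne_zero.2 hf0
  -- good reduction
  obtain ⟨ξ, G⟩ := grl V L u e lam hv2 hGd
  have hT2 : ∀ z : ℂ, (f : ℂ) * z ∈ L.lattice → InK V L (xu L u e) z → z ∈ L.lattice :=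
    fun z hz hK => Pool.Agent.MUXV.mem_of_nat_mul G hK (hvn f hpf) hz
  set z : ℂ := om / f with hz
  have hmz : (f : ℂ) * z = om := by rw [hz]; field_simp
  have homL : om ∈ L.lattice := (hmem om).2 ⟨1, by rw [Pool.Agent.MUX.emb_one hC, mul_one]⟩
  have hzz : z + z ∉ L.lattice := by
    intro h
    obtain ⟨x, hx⟩ := (hmem _).1 h
    have h1 : (f : ℂ) * emb x = 2 := by
      have h2 : om * ((f : ℂ) * emb x) = om * 2 := by
        linear_combination (-(f : ℂ)) * hx + 2 * hmz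
      exact mul_left_cancel₀ hom0 h2
    have h2 : ((f : ℕ) : OO A B) * x = ((2 : ℕ) : OO A B) := by
      apply Pool.Agent.MUX.emb_inj hC
      rw [Pool.Agent.MUX.emb_mul hC, Pool.Agent.MUX.emb_natCast hC,
        Pool.Agent.MUX.emb_natCast hC, h1]
      norm_num
    have h4 := congrArg nm h2
    rw [Pool.Agent.MUX.nm_mul hC] at h4
    have h5 := Pool.Agent.MUX.nm_intCast (A := A) (B := B) (f : ℤ)
    have h6 := Pool.Agent.MUX.nm_intCast (A := A) (B := B) (2 : ℤ)
    rw [Int.cast_natCast] at h5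
    have h7 : ((2 : ℤ) : OO A B) = ((2 : ℕ) : OO A B) := by push_cast; rfl
    rw [h7] at h6
    rw [h5, h6] at h4
    have h8 : ((f : ℤ) ^ 2) ∣ 2 ^ 2 := ⟨_, h4.symm⟩
    have h9 := Int.le_of_dvd (by norm_num) h8
    have h10 : (3 : ℤ) ≤ f := by exact_mod_cast hf3
    nlinarith
  have hzL : z ∉ L.lattice := fun h => hzz (add_mem h h)
  have hzK : ¬ InK V L (xu L u e) z := fun h => hzL (hT2 z (by rw [hmz]; exact homL) h)
  have hzzK : ¬ InK V L (xu L u e) (z + z) := fun h => hzz (hT2 (z + z) (by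
    rw [mul_add, hmz]
    exact add_mem homL homL) h)
  -- `v (yu z) = 1`
  have hy1 : V.valuation (yu L u z) = 1 := by
    obtain ⟨hns, hxi⟩ := G.some z hzL
    have e1 := (Pool.Agent.MUXV.inE_iff G z).not.2 hzK
    have e2 := (Pool.Agent.MUXV.inE_iff G (z + z)).not.2 hzzK
    rw [map_add, hxi] at e2
    rw [hxi] at e1
    exact Pool.Agent.MU3.Val.v_y_unit G.int G.two G.disc hns e1 e2
  -- the action
  have hact := hAct.act R.i0
  have hmzL : (m : ℂ) * z ∈ L.lattice := by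
    obtain ⟨a, ha⟩ := hfm
    have h1 : (m : ℂ) * z = (a : ℕ) * om := by
      rw [← hmz, ha]; push_cast; ring
    rw [h1, ← nsmul_eq_mul]
    exact nsmul_mem homL _
  obtain ⟨-, -, hP'⟩ := hact.act z hmzL hzL
  have hcz : emb c * z - z ∈ L.lattice := by
    obtain ⟨y, hy⟩ := Ideal.mem_span_singleton'.1 hcm
    refine (hmem _).2 ⟨y, ?_⟩
    have h1 : emb c - 1 = emb y * f := by
      have h2 := congrArg emb hy
      rw [Pool.Agent.MUX.emb_mul hC, Pool.Agent.MUX.emb_natCast hC, Pool.Agent.MUX.emb_sub hC,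
        Pool.Agent.MUX.emb_one hC] at h2
      exact h2.symm
    have h2 : emb c * z - z = (emb c - 1) * z := by ring
    rw [h2, h1, mul_assoc, hmz, mul_comm]
  have hder : σ (L.derivWeierstrassP z) = d R.i0 * L.derivWeierstrassP z := by
    rw [← hP']
    rcases hAct.sgn R.i0 with hd | hd
    · rw [hd]
      push_cast
      rw [one_mul, one_mul]
      exact der_congr L hcz
    · rw [hd]
      push_cast
      have h1 : -1 * emb c * z = -(emb c * z) := by ring
      rw [h1, L.derivWeierstrassP_neg, der_congr L hcz]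
      ring
  have hu0 := hGd.u0
  have hd2 : (d R.i0 : ℂ) * d R.i0 = 1 := by
    rcases hAct.sgn R.i0 with hd | hd <;> rw [hd] <;> norm_num
  have hs : σ u = d R.i0 * u ∨ σ u = -(d R.i0 * u) := by
    have h1 : (σ u) ^ 2 = (d R.i0 * u) ^ 2 := by
      rw [← map_pow, hσu]
      linear_combination (-(u ^ 2)) * hd2
    exact sq_eq_sq_iff_eq_or_eq_neg.1 h1
  rcases hs with hs | hs
  · exact hs
  · exfalso
    have hσy : σ (yu L u z) = -yu L u z := by
      unfold yu
      rw [map_div₀, map_mul, map_pow, hs, hder, map_ofNat]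
      have hd0 : (d R.i0 : ℂ) ≠ 0 := fun h0 => by
        rw [h0, zero_mul] at hd2
        exact zero_ne_one hd2
      rw [div_eq_iff (by
        refine mul_ne_zero two_ne_zero (pow_ne_zero _ ?_)
        exact neg_ne_zero.2 (mul_ne_zero hd0 hu0))]
      have h5 : (d R.i0 : ℂ) ^ 3 = d R.i0 := by linear_combination (d R.i0 : ℂ) * hd2
      have h6 : (2 : ℂ) * (-(d R.i0 * u)) ^ 3 = -(d R.i0 * (2 * u ^ 3)) := by
        linear_combination (-2 * u ^ 3) * h5
      rw [h6]
      field_simp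
    have h1 := hlast hy1.le
    rw [hσy] at h1
    have h2 : -yu L u z - yu L u z = -(2 * yu L u z) := by ring
    rw [h2, Valuation.map_neg, map_mul, hy1, G.two, one_mul] at h1
    exact lt_irrefl _ h1

end

end Pool.Agent.OBT
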