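import Pool.Agent.OB.StT
import Pool.Agent.NS.T_TCJ
import Pool.Agent.MUX.XLib

/-!
# OB, block T, module TAU: the number `tau` (helper85), after helper43's `NS/T_TAU.lean`
-/

set_option autoImplicit false

namespace Pool.Agent.OBT

open _root_.MU3 Pool.Agent.MU3A Pool.Agent.MU3B Pool.Agent.RI Pool.Agent.MUX Pool.Agent.MUXU
open OnePoint Pool.Agent.NS Pool.Agent.OB
open Pool.Agent.MUXV (GR InK)
open Pool.Agent.NSE (su ru)
open Pool.Agent.NST (KIn ActT nt_TCJ)
open Pool.Agent.MUXY (ActN Dn)

noncomputable section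

namespace TAU

variable {A B : ℤ}

/-- the term of the sum -/
def T (w : OO A B → ℂ) (L : PeriodPair) (u e Y : ℂ) (x : OO A B) : ℂ :=
  (w x)⁻¹ * ru L u e (emb x * Y)

lemma ru_per (L : PeriodPair) (u e z v : ℂ) (hv : v ∈ L.lattice) :
    ru L u e (z + v) = ru L u e z := by
  have h1 := L.weierstrassP_add_coe z ⟨v, hv⟩
  have h2 := L.derivWeierstrassP_add_coe z ⟨v, hv⟩
  simp only at h1 h2
  unfold ru xu yu
  rw [h1, h2]

end TAU

open TAU in
theorem o_TAU (h1 : So_BAS) (h2 : So_TRC) (h3 : So_ALT) : So_TAU := by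
  classical
  intro p er A B P V hcase hTor n ι R u e lam hg w hw
  have hcq := hcase.cq
  obtain ⟨hvp, -, hmax, -, -, hnat, -, hnq, hq4, ⟨y, hy1, hy2⟩, -, -⟩ := h1 p er A B P V hcase
  set L := R.L R.i0 with hL
  set om := R.om R.i0 with hom
  have hli : IsLI (R.b R.i0) L om := (R.nl R.i0).toIsLI
  have hmem : ∀ z : ℂ, z ∈ L.lattice ↔ ∃ x : OO A B, z = om * emb x := by
    intro z
    rw [hli.mem z, R.b0]
    simp
  have hom0 : om ≠ 0 := hli.om_ne
  have hp0 : p ≠ 0 := hcase.pp.ne_zero
  have hpC : (p : ℂ) ≠ 0 := Nat.cast_ne_zero.2 hp0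
  have hpO : ((p : ℕ) : OO A B) ≠ 0 := natCast_ne_zero' hcq hp0
  have er0 : er ≠ 0 := by
    rcases hcase.ram with h | h
    · rw [h.1]
      norm_num
    · rw [h.1]
      norm_num
  have hq0' : nI P - 1 ≠ 0 := by omega
  have hqe0 : er * (nI P - 1) ≠ 0 := mul_ne_zero er0 hq0'
  -- facts on the points of order `P`
  obtain ⟨hr8, hrx⟩ := h2 p er A B P V hcase hTor (R.b R.i0) L om u e lam (R.nl R.i0) hg
  have hep : emb ((p : ℕ) : OO A B) = (p : ℂ) := emb_natCast hcq p
  have hmulY : ∀ x z : OO A B, x * y = (p : OO A B) * z → emb x * (om * emb y / p) = om * emb z := by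
    intro x z hxz
    have h5 : emb x * emb y = p * emb z := by
      rw [← emb_mul hcq, hxz, emb_mul hcq, hep]
    rw [mul_div_assoc', div_eq_iff hpC]
    linear_combination om * h5
  have hY0 : om * emb y / p ∈ EP P L := by
    refine ⟨?_, ?_⟩
    · intro x hx
      obtain ⟨z, hz⟩ := hy1 x hx
      rw [hmem]
      exact ⟨z, hmulY x z hz⟩
    · intro hc
      obtain ⟨x, hx⟩ := (hmem _).1 hc
      apply hy2 x
      apply emb_inj hcq
      rw [emb_mul hcq, hep]
      rw [div_eq_iff hpC] at hx
      apply mul_left_cancel₀ hom0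
      linear_combination hx
  set Y := om * emb y / p with hY
  set ρ := ru L u e Y with hρ
  have hvp0 : V.valuation (p : ℂ) ≠ 0 := by
    rw [Ne, map_eq_zero]
    exact hpC
  have hρ8 : V.valuation ρ ^ (er * (nI P - 1)) = V.valuation (p : ℂ) := hr8 Y hY0
  have hρ0 : V.valuation ρ ≠ 0 := by
    intro h0
    rw [h0, zero_pow hqe0] at hρ8
    exact hvp0 hρ8.symm
  have hρpos : 0 < V.valuation ρ := zero_lt_iff.2 hρ0
  have hw0 : ∀ x, x ∉ P → w x ≠ 0 := by
    intro x hx h0
    have h5 := hw.pow x hx
    rw [h0, zero_pow hq0'] at h5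
    exact zero_ne_one h5
  have hwv : ∀ x, x ∉ P → V.valuation (w x) = 1 := by
    intro x hx
    have h5 := congrArg V.valuation (hw.pow x hx)
    rw [map_pow, map_one] at h5
    exact (pow_eq_one_iff.1 h5).resolve_right hq0'
  have hwc : ∀ x, V.valuation (w x - emb x) < 1 := by
    intro x
    by_contra hc
    rw [not_lt] at hc
    exact absurd ((one_le_pow₀ hc).trans (hw.cong x)) (not_le.2 hvp)
  -- the terms are periodic
  have hTper : ∀ x x' : OO A B, x - x' ∈ P → T w L u e Y x = T w L u e Y x' := by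
    intro x x' hxy
    have hwxy := hw.per x x' hxy
    unfold T
    rw [hwxy]
    congr 1
    have h5 : emb x * Y = emb x' * Y + emb (x - x') * Y := by
      rw [emb_sub hcq]
      ring
    rw [h5]
    exact ru_per L u e _ _ (hY0.1 _ hxy)
  -- the quotient
  have hne : P ≠ ⊥ := by
    intro h0
    have h5 := hcase.mem
    rw [h0, Ideal.mem_bot] at h5
    exact hpO h5
  have hfin : Finite (OO A B ⧸ P) := MUX.finite_quot hcq hne
  have hfq : Fintype (OO A B ⧸ P) := Fintype.ofFinite _
  have hcard : Fintype.card (OO A B ⧸ P) = nI P := by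
    rw [← Nat.card_eq_fintype_card]
    rfl
  have hout : ∀ q : OO A B ⧸ P, Ideal.Quotient.mk P (Quotient.out q) = q := fun q =>
    Ideal.Quotient.mk_out q
  have hq0 : ∀ q : OO A B ⧸ P, q ≠ 0 → (Quotient.out q : OO A B) ∉ P := by
    intro q hq h0
    apply hq
    rw [← hout q]
    exact Ideal.Quotient.eq_zero_iff_mem.2 h0
  have hT0 : T w L u e Y (Quotient.out (0 : OO A B ⧸ P)) = 0 := by
    have h0 : (Quotient.out (0 : OO A B ⧸ P) : OO A B) ∈ P := by
      rw [← Ideal.Quotient.eq_zero_iff_mem, hout]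
    unfold T
    rw [hw.zero _ h0]
    simp
  refine ⟨∑ q : OO A B ⧸ P, T w L u e Y (Quotient.out q), ?_, ?_, ?_⟩
  · -- the valuation
    have h8 : V.valuation ((nI P - 1 : ℕ) : ℂ) = 1 := hnat (nI P - 1) hnq
    have hsum : ∑ q : OO A B ⧸ P, T w L u e Y (Quotient.out q) =
        ((nI P - 1 : ℕ) : ℂ) * ρ + ∑ q ∈ Finset.univ.erase (0 : OO A B ⧸ P),
          (T w L u e Y (Quotient.out q) - ρ) := by
      rw [Finset.sum_sub_distrib, Finset.sum_const, Finset.card_erase_of_mem (Finset.mem_univ _),
        Finset.card_univ, hcard, ← Finset.add_sum_erase _ _ (Finset.mem_univ 0), hT0, nsmul_eq_mul]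
      ring
    have hlt : V.valuation (∑ q ∈ Finset.univ.erase (0 : OO A B ⧸ P),
        (T w L u e Y (Quotient.out q) - ρ)) < V.valuation ρ := by
      apply Valuation.map_sum_lt _ hρ0
      intro q hq
      have hq' : (Quotient.out q : OO A B) ∉ P := hq0 q (Finset.ne_of_mem_erase hq)
      generalize (Quotient.out q : OO A B) = x at hq'
      have h5 : T w L u e Y x - ρ = (w x)⁻¹ * (ru L u e (emb x * Y) - emb x * ρ) +
          (w x)⁻¹ * (-(w x - emb x)) * ρ := by
        unfold T
        have := hw0 x hq'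
        field_simp
        ring
      rw [h5]
      apply Valuation.map_add_lt
      · rw [map_mul, map_inv₀, hwv x hq', inv_one, one_mul]
        exact (hrx x hq' Y hY0).2
      · rw [map_mul, map_mul, map_inv₀, hwv x hq', inv_one, one_mul, Valuation.map_neg]
        calc V.valuation (w x - emb x) * V.valuation ρ
            < 1 * V.valuation ρ := mul_lt_mul_of_pos_right (hwc x) hρpos
          _ = V.valuation ρ := one_mul _
    have h9 : V.valuation (((nI P - 1 : ℕ) : ℂ) * ρ) = V.valuation ρ := by
      rw [map_mul, h8, one_mul]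
    rw [hsum, Valuation.map_add_eq_of_lt_left _ (by rw [h9]; exact hlt), h9, hρ8]
  · -- algebraic
    obtain ⟨-, -, -, -, halg⟩ := h3 A B hcq hTor V (R.b R.i0) L om (R.nl R.i0) u e lam hg
    rw [isAlgebraic_iff_isIntegral]
    apply IsIntegral.sum
    intro q _
    rw [← isAlgebraic_iff_isIntegral]
    by_cases hq : q = 0
    · rw [hq, hT0]
      exact isAlgebraic_zero
    · have hx := hq0 q hq
      generalize (Quotient.out q : OO A B) = x at hx
      unfold T
      have hE := (hrx x hx Y hY0).1
      apply IsAlgebraic.mul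
      · apply IsAlgebraic.inv
        rw [isAlgebraic_iff_isIntegral]
        apply IsIntegral.of_pow (n := nI P - 1) (Nat.pos_of_ne_zero hq0')
        rw [hw.pow x hx]
        exact isIntegral_one
      · refine (halg p hp0 _ hE.2 ?_).2.2
        rw [← hep]
        exact hE.1 _ hcase.mem
  · -- conjugation
    intro m hm σ c d hact hc hσu hσe hσw
    obtain ⟨k, rfl⟩ := hm
    have hc0 := hw0 c hc
    have hterm : ∀ x : OO A B, σ (T w L u e Y x) = w c * T w L u e Y (c * x) := by
      intro x
      by_cases hx : x ∈ P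
      · unfold T
        rw [hw.zero x hx, hw.zero (c * x) (Ideal.mul_mem_left _ c hx)]
        simp
      · have hE := (hrx x hx Y hY0).1
        have h5 := (nt_TCJ A B n ι R (p * k) σ c d hact u e hg.u0 hσu hσe (emb x * Y) (by
          have h6 : ((p * k : ℕ) : ℂ) * (emb x * Y) =
              (k : ℕ) • (emb ((p : ℕ) : OO A B) * (emb x * Y)) := by
            rw [nsmul_eq_mul, hep]
            push_cast
            ring
          rw [h6]
          exact nsmul_mem (hE.1 _ hcase.mem) k) hE.2).2.2.2
        unfold T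
        rw [map_mul, map_inv₀, hσw, h5, hw.mul, emb_mul hcq]
        have := hw0 x hx
        rw [← hL]
        have e6 : emb c * (emb x * Y) = emb c * emb x * Y := by ring
        rw [e6]
        field_simp
    rw [map_sum]
    simp_rw [hterm]
    rw [← Finset.mul_sum]
    congr 1
    have hprime : P.IsPrime := hcase.prime
    have hdom : IsDomain (OO A B ⧸ P) := Ideal.Quotient.isDomain _
    set cb := Ideal.Quotient.mk P c with hcb
    have hcb0 : cb ≠ 0 := fun h => hc (Ideal.Quotient.eq_zero_iff_mem.1 h)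
    have hbij : Function.Bijective (fun q : OO A B ⧸ P => cb * q) := by
      rw [← Finite.injective_iff_bijective]
      intro a b hab
      exact mul_left_cancel₀ hcb0 hab
    rw [← Function.Bijective.sum_comp hbij (fun q => T w L u e Y (Quotient.out q))]
    apply Finset.sum_congr rfl
    intro q _
    apply hTper
    rw [← Ideal.Quotient.eq, map_mul, hout, hout]

end

end Pool.Agent.OBT
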