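import Pool.Agent.OB.StT
import Pool.Agent.NS.T_TYF
import Pool.Agent.MUX.XLib

/-!
# OB, block T, module TYF: TYPE, every prime `p ≥ 5` (adapted from `NS/TR_TYF.lean`, `NS/T_TYF.lean`)
-/

set_option autoImplicit false

namespace Pool.Agent.OBT

open _root_.MU3 Pool.Agent.MU3A Pool.Agent.MU3B Pool.Agent.RI Pool.Agent.MUX Pool.Agent.MUXU
open OnePoint Pool.Agent.NS Pool.Agent.OB
open Pool.Agent.MUXV (GR InK)
open Pool.Agent.NSE (su ru)
open Pool.Agent.NST (KIn ActT)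
open Pool.Agent.MUXY (ActN Dn)

noncomputable section

namespace TYF

open Pool.Agent.NST.TYF

/-- an element prime to `m` with `p ∣ m` is not in `P` -/
lemma not_mem {A B : ℤ} {P : Ideal (OO A B)} {p : ℕ} (hP : P.IsPrime)
    (hpP : ((p : ℕ) : OO A B) ∈ P) {m : ℕ} (hm : p ∣ m)
    {c : OO A B} (hc : IsCoprime (sp c) (idl (A := A) (B := B) m)) : c ∉ P := by
  intro h
  have h1 : sp c ≤ P := by
    rw [Ideal.span_singleton_le_iff_mem]
    exact h
  have h2 : idl (A := A) (B := B) m ≤ P := by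
    rw [Ideal.span_singleton_le_iff_mem]
    obtain ⟨k, rfl⟩ := hm
    rw [Nat.cast_mul]
    exact P.mul_mem_right _ hpP
  have h3 := (Ideal.isCoprime_iff_sup_eq.1 hc)
  exact hP.ne_top (top_le_iff.1 (h3 ▸ sup_le h1 h2))

lemma idl_mul {A B : ℤ} (m n : ℕ) :
    idl (A := A) (B := B) (m * n) = idl m * idl n := by
  simp only [idl, Ideal.span_singleton_mul_span_singleton]
  congr 2
  push_cast
  rfl

lemma idl_pow {A B : ℤ} (m n : ℕ) :
    idl (A := A) (B := B) (m ^ n) = idl m ^ n := by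
  simp only [idl, Ideal.span_singleton_pow]
  congr 2
  push_cast
  rfl

end TYF

open TYF Pool.Agent.NST.TYF in
/-- (TYF) TYPE, every prime `p ≥ 5` -/
theorem o_TYF (hR : O_RFIN) (hBAS : So_BAS) (hUNF : So_UNF) (hALT : So_ALT) (hACG : So_ACG)
    (hSGU : So_SGU) (hTAU : So_TAU) (hRTU : So_RTU) (hGLC : NST.Nt_GLC) (hFGP : So_FGP)
    (hFGV : NST.Nt_FGV) (hALV : So_ALV) (hVAK : So_VAK) : So_TYF := by
  intro p er A B P V f hS hT ι _ R u el lam hG w hw e he r hr her i hi ka hka ka' hka'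
  have hQ : CQ A B := hS.cq
  have hp : p.Prime := hS.pp
  obtain ⟨hvp, -, -, -, hemP, hnu, -, hq1, hq4, -, hcopP, hidp⟩ :=
    hBAS p er A B P V hS.toCaseO
  have hu0 : u ≠ 0 := hG.u0
  have hr0 : r ≠ 0 := by
    rintro rfl
    exact hr (dvd_zero p)
  have hf12 := hS.f6.2
  have hf2 : 2 ∣ f := (by norm_num : 2 ∣ 12).trans hS.f12
  have hpf : p * f ≠ 0 := mul_ne_zero hp.ne_zero hS.f0
  have hpf2 : 2 ≤ p * f := by
    have h1 : 1 * f ≤ p * f := Nat.mul_le_mul_right _ hp.one_lt.le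
    omega
  obtain ⟨T, hTT⟩ := hFGV A B hQ (p * f) ι R (idl (p * f)) e (idl_ne_bot hQ hpf) he ka
    (u * R.om R.i0)
  obtain ⟨T', hTT'⟩ := hFGV A B hQ (p * f) ι R (idl (p * f)) e (idl_ne_bot hQ hpf) he ka'
    (u * R.om R.i0)
  obtain ⟨S, j, N, hN0, hNp, hSD, hgen⟩ :=
    hFGP p hp (fun x y => PhiK R e ka x y / (u * R.om R.i0)) T hTT
  obtain ⟨S', j', N', hN0', hNp', hSD', hgen'⟩ :=
    hFGP p hp (fun x y => PhiK R e ka' x y / (u * R.om R.i0)) T' hTT'
  obtain ⟨tau, htau4, htaua, htau⟩ :=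
    hTAU p er A B P V hS.toCaseO hT (p * f) ι R u el lam hG w hw
  obtain ⟨hu2, hel, hlam, hua, hALTz⟩ := hALT A B hQ hT V (R.b R.i0) (R.L R.i0)
    (R.om R.i0) (R.nl R.i0) u el lam hG
  set m' := f * (N * N') with hm'
  have hm'0 : m' ≠ 0 := mul_ne_zero hS.f0 (mul_ne_zero hN0 hN0')
  have hm'p : ¬ p ∣ m' := by
    intro h
    rcases (Nat.Prime.dvd_mul hp).1 h with h | h
    · exact hS.fp h
    · rcases (Nat.Prime.dvd_mul hp).1 h with h | h
      · exact hNp h
      · exact hNp' h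
  have hfC : (f : ℂ) ≠ 0 := by exact_mod_cast hS.f0
  have hfm : f ∣ m' := Dvd.intro _ rfl
  have hf1 : f ≠ 1 := by omega
  -- the point of level `f`
  have hom : R.om R.i0 ≠ 0 := (R.nl R.i0).om_ne
  have hz1 : R.om R.i0 / f ∉ (R.L R.i0).lattice := by
    intro h
    obtain ⟨x, -, hx⟩ := ((R.nl R.i0).mem _).1 h
    apply nat_mul_ne_one hQ hf1 x
    apply MUX.emb_inj hQ
    rw [MUX.emb_mul hQ, MUX.emb_natCast hQ, MUX.emb_one hQ]
    field_simp at hx
    rw [← hx]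
  have hz2 : (f : ℂ) * (R.om R.i0 / f) ∈ (R.L R.i0).lattice := by
    rw [mul_div_cancel₀ _ hfC]
    refine ((R.nl R.i0).mem _).2 ⟨1, ?_, ?_⟩
    · rw [R.b0]
      trivial
    · rw [MUX.emb_one hQ, mul_one]
  have hYa := (hALTz f hS.f0 _ hz1 hz2).2.1
  -- the level
  set J := j + j' + 1 with hJ
  set m := p ^ J * m' with hm
  have hpm : p ∣ m := (dvd_pow_self p (Nat.succ_ne_zero _)).mul_right _
  have hm0 : m ≠ 0 := mul_ne_zero (pow_ne_zero _ hp.ne_zero) hm'0
  have hd1 : p ^ j * N ∣ m := by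
    refine mul_dvd_mul (pow_dvd_pow p (by omega)) ?_
    exact (Dvd.intro _ rfl).trans (Dvd.intro_left f rfl)
  have hd2 : p ^ j' * N' ∣ m := by
    refine mul_dvd_mul (pow_dvd_pow p (by omega)) ?_
    exact (Dvd.intro_left N rfl).trans (Dvd.intro_left f rfl)
  have hpfm : p * f ∣ m := by
    refine mul_dvd_mul ?_ hfm
    exact dvd_pow_self p (Nat.succ_ne_zero _)
  set g : Ideal (OO A B) := idl m' * Pc P ^ J with hg
  have hidpP : idl (A := A) (B := B) p ≤ Pc P := by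
    rw [hidp]
    exact Ideal.mul_le_left
  have hmg : idl (A := A) (B := B) m ≤ g := by
    rw [hm, mul_comm, idl_mul, idl_pow, hg]
    exact Ideal.mul_mono le_rfl (Ideal.pow_right_mono hidpP J)
  have hgO : g ≤ gO P f := by
    rw [hg, gO]
    exact Ideal.mul_mono (mem_idl_of_dvd hfm) (Ideal.pow_le_self (Nat.succ_ne_zero _))
  have hgf : g ≤ idl (A := A) (B := B) f := hgO.trans Ideal.mul_le_left
  have hg2 : g ≤ idl (A := A) (B := B) 2 := hgf.trans (mem_idl_of_dvd hf2)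
  have hgb : g ≠ ⊥ := by
    intro h
    rw [h, le_bot_iff] at hmg
    exact idl_ne_bot hQ hm0 hmg
  have hgP : ¬ g ≤ P := by
    intro h
    have hPp : P.IsPrime := hS.prime
    rcases hPp.mul_le.1 h with h1 | h1
    · have h2 : ((m' : ℕ) : OO A B) ∈ P := h1 (Ideal.mem_span_singleton_self _)
      have h3 := (hemP _).2 h2
      rw [MUX.emb_natCast hQ, hnu m' hm'p] at h3
      exact lt_irrefl _ h3
    · exact hS.toCaseO.not_le hcopP (hPp.le_of_pow_le h1)
  -- the field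
  set Q : OnePoint ℚ × OnePoint ℚ → ℂ :=
    fun q => PhiK R e ka q.1 q.2 / (u * R.om R.i0) with hQdef
  set Q' : OnePoint ℚ × OnePoint ℚ → ℂ :=
    fun q => PhiK R e ka' q.1 q.2 / (u * R.om R.i0) with hQdef'
  set k := r * (nI P - 1) with hk
  have hk0 : k ≠ 0 := mul_ne_zero hr0 (by omega)
  have hkp : ¬ p ∣ k := by
    intro h
    rcases (Nat.Prime.dvd_mul hp).1 h with h | h
    · exact hr h
    · exact hq1 h
  set Ts : Set ℂ := ((Q '' (S : Set (OnePoint ℚ × OnePoint ℚ))) ∪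
    (Q' '' (S' : Set (OnePoint ℚ × OnePoint ℚ)))) ∪
    ({tau, yu (R.L R.i0) u (R.om R.i0 / f)} ∪
      ((Polynomial.nthRootsFinset k (1 : ℂ) : Finset ℂ) : Set ℂ)) with hTs
  have hTfin : Ts.Finite := by
    refine Set.Finite.union (Set.Finite.union ?_ ?_) (Set.Finite.union ?_ ?_)
    · exact (Finset.finite_toSet S).image _
    · exact (Finset.finite_toSet S').image _
    · exact Set.toFinite _
    · exact Finset.finite_toSet _
  have hTalg : ∀ t ∈ Ts, IsAlgebraic ℚ t := by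
    rintro t ((⟨q, -, rfl⟩ | ⟨q, -, rfl⟩) | (ht | ht))
    · exact hALV p hp A B hQ hT f hS.f0 ι R e he r hr0 her ka hka u hua q.1 q.2
    · exact hALV p hp A B hQ hT f hS.f0 ι R e he r hr0 her ka' hka' u hua q.1 q.2
    · rcases ht with rfl | ht
      · exact htaua
      · rw [Set.mem_singleton_iff] at ht
        rw [ht]
        exact hYa
    · rw [Finset.mem_coe, Polynomial.mem_nthRootsFinset (Nat.pos_of_ne_zero hk0)] at ht
      refine ⟨Polynomial.X ^ k - 1, Polynomial.X_pow_sub_C_ne_zero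
        (Nat.pos_of_ne_zero hk0) (1 : ℚ), ?_⟩
      simp [ht]
  obtain ⟨F, hFf, hFg, hEF, hTF⟩ := hGLC A B hQ (RF g) (hT.fin _ hgb) Ts hTfin hTalg
  have hvp0 : V.valuation (p : ℂ) ≠ 0 :=
    V.valuation.ne_zero_iff.2 (by exact_mod_cast hp.ne_zero)
  have her0 : er ≠ 0 := by
    rcases hS.ram with ⟨h, -⟩ | ⟨h, -⟩ <;> omega
  have htau0 : tau ≠ 0 := by
    rintro rfl
    rw [map_zero, zero_pow (mul_ne_zero her0 (by omega))] at htau4
    exact hvp0 htau4.symm
  have htauF : tau ∈ F := hTF (Or.inr (Or.inl (Or.inl rfl)))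
  have hyF : yu (R.L R.i0) u (R.om R.i0 / f) ∈ F := hTF (Or.inr (Or.inl (Or.inr rfl)))
  have hrF : ∀ z : ℂ, z ^ k = 1 → z ∈ F := fun z hz => hTF (Or.inr (Or.inr (by
    rw [Finset.mem_coe, Polynomial.mem_nthRootsFinset (Nat.pos_of_ne_zero hk0)]
    exact hz)))
  -- the key point
  have hkey : ∀ σ : ℂ ≃+* ℂ, InI A B V (F : Set ℂ) σ →
      (∀ q ∈ S, σ (Q q * tau ^ i) = Q q * tau ^ i) ∧
      (∀ q ∈ S', σ (Q' q * tau ^ i) = Q' q * tau ^ i) := by
    intro σ hσ
    have hRF := (hR p er A B P V hS.toCaseO hT).2 g hgb hgP σ hσ.fix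
      (fun y hy hyV => hσ.iner y (hEF hy) hyV)
    obtain ⟨c, d, hc1, hcop, hact⟩ := hACG A B hQ hT (p * f) ι R m g hm0 hmg σ hσ.fix hRF
    have hcP : c ∉ P := not_mem hS.prime hS.mem hpm hcop
    have hle : (RF (idl (A := A) (B := B) 2) : IntermediateField (kk A B) ℂ) ≤ RF g :=
      hT.mono _ _ hg2
    have hsu2 : σ (u ^ 2) = u ^ 2 := hRF _ (hle hu2)
    have hsel : σ el = el := hRF _ (hle hel)
    have hcf : c - 1 ∈ idl (A := A) (B := B) f := hgf hc1
    have hsu : σ u = d R.i0 * u := by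
      refine hSGU p er A B P V hS.toCaseO (p * f) ι R u el lam hG m f hm0
        (hfm.trans (Dvd.intro_left _ rfl)) (by omega) hS.fp σ c d hcf hact hsu2 ?_
      intro h
      have h1 := hσ.iner _ hyF ((V.valuation_le_one_iff _).1 h)
      rwa [ValuationSubring.mem_nonunits_iff] at h1
    have hroot : ∀ z : ℂ, (z = 0 ∨ z ^ k = 1) → σ z = z := by
      refine (hRTU p hp V hvp k hkp).2 σ ?_
      intro z hz
      have hz1 : V.valuation z = 1 := by
        have h1 : (V.valuation z) ^ k = 1 := by rw [← map_pow, hz, map_one]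
        exact (pow_eq_one_iff.1 h1).resolve_right hk0
      have h1 := hσ.iner z (hrF z hz) ((V.valuation_le_one_iff _).1 hz1.le)
      rwa [ValuationSubring.mem_nonunits_iff] at h1
    have hroot' : ∀ z : ℂ, (z = 0 ∨ z ^ r = 1) → σ z = z := by
      rintro z (hz | hz)
      · exact hroot z (Or.inl hz)
      · exact hroot z (Or.inr (by rw [hk, pow_mul, hz, one_pow]))
    have hse : ∀ x, σ (e x) = e x := by
      intro x
      apply hroot'
      by_cases hx : e x = 0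
      · exact Or.inl hx
      · exact Or.inr (her x hx)
    have hsw : ∀ x, σ (w x) = w x := by
      intro x
      apply hroot
      by_cases hx : x ∈ P
      · exact Or.inl (hw.zero x hx)
      · right
        rw [hk, mul_comm, pow_mul, hw.pow x hx, one_pow]
    have h2 : σ tau = w c * tau := htau m hpm σ c d hact hcP hsu hsel hsw
    have h3 : e c = w c ^ i := hi c (hgO hc1) hcP
    have hfin : ∀ z : ℂ, e c * σ z = z → σ (z * tau ^ i) = z * tau ^ i := by
      intro z hz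
      rw [map_mul, map_pow, h2, mul_pow, ← h3]
      calc σ z * (e c * tau ^ i) = (e c * σ z) * tau ^ i := by ring
        _ = z * tau ^ i := by rw [hz]
    refine ⟨fun q hq => hfin _ ?_, fun q hq => hfin _ ?_⟩
    · exact hVAK A B hQ (p * f) hpf2 ι R e he m f hm0 hpfm (Dvd.intro_left _ rfl) (by omega)
        σ c d hcf hact hse ka (fun l => hroot' _ (hka l)) u hu0 hsu q.1 q.2
        (dn_mono hd1 (hSD q hq).1) (dn_mono hd1 (hSD q hq).2)
    · exact hVAK A B hQ (p * f) hpf2 ι R e he m f hm0 hpfm (Dvd.intro_left _ rfl) (by omega)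
        σ c d hcf hact hse ka' (fun l => hroot' _ (hka' l)) u hu0 hsu q.1 q.2
        (dn_mono hd2 (hSD' q hq).1) (dn_mono hd2 (hSD' q hq).2)
  have hgenl : ∀ (G : OnePoint ℚ × OnePoint ℚ → ℂ) (X : Set (OnePoint ℚ × OnePoint ℚ)),
      (∀ q ∈ X, G q ∈ F) →
      (∀ σ : ℂ ≃+* ℂ, InI A B V (F : Set ℂ) σ → ∀ q ∈ X, σ (G q * tau ^ i) = G q * tau ^ i) →
      AddSubgroup.closure (G '' X) ≤
        ((KIn A B V F).toAddSubgroup).map (AddMonoidHom.mulLeft ((tau ^ i)⁻¹)) := by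
    intro G X hGF hGs
    rw [AddSubgroup.closure_le]
    rintro _ ⟨q, hq, rfl⟩
    refine ⟨G q * tau ^ i, ⟨?_, fun σ hσ => hGs σ hσ q hq⟩, ?_⟩
    · exact F.mul_mem (hGF q hq) (F.pow_mem htauF i)
    · rw [AddMonoidHom.coe_mulLeft]
      field_simp
  have hQF : ∀ q ∈ (S : Set (OnePoint ℚ × OnePoint ℚ)), Q q ∈ F := fun q hq =>
    hTF (Set.mem_union_left _ (Set.mem_union_left _ (Set.mem_image_of_mem Q hq)))
  have hQF' : ∀ q ∈ (S' : Set (OnePoint ℚ × OnePoint ℚ)), Q' q ∈ F := fun q hq =>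
    hTF (Set.mem_union_left _ (Set.mem_union_right _ (Set.mem_image_of_mem Q' hq)))
  have hle1 := hgenl Q (S : Set (OnePoint ℚ × OnePoint ℚ)) hQF
    (fun σ hσ q hq => (hkey σ hσ).1 q hq)
  have hle2 := hgenl Q' (S' : Set (OnePoint ℚ × OnePoint ℚ)) hQF'
    (fun σ hσ q hq => (hkey σ hσ).2 q hq)
  refine ⟨(tau ^ i)⁻¹, KIn A B V F, ?_, ?_, hUNF p er A B P V hS.toCaseO F, ?_⟩
  · intro x y
    obtain ⟨w', hw', hw2⟩ := hle1 (hgen x y)
    exact ⟨w', hw', hw2.symm⟩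
  · intro x y
    obtain ⟨w', hw', hw2⟩ := hle2 (hgen' x y)
    exact ⟨w', hw', hw2.symm⟩
  · rw [map_inv₀, map_pow, inv_pow, ← pow_mul, mul_comm i (er * (nI P - 1)), pow_mul, htau4]
    exact inv_mul_cancel₀ (pow_ne_zero _ hvp0)

end

end Pool.Agent.OBT
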