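import Pool.Agent.OB.StT
import Pool.Agent.MUX.XLib

/-!
# OBT, module VAK: conjugation of the values of `PhiK/(u om_0)`, after `NS/T_VAK.lean`
-/

set_option autoImplicit false

namespace Pool.Agent.OBT

open _root_.MU3 Pool.Agent.MU3A Pool.Agent.MU3B Pool.Agent.RI Pool.Agent.MUX Pool.Agent.MUXU
open OnePoint Pool.Agent.NS Pool.Agent.OB
open Pool.Agent.MUXV (GR InK)
open Pool.Agent.NSE (su ru)
open Pool.Agent.NST (KIn ActT)
open Pool.Agent.MUXY (ActN Dn)

noncomputable section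

theorem o_VAK (h1 : So_SGM) (h2 : So_VAL) : So_VAK := by
  intro A B hQ n hn ι _ R e he m f hm hnm hfn hf σ c d hc hT hσ kk hkk u hu hσu x y hx hy
  have hsq : ∀ i, ((d i : ℤ) : ℂ) * ((d i : ℤ) : ℂ) = 1 := by
    intro i
    rcases hT.sgn i with hd | hd <;> rw [hd] <;> norm_num
  have hd0 : ∀ i, ((d i : ℤ) : ℂ) ≠ 0 := fun i h0 => by
    have := hsq i
    rw [h0, zero_mul] at this
    exact zero_ne_one this
  have hom0 : R.om R.i0 ≠ 0 := (R.nl R.i0).om_ne
  have key : ∀ i, e c * σ (kk i * PhiI (R.b i) e x y / (u * R.om R.i0)) =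
      kk i * PhiI (R.b i) e x y / (u * R.om R.i0) := by
    intro i
    have homi : R.om i ≠ 0 := (R.nl i).om_ne
    have hn0 : ((nI (R.b i) : ℕ) : ℂ) ≠ 0 :=
      Nat.cast_ne_zero.2 (Pool.Agent.MUX.nI_ne_zero hQ (R.nl i).b_ne)
    have e1 : kk i * PhiI (R.b i) e x y / (u * R.om R.i0) =
        kk i * (PhiI (R.b i) e x y / R.om i) * muX R i / (nI (R.b i) * u) := by
      rw [muX]
      field_simp
    have e2 := h1 A B hQ n ι R m f hm (hfn.trans hnm) hf hfn σ c d hc hT i
    have e3 := h2 A B hQ n hn ι R e he m hm hnm σ c d hT hσ i x y hx hy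
    rw [e1, map_div₀, map_mul, map_mul, map_mul, hkk, e2, map_natCast, hσu]
    have e4 : e c * (kk i * σ (PhiI (R.b i) e x y / R.om i) *
        (d R.i0 * d i * muX R i) / (nI (R.b i) * (d R.i0 * u))) =
        kk i * (e c * σ (PhiI (R.b i) e x y / R.om i)) *
        (d i * muX R i) / (nI (R.b i) * u) := by
      field_simp [hd0 R.i0]
    rw [e4, e3]
    have e5 : kk i * (d i * (PhiI (R.b i) e x y / R.om i)) * (d i * muX R i) =
        (d i * d i : ℂ) * (kk i * (PhiI (R.b i) e x y / R.om i) * muX R i) := by ring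
    rw [e5, hsq i, one_mul]
  rw [PhiK, Finset.sum_div, map_sum, Finset.mul_sum]
  exact Finset.sum_congr rfl fun i _ => key i

end

end Pool.Agent.OBT
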