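import Pool.Agent.OB.StT
import Pool.Agent.MUX.XLib

/-!
# OB, block T, module VAL: conjugation of the values (after `NS/T_VAL.lean`)
-/

set_option autoImplicit false

namespace Pool.Agent.OBT

open _root_.MU3 Pool.Agent.MU3A Pool.Agent.MU3B Pool.Agent.RI Pool.Agent.MUX Pool.Agent.MUXU
open OnePoint Pool.Agent.NS Pool.Agent.OB
open Pool.Agent.MUXV (GR InK)
open Pool.Agent.NSE (su ru)
open Pool.Agent.NST (KIn ActT)
open Pool.Agent.MUXY (ActN Dn)

noncomputable section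

namespace VAL

variable {A B : ℤ}

lemma phi_infty (b : Ideal (OO A B)) (e : OO A B → ℂ) : MUX.PhiI b e ∞ ∞ = 0 := by
  unfold MUX.PhiI
  exact sub_self _

lemma phi_sub (b : Ideal (OO A B)) (e : OO A B → ℂ) (x y : OnePoint ℚ) :
    MUX.PhiI b e x y = MUX.PhiI b e ∞ y - MUX.PhiI b e ∞ x := by
  unfold MUX.PhiI
  ring

lemma idl_ne_top {n : ℕ} (hn : n ≠ 1) : (idl (A := A) (B := B) n) ≠ ⊤ := by
  intro h
  have h1 : (1 : OO A B) ∈ idl (A := A) (B := B) n := by
    rw [h]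
    exact Submodule.mem_top
  obtain ⟨y, hy⟩ := Ideal.mem_span_singleton'.1 h1
  have h2 := congrArg QuadraticAlgebra.re hy
  simp only [QuadraticAlgebra.re_mul, QuadraticAlgebra.re_natCast, QuadraticAlgebra.im_natCast,
    QuadraticAlgebra.re_one, mul_zero, add_zero] at h2
  have h3 : (n : ℤ) ∣ ((1 : ℕ) : ℤ) := ⟨y.re, by push_cast; linarith⟩
  exact hn (Nat.dvd_one.1 (Int.natCast_dvd_natCast.1 h3))

lemma coprime_idl {k n : ℕ} (h : k.Coprime n) :
    IsCoprime (MUX.sp ((k : ℕ) : OO A B)) (idl (A := A) (B := B) n) := by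
  rw [Ideal.isCoprime_span_singleton_iff]
  obtain ⟨a, b, hab⟩ := Nat.isCoprime_iff_coprime.2 h
  refine ⟨(a : OO A B), (b : OO A B), ?_⟩
  exact_mod_cast congrArg (fun t : ℤ => (t : OO A B)) hab

lemma isF {b : Ideal (OO A B)} (h : CQ A B) (om : ℂ) (c : OO A B) (d : ℤ) :
    MUXY.IsF b b om om (d * emb c) (fun x => (d : OO A B) * c * x) where
  mem := fun x hx => b.mul_mem_left _ hx
  eq := fun x _ => by
    rw [emb_mul h, emb_mul h, emb_intCast h]
    ring
  add := fun x _ y _ => mul_add _ _ _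
  sub := fun x _ y _ => mul_sub _ _ _
  smul := fun x _ r => by ring
  nb := fun x _ => by ring

lemma e_sgn {g : Ideal (OO A B)} {e : OO A B → ℂ} (he : IsEI g e) {d : ℤ} (hd : d = 1 ∨ d = -1) :
    e (d : OO A B) = d := by
  rcases hd with hd | hd
  · rw [hd, Int.cast_one, Int.cast_one, he.one]
  · rw [hd, Int.cast_neg, Int.cast_one, he.neg, Int.cast_neg, Int.cast_one]

end VAL

open VAL in
theorem o_VAL (h : MUXY.Sy_RA1) : So_VAL := by
  intro A B hQ f hf ι R e he m hm hfm σ c d hT hσ i x y hx hy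
  have hcop := R.cop i
  have hn0 : MUX.nI (R.b i) ≠ 0 := by
    intro h0
    rw [h0, Nat.coprime_zero_left] at hcop
    omega
  have hnC : ((MUX.nI (R.b i) : ℕ) : ℂ) ≠ 0 := Nat.cast_ne_zero.2 hn0
  have hen : e ((MUX.nI (R.b i) : ℕ) : OO A B) ≠ 0 := (he.supp _).2 (coprime_idl hcop)
  have hg : (idl (A := A) (B := B) f) ≠ ⊤ := idl_ne_top (by omega)
  have hmg : ((m : ℕ) : OO A B) ∈ idl (A := A) (B := B) f :=
    Ideal.mem_span_singleton.2 (Nat.cast_dvd_cast hfm)
  have hd := hT.sgn i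
  have hd2 : ((d i : ℤ) : ℂ) * ((d i : ℤ) : ℂ) = 1 := by
    rcases hd with hd | hd <;> rw [hd] <;> norm_num
  have hfe : (fun x => σ (e x)) = e := funext hσ
  have key : ∀ x : OnePoint ℚ, Dn m x →
      e c * σ (MUX.PhiI (R.b i) e ∞ x / R.om i) = d i * (MUX.PhiI (R.b i) e ∞ x / R.om i) := by
    intro x hx
    induction x using OnePoint.rec with
    | infty => rw [phi_infty, zero_div, map_zero, mul_zero, mul_zero]
    | coe r =>
      have h1 := h A B (MUXY.cqF hQ) σ m (MUX.sp c) (R.b i) (R.b i) (R.L i) (R.L i) (R.om i)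
        (R.om i) (d i * emb c) (fun x => ((d i : ℤ) : OO A B) * c * x)
        (MUXY.liF (R.nl i).toIsLI) (MUXY.liF (R.nl i).toIsLI) (hT.act i) (isF hQ _ _ _)
        hT.zeta (idl (A := A) (B := B) f) e (MUXY.eiF he) hg hm hmg r.den r.den_nz
        (hx r rfl) r.num
      rw [Rat.num_div_den, hfe, hσ, hσ] at h1
      have h2 : e (((d i : ℤ) : OO A B) * c * ((MUX.nI (R.b i) : ℕ) : OO A B)) =
          d i * e c * e ((MUX.nI (R.b i) : ℕ) : OO A B) := by
        rw [he.mul, he.mul, e_sgn he hd]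
      have h3 : ((MUX.nI (R.b i) : ℕ) : ℂ) * e ((MUX.nI (R.b i) : ℕ) : OO A B) *
          ((d i : ℂ) * e c * σ (MUX.PhiI (R.b i) e ∞ (r : OnePoint ℚ) / R.om i)) =
          ((MUX.nI (R.b i) : ℕ) : ℂ) * e ((MUX.nI (R.b i) : ℕ) : OO A B) *
          (MUX.PhiI (R.b i) e ∞ (r : OnePoint ℚ) / R.om i) := by
        have h4 := h1
        change ((MUX.nI (R.b i) : ℕ) : ℂ) *
          e (((d i : ℤ) : OO A B) * c * ((MUX.nI (R.b i) : ℕ) : OO A B)) *
            σ (MUX.PhiI (R.b i) e ∞ (r : OnePoint ℚ) / R.om i) =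
          ((MUX.nI (R.b i) : ℕ) : ℂ) * e ((MUX.nI (R.b i) : ℕ) : OO A B) *
            (MUX.PhiI (R.b i) e ∞ (r : OnePoint ℚ) / R.om i) at h4
        rw [h2] at h4
        linear_combination h4
      have h5 := mul_left_cancel₀ (mul_ne_zero hnC hen) h3
      linear_combination (d i : ℂ) * h5 -
        e c * σ (MUX.PhiI (R.b i) e ∞ (r : OnePoint ℚ) / R.om i) * hd2
  rw [phi_sub (R.b i) e x y, sub_div, map_sub, mul_sub, key x hx, key y hy]
  ring

end

end Pool.Agent.OBT
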