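import Pool.Agent.OB.T_TRC
import Pool.Agent.OB.T_TAU
import Pool.Agent.OB.T_TYF
import Pool.Agent.OB.T_SGM
import Pool.Agent.OB.T_SGU
import Pool.Agent.OB.T_VAL
import Pool.Agent.OB.T_VAK
import Pool.Agent.OB.T_UNF
import Pool.Agent.OB.T_ALT
import Pool.Agent.OB.T_ALV
import Pool.Agent.OB.T_ACG
import Pool.Agent.OB.T_BAS
import Pool.Agent.OB.T_RTU
import Pool.Agent.OB.T_FGP
import Pool.Agent.OB.EAll
import Pool.Agent.NS.T_GLC
import Pool.Agent.NS.T_FGV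
import Pool.Agent.MUX.YAll

/-!
# OB, block T put together (helper59): TYPE, every prime `p ≥ 5`
-/

set_option autoImplicit false

namespace Pool.Agent.OBT

open _root_.MU3 Pool.Agent.MU3A Pool.Agent.MU3B Pool.Agent.MUX Pool.Agent.MUXY Pool.Agent.NS
open Pool.Agent.NST Pool.Agent.OB Pool.Agent.OBE

theorem x_SGM : So_SGM := o_SGM y_MUI y_MUC y_MUU
theorem x_SGU : So_SGU := o_SGU o_BAS
theorem x_VAL : So_VAL := o_VAL y_RA1
theorem x_VAK : So_VAK := o_VAK x_SGM x_VAL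
theorem x_ALV : So_ALV := o_ALV y_ALP
theorem x_ACG : So_ACG := o_ACG y_MUU y_BRI
theorem x_UNF : So_UNF := o_UNF o_BAS

/-- the points of `L[P]`, given the good models -/
theorem x_TRC (hR : O_RFIN) : So_TRC := o_TRC hR e_CTX e_ALG e_PVL e_PIS e_PTS e_ISO

/-- TYPE, given the good models -/
theorem x_TYF (hR : O_RFIN) : O_TYF :=
  o_TYF hR o_BAS x_UNF o_ALT x_ACG x_SGU (o_TAU o_BAS (x_TRC hR) o_ALT) o_RTU nt_GLC o_FGP
    nt_FGV x_ALV x_VAK

end Pool.Agent.OBT
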