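import Pool.Agent.OB.J_NIL
import Pool.Agent.OB.IAll
import Pool.Agent.OB.HAll
import Pool.Agent.MUX.ZY
import Pool.Agent.MUX.ZW
import Pool.Agent.MUX.Z_THN

/-!
# OB: the one-branch theorem from the results of the blocks GR, E, T, G (helper19)
-/

set_option autoImplicit false

namespace Pool.Agent.OB

open _root_.MU3 Pool.Agent.MU3 Pool.Agent.MU3A Pool.Agent.MU3B Pool.Agent.RI Pool.Agent.RID
  Pool.Agent.MUX Pool.Agent.MUXK Pool.Agent.MUXE Pool.Agent.MUXJ Pool.Agent.MUXW Pool.Agent.MUXZ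

/-- the inputs of block K -/
theorem fin_IN (hR : O_RFIN) (hE : O_EFIN) (hT : O_TYF) (hG : OBH.O_GPT) :
    ∀ (p er : ℕ) (A B : ℤ) (P : Ideal (OO A B)) (V : ValuationSubring ℂ),
      CaseO p er A B P V → TorX A B → OBZ.InpGO p A B V :=
  OBZ.o_INPO hR hE (OBI.o_I3 (OBH.o_HFIN hT hG)) OBI.o_SUB OBZ.tl_LVX
    (OBZ.tl_INW OBZ.tl_LVX (OBZ.o_SUB MUXI.i_IAF) z_MEM z_TOW z_SUC z_I1 z_KOL) (tz_THN z_THG)
    z_MEM z_CXS MUXY.z_REX

/-- the one-branch theorem -/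
theorem fin_NB (hR : O_RFIN) (hE : O_EFIN) (hT : O_TYF) (hG : OBH.O_GPT) : O_NB :=
  o_nb (o_main hR (fin_IN hR hE hT hG)) OBI.o_OME

end Pool.Agent.OB
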