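import Pool.Agent.OB.StQ
import Pool.Agent.OB.J_LAYO
import Pool.Agent.OB.Q_BD
import Pool.Agent.VB.StVB

/-!
# OB, corollary for `p = 5`: QFN
-/

set_option autoImplicit false

open NumberField IsDedekindDomain Finset
open scoped nonZeroDivisors Pointwise

namespace Pool.Agent.OB

open _root_.Pool.Agent.RI _root_.Pool.Agent.RID _root_.Pool.Agent.MU3

theorem tq_QFN (h1 : Sq_BD) (h2 : _root_.Pool.Agent.VB.Sb_FNP) (h3 : _root_.Pool.Agent.VB.Sb_RED)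
    (h4 : Sq_CY5) : Sq_QFN := by
  have : Fact (Nat.Prime 5) := ⟨by norm_num⟩
  intro E₀ hd hw hr hc
  refine ⟨h1 E₀ hd hw hr hc E₀ (Or.inl rfl), ?_⟩
  obtain ⟨C, hC⟩ := h1 E₀ hd hw hr hc _ (Or.inr rfl)
  obtain ⟨B, hlay, hmono, huniq⟩ := t_LAYO 5 (by norm_num)
  set E := E₀ ⊔ IntermediateField.adjoin ℚ {z : ℂ | z ^ 5 = 1} with hE
  have hfd0 : FiniteDimensional ℚ E₀ := Module.finite_of_finrank_pos (by rw [hd]; norm_num)
  have hfd1 : FiniteDimensional ℚ (IntermediateField.adjoin ℚ {z : ℂ | z ^ 5 = 1}) := h4.1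
  have hfd : FiniteDimensional ℚ E := IntermediateField.finiteDimensional_sup _ _
  obtain ⟨ζ, hζ⟩ : ∃ ζ : ℂ, IsPrimitiveRoot ζ 5 := ⟨_, Complex.isPrimitiveRoot_exp 5 (by norm_num)⟩
  have hζE : ζ ∈ E := (le_sup_right : IntermediateField.adjoin ℚ {z : ℂ | z ^ 5 = 1} ≤ E)
    (IntermediateField.subset_adjoin ℚ _ hζ.pow_eq_one)
  have hζE' : IsPrimitiveRoot (⟨ζ, hζE⟩ : E) 5 := by
    refine IsPrimitiveRoot.of_map_of_injective (f := algebraMap E ℂ) ?_ (algebraMap E ℂ).injective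
    exact hζ
  have hTC : _root_.Pool.Agent.VB.TCx E := by
    intro φ
    refine ⟨⟨ζ, hζE⟩, fun h => ?_⟩
    have h5 : IsPrimitiveRoot (φ ⟨ζ, hζE⟩) 5 := hζE'.map_of_injective φ.injective
    have h6 : (starRingEnd ℂ) (φ ⟨ζ, hζE⟩) = (φ ⟨ζ, hζE⟩)⁻¹ := by
      rw [← Complex.inv_eq_conj]
      exact Complex.norm_eq_one_of_pow_eq_one h5.pow_eq_one (by norm_num)
    rw [h6] at h
    have h7 : (φ ⟨ζ, hζE⟩) ^ 2 = 1 := by
      have h8 : φ ⟨ζ, hζE⟩ ≠ 0 := h5.ne_zero (by norm_num)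
      rw [pow_two]
      nth_rewrite 1 [← h]
      exact inv_mul_cancel₀ h8
    have h9 := h5.dvd_of_pow_eq_one 2 h7
    omega
  have e1 : _root_.Pool.Agent.MuCyc.cycExt 5 E₀ = _root_.Pool.Agent.VB.Finf E₀ B := by
    unfold _root_.Pool.Agent.MuCyc.cycExt _root_.Pool.Agent.VB.Finf
    congr 1
    apply le_antisymm
    · refine sSup_le ?_
      rintro Q ⟨n, hQ⟩
      rw [huniq n Q hQ]
      exact le_iSup B n
    · exact iSup_le fun n => le_sSup ⟨n, hlay n⟩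
  rw [e1]
  have h10 : (_root_.Pool.Agent.VB.UM 5 (_root_.Pool.Agent.VB.Finf E₀ B)).Finite := by
    refine h3 5 E₀ E B (fun n => (LAY_thm 5 n (B n) (hlay n)).1) hmono le_sup_left ?_
    refine h2 5 E B hlay hmono hTC ⟨ζ, hζE, hζ⟩ ⟨C + 2, fun n => ?_⟩
    refine (hC n (B n) (hlay n)).trans ?_
    refine Nat.mul_le_mul (Nat.le_add_right _ _) ?_
    exact Nat.pow_le_pow_right (Nat.succ_pos n) (Nat.le_add_left _ _)
  exact h10

end Pool.Agent.OB
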