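import Pool.Agent.OB.StR
import Pool.Agent.MUX.I_IAF
import Pool.Agent.MUX.U_DET

/-!
# OB, block GR, module LFT: the lift of an element of order `l` of the inertia group of `RF (2)` to
the level `2 q` (helper62)
-/

set_option autoImplicit false

namespace Pool.Agent.OBR

open _root_.MU3 Pool.Agent.MU3A Pool.Agent.MU3B Pool.Agent.RI Pool.Agent.MUX Pool.Agent.MUXU
open Pool.Agent.NS Pool.Agent.NSR Pool.Agent.OB

noncomputable section

namespace LFTx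

variable {A B : ℤ}

/-- automorphisms of `ℂ` with `FixK` are trivial on `k` -/
lemma fix {σ : ℂ ≃+* ℂ} (hσ : FixK A B σ) : ∀ y ∈ kk A B, σ y = y := by
  intro y hy
  induction hy using IntermediateField.adjoin_induction with
  | mem x hx => rw [Set.mem_singleton_iff] at hx; rw [hx]; exact hσ
  | algebraMap x => simp
  | add x y _ _ hx hy => rw [map_add, hx, hy]
  | inv x _ hx => rw [map_inv₀, hx]
  | mul x y _ _ hx hy => rw [map_mul, hx, hy]

lemma fix_symm {σ : ℂ ≃+* ℂ} (hσ : FixK A B σ) : FixK A B σ.symm := by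
  unfold FixK at *
  rw [RingEquiv.symm_apply_eq, hσ]

lemma fix_trans {σ τ : ℂ ≃+* ℂ} (hσ : FixK A B σ) (hτ : FixK A B τ) : FixK A B (σ.trans τ) := by
  unfold FixK at *
  rw [RingEquiv.trans_apply, hσ, hτ]

lemma fix_pow {σ : ℂ ≃+* ℂ} (hσ : FixK A B σ) (n : ℕ) : FixK A B (σ ^ n) := by
  unfold FixK at *
  induction n with
  | zero => rw [pow_zero]; rfl
  | succ n ih =>
    rw [pow_succ]
    show (σ ^ n : ℂ ≃+* ℂ) (σ (wC A B)) = wC A B
    rw [hσ, ih]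

/-- normal fields are stable -/
lemma stab {σ : ℂ ≃+* ℂ} (hσ : FixK A B σ) {m : Ideal (OO A B)}
    (hG : IsGalois (kk A B) (RF m)) : ∀ y ∈ RF m, σ y ∈ RF m := by
  intro y hy
  let s : ℂ ≃ₐ[kk A B] ℂ := AlgEquiv.ofRingEquiv (f := σ) (fun r => fix hσ _ r.2)
  have h : ((s.restrictNormal (RF m) ⟨y, hy⟩ : RF m) : ℂ) = σ y :=
    AlgEquiv.restrictNormal_commutes s (RF m) ⟨y, hy⟩
  rw [← h]
  exact (s.restrictNormal (RF m) ⟨y, hy⟩).2

/-- the inertia group is closed under powers -/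
lemma inI_pow {V : ValuationSubring ℂ} {σ : ℂ ≃+* ℂ} (hσ : FixK A B σ) {m : Ideal (OO A B)}
    (hG : IsGalois (kk A B) (RF m)) (hI : InI V m σ) (n : ℕ) : InI V m (σ ^ n) := by
  induction n with
  | zero =>
    intro y _ _
    rw [pow_zero]
    show V.valuation (y - y) < 1
    rw [sub_self, map_zero]
    exact zero_lt_one
  | succ n ih =>
    intro y hy hv
    rw [pow_succ]
    show V.valuation ((σ ^ n : ℂ ≃+* ℂ) (σ y) - y) < 1
    have h1 := hI y hy hv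
    have h2 : V.valuation (σ y) ≤ 1 := by
      have h3 : σ y = (σ y - y) + y := by ring
      rw [h3]
      exact (V.valuation.map_add _ _).trans (max_le h1.le hv)
    have h4 := ih (σ y) (stab hσ hG y hy) h2
    have h5 : (σ ^ n : ℂ ≃+* ℂ) (σ y) - y = ((σ ^ n : ℂ ≃+* ℂ) (σ y) - σ y) + (σ y - y) := by ring
    rw [h5]
    exact lt_of_le_of_lt (V.valuation.map_add _ _) (max_lt h4 h1)

lemma pow_eq {σ σ' : ℂ ≃+* ℂ} (hσ : FixK A B σ) {m : Ideal (OO A B)}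
    (hG : IsGalois (kk A B) (RF m)) (h : ∀ y ∈ RF m, σ' y = σ y) (n : ℕ) :
    ∀ y ∈ RF m, (σ' ^ n : ℂ ≃+* ℂ) y = (σ ^ n : ℂ ≃+* ℂ) y := by
  induction n with
  | zero => intro y _; rw [pow_zero, pow_zero]
  | succ n ih =>
    intro y hy
    rw [pow_succ, pow_succ]
    show (σ' ^ n : ℂ ≃+* ℂ) (σ' y) = (σ ^ n : ℂ ≃+* ℂ) (σ y)
    rw [h y hy, ih _ (stab hσ hG y hy)]

lemma idl_ne_top {n : ℕ} (hn : 2 ≤ n) : (idl n : Ideal (OO A B)) ≠ ⊤ := by
  rw [Ne, Ideal.span_singleton_eq_top]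
  intro hu
  obtain ⟨y, hy⟩ := hu.exists_right_inv
  have h := congrArg QuadraticAlgebra.re hy
  rw [QuadraticAlgebra.re_mul] at h
  simp only [QuadraticAlgebra.re_natCast, QuadraticAlgebra.im_natCast, QuadraticAlgebra.re_one,
    mul_zero, zero_mul, add_zero] at h
  have h' : ((n : ℕ) : ℤ) ∣ 1 := ⟨_, h.symm⟩
  have h'' := Int.le_of_dvd one_pos h'
  omega

lemma ne_bot_of_cop {a m : Ideal (OO A B)} (hm : m ≠ ⊤) (h : IsCoprime a m) : a ≠ ⊥ := by
  rintro rfl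
  rw [Ideal.isCoprime_iff_sup_eq, bot_sup_eq] at h
  exact hm h

end LFTx

open LFTx Pool.Agent.MUXI.Iaf in
/-- the module LFT -/
theorem o_LFT (h1 : So_LIF) (h2 : So_FXX) (h3 : So_POW) : So_LFT := by
  intro p er A B P V hC T hex l σ hσ hI hl q hq hq2 hqp
  have hp5 := hC.p5
  have hm2 : (idl 2 : Ideal (OO A B)) ≠ ⊥ := by
    rw [Ne, Ideal.span_singleton_eq_bot]
    exact natCast_ne_zero' hC.cq two_ne_zero
  have hm : (idl (2 * q) : Ideal (OO A B)) ≠ ⊥ := by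
    rw [Ne, Ideal.span_singleton_eq_bot]
    exact natCast_ne_zero' hC.cq (mul_ne_zero two_ne_zero hq.ne_zero)
  have hle : (idl (2 * q) : Ideal (OO A B)) ≤ idl 2 := by
    rw [Ideal.span_singleton_le_span_singleton]
    exact ⟨(q : OO A B), by push_cast; rfl⟩
  have hnP : ¬ (idl (2 * q) : Ideal (OO A B)) ≤ P := by
    intro h
    have h4 : ((2 * q : ℕ) : OO A B) ∈ P := h (Ideal.mem_span_singleton_self _)
    have h5 := (hC.vemb_lt _).2 h4
    rw [emb_natCast hC.cq, hC.vnat] at h5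
    · exact lt_irrefl _ h5
    · intro hd
      rcases (Nat.Prime.dvd_mul hC.pp).1 hd with h6 | h6
      · have := Nat.le_of_dvd two_pos h6
        omega
      · exact hqp ((Nat.prime_dvd_prime_iff_eq hC.pp hq).1 h6).symm
  have hG2 := T.gal (idl 2) hm2
  have hG := T.gal (idl (2 * q)) hm
  obtain ⟨σ', hσ', hσe, hI'⟩ := h1 p A B V hC.cq hC.pp hC.vp (RF (idl 2)) (RF (idl (2 * q)))
    (T.fin _ hm2) hG2 (T.fin _ hm) σ hσ hI
  have hI'' : InI V (idl (A := A) (B := B) (2 * q)) σ' := hI'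
  have hfix : ∀ y ∈ RF (idl (A := A) (B := B) (2 * q)), (σ' ^ l : ℂ ≃+* ℂ) y = y := by
    refine h2 p er A B P V hC T _ hm hnP hle _ (fix_pow hσ' l) (inI_pow hσ' hG hI'' l) ?_
    intro y hy
    rw [pow_eq hσ hG2 hσe l y hy, hl y hy]
  obtain ⟨a', hc', ha'⟩ := T.act (idl (2 * q)) hm σ' hσ'
  have hq1 := hq.two_le
  obtain ⟨be, hbe1, hbe2⟩ := (h3 A B hC.cq T hex _ a' σ' hm hσ' ha' l).2.1 hfix
  refine ⟨σ', a', be, hσ', hI'', hσe, hfix, hc', ne_bot_of_cop (idl_ne_top (by omega)) hc', ha',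
    hbe2, hbe1, ?_⟩
  intro a ha
  set ρ : ℂ ≃+* ℂ := σ'.symm.trans σ with hρdef
  have hρ : FixK A B ρ := fix_trans (fix_symm hσ') hσ
  have hρt : ∀ y ∈ RF (idl (A := A) (B := B) 2), (ρ ^ 1 : ℂ ≃+* ℂ) y = y := by
    intro y hy
    have h4 := stab (fix_symm hσ') hG2 y hy
    rw [pow_one, hρdef, RingEquiv.trans_apply, ← hσe _ h4, RingEquiv.apply_symm_apply]
  obtain ⟨a'', hc'', ha''⟩ := T.act (idl 2) hm2 ρ hρ
  obtain ⟨c, hc1, hc2⟩ := (h3 A B hC.cq T hex _ a'' ρ hm2 hρ ha'' 1).2.1 hρt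
  rw [pow_one] at hc2
  have hc0 : c ≠ 0 := by
    rintro rfl
    refine ne_bot_of_cop (idl_ne_top le_rfl) hc'' ?_
    rw [hc2, Ideal.span_singleton_eq_bot]
  obtain ⟨b, L, om, hL⟩ := hex
  obtain ⟨b1, L1, om1, mu1, hL1, hA1⟩ := ha' b L om hL
  have hA1' : ActI σ' (idl 2) a' L L1 mu1 :=
    ⟨hA1.kap, cop_mono hle hA1.cop, hA1.isq, fun z hz => hA1.act z (Tor.mono hle hz)⟩
  obtain ⟨b2, L2, om2, mu2, hL2, hA2⟩ := ha'' b1 L1 om1 hL1
  have hA3 := T.comp (idl 2) a' a'' σ' ρ L L1 L2 mu1 mu2 hA1' hA2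
  have hs : σ'.trans ρ = σ := by
    ext z
    rw [hρdef, RingEquiv.trans_apply, RingEquiv.trans_apply, RingEquiv.symm_apply_apply]
  rw [hs] at hA3
  obtain ⟨b3, L3, om3, mu3, hL3, hA4⟩ := ha b L om hL
  have hk : kap L2 = kap L3 := by rw [hA3.kap, hA4.kap]
  have hA5 : ActI σ (idl 2) a L L2 mu3 := act_congr (lat_eq u_DET hL2 hL3 hk) hk hA4
  obtain ⟨x, y, -, hx0, hy0, hxy, he, -⟩ :=
    T.uniq (idl 2) a (a' * a'') σ L L2 mu3 (mu2 * mu1) hm2 ⟨b, om, hL⟩ hA5 hA3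
  have hdom : IsDomain (OO A B) := isDomain hC.cq
  refine ⟨x, y * c, hx0, mul_ne_zero hy0 hc0, ?_, ?_⟩
  · have e : x - y * c = (x - y) - y * (c - 1) := by ring
    rw [e]
    exact sub_mem hxy (Ideal.mul_mem_left _ _ hc1)
  · have e : sp (y * c) = sp y * sp c := (Ideal.span_singleton_mul_span_singleton y c).symm
    rw [he, hc2, e]
    ring

end

end Pool.Agent.OBR
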