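import Pool.Agent.OB.StR
import Pool.Agent.MUX.UAll

/-!
# OB, block GR: module MLT (multiplication by elements of odd norm prime to `p` in the kernel of reduction) (helper73)
-/

set_option autoImplicit false

open WeierstrassCurve Polynomial

namespace Pool.Agent.OBR

open _root_.MU3 Pool.Agent.MU3A Pool.Agent.MU3B Pool.Agent.RI Pool.Agent.MUX Pool.Agent.MUXU
open Pool.Agent.MUXV (GR InK tX)
open Pool.Agent.NS Pool.Agent.NSR Pool.Agent.OB

noncomputable section

namespace MLTx

variable {V : ValuationSubring ℂ}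

/-- all coefficients are integral -/
def IP (V : ValuationSubring ℂ) (P : ℂ[X]) : Prop := ∀ i, P.coeff i ∈ V

theorem ip_add {P Q : ℂ[X]} (hP : IP V P) (hQ : IP V Q) : IP V (P + Q) := fun i => by
  rw [coeff_add]
  exact add_mem (hP i) (hQ i)

theorem ip_sub {P Q : ℂ[X]} (hP : IP V P) (hQ : IP V Q) : IP V (P - Q) := fun i => by
  rw [coeff_sub]
  exact sub_mem (hP i) (hQ i)

theorem ip_mul {P Q : ℂ[X]} (hP : IP V P) (hQ : IP V Q) : IP V (P * Q) := fun i => by
  rw [coeff_mul]
  exact sum_mem fun x _ => mul_mem (hP _) (hQ _)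

theorem ip_C {a : ℂ} (ha : a ∈ V) : IP V (C a) := fun i => by
  rw [coeff_C]
  split_ifs
  · exact ha
  · exact zero_mem V

theorem ip_X : IP V (X : ℂ[X]) := fun i => by
  rw [coeff_X]
  split_ifs
  · exact one_mem V
  · exact zero_mem V

theorem ip_der {P : ℂ[X]} (hP : IP V P) : IP V (derivative P) := fun i => by
  rw [coeff_derivative]
  refine mul_mem (hP _) ?_
  exact add_mem (natCast_mem V i) (one_mem V)

theorem ip_prod (R : Finset ℂ) (f : ℂ → ℂ) (h : ∀ q ∈ R, f q ∈ V) :
    IP V (∏ q ∈ R, (X - C (f q))) := by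
  classical
  induction R using Finset.induction_on with
  | empty =>
    rw [Finset.prod_empty, ← C_1]
    exact ip_C (one_mem V)
  | insert a S ha ih =>
    rw [Finset.prod_insert ha]
    exact ip_mul (ip_sub ip_X (ip_C (h a (Finset.mem_insert_self _ _))))
      (ih fun q hq => h q (Finset.mem_insert_of_mem hq))

/-- the leading term dominates at `x`, `v x > 1` -/
theorem lead {P : ℂ[X]} {N : ℕ} (hP : IP V P) (hN : P.natDegree ≤ N) {x : ℂ}
    (hx : 1 < V.valuation x) :
    V.valuation (P.eval x - P.coeff N * x ^ N) * V.valuation x ≤ V.valuation x ^ N := by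
  have h0 : (0 : V.ValueGroup) < V.valuation x := zero_lt_one.trans hx
  have e : P.eval x - P.coeff N * x ^ N = ∑ i ∈ Finset.range N, P.coeff i * x ^ i := by
    rw [eval_eq_sum_range' (Nat.lt_succ_of_le hN), Finset.sum_range_succ, add_sub_cancel_right]
  rw [e]
  rcases Nat.eq_zero_or_pos N with rfl | hpos
  · simp
  · have h1 : V.valuation (∑ i ∈ Finset.range N, P.coeff i * x ^ i) ≤ V.valuation x ^ (N - 1) := by
      refine V.valuation.map_sum_le fun i hi => ?_
      rw [map_mul, map_pow]
      have h2 : V.valuation (P.coeff i) ≤ 1 := (V.valuation_le_one_iff _).2 (hP i)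
      have h3 : V.valuation x ^ i ≤ V.valuation x ^ (N - 1) :=
        pow_le_pow_right₀ hx.le (by have := Finset.mem_range.1 hi; omega)
      calc V.valuation (P.coeff i) * V.valuation x ^ i ≤ 1 * V.valuation x ^ i :=
            mul_le_mul_left h2 _
        _ ≤ _ := by rw [one_mul]; exact h3
    calc V.valuation (∑ i ∈ Finset.range N, P.coeff i * x ^ i) * V.valuation x
        ≤ V.valuation x ^ (N - 1) * V.valuation x := mul_le_mul_left h1 _
      _ = V.valuation x ^ N := by rw [← pow_succ, Nat.sub_add_cancel hpos]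

/-- the value at `x` if the coefficient at `N` is a unit -/
theorem lead1 {P : ℂ[X]} {N : ℕ} (hP : IP V P) (hN : P.natDegree ≤ N) {x : ℂ}
    (hx : 1 < V.valuation x) (hu : V.valuation (P.coeff N) = 1) :
    V.valuation (P.eval x) = V.valuation x ^ N := by
  have h0 : (0 : V.ValueGroup) < V.valuation x := zero_lt_one.trans hx
  have h1 := lead hP hN hx
  have h2 : V.valuation (P.coeff N * x ^ N) = V.valuation x ^ N := by
    rw [map_mul, map_pow, hu, one_mul]
  have h3 : V.valuation (P.eval x - P.coeff N * x ^ N) < V.valuation (P.coeff N * x ^ N) := by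
    rw [h2]
    by_contra hc
    rw [not_lt] at hc
    have h4 : V.valuation x ^ N * V.valuation x ≤ V.valuation x ^ N :=
      (mul_le_mul_left hc _).trans h1
    have h5 : V.valuation x ^ N * 1 < V.valuation x ^ N * V.valuation x :=
      mul_lt_mul_of_pos_left hx (pow_pos h0 N)
    rw [mul_one] at h5
    exact absurd h4 (not_le.2 h5)
  have h6 := V.valuation.map_add_eq_of_lt_left h3
  rw [add_sub_cancel, h2] at h6
  exact h6

theorem xu_add (L : PeriodPair) (u e z : ℂ) {w : ℂ} (hw : w ∈ L.lattice) :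
    xu L u e (z + w) = xu L u e z := by
  have := L.weierstrassP_add_coe z ⟨w, hw⟩
  unfold xu
  rw [show z + w = z + ((⟨w, hw⟩ : L.lattice) : ℂ) from rfl, this]

end MLTx

open MLTx in
theorem o_MLT (h : So_ISO) : So_MLT := by
  intro A B V hc hv2 b L om hL u e lam hG ga n hnm hodd hvn z hz hx
  have hcm := hL.hasCM hc
  have hga0 : ga ≠ 0 := by
    rintro rfl
    rw [(nm_eq_zero hc).2 rfl] at hnm
    obtain ⟨k, hk⟩ := hodd
    have : (n : ℤ) = 0 := hnm.symm
    omega
  have hg0 : emb ga ≠ 0 := emb_ne_zero hc hga0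
  have hI : Isg L L (emb ga) := fun w hw => hcm ga w hw
  obtain ⟨⟨R, hR⟩, -⟩ := u_BAC.2 L L (emb ga) hg0 hI
  have hnz : ∀ z, emb ga * z ∈ L.lattice → (n : ℂ) * z ∈ L.lattice := by
    intro z hz
    have h1 := hcm (star ga) _ hz
    have h2 : emb (star ga) * (emb ga * z) = (n : ℂ) * z := by
      rw [← mul_assoc, ← emb_mul hc, mul_comm (star ga) ga, mul_star, emb_intCast hc, hnm]
      push_cast
      ring
    rwa [h2] at h1
  obtain ⟨hvg, hq, P, hmon, hdeg, hPc, hev⟩ :=
    h V L L u e lam u e lam (emb ga) n hv2 hG hG hg0 hI hodd hvn hnz R hR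
  have hu : emb ga * u / u = emb ga := mul_div_cancel_right₀ _ hG.u0
  rw [hu] at hvg hev
  set g := emb ga with hgdef
  set x := xu L u e z with hxdef
  set N := R.card with hN
  set Q : ℂ[X] := C (g ^ 2) * ∏ q ∈ R, (X - C (xu L u e q)) with hQ
  have h0 : (0 : V.ValueGroup) < V.valuation x := zero_lt_one.trans hx
  -- `g z` is not in the lattice
  have hgz : g * z ∉ L.lattice := by
    intro hmem
    obtain ⟨q, hqR, hqz⟩ := hR.surj z hmem hz
    have h1 : xu L u e z = xu L u e q := by
      have := xu_add L u e q hqz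
      rwa [add_sub_cancel] at this
    have h2 := hq q hqR
    rw [← h1] at h2
    exact absurd h2 (not_le.2 hx)
  have hgV : g ∈ V := (V.valuation_le_one_iff _).1 hvg.le
  have hPi : IP V P := fun i => (V.valuation_le_one_iff _).1 (hPc i)
  have hprodi : IP V (∏ q ∈ R, (X - C (xu L u e q))) :=
    ip_prod R _ fun q hq' => (V.valuation_le_one_iff _).1 (hq q hq')
  have hQi : IP V Q := ip_mul (ip_C (pow_mem hgV 2)) hprodi
  have hprodmon : (∏ q ∈ R, (X - C (xu L u e q))).Monic :=
    monic_prod_of_monic _ _ fun q _ => monic_X_sub_C _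
  have hproddeg : (∏ q ∈ R, (X - C (xu L u e q))).natDegree = N := by
    rw [natDegree_prod_of_monic _ _ fun q _ => monic_X_sub_C _]
    simp [hN]
  have hQdeg : Q.natDegree ≤ N := by
    refine natDegree_C_mul_le _ _ |>.trans ?_
    rw [hproddeg]
  have hQc : Q.coeff N = g ^ 2 := by
    rw [hQ, coeff_C_mul]
    have h1 := hprodmon.coeff_natDegree
    rw [hproddeg] at h1
    rw [h1, mul_one]
  have hPc1 : P.coeff (N + 1) = 1 := by
    have h1 := hmon.coeff_natDegree
    rwa [hdeg] at h1
  have hvg2 : V.valuation (g ^ 2) = 1 := by rw [map_pow, hvg, one_pow]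
  -- the derivative expression
  set D : ℂ[X] := derivative P * Q - P * derivative Q with hD
  have hDi : IP V D := ip_sub (ip_mul (ip_der hPi) hQi) (ip_mul hPi (ip_der hQi))
  have hP'deg : (derivative P).natDegree ≤ N := by
    refine (natDegree_derivative_le P).trans ?_
    rw [hdeg]
    simp
  have hP'c : (derivative P).coeff N = (N : ℂ) + 1 := by
    rw [coeff_derivative, hPc1, one_mul]
  have hA1 : (derivative P * Q).natDegree ≤ N + N := natDegree_mul_le_of_le hP'deg hQdeg
  have hA1c : (derivative P * Q).coeff (N + N) = ((N : ℂ) + 1) * g ^ 2 := by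
    rw [coeff_mul_add_eq_of_natDegree_le hP'deg hQdeg, hP'c, hQc]
  have hA2 : (P * derivative Q).natDegree ≤ N + N ∧
      (P * derivative Q).coeff (N + N) = (N : ℂ) * g ^ 2 := by
    rcases Nat.eq_zero_or_pos N with h1 | h1
    · have h2 : derivative Q = 0 := by
        rw [h1] at hQdeg
        have h3 := eq_C_of_natDegree_le_zero hQdeg
        rw [h3, derivative_C]
      rw [h2, mul_zero, h1]
      simp
    · have hQ'deg : (derivative Q).natDegree ≤ N - 1 :=
        (natDegree_derivative_le Q).trans (Nat.sub_le_sub_right hQdeg 1)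
      have hQ'c : (derivative Q).coeff (N - 1) = (N : ℂ) * g ^ 2 := by
        rw [coeff_derivative, Nat.sub_add_cancel h1, hQc]
        have : ((N - 1 : ℕ) : ℂ) + 1 = N := by
          rw [Nat.cast_sub h1]
          push_cast
          ring
        rw [this, mul_comm]
      have h2 : N + N = (N + 1) + (N - 1) := by omega
      rw [h2]
      refine ⟨natDegree_mul_le_of_le hdeg.le hQ'deg, ?_⟩
      rw [coeff_mul_add_eq_of_natDegree_le hdeg.le hQ'deg, hPc1, hQ'c, one_mul]
  have hDdeg : D.natDegree ≤ N + N := (natDegree_sub_le _ _).trans (max_le hA1 hA2.1)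
  have hDc : D.coeff (N + N) = g ^ 2 := by
    rw [hD, coeff_sub, hA1c, hA2.2]
    ring
  -- `E = P Q - X D`
  set E : ℂ[X] := P * Q - X * D with hE
  have hEi : IP V E := ip_sub (ip_mul hPi hQi) (ip_mul ip_X hDi)
  have hE1 : (P * Q).natDegree ≤ (N + 1) + N := natDegree_mul_le_of_le hdeg.le hQdeg
  have hE2 : (X * D).natDegree ≤ 1 + (N + N) := natDegree_mul_le_of_le natDegree_X_le hDdeg
  have hEdeg : E.natDegree ≤ N + N + 1 :=
    (natDegree_sub_le _ _).trans (max_le (hE1.trans (by omega)) (hE2.trans (by omega)))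
  have hEc : E.coeff (N + N + 1) = 0 := by
    rw [hE, coeff_sub, show N + N + 1 = (N + 1) + N by omega,
      coeff_mul_add_eq_of_natDegree_le hdeg.le hQdeg, hPc1, hQc, show (N + 1) + N = (N + N) + 1 by omega,
      coeff_X_mul, hDc]
    ring
  -- values
  have vP := lead1 hPi hdeg.le hx (by rw [hPc1, map_one])
  have vQ := lead1 hQi hQdeg hx (by rw [hQc, hvg2])
  have vD := lead1 hDi hDdeg hx (by rw [hDc, hvg2])
  have vE := lead hEi hEdeg hx
  rw [hEc, zero_mul, sub_zero] at vE
  have hE3 : E.eval x = P.eval x * Q.eval x - x * D.eval x := by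
    rw [hE, eval_sub, eval_mul (p := P), eval_mul (p := X), eval_X]
  have hQ0 : Q.eval x ≠ 0 := fun h1 => by
    rw [h1, map_zero] at vQ
    exact (pow_pos h0 N).ne vQ
  have hD0 : D.eval x ≠ 0 := fun h1 => by
    rw [h1, map_zero] at vD
    exact (pow_pos h0 (N + N)).ne vD
  have hx0 : x ≠ 0 := fun h1 => by
    rw [h1, map_zero] at h0
    exact lt_irrefl _ h0
  obtain ⟨e1, e2⟩ := hev z hgz
  rw [← hxdef] at e1 e2
  -- `Y z ≠ 0`
  have hY : yu L u z ≠ 0 := by
    intro h1
    have h2 := hG.eq z hz
    have h3 : x * (x - 1) * (x - lam) = 0 := by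
      have h4 : L.derivWeierstrassP z / (2 * u ^ 3) = 0 := h1
      rw [h4] at h2
      have h5 : (L.weierstrassP z - e) / u ^ 2 = x := rfl
      rw [h5] at h2
      rw [← h2]
      simp
    have h6 : ∀ a : ℂ, V.valuation a ≤ 1 → x - a ≠ 0 := by
      intro a ha h7
      rw [sub_eq_zero] at h7
      rw [h7] at hx
      exact absurd ha (not_le.2 hx)
    rcases mul_eq_zero.1 h3 with h4 | h4
    · rcases mul_eq_zero.1 h4 with h5 | h5
      · exact hx0 h5
      · exact h6 1 (by rw [map_one]) h5
    · exact h6 lam hG.vl.le h4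
  have hX : xu L u e (g * z) = P.eval x / Q.eval x := by
    rw [eq_div_iff hQ0, e1]
  have hYg : yu L u (g * z) = D.eval x * yu L u z / (g * Q.eval x ^ 2) := by
    rw [eq_div_iff (mul_ne_zero hg0 (pow_ne_zero 2 hQ0))]
    linear_combination e2
  refine ⟨hgz, ?_, ?_⟩
  · rw [hX, map_div₀, vP, vQ, pow_succ, mul_div_cancel_left₀ _ (pow_pos h0 N).ne']
    exact hx
  · have hdiff : tX (xu L u e) (yu L u) (g * z) - g * tX (xu L u e) (yu L u) z =
        -(g * E.eval x / (D.eval x * yu L u z)) := by
      unfold tX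
      rw [hX, hYg, hE3, ← hxdef]
      field_simp
      ring
    rw [hdiff, Valuation.map_neg, map_div₀, map_mul, map_mul, hvg, one_mul, vD]
    unfold tX
    rw [Valuation.map_neg, map_div₀, ← hxdef]
    have hvY : (0 : V.ValueGroup) < V.valuation (yu L u z) :=
      zero_lt_iff.2 ((Valuation.ne_zero_iff _).2 hY)
    have hpp := pow_pos h0 (N + N)
    rw [div_lt_div_iff₀ (mul_pos hpp hvY) hvY]
    have h7 : V.valuation (E.eval x) < V.valuation x * V.valuation x ^ (N + N) := by
      rw [← pow_succ']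
      by_contra hc'
      rw [not_lt] at hc'
      have h8 := (mul_le_mul_left hc' (V.valuation x)).trans vE
      have h9 : V.valuation x ^ (N + N + 1) * 1 < V.valuation x ^ (N + N + 1) * V.valuation x :=
        mul_lt_mul_of_pos_left hx (pow_pos h0 _)
      rw [mul_one] at h9
      exact absurd h8 (not_le.2 h9)
    calc V.valuation (E.eval x) * V.valuation (yu L u z)
        < V.valuation x * V.valuation x ^ (N + N) * V.valuation (yu L u z) :=
          mul_lt_mul_of_pos_right h7 hvY
      _ = V.valuation x * (V.valuation x ^ (N + N) * V.valuation (yu L u z)) := by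
          rw [mul_assoc]

end

end Pool.Agent.OBR
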