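import Pool.Agent.OB.StR
import Pool.Agent.MU3.BAll
import Pool.Agent.MU3.A_ROO
import Pool.Agent.MU3.A_TW2

/-!
# OB, block GR: TW3, points of order two (helper87)
-/

set_option autoImplicit false

open WeierstrassCurve Polynomial

namespace Pool.Agent.OBR

open _root_.MU3 Pool.Agent.MU3A Pool.Agent.MU3B Pool.Agent.RI Pool.Agent.MUX Pool.Agent.MUXU
open Pool.Agent.MUXV (GR InK tX)
open Pool.Agent.NS Pool.Agent.NSR Pool.Agent.OB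

noncomputable section

namespace TW3x

lemma half_mem (L : PeriodPair) (z : ℂ) (a b : ℤ) (h : a * L.ω₁ + b * L.ω₂ = 2 * z)
    (ha : a % 2 = 0) (hb : b % 2 = 0) : z ∈ L.lattice := by
  obtain ⟨a', rfl⟩ := Int.dvd_of_emod_eq_zero ha
  obtain ⟨b', rfl⟩ := Int.dvd_of_emod_eq_zero hb
  refine PeriodPair.mem_lattice.2 ⟨a', b', ?_⟩
  push_cast at h
  linear_combination (1 / 2 : ℂ) * h

lemma sub_mem_of (L : PeriodPair) (z z' : ℂ) (a b a' b' : ℤ) (h : a * L.ω₁ + b * L.ω₂ = 2 * z)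
    (h' : a' * L.ω₁ + b' * L.ω₂ = 2 * z')
    (ha : a % 2 = a' % 2) (hb : b % 2 = b' % 2) : z - z' ∈ L.lattice := by
  refine half_mem L (z - z') (a - a') (b - b') ?_ (by omega) (by omega)
  push_cast
  linear_combination h - h'

lemma three (L : PeriodPair) {w₁ w₂ w₃ : ℂ} (h : Two3 L w₁ w₂ w₃) (z : ℂ) (hz : z ∉ L.lattice)
    (h2 : 2 * z ∈ L.lattice) :
    z - w₁ ∈ L.lattice ∨ z - w₂ ∈ L.lattice ∨ z - w₃ ∈ L.lattice := by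
  obtain ⟨a₁, b₁, e₁⟩ := PeriodPair.mem_lattice.1 h.t₁
  obtain ⟨a₂, b₂, e₂⟩ := PeriodPair.mem_lattice.1 h.t₂
  obtain ⟨a₃, b₃, e₃⟩ := PeriodPair.mem_lattice.1 h.t₃
  obtain ⟨a, b, e⟩ := PeriodPair.mem_lattice.1 h2
  have k1 : ¬ (a₁ % 2 = 0 ∧ b₁ % 2 = 0) := fun k => h.n₁ (half_mem L _ _ _ e₁ k.1 k.2)
  have k2 : ¬ (a₂ % 2 = 0 ∧ b₂ % 2 = 0) := fun k => h.n₂ (half_mem L _ _ _ e₂ k.1 k.2)
  have k3 : ¬ (a₃ % 2 = 0 ∧ b₃ % 2 = 0) := fun k => h.n₃ (half_mem L _ _ _ e₃ k.1 k.2)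
  have k : ¬ (a % 2 = 0 ∧ b % 2 = 0) := fun k => hz (half_mem L _ _ _ e k.1 k.2)
  have k12 : ¬ (a₁ % 2 = a₂ % 2 ∧ b₁ % 2 = b₂ % 2) :=
    fun k => h.d₁₂ (sub_mem_of L _ _ _ _ _ _ e₁ e₂ k.1 k.2)
  have k13 : ¬ (a₁ % 2 = a₃ % 2 ∧ b₁ % 2 = b₃ % 2) :=
    fun k => h.d₁₃ (sub_mem_of L _ _ _ _ _ _ e₁ e₃ k.1 k.2)
  have k23 : ¬ (a₂ % 2 = a₃ % 2 ∧ b₂ % 2 = b₃ % 2) :=
    fun k => h.d₂₃ (sub_mem_of L _ _ _ _ _ _ e₂ e₃ k.1 k.2)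
  by_cases c1 : a % 2 = a₁ % 2 ∧ b % 2 = b₁ % 2
  · exact Or.inl (sub_mem_of L _ _ _ _ _ _ e e₁ c1.1 c1.2)
  by_cases c2 : a % 2 = a₂ % 2 ∧ b % 2 = b₂ % 2
  · exact Or.inr (Or.inl (sub_mem_of L _ _ _ _ _ _ e e₂ c2.1 c2.2))
  by_cases c3 : a % 2 = a₃ % 2 ∧ b % 2 = b₃ % 2
  · exact Or.inr (Or.inr (sub_mem_of L _ _ _ _ _ _ e e₃ c3.1 c3.2))
  exfalso
  omega

lemma mk3 (L : PeriodPair) (w₁ w₂ : ℂ) (n₁ : w₁ ∉ L.lattice) (t₁ : 2 * w₁ ∈ L.lattice)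
    (n₂ : w₂ ∉ L.lattice) (t₂ : 2 * w₂ ∈ L.lattice) (d : w₁ - w₂ ∉ L.lattice) :
    Two3 L w₁ w₂ (w₁ + w₂) := by
  refine ⟨n₁, n₂, ?_, t₁, t₂, ?_, d, ?_, ?_⟩
  · intro k
    apply d
    have h := sub_mem k t₂
    have e : w₁ + w₂ - 2 * w₂ = w₁ - w₂ := by ring
    rwa [e] at h
  · rw [mul_add]
    exact add_mem t₁ t₂
  · intro k
    apply n₂
    have h := neg_mem k
    have e : -(w₁ - (w₁ + w₂)) = w₂ := by ring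
    rwa [e] at h
  · intro k
    apply n₁
    have h := neg_mem k
    have e : -(w₂ - (w₁ + w₂)) = w₁ := by ring
    rwa [e] at h

lemma sum_mem (L : PeriodPair) {w₁ w₂ w₃ : ℂ} (h : Two3 L w₁ w₂ w₃) :
    w₁ + w₂ - w₃ ∈ L.lattice := by
  have h' := mk3 L w₁ w₂ h.n₁ h.t₁ h.n₂ h.t₂ h.d₁₂
  rcases three L h (w₁ + w₂) h'.n₃ h'.t₃ with k | k | k
  · exact absurd (by
      have e : w₁ + w₂ - w₁ = w₂ := by ring
      rwa [e] at k) h.n₂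
  · exact absurd (by
      have e : w₁ + w₂ - w₂ = w₁ := by ring
      rwa [e] at k) h.n₁
  · exact k

lemma per (L : PeriodPair) (z z' : ℂ) (h : z - z' ∈ L.lattice) :
    L.weierstrassP z = L.weierstrassP z' := by
  have h1 := L.weierstrassP_add_coe z' ⟨z - z', h⟩
  have e : z' + ((⟨z - z', h⟩ : L.lattice) : ℂ) = z := by
    simp
  rwa [e] at h1

end TW3x

theorem o_TW3 : So_TW3 := by
  intro L
  refine ⟨⟨L.ω₁ / 2, L.ω₂ / 2, L.ω₁ / 2 + L.ω₂ / 2, TW3x.mk3 L _ _ L.ω₁_div_two_notMem_lattice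
    ?_ L.ω₂_div_two_notMem_lattice ?_ ?_⟩, ?_, ?_⟩
  · rw [mul_div_cancel₀ _ (two_ne_zero)]
    exact L.ω₁_mem_lattice
  · rw [mul_div_cancel₀ _ (two_ne_zero)]
    exact L.ω₂_mem_lattice
  · have h := (L.mul_ω₁_add_mul_ω₂_mem_lattice (α := 1 / 2) (β := -1 / 2)).not.mpr (by norm_num)
    intro h2
    apply h
    have e : (((1 / 2 : ℚ) : ℂ)) * L.ω₁ + (((-1 / 2 : ℚ) : ℂ)) * L.ω₂ = L.ω₁ / 2 - L.ω₂ / 2 := by
      push_cast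
      ring
    rw [e]
    exact h2
  · intro w₁ w₂ n₁ t₁ n₂ t₂ d
    exact TW3x.mk3 L w₁ w₂ n₁ t₁ n₂ t₂ d
  · intro w₁ w₂ w₃ h
    have hs := TW3x.sum_mem L h
    have h' := TW3x.mk3 L w₁ w₂ h.n₁ h.t₁ h.n₂ h.t₂ h.d₁₂
    obtain ⟨n12, n13, n23, s1, s2, s3⟩ := ta_ROO (ta_TW2 b_ADD b_ZER b_NEQ) b_NEQ L w₁ w₂ h.n₁ h.n₂
      h'.n₃ h.t₁ h.t₂
    rw [TW3x.per L _ _ hs] at n13 n23 s1 s2 s3
    refine ⟨?_, TW3x.three L h, ?_, n12, n13, n23⟩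
    · have k := add_mem hs h.t₃
      have e : w₁ + w₂ - w₃ + 2 * w₃ = w₁ + w₂ + w₃ := by ring
      rwa [e] at k
    · intro z hz
      rw [L.derivWeierstrassP_sq z hz]
      linear_combination (4 * L.weierstrassP z ^ 2) * s1 - (4 * L.weierstrassP z) * s2 + 4 * s3

end

end Pool.Agent.OBR
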