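import Pool.Agent.OB.Defs0
import Pool.Agent.NS.StEN

/-!
# OB, block E: a `p`-th power has a logarithmic derivative divisible by `p` (helper96; models: helper86's `NS/StEN.lean`, `NS/StER.lean`)

Every prime `p ≥ 5`, `P` any prime ideal above `p` (`er = 1` split or inert, `er = 2` ramified), `V` above `P`, `v = V.valuation` (multiplicative). `L` a lattice, `GoodL V L u e lam`:
`x = xu L u e = (℘ - e)/u²`, `y = yu L u = ℘'/(2 u³)`, `y² = x³ + a₂ x² + a₄ x`, `a₂ = -(1 + lam)`, `a₄ = lam` a unit; `s = su = 1/x`, `r = ru = -y/x²`, `r² = s (1 + a₂ s + a₄ s²)`.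
`InK V L x z` (`MUX/VX.lean`): `z ∈ L` or `z` in the kernel of reduction. `su`, `ru`, `WL`, `IntP`: `NS/StEN.lean`. `SP P er L`: the nonzero points of `E[P^er]`; they are all in the kernel of reduction and the product of
their `s` (modulo `±`) has the valuation of `p` (PTS). `(p) = P^er · Pc P`, `Pc P` prime to `P`.

The functions `A(s) + r B(s)` on `SP P er L`, `A, B` polynomials over `V`, form a ring with a ring homomorphism `F ↦ A(0) + B(0) ε` to `(V/p)[ε]` (ALG), so a `p`-th power has `B(0) ∈ p V` (PRO). Galois conjugation of an integral element `w`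
of `RF m` is such a function of the point `Y` with `σ(z₁) = z₁ + Y` (SIG). So a `p`-th power has a logarithmic derivative in `p V` (ONE); weights `emb x`. For `er = 1` these are the weights `w x` modulo `p`; for `er = 2` the
sums over the cosets of the kernel of `(O/m)^* → (O/f P^(2n+1))^*` gain the missing half (INN, STB).

Every statement is a `def Sb_X : Prop`; the module OB_E_X proves `theorem tb_X (h : ...) : Sb_X` in `Pool/Agent/OB/E_X.lean`, namespace `Pool.Agent.OBE` (private lemmas in `Pool.Agent.OBE.X`),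
with the statements named under `Uses` as hypotheses (drop those which are not needed; others may be added if they do not depend on this one). Usable without hypotheses: `Pool.Agent.MU3B.b_X : St_X` (`MU3/BAll.lean`), `Pool.Agent.MU3A.ta_SCP`,
`Pool.Agent.MUXU.u_X : Su_X` (`MUX/UAll.lean`), `Pool.Agent.MUXE.te_RNG`, `te_TRA`, `te_TRB`, `te_FAC te_TRA`, `te_GTH te_TRA`, `te_PT te_TRA`; `te_GAL` (`MUX/E_GAL.lean`). PORT: copy the proof of the model, replace `3` by `p`, `GoodN`/`GoodR` by `GoodL`, `E3 L` by `SP P er L`.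
IMPORT only original files (`MU3`, `MUX`, `NS`, ..), never `MVF`.
-/

set_option autoImplicit false

open Polynomial

namespace Pool.Agent.OBE

open _root_.MU3 _root_.Pool.Agent.MU3A _root_.Pool.Agent.MU3B _root_.Pool.Agent.MUX _root_.Pool.Agent.MUXU _root_.Pool.Agent.MUXE
open _root_.Pool.Agent.RI _root_.Pool.Agent.NS _root_.Pool.Agent.OB
open _root_.Pool.Agent.MUXV (GR InK tX)
open _root_.Pool.Agent.NSE (su ru WL IntP)

noncomputable section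

/-! ## Definitions -/

/-- the nonzero points killed by `P ^ er` -/
def SP {A B : ℤ} (P : Ideal (OO A B)) (er : ℕ) (L : PeriodPair) : Set ℂ :=
  {Y | Tor (P ^ er) L Y ∧ Y ∉ L.lattice}

/-- the annihilator of the point `z` of `ℂ / L` is the ideal `m` -/
def Ann {A B : ℤ} (m : Ideal (OO A B)) (L : PeriodPair) (z : ℂ) : Prop :=
  ∀ x : OO A B, emb x * z ∈ L.lattice ↔ x ∈ m

/-- no point of the kernel of `μ : L → M` is in the kernel of reduction -/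
def Ker0 (V : ValuationSubring ℂ) (L M : PeriodPair) (u e μ : ℂ) : Prop :=
  ∀ z, μ * z ∈ M.lattice → InK V L (xu L u e) z → z ∈ L.lattice

/-- the situation of the points of `SP P er L`, abstractly -/
structure PtsO (p : ℕ) (V : ValuationSubring ℂ) (S : Set ℂ) (s r : ℂ → ℂ) (a2 a4 : ℂ) : Prop where
  vp : V.valuation (p : ℂ) < 1
  i2 : V.valuation a2 ≤ 1
  i4 : V.valuation a4 ≤ 1
  vs : ∀ Y ∈ S, s Y ≠ 0 ∧ V.valuation (s Y) < 1
  eq : ∀ Y ∈ S, r Y ^ 2 = s Y * (1 + a2 * s Y + a4 * s Y ^ 2)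
  neg : ∀ Y ∈ S, ∃ Y' ∈ S, s Y' = s Y ∧ r Y' = -r Y
  big : ∃ (d : ℕ) (y : Fin d → ℂ), (∀ i, y i ∈ S) ∧ (Function.Injective fun i => s (y i)) ∧
    V.valuation (∏ i, s (y i)) ≤ V.valuation (p : ℂ)
  fin : ((fun Y => (s Y, r Y)) '' S).Finite

/-- `F = A(s) + r B(s)` on `S`, `A`, `B` over `V`, `A(0) ≡ α`, `B(0) ≡ β` modulo `p` -/
def RepO (p : ℕ) (V : ValuationSubring ℂ) (S : Set ℂ) (s r F : ℂ → ℂ) (α β : ℂ) : Prop :=
  ∃ P Q : ℂ[X], IntP V P ∧ IntP V Q ∧ (∀ Y ∈ S, F Y = P.eval (s Y) + r Y * Q.eval (s Y)) ∧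
    V.valuation (P.coeff 0 - α) ≤ V.valuation (p : ℂ) ∧
    V.valuation (Q.coeff 0 - β) ≤ V.valuation (p : ℂ)

/-- a prime `p ≠ 2` with `v p < 1` -/
structure Cp (p : ℕ) (V : ValuationSubring ℂ) : Prop where
  pp : p.Prime
  p2 : p ≠ 2
  vp : V.valuation (p : ℂ) < 1

/-- everything on `O`, `k`, `P`, `V` and the reduction which is used; `al` is a uniformiser of `P`, prime to the other primes above `p` -/
structure CtxO (p er : ℕ) (A B : ℤ) (P : Ideal (OO A B)) (V : ValuationSubring ℂ)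
    (al : OO A B) : Prop extends CaseO p er A B P V, Cp p V where
  ring : RingE A B
  ne : P ≠ ⊥
  max : P.IsMaximal
  er1 : 1 ≤ er
  fac : idl (A := A) (B := B) p = P ^ er * Pc P
  cne : Pc P ≠ ⊥
  cnl : ¬ Pc P ≤ P
  int : ∀ x : OO A B, V.valuation (emb x) ≤ 1
  unit : ∀ x : OO A B, x ∉ P → V.valuation (emb x) = 1
  nat : ∀ n : ℕ, ¬ p ∣ n → V.valuation (n : ℂ) = 1 ∧ ((n : ℕ) : OO A B) ∉ P
  alP : al ∈ P
  al2 : al ∉ P ^ 2
  alv : V.valuation (emb al) ^ er = V.valuation (p : ℂ)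
  vP : ∀ x ∈ P, V.valuation (emb x) ≤ V.valuation (emb al)
  alN : ∃ N : ℕ, ¬ p ∣ N ∧ ∀ x ∈ P, ∃ y : OO A B, ((N : ℕ) : OO A B) * x = al * y
  nP : er = 2 → nI P = p ∧ Pc P = ⊤
  n3 : 3 ≤ nI P
  good : ∀ L, NL A B L → ∃ u e lam : ℂ, GoodL V L u e lam
  iner : ∀ m : Ideal (OO A B), m ≠ ⊥ → ¬ m ≤ P → ∀ σ : ℂ ≃+* ℂ, FixK A B σ →
    (∀ y ∈ RF m, y ∈ V → σ y - y ∈ V.nonunits) → ∀ y ∈ RF m, σ y = y
  exq : ∀ L, NL A B L → ∃ (N : PeriodPair) (nu : ℂ), NL A B N ∧ IsQ P L N nu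

/-! ## Lemma E: the ring of the functions `A(s) + r B(s)` -/

/-- (ALG) the ring and the homomorphism to `(V/p)[ε]`.

PORT of `Pool/Agent/NS/F_ALG.lean` (`Sf_ALG`, `PtsR` with `four : Fin 4`, here `big : Fin d`; `Rep` there is `RepO` for `p = 3`). PROOF in words: `Se_ALG` in `NS/StEN.lean`. A polynomial over `V` which vanishes at the `d` different `s(y_i)` is `∏ (X - s(y_i))` times a polynomial over `V`, so its value at `0` is in `∏ s(y_i) V ⊆ p V`. -/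
def Sb_ALG : Prop :=
  ∀ (p : ℕ) (V : ValuationSubring ℂ) (S : Set ℂ) (s r : ℂ → ℂ) (a2 a4 : ℂ),
    PtsO p V S s r a2 a4 →
    (∀ c, V.valuation c ≤ 1 → RepO p V S s r (fun _ => c) c 0) ∧
    RepO p V S s r s 0 0 ∧ RepO p V S s r r 0 1 ∧
    (∀ (F G : ℂ → ℂ) (α β α' β' : ℂ), RepO p V S s r F α β → (∀ Y ∈ S, G Y = F Y) →
      V.valuation (α' - α) ≤ V.valuation (p : ℂ) → V.valuation (β' - β) ≤ V.valuation (p : ℂ) →
      RepO p V S s r G α' β') ∧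
    (∀ (F G : ℂ → ℂ) (α β α' β' : ℂ), RepO p V S s r F α β → RepO p V S s r G α' β' →
      RepO p V S s r (fun Y => F Y + G Y) (α + α') (β + β')) ∧
    (∀ (F G : ℂ → ℂ) (α β α' β' : ℂ), RepO p V S s r F α β → RepO p V S s r G α' β' →
      RepO p V S s r (fun Y => F Y * G Y) (α * α') (α * β' + α' * β)) ∧
    (∀ (F : ℂ → ℂ) (α β : ℂ), RepO p V S s r F α β → V.valuation α = 1 →
      (∀ Y ∈ S, V.valuation (F Y) = 1) ∧
        RepO p V S s r (fun Y => (F Y)⁻¹) α⁻¹ (-β / α ^ 2)) ∧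
    (∀ (F : ℂ → ℂ) (α β : ℂ), RepO p V S s r F α β → V.valuation α ≤ 1 ∧ V.valuation β ≤ 1 ∧
      ∀ Y ∈ S, V.valuation (F Y - α) < 1) ∧
    ∀ (F : ℂ → ℂ) (α β α' β' : ℂ), RepO p V S s r F α β → RepO p V S s r F α' β' →
      V.valuation (α - α') ≤ V.valuation (p : ℂ) ∧ V.valuation (β - β') ≤ V.valuation (p : ℂ)

/-- (PRO) polynomials, products, quotients and `p`-th powers.

Uses Sb_ALG. PORT of `Pool/Agent/NS/F_PRO.lean`; last part with `p` for `3`: `F = G^p` on `S` is represented by `(α^p, p α^(p-1) β)` (`G` integral: `v α, v β ≤ 1`; induction on the exponent with the product rule of ALG) and by `(α', β')`, so `v(β' - p α^(p-1) β) ≤ v p` (uniqueness). -/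
def Sb_PRO : Prop :=
  ∀ (p : ℕ) (V : ValuationSubring ℂ) (S : Set ℂ) (s r : ℂ → ℂ) (a2 a4 : ℂ),
    PtsO p V S s r a2 a4 →
    (∀ (F : ℂ → ℂ) (α β : ℂ) (P : ℂ[X]), RepO p V S s r F α β → IntP V P →
      RepO p V S s r (fun Y => P.eval (F Y)) (P.eval α) (β * (derivative P).eval α)) ∧
    (∀ (J : Type) [Fintype J] (F : J → ℂ → ℂ) (c l : J → ℂ) (g : J → ℤ),
      (∀ j, RepO p V S s r (F j) (c j) (c j * l j)) → (∀ j, V.valuation (c j) = 1) →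
      V.valuation (∏ j, c j ^ g j) = 1 ∧
      RepO p V S s r (fun Y => ∏ j, F j Y ^ g j) (∏ j, c j ^ g j)
        ((∏ j, c j ^ g j) * ∑ j, (g j : ℂ) * l j)) ∧
    ∀ (F G : ℂ → ℂ) (α β α' β' : ℂ), RepO p V S s r G α β → (∀ Y ∈ S, F Y = G Y ^ p) →
      RepO p V S s r F α' β' → V.valuation β' ≤ V.valuation (p : ℂ)

/-- (PUL) pullback along a map `ρ : S → S'` with `s' ∘ ρ ↦ 0`, `r' ∘ ρ ↦ c ε`.

Uses Sb_ALG, Sb_PRO. PORT of `Pool/Agent/NS/F_PUL.lean`. -/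
def Sb_PUL : Prop :=
  ∀ (p : ℕ) (V : ValuationSubring ℂ) (S S' : Set ℂ) (s r s' r' : ℂ → ℂ) (a2 a4 : ℂ)
    (ρ : ℂ → ℂ) (c : ℂ),
    PtsO p V S s r a2 a4 → (∀ Y ∈ S, ρ Y ∈ S') →
    RepO p V S s r (fun Y => s' (ρ Y)) 0 0 → RepO p V S s r (fun Y => r' (ρ Y)) 0 c →
    ∀ (F : ℂ → ℂ) (α β : ℂ), RepO p V S' s' r' F α β →
      RepO p V S s r (fun Y => F (ρ Y)) α (β * c)

/-! ## The Legendre model -/

/-- (COE) the coefficients.

PORT of `Pool/Agent/NS/F_COE.lean`. `v 2 = 1`: `p = 2 k + 1`, so `v(2 k) = v(p - 1) = 1` and `v 2 ≤ 1`, `v k ≤ 1` (integers are in `V`). `v lam = v(1 - lam) = 1` are fields of `GoodL`; `v(1 + lam) ≤ 1`. -/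
def Sb_COE : Prop :=
  ∀ (p : ℕ) (V : ValuationSubring ℂ) (L : PeriodPair) (u e lam : ℂ), Cp p V →
    GoodL V L u e lam →
    3 * e = -(1 + lam) * u ^ 2 ∧ L.g₂ = 4 * (3 * e ^ 2 - lam * u ^ 4) ∧
    L.g₃ = 4 * e ^ 3 - L.g₂ * e ∧ V.valuation (2 : ℂ) = 1 ∧ V.valuation (1 + lam) ≤ 1 ∧
    (∀ z ∉ L.lattice, yu L u z ^ 2 =
      xu L u e z ^ 3 - (1 + lam) * xu L u e z ^ 2 + lam * xu L u e z) ∧
    (∀ z ∉ L.lattice, HasDerivAt (xu L u e) (2 * u * yu L u z) z) ∧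
    ∀ z, (∀ w ∈ L.lattice, xu L u e (z + w) = xu L u e z ∧ yu L u (z + w) = yu L u z) ∧
      xu L u e (-z) = xu L u e z ∧ yu L u (-z) = -yu L u z

/-- (GRN) good reduction in the sense of `VX.lean`.

Uses Sb_COE. PORT of `Pool/Agent/NS/F_GRN.lean`. The discriminant of `WL lam` is `16 lam² (1 - lam)²`. -/
def Sb_GRN : Prop :=
  ∀ (p : ℕ) (V : ValuationSubring ℂ) (L : PeriodPair) (u e lam : ℂ), Cp p V →
    GoodL V L u e lam → ∃ ξ : ℂ →+ (WL lam).Point, GR V (WL lam) L (xu L u e) (yu L u) ξ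

/-- (LEG) the points of order two.

Uses Sb_COE. PORT of `Pool/Agent/NS/F_LEG.lean`. -/
def Sb_LEG : Prop :=
  ∀ (p : ℕ) (V : ValuationSubring ℂ) (L : PeriodPair) (u e lam : ℂ), Cp p V →
    GoodL V L u e lam →
    ∃ w₁ w₂ : ℂ, 2 * w₁ ∈ L.lattice ∧ w₁ ∉ L.lattice ∧ 2 * w₂ ∈ L.lattice ∧ w₂ ∉ L.lattice ∧
      L.weierstrassP w₁ = e ∧ L.weierstrassP w₂ - L.weierstrassP w₁ = u ^ 2 ∧
      xu L u e w₁ = 0

/-- (TNC) points of order prime to `p`.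

Uses Sb_GRN. PORT of `Pool/Agent/NS/F_TNC.lean`. `v N = 1` (`1 = N a + p b` with integers); `Pool.Agent.MUXV.mem_of_nat_mul`. -/
def Sb_TNC : Prop :=
  ∀ (p : ℕ) (V : ValuationSubring ℂ) (L : PeriodPair) (u e lam : ℂ), Cp p V →
    GoodL V L u e lam →
    ∀ (N : ℕ), ¬ p ∣ N → V.valuation (N : ℂ) = 1 ∧ ∀ z : ℂ, (N : ℂ) * z ∈ L.lattice →
      InK V L (xu L u e) z → z ∈ L.lattice

/-! ## Isogenies -/

/-- (GEN) the multiplier of ANY isogeny and the points of its kernel in the kernel of reduction.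

Uses Sb_GRN, Sb_TNC, Su_BAC, Su_PFI. MODEL `Pool/Agent/NS/F_UNT.lean` (`Sf_UNT`). PROOF. `n` with `n z ∈ L` for all `z` with `μ z ∈ M` (`u_BAC`), `l ≠ l'` two primes greater than `p n`, `w = ω₁/l`, `z = ω₁/l'` (`ω₁` a period of `L`).
`w, z, z ± w`, also multiplied by `n`, are not in `L` and are killed by `l l'`, prime to `p`. (a) For every `q` with `μ q ∈ M`: `w + q`, `z ± q`, `z ± (w + q)` are not in `InK V L`: `n` times it is `≡ n w`, `n z`, `n (z ± w)` modulo `L`, so (`MUXV.inK_nat`) one of these would be in `InK`, so in `L` (TNC): contradiction. In the same way `z`, `w`, `z ± w ∉ InK V L`.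
(b) `μ z, μ w, μ (z ± w) ∉ M` (`n (z ± w) ∉ L` and so on), killed by `l l'`: not in `InK V M` (TNC for `M`). (PFI) in the coordinates (`℘ = u² x + e`, `℘_M = u'² x' + e'`):
`(μ u'/u)² (x'(μ z) - x'(μ w)) ∏_(q ∈ R) (x z - x q) = (x z - x w) ∏_(q ∈ R) (x z - x(w + q))`. The differences `x' - x'`, `x z - x w`, `x z - x(w + q)` are units (`MUXV.v_X_sub`). `x z - x q`: a unit if `q ∉ InK` (and then `v(x q) ≤ 1`, `MUXV.int_X`); if `q ∈ InK`, `q ∉ L`: `v(x q) > 1 ≥ v(x z)`, `v(x z - x q) = v(x q)`.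
In both cases `v(x z - x q) = max 1 (v(x q))`. -/
def Sb_GEN : Prop :=
  ∀ (p : ℕ) (V : ValuationSubring ℂ) (L M : PeriodPair) (u e lam u' e' lam' μ : ℂ), Cp p V →
    GoodL V L u e lam → GoodL V M u' e' lam' → μ ≠ 0 → Isg L M μ →
    ∀ R : Finset ℂ, IsRpM L M μ R →
      V.valuation (μ * u' / u) ^ 2 * ∏ q ∈ R, max 1 (V.valuation (xu L u e q)) = 1

/-- (UNT) the multiplier is a unit, if and only if no point of the kernel is in the kernel of reduction; torsion prime to `p`.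

Uses Sb_GEN, Sb_TNC, Su_BAC. PROOF. `R` from `u_BAC`. (1) `Ker0`: all `q ∈ R` are not in `InK` (`q ∉ L`, `μ q ∈ M`), so `v(x q) ≤ 1` (`MUXV.int_X`), all factors of (GEN) are `1`, `v(..)² = 1`. (2) Conversely if `v(μ u'/u) = 1` then the product of the `max 1 (..) ≥ 1` is `1`, so all are `1`, `v(x q) ≤ 1`, `x q ∈ V`, and `q ∉ InK` for `q ∈ R`
(`q ∉ L`); for `z` with `μ z ∈ M`, `z ∉ L`: `z - q ∈ L` for some `q ∈ R`, `x z = x q`. (3) If `N z ∈ L` for all `z` with `μ z ∈ M`, `p ∤ N`: `Ker0` by (TNC). -/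
def Sb_UNT : Prop :=
  ∀ (p : ℕ) (V : ValuationSubring ℂ) (L M : PeriodPair) (u e lam u' e' lam' μ : ℂ), Cp p V →
    GoodL V L u e lam → GoodL V M u' e' lam' → μ ≠ 0 → Isg L M μ →
    (Ker0 V L M u e μ ↔ V.valuation (μ * u' / u) = 1) ∧
    ∀ N : ℕ, ¬ p ∣ N → (∀ z, μ * z ∈ M.lattice → (N : ℂ) * z ∈ L.lattice) →
      Ker0 V L M u e μ

/-- (RAT) the isogeny as a rational function over `V`.

Uses Sb_COE, Sb_GRN, Sb_TNC, Sb_UNT, Su_BAC, Su_PFI. PORT of `Pool/Agent/NS/F_RAT.lean`, with `Ker0` instead of `¬ 3 ∣ N`. `R` representatives of the nonzero classes of the kernel, `n` its exponent (`u_BAC`), `w = ω₁/l`, `l` a prime greater than `p n`: `w, w + q ∉ InK V L` (`n (w + q) ≡ n w`, killed by `l`, TNC), `q ∉ InK V L` (`Ker0`),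
`μ w ∉ M`, not in `InK V M`. The rest is the same. -/
def Sb_RAT : Prop :=
  ∀ (p : ℕ) (V : ValuationSubring ℂ) (L M : PeriodPair) (u e lam u' e' lam' μ : ℂ), Cp p V →
    GoodL V L u e lam → GoodL V M u' e' lam' → μ ≠ 0 → Isg L M μ → Ker0 V L M u e μ →
    ∃ P Q : ℂ[X], IntP V P ∧ IntP V Q ∧ P.Monic ∧ P.natDegree = Q.natDegree + 1 ∧
      Q.leadingCoeff = (μ * u' / u) ^ 2 ∧ ∀ z, μ * z ∉ M.lattice →
        xu M u' e' (μ * z) * Q.eval (xu L u e z) = P.eval (xu L u e z) ∧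
        (μ * u' / u) * yu M u' (μ * z) * Q.eval (xu L u e z) ^ 2 =
          yu L u z * (derivative P * Q - P * derivative Q).eval (xu L u e z)

/-- (KIS) isogenies of this kind preserve the kernel of reduction and the values there.

Uses Sb_RAT, Sb_UNT. PROOF. `z ∈ InK`, `z ∉ L`: `μ z ∉ M` (`Ker0`), `X = v(x z) > 1`. (RAT): `P` monic of degree `d + 1` over `V`, `Q` of degree `d` over `V` with leading coefficient a unit (UNT): `v(P(x z)) = X^(d+1)`, `v(Q(x z)) = X^d` (the leading term is the largest, `X > 1`). So `v(x'(μ z)) = X > 1`. -/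
def Sb_KIS : Prop :=
  ∀ (p : ℕ) (V : ValuationSubring ℂ) (L M : PeriodPair) (u e lam u' e' lam' μ : ℂ), Cp p V →
    GoodL V L u e lam → GoodL V M u' e' lam' → μ ≠ 0 → Isg L M μ → Ker0 V L M u e μ →
    ∀ z, InK V L (xu L u e) z → z ∉ L.lattice → μ * z ∉ M.lattice ∧
      InK V M (xu M u' e') (μ * z) ∧
      V.valuation (xu M u' e' (μ * z)) = V.valuation (xu L u e z)

/-! ## The prime `P` -/

/-- (CFA) the ideals above `p`.

PROOF. `te_RNG`: `O` is a Dedekind domain with elements `r + s w`; `x star x = nm x`, `x + star x` an integer, `cjI I` is the conjugate ideal. `P ≠ ⊥` (`p ∈ P`, `p ≠ 0`), so `P` is maximal. Norms: `nI` is multiplicative (`Ideal.absNorm`, `Submodule.cardQuot`; see `MUX/E_PA.lean`, `MUX/XLib.lean`), `nI (p) = p²` (`nI_sp`), `nI (cjI P) = nI P ≥ p` (`O/P` is a finite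
field of characteristic `p`, so `nI P` is a power `≥ p` of `p`; `p ≥ 5` gives `n3`). (a) `Q` prime, `p ∈ Q` implies `Q = P` or `Q = cjI P`: for `x ∈ P`: `x star x = nm x ∈ P ∩ ℤ = pℤ`, so `x star x ∈ Q`; if `P` is not contained in `Q` take `x ∈ P ∖ Q`: `star x ∈ Q`; for `y ∈ P`, `(x + y) star(x + y) ∈ Q` gives `x star y + y star x ∈ Q`, so
`x star y ∈ Q`, `star y ∈ Q`: `cjI P ≤ Q`. Both are maximal. (b) `cjI P ≠ P`: `Pc P = cjI P`, `P` and `cjI P` are coprime and contain `p`: `(p) ≤ P cjI P`, the norm of the right side is `≥ p²`: equality (`(p) = P cjI P I`, `nI I = 1`). `p ∉ P²`: otherwise `P² ∣ P cjI P`, `P ∣ cjI P`. So `er = 1`. (c) `cjI P = P`: `Pc P = ⊤` and every prime containing `p` is `P`,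
so `(p) = P^k` (factorisation), `k ≥ 1`, `p² = nI(P)^k`: `k = 1` or `2`, and `p ∈ P²` iff `k = 2` (cancel): `k = er`; `k = 2` gives `nI P = p`. -/
def Sb_CFA : Prop :=
  ∀ (p er : ℕ) (A B : ℤ) (P : Ideal (OO A B)) (V : ValuationSubring ℂ), CaseO p er A B P V →
    P ≠ ⊥ ∧ P.IsMaximal ∧ idl (A := A) (B := B) p = P ^ er * Pc P ∧ Pc P ≠ ⊥ ∧ ¬ Pc P ≤ P ∧
    (er = 2 → nI P = p ∧ Pc P = ⊤) ∧ 3 ≤ nI P ∧
    ∀ Q : Ideal (OO A B), Q.IsPrime → ((p : ℕ) : OO A B) ∈ Q → Q = P ∨ Q = Pc P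

/-- (CAL) a uniformiser `al` of `P` which is prime to the other primes above `p`.

Uses Sb_CFA. PROOF. `π ∈ P ∖ P²` (`P² < P`: Dedekind, `P ≠ ⊥, ⊤`). `P²` and `Pc P` are coprime: `u + v = 1`, `u ∈ P²`, `v ∈ Pc P`; `al = π v + u`: `al - π = (1 - π) u ∈ P²`, and `al - 1 ∈ Pc P` (`al - 1 = (π - 1) v`). So `al ∈ P`, `al ∉ P²`, and if `Pc P ≠ ⊤` (`Pc P = cjI P` is prime) `al ∉ Pc P`. `(al) = P 𝔠` (`P ∣ (al)`), `𝔠` is not contained in `P`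
(otherwise `al ∈ P²`) and not in `Pc P` if this is prime. So `𝔠 + (p) = ⊤` (a maximal ideal containing both would be `P` or `Pc P`: CFA): `1 = c + p t`, `c ∈ 𝔠`. `N := (nm c).natAbs`: `(N : O) = ± c star c ∈ 𝔠`, and `p ∤ N`: `star c = 1 - p star t`, `c star c - 1 ∈ (p)`, so `p ∣ nm c` would give `1 ∈ (p)`. `x ∈ P`: `N x ∈ 𝔠 P = (al)`. -/
def Sb_CAL : Prop :=
  ∀ (p er : ℕ) (A B : ℤ) (P : Ideal (OO A B)) (V : ValuationSubring ℂ), CaseO p er A B P V →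
    ∃ al : OO A B, al ∈ P ∧ al ∉ P ^ 2 ∧
      ∃ N : ℕ, ¬ p ∣ N ∧ ∀ x ∈ P, ∃ y : OO A B, ((N : ℕ) : OO A B) * x = al * y

/-- (CTX) from the hypotheses to `CtxO`.

Uses Sb_CFA, Sb_CAL. PROOF. Models `NS/F_CTX.lean`, `NS/E_CTX.lean`. `v p < 1`: `OverI` for `x = p ∈ P`. `int`: `emb x` is integral over `ℤ`. `unit`: `OverI` and `int`. `nat`: `1 = a n + b p` with integers, so `n ∉ P`. `al` from (CAL). `vP`: `x ∈ P`: `N x = al y`, `v N = 1`, `v(emb x) = v(emb al) v(emb y)`. `alv`: `er = 1`: `p ∈ P` gives `v p ≤ v(al)`;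
conversely `(p) = P Pc P`, choose `c ∈ Pc P ∖ P`: `al c ∈ P Pc P = (p)`, `v(al) = v(al c) ≤ v p`. `er = 2`: `(p) = P² Pc P`, `al² c ∈ (p)`, `v(al)² ≤ v p`; and `p ∈ P²` is a sum of products `x y`, `x, y ∈ P`: `v p ≤ v(al)²` (`vP`; `Submodule.mul_induction_on`). `good`, `iner`: `O_RFIN`. `exq`: `TorX.surj` for `m = ⊤`, `a = P`: `ActI.isq`; `NL` of the new lattice: it is `IsNL`. `ring`: `te_RNG`. -/
def Sb_CTX : Prop :=
  ∀ (p er : ℕ) (A B : ℤ) (P : Ideal (OO A B)) (V : ValuationSubring ℂ), CaseO p er A B P V →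
    TorX A B → O_RFIN → ∃ al : OO A B, CtxO p er A B P V al

/-- (PVL) elements of `O`: multiplication by `x ∉ P`, and the kernel of reduction as an `O`-module.

Uses Sb_UNT, Sb_KIS, Sb_GRN. PROOF. `L` has complex multiplication (`te_TRA`): `Isg L L (emb x)`; `x ≠ 0` gives `emb x ≠ 0` (`RingE.inj0`). (UNT) with `M = L`: `v(emb x u/u) = v(emb x) = 1` (`unit`), so `Ker0`. (2), (3): (KIS). (4) `x ∈ P`: `x = (x + 1) - 1`, `x + 1 ∉ P`: `emb x z = emb (x+1) z - z`, and `InK` is a group (`MUXV.inK_sub`). (5): (1) for some `x ∈ m`, `x ∉ P`. -/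
def Sb_PVL : Prop :=
  ∀ (p er : ℕ) (A B : ℤ) (P : Ideal (OO A B)) (V : ValuationSubring ℂ) (al : OO A B),
    CtxO p er A B P V al → ∀ (L : PeriodPair) (u e lam : ℂ), NL A B L → GoodL V L u e lam →
    (∀ x : OO A B, x ∉ P → Ker0 V L L u e (emb x) ∧
      ∀ z, InK V L (xu L u e) z → z ∉ L.lattice →
        emb x * z ∉ L.lattice ∧ InK V L (xu L u e) (emb x * z) ∧
        V.valuation (xu L u e (emb x * z)) = V.valuation (xu L u e z)) ∧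
    (∀ (x : OO A B) (z : ℂ), InK V L (xu L u e) z → InK V L (xu L u e) (emb x * z)) ∧
    ∀ m : Ideal (OO A B), ¬ m ≤ P → ∀ z, Tor m L z → InK V L (xu L u e) z → z ∈ L.lattice

/-- (PIS) the isogeny `L → N = ν P⁻¹ L`, and the points of `E[P]`. `q = nI P`.

Uses Sb_GRN, Sb_TNC, Sb_GEN, Sb_UNT, Sb_PVL, Su_BAC. PROOF. (1) `κ = emb al/ν : N → L`: `w ∈ N`, `w = ν z`, `emb x z ∈ L` for `x ∈ P` (`IsQ`), so `κ w = emb al z ∈ L`. `Ker0 V N L u' e' κ`: let `w = ν z`, `emb al z ∈ L`; with `alN`: `emb x (N₀ z) = emb y (emb al z) ∈ L` for `x ∈ P`, so `N₀ w ∈ N`, `p ∤ N₀`, and (UNT, last part). So (UNT) `v(κ u/u') = 1`,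
`v(ν u'/u) = v(emb al) < 1` (`OverI`). (2) `R` for `ν : L → N` (`u_BAC`): `{z : ν z ∈ N} = E[P]` (`IsQ`). (GEN): `v(al)² ∏_R max 1 (v(x q)) = 1`, so some `q₀ ∈ R` has `v(x q₀) > 1`, `q₀ ∈ InK`. Every `z ∈ E[P] ∖ L` is `≡ emb x q₀` modulo `L` for some `x` (`te_TRB` (2)), `x ∉ P` as `z ∉ L`: `z ∈ InK`, `v(x z) = v(x q₀) =: T` (PVL). `|R| = q - 1`: the map
`O/P → E[P]/L`, `x ↦ emb x q₀`, is a bijection (injective: `emb x q₀ ∈ L` and `x ∉ P` would give `q₀ ∈ L`), `nI P = Nat.card (O/P)`. So `v(al)² T^(q-1) = 1`, `v(s z)^(q-1) = v(al)²` (`su = 1/x`). -/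
def Sb_PIS : Prop :=
  ∀ (p er : ℕ) (A B : ℤ) (P : Ideal (OO A B)) (V : ValuationSubring ℂ) (al : OO A B),
    CtxO p er A B P V al → ∀ (L N : PeriodPair) (nu u e lam u' e' lam' : ℂ), NL A B L →
      NL A B N → IsQ P L N nu → GoodL V L u e lam → GoodL V N u' e' lam' →
      V.valuation (nu * u' / u) = V.valuation (emb al) ∧
      (∃ R : Finset ℂ, IsRpM L N nu R ∧ R.card + 1 = nI P) ∧
      ∀ z, Tor P L z → z ∉ L.lattice → InK V L (xu L u e) z ∧ xu L u e z ≠ 0 ∧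
        V.valuation (su L u e z) ^ (nI P - 1) = V.valuation (emb al) ^ 2

/-- (TPR) the values of the points of exact order `P^(j+1)`.

Uses Sb_COE, Sb_GRN, Sb_TNC, Sb_PIS, Su_PFI. PORT of `Pool/Agent/NS/F_TPR.lean` (`Sf_TPR`: there `q = 3`, `v(emb al)² = v 3`). PROOF. `q = nI P ≥ 3`. Induction on `j`, for all lattices; `j = 0` is (PIS) (`Tor (P^0) L z` iff `z ∈ L`). Step: `Tor (P^(j+2)) L z`, not `Tor (P^(j+1)) L z`. `N`, `ν` (`exq`), `u', e', lam'` (`good`), `z' = ν z`: `Tor (P^(j+1)) N z'`, not `Tor (P^j) N z'`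
(`IsQ`), so by induction `Y = v(x' z') > 1`, `Y^((q-1) q^j) v(al)² = 1`. `R`, `|R| = q - 1` (PIS), `T = v(x q)` for `q ∈ R`, `T > 1`, `T^(q-1) v(al)² = 1`, so `T = Y^(q^j) ≥ Y`. `w = ω₁/l`, `l` a prime greater than `p` and than the exponent of the kernel (or `w = ω₁/2`, `q` is odd): `w, w + q ∉ InK V L`, `ν w ∉ InK V N`. (PFI):
`(ν u'/u)² (x'(z') - x'(ν w)) ∏_R (x z - x q) = (x z - x w) ∏_R (x z - x(w + q))`, `v(ν u'/u)² = v(al)²`. If `x z ∈ V`: the left side has valuation `v(al)² Y T^(q-1) = Y > 1`, the right side `≤ 1`. So `X = v(x z) > 1`, the right side has valuation `X^q`. If `X > T`: `v(al)² Y X^(q-1) = X^q`, `X = v(al)² Y < Y ≤ T`. If `X = T`: `T^q ≤ v(al)² Y T^(q-1) = Y ≤ T`,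
but `T^q > T`. So `X < T`, `X^q = v(al)² Y T^(q-1) = Y`. (`x z ≠ 0`, `su = 1/x`.) -/
def Sb_TPR : Prop :=
  ∀ (p er : ℕ) (A B : ℤ) (P : Ideal (OO A B)) (V : ValuationSubring ℂ) (al : OO A B),
    CtxO p er A B P V al → ∀ (j : ℕ) (L : PeriodPair) (u e lam : ℂ), NL A B L →
      GoodL V L u e lam → ∀ z, Tor (P ^ (j + 1)) L z → ¬ Tor (P ^ j) L z →
        InK V L (xu L u e) z ∧ xu L u e z ≠ 0 ∧
          V.valuation (su L u e z) ^ ((nI P - 1) * nI P ^ j) = V.valuation (emb al) ^ 2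

/-- (PTS) the points of `E[P^er]` satisfy `PtsO`.

Uses Sb_COE, Sb_GRN, Sb_TNC, Sb_GEN, Sb_PVL, Sb_TPR. PROOF. Model `NS/F_PTS.lean` for `eq`, `neg`, `fin` and the last part. `er = 1` or `2`. `vs`: `Y ∈ SP`: `Tor P L Y`, not `Tor (P^0)` (`= L`), or `er = 2` and not `Tor P L Y`: (TPR) with `j = 0` or `1`: `Y ∈ InK`, `x Y ∉ V`, `v(s Y) < 1`. `big`: let `H` be a half system of `L` for `a = p` (`b_HAL`, `p` odd: `p z, 2 z ∈ L` gives `z ∈ L`),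
`R = H ∪ -H` (`b_HRE`; `IsReps L p R` is `IsRpM L L p R`), `q ∈ H` and `-q` have the same `x`. (GEN) for `μ = p`, `M = L`, `u' = u`: `v(p)² ∏_H (max 1 (v(x q)))² = 1`, so `v(p) ∏_H max 1 (v(x q)) = 1` (squares). `T = {q ∈ H : q ∈ InK}`: `v(p) ∏_T v(x q) = 1`, `v(∏_T s q) = v p`. `T ⊆ SP`: `q ∈ T`, `p q ∈ L`, `x ∈ P^er`: for `c ∈ Pc P`:
`emb c (emb x q) ∈ L` (`x c ∈ (p)`: `fac`), so `Tor (Pc P) L (emb x q)`, `emb x q ∈ InK` (PVL (2)), so `emb x q ∈ L` (PVL (3), `cnl`); `q ∉ L` (`2 q ∉ L`). Different `q, q' ∈ H` have different `℘` (`b_NEQ`: `q ≢ ± q'`: `IsHalf.inj`, `neg`), so different `s` (`x q ≠ 0` on `T`). `y` : an enumeration of `T` (`Finset.equivFin`). `fin`: `Y ∈ SP` has `p Y ∈ L` (`p ∈ P^er`: `fac`), finitely many classes. -/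
def Sb_PTS : Prop :=
  ∀ (p er : ℕ) (A B : ℤ) (P : Ideal (OO A B)) (V : ValuationSubring ℂ) (al : OO A B),
    CtxO p er A B P V al → ∀ (L : PeriodPair) (u e lam : ℂ), NL A B L → GoodL V L u e lam →
      PtsO p V (SP P er L) (su L u e) (ru L u e) (-(1 + lam)) lam ∧
      (∀ Y ∈ SP P er L, InK V L (xu L u e) Y ∧ xu L u e Y ≠ 0) ∧
      ∀ Y ∈ SP P er L, ∀ w ∈ L.lattice, Y + w ∈ SP P er L ∧
        su L u e (Y + w) = su L u e Y ∧ ru L u e (Y + w) = ru L u e Y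

/-- (ADD) addition of a point of `SP`.

Uses Sb_ALG, Sb_COE, Sb_GRN, Sb_PTS. PORT of `Pool/Agent/NS/F_ADD.lean` (`Se_ADD`, `Sf_ADD`). -/
def Sb_ADD : Prop :=
  ∀ (p er : ℕ) (A B : ℤ) (P : Ideal (OO A B)) (V : ValuationSubring ℂ) (al : OO A B),
    CtxO p er A B P V al → ∀ (L : PeriodPair) (u e lam : ℂ), NL A B L → GoodL V L u e lam →
      ∀ z, ¬ InK V L (xu L u e) z →
        RepO p V (SP P er L) (su L u e) (ru L u e) (fun Y => xu L u e (z + Y)) (xu L u e z)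
          (2 * yu L u z)

/-- (ISO) the isogeny on the points of `SP`.

Uses Sb_ALG, Sb_PRO, Sb_PTS, Sb_UNT, Sb_RAT. PORT of `Pool/Agent/NS/F_ISO.lean`. `Y ∈ SP P er L`: `x ∈ P^er`: `emb x (μ Y) = μ (emb x Y) ∈ M`; `μ Y ∈ M` would give `Y ∈ L` (`Ker0`, `Y ∈ InK`: PTS). The rest is the same (`ν = μ u'/u` is a unit: UNT). -/
def Sb_ISO : Prop :=
  ∀ (p er : ℕ) (A B : ℤ) (P : Ideal (OO A B)) (V : ValuationSubring ℂ) (al : OO A B),
    CtxO p er A B P V al → ∀ (L M : PeriodPair) (u e lam u' e' lam' μ : ℂ), NL A B L →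
    NL A B M → GoodL V L u e lam → GoodL V M u' e' lam' → μ ≠ 0 → Isg L M μ →
    Ker0 V L M u e μ →
    (∀ Y ∈ SP P er L, μ * Y ∈ SP P er M) ∧
    RepO p V (SP P er L) (su L u e) (ru L u e) (fun Y => su M u' e' (μ * Y)) 0 0 ∧
    RepO p V (SP P er L) (su L u e) (ru L u e) (fun Y => ru M u' e' (μ * Y)) 0 (μ * u' / u)

/-- (THN) the functions `Θ_a(z + μ Y)`, `Y ∈ SP P er L`, on the lattice `M`.

Uses Sb_ALG, Sb_PRO, Sb_PUL, Sb_GRN, Sb_ISO, Sb_ADD, Sb_PTS. PORT of `Pool/Agent/NS/F_THN.lean`. -/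
def Sb_THN : Prop :=
  ∀ (p er : ℕ) (A B : ℤ) (P : Ideal (OO A B)) (V : ValuationSubring ℂ) (al : OO A B),
    CtxO p er A B P V al → ∀ (L M : PeriodPair) (u e lam u' e' lam' μ : ℂ), NL A B L →
    NL A B M → GoodL V L u e lam → GoodL V M u' e' lam' → μ ≠ 0 → Isg L M μ →
    Ker0 V L M u e μ →
    ∀ (a : ℕ) (H : Finset ℂ), a ≠ 0 → IsHalf M (a : ℂ) H → ∀ z, ¬ InK V M (xu M u' e') z →
      (a : ℂ) * z ∉ M.lattice →
      (∀ q ∈ H, ¬ InK V M (xu M u' e') q ∧ ¬ InK V M (xu M u' e') (z + q) ∧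
        ¬ InK V M (xu M u' e') (z - q)) →
      V.valuation (ThetaH M H z) = V.valuation (u' ^ 2) ^ H.card ∧
      V.valuation (μ * dlX M a z / u) ≤ 1 ∧
      RepO p V (SP P er L) (su L u e) (ru L u e)
        (fun Y => ThetaH M H (z + μ * Y) / ThetaH M H z) 1 (μ * dlX M a z / u)

/-- (NE1) points whose order is divisible by `f` are not in the kernel of reduction.

Uses Sb_GRN, Sb_TNC. PORT of `Pool/Agent/NS/F_NE1.lean` (`Sf_NE1`). -/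
def Sb_NE1 : Prop :=
  ∀ (p : ℕ) (V : ValuationSubring ℂ) (L : PeriodPair) (u e lam : ℂ), Cp p V →
    GoodL V L u e lam → ∀ (j f a : ℕ), 2 ≤ f → ¬ p ∣ f → ¬ p ∣ a → a.Coprime f →
      ∀ z : ℂ, ((p ^ j * f : ℕ) : ℂ) * z ∈ L.lattice →
        (∀ c : ℕ, (c : ℂ) * z ∈ L.lattice → f ∣ c) →
        ¬ InK V L (xu L u e) z ∧ (a : ℂ) * z ∉ L.lattice ∧
        ∀ q : ℂ, (a : ℂ) * q ∈ L.lattice → q ∉ L.lattice → ¬ InK V L (xu L u e) q ∧
          ¬ InK V L (xu L u e) (z + q) ∧ ¬ InK V L (xu L u e) (z - q)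

/-! ## The fields -/

/-- the part of the level `f p^(n+1)` which is prime to `P` -/
def lv0 {A B : ℤ} (P : Ideal (OO A B)) (f n : ℕ) : Ideal (OO A B) :=
  idl (A := A) (B := B) f * Pc P ^ (n + 1)

/-- (IDL) the level `(f p^(n+1)) = P^(er (n+1)) · lv0`.

PROOF. `(p)^(n+1) = P^(er (n+1)) (Pc P)^(n+1)` (`fac`, `Ideal.span_singleton_pow`, `mul_pow`, `pow_mul`). `lv0` is not contained in `P` (`P` prime: `f ∉ P` by `nat`, `cnl`). Coprime: `P` maximal, `Ideal.IsMaximal.coprime..`/`IsCoprime.pow_left`. Fourth: `p^n y ∈ P^(er n) (Pc P)^n Pc P`. Fifth: `lv0 ≤ idl f`. Sixth: `c ≡ 1` modulo `p`, `f`, `a`: coprime to each. Last: `lvX p f n = f * p * p^n` for `p ≠ 2` (`q0`). -/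
def Sb_IDL : Prop :=
  ∀ (p er : ℕ) (A B : ℤ) (P : Ideal (OO A B)) (V : ValuationSubring ℂ) (al : OO A B),
    CtxO p er A B P V al → ∀ (f n : ℕ), f ≠ 0 → ¬ p ∣ f →
      idl (A := A) (B := B) (p ^ (n + 1) * f) = P ^ (er * (n + 1)) * lv0 P f n ∧
      lv0 P f n ≠ ⊥ ∧ ¬ lv0 P f n ≤ P ∧ IsCoprime (P ^ (er * (n + 1))) (lv0 P f n) ∧
      (∀ y ∈ Pc P, ((p ^ n * f : ℕ) : OO A B) * y ∈ lv0 P f n) ∧
      lv0 P f n ≤ idl (A := A) (B := B) f ∧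
      (∀ (a : ℕ) (y : OO A B), a ≠ 0 → 1 ≤ n →
        IsCoprime (1 + ((p ^ n * f * a : ℕ) : OO A B) * y) ((p ^ (n + 1) * f * a : ℕ) : OO A B)) ∧
      lvX p f n = p ^ (n + 1) * f

/-- (UNR) `RF m'` is unramified over `k` at `V` if `m'` is not contained in `P`.

PROOF. `Pool.Agent.NSR.tr_RAM` (`NS/RN_RAM.lean`, `Sr_RAM`) with `ϖ = al`. `F = RF m'` (finite, Galois: `TorX`). `σ ∈ Gal(F/k)` in the inertia group: extend it to `s ∈ Aut(ℂ)`, `FixK` (`TorX.ext`; see `Pool/Agent/NS/F_UNR.lean`); `CtxO.iner`: `s y = y` for all `y ∈ F`, so `σ = 1`. MODEL `NS/F_UNR.lean`. -/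
def Sb_UNR : Prop :=
  ∀ (p er : ℕ) (A B : ℤ) (P : Ideal (OO A B)) (V : ValuationSubring ℂ) (al : OO A B),
    CtxO p er A B P V al → TorX A B →
    ∀ m' : Ideal (OO A B), m' ≠ ⊥ → ¬ m' ≤ P → ∀ y ∈ RF m', y ≠ 0 →
      ∃ k : ℤ, V.valuation y = V.valuation (emb al) ^ k

/-- (DEG) the degree of `RF (P^(j+1) m')` over `RF m'`.

PROOF. Models `MUX/E_DEG.lean` (`te_DEG` for `nI P = p`, the same ideals), `NS/F_DEG.lean`. `σ ∈ Gal(RF (P^(j+1) m')/k)` trivial on `RF m'` acts as some `α` with `α - 1 ∈ m'` (`GalE.ker`), `α ∉ P` (coprime); `σ` is determined by the class of `α` modulo `P^(j+1)` (if `α ≡ α'` modulo `P^(j+1)` and modulo `m'`, then modulo `P^(j+1) m'`, coprime; `te_FAC`). The number of classes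
modulo `P^(j+1)` of elements outside `P` is `q^(j+1) - q^j = (q - 1) q^j`, `q = nI P`: `O/P^(j+1)` has `q^(j+1)` elements (`nI` is multiplicative: `Ideal.absNorm`, `Submodule.cardQuot`), and `P/P^(j+1)` has `q^j` elements. -/
def Sb_DEG : Prop :=
  ∀ (p er : ℕ) (A B : ℤ) (P : Ideal (OO A B)) (V : ValuationSubring ℂ) (al : OO A B),
    CtxO p er A B P V al → GalE A B → ∀ (j : ℕ) (m' : Ideal (OO A B)), m' ≠ ⊥ → ¬ m' ≤ P →
      Module.finrank (kk A B) (RF (P ^ (j + 1) * m')) ≤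
        ((nI P - 1) * nI P ^ j) * Module.finrank (kk A B) (RF m')

/-- (UNI) a uniformiser of `RF (P^(J+1) m')` over `RF m'`, from a point `z₁` with annihilator `P^(J+1) m₁`, `m' ≤ m₁`.

Uses Sb_COE, Sb_GRN, Sb_LEG, Sb_PVL, Sb_TPR, Sb_UNR, Sb_DEG, `Pool.Agent.NSE.te_BAS` (`NS/E_BAS.lean`). MODEL `NS/F_UNI.lean`. PROOF. `1 = s + t`, `s ∈ P^(J+1)`, `t ∈ m₁` (coprime: `P` is maximal, `m₁` is not contained in `P`). `P₀ = emb s z₁`, `P₁ = emb t z₁`, `z₁ = P₀ + P₁`. `Tor m₁ L P₀` (`m₁ s ⊆ m₁ P^(J+1)`), `Tor (P^(J+1)) L P₁`, not `Tor (P^J) L P₁`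
(`x ∈ P^J ∖ P^(J+1)`: `x t ∈ P^(J+1) m₁` would give `x t ∈ P^(J+1)`, `t ≡ 1`). `2 P₀ ∈ L` gives `2 s ∈ P^(J+1) m₁ ≤ idl f`, `s ≡ 1` modulo `m₁ ≤ idl f`, so `2 ∈ idl f`, `f ∣ 2`, contradiction to `f ≥ 3`; so `P₀, 2 P₀ ∉ L`, and not in `InK` (PVL (3), `Tor m₁`). `z₁ = P₀ + P₁ ∉ InK` (`P₁ ∈ InK` by TPR). `v(s P₁)^((q-1) q^J) = v(al)²` (TPR), `v(t P₁)² = v(s P₁)`
(`MUXV.v_tX_lt`), `v(y P₀) = 1` (`Pool.Agent.MU3.Val.v_y_unit` with `inE_iff`, as in `F_UNI.lean`), `π = x(z₁) - x(P₀)`, `v π = v(t P₁)` (`MUXV.near`), so `v(π)^((q-1) q^J) = v(al)` (square roots). `e, u² ∈ RF (2)` (LEG: `e = ℘ w₁`, `u² = ℘ w₂ - ℘ w₁`), `RF (2) ≤ RF m'` (`m' ≤ m₁ ≤ idl f ≤ idl 2`), `x(P₀) ∈ RF m'`, `π ∈ RF (P^(J+1) m')` (`te_FAC`).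
(BAS) with `p := emb al`, `N = (q - 1) q^J`, `M₀ = RF m'` (UNR: values `v(al)^ℤ`), `M = RF (P^(J+1) m')` (DEG). -/
def Sb_UNI : Prop :=
  ∀ (p er : ℕ) (A B : ℤ) (P : Ideal (OO A B)) (V : ValuationSubring ℂ) (al : OO A B),
    CtxO p er A B P V al → TorX A B → GalE A B → ∀ (L : PeriodPair) (u e lam : ℂ), NL A B L →
    GoodL V L u e lam → ∀ (J f : ℕ) (m₁ m' : Ideal (OO A B)), 3 ≤ f → 2 ∣ f → m' ≤ m₁ →
    m₁ ≤ idl (A := A) (B := B) f → m' ≠ ⊥ → ¬ m' ≤ P → ∀ z₁ : ℂ, Ann (P ^ (J + 1) * m₁) L z₁ →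
    ∃ P₀ : ℂ, Tor m₁ L P₀ ∧ P₀ ∉ L.lattice ∧ ¬ InK V L (xu L u e) P₀ ∧
      ¬ InK V L (xu L u e) z₁ ∧ u ^ 2 ∈ RF m' ∧ e ∈ RF m' ∧ xu L u e P₀ ∈ RF m' ∧
      xu L u e z₁ - xu L u e P₀ ∈ RF (P ^ (J + 1) * m') ∧
      ∀ w ∈ RF (P ^ (J + 1) * m'), V.valuation w ≤ 1 →
        ∃ c : Fin ((nI P - 1) * nI P ^ J) → RF m',
          (∀ i, V.valuation (c i : ℂ) ≤ 1) ∧
          w = ∑ i, (c i : ℂ) * (xu L u e z₁ - xu L u e P₀) ^ (i : ℕ)

/-- (SIG) `Y ↦ σ_Y(w)` for `w` in the ray class field, `σ_Y(z₁) = z₁ + Y`.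

Uses Sb_ALG, Sb_PRO, Sb_PTS, Sb_ADD, Sb_UNI. MODEL `NS/F_SIG.lean`, `NS/E_SIG.lean` (second half). PROOF. (UNI): `w = Σ c_i π^i`, `F Y = Σ c_i (x(z₁ + Y) - x(P₀))^i`: a polynomial over `V` in `x(z₁ + Y)` (`v(x P₀) ≤ 1`), represented by `(w, β)` (ADD, PRO (1)). `σ` acts trivially on `RF m'` (`te_FAC`; `c - 1 ∈ m'`), so on `c_i`, `e`, `u²`, `x(P₀)`, and
`σ(xn z₁) = xn (emb c z₁) = xn (z₁ + emb (c - 1) z₁)` (`Tor (P^(J+1) m') L z₁`). -/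
def Sb_SIG : Prop :=
  ∀ (p er : ℕ) (A B : ℤ) (P : Ideal (OO A B)) (V : ValuationSubring ℂ) (al : OO A B),
    CtxO p er A B P V al → TorX A B → GalE A B → ∀ (L : PeriodPair) (u e lam : ℂ), NL A B L →
    GoodL V L u e lam → ∀ (J f : ℕ) (m₁ m' : Ideal (OO A B)), 3 ≤ f → 2 ∣ f → m' ≤ m₁ →
    m₁ ≤ idl (A := A) (B := B) f → m' ≠ ⊥ → ¬ m' ≤ P → ∀ z₁ : ℂ, Ann (P ^ (J + 1) * m₁) L z₁ →
    ∀ w ∈ RF (P ^ (J + 1) * m'), V.valuation w ≤ 1 →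
    ∃ (F : ℂ → ℂ) (β : ℂ), V.valuation β ≤ 1 ∧
      RepO p V (SP P er L) (su L u e) (ru L u e) F w β ∧
      ∀ (c : OO A B), c - 1 ∈ m' →
      ∀ (σ : RF (P ^ (J + 1) * m') ≃ₐ[kk A B] RF (P ^ (J + 1) * m')),
      ActE (_root_.Pool.Agent.MU3A.em σ) (P ^ (J + 1) * m') c →
      ∀ hw : w ∈ RF (P ^ (J + 1) * m'), (σ ⟨w, hw⟩ : ℂ) = F (emb (c - 1) * z₁)

/-! ## The points -/

/-- (EXO) exact orders of the points of level `m = p^(n+1) f`.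

PROOF. Model `NS/F_EXO.lean`. `te_PT te_TRA`: `pt R m i x = μ_i (emb x (om_0/m))`; `emb c * pt` is in `L_i` iff `emb (c x) (om_0/m) ∈ L_0` iff `m ∣ c x` iff `m ∣ c` (`x` prime to `m`). Second: `emb c (om_0/m) = emb c pt R m i0 1`. Third: `Y = emb y (a om_0/p)`, `y ∈ Pc P`: `P^er y ⊆ (p)` (`fac`), so `Tor (P^er)`. Conversely let `Tor (P^er) L_0 Y`: `p Y ∈ L_0` (`p ∈ P^er`),
`Y = om_0 emb b'/p`, `b' P^er ⊆ (p) = P^er Pc P`, so `b' ∈ Pc P` (cancel `P^er`, Dedekind; `emb` injective). With `a a' ≡ 1` modulo `p` (integers, `p ∤ a`): `y = a' b' ∈ Pc P`, `emb y (a om_0/p) - Y = om_0 emb((a a' - 1) b')/p ∈ L_0`. Last: `f ∣ c` for natural numbers `c` with `c (z + q) ∈ L_i`, `q ∈ E[P]`: `p q ∈ L_i`, so `p c z ∈ L_i`, `p^(n+1) f ∣ p c`. -/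
def Sb_EXO : Prop :=
  ∀ (p er : ℕ) (A B : ℤ) (P : Ideal (OO A B)) (V : ValuationSubring ℂ) (al : OO A B),
    CtxO p er A B P V al → ∀ (n f : ℕ) (ι : Type) (R : Reps A B (p * f) ι), f ≠ 0 → ¬ p ∣ f →
      (∀ (i : ι) (x : OO A B), IsCoprime x ((p ^ (n + 1) * f : ℕ) : OO A B) →
        Ann (idl (A := A) (B := B) (p ^ (n + 1) * f)) (R.L i) (pt R (p ^ (n + 1) * f) i x) ∧
        pt R (p ^ (n + 1) * f) i x =
          muX R i * emb x * (R.om R.i0 / (p ^ (n + 1) * f : ℕ)) ∧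
        ∀ q : ℂ, (p : ℂ) * q ∈ (R.L i).lattice →
          ((p ^ (n + 1) * f : ℕ) : ℂ) * (pt R (p ^ (n + 1) * f) i x + q) ∈ (R.L i).lattice ∧
          ∀ c : ℕ, (c : ℂ) * (pt R (p ^ (n + 1) * f) i x + q) ∈ (R.L i).lattice → f ∣ c) ∧
      Ann (idl (A := A) (B := B) (p ^ (n + 1) * f)) (R.L R.i0)
        (R.om R.i0 / (p ^ (n + 1) * f : ℕ)) ∧
      (∀ a : ℕ, ¬ p ∣ a →
        (∀ y ∈ Pc P, y ∉ idl (A := A) (B := B) p →
          emb y * (a * R.om R.i0 / p) ∈ SP P er (R.L R.i0)) ∧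
        ∀ Y ∈ SP P er (R.L R.i0), ∃ y ∈ Pc P, y ∉ idl (A := A) (B := B) p ∧
          emb y * (a * R.om R.i0 / p) - Y ∈ (R.L R.i0).lattice)

/-- (MUL) the isogenies `μ_i x : L_(i0) → L_i` have degree prime to `p`.

PORT of `Pool/Agent/NS/E_MUL.lean`. PROOF. `μ = μ_i emb x`, `μ_i = om_i N(b_i)/om_0`, `L_0 = om_0 emb O`, `L_i = om_i emb b_i`; `N(b_i) ∈ b_i`: `μ L_0 ⊆ L_i` (`te_PT`). `μ z ∈ L_i`: `emb x N(b_i) z/om_0 ∈ emb b_i ⊆ emb O`; multiply by `star x`: `nm x · N(b_i) z ∈ L_0`. `N = (nm x).natAbs * nI (R.b i)`; `p ∤ N`: `x` is prime to `n`, `p ∣ n`: `x y + p t = 1`, so `nm x nm y ≡ 1` modulo `p`; `R.cop`, `p ∣ n`. -/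
def Sb_MUL : Prop :=
  ∀ (p : ℕ) (A B : ℤ), p.Prime → RingE A B → ∀ (n : ℕ) (ι : Type) (R : Reps A B n ι),
    n ≠ 0 → p ∣ n → ∀ (i : ι) (x : OO A B), IsCoprime x ((n : ℕ) : OO A B) →
      muX R i * emb x ≠ 0 ∧ Isg (R.L R.i0) (R.L i) (muX R i * emb x) ∧
      ∃ N : ℕ, ¬ p ∣ N ∧ ∀ z, muX R i * emb x * z ∈ (R.L i).lattice →
        (N : ℂ) * z ∈ (R.L R.i0).lattice

/-- (DSM) the distribution relation of `e = E₁*` for an isogeny `μ : L → M`.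

PROOF. `Pool/Agent/MU3/B_DIS.lean` (`St_DIS`, there `M = L`) word for word with two lattices: (INT) (`b_INT` or the statement used there) for `L` with `c = 1`: the sum over the classes `0` and `q ∈ R` and over `w ∈ L` of `conj (z + q + w) exp (-t |z + q + w|²)` is the sum over all `v ∈ μ⁻¹ M` (the map `(q, w) ↦ μ (q + w)` is a bijection `(R ∪ {0}) × L → M` by `IsRpM`); with `v = w'/μ`,
`w' ∈ M`: `conj (z + w'/μ) = conj (μ z + w')/conj μ`, `|z + w'/μ|² = |μ z + w'|²/|μ|²`, so the integral is `e_M(μ z) |μ|²/conj μ = μ e_M(μ z)` by (INT) for `M` with `c = 1/|μ|²`. -/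
def Sb_DSM : Prop :=
  ∀ (L M : PeriodPair) (μ : ℂ) (R : Finset ℂ), μ ≠ 0 → Isg L M μ → IsRpM L M μ R →
    ∀ z, ee L z + ∑ q ∈ R, ee L (z + q) = μ * ee M (μ * z)

/-- (INN) integrality of the logarithmic derivatives; `er = 2`: the sums over `E[P]`.

Uses Sb_THN, Sb_NE1, Sb_EXO, Sb_MUL, Sb_UNT, Sb_PIS, Sb_DSM. PROOF. Model `NS/F_INN.lean`. `m = p^(n+1) f`, `z = pt R m i x`, `z' = z + q`, `p q ∈ L_i`: `m z' ∈ L_i`, `c z' ∈ L_i` implies `f ∣ c` (EXO), so (NE1) applies to `z'` and (THN) with `μ = μ_i emb x : L_0 → L_i` (`Ker0`: MUL, UNT), `v(emb x) = 1` (`x` is prime to `p`, so `x ∉ P`): the first two claims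
(half systems `H` of `L_i` for odd `a` exist: `b_HAL`). Third, `er = 2`, `nI P = p`: `N = ν P⁻¹ L_i` (`exq`, `good`: `u_N`), `q ∈ E[P] ∖ L_i`: the points `t q`, `0 < t < p`, are representatives of the nonzero classes of `E[P]/L_i` (`te_TRB` (2): every point of `E[P]` is `≡ emb x q`; `O/P` has `p` elements, represented by `0, .., p-1`; `t q ∈ L_i` with `0 < t < p`
would give `q ∈ L_i`). `dlX L a z = a e(a z) - a² e(z)`; (DSM) for `z` and for `a z` (multiplication by `a` permutes the classes of `E[P]`, `p ∤ a`; `e` is periodic: `b_PER`): `Σ_(t<p) dlX L_i a (z + t q) = ν dlX N a (ν z)`. `ν z` on `N`: `m ν z ∈ N`, and `c ν z ∈ N` implies `p c z ∈ L_i` (`p ∈ P`), `f ∣ c`: (NE1), (THN) for `μ = 1 : N → N`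
give `v(dlX N a (ν z)/u_N) ≤ 1`. `v(ν u_N/u_i) = v(al)` (PIS), `v(μ_i u_i/u) = 1` (UNT with `x = 1`, MUL). -/
def Sb_INN : Prop :=
  ∀ (p er : ℕ) (A B : ℤ) (P : Ideal (OO A B)) (V : ValuationSubring ℂ) (al : OO A B),
    CtxO p er A B P V al → ∀ (n f a : ℕ), 2 ≤ f → ¬ p ∣ f → 3 ≤ a → Odd a → ¬ p ∣ a →
    a.Coprime f →
    ∀ (ι : Type) (R : Reps A B (p * f) ι) (u e lam : ℂ), GoodL V (R.L R.i0) u e lam →
    ∀ (i : ι) (x : OO A B), IsCoprime x ((p ^ (n + 1) * f : ℕ) : OO A B) →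
      (∀ H : Finset ℂ, IsHalf (R.L i) (a : ℂ) H → ∀ ui ei lami : ℂ,
        GoodL V (R.L i) ui ei lami → V.valuation (ThetaH (R.L i) H
          (pt R (p ^ (n + 1) * f) i x)) = V.valuation (ui ^ 2) ^ H.card) ∧
      V.valuation (muX R i * dlX (R.L i) a (pt R (p ^ (n + 1) * f) i x) / u) ≤ 1 ∧
      (er = 2 → ∀ q : ℂ, Tor P (R.L i) q → q ∉ (R.L i).lattice →
        V.valuation (muX R i * (∑ t ∈ Finset.range p,
          dlX (R.L i) a (pt R (p ^ (n + 1) * f) i x + t * q)) / u) ≤ V.valuation (emb al))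

/-! ## The result -/

/-- (ONE) Lemma E, for products over arbitrary finite families of points `(i, x)`, weights `emb x`.

Uses Sb_ALG, Sb_PRO, Sb_COE, Sb_LEG, Sb_PTS, Sb_THN, Sb_IDL, Sb_UNR, Sb_SIG, Sb_NE1, Sb_EXO, Sb_MUL, Sb_UNT, Sb_INN. PROOF. (Model: `NS/E_ONE.lean`.) `m = p^(n+1) f`, `L_0 = R.L R.i0`, `z₁ = om_0/m` (`Ann (m)`: EXO), `er (n+1) = J + 1`, `m₁ = lv0 P f n`, `m' = lv0 P (f a) n ≤ m₁` (not `≤ P`, `p ∤ a`), `(m a) = P^(J+1) m'` (IDL), `M = RF (m a)`. Models `u_i, e_i, lam_i` of `L_i` (`good`).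
(1) `z = pt R m i x` for `(i, x) ∈ X j`: `v(Θ(z)) = v(u_i²)^|H_i|` (INN), `|H_i| = (a² - 1)/2` (`b_HRE`: `2 |H| + 1 = a²`) is divisible by `p` (`p ∣ a - 1`, `p` odd), `v(u_i²) ∈ v(al)^ℤ` (LEG: `u_i² = xn w₂ - xn w₁ ∈ RF (2)`, `2 ∉ P`; UNR with `m' = idl 2`). So `v(W) = v(al)^(p K)` for `W = ∏_j (∏ Θ)^(g_j) = y^p`, `v y = v(al)^K`, `w = y/emb(al)^K ∈ RF (m) ≤ M`, `v w = 1`.
(2) For `b ∈ Pc P`, `b ∉ (p)`: `c_b = 1 + p^n f a b` is prime to `m a` and `c_b - 1 ∈ m'` (IDL for `f a`), `σ_b` with `ActE (em σ_b) (m a) c_b` (`GalE.sur`). (SIG) for `L_0`, `z₁`, `w`: `F`, `β`. `Y_b = emb (c_b - 1) z₁ = emb b (a om_0/p) ∈ SP`, and every `Y ∈ SP` is congruent to some `Y_b` modulo `L_0` (EXO); all functions below are periodic (PTS: they are functions of `(s Y, r Y)`).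
(3) (`te_GTH`): `σ_b(Θ(z)) = Θ(emb c_b z) = Θ(z + μ Y_b)`, `μ = muX i emb x` (EXO). So for `G_(j,y)(Y) = Θ(z + μ Y)/Θ(z)` (THN with `NE1`, `Ker0` from MUL, UNT: represented by `(1, μ dlX/u)`): `∏_j (∏_y G)^(g_j) (Y_b) = σ_b W/W = (σ_b w/w)^p = (F(Y_b)/w)^p` (`emb al ∈ k`). The left side is represented by `(1, S')`, `S' = Σ_j g_j Σ_y emb(x) muX i dlX/u` (PRO (2)),
`F/w` by `(1, β/w)`; (PRO (3)): `v(S') ≤ v p`. -/
def Sb_ONE : Prop :=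
  ∀ (p er : ℕ) (A B : ℤ) (P : Ideal (OO A B)) (V : ValuationSubring ℂ) (al : OO A B),
    CtxO p er A B P V al → TorX A B → GalE A B →
    ∀ (n f a : ℕ), 1 ≤ n → 3 ≤ f → 2 ∣ f → ¬ p ∣ f → 3 ≤ a → Odd a → p ∣ a - 1 →
    a.Coprime f →
    ∀ (ι : Type) (R : Reps A B (p * f) ι) (u e lam : ℂ), GoodL V (R.L R.i0) u e lam →
    ∀ (H : ι → Finset ℂ), (∀ i, IsHalf (R.L i) (a : ℂ) (H i)) →
    ∀ (J : Type) [Fintype J] (X : J → Finset (ι × OO A B)) (g : J → ℤ),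
      (∀ j, ∀ y ∈ X j, IsCoprime y.2 ((p ^ (n + 1) * f : ℕ) : OO A B)) →
      (∃ y ∈ RF (idl (A := A) (B := B) (p ^ (n + 1) * f)), y ^ p =
        ∏ j, (∏ y ∈ X j, ThetaH (R.L y.1) (H y.1) (pt R (p ^ (n + 1) * f) y.1 y.2)) ^ g j) →
      V.valuation ((∑ j, (g j : ℂ) * ∑ y ∈ X j, emb y.2 * muX R y.1 *
        dlX (R.L y.1) a (pt R (p ^ (n + 1) * f) y.1 y.2)) / u) ≤ V.valuation (p : ℂ)

/-- (MAIN) Lemma E for a conjugate family, weights `emb x`.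

Uses Sb_ONE. PROOF. PORT of `NS/E_MAIN.lean`, `NS/F_MAIN.lean`: apply `τ'` to `y^p = ∏ C τ ^ g τ`: `(τ' y)^p = ∏ C(τ τ')^(g τ)` (`Gal(D/k)` is commutative: `TorX.comm`), then (ONE) with `J = Gal(D/k)`, `X τ` the image of `S (τ τ')` under `(i, q) ↦ (i, Quotient.out q)` (injective). `aX p f = 1 + 2 p f` (`q0 p = p` for `p ≠ 2`) is odd, `p ∣ a - 1`, prime to `f`; `lvX p f n = p^(n+1) f` (`f * p * p^n`). -/
def Sb_MAIN : Prop :=
  ∀ (p er : ℕ) (A B : ℤ) (P : Ideal (OO A B)) (V : ValuationSubring ℂ) (al : OO A B),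
    CtxO p er A B P V al → TorX A B → GalE A B →
    ∀ (n f : ℕ), 1 ≤ n → 3 ≤ f → 2 ∣ f → ¬ p ∣ f →
    ∀ (ι : Type) (R : Reps A B (p * f) ι) (u e lam : ℂ), GoodL V (R.L R.i0) u e lam →
    ∀ (H : ι → Finset ℂ), (∀ i, IsHalf (R.L i) (aX p f : ℂ) (H i)) →
    ∀ (D : IntermediateField ℚ ℂ) (h : kk A B ≤ D),
      (∀ y ∈ D, y ∈ RF (idl (A := A) (B := B) (lvX p f n))) →
    letI := algC h
    ∀ (C : (D ≃ₐ[kk A B] D) → ℂ)
      (S : (D ≃ₐ[kk A B] D) → Finset (ι × (OO A B ⧸ idl (A := A) (B := B) (lvX p f n)))),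
    (∀ τ : D ≃ₐ[kk A B] D, ∃ y : D, (y : ℂ) = C 1 ∧ ((τ y : D) : ℂ) = C τ) →
    (∀ τ, ∀ q ∈ S τ, IsCoprime (Quotient.out q.2 : OO A B) ((lvX p f n : ℕ) : OO A B)) →
    (∀ τ, C τ = ∏ q ∈ S τ, ThetaH (R.L q.1) (H q.1) (pt R (lvX p f n) q.1 (Quotient.out q.2))) →
    ∀ g : (D ≃ₐ[kk A B] D) → ℤ,
      (∃ y ∈ D, y ^ p = ∏ᶠ τ : D ≃ₐ[kk A B] D, C τ ^ g τ) →
      ∀ τ' : D ≃ₐ[kk A B] D,
        V.valuation ((∑ᶠ τ : D ≃ₐ[kk A B] D, (g τ : ℂ) * ∑ q ∈ S (τ * τ'),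
          emb (Quotient.out q.2) * muX R q.1 *
            dlX (R.L q.1) (aX p f) (pt R (lvX p f n) q.1 (Quotient.out q.2))) / u) ≤
          V.valuation (p : ℂ)

/-- (STB) `er = 2`: the sets `XX` are stable under translation by the classes of `lvR P f n`.

Uses Si_HIT, Si_IAF (`MUX/StIX.lean`, `MUX/I_HIT.lean`, `MUX/I_IAF.lean`). MODEL `NS/F_STB.lean`. PROOF. `m = lvX p f n`, `(m) = lvR P f n * P`. Let `q = (i, x) ∈ XX`, `x = Quotient.out q.2`, `β ∈ lvR P f n`. `x` is prime to `m`: `x x' - 1 ∈ (m)`; `b = 1 + x' β`: `b - 1 ∈ lvR P f n`, `b` is prime to `m` (`lvR ≤ P`, `lvR ≤ idl (p f)` for `n ≥ 1`, so `b ≡ 1` modulo `p f`), `x b ≡ x + β` modulo `m`.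
`σ` (`FixK`, extending `τ`) with `Hits R m σ i x`: `IA σ (idl m) (sp x * cjI (b_i))` (HIT). `ρ` with `IA ρ (idl m) (sp b)` (IAF, or `TorX.surj`); `ρ` is trivial on `RF (lvR P f n)` (`TorX.triv`, `b - 1 ∈ lvR P f n`), so on `D`. The composition (`ρ` first) extends `τ` and has the ideal `sp b * (sp x * cjI (b_i)) = sp (x b) * cjI (b_i)` (`TorX.comp`, IAF), so it hits `(i, x b)` (HIT), and the
condition on `Quotient.out` of the class of `x b` (the class `q.2 + β`) follows as in `I_XXF.lean`, `F_STB.lean`. -/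
def Sb_STB : Prop :=
  ∀ (p : ℕ) (A B : ℤ) (P : Ideal (OO A B)) (V : ValuationSubring ℂ) (al : OO A B),
    CtxO p 2 A B P V al → TorX A B →
    ∀ (n f : ℕ), 1 ≤ n → f ≠ 0 → ¬ p ∣ f → ∀ (ι : Type) (R : Reps A B (p * f) ι)
    (D : IntermediateField ℚ ℂ) (h : kk A B ≤ D),
    (∀ y ∈ D, y ∈ RF (_root_.Pool.Agent.NSRD.lvR P f n)) →
    letI := algC h
    ∀ (τ : D ≃ₐ[kk A B] D), ∀ β ∈ _root_.Pool.Agent.NSRD.lvR P f n,
      ∀ q ∈ XX R (lvX p f n) h τ,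
        (q.1, q.2 + Ideal.Quotient.mk (idl (A := A) (B := B) (lvX p f n)) β) ∈
          XX R (lvX p f n) h τ

/-- (FN1) the final form for `er = 1`.

Uses Sb_MAIN, Sb_INN. PROOF. As `NS/E_FIN.lean`: (MAIN) with `S τ = XX R m h τ` as a finite set (`ι`, `O/m` finite), `C = cX`. Then the weights: `Σ_τ g τ Σ_q (w x - emb x) mu_i dlX/u`, `v(w x - emb x) ≤ v p` (`cong`, `er = 1`), `v(mu_i dlX/u) ≤ 1` (INN with `a = aX p f`; `TTN` is the sum with `w (Quotient.out q.2)`). -/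
def Sb_FN1 : Prop :=
  ∀ (p : ℕ) (A B : ℤ) (P : Ideal (OO A B)) (V : ValuationSubring ℂ) (al : OO A B),
    CtxO p 1 A B P V al → TorX A B → GalE A B →
    ∀ (n f : ℕ), 1 ≤ n → 3 ≤ f → 2 ∣ f → ¬ p ∣ f →
    ∀ (ι : Type) [Fintype ι] (R : Reps A B (p * f) ι) (u e lam : ℂ),
    GoodL V (R.L R.i0) u e lam → ∀ w : OO A B → ℂ, IsTeiP p 1 P V w →
    ∀ (H : ι → Finset ℂ), (∀ i, IsHalf (R.L i) (aX p f : ℂ) (H i)) →
    ∀ (D : IntermediateField ℚ ℂ) (h : kk A B ≤ D), InRF 1 P p f n D →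
    letI := algC h
    (∀ τ : D ≃ₐ[kk A B] D, ∃ y : D, (y : ℂ) = cX R (lvX p f n) H h 1 ∧
      ((τ y : D) : ℂ) = cX R (lvX p f n) H h τ) →
    ∀ g : (D ≃ₐ[kk A B] D) → ℤ,
      (∃ y ∈ D, y ^ p = ∏ᶠ τ : D ≃ₐ[kk A B] D, cX R (lvX p f n) H h τ ^ g τ) →
      ∀ τ' : D ≃ₐ[kk A B] D,
        V.valuation ((∑ᶠ τ : D ≃ₐ[kk A B] D, (g τ : ℂ) *
          TTN R w (lvX p f n) (aX p f) h (τ * τ')) / u) ≤ V.valuation (p : ℂ)

/-- (FN2) the final form for `er = 2`.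

Uses Sb_MAIN, Sb_INN, Sb_STB, Sb_EXO, Sb_IDL, `Pool.Agent.NSER.tf_ORB` (`NS/F_ORB.lean`). PROOF. Model `NS/F_RED.lean` (simpler here). `m = lvX p f n`, `m'' = lvR P f n = (f) P^(2n+1)`, `(m) = m'' P` (`fac`, `Pc P = ⊤`: `nP`), `m'' ≠ (m)`: choose `β₀ ∈ m''`, `β₀ ∉ (m)`. (MAIN) with `S τ = XX R m h τ`: the sum with the weights `emb x` is in `p V`. It remains: for every `τ`
`Δ(τ) = Σ_((i, x) ∈ XX τ) (w x - emb x) mu_i dlX(pt R m i x)/u` has `v ≤ v p`. `φ(i, c) = (i, c + β₀)` maps `XX τ` to itself (STB), `φ^[p] = id` (`p β₀ ∈ (m)`: `p ∈ P²`), `φ^[t]` has no fixed point for `0 < t < p` (`t β₀ ∈ (m)` and `s t + r p = 1` give `β₀ ∈ (m)`): (ORB) with `e = p`: `Δ(τ) = Σ_(T) Σ_(t<p) ..`. For `(i, c) ∈ T`, `x = out c`, `x_t = out (c + t β₀)`: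
`x_t - x - t β₀ ∈ (m)`, so `pt R m i x_t ≡ pt R m i x + t q` modulo `L_i`, `q = pt R m i β₀` (`Tor P L_i q`: `P β₀ ⊆ (m)`; `q ∉ L_i`: `β₀ ∉ (m)`; `te_PT`), `dlX` is periodic, `w x_t = w x` (`β₀, m ∈ P`), `v(emb x_t - emb x) ≤ v(al)² = v p` (`x_t - x ∈ m'' ⊆ P²`, `2 n + 1 ≥ 2`; elements of `P²` are sums of products), `v(w x - emb x)² ≤ v p = v(al)²`, so `v(w x - emb x) ≤ v(al)`. So
`Σ_(t<p) (w x_t - emb x_t) mu_i dlX(pt x_t)/u = (w x - emb x) (mu_i Σ_t dlX(pt x + t q)/u) + Σ_t (emb x - emb x_t) mu_i dlX(pt x_t)/u`: the first term is in `v(al) v(al)` (INN), the others in `v p` (INN: `v(mu_i dlX/u) ≤ 1`). -/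
def Sb_FN2 : Prop :=
  ∀ (p : ℕ) (A B : ℤ) (P : Ideal (OO A B)) (V : ValuationSubring ℂ) (al : OO A B),
    CtxO p 2 A B P V al → TorX A B → GalE A B →
    ∀ (n f : ℕ), 1 ≤ n → 3 ≤ f → 2 ∣ f → ¬ p ∣ f →
    ∀ (ι : Type) [Fintype ι] (R : Reps A B (p * f) ι) (u e lam : ℂ),
    GoodL V (R.L R.i0) u e lam → ∀ w : OO A B → ℂ, IsTeiP p 2 P V w →
    ∀ (H : ι → Finset ℂ), (∀ i, IsHalf (R.L i) (aX p f : ℂ) (H i)) →
    ∀ (D : IntermediateField ℚ ℂ) (h : kk A B ≤ D), InRF 2 P p f n D →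
    letI := algC h
    (∀ τ : D ≃ₐ[kk A B] D, ∃ y : D, (y : ℂ) = cX R (lvX p f n) H h 1 ∧
      ((τ y : D) : ℂ) = cX R (lvX p f n) H h τ) →
    ∀ g : (D ≃ₐ[kk A B] D) → ℤ,
      (∃ y ∈ D, y ^ p = ∏ᶠ τ : D ≃ₐ[kk A B] D, cX R (lvX p f n) H h τ ^ g τ) →
      ∀ τ' : D ≃ₐ[kk A B] D,
        V.valuation ((∑ᶠ τ : D ≃ₐ[kk A B] D, (g τ : ℂ) *
          TTN R w (lvX p f n) (aX p f) h (τ * τ')) / u) ≤ V.valuation (p : ℂ)

/-- (FIN) the final form.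

Uses Sb_CTX, Sb_FN1, Sb_FN2. PROOF. `SetO.toCaseO`, `CtxO` (CTX), `GalE` (`Pool.Agent.MUXE.te_GAL`, `te_RNG`), `f ≥ 12`, `2 ∣ f` (`SetO.f6`, `f12`); `er = 1` or `2` (`CaseO.ram`). -/
def Sb_FIN : Prop := O_RFIN → O_EFIN

end

end Pool.Agent.OBE
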