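import Pool.Agent.OB.StQ
import Pool.Agent.OB.FDefs
import Pool.Agent.RI.CL

/-!
# OB, FINAL (helper60): the layers; from the characters to class numbers

Every `def Sf_X : Prop` is the statement of a module; it is proved as `theorem tf_X (h : Sf_Y) .. : Sf_X` in
`Pool/Agent/OB/F_X.lean`, namespace `Pool.Agent.OBF`, where the `Sf_Y` are the statements named after USES (or fewer).
Files import originals (MU3, MUX, RI, ..), never MVF. Everything on main may be cited: `k_GALX`, `k_GENX`, `k_TWX`, `k_RSX`,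
`k_LFX`, `k_EIGX` (`MUX/KAllX.lean`), `_root_.MU3.n_..` (`MU3/N_*.lean`), `t_ALG2`, `t_CYC` (`RID/P_ALG2.lean`,
`RID/P_CYC.lean`), `LAY_thm` (`RI/LAY.lean`), `t_LAYC` (`RID/P_LAYC.lean`), `OB/K_ALG.lean` (`hom_nil`, ..), `CL.nm_mem`,
`CL.nm_ext`, `CL.nm_prin` (`RI/CL.lean`).

PLAN of part R (relative class numbers). `k ≤ K' ≤ K`, `K/k` abelian of degree prime to `p`. `L = K B_n`, `L' = K' B_n`,
`N` = the norm element of `Gal(L/L')`. `A = J L ⧸ PI L`, `A' = {a ∈ A | N a = 0}`. (RIX): `v_p |A| ≤ v_p |A'| + v_p h(L')`. (RRK): the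
`p`-rank of `A'` is bounded by the sum of the dimensions of the `χ`-parts for the `χ` which are not trivial on `Gal(K/K')`. (RST): one
step of the tower for `A'` (as `N_STEP`).
-/

set_option autoImplicit false

open NumberField IsDedekindDomain Finset
open scoped nonZeroDivisors Pointwise

namespace Pool.Agent.OBF

open _root_.Pool.Agent.RI _root_.Pool.Agent.RID _root_.Pool.Agent.MU3 _root_.Pool.Agent.MUXK
  _root_.Pool.Agent.MUXZ _root_.Pool.Agent.NSI _root_.Pool.Agent.OB

/-- (LAY) the layers of the cyclotomic `ℤ_p`-extension of `ℚ`, `p` odd: existence, tower, uniqueness.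

PROOF. `C m = adjoin ℚ {z | z ^ (p ^ m) = 1}`: cyclotomic, `Gal(C m / ℚ) ≅ (ZMod (p ^ m))ˣ` is cyclic (`p` odd: Mathlib `ZMod.isCyclic_units_of_prime_pow` or similar), of order `p^(m-1) (p-1)`. In a cyclic extension two intermediate fields of the same degree are equal
(the fixing subgroups have the same order; in a finite cyclic group a subgroup is determined by its order). So `Q = Q'` if both are `n`-th layers (both are in one `C m`). Existence: `G = Gal(C (n+1) / ℚ)` has a subgroup of order `p - 1`; its fixed field `F` has degree `p^n` (odd) and is Galois over `ℚ`, complex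
conjugation maps `F` to `F` and induces an automorphism of order dividing `2` in a group of odd order, so it is trivial on `F`. (Compare `MU3/Z_ZLAY.lean`, `MUX/J_LAY.lean` for `p = 3, 2`.) Tower: `B (n+1)` is cyclic over `ℚ` of degree `p^(n+1)` (`t_LAYC`), so it contains a field of degree `p^n`, which is a layer, so
it is `B n`. -/
def Sf_LAY : Prop := ∀ (p : ℕ) [Fact p.Prime], p ≠ 2 →
  ∃ B : ℕ → IntermediateField ℚ ℂ, (∀ n, RI.IsLayer p n (B n)) ∧ Monotone B ∧
    ∀ (n : ℕ) (Q : IntermediateField ℚ ℂ), RI.IsLayer p n Q → Q = B n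

/-! ## Relative class numbers -/

/-- The `χ`-eigenfunctionals on the abelian group `A` (additive), on which `D` acts by `ρ`. -/
def EA (F : Type) [Field F] {A D : Type} [AddCommGroup A] [CommGroup D]
    (ρ : D →* AddMonoid.End A) (χ : D →* Fˣ) : Submodule F (A → F) where
  carrier := {f | (∀ x y, f (x + y) = f x + f y) ∧
    ∀ (δ : D) (x : A), f (ρ δ x) = (χ δ : F) * f x}
  add_mem' := by
    rintro f g ⟨h1, h2⟩ ⟨h3, h4⟩
    refine ⟨fun x y => ?_, fun δ x => ?_⟩
    · show f (x + y) + g (x + y) = (f x + g x) + (f y + g y)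
      rw [h1, h3]; ring
    · show f _ + g _ = _ * (f x + g x)
      rw [h2, h4]; ring
  zero_mem' := by
    refine ⟨fun x y => ?_, fun δ x => ?_⟩
    · show (0 : F) = 0 + 0
      rw [add_zero]
    · show (0 : F) = _ * 0
      rw [mul_zero]
  smul_mem' := by
    rintro c f ⟨h1, h2⟩
    refine ⟨fun x y => ?_, fun δ x => ?_⟩
    · show c * f (x + y) = c * f x + c * f y
      rw [h1]; ring
    · show c * f _ = _ * (c * f x)
      rw [h2]; ring

/-- (RAG) the rank of the kernel of a norm element and eigenspaces; algebra.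

PROOF. `N = ∑_{δ ∈ H} ρ δ`, `A' = ker N`, `h = |H|`, prime to `p`. `V = Hom(A', F)`, an `F`-space of dimension `v_p |A'[p]|` (`|A'[p]| = |A' / p A'|`; compare `hom_nil` in `OB/K_ALG.lean`; only `≥` is needed: an `F_p`-basis of `A'/pA'` gives linearly independent functionals with values in `F_p ⊆ F`). `D` acts on
`V`; `F` is algebraically closed and `|D|` is prime to `p = char F`, so `V` is the sum of its eigenspaces `V_χ`, `χ : D →* Fˣ` (projectors `|D|⁻¹ ∑_δ χ(δ)⁻¹ δ`, their sum is `1`; compare `MUX/K_EIGX.lean`), there are `|D|` characters at most. `V_χ = 0` if `χ` is trivial on `H`: `0 = f(N x) = h f(x)`. `V_χ` embeds into `EA F ρ χ`: `f ↦ (x ↦ f (h x - N x))`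
(`h x - N x ∈ A'`, it is `h x` for `x ∈ A'`; injective as `h ≠ 0` in `F`). -/
def Sf_RAG : Prop := ∀ (p : ℕ) [Fact p.Prime] (F : Type) [Field F] [CharP F p] [IsAlgClosed F]
  (A D : Type) [AddCommGroup A] [Finite A] [CommGroup D] [Finite D] (ρ : D →* AddMonoid.End A)
  (H : Subgroup D) [Fintype H], ¬ p ∣ Nat.card D → ∀ R : ℕ,
  (∀ χ : D →* Fˣ, (∃ δ ∈ H, χ δ ≠ 1) → Module.finrank F (EA F ρ χ) ≤ R) →
  padicValNat p (Nat.card {x : A // ∑ δ : H, ρ (δ : D) x = 0 ∧ p • x = 0}) ≤ Nat.card D * R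

/-- The ideals of `L` whose norm to `L'` (as an ideal of `L`) is principal. -/
noncomputable def RJ (L' L : Type) [Field L'] [NumberField L'] [Field L] [NumberField L]
    [Algebra L' L] : Subgroup (J L) :=
  (_root_.MU3.PI L).comap (CL.nm L' L)

/-- `v_p |A'|`. -/
noncomputable def vR (p : ℕ) (L' L : Type) [Field L'] [NumberField L'] [Field L] [NumberField L]
    [Algebra L' L] : ℕ :=
  padicValNat p ((_root_.MU3.PI L).relIndex (RJ L' L))

/-- `v_p |A'[p]|`. -/
noncomputable def rR (p : ℕ) (L' L : Type) [Field L'] [NumberField L'] [Field L] [NumberField L]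
    [Algebra L' L] : ℕ :=
  padicValNat p (Nat.card {c : J L ⧸ _root_.MU3.PI L // (∃ b ∈ RJ L' L, (b : J L ⧸ _root_.MU3.PI L) = c) ∧
    c ^ p = 1})

/-- (RIX) the index of the norm kernel.

PROOF. `A = J L ⧸ PI L`, `|A| = h(L)` (`CL.classNumber_eq`). `nm` induces an endomorphism of `A` (`PI L ≤ RJ L' L`: `CL.nm_prin`, `ext_prin`) with kernel `RJ L' L / PI L` of order `(PI L).relIndex (RJ L' L)`, and its image is contained in the image of `J L' ⧸ PI L'` (`CL.nm_mem`, `ext_prin`), whose order divides `h(L')`. -/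
def Sf_RIX : Prop := ∀ (p : ℕ) [Fact p.Prime] (L' L : Type) [Field L'] [NumberField L'] [Field L]
  [NumberField L] [Algebra L' L] [IsGalois L' L],
  padicValNat p (NumberField.classNumber L) ≤
    vR p L' L + padicValNat p (NumberField.classNumber L')

/-- (RST) one step of the tower for the norm kernels.

PROOF. As `N_STEP` (`MU3/N_STEP.lean`), with `t_ALG2` for `A' = RJ / PI` in place of the class group. `L = K B_(m+1)`, `M = K B_m`, `L' = K' B_(m+1)`, `M' = K' B_m`, `g` from GENX (`k := k`, `K`) for `m+1`: `g` maps `RJ L' L` to itself (`Gal(L/k)` is abelian: GALX), `g^(p^(m+1)) = 1`, `g^(p^m)` generates `Gal(L/M)`. The element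
`∑_{j<p} g^(p^m j)` is `nm M L b = ext M L c` on `b` (`t_CYC`, `CL.nm_mem`). Claim: `b ∈ RJ L' L` implies `c ∈ RJ M' M`: every `τ ∈ Gal(M/M')` extends to an element `τ'` of `Gal(L/L')` (trivial on `L'`; restriction `Gal(L/L') → Gal(M/M')` is bijective: injective as `L = M L'`, and `[L : L'] = [K : K'] = [M : M']` by the three `deg`), so
`ext M L (nm M' M c) = ∏ τ' (ext M L c) = ∏ τ' nm M L b = nm M L (nm L' L b)` is `nm M L` of a principal ideal `prin x`, which is `ext M L (prin (norm x))` (`CL.nm_prin`), and `ext M L` is injective (`ext_injective` in `RI`). So the image of `A'` under the operator is contained in the image of `RJ M' M / PI M`, of order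
`(PI M).relIndex (RJ M' M)`. -/
def Sf_RST : Prop := ∀ (p m : ℕ) [Fact p.Prime] (k K' K : IntermediateField ℚ ℂ)
  (B : ℕ → IntermediateField ℚ ℂ) [FiniteDimensional ℚ K] [FiniteDimensional ℚ K']
  [∀ n, FiniteDimensional ℚ ↥(K ⊔ B n)] [∀ n, FiniteDimensional ℚ ↥(K' ⊔ B n)]
  (_ : BasX p k K B) (_ : BasX p k K' B) (_ : BasX p K' K B)
  (h1 : K' ⊔ B (m + 1) ≤ K ⊔ B (m + 1)) (h0 : K' ⊔ B m ≤ K ⊔ B m),
  letI := algC h1
  letI := algC h0
  rR p ↥(K' ⊔ B (m + 1)) ↥(K ⊔ B (m + 1)) < p ^ m * (p - 1) →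
  vR p ↥(K' ⊔ B (m + 1)) ↥(K ⊔ B (m + 1)) ≤
    vR p ↥(K' ⊔ B m) ↥(K ⊔ B m) + rR p ↥(K' ⊔ B (m + 1)) ↥(K ⊔ B (m + 1))

/-- (RRK) the rank of the norm kernel and the `χ`-parts.

USES RAG. PROOF. `L = K B_n`, `L' = K' B_n`, `D = NC (hk₀ n) (B n)`, of order prime to `p` (TWX: `TwP.cop` or similar), commutative (GALX); it acts on `A = Additive (J L ⧸ PI L)`. `H` = the elements of `D` which are trivial on `K'` = the elements of `Gal(L/k)` which are trivial on `L'`, `≅ L ≃ₐ[L'] L` (the algebra structure `algC hL`), so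
`∑_{δ ∈ H} δ` is `nm L' L`. RAG: let `χ : D →* Fˣ` be nontrivial on `H`. The restriction `D → Gal(K/k)` is bijective (`|D| = [K : k]` by `deg`; compare `I3X19.restr` and the places where it is used), so `χ` comes from a character `χ₀` of `Gal(K/k)` (`letI := algC hkK; ↥K ≃ₐ[k] ↥K`), nontrivial on an element which is trivial on `K'`. The functionals in `EA F ρ χ`
composed with `J L → A` are in `EigS F k K B n (hk₀ n) hkK χ₀` (an injective linear map into a finite-dimensional space). `|D| = [K : k]`. -/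
def Sf_RRK : Prop := ∀ (p n : ℕ) [Fact p.Prime] (F : Type) [Field F] [CharP F p] [IsAlgClosed F]
  (k K' K : IntermediateField ℚ ℂ)
  (B : ℕ → IntermediateField ℚ ℂ) [FiniteDimensional ℚ K] [FiniteDimensional ℚ K']
  [∀ n, FiniteDimensional ℚ ↥(K ⊔ B n)] [∀ n, FiniteDimensional ℚ ↥(K' ⊔ B n)]
  (hB : BasX p k K B) (_ : BasX p k K' B) (_ : BasX p K' K B)
  (hL : K' ⊔ B n ≤ K ⊔ B n) (hk₀ : k ≤ K ⊔ B n) (hkK : k ≤ K),
  ¬ p ∣ Module.finrank k (IntermediateField.extendScalars hB.hk) → ∀ R : ℕ,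
  (∀ χ : (letI := algC hkK; (↥K ≃ₐ[k] ↥K) →* Fˣ),
    (letI := algC hkK; ∃ s : ↥K ≃ₐ[k] ↥K, (∀ x : ↥K, (x : ℂ) ∈ K' → s x = x) ∧ χ s ≠ 1) →
    Module.Finite F (EigS F k K B n hk₀ hkK χ) ∧
    Module.finrank F (EigS F k K B n hk₀ hkK χ) ≤ R) →
  letI := algC hL
  rR p ↥(K' ⊔ B n) ↥(K ⊔ B n) ≤
    Module.finrank k (IntermediateField.extendScalars hB.hk) * R

end Pool.Agent.OBF
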