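import Pool.Agent.OB.StF

/-!
# OB, FINAL (helper60), part 2: inflation; cyclic extensions of degree `2^r` which contain `√5`, `p = 5`

Every `def Sf_X : Prop` is the statement of a module; it is proved as `theorem tf_X (h : Sf_Y) .. : Sf_X` in
`Pool/Agent/OB/F_X.lean`, namespace `Pool.Agent.OBF`, where the `Sf_Y` are the statements named after USES (or fewer).
-/

set_option autoImplicit false

open NumberField IsDedekindDomain Finset
open scoped nonZeroDivisors Pointwise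

namespace Pool.Agent.OBF

open _root_.Pool.Agent.RI _root_.Pool.Agent.RID _root_.Pool.Agent.MU3 _root_.Pool.Agent.MUXK
  _root_.Pool.Agent.MUXZ _root_.Pool.Agent.NSI _root_.Pool.Agent.OB

/-- (INF) inflation of characters from `L` to `K ≥ L`.

PROOF. `L_n = L B_n ≤ K_n = K B_n`, `K_n/L_n` is Galois of degree `d`, prime to `p` (`K_n/k` is Galois and abelian: GALX; `d` divides `[K : ℚ] p^n / ([L : ℚ] p^n)` by the two `deg`). For `b ∈ J K_n` there is a unique `N b ∈ J L_n` with `ext L_n K_n (N b) = CL.nm L_n K_n b` (`CL.nm_mem`, `ext_injective`); `N` is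
multiplicative, `N (prin x) = prin (norm x)` (`CL.nm_prin`), `N (ext c) = c^d` (`CL.nm_ext`). Let `δ ∈ NC (K_n) (B n)`, `s' ∈ Gal(K/k)` its restriction to `K`; `δ` maps `L_n` to itself (`L_n/k` is normal), `δ' ∈ NC (L_n) (B n)` the restriction, `s` the restriction of `s'` to `L`: `N (δ b) = δ' (N b)` (`Gal(K_n/k)` is commutative). So
`g ∈ EigS .. L .. χ` gives `f = g ∘ N ∈ EigS .. K .. χ'` (every `s'` has a restriction `s`), `f (ext c) = g (c^d) = d g (c)`, `d ≠ 0` in `F`: `g ↦ f` is linear and injective. -/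
def Sf_INF : Prop := ∀ (p n : ℕ) [Fact p.Prime] (F : Type) [Field F] [CharP F p]
  (k L K : IntermediateField ℚ ℂ) (B : ℕ → IntermediateField ℚ ℂ) [FiniteDimensional ℚ K]
  [FiniteDimensional ℚ L] [∀ n, FiniteDimensional ℚ ↥(K ⊔ B n)]
  [∀ n, FiniteDimensional ℚ ↥(L ⊔ B n)] (_ : BasX p k K B) (_ : BasX p k L B) (_ : L ≤ K)
  (hk : k ≤ K ⊔ B n) (hk' : k ≤ L ⊔ B n) (hkK : k ≤ K) (hkL : k ≤ L),
  ¬ p ∣ Module.finrank ℚ K →
  ∀ (χ : (letI := algC hkL; (↥L ≃ₐ[k] ↥L) →* Fˣ)) (χ' : (letI := algC hkK; (↥K ≃ₐ[k] ↥K) →* Fˣ)),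
  (letI := algC hkL; letI := algC hkK;
    ∀ (s : ↥L ≃ₐ[k] ↥L) (s' : ↥K ≃ₐ[k] ↥K),
      (∀ (x : ↥L) (x' : ↥K), (x' : ℂ) = x → ((s' x' : ↥K) : ℂ) = (s x : ↥L)) → χ' s' = χ s) →
  Module.Finite F (EigS F k K B n hk hkK χ') →
  Module.Finite F (EigS F k L B n hk' hkL χ) ∧
    Module.finrank F (EigS F k L B n hk' hkL χ) ≤ Module.finrank F (EigS F k K B n hk hkK χ')

/-- `k` is an imaginary quadratic field, not `ℚ(i)`, `ℚ(√-3)`; `K/k` is abelian of degree prime to `p`. -/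
structure Bs (p : ℕ) {k K : IntermediateField ℚ ℂ} (h : k ≤ K) : Prop where
  fin : FiniteDimensional ℚ K
  k2 : Module.finrank ℚ k = 2
  im : ∃ z ∈ k, (starRingEnd ℂ) z ≠ z
  n4 : ∀ z ∈ k, z ^ 2 ≠ -1
  n3 : ∀ z ∈ k, z ^ 2 ≠ -3
  gal : IsGalois k (IntermediateField.extendScalars h)
  ab : ∀ σ τ : (IntermediateField.extendScalars h) ≃ₐ[k] (IntermediateField.extendScalars h),
    σ * τ = τ * σ
  cop : ¬ p ∣ Module.finrank k (IntermediateField.extendScalars h)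

/-- `χω²` is obtained from `χ` by powers with exponent `5^a` and complex conjugation. -/
def Reach (p : ℕ) [Fact p.Prime] {k K : IntermediateField ℚ ℂ} (h : k ≤ K)
    (χ χ₁ : MuCyc.Chr p h) : Prop :=
  ∃ a : ℕ, χ₁ = χ ^ p ^ a ∨
    ((∀ z ∈ K, (starRingEnd ℂ) z ∈ K) ∧ ∃ χ₂ : MuCyc.Chr p h, MuCyc.IsConj p h χ χ₂ ∧
      χ₁ = χ₂ ^ p ^ a)

/-- (P5) the criterion for `p = 5`. Module of helper60. -/
def Sf_P5 : Prop := ∀ (p : ℕ) [Fact p.Prime], p = 5 → ∀ (k K : IntermediateField ℚ ℂ) (h : k ≤ K),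
  Bs p h → (∃ ζ ∈ K, IsPrimitiveRoot ζ p) → ∀ χ χ₁ : MuCyc.Chr p h,
  MuCyc.IsTwist p h χ χ₁ 2 → Reach p h χ χ₁ →
  ∀ (j : ℕ) (χ' : MuCyc.Chr p h), MuCyc.IsTwist p h χ χ' j → MuCyc.MuZeroC p h χ'

/-- (IFM) inflation, for `MuZeroC`. Module of helper60. -/
def Sf_IFM : Prop := ∀ (p : ℕ) [Fact p.Prime], p ≠ 2 → ∀ (k L K : IntermediateField ℚ ℂ)
  (hL : k ≤ L) (hK : k ≤ K), L ≤ K → FiniteDimensional ℚ K →
  IsGalois k (IntermediateField.extendScalars hK) →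
  (∀ σ τ : (IntermediateField.extendScalars hK) ≃ₐ[k] (IntermediateField.extendScalars hK),
    σ * τ = τ * σ) → ¬ p ∣ Module.finrank ℚ K →
  ∀ (χ : MuCyc.Chr p hL) (χ' : MuCyc.Chr p hK),
  (∀ (s : MuCyc.Gal hL) (s' : MuCyc.Gal hK), (∀ (x : IntermediateField.extendScalars hL)
    (x' : IntermediateField.extendScalars hK), (x' : ℂ) = x →
      ((s' x' : IntermediateField.extendScalars hK) : ℂ) =
        (s x : IntermediateField.extendScalars hL)) → χ' s' = χ s) →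
  MuCyc.MuZeroC p hK χ' → MuCyc.MuZeroC p hL χ

/-- (REL) relative class numbers: `rel_bound` (`F_REL.lean`). -/
def Sf_REL : Prop := ∀ (p : ℕ) [Fact p.Prime], p ≠ 2 →
  ∀ (k K' K : IntermediateField ℚ ℂ) (_ : k ≤ K') (_ : K' ≤ K) (h : k ≤ K),
  FiniteDimensional ℚ K → IsGalois k (IntermediateField.extendScalars h) →
  (∀ σ τ : (IntermediateField.extendScalars h) ≃ₐ[k] (IntermediateField.extendScalars h),
    σ * τ = τ * σ) → ¬ p ∣ Module.finrank ℚ K →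
  (∀ χ : MuCyc.Chr p h, (∃ s : MuCyc.Gal h,
    (∀ x : IntermediateField.extendScalars h, (x : ℂ) ∈ K' → s x = x) ∧ χ s ≠ 1) →
    MuCyc.MuZeroC p h χ) →
  ∃ C : ℕ, ∀ (n : ℕ) (Q : IntermediateField ℚ ℂ), MuCyc.IsLayer p n Q →
    padicValNat p (MuCyc.classNo (K ⊔ Q)) ≤
      padicValNat p (MuCyc.classNo (K' ⊔ Q)) + C * (n + 1) ^ 2

/-- (FLD5) field theory: `K = L(μ_5)`.

PROOF. `ζ` a primitive fifth root of unity, `K = L ⊔ adjoin ℚ {ζ}`. `K/k` is Galois and abelian: `VB.abE_zeta VB.v_NRM` (`VB/VJoin.lean`, `VB/VAll.lean`; `AbE k K`). The degree: `[K : L]` divides `[ℚ(ζ) : ℚ] = 4` (`BCH_thm`, `RI/BCH*.lean`, or `natDegree` of the minimal polynomial; `finrank ≤ 4` is enough), `[K : ℚ] = [K : L] [L : k] 2`. (iii) `w ∈ ℚ(ζ)` with `w² = 5`: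
`w = ± (ζ + ζ⁻¹ - ζ² - ζ⁻²)`, `w² = 5` by `1 + ζ + .. + ζ⁴ = 0`. If `s z = z^c` on `μ_5`: `s w = ζ^c + .. = w` if `c = ± 1 mod 5`, and `- w` if `c = ± 2 mod 5`, and `c² = ± 1` in a field of characteristic `5` accordingly. -/
def Sf_FLD5 : Prop := ∀ (k L : IntermediateField ℚ ℂ) (h : k ≤ L) (r : ℕ), Bs 5 h →
  Module.finrank k (IntermediateField.extendScalars h) = 2 ^ r →
  ∃ (K : IntermediateField ℚ ℂ) (hK : k ≤ K), L ≤ K ∧ Bs 5 hK ∧
    (∃ ζ ∈ K, IsPrimitiveRoot ζ 5) ∧ ¬ 5 ∣ Module.finrank ℚ K ∧ ¬ 5 ∣ Module.finrank ℚ L ∧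
    ((∀ z ∈ L, (starRingEnd ℂ) z ∈ L) → ∀ z ∈ K, (starRingEnd ℂ) z ∈ K) ∧
    ∀ (F : Type) [Field F] [CharP F 5] (w : ℂ), w ^ 2 = 5 → w ∈ K ∧
      ∀ (s : MuCyc.Gal hK) (c : ℕ), (∀ z : IntermediateField.extendScalars hK, z ^ 5 = 1 →
        s z = z ^ c) →
      ∀ x : IntermediateField.extendScalars hK, (x : ℂ) = w →
        (((s x : IntermediateField.extendScalars hK) : ℂ) = w ∧ (c : F) ^ 2 = 1) ∨
        (((s x : IntermediateField.extendScalars hK) : ℂ) = -w ∧ (c : F) ^ 2 = -1)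

/-- (CYC) cyclic extensions `L/k` of degree `2^r` which contain `√5`: comparison with the subfield `L'` of degree `4`, and of degree `2` if
complex conjugation acts on `Gal(L/k)` by inversion (`L/ℚ` is dihedral).

USES P5, IFM, REL, FLD5. PROOF. `w = √5 ∈ L`, `w ∉ k` (`k` would be `ℚ(√5)`, which is real). `Gal(L/k) = ⟨g⟩` of order `2^r`, `g w = - w` (otherwise `w` is fixed by all of `Gal(L/k)`, so `w ∈ k`). `Gal(L/L')` is the subgroup of order `2^r/[L' : k]`, it is `⟨g^[L':k]⟩` (cyclic group; contained in it is enough). REL for `L' ≤ L`: let `χ` be a character of `Gal(L/k)`, nontrivial on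
`Gal(L/L')`: `χ(g)^4 ≠ 1` (or `χ(g)^2 ≠ 1`). `x = χ(g)` has order `2^s`, `s ≥ 3` (or `s ≥ 2`). `K` from FLD5, `χ'` = the inflation of `χ` to `K` (restriction `Gal(K/k) → Gal(L/k)`: `L/k` is normal; `χ' = χ ∘ restriction`, compare `AlgEquiv.restrictNormalHom`, `F_SUB.lean`). IFM: it suffices that `χ'` is good; P5 with `j = 0`, `χ₁ = χ' ω²` (`exists_omega` in `F_TWO.lean`).
`s ≥ 3`: `5^(2^(s-3)) ≡ 1 + 2^(s-1) mod 2^s` (induction, or `Nat`/`Int` lifting the exponent), so for `σ ∈ Gal(K/k)`, `σ|L = g^i`: `χ'(σ)^(5^a) = x^i x^(i 2^(s-1)) = (-1)^i χ'(σ)` (`x^(2^(s-1)) = -1`: its square is `1` and it is not `1`), `a = 2^(s-3)`; `σ w = (-1)^i w`, so `ω(σ)² = (-1)^i` (FLD5). So `χ'^(5^a) = χ' ω²`, `Reach`. `s = 2` (only in the second case): `x² = -1`; let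
`χ₂ = χ'⁻¹`: it is `IsConj` to `χ'` (if `σ y = conj (σ' x)`, `y = conj x`, on `K`, then also on `L`, where `σ' = σ⁻¹`, so `χ'(σ') = χ'(σ)⁻¹`.. read the definition of `IsConj p h χ χ₂`: `χ₂ s' = χ s`, `χ₂ s' = χ'(s')⁻¹ = χ'(s)`). `χ'(σ)⁻¹ = χ'(σ) χ'(σ)⁻² = χ'(σ) (-1)^i`. So `χ' ω² = χ₂^(5^0)`. -/
def Sf_CYC : Prop := ∀ (k L' L : IntermediateField ℚ ℂ) (h1 : k ≤ L') (_ : L' ≤ L) (h : k ≤ L)
  (r : ℕ), FiniteDimensional ℚ L → Module.finrank ℚ k = 2 → (∃ z ∈ k, (starRingEnd ℂ) z ≠ z) →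
  (∀ z ∈ k, z ^ 2 ≠ -1) → (∀ z ∈ k, z ^ 2 ≠ -3) →
  IsGalois k (IntermediateField.extendScalars h) → IsCyclic (MuCyc.Gal h) →
  Module.finrank k (IntermediateField.extendScalars h) = 2 ^ r → (∃ w ∈ L, w ^ 2 = 5) →
  (Module.finrank k (IntermediateField.extendScalars h1) = 4 ∨
    (Module.finrank k (IntermediateField.extendScalars h1) = 2 ∧
      (∀ z ∈ L, (starRingEnd ℂ) z ∈ L) ∧
      ∀ s s' : MuCyc.Gal h, (∀ x y : IntermediateField.extendScalars h,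
        (y : ℂ) = (starRingEnd ℂ) x → ((s y : IntermediateField.extendScalars h) : ℂ) =
          (starRingEnd ℂ) (s' x : IntermediateField.extendScalars h)) → s' = s⁻¹)) →
  ∃ C : ℕ, ∀ (n : ℕ) (Q : IntermediateField ℚ ℂ), MuCyc.IsLayer 5 n Q →
    padicValNat 5 (MuCyc.classNo (L ⊔ Q)) ≤
      padicValNat 5 (MuCyc.classNo (L' ⊔ Q)) + C * (n + 1) ^ 2

end Pool.Agent.OBF
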