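import Pool.Agent.MUX.StHX
import Pool.Agent.NS.Y_Key0

/-!
# OB, block H (helper51): from Theorem G to the character sums for every odd prime `p`, abstract

`Pool/Agent/MUX/StHN.lean` and `StHR.lean` (there `p = 3`) for every odd prime `p`. Nothing here depends on the field `k`. Every statement is a
`def So_X : Prop`; a module proves `theorem to_X (h : ..) ... : So_X` in `Pool/Agent/OB/HN_X.lean`, namespace `Pool.Agent.OBH` (private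
lemmas in `Pool.Agent.OBH.X`); the hypotheses are the statements named under USES (fewer is fine). `v = V.valuation`: `v x ≤ 1 ↔ x ∈ V`
(`ValuationSubring.valuation_le_one_iff`). `comb`, `Q0` : `MUX/StHX.lean`. `mob`, `IsSym`, `sgnPart` : `MU3/Base.lean`, `MuSym`.
MODELS: the files `Pool/Agent/MUX/HN_*.lean` prove the case `p = 3` (`27` becomes `p^3`, `729` becomes `p^6`).
-/

set_option autoImplicit false

namespace Pool.Agent.OBH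

open _root_.MU3 Pool.Agent.MuSym Pool.Agent.MUXH OnePoint

noncomputable section

/-- `P_t(x, y) = P(x, y) - P(x + t, y + t)`, `t = 1/p^3` -/
def PT (p : ℕ) (P : OnePoint ℚ → OnePoint ℚ → ℂ) (x y : OnePoint ℚ) : ℂ :=
  P x y - P (mob ((p : ℤ) ^ 3) 1 0 ((p : ℤ) ^ 3) x) (mob ((p : ℤ) ^ 3) 1 0 ((p : ℤ) ^ 3) y)

/-- the standing hypotheses on a symbol `Q` (the part of the symbol which is used, divided by the period): the level is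
`p^(s₀+1) N₀`; the denominators are bounded; the values are in `pi * KI`; `gap`: a value `x` with `v(x) ≥ v(1 - ζ_(p³))` has `v(x) ≥ 1`
(all valuations in the multiplicative sense); `G` : Theorem G for `Q_t`: `v(Q_t) ≥ v(1 - ζ_(p³))` on closed cycles of any level -/
structure HypQ (p : ℕ) (V : ValuationSubring ℂ) (N₀ s₀ : ℕ) (nu : ℤ → ℂ)
    (Q : OnePoint ℚ → OnePoint ℚ → ℂ) (pi : ℂ) (KI : Subfield ℂ) : Prop where
  pp : p.Prime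
  p2 : p ≠ 2
  vp : V.valuation (p : ℂ) < 1
  N0 : N₀ ≠ 0
  cop : Nat.Coprime p N₀
  nu1 : nu 1 = 1
  num : ∀ d d', nu (d * d') = nu d * nu d'
  nuper : ∀ d d', ((p * N₀ : ℕ) : ℤ) ∣ d - d' → nu d = nu d'
  nuv : ∀ d, V.valuation (nu d) ≤ 1
  sym : IsSym (p ^ (s₀ + 1) * N₀) nu Q
  bdd : ∃ k : ℕ, ∀ x y, V.valuation ((p : ℂ) ^ k * Q x y) ≤ 1
  pi0 : pi ≠ 0
  typ : ∀ x y, ∃ w ∈ KI, Q x y = pi * w
  gap : ∀ w ∈ KI, V.valuation (p : ℂ) ≤ V.valuation (pi * w) ^ ((p - 1) * p ^ 2) →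
    1 ≤ V.valuation (pi * w)
  G : ∀ N' : ℕ, N' ≠ 0 → p ^ (s₀ + 1) * N₀ ∣ N' → ∃ α β γ δ : ℤ, α * δ - β * γ = 1 ∧
    (N' : ℤ) ∣ γ ∧ (N' : ℤ) ∣ δ - 1 ∧
    V.valuation (p : ℂ) ≤ V.valuation (PT p Q ∞ (mob α β γ δ ∞)) ^ ((p - 1) * p ^ 2)

/-- (BDN) bounded denominators. USES `MUXH.Sx_MAX`, `MUXH.Sx_ALB` (proved: `MUXH.tx_MAX`, `MUXH.tx_ALB` in `MUX/HX_MAX.lean`, `MUX/HX_ALB.lean`;
import them, no hypotheses needed). MODEL: `MUX/HN_BDN.lean`. -/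
def So_BDN : Prop :=
  ∀ (p : ℕ) (_ : p.Prime) (V : ValuationSubring ℂ) (_ : V.valuation (p : ℂ) < 1)
    (P : OnePoint ℚ → OnePoint ℚ → ℂ) (_ : ∀ x y, IsAlgebraic ℚ (P x y))
    (_ : ∃ T : Finset ℂ, ∀ x y, P x y ∈ AddSubgroup.closure (T : Set ℂ)),
    ∃ k : ℕ, ∀ x y, V.valuation ((p : ℂ) ^ k * P x y) ≤ 1

/-- (HKN) the part `s` of a depleted symbol. MODEL: `MUX/HN_HKN.lean`.

USES `MUXH.Sx_HK` (proved: `tx_HK` in `MUX/HX_HK.lean`) or its proof. PROOF. `Q = sgnPart s P`. `IsSym` and the period: HK. Depletion: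
`-(x + j)/p = (-x + (p - j))/p - 1`, so the sum over `j` of `P ∞ (-(x+j)/p)` is the sum of the `P ∞ ((-x+j)/p)`. -/
def So_HKN : Prop :=
  ∀ (p : ℕ) (_ : p.Prime) (N' : ℕ) (nu : ℤ → ℂ) (P : OnePoint ℚ → OnePoint ℚ → ℂ) (s : ℂ),
    IsSym N' nu P → nu 1 = 1 →
    (∀ x : ℚ, ∑ j ∈ Finset.range p, P ∞ (((x + j) / p : ℚ) : OnePoint ℚ) = 0) →
    IsSym N' nu (sgnPart s P) ∧
    (∀ (r : ℚ) (k : ℤ), sgnPart s P ∞ ((r + k : ℚ) : OnePoint ℚ) =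
      sgnPart s P ∞ (r : OnePoint ℚ)) ∧
    ∀ x : ℚ, ∑ j ∈ Finset.range p, sgnPart s P ∞ (((x + j) / p : ℚ) : OnePoint ℚ) = 0

/-- (LOC) if the combinations are in `m` then `z` is locally constant modulo `m` on the units, uniformly in the
level. `m` is any `V`-submodule of `ℂ`. MODEL: `MUX/HN_LOC.lean` (replace `3` by the odd prime `p`).

PROOF. Write `E_u y (b) = y (u b)` and `x ≡ y` for `x - y ∈ m`. `comb α g N z = ± A (E_g - 1)^N z`, `A y = α y - α² E_(α²) y`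
(expand; `E_g` and `A` commute). (1) Let `y n = (E_g - 1)^N (z n)`: `α y (b) ≡ α² y (α² b)` for `p ∤ b`, `n ≥ n₀`; `α` is a unit of
`V`, so `y (α^(2 i) b) ≡ α^(-i) y (b)`; for `p^k ∣ i`: `α^i - 1` is divisible by `p^(k+1)` and `p^k y ∈ m`: `y (α^(2 i) b) ≡ y (b)`.
Let `e ≥ 1` be the exponent of `p` in `α² - 1`. For every `n` the powers of `α^(2 p^k)` are, modulo `p^n`, all classes `≡ 1`
modulo `p^(e+k)` (`α^(2 p^j) ≡ 1 + p^(e+j) w` modulo `p^(e+j+1)`, `p ∤ w`, `p` odd). So `y n b ≡ y n b'` for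
`p^(e+k) ∣ b - b'`, `p ∤ b`. (2) Step down: if `y' = E_g y - y` is locally constant (mod `p^r`) then so is `y`: let `u = g^(p^r)`
(`p^r ∣ u - 1`), `S (b) = Σ_(i < p^r) y' (g^i b)`: `y (u b) - y (b) = S (b)`, `S (u b) ≡ S (b)`, so `y (u^j b) - y (b) ≡ j S (b)`, which is in
`m` for `p^k ∣ j`; the powers of `u^(p^k)` are all classes `≡ 1` modulo `p^(r')`, `r' = e' + r + k`, `e'` the exponent of `p`
in `g - 1`. Induction on `N`. -/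
def So_LOC : Prop :=
  ∀ (p : ℕ) (_ : p.Prime) (_ : p ≠ 2) (V : ValuationSubring ℂ) (_ : V.valuation (p : ℂ) < 1)
    (m : Submodule V ℂ) (z : ℕ → ℤ → ℂ) (k n₀ : ℕ)
    (_ : ∀ (n : ℕ) (b c : ℤ), (p : ℤ) ^ n ∣ b - c → z n b = z n c)
    (_ : ∀ n b, (p : ℂ) ^ k * z n b ∈ m) (α g : ℤ) (_ : (p : ℤ) ∣ α - 1) (_ : α ≠ 1)
    (_ : (p : ℤ) ∣ g - 1) (_ : g ≠ 1) (N : ℕ)
    (_ : ∀ n, n₀ ≤ n → ∀ b : ℤ, ¬ (p : ℤ) ∣ b → comb α g N (z n) b ∈ m),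
    ∃ r : ℕ, ∀ n, n₀ ≤ n → ∀ b b' : ℤ, ¬ (p : ℤ) ∣ b → (p : ℤ) ^ r ∣ b - b' →
      z n b - z n b' ∈ m

/-- (PAI) the value at a pair of determinant `p^n`. MODEL: `MUX/HN_PAI.lean`.

PROOF. Choose `δ, β` with `a δ - β c = 1`. `h = (δ, -β; -c, a)` has determinant 1 and `N' ∣ -c`, so
`Q (h x) (h y) = nu a * Q x y`. `h (a/c) = ∞`; `h (b/d) = (δ b - β d)/(a d - b c) = e/p^n`, `e = δ b - β d`,
`a e - b = β (c b - a d) = - β p^n`. -/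
def So_PAI : Prop :=
  ∀ (p : ℕ) (_ : p.Prime) (N' : ℕ) (nu : ℤ → ℂ) (Q : OnePoint ℚ → OnePoint ℚ → ℂ),
    IsSym N' nu Q →
    ∀ (n : ℕ) (a b c d : ℤ), c ≠ 0 → d ≠ 0 → IsCoprime a c → (N' : ℤ) ∣ c →
      a * d - b * c = (p : ℤ) ^ n → ∃ e : ℤ, (p : ℤ) ^ n ∣ a * e - b ∧
      nu a * Q (((a : ℚ) / c : ℚ) : OnePoint ℚ) (((b : ℚ) / d : ℚ) : OnePoint ℚ) =
        Q ∞ (((e : ℚ) / (p : ℚ) ^ n : ℚ) : OnePoint ℚ)

/-- (KYN) from locally constant values to vanishing closed cycles of `Q_t`. MODEL: `MUX/HN_KYN.lean`.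

USES PAI, `NSY.key0` (file `Pool/Agent/NS/Y_Key0.lean`, every odd prime). PROOF. `M = ℂ ⧸ m` (`m` as an additive group; it is a `V`-submodule, so an integer `q` prime to
`p`, a unit of `V`, has no torsion). `R = 6 + (s₀ + 1) + r + 1`, `Φ x y` = the class of `PT p Q x y`. `inv` for `Γ₁(p^R N₀)`: `τ h τ⁻¹ =
(a + c/p³, b + (d - a)/p³ - c/p⁶; c, d - c/p³)` is integral (`p^R ∣ c`, `d - 1`, `a - 1`) and in `Γ₀(p^(s₀+1) N₀)` with lower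
right entry `≡ 1` modulo `p N₀`; `nu = 1` for it and for `h`. (A), `n ≥ n₁ := n₀ + r + 4`: `(a, c)`, `(b, d)` as in `key0`; `p` divides `c`, so
not `a`; `a` is prime to `N₀`; `d = (p^n + b c)/a`, so `p^(r+4) ∣ d` and `p ∤ b`. PAI for `Q`: `nu a Q u w = Q ∞ (e/p^n)`, `a e ≡ b` modulo
`p^n`. PAI for `u + t = (a + c/p³, c)`, `w + t = (b + d/p³, d)` (primitive, same determinant, `nu (a + c/p³) = nu a`):
`nu a Q (u+t) (w+t) = Q ∞ (e'/p^n)`, `(a + c/p³) e' ≡ b + d/p³`. Modulo `p^(r+1)`: `a e' ≡ b ≡ a e`, so `p^r ∣ e - e'`, `p ∤ e`, and the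
difference `Q ∞ (e/p^n) - Q ∞ (e'/p^n)` is in `m`; divide by the unit `nu a`. (A0): `b/p^n + 1/p³ = (b + p^(n-3))/p^n`. -/
def So_KYN : Prop :=
  ∀ (p : ℕ) (_ : p.Prime) (_ : p ≠ 2) (V : ValuationSubring ℂ) (_ : V.valuation (p : ℂ) < 1)
    (m : Submodule V ℂ) (N₀ s₀ : ℕ) (nu : ℤ → ℂ) (Q : OnePoint ℚ → OnePoint ℚ → ℂ) (_ : 2 ≤ N₀)
    (_ : Nat.Coprime p N₀) (_ : nu 1 = 1)
    (_ : ∀ d d', ((p * N₀ : ℕ) : ℤ) ∣ d - d' → nu d = nu d')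
    (_ : ∀ d, IsCoprime d ((p * N₀ : ℕ) : ℤ) → V.valuation (nu d) = 1)
    (_ : IsSym (p ^ (s₀ + 1) * N₀) nu Q) (r n₀ : ℕ)
    (_ : ∀ n, n₀ ≤ n → ∀ b b' : ℤ, ¬ (p : ℤ) ∣ b → (p : ℤ) ^ r ∣ b - b' →
      Q ∞ (((b : ℚ) / (p : ℚ) ^ n : ℚ) : OnePoint ℚ) -
        Q ∞ (((b' : ℚ) / (p : ℚ) ^ n : ℚ) : OnePoint ℚ) ∈ m),
    ∃ R : ℕ, ∀ a b c d : ℤ, a * d - b * c = 1 → (p : ℤ) ^ R * N₀ ∣ c →
      (p : ℤ) ^ R * N₀ ∣ d - 1 → ∀ x, PT p Q x (mob a b c d x) ∈ m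

/-- (NZ) for infinitely many levels some value of the combination has valuation `≥ 1`.

USES LOC, KYN. MODEL: `MUX/HN_HN.lean` (its part after `hall`, with the submodule `HNG.mV` = the maximal ideal `{x : v x < 1}` of `V`). PROOF. `z n b = Q ∞ (b/p^n)`
depends only on `b` modulo `p^n` (`sym` for `(1, 1; 0, 1)`, `nu 1 = 1`). Suppose that for all `n ≥ n₀` and all `b` prime to `p` the value `comb α g N (z n) b` is in
`m`. `bdd`: `p^(k+1) z n b ∈ m`. LOC: `r`. Pass to the level `2 N₀` (`p` odd; `2 ≤ 2 N₀`, prime to `p`; `IsSym` and `nuper` for `2 N₀`; `v(nu d) = 1` for `d` prime to `p N₀` from `num`, `nuper`, `nuv`).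
KYN: `PT p Q ∞ (h ∞) ∈ m` for all `h ∈ Γ₁(p^R 2 N₀)`. `G` for `N' = p^(R + s₀ + 1) (2 N₀)`: such an `h` with `v p ≤ v(PT p Q ∞ (h ∞))^((p-1) p²)`; `PT p Q ∞ (h ∞) = pi (w₁ - w₂)` (`typ`) and `gap` gives
`v ≥ 1`, a contradiction. -/
def So_NZ : Prop :=
  ∀ (p : ℕ) (V : ValuationSubring ℂ) (N₀ s₀ : ℕ) (nu : ℤ → ℂ) (Q : OnePoint ℚ → OnePoint ℚ → ℂ)
    (pi : ℂ) (KI : Subfield ℂ), HypQ p V N₀ s₀ nu Q pi KI →
    ∀ (α g : ℤ), (p : ℤ) ∣ α - 1 → α ≠ 1 → (p : ℤ) ∣ g - 1 → g ≠ 1 → ∀ N n₀ : ℕ,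
      ∃ n, n₀ ≤ n ∧ ∃ b : ℤ, ¬ (p : ℤ) ∣ b ∧ 1 ≤ V.valuation
        (comb α g N (fun b => Q ∞ (((b : ℚ) / (p : ℚ) ^ n : ℚ) : OnePoint ℚ)) b)

/-- (TYP) arithmetic of types. Split case: `e = 1`, `q' = p - 1`, `1 ≤ i ≤ p - 2`; inert case: `e = 1`, `q' = p² - 1`, `p + 1 ≤ i ≤ p² - 2`; ramified case: `e = 2`, `q' = p - 1`, `2 ≤ i ≤ p - 2`.
MODEL: `MUX/HN_TYP.lean`.

PROOF. `t = v p`, `0 < t < 1`, `E = e q' ≥ 1`, `x = pi w`, `v(pi)^E t^i = 1`. (0) If `v w < 1` then `v(w)^e ≤ t`, so `v(x)^E t^i = (v(w)^e)^q' ≤ t^q'`, i.e. (`i < q'`) `v(x)^E ≤ t^(q'-i) ≤ t`.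
(a) `t ≤ v(x)^M`, `M = (p-1) p²`. If `v w < 1`: `t^E ≤ v(x)^(M E) ≤ t^M`, so `M ≤ E`, against `E < M`. So `v w ≥ 1` and `v(x)^E t^i ≥ 1`, `v(x)^E ≥ 1`, `v x ≥ 1`.
(b) `1 ≤ v x`: (0) excludes `v w < 1` (`1 ≤ v(x)^E ≤ t < 1`). So `v(x)^E t^i ≥ 1`, and `(v(x)^(p-1) t)^E = (v(x)^E t^i)^(p-1) · t^E / t^(i (p-1)) ≥ 1` as `E ≤ i (p-1)`
(write `v(x)^(E (p-1)) t^E ≥ v(x)^(E (p-1)) t^(i (p-1)) ≥ 1`). -/
def So_TYP : Prop :=
  ∀ (p : ℕ) (_ : p.Prime) (V : ValuationSubring ℂ) (_ : V.valuation (p : ℂ) < 1)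
    (KI : Subfield ℂ) (e q' i : ℕ) (_ : 1 ≤ e) (_ : i < q') (_ : e * q' ≤ i * (p - 1))
    (_ : e * q' < (p - 1) * p ^ 2)
    (_ : ∀ w ∈ KI, V.valuation w < 1 → V.valuation w ^ e ≤ V.valuation (p : ℂ)) (pi : ℂ)
    (_ : V.valuation pi ^ (e * q') * V.valuation (p : ℂ) ^ i = 1), ∀ w ∈ KI,
    (V.valuation (p : ℂ) ≤ V.valuation (pi * w) ^ ((p - 1) * p ^ 2) → 1 ≤ V.valuation (pi * w)) ∧
    (1 ≤ V.valuation (pi * w) → 1 ≤ V.valuation (pi * w) ^ (p - 1) * V.valuation (p : ℂ))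

/-- (DVN) the character sums of a depleted function with values of one type (unramified coefficients). MODEL: `MUX/HN_DVN.lean`.

PROOF. Let `y b* ≠ 0` have maximal valuation among the `y b` (finitely many classes), `W b = y b/y b* ∈ K ∩ V`, `W b* = 1`,
`1 ≤ v(y b*)^(p-1) t`, `t = v p`. Let `q = p^n`, `W' : ℤ → K` of period `p q`: for `0 ≤ b < q`, `0 ≤ k < p`: `W' (b + k q) = Σ_(l ≤ k) W (b + l q)` (so `W' (b + (p-1) q) = 0`); then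
`W b = W' b - W' (b - q)` for all `b` (depletion). So `Σ ζ^b W b = (1 - ζ^q) Σ ζ^b W' b`, sums over `range (p q)`, and
`v(1 - ζ^q)^(p-1) = t` (`ζ^q` is a primitive `p`-th root of 1). Write (Newton
expansion, `shift_pow` of `MU3/H_HZ.lean`) `Σ ζ^b W' b = Σ_(i < p q) c_i (ζ - 1)^i`, `c_i = Σ_b binom(b, i) W' b ∈ K ∩ V`. Let `i₀` be the
smallest `i` with `v c_i = 1`. CLAIM: it exists and `i₀ < (p-1) q`. Otherwise `P(X) = Σ_b W' b (1 + X)^b ≡ 0` modulo `X^((p-1)q)` and the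
maximal ideal; modulo the maximal ideal (characteristic `p`) `(1 - (1 + X)^q) P(X) = - X^q P(X) ≡ 0` modulo `X^(pq) = (1+X)^(pq) - 1`, and
this product is `Σ_b W b (1 + X)^b` modulo `(1 + X)^(pq) - 1`: so all `W b` are in the maximal ideal, against `W b* = 1`. (Or: since `W' b = 0` for `(p-1) q ≤ b < p q`, `P(X)` has degree `< (p-1) q`, so if all
`c_i`, `i < (p-1) q`, are in the maximal ideal then all `W' b` are (`W' b = Σ_i (-1)^(i-b) binom(i, b) c_i`), so all `W b`.) For `i < i₀`: `v c_i < 1`, so `v c_i ≤ t` (`c_i ∈ K`). `x = v(ζ - 1)`: `x^((p-1) q) = t` (as in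
`Sx_HZ`), `x < 1`. So `v(Σ c_i (ζ-1)^i) = x^(i₀) > x^((p-1) q) = t`. `v(Σ ζ^b y b) = v(y b*) v(1 - ζ^q) x^(i₀)` and `(v(y b*) v(1 - ζ^q))^(p-1) =
v(y b*)^(p-1) t ≥ 1`. -/
def So_DVN : Prop :=
  ∀ (p : ℕ) (_ : p.Prime) (_ : p ≠ 2) (V : ValuationSubring ℂ) (_ : V.valuation (p : ℂ) < 1)
    (K : Subfield ℂ)
    (_ : ∀ w ∈ K, V.valuation w < 1 → V.valuation w ≤ V.valuation (p : ℂ)) (n : ℕ) (y : ℤ → ℂ)
    (_ : ∀ b c : ℤ, (p : ℤ) ^ (n + 1) ∣ b - c → y b = y c)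
    (_ : ∀ b : ℤ, ∑ j ∈ Finset.range p, y (b + j * (p : ℤ) ^ n) = 0)
    (_ : ∀ b b' : ℤ, y b' ≠ 0 → y b / y b' ∈ K) (b₀ : ℤ)
    (_ : 1 ≤ V.valuation (y b₀) ^ (p - 1) * V.valuation (p : ℂ)) (ζ : ℂ)
    (_ : IsPrimitiveRoot ζ (p ^ (n + 1))),
    V.valuation (p : ℂ) < V.valuation (∑ b ∈ Finset.range (p ^ (n + 1)), ζ ^ b * y b)

/-- (DVR) the character sums of a function which is killed by a factor of degree `(p-1)/2` of `X^p - 1` (ramification index two in the coefficients).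
MODEL: `MUX/HN_DVR.lean`, `MUX/HN_DVN.lean`.

PROOF. `q = p^n`, `t = v p`, `0 < t < 1`, `d = (p-1)/2`. `y b* ≠ 0` of maximal valuation, `W b = y b/y b* ∈ K ∩ V`, `W b* = 1`, `v(y b*) ≥ v(y b₀)`. `w(X) = Σ_(b < p q) W b X^b ∈ K[X]`. The relation says (periodicity)
`F(X^q) w(X) ≡ 0` modulo `X^(p q) - 1 = F(X^q) H(X^q)` in `K[X]` (the coefficient of `X^b`, `b` modulo `p q`, of `F(X^q) w(X)` is `Σ_l F_l W(b - l q)`), so `F(X^q) w = F(X^q) H(X^q) w'`, `w = H(X^q) w'`,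
`w' ∈ K[X]`, of degree `< p q - (p - d) q = d q`; `H` is monic with coefficients in `V` (its roots are roots of unity; `F H = X^p - 1`), so `w' ∈ V[X]` (division by a monic polynomial of `V[X]`). Not all coefficients of `w'` are in the maximal ideal (else so would be those of `w`,
but `W b* = 1`). `w'(1 + X) = Σ_(i < d q) c_i X^i`, `c_i ∈ K ∩ V`, not all in the maximal ideal; `j` = the smallest `i` with `v c_i = 1`, `j < d q`. `x = v(ζ - 1)`, `x^((p-1) q) = t`, `x < 1`. For `i < j`: `v(c_i)² ≤ t = x^(2 d q)`, so `v c_i ≤ x^(d q) < x^j`: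
`v(w'(ζ)) = x^j > x^(d q)`. `v(H(ζ^q))`: `F(ζ^q) = 0` and the roots of `F H = X^p - 1` are the `p` different `p`-th roots of unity, so `H(ζ^q) = ∏ (ζ^q - ρ)` over the `p - d` roots `ρ ≠ ζ^q` of `H`, each factor has valuation `v(ζ^q - 1) = x^q`
(`ζ^q/ρ` is a primitive `p`-th root of unity; `v(ζ^q - 1)^(p-1) = t`, so it is `x^q`). Total `v(Σ ζ^b y b) = v(y b*) x^((p-d) q) x^j > v(y b*) x^((p-d) q + d q) = v(y b*) x^(p q) = v(y b*) t x^q`, and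
`(v(y b*) x^q)^(p-1) = v(y b*)^(p-1) t ≥ 1`. So `v(Σ) > t`. -/
def So_DVR : Prop :=
  ∀ (p : ℕ) (_ : p.Prime) (_ : p ≠ 2) (V : ValuationSubring ℂ) (_ : V.valuation (p : ℂ) < 1)
    (K : Subfield ℂ)
    (_ : ∀ w ∈ K, V.valuation w < 1 → V.valuation w ^ 2 ≤ V.valuation (p : ℂ)) (n : ℕ)
    (y : ℤ → ℂ) (_ : ∀ b c : ℤ, (p : ℤ) ^ (n + 1) ∣ b - c → y b = y c)
    (F H : Polynomial ℂ) (_ : F.Monic) (_ : H.Monic) (_ : ∀ l, F.coeff l ∈ K)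
    (_ : ∀ l, H.coeff l ∈ K) (_ : 2 * F.natDegree + 1 = p) (_ : F * H = Polynomial.X ^ p - 1)
    (_ : ∀ b : ℤ, ∑ l ∈ Finset.range p, F.coeff l * y (b - l * (p : ℤ) ^ n) = 0)
    (_ : ∀ b b' : ℤ, y b' ≠ 0 → y b / y b' ∈ K) (b₀ : ℤ)
    (_ : 1 ≤ V.valuation (y b₀) ^ (p - 1) * V.valuation (p : ℂ)) (ζ : ℂ)
    (_ : IsPrimitiveRoot ζ (p ^ (n + 1))) (_ : F.eval (ζ ^ p ^ n) = 0),
    V.valuation (p : ℂ) < V.valuation (∑ b ∈ Finset.range (p ^ (n + 1)), ζ ^ b * y b)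

/-- (FAC) the factorisation of `X^p - 1` over a field which contains the quadratic Gauss sum.

PROOF. `F = ∏ (X - om^(-c))` over the `(p-1)/2` classes `c` modulo `p` with `J(c | p) = 1`, `H = ∏ (X - om^(-c))` over the other `(p+1)/2` classes (`0` and the nonresidues). `F H = X^p - 1` (`X_pow_sub_one_eq_prod`), degrees clear (`(p-1)/2` nonzero
squares), `F(om⁻¹) = 0`. Coefficients: the power sums of the roots of `F` are `P_k = Σ_(c square) om^(-c k) = (1/2) Σ_(j = 1)^(p-1) (1 + J(j | p)) om^(-j k)`, which is `(p-1)/2` for `p ∣ k` and `(-1 + J(-k | p) G)/2` otherwise (`G = Σ_j J(j | p) om^j`, `Σ_j J(j | p) om^(m j) =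
J(m | p) G`): in `K`. Newton's identities (`MvPolynomial.mul_esymm_eq_sum` or `Multiset` version) give the elementary symmetric functions of the roots in `K` by induction (characteristic `0`). `H = (X^p - 1)/F` by division in `K[X]`
(or the same argument). Last part: `f : ℤ → ℂ` of period `p` with `Σ_j J(j | p) f(b + j) = G f(b)`. Let `a_c = Σ_(b < p) f(b) om^(-b c)` (`c` modulo `p`). The relation gives `(J(c | p) G) a_c = G a_c` (`Σ_b Σ_j J(j | p) f(b + j) om^(-b c) = a_c Σ_j J(j | p) om^(j c)`) and `G ≠ 0`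
(`G² = ± p`, or `G conj G = p`; Mathlib: `gaussSum_sq`), so `a_c = 0` unless `J(c | p) = 1`. `p f(b) = Σ_c a_c om^(b c)`, so `p Σ_l F_l f(b - l) = Σ_c a_c om^(b c) F(om^(-c)) = 0`. -/
def So_FAC : Prop :=
  ∀ (p : ℕ) (_ : p.Prime) (_ : p ≠ 2) (om : ℂ) (_ : IsPrimitiveRoot om p) (K : Subfield ℂ)
    (_ : ∑ j ∈ Finset.range p, (jacobiSym (j : ℤ) p : ℂ) * om ^ j ∈ K),
    ∃ F H : Polynomial ℂ, F.Monic ∧ H.Monic ∧ (∀ l, F.coeff l ∈ K) ∧ (∀ l, H.coeff l ∈ K) ∧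
      2 * F.natDegree + 1 = p ∧ F * H = Polynomial.X ^ p - 1 ∧ F.eval (om⁻¹) = 0 ∧
      ∀ f : ℤ → ℂ, (∀ b c : ℤ, (p : ℤ) ∣ b - c → f b = f c) →
        (∀ b : ℤ, ∑ j ∈ Finset.range p, (jacobiSym (j : ℤ) p : ℂ) * f (b + j) =
          (∑ j ∈ Finset.range p, (jacobiSym (j : ℤ) p : ℂ) * om ^ j) * f b) →
        ∀ b : ℤ, ∑ l ∈ Finset.range p, F.coeff l * f (b - l) = 0

/-- (HN) the conclusion of the block for a depleted symbol, `p` unramified in `k` (split: `q' = p - 1`; inert: `q' = p² - 1`).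

USES NZ, DVN, TYP. MODEL: `MUX/HN_HN.lean` (first part). PROOF. `n + 1` and `b₀` from NZ for `n₀ + 1` (`N = 1`). `Y b = comb α g 1 (z (n + 1)) b`, `z (n+1) b = Q ∞ (b/p^(n+1))`: periodic modulo `p^(n+1)`
(`sym` for `(1, 1; 0, 1)`), depleted (`Σ_j z (n+1) (u b + u j p^n) = 0` for `u ≡ 1` modulo `p`), values in `pi KI`, `1 ≤ v(Y b₀)`, so (TYP (b) with `e = 1`) `1 ≤ v(Y b₀)^(p-1) v p`; DVN for `n`. -/
def So_HN : Prop :=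
  ∀ (p : ℕ) (V : ValuationSubring ℂ) (N₀ s₀ q' i : ℕ) (nu : ℤ → ℂ)
    (Q : OnePoint ℚ → OnePoint ℚ → ℂ) (pi : ℂ) (KI : Subfield ℂ),
    HypQ p V N₀ s₀ nu Q pi KI →
    (∀ x : ℚ, ∑ j ∈ Finset.range p, Q ∞ (((x + j) / p : ℚ) : OnePoint ℚ) = 0) →
    (∀ w ∈ KI, V.valuation w < 1 → V.valuation w ≤ V.valuation (p : ℂ)) →
    q' ≤ i * (p - 1) → i < q' → q' < (p - 1) * p ^ 2 →
    V.valuation pi ^ q' * V.valuation (p : ℂ) ^ i = 1 →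
    ∀ (α g : ℤ), (p : ℤ) ∣ α - 1 → α ≠ 1 → (p : ℤ) ∣ g - 1 → g ≠ 1 → ∀ n₀ : ℕ,
      ∃ n, n₀ ≤ n ∧ ∀ ζ : ℂ, IsPrimitiveRoot ζ (p ^ (n + 1)) →
        V.valuation (p : ℂ) < V.valuation (∑ b ∈ Finset.range (p ^ (n + 1)), ζ ^ b *
          comb α g 1 (fun b => Q ∞ (((b : ℚ) / (p : ℚ) ^ (n + 1) : ℚ) : OnePoint ℚ)) b)

/-- (HR) the conclusion of the block, ramified case: the support of the Fourier coefficients is in the squares.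

USES NZ, DVR, TYP, FAC. MODEL: `MUX/HN_HR.lean`. PROOF. `G = Σ J(j | p) om^j ∈ KI`: `n + 1`, `b₀` from NZ (`N = 1`; applied to `n₀ + 1`), `Q ∞ x ≠ 0` for some `x` (otherwise all combinations are `0`), `Q ∞ x = pi w`, `Σ_j J(j | p) Q ∞ (x + j/p) = pi w'`, `w, w' ∈ KI`, `G = w'/w`. FAC: `F`, `H`.
`Y b = comb α g 1 (z (n+1)) b`, `z (n+1) b = Q ∞ (b/p^(n+1))`: periodic modulo `p^(n+1)`, `Σ_j J(j | p) z (u b + u j p^n) = G z (u b)` for `u ≡ 1` modulo `p`, so `f(l) = Y (b + l p^n)` satisfies the relation of FAC (`p ∣ g - 1`, `α² - 1`), so `Σ_l F_l Y (b - l p^n) = 0`.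
`1 ≤ v(Y b₀)^(p-1) v p` (TYP (b), `e = 2`, `q' = p - 1`). `F(ζ^(p^n)) = F(om⁻¹) = 0`. DVR. (`gap` is a field of `HypQ`; the data `i`, `unr`, `vpi` are used for TYP (b).) -/
def So_HR : Prop :=
  ∀ (p : ℕ) (V : ValuationSubring ℂ) (N₀ s₀ i : ℕ) (nu : ℤ → ℂ)
    (Q : OnePoint ℚ → OnePoint ℚ → ℂ) (pi : ℂ) (KI : Subfield ℂ) (om : ℂ),
    HypQ p V N₀ s₀ nu Q pi KI → IsPrimitiveRoot om p →
    (∀ x : ℚ, ∑ j ∈ Finset.range p, (jacobiSym (j : ℤ) p : ℂ) *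
      Q ∞ ((x + (j : ℚ) / p : ℚ) : OnePoint ℚ) =
      (∑ j ∈ Finset.range p, (jacobiSym (j : ℤ) p : ℂ) * om ^ j) * Q ∞ (x : OnePoint ℚ)) →
    (∀ w ∈ KI, V.valuation w < 1 → V.valuation w ^ 2 ≤ V.valuation (p : ℂ)) →
    2 ≤ i → i < p - 1 → V.valuation pi ^ (2 * (p - 1)) * V.valuation (p : ℂ) ^ i = 1 →
    ∀ (α g : ℤ), (p : ℤ) ∣ α - 1 → α ≠ 1 → (p : ℤ) ∣ g - 1 → g ≠ 1 → ∀ n₀ : ℕ,
      ∃ n, n₀ ≤ n ∧ ∀ ζ : ℂ, IsPrimitiveRoot ζ (p ^ (n + 1)) → ζ ^ p ^ n * om = 1 →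
        V.valuation (p : ℂ) < V.valuation (∑ b ∈ Finset.range (p ^ (n + 1)), ζ ^ b *
          comb α g 1 (fun b => Q ∞ (((b : ℚ) / (p : ℚ) ^ (n + 1) : ℚ) : OnePoint ℚ)) b)

/-- (PRT) Theorem G is inherited by a part of a symbol from which the symbol can be recovered by translations.

MODEL: `MUX/HN_H1N.lean`. PROOF. `q`, `c` as in the hypothesis, `h` from the hypothesis for `N' q²`. With `T_t = mob q t 0 q`, `τ = mob p³ 1 0 p³`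
(`T_t τ = τ T_t` on cusps): `PT p P ∞ (h ∞) = Σ_t c_t PT p Q ∞ (h_t ∞)`, `T_t (h ∞) = h_t ∞`, `h_t = T_t h T_t⁻¹ =
(α + t γ/q, β + t (δ - α)/q - t² γ/q²; γ, δ - t γ/q)`, integral and in `Γ₁(N')`. If all terms had
`v(..)^M < v p`, `M = (p-1) p²`, then so would the sum (`v` of the sum is at most the maximum). -/
def So_PRT : Prop :=
  ∀ (p : ℕ) (_ : p.Prime) (V : ValuationSubring ℂ) (_ : V.valuation (p : ℂ) < 1) (N₁ M : ℕ)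
    (P Q : OnePoint ℚ → OnePoint ℚ → ℂ) (q : ℕ) (c : ℕ → ℂ) (_ : q ≠ 0) (_ : M ≠ 0)
    (_ : ∀ t, V.valuation (c t) ≤ 1)
    (_ : ∀ x y : OnePoint ℚ, ∑ t ∈ Finset.range q, c t * Q (mob q t 0 q x) (mob q t 0 q y) =
      P x y)
    (_ : ∀ N' : ℕ, N' ≠ 0 → N₁ ∣ N' → ∃ α β γ δ : ℤ, α * δ - β * γ = 1 ∧ (N' : ℤ) ∣ γ ∧
      (N' : ℤ) ∣ δ - 1 ∧ V.valuation (p : ℂ) ≤ V.valuation (PT p P ∞ (mob α β γ δ ∞)) ^ M),
    ∀ N' : ℕ, N' ≠ 0 → N₁ ∣ N' → ∃ α β γ δ : ℤ, α * δ - β * γ = 1 ∧ (N' : ℤ) ∣ γ ∧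
      (N' : ℤ) ∣ δ - 1 ∧ V.valuation (p : ℂ) ≤ V.valuation (PT p Q ∞ (mob α β γ δ ∞)) ^ M

end

end Pool.Agent.OBH
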