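import Pool.Agent.OB.Defs0
import Pool.Agent.OB.StHN
import Pool.Agent.NS.G_Trl

/-!
# OB, block G: Theorem G for `PT p (PhiK R e kk / (u om_0))`, `t = 1/p³` (helper59), after helper6's `NS/G_*.lean` (`p = 3`, `t = 1/27`)

`NSG.Sn_GTH` (`NS/G_Gth.lean`: `gth`, general) is Theorem G for a family of symbols with data `GDatN`. Here: the data for the translates by `t/p³` of the symbols `PhiI (R.b i) e'`. Every statement is a `def So_X : Prop`; the
module OBG_X proves `theorem o_X (h : ..) .. : So_X` in `Pool/Agent/OB/G_X.lean`, namespace `Pool.Agent.OBG` (private lemmas in `Pool.Agent.OBG.X`).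
-/

set_option autoImplicit false

namespace Pool.Agent.OBG

open _root_.MU3 Pool.Agent.MU3A Pool.Agent.MU3B Pool.Agent.MU3Q Pool.Agent.MUX Pool.Agent.MuSym
  Pool.Agent.MUXN Pool.Agent.NS Pool.Agent.NSG Pool.Agent.OB OnePoint UpperHalfPlane

noncomputable section

/-- (TRL) translates by `t / T` of a symbol and of its primitive. MODEL: `Pool.Agent.NSG.Trl.tr` (`NS/G_Trl.lean`), there `T = 27`, `T² = 729`: replace `27` by the positive integer `T`, `729` by `T²`. -/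
def So_TRL : Prop :=
  ∀ (T : ℕ), T ≠ 0 → ∀ (N : ℕ) (Φ : OnePoint ℚ → OnePoint ℚ → ℂ) (ϑ : ℂ → ℂ), SymN N Φ ϑ → ∀ t : ℤ,
    SymN (T ^ 2 * N) (fun x y => Φ (mob (T : ℤ) t 0 (T : ℤ) x) (mob (T : ℤ) t 0 (T : ℤ) y))
      (fun τ => ϑ (τ + t / (T : ℂ)))

/-- (LCN) common denominators prime to `V` of elements of `k ∩ V`. MODEL: `Pool.Agent.NSG.loc_I` (`NS/G_Lcn.lean`), there `P = 3 O`.

PROOF for any prime `P`. One element `y ∈ k ∩ V`: `D y = emb c`, `D` a positive integer. The ideal `I = {t ∈ O : emb t * y ∈ emb O}` is not contained in `P`: `I = (D : c)`; in the Dedekind domain `O` the localization at `P` is a discrete valuation ring: let `s ∈ P`, `s ∉ P²`; or directly: let `k` be the exponent of `P` in `(D)`, `(D) = P^k J`, `J` not in `P`; `v(c) ≤ v(D)`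
implies `c ∈ P^k` (otherwise `(c) = P^j J'`, `j < k`, `J'` not in `P`; choose `t' ∈ P^(k-1-j)`.. compare: take `a ∈ J'` .. then an element `x` of `P^j`-part: by the Chinese remainder theorem there are `α ∈ P^(k)` .. ); SIMPLEST: `h` = the class number, `P^h = (π)`: `v(x)^h`.. For `x ≠ 0` with `(x) = P^j J'`, `J'` not in `P`: `(x^h) = (π^j) J'^h`, `J'^h = (x')`,
`x^h = ε π^j x'`, `v(emb x') = 1` (`x' ∉ P`), so `v(emb x)^h = v(emb π)^j`. So `v(c) ≤ v(D)` and `v(π) < 1` give `j(c) ≥ j(D) = k`. Then `(c) J ≤ P^k J = (D)`: for `t ∈ J`, `t ∉ P`: `c t = D b`, `emb t * y = emb b`. Finite sets: products of the `t`. `te_RNG` (`MUX/E_RNG.lean`, field `ded`), `MUX/XLib.lean`, finiteness of the class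
group: the class number of `O`: see `MU3`, `TWR`; or take a finite power of `P` principal from `NumberField.RingOfIntegers.instFintypeClassGroup` by transport (`MUX/E_RNG.lean`, `int`). Another way: the localization `Localization.AtPrime P` is a discrete valuation ring (`IsLocalization.AtPrime.isDiscreteValuationRing_of_dedekind_domain`), its image in `ℂ` is contained in `V` and is a
valuation ring with `V ∩ k` above it, so they are equal (a discrete valuation ring is a maximal proper subring of its field of fractions): every `y ∈ k ∩ V` is `b/t` with `t ∉ P`. -/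
def So_LCN : Prop :=
  ∀ (p er : ℕ) (A B : ℤ) (P : Ideal (OO A B)) (V : ValuationSubring ℂ), CaseO p er A B P V →
    LocN A B V

/-- (LEG) the lattice `u L_0` in Legendre form, and `u` is algebraic. MODEL: `Pool.Agent.NSG.legN`, `leg_alg`, `cub` (`NS/G_Leg.lean`); `v1`, `v2` are the fields `vl`, `vl1` of `GoodL`.

USES `MUXU.Su_SCX` (`Pool.Agent.MUXU.u_SCX`, `MUX/UAll.lean`). -/
def So_LEG : Prop :=
  ∀ (A B : ℤ), CQ A B → TorX A B → ∀ (n : ℕ) (ι : Type) (R : Reps A B n ι) (V : ValuationSubring ℂ)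
    (u e lam : ℂ), GoodL V (R.L R.i0) u e lam →
    IsAlgebraic ℚ u ∧ ∃ L' : PeriodPair, LegN A B V L' (u * R.om R.i0) (e / u ^ 2) lam

/-- (UNN) units and ideals with a generator. MODEL: `Pool.Agent.NSG.unit_I` (`NS/G_Unn.lean`): only `5 ≤ absD` is used there; here `absD ≠ 3, 4` and `CQ`.

USES Sx_IDL, Sx_NIM (as there). -/
def So_UNN : Prop :=
  ∀ (A B : ℤ), CQ A B → absD A B ≠ 3 → absD A B ≠ 4 →
    (∀ x : OO A B, nm x = 1 → x = 1 ∨ x = -1) ∧
    ∀ (b : Ideal (OO A B)) (_ : b ≠ ⊥) (x : OO A B), x ∈ b → nm x = MUX.nI b → b = MUX.sp x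

/-- (GPT) THE RESULT. MODELS: `NS/G_Gdn.lean` (`gdat`) and `NS/G_Gpt.lean` (`gPT`), with `T = p³` instead of `27`, `T² N'` instead of `729 N'`, `Fin (p ^ 3)` instead of `Fin 27`, `ζ = exp (2 π i/p³)` instead of `z27`; `v(ζ - 1)^((p-1) p²) = v p` is `MUXH.Hz.val_p p pp V 2 ζ`.

USES TRL, LCN, LEG, UNN, `Sn_GTH` and the statements in the hypotheses of `gPT` (`Xs_FTI`, `Sx_CHI`, `Sy_CON`, `Sy_ALP`, `Sy_FEC`, `Sy_COP`, `Sx_ALG`, `Sx_IDL`, `Sx_QB`, `Sx_BDD`, `Sx_TSM`); `qx` (`NS/G_Qxn.lean`) is general. `0, 1` are different in `Fin (p ^ 3)` (`p ≥ 5`). -/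
def So_GPT : Prop :=
  ∀ (p er : ℕ) (A B : ℤ) (P : Ideal (OO A B)) (V : ValuationSubring ℂ) (f : ℕ),
    SetO p er A B P V f → TorX A B →
    ∀ (ι : Type) [Fintype ι] (R : Reps A B (p * f) ι) (u el lam : ℂ),
    GoodL V (R.L R.i0) u el lam → ∀ e : OO A B → ℂ, IsEI (idl (A := A) (B := B) (p * f)) e →
    ∀ r : ℕ, r ≠ 0 → (∀ x, e x ≠ 0 → e x ^ r = 1) → ∀ kk : ι → ℂ, V.valuation (kk R.i0) = 1 →
    ∀ N' : ℕ, N' ≠ 0 → absD A B * ((p * f : ℕ) : ℤ) ^ 2 ∣ (N' : ℤ) →
    ∃ a b c d : ℤ, a * d - b * c = 1 ∧ (N' : ℤ) ∣ c ∧ (N' : ℤ) ∣ d - 1 ∧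
      V.valuation (p : ℂ) ≤
        V.valuation (Pool.Agent.OBH.PT p (fun x y => PhiK R e kk x y / (u * R.om R.i0)) ∞
          (mob a b c d ∞)) ^ ((p - 1) * p ^ 2)

end

end Pool.Agent.OBG
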