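import Pool.Agent.OB.StE

/-!
# OB, block GR, part (B): inertia groups are trivial (helper51; proof of helper19 and helper23)

`CaseO`, `V` above `P`, `TorX A B`, and part (A) of `O_RFIN`: every normalised lattice has a good model `u, e, lam` with `u², e, lam ∈ RF (idl 2)`. THEOREM (FIN): `m ≠ ⊥`, `¬ m ≤ P`: an automorphism of `ℂ` over `k` which is in the inertia group of
`RF m` at `V` is trivial on `RF m`. No theorem on reduction of endomorphisms is used.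

PROOF. (1) Inertia elements lift to larger `RF m` (LIF, LFT). (2) Reduction is injective on `E[m]`, `¬ m ≤ P` (CTX, field `ker`). (3) TWO: `m ≤ idl 2`, `s` in the inertia group of `RF m`, trivial on `RF (idl 2)`: the ideal of `s` is `(c)`, `c ≡ 1` mod `2`, `L^s = L`, `s(x(z)) = x(cz) ≡ x(z)`, so `cz = ± z` on `E[m]`,
`c ≡ ± 1` modulo `m`, `s` is trivial on `RF m`. (4) Let `s` be in the inertia group of `RF (idl 2)`, not trivial, of prime order `l` there (ORD), `a` its ideal, `a^l = (α)`. For a prime `Λ` of degree one, `m = 2 Λ`: a lift `s'` has `s'^l` trivial on `RF m` (TWO), its ideal `b` has `b^l = (β)`, `β ≡ 1` modulo `m`, and `x a = y b` (LPC).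
So `α` is `±` an `l`-th power modulo `Λ`, for all `Λ` outside a finite set: `α = ± γ^l` (KMO), `a = (γ)` (PCL), `γ ≢ 1`, `γ^l ≡ 1` modulo `2`: `l = 2, 3`. (5) So `b = (c)`, `c^l ≡ ± 1` modulo `m`. Choose `Λ` with `-1` (`l = 2`) or `-3` (`l = 3`) not a square modulo `Λ` (SQN): `c ≡ ± 1` modulo `Λ` (RTS). Then `s'(x(z)) = x(z)` for
`z ∈ E[Λ]`, `x = xn`, and `s'(X z) ≡ X z` for the coordinate `X = (xn + 1/12 - e)/u²` of the good model gives `s' e = e`, `s' u² = u²` (ENL), so `s'` is trivial on `RF (idl 2)` (END), a contradiction.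

Every `def Sg_X : Prop` is the statement of the module OBB_X, which proves `theorem tg_X (h : ..) .. : Sg_X` in `Pool/Agent/OB/B_X.lean`, namespace `Pool.Agent.OBB` (private lemmas in `Pool.Agent.OBB.X`). The statements named under `Uses` are hypotheses (drop those which are not needed).
Usable: `MUX/XLib.lean` (facts on `emb`, `nI`, ideals for `CQ`), `Pool.Agent.MUXE.te_RNG : Sxe_RNG` (`MUX/E_RNG.lean`), `te_TRA`, `te_TRB te_TRA`-like theorems (`MUX/E_TRA.lean`, `E_TRB.lean`), `Pool.Agent.MUXE.GalX.core`, `GalX.fix` (`MUX/E_GAL.lean`), `Pool.Agent.MUX.. z_NLE : Sy_NLE` (`MUX/ZY.lean`) or `y_NLE` (`MUX/YRAll.lean`): existence of normalised lattices.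
IMPORT only original files, never `MVF`.
-/

set_option autoImplicit false

namespace Pool.Agent.OBB

open _root_.MU3 _root_.Pool.Agent.MU3A _root_.Pool.Agent.MU3B _root_.Pool.Agent.MUX _root_.Pool.Agent.MUXU _root_.Pool.Agent.MUXE
open _root_.Pool.Agent.RI _root_.Pool.Agent.NS _root_.Pool.Agent.OB _root_.Pool.Agent.OBE
open _root_.Pool.Agent.MUXV (GR InK tX)
open NumberField IsDedekindDomain

noncomputable section

/-! ## Definitions -/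

/-- `σ` is trivial on `RF m` -/
def Tri {A B : ℤ} (m : Ideal (OO A B)) (σ : ℂ ≃+* ℂ) : Prop := ∀ y ∈ RF m, σ y = y

/-- `σ` is in the inertia group of `RF m` at `V` -/
def Ine {A B : ℤ} (V : ValuationSubring ℂ) (m : Ideal (OO A B)) (σ : ℂ ≃+* ℂ) : Prop :=
  FixK A B σ ∧ ∀ y ∈ RF m, y ∈ V → σ y - y ∈ V.nonunits

/-- `a` is an ideal of `σ` at level `m` (for all normalised lattices) -/
def IdA {A B : ℤ} (m a : Ideal (OO A B)) (σ : ℂ ≃+* ℂ) : Prop :=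
  FixK A B σ ∧ IsCoprime a m ∧ ∀ (b : Ideal (OO A B)) (L : PeriodPair) (om : ℂ), IsNL b L om →
    ∃ (b' : Ideal (OO A B)) (L' : PeriodPair) (om' mu : ℂ), IsNL b' L' om' ∧ ActI σ m a L L' mu

/-- `σ` acts on `E[m]/±` of every normalised lattice as multiplication by `c` -/
def MulC {A B : ℤ} (m : Ideal (OO A B)) (c : OO A B) (σ : ℂ ≃+* ℂ) : Prop :=
  ∀ L, NL A B L → σ (kap L) = kap L ∧ ∀ z, Tor m L z → z ∉ L.lattice →
    emb c * z ∉ L.lattice ∧ σ (xn L z) = xn L (emb c * z)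

/-- part (A) of `O_RFIN` -/
def GoodA (A B : ℤ) (V : ValuationSubring ℂ) : Prop :=
  ∀ (b : Ideal (OO A B)) (L : PeriodPair) (om : ℂ), IsNL b L om →
    ∃ u e lam : ℂ, GoodL V L u e lam ∧ u ^ 2 ∈ RF (idl (A := A) (B := B) 2) ∧
      e ∈ RF (idl (A := A) (B := B) 2) ∧ lam ∈ RF (idl (A := A) (B := B) 2)

/-- the situation -/
structure CtxG (p er : ℕ) (A B : ℤ) (P : Ideal (OO A B)) (V : ValuationSubring ℂ) : Prop
    extends CaseO p er A B P V, Cp p V where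
  tor : TorX A B
  ex : ∃ L, NL A B L
  two : ((2 : ℕ) : OO A B) ∉ P
  good : ∀ L, NL A B L → ∃ u e lam : ℂ, GoodL V L u e lam ∧
    u ^ 2 ∈ RF (idl (A := A) (B := B) 2) ∧ e ∈ RF (idl (A := A) (B := B) 2) ∧
    lam ∈ RF (idl (A := A) (B := B) 2)
  ker : ∀ (L : PeriodPair) (u e lam : ℂ), NL A B L → GoodL V L u e lam →
    ∀ m : Ideal (OO A B), ¬ m ≤ P → ∀ z, Tor m L z → InK V L (xu L u e) z → z ∈ L.lattice

/-! ## Lifting of inertia elements -/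

/-- (LIF) lifting of elements of the inertia group. PORT of `Pool/Agent/NS/RN_LIF.lean` (`Sr_LIF`), where `3` is used only for a nonzero element of `𝓞 E` with `v < 1` (`exists_prime`): replace `3` by `p` (`map_natCast`); the namespace `Pool.Agent.NSR.LIF` (`lift_aux`, `of_int`, `wsq`) can be imported and used. -/
def Sg_LIF : Prop :=
  ∀ (p : ℕ), p.Prime → ∀ (A B : ℤ) (V : ValuationSubring ℂ), CQ A B → V.valuation (p : ℂ) < 1 →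
    ∀ (F₁ M : IntermediateField (kk A B) ℂ), FiniteDimensional (kk A B) F₁ →
    IsGalois (kk A B) F₁ → FiniteDimensional (kk A B) M → ∀ σ : ℂ ≃+* ℂ, FixK A B σ →
    (∀ y ∈ F₁, V.valuation y ≤ 1 → V.valuation (σ y - y) < 1) →
    ∃ σ' : ℂ ≃+* ℂ, FixK A B σ' ∧ (∀ y ∈ F₁, σ' y = σ y) ∧
      ∀ y ∈ M, V.valuation y ≤ 1 → V.valuation (σ' y - y) < 1

/-- (LFT) lifting from `RF m` to `RF m'`.

Uses LIF. PROOF. `F₁ = RF m`, `M = RF m'` (`TorX.fin`, `TorX.gal`). `v p < 1`: `p ∈ P` and `OverI` (`emb_natCast`). `y ∈ V` iff `v y ≤ 1`; `y ∈ V.nonunits` iff `v y < 1` (`ValuationSubring.valuation_lt_one_iff`-type lemmas; see `Pool/Agent/NS/RN_UNR.lean`). -/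
def Sg_LFT : Prop :=
  ∀ (p er : ℕ) (A B : ℤ) (P : Ideal (OO A B)) (V : ValuationSubring ℂ), CaseO p er A B P V →
    TorX A B → ∀ m m' : Ideal (OO A B), m ≠ ⊥ → m' ≠ ⊥ → ∀ σ : ℂ ≃+* ℂ, Ine V m σ →
    ∃ σ' : ℂ ≃+* ℂ, Ine V m' σ' ∧ ∀ y ∈ RF m, σ' y = σ y

/-- (GRP) inertia elements.

PROOF. (1) `RF m / k` is Galois, so normal; `σ` fixes `k` (`GalX.fix`), so `σ` maps `RF m` into itself (`AlgEquiv.restrictNormal_commutes` for `AlgEquiv.ofRingEquiv`, as in `NSR.LIF`). (2) `m ≤ m'`: `RF m' ≤ RF m` (`TorX.mono`). (3) `(s * t) y - y = (s (t y) - t y) + (t y - y)`, `t y ∈ RF m` by (1), `t y = y + (t y - y) ∈ V`;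
`V.nonunits` is closed under addition (`v < 1`). Powers by induction (`s ^ 0 = 1`: `0 ∈ V.nonunits`). (4) induction on `n`, with (1). Here `s * t`, `s ^ n` are in the group `ℂ ≃+* ℂ` (`RingAut ℂ`), `(s * t) y = s (t y)`. -/
def Sg_GRP : Prop :=
  ∀ (A B : ℤ), TorX A B → ∀ m : Ideal (OO A B), m ≠ ⊥ →
    (∀ s : ℂ ≃+* ℂ, FixK A B s → ∀ y ∈ RF m, s y ∈ RF m) ∧
    (∀ (m' : Ideal (OO A B)), m ≤ m' → ∀ s : ℂ ≃+* ℂ, (Tri m s → Tri m' s) ∧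
      ∀ V : ValuationSubring ℂ, Ine V m s → Ine V m' s) ∧
    (∀ (V : ValuationSubring ℂ) (s : ℂ ≃+* ℂ), Ine V m s → ∀ n : ℕ, Ine V m (s ^ n)) ∧
    ∀ (s t : ℂ ≃+* ℂ), FixK A B s → FixK A B t → (∀ y ∈ RF m, s y = t y) →
      ∀ n : ℕ, ∀ y ∈ RF m, (s ^ n) y = (t ^ n) y

/-- (ORD) an inertia element of prime order.

Uses GRP. PROOF. The restriction `τ` of `σ` to `RF m` (`σ` fixes `k`; `AlgEquiv.restrictNormal`) is in the finite group `Gal(RF m / k)` (`TorX.fin`), `τ ≠ 1`. `N = orderOf τ > 1`, `l` a prime divisor of `N`, `s = σ ^ (N/l)`: (GRP) `Ine`, `s` is not trivial on `RF m` (`τ ^ (N/l) ≠ 1`), `s ^ l = σ ^ N` is trivial on `RF m`. -/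
def Sg_ORD : Prop :=
  ∀ (A B : ℤ) (V : ValuationSubring ℂ), TorX A B → ∀ m : Ideal (OO A B), m ≠ ⊥ →
    ∀ σ : ℂ ≃+* ℂ, Ine V m σ → ¬ Tri m σ →
    ∃ (l : ℕ) (s : ℂ ≃+* ℂ), l.Prime ∧ Ine V m s ∧ ¬ Tri m s ∧ Tri m (s ^ l)

/-! ## Ideals of automorphisms -/

/-- (IDA) formal properties of `IdA`.

PROOF. Let `L₀` be a normalised lattice (hypothesis `ex`). (1) `TorX.act`. (2) if `a = ⊥` then `IsQ` says that all `mu z` are in `L'.lattice`; `ω₁/2` is not (`PeriodPair.ω₁_div_two_notMem_lattice`). (3) `m ≤ m'`: `Tor m' L z` implies `Tor m L z`; `a + m = ⊤` implies `a + m' = ⊤`. (4) `TorX.comp`: `(s.trans t) y = t (s y)`.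
(5) induction on `n ≥ 1`: `s ^ (n + 1) = (s ^ n).trans s` or `s.trans (s ^ n)`; `IsCoprime.mul_left`. (6) `TorX.triv` for `L₀` (`L'.nrm`). -/
def Sg_IDA : Prop :=
  ∀ (A B : ℤ), CQ A B → TorX A B → (∃ L, NL A B L) → ∀ m : Ideal (OO A B), m ≠ ⊥ →
    (∀ s : ℂ ≃+* ℂ, FixK A B s → ∃ a : Ideal (OO A B), IdA m a s) ∧
    (∀ (a : Ideal (OO A B)) (s : ℂ ≃+* ℂ), IdA m a s → a ≠ ⊥) ∧
    (∀ (a : Ideal (OO A B)) (s : ℂ ≃+* ℂ), IdA m a s → ∀ m' : Ideal (OO A B), m ≤ m' →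
      IdA m' a s) ∧
    (∀ (a b : Ideal (OO A B)) (s t : ℂ ≃+* ℂ), IdA m a s → IdA m b t →
      IdA m (a * b) (s.trans t)) ∧
    (∀ (a : Ideal (OO A B)) (s : ℂ ≃+* ℂ), IdA m a s → ∀ n : ℕ, n ≠ 0 → IdA m (a ^ n) (s ^ n)) ∧
    ∀ (a : Ideal (OO A B)) (s : ℂ ≃+* ℂ), IdA m a s →
      (Tri m s ↔ ∃ c : OO A B, c - 1 ∈ m ∧ a = sp c)

/-- (CMP) automorphisms which agree on `RF m` have equivalent ideals.

Uses IDA. PROOF. `r = t.symm` (it fixes `k`), `c` an ideal of `r` (IDA 1). `b c` is an ideal of `t.trans r`, the identity, so `b c = (c₁)`, `c₁ - 1 ∈ m` (IDA 4, 6). `a c` is an ideal of `s.trans r`, `y ↦ t⁻¹ (s y) = y` for `y ∈ RF m`, so `a c = (c₂)`, `c₂ - 1 ∈ m`. `(c₁) a c = (c₁)(c₂) = (c₂) b c`, cancel `c ≠ ⊥` (`XLib.mul_cancel`). `c₁, c₂ ≠ 0` as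
`a, b, c ≠ ⊥` (IDA 2; `mul_ne_bot`). -/
def Sg_CMP : Prop :=
  ∀ (A B : ℤ), CQ A B → TorX A B → (∃ L, NL A B L) → ∀ m : Ideal (OO A B), m ≠ ⊥ →
    ∀ (a b : Ideal (OO A B)) (s t : ℂ ≃+* ℂ), IdA m a s → IdA m b t → (∀ y ∈ RF m, s y = t y) →
    ∃ x y : OO A B, x ≠ 0 ∧ y ≠ 0 ∧ x - 1 ∈ m ∧ y - 1 ∈ m ∧ sp x * a = sp y * b

/-- (PRN) a principal ideal acts as multiplication.

PROOF. `Pool.Agent.MUXE.GalX.core` (`MUX/E_GAL.lean`) for `L`, `L'`, `mu`: `kap L' = kap L`, `mu = ± emb c`, equal lattices and `℘`; then as in `GalX.mk`. -/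
def Sg_PRN : Prop :=
  ∀ (A B : ℤ), CQ A B → ∀ (m : Ideal (OO A B)) (c : OO A B) (s : ℂ ≃+* ℂ), IdA m (sp c) s →
    MulC m c s

/-- (ANN) annihilators of `E[m]`.

PROOF. (1) If `x ∉ m`, `m₁ = m ⊔ sp x > m`: (TRB 1) gives `z` with `Tor m L z`, not `Tor m₁ L z`; but `z` is killed by `m` and by `x`: contradiction. (2) If `emb x z ∈ L` or `emb y z ∈ L` for all `z` in the group `E[m]` then one of the two subgroups `{z ∈ E[m] : emb x z ∈ L}`, `{z ∈ E[m] : emb y z ∈ L}` is `E[m]` (a group is not the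
union of two proper subgroups: `z₁` not in the first, `z₂` not in the second, consider `z₁ + z₂`); then (1). -/
def Sg_ANN : Prop :=
  ∀ (A B : ℤ), CQ A B → ∀ L, NL A B L → ∀ m : Ideal (OO A B), m ≠ ⊥ →
    (∀ x : OO A B, (∀ z, Tor m L z → emb x * z ∈ L.lattice) → x ∈ m) ∧
    ∀ x y : OO A B, (∀ z, Tor m L z → emb x * z ∈ L.lattice ∨ emb y * z ∈ L.lattice) →
      x ∈ m ∨ y ∈ m

/-! ## Reduction -/

/-- (CTX) from the hypotheses to `CtxG`.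

Uses Sb_UNT. PROOF. `v p < 1`: `OverI` for `p ∈ P`. `p ≠ 2`: `5 ≤ p`. `ex`: `z_NLE` (`Sy_NLE`) for `b = ⊤`. `two`: `p` is odd, `1 = a 2 + b p`. `good`: `GoodA`. `ker`: `c ∈ m`, `c ∉ P`. `emb c` is integral over `ℤ` (`te_RNG`, `int`), so in `V`, and not in `V.nonunits` (`OverI`): `v(emb c) = 1`. `L` has complex multiplication (`te_TRA` (1)):
`Isg L L (emb c)`, `emb c ≠ 0`. (UNT) for `M = L`, the same `u, e, lam`: `v(emb c * u/u) = 1`, so `Ker0 V L L u e (emb c)`; `emb c * z ∈ L` as `Tor m L z`. -/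
def Sg_CTX : Prop :=
  ∀ (p er : ℕ) (A B : ℤ) (P : Ideal (OO A B)) (V : ValuationSubring ℂ), CaseO p er A B P V →
    TorX A B → GoodA A B V → CtxG p er A B P V

/-- (TWO) inertia elements which are trivial on `RF (idl 2)`.

Uses Sb_GRN, GRP, IDA, PRN, ANN. PROOF. `a` an ideal of `s` at level `m` (IDA 1), and at level `idl 2` (IDA 3), so `a = sp c`, `c - 1 ∈ idl 2` (IDA 6). `MulC m c s` (PRN). Let `L` be a normalised lattice (`ex`), `u, e, lam` (`good`), `X = xu L u e`, `X z = (xn L z + 1/12 - e)/u²` for all `z`. Let `Tor m L z`, `z ∉ L`. `emb c z ∉ L`, `Tor m L (emb c z)`,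
`s (xn L z) = xn L (emb c z)`, and `s` fixes `e`, `u²`, so `s (X z) = X (emb c z)`. `z ∉ InK` (`ker`), so `v(X z) ≤ 1` (`MUXV.int_X`), and `X z ∈ RF m` (`xn L z` is a generator; `RF (idl 2) ≤ RF m`). So `v(X (emb c z) - X z) < 1`. If `emb c z - z` and `emb c z + z` are not in `InK` then `v(X (emb c z) - X z) = 1` (`MUXV.v_X_sub` with (GRN)).
So one of them is in `InK`, hence in `L` (`ker`): `emb (c - 1) z ∈ L` or `emb (c + 1) z ∈ L`. (ANN 2): `c - 1 ∈ m` or `c + 1 ∈ m`. In the second case `a = sp (-c)`, `-c - 1 ∈ m`. (IDA 6): `Tri m s`. -/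
def Sg_TWO : Prop :=
  ∀ (p er : ℕ) (A B : ℤ) (P : Ideal (OO A B)) (V : ValuationSubring ℂ), CtxG p er A B P V →
    ∀ m : Ideal (OO A B), m ≠ ⊥ → m ≤ idl (A := A) (B := B) 2 → ¬ m ≤ P → ∀ s : ℂ ≃+* ℂ,
    Ine V m s → Tri (idl (A := A) (B := B) 2) s → Tri m s

/-- (LPC) the lift of an element of order `l` and its ideal.

Uses LFT, GRP, TWO, IDA, CMP. PROOF. (LFT) from `idl 2` to `m`: `s'`. `s' ^ l` is in the inertia group of `RF m` (GRP 3), and on `RF (idl 2)` equal to `s ^ l` (GRP 4), so trivial. (TWO): `Tri m (s' ^ l)`. `b` an ideal of `s'` at level `m` (IDA 1), `b ^ l` is an ideal of `s' ^ l` (IDA 5), so `b ^ l = sp β`, `β - 1 ∈ m` (IDA 6).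
`b` is an ideal of `s'` at level `idl 2` (IDA 3), (CMP) at level `idl 2` for `s`, `s'`. -/
def Sg_LPC : Prop :=
  ∀ (p er : ℕ) (A B : ℤ) (P : Ideal (OO A B)) (V : ValuationSubring ℂ), CtxG p er A B P V →
    ∀ (l : ℕ) (s : ℂ ≃+* ℂ) (a : Ideal (OO A B)), l.Prime → Ine V (idl (A := A) (B := B) 2) s →
    Tri (idl (A := A) (B := B) 2) (s ^ l) → IdA (idl (A := A) (B := B) 2) a s →
    ∀ m : Ideal (OO A B), m ≠ ⊥ → m ≤ idl (A := A) (B := B) 2 → ¬ m ≤ P →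
    ∃ (s' : ℂ ≃+* ℂ) (b : Ideal (OO A B)) (β x y : OO A B), Ine V m s' ∧
      (∀ y ∈ RF (idl (A := A) (B := B) 2), s' y = s y) ∧ IdA m b s' ∧ b ^ l = sp β ∧ β - 1 ∈ m ∧
      x ≠ 0 ∧ y ≠ 0 ∧ sp x * a = sp y * b

/-! ## The ring `O` -/

/-- (UNI) units, powers of ideals, the ring `O/2`.

PROOF. `O` is a Dedekind domain (`te_RNG`, field `ded`). (1) `x = y t`, `y = x t'`: if `x ≠ 0` then `t t' = 1`, `nm t * nm t' = 1`, `nm t = 1` (`nm_nonneg`); `nm t = 1` gives `t = ± 1` as `absD ≠ 3, 4`: `Pool.Agent.OBG` `G_UNN.lean` (`So_UNN`), or: `4 nm t = (2 a + B b)² + absD b²`, `absD ≥ 7` or so (`absD ∈ {3, 4, 7, 8, ..}`: `b = 0`). (2) unique factorisation of ideals: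
`a ^ n ∣ b ^ n` gives `a ∣ b` (`pow_dvd_pow_iff`), `Ideal.dvd_iff_le`. (3) the class of `g` in `O/(2)` (4 elements: `nI_sp`, `nm 2 = 4`) is a unit `≠ 1` with `l`-th power `1`: of order `l`, and there are at most three units, so `l ≤ 3`. (Or: directly with the coordinates modulo 2.) -/
def Sg_UNI : Prop :=
  ∀ (A B : ℤ), CQ A B → absD A B ≠ 3 → absD A B ≠ 4 →
    (∀ x y : OO A B, sp x = sp y → x = y ∨ x = -y) ∧
    (∀ (a b : Ideal (OO A B)) (n : ℕ), n ≠ 0 → a ^ n = b ^ n → a = b) ∧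
    ∀ (g : OO A B) (l : ℕ), l.Prime → g - 1 ∉ idl (A := A) (B := B) 2 →
      g ^ l - 1 ∈ idl (A := A) (B := B) 2 → l = 2 ∨ l = 3

/-- (LEV) the level `2 Λ`.

PROOF. `q ∈ Λ`, `q` is prime to `2`, `3`, `p`: `1 = a q + b r` with integers, so `2, 3 ∉ Λ` (`Λ` prime) and `Λ ≤ P` is impossible (`q, p ∈ P` would give `1 ∈ P`). `Λ ≠ ⊥` (`q ≠ 0` in `O`: `natCast_ne_zero'`). `idl 2 * Λ ≤ P` would give `idl 2 ≤ P` or `Λ ≤ P` (`Ideal.IsPrime.mul_le`), `2 ∈ P`, `p ∈ P`: `1 ∈ P`. -/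
def Sg_LEV : Prop :=
  ∀ (p er : ℕ) (A B : ℤ) (P : Ideal (OO A B)) (V : ValuationSubring ℂ), CaseO p er A B P V →
    ∀ (Λ : Ideal (OO A B)) (q : ℕ), q.Prime → q ≠ 2 → q ≠ 3 → q ≠ p → IsPN q Λ →
    idl (A := A) (B := B) 2 * Λ ≠ ⊥ ∧ idl (A := A) (B := B) 2 * Λ ≤ idl (A := A) (B := B) 2 ∧
    idl (A := A) (B := B) 2 * Λ ≤ Λ ∧ ¬ idl (A := A) (B := B) 2 * Λ ≤ P ∧
    ((2 : ℕ) : OO A B) ∉ Λ ∧ ((3 : ℕ) : OO A B) ∉ Λ

/-- (RTS) roots of `± 1` modulo `Λ`.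

PROOF. (1) `c² - 1 = (c - 1)(c + 1)`. (2) `c³ - 1 = (c - 1)(c² + c + 1)`, `(2 c + 1)² + 3 = 4 (c² + c + 1)`; `c³ + 1 = (c + 1)(c² - c + 1)`, `(2 c - 1)² + 3 = 4 (c² - c + 1)`. -/
def Sg_RTS : Prop :=
  ∀ (A B : ℤ) (Λ : Ideal (OO A B)), Λ.IsPrime → ∀ c : OO A B,
    ((c ^ 2 - 1 ∈ Λ ∨ c ^ 2 + 1 ∈ Λ) → (∀ x : OO A B, x ^ 2 + 1 ∉ Λ) → c - 1 ∈ Λ ∨ c + 1 ∈ Λ) ∧
    ((c ^ 3 - 1 ∈ Λ ∨ c ^ 3 + 1 ∈ Λ) → (∀ x : OO A B, x ^ 2 + 3 ∉ Λ) → c - 1 ∈ Λ ∨ c + 1 ∈ Λ)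

/-! ## Powers modulo primes of degree one -/

/-- (KMP) KUMMER: a number which is not an `l`-th power is not an `l`-th power modulo some prime of degree one.

Uses `Pool.Agent.MUXK.S_KUMX` (theorem in `MUX/K_KUMX.lean` or `MUX/KAllX.lean`; it may be used directly), `m_SPLS` (`MU3/MSPLS.lean`), `m_DEG2` (`MU3/MDEG2.lean`), `isBigO_sum`. MODEL: the first half of `Pool/Agent/MUX/K_THDX.lean` (`THDX.lower`, `fin_above`, `fin_bound`). PROOF. Let `M` be the extension of (KUMX). If no such `v`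
exists then every prime `v` of `L` is in `B₁ = {l ≤ spl L M v}`, or in `B₂ = {norm not a prime number}`, or in the finite set `B₃` of the `v` above `S' ∪ {l}` (`S'` the primes in `S`) or with `t ∈ v` (`t ≠ 0` as `0 ^ l = 0`). So near `1`, with `Λ(s) = log (1/(s - 1))`: `Λ(s) - C ≤ Σ x_v ≤ Λ(s)/l + C'`, so `(1 - 1/l) Λ(s)` is bounded, but
`Λ(s) → ∞` for `s → 1`. (`q = absNorm v`, `Nat.card (𝓞 L ⧸ v) = absNorm v`; if `q ∈ S` then `q ∈ v`.) -/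
def Sg_KMP : Prop :=
  ∀ (l : ℕ) [Fact l.Prime] (L : Type) [Field L] [NumberField L] (ζ t : 𝓞 L),
    IsPrimitiveRoot ζ l → (∀ y : L, y ^ l ≠ (t : L)) → ∀ S : Finset ℕ,
    ∃ (v : HeightOneSpectrum (𝓞 L)) (q : ℕ), q.Prime ∧ q ∉ S ∧
      Nat.card (𝓞 L ⧸ v.asIdeal) = q ∧ t ∉ v.asIdeal ∧ ∀ a : 𝓞 L, t - a ^ l ∉ v.asIdeal

/-- (KMC) the same for primes of `O`, the number is not an `l`-th power in the field `E`.

Uses KMP. PROOF. `E` is a number field, `ι : O →+* 𝓞 E`, `ι x = emb x` (integral). (KMP) for `E`, `ζ`, `ι α`: `v`, `q`. `Λ` = the inverse image of `v` under `ι`: prime, `O/Λ` is embedded in `𝓞 E/v`, of `q` elements, so `nI Λ` divides `q` and is not `1`; `q ∈ Λ` (`q = 0` in `𝓞 E/v`). `α ∉ Λ`. Let `α t'^l - ε t^l ∈ Λ`, `t ∉ Λ`, `emb ε = η^l`,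
`η ∈ E` integral (a unit). Then `ι t' ∉ v` (otherwise `(η ι t)^l ∈ v`), so there is `a ∈ 𝓞 E` with `a ι t' ≡ η ι t` modulo `v` (field), `ι α (ι t')^l ≡ (η ι t)^l ≡ (a ι t')^l`, `ι α - a^l ∈ v`: contradiction. -/
def Sg_KMC : Prop :=
  ∀ (l : ℕ) (A B : ℤ), l.Prime → CQ A B → ∀ E : IntermediateField ℚ ℂ, FiniteDimensional ℚ E →
    kk A B ≤ E → (∃ ζ ∈ E, IsPrimitiveRoot ζ l) → ∀ α : OO A B, (∀ y ∈ E, y ^ l ≠ emb α) →
    ∀ S : Finset ℕ, ∃ (Λ : Ideal (OO A B)) (q : ℕ), q.Prime ∧ q ∉ S ∧ IsPN q Λ ∧ α ∉ Λ ∧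
      ∀ ε t t' : OO A B, ε = 1 ∨ ε = -1 → (∃ η ∈ E, η ^ l = emb ε) → t ∉ Λ →
        α * t' ^ l - ε * t ^ l ∉ Λ

/-- (KMO) numbers of `O` which are not `±` an `l`-th power.

Uses KMC. PROOF. (a) `l` odd: `E` = the field generated by `k` and a primitive `l`-th root of unity `ζ`. Suppose `y ∈ E`, `y^l = emb α`. `emb α` is not an `l`-th power in `k` (a root would be integral, so in `emb O`: `te_RNG`, `int`), so `X^l - emb α` is irreducible over `k` (`X_pow_sub_C_irreducible_of_prime`), the minimal polynomial of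
`y`, of degree `l`, but `[E : k] ≤ l - 1` (`ζ` is a root of `1 + X + .. + X^(l-1)`): contradiction. `η = 1`, `-1` for `ε = 1`, `-1`. (b) `l = 2`: `E = k(i)`, `ζ = -1`, `η = 1`, `i`. Suppose `y ∈ E`, `y² = emb α`. `y = a + b i` with `a, b ∈ k`. If `i ∈ k` then `y ∈ k` is integral, `α = γ²`. Otherwise `y² = a² - b² + 2 a b i ∈ k` gives `a b = 0`,
`emb α = a²` or `-b²`, `a` or `b` integral: `α = γ²` or `-γ²`, contradiction. Conclusion from (KMC) with `ε = 1` and `ε = -1`. -/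
def Sg_KMO : Prop :=
  ∀ (l : ℕ) (A B : ℤ), l.Prime → CQ A B → ∀ α : OO A B,
    (∀ γ : OO A B, α ≠ γ ^ l ∧ α ≠ -γ ^ l) → ∀ S : Finset ℕ,
    ∃ (Λ : Ideal (OO A B)) (q : ℕ), q.Prime ∧ q ∉ S ∧ IsPN q Λ ∧ α ∉ Λ ∧
      ∀ t t' : OO A B, t ∉ Λ → α * t' ^ l - t ^ l ∉ Λ ∧ α * t' ^ l + t ^ l ∉ Λ

/-- (SQN) primes of degree one modulo which `-1`, `-3` are not squares.

Uses KMC. PROOF. `l = 2`, `E = k` (`kk A B`), `ζ = -1`, `α = -1` or `-3`, `ε = 1`, `t' = 1`, `t = x` (if `x ∈ Λ` and `x² + 3 ∈ Λ` then `3 ∈ Λ`, `α ∈ Λ`). `α` is not a square in `k`: a root is integral, so `x² = -1` or `-3` with `x = a + b w ∈ O`, `w² = A + B w`. `b ≠ 0`. Trace: `2 a + B b = 0` (`x² ∈ ℤ`, `x ∉ ℤ`: compare the coefficient of `w` of `x² = a² + A b² + (2 a b + B b²) w`).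
`B = 0`: `a = 0`, `A b² = -1`: `A = -1`, `absD = 4`; `A b² = -3`: `A = -3`, but `4 ∤ A - 1` (`fund0`). `B = 1`: `b = -2 a`, `a² (1 + 4 A) = -1`: impossible; `= -3`: `A = -1`, `absD = 3`. -/
def Sg_SQN : Prop :=
  ∀ (A B : ℤ), CQ A B → absD A B ≠ 3 → absD A B ≠ 4 → ∀ S : Finset ℕ,
    (∃ (Λ : Ideal (OO A B)) (q : ℕ), q.Prime ∧ q ∉ S ∧ IsPN q Λ ∧ ∀ x : OO A B, x ^ 2 + 1 ∉ Λ) ∧
    ∃ (Λ : Ideal (OO A B)) (q : ℕ), q.Prime ∧ q ∉ S ∧ IsPN q Λ ∧ ∀ x : OO A B, x ^ 2 + 3 ∉ Λ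

/-! ## The end of the proof -/

/-- (PCL) the ideal of an inertia element of order `l` is principal.

Uses IDA, LPC, LEV, UNI, KMO. PROOF. `a ^ l` is an ideal of `s ^ l`, so `a ^ l = sp α`, `α - 1 ∈ idl 2` (IDA 5, 6), `α ≠ 0` (IDA 2). CLAIM: `α = γ^l` or `-γ^l`. Suppose not. (KMO) with `S = {2, 3, p}`: `Λ`, `q`. `m = idl 2 * Λ` (LEV). (LPC): `b, β, x, y`. `a` is not contained in `Λ` (otherwise `α ∈ Λ`): `t ∈ a`, `t ∉ Λ`. `x t ∈ sp x * a = sp y * b ≤ sp y`: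
`x t = y t'`. `sp (x^l α) = (sp x * a)^l = (sp y * b)^l = sp (y^l β)`, so `x^l α = ε y^l β`, `ε = ± 1` (UNI 1). `α t'^l y^l = α x^l t^l = ε y^l β t^l`, so `α t'^l = ε β t^l` (`y ≠ 0`), and `β - 1 ∈ m ≤ Λ`: `α t'^l - ε t^l ∈ Λ`: contradiction. So `a^l = sp α = (sp γ)^l`, `a = sp γ` (UNI 2), and `γ^l = ± α ≡ 1` modulo `2`. -/
def Sg_PCL : Prop :=
  ∀ (p er : ℕ) (A B : ℤ) (P : Ideal (OO A B)) (V : ValuationSubring ℂ), CtxG p er A B P V →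
    ∀ (l : ℕ) (s : ℂ ≃+* ℂ) (a : Ideal (OO A B)), l.Prime → Ine V (idl (A := A) (B := B) 2) s →
    Tri (idl (A := A) (B := B) 2) (s ^ l) → IdA (idl (A := A) (B := B) 2) a s →
    ∃ γ : OO A B, a = sp γ ∧ γ ^ l - 1 ∈ idl (A := A) (B := B) 2

/-- (E2T) the points of order two.

Uses Sb_LEG, `Pool.Agent.NSR.Sr_LGF` (theorem `tr_LGF`, `NS/RN_LGF.lean`; `Leg` is `⟨u0, eq⟩` of `GoodL`). PROOF. (LEG): `w₁`, `w₂`; `xn = ℘ - 1/12`. (LGF), last part: `xu L u e w = 0, 1` or `lam` for the points of order two, `℘ w = e + u² xu L u e w`. Differences: `u²` times `± 1`, `± lam`, `± (1 - lam)` or `0`; `v lam = v(1 - lam) = 1`. -/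
def Sg_E2T : Prop :=
  ∀ (p : ℕ) (V : ValuationSubring ℂ) (L : PeriodPair) (u e lam : ℂ), Cp p V →
    GoodL V L u e lam →
    (∃ w₁ w₂ : ℂ, w₁ ∉ L.lattice ∧ 2 * w₁ ∈ L.lattice ∧ w₂ ∉ L.lattice ∧ 2 * w₂ ∈ L.lattice ∧
      xn L w₁ + 1 / 12 = e ∧ xn L w₂ + 1 / 12 = e + u ^ 2) ∧
    (∀ w, w ∉ L.lattice → 2 * w ∈ L.lattice → xn L w + 1 / 12 = e ∨
      xn L w + 1 / 12 = e + u ^ 2 ∨ xn L w + 1 / 12 = e + lam * u ^ 2) ∧
    ∀ w w', w ∉ L.lattice → 2 * w ∈ L.lattice → w' ∉ L.lattice → 2 * w' ∈ L.lattice →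
      xn L w = xn L w' ∨ V.valuation (xn L w - xn L w') = V.valuation (u ^ 2)

/-- (ENL) the last step for one lattice.

Uses Sb_COE, Sb_GRN, E2T, GRP. PROOF. `X = xu L u e`, `X z = (xn L z + 1/12 - e)/u²`. (1) `(TRB 1)` for `Λ < ⊤` (`Λ ≠ ⊥` as `m ≤ Λ`): `z` with `Tor Λ L z`, `z ∉ L`. `2 z, 3 z ∉ L`: `Λ` is maximal (Dedekind), coprime to `(2)` and `(3)` (`te_TRA` (4)). `z, 2z, 3z, -z` are not in `InK` (`ker` for `Λ`; `¬ Λ ≤ P` as `m ≤ Λ`): `v(X z - X (2z)) = 1`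
(`MUXV.v_X_sub`, (GRN)), `v(X z) ≤ 1`, `v(X (2z)) ≤ 1`. (2) For `z' = z` or `2 z`: `Tor m L z'` (`m ≤ Λ`), `s (xn L z') = xn L (emb c z') = xn L z'` (`emb c z' ∓ z' ∈ L`; `℘` is even and periodic). `X z' ∈ RF m ∩ V`, so `δ = s (X z') - X z'` has `v δ < 1`, and `s (X z') s(u²) = X z' u² + e - s e`. So (*)
`X z' (s(u²) - u²) + δ s(u²) = e - s e`. (3) `w₁, w₂` from (E2T), `e = xn L w₁ + 1/12`, `u² = xn L w₂ - xn L w₁`; for every point `w ∉ L`, `2 w ∈ L`: `Tor m L w` (`m ≤ idl 2`), `s (xn L w) = xn L (emb c w)`, `emb c w ∉ L`, `2 emb c w ∈ L`, so (E2T) `s (xn L w) - xn L w` is `0` or has valuation `v(u²)`; and `s(u²) ≠ 0`, a difference of two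
such numbers: `v(s(u²)) = v(u²)`. (4) Subtract (*) for `z` and `2z`: `(X z - X (2z))(s(u²) - u²) = -(δ - δ') s(u²)`: `v(s(u²) - u²) < v(u²)`, and then by (*) `v(e - s e) < v(u²)`. So `s e = e` by (3), then `s (xn L w₂) - xn L w₂ = s(u²) - u² + s e - e` has valuation `< v(u²)`, so it is `0`: `s(u²) = u²`. `3 e = -(1 + lam) u²` (COE):
`lam u² = -3 e - u²` is fixed too. (E2T), second part: `xn L w` is fixed for all `w`. -/
def Sg_ENL : Prop :=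
  ∀ (p er : ℕ) (A B : ℤ) (P : Ideal (OO A B)) (V : ValuationSubring ℂ), CtxG p er A B P V →
    ∀ (m Λ : Ideal (OO A B)), m ≠ ⊥ → m ≤ idl (A := A) (B := B) 2 → m ≤ Λ → ¬ m ≤ P →
    Λ.IsPrime → ((2 : ℕ) : OO A B) ∉ Λ → ((3 : ℕ) : OO A B) ∉ Λ →
    ∀ (s : ℂ ≃+* ℂ) (c : OO A B), Ine V m s → MulC m c s → (c - 1 ∈ Λ ∨ c + 1 ∈ Λ) →
    ∀ L, NL A B L → ∀ w, w ∉ L.lattice → 2 * w ∈ L.lattice → s (xn L w) = xn L w

/-- (END) the last step.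

Uses ENL. PROOF. `RF (idl 2)` is generated over `k` by the `kap L` and the `xn L z`, `Tor (idl 2) L z` (so `2 z ∈ L`, `te_TRA` (5)), `z ∉ L`; `s` fixes `k` (`GalX.fix`), `kap L` (`MulC`) and the `xn L z` (ENL): `IntermediateField.adjoin_induction`. -/
def Sg_END : Prop :=
  ∀ (p er : ℕ) (A B : ℤ) (P : Ideal (OO A B)) (V : ValuationSubring ℂ), CtxG p er A B P V →
    ∀ (m Λ : Ideal (OO A B)), m ≠ ⊥ → m ≤ idl (A := A) (B := B) 2 → m ≤ Λ → ¬ m ≤ P →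
    Λ.IsPrime → ((2 : ℕ) : OO A B) ∉ Λ → ((3 : ℕ) : OO A B) ∉ Λ →
    ∀ (s : ℂ ≃+* ℂ) (c : OO A B), Ine V m s → MulC m c s → (c - 1 ∈ Λ ∨ c + 1 ∈ Λ) →
    Tri (idl (A := A) (B := B) 2) s

/-- (NOI) no inertia element of prime order on `RF (idl 2)`.

Uses IDA, PRN, LPC, UNI, LEV, RTS, SQN, PCL, END. PROOF. Suppose `s` is one. `a` an ideal of `s` at level `idl 2` (IDA 1). (PCL): `a = sp γ`, `γ^l - 1 ∈ idl 2`. `γ - 1 ∉ idl 2` (IDA 6, `s` is not trivial). (UNI 3): `l = 2` or `3`. (SQN) with `S = {2, 3, p}`: `Λ`, `q`, `-1` (`l = 2`) or `-3` (`l = 3`) not a square modulo `Λ`. `m = idl 2 * Λ` (LEV). (LPC): `s', b, β, x, y`.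
`x γ ∈ sp x * sp γ = sp y * b ≤ sp y`: `x γ = y c`, `sp y * sp c = sp y * b`, `b = sp c` (cancel). `sp (c^l) = b^l = sp β`: `c^l = ± β` (UNI 1), `β - 1 ∈ m ≤ Λ`: `c^l ∓ 1 ∈ Λ`. (RTS): `c - 1 ∈ Λ` or `c + 1 ∈ Λ`. (PRN): `MulC m c s'`. (END): `s'` is trivial on `RF (idl 2)`, so `s` is: contradiction. -/
def Sg_NOI : Prop :=
  ∀ (p er : ℕ) (A B : ℤ) (P : Ideal (OO A B)) (V : ValuationSubring ℂ), CtxG p er A B P V →
    ∀ (l : ℕ) (s : ℂ ≃+* ℂ), l.Prime → Ine V (idl (A := A) (B := B) 2) s →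
    Tri (idl (A := A) (B := B) 2) (s ^ l) → Tri (idl (A := A) (B := B) 2) s

/-- (FIN) THE RESULT, the second part of `O_RFIN`.

Uses LFT, GRP, ORD, CTX, TWO, NOI. PROOF. `CtxG` (CTX). `m₂ = m * idl 2` is not `⊥` and not `≤ P` (`P` prime, `2 ∉ P`). (LFT) from `m` to `m₂`: `σ'`. `σ'` is in the inertia group of `RF (idl 2)` (GRP 2). It is trivial on `RF (idl 2)`: otherwise (ORD) and (NOI) give a contradiction. (TWO): `Tri m₂ σ'`. So `σ'` is trivial on `RF m ≤ RF m₂` (GRP 2), where `σ' = σ`. -/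
def Sg_FIN : Prop :=
  ∀ (p er : ℕ) (A B : ℤ) (P : Ideal (OO A B)) (V : ValuationSubring ℂ), CaseO p er A B P V →
    TorX A B → GoodA A B V →
    ∀ m : Ideal (OO A B), m ≠ ⊥ → ¬ m ≤ P → ∀ σ : ℂ ≃+* ℂ, FixK A B σ →
      (∀ y ∈ RF m, y ∈ V → σ y - y ∈ V.nonunits) → ∀ y ∈ RF m, σ y = y

end

end Pool.Agent.OBB
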