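import Pool.Agent.OB.Defs0
import Pool.Agent.OB.StHN
import Pool.Agent.NS.StGR
import Pool.Agent.MUX.StHX2
import Pool.Agent.MUX.StYX

/-!
# OB, block H, bridge (helper51): from theta series to `HypQ`, and the character sums `O_HFIN`

`SetO p er A B P V f` (`OB/Defs0.lean`), `v = V.valuation`. `p` unramified in `k` (`er = 1`, split or inert): the symbol is `Q = sgnPart s (PhiK R e kk/(u om_0))`, depleted because
`e x = 0` for `p ∣ N x`. `p` ramified (`er = 2`): the Fourier coefficients of `PhiI b e` live on the exponents `n = N x/N b` with `J(n | p) = J(N b | p)` (`J` = Jacobi symbol); `Q = QR` is the part of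
`Phi + s iota^* Phi` on the exponents `n` with `J(n | p) = 1`. Then `So_HN`, `So_HR` of `OB/StHN.lean` give the character sums.

Every statement is a `def So_X : Prop`; a module proves `theorem to_X (h : ..) ... : So_X` in `Pool/Agent/OB/HB_X.lean`, namespace `Pool.Agent.OBH` (private lemmas in `Pool.Agent.OBH.X`),
with the statements named under USES as hypotheses (fewer is fine). Unconditional and usable: `Pool.Agent.MUXF.xf_X : MUXF.Sx_X` (`MUX/XFAll.lean`), `Pool.Agent.MUXHY.ty_QSX` (`MUX/HY_QSX.lean`),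
`Pool.Agent.MUXT.sym_EI`, `fg_EI` (`MUX/XTF7.lean`), `Pool.Agent.MUXY.y_ALP`, `y_COP` (`MUX/YAll.lean`), `NSGR.tv_TWR` (`NS/GR_TWR.lean`), the files `MUX/HX_*.lean`. `MUXHY.toCQ`, `toEI` convert the structures.
Never import `Pool.Agent.MVF`.
-/

set_option autoImplicit false

namespace Pool.Agent.OBH

open _root_.MU3 _root_.Pool.Agent.MU3A _root_.Pool.Agent.MU3B _root_.Pool.Agent.MU3F _root_.Pool.Agent.MUX
  _root_.Pool.Agent.MUXH _root_.Pool.Agent.MUXHY _root_.Pool.Agent.MuSym _root_.Pool.Agent.OB OnePoint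
open _root_.Pool.Agent.MUXF (qb)

noncomputable section

/-! ## Definitions -/

/-- `p^(er+1) N₀ = |D| (p f)²`, `N₀` prime to `p` -/
def N0O (p er : ℕ) (A B : ℤ) (f : ℕ) : ℕ := (absD A B).toNat / p ^ (er - 1) * f ^ 2

/-- the part of the family of weights with `J(d N b_i | p) = 1` -/
def kkJ {A B : ℤ} {n : ℕ} {ι : Type} (p : ℕ) (R : Reps A B n ι) (kk : ι → ℂ) (d : ℤ) (i : ι) : ℂ :=
  if jacobiSym (d * (nI (R.b i) : ℤ)) p = 1 then kk i else 0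

/-- the part of `(Φ + s ι^* Φ)/Om` on the exponents which are squares modulo `p`, `Om = u om_0` -/
def QR {A B : ℤ} {n : ℕ} {ι : Type} [Fintype ι] (p : ℕ) (R : Reps A B n ι) (e : OO A B → ℂ)
    (kk : ι → ℂ) (s u : ℂ) (x y : OnePoint ℚ) : ℂ :=
  (PhiK R e (kkJ p R kk 1) x y +
    s * PhiK R e (kkJ p R kk (-1)) (mob (-1) 0 0 1 x) (mob (-1) 0 0 1 y)) / (u * R.om R.i0)

/-! ## Input from block G (helper59) -/

/-- (GPT) Theorem G for `P_t`, `P = PhiK R e kk / (u om_0)`, `t = 1/p³`. MODEL: `NS.Sn_GPT`. -/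
def O_GPT : Prop :=
  ∀ (p er : ℕ) (A B : ℤ) (P : Ideal (OO A B)) (V : ValuationSubring ℂ) (f : ℕ),
    SetO p er A B P V f → TorX A B →
    ∀ (ι : Type) [Fintype ι] (R : Reps A B (p * f) ι) (u el lam : ℂ),
    GoodL V (R.L R.i0) u el lam → ∀ e : OO A B → ℂ, IsEI (idl (A := A) (B := B) (p * f)) e →
    ∀ r : ℕ, r ≠ 0 → (∀ x, e x ≠ 0 → e x ^ r = 1) → ∀ kk : ι → ℂ, V.valuation (kk R.i0) = 1 →
    ∀ N' : ℕ, N' ≠ 0 → absD A B * ((p * f : ℕ) : ℤ) ^ 2 ∣ (N' : ℤ) →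
    ∃ a b c d : ℤ, a * d - b * c = 1 ∧ (N' : ℤ) ∣ c ∧ (N' : ℤ) ∣ d - 1 ∧
      V.valuation (p : ℂ) ≤ V.valuation (PT p (fun x y => PhiK R e kk x y / (u * R.om R.i0)) ∞
        (mob a b c d ∞)) ^ ((p - 1) * p ^ 2)

/-! ## Elementary facts -/

/-- (RAM) the norm of `P` and the discriminant.

PROOF. `nI I = Ideal.absNorm I`; `OO A B` is a Dedekind domain (instances as in `MUX/XLib.lean`, `MUX/F_IDL.lean`: use their lemmas; `XLib` has `nI_sp`, ..). `nI (idl p) = p²`, `idl p ≤ P`, so `nI P ∣ p²`, `nI P ≠ 1` (`P ≠ ⊤`): `nI P = p` or `p²`. `er = 2`: `idl p ≤ P²`, so `nI P ^ 2 ∣ p²`, `nI P = p`.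
Discriminant `Dd = B² + 4 A = -absD`, `δ = 2 w - B` (`⟨-B, 2⟩`), `δ² = Dd`. (1) `er = 1`: suppose `p ∣ Dd`. `p²∤ Dd` (`CQ`: `B = 1`, `Dd = 1 + 4 A` squarefree, or `B = 0`, `Dd = 4 A`, `A` squarefree; `p ≥ 5`). `δ² ∈ idl p ≤ P`, so `δ ∈ P`, `δ² = Dd = p D₁`, `p ∤ D₁`: `P²` contains `p²` and `δ² = p D₁`, so
`p = (s p) p + t p D₁ ∈ P²` (`s p + t D₁ = 1`), against `er = 1`. (2) `er = 2`: `P² ∋ p` and `nI (P²) = p² = nI (idl p)`, `idl p ≤ P²`, so `idl p = P²` (`Ideal.eq_of_dvd_of_absNorm_eq`-type lemma, or: `P² ∣ idl p` and equal norms). Take `x ∈ P`, `x ∉ idl p` (else `P = P²`). `star x`: the conjugate ideal of `P` contains `p`, so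
`P² ≤ cjI P`, `P ≤ cjI P` (prime), so `star x ∈ P` for `x ∈ P` (`star` is an involution). So `tr x = x + star x` and `nm x = x star x` are integers in `P`, divisible by `p` (`P ∩ ℤ = p ℤ`). `tr x = 2 a + B b`, `nm x = a² + B a b - A b²` for `x = a + b w`, `Dd b² = (tr x)² - 4 nm x`. If `p ∤ Dd` then `p ∣ b`, then `p ∣ a`, `x ∈ idl p`. -/
def So_RAM : Prop :=
  ∀ (p er : ℕ) (A B : ℤ) (P : Ideal (OO A B)) (V : ValuationSubring ℂ), CaseO p er A B P V →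
    (nI P = p ∨ nI P = p ^ 2) ∧ (er = 1 → ¬ (p : ℤ) ∣ absD A B) ∧
    (er = 2 → nI P = p ∧ (p : ℤ) ∣ absD A B ∧ ¬ (p : ℤ) ^ 2 ∣ absD A B)

/-- (VAL) elementary facts. USES RAM. MODEL: `valN` in `NS/H_Chn.lean`.

PROOF. As `valN`; `v p < 1` because `p ∈ P` (`hV`: `OverI`). `N0O`: `er = 1`: `N₀ = |D| f²`, `p ∤ |D|`; `er = 2`: `N₀ = (|D|/p) f²`, `p ∤ |D|/p` (RAM). -/
def So_VAL : Prop :=
  ∀ (p er : ℕ) (A B : ℤ) (P : Ideal (OO A B)) (V : ValuationSubring ℂ) (f : ℕ),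
    SetO p er A B P V f →
    V.valuation (p : ℂ) < 1 ∧ (∀ n : ℤ, V.valuation (n : ℂ) ≤ 1) ∧
    (∀ n : ℤ, ¬ (p : ℤ) ∣ n → V.valuation (n : ℂ) = 1) ∧
    (∀ (r : ℕ) (z : ℂ), r ≠ 0 → z ^ r = 1 → V.valuation z = 1) ∧
    0 < absD A B ∧ idl (A := A) (B := B) (p * f) ≤ sp ((absD A B : ℤ) : OO A B) ∧
    idl (A := A) (B := B) (p * f) ≠ ⊥ ∧ idl (A := A) (B := B) (p * f) ≠ ⊤ ∧
    ((p * f : ℕ) : OO A B) ∈ idl (A := A) (B := B) (p * f) ∧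
    ((p ^ (er + 1) * N0O p er A B f : ℕ) : ℤ) = absD A B * ((p * f : ℕ) : ℤ) ^ 2 ∧
    N0O p er A B f ≠ 0 ∧ Nat.Coprime p (N0O p er A B f) ∧
    absD A B ∣ ((p * N0O p er A B f : ℕ) : ℤ) ∧
    ((p * f : ℕ) : ℤ) ∣ ((p * N0O p er A B f : ℕ) : ℤ)

/-- (CHR) the nebentypus. USES VAL, RAM. MODEL: `chrN` in `NS/H_Chn.lean`, `NS/HGR_Chr.lean`. -/
def So_CHR : Prop :=
  ∀ (p er : ℕ) (A B : ℤ) (P : Ideal (OO A B)) (V : ValuationSubring ℂ) (f : ℕ),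
    SetO p er A B P V f → ∀ e : OO A B → ℂ, IsEI (idl (A := A) (B := B) (p * f)) e →
    ∀ r : ℕ, r ≠ 0 → (∀ x, e x ≠ 0 → e x ^ r = 1) →
    nuX e 1 = 1 ∧ (∀ d d', nuX e (d * d') = nuX e d * nuX e d') ∧
    (∀ d d' : ℤ, ((p * N0O p er A B f : ℕ) : ℤ) ∣ d - d' → nuX e d = nuX e d') ∧
    (∀ d, V.valuation (nuX e d) ≤ 1)

/-- (QBO) the exponents modulo `p`.

USES RAM. PROOF. `e x ≠ 0` means `IsCoprime (sp x) (idl (p f))`, so `IsCoprime (sp x) (idl p)`, and (conjugate) `IsCoprime (sp (star x)) (idl p)`, so `nm x = x star x` is a unit modulo `p`: `p ∤ nm x`. `nm x = nI b * qb b x` (`MUXF.xf_QB`), so `p ∤ qb b x`. `er = 2`: `p ∣ Dd = -absD` (RAM), `4 nm x = t² - Dd x.im²`,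
`t = 2 x.re + B x.im`, so `4 nm x ≡ t²` modulo `p`, `p ∤ t`, `J(nm x | p) = J(4 nm x | p) = J(t² | p) = 1` (`jacobiSym.mod_left`, `jacobiSym.sq_one`), and `J(nI b | p) J(qb b x | p) = 1`. -/
def So_QBO : Prop :=
  ∀ (p er : ℕ) (A B : ℤ) (P : Ideal (OO A B)) (V : ValuationSubring ℂ) (f : ℕ),
    SetO p er A B P V f → ∀ e : OO A B → ℂ, IsEI (idl (A := A) (B := B) (p * f)) e →
    ∀ b : Ideal (OO A B), b ≠ ⊥ → ∀ x ∈ b, e x ≠ 0 → ¬ (p : ℤ) ∣ nm x ∧ ¬ (p : ℤ) ∣ qb b x ∧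
      (er = 2 → jacobiSym (nm x) p = 1 ∧ jacobiSym (qb b x) p = jacobiSym (nI b : ℤ) p)

/-- (DEP) depletion. USES VAL, QBO. MODEL: `phi_dep` in `NS/H_Dep.lean` (`e_zero` is QBO). -/
def So_DEP : Prop :=
  ∀ (p er : ℕ) (A B : ℤ) (P : Ideal (OO A B)) (V : ValuationSubring ℂ) (f : ℕ),
    SetO p er A B P V f → ∀ e : OO A B → ℂ, IsEI (idl (A := A) (B := B) (p * f)) e →
    ∀ b : Ideal (OO A B), b ≠ ⊥ → ∀ x : ℚ,
    ∑ j ∈ Finset.range p, PhiI b e ∞ (((x + j) / p : ℚ) : OnePoint ℚ) = 0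

/-- (SHJ) the symbol under the quadratic character sum of the translations `x ↦ x + j/p`. MODEL: `Sv_SH3` (`NS/GR_SH3.lean`), `H_Dep.lean`.

PROOF. `om = exp(2πi/p)`. `thetaI b e (z ± j/p) = Σ .. exp(2πi n z) om^(± n j)`, `n = qb b x`, term by term (`xf_TSM`), and `Σ_j J(j | p) om^(j n) = J(n | p) G`, `G = Σ_j J(j | p) om^j` (for `p ∤ n` the substitution `j ↦ n j` modulo `p`; here `J(n | p) = t ≠ 0` for all terms with `e x ≠ 0`), `Σ_j J(j | p) om^(-j n) = J(-1 | p) J(n | p) G`.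
So `Σ_j J(j | p) thetaI (z + j/p) = t G thetaI z` and so on. Integrate (`PhiI b e ∞ r = - IvI b e r`, as in `phi_dep`). -/
def So_SHJ : Prop :=
  ∀ (p : ℕ) (_ : p.Prime) (_ : p ≠ 2) (A B : ℤ) (_ : CQ A B) (b g : Ideal (OO A B))
    (e : OO A B → ℂ) (_ : b ≠ ⊥) (_ : g ≠ ⊥) (_ : IsEI g e) (t : ℤ) (_ : t ≠ 0)
    (_ : ∀ x ∈ b, e x ≠ 0 → jacobiSym (qb b x) p = t) (r : ℚ),
    ∑ j ∈ Finset.range p, (jacobiSym (j : ℤ) p : ℂ) *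
        PhiI b e ∞ ((r + (j : ℚ) / p : ℚ) : OnePoint ℚ) =
      t * (∑ j ∈ Finset.range p, (jacobiSym (j : ℤ) p : ℂ) *
        Complex.exp (2 * Real.pi * Complex.I / p) ^ j) * PhiI b e ∞ (r : OnePoint ℚ) ∧
    ∑ j ∈ Finset.range p, (jacobiSym (j : ℤ) p : ℂ) *
        PhiI b e ∞ ((r - (j : ℚ) / p : ℚ) : OnePoint ℚ) =
      jacobiSym (-1) p * t * (∑ j ∈ Finset.range p, (jacobiSym (j : ℤ) p : ℂ) *
        Complex.exp (2 * Real.pi * Complex.I / p) ^ j) * PhiI b e ∞ (r : OnePoint ℚ)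

/-- (REL) the relation of `So_HR` for `QR`.

USES QBO, SHJ, VAL. PROOF. `mob (-1) 0 0 1 (x + j/p) = -x - j/p`, `mob (-1) 0 0 1 ∞ = ∞`. `PhiK` is the sum over `i`; `kkJ p R kk 1 i = 0` unless `J(N b_i | p) = 1 = t` (QBO, SHJ first part), `kkJ p R kk (-1) i = 0` unless `J(-N b_i | p) = J(-1 | p) J(N b_i | p) = 1` (SHJ second part with `t = J(N b_i | p)`). -/
def So_REL : Prop :=
  ∀ (p : ℕ) (A B : ℤ) (P : Ideal (OO A B)) (V : ValuationSubring ℂ) (f : ℕ),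
    SetO p 2 A B P V f → ∀ (ι : Type) [Fintype ι] (R : Reps A B (p * f) ι) (e : OO A B → ℂ),
    IsEI (idl (A := A) (B := B) (p * f)) e → ∀ (kk : ι → ℂ) (s u : ℂ) (x : ℚ),
    ∑ j ∈ Finset.range p, (jacobiSym (j : ℤ) p : ℂ) *
      QR p R e kk s u ∞ ((x + (j : ℚ) / p : ℚ) : OnePoint ℚ) =
      (∑ j ∈ Finset.range p, (jacobiSym (j : ℤ) p : ℂ) *
        Complex.exp (2 * Real.pi * Complex.I / p) ^ j) * QR p R e kk s u ∞ (x : OnePoint ℚ)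

/-! ## Projectors -/

/-- (PJ1) the projector, `er = 1`. USES VAL, RAM (`MUXF.xf_PHX`, `xf_PRJ`). MODEL: `prn` in `NS/H_Prn.lean` (the modulus is `|D|`, prime to `p`). -/
def So_PJ1 : Prop :=
  ∀ (p : ℕ) (A B : ℤ) (P : Ideal (OO A B)) (V : ValuationSubring ℂ) (f : ℕ),
    SetO p 1 A B P V f → ∀ (ι : Type) [Fintype ι] (R : Reps A B (p * f) ι) (e : OO A B → ℂ),
    IsEI (idl (A := A) (B := B) (p * f)) e → ∀ (kk : ι → ℂ) (Z s : ℂ),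
    ∃ (q : ℕ) (c : ℕ → ℂ), q ≠ 0 ∧ (∀ t, V.valuation (c t) ≤ 1) ∧ ∀ x y : OnePoint ℚ,
      ∑ t ∈ Finset.range q, c t * sgnPart s (fun x y => PhiK R e kk x y / Z) (mob q t 0 q x)
        (mob q t 0 q y) = PhiK R e kk x y / Z

/-- (PHJ) the function `φ` modulo `D' = |D|/p`, ramified case. MODEL: `Sv_PHR` (`NS/GR_PHR.lean`).

USES RAM, VAL. PROOF. `xf_PHX` gives `φ₀` of period `|D| = p D'`, `p ∤ D'` (RAM). For `n` let `n' ≡ n` modulo `D'`, `n' ≡ 1` modulo `p` (CRT), `φ n := φ₀ n'`: well defined, period `D'`. Let `x ∈ b`, `e x ≠ 0`, `m = qb b x`. (1) `J(m | p) = 1`: `m ≡ c²` modulo `p` with `p ∤ c` (`legendreSym.eq_one_iff`). Let `c' ∈ ℤ`, `c' c ≡ 1` modulo `p`, `c' ≡ 1` modulo `f` (CRT).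
`c'` is prime to `p f`, so `e(c' x) = e(c') e(x) ≠ 0`, and `qb b (c' x) = c'² m`. `D' ∣ f` (`p D' = |D| ∣ p f`), so `c'² m ≡ m` modulo `D'` and `≡ 1` modulo `p`: `φ m = φ₀ (c'² m) = φ₀ (qb b (c' x)) = 1`. (2) `J(-m | p) = 1`: `-m ≡ c²`, the same `c'`: `φ(-m) = φ₀(-c'² m) = φ₀(-qb b (c' x)) = 0`. -/
def So_PHJ : Prop :=
  ∀ (p : ℕ) (A B : ℤ) (P : Ideal (OO A B)) (V : ValuationSubring ℂ) (f : ℕ),
    SetO p 2 A B P V f → ∃ (D' : ℕ) (φ : ℤ → ℂ), ((p * D' : ℕ) : ℤ) = absD A B ∧ ¬ p ∣ D' ∧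
    D' ≠ 0 ∧ (∀ n, φ n = 0 ∨ φ n = 1) ∧ (∀ n, φ (n + D') = φ n) ∧
    ∀ e : OO A B → ℂ, IsEI (idl (A := A) (B := B) (p * f)) e → ∀ b : Ideal (OO A B), b ≠ ⊥ →
      ∀ x ∈ b, e x ≠ 0 → (jacobiSym (qb b x) p = 1 → φ (qb b x) = 1) ∧
        (jacobiSym (-qb b x) p = 1 → φ (-qb b x) = 0)

/-- (PJ2) the projector, `er = 2`. MODEL: `Sv_PJR` (`NS/GR_PJR.lean`).

USES PHJ, QBO, VAL, `NSGR.Sv_TWR` (proved: `NSGR.tv_TWR`, file `NS/GR_TWR.lean`; take it as it is, no hypothesis). PROOF. `q = D'`, `c_a = (1/q) Σ_n φ n exp(-2πi a n/q)`, `v(c_a) ≤ 1` (`v q = 1`; roots of unity). For `i` with `J(N b_i | p) = 1`: `J(qb | p) = 1` (QBO), `φ(qb) = 1`, TWR (1). For `i` with `J(-N b_i | p) = 1`: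
`J(-qb | p) = 1`, `φ(-qb) = 0`, TWR (2). `PhiK` is the sum over `i`, the weights of the other `i` are `0`. -/
def So_PJ2 : Prop :=
  ∀ (p : ℕ) (A B : ℤ) (P : Ideal (OO A B)) (V : ValuationSubring ℂ) (f : ℕ),
    SetO p 2 A B P V f → ∀ (ι : Type) [Fintype ι] (R : Reps A B (p * f) ι) (e : OO A B → ℂ),
    IsEI (idl (A := A) (B := B) (p * f)) e → ∀ (kk : ι → ℂ) (s u : ℂ),
    ∃ (q : ℕ) (c : ℕ → ℂ), q ≠ 0 ∧ (∀ t, V.valuation (c t) ≤ 1) ∧ ∀ x y : OnePoint ℚ,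
      ∑ t ∈ Finset.range q, c t * QR p R e kk s u (mob q t 0 q x) (mob q t 0 q y) =
        PhiK R e (kkJ p R kk 1) x y / (u * R.om R.i0)

/-! ## The symbols -/

/-- (SAF) `PhiK/(u om_0)` is a symbol with algebraic values in a finitely generated group. MODEL: fields `sym`, `alg`, `fin` in `hypN` (`NS/H_Hfin.lean`), `hypR` (`NS/HGR.lean`).

USES VAL (`MUXT.sym_EI`, `MUXT.fg_EI`, `MUXY.y_ALP`, `y_COP`). PROOF. `IsSym` for `PhiI (R.b i) e` (`sym_EI` with `3 f` replaced by `p f`), linear combinations (`Sym.isSym_lin`). `kk i` is algebraic (`0` or a root of unity), `u` by hypothesis; `fin` as in `hypN`. -/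
def So_SAF : Prop :=
  ∀ (p er : ℕ) (A B : ℤ) (P : Ideal (OO A B)) (V : ValuationSubring ℂ) (f : ℕ),
    SetO p er A B P V f → TorX A B → ∀ (ι : Type) [Fintype ι] (R : Reps A B (p * f) ι)
    (e : OO A B → ℂ), IsEI (idl (A := A) (B := B) (p * f)) e → ∀ r : ℕ, r ≠ 0 →
    (∀ x, e x ≠ 0 → e x ^ r = 1) → ∀ kk : ι → ℂ, (∀ i, kk i = 0 ∨ kk i ^ r = 1) →
    ∀ u : ℂ, u ≠ 0 → IsAlgebraic ℚ u →
    IsSym (p ^ (er + 1) * N0O p er A B f) (nuX e)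
      (fun x y => PhiK R e kk x y / (u * R.om R.i0)) ∧
    (∀ x y, IsAlgebraic ℚ (PhiK R e kk x y / (u * R.om R.i0))) ∧
    ∃ T : Finset ℂ, ∀ x y, PhiK R e kk x y / (u * R.om R.i0) ∈ AddSubgroup.closure (T : Set ℂ)

/-- (UAL) `u` is algebraic. MODEL: `leg_alg` in `NS/G_Leg.lean` (its first conclusion; `GoodN` there is used only through `u0`, `eq`). -/
def So_UAL : Prop :=
  ∀ (A B : ℤ), CQ A B → TorX A B → ∀ (n : ℕ) (ι : Type) (R : Reps A B n ι)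
    (V : ValuationSubring ℂ) (u el lam : ℂ), GoodL V (R.L R.i0) u el lam → IsAlgebraic ℚ u

/-- (HQ1) `HypQ` for `er = 1`. MODEL: `hypN` in `NS/H_Hfin.lean`.

USES O_TYF, O_GPT, RAM, VAL, CHR, DEP, PJ1, SAF, UAL, BDN, HKN, TYP, PRT. PROOF. `Φ x y = PhiK R e kk x y/(u om_0)`, `Q = sgnPart s Φ`, `s₀ = 1`. O_TYF for `kk`, `kk' = kk`: `pi`, `KI`. TYP with `e = 1`, `q' = nI P - 1` (`q' ≤ p² - 1 < (p-1) p²`; `i ≤ nI P - 2` and `nI P ≥ p ≥ 5` give `i < q'`). `pi ≠ 0` because `v(pi)^q' v(p)^i = 1`.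
`num`, `nuper`, ..: CHR. `sym`, depletion of `Q`: HKN (DEP for `PhiI (R.b i)`, linear combination). `bdd`: BDN for `Φ` (SAF), and `v s ≤ 1`. `typ`: `Φ x y`, `Φ (-x) (-y) ∈ pi KI`, `s ∈ KI`. `gap`: TYP (a). `G`: PRT with PJ1 and O_GPT (`v(kk i0) = 1`: a root of unity of order prime to `p`, VAL; `p² N₀ = |D| (p f)²`, VAL). -/
def So_HQ1 : Prop :=
  ∀ (p : ℕ) (A B : ℤ) (P : Ideal (OO A B)) (V : ValuationSubring ℂ) (f : ℕ),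
    SetO p 1 A B P V f → TorX A B →
    ∀ (ι : Type) [Fintype ι] (R : Reps A B (p * f) ι) (u el lam : ℂ),
    GoodL V (R.L R.i0) u el lam → ∀ w : OO A B → ℂ, IsTeiP p 1 P V w →
    ∀ e : OO A B → ℂ, IsEI (idl (A := A) (B := B) (p * f)) e → ∀ r : ℕ, ¬ p ∣ r →
    (∀ x, e x ≠ 0 → e x ^ r = 1) → ∀ i : ℕ, nI P - 1 ≤ i * (p - 1) → i ≤ nI P - 2 →
    (∀ x, x - 1 ∈ gO P f → x ∉ P → e x = w x ^ i) →
    ∀ s : ℤ, s = 1 ∨ s = -1 → ∀ kk : ι → ℂ, (∀ i, kk i ^ r = 1) →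
    ∃ (pi : ℂ) (KI : Subfield ℂ), HypQ p V (N0O p 1 A B f) 1 (nuX e)
        (sgnPart (s : ℂ) (fun x y => PhiK R e kk x y / (u * R.om R.i0))) pi KI ∧
      (∀ x : ℚ, ∑ j ∈ Finset.range p, sgnPart (s : ℂ) (fun x y => PhiK R e kk x y /
        (u * R.om R.i0)) ∞ (((x + j) / p : ℚ) : OnePoint ℚ) = 0) ∧
      (∀ w ∈ KI, V.valuation w < 1 → V.valuation w ≤ V.valuation (p : ℂ)) ∧
      V.valuation pi ^ (nI P - 1) * V.valuation (p : ℂ) ^ i = 1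

/-- (HQ2) `HypQ` for `er = 2`. MODEL: `hypR` in `NS/HGR.lean`.

USES O_TYF, O_GPT, RAM, VAL, CHR, PJ2, SAF, UAL, BDN, TYP, PRT. PROOF. `Q = QR p R e kk s u`, `s₀ = 2`. O_TYF for the families `kkJ p R kk 1`, `kkJ p R kk (-1)` (values `0` or roots of unity of order dividing `r`): `pi`, `KI`. TYP with `e = 2`, `q' = p - 1` (`nI P = p`), `2 ≤ i < p - 1`. `sym`: `isSym_neg`, `isSym_add` of `NS/HGR.lean` (with the factor `s`).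
`typ`, `bdd` as in HQ1. `G`: PRT with PJ2 and O_GPT for the weights `kkJ p R kk 1` (`nI (R.b i0) = nI ⊤ = 1`, `J(1 | p) = 1`, so the weight at `i0` is `kk i0`). -/
def So_HQ2 : Prop :=
  ∀ (p : ℕ) (A B : ℤ) (P : Ideal (OO A B)) (V : ValuationSubring ℂ) (f : ℕ),
    SetO p 2 A B P V f → TorX A B →
    ∀ (ι : Type) [Fintype ι] (R : Reps A B (p * f) ι) (u el lam : ℂ),
    GoodL V (R.L R.i0) u el lam → ∀ w : OO A B → ℂ, IsTeiP p 2 P V w →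
    ∀ e : OO A B → ℂ, IsEI (idl (A := A) (B := B) (p * f)) e → ∀ r : ℕ, ¬ p ∣ r →
    (∀ x, e x ≠ 0 → e x ^ r = 1) → ∀ i : ℕ, 2 ≤ i → i < p - 1 →
    (∀ x, x - 1 ∈ gO P f → x ∉ P → e x = w x ^ i) →
    ∀ s : ℤ, s = 1 ∨ s = -1 → ∀ kk : ι → ℂ, (∀ i, kk i ^ r = 1) →
    ∃ (pi : ℂ) (KI : Subfield ℂ),
      HypQ p V (N0O p 2 A B f) 2 (nuX e) (QR p R e kk (s : ℂ) u) pi KI ∧
      (∀ w ∈ KI, V.valuation w < 1 → V.valuation w ^ 2 ≤ V.valuation (p : ℂ)) ∧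
      V.valuation pi ^ (2 * (p - 1)) * V.valuation (p : ℂ) ^ i = 1

/-! ## The character sums -/

/-- (QS2) the quantity of the final statement as a character sum, `er = 2`. MODEL: `NS/HGR_Sup.lean` (`SnX_zero`, `STX_one`, `STX_neg`, `comb_lin`, `qsr`).

USES VAL, QBO (`MUXHY.ty_QSX MUXF.xf_F5 MUXF.xf_PRD`). PROOF. (1) `SnX R m M e i c = 0` for `p ∣ M`, `J(N b_i c | p) ≠ 1`, `p ∤ c` (`nm x N b_i ≡ c` modulo `p`, `J(nm x | p) = 1` by QBO for `b = ⊤`). So for `c ≡ 1`, `a ≡ 1` modulo `p`: `STX (kkJ p R kk 1) c = STX kk c`, and for `c ≡ -1`: `STX (kkJ p R kk (-1)) c = STX kk c`.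
(2) QSX for the weights `k` and `s = 1, -1` (`P = ⊤`, `N = 1`; `q0 p = p`, `q0 p * p^n = p^(n+1)`): half the sum, half the difference: `Σ_j ± STX k (g^j) = 2 f Σ_b ζ^b comb (b ↦ PP k ∞ (b/M)) b` and `Σ_j ± STX k (-g^j) = 2 f Σ_b ζ^b comb (b ↦ PP k (-∞) (-b/M)) b`, `g = 1 + p`. Take the first for `k = kkJ 1`, the second for `k = kkJ (-1)`, times `s`. -/
def So_QS2 : Prop :=
  ∀ (p : ℕ) (A B : ℤ) (P : Ideal (OO A B)) (V : ValuationSubring ℂ) (f : ℕ),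
    SetO p 2 A B P V f → ∀ (ι : Type) [Fintype ι] (R : Reps A B (p * f) ι) (e : OO A B → ℂ),
    IsEI (idl (A := A) (B := B) (p * f)) e → ∀ (kk : ι → ℂ) (s : ℤ) (n : ℕ),
    ∑ j ∈ Finset.range 2, (-1 : ℂ) ^ (1 - j) *
        (STX R (lvX p f n) (p ^ (n + 1)) (aX p f) e kk ((1 + p) ^ j) +
          s * STX R (lvX p f n) (p ^ (n + 1)) (aX p f) e kk (-((1 + p) ^ j))) =
      2 * f * ∑ b ∈ Finset.range (p ^ (n + 1)),
        ex (-((1 + (p : ℚ)) * (aX p f : ℚ) ^ 2) / ((p ^ (n + 1) : ℕ) : ℚ)) ^ b *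
          comb (aX p f) (1 + (p : ℤ)) 1 (fun b => PP R ⊤ e (kkJ p R kk 1) 0 ∞
              ((b / ((p ^ (n + 1) : ℕ) : ℚ) : ℚ) : OnePoint ℚ) +
            s * PP R ⊤ e (kkJ p R kk (-1)) 0 (mob (-1) 0 0 1 ∞)
              (mob (-1) 0 0 1 ((b / ((p ^ (n + 1) : ℕ) : ℚ) : ℚ) : OnePoint ℚ))) b

/-- (HF1) the result for `er = 1`. MODEL: `th_HFIN` in `NS/H_Hfin.lean`.

USES HQ1, HN, VAL, RAM (`ty_QSX`). PROOF. `kk' c = kk c/e(N b_c)`, `kk' c ^ r = 1`. HQ1 for `kk'`, HN with `q' = nI P - 1`, `α = aX p f`, `g = 1 + p` (`aX p f = 1 + 2 p f`), `n₀`: `n`. QSX (`q0 p = p`): the sum is `2 f Σ_b ζ^b comb (sgnPart s (PP R ⊤ e kk 0)) b`, `ζ = ex(-((1+p) a²)/p^(n+1))` a primitive root (`Hfx.prim`),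
`PP R ⊤ e kk 0 = PhiK R e kk'/om_0` (`Brg.PP_zero`); divide by `u`. `v(2 f) = 1` (`p ∤ 2 f`). -/
def So_HF1 : Prop :=
  ∀ (p : ℕ) (A B : ℤ) (P : Ideal (OO A B)) (V : ValuationSubring ℂ) (f : ℕ),
    SetO p 1 A B P V f → TorX A B →
    ∀ (ι : Type) [Fintype ι] (R : Reps A B (p * f) ι) (u el lam : ℂ),
    GoodL V (R.L R.i0) u el lam → ∀ w : OO A B → ℂ, IsTeiP p 1 P V w →
    ∀ e : OO A B → ℂ, IsEI (idl (A := A) (B := B) (p * f)) e → ∀ r : ℕ, ¬ p ∣ r →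
    (∀ x, e x ≠ 0 → e x ^ r = 1) → ∀ i : ℕ, nI P - 1 ≤ i * (p - 1) → i ≤ nI P - 2 →
    (∀ x, x - 1 ∈ gO P f → x ∉ P → e x = w x ^ i) →
    ∀ s : ℤ, s = 1 ∨ s = -1 → ∀ kk : ι → ℂ, (∀ i, kk i ^ r = 1) →
    ∀ n₀ : ℕ, ∃ n, n₀ ≤ n ∧
      V.valuation (p : ℂ) < V.valuation ((∑ j ∈ Finset.range 2, (-1) ^ (1 - j) *
        (STX R (lvX p f n) (p ^ (n + 1)) (aX p f) e kk ((1 + p) ^ j) +
          s * STX R (lvX p f n) (p ^ (n + 1)) (aX p f) e kk (-((1 + p) ^ j)))) / u)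

/-- (HF2) the result for `er = 2`. MODEL: `tq_HFIN` in `NS/HGR.lean` (its first half).

USES HQ2, HR, REL, QS2, VAL. PROOF. As HF1, with `QR p R e kk' s u`, `om = exp(2πi/p)`: `ζ = ex(-((1+p) a²)/p^(n+1))` satisfies `ζ^(p^n) om = ex((1 - (1+p) a²)/p) = 1` (`a ≡ 1` modulo `p`). `PP R ⊤ e (kkJ p R kk d) 0 = PhiK R e (kkJ p R kk' d)/om_0`. -/
def So_HF2 : Prop :=
  ∀ (p : ℕ) (A B : ℤ) (P : Ideal (OO A B)) (V : ValuationSubring ℂ) (f : ℕ),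
    SetO p 2 A B P V f → TorX A B →
    ∀ (ι : Type) [Fintype ι] (R : Reps A B (p * f) ι) (u el lam : ℂ),
    GoodL V (R.L R.i0) u el lam → ∀ w : OO A B → ℂ, IsTeiP p 2 P V w →
    ∀ e : OO A B → ℂ, IsEI (idl (A := A) (B := B) (p * f)) e → ∀ r : ℕ, ¬ p ∣ r →
    (∀ x, e x ≠ 0 → e x ^ r = 1) → ∀ i : ℕ, 2 ≤ i → i < p - 1 →
    (∀ x, x - 1 ∈ gO P f → x ∉ P → e x = w x ^ i) →
    ∀ s : ℤ, s = 1 ∨ s = -1 → ∀ kk : ι → ℂ, (∀ i, kk i ^ r = 1) →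
    ∀ n₀ : ℕ, ∃ n, n₀ ≤ n ∧
      V.valuation (p : ℂ) < V.valuation ((∑ j ∈ Finset.range 2, (-1) ^ (1 - j) *
        (STX R (lvX p f n) (p ^ (n + 1)) (aX p f) e kk ((1 + p) ^ j) +
          s * STX R (lvX p f n) (p ^ (n + 1)) (aX p f) e kk (-((1 + p) ^ j)))) / u)

end

end Pool.Agent.OBH
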