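import Pool.Agent.MUX.StKX
import Pool.Agent.NS.StIN

/-!
# OB, block K for one character: the inputs

`InpW` (`MUX/StZX.lean`) is the structure `InpX` of block K without the clause on non-powers; `NSI.I3At` is the body of this
clause for one character `χ` of `Gal(K₀/k)`, one exponent `N` and one level `n`; `I3C` says that it holds at arbitrarily
large levels, for all `N`. MAINO is the nilpotency of `γ - 1` on the `χ`-part of the class groups modulo `p`, BNDO the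
bound for its dimension.
-/

set_option autoImplicit false

open NumberField IsDedekindDomain Finset
open scoped nonZeroDivisors Pointwise

namespace Pool.Agent.OB

open _root_.Pool.Agent.RI _root_.Pool.Agent.RID _root_.Pool.Agent.MU3 _root_.Pool.Agent.MUXK
  _root_.Pool.Agent.MUXZ _root_.Pool.Agent.NSI

/-- The statement on non-powers for one character `χ`: for every `N` there are arbitrarily large levels. -/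
def I3C (F : Type) [Field F] (p : ℕ) (k K₀ : IntermediateField ℚ ℂ)
    (B : ℕ → IntermediateField ℚ ℂ) (hk₀ : ∀ n, k ≤ K₀ ⊔ B n) (hkK : k ≤ K₀) (c₀ : ℕ → ℂ)
    (mem₀ : ∀ n, c₀ n ∈ K₀ ⊔ B n) (χ : letI := algC hkK; (↥K₀ ≃ₐ[k] ↥K₀) →* Fˣ) : Prop :=
  ∀ N n₀ : ℕ, ∃ n, n₀ ≤ n ∧
    I3At F p k K₀ B hkK χ N n (hk₀ n) (c₀ n) (mem₀ n)

/-- `f` is an eigenfunctional for `χ` on the group `J` of ideals of `K₀_n`: additive, zero on principal ideals, and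
`f (δ x) = χ (δ|K₀) f x` for `δ ∈ Gal(K₀_n / k B_n)`. -/
def EigF (F : Type) [Field F] (k K₀ : IntermediateField ℚ ℂ)
    (B : ℕ → IntermediateField ℚ ℂ) (n : ℕ) [FiniteDimensional ℚ ↥(K₀ ⊔ B n)]
    (h : k ≤ K₀ ⊔ B n) (hkK : k ≤ K₀) (χ : letI := algC hkK; (↥K₀ ≃ₐ[k] ↥K₀) →* Fˣ)
    (f : J ↥(K₀ ⊔ B n) → F) : Prop :=
  letI := algC hkK
  letI := algC h
  (∀ x y, f (x * y) = f x + f y) ∧
  (∀ x ∈ (prin : (↥(K₀ ⊔ B n))ˣ →* J ↥(K₀ ⊔ B n)).range, f x = 0) ∧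
  ∀ (δ : NC h (B n)) (s : ↥K₀ ≃ₐ[k] ↥K₀),
    (∀ (x : ↥K₀) (x' : ↥(K₀ ⊔ B n)), (x' : ℂ) = x →
      (((δ : ↥(K₀ ⊔ B n) ≃ₐ[k] ↥(K₀ ⊔ B n)) x' : ↥(K₀ ⊔ B n)) : ℂ) = (s x : ↥K₀)) →
    ∀ x : J ↥(K₀ ⊔ B n), f ((δ : ↥(K₀ ⊔ B n) ≃ₐ[k] ↥(K₀ ⊔ B n)) • x) = (χ s : F) * f x

/-- The space of the eigenfunctionals for `χ`. -/
def EigS (F : Type) [Field F] (k K₀ : IntermediateField ℚ ℂ)
    (B : ℕ → IntermediateField ℚ ℂ) (n : ℕ) [FiniteDimensional ℚ ↥(K₀ ⊔ B n)]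
    (h : k ≤ K₀ ⊔ B n) (hkK : k ≤ K₀) (χ : letI := algC hkK; (↥K₀ ≃ₐ[k] ↥K₀) →* Fˣ) :
    Submodule F (J ↥(K₀ ⊔ B n) → F) where
  carrier := {f | EigF F k K₀ B n h hkK χ f}
  add_mem' := by
    rintro f g ⟨h1, h2, h3⟩ ⟨h1', h2', h3'⟩
    refine ⟨fun x y => ?_, fun x hx => ?_, fun δ s hs x => ?_⟩
    · show f (x * y) + g (x * y) = (f x + g x) + (f y + g y)
      rw [h1, h1']; ring
    · show f x + g x = 0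
      rw [h2 x hx, h2' x hx, add_zero]
    · show f _ + g _ = _ * (f x + g x)
      rw [h3 δ s hs, h3' δ s hs]; ring
  zero_mem' := by
    refine ⟨fun x y => ?_, fun x hx => ?_, fun δ s hs x => ?_⟩
    · show (0 : F) = 0 + 0
      rw [add_zero]
    · rfl
    · show (0 : F) = _ * 0
      rw [mul_zero]
  smul_mem' := by
    rintro a f ⟨h1, h2, h3⟩
    refine ⟨fun x y => ?_, fun x hx => ?_, fun δ s hs x => ?_⟩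
    · show a * f (x * y) = a * f x + a * f y
      rw [h1]; ring
    · show a * f x = 0
      rw [h2 x hx, mul_zero]
    · show a * f _ = _ * (a * f x)
      rw [h3 δ s hs]; ring

/-- The operator `γ - 1` is nilpotent of exponent `l` on the `χ`-parts of all layers. -/
def NilC (F : Type) [Field F] (k K₀ : IntermediateField ℚ ℂ)
    (B : ℕ → IntermediateField ℚ ℂ) [∀ n, FiniteDimensional ℚ ↥(K₀ ⊔ B n)]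
    (hk₀ : ∀ n, k ≤ K₀ ⊔ B n) (hkK : k ≤ K₀)
    (χ : letI := algC hkK; (↥K₀ ≃ₐ[k] ↥K₀) →* Fˣ) (l : ℕ) : Prop :=
  ∀ n : ℕ, letI := algC (hk₀ n)
    ∀ g : ↥(K₀ ⊔ B n) ≃ₐ[k] ↥(K₀ ⊔ B n), (∀ x : ↥(K₀ ⊔ B n), g x = x ↔ (x : ℂ) ∈ K₀) →
    ∀ f : J ↥(K₀ ⊔ B n) → F, EigF F k K₀ B n (hk₀ n) hkK χ f →
    ∀ b : J ↥(K₀ ⊔ B n), f ((_root_.Pool.Agent.RID.dg g)^[l] b) = 0

/-! ## Statements -/

/-- KOLO: the relations for `c₀`. -/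
def S_KOLO : Prop := ∀ (p : ℕ) [Fact p.Prime]
    (k K₀ K : IntermediateField ℚ ℂ) (B : ℕ → IntermediateField ℚ ℂ)
    [FiniteDimensional ℚ k] [FiniteDimensional ℚ K] [∀ n, FiniteDimensional ℚ ↥(K ⊔ B n)]
    [∀ n, FiniteDimensional ℚ ↥(K₀ ⊔ B n)], SetX p k K₀ K B →
    ∃ S' : Finset ℕ, 2 ∈ S' ∧ p ∈ S' ∧ (∀ ℓ ∈ S', ℓ.Prime) ∧
    ∀ (hk : ∀ n, k ≤ K ⊔ B n) (hk₀ : ∀ n, k ≤ K₀ ⊔ B n) (hh : ∀ n, K₀ ⊔ B n ≤ K ⊔ B n)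
    (S : Finset ℕ) (c c₀ : ℕ → ℂ) (n₁ : ℕ)
    (hI : InpW p k K₀ K B hk hk₀ S c c₀ n₁)
    (S₁ : Finset ℕ), S ∪ S' ⊆ S₁ → (∀ ℓ ∈ S₁, ℓ.Prime) → ∀ n, n₁ ≤ n →
    letI := algC (hk n)
    letI := algC (hk₀ n)
    letI := algC (hh n)
    ∀ (g : ↥(K₀ ⊔ B n) ≃ₐ[k] ↥(K₀ ⊔ B n)) (g' : ↥(K ⊔ B n) ≃ₐ[k] ↥(K ⊔ B n)),
    (∀ x : ↥(K ⊔ B n), (x : ℂ) ∈ K → g' x = x) →
    (∀ x : ↥(K₀ ⊔ B n), ((g' ⟨x, hh n x.2⟩ : ↥(K ⊔ B n)) : ℂ) = (g x : ↥(K₀ ⊔ B n))) →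
    (∀ v : HeightOneSpectrum (𝓞 ↥(K ⊔ B n)), Above S₁ v → g' • v.asIdeal = v.asIdeal) →
    ∀ u : (𝓞 ↥(K₀ ⊔ B n))ˣ,
    ((u : 𝓞 ↥(K₀ ⊔ B n)) : ↥(K₀ ⊔ B n)) = (g ^ p) ⟨c₀ n, hI.mem₀ n⟩ / ⟨c₀ n, hI.mem₀ n⟩ →
    KRelX p k ↥(K₀ ⊔ B n) ↥(K ⊔ B n) S₁ u

/-- SU0O: `c₀ n` is a unit outside `S`. -/
def S_SU0O : Prop := ∀ (p : ℕ) [Fact p.Prime]
    (k K₀ K : IntermediateField ℚ ℂ) (B : ℕ → IntermediateField ℚ ℂ)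
    [FiniteDimensional ℚ k] [FiniteDimensional ℚ K] [∀ n, FiniteDimensional ℚ ↥(K ⊔ B n)]
    [∀ n, FiniteDimensional ℚ ↥(K₀ ⊔ B n)], SetX p k K₀ K B →
    ∀ (hk : ∀ n, k ≤ K ⊔ B n) (hk₀ : ∀ n, k ≤ K₀ ⊔ B n) (S : Finset ℕ) (c c₀ : ℕ → ℂ) (n₁ : ℕ)
    (hI : InpW p k K₀ K B hk hk₀ S c c₀ n₁), ∀ n, n₁ ≤ n →
    c₀ n ≠ 0 ∧ SU S ↥(K₀ ⊔ B n) ⟨c₀ n, hI.mem₀ n⟩

/-- I3O: the non-power at all levels `n ≥ m₁`, in the large field, for one character (`m = m₁`). -/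
def S_I3O : Prop := ∀ (F : Type) [Field F] (p : ℕ) [Fact p.Prime]
    (k K₀ K : IntermediateField ℚ ℂ) (B : ℕ → IntermediateField ℚ ℂ)
    [FiniteDimensional ℚ k] [FiniteDimensional ℚ K] [∀ n, FiniteDimensional ℚ ↥(K ⊔ B n)]
    [∀ n, FiniteDimensional ℚ ↥(K₀ ⊔ B n)], SetX p k K₀ K B →
    ∀ (hk : ∀ n, k ≤ K ⊔ B n) (hk₀ : ∀ n, k ≤ K₀ ⊔ B n) (hh : ∀ n, K₀ ⊔ B n ≤ K ⊔ B n)
    (hkK : k ≤ K₀) (S : Finset ℕ) (c c₀ : ℕ → ℂ) (n₁ : ℕ)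
    (hI : InpW p k K₀ K B hk hk₀ S c c₀ n₁)
    (χ₀ : letI := algC hkK; (↥K₀ ≃ₐ[k] ↥K₀) →* Fˣ)
    (_ : I3C F p k K₀ B hk₀ hkK c₀ hI.mem₀ χ₀)
    (m₀ : ℕ), ∃ m₁, n₁ ≤ m₁ ∧ ∀ n, m₁ ≤ n →
    letI := algC hkK
    letI := algC (hk₀ n)
    letI := algC (hh n)
    ∀ γ : ↥(K₀ ⊔ B n) ≃ₐ[k] ↥(K₀ ⊔ B n), (∀ x : ↥(K₀ ⊔ B n), γ x = x ↔ (x : ℂ) ∈ K₀) →
    ∀ [Fintype (NC (hk₀ n) (B n))] (u : (𝓞 ↥(K₀ ⊔ B n))ˣ),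
    ((u : 𝓞 ↥(K₀ ⊔ B n)) : ↥(K₀ ⊔ B n)) =
      ((γ ^ (p ^ m₀)) ^ p) ⟨c₀ n, hI.mem₀ n⟩ / ⟨c₀ n, hI.mem₀ n⟩ →
    ∀ χ : NC (hk₀ n) (B n) →* Fˣ,
    (∀ (δ : NC (hk₀ n) (B n)) (s : ↥K₀ ≃ₐ[k] ↥K₀),
      (∀ (x : ↥K₀) (x' : ↥(K₀ ⊔ B n)), (x' : ℂ) = x →
        (((δ : ↥(K₀ ⊔ B n) ≃ₐ[k] ↥(K₀ ⊔ B n)) x' : ↥(K₀ ⊔ B n)) : ℂ) = (s x : ↥K₀)) →
      χ δ = χ₀ s) →
    ∃ θ : F →+ ZMod p, ∀ y : ↥(K ⊔ B n),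
      y ^ p ≠ algebraMap ↥(K₀ ⊔ B n) ↥(K ⊔ B n)
        ((sUnitP p (NC (hk₀ n) (B n)) γ m₁ n χ θ u : 𝓞 ↥(K₀ ⊔ B n)) : ↥(K₀ ⊔ B n))

/-- NILO: the result of section 3 for one eigenfunctional. -/
def S_NILO : Prop := ∀ (p : ℕ) [Fact p.Prime] (F : Type) [Field F] [CharP F p]
    (k L M : Type) [Field k] [NumberField k] [Field L] [NumberField L] [Field M] [NumberField M]
    [Algebra k L] [Algebra L M] [Algebra k M] [IsScalarTower k L M] [IsGalois k L] [IsGalois k M]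
    (n m m₀ : ℕ) (γ : L ≃ₐ[k] L) (D : Subgroup (L ≃ₐ[k] L)) [Fintype D], TwP p k L n γ D →
    m ≤ n →
    ∀ (S : Finset ℕ) (ζ : 𝓞 M), IsPrimitiveRoot ζ (2 * p) → 2 ∈ S → p ∈ S → (∀ ℓ ∈ S, ℓ.Prime) →
    (∀ v : HeightOneSpectrum (𝓞 L), ¬ Above S v → v.asIdeal.ramificationIdx (𝓞 k) = 1) →
    (∀ v : HeightOneSpectrum (𝓞 L), Above S v → γ ^ (p ^ m₀) • v.asIdeal = v.asIdeal) →
    ∀ c : (𝓞 L)ˣ, KRelX p k L M S c →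
    ∀ (χ : D →* Fˣ) (θ : F →+ ZMod p), (∀ y : M,
      y ^ p ≠ algebraMap L M ((sUnitP p D γ m n χ θ c : 𝓞 L) : L)) →
    ∀ f : J L → F, (∀ x y, f (x * y) = f x + f y) →
    (∀ x ∈ (prin : Lˣ →* J L).range, f x = 0) →
    (∀ (δ : D) (x : J L), f ((δ : L ≃ₐ[k] L) • x) = (χ δ : F) * f x) →
    ∀ b : J L,
      f ((_root_.Pool.Agent.RID.dg γ)^[p ^ (max m m₀ + 1) + 1 + Module.finrank L M] b) = 0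

/-- MAINO: the operator `γ - 1` is nilpotent on the `χ`-part of the class group of `K₀ B_n` modulo `p`, with an exponent
which does not depend on `n`. -/
def S_MAINO : Prop := ∀ (F : Type) [Field F] (p : ℕ) [Fact p.Prime] [CharP F p]
    (k K₀ K : IntermediateField ℚ ℂ) (B : ℕ → IntermediateField ℚ ℂ)
    [FiniteDimensional ℚ k] [FiniteDimensional ℚ K] [∀ n, FiniteDimensional ℚ ↥(K ⊔ B n)]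
    [∀ n, FiniteDimensional ℚ ↥(K₀ ⊔ B n)], SetX p k K₀ K B →
    ∀ (hk : ∀ n, k ≤ K ⊔ B n) (hk₀ : ∀ n, k ≤ K₀ ⊔ B n)
    (hkK : k ≤ K₀) (S : Finset ℕ) (c c₀ : ℕ → ℂ) (n₁ : ℕ)
    (hI : InpW p k K₀ K B hk hk₀ S c c₀ n₁)
    (χ : letI := algC hkK; (↥K₀ ≃ₐ[k] ↥K₀) →* Fˣ),
    I3C F p k K₀ B hk₀ hkK c₀ hI.mem₀ χ →
    ∃ l : ℕ, NilC F k K₀ B hk₀ hkK χ l

/-- PIG: from one level, `N = 1` and some branch (depending on the level) to `I3C` for one branch. -/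
def S_PIG : Prop := ∀ (F : Type) [Field F] (p : ℕ) [Fact p.Prime]
    (k K₀ K : IntermediateField ℚ ℂ) (B : ℕ → IntermediateField ℚ ℂ)
    [FiniteDimensional ℚ k] [FiniteDimensional ℚ K] [∀ n, FiniteDimensional ℚ ↥(K ⊔ B n)]
    [∀ n, FiniteDimensional ℚ ↥(K₀ ⊔ B n)], SetX p k K₀ K B →
    ∀ (hk : ∀ n, k ≤ K ⊔ B n) (hk₀ : ∀ n, k ≤ K₀ ⊔ B n)
    (hkK : k ≤ K₀) (S : Finset ℕ) (c c₀ : ℕ → ℂ) (n₁ : ℕ)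
    (hI : InpW p k K₀ K B hk hk₀ S c c₀ n₁) (ι : Type) [Finite ι]
    (χ : ι → (letI := algC hkK; (↥K₀ ≃ₐ[k] ↥K₀) →* Fˣ)),
    (∀ n₀ : ℕ, ∃ (i : ι) (n : ℕ), n₀ ≤ n ∧
      I3At F p k K₀ B hkK (χ i) 1 n (hk₀ n) (c₀ n) (hI.mem₀ n)) →
    ∃ i : ι, I3C F p k K₀ B hk₀ hkK c₀ hI.mem₀ (χ i)

/-- BNDO: the dimension of the `χ`-part of the class group of `K₀ B_n` modulo `p` (the space of the eigenfunctionals)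
grows at most linearly in `n`. -/
def S_BNDO : Prop := ∀ (F : Type) [Field F] (p : ℕ) [Fact p.Prime] [CharP F p]
    (k K₀ K : IntermediateField ℚ ℂ) (B : ℕ → IntermediateField ℚ ℂ)
    [FiniteDimensional ℚ k] [FiniteDimensional ℚ K] [∀ n, FiniteDimensional ℚ ↥(K ⊔ B n)]
    [∀ n, FiniteDimensional ℚ ↥(K₀ ⊔ B n)], SetX p k K₀ K B →
    ∀ (hk : ∀ n, k ≤ K ⊔ B n) (hk₀ : ∀ n, k ≤ K₀ ⊔ B n)
    (hkK : k ≤ K₀) (S : Finset ℕ) (c c₀ : ℕ → ℂ) (n₁ : ℕ)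
    (hI : InpW p k K₀ K B hk hk₀ S c c₀ n₁)
    (χ : letI := algC hkK; (↥K₀ ≃ₐ[k] ↥K₀) →* Fˣ),
    I3C F p k K₀ B hk₀ hkK c₀ hI.mem₀ χ →
    ∃ C : ℕ, ∀ n : ℕ, Module.Finite F (EigS F k K₀ B n (hk₀ n) hkK χ) ∧
      Module.finrank F (EigS F k K₀ B n (hk₀ n) hkK χ) ≤ C * (n + 1)

/-- CNJ: conjugate characters. `σ` an automorphism of `ℂ` which maps `K₀`, `k`, `B n` to themselves,
`χ' (σ⁻¹ s σ) = χ s`. -/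
def S_CNJ : Prop := ∀ (F : Type) [Field F]
    (k K₀ : IntermediateField ℚ ℂ) (B : ℕ → IntermediateField ℚ ℂ)
    [∀ n, FiniteDimensional ℚ ↥(K₀ ⊔ B n)] (hk₀ : ∀ n, k ≤ K₀ ⊔ B n) (hkK : k ≤ K₀)
    (χ χ' : letI := algC hkK; (↥K₀ ≃ₐ[k] ↥K₀) →* Fˣ) (σ : ℂ ≃+* ℂ),
    (∀ x, x ∈ K₀ ↔ σ x ∈ K₀) → (∀ x, x ∈ k ↔ σ x ∈ k) → (∀ n x, x ∈ B n ↔ σ x ∈ B n) →
    (letI := algC hkK; ∀ s s' : ↥K₀ ≃ₐ[k] ↥K₀,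
      (∀ x x' : ↥K₀, (x' : ℂ) = σ x → ((s x' : ↥K₀) : ℂ) = σ ((s' x : ↥K₀) : ℂ)) → χ' s' = χ s) →
    ∀ l : ℕ, NilC F k K₀ B hk₀ hkK χ l → NilC F k K₀ B hk₀ hkK χ' l

end Pool.Agent.OB
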