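import Pool.Agent.OB.GLib
import Pool.Agent.OB.StT
import Pool.Agent.MUX.StVX
import Pool.Agent.MUX.StR2

/-!
# OB, block GR: good reduction and unramifiedness, every prime `p ≥ 5` (helper60; the proofs of good reduction and of (B3) are helper19's)

`X z = xu L u e z = (℘ z - e)/u²`, `Y z = yu L u z = ℘' z/(2 u³)`; `Leg`, `WL` and the statements `Sr_X` are those of `NS/StRN.lean` (`Leg L u e lam` is the Legendre equation without a condition on `lam`; LGF, HPD, XIL, TOR, TWO, CHT, PM3 are general and proved: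
`Pool.Agent.NSR.rlgf`, `tr_HPD`, `rxil`, `rtor`, `rtwo`, `rcht`, `rpm3` in `NS/RN_ALL.lean`). `GR`, `InK`, `tX`: `MUX/VX.lean`. Block U (`MUX/UAll.lean`: `u_BAC`, `u_PFI`, `u_PHI`, `u_TSN`, `u_DET`, ..), block B (`MU3/BAll.lean`: `b_NEQ`, `b_ZER`, `b_ADD`, `b_DUP`, `b_SUR`, `b_DSC`),
`Pool.Agent.MU3A.ta_SCP`, `ta_TW2`, `ta_ROO` may be used directly. `OB/GLib.lean`: elementary facts on `CaseO` (`CaseO.vp`, `v2`, `v3`, `vnat`, `vemb_lt`, `vemb_one`, `two`, `P0`, `vemb_le`, `v_nat_unit`, `tor_of_mul`, `GoodL.leg`, `GoodL.unit`).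

Every statement is a `def So_X : Prop`; the module OBR_X proves `theorem o_X (h : So_Y) .. : So_X` in `Pool/Agent/OB/R_X.lean`, namespace `Pool.Agent.OBR` (private lemmas in `Pool.Agent.OBR.X`), with the statements named under USES as hypotheses.
-/

set_option autoImplicit false

open WeierstrassCurve Polynomial

namespace Pool.Agent.OBR

open _root_.MU3 Pool.Agent.MU3A Pool.Agent.MU3B Pool.Agent.RI Pool.Agent.MUX Pool.Agent.MUXU
open Pool.Agent.MUXV (GR InK tX)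
open Pool.Agent.NS Pool.Agent.NSR Pool.Agent.OB

noncomputable section

/-! ## Points of order two -/

/-- the three points of order two -/
structure Two3 (L : PeriodPair) (w₁ w₂ w₃ : ℂ) : Prop where
  n₁ : w₁ ∉ L.lattice
  n₂ : w₂ ∉ L.lattice
  n₃ : w₃ ∉ L.lattice
  t₁ : 2 * w₁ ∈ L.lattice
  t₂ : 2 * w₂ ∈ L.lattice
  t₃ : 2 * w₃ ∈ L.lattice
  d₁₂ : w₁ - w₂ ∉ L.lattice
  d₁₃ : w₁ - w₃ ∉ L.lattice
  d₂₃ : w₂ - w₃ ∉ L.lattice

lemma Two3.swap {L : PeriodPair} {w₁ w₂ w₃ : ℂ} (h : Two3 L w₁ w₂ w₃) : Two3 L w₁ w₃ w₂ :=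
  ⟨h.n₁, h.n₃, h.n₂, h.t₁, h.t₃, h.t₂, h.d₁₃, h.d₁₂, fun k => h.d₂₃ (by
    have := neg_mem k
    rwa [neg_sub] at this)⟩

lemma Two3.rot {L : PeriodPair} {w₁ w₂ w₃ : ℂ} (h : Two3 L w₁ w₂ w₃) : Two3 L w₂ w₃ w₁ :=
  ⟨h.n₂, h.n₃, h.n₁, h.t₂, h.t₃, h.t₁, h.d₂₃, fun k => h.d₁₂ (by
    have := neg_mem k
    rwa [neg_sub] at this), fun k => h.d₁₃ (by
    have := neg_mem k
    rwa [neg_sub] at this)⟩

/-- `w` is the FAR point of order two: the difference of the values of `℘` at the two others is smaller than the other differences, the quotient is `d` -/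
structure Far (V : ValuationSubring ℂ) (L : PeriodPair) (w : ℂ) (d : V.ValueGroup) : Prop where
  ne : w ∉ L.lattice
  two : 2 * w ∈ L.lattice
  d0 : d ≠ 0
  lt : d < 1
  dist : ∀ w' w'', Two3 L w w' w'' →
    V.valuation (L.weierstrassP w' - L.weierstrassP w'') =
      d * V.valuation (L.weierstrassP w - L.weierstrassP w')

/-- (TW3) points of order two.

PROOF. `2 z ∈ L` means `z ≡ 0, ω₁/2, ω₂/2, ω₁/2 + ω₂/2` modulo `L` (see `tr_HPD` in `NS/RN_HPD.lean`: `ω₁_div_two_notMem_lattice`, ..): `z = (a ω₁ + b ω₂)/2` with integers `a, b`. So there are exactly three nonzero classes, the sum of two different ones is the third one (`w₁ + w₂ ∉ L` as `w₁ - w₂ ∉ L`, `2 w₂ ∈ L`; `w₁ + w₂ - w₁ = w₂ ∉ L`, ..),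
and `2 w_i ∈ L`, so the sum of all three is in `L`. The equation: `ta_ROO` for `w₁, w₂` (`w₁ + w₂ ≡ w₃`; `℘` is periodic) gives the symmetric functions of `℘(w_i)`, and `derivWeierstrassP_sq` (as in `hpd_leg`, `NS/RN_HPD.lean`). The values `℘(w_i)` are different (`b_NEQ`). -/
def So_TW3 : Prop :=
  ∀ L : PeriodPair, (∃ w₁ w₂ w₃, Two3 L w₁ w₂ w₃) ∧
    (∀ w₁ w₂, w₁ ∉ L.lattice → 2 * w₁ ∈ L.lattice → w₂ ∉ L.lattice → 2 * w₂ ∈ L.lattice →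
      w₁ - w₂ ∉ L.lattice → Two3 L w₁ w₂ (w₁ + w₂)) ∧
    ∀ w₁ w₂ w₃, Two3 L w₁ w₂ w₃ → w₁ + w₂ + w₃ ∈ L.lattice ∧
      (∀ z, z ∉ L.lattice → 2 * z ∈ L.lattice →
        z - w₁ ∈ L.lattice ∨ z - w₂ ∈ L.lattice ∨ z - w₃ ∈ L.lattice) ∧
      (∀ z, z ∉ L.lattice → L.derivWeierstrassP z ^ 2 = 4 * ((L.weierstrassP z - L.weierstrassP w₁) *
        (L.weierstrassP z - L.weierstrassP w₂) * (L.weierstrassP z - L.weierstrassP w₃))) ∧
      L.weierstrassP w₁ ≠ L.weierstrassP w₂ ∧ L.weierstrassP w₁ ≠ L.weierstrassP w₃ ∧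
      L.weierstrassP w₂ ≠ L.weierstrassP w₃

/-- (LGE) Legendre forms for all orders of the points of order two.

USES TW3. PROOF. `u ≠ 0` as `℘ w₂ ≠ ℘ w₁`. Divide the equation of TW3 by `4 u⁶` (as in `hpd_leg`, `NS/RN_HPD.lean`). -/
def So_LGE : Prop :=
  ∀ (L : PeriodPair) (w₁ w₂ w₃ u : ℂ), Two3 L w₁ w₂ w₃ →
    u ^ 2 = L.weierstrassP w₂ - L.weierstrassP w₁ → Leg L u (L.weierstrassP w₁)
      ((L.weierstrassP w₃ - L.weierstrassP w₁) / (L.weierstrassP w₂ - L.weierstrassP w₁))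

/-- (FRC) criterion for a far point.

USES TW3. PROOF. Let `Two3 L w w' w''` be other labels with the same first point `w`. `w', w''` are congruent modulo `L` to `w₂, w₃` in some order (TW3: every point of order two is congruent to `w`, `w₂` or `w₃`; not to `w`; and `w' - w'' ∉ L`). `℘` is periodic. -/
def So_FRC : Prop :=
  ∀ (V : ValuationSubring ℂ) (L : PeriodPair) (w w₂ w₃ : ℂ) (d : V.ValueGroup), Two3 L w w₂ w₃ →
    d ≠ 0 → d < 1 →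
    V.valuation (L.weierstrassP w - L.weierstrassP w₂) =
      V.valuation (L.weierstrassP w - L.weierstrassP w₃) →
    V.valuation (L.weierstrassP w₂ - L.weierstrassP w₃) =
      d * V.valuation (L.weierstrassP w - L.weierstrassP w₂) → Far V L w d

/-- (DIC) good reduction or a far point.

USES TW3, LGE, FRC. PROOF. Let `e_i = ℘(w_i)` for some `w₁, w₂, w₃` (TW3), `D₁ = v(e₂ - e₃)`, `D₂ = v(e₁ - e₃)`, `D₃ = v(e₁ - e₂)`, not zero. Other labels: every point of order two is congruent to one of the `w_i` (TW3) and `℘` is periodic, so for `Two3 L w₁' w₂' w₃'` the three numbers `v(℘ w_i' - ℘ w_j')` are the same up to the order.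
If `D₁ = D₂ = D₃`: `v lam = 1` and `1 - lam = (℘ w₂ - ℘ w₃)/(℘ w₂ - ℘ w₁)` has valuation 1, for all labels: `GoodL` (LGE). Otherwise, by the ultrametric inequality for `(e₁ - e₂) + (e₂ - e₃) = e₁ - e₃` the maximum occurs exactly twice; if for instance `D₁ < D₂ = D₃` then `w = w₁` is far with `d = D₁/D₂`. -/
def So_DIC : Prop :=
  ∀ (V : ValuationSubring ℂ) (L : PeriodPair),
    (∀ w₁ w₂ w₃ u : ℂ, Two3 L w₁ w₂ w₃ → u ^ 2 = L.weierstrassP w₂ - L.weierstrassP w₁ →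
      GoodL V L u (L.weierstrassP w₁)
        ((L.weierstrassP w₃ - L.weierstrassP w₁) / (L.weierstrassP w₂ - L.weierstrassP w₁))) ∨
    ∃ w d, Far V L w d

/-- (FRU) the far point is unique; homotheties.

USES TW3, FRC. PROOF. First: `Two3 L w w₂ w₃` and its swap give `D = v(℘ w - ℘ w₂) = v(℘ w - ℘ w₃)` (`d ≠ 0`) and `v(℘ w₂ - ℘ w₃) = d D`. If `w' - w ∉ L`, let `w₂ = w'`, `w₃ = w + w'` (TW3). `w'` is far: `v(℘ w - ℘ w₃) = d' v(℘ w' - ℘ w)`, i.e. `D = d' D`, `d' = 1` (`D ≠ 0`), contradiction. So `w' - w ∈ L`; then `Two3 L w w₂ w₃` and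
`Two3 L w' w₂ w₃`, `℘ w' = ℘ w`, `d D = d' D`. Homothety: `℘(c z; L') = c⁻² ℘(z; L)` (`ta_SCP`); `Two3 L w w₂ w₃` gives `Two3 L' (c w) (c w₂) (c w₃)`, (FRC). -/
def So_FRU : Prop :=
  ∀ (V : ValuationSubring ℂ) (L : PeriodPair) (w : ℂ) (d : V.ValueGroup), Far V L w d →
    (∀ w' d', Far V L w' d' → w' - w ∈ L.lattice ∧ d' = d) ∧
    ∀ (L' : PeriodPair) (c : ℂ), c ≠ 0 → (∀ z, z ∈ L.lattice ↔ c * z ∈ L'.lattice) →
      Far V L' (c * w) d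

/-- (FIX) the far point is fixed by complex multiplications of odd norm prime to `p`.

USES TW3, LGE. PROOF. `w₁ = w`, `w₂, w₃` the others (TW3). `u² = ℘ w₁ - ℘ w₂`, `e = ℘ w₂`, `lam = (℘ w₃ - ℘ w₂)/(℘ w₁ - ℘ w₂)`: (LGE) for `(w₂, w₁, w₃)`. `X = xu L u e`: `X w₂ = 0`, `X w₁ = 1`, `X w₃ = lam`; from `Far`: `v lam = d < 1`, `v(1 - lam) = 1`. `α = emb al`, `Isg L L α` (`IsLI.hasCM`), `R` representatives (`u_BAC`). For `q ∈ R`:
`n q = emb (star al) α q ∈ L`, so (`tr_TOR`/`rtor`, `v lam ≤ 1`, `v n = 1`) `v(X q) ≤ 1`. `A_k := ∏_(q ∈ R) v(X q - X w_k)`, `k = 1, 2, 3`: `≤ 1`, and not zero (`X q = X w_k` gives `q ≡ ± w_k` (`b_NEQ`), `2 q ∈ L`, and `n q ∈ L`, `n` odd: `q ∈ L`). `α w_i ∉ L` (otherwise `n w_i ∈ L`, `n` odd), and `α w_i - α w_j ∉ L` for `i ≠ j` (the same for `w_i - w_j`), and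
`2 α w_i ∈ L`: `α` permutes the classes of the `w_i`. (TWO, `rtwo`/`ta_TW2`) for the point `w_j` and `q`: `(X(w_j + q) - X w_j)(X q - X w_j) = (X w_j - X w_i)(X w_j - X w_k)`, `{i, j, k} = {1, 2, 3}` (`℘(w_j + q) - ℘ w_j` times `℘ q - ℘ w_j` is `3 ℘(w_j)² - g₂/4 = (℘ w_j - ℘ w_i)(℘ w_j - ℘ w_k)`; sum of the `℘ w_i` is `0`), so
`X(w_j + q) - X w_i = (X w_j - X w_i)(X q - X w_k)/(X q - X w_j)`. (`u_PFI`) with `z = w_i`, `w = w_j`: `α² (X(α w_i) - X(α w_j)) ∏ (X w_i - X q) = (X w_i - X w_j) ∏ (X w_i - X(w_j + q))`; valuations, `m = v(α)²`: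
`m v(X(α w_i) - X(α w_j)) A_i A_j = v(X w_i - X w_j)^(#R + 1) A_k`. For `(i, j, k) = (1, 2, 3)` and `(1, 3, 2)` the factor `v(X w_i - X w_j)` is `1`: `m v(X(α w₁) - X(α w₂)) A₁ A₂ = A₃`, `m v(X(α w₁) - X(α w₃)) A₁ A₃ = A₂`. Multiply and cancel `A₂ A₃`: `m² A₁² v(X(α w₁) - X(α w₂)) v(X(α w₁) - X(α w₃)) = 1`, all factors are `≤ 1`
(`vemb_le`), so `v(X(α w₁) - X(α w₂)) = v(X(α w₁) - X(α w₃)) = 1`. If `α w₁ ≡ w₂` then one of `α w₂, α w₃` is `≡ w₃`, and `v(X w₂ - X w₃) = v lam < 1`, a contradiction; the same if `α w₁ ≡ w₃`. So `α w₁ ≡ w₁`. -/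
def So_FIX : Prop :=
  ∀ (A B : ℤ) (V : ValuationSubring ℂ), CQ A B → V.valuation (2 : ℂ) = 1 →
    ∀ (b : Ideal (OO A B)) (L : PeriodPair) (om : ℂ), IsLI b L om →
    ∀ w d, Far V L w d → ∀ (al : OO A B) (n : ℕ), nm al = (n : ℤ) → Odd n →
      V.valuation (n : ℂ) = 1 → emb al * w - w ∈ L.lattice

/-- (ISV) the values at the points of order two of `M = L + ℤ T`.

USES TW3. PROOF. `x z = ℘ z - ℘ T`, `κ = x(w₁) x(w₂)`. (`ta_TW2`) `x(z + T) x(z) = κ` for `z, z + T ∉ L` (`3 ℘(T)² - g₂/4 = (℘ w₁ - ℘ T)(℘ w₂ - ℘ T)`; or (TW3) last formulas). (`u_PFI`) with `μ = 1`, `R = {T}`: `(℘_M z - ℘_M y) x(z) = (℘ z - ℘ y)(℘ z - ℘(y + T)) = (x z - x y)(x z - κ/x y)` for `z, y ∉ M`, that is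
`℘_M z - ℘_M y = F(x z) - F(x y)`, `F(x) = x + κ/x` (`x z ≠ 0` for `z ∉ M`, `b_NEQ`). (1) `w₁ ∉ M` (`w₁ - T ∉ L`), `w₁ - w₂ ∈ M` (`w₁ - w₂ ≡ T`: it is of order two, not `≡ w₁, w₂`; TW3), `F(x w₁) = x(w₁) + x(w₂)`. (2) `y₀ = T/2`, `y₁ = y₀ + w₁`: `2 y₀ = T ∈ M`, `y₀ ∉ M` (`2 y₀ = T ∉ L`, and `2 (y₀ - T) = -T ∉ L`), `x(y₀ + T) = x(-y₀)`
(`y₀ + T = -y₀ + 2 T`) `= x(y₀)`, so `x(y₀)² = κ`; `2 y₁ = T + 2 w₁`, so in the same way `y₁ ∉ M` and `x(y₁)² = κ`. `x(y₁) ≠ x(y₀)` (`b_NEQ`: `y₁ - y₀ = w₁ ∉ L`, `y₁ + y₀ = T + w₁ ∉ L`), so `x(y₁) = -x(y₀)`. `F(x y₀) = 2 x(y₀)`, `F(x y₁) = -2 x(y₀)`. The three points `w₁, y₀, y₁` are not in `M`, their doubles are, and the differences are not in `M`: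
`w₁ - y₀`: doubled it is `2 w₁ - T ∉ L`, and `2 (w₁ - y₀ - T) ≡ -T`; `w₁ - y₁ = -y₀`; `y₀ - y₁ = -w₁`. Let `a² = x(w₁)` (`a ≠ 0`), `b = x(y₀)/a`, `b² = κ/x(w₁) = x(w₂)`, `2 a b = 2 x(y₀)`. -/
def So_ISV : Prop :=
  ∀ (L M : PeriodPair) (T w₁ w₂ : ℂ), Two3 L T w₁ w₂ →
    (∀ z, z ∈ M.lattice ↔ z ∈ L.lattice ∨ z - T ∈ L.lattice) →
    w₁ - w₂ ∈ M.lattice ∧ ∃ y₀ y₁ a b : ℂ, Two3 M w₁ y₀ y₁ ∧
      a ^ 2 = L.weierstrassP w₁ - L.weierstrassP T ∧ b ^ 2 = L.weierstrassP w₂ - L.weierstrassP T ∧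
      M.weierstrassP w₁ - M.weierstrassP y₀ = (a - b) ^ 2 ∧
      M.weierstrassP w₁ - M.weierstrassP y₁ = (a + b) ^ 2 ∧
      M.weierstrassP y₀ - M.weierstrassP y₁ = 4 * (a * b)

/-- (IS2) the far points of isogenous lattices, degree 2. `M = L + ℤ T`.

USES TW3, FRC, FRU, ISV. PROOF. (i) `w - T ∈ L`: labels `Two3 L T w₁ w₂` (TW3: `w₂ = T + w₁`), (ISV). `℘ T = ℘ w`; `s = v(℘ w₁ - ℘ T) = v(℘ w₂ - ℘ T)`, `v(℘ w₁ - ℘ w₂) = d s` (`Far` for `Two3 L w w₁ w₂` and its swap). So `v(a)² = v(b)² = s`, `v a = v b`, `v(a - b) v(a + b) = v(a² - b²) = d s`, both factors are `≤ v a`, and `v((a + b) - (a - b)) = v(2 b) = v a`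
(`v 2 = 1`), so one of them is `v a` and then the other is `d v a`. If `v(a - b) = d v a`: `v(℘_M w₁ - ℘_M y₀) = d² s`, `v(℘_M w₁ - ℘_M y₁) = s`, `v(℘_M y₀ - ℘_M y₁) = v(4 a b) = s`: `y₁` is far with `d²` ((FRC) with `Two3 M y₁ w₁ y₀`). If `v(a + b) = d v a`: `y₀` is far with `d²`. So the far point `w'` of `M` (unique modulo `M`, FRU) is `≡ y₁` or `y₀`, not `≡ w₁`. Let `t` be
as in the statement; `t ≡ w₁` or `w₂` modulo `L` (TW3), so `t - w₁ ∈ M` (ISV), `t - w' ∉ M`. (ii) `w - T ∉ L`: labels `Two3 L T w w₂`, `w₁ = w`. `s = v(℘ w - ℘ T)`, `v(℘ w₂ - ℘ T) = d s` (`Far` for `Two3 L w T w₂`). `v(a)² = s`, `v(b)² = d s < v(a)²`, so `v b < v a`, `v(a ± b) = v a`, `v(4 a b) = v a v b = (v b/v a) s`. `d' = v b/v a`: `d'² = d`, `d' < 1`; (FRC) for `Two3 M w y₀ y₁`. -/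
def So_IS2 : Prop :=
  ∀ (V : ValuationSubring ℂ) (L M : PeriodPair) (w T : ℂ) (d : V.ValueGroup),
    V.valuation (2 : ℂ) = 1 → Far V L w d → T ∉ L.lattice → 2 * T ∈ L.lattice →
    (∀ z, z ∈ M.lattice ↔ z ∈ L.lattice ∨ z - T ∈ L.lattice) →
    (w - T ∈ L.lattice → (∃ w', Far V M w' (d ^ 2)) ∧ ∀ w' d', Far V M w' d' →
      ∀ t, t ∉ L.lattice → 2 * t ∈ L.lattice → t - T ∉ L.lattice → t - w' ∉ M.lattice) ∧
    (w - T ∉ L.lattice → ∃ d', d' ^ 2 = d ∧ Far V M w d')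

/-- (QUO) the lattice `q⁻¹ L`, `q` an ideal of norm two.

PROOF. `q * cjI q = sp 2` (`mul_cjI`). `b' = cjI q * b`, `om' = om/2`, `M` with `IsLI b' M om'` (`exists_isLI`). `z ∈ M` iff `Tor q L z`: if `z = om' emb y`, `y ∈ cjI q * b`, `x ∈ q`: `emb x * z = (om/2) emb (x y)`, `x y ∈ q * cjI q * b = 2 b`; conversely `Tor q L z`: `2 = Σ x_i y_i`, `x_i ∈ q`, `y_i ∈ cjI q`, `x_i z = om emb c_i`, `c_i ∈ b`,
`2 z = Σ y_i (x_i z) = om emb(Σ y_i c_i)`. The group `M/L`: `M = om' emb(c)`, `c = cjI q * b`, `L = om emb b = om' emb (2 b) = om' emb (q * c)`; `nI (q * c) = 2 nI c` (`nI_mul`), so `[c : q c] = 2` (`nI I` is the index of `I` in `O`): there is `y ∈ c`, `y ∉ q c`, and all elements of `c` are in `q c` or `y + q c`. `T = om' emb y`. `2 ∈ q` (`nI_mem`). -/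
def So_QUO : Prop :=
  ∀ (A B : ℤ), CQ A B → ∀ q : Ideal (OO A B), q ≠ ⊥ → nI q = 2 →
    ∀ (b : Ideal (OO A B)) (L : PeriodPair) (om : ℂ), IsLI b L om →
    ∃ (b' : Ideal (OO A B)) (M : PeriodPair) (om' T : ℂ), IsLI b' M om' ∧ T ∉ L.lattice ∧
      2 * T ∈ L.lattice ∧ (∀ z, z ∈ M.lattice ↔ Tor q L z) ∧
      ∀ z, z ∈ M.lattice ↔ z ∈ L.lattice ∨ z - T ∈ L.lattice

/-- (NFI) 2 inert: no far point.

USES FIX. PROOF. `w = ⟨0, 1⟩`, `w² = A + w`. `nm ⟨2 j, 1⟩ = 4 j² + 2 j - A` (`nm x = x.re² + B x.re x.im - A x.im²`), odd; for `j = 0`: `-A`, for `j = 1`: `6 - A`, both positive (`A < 0`); their difference is `6`, so (`p ≥ 5`) one of them is prime to `p`, a unit at `V`. (FIX) for `al = ⟨2 j, 1⟩`: `(emb al - 1) w₀ ∈ L`, and `2 w₀ ∈ L`, so `emb ⟨-1, 1⟩ w₀ ∈ L`. Multiply by `emb (star ⟨-1, 1⟩)`: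
`nm ⟨-1, 1⟩ = 1 - 1 - A = -A`, so `A w₀ ∈ L`, `A` odd, `w₀ ∈ L`, contradiction. -/
def So_NFI : Prop :=
  ∀ (p er : ℕ) (A B : ℤ) (P : Ideal (OO A B)) (V : ValuationSubring ℂ), CaseO p er A B P V →
    B = 1 → ¬ (2 : ℤ) ∣ A →
    ∀ (b : Ideal (OO A B)) (L : PeriodPair) (om : ℂ), IsLI b L om → ∀ w d, ¬ Far V L w d

/-- (NFR) 2 ramified: no far point.

USES FIX, IS2, QUO, TW3. PROOF. `B = 0`, `w² = A`, `A ≡ 2, 3` modulo 4 (`CQ.fund0`: squarefree and `A - 1` not divisible by 4), `A < 0`. Let `th = ⟨0, 1⟩` if `A` is even and `th = ⟨1, 1⟩` if `A` is odd; `al = ⟨1 + 2 j, 1⟩` resp. `⟨2 j, 1⟩`, so `al - 1 = th + 2 (..)` (for `A` odd `al - 1 = th + 2 (j - 1)`). `nm al = (1 + 2j)² - A` resp. `4j² - A`: odd, positive, the values at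
`j = 0, 1` have difference `8` resp. `4`: one of them is prime to `p`. So by (FIX), for every lattice `L` with complex multiplication by `O` and far point `w`: `emb th * w ∈ L` (`2 w ∈ L`). `nm th = -A` resp. `1 - A`, `≡ 2` modulo 4; `q := Ideal.span {2, th}`, `nI q = 2` (`O/q = ℤ/2`: the map `x ↦ x.re` resp. `x.re - x.im` modulo 2 is a ring homomorphism `O → ZMod 2` with kernel
`q`; or `nI q` divides `nI (sp 2) = 4` and `nI (sp th)`, and is not 1). Let `w` be far in `L`. (QUO): `M`, `T`; `T` is in `M`, `Tor q L T`, so is `w` (`emb th * w ∈ L`, `2 w ∈ L`): `w ∈ M`, `w - T ∈ L`. (IS2)(i): `M` has a far point `w'`, `emb th * w' ∈ M` by the above for `M`. Let `t` be another point of order two of `L`, `t - T ∉ L`: (IS2) `t - w' ∉ M`. But `t - w' ∈ M`: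
`t ∉ M` (`M = L ∪ (T + L)`). `Tor q M t`: `2 t ∈ L ≤ M`, and `emb th * t ∈ M`, because `emb x * (emb th * t) ∈ L` for `x = 2` and for `x = th` (`th² = 2 ε` with `ε = A/2` resp. `ε = ⟨(1 + A)/2, 1⟩`). `Tor q M w'`: `2 w' ∈ M`, `emb th * w' ∈ M`; `w' ∉ M`. (QUO) for `M`: `M', T'` with `{z : Tor q M z} = M ∪ (T' + M)`: `t - T', w' - T' ∈ M`. -/
def So_NFR : Prop :=
  ∀ (p er : ℕ) (A B : ℤ) (P : Ideal (OO A B)) (V : ValuationSubring ℂ), CaseO p er A B P V →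
    B = 0 →
    ∀ (b : Ideal (OO A B)) (L : PeriodPair) (om : ℂ), IsLI b L om → ∀ w d, ¬ Far V L w d

/-- (NFS) 2 split: no far point.

USES FRU, IS2, QUO, TW3, `Sy_CLN`-type (some power of an ideal is principal: `MUX2.LatFacts.fin`, `LatFacts A B` is `Pool.Agent.MUXY.z_LAF A B` in `MUX/ZY.lean`). PROOF. `B = 1`, `A` even, `w² = A + w`. `q₁ = Ideal.span {2, ⟨0, 1⟩}`, `q₂ = Ideal.span {2, ⟨1, 1⟩}`: `nI q_i = 2` (kernels of the ring homomorphisms `x ↦ x.re`, `x ↦ x.re + x.im` modulo 2), `q₁ ⊔ q₂ = ⊤`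
(`⟨1, 1⟩ - ⟨0, 1⟩ = 1`), `x y ∈ sp 2` for `x ∈ q₁, y ∈ q₂` (`⟨0, 1⟩ ⟨1, 1⟩ = w + w² = A + 2 w`). STEP: let `q, q'` be these two ideals in some order, `L` with `IsLI`, `w` far in `L` with `d`, not `Tor q L w`. (QUO) for `q`: `M`, `T`; `T ∈ M`, so `Tor q L T`, and `w - T ∉ L` (otherwise `Tor q L w`; `IsLI.hasCM`). (IS2)(ii): `w` is far in `M` with `d'`, `d'² = d`. And not `Tor q M w`: `Tor q' M w`
(`emb y * w`, `y ∈ q'`, is killed by `q` modulo `L`: `x y w ∈ 2 w O ⊆ L`, so it is in `M`), so with `Tor q M w` it would be in `M` (`tor_coprime`), i.e. `Tor q L w`. ITERATION: `L_0 = L`, `L_(k+1) = q⁻¹ L_k`: `z ∈ L_k` iff `Tor (q^k) L z`; `w` is far in `L_k` with `d_k`, `d_k^(2^k) = d`. Let `q^h = sp x`, `h > 0`, `x ≠ 0` (`fin`): `z ∈ L_h` iff `emb x * z ∈ L`. So (FRU, homothety by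
`emb x` from `L_h` to `L`): `emb x * w` is far in `L` with `d_h`, (FRU) `d_h = d`, `d^(2^h) = d`, so `d = 1` or `0` (`d < 1`, `2^h > 1`: `d^(2^h) < d`): contradiction. START: `w` far in `L`; not both `Tor q₁ L w` and `Tor q₂ L w` (`tor_coprime`). -/
def So_NFS : Prop :=
  ∀ (p er : ℕ) (A B : ℤ) (P : Ideal (OO A B)) (V : ValuationSubring ℂ), CaseO p er A B P V →
    B = 1 → (2 : ℤ) ∣ A →
    ∀ (b : Ideal (OO A B)) (L : PeriodPair) (om : ℂ), IsLI b L om → ∀ w d, ¬ Far V L w d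

/-- (GRD) GOOD REDUCTION, all labels.

USES DIC, NFI, NFR, NFS. -/
def So_GRD : Prop :=
  ∀ (p er : ℕ) (A B : ℤ) (P : Ideal (OO A B)) (V : ValuationSubring ℂ), CaseO p er A B P V →
    ∀ (b : Ideal (OO A B)) (L : PeriodPair) (om : ℂ), IsLI b L om →
    ∀ w₁ w₂ w₃ u : ℂ, Two3 L w₁ w₂ w₃ → u ^ 2 = L.weierstrassP w₂ - L.weierstrassP w₁ →
      GoodL V L u (L.weierstrassP w₁)
        ((L.weierstrassP w₃ - L.weierstrassP w₁) / (L.weierstrassP w₂ - L.weierstrassP w₁))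

/-! ## Good reduction: coordinates and isogenies -/

/-- (GRL) good reduction in the sense of `VX.lean`. MODEL: `tr_GRL` (`NS/RN_GRL.lean`), with `GoodL.unit`. -/
def So_GRL : Prop :=
  ∀ (V : ValuationSubring ℂ) (L : PeriodPair) (u e lam : ℂ), V.valuation (2 : ℂ) = 1 →
    GoodL V L u e lam →
    ∃ ξ : ℂ →+ (WL lam).Point, GR V (WL lam) L (xu L u e) (yu L u) ξ ∧ Function.Surjective ξ

/-- (SCL) the scaled lattice. Uses GRL.

PROOF. `L₁ = u L` (`u_SCX`), `ta_SCP`. `GR` for `L₁`, `X₁ = ℘ - e/u²`, `Y₁ = ℘'/2`, `ξ₁(z) = ξ(z/u)`: `X₁(z) = X(z/u)` (`Sr_SCL` in `NS/StRN.lean`). -/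
def So_SCL : Prop :=
  ∀ (V : ValuationSubring ℂ) (L : PeriodPair) (u e lam : ℂ), V.valuation (2 : ℂ) = 1 →
    GoodL V L u e lam →
    ∃ L₁ : PeriodPair, (∀ z, z ∈ L.lattice ↔ u * z ∈ L₁.lattice) ∧
      (∀ z, L₁.weierstrassP (u * z) = L.weierstrassP z / u ^ 2) ∧
      (∀ z, L₁.derivWeierstrassP (u * z) = L.derivWeierstrassP z / u ^ 3) ∧
      ∃ (W : WeierstrassCurve.Affine ℂ) (ξ : ℂ →+ W.Point),
        GR V W L₁ (fun z => L₁.weierstrassP z - e / u ^ 2) (fun z => L₁.derivWeierstrassP z / 2) ξ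

/-- (ISO) integral formulas for an isogeny of odd degree prime to `p` between lattices in good Legendre form. MODEL: `tr_ISO` (`NS/RN_ISO.lean`): the hypothesis `v(1 + lam) < 1` is used there only for SCL and for `v lam ≤ 1` (`v_lam`). Uses SCL, `Sr_TOR`, `Sr_LGF`, `Pool.Agent.MUXV.Sx_MUN`. -/
def So_ISO : Prop :=
  ∀ (V : ValuationSubring ℂ) (L M : PeriodPair) (u e lam u' e' lam' mu : ℂ) (n : ℕ),
    V.valuation (2 : ℂ) = 1 → GoodL V L u e lam → GoodL V M u' e' lam' → mu ≠ 0 → Isg L M mu →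
    Odd n → V.valuation (n : ℂ) = 1 → (∀ z, mu * z ∈ M.lattice → n * z ∈ L.lattice) →
    ∀ R : Finset ℂ, IsRpM L M mu R →
    V.valuation (mu * u' / u) = 1 ∧ (∀ q ∈ R, V.valuation (xu L u e q) ≤ 1) ∧
    ∃ A : ℂ[X], A.Monic ∧ A.natDegree = R.card + 1 ∧ (∀ i, V.valuation (A.coeff i) ≤ 1) ∧
      ∀ z, mu * z ∉ M.lattice →
        xu M u' e' (mu * z) *
            (C ((mu * u' / u) ^ 2) * ∏ q ∈ R, (X - C (xu L u e q))).eval (xu L u e z) =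
          A.eval (xu L u e z) ∧
        mu * u' / u * yu M u' (mu * z) *
            (C ((mu * u' / u) ^ 2) * ∏ q ∈ R, (X - C (xu L u e q))).eval (xu L u e z) ^ 2 =
          (derivative A * (C ((mu * u' / u) ^ 2) * ∏ q ∈ R, (X - C (xu L u e q))) -
            A * derivative (C ((mu * u' / u) ^ 2) * ∏ q ∈ R, (X - C (xu L u e q)))).eval
              (xu L u e z) * yu L u z

/-- (MLT) multiplication by `ga ∈ O` of odd norm prime to `p` in the kernel of reduction.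

USES ISO. PROOF. `M = L`, `u' = u`, `g = emb ga`, `n = nm ga`, `R` representatives (`u_BAC`). `x = X z`, `v x > 1`, `r := 1/x`. `g z ∉ L`: otherwise `z` is congruent to some `q ∈ R` (`z ∉ L`), `v(X q) ≤ 1` (periodicity). (ISO) `B = g² ∏ (T - X_q)`, `A` monic of degree `n' + 1`, `n' = #R`, all coefficients are in `V`, `v g = 1`. `A(x)/x^(n'+1) = 1 + (terms of valuation ≤ v r)`,
`B(x)/(g² x^(n')) = 1 + ..`, `(A'B - AB')(x)/(g² x^(2n')) = ((n' + 1) - n') + .. = 1 + ..` (the polynomial `A'B - AB'` has coefficients in `V`, degree `≤ 2n'` and the coefficient `g²` at `2 n'`). So all three are not zero, `X(g z) = A(x)/B(x)`, `Y(g z) = (A'B - AB')(x) Y(z)/(g B(x)²)`, `tX(g z) = -X(g z)/Y(g z) = -g A(x) B(x)/((A'B - AB')(x) Y(z))`, `g tX(z) = -g x/Y(z)`,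
quotient `A(x) B(x)/(x (A'B - AB')(x)) = 1 + (valuation ≤ v r)`. So `v(tX(g z) - g tX z) ≤ v(r) v(g tX z) < v(tX z)` (`tX z ≠ 0`: `Y z ≠ 0` as `Y² = X (X-1)(X-lam)`). -/
def So_MLT : Prop :=
  ∀ (A B : ℤ) (V : ValuationSubring ℂ), CQ A B → V.valuation (2 : ℂ) = 1 →
    ∀ (b : Ideal (OO A B)) (L : PeriodPair) (om : ℂ), IsLI b L om →
    ∀ u e lam : ℂ, GoodL V L u e lam →
    ∀ (ga : OO A B) (n : ℕ), nm ga = (n : ℤ) → Odd n → V.valuation (n : ℂ) = 1 →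
    ∀ z, z ∉ L.lattice → 1 < V.valuation (xu L u e z) →
      emb ga * z ∉ L.lattice ∧ 1 < V.valuation (xu L u e (emb ga * z)) ∧
      V.valuation (tX (xu L u e) (yu L u) (emb ga * z) - emb ga * tX (xu L u e) (yu L u) z) <
        V.valuation (tX (xu L u e) (yu L u) z)

/-- (INJ) points of level prime to `P` have integral coordinates.

USES MLT, GRL, `Sr_TOR`. PROOF. `be ∈ m`, `be ∉ P`; `emb be * z ∈ L`, `v(emb be) = 1`. `be' := star be`, `nm be = be * be'`. (1) `be' ∉ P`: then `n = nm be` is prime to `p` (otherwise `p ∣ nm be`, `be * be' ∈ P`; `nm be > 0`), `n z ∈ L`: (TOR). (2) `be' ∈ P`. Let `t = 1` or `-1`, `ga = 1 + 2 t be`; not both `1 + 2 be` and `1 - 2 be` are in `P` (the sum is `2`): choose `t` with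
`ga ∉ P`. `star ga = 1 + 2 t be'` is not in `P` either. So `nm ga` is prime to `p`, odd (`nm (1 + 2 y) = 1 + 2 (..)`: `(1 + 2y)(1 + 2 star y) = 1 + 2 (y + star y) + 4 nm y` and `y + star y` is an integer), positive. Suppose `v(X z) > 1`. `emb ga * z = z + 2 t emb be * z ≡ z` modulo `L`, so `tX(ga z) = tX z` (periodicity of `℘, ℘'`), and (MLT) `v((1 - emb ga) tX z) < v(tX z)`,
`v(2 t emb be) < 1`, contradiction (`v 2 = 1`). The last part: `Y² = X (X - 1)(X - lam)`. -/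
def So_INJ : Prop :=
  ∀ (p er : ℕ) (A B : ℤ) (P : Ideal (OO A B)) (V : ValuationSubring ℂ), CaseO p er A B P V →
    ∀ (b : Ideal (OO A B)) (L : PeriodPair) (om : ℂ), IsLI b L om →
    ∀ u e lam : ℂ, GoodL V L u e lam → ∀ m : Ideal (OO A B), ¬ m ≤ P →
    ∀ z, z ∉ L.lattice → Tor m L z →
      V.valuation (xu L u e z) ≤ 1 ∧ V.valuation (yu L u z) ≤ 1

/-- (INX) reduction is injective on points of level prime to `P`, up to sign, on the coordinate `X`.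

USES GRL, INJ. PROOF. `z`, `z'` are not in the kernel of reduction (INJ). `Pool.Agent.MUXV.v_X_sub` (see `tr_FXL`, `NS/RN_FXL.lean`): `z + z'` or `z - z'` is in the kernel of reduction (`InK`: in `L` or `X ∉ V`); it is killed by `m`, so by (INJ) it is in `L`. -/
def So_INX : Prop :=
  ∀ (p er : ℕ) (A B : ℤ) (P : Ideal (OO A B)) (V : ValuationSubring ℂ), CaseO p er A B P V →
    ∀ (b : Ideal (OO A B)) (L : PeriodPair) (om : ℂ), IsLI b L om →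
    ∀ u e lam : ℂ, GoodL V L u e lam → ∀ m : Ideal (OO A B), ¬ m ≤ P →
    ∀ z z', z ∉ L.lattice → z' ∉ L.lattice → Tor m L z → Tor m L z' →
      V.valuation (xu L u e z - xu L u e z') < 1 → z - z' ∈ L.lattice ∨ z + z' ∈ L.lattice

/-- (MUL) THE MULTIPLIER OF THE `P`-ISOGENY.

USES `Pool.Agent.OBT.So_BAS` (`OB/StT.lean`), ISO (its first part: the multiplier is a unit). PROOF. (BAS) `idl p = Pc P * P ^ er`, `Pc P` prime to `P`. (1) `P²` and `Pc P * sp 2` are coprime (`2 ∉ P`, `P` maximal), `P² ≠ P`: choose `pi ∈ P`, `pi ∉ P²`, and `be ≡ pi` modulo `P²`, `be ≡ 1` modulo `Pc P * sp 2` (`Ideal.IsCoprime`: `1 = x + y`,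
`be = pi y + x`). `be ∈ P`, `be ∉ P²`. `sp be = P * c` (`O` is Dedekind, `te_RNG` in `MUX/E_RNG.lean`, field `ded`; `Ideal.dvd_iff_le`). `c` is not in `P`, `be ∈ c`, so `c + Pc P = O`, `c + sp 2 = O`: `c` is prime to `idl (2 p)`, so multiplication by `2` and by `p` is bijective on the finite group `O/c`: `k := nI c` is odd and prime to `p`, `v k = 1`.
(2) `v(emb be)^er = v p`: `sp be ^ er * Pc P = idl p * c ^ er`. `y ∈ Pc P`, `y ∉ P`: `be^er y = p z`, so `v(emb be)^er ≤ v p`. `t ∈ c^er`, `t ∉ P`: `p t ∈ sp be ^ er * Pc P ≤ sp (be^er)`: `v p ≤ v(emb be)^er`. (3) `M = mu P⁻¹ L`, `nu := emb be/mu`. `Isg M L nu`: for `z = mu z' ∈ M`, `P z' ⊆ L`, `nu z = emb be * z' ∈ L`. Kernel: if `nu z ∈ L`, `z = mu z'`, then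
`emb be * z' ∈ L`, and `k z ∈ M`: for `x ∈ P`: `x k ∈ P * c = sp be` (`k ∈ c`, `nI_mem`), so `emb x * (k z') ∈ L`. Representatives (`u_BAC`), (ISO): `v(nu u/u') = 1`, that is `v(emb be) = v(mu u'/u)`. -/
def So_MUL : Prop :=
  ∀ (p er : ℕ) (A B : ℤ) (P : Ideal (OO A B)) (V : ValuationSubring ℂ), CaseO p er A B P V →
    ∀ (b b' : Ideal (OO A B)) (L M : PeriodPair) (om om' mu u e lam u' e' lam' : ℂ),
    IsLI b L om → IsLI b' M om' → GoodL V L u e lam → GoodL V M u' e' lam' → IsQ P L M mu →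
    V.valuation (mu * u' / u) ^ er = V.valuation (p : ℂ)

/-! ## Unramifiedness -/

/-- (LIF) lifting of elements of the inertia group. MODEL: `tr_LIF` (`NS/RN_LIF.lean`), with `3` replaced by `p` (only `p ≠ 0` and `v p < 1` are used). -/
def So_LIF : Prop :=
  ∀ (p : ℕ) (A B : ℤ) (V : ValuationSubring ℂ), CQ A B → p.Prime → V.valuation (p : ℂ) < 1 →
    ∀ (F₁ M : IntermediateField (kk A B) ℂ), FiniteDimensional (kk A B) F₁ →
    IsGalois (kk A B) F₁ → FiniteDimensional (kk A B) M → ∀ σ : ℂ ≃+* ℂ, FixK A B σ →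
    (∀ y ∈ F₁, V.valuation y ≤ 1 → V.valuation (σ y - y) < 1) →
    ∃ σ' : ℂ ≃+* ℂ, FixK A B σ' ∧ (∀ y ∈ F₁, σ' y = σ y) ∧
      ∀ y ∈ M, V.valuation y ≤ 1 → V.valuation (σ' y - y) < 1

/-- `σ` is in the inertia group of `RF m` at `V` -/
def InI {A B : ℤ} (V : ValuationSubring ℂ) (m : Ideal (OO A B)) (σ : ℂ ≃+* ℂ) : Prop :=
  ∀ y ∈ RF m, V.valuation y ≤ 1 → V.valuation (σ y - y) < 1

/-- (RF2) the Legendre forms are defined over `RF (2)`.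

PROOF. `xn_mem_two` (`NS/RN_RFIN.lean`): `℘ w_i ∈ RF (idl 2)`. -/
def So_RF2 : Prop :=
  ∀ (A B : ℤ), CQ A B → ∀ (b : Ideal (OO A B)) (L : PeriodPair) (om : ℂ), IsNL b L om →
    ∀ w, w ∉ L.lattice → 2 * w ∈ L.lattice → L.weierstrassP w ∈ RF (idl (A := A) (B := B) 2)

/-- (FXX) an element of the inertia group of `RF m`, `m` even and prime to `P`, which is trivial on `RF (2)`, is trivial on `RF m`.

USES GRD, TW3, RF2, INJ, INX. MODEL: the second half of `tr_FXL` (`NS/RN_FXL.lean`), `tr_UNR` (`NS/RN_UNR.lean`). PROOF. `RF m` is generated over `k` by the `kap L` and `xn L z`, `L` normalised, `z ∉ L`, `Tor m L z`. `kap L ∈ RF (2)` is fixed. Labels `w_i` (TW3), `u² = ℘ w₂ - ℘ w₁`, `e = ℘ w₁`, `lam`: `GoodL` (GRD); `u², e ∈ RF (2) ≤ RF m` (RF2, `T.mono`) are fixed by `σ`.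
`σ g₂ = g₂`, `σ g₃ = g₃` (`kap = (12 g₂ - 1)/1728`, `g₂ = -18 g₃`): `IsCj σ L L`, `Φ` (`u_PHI`). `xu L u e (Φ z) = σ (xu L u e z)`. `Φ z ∉ L`, `Tor m L (Φ z)` (`u_TSN`, second part, for `a = emb x`, `x ∈ m`: `σ (emb x) = emb x`, `IsLI.hasCM`). `X z, X(Φ z) ∈ V` (INJ), `X z ∈ RF m`, so `v(X(Φ z) - X z) < 1`; (INX): `z + Φ z ∈ L` or `z - Φ z ∈ L`. So `℘(Φ z) = ℘ z`, `σ(xn L z) = xn L z`. -/
def So_FXX : Prop :=
  ∀ (p er : ℕ) (A B : ℤ) (P : Ideal (OO A B)) (V : ValuationSubring ℂ), CaseO p er A B P V →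
    TorX A B → ∀ m : Ideal (OO A B), m ≠ ⊥ → ¬ m ≤ P → m ≤ idl (A := A) (B := B) 2 →
    ∀ σ : ℂ ≃+* ℂ, FixK A B σ → InI V m σ → (∀ y ∈ RF (idl (A := A) (B := B) 2), σ y = y) →
    ∀ y ∈ RF m, σ y = y

/-! ### Power residues -/

/-- (KUM) an integer which is an `l`-th power modulo all primes of prime norm, except for finitely many residue characteristics, is an `l`-th power (`ζ_l` in the field).

PROOF. As `t_THDX` (`MUX/K_THDX.lean`, first part). Suppose `y^l ≠ t` for all `y`. `M` from `Pool.Agent.MUXK.S_KUMX` (`t_KUMX`). `B` = the set of primes `v` with `(absNorm v).Prime`, `absNorm v ∉ S`, `l, t ∉ v`: `l ≤ spl L M v` on `B`, so (`Stmt_SPLS`: `m_SPLS`, `MU3`-block M) `l Σ_B x s v ≤ log (1/(s-1)) + C`. The complement of `B`: primes of norm not prime (`O(1)`, `Stmt_DEG2`),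
and finitely many primes (norm a prime in `S`, or containing `l` or `t`). All primes together: `≥ log(1/(s-1)) - C`. So `log (1/(s-1)) (1 - 1/l) ≤ C'` for `s → 1`, a contradiction (`l ≥ 2`). -/
def So_KUM : Prop :=
  ∀ (l : ℕ) [Fact l.Prime] (L : Type) [Field L] [NumberField L] (ζ t : NumberField.RingOfIntegers L),
    IsPrimitiveRoot ζ l → t ≠ 0 → ∀ S : Finset ℕ,
    (∀ v : IsDedekindDomain.HeightOneSpectrum (NumberField.RingOfIntegers L),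
      (Ideal.absNorm v.asIdeal).Prime → Ideal.absNorm v.asIdeal ∉ S →
      ∃ a : NumberField.RingOfIntegers L, t - a ^ l ∈ v.asIdeal) →
    ∃ y : L, y ^ l = (t : L)

/-- (KUA) the same with homomorphisms `O → ZMod q` instead of primes; `j : O → 𝓞 L`.

USES KUM. PROOF. Let `v` be a prime of `𝓞 L` with `absNorm v = q` a prime `∉ S`: `𝓞 L ⧸ v` is a ring with `q` elements, so it is isomorphic to `ZMod q` (`ZMod.ringEquivOfPrime` or similar): `φ : O → 𝓞 L → ZMod q`. `φ al = x^l`, or `-x^l = (i x)^l` where `i^l = -1`, and the elements of `ZMod q` are images of elements of `𝓞 L`. (KUM). -/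
def So_KUA : Prop :=
  ∀ (A B : ℤ) (l : ℕ) [Fact l.Prime] (L : Type) [Field L] [NumberField L]
    (ζ : NumberField.RingOfIntegers L) (j : OO A B →+* NumberField.RingOfIntegers L) (al : OO A B),
    IsPrimitiveRoot ζ l → j al ≠ 0 → ∀ S : Finset ℕ,
    ((∀ q : ℕ, q.Prime → q ∉ S → ∀ φ : OO A B →+* ZMod q, ∃ x, φ al = x ^ l) ∨
      ((∃ i : NumberField.RingOfIntegers L, i ^ l = -1) ∧
        ∀ q : ℕ, q.Prime → q ∉ S → ∀ φ : OO A B →+* ZMod q, ∃ x, φ al = x ^ l ∨ φ al = -x ^ l)) →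
    ∃ y : L, y ^ l = (j al : L)

/-- (KUB) squares in `O`.

USES KUA. PROOF. `L = kk A B` (a number field), `ζ = -1`, `j` from `te_RNG` (`MUX/E_RNG.lean`: `𝓞 k = emb O`). `y² = al`, `y ∈ k` integral, so `y ∈ emb O` (field `int`), and `emb` is injective. -/
def So_KUB : Prop :=
  ∀ (A B : ℤ), CQ A B → ∀ (S : Finset ℕ) (al : OO A B), al ≠ 0 →
    (∀ q : ℕ, q.Prime → q ∉ S → ∀ φ : OO A B →+* ZMod q, ∃ x, φ al = x ^ 2) → ∃ z, al = z ^ 2

/-- (KUC) `l`-th powers in `O`, up to sign.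

USES KUA. PROOF. `L = k(ζ) ⊆ ℂ`, `ζ` a primitive root of unity of order `l` (`l` odd), resp. `L = k(i)`, `ζ = -1` (`l = 2`); finite over `ℚ`. `-1 = (-1)^l`, resp. `i²`. (KUA): `y^l = al`, `y ∈ L`. `l` odd: `D = [L : k] ≤ l - 1` (`ζ` is a root of `1 + X + .. + X^(l-1)`), `1 ≤ D`, so `D` is prime to `l`; `N = N_(L/k)`: `al^D = (N y)^l`; `1 = a D + b l` with integers: `al = ((N y)^a al^b)^l`,
an `l`-th power in `k`. `l = 2`: if `i ∈ k` then `y ∈ k`. Otherwise `y = c + d i` with `c, d ∈ k` (basis `1, i` of `k(i)`), `y² = c² - d² + 2 c d i ∈ k`, so `c d = 0`: `al = c²` or `al = -d²`. In all cases `al = ± z^l` with `z ∈ k`, integral over `ℤ`, so `z ∈ emb O` (`te_RNG`). -/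
def So_KUC : Prop :=
  ∀ (A B : ℤ), CQ A B → ∀ (S : Finset ℕ) (al : OO A B), al ≠ 0 → ∀ l : ℕ, l.Prime →
    (∀ q : ℕ, q.Prime → q ∉ S → ∀ φ : OO A B →+* ZMod q, ∃ x, φ al = x ^ l ∨ φ al = -x ^ l) →
    ∃ z, al = z ^ l ∨ al = -z ^ l

/-- (NSQ) units, and squares `-1`, `-3`.

PROOF. `x = ⟨a, b⟩`, `x² = ⟨a² + A b², 2 a b + B b²⟩`. `x² = -n`, `n = 1, 3`: `b ≠ 0` (`a² ≥ 0`), so `2 a = -B b` and `b² (B² + 4 A) = -4 n`. `D = B² + 4A ≡ 0, 1` modulo 4 and `-D = absD`. `n = 1`: `b² = 1`, `absD = 4`, excluded, or `b² = 4`, `D = -1`, impossible. `n = 3`: `b² = 1`, `D = -12`, `B = 0`, `A = -3`, but `A - 1 = -4` (`fund0`); or `b² = 4`, `D = -3`, excluded.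
Units: `nm x = 1` (`nm_mul`, `nm_nonneg`): `4 nm x = (2 a + B b)² + absD b²`; `b ≠ 0` gives `absD ≤ 4`, and `absD ≥ 3` as `D ≡ 0, 1` modulo 4; excluded. `b = 0`: `a² = 1`. -/
def So_NSQ : Prop :=
  ∀ (A B : ℤ), CQ A B → absD A B ≠ 3 → absD A B ≠ 4 →
    (∀ x : OO A B, x ^ 2 ≠ -1) ∧ (∀ x : OO A B, x ^ 2 ≠ -3) ∧
    ∀ x : OO A B, IsUnit x → x = 1 ∨ x = -1

/-- (AFF) the action of the inertia group on the points of a lattice with the same reduction is affine in `X` modulo `V`.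

USES GRD, LGE, RF2, TW3, `Sr_TOR`. PROOF. `m = 2 q`. `kap L` is fixed (`ActI.kap`), `℘(c z) = σ(℘ z)` for `Tor (idl m) L z`, `z ∉ L` (`ActI.act`, `PM`: `xn = ℘ - 1/12`; `c z ∉ L`). `w_i` has `Tor (idl m) L w_i` (`tor_of_mul`, `m w_i ∈ L`). `X z = (℘ z - ℘ w₁)/(℘ w₂ - ℘ w₁)` (`u² = ℘ w₂ - ℘ w₁`), so
`σ(X z) = (℘(c z) - ℘(c w₁))/(℘(c w₂) - ℘(c w₁)) = (X(c z) - X(c w₁))/(X(c w₂) - X(c w₁))`. `X z ∈ RF (idl m)` (`℘ z = xn L z + 1/12`, RF2, `T.mono`), `X z ∈ V` (TOR: `v(m) = 1`; GRD gives `v lam = 1`). So `v(σ(X z) - X z) < 1`. `c w₁, c w₂` are different points of order two (`c` is prime to `m`: `sp c` and `idl m` coprime, so `c z ∈ L` implies `z ∈ L` for points of level `m`: `tor_coprime`), `X` takes the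
values `0, 1, lam` there: `a = X(c w₂) - X(c w₁)` is `± 1`, `± lam` or `± (1 - lam)`: `v a = 1`. Multiply by `a`. -/
def So_AFF : Prop :=
  ∀ (p er : ℕ) (A B : ℤ) (P : Ideal (OO A B)) (V : ValuationSubring ℂ), CaseO p er A B P V →
    TorX A B → ∀ (b : Ideal (OO A B)) (L : PeriodPair) (om : ℂ), IsNL b L om →
    ∀ w₁ w₂ w₃ u : ℂ, Two3 L w₁ w₂ w₃ → u ^ 2 = L.weierstrassP w₂ - L.weierstrassP w₁ →
    ∀ q : ℕ, q.Prime → q ≠ p → ∀ σ : ℂ ≃+* ℂ, FixK A B σ →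
    InI V (idl (A := A) (B := B) (2 * q)) σ → ∀ c : OO A B,
    ActI σ (idl (2 * q)) (sp c) L L (emb c) →
    V.valuation (xu L u (L.weierstrassP w₁) (emb c * w₂) -
      xu L u (L.weierstrassP w₁) (emb c * w₁)) = 1 ∧
    ∀ z, z ∉ L.lattice → Tor (idl (A := A) (B := B) (2 * q)) L z → emb c * z ∉ L.lattice ∧
      V.valuation (xu L u (L.weierstrassP w₁) z) ≤ 1 ∧
      V.valuation (xu L u (L.weierstrassP w₁) (emb c * z) -
        ((xu L u (L.weierstrassP w₁) (emb c * w₂) - xu L u (L.weierstrassP w₁) (emb c * w₁)) *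
          xu L u (L.weierstrassP w₁) z + xu L u (L.weierstrassP w₁) (emb c * w₁))) < 1

/-- (PS2) the case that `c` fixes a point of order two and interchanges the other two: `c² ≡ -1` modulo `q`.

USES AFF, TW3, GRD, INX. PROOF. `u² = ℘ w₂ - ℘ w₁`, `X = xu L u (℘ w₁)`, `X(c w₁) = X(w₁) = 0`, `X(c w₂) = X(w₃) = lam`. (AFF) at `z = w₃`: `c w₃ ≡ w₂`, `X = 1`: `v(1 - lam²) < 1`, so (`v(1 - lam) = 1`) `v(1 + lam) < 1`, and `v(X(c z) + X z) < 1` for all points `z` of level `2 q`. (INX) for `m = idl (2 q)` (`2 q ∉ P`). Suppose `c² - 1 ∈ idl (2 q)`. Let `z` be a point of level `2 q` and `y = (1 + c) z`: `c y ≡ y` modulo `L` (`c² z - z ∈ L`). If `y ∉ L`: `X(c y) = X y`, so `v(2 X y) < 1`, `v(X y) < 1`, `X(w₁) = 0`: `y ≡ ± w₁`, `2 y ∈ L`. So `2 (1 + c) z ∈ L` in all cases. The same for `y = (1 - c) z`: `c y ≡ -y`, `X(c y) = X y`. The sum: `4 z ∈ L` for all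
`z` of level `2 q`, in particular for `z = om emb x/(2 q)`, `x ∈ b`: `2 om emb x/q ∈ L` for all `x ∈ b`, so `2 b ⊆ q b`, a contradiction for `q` odd (`b ⊆ q b` by Bezout, norms; or: multiply). So `c² - 1 ∉ idl (2 q)`. By hypothesis `c² - s ∈ idl (2 q)` with `s = -1`. -/
def So_PS2 : Prop :=
  ∀ (p er : ℕ) (A B : ℤ) (P : Ideal (OO A B)) (V : ValuationSubring ℂ), CaseO p er A B P V →
    TorX A B → ∀ (b : Ideal (OO A B)) (L : PeriodPair) (om : ℂ), IsNL b L om →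
    ∀ w₁ w₂ w₃ : ℂ, Two3 L w₁ w₂ w₃ →
    ∀ q : ℕ, q.Prime → q ≠ p → q ≠ 2 → ∀ σ : ℂ ≃+* ℂ, FixK A B σ →
    InI V (idl (A := A) (B := B) (2 * q)) σ → ∀ c : OO A B,
    ActI σ (idl (2 * q)) (sp c) L L (emb c) → emb c * w₁ - w₁ ∈ L.lattice →
    emb c * w₂ - w₃ ∈ L.lattice → emb c * w₃ - w₂ ∈ L.lattice →
    (c ^ 2 - 1 ∈ idl (A := A) (B := B) (2 * q) ∨ c ^ 2 + 1 ∈ idl (A := A) (B := B) (2 * q)) →
    c ^ 2 + 1 ∈ idl (A := A) (B := B) q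

/-- (PS3) the case that `c` permutes the points of order two cyclically, `c³ ≡ ± 1`: `c² ± c + 1 ≡ 0` modulo `q`.

USES AFF, TW3, GRD, INX. PROOF. `u² = ℘ w₂ - ℘ w₁`, `X = xu L u (℘ w₁)`. `X(c w₁) = X(w₂) = 1`, `X(c w₂) = X(w₃) = lam`. (AFF): `v(X(c z) - ((lam - 1) X z + 1)) < 1`. Let `s = ± 1`, `c³ - s ∈ idl (2 q)`, `z` a point of level `2 q`, `y = (1 + s c + c²) z`: `s c y ≡ y` modulo `L`, so `X(c y) = X(s c y) = X y` (`℘` is even).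
CLAIM `6 y ∈ L`. Suppose `y ∉ L` and `2 y ∉ L`: `v((2 - lam) X y - 1) < 1`, and the same for `2 y` (`s c (2 y) ≡ 2 y`). So `v((2 - lam)(X y - X(2 y))) < 1`, and `v(2 - lam) = 1` (`v((2 - lam) X y) = 1` and `v(X y) ≤ 1` (AFF) force `v(2 - lam) ≥ 1`), so `v(X y - X (2 y)) < 1`, (INX): `y ∈ L` or `3 y ∈ L`. So `6 (1 + s c + c²) z ∈ L` for all points `z` of level `2 q`:
`z = om emb x/(2 q)`, `x ∈ b`: `6 (1 + s c + c²) x ∈ 2 q b` for all `x ∈ b`, so `sp (6 (1 + s c + c²)) * b ≤ idl (2 q) * b`, `6 (1 + s c + c²) ∈ idl (2 q)` (`mul_le_mul_iff`), `3 (1 + s c + c²) ∈ idl q`, `q` is a prime different from `3` (Bezout): `1 + s c + c² ∈ idl q`. -/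
def So_PS3 : Prop :=
  ∀ (p er : ℕ) (A B : ℤ) (P : Ideal (OO A B)) (V : ValuationSubring ℂ), CaseO p er A B P V →
    TorX A B → ∀ (b : Ideal (OO A B)) (L : PeriodPair) (om : ℂ), IsNL b L om →
    ∀ w₁ w₂ w₃ : ℂ, Two3 L w₁ w₂ w₃ →
    ∀ q : ℕ, q.Prime → q ≠ p → q ≠ 2 → q ≠ 3 → ∀ σ : ℂ ≃+* ℂ, FixK A B σ →
    InI V (idl (A := A) (B := B) (2 * q)) σ → ∀ c : OO A B,
    ActI σ (idl (2 * q)) (sp c) L L (emb c) → emb c * w₁ - w₂ ∈ L.lattice →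
    emb c * w₂ - w₃ ∈ L.lattice → emb c * w₃ - w₁ ∈ L.lattice →
    (c ^ 3 - 1 ∈ idl (A := A) (B := B) (2 * q) ∨ c ^ 3 + 1 ∈ idl (A := A) (B := B) (2 * q)) →
    c ^ 2 + c + 1 ∈ idl (A := A) (B := B) q ∨ c ^ 2 - c + 1 ∈ idl (A := A) (B := B) q

/-- the automorphism `σ` acts as the ideal `a` on the points of level `m` of all normalised lattices -/
def Acts {A B : ℤ} (σ : ℂ ≃+* ℂ) (m a : Ideal (OO A B)) : Prop :=
  ∀ (b : Ideal (OO A B)) (L : PeriodPair) (om : ℂ), IsNL b L om →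
    ∃ (b' : Ideal (OO A B)) (L' : PeriodPair) (om' mu : ℂ), IsNL b' L' om' ∧ ActI σ m a L L' mu

/-- (PRN) automorphisms with a principal ideal.

PROOF. `ActI σ m (sp c) L L' mu` with `L'` normalised. Then `ActI σ ⊤ (sp c) L L' mu` (`act`: `Tor ⊤ L z` means `z ∈ L`, then `mu z ∈ L'` by `isq`). (`T.chg`) with `m = ⊤`, `a = sp c`, `a' = ⊤`, `x = 1`, `y = c` (`sp 1 * sp c = sp c * ⊤`): `ActI σ ⊤ ⊤ L L' (mu / emb c)`; `isq`: `L' = ν L`, `ν = mu/emb c` (`tor_top`). Both are normalised: `g₂(L') = ν⁻⁴ g₂(L)`, `g₃(L') = ν⁻⁶ g₃(L)` (`ta_SCP`),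
`g₂ = -18 g₃` for both, `g₃ ≠ 0` (`b_DSC`), so `ν² = 1`, `mu = ± emb c` and `L'.lattice = L.lattice`. Put `c' = c` or `-c`, `emb c' = mu` (`sp (-c) = sp c`). `L` and `L'` have the same lattice, so the same invariants, `℘` and `℘'` (they are defined as sums over the lattice; or `ta_SCP` with the factor 1), so `ActI σ m (sp c') L L (emb c')`. -/
def So_PRN : Prop :=
  ∀ (A B : ℤ), CQ A B → TorX A B → ∀ (m : Ideal (OO A B)) (σ : ℂ ≃+* ℂ) (c : OO A B), m ≠ ⊥ →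
    c ≠ 0 → FixK A B σ → ∀ (b b' : Ideal (OO A B)) (L L' : PeriodPair) (om om' mu : ℂ),
    IsNL b L om → IsNL b' L' om' → ActI σ m (sp c) L L' mu →
    ∃ c', (c' = c ∨ c' = -c) ∧ ActI σ m (sp c') L L (emb c')

/-- (POW) powers.

PROOF. `Acts (σ ^ n) m (a ^ n)` by induction: `n = 0`: `ActI 1 m ⊤ L L 1` (`a ^ 0 = 1 = ⊤`; `PM` for the identity). `n + 1`: `T.comp` (`σ.trans τ` is `τ ∘ σ = τ * σ`). `σ ^ n` is trivial on `k`. `T.triv` for one normalised lattice (it exists: hypothesis). -/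
def So_POW : Prop :=
  ∀ (A B : ℤ), CQ A B → TorX A B → (∃ (b : Ideal (OO A B)) (L : PeriodPair) (om : ℂ), IsNL b L om) →
    ∀ (m a : Ideal (OO A B)) (σ : ℂ ≃+* ℂ), m ≠ ⊥ → FixK A B σ → Acts σ m a → ∀ n : ℕ,
      Acts (σ ^ n) m (a ^ n) ∧
      ((∀ y ∈ RF m, (σ ^ n : ℂ ≃+* ℂ) y = y) ↔ ∃ c : OO A B, c - 1 ∈ m ∧ a ^ n = sp c)

/-- (LFT) the lift of an element of order `l` of the inertia group of `RF (2)` to the level `2 q`.

USES LIF, FXX, POW. PROOF. `m = 2 q`, `idl m` is not in `P` (`2 q` is a unit at `V`: `vemb`). (LIF) with `F₁ = RF (idl 2)` (`T.fin`, `T.gal`), `M = RF (idl m)`: `σ'`, `InI V (idl m) σ'`, `σ' = σ` on `RF (2)`. `σ'^l` is trivial on `RF (2)` (`σ'^l y = σ^l y` as `σ` maps `RF (2)` to itself: normal) and `InI V (idl m) (σ'^l)`: the inertia group is closed under powers (`σ' y ∈ RF m` for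
`y ∈ RF m` (normal, `FixK`: as in `tr_LIF`), `v(σ' y) ≤ 1` if `v y ≤ 1`, `v(σ'^(j+1) y - y) ≤ max(v(σ'(σ'^j y) - σ'^j y), v(σ'^j y - y)) < 1`). So (FXX) `σ'^l` is trivial on `RF m`. (`T.act m`): `a'` prime to `idl m`, `Acts σ' (idl m) a'`. (POW): `a'^l = sp be`, `be - 1 ∈ idl m`.
Let `Acts σ (idl 2) a`. `ρ = σ σ'⁻¹` is trivial on `RF (2)` (`σ'⁻¹` maps `RF (2)` to itself), (`T.act (idl 2)`) `Acts ρ (idl 2) a''`, (POW, `n = 1`) `a'' = sp c`, `c - 1 ∈ idl 2`. `σ = ρ ∘ σ'`: (`T.comp`) for a normalised lattice `L`: `ActI σ' (idl 2) a' L L₁ mu₁` (from the level `m`: `Tor (idl 2) L z → Tor (idl m) L z`, `idl m ≤ idl 2`; `cop`: `a'` is prime to `idl m`, so to `idl 2`),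
`ActI ρ (idl 2) (sp c) L₁ L₂ mu₂`, so `ActI σ (idl 2) (a' * sp c) L L₂ _`. (`T.uniq`) with `ActI σ (idl 2) a L L' mu`: `x₀ - y₀ ∈ idl 2`, `sp x₀ * a = sp y₀ * (a' * sp c)`. `x = x₀`, `y = y₀ c` (`x₀ - y₀ c = (x₀ - y₀) - y₀ (c - 1)`). -/
def So_LFT : Prop :=
  ∀ (p er : ℕ) (A B : ℤ) (P : Ideal (OO A B)) (V : ValuationSubring ℂ), CaseO p er A B P V →
    TorX A B → (∃ (b : Ideal (OO A B)) (L : PeriodPair) (om : ℂ), IsNL b L om) →
    ∀ (l : ℕ) (σ : ℂ ≃+* ℂ), FixK A B σ → InI V (idl (A := A) (B := B) 2) σ →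
    (∀ y ∈ RF (idl (A := A) (B := B) 2), (σ ^ l : ℂ ≃+* ℂ) y = y) →
    ∀ q : ℕ, q.Prime → q ≠ 2 → q ≠ p →
    ∃ (σ' : ℂ ≃+* ℂ) (a' : Ideal (OO A B)) (be : OO A B), FixK A B σ' ∧
      InI V (idl (A := A) (B := B) (2 * q)) σ' ∧
      (∀ y ∈ RF (idl (A := A) (B := B) 2), σ' y = σ y) ∧
      (∀ y ∈ RF (idl (A := A) (B := B) (2 * q)), (σ' ^ l : ℂ ≃+* ℂ) y = y) ∧
      IsCoprime a' (idl (A := A) (B := B) (2 * q)) ∧ a' ≠ ⊥ ∧
      Acts σ' (idl (A := A) (B := B) (2 * q)) a' ∧ a' ^ l = sp be ∧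
      be - 1 ∈ idl (A := A) (B := B) (2 * q) ∧
      ∀ a : Ideal (OO A B), Acts σ (idl (A := A) (B := B) 2) a →
        ∃ x y : OO A B, x ≠ 0 ∧ y ≠ 0 ∧ x - y ∈ idl (A := A) (B := B) 2 ∧ sp x * a = sp y * a'

/-- (ORD) an element of prime order `l` of the inertia group of `RF (2)` has a principal ideal.

USES LFT, POW, KUC, NSQ, and `MUX2.LatFacts` (`MUXY.z_LAF`, `MUX/ZY.lean`) for the existence of a normalised lattice. PROOF. (`T.act (idl 2)`) `Acts σ (idl 2) a`, `a` prime to `idl 2`, `a ≠ ⊥`; (POW): `a^l = sp al`, `al ≠ 0`. `S` = the primes dividing `2 p nI(a)`. Let `q ∉ S` be a prime, `φ : O → ZMod q`. (LFT): `σ', a', be`, `sp x * a = sp y * a'`.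
`λ := ker φ`, a prime ideal with `q ∈ λ`; `a` is not in `λ` (otherwise `nI a ∈ λ`, `φ(nI a) = 0`, but `q ∤ nI a`), `a'` is not in `λ` (`a'` is prime to `idl (2 q) ≤ λ`). Choose `s ∈ a`, `s ∉ λ`: `x s = y t`, `t ∈ a'`; choose `s' ∈ a'`, `s' ∉ λ`: `y s' = x t'`, `t' ∈ a`. `y t t' = x s t' = s (x t') = s y s'`, so `t t' = s s' ∉ λ`, `t ∉ λ`.
`sp (x^l al) = sp (y^l be)` (`(sp x * a)^l = (sp y * a')^l`), so `x^l al = ε y^l be` with a unit `ε = ± 1` (NSQ). Multiply by `s^l`: `y^l t^l al = ε y^l be s^l`, cancel: `t^l al = ε be s^l`. `φ be = 1` (`be - 1 ∈ idl (2 q) ≤ λ`): `φ al = ε (φ s/φ t)^l`. (KUC): `al = ± z^l`, so `a^l = (sp z)^l`, and `a = sp z` (unique factorisation of ideals in the Dedekind domain `O`: `te_RNG`, field `ded`,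
`MUX/E_RNG.lean`; `UniqueFactorizationMonoid`/`pow_left_injective`-type: if `a^l = c^l` then for every prime the multiplicities agree; or: `Ideal.pow_dvd_pow_iff`). -/
def So_ORD : Prop :=
  ∀ (p er : ℕ) (A B : ℤ) (P : Ideal (OO A B)) (V : ValuationSubring ℂ), CaseO p er A B P V →
    TorX A B → ∀ (l : ℕ), l.Prime → ∀ σ : ℂ ≃+* ℂ, FixK A B σ →
    InI V (idl (A := A) (B := B) 2) σ →
    (∀ y ∈ RF (idl (A := A) (B := B) 2), (σ ^ l : ℂ ≃+* ℂ) y = y) →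
    ∃ z : OO A B, z ≠ 0 ∧ Acts σ (idl (A := A) (B := B) 2) (sp z)

/-- (PSI) the element `c = c_q` by which the lift to the level `2 q` acts.

USES LFT, ORD, POW, PRN, PS2, PS3, NSQ, TW3. PROOF. (ORD): `Acts σ (idl 2) (sp z)`. (LFT) for `q`: `σ', a', be`, `sp x * sp z = sp y * a'`: `x z = y c₀` with `c₀ ∈ a'`, and `a' = sp c₀` (`sp y * sp c₀ = sp y * a'`, cancel), `c₀ ≠ 0`. A normalised lattice `L` (`MUXY.z_LAF`, field `ex`), `Acts` for it, (PRN): `c = ± c₀`, `ActI σ' (idl (2 q)) (sp c) L L (emb c)`. `a'^l = sp be`: `c^l = ε be`, `ε = ± 1`,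
so `c^l ∓ 1 ∈ idl (2 q)`. `c - 1 ∉ idl 2`: otherwise (`T.triv` for the level 2, `ActI σ' (idl 2) (sp c) L L (emb c)`) `σ'` is trivial on `RF (2)`, so is `σ`. `c` acts on the points of order two: `c w_i ∉ L` and `c w_i - c w_j ∉ L` (`c` is prime to `2`; `tor_coprime`), and not trivially: if `(c - 1) w ∈ L` for all `w` of order two, then `(c - 1) b ⊆ 2 b`, `c - 1 ∈ idl 2`
(`mul_le_mul_iff`). So with suitable labels (TW3): (i) `c w₁ ≡ w₁`, `c w₂ ≡ w₃`, `c w₃ ≡ w₂`; `c^l` acts trivially on the points of order two (`c^l ≡ ± 1`, `-w ≡ w`), so `l` is even, `l = 2`, (PS2). (ii) `c w₁ ≡ w₂`, `c w₂ ≡ w₃`, `c w₃ ≡ w₁`: `3 ∣ l`, `l = 3`, (PS3). -/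
def So_PSI : Prop :=
  ∀ (p er : ℕ) (A B : ℤ) (P : Ideal (OO A B)) (V : ValuationSubring ℂ), CaseO p er A B P V →
    TorX A B → ∀ (l : ℕ), l.Prime → ∀ σ : ℂ ≃+* ℂ, FixK A B σ →
    InI V (idl (A := A) (B := B) 2) σ →
    (∀ y ∈ RF (idl (A := A) (B := B) 2), (σ ^ l : ℂ ≃+* ℂ) y = y) →
    ¬ (∀ y ∈ RF (idl (A := A) (B := B) 2), σ y = y) →
    ∀ q : ℕ, q.Prime → q ≠ 2 → q ≠ 3 → q ≠ p → ∃ c : OO A B,
      (l = 2 ∧ c ^ 2 + 1 ∈ idl (A := A) (B := B) q) ∨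
      (l = 3 ∧ (c ^ 2 + c + 1 ∈ idl (A := A) (B := B) q ∨ c ^ 2 - c + 1 ∈ idl (A := A) (B := B) q))

/-- (IN2) the inertia group of `RF (2)` is trivial.

USES PSI, KUB, NSQ. PROOF. Suppose `σ` is not trivial on `RF (2)`. `RF (2)/k` is finite and normal, so some power `σ^N`, `N > 0`, is trivial on `RF (2)`; `N` minimal, `l` a prime divisor of `N`, replace `σ` by `σ^(N/l)` (`InI` is closed under powers, see LFT). (PSI) for all primes `q ∉ S = {2, 3, p}`: `l = 2` for all of them or `l = 3` for all. `l = 2`: for every `φ : O → ZMod q`: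
`φ(c)² = -1` (`idl q ≤ ker φ`), (KUB) for `al = -1`: `-1 = z²`, contradiction to (NSQ). `l = 3`: `(2 φ(c) ± 1)² = -3`, (KUB) for `al = -3`: contradiction. -/
def So_IN2 : Prop :=
  ∀ (p er : ℕ) (A B : ℤ) (P : Ideal (OO A B)) (V : ValuationSubring ℂ), CaseO p er A B P V →
    TorX A B → ∀ σ : ℂ ≃+* ℂ, FixK A B σ → InI V (idl (A := A) (B := B) 2) σ →
    ∀ y ∈ RF (idl (A := A) (B := B) 2), σ y = y

/-- (FIN) the result of the block, `O_RFIN`.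

USES GRD, TW3, RF2, LIF, FXX, IN2. PROOF. First part: labels (TW3), `u` a square root, (GRD), (RF2). Second part: `m' = m * idl 2` (`¬ m' ≤ P`, `P` prime, `2 ∉ P`), (LIF) `F₁ = RF m`, `M = RF m'`: `σ'`, `σ' = σ` on `RF m`, `InI V m' σ'`, so `InI V (idl 2) σ'` (`T.mono`), (IN2) `σ'` is trivial on `RF (2)`, (FXX) on `RF m' ⊇ RF m`. (`y ∈ V` iff `v y ≤ 1`, `x ∈ V.nonunits` iff `v x < 1`.) -/
def So_FIN : Prop := O_RFIN

end

end Pool.Agent.OBR
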