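import Pool.Agent.OB.StT
import Pool.Agent.OB.StE
import Pool.Agent.MUX.E_TRA

/-!
# OB, block T, module TRC: the points of `L[P]` (helper59), from block E
-/

set_option autoImplicit false

open Polynomial

namespace Pool.Agent.OBT

open _root_.MU3 Pool.Agent.MU3A Pool.Agent.MU3B Pool.Agent.RI Pool.Agent.MUX Pool.Agent.MUXU
open Pool.Agent.MUXE Pool.Agent.NS Pool.Agent.OB Pool.Agent.OBE
open Pool.Agent.MUXV (GR InK)
open Pool.Agent.NSE (su ru IntP)

noncomputable section

namespace TRC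

variable {V : ValuationSubring ℂ}

/-- a polynomial over `V` at a point of the maximal ideal -/
lemma eval_near {P : ℂ[X]} (hP : IntP V P) {s : ℂ} (hs : V.valuation s < 1) :
    V.valuation (P.eval s - P.coeff 0) ≤ V.valuation s := by
  have h1 : P.eval s - P.coeff 0 = s * P.divX.eval s := by
    conv_lhs => rw [← Polynomial.divX_mul_X_add P]
    simp
    ring
  rw [h1, map_mul]
  have h2 : V.valuation (P.divX.eval s) ≤ 1 := by
    rw [Polynomial.eval_eq_sum_range]
    refine Valuation.map_sum_le _ fun i _ => ?_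
    rw [map_mul, map_pow, Polynomial.coeff_divX]
    exact mul_le_one' (hP _) (pow_le_one₀ zero_le hs.le)
  calc V.valuation s * V.valuation (P.divX.eval s) ≤ V.valuation s * 1 := by gcongr
    _ = V.valuation s := mul_one _

end TRC

open TRC in
/-- (TRC) -/
theorem o_TRC (hR : O_RFIN) (hX : Sb_CTX) (hA : Sb_ALG) (h1 : Sb_PVL) (h2 : Sb_PIS)
    (h3 : Sb_PTS) (h4 : Sb_ISO) : So_TRC := by
  intro p er A B P V hC hT b L om u e lam hL hg
  obtain ⟨al, hx⟩ := hX p er A B P V hC hT hR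
  have hNL : NL A B L := ⟨b, om, hL⟩
  obtain ⟨t1, t2, t3, -, -, -, -, -, -⟩ := te_TRA A B hx.ring L hNL
  obtain ⟨N, nu, hN, hq⟩ := hx.exq L hNL
  obtain ⟨u', e', lam', hg'⟩ := hx.good N hN
  obtain ⟨-, -, hpis⟩ := h2 p er A B P V al hx L N nu u e lam u' e' lam' hNL hN hq hg hg'
  obtain ⟨hpt, hpts, hper⟩ := h3 p er A B P V al hx L u e lam hNL hg
  have hsub : ∀ Y ∈ EP P L, Y ∈ SP P er L := by
    intro Y hY
    refine ⟨fun x hxP => hY.1 x ?_, hY.2⟩
    exact Ideal.pow_le_self (by have := hx.er1; omega) hxP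
  have hq2 : 2 ≤ nI P - 1 := by have := hx.n3; omega
  have hsr : ∀ Y ∈ EP P L, V.valuation (ru L u e Y) ^ 2 = V.valuation (su L u e Y) := by
    intro Y hY
    obtain ⟨hs0, hs1⟩ := hpt.vs Y (hsub Y hY)
    have h5 := hpt.eq Y (hsub Y hY)
    rw [← map_pow, h5, map_mul]
    have h6 : V.valuation (1 + -(1 + lam) * su L u e Y + lam * su L u e Y ^ 2) = 1 := by
      have h7 : 1 + -(1 + lam) * su L u e Y + lam * su L u e Y ^ 2 =
          1 + su L u e Y * (-(1 + lam) + lam * su L u e Y) := by ring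
      rw [h7]
      apply Valuation.map_one_add_of_lt
      rw [map_mul]
      have h8 : V.valuation (-(1 + lam) + lam * su L u e Y) ≤ 1 := by
        refine Valuation.map_add_le _ hpt.i2 ?_
        rw [map_mul]
        exact mul_le_one' hpt.i4 hs1.le
      calc V.valuation (su L u e Y) * V.valuation (-(1 + lam) + lam * su L u e Y)
          ≤ V.valuation (su L u e Y) * 1 := by gcongr
        _ = V.valuation (su L u e Y) := mul_one _
        _ < 1 := hs1
    rw [h6, mul_one]
  have hval : ∀ Y ∈ EP P L, V.valuation (ru L u e Y) ^ (er * (nI P - 1)) =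
      V.valuation (p : ℂ) := by
    intro Y hY
    obtain ⟨-, -, h5⟩ := hpis Y hY.1 hY.2
    rw [← hsr Y hY, ← pow_mul, mul_comm 2, pow_mul] at h5
    have h6 : V.valuation (ru L u e Y) ^ (nI P - 1) = V.valuation (emb al) :=
        (pow_left_inj₀ zero_le zero_le two_ne_zero).1 h5
    rw [mul_comm, pow_mul, h6, hx.alv]
  refine ⟨hval, fun x hxP Y hY => ?_⟩
  obtain ⟨p1, p2, -⟩ := h1 p er A B P V al hx L u e lam hNL hg
  obtain ⟨hk, hk'⟩ := p1 x hxP
  obtain ⟨hInK, hx0⟩ := hpts Y (hsub Y hY)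
  have hEP : emb x * Y ∈ EP P L := ⟨t3 P x Y hY.1, (hk' Y hInK hY.2).1⟩
  refine ⟨hEP, ?_⟩
  have hv := hval Y hY
  have hvp : V.valuation (p : ℂ) < 1 := hx.vp
  have hvp0 : V.valuation (p : ℂ) ≠ 0 := by
    rw [Ne, map_eq_zero]
    exact_mod_cast hx.pp.ne_zero
  set ρ := V.valuation (ru L u e Y) with hρ
  have hn2 : 2 ≤ er * (nI P - 1) := by
    calc 2 ≤ 1 * (nI P - 1) := by omega
      _ ≤ er * (nI P - 1) := Nat.mul_le_mul_right _ hx.er1
  have hρ0 : ρ ≠ 0 := by
    intro h0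
    rw [h0, zero_pow (by omega)] at hv
    exact hvp0 hv.symm
  have hρpos : 0 < ρ := zero_lt_iff.2 hρ0
  have hρ1 : ρ < 1 := by
    by_contra hc
    rw [not_lt] at hc
    exact absurd (one_le_pow₀ hc (n := er * (nI P - 1))) (by rw [hv]; exact not_le.2 hvp)
  have hpρ : V.valuation (p : ℂ) < ρ := by
    rw [← hv]
    exact pow_lt_self_of_lt_one₀ hρpos hρ1 (by omega)
  have hsρ : V.valuation (su L u e Y) < ρ := by
    rw [← hsr Y hY]
    exact pow_lt_self_of_lt_one₀ hρpos hρ1 (by omega)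
  -- the representation of the difference
  have hemb0 : emb x ≠ 0 := by
    intro h0
    have h5 := hx.unit x hxP
    rw [h0, map_zero] at h5
    exact zero_ne_one h5
  obtain ⟨-, -, hiso⟩ := h4 p er A B P V al hx L L u e lam u e lam (emb x) hNL hNL hg hg hemb0
    (fun w hw => t1 x w hw) hk
  obtain ⟨a1, -, a3, a4, a5, a6, -, -, -⟩ := hA p V _ _ _ _ _ hpt
  have hc := a1 (-emb x) (by rw [Valuation.map_neg]; exact hx.int x)
  have hd := a6 _ _ _ _ _ _ hc a3
  have hf := a5 _ _ _ _ _ _ hiso hd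
  obtain ⟨Pl, Q, hPl, hQ, hFY, hP0, hQ0⟩ := hf
  have hF := hFY Y (hsub Y hY)
  have hmu : emb x * u / u = emb x := by
    field_simp [hg.u0]
  have e1 : ru L u e (emb x * Y) - emb x * ru L u e Y =
      Pl.eval (su L u e Y) + ru L u e Y * Q.eval (su L u e Y) := by
    rw [← hF]
    ring
  have hs1 := (hpt.vs Y (hsub Y hY)).2
  have n1 := eval_near hPl hs1
  have n2 := eval_near hQ hs1
  have hP0' : V.valuation (Pl.coeff 0) ≤ V.valuation (p : ℂ) := by
    have : Pl.coeff 0 = Pl.coeff 0 - (0 + -emb x * 0) := by ring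
    rw [this]
    exact hP0
  have hQ0' : V.valuation (Q.coeff 0) ≤ V.valuation (p : ℂ) := by
    have : Q.coeff 0 = Q.coeff 0 - (emb x * u / u + (-emb x * 1 + 0 * 0)) := by
      rw [hmu]
      ring
    rw [this]
    exact hQ0
  rw [e1]
  apply Valuation.map_add_lt
  · have : Pl.eval (su L u e Y) = (Pl.eval (su L u e Y) - Pl.coeff 0) + Pl.coeff 0 := by ring
    rw [this]
    exact Valuation.map_add_lt _ (lt_of_le_of_lt n1 hsρ) (lt_of_le_of_lt hP0' hpρ)
  · have h9 : V.valuation (Q.eval (su L u e Y)) < 1 := by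
      have : Q.eval (su L u e Y) = (Q.eval (su L u e Y) - Q.coeff 0) + Q.coeff 0 := by ring
      rw [this]
      exact Valuation.map_add_lt _ (lt_of_le_of_lt n2 hs1) (lt_of_le_of_lt hQ0' hvp)
    rw [map_mul]
    calc V.valuation (ru L u e Y) * V.valuation (Q.eval (su L u e Y)) < ρ * 1 :=
          mul_lt_mul_of_pos_left h9 hρpos
      _ = ρ := mul_one _

end

end Pool.Agent.OBT
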