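import Pool.Agent.MUX.Z_LVX
import Pool.Agent.MUX.Z_INW
import Pool.Agent.MUX.Z_THN
import Pool.Agent.OB.Defs0
import Pool.Agent.MUX.StIX
import Pool.Agent.OB.J_LAYO

/-!
# OB, block Z: helper3's last glue (`MUX/StZX.lean`, `MUX/Z_LVX.lean`, `MUX/Z_INW.lean`) for every prime `p` (helper59, after `NS/ZL.lean`)

`SetQ p A B f` instead of `SetP p A B P V f`; the proofs are copies.
-/

set_option autoImplicit false

open NumberField IsDedekindDomain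

namespace Pool.Agent.OBZ

open _root_.MU3 Pool.Agent.MU3 Pool.Agent.MU3A Pool.Agent.MU3B Pool.Agent.RI Pool.Agent.RID
  Pool.Agent.MUX Pool.Agent.MUXK Pool.Agent.MUXJ Pool.Agent.MUXW Pool.Agent.MUXZ Pool.Agent.OB
open Pool.Agent.MU3V (Sub GD)

noncomputable section

/-- the common part of the hypotheses: no condition on the decomposition of `p` -/
structure SetQ (p : ℕ) (A B : ℤ) (f : ℕ) : Prop where
  cq : CQ A B
  hp : p.Prime
  p2 : p ≠ 2
  f0 : f ≠ 0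
  fp : ¬ p ∣ f

lemma setQ_O {p er : ℕ} {A B : ℤ} {P : Ideal (OO A B)} {V : ValuationSubring ℂ} {f : ℕ}
    (h : SetO p er A B P V f) : SetQ p A B f :=
  ⟨h.cq, h.pp, by have := h.p5; omega, h.f0, h.fp⟩

/-- (SUB) `K B_n ≤ RF (lvX p f n)` -/
def Zl_SUB : Prop :=
  ∀ (p : ℕ) (A B : ℤ) (f : ℕ), SetQ p A B f → TorX A B →
    NLex A B →
    ∀ (K : IntermediateField ℚ ℂ), (∀ y ∈ K, y ∈ RF (idl (A := A) (B := B) (lvX p f 0))) →
    ∀ (n : ℕ) (Bn : IntermediateField ℚ ℂ), IsLayer p n Bn →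
    ∀ y ∈ K ⊔ Bn, y ∈ RF (idl (A := A) (B := B) (lvX p f n))

/-- (INR) the fields `K B_n` are of level `InRF` (in the ramified case `p ∤ [K : k]` is used).

USES SUB, `Si_IAF`. PROOF for `er = 2` (`er = 1`: the second part of `InRF` is empty). MODEL: `tp_SUB` (`NS/IR_SUB.lean`, `p = 3`). `P² = p O`, `lvR P f n = f p^n P`. `c ≡ 1` modulo `lvR P f n` implies `nm c ≡ 1` modulo `p^(n+1)`, and `c^p ≡ 1` modulo `lvX p f 0` at least for
`n = 0`: `c = 1 + f y`, `y ∈ P`: `c^p = 1 + p f y (..) + f^p y^p`, `y^p ∈ P^p ≤ P²`. So the automorphisms which act as `c` are trivial on `K` (`p ∤ [K : k]`, `K ≤ RF (lvX p f 0)`) and on `ℚ(μ_(p^(n+1)))`. -/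
def Zl_INR : Prop :=
  ∀ (p er : ℕ) (A B : ℤ) (P : Ideal (OO A B)) (V : ValuationSubring ℂ) (f : ℕ),
    SetO p er A B P V f → TorX A B → NLex A B →
    ∀ (K : IntermediateField ℚ ℂ) (hk : kk A B ≤ K),
    ¬ p ∣ Module.finrank (kk A B) (IntermediateField.extendScalars hk) →
    (∀ y ∈ K, y ∈ RF (idl (A := A) (B := B) (lvX p f 0))) →
    ∀ (n : ℕ) (Bn : IntermediateField ℚ ℂ), IsLayer p n Bn → InRF er P p f n (K ⊔ Bn)

/-- (LVX) elementary properties of the levels -/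
def Zl_LVX : Prop :=
  ∀ (p : ℕ) (A B : ℤ) (f : ℕ) (_ : SetQ p A B f) (n : ℕ),
    lvX p f n ≠ 0 ∧ lvX p f (n + 1) = p * lvX p f n ∧ p ∣ lvX p f n ∧
    ¬ ((lvX p f n : ℕ) : OO A B) ∣ 2 ∧ ¬ IsUnit ((lvX p f n : ℕ) : OO A B) ∧
    Odd (aX p f) ∧ (aX p f).Coprime (lvX p f n) ∧
    IsCoprime ((aX p f : ℤ) : OO A B) ((lvX p f n : ℕ) : OO A B) ∧
    (∀ q : ℕ, q.Prime → (q : ℤ) ∣ nm ((lvX p f n : ℕ) : OO A B) → q ∣ p * f) ∧
    ∀ k : ℕ, k.Coprime (p * f) → k.Coprime (lvX p f n)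

/-- (INW) the inputs from block W -/
def Zl_INW : Prop :=
  ∀ (p : ℕ) (A B : ℤ) (f : ℕ)
    (_ : SetQ p A B f) (_ : TorX A B) (ι : Type) [Finite ι] (R : Reps A B (p * f) ι)
    (H : ι → Finset ℂ)
    (θ : ∀ n : ℕ, (RF (idl (A := A) (B := B) (lvX p f n)) : IntermediateField (kk A B) ℂ))
    (_ : ThN p f R H θ)
    (K₀ K : IntermediateField ℚ ℂ) (Bn : ℕ → IntermediateField ℚ ℂ)
    [FiniteDimensional ℚ (kk A B)] [FiniteDimensional ℚ K] [∀ n, FiniteDimensional ℚ ↥(K ⊔ Bn n)]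
    (_ : SetX p (kk A B) K₀ K Bn) (_ : ∀ y ∈ K, y ∈ RF (idl (A := A) (B := B) (lvX p f 0)))
    (_ : ∀ y ∈ RF (⊤ : Ideal (OO A B)), y ∈ K)
    (hk : ∀ n, kk A B ≤ K ⊔ Bn n) (hk₀ : ∀ n, kk A B ≤ K₀ ⊔ Bn n),
    ∃ S : Finset ℕ, InpW p (kk A B) K₀ K Bn hk hk₀ S (fun n => cW (hk n) (θ n))
      (fun n => cW (hk₀ n) (θ n)) 0

namespace SUBZ

theorem idl_ne {A B : ℤ} {M : ℕ} (h : M ≠ 0) : idl (A := A) (B := B) M ≠ ⊥ := by
  rw [ne_eq, Ideal.span_singleton_eq_bot]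
  exact_mod_cast h

theorem idl_le {A B : ℤ} {M N : ℕ} (h : M ∣ N) : idl (A := A) (B := B) N ≤ idl M := by
  rw [Ideal.span_singleton_le_span_singleton]
  obtain ⟨c, rfl⟩ := h
  exact ⟨c, by push_cast; ring⟩

end SUBZ

open SUBZ in
/-- (SUB) -/
theorem o_SUB (h2 : Pool.Agent.MUXI.Si_IAF) : Zl_SUB := by
  intro p A B f hS hT hL K hK n Bn hlay
  have : Fact p.Prime := ⟨hS.hp⟩
  have hp0 : p ≠ 0 := hS.hp.ne_zero
  have hq : q0 p = p := if_neg hS.p2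
  have hM : p ^ (n + 1) ≠ 0 := pow_ne_zero _ hp0
  have hlv : lvX p f n = f * p ^ (n + 1) := by unfold lvX; rw [hq]; ring
  have hlv0 : lvX p f n ≠ 0 := by
    rw [hlv]; exact Nat.mul_ne_zero hS.f0 hM
  have hm := idl_ne (A := A) (B := B) hlv0
  have hle : idl (A := A) (B := B) (lvX p f n) ≤ idl (p ^ (n + 1)) :=
    idl_le ⟨f, by rw [hlv]; ring⟩
  have hle0 : idl (A := A) (B := B) (lvX p f n) ≤ idl (lvX p f 0) :=
    idl_le ⟨p ^ n, by unfold lvX; ring⟩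
  obtain ⟨i1, -, -, -, -, -, -, i8⟩ := h2 A B hS.cq hT hL _ hm
  obtain ⟨a, ha⟩ := i1 (RingEquiv.refl ℂ) rfl
  have hz : ∀ z : ℂ, z ^ (p ^ (n + 1)) = 1 → z ∈ RF (idl (A := A) (B := B) (lvX p f n)) :=
    fun z hz => (i8 (p ^ (n + 1)) (RingEquiv.refl ℂ) a z hM hle ha hz).1
  have hBn : Bn ≤ IntermediateField.restrictScalars ℚ (RF (idl (A := A) (B := B) (lvX p f n))) := by
    refine (t_CYCO p hS.p2 n Bn hlay).1.trans ?_
    rw [IntermediateField.adjoin_le_iff]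
    intro x hx
    exact hz x hx
  have hK' : K ≤ IntermediateField.restrictScalars ℚ (RF (idl (A := A) (B := B) (lvX p f n))) := by
    intro x hx
    exact hT.mono _ _ hle0 (hK x hx)
  intro y hy
  exact (sup_le hK' hBn) hy

open Pool.Agent.MUXZ.LVX in
theorem tl_LVX : Zl_LVX := by
  intro p A B f hS n
  have hp : p.Prime := hS.hp
  have hf : 0 < f := Nat.pos_of_ne_zero hS.f0
  have hq3 : 3 ≤ q0 p := by
    unfold q0
    split_ifs with h
    · norm_num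
    · have := hp.two_le
      omega
  have hm3 : 3 ≤ lvX p f n := by
    unfold lvX
    have h1 : 1 ≤ p ^ n := Nat.one_le_pow _ _ hp.pos
    calc 3 ≤ q0 p := hq3
      _ = 1 * q0 p * 1 := by ring
      _ ≤ f * q0 p * p ^ n := Nat.mul_le_mul (Nat.mul_le_mul hf le_rfl) h1
  have hcop : (aX p f).Coprime (lvX p f n) := by
    have h1 : (aX p f).Coprime f := by
      unfold aX
      rw [Nat.coprime_add_mul_right_left]
      exact Nat.coprime_one_left _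
    have h2 : (aX p f).Coprime (q0 p) := by
      have h3 : aX p f = 1 + (2 * f) * q0 p := by unfold aX; ring
      rw [h3, Nat.coprime_add_mul_right_left]
      exact Nat.coprime_one_left _
    have h4 : (aX p f).Coprime (p ^ n) := (h2.coprime_dvd_right (dvd_q0 p)).pow_right n
    exact (h1.mul_right h2).mul_right h4
  refine ⟨by omega, ?_, ?_, ?_, ?_, ?_, hcop, ?_, ?_, ?_⟩
  · unfold lvX; ring
  · unfold lvX
    exact ((dvd_q0 p).mul_left f).mul_right _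
  · have h1 := not_dvd (A := A) (B := B) (lvX p f n) 2 (by norm_num) (by omega)
    exact_mod_cast h1
  · intro h
    have h1 := not_dvd (A := A) (B := B) (lvX p f n) 1 (by norm_num) (by omega)
    rw [Nat.cast_one] at h1
    exact h1 (isUnit_iff_dvd_one.mp h)
  · exact ⟨q0 p * f, by unfold aX; ring⟩
  · have h1 : IsCoprime ((aX p f : ℕ) : ℤ) ((lvX p f n : ℕ) : ℤ) := Nat.isCoprime_iff_coprime.mpr hcop
    have h2 := h1.map (Int.castRingHom (OO A B))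
    simpa using h2
  · intro q hq hd
    have h1 : nm ((lvX p f n : ℕ) : OO A B) = ((lvX p f n : ℕ) : ℤ) ^ 2 := by
      simp [nm]
    rw [h1] at hd
    have h2 : q ∣ lvX p f n ^ 2 := by exact_mod_cast hd
    have h3 : q ∣ lvX p f n := hq.dvd_of_dvd_pow h2
    unfold lvX at h3
    rcases hq.dvd_mul.mp h3 with h4 | h4
    · rcases hq.dvd_mul.mp h4 with h5 | h5
      · exact h5.mul_left p
      · exact (hq.dvd_of_dvd_pow (h5.trans (q0_dvd p))).mul_right f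
    · exact (hq.dvd_of_dvd_pow h4).mul_right f
  · intro k hk
    have h1 : k.Coprime p := Nat.Coprime.coprime_mul_right_right hk
    have h2 : k.Coprime f := Nat.Coprime.coprime_mul_left_right hk
    have h3 : k.Coprime (q0 p) := (h1.pow_right 2).coprime_dvd_right (q0_dvd p)
    exact (h2.mul_right h3).mul_right (h1.pow_right n)


open Pool.Agent.MUXZ.Z_INW in
/-- the inputs from block W -/
theorem tl_INW (hLVX : Zl_LVX) (hLVF : Zl_SUB) (hMEM : Sy_MEM) (hTOW : Sy_TOW) (hSUC : Sy_SUC)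
    (hI1 : Sy_I1) (hKOL : Sy_KOL) : Zl_INW := by
  intro p A B f hS T ι _ R H θ hθ K₀ K Bn _ _ _ hX hKF hHK hk hk₀
  have hp : p.Prime := hS.hp
  have : Fact p.Prime := ⟨hp⟩
  have hc : MUX.CQ A B := hS.cq
  have hnl : IsNL (⊤ : Ideal (OO A B)) (R.L R.i0) (R.om R.i0) := by
    have h1 := R.nl R.i0
    rw [R.b0] at h1
    exact h1
  have hNL : NLex A B := ⟨_, _, _, hnl⟩
  have hm0 : ∀ n, lvX p f n ≠ 0 := fun n => (hLVX p A B f hS n).1
  have hsub : ∀ n, Sub (K ⊔ Bn n) (RF (idl (A := A) (B := B) (lvX p f n))) := fun n =>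
    hLVF p A B f hS T hNL K hKF n (Bn n) (hX.b.lay n)
  have hsub₀ : ∀ n, Sub (K₀ ⊔ Bn n) (RF (idl (A := A) (B := B) (lvX p f n))) := fun n =>
    hLVF p A B f hS T hNL K₀ (fun y hy => hKF y (hX.le hy)) n (Bn n) (hX.b.lay n)
  have hM := fun n => hMEM A B (RF (idl (A := A) (B := B) (lvX p f n))) (T.fin _ (idl_ne (hm0 n)))
    (T.gal _ (idl_ne (hm0 n))) (T.comm _ (idl_ne (hm0 n))) (K ⊔ Bn n) (hk n) (hsub n) (θ n)
    (hθ.ne n)
  have hM₀ := fun n => hMEM A B (RF (idl (A := A) (B := B) (lvX p f n)))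
    (T.fin _ (idl_ne (hm0 n))) (T.gal _ (idl_ne (hm0 n))) (T.comm _ (idl_ne (hm0 n)))
    (K₀ ⊔ Bn n) (hk₀ n) (hsub₀ n) (θ n) (hθ.ne n)
  have hmem : ∀ n, cW (hk n) (θ n) ∈ K ⊔ Bn n := by
    intro n
    rw [(hM n).1]
    exact ((hM n).2.1 _).1
  have hne : ∀ n, cW (hk n) (θ n) ≠ 0 := by
    intro n
    rw [(hM n).1]
    exact ((hM n).2.1 _).2
  have hmem₀ : ∀ n, cW (hk₀ n) (θ n) ∈ K₀ ⊔ Bn n := by
    intro n
    rw [(hM₀ n).1]
    exact ((hM₀ n).2.1 _).1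
  obtain ⟨n0, hn0, hSUC'⟩ := hSUC A B hc T (R.L R.i0) (R.om R.i0) hnl
  obtain ⟨n1, hn1, hKOL'⟩ := hKOL A B hc T (p * f) ι R
  have ha0 : aX p f ≠ 0 := by
    intro h0
    have h1 := (hLVX p A B f hS 0).2.2.2.2.2.1
    rw [h0] at h1
    exact absurd h1 (by decide)
  have haZ : (aX p f : ℤ) ≠ 0 := by exact_mod_cast ha0
  have hhalf : IsHalf (R.L R.i0) ((aX p f : ℤ) : ℂ) (H R.i0) := by
    have h1 := hθ.half R.i0
    rw [Int.cast_natCast]
    exact h1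
  have hcopO : ∀ n, IsCoprime ((aX p f : ℤ) : OO A B) ((lvX p f n : ℕ) : OO A B) := fun n =>
    (hLVX p A B f hS n).2.2.2.2.2.2.2.1
  have hfn0 := hS.f0
  set S : Finset ℕ := n0.primeFactors ∪ n1.primeFactors ∪ (aX p f).primeFactors ∪
    (p * f).primeFactors with hSdef
  have hSprime : ∀ q ∈ S, q.Prime := by
    intro q hq
    rw [hSdef] at hq
    simp only [Finset.mem_union] at hq
    rcases hq with ((h | h) | h) | h <;> exact Nat.prime_of_mem_primeFactors h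
  have hS0 : ∀ q : ℕ, q.Prime → q ∣ n0 → q ∈ S := by
    intro q hq hd
    rw [hSdef]
    simp only [Finset.mem_union]
    exact Or.inl (Or.inl (Or.inl (Nat.mem_primeFactors.2 ⟨hq, hd, hn0⟩)))
  have hS1 : ∀ q : ℕ, q.Prime → q ∣ n1 → q ∈ S := by
    intro q hq hd
    rw [hSdef]
    simp only [Finset.mem_union]
    exact Or.inl (Or.inl (Or.inr (Nat.mem_primeFactors.2 ⟨hq, hd, hn1⟩)))
  have hSa : ∀ q : ℕ, q.Prime → (q : ℤ) ∣ (aX p f : ℤ) → q ∈ S := by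
    intro q hq hd
    have h1 : q ∣ aX p f := by exact_mod_cast hd
    rw [hSdef]
    simp only [Finset.mem_union]
    exact Or.inl (Or.inr (Nat.mem_primeFactors.2 ⟨hq, h1, ha0⟩))
  have hSm : ∀ n, ∀ q : ℕ, q.Prime → (q : ℤ) ∣ nm ((lvX p f n : ℕ) : OO A B) → q ∈ S := by
    intro n q hq hd
    have h1 := (hLVX p A B f hS n).2.2.2.2.2.2.2.2.1 q hq hd
    rw [hSdef]
    simp only [Finset.mem_union]
    exact Or.inr (Nat.mem_primeFactors.2 ⟨hq, h1, mul_ne_zero hp.ne_zero hfn0⟩)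
  have hHas : ∀ n, HasH A B (K ⊔ Bn n) := fun n x hx =>
    (le_sup_left : K ≤ K ⊔ Bn n) (hHK x hx)
  refine ⟨S, ?_⟩
  constructor
  case mem => exact hmem
  case ne => exact hne
  case mem₀ => exact hmem₀
  case norm =>
    intro n
    exact hTOW A B (RF (idl (A := A) (B := B) (lvX p f n))) (T.fin _ (idl_ne (hm0 n)))
      (T.gal _ (idl_ne (hm0 n))) (T.comm _ (idl_ne (hm0 n))) (K₀ ⊔ Bn n) (K ⊔ Bn n) (hk₀ n) (hk n)
      (sup_le_sup_right hX.le _) (hsub n) (θ n) (hθ.ne n) (hmem n)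
  case prime => exact hSprime
  case su =>
    intro n _
    exact hSUC' _ (natO_ne (hm0 n)) (hLVX p A B f hS n).2.2.2.2.1 (aX p f : ℤ) (H R.i0) haZ
      (hcopO n) hhalf S hS0 hSa (hSm n) (θ n) (hθ.om n) (K ⊔ Bn n) (hk n) (hsub n) _ rfl
  case nrm =>
    intro n _
    let akD : Algebra (kk A B) ↥(K ⊔ Bn n) := algC (hk n)
    let akL : Algebra (kk A B) ↥(K ⊔ Bn (n + 1)) := algC (hk (n + 1))
    intro σ hσ
    have hle : K ⊔ Bn n ≤ K ⊔ Bn (n + 1) := sup_le_sup_left (hX.b.mono (Nat.le_succ n)) K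
    have hord : orderOf σ = p := by
      have h1 := ordP p (kk A B) K Bn hX.b (n + 1) n (Nat.le_succ n) (hk n) (hk (n + 1)) σ hσ
      rw [h1]
      simp
    have hlev : ((lvX p f (n + 1) : ℕ) : OO A B) = (p : OO A B) * ((lvX p f n : ℕ) : OO A B) := by
      rw [(hLVX p A B f hS n).2.1]
      push_cast
      rfl
    have hbm : (p : OO A B) ∣ ((lvX p f n : ℕ) : OO A B) := by
      obtain ⟨t, ht⟩ := (hLVX p A B f hS n).2.2.1
      rw [ht]
      push_cast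
      exact dvd_mul_right _ _
    obtain ⟨C, hCH, hC0, hCe⟩ := i1' hI1 A B hc T (R.L R.i0) (R.om R.i0) hnl
      ((lvX p f n : ℕ) : OO A B) (p : OO A B) ((lvX p f (n + 1) : ℕ) : OO A B) hlev
      (natO_ne (hm0 n)) hbm (hLVX p A B f hS n).2.2.2.1 (aX p f : ℤ) (H R.i0) haZ (hcopO n)
      hhalf (θ n) (θ (n + 1)) (hθ.om n) (hθ.om (n + 1)) (K ⊔ Bn n) (K ⊔ Bn (n + 1)) (hk n)
      (hk (n + 1)) hle (hHas n) (hsub n) (hsub (n + 1)) p σ hσ hord hp.ne_zero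
      ⟨cW (hk (n + 1)) (θ (n + 1)), hmem (n + 1)⟩ rfl
    exact ⟨C, hHK C hCH, hC0, hCe⟩
  case kol =>
    intro n _
    let akD : Algebra (kk A B) ↥(K ⊔ Bn n) := algC (hk n)
    have h1 := hKOL' p hp _ (natO_ne (hm0 n)) (hLVX p A B f hS n).2.2.2.1 (aX p f : ℤ)
      (H R.i0) haZ (hcopO n) hhalf S hS1 hSa (hSm n) (θ n) (hθ.om n) (K ⊔ Bn n) (hk n) (hHas n)
      (hsub n) ⟨cW (hk n) (θ n), hmem n⟩ rfl
    refine KolInP.mono ?_ h1
    intro g hg x hx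
    exact hg x (hHK _ hx)

end

end Pool.Agent.OBZ
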