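import Pool.Agent.OB.ZL
import Pool.Agent.OB.I_SUB
import Pool.Agent.OB.T_BAS
import Pool.Agent.MUX.I_ARF
import Pool.Agent.MU3.I2AbsT

/-!
# OB, block Z, module INR (helper27): the fields `K B_n` are of level `InRF` for every `n`, if `p ∤ [K : k]`
-/

set_option autoImplicit false

namespace Pool.Agent.OBZ

open _root_.MU3 Pool.Agent.MU3 Pool.Agent.MU3A Pool.Agent.MU3B Pool.Agent.RI Pool.Agent.RID
  Pool.Agent.MUX Pool.Agent.MUXU Pool.Agent.MUXK Pool.Agent.MUXI Pool.Agent.MUXJ Pool.Agent.NS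
  Pool.Agent.OB Pool.Agent.OBT
open Pool.Agent.MU3I (zt)
open Pool.Agent.NSRD (lvR)

noncomputable section

namespace INR

open Pool.Agent.OBI.SUBx

variable {p : ℕ} {A B : ℤ} {P : Ideal (OO A B)} {V : ValuationSubring ℂ}

/-- `c ≡ 1` modulo `f P` implies `c^p ≡ 1` modulo `f p` -/
theorem pow_one_mem (hb : So_BAS) (hc : CaseO p 2 A B P V) (f : ℕ) {c : OO A B}
    (h : c - 1 ∈ idl (A := A) (B := B) f * P) : c ^ p - 1 ∈ idl (A := A) (B := B) (f * p) := by
  obtain ⟨y, hy, hyc⟩ := Ideal.mem_span_singleton_mul.1 h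
  have hp2 : 2 ≤ p := hc.pp.two_le
  have h1 : y ^ p ∈ idl (A := A) (B := B) p := by
    rw [← sq_eq hb hc]
    exact Ideal.pow_le_pow_right hp2 (Ideal.pow_mem_pow hy p)
  obtain ⟨z, hz⟩ := Ideal.mem_span_singleton'.1 h1
  have hc1 : c = 1 + ((f : ℕ) : OO A B) * y := by rw [hyc]; ring
  have h2 := add_pow_prime_eq hc.pp (1 : OO A B) (((f : ℕ) : OO A B) * y)
  rw [← hc1] at h2
  set s : OO A B := ∑ k ∈ Finset.Ioo 0 p, (1 : OO A B) ^ (k - 1) *
    (((f : ℕ) : OO A B) * y) ^ (p - k - 1) * ((p.choose k / p : ℕ) : OO A B) with hs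
  have h3 : c ^ p - 1 = ((f : ℕ) : OO A B) ^ p * y ^ p + (p : OO A B) * (((f : ℕ) : OO A B) * y) * s := by
    rw [h2]
    ring
  rw [h3, ← hz]
  have h4 : ((f : ℕ) : OO A B) ^ p = ((f : ℕ) : OO A B) * ((f : ℕ) : OO A B) ^ (p - 1) := by
    rw [← pow_succ']
    congr 1
    omega
  rw [h4]
  refine Ideal.mem_span_singleton'.2 ⟨((f : ℕ) : OO A B) ^ (p - 1) * z + y * s, ?_⟩
  push_cast
  ring

/-- `σ^j` acts through `a^j` -/
theorem pow_IA (h1 : Si_IAF) (hq : CQ A B) (hT : TorX A B) (hNL : NLex A B) {m : Ideal (OO A B)}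
    (hm : m ≠ ⊥) {σ : ℂ ≃+* ℂ} {a : Ideal (OO A B)} (ha : IA σ m a) (j : ℕ) :
    ∃ τ : ℂ ≃+* ℂ, IA τ m (a ^ (j + 1)) ∧ ∀ x, τ x = σ^[j + 1] x := by
  obtain ⟨-, -, i3, -⟩ := h1 A B hq hT hNL m hm
  induction j with
  | zero =>
    refine ⟨σ, ?_, fun x => rfl⟩
    rw [zero_add, pow_one]
    exact ha
  | succ j ih =>
    obtain ⟨τ, hτ, hτx⟩ := ih
    refine ⟨τ.trans σ, ?_, fun x => ?_⟩
    · rw [pow_succ]
      exact i3 τ σ _ a hτ ha
    · rw [Function.iterate_succ_apply', ← hτx]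
      rfl

/-- a subfield of the ray class field is a Galois extension of `k` -/
theorem gal_sub (hT : TorX A B) {m : Ideal (OO A B)} (hm : m ≠ ⊥) {K : IntermediateField ℚ ℂ}
    (hk : kk A B ≤ K) (hK : ∀ y ∈ K, y ∈ RF m) :
    (letI := algC hk; IsGalois (kk A B) K) ∧ (letI := algC hk; FiniteDimensional (kk A B) K) := by
  have hfd := hT.fin m hm
  have hg := hT.gal m hm
  have hle : IntermediateField.extendScalars hk ≤ RF m := fun y hy => hK y hy
  let E : IntermediateField (kk A B) (RF m) := IntermediateField.restrict hle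
  have h1 : IsGalois (kk A B) E := Pool.Agent.MU3.I2A.gal_fixed (hT.comm m hm) E
  have e : E ≃ₐ[kk A B] (IntermediateField.extendScalars hk) :=
    (IntermediateField.restrict_algEquiv hle).symm
  have h2 : IsGalois (kk A B) (IntermediateField.extendScalars hk) := IsGalois.of_algEquiv e
  have h3 : FiniteDimensional (kk A B) (IntermediateField.extendScalars hk) :=
    Module.Finite.equiv e.toLinearEquiv
  let aK : Algebra (kk A B) K := algC hk
  exact ⟨(isGalois_algC hk).2 h2, Module.Finite.equiv (extEquiv hk).toLinearEquiv⟩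

/-- the field `K` itself -/
theorem K_le (h1 : Si_IAF) (hb : So_BAS) {f : ℕ} (hS : SetO p 2 A B P V f) (hT : TorX A B)
    (hNL : NLex A B) (K : IntermediateField ℚ ℂ) (hk : kk A B ≤ K)
    (hd : ¬ p ∣ Module.finrank (kk A B) (IntermediateField.extendScalars hk))
    (hK : ∀ y ∈ K, y ∈ RF (idl (A := A) (B := B) (lvX p f 0))) (m M : Ideal (OO A B))
    (hM : M ≠ ⊥) (hMm : M ≤ m) (hM0 : M ≤ idl (lvX p f 0)) (hmP : m ≤ idl f * P)
    (σ : ℂ ≃+* ℂ) (hfix : FixK A B σ) (hσ : ∀ y ∈ RF m, σ y = y) : ∀ y ∈ K, σ y = y := by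
  have hc : CaseO p 2 A B P V := hS.toCaseO
  have hC : CQ A B := hc.cq
  have hp2 : p ≠ 2 := by have := hc.p5; omega
  have hm0 : idl (A := A) (B := B) (lvX p f 0) ≠ ⊥ := fun h => hM (le_bot_iff.1 (h ▸ hM0))
  have hmb : m ≠ ⊥ := fun h => hM (le_bot_iff.1 (h ▸ hMm))
  obtain ⟨i1, -, -, -, -, -, i7, -⟩ := h1 A B hC hT hNL M hM
  obtain ⟨a, ha⟩ := i1 σ hfix
  have ha0 : IA σ (idl (A := A) (B := B) (lvX p f 0)) a := i7 σ a _ hM0 ha
  have ham : IA σ m a := i7 σ a _ hMm ha
  obtain ⟨-, -, -, -, -, j6, -⟩ := h1 A B hC hT hNL m hmb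
  obtain ⟨c, hc1, hca⟩ := (j6 σ a ham).1 hσ
  have hcp : c ^ p - 1 ∈ idl (A := A) (B := B) (lvX p f 0) := by
    have h2 := pow_one_mem hb hc f (hmP hc1)
    have e : lvX p f 0 = f * p := by
      unfold lvX
      rw [show q0 p = p from if_neg hp2]
      ring
    rw [e]
    exact h2
  obtain ⟨τ, hτ, hτx⟩ := pow_IA h1 hC hT hNL hm0 ha0 (p - 1)
  have hp1 : p - 1 + 1 = p := by have := hc.p5; omega
  rw [hp1] at hτ hτx
  obtain ⟨-, -, -, -, -, k6, -⟩ := h1 A B hC hT hNL _ hm0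
  have h3 : ∀ y ∈ RF (idl (A := A) (B := B) (lvX p f 0)), τ y = y := by
    refine (k6 τ _ hτ).2 ⟨c ^ p, hcp, ?_⟩
    rw [hca, Ideal.span_singleton_pow]
  obtain ⟨hgal, hfd⟩ := gal_sub hT hm0 hk hK
  let aK : Algebra (kk A B) K := algC hk
  have hgal' : IsGalois (kk A B) K := hgal
  have hfd' : FiniteDimensional (kk A B) K := hfd
  obtain ⟨ρ, hρ⟩ := Pool.Agent.MUXI.I_ARF.restr hfix K hk hgal
  have hρ' : ∀ y : K, σ (y : ℂ) = ((ρ y : K) : ℂ) := hρ
  have hpow : ∀ (j : ℕ) (y : K), σ^[j] (y : ℂ) = (((ρ ^ j) y : K) : ℂ) := by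
    intro j
    induction j with
    | zero => intro y; rfl
    | succ j ih =>
      intro y
      rw [Function.iterate_succ_apply', ih, hρ', pow_succ']
      rfl
  have hρp : ρ ^ p = 1 := by
    ext y
    rw [← hpow, ← hτx, h3 _ (hK _ y.2)]
    rfl
  have hcard : Nat.card (K ≃ₐ[kk A B] K) = Module.finrank (kk A B) K :=
    IsGalois.card_aut_eq_finrank _ _
  have hfr : Module.finrank (kk A B) K =
      Module.finrank (kk A B) (IntermediateField.extendScalars hk) := finrank_algC hk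
  have hord : orderOf ρ ∣ p := orderOf_dvd_of_pow_eq_one hρp
  have hord2 : orderOf ρ ∣ Nat.card (K ≃ₐ[kk A B] K) := orderOf_dvd_natCard ρ
  have hρ1 : ρ = 1 := by
    rcases (Nat.dvd_prime hc.pp).1 hord with h4 | h4
    · exact orderOf_eq_one_iff.1 h4
    · exact absurd (hfr ▸ hcard ▸ h4 ▸ hord2) hd
  intro y hy
  have h5 := hρ' ⟨y, hy⟩
  rw [hρ1] at h5
  exact h5

end INR

open INR in
open Pool.Agent.OBI.SUBx in
/-- (INR) the fields `K B_n` are of level `InRF` -/
theorem o_INR (h1 : Si_IAF) : Zl_INR := by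
  intro p er A B P V f hS hT hNL K hk hd hK n Bn hlay
  have hb : So_BAS := Pool.Agent.OBT.o_BAS
  have hc : CaseO p er A B P V := hS.toCaseO
  have hC : CQ A B := hc.cq
  have hp2 : p ≠ 2 := by have := hc.p5; omega
  have hp0 : p ≠ 0 := hc.pp.ne_zero
  have hpn : p ^ (n + 1) ≠ 0 := pow_ne_zero _ hp0
  have hlv : lvX p f n = f * p ^ (n + 1) := by
    unfold lvX
    rw [show q0 p = p from if_neg hp2]
    ring
  have hlv0 : lvX p f n ≠ 0 := by
    rw [hlv]; exact Nat.mul_ne_zero hS.f0 hpn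
  have hm : idl (A := A) (B := B) (lvX p f n) ≠ ⊥ := Pool.Agent.NST.ALT.idl_ne hC hlv0
  have hdiv : ∀ {M N : ℕ}, M ∣ N → idl (A := A) (B := B) N ≤ idl M := by
    intro M N h
    rw [Ideal.span_singleton_le_span_singleton]
    obtain ⟨c, rfl⟩ := h
    exact ⟨c, by push_cast; ring⟩
  have hle : idl (A := A) (B := B) (lvX p f n) ≤ idl (p ^ (n + 1)) :=
    hdiv ⟨f, by rw [hlv]; ring⟩
  have hle0 : idl (A := A) (B := B) (lvX p f n) ≤ idl (lvX p f 0) :=
    hdiv ⟨p ^ n, by unfold lvX; ring⟩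
  constructor
  · exact o_SUB h1 p A B f (setQ_O hS) hT hNL K hK n Bn hlay
  · rintro rfl
    have hlvR : lvR P f n = idl f * (Ideal.span {((p ^ n : ℕ) : OO A B)} * P) := by
      unfold Pool.Agent.NSRD.lvR
      rw [pow_eq hb hc]
    have hle1 : idl (A := A) (B := B) (lvX p f n) ≤ lvR P f n := by
      rw [hlvR, Ideal.span_singleton_le_iff_mem]
      have e1 : ((lvX p f n : ℕ) : OO A B) =
          ((f : ℕ) : OO A B) * (((p ^ n : ℕ) : OO A B) * ((p : ℕ) : OO A B)) := by
        rw [hlv]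
        push_cast
        ring
      rw [e1]
      exact Ideal.mul_mem_mul (Ideal.mem_span_singleton_self _)
        (Ideal.mul_mem_mul (Ideal.mem_span_singleton_self _) hc.mem)
    have hfield : lvR P f n ≤ idl f * P := by
      unfold Pool.Agent.NSRD.lvR
      refine Ideal.mul_mono_right ?_
      exact Ideal.pow_le_self (by omega)
    have hmR : lvR P f n ≠ ⊥ := by
      intro h
      rw [h, le_bot_iff] at hle1
      exact hm hle1
    have halg : Algebra.IsAlgebraic ℚ
        ((RF (lvR P f n)).restrictScalars ℚ : IntermediateField ℚ ℂ) := by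
      refine ⟨fun x => (IntermediateField.isAlgebraic_iff).2 ?_⟩
      have h2 := hT.mono _ _ hle1 x.2
      exact Pool.Agent.NST.ALT.alg_RF hC hT hlv0 h2
    have hK' : K ≤ IntermediateField.restrictScalars ℚ (RF (lvR P f n)) := by
      intro x hx
      refine u_AUF ((RF (lvR P f n)).restrictScalars ℚ) halg x (fun σ hσ => ?_)
      have hσ' : ∀ y ∈ RF (lvR P f n), σ y = y := fun y hy => hσ y hy
      have hfix : FixK A B σ :=
        hσ' _ (IntermediateField.algebraMap_mem (RF (lvR P f n))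
          (⟨wC A B, IntermediateField.mem_adjoin_simple_self ℚ (wC A B)⟩ : kk A B))
      exact K_le h1 hb hS hT hNL K hk hd hK (lvR P f n) _ hm hle1 hle0 hfield σ hfix hσ' x hx
    have hz : ∀ z : ℂ, z ^ p ^ (n + 1) = 1 → z ∈ RF (lvR P f n) := by
      intro z hz
      have key := u_AUF ((RF (lvR P f n)).restrictScalars ℚ) halg z (fun σ hσ => by
        have hσ' : ∀ y ∈ RF (lvR P f n), σ y = y := fun y hy => hσ y hy
        have hfix : FixK A B σ :=
          hσ' _ (IntermediateField.algebraMap_mem (RF (lvR P f n))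
            (⟨wC A B, IntermediateField.mem_adjoin_simple_self ℚ (wC A B)⟩ : kk A B))
        obtain ⟨b, L, om, hL⟩ := hNL
        obtain ⟨a, hcop, ha⟩ := hT.act (idl (lvX p f n)) hm σ hfix
        obtain ⟨b', L', om', mu, hL', hA⟩ := ha b L om hL
        have hA' : ActI σ (lvR P f n) a L L' mu := by
          refine ⟨hA.kap, ?_, hA.isq, fun z hz => hA.act z fun x hx => hz x (hle1 hx)⟩
          rw [Ideal.isCoprime_iff_sup_eq] at hcop ⊢
          rw [eq_top_iff, ← hcop]
          exact sup_le_sup_left hle1 a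
        obtain ⟨c, hc1, hca⟩ := (hT.triv _ a σ b L L' om mu hmR hfix hL hA' hL'.nrm).1 hσ'
        have h3 := (hT.zeta (p ^ (n + 1)) (idl (lvX p f n)) a σ b L L' om mu hm hfix
          hpn hle hL hA z hz).2
        rw [h3, hca]
        have h4 := nm_one hb hc f n hc1
        have hc0 : c ≠ 0 := by
          rintro rfl
          have h6 : (0 - 1 : OO A B) ∈ P := by
            have h7 : lvR P f n ≤ P := by
              rw [hlvR]
              exact (Ideal.mul_le_right).trans Ideal.mul_le_right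
            exact h7 hc1
          apply hc.prime.ne_top
          rw [Ideal.eq_top_iff_one]
          have h8 := P.neg_mem h6
          rwa [zero_sub, neg_neg] at h8
        have hnn : 0 ≤ nm c := by
          have h6 : 4 * nm c = (2 * c.re + B * c.im) ^ 2 - (B ^ 2 + 4 * A) * c.im ^ 2 := by
            unfold nm
            ring
          have h7 := hC.neg
          nlinarith [sq_nonneg (2 * c.re + B * c.im), sq_nonneg c.im]
        have h5 : ((nI (sp c) : ℕ) : ℤ) = nm c := by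
          rw [Pool.Agent.MUX.nI_sp hC hc0]
          exact Int.natAbs_of_nonneg hnn
        obtain ⟨k, hk⟩ : ∃ k : ℕ, nI (sp c) = 1 + p ^ (n + 1) * k := by
          have h0 : 1 ≤ nI (sp c) := by
            have : nI (sp c) ≠ 0 := nI_ne_zero hC (by
              rw [ne_eq, Ideal.span_singleton_eq_bot]; exact hc0)
            omega
          have h6 : ((p ^ (n + 1) : ℕ) : ℤ) ∣ ((nI (sp c) - 1 : ℕ) : ℤ) := by
            rw [Nat.cast_sub h0, h5]
            exact_mod_cast h4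
          obtain ⟨k, hk⟩ := Int.natCast_dvd_natCast.1 h6
          exact ⟨k, by omega⟩
        rw [hk, pow_add, pow_one, pow_mul, hz, one_pow, mul_one])
      exact key
    intro y hy
    exact sup_le_F hc.pp hp2 hlay _ hK' hz hy

end

end Pool.Agent.OBZ
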